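import Mathlib

set_option autoImplicit false

namespace Pool.Agent.H15.AC

open MeasureTheory Set

lemma vol_inter (a b c d : ℝ) :
    volume.real (Ico a b ∩ Ioc c d) = max (min b d - max a c) 0 := by
  have h : (Ico a b ∩ Ioc c d : Set ℝ) =ᵐ[volume] (Ioc a b ∩ Ioc c d : Set ℝ) :=
    ae_eq_set_inter Ico_ae_eq_Ioc (ae_eq_refl _)
  rw [measureReal_congr h, Ioc_inter_Ioc, Real.volume_real_Ioc]

lemma tri (i j : ℤ) (u : ℝ) :
    ∫ t : ℝ, (Ico (i:ℝ) (i+1)).indicator (fun _ => (1:ℝ)) t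
      * (Ico (j:ℝ) (j+1)).indicator (fun _ => (1:ℝ)) (u - t)
    = (if i + j = ⌊u⌋ then Int.fract u else 0) + (if i + j = ⌊u⌋ - 1 then 1 - Int.fract u else 0) := by
  have e : (fun t : ℝ => (Ico (i:ℝ) (i+1)).indicator (fun _ => (1:ℝ)) t
      * (Ico (j:ℝ) (j+1)).indicator (fun _ => (1:ℝ)) (u - t))
      = (Ico (i:ℝ) (i+1) ∩ Ioc (u - j - 1) (u - j)).indicator (fun _ => (1:ℝ)) := by
    ext t
    have : u - t ∈ Ico (j:ℝ) (j+1) ↔ t ∈ Ioc (u - j - 1) (u - j) := by
      simp only [mem_Ico, mem_Ioc]; constructor <;> rintro ⟨h1, h2⟩ <;> constructor <;> linarith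
    by_cases h1 : t ∈ Ico (i:ℝ) (i+1) <;> by_cases h2 : t ∈ Ioc (u - j - 1) (u - j) <;>
      simp [indicator, this, h1, h2]
  rw [e, integral_indicator (measurableSet_Ico.inter measurableSet_Ioc), setIntegral_const,
    vol_inter, smul_eq_mul, mul_one]
  have h1 := Int.floor_add_fract u
  have h2 := Int.fract_nonneg u
  have h3 := Int.fract_lt_one u
  generalize Int.fract u = r at *
  generalize ⌊u⌋ = m at *
  subst h1
  by_cases c1 : i + j = m
  · have : (m:ℝ) = i + j := by exact_mod_cast c1.symm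
    rw [if_pos c1, if_neg (by omega), this, min_eq_right (by linarith),
      max_eq_left (a := (i:ℝ)) (by linarith), max_eq_left (by linarith)]
    ring
  by_cases c2 : i + j = m - 1
  · have : (m:ℝ) = i + j + 1 := by exact_mod_cast (by omega : m = i + j + 1)
    rw [if_neg c1, if_pos c2, this, min_eq_left (by linarith),
      max_eq_right (a := (i:ℝ)) (by linarith), max_eq_left (by linarith)]
    ring
  rw [if_neg c1, if_neg c2, add_zero]
  apply max_eq_right
  rcases (by omega : m + 1 ≤ i + j ∨ i + j + 2 ≤ m) with h | h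
  · have : (m:ℝ) + 1 ≤ i + j := by exact_mod_cast h
    linarith [min_le_right ((i:ℝ)+1) (m + r - j), le_max_left (i:ℝ) (m + r - j - 1)]
  · have : (i:ℝ) + j + 2 ≤ m := by exact_mod_cast h
    linarith [min_le_left ((i:ℝ)+1) (m + r - j), le_max_right (i:ℝ) (m + r - j - 1)]

theorem partA {ι : Type} (Ω : Finset ι) (f : ι → ℝ) (hf : ∀ x, 0 ≤ f x) (φ : ι → ℤ)
    (g : ℤ → ℝ) (hg : ∀ k, g k = ∑ x ∈ Ω, ∑ y ∈ Ω, if φ x + φ y = k then f x * f y else 0)
    (H L c : ℝ) (hL : 0 ≤ L) (hH : ∀ k, g k ≤ H) (K : Finset ℤ)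
    (hK : ∀ k ∈ K, L ≤ g k ∧ L ≤ g (k+1)) (hK0 : 0 < L ^ 2 * K.card)
    (hlt : (1 - c) * (∑ x ∈ Ω, f x) ^ 2 * H < L ^ 2 * K.card) :
    ¬ ∀ f : ℝ → ℝ, (∀ x, 0 ≤ f x) → MemLp f 1 volume → MemLp f 2 volume →
        eLpNorm (fun x : ℝ => ∫ t : ℝ, f t * f (x - t)) 2 volume ^ 2 ≤
          ENNReal.ofReal (1 - c) *
            eLpNorm (fun x : ℝ => ∫ t : ℝ, f t * f (x - t)) 1 volume *
            eLpNorm (fun x : ℝ => ∫ t : ℝ, f t * f (x - t)) ⊤ volume := by
  intro hall
  set I : ℤ → ℝ → ℝ := fun i => (Ico (i:ℝ) (i+1)).indicator (fun _ => (1:ℝ)) with hI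
  have hIm : ∀ i p, MemLp (I i) p volume := fun i p =>
    memLp_indicator_const p measurableSet_Ico 1 (Or.inr (by simp))
  set F : ℝ → ℝ := fun t => ∑ x ∈ Ω, f x * I (φ x) t with hF
  have hFm : ∀ p, MemLp F p volume := fun p =>
    memLp_finsetSum Ω fun x _ => (hIm (φ x) p).const_mul (f x)
  have hF0 : ∀ t, 0 ≤ F t := fun t =>
    Finset.sum_nonneg fun x _ => mul_nonneg (hf x) (indicator_nonneg (fun _ _ => zero_le_one) t)
  have key := hall F hF0 (hFm 1) (hFm 2)
  set G : ℝ → ℝ := fun x : ℝ => ∫ t : ℝ, F t * F (x - t) with hG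
  have hG0 : ∀ u, 0 ≤ G u := fun u => integral_nonneg fun t => mul_nonneg (hF0 _) (hF0 _)
  have hGe : ∀ u, G u = Int.fract u * g ⌊u⌋ + (1 - Int.fract u) * g (⌊u⌋ - 1) := by
    intro u
    have hint : ∀ i j, Integrable fun t => I i t * I j (u - t) := fun i j =>
      MemLp.integrable_mul (hIm i 2) ((hIm j 2).comp_measurePreserving
        (Measure.measurePreserving_sub_left volume u))
    have e : ∀ t, F t * F (u - t)
        = ∑ x ∈ Ω, ∑ y ∈ Ω, f x * f y * (I (φ x) t * I (φ y) (u - t)) := by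
      intro t
      simp only [hF, Finset.sum_mul_sum]
      refine Finset.sum_congr rfl fun x _ => Finset.sum_congr rfl fun y _ => by ring
    simp only [hG, e]
    rw [integral_finsetSum _ fun x _ => integrable_finsetSum _ fun y _ =>
      (hint _ _).const_mul _, hg, hg, Finset.mul_sum, Finset.mul_sum, ← Finset.sum_add_distrib]
    refine Finset.sum_congr rfl fun x _ => ?_
    rw [integral_finsetSum _ fun y _ => (hint _ _).const_mul _, Finset.mul_sum, Finset.mul_sum,
      ← Finset.sum_add_distrib]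
    refine Finset.sum_congr rfl fun y _ => ?_
    rw [integral_const_mul, tri]
    split_ifs <;> ring
  have hFi : Integrable F := memLp_one_iff_integrable.1 (hFm 1)
  have h1 : eLpNorm G 1 volume = ENNReal.ofReal ((∑ x ∈ Ω, f x) ^ 2) := by
    have hGi : Integrable G := hFi.integrable_convolution (ContinuousLinearMap.mul ℝ ℝ) hFi
    have hGv : ∫ u, G u = (∫ t, F t) * ∫ t, F t :=
      integral_convolution (ContinuousLinearMap.mul ℝ ℝ) hFi hFi
    have hFv : ∫ t, F t = ∑ x ∈ Ω, f x := by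
      rw [hF, integral_finsetSum _ fun x _ =>
        (memLp_one_iff_integrable.1 (hIm (φ x) 1)).const_mul _]
      refine Finset.sum_congr rfl fun x _ => ?_
      rw [integral_const_mul, hI]
      simp
    rw [eLpNorm_one_eq_lintegral_enorm, ← ofReal_integral_norm_eq_lintegral_enorm hGi, sq, ← hFv,
      ← hGv]
    simp only [Real.norm_eq_abs, abs_of_nonneg (hG0 _)]
  have h2 : eLpNorm G ⊤ volume ≤ ENNReal.ofReal H := by
    rw [eLpNorm_exponent_top]
    apply eLpNormEssSup_le_of_ae_bound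
    filter_upwards with u
    rw [Real.norm_eq_abs, abs_of_nonneg (hG0 _), hGe]
    nlinarith [Int.fract_nonneg u, Int.fract_lt_one u, hH ⌊u⌋, hH (⌊u⌋ - 1)]
  have h3 : ENNReal.ofReal (L ^ 2 * K.card) ≤ eLpNorm G 2 volume ^ 2 := by
    set U : Set ℝ := ⋃ k ∈ K, Ico ((k:ℝ)+1) (k+2) with hU
    have hUm : MeasurableSet U := Finset.measurableSet_biUnion _ fun _ _ => measurableSet_Ico
    have hUv : volume U = K.card := by
      rw [hU, measure_biUnion_finset _ fun _ _ => measurableSet_Ico]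
      · have : ∀ k : ℤ, (k:ℝ) + 2 - (k + 1) = 1 := fun k => by ring
        simp [this]
      · intro i _ j _ hij
        rw [Function.onFun, Set.disjoint_left]
        rintro t ⟨a1, a2⟩ ⟨b1, b2⟩
        have c1 : i < j + 1 := by exact_mod_cast (by linarith : (i:ℝ) < j + 1)
        have c2 : j < i + 1 := by exact_mod_cast (by linarith : (j:ℝ) < i + 1)
        omega
    have h4 : eLpNorm (U.indicator fun _ => L) 2 volume ≤ eLpNorm G 2 volume := by
      apply eLpNorm_mono
      intro u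
      rw [Real.norm_eq_abs, Real.norm_eq_abs, abs_of_nonneg (hG0 u),
        abs_of_nonneg (indicator_nonneg (fun _ _ => hL) u)]
      by_cases hu : u ∈ U
      · rw [indicator_of_mem hu, hGe]
        simp only [hU, mem_iUnion] at hu
        obtain ⟨k, hk, h5, h6⟩ := hu
        have : ⌊u⌋ = k + 1 := by rw [Int.floor_eq_iff]; push_cast; constructor <;> linarith
        rw [this, add_sub_cancel_right]
        nlinarith [Int.fract_nonneg u, Int.fract_lt_one u, (hK k hk).1, (hK k hk).2]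
      · rw [indicator_of_notMem hu]; exact hG0 u
    refine le_trans (le_of_eq ?_) (pow_le_pow_left' h4 2)
    rw [eLpNorm_indicator_const hUm two_ne_zero ENNReal.ofNat_ne_top, hUv, mul_pow,
      ← ENNReal.rpow_natCast (_ ^ _), ← ENNReal.rpow_mul, Real.enorm_eq_ofReal hL,
      ENNReal.ofReal_mul (by positivity), ENNReal.ofReal_pow hL]
    simp
  have h5 : ENNReal.ofReal (L ^ 2 * K.card)
      ≤ ENNReal.ofReal (1 - c) * ENNReal.ofReal ((∑ x ∈ Ω, f x) ^ 2) * ENNReal.ofReal H :=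
    h3.trans (key.trans (by rw [h1]; gcongr))
  rcases le_or_gt (1 - c) 0 with hc | hc
  · rw [ENNReal.ofReal_of_nonpos hc, zero_mul, zero_mul, nonpos_iff_eq_zero,
      ENNReal.ofReal_eq_zero] at h5
    linarith
  · rw [← ENNReal.ofReal_mul hc.le, ← ENNReal.ofReal_mul (by positivity)] at h5
    exact absurd h5 (not_le.2 ((ENNReal.ofReal_lt_ofReal_iff hK0).2 hlt))

end Pool.Agent.H15.AC
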