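import Pool.Agent.H15.AC1

set_option autoImplicit false

namespace Pool.Agent.H15.AC

open Finset MeasureTheory

noncomputable def a : ℕ → ℝ
  | 0 => 1
  | k + 1 => a k * (2 * k + 1) / (2 * k + 2)

lemma a_nonneg (k : ℕ) : 0 ≤ a k := by
  induction k with
  | zero => exact zero_le_one
  | succ k ih => unfold a; positivity

lemma a_conv (n : ℕ) : ∑ p ∈ antidiagonal n, a p.1 * a p.2 = 1 := by
  have sym : ∀ n : ℕ, 2 * ∑ p ∈ antidiagonal n, (p.1 : ℝ) * (a p.1 * a p.2)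
      = n * ∑ p ∈ antidiagonal n, a p.1 * a p.2 := by
    intro n
    have h := Finset.Nat.sum_antidiagonal_swap (n := n)
      (f := fun p : ℕ × ℕ => (p.1 : ℝ) * (a p.1 * a p.2))
    rw [two_mul]
    nth_rewrite 1 [← h]
    rw [← Finset.sum_add_distrib, Finset.mul_sum]
    refine Finset.sum_congr rfl fun p hp => ?_
    rw [← HasAntidiagonal.mem_antidiagonal.1 hp]
    simp only [Prod.fst_swap, Prod.snd_swap]; push_cast; ring
  induction n with
  | zero => simp [a]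
  | succ n ih =>
    have h1 := sym (n+1)
    have h2 := sym n
    rw [Finset.Nat.sum_antidiagonal_succ] at h1
    have h3 : ∑ p ∈ antidiagonal n, ((p.1 + 1 : ℕ) : ℝ) * (a (p.1 + 1) * a p.2)
        = ∑ p ∈ antidiagonal n, (p.1 : ℝ) * (a p.1 * a p.2)
          + (1/2) * ∑ p ∈ antidiagonal n, a p.1 * a p.2 := by
      rw [Finset.mul_sum, ← Finset.sum_add_distrib]
      refine Finset.sum_congr rfl fun p _ => ?_
      simp only [a]; push_cast; field_simp
    simp only [Nat.cast_zero, zero_mul, zero_add] at h1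
    rw [h3, ih] at h1
    rw [ih] at h2
    have : (0:ℝ) < ((n+1 : ℕ) : ℝ) := by positivity
    apply mul_left_cancel₀ this.ne'
    rw [← h1]; push_cast; linarith

noncomputable def wt (p : ℕ × ℕ) : ℝ := a p.1 * a p.2
lemma wt_nonneg (p : ℕ × ℕ) : 0 ≤ wt p := mul_nonneg (a_nonneg _) (a_nonneg _)

noncomputable def Z (J : Finset (ℕ × ℕ)) (s0 s1 : ℕ) : ℝ :=
  ∑ p ∈ J, ∑ q ∈ J, if p.1 + q.1 = s0 ∧ p.2 + q.2 = s1 then wt p * wt q else 0

lemma Z_aux (J : Finset (ℕ × ℕ)) (s0 s1 : ℕ) :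
    Z J s0 s1 ≤ 1 ∧ ((∀ p : ℕ × ℕ, p.1 + p.2 ≤ s0 + s1 → p ∈ J) → Z J s0 s1 = 1) := by
  set T := (antidiagonal s0 ×ˢ antidiagonal s1).image
    (fun r : (ℕ × ℕ) × (ℕ × ℕ) => ((r.1.1, r.2.1), (r.1.2, r.2.2))) with hT
  have hTs : ∑ r ∈ T, wt r.1 * wt r.2 = 1 := by
    rw [hT, Finset.sum_image]
    · rw [Finset.sum_product, ← mul_one (1:ℝ)]
      nth_rewrite 1 [← a_conv s0]
      rw [← a_conv s1, Finset.sum_mul_sum]
      refine Finset.sum_congr rfl fun p _ => Finset.sum_congr rfl fun q _ => ?_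
      simp only [wt]; ring
    · rintro ⟨⟨x1, x2⟩, x3, x4⟩ _ ⟨⟨y1, y2⟩, y3, y4⟩ _ h
      simp only [Prod.mk.injEq] at h ⊢
      tauto
  have hTm : ∀ r : (ℕ × ℕ) × (ℕ × ℕ), r ∈ T ↔ r.1.1 + r.2.1 = s0 ∧ r.1.2 + r.2.2 = s1 := by
    rintro ⟨⟨x1, x2⟩, x3, x4⟩
    simp only [hT, mem_image, mem_product, HasAntidiagonal.mem_antidiagonal, Prod.mk.injEq, Prod.exists]
    constructor
    · rintro ⟨b1, b2, b3, b4, h, ⟨rfl, rfl⟩, rfl, rfl⟩; exact h
    · intro h; exact ⟨x1, x3, x2, x4, h, ⟨rfl, rfl⟩, rfl, rfl⟩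
  have hZ : Z J s0 s1 = ∑ r ∈ (J ×ˢ J).filter
      (fun r => r.1.1 + r.2.1 = s0 ∧ r.1.2 + r.2.2 = s1), wt r.1 * wt r.2 := by
    rw [Finset.sum_filter, Finset.sum_product]; rfl
  rw [hZ, ← hTs]
  constructor
  · apply Finset.sum_le_sum_of_subset_of_nonneg
    · intro r hr; exact (hTm r).2 (mem_filter.1 hr).2
    · intro r _ _; exact mul_nonneg (wt_nonneg _) (wt_nonneg _)
  · intro h
    congr 1
    ext r
    rw [hTm, mem_filter, mem_product]
    exact ⟨fun h => h.2, fun h2 => ⟨⟨h _ (by omega), h _ (by omega)⟩, h2⟩⟩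

def JW (W : ℕ) : Finset (ℕ × ℕ) := (range (W+1) ×ˢ range (W+1)).filter fun p => p.1 + p.2 ≤ W

lemma mem_JW {W : ℕ} {p : ℕ × ℕ} : p ∈ JW W ↔ p.1 + p.2 ≤ W := by
  simp only [JW, mem_filter, mem_product, mem_range]; omega

lemma sum_JW (W : ℕ) (h : ℕ → ℝ) :
    ∑ p ∈ JW W, wt p * h (p.1 + p.2) = ∑ j ∈ range (W+1), h j := by
  rw [← Finset.sum_fiberwise_of_maps_to (t := range (W+1)) (g := fun p : ℕ × ℕ => p.1 + p.2)
    (fun p hp => by have := mem_JW.1 hp; simp; omega)]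
  refine Finset.sum_congr rfl fun j hj => ?_
  have e : (JW W).filter (fun p => p.1 + p.2 = j) = antidiagonal j := by
    ext p; have := mem_range.1 hj
    simp only [mem_filter, mem_JW, HasAntidiagonal.mem_antidiagonal]; omega
  rw [e, ← one_mul (h j), ← a_conv j, Finset.sum_mul]
  refine Finset.sum_congr rfl fun p hp => ?_
  rw [HasAntidiagonal.mem_antidiagonal.1 hp, wt]

lemma sum_JW0 (W : ℕ) (h : ℕ → ℝ) :
    ∑ p ∈ JW W, (if p.2 = 0 then wt p * h (p.1 + p.2) else 0) = ∑ j ∈ range (W+1), a j * h j := by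
  rw [← Finset.sum_filter]
  symm
  apply Finset.sum_bij (fun j _ => (j, 0))
  · intro j hj; have := mem_range.1 hj; simp [mem_JW]; omega
  · intro i _ j _ h; simpa using h
  · rintro ⟨p1, p2⟩ hp
    simp only [mem_filter, mem_JW] at hp
    exact ⟨p1, by simp; omega, by rw [hp.2]⟩
  · intro j _; simp [wt, a]

abbrev PC (n k : ℕ) : Finset (Finset (Fin n)) := powersetCard k univ

noncomputable def N (n k k' : ℕ) (m : Multiset (Fin n)) : ℝ :=
  ∑ A ∈ PC n k, ∑ A' ∈ PC n k', if A.val + A'.val = m then 1 else 0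

lemma N_eq (n k k' : ℕ) (m : Multiset (Fin n)) :
    N n k k' m = ((PC n k ×ˢ PC n k').filter fun r => r.1.val + r.2.val = m).card := by
  rw [Finset.card_filter, Finset.sum_product]; simp [N]

lemma N_le (n k k' : ℕ) (m : Multiset (Fin n)) :
    N n k k' m ≤ if m.card = k + k' then ((k + k').choose k : ℝ) else 0 := by
  rw [N_eq]
  rcases ((PC n k ×ˢ PC n k').filter fun r => r.1.val + r.2.val = m).eq_empty_or_nonempty
    with h | ⟨⟨A0, A1⟩, h⟩
  · rw [h]; split_ifs <;> simp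
  simp only [mem_filter, mem_product, mem_powersetCard_univ] at h
  obtain ⟨⟨h1, h2⟩, h3⟩ := h
  rw [if_pos (by rw [← h3, Multiset.card_add]; exact congrArg₂ _ h1 h2)]
  have : (k + k').choose k = (powersetCard k (A0.disjSum A1)).card := by
    rw [card_powersetCard, card_disjSum, h1, h2]
  rw [this]
  norm_cast
  apply Finset.card_le_card_of_injOn (fun r => (r.1 ∩ A0).disjSum (r.1 \ A0))
  · rintro ⟨A, A'⟩ hr
    simp only [coe_filter, mem_product, mem_powersetCard_univ, Set.mem_ofPred_eq] at hr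
    simp only [mem_coe, mem_powersetCard, card_disjSum]
    refine ⟨disjSum_mono inter_subset_right ?_, by rw [card_inter_add_card_sdiff, hr.1.1]⟩
    intro x hx
    have h4 : x ∈ A0.val + A1.val := by
      rw [h3, ← hr.2]; exact Multiset.mem_add.2 (Or.inl (mem_sdiff.1 hx).1)
    exact (Multiset.mem_add.1 h4).resolve_left (mem_sdiff.1 hx).2
  · rintro ⟨A, A'⟩ hr ⟨B, B'⟩ hs h
    simp only [coe_filter, mem_product, mem_powersetCard_univ, Set.mem_ofPred_eq] at hr hs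
    simp only [disjSum_inj] at h
    have e : A = B := by
      rw [← sdiff_union_inter A A0, ← sdiff_union_inter B A0, h.1, h.2]
    subst e
    have := add_left_cancel (hr.2.trans hs.2.symm)
    rw [Finset.val_inj.1 this]

lemma N_ge (n k k' : ℕ) (D : Finset (Fin n)) (h : D.card = k + k') :
    ((k + k').choose k : ℝ) ≤ N n k k' D.val := by
  rw [N_eq, ← h, ← card_powersetCard]
  norm_cast
  apply Finset.card_le_card_of_injOn (fun S => (S, D \ S))
  · intro S hS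
    simp only [mem_coe, mem_powersetCard] at hS
    simp only [coe_filter, mem_product, mem_powersetCard_univ, Set.mem_ofPred_eq]
    refine ⟨⟨hS.2, by rw [card_sdiff_of_subset hS.1]; omega⟩, ?_⟩
    rw [sdiff_val, add_tsub_cancel_of_le (val_le_iff.2 hS.1)]
  · intro S _ S' _ h; exact congrArg Prod.fst h

lemma disj_count (n k k' : ℕ) :
    (∑ A ∈ PC n k, ∑ A' ∈ PC n k', if Disjoint A A' then (1:ℝ) else 0)
      = n.choose k * (n - k).choose k' := by
  have : ∀ A ∈ PC n k, (∑ A' ∈ PC n k', if Disjoint A A' then (1:ℝ) else 0)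
      = (n - k).choose k' := by
    intro A hA
    have h1 := mem_powersetCard_univ.1 hA
    have e : (PC n k').filter (fun A' => Disjoint A A') = powersetCard k' Aᶜ := by
      ext B
      simp only [mem_filter, mem_powersetCard, subset_univ, true_and, subset_compl_iff_disjoint_left]
      tauto
    rw [← Finset.sum_filter, e]
    simp [card_compl, h1]
  rw [Finset.sum_congr rfl this]
  simp

lemma sep {Γ : Type} (S : Finset Γ) (u v : Γ → ℤ) :
    ∃ T : ℤ, ∀ x ∈ S, ∀ y ∈ S, u x + T * v x = u y + T * v y → u x = u y ∧ v x = v y := by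
  refine ⟨1 + ∑ r ∈ S ×ˢ S, |u r.1 - u r.2|, fun x hx y hy h => ?_⟩
  have h1 : |u x - u y| ≤ ∑ r ∈ S ×ˢ S, |u r.1 - u r.2| :=
    Finset.single_le_sum (f := fun r : Γ × Γ => |u r.1 - u r.2|) (a := (x, y))
      (fun _ _ => abs_nonneg _) (mem_product.2 ⟨hx, hy⟩)
  generalize ∑ r ∈ S ×ˢ S, |u r.1 - u r.2| = B at *
  have h2 := abs_le.1 h1
  have h3 : v x = v y := by
    by_contra hne
    rcases lt_or_gt_of_ne hne with h4 | h4 <;> nlinarith [abs_nonneg (u x - u y)]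
  rw [h3] at h
  exact ⟨by linarith, h3⟩

lemma homs {Γ ι : Type} [AddCommMonoid Γ] (S : Finset Γ) (e : Γ) (u : ι → Γ →+ ℤ)
    (he : ∀ i, u i e = 0) (I : Finset ι) :
    ∃ ψ : Γ →+ ℤ, ψ e = 0 ∧ ∀ x ∈ S, ∀ y ∈ S, ψ x = ψ y → ∀ i ∈ I, u i x = u i y := by
  classical
  induction I using Finset.induction_on with
  | empty => exact ⟨0, rfl, by simp⟩
  | insert i I _ ih =>
    obtain ⟨ψ, h1, h2⟩ := ih
    obtain ⟨T, hT⟩ := sep S ψ (u i)
    refine ⟨ψ + T • u i, by simp [h1, he], fun x hx y hy h j hj => ?_⟩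
    have := hT x hx y hy (by simpa using h)
    rcases mem_insert.1 hj with rfl | hj
    · exact this.2
    · exact h2 x hx y hy this.1 j hj

abbrev Γ (n : ℕ) := ℕ × Multiset (Fin n) × Multiset (Fin n)

lemma hom_exists (n : ℕ) (S : Finset (Γ n)) :
    ∃ φ : Γ n →+ ℤ, φ (1, 0, 0) = 1 ∧ ∀ x ∈ S, ∀ y ∈ S, φ x = φ y → x = y := by
  let u : Fin n ⊕ Fin n → Γ n →+ ℤ := fun i => (Nat.castAddMonoidHom ℤ).comp
    (Sum.elim (fun i => (Multiset.countAddMonoidHom i).comp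
      ((AddMonoidHom.fst _ _).comp (AddMonoidHom.snd _ _)))
      (fun i => (Multiset.countAddMonoidHom i).comp
      ((AddMonoidHom.snd _ _).comp (AddMonoidHom.snd _ _))) i)
  obtain ⟨ψ, h1, h2⟩ := homs S (1, 0, 0) u (by rintro (i | i) <;> simp [u]) univ
  let u0 : Γ n →+ ℤ := (Nat.castAddMonoidHom ℤ).comp (AddMonoidHom.fst _ _)
  obtain ⟨T, hT⟩ := sep S u0 ψ
  refine ⟨u0 + T • ψ, by simp [h1, u0], fun x hx y hy h => ?_⟩
  have h3 := hT x hx y hy (by simpa using h)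
  have h4 := h2 x hx y hy h3.2
  refine Prod.ext (by simpa [u0] using h3.1) (Prod.ext ?_ ?_)
  · ext i; simpa [u] using h4 (Sum.inl i) (mem_univ _)
  · ext i; simpa [u] using h4 (Sum.inr i) (mem_univ _)

theorem partB {ι : Type} {n : ℕ} (Ω : Finset ι) (f : ι → ℝ) (hf : ∀ x, 0 ≤ f x) (P : ι → Γ n)
    (γ : Γ n → ℝ) (hγ : ∀ s, γ s = ∑ x ∈ Ω, ∑ y ∈ Ω, if P x + P y = s then f x * f y else 0)
    (H L c : ℝ) (hL : 0 < L) (hH0 : 0 < H) (hH : ∀ s, γ s ≤ H) (Good : ι → ι → Prop)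
    [DecidableRel Good]
    (hG : ∀ x ∈ Ω, ∀ y ∈ Ω, Good x y → L ≤ γ (P x + P y) ∧ L ≤ γ (P x + P y + (1, 0, 0)))
    (h0 : 0 < ∑ x ∈ Ω, ∑ y ∈ Ω, if Good x y then f x * f y else 0)
    (hlt : (1 - c) * (∑ x ∈ Ω, f x) ^ 2 * H ^ 2
      < L ^ 2 * ∑ x ∈ Ω, ∑ y ∈ Ω, if Good x y then f x * f y else 0) :
    ¬ ∀ f : ℝ → ℝ, (∀ x, 0 ≤ f x) → MemLp f 1 volume → MemLp f 2 volume →
        eLpNorm (fun x : ℝ => ∫ t : ℝ, f t * f (x - t)) 2 volume ^ 2 ≤
          ENNReal.ofReal (1 - c) *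
            eLpNorm (fun x : ℝ => ∫ t : ℝ, f t * f (x - t)) 1 volume *
            eLpNorm (fun x : ℝ => ∫ t : ℝ, f t * f (x - t)) ⊤ volume := by
  obtain ⟨φ, h1, h2⟩ := hom_exists n ((Ω ×ˢ Ω).image fun r => P r.1 + P r.2)
  set g : ℤ → ℝ := fun k => ∑ x ∈ Ω, ∑ y ∈ Ω, if φ (P x) + φ (P y) = k then f x * f y else 0
    with hg
  have hff : ∀ x y, 0 ≤ f x * f y := fun x y => mul_nonneg (hf x) (hf y)
  have hge : ∀ s, γ s ≤ g (φ s) := by
    intro s
    rw [hγ]
    refine Finset.sum_le_sum fun x _ => Finset.sum_le_sum fun y _ => ?_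
    split_ifs with c1 c2
    · exact le_rfl
    · exact absurd (by rw [← c1, map_add]) c2
    · exact hff x y
    · exact le_rfl
  have hle : ∀ k, g k ≤ H := by
    intro k
    by_cases hk : ∃ x ∈ Ω, ∃ y ∈ Ω, φ (P x) + φ (P y) = k
    · obtain ⟨x0, hx0, y0, hy0, rfl⟩ := hk
      refine le_trans (le_of_eq ?_) (hH (P x0 + P y0))
      rw [hγ]
      refine Finset.sum_congr rfl fun x hx => Finset.sum_congr rfl fun y hy => ?_
      congr 1
      rw [← map_add, ← map_add, eq_iff_iff]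
      exact ⟨h2 _ (mem_image.2 ⟨(x, y), mem_product.2 ⟨hx, hy⟩, rfl⟩) _
        (mem_image.2 ⟨(x0, y0), mem_product.2 ⟨hx0, hy0⟩, rfl⟩), fun h => by rw [h]⟩
    · push Not at hk
      refine le_trans (le_of_eq ?_) hH0.le
      exact Finset.sum_eq_zero fun x hx => Finset.sum_eq_zero fun y hy => if_neg (hk x hx y hy)
  set K := ((Ω ×ˢ Ω).filter fun r => Good r.1 r.2).image fun r => φ (P r.1) + φ (P r.2) with hK
  have hm : (∑ x ∈ Ω, ∑ y ∈ Ω, if Good x y then f x * f y else 0) ≤ H * K.card := by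
    calc (∑ x ∈ Ω, ∑ y ∈ Ω, if Good x y then f x * f y else 0)
        ≤ ∑ x ∈ Ω, ∑ y ∈ Ω, ∑ k ∈ K, if φ (P x) + φ (P y) = k then f x * f y else 0 := by
          refine Finset.sum_le_sum fun x hx => Finset.sum_le_sum fun y hy => ?_
          rw [Finset.sum_ite_eq]
          split_ifs with c1 c2
          · exact le_rfl
          · exact absurd (mem_image.2 ⟨(x, y), mem_filter.2 ⟨mem_product.2 ⟨hx, hy⟩, c1⟩, rfl⟩) c2
          · exact hff x y
          · exact le_rfl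
      _ = ∑ k ∈ K, g k := by
          simp only [hg]
          rw [Finset.sum_comm (s := K)]
          exact Finset.sum_congr rfl fun x _ => Finset.sum_comm
      _ ≤ ∑ _k ∈ K, H := Finset.sum_le_sum fun k _ => hle k
      _ = H * K.card := by simp [mul_comm]
  have hKc : (0:ℝ) < K.card := (mul_pos_iff_of_pos_left hH0).1 (h0.trans_le hm)
  refine partA Ω f hf (fun x => φ (P x)) g (fun _ => rfl) H L c hL.le hle K ?_ (by positivity) ?_
  · intro k hk
    obtain ⟨r, hr, rfl⟩ := mem_image.1 hk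
    obtain ⟨hr1, hr2⟩ := mem_filter.1 hr
    obtain ⟨h3, h4⟩ := hG r.1 (mem_product.1 hr1).1 r.2 (mem_product.1 hr1).2 hr2
    rw [← map_add, ← h1, ← map_add]
    exact ⟨h3.trans (hge _), h4.trans (hge _)⟩
  · apply lt_of_mul_lt_mul_right _ hH0.le
    have := mul_le_mul_of_nonneg_left hm (sq_nonneg L)
    nlinarith

end Pool.Agent.H15.AC
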