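import Pool.Agent.H15.AC2

set_option autoImplicit false

namespace Pool.Agent.H15.AC

open Finset MeasureTheory

abbrev St (n : ℕ) := Σ _ : ℕ × ℕ, Finset (Fin n) × Finset (Fin n)

def Om (n : ℕ) (kA kB : ℕ → ℕ) (W : ℕ) : Finset (St n) :=
  (JW W).sigma fun p => PC n (kA (p.1 + p.2)) ×ˢ PC n (kB (p.1 + p.2))

lemma sum_Om {n : ℕ} (kA kB : ℕ → ℕ) (W : ℕ) (h : St n → ℝ) :
    ∑ X ∈ Om n kA kB W, h X = ∑ p ∈ JW W, ∑ A ∈ PC n (kA (p.1 + p.2)),
      ∑ B ∈ PC n (kB (p.1 + p.2)), h ⟨p, (A, B)⟩ := by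
  unfold Om
  rw [Finset.sum_sigma]
  exact Finset.sum_congr rfl fun p _ => Finset.sum_product _ _ _

lemma dbl {n : ℕ} (kA kB : ℕ → ℕ) (W : ℕ) (C : ℕ × ℕ → ℕ × ℕ → ℝ)
    (R R' : Finset (Fin n) → Finset (Fin n) → ℝ) :
    ∑ X ∈ Om n kA kB W, ∑ Y ∈ Om n kA kB W, C X.1 Y.1 * R X.2.1 Y.2.1 * R' X.2.2 Y.2.2
      = ∑ p ∈ JW W, ∑ q ∈ JW W, C p q
        * (∑ A ∈ PC n (kA (p.1 + p.2)), ∑ A' ∈ PC n (kA (q.1 + q.2)), R A A')
        * (∑ B ∈ PC n (kB (p.1 + p.2)), ∑ B' ∈ PC n (kB (q.1 + q.2)), R' B B') := by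
  simp only [sum_Om]
  refine Finset.sum_congr rfl fun p _ => ?_
  symm
  calc _ = ∑ q ∈ JW W, ∑ A ∈ PC n (kA (p.1 + p.2)), ∑ B ∈ PC n (kB (p.1 + p.2)),
        ∑ A' ∈ PC n (kA (q.1 + q.2)), ∑ B' ∈ PC n (kB (q.1 + q.2)), C p q * R A A' * R' B B' := by
        refine Finset.sum_congr rfl fun q _ => ?_
        rw [mul_assoc, Finset.sum_mul_sum, Finset.mul_sum]
        refine Finset.sum_congr rfl fun A _ => ?_
        rw [Finset.mul_sum]
        refine Finset.sum_congr rfl fun B _ => ?_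
        rw [Finset.sum_mul_sum, Finset.mul_sum]
        refine Finset.sum_congr rfl fun A' _ => ?_
        rw [Finset.mul_sum]
        refine Finset.sum_congr rfl fun B' _ => by ring
    _ = _ := by
        rw [Finset.sum_comm]
        exact Finset.sum_congr rfl fun A _ => Finset.sum_comm

lemma N_nonneg (n k k' : ℕ) (m : Multiset (Fin n)) : 0 ≤ N n k k' m := by
  rw [N_eq]; positivity

theorem partC (n c d V : ℕ) (δ H0 c0 : ℝ) (v : ℕ → ℝ) (hδ0 : 0 < δ) (hδ1 : δ < 1) (hH0 : 0 < H0)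
    (hv : ∀ j, 0 ≤ v j)
    (hCC : ∀ j ≤ 2 * V, ∀ j' ≤ 2 * V,
      (1 - δ) * H0 ≤ (((c + (2 * V - j)) + (c + (2 * V - j'))).choose (c + (2 * V - j)) : ℝ)
        * (((d + j) + (d + j')).choose (d + j) : ℝ) ∧
      (((c + (2 * V - j)) + (c + (2 * V - j'))).choose (c + (2 * V - j)) : ℝ)
        * (((d + j) + (d + j')).choose (d + j) : ℝ) ≤ (1 + δ) * H0)
    (hv1 : ∀ j ≤ 2 * V, (n.choose (c + (2 * V - j)) : ℝ) * (n.choose (d + j) : ℝ) ≤ v j)
    (hv2 : ∀ j ≤ 2 * V, ∀ j' ≤ 2 * V, (1 - δ) ^ 4 * (v j * v j') ≤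
      ((n.choose (c + (2 * V - j)) : ℝ) * ((n - (c + (2 * V - j))).choose (c + (2 * V - j')) : ℝ))
      * ((n.choose (d + j) : ℝ) * ((n - (d + j)).choose (d + j') : ℝ)))
    (hV : 0 < ∑ j ∈ range (2 * V + 1), v j)
    (hR : 2 * (∑ j ∈ range (2 * V + 1), v j) * (∑ j ∈ range (2 * V + 1), if V < j then v j else 0)
      + (∑ j ∈ range (2 * V + 1), a j * v j) ^ 2 ≤ δ * (∑ j ∈ range (2 * V + 1), v j) ^ 2)
    (hc : (1 - c0) * (1 + δ) ^ 2 < (1 - δ) ^ 7) :
    ¬ ∀ f : ℝ → ℝ, (∀ x, 0 ≤ f x) → MemLp f 1 volume → MemLp f 2 volume →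
        eLpNorm (fun x : ℝ => ∫ t : ℝ, f t * f (x - t)) 2 volume ^ 2 ≤
          ENNReal.ofReal (1 - c0) *
            eLpNorm (fun x : ℝ => ∫ t : ℝ, f t * f (x - t)) 1 volume *
            eLpNorm (fun x : ℝ => ∫ t : ℝ, f t * f (x - t)) ⊤ volume := by
  set kA : ℕ → ℕ := fun j => c + (2 * V - j) with hkA
  set kB : ℕ → ℕ := fun j => d + j with hkB
  set Ω := Om n kA kB (2 * V) with hΩ
  set P : St n → Γ n := fun X => (X.1.1, X.2.1.val, X.2.2.val) with hP
  set γ : Γ n → ℝ := fun s => ∑ X ∈ Ω, ∑ Y ∈ Ω, if P X + P Y = s then wt X.1 * wt Y.1 else 0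
    with hγ
  have hww : ∀ p q, 0 ≤ wt p * wt q := fun p q => mul_nonneg (wt_nonneg _) (wt_nonneg _)
  have hδ' : 0 < 1 - δ := by linarith
  have hγe : ∀ s : Γ n, γ s = ∑ p ∈ JW (2 * V), ∑ q ∈ JW (2 * V),
      (if p.1 + q.1 = s.1 then wt p * wt q else 0) * N n (kA (p.1 + p.2)) (kA (q.1 + q.2)) s.2.1
        * N n (kB (p.1 + p.2)) (kB (q.1 + q.2)) s.2.2 := by
    rintro ⟨s0, sA, sB⟩
    unfold N
    rw [← dbl kA kB (2 * V) (fun p q => if p.1 + q.1 = s0 then wt p * wt q else 0)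
      (fun A A' => if A.val + A'.val = sA then 1 else 0)
      (fun A A' => if A.val + A'.val = sB then 1 else 0)]
    refine Finset.sum_congr rfl fun X _ => Finset.sum_congr rfl fun Y _ => ?_
    simp only [hP, Prod.mk_add_mk, Prod.mk.injEq]
    by_cases c1 : X.1.1 + Y.1.1 = s0 <;> by_cases c2 : X.2.1.val + Y.2.1.val = sA <;>
      by_cases c3 : X.2.2.val + Y.2.2.val = sB <;> simp [c1, c2, c3]
  have hup : ∀ s, γ s ≤ (1 + δ) * H0 := by
    intro s
    rw [hγe]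
    have h1 := (Z_aux (JW (2 * V)) s.1 (s.2.2.card - 2 * d - s.1)).1
    refine le_trans ?_ (mul_le_of_le_one_left (by positivity) h1)
    rw [Z, Finset.sum_mul]
    refine Finset.sum_le_sum fun p hp => ?_
    rw [Finset.sum_mul]
    refine Finset.sum_le_sum fun q hq => ?_
    have h2 := N_le n (kA (p.1 + p.2)) (kA (q.1 + q.2)) s.2.1
    have h3 := N_le n (kB (p.1 + p.2)) (kB (q.1 + q.2)) s.2.2
    have h4 := N_nonneg n (kA (p.1 + p.2)) (kA (q.1 + q.2)) s.2.1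
    have h5 := N_nonneg n (kB (p.1 + p.2)) (kB (q.1 + q.2)) s.2.2
    by_cases c1 : p.1 + q.1 = s.1
    swap
    · simp [c1]
    by_cases c2 : s.2.2.card = kB (p.1 + p.2) + kB (q.1 + q.2)
    swap
    · rw [if_neg c2] at h3
      rw [le_antisymm h3 h5, mul_zero]
      split_ifs
      · exact mul_nonneg (hww _ _) (by positivity)
      · simp
    rw [if_pos c2] at h3
    have h6 : N n (kA (p.1 + p.2)) (kA (q.1 + q.2)) s.2.1
        ≤ ((kA (p.1 + p.2) + kA (q.1 + q.2)).choose (kA (p.1 + p.2)) : ℝ) := by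
      refine h2.trans ?_
      split_ifs
      · exact le_rfl
      · positivity
    rw [if_pos c1, if_pos ⟨c1, by simp only [hkB] at c2; omega⟩, mul_assoc]
    apply mul_le_mul_of_nonneg_left _ (hww _ _)
    exact (mul_le_mul h6 h3 h5 (by positivity)).trans (hCC _ (mem_JW.1 hp) _ (mem_JW.1 hq)).2
  have hlow : ∀ (s0 s1 : ℕ) (D E : Finset (Fin n)), s0 + s1 ≤ 2 * V →
      D.card + (s0 + s1) = 2 * c + 4 * V → E.card = 2 * d + (s0 + s1) →
      (1 - δ) * H0 ≤ γ (s0, D.val, E.val) := by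
    intro s0 s1 D E h1 h2 h3
    have hZ := (Z_aux (JW (2 * V)) s0 s1).2 fun p hp => mem_JW.2 (by omega)
    refine le_trans (le_of_eq (?_ : _ = Z (JW (2 * V)) s0 s1 * ((1 - δ) * H0))) ?_
    · rw [hZ, one_mul]
    rw [hγe, Z, Finset.sum_mul]
    refine Finset.sum_le_sum fun p hp => ?_
    rw [Finset.sum_mul]
    refine Finset.sum_le_sum fun q hq => ?_
    have h4 := N_nonneg n (kA (p.1 + p.2)) (kA (q.1 + q.2)) D.val
    have h5 := N_nonneg n (kB (p.1 + p.2)) (kB (q.1 + q.2)) E.val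
    by_cases c1 : p.1 + q.1 = s0 ∧ p.2 + q.2 = s1
    swap
    · rw [if_neg c1, zero_mul]
      refine mul_nonneg (mul_nonneg ?_ h4) h5
      split_ifs
      · exact hww _ _
      · exact le_rfl
    rw [if_pos c1, if_pos c1.1, mul_assoc (wt p * wt q)]
    apply mul_le_mul_of_nonneg_left _ (hww _ _)
    have h6 := mem_JW.1 hp
    have h7 := mem_JW.1 hq
    refine (hCC _ h6 _ h7).1.trans (mul_le_mul (N_ge n _ _ D ?_) (N_ge n _ _ E ?_)
      (by positivity) h4) <;> omega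
  set S := ∑ j ∈ range (2 * V + 1), v j with hS
  have hM : ∑ X ∈ Ω, wt X.1 ≤ S := by
    rw [hΩ, sum_Om, hS, ← sum_JW]
    refine Finset.sum_le_sum fun p hp => ?_
    simp only [sum_const, card_powersetCard, card_univ, Fintype.card_fin, nsmul_eq_mul]
    have := mul_le_mul_of_nonneg_left (hv1 _ (mem_JW.1 hp)) (wt_nonneg p)
    simp only [hkA, hkB]
    linarith
  have hGM : (1 - δ) ^ 5 * S ^ 2 ≤ ∑ X ∈ Ω, ∑ Y ∈ Ω,
      if (X.1.1 + X.1.2 + (Y.1.1 + Y.1.2) ≤ 2 * V ∧ 1 ≤ X.1.2 + Y.1.2) ∧ Disjoint X.2.1 Y.2.1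
        ∧ Disjoint X.2.2 Y.2.2 then wt X.1 * wt Y.1 else 0 := by
    have e := dbl (n := n) kA kB (2 * V)
      (fun p q => if p.1 + p.2 + (q.1 + q.2) ≤ 2 * V ∧ 1 ≤ p.2 + q.2 then wt p * wt q else 0)
      (fun A A' => if Disjoint A A' then 1 else 0) (fun A A' => if Disjoint A A' then 1 else 0)
    simp only [disj_count] at e
    refine le_trans ?_ (le_of_eq (e.symm.trans ?_))
    swap
    · refine Finset.sum_congr rfl fun X _ => Finset.sum_congr rfl fun Y _ => ?_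
      by_cases c1 : X.1.1 + X.1.2 + (Y.1.1 + Y.1.2) ≤ 2 * V ∧ 1 ≤ X.1.2 + Y.1.2 <;>
        by_cases c2 : Disjoint X.2.1 Y.2.1 <;> by_cases c3 : Disjoint X.2.2 Y.2.2 <;>
        simp [c1, c2, c3]
    set x : ℕ × ℕ → ℝ := fun p => wt p * v (p.1 + p.2) with hx
    set y : ℕ × ℕ → ℝ := fun p => wt p * (if V < p.1 + p.2 then v (p.1 + p.2) else 0) with hy
    set z : ℕ × ℕ → ℝ := fun p => if p.2 = 0 then wt p * v (p.1 + p.2) else 0 with hz
    have e1 : ∑ p ∈ JW (2 * V), x p = S := sum_JW _ v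
    have e2 : ∑ p ∈ JW (2 * V), y p = ∑ j ∈ range (2 * V + 1), if V < j then v j else 0 :=
      sum_JW _ fun j => if V < j then v j else 0
    have e3 : ∑ p ∈ JW (2 * V), z p = ∑ j ∈ range (2 * V + 1), a j * v j := sum_JW0 _ v
    rw [← e2, ← e3] at hR
    calc (1 - δ) ^ 5 * S ^ 2 = (1 - δ) ^ 4 * (S ^ 2 - δ * S ^ 2) := by ring
      _ ≤ (1 - δ) ^ 4 * (S * S - (∑ p ∈ JW (2 * V), y p) * S - S * (∑ p ∈ JW (2 * V), y p)
          - (∑ p ∈ JW (2 * V), z p) * (∑ p ∈ JW (2 * V), z p)) := by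
          apply mul_le_mul_of_nonneg_left _ (by positivity)
          linarith
      _ = ∑ p ∈ JW (2 * V), ∑ q ∈ JW (2 * V),
          (1 - δ) ^ 4 * (x p * x q - y p * x q - x p * y q - z p * z q) := by
          rw [← e1]
          simp only [Finset.sum_mul_sum, ← Finset.sum_sub_distrib]
          simp only [Finset.mul_sum]
      _ ≤ _ := by
          refine Finset.sum_le_sum fun p hp => Finset.sum_le_sum fun q hq => ?_
          have h1 := hv2 _ (mem_JW.1 hp) _ (mem_JW.1 hq)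
          have hx0 : ∀ p, 0 ≤ x p := fun p => mul_nonneg (wt_nonneg _) (hv _)
          have hy0 : ∀ p, 0 ≤ y p := fun p => mul_nonneg (wt_nonneg _) (by
            split_ifs
            · exact hv _
            · exact le_rfl)
          have hz0 : ∀ p, 0 ≤ z p := fun p => by
            simp only [hz]
            split_ifs
            · exact hx0 p
            · exact le_rfl
          have a1 := mul_nonneg (hy0 p) (hx0 q)
          have a2 := mul_nonneg (hx0 p) (hy0 q)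
          have a3 := mul_nonneg (hz0 p) (hz0 q)
          split_ifs with c1
          · rw [mul_assoc (wt p * wt q)]
            refine le_trans ?_ (mul_le_mul_of_nonneg_left h1 (hww p q))
            have : wt p * wt q * ((1 - δ) ^ 4 * (v (p.1 + p.2) * v (q.1 + q.2)))
                = (1 - δ) ^ 4 * (x p * x q) := by simp only [hx]; ring
            rw [this]
            apply mul_le_mul_of_nonneg_left _ (by positivity)
            linarith
          · rw [zero_mul, zero_mul]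
            apply mul_nonpos_of_nonneg_of_nonpos (by positivity)
            rcases (by omega : V < p.1 + p.2 ∨ V < q.1 + q.2 ∨ (p.2 = 0 ∧ q.2 = 0)) with h | h | h
            · have : y p = x p := by simp only [hx, hy, if_pos h]
              rw [this] at *; linarith
            · have : y q = x q := by simp only [hx, hy, if_pos h]
              rw [this] at *; linarith
            · have b1 : z p = x p := by simp only [hx, hz, if_pos h.1]
              have b2 : z q = x q := by simp only [hx, hz, if_pos h.2]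
              rw [b1, b2]; linarith
  have hpos : 0 < (1 - δ) ^ 5 * S ^ 2 := by positivity
  refine partB Ω (fun X => wt X.1) (fun X => wt_nonneg _) P γ (fun _ => rfl) ((1 + δ) * H0)
    ((1 - δ) * H0) c0 (by positivity) (by positivity) hup
    (fun X Y => (X.1.1 + X.1.2 + (Y.1.1 + Y.1.2) ≤ 2 * V ∧ 1 ≤ X.1.2 + Y.1.2)
      ∧ Disjoint X.2.1 Y.2.1 ∧ Disjoint X.2.2 Y.2.2) ?_ (hpos.trans_le hGM) ?_
  · rintro X hX Y hY ⟨⟨h1, h2⟩, h3, h4⟩
    simp only [hΩ, Om, mem_sigma, mem_product, mem_powersetCard_univ, mem_JW, hkA, hkB] at hX hY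
    constructor
    · refine hlow (X.1.1 + Y.1.1) (X.1.2 + Y.1.2) (X.2.1.disjUnion Y.2.1 h3)
        (X.2.2.disjUnion Y.2.2 h4) (by omega) ?_ ?_ <;> rw [card_disjUnion] <;> omega
    · have e : P X + P Y + (1, 0, 0) = (X.1.1 + Y.1.1 + 1, (X.2.1.disjUnion Y.2.1 h3).val,
          (X.2.2.disjUnion Y.2.2 h4).val) := by
        simp only [hP, Prod.mk_add_mk, add_zero]; rfl
      rw [e]
      refine hlow (X.1.1 + Y.1.1 + 1) (X.1.2 + Y.1.2 - 1) (X.2.1.disjUnion Y.2.1 h3)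
        (X.2.2.disjUnion Y.2.2 h4) (by omega) ?_ ?_ <;> rw [card_disjUnion] <;> omega
  · refine lt_of_lt_of_le ?_ (mul_le_mul_of_nonneg_left hGM (by positivity))
    have hM0 : 0 ≤ ∑ X ∈ Ω, wt X.1 := Finset.sum_nonneg fun X _ => wt_nonneg _
    have h2 := pow_le_pow_left₀ hM0 hM 2
    have h3 := sq_nonneg (∑ X ∈ Ω, wt X.1)
    generalize (∑ X ∈ Ω, wt X.1) ^ 2 = M at *
    rcases le_or_gt (1 - c0) 0 with h | h
    · exact lt_of_le_of_lt (mul_nonpos_of_nonpos_of_nonneg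
        (mul_nonpos_of_nonpos_of_nonneg h h3) (sq_nonneg _)) (by positivity)
    · calc (1 - c0) * M * ((1 + δ) * H0) ^ 2 ≤ (1 - c0) * S ^ 2 * ((1 + δ) * H0) ^ 2 := by gcongr
        _ = (1 - c0) * (1 + δ) ^ 2 * (S ^ 2 * H0 ^ 2) := by ring
        _ < (1 - δ) ^ 7 * (S ^ 2 * H0 ^ 2) := by gcongr
        _ = _ := by ring

end Pool.Agent.H15.AC
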