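import Mathlib

set_option autoImplicit false

namespace Pool.Agent.H15.LP

open Finset Filter Topology

/-- third-kind Chebyshev sums -/
noncomputable def s (j : ℕ) (y : ℝ) : ℝ := ∑ k ∈ range (j+1), ((j+k).choose (2*k) : ℝ) * y ^ k

lemma s_eq (j N : ℕ) (h : j + 1 ≤ N) (y : ℝ) :
    ∑ k ∈ range N, ((j+k).choose (2*k) : ℝ) * y ^ k = s j y := by
  unfold s
  symm
  apply Finset.sum_subset (range_subset_range.2 h)
  intro k _ hk
  have : j + k < 2 * k := by simp at hk; omega
  rw [Nat.choose_eq_zero_of_lt this]; simp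

lemma s_rec (j : ℕ) (y : ℝ) : s (j+2) y = (2 + y) * s (j+1) y - s j y := by
  have h1 := s_eq (j+1) (j+3) (by omega) y
  have h0 := s_eq j (j+3) (by omega) y
  have h2 : s (j+2) y = ∑ k ∈ range (j+3), ((j+2+k).choose (2*k) : ℝ) * y ^ k := rfl
  have h3 : y * s (j+1) y = ∑ k ∈ range (j+2), ((j+1+k).choose (2*k) : ℝ) * y ^ (k+1) := by
    unfold s; rw [Finset.mul_sum]; apply Finset.sum_congr rfl; intro k _; ring
  have h4 : ∑ k ∈ range (j+3), (((j+2+k).choose (2*k) : ℝ) - 2 * ((j+1+k).choose (2*k) : ℝ)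
      + ((j+k).choose (2*k) : ℝ)) * y ^ k
      = ∑ k ∈ range (j+2), ((j+1+k).choose (2*k) : ℝ) * y ^ (k+1) := by
    rw [Finset.sum_range_succ']
    simp only [mul_zero, Nat.choose_zero_right, Nat.cast_one, pow_zero]
    rw [show ((1:ℝ) - 2 * 1 + 1) * 1 = 0 by norm_num, add_zero]
    apply Finset.sum_congr rfl
    intro k _
    congr 1
    have e1 : j + 2 + (k+1) = (j + 1 + k) + 1 + 1 := by ring
    have e2 : j + 1 + (k+1) = (j + 1 + k) + 1 := by ring
    have e3 : j + (k+1) = (j + 1 + k) := by ring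
    have e4 : 2 * (k+1) = 2 * k + 1 + 1 := by ring
    rw [e1, e2, e3, e4]
    generalize j + 1 + k = m
    generalize 2 * k = r
    rw [Nat.choose_succ_succ (m+1) (r+1), Nat.choose_succ_succ m r, Nat.choose_succ_succ m (r+1)]
    push_cast
    ring
  have h5 : ∑ k ∈ range (j+3), (((j+2+k).choose (2*k) : ℝ) - 2 * ((j+1+k).choose (2*k) : ℝ)
      + ((j+k).choose (2*k) : ℝ)) * y ^ k = s (j+2) y - 2 * s (j+1) y + s j y := by
    rw [h2, ← h1, ← h0, Finset.mul_sum, ← Finset.sum_sub_distrib, ← Finset.sum_add_distrib]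
    apply Finset.sum_congr rfl; intro k _; ring
  rw [h5, ← h3] at h4
  linarith

lemma s_cos (u : ℝ) (j : ℕ) :
    Real.cos u * s j (-4 * Real.sin u ^ 2) = Real.cos ((2 * j + 1) * u) := by
  induction j using Nat.twoStepInduction with
  | zero => simp [s]
  | one =>
    have : s 1 (-4 * Real.sin u ^ 2) = 1 - 4 * Real.sin u ^ 2 := by
      simp [s, Finset.sum_range_succ]; ring
    rw [this]
    have e : ((2 * (1:ℕ) + 1 : ℝ)) * u = 3 * u := by push_cast; ring
    rw [e, Real.cos_three_mul]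
    have := Real.sin_sq_add_cos_sq u
    have h2 : Real.sin u ^ 2 = 1 - Real.cos u ^ 2 := by linarith
    rw [h2]; ring
  | more j h0 h1 =>
    rw [s_rec]
    have e : Real.cos u * ((2 + -4 * Real.sin u ^ 2) * s (j+1) (-4 * Real.sin u ^ 2)
        - s j (-4 * Real.sin u ^ 2)) = (2 + -4 * Real.sin u ^ 2) *
        (Real.cos u * s (j+1) (-4 * Real.sin u ^ 2)) - Real.cos u * s j (-4 * Real.sin u ^ 2) := by
      ring
    rw [e, h0, h1]
    have c2 : 2 + -4 * Real.sin u ^ 2 = 2 * Real.cos (2 * u) := by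
      rw [Real.cos_two_mul]; have := Real.sin_sq_add_cos_sq u; linarith
    rw [c2]
    have e1 : (2 * ((j+2 : ℕ) : ℝ) + 1) * u = (2 * ((j+1 : ℕ) : ℝ) + 1) * u + 2 * u := by
      push_cast; ring
    have e2 : (2 * (j : ℝ) + 1) * u = (2 * ((j+1 : ℕ) : ℝ) + 1) * u - 2 * u := by
      push_cast; ring
    rw [e1, e2, Real.cos_add, Real.cos_sub]; ring

/-- alternation gives real nonpositive roots -/
lemma roots_of_alt (n : ℕ) (p : Polynomial ℝ) (hd : p.natDegree ≤ n) (x : ℕ → ℝ)
    (hx : ∀ i, i < n → x (i+1) < x i) (h0 : x 0 ≤ 0)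
    (hs : ∀ i, i ≤ n → 0 < (-1) ^ i * p.eval (x i)) :
    ∀ z : ℂ, Polynomial.aeval z p = 0 → z.im = 0 ∧ z.re ≤ 0 := by
  have hp : p ≠ 0 := by
    intro h; have := hs 0 (Nat.zero_le _); simp [h] at this
  have hanti : ∀ i j, i ≤ j → j ≤ n → x j ≤ x i := by
    intro i j hij hj
    induction j, hij using Nat.le_induction with
    | base => exact le_rfl
    | succ j hij ih => exact (hx j (by omega)).le.trans (ih (by omega))
  have hroot : ∀ i, i < n → ∃ t, x (i+1) < t ∧ t < x i ∧ p.eval t = 0 := by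
    intro i hi
    have hc : ContinuousOn (fun t => (-1:ℝ) ^ i * p.eval t) (Set.Icc (x (i+1)) (x i)) :=
      (continuous_const.mul p.continuous).continuousOn
    have h1 := hs i hi.le
    have h2 := hs (i+1) hi
    have h3 : (-1:ℝ) ^ i * p.eval (x (i+1)) < 0 := by rw [pow_succ] at h2; linarith
    obtain ⟨t, ht, ht0⟩ := intermediate_value_Ioo (hx i hi).le hc ⟨h3, h1⟩
    refine ⟨t, ht.1, ht.2, ?_⟩
    have : (-1:ℝ) ^ i ≠ 0 := pow_ne_zero _ (by norm_num)
    simpa [this] using ht0
  choose! t ht1 ht2 ht3 using hroot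
  have hinj : Set.InjOn (fun i => (t i : ℂ)) (range n : Set ℕ) := by
    intro i hi j hj hij
    simp only [coe_range, Set.mem_Iio] at hi hj
    have hij' : t i = t j := Complex.ofReal_injective hij
    by_contra hne
    rcases lt_or_gt_of_ne hne with h | h
    · have := hanti (i+1) j h hj.le
      linarith [ht1 i hi, ht2 j hj]
    · have := hanti (j+1) i h hi.le
      linarith [ht1 j hj, ht2 i hi]
  intro z hz
  by_cases hmem : z ∈ (range n).image (fun i => (t i : ℂ))
  · obtain ⟨i, hi, rfl⟩ := Finset.mem_image.1 hmem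
    have hi' := mem_range.1 hi
    refine ⟨by simp, ?_⟩
    simp only [Complex.ofReal_re]
    linarith [ht2 i hi', hanti 0 i (Nat.zero_le _) hi'.le]
  · exfalso
    set q := p.map (algebraMap ℝ ℂ) with hq
    have hq0 : q ≠ 0 := Polynomial.map_ne_zero hp
    have hsub : (insert z ((range n).image (fun i => (t i : ℂ)))).val ⊆ q.roots := by
      intro w hw
      rw [Polynomial.mem_roots hq0, Polynomial.IsRoot, hq, Polynomial.eval_map_algebraMap]
      have hw' : w ∈ insert z ((range n).image (fun i => (t i : ℂ))) := hw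
      rcases Finset.mem_insert.1 hw' with rfl | hw
      · exact hz
      · obtain ⟨i, hi, rfl⟩ := Finset.mem_image.1 hw
        have := Polynomial.aeval_algebraMap_apply ℂ (t i) p
        simp only [Complex.coe_algebraMap] at this
        rw [this, Polynomial.coe_aeval_eq_eval, ht3 i (mem_range.1 hi)]; simp
    have := Polynomial.card_le_degree_of_subset_roots hsub
    rw [Finset.card_insert_of_notMem hmem, Finset.card_image_of_injOn hinj, card_range, hq,
      Polynomial.natDegree_map] at this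
    omega

lemma choose_succ_real (m r : ℕ) :
    (m.choose (r+1) : ℝ) = m.choose r * ((m : ℝ) - r) / (r+1) := by
  rcases le_or_gt r m with h | h
  · have := Nat.choose_succ_right_eq m r
    have h2 : (m.choose (r+1) : ℝ) * (r+1) = m.choose r * ((m : ℝ) - r) := by
      rw [← Nat.cast_sub h]; exact_mod_cast this
    rw [← h2]; field_simp
  · rw [Nat.choose_eq_zero_of_lt h, Nat.choose_eq_zero_of_lt (by omega)]; simp

lemma choose_tendsto (m : ℕ → ℕ) (v : ℝ)
    (hm : Tendsto (fun n => (m n : ℝ) / (n+1)) atTop (𝓝 v)) (r : ℕ) :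
    Tendsto (fun n => ((m n).choose r : ℝ) / (n+1) ^ r) atTop (𝓝 (v ^ r / r.factorial)) := by
  induction r with
  | zero => simp
  | succ r ih =>
    have h0 : Tendsto (fun n : ℕ => (r : ℝ) / (n+1)) atTop (𝓝 0) := by
      have := tendsto_one_div_add_atTop_nhds_zero_nat (𝕜 := ℝ)
      have := this.const_mul (r : ℝ)
      simp only [mul_zero] at this
      refine this.congr fun n => by ring
    have := (ih.mul (hm.sub h0)).div_const ((r:ℝ)+1)
    have e : v ^ r / r.factorial * (v - 0) / ((r:ℝ)+1) = v ^ (r+1) / (r+1).factorial := by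
      rw [Nat.factorial_succ]; push_cast; field_simp; ring
    rw [e] at this
    refine this.congr fun n => ?_
    rw [choose_succ_real]; field_simp; ring

lemma locunif (a : ℕ → ℕ → ℝ) (c b : ℕ → ℝ) (hb : ∀ R : ℝ, 0 ≤ R → Summable fun k => b k * R ^ k)
    (hab : ∀ n k, |a n k| ≤ b k) (hc : ∀ k, Tendsto (fun n => a n k) atTop (𝓝 (c k))) :
    TendstoLocallyUniformly (fun n (z : ℂ) => ∑' k, (a n k : ℂ) * z ^ k)
      (fun z : ℂ => ∑' k, (c k : ℂ) * z ^ k) atTop := by
  have hcb : ∀ k, |c k| ≤ b k := fun k =>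
    le_of_tendsto' (hc k).abs fun n => hab n k
  rw [Metric.tendstoLocallyUniformly_iff]
  intro ε hε z0
  set R := ‖z0‖ + 1 with hR
  have hR0 : 0 ≤ R := by positivity
  refine ⟨Metric.ball z0 1, Metric.ball_mem_nhds _ one_pos, ?_⟩
  have hT : Tendsto (fun n => ∑' k, |c k - a n k| * R ^ k) atTop (𝓝 (∑' _k : ℕ, (0:ℝ))) := by
    apply tendsto_tsum_of_dominated_convergence (bound := fun k => 2 * (b k * R ^ k))
      ((hb R hR0).mul_left 2)
    · intro k
      have := ((tendsto_const_nhds (x := c k)).sub (hc k)).abs.mul_const (R ^ k)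
      simpa using this
    · filter_upwards with n k
      rw [Real.norm_eq_abs, abs_mul, abs_abs, abs_of_nonneg (pow_nonneg hR0 k)]
      have h1 : |c k - a n k| ≤ 2 * b k := by
        have := abs_sub (c k) (a n k); linarith [hcb k, hab n k]
      nlinarith [pow_nonneg hR0 k]
  simp only [tsum_zero] at hT
  filter_upwards [hT.eventually (gt_mem_nhds hε)] with n hn z hz
  have hzR : ‖z‖ ≤ R := by
    have := mem_ball_iff_norm.1 hz
    have h2 := norm_add_le z0 (z - z0)
    simp only [add_sub_cancel] at h2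
    linarith
  have hs : ∀ d : ℕ → ℝ, (∀ k, |d k| ≤ b k) → Summable fun k => (d k : ℂ) * z ^ k := by
    intro d hd
    refine Summable.of_norm_bounded (hb R hR0) fun k => ?_
    rw [norm_mul, norm_pow, Complex.norm_real, Real.norm_eq_abs]
    exact mul_le_mul (hd k) (pow_le_pow_left₀ (norm_nonneg _) hzR k) (by positivity)
      ((abs_nonneg _).trans (hd k))
  rw [dist_eq_norm, ← (hs c hcb).tsum_sub (hs (a n) (hab n))]
  refine lt_of_le_of_lt (tsum_of_norm_bounded (g := fun k => |c k - a n k| * R ^ k) ?_ ?_) hn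
  · refine Summable.hasSum ?_
    refine Summable.of_nonneg_of_le (fun k => by positivity) (fun k => ?_) ((hb R hR0).mul_left 2)
    have h1 : |c k - a n k| ≤ 2 * b k := by
      have := abs_sub (c k) (a n k); linarith [hcb k, hab n k]
    nlinarith [pow_nonneg hR0 k]
  · intro k
    rw [← sub_mul, norm_mul, norm_pow, ← Complex.ofReal_sub, Complex.norm_real, Real.norm_eq_abs]
    exact mul_le_mul_of_nonneg_left (pow_le_pow_left₀ (norm_nonneg _) hzR k) (abs_nonneg _)

end Pool.Agent.H15.LP
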