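import Pool.Agent.H15.AC3
import Pool.Agent.H15.LP1

set_option autoImplicit false

namespace Pool.Agent.H15.AC

open Finset MeasureTheory Filter Topology

lemma Dlim (i i' : ℕ) : Tendsto (fun c : ℕ => (((c + i) + (c + i')).choose (c + i) : ℝ)
    / (2 ^ (i + i') * ((c + c).choose c : ℝ))) atTop (𝓝 1) := by
  have hpos : ∀ c : ℕ, (0:ℝ) < ((c + c).choose c : ℝ) := fun c => by
    exact_mod_cast Nat.choose_pos (by omega)
  have step : ∀ i i' : ℕ, Tendsto (fun c : ℕ => (((c + i) + (c + i')).choose (c + i) : ℝ)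
      / (2 ^ (i + i') * ((c + c).choose c : ℝ))) atTop (𝓝 1) →
      Tendsto (fun c : ℕ => (((c + (i+1)) + (c + i')).choose (c + (i+1)) : ℝ)
      / (2 ^ ((i+1) + i') * ((c + c).choose c : ℝ))) atTop (𝓝 1) := by
    intro i i' h
    have h1 := tendsto_add_mul_div_add_mul_atTop_nhds (𝕜 := ℝ) ((i:ℝ) + i' + 1) (2 * i + 2) 2
      (d := 2) two_ne_zero
    have h2 := h.mul h1
    rw [div_self two_ne_zero, mul_one] at h2
    refine h2.congr fun c => ?_
    have h3 := Nat.add_one_mul_choose_eq ((c + i) + (c + i')) (c + i)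
    have h4 : ((((c + i) + (c + i') + 1 : ℕ) : ℝ)) * (((c + i) + (c + i')).choose (c + i) : ℝ)
        = (((c + i) + (c + i') + 1).choose (c + i + 1) : ℝ) * ((c + i + 1 : ℕ) : ℝ) := by
      exact_mod_cast h3
    rw [show c + (i+1) + (c + i') = c + i + (c + i') + 1 by ring, ← add_assoc c i 1]
    have h5 := hpos c
    push_cast at h4
    field_simp
    rw [show i + 1 + i' = i + i' + 1 by ring, pow_succ]
    linear_combination (2 * 2 ^ (i + i')) * h4
  induction i with
  | succ i ih => exact step i i' ih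
  | zero =>
    have : Tendsto (fun c : ℕ => (((c + i') + (c + 0)).choose (c + i') : ℝ)
        / (2 ^ (i' + 0) * ((c + c).choose c : ℝ))) atTop (𝓝 1) := by
      induction i' with
      | succ i' ih => exact step i' 0 ih
      | zero =>
        refine tendsto_const_nhds.congr fun c => ?_
        have := hpos c
        simp only [add_zero, pow_zero, one_mul]; field_simp
    refine this.congr fun c => ?_
    rw [Nat.choose_symm_add, add_comm (c + i'), add_comm i' 0]

noncomputable def ww (m W t j : ℕ) : ℝ :=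
  1 / (((m * t + (W - j)).factorial : ℝ) * (((m+1) * t + j).factorial : ℝ))

lemma ww_pos (m W t j : ℕ) : 0 < ww m W t j := by unfold ww; positivity

lemma ww_lim (m W j : ℕ) (hj : j ≤ W) :
    Tendsto (fun t => ww m W t j / ww m W t 0) atTop (𝓝 (((m:ℝ) / (m+1)) ^ j)) := by
  induction j with
  | zero => simp [(ww_pos m W _ 0).ne']
  | succ j ih =>
    have h1 := tendsto_add_mul_div_add_mul_atTop_nhds (𝕜 := ℝ) (((W - (j+1) : ℕ) : ℝ) + 1)
      (j + 1) m (d := m + 1) (by positivity)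
    have h2 := (ih (by omega)).mul h1
    rw [← pow_succ] at h2
    refine h2.congr fun t => ?_
    rw [div_mul_eq_mul_div]
    congr 1
    unfold ww
    rw [show m * t + (W - j) = m * t + (W - (j+1)) + 1 by omega, ← add_assoc _ j 1,
      Nat.factorial_succ, Nat.factorial_succ]
    push_cast
    field_simp
    ring

lemma choose_big (K : ℕ) {δ : ℝ} (hδ : 0 < δ) : ∃ n : ℕ, 0 < n ∧ ∀ k ≤ K, ∀ k' ≤ K,
    (1 - δ) * ((n:ℝ) ^ k' / k'.factorial) ≤ (n - k).choose k' := by
  have h : ∀ k k' : ℕ, ∀ᶠ n : ℕ in atTop,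
      (1 - δ) * (((n+1 : ℕ):ℝ) ^ k' / k'.factorial) ≤ (n + 1 - k).choose k' := by
    intro k k'
    have h1 : Tendsto (fun n : ℕ => ((n + 1 - k : ℕ) : ℝ) / (n+1)) atTop (𝓝 1) := by
      have h2 := tendsto_add_mul_div_add_mul_atTop_nhds (𝕜 := ℝ) (1 - k) 1 1 (d := 1) one_ne_zero
      rw [div_one] at h2
      refine h2.congr' ?_
      filter_upwards [eventually_ge_atTop k] with n hn
      rw [Nat.cast_sub (by omega)]; push_cast; ring
    have h3 := LP.choose_tendsto _ 1 h1 k'
    have hf : (0:ℝ) < k'.factorial := by positivity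
    have h4 : (1 - δ) / k'.factorial < 1 ^ k' / k'.factorial := by
      rw [one_pow]; gcongr; linarith
    filter_upwards [h3.eventually (lt_mem_nhds h4)] with n hn
    rw [lt_div_iff₀ (by positivity)] at hn
    push_cast
    refine le_trans (le_of_eq ?_) hn.le
    ring
  have h2 : ∀ᶠ n : ℕ in atTop, ∀ k ∈ range (K+1), ∀ k' ∈ range (K+1),
      (1 - δ) * (((n+1 : ℕ):ℝ) ^ k' / k'.factorial) ≤ (n + 1 - k).choose k' :=
    (eventually_all_finset _).2 fun k _ => (eventually_all_finset _).2 fun k' _ => h k k'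
  obtain ⟨n, hn⟩ := h2.exists
  exact ⟨n+1, by omega, fun k hk k' hk' => hn k (by simp; omega) k' (by simp; omega)⟩

lemma theta {δ : ℝ} (hδ0 : 0 < δ) (hδ1 : δ < 1) : ∃ m V : ℕ, 0 < m ∧
    2 * (∑ j ∈ range (2 * V + 1), ((m:ℝ) / (m+1)) ^ j)
      * (∑ j ∈ range (2 * V + 1), if V < j then ((m:ℝ) / (m+1)) ^ j else 0)
      + (∑ j ∈ range (2 * V + 1), a j * ((m:ℝ) / (m+1)) ^ j) ^ 2
      < δ * (∑ j ∈ range (2 * V + 1), ((m:ℝ) / (m+1)) ^ j) ^ 2 := by
  obtain ⟨m, hm⟩ := exists_nat_gt (8 / δ)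
  have hm0 : (0:ℝ) < m := lt_trans (by positivity) hm
  set θ : ℝ := (m:ℝ) / (m+1) with hθ
  have h0 : 0 < θ := by positivity
  have h1 : θ < 1 := by rw [hθ, div_lt_one (by positivity)]; linarith
  obtain ⟨V, hV⟩ := exists_pow_lt_of_lt_one (show 0 < δ / 8 by positivity) h1
  refine ⟨m, V, by exact_mod_cast hm0, ?_⟩
  have geo : ∀ N, ∑ j ∈ range N, θ ^ j = (m + 1) * (1 - θ ^ N) := by
    intro N
    rw [geom_sum_eq h1.ne, hθ]; field_simp; ring
  have hle : ∀ N, θ ^ (V + N) ≤ θ ^ V := fun N => pow_le_pow_of_le_one h0.le h1.le (by omega)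
  have t1 : (∑ j ∈ range (2 * V + 1), if V < j then θ ^ j else 0) ≤ (m + 1) * θ ^ V := by
    have e : (∑ j ∈ range (2 * V + 1), if V < j then θ ^ j else 0)
        = ∑ j ∈ range (2 * V + 1), θ ^ j - ∑ j ∈ range (V + 1), θ ^ j := by
      have e1 : (∑ j ∈ range (V + 1), if V < j then θ ^ j else 0) = 0 :=
        Finset.sum_eq_zero fun j hj => if_neg (by simp at hj; omega)
      have e2 : (∑ j ∈ range V, if V < V + 1 + j then θ ^ (V + 1 + j) else 0)
          = ∑ j ∈ range V, θ ^ (V + 1 + j) := Finset.sum_congr rfl fun j _ => if_pos (by omega)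
      rw [show 2 * V + 1 = (V + 1) + V by ring, Finset.sum_range_add _ (V + 1),
        Finset.sum_range_add _ (V + 1), e1, e2]
      ring
    rw [e, geo, geo]
    have := hle 1
    have := pow_pos h0 (2 * V + 1)
    nlinarith
  have t2 : (∑ j ∈ range (2 * V + 1), a j * θ ^ j) ^ 2 ≤ m + 1 := by
    have h2 := sum_JW (4 * V) fun j => θ ^ j
    rw [geo] at h2
    rw [sq, Finset.sum_mul_sum, ← Finset.sum_product']
    calc _ = ∑ p ∈ range (2 * V + 1) ×ˢ range (2 * V + 1), wt p * θ ^ (p.1 + p.2) :=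
          Finset.sum_congr rfl fun p _ => by rw [wt, pow_add]; ring
      _ ≤ ∑ p ∈ JW (4 * V), wt p * θ ^ (p.1 + p.2) := by
          apply Finset.sum_le_sum_of_subset_of_nonneg
          · intro p hp
            simp only [mem_product, mem_range] at hp
            exact mem_JW.2 (by omega)
          · intro p _ _; exact mul_nonneg (wt_nonneg _) (by positivity)
      _ ≤ _ := by rw [h2]; have := pow_pos h0 (4 * V + 1); nlinarith
  have t3 : (m + 1) / 2 ≤ ∑ j ∈ range (2 * V + 1), θ ^ j := by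
    rw [geo]
    have := hle (V + 1)
    rw [show V + (V + 1) = 2 * V + 1 by ring] at this
    nlinarith
  generalize ∑ j ∈ range (2 * V + 1), θ ^ j = S at *
  have hS : 0 < S := lt_of_lt_of_le (by positivity) t3
  rw [div_lt_iff₀ hδ0] at hm
  have a1 : 2 * S * (∑ j ∈ range (2 * V + 1), if V < j then θ ^ j else 0) ≤ δ / 2 * S ^ 2 := by
    have : (m + 1) * θ ^ V ≤ (2 * S) * (δ / 8) :=
      mul_le_mul (by linarith) hV.le (by positivity) (by positivity)
    nlinarith
  have a2 : (m:ℝ) + 1 < δ / 2 * S ^ 2 := by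
    have : ((m:ℝ) + 1) ^ 2 / 4 ≤ S ^ 2 := by nlinarith
    nlinarith
  linarith

theorem main :
    ¬ (∃ c : ℝ, 0 < c ∧
      ∀ f : ℝ → ℝ, (∀ x, 0 ≤ f x) → MemLp f 1 volume → MemLp f 2 volume →
        eLpNorm (fun x : ℝ => ∫ t : ℝ, f t * f (x - t)) 2 volume ^ 2 ≤
          ENNReal.ofReal (1 - c) *
            eLpNorm (fun x : ℝ => ∫ t : ℝ, f t * f (x - t)) 1 volume *
            eLpNorm (fun x : ℝ => ∫ t : ℝ, f t * f (x - t)) ⊤ volume) := by
  rintro ⟨c0, hc0, hall⟩
  obtain ⟨δ, hc, hδ0, hδ1⟩ : ∃ δ : ℝ, (1 - c0) * (1 + δ) ^ 2 < (1 - δ) ^ 7 ∧ 0 < δ ∧ δ < 1 := by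
    have h1 : ∀ᶠ δ : ℝ in 𝓝 0, (1 - c0) * (1 + δ) ^ 2 < (1 - δ) ^ 7 :=
      ContinuousAt.eventually_lt (by fun_prop) (by fun_prop) (by simpa using hc0)
    have h2 : ∀ᶠ δ : ℝ in 𝓝[>] 0, (1 - c0) * (1 + δ) ^ 2 < (1 - δ) ^ 7 ∧ 0 < δ ∧ δ < 1 := by
      filter_upwards [nhdsWithin_le_nhds h1, Ioo_mem_nhdsGT (show (0:ℝ) < 1 by norm_num)]
        with δ a b
      exact ⟨a, b⟩
    exact h2.exists
  obtain ⟨m, V, hm, hθ⟩ := theta hδ0 hδ1
  have hm1 : Tendsto (fun t : ℕ => m * t) atTop atTop := tendsto_id.const_mul_atTop' hm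
  have hm2 : Tendsto (fun t : ℕ => (m+1) * t) atTop atTop := tendsto_id.const_mul_atTop' (by omega)
  have E1 : ∀ᶠ t : ℕ in atTop, ∀ j ∈ range (2 * V + 1), ∀ j' ∈ range (2 * V + 1),
      (((m * t + (2 * V - j)) + (m * t + (2 * V - j'))).choose (m * t + (2 * V - j)) : ℝ)
        / (2 ^ ((2 * V - j) + (2 * V - j')) * ((m * t + m * t).choose (m * t) : ℝ))
      * (((((m+1) * t + j) + ((m+1) * t + j')).choose ((m+1) * t + j) : ℝ)
        / (2 ^ (j + j') * (((m+1) * t + (m+1) * t).choose ((m+1) * t) : ℝ)))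
      ∈ Set.Ioo (1 - δ) (1 + δ) := by
    refine (eventually_all_finset _).2 fun j _ => (eventually_all_finset _).2 fun j' _ => ?_
    have := ((Dlim (2 * V - j) (2 * V - j')).comp hm1).mul ((Dlim j j').comp hm2)
    rw [mul_one] at this
    exact this.eventually (Ioo_mem_nhds (by linarith) (by linarith))
  have E2 : ∀ᶠ t : ℕ in atTop,
      2 * (∑ j ∈ range (2 * V + 1), ww m (2 * V) t j / ww m (2 * V) t 0)
      * (∑ j ∈ range (2 * V + 1), if V < j then ww m (2 * V) t j / ww m (2 * V) t 0 else 0)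
      + (∑ j ∈ range (2 * V + 1), a j * (ww m (2 * V) t j / ww m (2 * V) t 0)) ^ 2
      < δ * (∑ j ∈ range (2 * V + 1), ww m (2 * V) t j / ww m (2 * V) t 0) ^ 2 := by
    have l : ∀ j ∈ range (2 * V + 1), _ := fun j hj =>
      ww_lim m (2 * V) j (by have := mem_range.1 hj; omega)
    have l1 := tendsto_finsetSum _ l
    have l2 := tendsto_finsetSum (range (2 * V + 1))
      (f := fun j t => if V < j then ww m (2 * V) t j / ww m (2 * V) t 0 else 0)
      (a := fun j => if V < j then ((m:ℝ) / (m+1)) ^ j else 0) (x := atTop) (fun j hj => by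
        split_ifs
        · exact l j hj
        · exact tendsto_const_nhds)
    have l3 := tendsto_finsetSum _ fun j hj => (l j hj).const_mul (a j)
    exact (((l1.const_mul 2).mul l2).add (l3.pow 2)).eventually_lt ((l1.pow 2).const_mul δ) hθ
  obtain ⟨t, h1, h2⟩ := (E1.and E2).exists
  obtain ⟨n, hn0, hn⟩ := choose_big ((m+1) * t + 2 * V) hδ0
  have hn0' : (0:ℝ) < n := by exact_mod_cast hn0
  have hmt : m * t ≤ (m+1) * t := Nat.mul_le_mul_right _ (by omega)
  set A : ℝ := (n:ℝ) ^ (m * t + (m+1) * t + 2 * V) with hA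
  have hA0 : 0 < A := by positivity
  have hw0 := ww_pos m (2 * V) t 0
  have hv : ∀ j ≤ 2 * V, A * ww m (2 * V) t j
      = ((n:ℝ) ^ (m * t + (2 * V - j)) / (m * t + (2 * V - j)).factorial)
        * ((n:ℝ) ^ ((m+1) * t + j) / ((m+1) * t + j).factorial) := by
    intro j hj
    rw [hA, show m * t + (m+1) * t + 2 * V = (m * t + (2 * V - j)) + ((m+1) * t + j) by omega,
      pow_add, ww]
    field_simp
  have hp1 : (0:ℝ) < ((m * t + m * t).choose (m * t) : ℝ) := by
    exact_mod_cast Nat.choose_pos (by omega)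
  have hp2 : (0:ℝ) < (((m+1) * t + (m+1) * t).choose ((m+1) * t) : ℝ) := by
    exact_mod_cast Nat.choose_pos (by omega)
  refine partC n (m * t) ((m+1) * t) V δ (2 ^ (4 * V) * ((m * t + m * t).choose (m * t) : ℝ)
    * (((m+1) * t + (m+1) * t).choose ((m+1) * t) : ℝ)) c0 (fun j => A * ww m (2 * V) t j)
    hδ0 hδ1 (by positivity) (fun j => (mul_pos hA0 (ww_pos _ _ _ _)).le) ?_ ?_ ?_ ?_ ?_ hc hall
  · intro j hj j' hj'
    have h3 := h1 j (by simp; omega) j' (by simp; omega)
    rw [div_mul_div_comm, Set.mem_Ioo, lt_div_iff₀ (by positivity), div_lt_iff₀ (by positivity)]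
      at h3
    have e : (2:ℝ) ^ ((2 * V - j) + (2 * V - j')) * ((m * t + m * t).choose (m * t) : ℝ)
        * (2 ^ (j + j') * (((m+1) * t + (m+1) * t).choose ((m+1) * t) : ℝ))
        = 2 ^ (4 * V) * ((m * t + m * t).choose (m * t) : ℝ)
          * (((m+1) * t + (m+1) * t).choose ((m+1) * t) : ℝ) := by
      rw [show 4 * V = ((2 * V - j) + (2 * V - j')) + (j + j') by omega, pow_add _ _ (j + j')]
      ring
    rw [e] at h3
    exact ⟨h3.1.le, h3.2.le⟩
  · intro j hj
    rw [hv j hj]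
    exact mul_le_mul (Nat.choose_le_pow_div _ _) (Nat.choose_le_pow_div _ _) (by positivity)
      (by positivity)
  · intro j hj j' hj'
    rw [hv j hj, hv j' hj']
    have b1 := hn 0 (by omega) (m * t + (2 * V - j)) (by omega)
    have b2 := hn (m * t + (2 * V - j)) (by omega) (m * t + (2 * V - j')) (by omega)
    have b3 := hn 0 (by omega) ((m+1) * t + j) (by omega)
    have b4 := hn ((m+1) * t + j) (by omega) ((m+1) * t + j') (by omega)
    rw [Nat.sub_zero] at b1 b3
    have hd : 0 ≤ 1 - δ := by linarith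
    refine le_trans (le_of_eq ?_) (mul_le_mul (mul_le_mul b1 b2 (by positivity) (by positivity))
      (mul_le_mul b3 b4 (by positivity) (by positivity)) (by positivity) (by positivity))
    ring
  · exact Finset.sum_pos (fun j _ => mul_pos hA0 (ww_pos _ _ _ _)) (by simp)
  · have e : ∀ j, A * ww m (2 * V) t j
        = (A * ww m (2 * V) t 0) * (ww m (2 * V) t j / ww m (2 * V) t 0) := fun j => by field_simp
    have hB : 0 < A * ww m (2 * V) t 0 := by positivity
    have s1 : ∑ j ∈ range (2 * V + 1), A * ww m (2 * V) t j = (A * ww m (2 * V) t 0)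
        * ∑ j ∈ range (2 * V + 1), ww m (2 * V) t j / ww m (2 * V) t 0 := by
      rw [Finset.mul_sum]; exact Finset.sum_congr rfl fun j _ => e j
    have s2 : (∑ j ∈ range (2 * V + 1), if V < j then A * ww m (2 * V) t j else 0)
        = (A * ww m (2 * V) t 0) * ∑ j ∈ range (2 * V + 1),
          if V < j then ww m (2 * V) t j / ww m (2 * V) t 0 else 0 := by
      rw [Finset.mul_sum]
      refine Finset.sum_congr rfl fun j _ => ?_
      split_ifs
      · exact e j
      · simp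
    have s3 : ∑ j ∈ range (2 * V + 1), a j * (A * ww m (2 * V) t j) = (A * ww m (2 * V) t 0)
        * ∑ j ∈ range (2 * V + 1), a j * (ww m (2 * V) t j / ww m (2 * V) t 0) := by
      rw [Finset.mul_sum]
      exact Finset.sum_congr rfl fun j _ => by rw [e j]; ring
    rw [s1, s2, s3]
    have := mul_le_mul_of_nonneg_left h2.le (sq_nonneg (A * ww m (2 * V) t 0))
    linarith [this]

end Pool.Agent.H15.AC
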