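import Mathlib
set_option autoImplicit false

namespace Pool.Agent.H15.AL

open Set

variable {W : Type} [LinearOrder W] [WellFoundedLT W]

theorem coh (hc : ∀ β : W, (Iio β).Countable) : ∃ E : W → W → ℕ,
    (∀ β n, {ξ | ξ < β ∧ E β ξ ≤ n}.Finite) ∧
    ∀ α β, α < β → {ξ | ξ < α ∧ E α ξ ≠ E β ξ}.Finite := by
  classical
  have h1 : ∀ β : W, ∃ c : W → ℕ, InjOn c (Iio β) := fun β =>
    countable_iff_exists_injOn.1 (hc β)
  choose c hcinj using h1
  -- pick β ξ : the element α of (ξ, β) with least code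
  have h2 : ∀ β ξ : W, (∃ α, ξ < α ∧ α < β) → ∃ α, (ξ < α ∧ α < β) ∧
      ∀ α', ξ < α' → α' < β → c β α ≤ c β α' := by
    intro β ξ h
    obtain ⟨α, a, b⟩ := exists_minimalFor_of_wellFoundedLT (fun α => ξ < α ∧ α < β) (c β) h
    exact ⟨α, a, fun α' x y => not_lt.1 fun k => absurd (b ⟨x, y⟩ k.le) (not_le.2 k)⟩
  choose pk hpk using h2
  let F : (β : W) → ((α : W) → α < β → W → ℕ) → W → ℕ := fun β r ξ =>
    if h : ∃ α, ξ < α ∧ α < β then max (c β (pk β ξ h)) (r (pk β ξ h) (hpk β ξ h).1.2 ξ) else 0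
  let E : W → W → ℕ := WellFounded.fix wellFounded_lt F
  have hE : ∀ β ξ, E β ξ = if h : ∃ α, ξ < α ∧ α < β then
      max (c β (pk β ξ h)) (E (pk β ξ h) ξ) else 0 := by
    intro β ξ
    simp only [E]
    rw [WellFounded.fix_eq]
  have fin : ∀ β n, {α | α < β ∧ c β α ≤ n}.Finite := by
    intro β n
    refine Finite.of_finite_image (f := c β) ((finite_Iic n).subset ?_)
      ((hcinj β).mono fun α h => h.1)
    rintro _ ⟨α, h, rfl⟩
    exact h.2
  have main : ∀ β, (∀ n, {ξ | ξ < β ∧ E β ξ ≤ n}.Finite) ∧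
      ∀ α, α < β → {ξ | ξ < α ∧ E α ξ ≠ E β ξ}.Finite := by
    intro β
    induction β using WellFoundedLT.induction with
    | ind β ih =>
    constructor
    · intro n
      have hs : {ξ | ξ < β ∧ ¬ ∃ α, ξ < α ∧ α < β}.Subsingleton := by
        intro x hx y hy
        rcases lt_trichotomy x y with k | k | k
        · exact absurd ⟨y, k, hy.1⟩ hx.2
        · exact k
        · exact absurd ⟨x, k, hx.1⟩ hy.2
      refine (hs.finite.union ((fin β n).biUnion fun α hα => (ih α hα.1).1 n)).subset ?_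
      rintro ξ ⟨a, b⟩
      by_cases h : ∃ α, ξ < α ∧ α < β
      · rw [hE, dif_pos h, max_le_iff] at b
        exact Or.inr (mem_biUnion (x := pk β ξ h) ⟨(hpk β ξ h).1.2, b.1⟩ ⟨(hpk β ξ h).1.1, b.2⟩)
      · exact Or.inl ⟨a, h⟩
    · intro α hα
      have co : ∀ γ, γ < β → {ξ | ξ < α ∧ ξ < γ ∧ E α ξ ≠ E γ ξ}.Finite := by
        intro γ hγ
        rcases lt_trichotomy α γ with k | k | k
        · exact ((ih γ hγ).2 α k).subset fun ξ h => ⟨h.1, h.2.2⟩
        · subst k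
          exact finite_empty.subset fun ξ h => h.2.2 rfl
        · exact ((ih α hα).2 γ k).subset fun ξ h => ⟨h.2.1, h.2.2.symm⟩
      refine ((fin β (c β α)).biUnion fun γ hγ =>
        (co γ hγ.1).union ((ih γ hγ.1).1 (c β α))).subset ?_
      rintro ξ ⟨a, b⟩
      have h : ∃ γ, ξ < γ ∧ γ < β := ⟨α, a, hα⟩
      have k := hpk β ξ h
      have k2 := k.2 α a hα
      refine mem_biUnion (x := pk β ξ h) ⟨k.1.2, k2⟩ ?_
      by_cases e : E α ξ = E (pk β ξ h) ξ
      · refine Or.inr ⟨k.1.1, ?_⟩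
        rw [hE β, dif_pos h, e] at b
        by_contra k3
        exact b (max_eq_right (by omega)).symm
      · exact Or.inl ⟨a, k.1.1, e⟩
  exact ⟨E, fun β => (main β).1, fun α β h => (main β).2 α h⟩

theorem bdd [Uncountable W] (hc : ∀ β : W, (Iio β).Countable) {D : Set W} (hD : D.Countable) :
    ∃ δ, ∀ d ∈ D, d < δ := by
  by_contra h
  push Not at h
  have : (⋃ d ∈ D, Iic d).Countable := hD.biUnion fun d _ => by
    rw [← Iio_insert]; exact (hc d).insert d
  refine not_countable_univ (this.mono fun x _ => ?_)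
  obtain ⟨d, a, b⟩ := h x
  exact mem_biUnion a b

theorem succ_ex [Uncountable W] (hc : ∀ β : W, (Iio β).Countable) (α : W) :
    ∃ β, ∀ ξ, β ≤ ξ ↔ α < ξ := by
  obtain ⟨δ, hδ⟩ := bdd hc (countable_singleton α)
  obtain ⟨β, a, b⟩ := WellFounded.has_min wellFounded_lt {ξ | α < ξ} ⟨δ, hδ α rfl⟩
  exact ⟨β, fun ξ => ⟨fun h => lt_of_lt_of_le a h, fun h => not_lt.1 (b ξ h)⟩⟩

theorem fiber {X Y : Type} {S : Set X} (hS : ¬ S.Countable) (g : X → Y)
    (hg : (g '' S).Countable) : ∃ y, ¬ {x | x ∈ S ∧ g x = y}.Countable := by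
  by_contra h
  push Not at h
  refine hS ((hg.biUnion fun y _ => h y).mono fun x hx => ?_)
  exact mem_biUnion (mem_image_of_mem g hx) ⟨hx, rfl⟩

abbrev L := WithBot (ℤ ×ₗ ℕ)

theorem L_countable : Countable L := inferInstanceAs (Countable (Option (ℤ × ℕ)))

def lab (a : ℤ) (i : ℕ) : L := ((toLex (a, i) : ℤ ×ₗ ℕ) : L)

theorem lab_ne (a : ℤ) (i : ℕ) : lab a i ≠ ⊥ := WithBot.coe_ne_bot

theorem lab_ex {l : L} (h : l ≠ ⊥) : ∃ a i, l = lab a i := by
  obtain ⟨p, rfl⟩ := WithBot.ne_bot_iff_exists.1 h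
  exact ⟨(ofLex p).1, (ofLex p).2, rfl⟩

theorem lab_lt {a b : ℤ} {i j : ℕ} : lab a i < lab b j ↔ a < b ∨ a = b ∧ i < j := by
  rw [lab, lab, WithBot.coe_lt_coe, Prod.Lex.toLex_lt_toLex]

theorem lab_inj {a b : ℤ} {i j : ℕ} (h : lab a i = lab b j) : a = b ∧ i = j := by
  rw [lab, lab, WithBot.coe_inj] at h
  simpa using h

theorem lex_lt {x y : Lex (W → L)} :
    x < y ↔ ∃ i, (∀ j, j < i → ofLex x j = ofLex y j) ∧ ofLex x i < ofLex y i := Iff.rfl

def agree (δ : W) (x y : Lex (W → L)) : Prop := ∀ ξ, ξ < δ → ofLex x ξ = ofLex y ξ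

theorem convex {δ : W} {x y z : Lex (W → L)} (h : agree δ x z) (h1 : x ≤ y) (h2 : y ≤ z) :
    agree δ x y := by
  rcases h1.eq_or_lt with rfl | h1
  · exact fun _ _ => rfl
  rcases h2.eq_or_lt with rfl | h2
  · exact h
  obtain ⟨i, a, b⟩ := lex_lt.1 h1
  obtain ⟨k, c, d⟩ := lex_lt.1 h2
  intro ξ hξ
  refine a ξ (lt_of_lt_of_le hξ (not_lt.1 fun e => ?_))
  rcases lt_trichotomy k i with f | f | f
  · rw [← h k (f.trans e), a k f] at d
    exact lt_irrefl _ d
  · subst f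
    rw [← h k e] at d
    exact lt_asymm b d
  · rw [c i f, h i e] at b
    exact lt_irrefl _ b

def Lv (E : W → W → ℕ) (α : W) (x : Lex (W → L)) : Prop :=
  (∀ ξ, ofLex x ξ = ⊥ ↔ α ≤ ξ) ∧ {ξ | ξ < α ∧ ofLex x ξ ≠ lab 0 (E α ξ)}.Finite

theorem Lv.eq {E : W → W → ℕ} {α β δ : W} {x y : Lex (W → L)} (hx : Lv E α x) (hy : Lv E β y)
    (h : agree δ x y) (k : α < δ) : x = y := by
  have e : β ≤ α := (hy.1 α).1 (by rw [← h α k]; exact (hx.1 α).2 le_rfl)
  apply ofLex.injective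
  funext ξ
  rcases lt_or_ge ξ δ with a | a
  · exact h ξ a
  · rw [(hx.1 ξ).2 (k.le.trans a), (hy.1 ξ).2 (e.trans (k.le.trans a))]

theorem lv_countable (hc : ∀ β : W, (Iio β).Countable) (E : W → W → ℕ) (α : W) :
    {x | Lv E α x}.Countable := by
  have := L_countable
  have h1 : (Iio α ×ˢ (univ : Set L)).Countable := (hc α).prod countable_univ
  refine countable_of_injective_of_countable_image
    (f := fun x => {p : W × L | p.1 < α ∧ ofLex x p.1 ≠ lab 0 (E α p.1) ∧ p.2 = ofLex x p.1}) ?_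
    ((countable_setOf_finite_subset h1).mono ?_)
  · intro x hx y hy e
    apply ofLex.injective
    funext ξ
    rcases lt_or_ge ξ α with a | a
    · have e1 := Set.ext_iff.1 e (ξ, ofLex x ξ)
      have e2 := Set.ext_iff.1 e (ξ, ofLex y ξ)
      simp only [mem_setOf_eq, a, true_and, and_true] at e1 e2
      by_cases k : ofLex x ξ = lab 0 (E α ξ)
      · by_contra k'
        exact (e2.2 fun k2 => k' (k.trans k2.symm)).1 k
      · exact (e1.1 k).2
    · rw [(hx.1 ξ).2 a, (hy.1 ξ).2 a]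
  · rintro _ ⟨x, hx, rfl⟩
    refine ⟨(hx.2.image fun ξ => (ξ, ofLex x ξ)).subset ?_, fun p hp => ⟨hp.1, trivial⟩⟩
    rintro ⟨ξ, l⟩ ⟨a, b, c⟩
    exact ⟨ξ, ⟨a, b⟩, Prod.ext rfl c.symm⟩

open Classical in
noncomputable def res (δ : W) (x : Lex (W → L)) : Lex (W → L) :=
  toLex fun ξ => if ξ < δ then ofLex x ξ else ⊥

theorem res_agree {δ : W} {x y : Lex (W → L)} (h : res δ x = res δ y) : agree δ x y := by
  intro ξ k
  have := congrFun (congrArg ofLex h) ξ
  simpa [res, k] using this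

theorem res_countable (hc : ∀ β : W, (Iio β).Countable) {E : W → W → ℕ}
    (h2 : ∀ α β, α < β → {ξ | ξ < α ∧ E α ξ ≠ E β ξ}.Finite) (δ : W) :
    (res δ '' {x | ∃ α, Lv E α x}).Countable := by
  have h1 : (Iic δ).Countable := by rw [← Iio_insert]; exact (hc δ).insert δ
  refine (h1.biUnion fun α _ => lv_countable hc E α).mono ?_
  rintro _ ⟨x, ⟨α, hx⟩, rfl⟩
  rcases le_or_gt α δ with k | k
  · refine mem_biUnion (x := α) k ?_
    have : res δ x = x := by
      apply ofLex.injective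
      funext ξ
      by_cases a : ξ < δ
      · simp [res, a]
      · simp only [res, ofLex_toLex, a, if_false]
        exact ((hx.1 ξ).2 (k.trans (not_lt.1 a))).symm
    rw [this]; exact hx
  · refine mem_biUnion (x := δ) le_rfl ⟨fun ξ => ?_, ?_⟩
    · by_cases a : ξ < δ
      · simp only [res, ofLex_toLex, a, if_true, hx.1]
        exact iff_of_false (not_le.2 (a.trans k)) (not_le.2 a)
      · simp only [res, ofLex_toLex, a, if_false, true_iff]
        exact not_lt.1 a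
    · refine (hx.2.union (h2 δ α k)).subset ?_
      rintro ξ ⟨a, b⟩
      simp only [res, ofLex_toLex, a, if_true] at b
      by_cases e : E δ ξ = E α ξ
      · exact Or.inl ⟨a.trans k, by rwa [← e]⟩
      · exact Or.inr ⟨a, e⟩

end Pool.Agent.H15.AL
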