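import Mathlib
import Pool.Agent.H15.AL1
set_option autoImplicit false

namespace Pool.Agent.H15.AL

open Set

variable {W : Type} [LinearOrder W] [WellFoundedLT W]

theorem no_branch [Uncountable W] (hc : ∀ β : W, (Iio β).Countable) {E : W → W → ℕ}
    (h1 : ∀ β n, {ξ | ξ < β ∧ E β ξ ≤ n}.Finite)
    (h2 : ∀ α β, α < β → {ξ | ξ < α ∧ E α ξ ≠ E β ξ}.Finite)
    (f : W → Lex (W → L)) (hf : ∀ i, ∃ α, Lv E α (f i)) (inj : Function.Injective f)
    (cv : ∀ δ i j k, i ≤ j → j ≤ k → agree δ (f i) (f k) → agree δ (f i) (f j)) : False := by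
  have := L_countable
  have a1 : ∀ δ, ∃ i, ∀ j, i ≤ j → agree δ (f i) (f j) := by
    intro δ
    obtain ⟨y, hy⟩ := fiber (S := univ) not_countable_univ (fun i => res δ (f i))
      ((res_countable hc h2 δ).mono (by rintro _ ⟨i, -, rfl⟩; exact ⟨f i, hf i, rfl⟩))
    obtain ⟨i, hi⟩ : {x | x ∈ univ ∧ res δ (f x) = y}.Nonempty := by
      by_contra k
      rw [not_nonempty_iff_eq_empty] at k
      exact hy (by rw [k]; exact countable_empty)
    refine ⟨i, fun j hj => ?_⟩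
    obtain ⟨k, hk, e⟩ : ∃ k ∈ {x | x ∈ univ ∧ res δ (f x) = y}, j ≤ k := by
      by_contra k
      push Not at k
      exact hy ((hc j).mono k)
    exact cv δ i j k hj e (res_agree (hi.2.trans hk.2.symm))
  choose g hg using a1
  choose s hs using succ_ex hc
  have slt : ∀ ξ, ξ < s ξ := fun ξ => (hs ξ _).1 le_rfl
  let u : W → L := fun ξ => ofLex (f (g (s ξ))) ξ
  have hu : ∀ δ ξ, ξ < δ → u ξ = ofLex (f (g δ)) ξ := by
    intro δ ξ k
    exact (hg _ _ (le_max_left (g (s ξ)) (g δ)) ξ (slt ξ)).trans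
      (hg _ _ (le_max_right (g (s ξ)) (g δ)) ξ k).symm
  have fin : ∀ δ l, {ξ | ξ < δ ∧ u ξ = l}.Finite := by
    intro δ l
    obtain ⟨α, hα⟩ := hf (g δ)
    have e : δ ≤ α := by
      by_contra k
      obtain ⟨β, hβ⟩ := hf (s (g δ))
      exact (slt (g δ)).ne (inj (hα.eq hβ (hg δ _ (slt _).le) (not_le.1 k)))
    by_cases hl : l = ⊥
    · refine finite_empty.subset ?_
      rintro ξ ⟨a, b⟩
      rw [hu δ ξ a, hl, hα.1] at b
      exact absurd (a.trans_le e) (not_lt.2 b)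
    · obtain ⟨m, i, rfl⟩ := lab_ex hl
      refine (hα.2.union (h1 α i)).subset ?_
      rintro ξ ⟨a, b⟩
      rw [hu δ ξ a] at b
      by_cases k : ofLex (f (g δ)) ξ = lab 0 (E α ξ)
      · exact Or.inr ⟨a.trans_le e, (lab_inj (k.symm.trans b)).2.le⟩
      · exact Or.inl ⟨a.trans_le e, k⟩
  obtain ⟨l, hl⟩ := fiber (S := univ) not_countable_univ u (to_countable _)
  have hinf : {x | x ∈ univ ∧ u x = l}.Infinite := fun k => hl k.countable
  let e := hinf.natEmbedding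
  obtain ⟨δ, hδ⟩ := bdd hc (countable_range fun n => (e n : W))
  refine (infinite_range_of_injective (f := fun n => (e n : W))
    (Subtype.val_injective.comp e.injective)) ((fin δ l).subset ?_)
  rintro _ ⟨n, rfl⟩
  exact ⟨hδ _ ⟨n, rfl⟩, (e n).2.2⟩

theorem three {X : Type} [LinearOrder X] {F : Set X} (h : F.Infinite) :
    ∃ x ∈ F, ∃ y ∈ F, ∃ z ∈ F, x < y ∧ y < z := by
  obtain ⟨t, a, b⟩ := h.exists_subset_card_eq 3
  let e := t.orderEmbOfFin b
  exact ⟨e 0, a (t.orderEmbOfFin_mem b 0), e 1, a (t.orderEmbOfFin_mem b 1), e 2,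
    a (t.orderEmbOfFin_mem b 2), e.strictMono (by decide), e.strictMono (by decide)⟩

abbrev A (E : W → W → ℕ) : Type := {x : Lex (W → L) // ∃ α, Lv E α x}

theorem no_real [Uncountable W] (hc : ∀ β : W, (Iio β).Countable) {E : W → W → ℕ}
    (h2 : ∀ α β, α < β → {ξ | ξ < α ∧ E α ξ ≠ E β ξ}.Finite) (X : Set (A E)) (φ : X ↪o ℝ) :
    X.Countable := by
  by_contra hX
  have hX' : ¬ (univ : Set X).Countable := fun k => hX (countable_coe_iff.1 (countable_univ_iff.1 k))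
  obtain ⟨x0, -⟩ : (univ : Set X).Nonempty := by
    by_contra k
    rw [not_nonempty_iff_eq_empty] at k
    exact hX' (by rw [k]; exact countable_empty)
  have hd : ∀ p : ℚ × ℚ, ∃ d : X, (∃ y : X, (p.1 : ℝ) < φ y ∧ φ y < p.2) →
      (p.1 : ℝ) < φ d ∧ φ d < p.2 := by
    intro p
    by_cases k : ∃ y : X, (p.1 : ℝ) < φ y ∧ φ y < p.2
    · exact k.imp fun _ a _ => a
    · exact ⟨x0, fun k' => absurd k' k⟩
  choose d hd using hd
  have hh : ∀ p, ∃ α, Lv E α (d p).1.1 := fun p => (d p).1.2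
  choose ht hht using hh
  obtain ⟨δ, hδ⟩ := bdd hc (countable_range ht)
  obtain ⟨w, hw⟩ := fiber hX' (fun x : X => res δ x.1.1)
    ((res_countable hc h2 δ).mono (by rintro _ ⟨i, -, rfl⟩; exact ⟨i.1.1, i.1.2, rfl⟩))
  obtain ⟨x, hx, y, -, z, hz, a, b⟩ := three fun k => hw (Finite.countable k)
  obtain ⟨p, p1, p2⟩ := exists_rat_btwn (φ.strictMono a)
  obtain ⟨q, q1, q2⟩ := exists_rat_btwn (φ.strictMono b)
  obtain ⟨c1, c2⟩ := hd (p, q) ⟨y, p2, q1⟩
  have k1 : x < d (p, q) := φ.lt_iff_lt.1 (p1.trans c1)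
  have k2 : d (p, q) < z := φ.lt_iff_lt.1 (c2.trans q2)
  have k3 := convex (res_agree (hx.2.trans hz.2.symm)) (le_of_lt k1) (le_of_lt k2)
  obtain ⟨α, hα⟩ := x.1.2
  have := (hht (p, q)).eq hα (fun ξ h => (k3 ξ h).symm) (hδ _ ⟨_, rfl⟩)
  exact k1.ne (Subtype.ext (Subtype.ext this.symm))

theorem next [Uncountable W] (hc : ∀ β : W, (Iio β).Countable) {E : W → W → ℕ}
    (h2 : ∀ α β, α < β → {ξ | ξ < α ∧ E α ξ ≠ E β ξ}.Finite) (a b : A E) (n : ℕ) :
    ∃ c : A E, a < c ∧ (a < b → c < b) ∧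
      ∀ x : A E, a < x → x < c → ∃ ξ m i, ofLex x.1 ξ = lab m i ∧ m < -(n : ℤ) := by
  classical
  obtain ⟨α, hα⟩ := a.2
  obtain ⟨β, hβ⟩ := b.2
  obtain ⟨γ, hγ⟩ := succ_ex hc α
  obtain ⟨m, m1, m2⟩ : ∃ m : ℤ, m ≤ -(n : ℤ) ∧ (ofLex b.1 α ≠ ⊥ → lab m 0 < ofLex b.1 α) := by
    by_cases k : ofLex b.1 α = ⊥
    · exact ⟨_, le_rfl, fun k' => absurd k k'⟩
    · obtain ⟨m, i, e⟩ := lab_ex k
      exact ⟨min (-(n : ℤ)) (m - 1), min_le_left _ _, fun _ => by
        rw [e, lab_lt]; left; omega⟩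
  let c : Lex (W → L) := toLex (Function.update (ofLex a.1) α (lab m 0))
  have c1 : ofLex c α = lab m 0 := by simp [c]
  have c2 : ∀ ξ, ξ ≠ α → ofLex c ξ = ofLex a.1 ξ := fun ξ k => by simp [c, k]
  have ag : agree α a.1 c := fun ξ k => (c2 ξ k.ne).symm
  have a0 : ofLex a.1 α = ⊥ := (hα.1 α).2 le_rfl
  have hL : Lv E γ c := by
    refine ⟨fun ξ => ?_, ?_⟩
    · rw [hγ]
      by_cases k : ξ = α
      · rw [k, c1]; exact iff_of_false (lab_ne _ _) (lt_irrefl _)
      · rw [c2 ξ k, hα.1]; exact ⟨fun e => lt_of_le_of_ne e (Ne.symm k), le_of_lt⟩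
    · refine ((finite_singleton α).union (hα.2.union (h2 α γ ((hγ γ).1 le_rfl)))).subset ?_
      rintro ξ ⟨p, q⟩
      by_cases k : ξ = α
      · exact Or.inl k
      · have r : ξ < α := lt_of_le_of_ne (not_lt.1 fun e => absurd ((hγ ξ).2 e) (not_le.2 p)) k
        rw [c2 ξ k] at q
        by_cases e : E α ξ = E γ ξ
        · exact Or.inr (Or.inl ⟨r, by rwa [e]⟩)
        · exact Or.inr (Or.inr ⟨r, e⟩)
  refine ⟨⟨c, γ, hL⟩, ?_, fun h => ?_, fun x h h' => ?_⟩
  · exact lex_lt.2 ⟨α, ag, by rw [a0, c1]; exact bot_lt_iff_ne_bot.2 (lab_ne _ _)⟩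
  · obtain ⟨i, p, q⟩ := lex_lt.1 (show a.1 < b.1 from h)
    refine (lex_lt (x := c) (y := b.1)).2 ?_
    rcases lt_trichotomy i α with k | k | k
    · exact ⟨i, fun j hj => by rw [c2 j (hj.trans k).ne, p j hj], by rwa [c2 i k.ne]⟩
    · subst k
      exact ⟨i, fun j hj => by rw [c2 j hj.ne, p j hj], by rw [c1]; exact m2 (ne_bot_of_gt q)⟩
    · have : β ≤ α := (hβ.1 α).1 (by rw [← p α k, a0])
      rw [(hβ.1 i).2 (this.trans k.le)] at q
      exact absurd q not_lt_bot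
  · have k1 : agree α a.1 x.1 := convex ag (le_of_lt h) (le_of_lt h')
    obtain ⟨η, hη⟩ := x.2
    have k2 : ofLex x.1 α ≠ ⊥ := by
      intro e
      have e' := (hη.1 α).1 e
      refine h.ne (Subtype.ext (ofLex.injective (funext fun ξ => ?_)))
      rcases lt_or_ge ξ α with r | r
      · exact k1 ξ r
      · rw [(hα.1 ξ).2 r, (hη.1 ξ).2 (e'.trans r)]
    obtain ⟨m', i', e⟩ := lab_ex k2
    refine ⟨α, m', i', e, ?_⟩
    obtain ⟨i, p, q⟩ := lex_lt.1 (show x.1 < c from h')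
    rcases lt_trichotomy i α with k | k | k
    · rw [← k1 i k, ag i k] at q
      exact absurd q (lt_irrefl _)
    · subst k
      rw [e, c1, lab_lt] at q
      omega
    · rw [(hL.1 i).2 ((hγ i).2 k)] at q
      exact absurd q not_lt_bot

theorem bounded {E : W → W → ℕ} (x : A E) :
    ∃ n : ℕ, ∀ ξ m i, ofLex x.1 ξ = lab m i → -(n : ℤ) ≤ m := by
  classical
  obtain ⟨α, hα⟩ := x.2
  let j : L → ℤ := fun l => if h : l ≠ ⊥ then (lab_ex h).choose else 0
  have hj : ∀ m i, j (lab m i) = m := by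
    intro m i
    simp only [j, dif_pos (lab_ne m i)]
    obtain ⟨i', e⟩ := (lab_ex (lab_ne m i)).choose_spec
    exact (lab_inj e).1.symm
  obtain ⟨B, hB⟩ := (hα.2.image fun ξ => j (ofLex x.1 ξ)).bddBelow
  refine ⟨B.natAbs, fun ξ m i e => ?_⟩
  have r : ξ < α := not_le.1 fun k => lab_ne m i (e.symm.trans ((hα.1 ξ).2 k))
  by_cases k : ofLex x.1 ξ = lab 0 (E α ξ)
  · have := (lab_inj (k.symm.trans e)).1
    omega
  · have := hB ⟨ξ, ⟨r, k⟩, rfl⟩
    simp only [e, hj] at this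
    omega

theorem uncountable [Uncountable W] (E : W → W → ℕ) : Uncountable (A E) := by
  classical
  let x : W → Lex (W → L) := fun α => toLex fun ξ => if ξ < α then lab 0 (E α ξ) else ⊥
  have hx : ∀ α, Lv E α (x α) := by
    intro α
    refine ⟨fun ξ => ?_, finite_empty.subset ?_⟩
    · by_cases k : ξ < α
      · simp only [x, ofLex_toLex, k, if_true]
        exact iff_of_false (lab_ne _ _) (not_le.2 k)
      · simp only [x, ofLex_toLex, k, if_false, true_iff]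
        exact not_lt.1 k
    · rintro ξ ⟨a, b⟩
      simp [x, a] at b
  refine Function.Injective.uncountable (f := fun α => (⟨x α, α, hx α⟩ : A E)) ?_
  intro α β e
  have e' : x α = x β := congrArg Subtype.val e
  exact le_antisymm (((hx α).1 β).1 (by rw [e']; exact ((hx β).1 β).2 le_rfl))
    (((hx β).1 α).1 (by rw [← e']; exact ((hx α).1 α).2 le_rfl))

theorem main [Uncountable W] (hc : ∀ β : W, (Iio β).Countable) :
    ∃ (X : Type) (_ : LinearOrder X), DenselyOrdered X ∧ Uncountable X ∧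
      IsEmpty (W ↪o X) ∧ IsEmpty (Wᵒᵈ ↪o X) ∧
      (∀ Y : Set X, Nonempty (Y ↪o ℝ) → Y.Countable) ∧
      ∀ S : Set X, ∃ σ : List X → X, ∀ a b : ℕ → X,
        (∀ n, b n = σ ((List.range (n + 1)).map a)) →
        (∀ n, (∀ k < n, a k < a (k + 1) ∧ a (k + 1) < b k) →
          a n < b n ∧ ∀ m, n = m + 1 → b n < b m) ∧
        ((∀ k, a k < a (k + 1) ∧ a (k + 1) < b k) → ¬ ∃ x ∈ S, ∀ n, a n < x ∧ x < b n) := by
  obtain ⟨E, h1, h2⟩ := coh hc
  have hU := uncountable E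
  refine ⟨A E, inferInstance, ⟨fun a b h => ?_⟩, hU, ⟨fun f => ?_⟩, ⟨fun f => ?_⟩,
    fun Y ⟨φ⟩ => no_real hc h2 Y φ, fun S => ?_⟩
  · obtain ⟨c, p, q, -⟩ := next hc h2 a b 0
    exact ⟨c, p, q h⟩
  · exact no_branch hc h1 h2 (fun i => (f i).1) (fun i => (f i).2)
      (Subtype.val_injective.comp f.injective)
      fun δ i j k p q h => convex h (f.monotone p) (f.monotone q)
  · refine no_branch hc h1 h2 (fun i => (f (OrderDual.toDual i)).1) (fun i => (f _).2)
      (Subtype.val_injective.comp (f.injective.comp OrderDual.toDual.injective))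
      fun δ i j k p q h ξ r => ?_
    have := convex (fun ξ r => (h ξ r).symm) (f.monotone (OrderDual.toDual_le_toDual.2 q))
      (f.monotone (OrderDual.toDual_le_toDual.2 p))
    exact (h ξ r).trans (this ξ r)
  · choose nx p q r using next hc h2
    obtain ⟨x0⟩ : Nonempty (A E) := inferInstance
    let τ : List (A E) → A E := fun l => List.rec x0 (fun a l b => nx a b l.length) l
    refine ⟨fun l => τ l.reverse, fun a b hb => ?_⟩
    have e : ∀ n, b n = nx (a n) (τ ((List.range n).map a).reverse) n := by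
      intro n
      rw [hb, List.range_succ, List.map_append]
      simp [τ]
    refine ⟨fun n h => ⟨by rw [e]; exact p _ _ _, ?_⟩, ?_⟩
    · rintro m rfl
      rw [e (m + 1)]
      have := hb m
      simp only at this
      rw [← this]
      exact q _ _ _ (h m (Nat.lt_succ_self m)).2
    · rintro - ⟨x, -, hx⟩
      obtain ⟨n, hn⟩ := bounded x
      obtain ⟨ξ, m, i, s, t⟩ := r (a n) _ n x (hx n).1 (by rw [← e]; exact (hx n).2)
      exact absurd (hn ξ m i s) (not_le.2 t)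

end Pool.Agent.H15.AL
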