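import Mathlib

/-! Generalised Langton ants: definitions and simulation lemmas. -/

namespace Pool.Agent.H15.ANT

abbrev Z2 := ℤ × ℤ

/-- one step of the ant with rule word `w` (`w k = true` is the letter `R`, `false` is `L`);
a configuration is (grid, position, direction) -/
def T {m : ℕ} [NeZero m] (w : Fin m → Bool) (C : (Z2 → Fin m) × Z2 × Z2) :
    (Z2 → Fin m) × Z2 × Z2 :=
  (Function.update C.1 C.2.1 (C.1 C.2.1 + 1),
    C.2.1 + (if w (C.1 C.2.1) then (C.2.2.2, -C.2.2.1) else (-C.2.2.2, C.2.2.1)),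
    if w (C.1 C.2.1) then (C.2.2.2, -C.2.2.1) else (-C.2.2.2, C.2.2.1))

/-- cells visited infinitely often -/
def Rec {m : ℕ} [NeZero m] (w : Fin m → Bool) (C : (Z2 → Fin m) × Z2 × Z2) : Set Z2 :=
  {x | {t : ℕ | ((T w)^[t] C).2.1 = x}.Infinite}

/-- the word `LR` -/
def LR : Fin 2 → Bool := ![false, true]

abbrev Cf := (Z2 → Fin 2) × Z2 × Z2

def turn (s : Fin 2) (q : Z2) : Z2 := if LR s then (q.2, -q.1) else (-q.2, q.1)

theorem turn0 (q : Z2) : turn 0 q = (-q.2, q.1) := rfl
theorem turn1 (q : Z2) : turn 1 q = (q.2, -q.1) := rfl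

theorem T_eq (c : Z2 → Fin 2) (p q : Z2) :
    T LR (c, p, q) = (Function.update c p (c p + 1), p + turn (c p) q, turn (c p) q) := rfl

def sim : ℕ → List (Z2 × Fin 2) → Z2 → Z2 → Option (List (Z2 × Fin 2) × Z2 × Z2)
  | 0, l, p, q => some (l, p, q)
  | n + 1, l, p, q => (l.lookup p).bind fun s => sim n ((p, s + 1) :: l) (p + turn s q) (turn s q)

def Agree (c : Z2 → Fin 2) (l : List (Z2 × Fin 2)) : Prop := ∀ z s, l.lookup z = some s → c z = s

theorem run (n : ℕ) : ∀ (c : Z2 → Fin 2) (l l' : List (Z2 × Fin 2)) (p q p' q' : Z2), Agree c l →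
    sim n l p q = some (l', p', q') → ∃ c', (T LR)^[n] (c, p, q) = (c', p', q') ∧ Agree c' l' ∧
      (∀ z, l.lookup z = none → c' z = c z) ∧
      ∀ t < n, l.lookup ((T LR)^[t] (c, p, q)).2.1 ≠ none := by
  induction n with
  | zero =>
    intro c l l' p q p' q' h hs
    simp only [sim, Option.some.injEq, Prod.mk.injEq] at hs
    obtain ⟨rfl, rfl, rfl⟩ := hs
    exact ⟨c, rfl, h, fun _ _ => rfl, fun t ht => absurd ht (Nat.not_lt_zero t)⟩
  | succ n ih =>
    intro c l l' p q p' q' h hs
    simp only [sim] at hs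
    obtain ⟨s, hl, hs⟩ := Option.bind_eq_some_iff.1 hs
    have hc := h p s hl
    have key : ∀ z, z ≠ p → List.lookup z ((p, s + 1) :: l) = l.lookup z := fun z hz => by
      rw [List.lookup_cons, beq_eq_false_iff_ne.2 hz]
    obtain ⟨c', h1, h2, h3, h4⟩ := ih (Function.update c p (s + 1)) _ l' _ _ p' q' (by
      intro z r hz
      by_cases e : z = p
      · subst e
        simp only [List.lookup_cons_self, Option.some.injEq] at hz
        simp [hz]
      · rw [key z e] at hz
        rw [Function.update_of_ne e, h z r hz]) hs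
    refine ⟨c', by rw [Function.iterate_succ_apply, T_eq, hc, h1], h2, fun z hz => ?_, fun t ht => ?_⟩
    · have e : z ≠ p := by rintro rfl; rw [hz] at hl; cases hl
      rw [h3 z (by rw [key z e, hz]), Function.update_of_ne e]
    · rcases t with _ | t
      · simp [hl]
      · have := h4 t (by omega)
        rw [Function.iterate_succ_apply, T_eq, hc]
        intro hn
        refine this ?_
        rw [key _ (by intro e; rw [e, hl] at hn; cases hn), hn]

/-- the frame change about column `a` -/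
def psi (a : ℤ) (z : Z2) : Z2 := (a - z.1, if a % 2 = 0 then z.2 else 1 - z.2)
def fl (a : ℤ) : Fin 2 := if a % 2 = 0 then 1 else 0
def pull (a : ℤ) (c : Z2 → Fin 2) : Z2 → Fin 2 := fun z => c (psi a z) + fl a
def lin (a : ℤ) (q : Z2) : Z2 := (-q.1, if a % 2 = 0 then q.2 else -q.2)
def Fr (a : ℤ) (C : Cf) : Cf := (pull a C.1, psi a C.2.1, lin a C.2.2)

theorem psi_psi (a : ℤ) (z : Z2) : psi a (psi a z) = z := by
  unfold psi; split_ifs <;> simp

theorem T_Fr (a : ℤ) (C : Cf) : T LR (Fr a C) = Fr a (T LR C) := by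
  obtain ⟨c, p, q⟩ := C
  have e : turn (pull a c (psi a p)) (lin a q) = lin a (turn (c p) q) := by
    rw [pull, psi_psi]
    generalize c p = s
    unfold turn lin fl
    fin_cases s <;> split_ifs <;> simp_all [LR]
  simp only [Fr, T_eq, e, Prod.mk.injEq, and_true]
  constructor
  · funext z
    by_cases h : z = psi a p
    · subst h
      simp only [pull, psi_psi, Function.update_self]
      abel
    · have : psi a z ≠ p := by rintro rfl; exact h (psi_psi a z).symm
      simp only [Function.update_of_ne h, pull, Function.update_of_ne this]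
  · unfold psi lin
    split_ifs <;> simp [Prod.ext_iff] <;> omega

theorem iter_Fr (a : ℤ) (C : Cf) (t : ℕ) : (T LR)^[t] (Fr a C) = Fr a ((T LR)^[t] C) := by
  induction t with
  | zero => rfl
  | succ t ih => rw [Function.iterate_succ_apply', ih, T_Fr, Function.iterate_succ_apply']

/-- westward traversal of a wire of `n` columns ending at column `x` -/
theorem wire (n : ℕ) : ∀ (c : Z2 → Fin 2) (x : ℤ),
    (∀ i, x - n < i → i ≤ x → c (i, 0) = 1 ∧ c (i, 1) = 0) →
    ∃ c', (T LR)^[2 * n] (c, (x, x % 2), (-1, 0)) = (c', (x - n, (x - n) % 2), (-1, 0)) ∧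
      (∀ i, x - n < i → i ≤ x → c' (i, 0) = 0 ∧ c' (i, 1) = 1) ∧
      (∀ z : Z2, ¬ (x - n < z.1 ∧ z.1 ≤ x ∧ (z.2 = 0 ∨ z.2 = 1)) → c' z = c z) ∧
      (∀ t < 2 * n, ((T LR)^[t] (c, (x, x % 2), (-1, 0))).2.1.2 = 0 ∨
        ((T LR)^[t] (c, (x, x % 2), (-1, 0))).2.1.2 = 1) ∧
      ∀ i, x - n < i → i ≤ x → ∃ t < 2 * n, ((T LR)^[t] (c, (x, x % 2), (-1, 0))).2.1.1 = i := by
  induction n with
  | zero =>
    intro c x _
    exact ⟨c, by simp, fun i h1 h2 => by omega, fun _ _ => rfl, fun t ht => by omega,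
      fun i h1 h2 => by omega⟩
  | succ n ih =>
    intro c x h
    obtain ⟨h0, h1⟩ := h x (by omega) le_rfl
    obtain ⟨c1, e1, e2, e3, e4⟩ : ∃ c1, (T LR)^[2] (c, (x, x % 2), (-1, 0)) =
        (c1, (x - 1, (x - 1) % 2), (-1, 0)) ∧ c1 (x, 0) = 0 ∧ c1 (x, 1) = 1 ∧
        (∀ z : Z2, z ≠ (x, 0) → z ≠ (x, 1) → c1 z = c z) ∧
        ((T LR (c, (x, x % 2), (-1, 0))).2.1.2 = 0 ∨ (T LR (c, (x, x % 2), (-1, 0))).2.1.2 = 1) := by
      rcases Int.emod_two_eq_zero_or_one x with hx | hx
      · have hx' : (x - 1) % 2 = 1 := by omega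
        refine ⟨Function.update (Function.update c (x, 0) 0) (x, 1) 1, ?_, by simp, by simp,
          fun z a b => by simp [a, b], ?_⟩
        · rw [hx, hx']; simp [T_eq, h0, h1, turn0, turn1, sub_eq_add_neg]
        · simp [hx, T_eq, h0, turn1]
      · have hx' : (x - 1) % 2 = 0 := by omega
        refine ⟨Function.update (Function.update c (x, 1) 1) (x, 0) 0, ?_, by simp, by simp,
          fun z a b => by simp [a, b], ?_⟩
        · rw [hx, hx']; simp [T_eq, h0, h1, turn0, turn1, sub_eq_add_neg]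
        · simp [hx, T_eq, h1, turn0]
    obtain ⟨e4, e5⟩ := e4
    obtain ⟨c', f1, f2, f3, f4, f5⟩ := ih c1 (x - 1) fun i a b => by
      rw [e4 _ (by simp; omega) (by simp), e4 _ (by simp) (by simp; omega)]
      exact h i (by omega) (by omega)
    have it : ∀ t, (T LR)^[t + 2] (c, (x, x % 2), (-1, 0)) =
        (T LR)^[t] (c1, (x - 1, (x - 1) % 2), (-1, 0)) := fun t => by
      rw [Function.iterate_add_apply, e1]
    refine ⟨c', ?_, fun i a b => ?_, fun z hz => ?_, fun t ht => ?_, fun i a b => ?_⟩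
    · rw [show 2 * (n + 1) = 2 * n + 2 by ring, it, f1]
      simp only [Nat.cast_add, Nat.cast_one, sub_sub, add_comm]
    · by_cases hi : i = x
      · subst hi
        rw [f3 _ (by simp), f3 _ (by simp)]
        exact ⟨e2, e3⟩
      · exact f2 i (by omega) (by omega)
    · rw [f3 z (by push_cast at hz; omega), e4 z]
      · rintro rfl; simp at hz
      · rintro rfl; simp at hz
    · rcases t with _ | _ | t
      · simpa using Int.emod_two_eq_zero_or_one x
      · exact e5
      · rw [show t + 1 + 1 = t + 2 from rfl, it]; exact f4 t (by omega)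
    · by_cases hi : i = x
      · exact ⟨0, by omega, hi.symm⟩
      · obtain ⟨t, ht, e⟩ := f5 i (by omega) (by omega)
        exact ⟨t + 2, by omega, by rw [it]; exact e⟩

end Pool.Agent.H15.ANT
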