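import Pool.Agent.H15.ANT1

/-! The Langton ant confined to a band and recurrent. -/

namespace Pool.Agent.H15.ANT

def g (r y : ℤ) : Fin 2 :=
  if (y = 0 ∧ r ≠ 1 ∧ r ≠ 3) ∨ (y = -1 ∧ r = 2) ∨ (y = -2 ∧ (r = 0 ∨ r = 1)) then 1 else 0

def V (z : Z2) : Fin 2 := if z.2 ≤ 0 then g (z.1 % 6) z.2 else g ((z.1 + 3) % 6) (1 - z.2) + 1

theorem V_glide (z : Z2) : V (3 + z.1, 1 - z.2) + 1 = V z := by
  unfold V
  by_cases h : z.2 ≤ 0
  · rw [if_neg (by simp; omega), if_pos h, show (3 + z.1 + 3) % 6 = z.1 % 6 by omega]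
    simp only [sub_sub_cancel]
    generalize g (z.1 % 6) z.2 = s
    fin_cases s <;> rfl
  · rw [if_pos (by simp; omega), if_neg h, add_comm 3]

def Reg (z : Z2) : Prop :=
  (z.2 < 0 ∧ -1 ≤ z.1) ∨ (1 < z.2 ∧ 2 ≤ z.1) ∨ (z.2 = 0 ∧ 0 ≤ z.1) ∨ (z.2 = 1 ∧ 1 ≤ z.1)

instance (z : Z2) : Decidable (Reg z) := by unfold Reg; infer_instance

def E0 (c : Z2 → Fin 2) : Prop := c (0, 1) = 0 ∧ ∀ z, Reg z → c z = V z

def l0 : List (Z2 × Fin 2) := [((0, 0), 1), ((0, -1), 0), ((1, -1), 0), ((1, 0), 0), ((-1, -1), 0),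
  ((-1, -2), 0), ((0, -2), 1), ((0, -3), 0), ((1, -3), 0), ((1, -2), 1), ((2, -2), 0), ((2, -1), 1),
  ((3, -1), 0), ((3, 0), 0), ((2, 0), 1), ((2, 1), 0), ((1, 1), 0), ((0, 1), 0)]

def Win (z : Z2) : Prop :=
  -1 ≤ z.1 ∧ z.1 ≤ 3 ∧ -3 ≤ z.2 ∧ z.2 ≤ 1 ∧ ¬ (z.1 = -1 ∧ 0 ≤ z.2) ∧ ¬ (z.1 = 3 ∧ z.2 = 1)

instance (z : Z2) : Decidable (Win z) := by unfold Win; infer_instance

theorem mem_l (l : List (Z2 × Fin 2)) (z : Z2) (s : Fin 2) (h : l.lookup z = some s) :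
    (z, s) ∈ l := by
  obtain ⟨l1, l2, rfl, -⟩ := List.lookup_eq_some_iff.1 h
  simp

theorem gadget {c : Z2 → Fin 2} (h : E0 c) : ∃ c', (T LR)^[22] (c, (0, 0), (1, 0)) =
    (c', (-1, 1), (-1, 0)) ∧ (∀ i, 0 ≤ i → i ≤ 2 → c' (i, 0) = 0 ∧ c' (i, 1) = 1) ∧ c' (3, 0) = 1 ∧
    (∀ z, ¬ Win z → c' z = c z) ∧ ∀ t < 22, Win ((T LR)^[t] (c, (0, 0), (1, 0))).2.1 := by
  have hw : ∀ z, l0.lookup z ≠ none → Win z := fun z hz => by
    obtain ⟨s, hs⟩ := Option.ne_none_iff_exists'.1 hz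
    exact (by decide : ∀ e ∈ l0, Win e.1) _ (mem_l _ _ _ hs)
  have ha : Agree c l0 := fun z s hs => by
    rcases (by decide : ∀ e ∈ l0, e = ((0, 1), 0) ∨ (Reg e.1 ∧ V e.1 = e.2)) _ (mem_l _ _ _ hs)
      with e | e
    · cases e; exact h.1
    · exact (h.2 z e.1).trans e.2
  obtain ⟨l', hl, e⟩ : ∃ l', sim 22 l0 (0, 0) (1, 0) = some (l', (-1, 1), (-1, 0)) ∧
      l'.lookup (0, 0) = some 0 ∧ l'.lookup (1, 0) = some 0 ∧ l'.lookup (2, 0) = some 0 ∧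
      l'.lookup (0, 1) = some 1 ∧ l'.lookup (1, 1) = some 1 ∧ l'.lookup (2, 1) = some 1 ∧
      l'.lookup (3, 0) = some 1 :=
    ⟨((sim 22 l0 (0, 0) (1, 0)).getD ([], 0, 0)).1, by decide +kernel⟩
  obtain ⟨c', h1, h2, h3, h4⟩ := run 22 c l0 l' _ _ _ _ ha hl
  obtain ⟨e1, e2, e3, e4, e5, e6, e7⟩ := e
  refine ⟨c', h1, fun i a b => ?_, h2 _ _ e7, fun z hz => h3 z ?_, fun t ht => hw _ (h4 t ht)⟩
  · interval_cases i
    exacts [⟨h2 _ _ e1, h2 _ _ e4⟩, ⟨h2 _ _ e2, h2 _ _ e5⟩, ⟨h2 _ _ e3, h2 _ _ e6⟩]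
  · by_contra hn; exact hz (hw z hn)

def K (n : ℕ) (C : Cf) : Prop := C.2 = ((0, 0), (1, 0)) ∧ E0 C.1 ∧
  (∀ i : ℤ, -n ≤ i → i ≤ -1 → C.1 (i, 0) = 1 ∧ C.1 (i, 1) = 0) ∧ E0 (pull (-n - 1) C.1)

def Band (z : Z2) : Prop := -3 ≤ z.2 ∧ z.2 ≤ 4

theorem sweep {n : ℕ} (hn : 2 ≤ n) {C : Cf} (h : K n C) :
    K (n + 3) (Fr (-n - 1) ((T LR)^[2 * n + 22] C)) ∧
      (∀ t < 2 * n + 22, Band ((T LR)^[t] C).2.1) ∧
      ∀ j : ℤ, -n ≤ j → j ≤ -1 → ∃ t, ((T LR)^[t] C).2.1.1 = j := by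
  obtain ⟨c, pq⟩ := C
  obtain ⟨rfl, h1, h2, h3⟩ := h
  simp only at h1 h2 h3
  obtain ⟨c1, a1, a2, a3, a4, a5⟩ := gadget h1
  obtain ⟨c2, b1, b2, b3, b4, b5⟩ := wire n c1 (-1) fun i a b => by
    rw [a4 _ (by simp [Win]; omega), a4 _ (by simp [Win]; omega)]
    exact h2 i (by omega) b
  have it : ∀ t, (T LR)^[t + 22] (c, (0, 0), (1, 0)) =
      (T LR)^[t] (c1, (-1, (-1) % 2), (-1, 0)) := fun t => by
    rw [Function.iterate_add_apply, a1]; rfl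
  have w : ∀ i : ℤ, -n ≤ i → i ≤ 2 → c2 (i, 0) = 0 ∧ c2 (i, 1) = 1 := fun i a b => by
    by_cases hi : i ≤ -1
    · exact b2 i (by omega) hi
    · rw [b3 _ (by simp; omega), b3 _ (by simp; omega)]
      exact a2 i (by omega) b
  refine ⟨?_, fun t ht => ?_, fun j a b => ?_⟩
  · rw [it, b1]
    have hp : ∀ z : Z2, Reg z ∨ z = (0, 1) → pull (-n - 1) c2 z = pull (-n - 1) c z := by
      intro z hz
      have hz' : (z.2 < 0 ∧ -1 ≤ z.1) ∨ (1 < z.2 ∧ 2 ≤ z.1) ∨ (z.2 = 0 ∧ 0 ≤ z.1) ∨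
          (z.2 = 1 ∧ 0 ≤ z.1) := by
        rcases hz with hz | rfl
        · unfold Reg at hz; omega
        · simp
      unfold pull
      rw [b3, a4]
      · simp only [Win, psi]; omega
      · simp only [psi]; split_ifs <;> omega
    have hq : ∀ z : Z2, pull (-((n + 3 : ℕ) : ℤ) - 1) (pull (-n - 1) c2) z =
        c2 (3 + z.1, 1 - z.2) + 1 := by
      intro z
      unfold pull psi fl
      push_cast
      by_cases e : (-(n:ℤ) - 1) % 2 = 0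
      · have e' : ¬ (-((n:ℤ) + 3) - 1) % 2 = 0 := by omega
        simp only [e, e', if_true, if_false, add_zero]
        congr 3; ring
      · have e' : (-((n:ℤ) + 3) - 1) % 2 = 0 := by omega
        simp only [e, e', if_true, if_false, add_zero]
        congr 3; ring
    refine ⟨?_, ⟨(hp _ (Or.inr rfl)).trans h3.1, fun z hz => (hp z (Or.inl hz)).trans (h3.2 z hz)⟩,
      fun i a b => ?_, ?_, fun z hz => ?_⟩
    · simp only [Fr, psi, lin, Prod.mk.injEq]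
      split_ifs <;> omega
    · obtain ⟨w0, w1⟩ := w (-n - 1 - i) (by omega) (by push_cast at a; omega)
      simp only [Fr, pull, psi, fl]
      split_ifs <;> simp [w0, w1]
    · simp only [Fr]
      rw [hq, b3 _ (by simp)]
      simp [a3]
    · simp only [Fr]
      have hz' := hz
      unfold Reg at hz'
      rw [hq, b3 _ (by simp only; omega), a4 _ (by simp only [Win]; omega),
        h1.2 _ (by simp only [Reg]; omega), V_glide]
  · by_cases e : t < 22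
    · have := a5 t e
      unfold Win at this
      unfold Band
      omega
    · obtain ⟨s, rfl⟩ : ∃ s, t = s + 22 := ⟨t - 22, by omega⟩
      have := b4 s (by omega)
      rw [it]
      unfold Band
      omega
  · obtain ⟨t, -, e⟩ := b5 j (by omega) b
    exact ⟨t + 22, by rw [it]; exact e⟩

theorem forever (N : ℕ) : ∀ (n : ℕ) (C : Cf) (j : ℤ), 2 ≤ n → K n C → -n ≤ j → j ≤ -1 →
    (∃ t, N ≤ t ∧ ((T LR)^[t] C).2.1.1 = j) ∧ ∀ t < N, Band ((T LR)^[t] C).2.1 := by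
  induction N with
  | zero =>
    intro n C j hn h a b
    obtain ⟨t, e⟩ := (sweep hn h).2.2 j a b
    exact ⟨⟨t, Nat.zero_le t, e⟩, fun t ht => by omega⟩
  | succ N ih =>
    intro n C j hn h a b
    obtain ⟨s1, s2, -⟩ := sweep hn h
    obtain ⟨⟨t, ht, e⟩, i2⟩ := ih (n + 3) _ (-n - 1 - j) (by omega) s1 (by push_cast; omega)
      (by omega)
    refine ⟨⟨t + (2 * n + 22), by omega, ?_⟩, fun t ht => ?_⟩
    · rw [iter_Fr, ← Function.iterate_add_apply] at e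
      simp only [Fr, psi] at e
      omega
    · by_cases e : t < 2 * n + 22
      · exact s2 t e
      · obtain ⟨s, rfl⟩ : ∃ s, t = s + (2 * n + 22) := ⟨t - (2 * n + 22), by omega⟩
        have := i2 s (by omega)
        rw [iter_Fr, ← Function.iterate_add_apply] at this
        simp only [Fr, psi, Band] at this ⊢
        split_ifs at this <;> omega

def c0 (z : Z2) : Fin 2 :=
  if -4 < z.1 ∧ z.1 < 0 ∧ z.2 = 0 then 1 else if -4 < z.1 ∧ z.1 ≤ 0 ∧ z.2 = 1 then 0 else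
  if z = (-4, 1) then 1 else if -1 ≤ z.1 then V z else V (-4 - z.1, z.2) + 1

theorem K0 : K 3 (c0, (0, 0), (1, 0)) := by
  refine ⟨rfl, ⟨by decide, fun z hz => ?_⟩, fun i a b => ?_, by decide, fun z hz => ?_⟩
  · unfold Reg at hz
    simp only [c0, Prod.ext_iff]
    rw [if_neg (by omega), if_neg (by omega), if_neg (by omega), if_pos (by omega)]
  · simp only [c0]
    rw [if_pos (by simp; omega), if_neg (by simp), if_pos (by simp; omega)]
    simp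
  · unfold Reg at hz
    have e : psi (-((3:ℕ):ℤ) - 1) z = (-4 - z.1, z.2) := by simp [psi]
    simp only [pull, e, c0, Prod.ext_iff]
    rw [if_neg (by omega), if_neg (by omega), if_neg (by omega), if_neg (by omega)]
    simp only [sub_sub_cancel, Prod.mk.eta]
    generalize V z = s
    fin_cases s <;> rfl

theorem main : ∃ c : Z2 → Fin 2, (Rec LR (c, (0, 0), (1, 0))).Nonempty ∧
    ∀ t, -3 ≤ ((T LR)^[t] (c, (0, 0), (1, 0))).2.1.2 ∧
      ((T LR)^[t] (c, (0, 0), (1, 0))).2.1.2 ≤ 4 := by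
  have H := fun N => forever N 3 _ (-1) (by norm_num) K0 (by norm_num) le_rfl
  have hb : ∀ t, Band ((T LR)^[t] (c0, (0, 0), (1, 0))).2.1 := fun t => (H (t + 1)).2 t (by omega)
  refine ⟨c0, ?_, hb⟩
  by_contra hn
  have hf : ∀ x, {t : ℕ | ((T LR)^[t] (c0, (0, 0), (1, 0))).2.1 = x}.Finite := fun x => by
    by_contra h; exact hn ⟨x, h⟩
  obtain ⟨N, hN⟩ := ((Set.finite_Icc (-3 : ℤ) 4).biUnion fun y _ => hf (-1, y)).bddAbove
  obtain ⟨t, ht, e⟩ := (H (N + 1)).1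
  have := hN (Set.mem_biUnion (hb t) (Prod.ext e rfl))
  omega

end Pool.Agent.H15.ANT
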