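import Mathlib

set_option autoImplicit false
open MvPolynomial Matrix

namespace Pool.Agent.H15.BM

abbrev I (n k : ℕ) := {α : Fin n → Fin (k+1) // ∑ i, (α i : ℕ) ≤ k}

variable {n k : ℕ}

noncomputable def ex (a : I n k) : Fin n →₀ ℕ := Finsupp.equivFunOnFinite.symm (fun i => (a.1 i : ℕ))

@[simp] lemma ex_apply (a : I n k) (i : Fin n) : ex a i = (a.1 i : ℕ) := by simp [ex]

lemma ex_inj : Function.Injective (ex : I n k → (Fin n →₀ ℕ)) := by
  intro a b h
  apply Subtype.ext
  funext i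
  apply Fin.ext
  rw [← ex_apply, ← ex_apply, h]

lemma ex_deg (a : I n k) : (ex a).degree ≤ k := by
  rw [Finsupp.degree_eq_sum]
  simpa using a.2

lemma ex_surj (d : Fin n →₀ ℕ) (hd : d.degree ≤ k) : ∃ a : I n k, ex a = d := by
  rw [Finsupp.degree_eq_sum] at hd
  have h : ∀ i, d i < k + 1 := fun i =>
    Nat.lt_succ_of_le ((Finset.single_le_sum (f := fun i => d i) (fun _ _ => Nat.zero_le _)
      (Finset.mem_univ i)).trans hd)
  refine ⟨⟨fun i => ⟨d i, h i⟩, hd⟩, ?_⟩
  ext i
  simp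

def mono (b : I n k) (x : Fin n → ℂ) : ℂ := ∏ i, x i ^ (b.1 i : ℕ)

def EM (z : I n k → (Fin n → ℂ)) : Matrix (I n k) (I n k) ℂ :=
  Matrix.of fun a b => ∏ i, z a i ^ (b.1 i : ℕ)

noncomputable def Pc (c : I n k → ℂ) : MvPolynomial (Fin n) ℂ := ∑ b, monomial (ex b) (c b)

lemma Pc_deg (c : I n k → ℂ) : (Pc c).totalDegree ≤ k := by
  unfold Pc
  refine totalDegree_finsetSum_le fun b _ => (totalDegree_monomial_le _ _).trans ?_
  exact ex_deg b

lemma Pc_eval (c : I n k → ℂ) (x : Fin n → ℂ) : eval x (Pc c) = ∑ b, c b * mono b x := by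
  unfold Pc mono
  rw [map_sum]
  refine Finset.sum_congr rfl fun b _ => ?_
  rw [eval_monomial, Finsupp.prod_fintype _ _ (by simp)]
  simp

lemma coeff_Pc (c : I n k → ℂ) (a : I n k) : coeff (ex a) (Pc c) = c a := by
  classical
  unfold Pc
  rw [coeff_sum, Finset.sum_eq_single a]
  · simp
  · intro b _ hb
    rw [coeff_monomial, if_neg (fun h => hb (ex_inj h))]
  · simp

lemma coeff_Pc_ne (c : I n k → ℂ) (d : Fin n →₀ ℕ) (h : coeff d (Pc c) ≠ 0) : ∃ a : I n k, ex a = d := by
  apply ex_surj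
  exact (le_totalDegree (mem_support_iff.2 h)).trans (Pc_deg c)

lemma Pc_coeff (p : MvPolynomial (Fin n) ℂ) (hp : p.totalDegree ≤ k) :
    Pc (fun b : I n k => coeff (ex b) p) = p := by
  ext d
  by_cases h : ∃ a : I n k, ex a = d
  · obtain ⟨a, rfl⟩ := h
    rw [coeff_Pc]
  · have h1 : coeff d (Pc (fun b : I n k => coeff (ex b) p)) = 0 := by
      by_contra h1
      exact h (coeff_Pc_ne _ _ h1)
    have h2 : coeff d p = 0 := by
      by_contra h2
      exact h (ex_surj d ((le_totalDegree (mem_support_iff.2 h2)).trans hp))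
    rw [h1, h2]

lemma eval_eq (p : MvPolynomial (Fin n) ℂ) (hp : p.totalDegree ≤ k) (x : Fin n → ℂ) :
    eval x p = ∑ b : I n k, coeff (ex b) p * mono b x := by
  rw [← Pc_eval, Pc_coeff p hp]

lemma det_eval (t : I n k → MvPolynomial (Fin n) ℂ) (ht : ∀ b, (t b).totalDegree ≤ k)
    (z : I n k → (Fin n → ℂ)) :
    (Matrix.of fun a b => eval (z a) (t b)).det =
      (EM z).det * (Matrix.of fun c b => coeff (ex c) (t b)).det := by
  rw [← det_mul]
  congr 1
  ext a b
  rw [Matrix.of_apply, eval_eq _ (ht b), Matrix.mul_apply]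
  refine Finset.sum_congr rfl fun c _ => ?_
  simp [EM, mono, mul_comm]

lemma EM_update (z : I n k → (Fin n → ℂ)) (a : I n k) (x : Fin n → ℂ) :
    EM (Function.update z a x) = (EM z).updateRow a (fun b => mono b x) := by
  ext a' b
  by_cases h : a' = a
  · subst h; simp [EM, mono]
  · simp [EM, Matrix.updateRow_ne h, Function.update_of_ne h]

lemma det_update (z : I n k → (Fin n → ℂ)) (a : I n k) (x : Fin n → ℂ) :
    (EM (Function.update z a x)).det = eval x (Pc fun b => (EM z)ᵀ.adjugate a b) := by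
  rw [EM_update, ← cramer_transpose_apply, cramer_eq_adjugate_mulVec, Pc_eval]
  rfl

lemma lagrange (z : I n k → (Fin n → ℂ)) (p : MvPolynomial (Fin n) ℂ) (hp : p.totalDegree ≤ k)
    (x : Fin n → ℂ) :
    (EM z).det * eval x p = ∑ a, eval (z a) p * (EM (Function.update z a x)).det := by
  have h1 : ∀ a, eval (z a) p = ((EM z) *ᵥ (fun b => coeff (ex b) p)) a := by
    intro a
    rw [eval_eq p hp]
    simp [Matrix.mulVec, dotProduct, EM, mono, mul_comm]
  have h2 : ∀ a, (EM (Function.update z a x)).det = cramer (EM z)ᵀ (fun b => mono b x) a := by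
    intro a
    rw [EM_update, cramer_transpose_apply]
  simp_rw [h1, h2]
  change _ = ((EM z) *ᵥ (fun b => coeff (ex b) p)) ⬝ᵥ cramer (EM z)ᵀ (fun b => mono b x)
  rw [dotProduct_comm, Matrix.dotProduct_mulVec, ← Matrix.mulVec_transpose, mulVec_cramer,
    det_transpose, eval_eq p hp, Finset.mul_sum]
  simp only [dotProduct, Pi.smul_apply, smul_eq_mul]
  exact Finset.sum_congr rfl fun _ _ => by ring

lemma EM_cont : Continuous (fun z : I n k → (Fin n → ℂ) => (EM z).det) := by
  apply Continuous.matrix_det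
  apply continuous_matrix
  intro a b
  simp only [EM, Matrix.of_apply]
  fun_prop

def IsFek (K : Set (Fin n → ℂ)) (z : I n k → (Fin n → ℂ)) : Prop :=
  (∀ a, z a ∈ K) ∧ ∀ w : I n k → (Fin n → ℂ), (∀ a, w a ∈ K) → ‖(EM w).det‖ ≤ ‖(EM z).det‖

lemma exists_fek {K : Set (Fin n → ℂ)} (hK : IsCompact K) (hne : K.Nonempty) (k : ℕ) :
    ∃ z : I n k → (Fin n → ℂ), IsFek K z := by
  obtain ⟨x, hx⟩ := hne
  obtain ⟨z, hz, hm⟩ := (isCompact_univ_pi (fun _ : I n k => hK)).exists_isMaxOn
    ⟨fun _ => x, fun _ _ => hx⟩ (EM_cont.norm.continuousOn)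
  exact ⟨z, fun a => hz a trivial, fun w hw => hm (fun a _ => hw a)⟩

noncomputable def VV (K : Set (Fin n → ℂ)) (k : ℕ) : ℝ :=
  sSup {s : ℝ | ∃ z : I n k → (Fin n → ℂ), (∀ a, z a ∈ K) ∧ s = ‖(EM z).det‖}

lemma VV_eq {K : Set (Fin n → ℂ)} {z : I n k → (Fin n → ℂ)} (h : IsFek K z) :
    VV K k = ‖(EM z).det‖ := by
  apply IsGreatest.csSup_eq
  refine ⟨⟨z, h.1, rfl⟩, ?_⟩
  rintro _ ⟨w, hw, rfl⟩
  exact h.2 w hw

lemma lag {K : Set (Fin n → ℂ)} {z : I n k → (Fin n → ℂ)} (h : IsFek K z) (h0 : (EM z).det ≠ 0)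
    (p : MvPolynomial (Fin n) ℂ) (hp : p.totalDegree ≤ k) (x : Fin n → ℂ) (hx : x ∈ K) :
    ‖eval x p‖ ≤ ∑ a, ‖eval (z a) p‖ := by
  have h1 := congrArg norm (lagrange z p hp x)
  have hp0 : 0 < ‖(EM z).det‖ := norm_pos_iff.2 h0
  rw [norm_mul] at h1
  have h2 : ‖∑ a, eval (z a) p * (EM (Function.update z a x)).det‖ ≤
      ‖(EM z).det‖ * ∑ a, ‖eval (z a) p‖ := by
    refine (norm_sum_le _ _).trans ?_
    rw [Finset.mul_sum]
    refine Finset.sum_le_sum fun a _ => ?_
    rw [norm_mul, mul_comm]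
    refine mul_le_mul_of_nonneg_right (h.2 _ fun a' => ?_) (norm_nonneg _)
    by_cases e : a' = a
    · subst e; simpa using hx
    · rw [Function.update_of_ne e]; exact h.1 a'
  rw [← h1] at h2
  exact le_of_mul_le_mul_left h2 hp0

lemma det_le_sum {ι : Type} [Fintype ι] [DecidableEq ι] (M : Matrix ι ι ℂ) :
    ‖M.det‖ ≤ ∑ σ : Equiv.Perm ι, ∏ a, ‖M a (σ a)‖ := by
  rw [← det_transpose, det_apply]
  refine (norm_sum_le _ _).trans (Finset.sum_le_sum fun σ _ => ?_)
  rcases Int.units_eq_one_or (Equiv.Perm.sign σ) with h | h <;> simp [h, norm_prod]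

lemma det_le_prod {ι : Type} [Fintype ι] [DecidableEq ι] (M : Matrix ι ι ℂ) (B : ι → ℝ)
    (h : ∀ a b, ‖M a b‖ ≤ B b) : ‖M.det‖ ≤ (Fintype.card ι).factorial * ∏ b, B b := by
  refine (det_le_sum M).trans ?_
  have : ∀ σ : Equiv.Perm ι, ∏ a, ‖M a (σ a)‖ ≤ ∏ b, B b := by
    intro σ
    rw [← Equiv.prod_comp σ B]
    exact Finset.prod_le_prod (fun _ _ => norm_nonneg _) fun a _ => h a _
  refine (Finset.sum_le_sum fun σ _ => this σ).trans (le_of_eq ?_)
  simp [Fintype.card_perm]

lemma det_sq_le {ι : Type} [Fintype ι] [DecidableEq ι] (M : Matrix ι ι ℂ) :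
    ‖M.det‖ ^ 2 ≤ (Fintype.card ι).factorial * ∑ σ : Equiv.Perm ι, ∏ a, ‖M a (σ a)‖ ^ 2 := by
  refine (pow_le_pow_left₀ (norm_nonneg _) (det_le_sum M) 2).trans ?_
  refine sq_sum_le_card_mul_sum_sq.trans (le_of_eq ?_)
  simp [Fintype.card_perm, Finset.prod_pow]

lemma greedy {X : Type} (K : Set X) : ∀ (N : ℕ) (f : Fin N → X → ℂ) (y : Fin N → ℝ),
    (∀ i, 0 < y i) →
    (∀ (i : Fin N) (c : Fin N → ℂ), c i = 1 → (∀ j, i < j → c j = 0) →
      ∃ x ∈ K, y i ≤ ‖∑ j, c j * f j x‖) →
    ∃ x : Fin N → X, (∀ i, x i ∈ K) ∧ ∏ i, y i ≤ ‖(Matrix.of fun i j => f j (x i)).det‖ := by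
  intro N
  induction N with
  | zero => intro f y _ _; exact ⟨Fin.elim0, fun i => i.elim0, by simp⟩
  | succ N ih =>
    intro f y hy h
    obtain ⟨x, hx, hd⟩ := ih (fun j => f j.castSucc) (fun i => y i.castSucc) (fun i => hy _) (by
      intro i c c1 c0
      obtain ⟨x, hx, h'⟩ := h i.castSucc (Fin.snoc (α := fun _ => ℂ) c 0) (by simpa using c1) (by
        intro j hj
        induction j using Fin.lastCases with
        | last => simp
        | cast j => simpa using c0 j (by simpa using hj))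
      refine ⟨x, hx, ?_⟩
      simpa [Fin.sum_univ_castSucc] using h')
    set D := (Matrix.of fun i j => f (Fin.castSucc j) (x i)).det with hD
    have Dpos : 0 < ‖D‖ := lt_of_lt_of_le (Finset.prod_pos fun i _ => hy _) hd
    have D0 : D ≠ 0 := norm_pos_iff.1 Dpos
    set c : Fin (N + 1) → ℂ := fun j => (-1) ^ (N + j : ℕ) *
      (Matrix.of fun (i : Fin N) (l : Fin N) => f (j.succAbove l) (x i)).det / D with hc
    obtain ⟨u, hu, h'⟩ := h (Fin.last N) c (by
      simp only [hc, Fin.val_last, Fin.succAbove_last]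
      rw [← two_mul, pow_mul]
      simp only [even_two, Even.neg_pow, one_pow, one_mul]
      exact div_self D0) (fun j hj => absurd hj (not_lt.2 (Fin.le_last j)))
    refine ⟨Fin.snoc (α := fun _ => X) x u, ?_, ?_⟩
    · intro i
      induction i using Fin.lastCases with
      | last => simpa using hu
      | cast i => simpa using hx i
    · have e : (Matrix.of fun i j => f j (Fin.snoc (α := fun _ => X) x u i)).det =
          D * ∑ j, c j * f j u := by
        rw [det_succ_row _ (Fin.last N), Finset.mul_sum]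
        refine Finset.sum_congr rfl fun j _ => ?_
        have : (Matrix.of fun i j => f j (Fin.snoc (α := fun _ => X) x u i)).submatrix
            (Fin.last N).succAbove j.succAbove =
            Matrix.of fun (i : Fin N) (l : Fin N) => f (j.succAbove l) (x i) := by
          ext i l
          simp
        rw [this]
        simp only [hc, Matrix.of_apply, Fin.snoc_last, Fin.val_last]
        field_simp
      rw [e, norm_mul, Fin.prod_univ_castSucc]
      exact mul_le_mul hd h' (hy _).le Dpos.le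

lemma exists_sorted (m : MonomialOrder (Fin n)) (k : ℕ) :
    ∃ e : Fin (Fintype.card (I n k)) ≃ I n k, StrictMono (fun i => m.toSyn (ex (e i))) := by
  let e0 := (Fintype.equivFin (I n k)).symm
  let f : Fin (Fintype.card (I n k)) → m.syn := fun i => m.toSyn (ex (e0 i))
  refine ⟨(Tuple.sort f).trans e0, (Tuple.monotone_sort f).strictMono_of_injective ?_⟩
  exact ((m.toSyn.injective.comp ex_inj).comp e0.injective).comp (Tuple.sort f).injective

lemma det_tri (m : MonomialOrder (Fin n)) (t : I n k → MvPolynomial (Fin n) ℂ)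
    (h1 : ∀ b, m.Monic (t b)) (h2 : ∀ b, m.degree (t b) = ex b) :
    (Matrix.of fun c b => coeff (ex c) (t b)).det = 1 := by
  obtain ⟨e, he⟩ := exists_sorted m k
  rw [← det_submatrix_equiv_self e, det_of_isUpperTriangular]
  · refine Finset.prod_eq_one fun i _ => ?_
    simp only [submatrix_apply, Matrix.of_apply]
    rw [← h2]
    exact (h1 _).coeff_degree
  · intro i j hij
    simp only [submatrix_apply, Matrix.of_apply]
    apply m.coeff_eq_zero_of_lt
    rw [h2]
    exact he hij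

end Pool.Agent.H15.BM
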