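import Pool.Agent.H15.BM1

set_option autoImplicit false
open MvPolynomial Matrix

namespace Pool.Agent.H15.BM

variable {n k : ℕ}

lemma coeff_le_one_var (p : Polynomial ℂ) (M : ℝ) (h : ∀ y : ℂ, ‖y‖ = 1 → ‖p.eval y‖ ≤ M) (i : ℕ) :
    ‖p.coeff i‖ ≤ M := by
  have M0 : 0 ≤ M := (norm_nonneg _).trans (h 1 (by simp))
  by_cases hi : i ∈ p.support
  · have h1 := Polynomial.sum_sq_norm_coeff_eq_circleAverage p
    have h2 : Real.circleAverage (fun θ => ‖p.eval θ‖ ^ 2) 0 1 ≤ M ^ 2 := by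
      apply Real.circleAverage_mono_on_of_le_circle
      · apply ContinuousOn.circleIntegrable'
        fun_prop
      · intro x hx
        exact pow_le_pow_left₀ (norm_nonneg _) (h x (by simpa using hx)) 2
    have h3 := Finset.single_le_sum (f := fun i => ‖p.coeff i‖ ^ 2) (fun _ _ => by positivity) hi
    exact (pow_le_pow_iff_left₀ (norm_nonneg _) M0 two_ne_zero).1 (h3.trans (h1 ▸ h2))
  · rw [Polynomial.notMem_support_iff.1 hi]
    simpa using M0

lemma coeff_le : ∀ (n : ℕ) (p : MvPolynomial (Fin n) ℂ) (M : ℝ),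
    (∀ x : Fin n → ℂ, (∀ i, ‖x i‖ = 1) → ‖eval x p‖ ≤ M) → ∀ d, ‖coeff d p‖ ≤ M := by
  intro n
  induction n with
  | zero =>
    intro p M h d
    have h1 := h Fin.elim0 (fun i => i.elim0)
    rw [eq_C_of_isEmpty p] at h1
    have : d = 0 := Subsingleton.elim _ _
    simpa [this] using h1
  | succ n ih =>
    intro p M h d
    rw [← Finsupp.cons_tail d, ← finSuccEquiv_coeff_coeff]
    apply ih
    intro s hs
    rw [← Polynomial.coeff_map]
    apply coeff_le_one_var
    intro y hy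
    rw [← eval_eq_eval_mv_eval']
    apply h
    intro i
    induction i using Fin.cases with
    | zero => simpa using hy
    | succ i => simpa using hs i

lemma prod_low (ρ : ℝ) (h0 : 0 < ρ) (h1 : ρ ≤ 1) : ∀ (j : ℕ) (Q P : Polynomial ℂ) (M : ℝ),
    Q.natDegree ≤ j → (∀ t : ℂ, ‖t‖ = ρ → ‖P.eval t * Q.eval t‖ ≤ M) →
    ‖P.eval 0‖ * ‖Q.eval 1‖ * (ρ / 2) ^ j ≤ M := by
  have base : ∀ (Q P : Polynomial ℂ) (M : ℝ), Q.natDegree = 0 →
      (∀ t : ℂ, ‖t‖ = ρ → ‖P.eval t * Q.eval t‖ ≤ M) → ‖P.eval 0‖ * ‖Q.eval 1‖ ≤ M := by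
    intro Q P M hQ h
    have := Complex.norm_le_of_forall_mem_frontier_norm_le (f := fun t => P.eval t * Q.eval t)
      (U := Metric.ball 0 ρ) Metric.isBounded_ball
      (P.differentiable.mul Q.differentiable).diffContOnCl (C := M) (by
        intro z hz
        rw [frontier_ball _ h0.ne'] at hz
        exact h z (by simpa using hz)) (z := 0) (subset_closure (Metric.mem_ball_self h0))
    rw [Polynomial.eq_C_of_natDegree_eq_zero hQ] at this ⊢
    simpa using this
  intro j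
  induction j with
  | zero => intro Q P M hQ h; simpa using base Q P M (by omega) h
  | succ j ih =>
    intro Q P M hQ h
    have r1 : ρ / 2 ≤ 1 := by linarith
    by_cases hd : Q.natDegree = 0
    · refine le_trans ?_ (base Q P M hd h)
      exact mul_le_of_le_one_right (by positivity) (pow_le_one₀ (by positivity) r1)
    · obtain ⟨α, hα⟩ := Complex.exists_root (Polynomial.natDegree_pos_iff_degree_pos.1
        (Nat.pos_of_ne_zero hd))
      obtain ⟨Q1, rfl⟩ := Polynomial.dvd_iff_isRoot.2 hα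
      have Q10 : Q1 ≠ 0 := by rintro rfl; simp at hd
      rw [Polynomial.natDegree_mul (Polynomial.X_sub_C_ne_zero α) Q10,
        Polynomial.natDegree_X_sub_C] at hQ
      obtain ⟨L, L1, L2⟩ : ∃ L : Polynomial ℂ, (∀ t : ℂ, ‖t‖ = ρ → ‖L.eval t‖ = ‖t - α‖) ∧
          ‖1 - α‖ * (ρ / 2) ≤ ‖L.eval 0‖ := by
        have n1 : ‖1 - α‖ ≤ 1 + ‖α‖ := by simpa using norm_sub_le (1 : ℂ) α
        by_cases hα : ρ ≤ ‖α‖
        · refine ⟨Polynomial.X - Polynomial.C α, fun t _ => by simp, ?_⟩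
          simp only [Polynomial.eval_sub, Polynomial.eval_X, Polynomial.eval_C, zero_sub, norm_neg]
          nlinarith [norm_nonneg α, norm_nonneg (1 - α)]
        · refine ⟨Polynomial.C (ρ : ℂ) - Polynomial.C ((starRingEnd ℂ) α / ρ) * Polynomial.X,
            fun t ht => ?_, ?_⟩
          · simp only [Polynomial.eval_sub, Polynomial.eval_X, Polynomial.eval_C, Polynomial.eval_mul]
            have ρ0 : (ρ : ℂ) ≠ 0 := by exact_mod_cast h0.ne'
            have e1 : t * (starRingEnd ℂ) t = (ρ : ℂ) ^ 2 := by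
              rw [Complex.mul_conj, Complex.normSq_eq_norm_sq, ht]; push_cast; ring
            have e2 : (ρ : ℂ) - (starRingEnd ℂ) α / ρ * t = t * (starRingEnd ℂ) (t - α) / ρ := by
              rw [map_sub, mul_sub, e1]; field_simp
            rw [e2, norm_div, norm_mul, Complex.norm_conj, ht, Complex.norm_real, Real.norm_eq_abs,
              abs_of_pos h0]
            field_simp
          · simp only [Polynomial.eval_sub, Polynomial.eval_X, Polynomial.eval_C, Polynomial.eval_mul,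
              mul_zero, sub_zero, Complex.norm_real, Real.norm_eq_abs, abs_of_pos h0]
            nlinarith [norm_nonneg α, norm_nonneg (1 - α)]
      have := ih Q1 (P * L) M (by omega) (by
        intro t ht
        refine le_trans (le_of_eq ?_) (h t ht)
        simp [L1 t ht, mul_assoc])
      refine le_trans ?_ this
      simp only [Polynomial.eval_mul, Polynomial.eval_sub, Polynomial.eval_X, Polynomial.eval_C,
        norm_mul, pow_succ]
      calc _ = (‖P.eval 0‖ * ‖Q1.eval 1‖ * (ρ / 2) ^ j) * (‖1 - α‖ * (ρ / 2)) := by ring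
        _ ≤ (‖P.eval 0‖ * ‖Q1.eval 1‖ * (ρ / 2) ^ j) * ‖L.eval 0‖ :=
          mul_le_mul_of_nonneg_left L2 (by positivity)
        _ = _ := by ring

lemma line (p : MvPolynomial (Fin n) ℂ) (hp : p.totalDegree ≤ k) (x0 x1 : Fin n → ℂ) :
    ∃ P : Polynomial ℂ, P.natDegree ≤ k ∧ ∀ t : ℂ, P.eval t = eval (x0 + t • (x1 - x0)) p := by
  refine ⟨aeval (fun i => Polynomial.C (x1 i - x0 i) * Polynomial.X + Polynomial.C (x0 i)) p, ?_, ?_⟩
  · have := MvPolynomial.aeval_natDegree_le (n := 1) p hp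
      (fun i => Polynomial.C (x1 i - x0 i) * Polynomial.X + Polynomial.C (x0 i))
      (fun i => Polynomial.natDegree_linear_le)
    rwa [mul_one] at this
  · intro t
    clear hp
    induction p using MvPolynomial.induction_on with
    | C a => simp
    | add p q hp hq => rw [map_add, Polynomial.eval_add, hp, hq, map_add]
    | mul_X p i hp =>
      rw [map_mul, Polynomial.eval_mul, hp, map_mul]
      congr 1
      simp
      ring

def Reg (K : Set (Fin n → ℂ)) (V : (Fin n → ℂ) → ℝ) : Prop :=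
  ∀ z : Fin n → ℂ,
      IsLUB {t : ℝ | ∃ k : ℕ, 1 ≤ k ∧ ∃ p : MvPolynomial (Fin n) ℂ, p.totalDegree ≤ k ∧
        (∀ x ∈ K, ‖MvPolynomial.eval x p‖ ≤ 1) ∧
        t = Real.log ‖MvPolynomial.eval z p‖ / (k : ℝ)} (V z)

variable {K : Set (Fin n → ℂ)} {V : (Fin n → ℂ) → ℝ}

lemma Reg.ne (h : Reg K V) : K.Nonempty := by
  by_contra hne
  rw [Set.not_nonempty_iff_eq_empty] at hne
  have := (h 0).1 ⟨1, le_rfl, C ((Real.exp (V 0 + 1) : ℝ) : ℂ), by simp, by simp [hne], rfl⟩
  rw [eval_C, Complex.norm_real, Real.norm_eq_abs, abs_of_pos (Real.exp_pos _), Real.log_exp] at this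
  simp at this
  linarith

lemma Reg.le_zero (h : Reg K V) {z : Fin n → ℂ} (hz : z ∈ K) : V z ≤ 0 := by
  apply (h z).2
  rintro _ ⟨k, -, p, -, hp, rfl⟩
  exact div_nonpos_of_nonpos_of_nonneg (Real.log_nonpos (norm_nonneg _) (hp z hz)) (by positivity)

lemma Reg.bw (h : Reg K V) (p : MvPolynomial (Fin n) ℂ) (hp : p.totalDegree ≤ k) (M : ℝ)
    (hM : ∀ x ∈ K, ‖eval x p‖ ≤ M) (z : Fin n → ℂ) : ‖eval z p‖ ≤ M * Real.exp (k * V z) := by
  obtain ⟨x0, hx0⟩ := h.ne
  have M0 : 0 ≤ M := (norm_nonneg _).trans (hM x0 hx0)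
  rcases Nat.eq_zero_or_pos k with rfl | hk
  · have := hM x0 hx0
    rw [totalDegree_eq_zero_iff_eq_C.1 (Nat.le_zero.1 hp)] at this ⊢
    simpa using this
  have key : ∀ M', M < M' → ‖eval z p‖ ≤ M' * Real.exp (k * V z) := by
    intro M' hM'
    have M1 : 0 < M' := lt_of_le_of_lt M0 hM'
    rcases eq_or_lt_of_le (norm_nonneg (eval z p)) with h0 | h0
    · rw [← h0]; positivity
    have e : ∀ x, ‖eval x (C ((M'⁻¹ : ℝ) : ℂ) * p)‖ = ‖eval x p‖ / M' := by
      intro x
      rw [map_mul, eval_C, norm_mul, Complex.norm_real, Real.norm_eq_abs, abs_of_pos (by positivity)]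
      field_simp
    have := (h z).1 ⟨k, hk, C ((M'⁻¹ : ℝ) : ℂ) * p, (totalDegree_mul _ _).trans (by simpa using hp),
      fun x hx => by rw [e, div_le_one M1]; exact (hM x hx).trans hM'.le, rfl⟩
    have k0 : (0 : ℝ) < k := by exact_mod_cast hk
    rw [e, div_le_iff₀ k0, Real.log_le_iff_le_exp (by positivity), div_le_iff₀ M1] at this
    rw [mul_comm M', mul_comm (k : ℝ)]
    exact this
  have E0 := Real.exp_pos (k * V z)
  rw [← div_le_iff₀ E0]
  apply le_of_forall_gt_imp_ge_of_dense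
  intro M' hM'
  rw [div_le_iff₀ E0]
  exact key M' hM'

lemma Reg.coeffA (h : Reg K V) (hV : Continuous V) : ∃ A : ℝ, 0 ≤ A ∧
    ∀ (k : ℕ) (p : MvPolynomial (Fin n) ℂ), p.totalDegree ≤ k → ∀ M : ℝ,
      (∀ x ∈ K, ‖eval x p‖ ≤ M) → ∀ d, ‖coeff d p‖ ≤ M * Real.exp (A * k) := by
  obtain ⟨A, hA⟩ := (isCompact_closedBall (0 : Fin n → ℂ) 1).bddAbove_image hV.continuousOn
  obtain ⟨x0, hx0⟩ := h.ne
  refine ⟨max A 0, le_max_right _ _, fun k p hp M hM => coeff_le n p _ fun x hx => ?_⟩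
  have M0 : 0 ≤ M := (norm_nonneg _).trans (hM x0 hx0)
  refine (h.bw p hp M hM x).trans (mul_le_mul_of_nonneg_left (Real.exp_le_exp.2 ?_) M0)
  have : V x ≤ A := hA ⟨x, by
    rw [mem_closedBall_zero_iff, pi_norm_le_iff_of_nonneg zero_le_one]
    exact fun i => (hx i).le, rfl⟩
  rw [mul_comm]
  exact mul_le_mul_of_nonneg_right (this.trans (le_max_left _ _)) (by positivity)

lemma Reg.prod (h : Reg K V) (hV : Continuous V) (hK : IsCompact K) (η : ℝ) (hη : 0 < η) :
    ∃ ρ : ℝ, 0 < ρ ∧ ρ ≤ 1 ∧ ∀ (k j : ℕ) (p q : MvPolynomial (Fin n) ℂ), p.totalDegree ≤ k →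
      q.totalDegree ≤ j → ∀ M : ℝ, (∀ x ∈ K, ‖eval x (p * q)‖ ≤ M) → ∀ x0 ∈ K, ∀ x1 ∈ K,
      ‖eval x0 p‖ * ‖eval x1 q‖ * (ρ / 2) ^ j ≤ M * Real.exp ((k + j : ℕ) * η) := by
  obtain ⟨δ, δ0, hδ⟩ := hK.exists_thickening_subset_open (t := {x | V x < η})
    (isOpen_lt hV continuous_const) (fun x hx => lt_of_le_of_lt (h.le_zero hx) hη)
  obtain ⟨R, hR⟩ := hK.isBounded.exists_norm_le
  obtain ⟨y, hy⟩ := h.ne
  have R0 : 0 ≤ R := (norm_nonneg _).trans (hR y hy)
  refine ⟨min 1 (δ / (2 * R + 1)), by positivity, min_le_left _ _, ?_⟩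
  intro k j p q hp hq M hM x0 hx0 x1 hx1
  have M0 : 0 ≤ M := (norm_nonneg _).trans (hM y hy)
  obtain ⟨P, -, hP⟩ := line p hp x0 x1
  obtain ⟨Q, hQd, hQ⟩ := line q hq x0 x1
  have := prod_low (min 1 (δ / (2 * R + 1))) (by positivity) (min_le_left _ _) j Q P
    (M * Real.exp ((k + j : ℕ) * η)) hQd (by
      intro t ht
      rw [hP, hQ, ← map_mul]
      refine (h.bw (k := k + j) _ ((totalDegree_mul _ _).trans (add_le_add hp hq)) M hM _).trans
        (mul_le_mul_of_nonneg_left (Real.exp_le_exp.2 ?_) M0)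
      refine mul_le_mul_of_nonneg_left (le_of_lt (hδ ?_)) (by positivity)
      rw [Metric.mem_thickening_iff]
      refine ⟨x0, hx0, ?_⟩
      rw [dist_eq_norm, add_sub_cancel_left, norm_smul, ht]
      have a1 : ‖x1 - x0‖ ≤ 2 * R := by
        have := norm_sub_le x1 x0
        linarith [hR x0 hx0, hR x1 hx1]
      have a2 : min 1 (δ / (2 * R + 1)) ≤ δ / (2 * R + 1) := min_le_right _ _
      calc _ ≤ δ / (2 * R + 1) * (2 * R) := mul_le_mul a2 a1 (norm_nonneg _) (by positivity)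
        _ < δ := by rw [div_mul_eq_mul_div, div_lt_iff₀ (by positivity)]; nlinarith)
  rw [hP, hQ] at this
  simpa using this

end Pool.Agent.H15.BM
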