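import Pool.Agent.H15.BM2

set_option autoImplicit false
open MvPolynomial Matrix Filter Topology

namespace Pool.Agent.H15.BM

variable {n k : ℕ} {K : Set (Fin n → ℂ)} {V : (Fin n → ℂ) → ℝ}

noncomputable def mo (n : ℕ) : MonomialOrder (Fin n) := MonomialOrder.degLex

def YS (K : Set (Fin n → ℂ)) (α : Fin n →₀ ℕ) : Set ℝ :=
  {M | ∃ p : MvPolynomial (Fin n) ℂ, (mo n).Monic p ∧ (mo n).degree p = α ∧ ∀ x ∈ K, ‖eval x p‖ ≤ M}

noncomputable def Y (K : Set (Fin n → ℂ)) (α : Fin n →₀ ℕ) : ℝ := sInf (YS K α)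

lemma mo_deg {p : MvPolynomial (Fin n) ℂ} {α : Fin n →₀ ℕ} (h : (mo n).degree p = α) :
    p.totalDegree = α.degree := by
  rw [← h]
  exact degree_degLexDegree.symm

lemma YS_bdd (hne : K.Nonempty) (α : Fin n →₀ ℕ) : BddBelow (YS K α) := by
  obtain ⟨x, hx⟩ := hne
  refine ⟨0, ?_⟩
  rintro M ⟨p, -, -, h⟩
  exact (norm_nonneg _).trans (h x hx)

lemma YS_mem (hK : IsCompact K) : ∃ B : ℝ, 0 ≤ B ∧ ∀ α, Real.exp (B * (α.degree : ℕ)) ∈ YS K α := by
  classical
  obtain ⟨R, hR⟩ := hK.isBounded.exists_norm_le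
  refine ⟨max R 0, le_max_right _ _, fun α => ⟨monomial α 1, (mo n).monic_monomial_one, ?_, ?_⟩⟩
  · rw [MonomialOrder.degree_monomial]; simp
  · intro x hx
    rw [eval_monomial, Finsupp.prod_fintype _ _ (by simp), one_mul, norm_prod, Finsupp.degree_eq_sum,
      Nat.cast_sum, Finset.mul_sum, Real.exp_sum]
    refine Finset.prod_le_prod (fun _ _ => norm_nonneg _) fun i _ => ?_
    rw [norm_pow, mul_comm, Real.exp_nat_mul]
    apply pow_le_pow_left₀ (norm_nonneg _)
    have h1 := (norm_le_pi_norm x i).trans (hR x hx)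
    have h2 := Real.add_one_le_exp (max R 0)
    linarith [le_max_left R 0]

lemma Y_low (h : Reg K V) (hV : Continuous V) (hK : IsCompact K) :
    ∃ A : ℝ, 0 ≤ A ∧ ∀ α, Real.exp (-(A * (α.degree : ℕ))) ≤ Y K α := by
  obtain ⟨A, A0, hA⟩ := h.coeffA hV
  obtain ⟨B, -, hB⟩ := YS_mem hK
  refine ⟨A, A0, fun α => le_csInf ⟨_, hB α⟩ ?_⟩
  rintro M ⟨p, h1, h2, h3⟩
  have := hA _ p (mo_deg h2).le M h3 α
  rw [← h2, h1.coeff_degree, h2, norm_one] at this
  rw [Real.exp_neg, inv_le_iff_one_le_mul₀ (Real.exp_pos _)]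
  exact this

lemma Y_approx (hK : IsCompact K) {α : Fin n →₀ ℕ} {M : ℝ} (h : Y K α < M) : M ∈ YS K α := by
  obtain ⟨B, -, hB⟩ := YS_mem hK
  obtain ⟨M', ⟨p, h1, h2, h3⟩, hM⟩ := exists_lt_of_csInf_lt ⟨_, hB α⟩ h
  exact ⟨p, h1, h2, fun x hx => (h3 x hx).trans hM.le⟩

lemma Y_sub (hK : IsCompact K) (hne : K.Nonempty) (hpos : ∀ α, 0 < Y K α) (α β : Fin n →₀ ℕ) :
    Real.log (Y K (α + β)) ≤ Real.log (Y K α) + Real.log (Y K β) := by
  apply le_of_forall_pos_le_add
  intro ε hε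
  have e1 : 1 < Real.exp (ε / 2) := Real.one_lt_exp_iff.2 (by positivity)
  obtain ⟨p, p1, p2, p3⟩ := Y_approx hK (lt_mul_of_one_lt_right (hpos α) e1)
  obtain ⟨q, q1, q2, q3⟩ := Y_approx hK (lt_mul_of_one_lt_right (hpos β) e1)
  have : Y K (α + β) ≤ (Y K α * Real.exp (ε / 2)) * (Y K β * Real.exp (ε / 2)) := by
    apply csInf_le (YS_bdd hne _)
    refine ⟨p * q, p1.mul q1, by rw [MonomialOrder.degree_mul p1.ne_zero q1.ne_zero, p2, q2], ?_⟩
    intro x hx
    rw [map_mul, norm_mul]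
    exact mul_le_mul (p3 x hx) (q3 x hx) (norm_nonneg _) ((norm_nonneg _).trans (p3 x hx))
  refine (Real.log_le_log (hpos _) this).trans (le_of_eq ?_)
  have := hpos α
  have := hpos β
  rw [Real.log_mul (by positivity) (by positivity), Real.log_mul (by positivity) (by positivity),
    Real.log_mul (by positivity) (by positivity), Real.log_exp]
  ring

lemma V_up (hK : IsCompact K) (hne : K.Nonempty) (hpos : ∀ α, 0 < Y K α) (k : ℕ) :
    VV K k ≤ (Fintype.card (I n k)).factorial * ∏ b : I n k, (2 * Y K (ex b)) := by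
  obtain ⟨z, hz⟩ := exists_fek hK hne k
  choose t t1 t2 t3 using fun b : I n k =>
    Y_approx hK (show Y K (ex b) < 2 * Y K (ex b) by linarith [hpos (ex b)])
  have := det_eval t (fun b => (mo_deg (t2 b)).le.trans (ex_deg b)) z
  rw [det_tri (mo n) t t1 t2, mul_one] at this
  rw [VV_eq hz, ← this]
  exact det_le_prod _ _ fun a b => t3 b _ (hz.1 a)

lemma V_low (hK : IsCompact K) (hne : K.Nonempty) (hpos : ∀ α, 0 < Y K α) (k : ℕ) :
    ∏ b : I n k, Y K (ex b) ≤ VV K k := by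
  obtain ⟨z, hz⟩ := exists_fek hK hne k
  obtain ⟨e, he⟩ := exists_sorted (mo n) k
  obtain ⟨x, hx, hd⟩ := greedy K _ (fun j x => mono (e j) x) (fun i => Y K (ex (e i)))
    (fun i => hpos _) (by
      intro i c c1 c0
      set p := Pc (fun a => c (e.symm a)) with hp
      obtain ⟨x, hx, hm⟩ := hK.exists_isMaxOn hne
        (f := fun x => ‖eval x p‖) (MvPolynomial.continuous_eval p).norm.continuousOn
      have cf : coeff (ex (e i)) p = 1 := by rw [hp, coeff_Pc]; simpa using c1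
      have dg : (mo n).degree p = ex (e i) := by
        apply (mo n).toSyn.injective
        apply le_antisymm
        · rw [MonomialOrder.degree_le_iff]
          intro d hd
          rw [mem_support_iff] at hd
          obtain ⟨a, rfl⟩ := coeff_Pc_ne _ _ hd
          rw [hp, coeff_Pc] at hd
          have : e.symm a ≤ i := by
            by_contra hc
            exact hd (c0 _ (not_le.1 hc))
          simpa using he.monotone this
        · apply MonomialOrder.le_degree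
          rw [mem_support_iff, cf]
          exact one_ne_zero
      refine ⟨x, hx, ?_⟩
      have e1 : ∑ j, c j * mono (e j) x = eval x p := by
        rw [hp, Pc_eval, ← e.sum_comp]
        simp
      rw [e1]
      apply csInf_le (YS_bdd hne _)
      refine ⟨p, ?_, dg, fun y hy => hm hy⟩
      rw [MonomialOrder.Monic, MonomialOrder.leadingCoeff, dg, cf])
  rw [← e.prod_comp, VV_eq hz]
  refine hd.trans (le_trans (le_of_eq ?_) (hz.2 (fun a => x (e.symm a)) fun a => hx _))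
  rw [← det_submatrix_equiv_self e (EM _)]
  congr 2
  ext i j
  simp [EM, mono]

noncomputable def TT (g : (Fin n →₀ ℕ) → ℝ) (k : ℕ) : ℝ := ∑ a : I n k, g (ex a)

lemma TT_le (g : (Fin n →₀ ℕ) → ℝ) (hsub : ∀ a b, g (a + b) ≤ g a + g b) (hneg : ∀ a, g a ≤ 0)
    (m q k : ℕ) (hq : 1 ≤ q) (h : q * (m + n) ≤ k) : TT g k ≤ (q : ℝ) ^ (n + 1) * TT g m := by
  classical
  have gs : ∀ (a : Fin n →₀ ℕ) (j : ℕ), g ((j + 1) • a) ≤ (j + 1 : ℕ) * g a := by
    intro a j
    induction j with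
    | zero => simp
    | succ j ih =>
      rw [succ_nsmul]
      have := hsub ((j + 1) • a) a
      push_cast at ih ⊢
      linarith
  choose φ hφ using fun u : I n m × (Fin n → Fin q) =>
    ex_surj (k := k) (q • ex u.1 + Finsupp.equivFunOnFinite.symm (fun i => (u.2 i : ℕ))) (by
      rw [map_add, map_nsmul, smul_eq_mul]
      have a1 := Nat.mul_le_mul_left q (ex_deg u.1)
      have a2 : Finsupp.degree (Finsupp.equivFunOnFinite.symm (fun i => (u.2 i : ℕ))) ≤ q * n := by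
        rw [Finsupp.degree_eq_sum]
        refine (Finset.sum_le_sum (g := fun _ => q) fun i _ => ?_).trans (by simp [mul_comm])
        simp
      rw [mul_add] at h
      omega)
  have inj : Function.Injective φ := by
    rintro ⟨β, r⟩ ⟨β', r'⟩ hu
    have h1 : ∀ i, q * (β.1 i : ℕ) + r i = q * (β'.1 i : ℕ) + r' i := by
      intro i
      have := congrArg (fun d : Fin n →₀ ℕ => d i) ((hφ (β, r)).symm.trans ((congrArg ex hu).trans (hφ (β', r'))))
      simpa using this
    have h2 : ∀ i, (r i : ℕ) = r' i := by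
      intro i
      have := congrArg (· % q) (h1 i)
      simpa [Nat.mod_eq_of_lt (r i).2, Nat.mod_eq_of_lt (r' i).2] using this
    refine Prod.ext (Subtype.ext (funext fun i => Fin.ext ?_)) (funext fun i => Fin.ext (h2 i))
    have := h1 i
    rw [h2 i] at this
    exact Nat.eq_of_mul_eq_mul_left hq (by simpa using this)
  have s1 : TT g k ≤ ∑ a ∈ Finset.univ.image φ, g (ex a) := by
    unfold TT
    rw [← neg_le_neg_iff, ← Finset.sum_neg_distrib, ← Finset.sum_neg_distrib]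
    exact Finset.sum_le_sum_of_subset_of_nonneg (Finset.subset_univ _)
      fun a _ _ => neg_nonneg.2 (hneg _)
  rw [Finset.sum_image (fun _ _ _ _ h => inj h)] at s1
  refine s1.trans ((Finset.sum_le_sum (g := fun u => (q : ℝ) * g (ex u.1)) fun u _ => ?_).trans
    (le_of_eq ?_))
  · rw [hφ]
    obtain ⟨j, rfl⟩ : ∃ j, q = j + 1 := ⟨q - 1, by omega⟩
    have := hsub ((j + 1) • ex u.1) (Finsupp.equivFunOnFinite.symm (fun i => (u.2 i : ℕ)))
    have := gs (ex u.1) j
    have := hneg (Finsupp.equivFunOnFinite.symm (fun i => (u.2 i : ℕ)))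
    linarith
  · rw [Fintype.sum_prod_type, TT, Finset.mul_sum]
    refine Finset.sum_congr rfl fun b _ => ?_
    simp
    ring

lemma card_le (n k : ℕ) : Fintype.card (I n k) ≤ (k + 1) ^ n := by
  have := Fintype.card_subtype_le (fun α : Fin n → Fin (k+1) => ∑ i, (α i : ℕ) ≤ k)
  simpa using this

lemma card_pos (n k : ℕ) : 0 < Fintype.card (I n k) :=
  Fintype.card_pos_iff.2 ⟨⟨fun _ => 0, by simp⟩⟩

lemma card_real {k : ℕ} (hk : 1 ≤ k) : (Fintype.card (I n k) : ℝ) ≤ 2 ^ n * (k : ℝ) ^ n := by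
  have h1 : Fintype.card (I n k) ≤ (2 * k) ^ n :=
    (card_le n k).trans (Nat.pow_le_pow_left (by omega) n)
  rw [← mul_pow]
  exact_mod_cast h1

lemma seq_conv (s ρ : ℕ → ℝ) (D : ℝ) (hb : ∀ᶠ k in atTop, |s k| ≤ D) (hρ : Tendsto ρ atTop (𝓝 1))
    (h : ∀ᶠ m in atTop, ∃ u : ℕ → ℝ, Tendsto u atTop (𝓝 (s m * ρ m)) ∧ ∀ᶠ k in atTop, s k ≤ u k) :
    ∃ L, Tendsto s atTop (𝓝 L) := by
  have b1 : IsBoundedUnder (· ≤ ·) atTop s := ⟨D, by
    simp only [eventually_map]; filter_upwards [hb] with k hk using (abs_le.1 hk).2⟩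
  have b2 : IsBoundedUnder (· ≥ ·) atTop s := ⟨-D, by
    simp only [eventually_map]; filter_upwards [hb] with k hk using (abs_le.1 hk).1⟩
  refine ⟨limsup s atTop, tendsto_order.2 ⟨fun a ha => ?_, fun a ha => eventually_lt_of_limsup_lt ha b1⟩⟩
  have t1 : Tendsto (fun m => D * |ρ m - 1|) atTop (𝓝 0) := by
    have := ((hρ.sub_const 1).abs).const_mul D
    simpa using this
  filter_upwards [h, hb, t1.eventually (gt_mem_nhds (sub_pos.2 ha))] with m ⟨u, u1, u2⟩ hm h3
  have : limsup s atTop ≤ s m * ρ m := by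
    rw [← u1.limsup_eq]
    exact limsup_le_limsup u2 b2.isCoboundedUnder_le u1.isBoundedUnder_le
  have e : s m * ρ m = s m + s m * (ρ m - 1) := by ring
  have : s m * (ρ m - 1) ≤ D * |ρ m - 1| := by
    refine (le_abs_self _).trans ?_
    rw [abs_mul]
    exact mul_le_mul_of_nonneg_right hm (abs_nonneg _)
  linarith

lemma TT_conv (g : (Fin n →₀ ℕ) → ℝ) (hsub : ∀ a b, g (a + b) ≤ g a + g b) (hneg : ∀ a, g a ≤ 0)
    (D : ℝ) (D0 : 0 ≤ D) (hlow : ∀ a, -(D * (a.degree : ℕ)) ≤ g a) :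
    ∃ L, Tendsto (fun k : ℕ => TT g k / (k : ℝ) ^ (n + 1)) atTop (𝓝 L) ∧
      ∀ m : ℕ, 1 ≤ m → L ≤ TT g m / ((m : ℝ) + n) ^ (n + 1) := by
  have Tneg : ∀ k, TT g k ≤ 0 := fun k => Finset.sum_nonpos fun a _ => hneg _
  have key : ∀ m : ℕ, 1 ≤ m → ∃ u : ℕ → ℝ, Tendsto u atTop (𝓝 (TT g m / ((m : ℝ) + n) ^ (n + 1))) ∧
      ∀ᶠ k : ℕ in atTop, TT g k / (k : ℝ) ^ (n + 1) ≤ u k := by
    intro m hm
    refine ⟨fun k => (1 / ((m : ℝ) + n) - (k : ℝ)⁻¹) ^ (n + 1) * TT g m, ?_, ?_⟩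
    · have := (((tendsto_inv_atTop_nhds_zero_nat (𝕜 := ℝ)).const_sub (1 / ((m : ℝ) + n))).pow
        (n + 1)).mul_const (TT g m)
      convert this using 2
      rw [sub_zero, one_div, inv_pow, div_eq_inv_mul]
    · filter_upwards [eventually_ge_atTop (m + n)] with k hk
      have c0 : 0 < m + n := by omega
      have q1 : 1 ≤ k / (m + n) := (Nat.le_div_iff_mul_le c0).2 (by omega)
      have h1 := TT_le g hsub hneg m (k / (m + n)) k q1 (Nat.div_mul_le_self _ _)
      have k0 : (0 : ℝ) < k := by exact_mod_cast (by omega : 0 < k)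
      have c0' : (0 : ℝ) < (m : ℝ) + n := by exact_mod_cast c0
      have hk' : (m : ℝ) + n ≤ k := by exact_mod_cast hk
      have h2 : (k : ℝ) < ((m : ℝ) + n) * (((k / (m + n) : ℕ) : ℝ) + 1) := by
        exact_mod_cast Nat.lt_mul_div_succ k c0
      have h3 : (1 / ((m : ℝ) + n) - (k : ℝ)⁻¹) * k ≤ ((k / (m + n) : ℕ) : ℝ) := by
        rw [sub_mul, inv_mul_cancel₀ k0.ne', one_div, inv_mul_eq_div, sub_le_iff_le_add,
          div_le_iff₀ c0']
        linarith
      have h4 : 0 ≤ (1 / ((m : ℝ) + n) - (k : ℝ)⁻¹) := by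
        rw [sub_nonneg, ← one_div]
        exact one_div_le_one_div_of_le c0' hk'
      have h5 := pow_le_pow_left₀ (mul_nonneg h4 k0.le) h3 (n + 1)
      rw [div_le_iff₀ (by positivity)]
      refine h1.trans ?_
      rw [mul_pow] at h5
      nlinarith [Tneg m]
  suffices H : ∃ L, Tendsto (fun k : ℕ => TT g k / (k : ℝ) ^ (n + 1)) atTop (𝓝 L) by
    obtain ⟨L, hL⟩ := H
    refine ⟨L, hL, fun m hm => ?_⟩
    obtain ⟨u, u1, u2⟩ := key m hm
    exact le_of_tendsto_of_tendsto hL u1 u2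
  refine seq_conv (fun k : ℕ => TT g k / (k : ℝ) ^ (n + 1))
    (fun m : ℕ => (1 / (1 + (n : ℝ) * (m : ℝ)⁻¹)) ^ (n + 1)) (D * 2 ^ n) ?_ ?_ ?_
  · filter_upwards [eventually_ge_atTop 1] with k hk
    have k0 : (0 : ℝ) < k := by exact_mod_cast hk
    rw [abs_of_nonpos (div_nonpos_of_nonpos_of_nonneg (Tneg k) (by positivity)), ← neg_div,
      div_le_iff₀ (by positivity), neg_le]
    have h1 : ∀ a : I n k, -(D * k) ≤ g (ex a) := by
      intro a
      refine le_trans ?_ (hlow _)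
      have : (((ex a).degree : ℕ) : ℝ) ≤ k := by exact_mod_cast ex_deg a
      nlinarith
    have h2 := Finset.sum_le_sum (s := Finset.univ) fun a _ => h1 a
    rw [Finset.sum_const, Finset.card_univ, nsmul_eq_mul] at h2
    refine le_trans ?_ h2
    have := card_real (n := n) hk
    have h3 : 0 ≤ D * k := by positivity
    rw [pow_succ]
    nlinarith
  · have := ((((tendsto_inv_atTop_nhds_zero_nat (𝕜 := ℝ)).const_mul (n : ℝ)).const_add 1).inv₀
      (by simp)).pow (n + 1)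
    simpa using this
  · filter_upwards [eventually_ge_atTop 1] with m hm
    obtain ⟨u, u1, u2⟩ := key m hm
    refine ⟨u, ?_, u2⟩
    convert u1 using 2
    have m0 : (0 : ℝ) < m := by exact_mod_cast hm
    have : 1 / (1 + (n : ℝ) * (m : ℝ)⁻¹) = m / (m + n) := by field_simp
    rw [this, div_pow]
    field_simp

end Pool.Agent.H15.BM
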