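import Pool.Agent.H15.BM3

set_option autoImplicit false
open MvPolynomial Matrix Filter Topology MeasureTheory

namespace Pool.Agent.H15.BM

variable {n k : ℕ} {K : Set (Fin n → ℂ)} {V : (Fin n → ℂ) → ℝ}

noncomputable def ZZ (ν : Measure (Fin n → ℂ)) (k : ℕ) : ℝ :=
  ∫ z, ‖(EM z).det‖ ^ 2 ∂(Measure.pi (fun _ : I n k => ν))

variable {ν : Measure (Fin n → ℂ)} [IsFiniteMeasure ν]

lemma ae_pi (hν : ν Kᶜ = 0) : ∀ᵐ z ∂(Measure.pi (fun _ : I n k => ν)), ∀ a, z a ∈ K := by
  rw [ae_all_iff]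
  intro a
  exact (Measure.tendsto_eval_ae_ae (μ := fun _ : I n k => ν) (i := a)).eventually
    (show ∀ᵐ x ∂ν, x ∈ K from hν)

lemma cont_int1 (hK : IsCompact K) (hν : ν Kᶜ = 0) (F : (Fin n → ℂ) → ℝ) (hF : Continuous F) :
    Integrable F ν := by
  rw [← Measure.restrict_eq_self_of_ae_mem (show ∀ᵐ x ∂ν, x ∈ K from hν)]
  exact hF.continuousOn.integrableOn_compact hK

lemma cont_int (hK : IsCompact K) (hν : ν Kᶜ = 0) (F : (I n k → (Fin n → ℂ)) → ℝ)
    (hF : Continuous F) : Integrable F (Measure.pi (fun _ : I n k => ν)) := by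
  have h : ∀ᵐ z ∂(Measure.pi (fun _ : I n k => ν)), z ∈ Set.pi Set.univ (fun _ : I n k => K) := by
    filter_upwards [ae_pi (k := k) hν] with z hz a _ using hz a
  rw [← Measure.restrict_eq_self_of_ae_mem h]
  exact hF.continuousOn.integrableOn_compact (isCompact_univ_pi fun _ => hK)

lemma sq_cont (p : MvPolynomial (Fin n) ℂ) : Continuous fun y : Fin n → ℂ => ‖eval y p‖ ^ 2 :=
  (MvPolynomial.continuous_eval p).norm.pow 2

lemma int_le (hK : IsCompact K) (hν : ν Kᶜ = 0) (p : MvPolynomial (Fin n) ℂ) (M : ℝ)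
    (h : ∀ x ∈ K, ‖eval x p‖ ≤ M) : ∫ y, ‖eval y p‖ ^ 2 ∂ν ≤ ν.real Set.univ * M ^ 2 := by
  have := integral_mono_ae (cont_int1 hK hν _ (sq_cont p)) (integrable_const (M ^ 2)) (by
    filter_upwards [show ∀ᵐ x ∂ν, x ∈ K from hν] with x hx
    exact pow_le_pow_left₀ (norm_nonneg _) (h x hx) 2)
  simpa using this

omit [IsFiniteMeasure ν] in
lemma Z_nonneg : 0 ≤ ZZ ν k := integral_nonneg fun _ => by positivity

lemma Z_up (hK : IsCompact K) (hν : ν Kᶜ = 0) (t : I n k → MvPolynomial (Fin n) ℂ)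
    (ht : ∀ b, (t b).totalDegree ≤ k) :
    ‖(Matrix.of fun c b => coeff (ex c) (t b)).det‖ ^ 2 * ZZ ν k ≤
      ((Fintype.card (I n k)).factorial : ℝ) ^ 2 * ∏ b, ∫ y, ‖eval y (t b)‖ ^ 2 ∂ν := by
  have c1 : ∀ σ : Equiv.Perm (I n k), Continuous
      fun z : I n k → (Fin n → ℂ) => ∏ a, ‖eval (z a) (t (σ a))‖ ^ 2 := fun σ =>
    continuous_finsetProd _ fun a _ => (sq_cont _).comp (continuous_apply a)
  unfold ZZ
  rw [← integral_const_mul]
  refine (integral_mono ((cont_int hK hν _ (EM_cont.norm.pow 2)).const_mul _)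
    ((integrable_finsetSum Finset.univ fun σ _ => cont_int hK hν _ (c1 σ)).const_mul
      ((Fintype.card (I n k)).factorial : ℝ)) fun z => ?_).trans (le_of_eq ?_)
  · have := det_sq_le (Matrix.of fun a b => eval (z a) (t b))
    rw [det_eval t ht, norm_mul, mul_pow, mul_comm] at this
    exact this
  · rw [integral_const_mul, integral_finsetSum _ fun σ _ => cont_int hK hν _ (c1 σ)]
    have : ∀ σ : Equiv.Perm (I n k), ∫ z : I n k → (Fin n → ℂ), ∏ a, ‖eval (z a) (t (σ a))‖ ^ 2
        ∂(Measure.pi (fun _ : I n k => ν)) = ∏ b, ∫ y, ‖eval y (t b)‖ ^ 2 ∂ν := by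
      intro σ
      rw [integral_fintype_prod_eq_prod (fun a y => ‖eval y (t (σ a))‖ ^ 2)]
      exact Equiv.prod_comp σ (fun b => ∫ y, ‖eval y (t b)‖ ^ 2 ∂ν)
    simp only [this, Finset.sum_const, Finset.card_univ, Fintype.card_perm, nsmul_eq_mul]
    ring

lemma Z_le (hK : IsCompact K) (hne : K.Nonempty) (hν : ν Kᶜ = 0) :
    ZZ ν k ≤ VV K k ^ 2 * ν.real Set.univ ^ Fintype.card (I n k) := by
  obtain ⟨z, hz⟩ := exists_fek hK hne k
  have := integral_mono_ae (cont_int (k := k) hK hν _ (EM_cont.norm.pow 2))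
    (integrable_const (VV K k ^ 2)) (by
    filter_upwards [ae_pi (k := k) hν] with w hw
    rw [VV_eq hz]
    exact pow_le_pow_left₀ (norm_nonneg _) (hz.2 w hw) 2)
  refine this.trans (le_of_eq ?_)
  rw [integral_const, smul_eq_mul, mul_comm, measureReal_def, Measure.pi_univ]
  simp [measureReal_def]

lemma Z_ge (hK : IsCompact K) (hne : K.Nonempty) (hν : ν Kᶜ = 0) (M : ℝ) (M0 : 0 ≤ M)
    (h : ∀ p : MvPolynomial (Fin n) ℂ, p.totalDegree ≤ k → ∀ x ∈ K,
      ‖eval x p‖ ^ 2 ≤ M * ∫ y, ‖eval y p‖ ^ 2 ∂ν) :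
    VV K k ^ 2 ≤ M ^ Fintype.card (I n k) * ZZ ν k := by
  classical
  obtain ⟨z, hz⟩ := exists_fek hK hne k
  set f : (I n k → (Fin n → ℂ)) → ENNReal := fun w => ENNReal.ofReal (‖(EM w).det‖ ^ 2) with hf
  have fm : Measurable f := (EM_cont.norm.pow 2).measurable.ennreal_ofReal
  have one : ∀ (w : I n k → (Fin n → ℂ)) (a : I n k), w a ∈ K →
      f w ≤ ENNReal.ofReal M * ∫⁻ t, f (Function.update w a t) ∂ν := by
    intro w a ha
    simp only [hf, det_update]
    rw [← ofReal_integral_eq_lintegral_ofReal (cont_int1 hK hν _ (sq_cont _))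
      (Eventually.of_forall fun _ => by positivity), ← ENNReal.ofReal_mul M0]
    apply ENNReal.ofReal_le_ofReal
    have := h _ (Pc_deg fun b => (EM w)ᵀ.adjugate a b) (w a) ha
    rwa [← det_update, Function.update_eq_self] at this
  have ind : ∀ s : Finset (I n k),
      f z ≤ ENNReal.ofReal M ^ s.card * lmarginal (fun _ : I n k => ν) s f z := by
    intro s
    induction s using Finset.induction_on with
    | empty => simp
    | insert i s hi ih =>
      rw [lmarginal_insert' _ fm hi, Finset.card_insert_of_notMem hi, pow_succ, mul_assoc]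
      refine ih.trans (mul_le_mul_right ?_ _)
      unfold lmarginal
      rw [← lintegral_const_mul' _ _ ENNReal.ofReal_ne_top]
      refine lintegral_mono fun y => one _ i ?_
      simp only [Function.updateFinset, hi, dite_false]
      exact hz.1 i
  have := ind Finset.univ
  rw [lmarginal_univ, Finset.card_univ] at this
  simp only [hf] at this
  rw [← ofReal_integral_eq_lintegral_ofReal
      (cont_int hK hν (fun w : I n k → (Fin n → ℂ) => ‖(EM w).det‖ ^ 2) (EM_cont.norm.pow 2))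
      (Eventually.of_forall fun _ => by positivity), ← ENNReal.ofReal_pow M0,
    ← ENNReal.ofReal_mul (by positivity)] at this
  rw [VV_eq hz]
  exact (ENNReal.ofReal_le_ofReal_iff (mul_nonneg (by positivity) Z_nonneg)).1 this

noncomputable def Phi {m j : ℕ} (z : I n m → (Fin n → ℂ)) (p : MvPolynomial (Fin n) ℂ) :
    (I n j → ℂ) →ₗ[ℂ] EuclideanSpace ℂ (I n m) where
  toFun c := WithLp.toLp 2 fun a => eval (z a) (p * Pc c)
  map_add' c c' := by
    ext a
    simp [Pc_eval, add_mul, Finset.sum_add_distrib, mul_add]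
  map_smul' r c := by
    ext a
    simp [Pc_eval, Finset.mul_sum, mul_assoc, mul_left_comm]

lemma Z_sub (hK : IsCompact K) (hne : K.Nonempty) (hν : ν Kᶜ = 0) {m j : ℕ} (hV : 0 < VV K m)
    (p : MvPolynomial (Fin n) ℂ) (p0 : p ≠ 0) (hp : p.totalDegree ≤ k) (hm : k + j ≤ m) (θ : ℝ)
    (hθ : ∀ q : MvPolynomial (Fin n) ℂ, q.totalDegree ≤ j → ∀ M : ℝ,
      (∀ x ∈ K, ‖eval x (p * q)‖ ≤ M) → ∫ y, ‖eval y (p * q)‖ ^ 2 ∂ν ≤ θ * M ^ 2) :
    ZZ ν m ≤ VV K m ^ 2 * (((Fintype.card (I n m)).factorial : ℝ) ^ 2 *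
      ((max 1 (ν.real Set.univ) * (Fintype.card (I n m) : ℝ) ^ 2) ^ Fintype.card (I n m) *
        θ ^ Fintype.card (I n j))) := by
  classical
  obtain ⟨z, hz⟩ := exists_fek hK hne m
  rw [VV_eq hz] at hV ⊢
  have d0 : (EM z).det ≠ 0 := norm_pos_iff.1 hV
  have dg : ∀ c : I n j → ℂ, (p * Pc c).totalDegree ≤ m := fun c =>
    (totalDegree_mul _ _).trans ((add_le_add hp (Pc_deg c)).trans hm)
  have inj : Function.Injective (Phi (j := j) z p) := by
    rw [injective_iff_map_eq_zero]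
    intro c hc
    have h1 : ∀ a, eval (z a) (p * Pc c) = 0 := fun a => congrArg (fun v => v.ofLp a) hc
    have h2 : p * Pc c = 0 := by
      apply MvPolynomial.funext
      intro x
      have := lagrange z _ (dg c) x
      simp only [h1, zero_mul, Finset.sum_const_zero] at this
      simpa using (mul_eq_zero.1 this).resolve_left d0
    have h3 := (mul_eq_zero.1 h2).resolve_left p0
    funext a
    rw [← coeff_Pc c a, h3]
    simp
  set W := LinearMap.range (Phi (j := j) z p) with hW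
  have hd : Module.finrank ℂ W = Fintype.card (I n j) := by
    rw [hW, LinearMap.finrank_range_of_inj inj]; simp
  have hle : Module.finrank ℂ W ≤ (Finset.univ : Finset (I n m)).card := by
    have := Submodule.finrank_le W
    simpa using this
  obtain ⟨s, -, hs⟩ := Finset.exists_subset_card_eq hle
  let e : s ≃ Fin (Module.finrank ℂ W) := Finset.equivFinOfCardEq hs
  let u := stdOrthonormalBasis ℂ W
  let v : I n m → EuclideanSpace ℂ (I n m) := fun a => if h : a ∈ s then (u (e ⟨a, h⟩) : _) else 0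
  obtain ⟨b, hb⟩ := Orthonormal.exists_orthonormalBasis_extension_of_card_eq (𝕜 := ℂ)
    (ι := I n m) (by simp) (v := v) (s := (s : Set (I n m))) (by
      have h1 : Orthonormal ℂ (fun i => (u i : EuclideanSpace ℂ (I n m))) :=
        u.orthonormal.comp_linearIsometry W.subtypeₗᵢ
      have h2 := h1.comp e e.injective
      have h3 : (s : Set (I n m)).domRestrict v =
          fun a : s => (u (e a) : EuclideanSpace ℂ (I n m)) := by
        funext a
        simp only [Set.domRestrict, v]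
        rw [dif_pos (Finset.mem_coe.1 a.2)]
        rfl
      rw [h3]
      exact h2)
  set N : ℝ := (Fintype.card (I n m) : ℝ) with hN
  set ν₁ := max 1 (ν.real Set.univ) with hν₁
  have sup : ∀ (a : I n m) (f : MvPolynomial (Fin n) ℂ), f.totalDegree ≤ m →
      (∀ a', eval (z a') f = b a a') → ∀ x ∈ K, ‖eval x f‖ ≤ N := by
    intro a f hf h x hx
    refine (lag hz d0 f hf x hx).trans ((Finset.sum_le_sum (g := fun _ => (1 : ℝ))
      fun a' _ => ?_).trans (by simp [hN]))
    rw [h, ← b.orthonormal.1 a]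
    exact PiLp.norm_apply_le _ _
  have ex1 : ∀ a, ∃ f : MvPolynomial (Fin n) ℂ, f.totalDegree ≤ m ∧ (∀ a', eval (z a') f = b a a') ∧
      ∫ y, ‖eval y f‖ ^ 2 ∂ν ≤ (ν₁ * N ^ 2) * (if a ∈ s then θ else 1) := by
    intro a
    by_cases h : a ∈ s
    · obtain ⟨c, hc⟩ := (u (e ⟨a, h⟩)).2
      have h1 : ∀ a', eval (z a') (p * Pc c) = b a a' := by
        intro a'
        rw [hb a (Finset.mem_coe.2 h)]
        simp only [v, dif_pos h]
        rw [← hc]
        rfl
      refine ⟨p * Pc c, dg c, h1, ?_⟩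
      have h2 := hθ _ (Pc_deg c) N (sup a _ (dg c) h1)
      have h3 : 0 ≤ θ * N ^ 2 := le_trans (integral_nonneg fun _ => by positivity) h2
      rw [if_pos h]
      nlinarith [le_max_left 1 (ν.real Set.univ)]
    · have h1 : ∀ a', eval (z a') (Pc ((EM z)⁻¹ *ᵥ (b a).ofLp)) = b a a' := by
        intro a'
        have : (EM z) *ᵥ ((EM z)⁻¹ *ᵥ (b a).ofLp) = (b a).ofLp := by
          rw [mulVec_mulVec, mul_nonsing_inv _ (Ne.isUnit d0), one_mulVec]
        rw [Pc_eval, ← congrFun this a']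
        simp [Matrix.mulVec, dotProduct, EM, mono, mul_comm]
      refine ⟨_, Pc_deg _, h1, ?_⟩
      rw [if_neg h, mul_one]
      exact (int_le hK hν _ N (sup a _ (Pc_deg _) h1)).trans
        (mul_le_mul_of_nonneg_right (le_max_right _ _) (by positivity))
  choose f f1 f2 f3 using ex1
  have dn : ‖(Matrix.of fun a a' => eval (z a) (f a')).det‖ = 1 := by
    rw [← (EuclideanSpace.basisFun (I n m) ℂ).det_to_matrix_orthonormalBasis b, Module.Basis.det_apply]
    congr 2
    ext a a'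
    simp [f2, Module.Basis.toMatrix_apply]
  rw [det_eval f f1, norm_mul] at dn
  have h1 := Z_up hK hν f f1
  have h2 : ∏ a, ∫ y, ‖eval y (f a)‖ ^ 2 ∂ν ≤ (ν₁ * N ^ 2) ^ Fintype.card (I n m) *
      θ ^ Fintype.card (I n j) := by
    refine (Finset.prod_le_prod (fun _ _ => integral_nonneg fun _ => by positivity)
      fun a _ => f3 a).trans (le_of_eq ?_)
    rw [Finset.prod_mul_distrib, Finset.prod_const, Finset.card_univ, Finset.prod_ite_mem,
      Finset.univ_inter, Finset.prod_const, hs, hd]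
  have h3 := mul_le_mul_of_nonneg_left (h1.trans (mul_le_mul_of_nonneg_left h2 (by positivity)))
    (sq_nonneg ‖(EM z).det‖)
  rwa [← mul_assoc, ← mul_pow, dn, one_pow, one_mul] at h3

end Pool.Agent.H15.BM
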