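import Pool.Agent.H15.BM4

set_option autoImplicit false
open MvPolynomial Matrix Filter Topology MeasureTheory

namespace Pool.Agent.H15.BM

variable {n k : ℕ} {K : Set (Fin n → ℂ)} {V : (Fin n → ℂ) → ℝ}

noncomputable def ll (n k : ℕ) : ℝ := ∑ a : I n k, ∑ i, ((a.1 i : ℕ) : ℝ)

lemma ll_eq (n k : ℕ) : ll n k = ∑ a : I n k, (((ex a).degree : ℕ) : ℝ) := by
  unfold ll
  simp [Finsupp.degree_eq_sum]

lemma ll_conv (hn : 1 ≤ n) : ∃ l : ℝ, 0 < l ∧
    Tendsto (fun k : ℕ => ll n k / (k : ℝ) ^ (n + 1)) atTop (𝓝 l) := by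
  obtain ⟨L, h1, h2⟩ := TT_conv (n := n) (fun a => -((a.degree : ℕ) : ℝ))
    (fun a b => by simp [add_comm]) (fun a => by simp) 1 zero_le_one (fun a => by simp)
  refine ⟨-L, ?_, ?_⟩
  · rw [neg_pos]
    refine lt_of_le_of_lt (h2 1 le_rfl) (div_neg_of_neg_of_pos ?_ (by positivity))
    obtain ⟨a, ha⟩ := ex_surj (n := n) (k := 1) (Finsupp.single ⟨0, hn⟩ 1) (by simp)
    exact Finset.sum_neg' (fun a _ => by simp) ⟨a, Finset.mem_univ _, by simp [ha]⟩
  · refine h1.neg.congr fun k => ?_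
    rw [ll_eq, TT, Finset.sum_neg_distrib, neg_div, neg_neg]

lemma sm1 (n : ℕ) :
    Tendsto (fun k : ℕ => (Fintype.card (I n k) : ℝ) / (k : ℝ) ^ (n + 1)) atTop (𝓝 0) := by
  have t := (tendsto_inv_atTop_nhds_zero_nat (𝕜 := ℝ)).const_mul (2 ^ n)
  rw [mul_zero] at t
  refine squeeze_zero' (Eventually.of_forall fun k => by positivity) ?_ t
  filter_upwards [eventually_ge_atTop 1] with k hk
  have k0 : (0 : ℝ) < k := by exact_mod_cast hk
  rw [div_le_iff₀ (by positivity)]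
  refine (card_real hk).trans (le_of_eq ?_)
  field_simp
  ring

lemma sm2 (n : ℕ) : Tendsto (fun k : ℕ => (Fintype.card (I n k) : ℝ) *
    Real.log (Fintype.card (I n k) : ℝ) / (k : ℝ) ^ (n + 1)) atTop (𝓝 0) := by
  have t1 := (tendsto_inv_atTop_nhds_zero_nat (𝕜 := ℝ)).const_mul (n * Real.log 2)
  have t2 := (Real.isLittleO_log_id_atTop.tendsto_div_nhds_zero.comp
    tendsto_natCast_atTop_atTop).const_mul (n : ℝ)
  have t := (t1.add t2).const_mul (2 ^ n)
  simp only [mul_zero, add_zero] at t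
  have l0 : ∀ k, 0 ≤ Real.log (Fintype.card (I n k) : ℝ) := fun k =>
    Real.log_nonneg (by exact_mod_cast card_pos n k)
  refine squeeze_zero' (Eventually.of_forall fun k => div_nonneg (mul_nonneg (by positivity) (l0 k))
    (by positivity)) ?_ t
  filter_upwards [eventually_ge_atTop 1] with k hk
  have k0 : (0 : ℝ) < k := by exact_mod_cast hk
  have h1 := card_real (n := n) hk
  have h2 : Real.log (Fintype.card (I n k) : ℝ) ≤ n * Real.log 2 + n * Real.log k := by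
    refine (Real.log_le_log (by exact_mod_cast card_pos n k) h1).trans (le_of_eq ?_)
    rw [Real.log_mul (by positivity) (by positivity), Real.log_pow, Real.log_pow]
  rw [div_le_iff₀ (by positivity)]
  refine (mul_le_mul h1 h2 (l0 k) (by positivity)).trans (le_of_eq ?_)
  simp only [Function.comp, id]
  field_simp
  ring

lemma log_fact (N : ℕ) : Real.log (N.factorial : ℝ) ≤ N * Real.log N := by
  rw [← Real.log_pow]
  apply Real.log_le_log (by exact_mod_cast N.factorial_pos)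
  exact_mod_cast Nat.factorial_le_pow N

lemma V_conv (h : Reg K V) (hV : Continuous V) (hK : IsCompact K) (hn : 1 ≤ n) :
    (∀ k, 0 < VV K k) ∧
      ∃ γ, Tendsto (fun k : ℕ => Real.log (VV K k) / (k : ℝ) ^ (n + 1)) atTop (𝓝 γ) := by
  obtain ⟨A, A0, hA⟩ := Y_low h hV hK
  obtain ⟨B, B0, hB⟩ := YS_mem hK
  have hpos : ∀ α, 0 < Y K α := fun α => lt_of_lt_of_le (Real.exp_pos _) (hA α)
  have Vpos : ∀ k, 0 < VV K k := fun k =>
    lt_of_lt_of_le (Finset.prod_pos fun b _ => hpos _) (V_low hK h.ne hpos k)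
  refine ⟨Vpos, ?_⟩
  obtain ⟨l, -, hl⟩ := ll_conv hn
  obtain ⟨L, h1, -⟩ := TT_conv (n := n) (fun a => Real.log (Y K a) - B * ((a.degree : ℕ) : ℝ))
    (fun a b => by
      have := Y_sub hK h.ne hpos a b
      rw [map_add]; push_cast; linarith)
    (fun a => by
      have : Y K a ≤ Real.exp (B * (a.degree : ℕ)) := csInf_le (YS_bdd h.ne _) (hB a)
      rw [← Real.log_le_iff_le_exp (hpos a)] at this
      linarith) (A + B) (by positivity)
    (fun a => by
      have := hA a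
      rw [← Real.le_log_iff_exp_le (hpos a)] at this
      linarith)
  have t1 : Tendsto (fun k : ℕ => (∑ a : I n k, Real.log (Y K (ex a))) / (k : ℝ) ^ (n + 1)) atTop
      (𝓝 (L + B * l)) := by
    refine (h1.add (hl.const_mul B)).congr fun k => ?_
    rw [TT, ll_eq, Finset.sum_sub_distrib, ← Finset.mul_sum]
    ring
  have t2 := t1.add ((sm2 n).add ((sm1 n).mul_const (Real.log 2)))
  simp only [zero_mul, add_zero] at t2
  refine ⟨_, tendsto_of_tendsto_of_tendsto_of_le_of_le t1 t2 (fun k => ?_) (fun k => ?_)⟩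
  · refine div_le_div_of_nonneg_right ?_ (by positivity)
    rw [← Real.log_prod (fun b _ => (hpos _).ne')]
    exact Real.log_le_log (Finset.prod_pos fun b _ => hpos _) (V_low hK h.ne hpos k)
  · simp only
    rw [div_mul_eq_mul_div, ← add_div, ← add_div]
    refine div_le_div_of_nonneg_right ?_ (by positivity)
    refine (Real.log_le_log (Vpos k) (V_up hK h.ne hpos k)).trans ?_
    have p2 : ∀ b : I n k, 0 < 2 * Y K (ex b) := fun b => by linarith [hpos (ex b)]
    rw [Real.log_mul (by positivity) (Finset.prod_pos fun b _ => p2 b).ne',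
      Real.log_prod (fun b _ => (p2 b).ne')]
    simp only [Real.log_mul two_ne_zero (hpos _).ne', Finset.sum_add_distrib, Finset.sum_const,
      Finset.card_univ, nsmul_eq_mul]
    linarith [log_fact (Fintype.card (I n k))]

lemma rp (a l P : ℕ → ℝ) (γ L : ℝ) (L0 : 0 < L) (hP : ∀ᶠ k in atTop, P k ≠ 0)
    (ha : ∀ᶠ k in atTop, 0 < a k) (h1 : Tendsto (fun k => Real.log (a k) / P k) atTop (𝓝 γ))
    (h2 : Tendsto (fun k => l k / P k) atTop (𝓝 L)) :
    Tendsto (fun k => a k ^ ((1 : ℝ) / l k)) atTop (𝓝 (Real.exp (γ / L))) := by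
  refine ((Real.continuous_exp.tendsto _).comp (h1.div h2 L0.ne')).congr' ?_
  filter_upwards [hP, ha] with k h1 h2
  simp only [Function.comp, Pi.div_apply]
  rw [Real.rpow_def_of_pos h2, div_div_div_cancel_right₀ h1, mul_one_div]

lemma rp_inv (a l P : ℕ → ℝ) (d L : ℝ) (L0 : 0 < L) (d0 : 0 < d) (ha : ∀ k, 0 ≤ a k)
    (h1 : Tendsto (fun k => a k ^ ((1 : ℝ) / l k)) atTop (𝓝 d))
    (h2 : Tendsto (fun k => l k / P k) atTop (𝓝 L)) :
    (∀ᶠ k in atTop, 0 < a k) ∧
      Tendsto (fun k => Real.log (a k) / P k) atTop (𝓝 (Real.log d * L)) := by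
  have e1 : ∀ᶠ k in atTop, l k ≠ 0 := by
    filter_upwards [h2.eventually (lt_mem_nhds L0)] with k hk h0
    simp [h0] at hk
  have e2 : ∀ᶠ k in atTop, 0 < a k := by
    filter_upwards [h1.eventually (lt_mem_nhds d0), e1] with k hk h0
    refine lt_of_le_of_ne (ha k) fun h => ?_
    rw [← h, Real.zero_rpow (by simpa using h0)] at hk
    exact lt_irrefl _ hk
  refine ⟨e2, ((h1.log d0.ne').mul h2).congr' ?_⟩
  filter_upwards [e1, e2] with k h0 hk
  rw [Real.log_rpow hk]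
  field_simp

lemma card_ge (j : ℕ) : (j / n + 1) ^ n ≤ Fintype.card (I n j) := by
  have : ∀ r : Fin n → Fin (j / n + 1), ∃ a : I n j,
      ex a = Finsupp.equivFunOnFinite.symm (fun i => (r i : ℕ)) := by
    intro r
    apply ex_surj
    rw [Finsupp.degree_eq_sum]
    refine (Finset.sum_le_sum (g := fun _ => j / n) fun i _ => ?_).trans ?_
    · simpa using Nat.lt_succ_iff.1 (r i).2
    · simpa using Nat.mul_div_le j n
  choose φ hφ using this
  have inj : Function.Injective φ := by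
    intro r r' h
    have := (hφ r).symm.trans ((congrArg ex h).trans (hφ r'))
    funext i
    apply Fin.ext
    simpa using congrArg (fun d : Fin n →₀ ℕ => d i) this
  simpa using Fintype.card_le_of_injective φ inj

variable {ν : Measure (Fin n → ℂ)} [IsFiniteMeasure ν]

lemma theta (hK : IsCompact K) (hν : ν Kᶜ = 0) (p q : MvPolynomial (Fin n) ℂ) (a τ κ M : ℝ)
    (a0 : 0 < a) (κ0 : 0 < κ) (h1 : ∫ y, ‖eval y p‖ ^ 2 ∂ν ≤ τ * a ^ 2)
    (h2 : ∀ y ∈ K, a * ‖eval y q‖ * κ ≤ M) :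
    ∫ y, ‖eval y (p * q)‖ ^ 2 ∂ν ≤ τ / κ ^ 2 * M ^ 2 := by
  have := integral_mono_ae (cont_int1 hK hν _ (sq_cont (p * q)))
    ((cont_int1 hK hν _ (sq_cont p)).const_mul ((M / (a * κ)) ^ 2)) (by
    filter_upwards [show ∀ᵐ x ∂ν, x ∈ K from hν] with x hx
    rw [map_mul, norm_mul, mul_pow, mul_comm]
    refine mul_le_mul_of_nonneg_right (pow_le_pow_left₀ (norm_nonneg _) ?_ 2) (by positivity)
    rw [le_div_iff₀ (by positivity)]
    linarith [h2 x hx])
  rw [integral_const_mul] at this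
  refine this.trans ((mul_le_mul_of_nonneg_left h1 (by positivity)).trans (le_of_eq ?_))
  field_simp

lemma fwd (hK : IsCompact K) (hne : K.Nonempty) (hν : ν Kᶜ = 0) (Vpos : ∀ k, 0 < VV K k) (γ : ℝ)
    (hγ : Tendsto (fun k : ℕ => Real.log (VV K k) / (k : ℝ) ^ (n + 1)) atTop (𝓝 γ))
    (h : ∀ ε : ℝ, 0 < ε → ∃ C : ℝ, ∀ (k : ℕ) (p : MvPolynomial (Fin n) ℂ), p.totalDegree ≤ k →
        ∀ x ∈ K, ‖eval x p‖ ^ 2 ≤ C * (1 + ε) ^ (2 * k) * ∫ y, ‖eval y p‖ ^ 2 ∂ν) :
    (∀ k, 0 < ZZ ν k) ∧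
      Tendsto (fun k : ℕ => Real.log (ZZ ν k) / (k : ℝ) ^ (n + 1)) atTop (𝓝 (2 * γ)) := by
  have low : ∀ ε : ℝ, 0 < ε → ∃ C : ℝ, 1 ≤ C ∧ ∀ k,
      VV K k ^ 2 ≤ (C * (1 + ε) ^ (2 * k)) ^ Fintype.card (I n k) * ZZ ν k := by
    intro ε hε
    obtain ⟨C, hC⟩ := h ε hε
    refine ⟨max C 1, le_max_right _ _, fun k => Z_ge hK hne hν _ (by positivity) fun p hp x hx =>
      (hC k p hp x hx).trans ?_⟩
    exact mul_le_mul_of_nonneg_right (mul_le_mul_of_nonneg_right (le_max_left _ _) (by positivity))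
      (integral_nonneg fun _ => by positivity)
  have Zpos : ∀ k, 0 < ZZ ν k := by
    intro k
    obtain ⟨C, C1, hC⟩ := low 1 one_pos
    refine lt_of_le_of_ne Z_nonneg fun h0 => ?_
    have := hC k
    rw [← h0, mul_zero] at this
    exact absurd this (not_le.2 (pow_pos (Vpos k) 2))
  refine ⟨Zpos, tendsto_order.2 ⟨fun a ha => ?_, fun a ha => ?_⟩⟩
  · obtain ⟨ε, ε0, hε⟩ : ∃ ε : ℝ, 0 < ε ∧ a < 2 * γ - 2 ^ (n + 1) * ε :=
      ⟨(2 * γ - a) / 2 ^ (n + 2), div_pos (by linarith) (by positivity), by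
        have : (2 : ℝ) ^ (n + 1) * ((2 * γ - a) / 2 ^ (n + 2)) = (2 * γ - a) / 2 := by
          field_simp; ring
        rw [this]; linarith⟩
    obtain ⟨C, C1, hC⟩ := low ε ε0
    have t := ((hγ.const_mul 2).sub ((sm1 n).mul_const (Real.log C))).sub_const (2 ^ (n + 1) * ε)
    simp only [zero_mul, sub_zero] at t
    filter_upwards [t.eventually (lt_mem_nhds hε), eventually_ge_atTop 1] with k h1 hk
    refine lt_of_lt_of_le h1 ?_
    have k0 : (0 : ℝ) < k := by exact_mod_cast hk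
    have h2 := Real.log_le_log (pow_pos (Vpos k) 2) (hC k)
    rw [Real.log_pow, Real.log_mul (by positivity) (Zpos k).ne', Real.log_pow,
      Real.log_mul (by positivity) (by positivity), Real.log_pow] at h2
    have h3 : Real.log (1 + ε) ≤ ε := by
      have := Real.log_le_sub_one_of_pos (show 0 < 1 + ε by linarith)
      linarith
    have h4 : (Fintype.card (I n k) : ℝ) * (((2 * k : ℕ) : ℝ) * Real.log (1 + ε)) ≤
        2 ^ (n + 1) * ε * (k : ℝ) ^ (n + 1) := by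
      calc _ ≤ (2 ^ n * (k : ℝ) ^ n) * (((2 * k : ℕ) : ℝ) * ε) :=
            mul_le_mul (card_real hk) (mul_le_mul_of_nonneg_left h3 (by positivity))
              (mul_nonneg (by positivity) (Real.log_nonneg (by linarith))) (by positivity)
        _ = _ := by push_cast; ring
    rw [le_div_iff₀ (by positivity)]
    have e : (2 * (Real.log (VV K k) / (k : ℝ) ^ (n + 1)) - (Fintype.card (I n k) : ℝ) / (k : ℝ) ^ (n + 1) *
        Real.log C - 2 ^ (n + 1) * ε) * (k : ℝ) ^ (n + 1) = 2 * Real.log (VV K k) -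
        (Fintype.card (I n k) : ℝ) * Real.log C - 2 ^ (n + 1) * ε * (k : ℝ) ^ (n + 1) := by
      field_simp
    rw [e]
    push_cast at h2 h4 ⊢
    linarith
  · have t := ((hγ.const_mul 2).add ((sm1 n).mul_const (Real.log (ν.real Set.univ))))
    simp only [zero_mul, add_zero] at t
    filter_upwards [t.eventually (gt_mem_nhds ha)] with k h1
    refine lt_of_le_of_lt ?_ h1
    have h2 := Z_le (k := k) hK hne hν
    have ν0 : ν.real Set.univ ≠ 0 := by
      intro h0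
      rw [h0, zero_pow (card_pos n k).ne', mul_zero] at h2
      exact absurd h2 (not_le.2 (Zpos k))
    have h3 := Real.log_le_log (Zpos k) h2
    rw [Real.log_mul (pow_pos (Vpos k) 2).ne' (pow_ne_zero _ ν0), Real.log_pow, Real.log_pow] at h3
    rw [← mul_div_assoc, div_mul_eq_mul_div, ← add_div]
    exact div_le_div_of_nonneg_right (by exact_mod_cast h3) (by positivity)

lemma bwd (h : Reg K V) (hV : Continuous V) (hK : IsCompact K) (hn : 1 ≤ n) (hν : ν Kᶜ = 0)
    (Vpos : ∀ k, 0 < VV K k) (γ : ℝ)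
    (hγ : Tendsto (fun k : ℕ => Real.log (VV K k) / (k : ℝ) ^ (n + 1)) atTop (𝓝 γ))
    (Zpos : ∀ᶠ k in atTop, 0 < ZZ ν k)
    (hZ : Tendsto (fun k : ℕ => Real.log (ZZ ν k) / (k : ℝ) ^ (n + 1)) atTop (𝓝 (2 * γ)))
    (ε : ℝ) (hε : 0 < ε) : ∃ C : ℝ, ∀ (k : ℕ) (p : MvPolynomial (Fin n) ℂ), p.totalDegree ≤ k →
        ∀ x ∈ K, ‖eval x p‖ ^ 2 ≤ C * (1 + ε) ^ (2 * k) * ∫ y, ‖eval y p‖ ^ 2 ∂ν := by
  set δ := Real.log (1 + ε) with hδ
  have δ0 : 0 < δ := Real.log_pos (by linarith)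
  obtain ⟨ρ, ρ0, ρ1, hρ⟩ := h.prod hV hK (δ / 8) (by positivity)
  obtain ⟨r, r1, hr⟩ : ∃ r : ℕ, 1 ≤ r ∧ -Real.log (ρ / 2) ≤ r * (δ / 4) := by
    obtain ⟨r, hr⟩ := exists_nat_ge (-Real.log (ρ / 2) / (δ / 4))
    refine ⟨r + 1, by omega, ?_⟩
    rw [div_le_iff₀ (by positivity)] at hr
    push_cast
    linarith
  have n0 : (0 : ℝ) < n := by exact_mod_cast hn
  have r0 : (0 : ℝ) < r := by exact_mod_cast r1
  set c : ℝ := δ / (2 ^ (n + 1) * ((r : ℝ) * n) ^ n) with hc
  have c0 : 0 < c := by positivity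
  set ν₁ := max 1 (ν.real Set.univ) with hν₁
  have ν0 : 0 < ν₁ := lt_of_lt_of_le one_pos (le_max_left _ _)
  have t := (hZ.sub (hγ.const_mul 2)).sub (((sm2 n).const_mul 4).add ((sm1 n).mul_const (Real.log ν₁)))
  simp only [sub_self, mul_zero, zero_mul, add_zero] at t
  obtain ⟨m1, hm1⟩ := eventually_atTop.1
    ((t.eventually (lt_mem_nhds (neg_lt_zero.2 c0))).and (Zpos.and (eventually_ge_atTop 1)))
  have key : ∀ (m k j : ℕ) (p : MvPolynomial (Fin n) ℂ) (θ : ℝ), m1 ≤ m → p ≠ 0 → p.totalDegree ≤ k →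
      k + j ≤ m → 0 < θ → (∀ q : MvPolynomial (Fin n) ℂ, q.totalDegree ≤ j → ∀ M : ℝ,
        (∀ x ∈ K, ‖eval x (p * q)‖ ≤ M) → ∫ y, ‖eval y (p * q)‖ ^ 2 ∂ν ≤ θ * M ^ 2) →
      -(c * (m : ℝ) ^ (n + 1)) < Fintype.card (I n j) * Real.log θ := by
    intro m k j p θ hm p0 hp hkj θ0 hθ
    obtain ⟨a1, a2, a3⟩ := hm1 m hm
    have m0 : (0 : ℝ) < m := by exact_mod_cast a3
    have N0 : (0 : ℝ) < Fintype.card (I n m) := by exact_mod_cast card_pos n m
    have h1 := Real.log_le_log a2 (Z_sub hK h.ne hν (Vpos m) p p0 hp hkj θ hθ)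
    have := Vpos m
    rw [Real.log_mul (by positivity) (by positivity), Real.log_mul (by positivity) (by positivity),
      Real.log_mul (by positivity) (by positivity), Real.log_pow, Real.log_pow, Real.log_pow,
      Real.log_pow, Real.log_mul (by positivity) (by positivity), Real.log_pow] at h1
    have h2 := log_fact (Fintype.card (I n m))
    have h3 := mul_lt_mul_of_pos_right a1 (show (0 : ℝ) < (m : ℝ) ^ (n + 1) by positivity)
    have e : (Real.log (ZZ ν m) / (m : ℝ) ^ (n + 1) - 2 * (Real.log (VV K m) / (m : ℝ) ^ (n + 1)) -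
        (4 * ((Fintype.card (I n m) : ℝ) * Real.log (Fintype.card (I n m) : ℝ) / (m : ℝ) ^ (n + 1)) +
          (Fintype.card (I n m) : ℝ) / (m : ℝ) ^ (n + 1) * Real.log ν₁)) * (m : ℝ) ^ (n + 1) =
        Real.log (ZZ ν m) - 2 * Real.log (VV K m) -
        (4 * ((Fintype.card (I n m) : ℝ) * Real.log (Fintype.card (I n m) : ℝ)) +
          (Fintype.card (I n m) : ℝ) * Real.log ν₁) := by
      field_simp
    rw [e] at h3
    push_cast at h1
    linarith
  have I0 : ∀ p : MvPolynomial (Fin n) ℂ, 0 ≤ ∫ y, ‖eval y p‖ ^ 2 ∂ν := fun p =>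
    integral_nonneg fun _ => by positivity
  have gen : ∀ (p : MvPolynomial (Fin n) ℂ) (x : Fin n → ℂ) (T : ℝ), 0 < T →
      T * ∫ y, ‖eval y p‖ ^ 2 ∂ν < ‖eval x p‖ ^ 2 →
      p ≠ 0 ∧ 0 < ‖eval x p‖ ∧ ∫ y, ‖eval y p‖ ^ 2 ∂ν ≤ T⁻¹ * ‖eval x p‖ ^ 2 := by
    intro p x T T0 hT
    have a1 : 0 < ‖eval x p‖ ^ 2 := lt_of_le_of_lt (mul_nonneg T0.le (I0 p)) hT
    have a2 : 0 < ‖eval x p‖ := lt_of_le_of_ne (norm_nonneg _) fun h0 => by simp [← h0] at a1
    refine ⟨by rintro rfl; simp at a2, a2, ?_⟩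
    rw [inv_mul_eq_div, le_div_iff₀ T0]
    linarith
  have C1 : 1 ≤ Real.exp (c * (m1 : ℝ) ^ (n + 1)) := Real.one_le_exp (by positivity)
  refine ⟨Real.exp (c * (m1 : ℝ) ^ (n + 1)), fun k p hp x hx => ?_⟩
  have E1 : 1 ≤ (1 + ε) ^ (2 * k) := one_le_pow₀ (by linarith)
  rcases le_total k m1 with hk | hk
  · refine le_trans ?_ (mul_le_mul_of_nonneg_right (le_mul_of_one_le_right (by positivity) E1) (I0 p))
    by_contra hc'
    obtain ⟨p0, a0, a1⟩ := gen p x _ (Real.exp_pos _) (not_le.1 hc')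
    have := key m1 k 0 p _ le_rfl p0 hp hk (inv_pos.2 (Real.exp_pos (c * (m1 : ℝ) ^ (n + 1)))) (by
      intro q hq M hM
      have := theta hK hν p q _ _ 1 M a0 one_pos a1 (by
        intro y _
        have := hM x hx
        rw [totalDegree_eq_zero_iff_eq_C.1 (Nat.le_zero.1 hq)] at this ⊢
        simpa using this)
      simpa using this)
    rw [Real.log_inv, Real.log_exp] at this
    have N1 : (1 : ℝ) ≤ Fintype.card (I n 0) := by exact_mod_cast card_pos n 0
    have : 0 ≤ c * (m1 : ℝ) ^ (n + 1) := by positivity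
    nlinarith
  · refine le_trans ?_ (mul_le_mul_of_nonneg_right (le_mul_of_one_le_left (by positivity) C1) (I0 p))
    by_contra hc'
    obtain ⟨p0, a0, a1⟩ := gen p x _ (by positivity) (not_le.1 hc')
    have jk : k / r ≤ k := Nat.div_le_self _ _
    have jr : ((k / r : ℕ) : ℝ) * r ≤ k := by exact_mod_cast Nat.div_mul_le_self k r
    have m2 : ((k + k / r : ℕ) : ℝ) ≤ 2 * k := by exact_mod_cast (by omega : k + k / r ≤ 2 * k)
    have := key (k + k / r) k (k / r) p (Real.exp (-(k * δ))) (hk.trans (Nat.le_add_right _ _)) p0 hp le_rfl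
      (Real.exp_pos _) (by
      intro q hq M hM
      refine (theta hK hν p q _ _ ((ρ / 2) ^ (k / r) / Real.exp ((k + k / r : ℕ) * (δ / 8))) M a0
        (by positivity) a1 (fun y hy => ?_)).trans (mul_le_mul_of_nonneg_right ?_ (sq_nonneg _))
      · rw [← mul_div_assoc, div_le_iff₀ (Real.exp_pos _)]
        exact hρ k (k / r) p q hp hq M hM x hx y hy
      · rw [← Real.log_le_iff_le_exp (by positivity), Real.log_div (by positivity) (by positivity),
          Real.log_inv, Real.log_pow, Real.log_pow, Real.log_div (by positivity) (by positivity),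
          Real.log_pow, Real.log_exp, ← hδ]
        have b1 : ((k / r : ℕ) : ℝ) * (-Real.log (ρ / 2)) ≤ ((k / r : ℕ) : ℝ) * (r * (δ / 4)) :=
          mul_le_mul_of_nonneg_left hr (by positivity)
        have b2 := mul_le_mul_of_nonneg_right jr δ0.le
        have b3 := mul_le_mul_of_nonneg_right m2 δ0.le
        push_cast at b3 ⊢
        nlinarith)
    rw [Real.log_exp] at this
    have d1 : k ^ n ≤ (r * n) ^ n * Fintype.card (I n (k / r)) := by
      refine le_trans ?_ (Nat.mul_le_mul_left _ (card_ge (n := n) (k / r)))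
      rw [← mul_pow]
      apply Nat.pow_le_pow_left
      have e1 := Nat.lt_mul_div_succ k (show 0 < r by omega)
      have e2 := Nat.lt_mul_div_succ (k / r) (show 0 < n by omega)
      have e3 := Nat.mul_le_mul_left r (Nat.succ_le_of_lt e2)
      rw [mul_assoc]
      exact e1.le.trans e3
    have d2 : (k : ℝ) ^ n ≤ ((r : ℝ) * n) ^ n * Fintype.card (I n (k / r)) := by exact_mod_cast d1
    have d3 : c * ((k + k / r : ℕ) : ℝ) ^ (n + 1) ≤ Fintype.card (I n (k / r)) * (k * δ) := by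
      calc _ ≤ c * (2 * k) ^ (n + 1) :=
            mul_le_mul_of_nonneg_left (pow_le_pow_left₀ (by positivity) m2 _) c0.le
        _ = (k : ℝ) ^ n / ((r : ℝ) * n) ^ n * (k * δ) := by
            rw [hc, mul_pow]; field_simp; ring
        _ ≤ _ := by
            refine mul_le_mul_of_nonneg_right ?_ (by positivity)
            rw [div_le_iff₀ (by positivity), mul_comm]
            exact d2
    linarith

theorem final (hn : 1 ≤ n) (hK : IsCompact K) (hV : Continuous V) (h : Reg K V) (hν : ν Kᶜ = 0) :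
    (∀ ε : ℝ, 0 < ε → ∃ C : ℝ, ∀ (k : ℕ) (p : MvPolynomial (Fin n) ℂ), p.totalDegree ≤ k →
        ∀ x ∈ K, ‖eval x p‖ ^ 2 ≤ C * (1 + ε) ^ (2 * k) * ∫ y, ‖eval y p‖ ^ 2 ∂ν) ↔
    ∃ d : ℝ, Tendsto (fun k : ℕ => VV K k ^ ((1 : ℝ) / ll n k)) atTop (𝓝 d) ∧
      Tendsto (fun k : ℕ => ZZ ν k ^ ((1 : ℝ) / (2 * ll n k))) atTop (𝓝 d) := by
  obtain ⟨Vpos, γ, hγ⟩ := V_conv h hV hK hn
  obtain ⟨l, l0, hl⟩ := ll_conv hn
  have hP : ∀ᶠ k : ℕ in atTop, (k : ℝ) ^ (n + 1) ≠ 0 := by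
    filter_upwards [eventually_ge_atTop 1] with k hk
    have k0 : (0 : ℝ) < k := by exact_mod_cast hk
    positivity
  have hl2 : Tendsto (fun k : ℕ => 2 * ll n k / (k : ℝ) ^ (n + 1)) atTop (𝓝 (2 * l)) :=
    (hl.const_mul 2).congr fun k => by ring
  have t1 := rp _ _ _ γ l l0 hP (Eventually.of_forall Vpos) hγ hl
  constructor
  · intro hb
    obtain ⟨Zpos, hZ⟩ := fwd hK h.ne hν Vpos γ hγ hb
    refine ⟨_, t1, ?_⟩
    have := rp _ _ _ (2 * γ) (2 * l) (by positivity) hP (Eventually.of_forall Zpos) hZ hl2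
    rwa [mul_div_mul_left _ _ two_ne_zero] at this
  · rintro ⟨d, d1, d2⟩
    have e := tendsto_nhds_unique d1 t1
    subst e
    obtain ⟨Zpos, hZ⟩ := rp_inv _ _ _ _ (2 * l) (by positivity) (Real.exp_pos _)
      (fun k => Z_nonneg) d2 hl2
    rw [Real.log_exp, show γ / l * (2 * l) = 2 * γ by field_simp] at hZ
    exact bwd h hV hK hn hν Vpos γ hγ Zpos hZ

end Pool.Agent.H15.BM
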