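import Mathlib

set_option autoImplicit false

namespace Pool.Agent.H15.BR

open Set Cardinal

def Mono (G : Set (ℝ × ℝ)) : Prop := ∀ p ∈ G, ∀ q ∈ G, 0 ≤ (p.1 - q.1) * (p.2 - q.2)

theorem Mono.closure {G : Set (ℝ × ℝ)} (h : Mono G) : Mono (closure G) := by
  intro p hp q hq
  have h1 : (p, q) ∈ _root_.closure (G ×ˢ G) := by rw [closure_prod_eq]; exact ⟨hp, hq⟩
  have h2 : IsClosed {w : (ℝ × ℝ) × (ℝ × ℝ) | 0 ≤ (w.1.1 - w.2.1) * (w.1.2 - w.2.2)} :=
    isClosed_le continuous_const (by fun_prop)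
  exact closure_minimal (fun w hw => h _ hw.1 _ hw.2) h2 h1

theorem exists_seq (G : Set (ℝ × ℝ)) (h : Mono G) :
    ∃ d : ℕ → ℝ × ℝ, G ⊆ closure (range d) ∧ Mono (closure (range d)) := by
  obtain ⟨t, h1, h2, h3⟩ :=
    (TopologicalSpace.IsSeparable.of_separableSpace G).exists_countable_dense_subset
  rcases t.eq_empty_or_nonempty with rfl | hne
  · refine ⟨fun _ => (0, 0), h3.trans (by simp), Mono.closure ?_⟩
    rintro _ ⟨_, rfl⟩ _ ⟨_, rfl⟩
    simp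
  · obtain ⟨d, rfl⟩ := h2.exists_eq_range hne
    exact ⟨d, h3, Mono.closure fun p hp q hq => h p (h1 hp) q (h1 hq)⟩

theorem bad_countable (G : Set (ℝ × ℝ)) (h : Mono G) :
    {x | ∃ y y', y ≠ y' ∧ (x, y) ∈ G ∧ (x, y') ∈ G}.Countable := by
  have : {x | ∃ y y', y ≠ y' ∧ (x, y) ∈ G ∧ (x, y') ∈ G} ⊆
      ⋃ q : ℚ, {x | ∃ y y' : ℝ, y < q ∧ (q:ℝ) < y' ∧ (x, y) ∈ G ∧ (x, y') ∈ G} := by
    rintro x ⟨y, y', h1, h2, h3⟩
    rcases lt_or_gt_of_ne h1 with k | k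
    · obtain ⟨q, q1, q2⟩ := exists_rat_btwn k
      exact mem_iUnion.2 ⟨q, y, y', q1, q2, h2, h3⟩
    · obtain ⟨q, q1, q2⟩ := exists_rat_btwn k
      exact mem_iUnion.2 ⟨q, y', y, q1, q2, h3, h2⟩
  refine (countable_iUnion fun q => Set.Subsingleton.countable ?_).mono this
  rintro x ⟨y, y', a1, a2, a3, a4⟩ z ⟨w, w', b1, b2, b3, b4⟩
  have k1 := h _ a4 _ b3
  have k2 := h _ a3 _ b4
  simp only at k1 k2
  nlinarith

theorem small_lt (ι : Type) (A : Set ι) (hA : #A < continuum) (κ : Type) [Countable κ] :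
    #(A × A × κ) < continuum := by
  simp only [mk_prod, lift_id]
  exact mul_lt_of_lt aleph0_le_continuum hA (mul_lt_of_lt aleph0_le_continuum hA
    (mk_le_aleph0.trans_lt aleph0_lt_continuum))

theorem far : ∃ X : ℕ × ℕ → Set ℝ, (∀ i, (X i).Nonempty) ∧
    ∀ i (f : ℝ → ℝ) (c : ℝ → ℤ), (∀ x ∈ X i, ∃ j ≠ i, f x ∈ X j) →
      (∀ x ∈ X i, ∀ y ∈ X i, c x = c y → x < y → f x < f y) → False := by
  classical
  let ι := continuum.{0}.ord.ToType
  have cι : #ι = continuum := mk_ord_toType _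
  have sm : ∀ i : ι, #(Iio i) < continuum := fun i => by simpa [ι] using mk_Iio_lt i
  obtain ⟨D⟩ : Nonempty (ι ≃ (ℤ → ℕ → ℝ × ℝ)) := by
    rw [← Cardinal.eq, cι]; simp [mk_real]
  obtain ⟨L⟩ : Nonempty (ι ≃ (ℕ × ℕ) × ℝ) := by
    rw [← Cardinal.eq, cι]; simp [mk_real]
  let G : ι → ℤ → Set (ℝ × ℝ) := fun α k => closure (range (D α k))
  let u1 : ι → ℤ → ℝ → ℝ := fun α k x => if h : ∃ y, (x, y) ∈ G α k then h.choose else 0
  let u2 : ι → ℤ → ℝ → ℝ := fun α k x => if h : ∃ y, (y, x) ∈ G α k then h.choose else 0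
  have step : ∀ (β : ι) (prev : ∀ γ, γ < β → ℝ), ∃ y : ℝ, ∀ γ (hγ : γ < β), y ≠ prev γ hγ ∧
      ∀ α < β, ∀ k, y ≠ u1 α k (prev γ hγ) ∧ y ≠ u2 α k (prev γ hγ) := by
    intro β prev
    let F : Iio β × Iio β × (ℤ × Fin 3) → ℝ := fun w =>
      ![prev w.2.1.1 w.2.1.2, u1 w.1.1 w.2.2.1 (prev w.2.1.1 w.2.1.2),
        u2 w.1.1 w.2.2.1 (prev w.2.1.1 w.2.1.2)] w.2.2.2
    have : ¬ Function.Surjective F := fun h => by
      have h1 := mk_le_of_surjective h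
      rw [mk_real] at h1
      exact absurd (small_lt ι (Iio β) (sm β) (ℤ × Fin 3)) (not_lt.2 h1)
    unfold Function.Surjective at this
    push Not at this
    obtain ⟨y, hy⟩ := this
    exact ⟨y, fun γ hγ => ⟨(hy (⟨γ, hγ⟩, ⟨γ, hγ⟩, 0, 0)).symm, fun α hα k =>
      ⟨(hy (⟨α, hα⟩, ⟨γ, hγ⟩, k, 1)).symm, (hy (⟨α, hα⟩, ⟨γ, hγ⟩, k, 2)).symm⟩⟩⟩
  choose nx hnx using step
  let x : ι → ℝ := (wellFounded_lt (α := ι)).fix nx
  have hx : ∀ β, x β = nx β (fun γ _ => x γ) := fun β => WellFounded.fix_eq _ _ _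
  have hx' : ∀ β γ, γ < β → x β ≠ x γ ∧
      ∀ α < β, ∀ k, x β ≠ u1 α k (x γ) ∧ x β ≠ u2 α k (x γ) := fun β γ h => by
    rw [hx β]; exact hnx β (fun γ _ => x γ) γ h
  have inj : Function.Injective x := fun β γ h => by
    rcases lt_trichotomy β γ with k | k | k
    · exact absurd h.symm (hx' γ β k).1
    · exact k
    · exact absurd h (hx' β γ k).1
  refine ⟨fun i => x '' {β | (L β).1 = i}, fun i => ⟨_, L.symm (i, 0), by simp, rfl⟩, ?_⟩
  intro i f c h1 h2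
  let Γ : ℤ → Set (ℝ × ℝ) := fun k => {p | p.1 ∈ x '' {β | (L β).1 = i} ∧ c p.1 = k ∧ p.2 = f p.1}
  have mΓ : ∀ k, Mono (Γ k) := by
    rintro k ⟨a, a'⟩ ⟨a1, a2, a3⟩ ⟨b, b'⟩ ⟨b1, b2, b3⟩
    simp only at a1 a2 a3 b1 b2 b3
    subst a3 b3
    rcases lt_trichotomy a b with h | h | h
    · have := h2 a a1 b b1 (a2.trans b2.symm) h
      simp only; nlinarith
    · simp [h]
    · have := h2 b b1 a a1 (b2.trans a2.symm) h
      simp only; nlinarith
  choose d hd1 hd2 using fun k => exists_seq (Γ k) (mΓ k)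
  let α := D.symm d
  have eG : ∀ k, G α k = closure (range (d k)) := fun k => by simp [G, α]
  let B1 : ℤ → Set ℝ := fun k => {z | ∃ y y', y ≠ y' ∧ (z, y) ∈ G α k ∧ (z, y') ∈ G α k}
  let B2 : ℤ → Set ℝ := fun k => {z | ∃ y y', y ≠ y' ∧ (y, z) ∈ G α k ∧ (y', z) ∈ G α k}
  have c1 : ∀ k, (B1 k).Countable := fun k => bad_countable _ (eG k ▸ hd2 k)
  have c2 : ∀ k, (B2 k).Countable := fun k =>
    bad_countable {p | (p.2, p.1) ∈ G α k} (fun p hp q hq => by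
      have := (eG k ▸ hd2 k : Mono (G α k)) _ hp _ hq
      simp only at this
      linarith)
  have c3 : ∀ k, {z | z ∈ x '' {β | (L β).1 = i} ∧ c z = k ∧ f z ∈ B2 k}.Countable := fun k =>
    MapsTo.countable_of_injOn (f := f) (fun z hz => hz.2.2) (by
      rintro a ⟨a1, a2, _⟩ b ⟨b1, b2, _⟩ h
      rcases lt_trichotomy a b with j | j | j
      · exact absurd h (h2 a a1 b b1 (a2.trans b2.symm) j).ne
      · exact j
      · exact absurd h (h2 b b1 a a1 (b2.trans a2.symm) j).ne') (c2 k)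
  let Bad : Set ι := x ⁻¹' (⋃ k, B1 k ∪ {z | z ∈ x '' {β | (L β).1 = i} ∧ c z = k ∧ f z ∈ B2 k})
  have cB : Bad.Countable :=
    (countable_iUnion fun k => (c1 k).union (c3 k)).preimage_of_injOn inj.injOn
  have sub : {β | (L β).1 = i} ⊆ Iio α ∪ insert α Bad := by
    intro β hβ
    rcases lt_trichotomy β α with h | h | h
    · exact Or.inl h
    · exact Or.inr (Or.inl h)
    refine Or.inr (Or.inr ?_)
    have m : x β ∈ x '' {β | (L β).1 = i} := ⟨β, hβ, rfl⟩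
    obtain ⟨j, hj, γ, hγ, e⟩ := h1 _ m
    have g : (x β, x γ) ∈ G α (c (x β)) := by
      rw [eG]; exact hd1 _ ⟨m, rfl, e⟩
    refine mem_iUnion.2 ⟨c (x β), ?_⟩
    rcases lt_trichotomy β γ with k | k | k
    · left
      have ex : ∃ y, (x β, y) ∈ G α (c (x β)) := ⟨_, g⟩
      refine ⟨x γ, ex.choose, ?_, g, ex.choose_spec⟩
      have := ((hx' γ β k).2 α (h.trans k) (c (x β))).1
      simpa only [u1, dif_pos ex] using this
    · exact absurd ((show (L γ).1 = j from hγ).symm.trans (k ▸ hβ)) hj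
    · right
      have ex : ∃ y, (y, x γ) ∈ G α (c (x β)) := ⟨_, g⟩
      refine ⟨m, rfl, x β, ex.choose, ?_, e ▸ g, e ▸ ex.choose_spec⟩
      have := ((hx' β γ k).2 α h (c (x β))).2
      simpa only [u2, dif_pos ex] using this
  have big : continuum ≤ #{β | (L β).1 = i} := by
    rw [← mk_real]
    exact mk_le_of_injective (f := fun r : ℝ => (⟨L.symm (i, r), by simp⟩ : {β | (L β).1 = i}))
      (fun a b h => by simpa using h)
  have := (mk_le_mk_of_subset sub).trans (mk_union_le _ _)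
  exact absurd (add_lt_of_lt aleph0_le_continuum (sm α)
    ((le_aleph0_iff_set_countable.2 (cB.insert α)).trans_lt aleph0_lt_continuum))
    (not_lt.2 (big.trans this))

end Pool.Agent.H15.BR
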