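import Mathlib
import Pool.Agent.H15.BR1

set_option autoImplicit false

namespace Pool.Agent.H15.BR

open Set

/-- blocks: at position `p ≥ 0` with value `m`, and at negative positions -/
def Z (X : ℕ × ℕ → Set ℝ) (p : ℤ) (m : ℕ) : Set ℝ :=
  {x | ∃ j : ℕ × ℕ, x ∈ X j ∧
    ((0 ≤ p ∧ (j.1 : ℤ) = p ∧ j.2 ≤ m) ∨ (p < 0 ∧ (j.1 : ℤ) ≤ -p ∧ (j.2 : ℤ) ≤ -p))}

structure Nd (X : ℕ × ℕ → Set ℝ) where
  s : ℕ →₀ ℕ
  p : ℤ
  x : ℝ
  hs : ∀ n : ℕ, p < n → s n = 0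
  hx : x ∈ Z X p (s p.toNat)

variable {X : ℕ × ℕ → Set ℝ}

theorem Nd.ext' {t u : Nd X} (h1 : t.s = u.s) (h2 : t.p = u.p) (h3 : t.x = u.x) : t = u := by
  cases t; cases u; simp_all

instance : PartialOrder (Nd X) where
  le t u := (∀ n : ℕ, (n : ℤ) ≤ t.p → t.s n = u.s n) ∧ (t.p < u.p ∨ (t.p = u.p ∧ t.x ≤ u.x))
  le_refl t := ⟨fun _ _ => rfl, Or.inr ⟨rfl, le_rfl⟩⟩
  le_trans t u v h k := by
    refine ⟨fun n hn => (h.1 n hn).trans (k.1 n (by rcases h.2 with j | j <;> omega)), ?_⟩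
    rcases h.2 with j | j <;> rcases k.2 with l | l
    · exact Or.inl (by omega)
    · exact Or.inl (by omega)
    · exact Or.inl (by omega)
    · exact Or.inr ⟨j.1.trans l.1, j.2.trans l.2⟩
  le_antisymm t u h k := by
    rcases h.2 with j | j <;> rcases k.2 with l | l
    · omega
    · omega
    · omega
    · refine Nd.ext' (Finsupp.ext fun n => ?_) j.1 (le_antisymm j.2 l.2)
      by_cases hn : (n : ℤ) ≤ t.p
      · exact h.1 n hn
      · rw [t.hs n (by omega), u.hs n (by omega)]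

theorem le_def (t u : Nd X) : t ≤ u ↔
    (∀ n : ℕ, (n : ℤ) ≤ t.p → t.s n = u.s n) ∧ (t.p < u.p ∨ (t.p = u.p ∧ t.x ≤ u.x)) := Iff.rfl

def br (X : ℕ × ℕ → Set ℝ) (a : ℕ → ℕ) : Set (Nd X) :=
  {t | ∀ n : ℕ, (n : ℤ) ≤ t.p → t.s n = a n}

theorem le_br {a : ℕ → ℕ} {t u : Nd X} (ht : t ∈ br X a) (hu : u ∈ br X a) :
    t ≤ u ↔ (t.p < u.p ∨ (t.p = u.p ∧ t.x ≤ u.x)) :=
  ⟨fun h => h.2, fun h => ⟨fun n hn => (ht n hn).trans
    (hu n (by rcases h with j | j <;> omega)).symm, h⟩⟩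

theorem br_chain (a : ℕ → ℕ) : IsChain (· ≤ ·) (br X a) := by
  intro t ht u hu _
  simp only [le_br ht hu, le_br hu ht]
  rcases lt_trichotomy t.p u.p with h | h | h
  · exact Or.inl (Or.inl h)
  · rcases le_total t.x u.x with k | k
    · exact Or.inl (Or.inr ⟨h, k⟩)
    · exact Or.inr (Or.inr ⟨h.symm, k⟩)
  · exact Or.inr (Or.inl h)

noncomputable def tr (a : ℕ → ℕ) (p : ℤ) : ℕ →₀ ℕ :=
  Finsupp.onFinset (Finset.range (p + 1).toNat) (fun n => if (n : ℤ) ≤ p then a n else 0)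
    (fun n hn => by
      by_cases h : (n : ℤ) ≤ p
      · simp only [Finset.mem_range]; omega
      · simp [h] at hn)

theorem tr_apply (a : ℕ → ℕ) (p : ℤ) (n : ℕ) : tr a p n = if (n : ℤ) ≤ p then a n else 0 := rfl

theorem Z_congr {p : ℤ} {m m' : ℕ} (h : 0 ≤ p → m ≤ m') : Z X p m ⊆ Z X p m' := by
  rintro x ⟨j, h1, h2 | h2⟩
  · exact ⟨j, h1, Or.inl ⟨h2.1, h2.2.1, h2.2.2.trans (h h2.1)⟩⟩
  · exact ⟨j, h1, Or.inr h2⟩

noncomputable def mk (a : ℕ → ℕ) (p : ℤ) (x : ℝ) (hx : x ∈ Z X p (a p.toNat)) : Nd X :=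
  ⟨tr a p, p, x, fun n hn => by rw [tr_apply, if_neg (by omega)],
    Z_congr (fun h => by rw [tr_apply, if_pos (by omega)]) hx⟩

theorem mk_mem (a : ℕ → ℕ) (p : ℤ) (x : ℝ) (hx : x ∈ Z X p (a p.toNat)) :
    mk a p x hx ∈ br X a := fun n hn => by
  show tr a p n = a n
  rw [tr_apply, if_pos (show (n : ℤ) ≤ p from hn)]

theorem mem_Z {a : ℕ → ℕ} {t : Nd X} (ht : t ∈ br X a) : t.x ∈ Z X t.p (a t.p.toNat) :=
  Z_congr (fun h => (ht _ (by omega)).le) t.hx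

theorem br_max (hne : ∀ i, (X i).Nonempty) (a : ℕ → ℕ) : IsMaxChain (· ≤ ·) (br X a) := by
  refine ⟨br_chain a, fun C hC hsub => Subset.antisymm hsub fun t ht => ?_⟩
  obtain ⟨x, hx⟩ := hne (t.p.toNat + 1, 0)
  have hz : x ∈ Z X (t.p.toNat + 1 : ℕ) (a (((t.p.toNat + 1 : ℕ) : ℤ).toNat)) :=
    ⟨_, hx, Or.inl ⟨by omega, rfl, Nat.zero_le _⟩⟩
  have hu := mk_mem a _ x hz
  have hp : (mk a _ x hz).p = (t.p.toNat + 1 : ℕ) := rfl
  have hle : t ≤ mk a _ x hz := by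
    rcases hC.total ht (hsub hu) with h | h
    · exact h
    · exfalso
      rcases h.2 with j | j <;> omega
  intro n hn
  exact (hle.1 n hn).trans (hu n (by omega))

theorem max_eq_br {C : Set (Nd X)} (hC : IsMaxChain (· ≤ ·) C) : ∃ a, C = br X a := by
  classical
  let a : ℕ → ℕ := fun n => if h : ∃ t ∈ C, (n : ℤ) ≤ t.p then h.choose.s n else 0
  refine ⟨a, hC.2 (br_chain a) fun t ht n hn => ?_⟩
  have h : ∃ t ∈ C, (n : ℤ) ≤ t.p := ⟨t, ht, hn⟩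
  simp only [a, dif_pos h]
  rcases hC.1.total ht h.choose_spec.1 with k | k
  · exact k.1 n hn
  · exact (k.1 n h.choose_spec.2).symm

theorem emb_of_le (a b : ℕ → ℕ) (r : ℕ) (h : ∀ n, r ≤ n → a n ≤ b n) :
    Nonempty (br X a ↪o br X b) := by
  obtain ⟨N, hN⟩ : ∃ N : ℕ, ∀ n < r, a n ≤ N :=
    ⟨(Finset.range r).sup a, fun n hn => Finset.le_sup (f := a) (Finset.mem_range.2 hn)⟩
  let φ : ℤ → ℤ := fun p => if (r : ℤ) ≤ p then p else p - (N + 2 * r + 1)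
  have hφ : StrictMono φ := fun p q hpq => by
    simp only [φ]; split_ifs <;> omega
  have hz : ∀ t : br X a, t.1.x ∈ Z X (φ t.1.p) (b (φ t.1.p).toNat) := by
    intro t
    have := mem_Z t.2
    by_cases k : (r : ℤ) ≤ t.1.p
    · simp only [φ, if_pos k]
      exact Z_congr (fun _ => h _ (by omega)) this
    · simp only [φ, if_neg k]
      obtain ⟨j, h1, h2 | h2⟩ := this
      · have := hN t.1.p.toNat (by omega)
        exact ⟨j, h1, Or.inr ⟨by omega, by omega, by omega⟩⟩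
      · exact ⟨j, h1, Or.inr ⟨by omega, by omega, by omega⟩⟩
  refine ⟨OrderEmbedding.ofMapLEIff (fun t => ⟨mk b _ _ (hz t), mk_mem _ _ _ _⟩) fun t u => ?_⟩
  rw [← Subtype.coe_le_coe, ← Subtype.coe_le_coe, le_br (mk_mem _ _ _ _) (mk_mem _ _ _ _),
    le_br t.2 u.2]
  show (φ t.1.p < φ u.1.p ∨ (φ t.1.p = φ u.1.p ∧ t.1.x ≤ u.1.x)) ↔ _
  rw [hφ.lt_iff_lt, hφ.injective.eq_iff]

theorem not_emb (hne : ∀ i, (X i).Nonempty)
    (hX : ∀ i (f : ℝ → ℝ) (c : ℝ → ℤ), (∀ x ∈ X i, ∃ j ≠ i, f x ∈ X j) →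
      (∀ x ∈ X i, ∀ y ∈ X i, c x = c y → x < y → f x < f y) → False)
    (a b : ℕ → ℕ) (h : ∀ n, a n < b n) : ¬ Nonempty (br X b ↪o br X a) := by
  classical
  rintro ⟨e⟩
  have hz : ∀ (n : ℕ) x, x ∈ X (n, b n) → x ∈ Z X n (b (n : ℤ).toNat) := fun n x hx =>
    ⟨_, hx, Or.inl ⟨by omega, rfl, by simp⟩⟩
  obtain ⟨x0, hx0⟩ := hne (0, b 0)
  let t0 : br X b := ⟨mk b _ x0 (hz 0 x0 hx0), mk_mem _ _ _ _⟩
  let n : ℕ := (e t0).1.p.natAbs + 1
  let g : ∀ x, x ∈ X (n, b n) → br X b := fun x hx => ⟨mk b _ x (hz n x hx), mk_mem _ _ _ _⟩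
  refine hX (n, b n) (fun x => if hx : x ∈ X (n, b n) then (e (g x hx)).1.x else 0)
    (fun x => if hx : x ∈ X (n, b n) then (e (g x hx)).1.p else 0) (fun x hx => ?_)
    (fun x hx y hy hc hxy => ?_)
  · simp only [dif_pos hx]
    have k1 : t0 ≤ g x hx := by
      rw [← Subtype.coe_le_coe, le_br t0.2 (g x hx).2]
      left
      show ((0 : ℕ) : ℤ) < (n : ℤ)
      omega
    have k2 : (e t0).1 ≤ (e (g x hx)).1 := e.monotone k1
    obtain ⟨j, h1, h2⟩ := mem_Z (e (g x hx)).2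
    refine ⟨j, ?_, h1⟩
    rintro rfl
    rcases h2 with h2 | h2
    · have k3 : (e (g x hx)).1.p.toNat = n := by omega
      rw [k3] at h2
      exact absurd (h n) (not_lt.2 h2.2.2)
    · rcases k2.2 with j | j <;> omega
  · simp only [dif_pos hx, dif_pos hy] at hc ⊢
    by_contra k
    have k1 : e (g y hy) ≤ e (g x hx) := by
      rw [← Subtype.coe_le_coe, le_br (e _).2 (e _).2]
      exact Or.inr ⟨hc.symm, not_lt.1 k⟩
    have k2 : (g y hy).1 ≤ (g x hx).1 := e.le_iff_le.1 k1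
    rcases k2.2 with j | j
    · exact lt_irrefl _ j
    · exact absurd hxy (not_lt.2 j.2)

theorem main :
    ¬ (∀ (T : Type) [PartialOrder T],
      (∀ x : T, IsChain (· ≤ ·) {y : T | y < x}) →
      (∃ f : ℕ → Set T, (∀ n, IsChain (· ≤ ·) (f n)) ∧ (⋃ n, f n) = Set.univ) →
      ∀ S : Set (Set T),
        (∀ c ∈ S, IsMaxChain (· ≤ ·) c) →
        IsChain (fun c d : Set T => Nonempty (↥c ↪o ↥d)) S →
        (∀ U : Set (Set T), (∀ c ∈ U, IsMaxChain (· ≤ ·) c) →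
            IsChain (fun c d : Set T => Nonempty (↥c ↪o ↥d)) U → S ⊆ U → U = S) →
        ∃ D : Set (Set T), D ⊆ S ∧ D.Countable ∧
          ∀ c ∈ S, ∃ d ∈ D, Nonempty (↥c ↪o ↥d)) := by
  intro H
  obtain ⟨X, hne, hX⟩ := far
  obtain ⟨S, hS⟩ := zorn_subset {U : Set (Set (Nd X)) | (∀ c ∈ U, IsMaxChain (· ≤ ·) c) ∧
      IsChain (fun c d : Set (Nd X) => Nonempty (↥c ↪o ↥d)) U} (by
    intro c hc1 hc2
    refine ⟨⋃₀ c, ⟨?_, ?_⟩, fun s hs => subset_sUnion_of_mem hs⟩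
    · rintro d ⟨U, hU, hd⟩
      exact (hc1 hU).1 d hd
    · rintro d ⟨U, hU, hd⟩ d' ⟨U', hU', hd'⟩ hne
      rcases hc2.total hU hU' with k | k
      · exact (hc1 hU').2 (k hd) hd' hne
      · exact (hc1 hU).2 hd (k hd') hne)
  obtain ⟨D, hD, cD, cof⟩ := H (Nd X)
    (fun t => (br_chain (X := X) t.s).mono fun u hu => (le_of_lt hu).1)
    (by
      obtain ⟨σ, hσ⟩ := exists_surjective_nat (ℕ →₀ ℕ)
      refine ⟨fun n => br X (σ n), fun n => br_chain _, eq_univ_of_forall fun t => ?_⟩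
      obtain ⟨n, hn⟩ := hσ t.s
      exact mem_iUnion.2 ⟨n, fun m _ => by rw [hn]⟩)
    S hS.prop.1 hS.prop.2
    (fun U h1 h2 h3 => Subset.antisymm (hS.le_of_ge ⟨h1, h2⟩ h3) h3)
  obtain ⟨d, hd⟩ := (cD.insert (br X 0)).exists_eq_range (insert_nonempty _ _)
  have : ∀ k, ∃ a, d k = br X a := fun k => by
    have : d k ∈ insert (br X 0) D := hd ▸ ⟨k, rfl⟩
    rcases this with h | h
    · exact ⟨0, h⟩
    · exact max_eq_br (hS.prop.1 _ (hD h))
  choose a ha using this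
  -- modify so that domination is everywhere strict on the side used
  let b : ℕ → ℕ := fun n => (Finset.range (n + 1)).sup (fun k => a k n) + 1
  have hb : ∀ k n, k ≤ n → a k n < b n := fun k n h => Nat.lt_succ_of_le
    (Finset.le_sup (f := fun k => a k n) (Finset.mem_range.2 (by omega)))
  have up : ∀ c ∈ S, Nonempty (c ↪o br X b) := by
    intro c hc
    obtain ⟨d', h1, ⟨e⟩⟩ := cof c hc
    have : d' ∈ range d := hd ▸ Or.inr h1
    obtain ⟨k, rfl⟩ := this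
    rw [ha k] at e
    obtain ⟨e'⟩ := emb_of_le (X := X) (a k) b k (fun n h => (hb k n h).le)
    exact ⟨e.trans e'⟩
  have mem : br X b ∈ S := hS.le_of_ge (show insert (br X b) S ∈ _ from ⟨by
      rintro c (rfl | hc)
      · exact br_max hne b
      · exact hS.prop.1 c hc, hS.prop.2.insert fun c hc _ => Or.inr (up c hc)⟩)
    (subset_insert _ _) (mem_insert _ _)
  obtain ⟨d', h1, ⟨e⟩⟩ := cof _ mem
  have : d' ∈ range d := hd ▸ Or.inr h1
  obtain ⟨k, rfl⟩ := this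
  rw [ha k] at e
  obtain ⟨e'⟩ := emb_of_le (X := X) (fun n => max (b n) (a k n + 1)) b k (fun n h => by
    have := hb k n h
    omega)
  exact not_emb hne hX (a k) (fun n => max (b n) (a k n + 1)) (fun n => by omega) ⟨e'.trans e⟩

end Pool.Agent.H15.BR
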