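import Mathlib

set_option autoImplicit false

namespace Pool.Agent.H15.BU

open Finset

section cube

variable {M : Type} [CommRing M]

abbrev Cell (m : ℕ) := Fin m → Option Bool

def tau {m : ℕ} (x : Cell m) : Cell m := fun g => (x g).map not

def dim {m : ℕ} (x : Cell m) : ℕ := (univ.filter fun g => x g = none).card

def D {m : ℕ} (ψ : Cell m → M) (x : Cell m) : M :=
  ∑ g, if x g = none then ψ (Function.update x g (some true)) +
    ψ (Function.update x g (some false)) else 0

@[simp] lemma tau_tau {m : ℕ} (x : Cell m) : tau (tau x) = x := by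
  funext g; unfold tau; rcases x g with _ | b <;> simp

lemma tau_none {m : ℕ} (x : Cell m) (g : Fin m) : tau x g = none ↔ x g = none := by
  simp [tau]

@[simp] lemma dim_tau {m : ℕ} (x : Cell m) : dim (tau x) = dim x := by
  simp only [dim, tau_none]

lemma tau_update {m : ℕ} (x : Cell m) (g : Fin m) (b : Bool) :
    tau (Function.update x g (some b)) = Function.update (tau x) g (some !b) := by
  funext j
  by_cases h : j = g
  · subst h; simp [tau]
  · simp [tau, Function.update_of_ne h]

lemma D_tau {m : ℕ} (ψ : Cell m → M) (x : Cell m) : D ψ (tau x) = D (fun y => ψ (tau y)) x := by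
  unfold D
  refine sum_congr rfl fun g _ => ?_
  simp only [tau_none, tau_update, Bool.not_true, Bool.not_false, add_comm]

lemma dim_update {m : ℕ} {x : Cell m} {g : Fin m} (h : x g = none) (b : Bool) :
    dim (Function.update x g (some b)) + 1 = dim x := by
  unfold dim
  rw [← card_erase_add_one (s := univ.filter fun g => x g = none) (a := g) (by simpa using h)]
  congr 2
  ext j
  by_cases hj : j = g
  · subst hj; simp
  · simp [Function.update_of_ne hj, hj]

lemma D_congr {m : ℕ} {ψ ψ' : Cell m → M} {x : Cell m}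
    (h : ∀ y, dim y + 1 = dim x → ψ y = ψ' y) : D ψ x = D ψ' x := by
  unfold D
  refine sum_congr rfl fun g _ => ?_
  split_ifs with hg
  · rw [h _ (dim_update hg _), h _ (dim_update hg _)]
  · rfl

lemma D_add {m : ℕ} (ψ ψ' : Cell m → M) (x : Cell m) :
    D (fun y => ψ y + ψ' y) x = D ψ x + D ψ' x := by
  unfold D
  rw [← sum_add_distrib]
  refine sum_congr rfl fun g _ => ?_
  split_ifs
  · ring
  · simp

lemma D_map {m : ℕ} (A : M →+ M) (ψ : Cell m → M) (x : Cell m) :
    A (D ψ x) = D (fun y => A (ψ y)) x := by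
  unfold D
  rw [map_sum]
  refine sum_congr rfl fun g _ => ?_
  split_ifs <;> simp

lemma D_dim (h2 : (2 : M) = 0) {m : ℕ} (γ : ℕ → M) (x : Cell m) :
    D (fun y => γ (dim y)) x = 0 := by
  refine sum_eq_zero fun g _ => ?_
  split_ifs with hg
  · have h3 := dim_update hg true
    have h4 := dim_update hg false
    dsimp only
    rw [show dim (Function.update x g (some true)) = dim (Function.update x g (some false)) by
      omega, ← two_mul, h2, zero_mul]
  · rfl

lemma sum_symm (h2 : (2 : M) = 0) {ι : Type} [Fintype ι] (G : ι → ι → M)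
    (h : ∀ a b, G a b = G b a) (h0 : ∀ a, G a a = 0) : ∑ a, ∑ b, G a b = 0 := by
  rw [← Fintype.sum_prod_type']
  refine sum_involution (fun p _ => p.swap) ?_ ?_ (fun _ _ => mem_univ _) fun _ _ => rfl
  · intro p _
    simp only [Prod.fst_swap, Prod.snd_swap]
    rw [h p.2, ← two_mul, h2, zero_mul]
  · rintro ⟨a, b⟩ _ h1 h3
    simp only [Prod.swap_prod_mk, Prod.mk.injEq] at h3
    exact h1 (by rw [h3.1]; exact h0 a)

lemma D_D (h2 : (2 : M) = 0) {m : ℕ} (ψ : Cell m → M) (x : Cell m) : D (D ψ) x = 0 := by
  set G : Fin m → Fin m → M := fun g j => if x g = none ∧ x j = none ∧ j ≠ g then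
    ∑ b, ∑ c, ψ (Function.update (Function.update x g (some b)) j (some c)) else 0 with hG
  rw [← sum_symm h2 G ?_ fun a => by simp [hG]]
  · unfold D
    refine sum_congr rfl fun g _ => ?_
    split_ifs with hg
    · rw [← sum_add_distrib]
      refine sum_congr rfl fun j _ => ?_
      by_cases hj : j = g
      · subst hj; simp [hG]
      · simp only [hG, Function.update_of_ne hj, hg, hj, ne_eq, not_false_eq_true, and_true,
          true_and, Fintype.sum_bool]
        split_ifs <;> simp
    · simp [hG, hg]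
  · intro a b
    simp only [hG]
    by_cases hab : b = a
    · rw [hab]
    · rw [sum_comm]
      simp only [Function.update_comm hab, ne_eq, hab, Ne.symm hab, not_false_eq_true, and_true]
      simp only [and_comm]

def hemi : (m : ℕ) → ℕ → Multiset (Cell m)
  | 0, 0 => {fun g => g.elim0}
  | 0, _ + 1 => 0
  | m + 1, 0 => (hemi m 0).map (Fin.cons (some true))
  | m + 1, i + 1 => (hemi m (i + 1)).map (Fin.cons (some true)) +
      (hemi m i).map fun l => Fin.cons none (tau l)

def P (m i : ℕ) (ψ : Cell m → M) : M := ((hemi m i).map ψ).sum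

lemma dim_cons {m : ℕ} (a : Option Bool) (l : Cell m) :
    dim (Fin.cons a l : Cell (m + 1)) = dim l + if a = none then 1 else 0 := by
  simp only [dim, card_filter, Fin.sum_univ_succ, Fin.cons_zero, Fin.cons_succ, add_comm]

lemma dim_hemi : ∀ (m i : ℕ), ∀ x ∈ hemi m i, dim x = i
  | 0, 0 => fun x _ => by simp [dim]
  | 0, _ + 1 => fun x hx => by simp [hemi] at hx
  | m + 1, 0 => fun x hx => by
    obtain ⟨l, hl, rfl⟩ := Multiset.mem_map.mp hx
    simp [dim_cons, dim_hemi m 0 l hl]
  | m + 1, i + 1 => fun x hx => by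
    rcases Multiset.mem_add.mp hx with hx | hx <;> obtain ⟨l, hl, rfl⟩ := Multiset.mem_map.mp hx
    · simp [dim_cons, dim_hemi m (i + 1) l hl]
    · simp [dim_cons, dim_hemi m i l hl]

lemma P_congr {m i : ℕ} {ψ ψ' : Cell m → M} (h : ∀ x, dim x = i → ψ x = ψ' x) :
    P m i ψ = P m i ψ' := by
  unfold P
  rw [Multiset.map_congr rfl fun x hx => h x (dim_hemi m i x hx)]

lemma P_add {m i : ℕ} (ψ ψ' : Cell m → M) :
    P m i (fun x => ψ x + ψ' x) = P m i ψ + P m i ψ' := Multiset.sum_map_add

lemma P_map {m i : ℕ} (A : M →+ M) (ψ : Cell m → M) :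
    A (P m i ψ) = P m i fun x => A (ψ x) := by
  unfold P
  rw [map_multiset_sum, Multiset.map_map]; rfl

lemma P_const (c : M) : ∀ m, P m 0 (fun _ => c) = c
  | 0 => by simp [P, hemi]
  | m + 1 => by
    have := P_const c m
    simpa [P, hemi] using this

lemma P_zero (m : ℕ) (ψ : Cell (m + 1) → M) :
    P (m + 1) 0 ψ = P m 0 fun l => ψ (Fin.cons (some true) l) := by
  simp only [P, hemi, Multiset.map_map]; rfl

lemma P_succ (m i : ℕ) (ψ : Cell (m + 1) → M) :
    P (m + 1) (i + 1) ψ = P m (i + 1) (fun l => ψ (Fin.cons (some true) l)) +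
      P m i fun l => ψ (Fin.cons none (tau l)) := by
  simp only [P, hemi, Multiset.map_add, Multiset.sum_add, Multiset.map_map]; rfl

lemma D_cons {m : ℕ} (ψ : Cell (m + 1) → M) (a : Option Bool) (l : Cell m) :
    D ψ (Fin.cons a l) = (if a = none then ψ (Fin.cons (some true) l) +
      ψ (Fin.cons (some false) l) else 0) + D (fun y => ψ (Fin.cons a y)) l := by
  simp only [D, Fin.sum_univ_succ, Fin.cons_zero, Fin.cons_succ, Fin.update_cons_zero,
    Fin.cons_update]

lemma tau_cons {m : ℕ} (a : Option Bool) (l : Cell m) :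
    tau (Fin.cons a l : Cell (m + 1)) = Fin.cons (a.map not) (tau l) := by
  funext g
  refine Fin.cases ?_ (fun j => ?_) g <;> simp [tau]

lemma P_D0 {m : ℕ} (ψ : Cell m → M) : P m 0 (D ψ) = 0 := by
  rw [P_congr (ψ' := fun _ => 0), P_const]
  intro x hx
  refine sum_eq_zero fun g _ => if_neg fun h => ?_
  have := dim_update h true
  omega

lemma P_D (h2 : (2 : M) = 0) : ∀ (m i : ℕ) (ψ : Cell m → M),
    P m (i + 1) (D ψ) = P m i ψ + P m i fun x => ψ (tau x)
  | 0, 0, ψ => by
    simp only [P, hemi, Multiset.map_zero, Multiset.sum_zero, Multiset.map_singleton,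
      Multiset.sum_singleton]
    rw [Subsingleton.elim (tau _) fun g => g.elim0, ← two_mul, h2, zero_mul]
  | 0, i + 1, ψ => by simp [P, hemi]
  | m + 1, i, ψ => by
    rw [P_succ]
    simp only [D_cons, reduceCtorEq, if_false, if_true, zero_add, P_add, D_tau]
    have h3 := P_D h2 m i fun y => ψ (Fin.cons (some true) y)
    change P m (i + 1) (D fun y => ψ (Fin.cons (some true) y)) + (_ + _ +
      P m i (D fun y => ψ (Fin.cons none (tau y)))) = _
    rcases i with _ | j
    · rw [h3, P_D0, P_zero, P_zero]
      simp only [tau_cons, Option.map_some, Bool.not_true]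
      linear_combination (P m 0 fun x => ψ (Fin.cons (some true) (tau x))) * h2
    · rw [h3, P_D h2 m j, P_succ, P_succ]
      simp only [tau_cons, Option.map_some, Bool.not_true, Option.map_none]
      linear_combination (P m (j + 1) fun x => ψ (Fin.cons (some true) (tau x))) * h2

end cube

end Pool.Agent.H15.BU
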