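import Mathlib
import Pool.Agent.H15.BU1

set_option autoImplicit false

namespace Pool.Agent.H15.BU

open Finset

variable {n : ℕ}

abbrev Lab (n : ℕ) := Fin n × Bool
abbrev Ch (n : ℕ) := Finset (Lab n) → ZMod 2

def ng (p : Lab n) : Lab n := (p.1, !p.2)

@[simp] lemma ng_ng (p : Lab n) : ng (ng p) = p := by simp [ng]

lemma ng_inj : Function.Injective (ng : Lab n → Lab n) :=
  Function.LeftInverse.injective ng_ng

lemma two_eq : (2 : Ch n) = 0 := by funext σ; rfl

def bd : Ch n →+ Ch n where
  toFun z ρ := ∑ v, if v ∈ ρ then 0 else z (insert v ρ)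
  map_zero' := by funext ρ; simp
  map_add' z w := by
    funext ρ
    simp only [Pi.add_apply, ← sum_add_distrib]
    refine sum_congr rfl fun v _ => ?_
    split_ifs <;> simp

lemma bd_apply (z : Ch n) (ρ : Finset (Lab n)) :
    bd z ρ = ∑ v, if v ∈ ρ then 0 else z (insert v ρ) := rfl

def tc : Ch n →+ Ch n where
  toFun z σ := z (σ.image ng)
  map_zero' := rfl
  map_add' _ _ := rfl

lemma tc_apply (z : Ch n) (σ : Finset (Lab n)) : tc z σ = z (σ.image ng) := rfl

lemma image_ng_ng (σ : Finset (Lab n)) : (σ.image ng).image ng = σ := by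
  rw [image_image]; simp [Function.comp_def]

lemma mem_image_ng {σ : Finset (Lab n)} {p : Lab n} : p ∈ σ.image ng ↔ ng p ∈ σ := by
  rw [mem_image]
  exact ⟨fun ⟨q, hq, h⟩ => by rw [← h, ng_ng]; exact hq, fun h => ⟨_, h, ng_ng p⟩⟩

lemma tc_tc (z : Ch n) : tc (tc z) = z := by
  funext σ; rw [tc_apply, tc_apply, image_ng_ng]

lemma bd_tc (z : Ch n) : bd (tc z) = tc (bd z) := by
  funext ρ
  rw [tc_apply, bd_apply, bd_apply,
    ← Equiv.sum_comp (Function.Involutive.toPerm ng ng_ng)]
  refine sum_congr rfl fun v _ => ?_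
  simp only [Function.Involutive.coe_toPerm, mem_image_ng, tc_apply, image_insert, ng_ng]

lemma bd_bd (z : Ch n) : bd (bd z) = 0 := by
  funext ρ
  rw [Pi.zero_apply, ← sum_symm (M := ZMod 2) rfl (fun v u => if v ∉ ρ ∧ u ∉ ρ ∧ u ≠ v then
    z (insert u (insert v ρ)) else 0) ?_ fun a => by simp, bd_apply]
  · refine sum_congr rfl fun v _ => ?_
    split_ifs with hv
    · simp [hv]
    · rw [bd_apply]
      refine sum_congr rfl fun u _ => ?_
      by_cases h1 : u = v <;> by_cases h2 : u ∈ ρ <;> simp [h1, h2, hv]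
  · intro a b
    rw [insert_comm]
    exact if_congr (by tauto) rfl rfl

def cone (v : Lab n) (z : Ch n) : Ch n := fun σ => if v ∈ σ then z (σ.erase v) else 0

lemma bd_cone (v : Lab n) (z : Ch n) (hz : bd z = 0) : bd (cone v z) = z := by
  funext ρ
  rw [bd_apply]
  by_cases hv : v ∈ ρ
  · have h1 := congrFun hz (ρ.erase v)
    rw [bd_apply, ← add_sum_erase _ _ (mem_univ v), if_neg (notMem_erase _ _), insert_erase hv,
      Pi.zero_apply] at h1
    rw [← add_sum_erase _ _ (mem_univ v), if_pos hv, zero_add]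
    rw [CharTwo.add_eq_zero.mp h1]
    refine sum_congr rfl fun u hu => ?_
    have h2 := ne_of_mem_erase hu
    simp only [mem_erase, ne_eq, h2, not_false_eq_true, true_and, cone, mem_insert, hv, or_true,
      if_true, erase_insert_of_ne h2]
  · rw [sum_eq_single v]
    · simp [cone, hv, erase_insert hv]
    · intro u _ hu
      simp [cone, hv, hu.symm]
    · intro h; exact absurd (mem_univ _) h

def Good (L : Set (Lab n)) (k : ℕ) (σ : Finset (Lab n)) : Prop :=
  (∀ p ∈ σ, p ∈ L ∧ ng p ∉ σ) ∧ σ.card = k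

def Supp (L : Set (Lab n)) (k : ℕ) (z : Ch n) : Prop := ∀ σ, z σ ≠ 0 → Good L k σ

lemma Supp.add {L : Set (Lab n)} {k : ℕ} {z w : Ch n} (h : Supp L k z) (h' : Supp L k w) :
    Supp L k (z + w) := by
  intro σ hσ
  by_cases h1 : z σ = 0
  · exact h' σ (by simpa [h1] using hσ)
  · exact h σ h1

lemma Supp.zero (L : Set (Lab n)) (k : ℕ) : Supp L k 0 := fun _ h => absurd rfl h

lemma Supp.mono {L L' : Set (Lab n)} {k : ℕ} {z : Ch n} (h : Supp L k z) (hL : L ⊆ L') :
    Supp L' k z := fun σ hσ => ⟨fun p hp => ⟨hL ((h σ hσ).1 p hp).1, ((h σ hσ).1 p hp).2⟩,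
      (h σ hσ).2⟩

lemma Supp.tc {L : Set (Lab n)} {k : ℕ} {z : Ch n} (h : Supp L k z) :
    Supp (ng ⁻¹' L) k (tc z) := by
  intro σ hσ
  obtain ⟨h1, h2⟩ := h _ hσ
  refine ⟨fun p hp => ?_, by rwa [card_image_of_injective _ ng_inj] at h2⟩
  have := h1 (ng p) (mem_image_of_mem _ hp)
  rw [mem_image_ng, ng_ng] at this
  exact this

lemma Supp.bd {L : Set (Lab n)} {k : ℕ} {z : Ch n} (h : Supp L (k + 1) z) : Supp L k (bd z) := by
  intro σ hσ
  rw [bd_apply] at hσ
  obtain ⟨v, -, hv⟩ := exists_ne_zero_of_sum_ne_zero hσ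
  split_ifs at hv with h1
  · exact absurd rfl hv
  · obtain ⟨h2, h3⟩ := h _ hv
    rw [card_insert_of_notMem h1] at h3
    exact ⟨fun p hp => ⟨(h2 p (mem_insert_of_mem hp)).1,
      fun h4 => (h2 p (mem_insert_of_mem hp)).2 (mem_insert_of_mem h4)⟩, by omega⟩

lemma fill {L : Set (Lab n)} {k : ℕ} (hL : (∃ v ∈ L, ng v ∉ L) ∨ ∀ σ, ¬ Good L k σ) {z : Ch n}
    (h : Supp L k z) (hz : bd z = 0) : ∃ w, Supp L (k + 1) w ∧ bd w = z := by
  rcases hL with ⟨v, hv, hv'⟩ | hL
  · refine ⟨cone v z, fun σ hσ => ?_, bd_cone v z hz⟩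
    unfold cone at hσ
    split_ifs at hσ with h1
    · obtain ⟨h2, h3⟩ := h _ hσ
      have h4 : ∀ p ∈ σ, p ∈ L := fun p hp => by
        by_cases h5 : p = v
        · exact h5 ▸ hv
        · exact (h2 p (mem_erase.mpr ⟨h5, hp⟩)).1
      refine ⟨fun p hp => ⟨h4 p hp, fun h5 => ?_⟩, by rw [← h3, card_erase_add_one h1]⟩
      by_cases h6 : p = v
      · exact hv' (h6 ▸ h4 _ h5)
      · refine (h2 p (mem_erase.mpr ⟨h6, hp⟩)).2 (mem_erase.mpr ⟨fun h7 => hv' ?_, h5⟩)
        rw [← h7, ng_ng]; exact h4 p hp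
    · exact absurd rfl hσ
  · refine ⟨0, Supp.zero _ _, ?_⟩
    rw [map_zero]
    funext σ
    by_contra h1
    exact hL σ (h σ (Ne.symm h1))

lemma split {k : ℕ} {u : Ch n} (h : Supp Set.univ (k + 1) u) (hu : u + tc u = 0) :
    ∃ e, Supp Set.univ (k + 1) e ∧ u = e + tc e := by
  obtain ⟨enc, henc⟩ := Countable.exists_injective_nat (Finset (Lab n))
  refine ⟨fun σ => if enc σ < enc (σ.image ng) then u σ else 0, fun σ hσ => ?_, ?_⟩
  · exact h σ fun h1 => hσ (by simp [h1])
  · funext σ
    have h1 : u (σ.image ng) = u σ := (CharTwo.add_eq_zero.mp (congrFun hu σ)).symm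
    rw [Pi.add_apply, tc_apply, image_ng_ng, h1]
    rcases lt_trichotomy (enc σ) (enc (σ.image ng)) with h2 | h2 | h2
    · rw [if_pos h2, if_neg h2.not_gt, add_zero]
    · rw [if_neg h2.not_lt, if_neg h2.not_gt, add_zero]
      by_contra h3
      obtain ⟨h4, h5⟩ := h σ h3
      obtain ⟨p, hp⟩ := card_pos.mp (show 0 < σ.card by omega)
      exact (h4 p hp).2 (by rw [henc h2]; exact mem_image_of_mem _ hp)
    · rw [if_neg h2.not_gt, if_pos h2, zero_add]

def e0 : Ch n := fun σ => if σ = ∅ then 1 else 0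

lemma tc_e0 : tc (e0 : Ch n) = e0 := by
  funext σ; simp [tc_apply, e0]

lemma bd_e0 : bd (e0 : Ch n) = 0 := by
  funext σ; simp [bd_apply, e0]

lemma descent (d : ℕ → Ch n) (N : ℕ) (h0 : bd (d 0) = e0)
    (h1 : ∀ i < N, bd (d (i + 1)) = d i + tc (d i)) (h2 : ∀ i ≤ N, Supp Set.univ (i + 1) (d i))
    (h3 : d N = 0) : False := by
  have key : ∀ j i, i + j = N → ∃ e, Supp Set.univ (i + 1) e ∧ bd (d i) = bd e + tc (bd e) := by
    intro j
    induction j with
    | zero => intro i hi; exact ⟨0, Supp.zero _ _, by rw [show i = N by omega, h3]; simp⟩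
    | succ j ih =>
      intro i hi
      obtain ⟨e, he1, he2⟩ := ih (i + 1) (by omega)
      rw [h1 i (by omega)] at he2
      obtain ⟨e', h4, h5⟩ := split ((h2 i (by omega)).add he1.bd) (by
        rw [map_add]; linear_combination he2 + (bd e + tc (bd e)) * two_eq)
      refine ⟨e', h4, ?_⟩
      have := congrArg bd h5
      rwa [map_add, map_add, bd_bd, add_zero, bd_tc] at this
  obtain ⟨e, -, he⟩ := key N 0 (by omega)
  have := congrFun (h0.symm.trans he) ∅
  rw [Pi.add_apply, tc_apply, image_empty, CharTwo.add_self_eq_zero] at this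
  simp [e0] at this

theorem no_carrier {m : ℕ} (hm : 0 < m) (L : Cell m → Set (Lab n))
    (h1 : ∀ x g b, x g = none → L (Function.update x g (some b)) ⊆ L x)
    (h2 : ∀ x, ng ⁻¹' L (tau x) ⊆ L x)
    (h3 : ∀ x, (∃ v ∈ L x, ng v ∉ L x) ∨ ∀ σ, ¬ Good (L x) (dim x) σ)
    (h4 : ∀ x σ, ¬ Good (L x) m σ) : False := by
  obtain ⟨enc, henc⟩ := Countable.exists_injective_nat (Cell m)
  set ι : ℕ → Ch n := fun k => if k = 0 then e0 else 0 with hι
  have key : ∀ k ≤ m, ∃ φ : Cell m → Ch n, ∀ x, dim x < k → φ (tau x) = tc (φ x) ∧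
      bd (φ x) = D φ x + ι (dim x) ∧ Supp (L x) (dim x + 1) (φ x) := by
    intro k
    induction k with
    | zero => exact fun _ => ⟨0, fun x hx => absurd hx (Nat.not_lt_zero _)⟩
    | succ k ih =>
      intro hk
      obtain ⟨φ, hφ⟩ := ih (by omega)
      have hw : ∀ x, ∃ w, dim x = k → Supp (L x) (dim x + 1) w ∧ bd w = D φ x + ι (dim x) := by
        intro x
        by_cases hx : dim x = k
        swap
        · exact ⟨0, fun h => absurd h hx⟩
        refine (fill (h3 x) (z := D φ x + ι (dim x)) (Supp.add ?_ ?_) ?_).imp fun w hw _ => hw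
        · unfold D
          refine sum_induction _ _ (fun a b => Supp.add) (Supp.zero _ _) fun g _ => ?_
          split_ifs with hg
          · have h5 : ∀ b, Supp (L x) (dim x) (φ (Function.update x g (some b))) := fun b => by
              have h6 := dim_update hg b
              exact h6 ▸ (hφ _ (by omega)).2.2.mono (h1 x g b hg)
            exact (h5 _).add (h5 _)
          · exact Supp.zero _ _
        · simp only [hι]
          split_ifs with h5
          · intro σ hσ
            have : σ = ∅ := by by_contra h6; exact hσ (if_neg h6)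
            subst this
            exact ⟨by simp, by simp [h5]⟩
          · exact Supp.zero _ _
        · rw [map_add, D_map, D_congr (ψ' := fun y => D φ y + ι (dim y))
            fun y hy => (hφ y (by omega)).2.1, D_add, D_dim two_eq, D_D two_eq]
          simp only [hι]
          split_ifs <;> simp [bd_e0]
      choose w hw using hw
      set φ' : Cell m → Ch n := fun x => if dim x = k then
        (if enc x < enc (tau x) then w x else tc (w (tau x))) else φ x with hφ'
      have hD : ∀ x, dim x < k + 1 → D φ' x = D φ x := fun x hx =>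
        D_congr fun y hy => if_neg (by omega)
      refine ⟨φ', fun x hx => ?_⟩
      rw [hD x hx]
      by_cases hxk : dim x = k
      · have hne : enc x ≠ enc (tau x) := by
          intro h5
          have h6 : ∀ g, x g = none := fun g => by
            have := congrFun (henc h5) g
            unfold tau at this
            rcases h7 : x g with _ | b
            · rfl
            · rw [h7] at this; simp at this
          have : dim x = m := by simp [dim, h6]
          omega
        have hι' : tc (ι k) = ι k := by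
          simp only [hι]; split_ifs <;> simp [tc_e0]
        simp only [hφ', dim_tau, hxk, if_true, tau_tau]
        have h5 := hw x hxk
        have h6 := hw (tau x) (by rw [dim_tau, hxk])
        rw [dim_tau, hxk] at h6
        rw [hxk] at h5
        rcases lt_or_gt_of_ne hne with h7 | h7
        · rw [if_pos h7, if_neg h7.not_gt]
          exact ⟨rfl, h5.2, h5.1⟩
        · rw [if_pos h7, if_neg h7.not_gt, tc_tc, bd_tc, h6.2, map_add, hι', D_map, D_tau]
          refine ⟨rfl, ?_, h6.1.tc.mono (h2 x)⟩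
          congr 1
          exact D_congr fun y hy => by rw [(hφ y (by omega)).1, tc_tc]
      · simp only [hφ', dim_tau, hxk, if_false]
        exact hφ x (by omega)
  obtain ⟨φ, hφ⟩ := key m le_rfl
  have hs : ∀ i < m, ∀ σ, P m i φ σ ≠ 0 → ∃ x, Good (L x) (i + 1) σ := by
    intro i hi σ hσ
    by_contra h5
    push Not at h5
    refine hσ ?_
    rw [P_congr (ψ' := fun x σ' => if σ' = σ then 0 else φ x σ')]
    · exact Multiset.sum_induction (fun z : Ch n => z σ = 0) _
        (fun a b ha hb => by rw [Pi.add_apply, ha, hb, add_zero]) rfl fun a ha => by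
          obtain ⟨x, -, rfl⟩ := Multiset.mem_map.mp ha
          simp
    · intro x hx
      funext σ'
      split_ifs with h6
      · by_contra h7
        exact h5 x (h6 ▸ hx ▸ (hφ x (by omega)).2.2 _ h7)
      · rfl
  refine descent (fun i => P m i φ) (m - 1) ?_ (fun i hi => ?_) (fun i hi σ hσ => ?_) ?_
  · rw [P_map, P_congr (ψ' := fun x => D φ x + e0), P_add, P_const]
    · exact (congrArg (· + e0) (P_D0 φ)).trans (zero_add _)
    · intro x hx
      rw [(hφ x (by omega)).2.1, hx]; rfl
  · rw [P_map, P_congr (ψ' := D φ), P_D two_eq, P_map]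
    · congr 1
      exact P_congr fun x hx => (hφ x (by omega)).1
    · intro x hx
      rw [(hφ x (by omega)).2.1, hx]; simp [hι]
  · obtain ⟨x, hx⟩ := hs i (by omega) σ hσ
    exact ⟨fun p hp => ⟨trivial, (hx.1 p hp).2⟩, hx.2⟩
  · funext σ
    by_contra h5
    obtain ⟨x, hx⟩ := hs (m - 1) (by omega) σ h5
    rw [Nat.sub_add_cancel hm] at hx
    exact h4 x σ hx

end Pool.Agent.H15.BU
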