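import Mathlib
import Pool.Agent.H15.BU2

set_option autoImplicit false

namespace Pool.Agent.H15.BU

open Finset

open Classical in
noncomputable def Rel {m : ℕ} (f : Finset (Fin m) → ℝ) : Finset (Fin m) :=
  univ.filter fun g => ∃ S, f S ≠ f (insert g S)

lemma lip_union {m : ℕ} (f : Finset (Fin m) → ℝ) (hf : ∀ S g, |f (insert g S) - f S| ≤ 1)
    (S U : Finset (Fin m)) : |f (U ∪ S) - f S| ≤ (U ∩ Rel f).card := by
  induction U using Finset.induction_on with
  | empty => simp
  | insert g U hg ih =>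
    rw [insert_union]
    by_cases h : g ∈ Rel f
    · rw [insert_inter_of_mem h, card_insert_of_notMem fun h' => hg (mem_inter.mp h').1]
      push_cast
      have := abs_sub_le (f (insert g (U ∪ S))) (f (U ∪ S)) (f S)
      linarith [hf (U ∪ S) g]
    · rw [insert_inter_of_notMem h]
      have h1 : f (U ∪ S) = f (insert g (U ∪ S)) := by
        by_contra h2
        exact h (mem_filter.mpr ⟨mem_univ _, _, h2⟩)
      rwa [← h1]

lemma lip {m : ℕ} (f : Finset (Fin m) → ℝ) (hf : ∀ S g, |f (insert g S) - f S| ≤ 1)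
    (S T J : Finset (Fin m)) (h : ∀ g, g ∉ J → (g ∈ S ↔ g ∈ T)) :
    f S - f T ≤ (J ∩ Rel f).card := by
  have h1 := lip_union f hf S (T \ S)
  have h2 := lip_union f hf T (S \ T)
  rw [sdiff_union_self_eq_union] at h1 h2
  rw [union_comm] at h1
  have h3 : ((T \ S) ∩ Rel f).card + ((S \ T) ∩ Rel f).card ≤ (J ∩ Rel f).card := by
    rw [← card_union_of_disjoint]
    · refine card_le_card fun g hg => ?_
      have := h g
      simp only [mem_union, mem_inter, mem_sdiff] at hg ⊢
      tauto
    · rw [disjoint_left]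
      intro g h4 h5
      simp only [mem_inter, mem_sdiff] at h4 h5
      tauto
  have h4 : (((T \ S) ∩ Rel f).card : ℝ) + ((S \ T) ∩ Rel f).card ≤ (J ∩ Rel f).card := by
    exact_mod_cast h3
  have := abs_le.mp h1
  have := abs_le.mp h2
  linarith

theorem disc_le (t m n : ℕ) (f : Fin n → Finset (Fin m) → ℝ)
    (hf : ∀ i S g, |f i (insert g S) - f i S| ≤ 1)
    (ht : ∀ g : Fin m, {i : Fin n | ∃ S : Finset (Fin m), f i S ≠ f i (insert g S)}.ncard ≤ t) :
    ∃ S : Finset (Fin m), ∀ i : Fin n, |f i S - f i Sᶜ| ≤ t := by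
  classical
  by_contra hcon
  push Not at hcon
  set cp : Cell m → Finset (Fin m) → Prop := fun x S => ∀ g b, x g = some b → (g ∈ S ↔ b = true)
    with hcp
  set L : Cell m → Set (Lab n) := fun x => {p | ∃ S, cp x S ∧
    (t : ℝ) < if p.2 then f p.1 S - f p.1 Sᶜ else f p.1 Sᶜ - f p.1 S} with hL
  set J : Cell m → Finset (Fin m) := fun x => univ.filter fun g => x g = none with hJ
  have hmix : ∀ x p, p ∈ L x → ng p ∈ L x → t + 1 ≤ (J x ∩ Rel (f p.1)).card := by
    rintro x ⟨v, b⟩ ⟨S, hS, h1⟩ ⟨T, hT, h2⟩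
    have h3 : ∀ g, g ∉ J x → (g ∈ S ↔ g ∈ T) := by
      intro g hg
      simp only [hJ, mem_filter, mem_univ, true_and] at hg
      obtain ⟨c, hc⟩ := Option.ne_none_iff_exists'.mp hg
      rw [hS g c hc, hT g c hc]
    have h4 := lip (f v) (hf v) S T _ h3
    have h5 := lip (f v) (hf v) T S _ fun g hg => (h3 g hg).symm
    have h6 := lip (f v) (hf v) Sᶜ Tᶜ (J x) fun g hg => by simp only [mem_compl, h3 g hg]
    have h7 := lip (f v) (hf v) Tᶜ Sᶜ (J x) fun g hg => by simp only [mem_compl, h3 g hg]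
    have h8 : (t : ℝ) < (J x ∩ Rel (f v)).card := by
      cases b <;> simp [ng] at h1 h2 <;> linarith
    exact_mod_cast h8
  have hcount : ∀ x k σ, (∀ p ∈ L x, ng p ∈ L x) → Good (L x) k σ → k * (t + 1) ≤ t * dim x := by
    rintro x k σ h1 ⟨h2, rfl⟩
    have h3 : Set.InjOn Prod.fst (σ : Set (Lab n)) := by
      rintro ⟨v, b⟩ hp ⟨w, c⟩ hq h
      simp only at h
      subst h
      by_contra h4
      have h5 : c = !b := by cases b <;> cases c <;> simp_all
      subst h5
      exact (h2 _ hp).2 hq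
    calc σ.card * (t + 1) ≤ ∑ p ∈ σ, (J x ∩ Rel (f p.1)).card := by
          rw [← smul_eq_mul]
          exact card_nsmul_le_sum _ _ _ fun p hp => hmix x p (h2 p hp).1 (h1 p (h2 p hp).1)
      _ = ∑ g ∈ J x, (σ.filter fun p => g ∈ Rel (f p.1)).card := by
          simp only [← filter_mem_eq_inter, card_filter]
          exact sum_comm
      _ ≤ (J x).card • t := by
          refine sum_le_card_nsmul _ _ _ fun g _ => le_trans ?_ (ht g)
          rw [← Set.ncard_coe_finset]
          refine Set.ncard_le_ncard_of_injOn Prod.fst (fun p hp => ?_)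
            (h3.mono fun p hp => (mem_filter.mp hp).1)
          exact (mem_filter.mp (mem_filter.mp hp).2).2
      _ = _ := by rw [smul_eq_mul, mul_comm]; rfl
  have hne : ∀ x, ∃ p, p ∈ L x := by
    intro x
    obtain ⟨i, hi⟩ := hcon (univ.filter fun g => x g = some true)
    have h1 : cp x (univ.filter fun g => x g = some true) := fun g b hg => by simp [hg]
    rcases lt_abs.mp hi with h | h
    · exact ⟨(i, true), _, h1, by simpa using h⟩
    · exact ⟨(i, false), _, h1, by simpa using h⟩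
  have htau : ∀ x, ng ⁻¹' L (tau x) ⊆ L x := by
    rintro x ⟨v, b⟩ ⟨S, hS, h1⟩
    refine ⟨Sᶜ, fun g c hg => ?_, ?_⟩
    · rw [mem_compl, hS g (!c) (by simp [tau, hg])]
      cases c <;> simp
    · cases b <;> simpa [ng] using h1
  have htop : ∀ p ∈ L (fun _ => none), ng p ∈ L fun _ => none := by
    intro p hp
    refine htau _ ?_
    rw [Set.mem_preimage, ng_ng]
    exact hp
  have hdim : dim (fun _ => none : Cell m) = m := by simp [dim]
  have hpos : ∀ x, (∀ p ∈ L x, ng p ∈ L x) → 0 < dim x := by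
    intro x hx
    obtain ⟨p, hp⟩ := hne x
    have h1 := (hmix x p hp (hx p hp)).trans (card_le_card inter_subset_left)
    exact lt_of_lt_of_le (Nat.succ_pos _) h1
  have hm : 0 < m := hdim ▸ hpos _ htop
  refine no_carrier hm L ?_ htau (fun x => ?_) fun x σ hσ => ?_
  · rintro x g b hg p ⟨S, hS, h1⟩
    refine ⟨S, fun j c hj => hS j c ?_, h1⟩
    rw [Function.update_of_ne, hj]
    rintro rfl
    rw [hg] at hj
    exact absurd hj (by simp)
  · by_contra h1
    push Not at h1
    obtain ⟨h1, σ, hσ⟩ := h1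
    have h2 := hcount x _ σ h1 hσ
    have := hpos x h1
    rw [mul_add_one, mul_comm] at h2
    omega
  · have h1 : Good (L fun _ => none) m σ := ⟨fun p hp => ⟨?_, (hσ.1 p hp).2⟩, hσ.2⟩
    · have := hcount _ _ σ htop h1
      rw [hdim, mul_add_one, mul_comm] at this
      omega
    · obtain ⟨S, -, h2⟩ := (hσ.1 p hp).1
      exact ⟨S, fun g b hg => absurd hg (by simp), h2⟩

end Pool.Agent.H15.BU
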