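import Mathlib

set_option autoImplicit false
open Filter Topology Finset ComplexConjugate

namespace Pool.Agent.H15.CH1

noncomputable def Cop (a b : ℕ → ℝ) (x : ℕ → ℂ) (k : ℕ) : ℂ :=
  (if k = 0 then (0 : ℂ) else (a (k - 1) : ℂ) * x (k - 1)) + (b k : ℂ) * x k + (a k : ℂ) * x (k + 1)

theorem green (a b : ℕ → ℝ) (x y : ℕ → ℂ) (N : ℕ) :
    ∑ k ∈ range (N + 1), (Cop a b x k * conj (y k) - x k * conj (Cop a b y k))
      = (a N : ℂ) * (x (N + 1) * conj (y N) - x N * conj (y (N + 1))) := by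
  induction N with
  | zero => simp [Cop]; ring
  | succ N ih =>
    rw [sum_range_succ, ih]
    simp [Cop]; ring

theorem symm (a b : ℕ → ℝ) (x y : ℕ → ℂ) (N : ℕ) (hx : x (N + 1) = 0) (hy : y (N + 1) = 0) :
    ∑ k ∈ range (N + 1), (Cop a b x k * conj (y k)).re
      = ∑ k ∈ range (N + 1), (Cop a b y k * conj (x k)).re := by
  have h := congrArg Complex.re (green a b x y N)
  rw [hx, hy] at h
  simp only [zero_mul, map_zero, mul_zero, sub_self, Complex.zero_re, Complex.re_sum,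
    Complex.sub_re, sum_sub_distrib] at h
  rw [sub_eq_zero.mp h]
  refine sum_congr rfl fun k _ => ?_
  simp only [Complex.mul_re, Complex.conj_re, Complex.conj_im]
  ring

theorem re_le (z w : ℂ) (s : ℝ) (hs : 0 < s) :
    2 * (z * conj w).re ≤ ‖z‖ ^ 2 / s + s * ‖w‖ ^ 2 := by
  have h1 : (z * conj w).re ≤ ‖z‖ * ‖w‖ := by
    refine (Complex.re_le_norm _).trans ?_
    rw [norm_mul, Complex.norm_conj]
  have h2 : ‖z‖ ^ 2 / s + s * ‖w‖ ^ 2 - 2 * (‖z‖ * ‖w‖) = (‖z‖ - s * ‖w‖) ^ 2 / s := by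
    field_simp; ring
  have h3 : 0 ≤ (‖z‖ - s * ‖w‖) ^ 2 / s := by positivity
  linarith

theorem re_ge (z w : ℂ) (s : ℝ) (hs : 0 < s) :
    -(‖z‖ ^ 2 / s + s * ‖w‖ ^ 2) ≤ 2 * (z * conj w).re := by
  have h := re_le (-z) w s hs
  rw [norm_neg, neg_mul, Complex.neg_re] at h
  linarith

theorem re_self (z : ℂ) : (z * conj z).re = ‖z‖ ^ 2 := by
  rw [Complex.mul_conj', ← Complex.ofReal_pow, Complex.ofReal_re]

theorem formLB (a b s : ℕ → ℝ) (ha : ∀ k, 0 < a k) (hs : ∀ k, 0 < s k) (x : ℕ → ℂ) (N : ℕ) :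
    ∑ k ∈ range (N + 1), (b k - a k * s k - (if k = 0 then 0 else a (k - 1) / s (k - 1))) * ‖x k‖ ^ 2
      + a N * s N * ‖x N‖ ^ 2
      ≤ ∑ k ∈ range (N + 1), (Cop a b x k * conj (x k)).re - a N * (x (N + 1) * conj (x N)).re := by
  have e : ∀ k, (Cop a b x k * conj (x k)).re
      = (if k = 0 then 0 else a (k - 1) * (x k * conj (x (k - 1))).re) + b k * ‖x k‖ ^ 2
        + a k * (x (k + 1) * conj (x k)).re := by
    intro k
    unfold Cop
    rw [add_mul, add_mul, Complex.add_re, Complex.add_re, mul_assoc, mul_assoc,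
      Complex.re_ofReal_mul, Complex.re_ofReal_mul, re_self]
    congr 2
    split_ifs
    · simp
    · rw [mul_assoc, Complex.re_ofReal_mul]
      simp only [Complex.mul_re, Complex.conj_re, Complex.conj_im]
      ring
  simp only [e]
  induction N with
  | zero => simp; linarith
  | succ N ih =>
    rw [sum_range_succ _ (N + 1), sum_range_succ _ (N + 1)]
    simp only [Nat.add_one_ne_zero, if_false, Nat.add_sub_cancel]
    have h := mul_le_mul_of_nonneg_left (re_ge (x (N + 1)) (x N) (s N) (hs N)) (ha N).le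
    have e2 : a N / s N * ‖x (N + 1)‖ ^ 2 = a N * (‖x (N + 1)‖ ^ 2 / s N) := by ring
    nlinarith

theorem esa (a b : ℕ → ℝ) (ha : ∀ k, 0 < a k) (hd : ¬ Summable fun k => 1 / a k)
    (u : ℕ → ℂ) (hu : Summable fun k => ‖u k‖ ^ 2) (h : ∀ k, Cop a b u k = Complex.I * u k) :
    u = 0 := by
  by_contra hne
  obtain ⟨k0, hk0⟩ := Function.ne_iff.mp hne
  have hc : 0 < ‖u k0‖ ^ 2 := pow_pos (norm_pos_iff.mpr hk0) 2
  apply hd
  have key : ∀ N, k0 ≤ N → 1 / a N ≤ (‖u N‖ ^ 2 + ‖u (N + 1)‖ ^ 2) / ‖u k0‖ ^ 2 := by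
    intro N hN
    have g := green a b u u N
    have e : ∀ k, Cop a b u k * conj (u k) - u k * conj (Cop a b u k)
        = 2 * Complex.I * ((‖u k‖ ^ 2 : ℝ) : ℂ) := by
      intro k
      rw [h, map_mul, Complex.conj_I, Complex.ofReal_pow, ← Complex.mul_conj']
      ring
    simp only [e] at g
    rw [← mul_sum, ← Complex.ofReal_sum] at g
    have g2 := congrArg norm g
    rw [norm_mul, norm_mul, norm_mul, Complex.norm_I, Complex.norm_real, Complex.norm_real,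
      Real.norm_eq_abs, Real.norm_eq_abs, abs_of_pos (ha N), Complex.norm_two, mul_one] at g2
    have g3 : ‖u k0‖ ^ 2 ≤ |∑ k ∈ range (N + 1), ‖u k‖ ^ 2| :=
      (single_le_sum (f := fun k => ‖u k‖ ^ 2) (fun k _ => by positivity)
        (mem_range.mpr (by omega))).trans (le_abs_self _)
    have g4 : ‖u (N + 1) * conj (u N) - u N * conj (u (N + 1))‖ ≤ ‖u N‖ ^ 2 + ‖u (N + 1)‖ ^ 2 := by
      refine (norm_sub_le _ _).trans ?_
      rw [norm_mul, norm_mul, Complex.norm_conj, Complex.norm_conj]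
      nlinarith [sq_nonneg (‖u N‖ - ‖u (N + 1)‖)]
    rw [div_le_div_iff₀ (ha N) hc]
    nlinarith [mul_le_mul_of_nonneg_left g4 (ha N).le]
  rw [← summable_nat_add_iff k0]
  refine Summable.of_nonneg_of_le (fun n => (one_div_pos.mpr (ha _)).le)
    (fun n => key (n + k0) (by omega)) ?_
  have h1 := (hu.add ((summable_nat_add_iff 1).mpr hu)).div_const (‖u k0‖ ^ 2)
  exact (summable_nat_add_iff k0).mpr h1

theorem below (a b : ℕ → ℝ) (x : ℕ → ℂ) (N : ℕ) (t : ℝ) (ht : t < 0)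
    (h : 0 ≤ ∑ k ∈ range (N + 1), (Cop a b x k * conj (x k)).re) :
    t ^ 2 * ∑ k ∈ range (N + 1), ‖x k‖ ^ 2 ≤ ∑ k ∈ range (N + 1), ‖Cop a b x k - t * x k‖ ^ 2 := by
  have h1 : ∀ k, 2 * (Cop a b x k * conj (x k)).re - t * ‖x k‖ ^ 2
      ≤ ‖Cop a b x k - t * x k‖ ^ 2 / (-t) := by
    intro k
    have := re_le (Cop a b x k - t * x k) (x k) (-t) (by linarith)
    rw [sub_mul, Complex.sub_re, mul_assoc, Complex.re_ofReal_mul, re_self] at this
    linarith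
  have h2 := sum_le_sum fun k (_ : k ∈ range (N + 1)) => h1 k
  rw [sum_sub_distrib, ← mul_sum, ← mul_sum, ← sum_div, le_div_iff₀ (by linarith)] at h2
  nlinarith

theorem gap (a b : ℕ → ℝ) (w ψ : ℕ → ℂ) (N : ℕ) (hw : w (N + 1) = 0) (hψ : ψ (N + 1) = 0)
    (h1 : 2 * ∑ k ∈ range (N + 1), ‖w k‖ ^ 2 ≤ ∑ k ∈ range (N + 1), (Cop a b w k * conj (w k)).re)
    (h2 : ∑ k ∈ range (N + 1), (Cop a b ψ k * conj (ψ k)).re
      ≤ 1 / 2 * ∑ k ∈ range (N + 1), ‖ψ k‖ ^ 2) :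
    1 / 16 * ∑ k ∈ range (N + 1), ‖(w + ψ) k‖ ^ 2
      ≤ ∑ k ∈ range (N + 1), ‖Cop a b (w + ψ) k - (w + ψ) k‖ ^ 2 := by
  have hs := symm a b w ψ N hw hψ
  have e : ∀ k, Cop a b (w + ψ) k = Cop a b w k + Cop a b ψ k := by
    intro k
    unfold Cop
    simp only [Pi.add_apply]
    split_ifs <;> ring
  have h3 : ∀ k, 2 * ((Cop a b w k * conj (w k)).re - (Cop a b w k * conj (ψ k)).re
      + (Cop a b ψ k * conj (w k)).re - (Cop a b ψ k * conj (ψ k)).re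
      - ‖w k‖ ^ 2 + ‖ψ k‖ ^ 2)
      ≤ 4 * ‖Cop a b (w + ψ) k - (w + ψ) k‖ ^ 2 + 1 / 2 * (‖w k‖ ^ 2 + ‖ψ k‖ ^ 2) := by
    intro k
    have h4 := re_le (Cop a b (w + ψ) k - (w + ψ) k) (w k - ψ k) (1 / 4) (by norm_num)
    have h5 : ‖w k - ψ k‖ ^ 2 ≤ 2 * (‖w k‖ ^ 2 + ‖ψ k‖ ^ 2) := by
      have := pow_le_pow_left₀ (norm_nonneg _) (norm_sub_le (w k) (ψ k)) 2
      nlinarith [sq_nonneg (‖w k‖ - ‖ψ k‖)]
    have h6 : ((Cop a b (w + ψ) k - (w + ψ) k) * conj (w k - ψ k)).re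
        = (Cop a b w k * conj (w k)).re - (Cop a b w k * conj (ψ k)).re
          + (Cop a b ψ k * conj (w k)).re - (Cop a b ψ k * conj (ψ k)).re
          - ‖w k‖ ^ 2 + ‖ψ k‖ ^ 2 := by
      rw [e, ← re_self, ← re_self]
      simp only [Pi.add_apply, map_sub, Complex.mul_re, Complex.sub_re, Complex.sub_im,
        Complex.add_re, Complex.add_im, Complex.conj_re, Complex.conj_im]
      ring
    rw [h6] at h4
    linarith
  have h7 := sum_le_sum fun k (_ : k ∈ range (N + 1)) => h3 k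
  simp only [← mul_sum, sum_add_distrib, sum_sub_distrib] at h7
  have h8 : ∑ k ∈ range (N + 1), ‖(w + ψ) k‖ ^ 2
      ≤ 2 * (∑ k ∈ range (N + 1), ‖w k‖ ^ 2 + ∑ k ∈ range (N + 1), ‖ψ k‖ ^ 2) := by
    rw [← sum_add_distrib, mul_sum]
    refine sum_le_sum fun k _ => ?_
    have := pow_le_pow_left₀ (norm_nonneg _) (norm_add_le (w k) (ψ k)) 2
    simp only [Pi.add_apply]
    nlinarith [sq_nonneg (‖w k‖ - ‖ψ k‖)]
  have h9 : 0 ≤ ∑ k ∈ range (N + 1), ‖w k‖ ^ 2 := sum_nonneg fun k _ => by positivity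
  linarith

end Pool.Agent.H15.CH1
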