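import Mathlib
import Pool.Agent.H15.CH1

set_option autoImplicit false
open Filter Topology Finset ComplexConjugate

namespace Pool.Agent.H15.CH2
open Pool.Agent.H15.CH1

@[irreducible] def JJ (k : ℕ) : ℕ := Nat.log 2 (k + 1024)
@[irreducible] def LL (j : ℕ) : ℕ := 2 ^ (j - 1)
noncomputable def QQ (j : ℕ) : ℝ := 1 - 1 / (j : ℝ)
noncomputable def AA (k : ℕ) : ℝ := (JJ k : ℝ) ^ 3
noncomputable def RR (k : ℕ) : ℝ := if k + 1024 < 3 * LL (JJ k) then (QQ (JJ k))⁻¹ else QQ (JJ k)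
noncomputable def BB (k : ℕ) : ℝ := (if k = 0 then 0 else AA (k - 1) / RR (k - 1)) + AA k * RR k
noncomputable def eta (j : ℕ) : ℝ := QQ j ^ LL j
noncomputable def vv (j n : ℕ) : ℝ := QQ j ^ Nat.dist n (3 * LL j) - eta j
noncomputable def UU (k : ℕ) : ℝ := (-1) ^ k * vv (JJ k) (k + 1024)

theorem JJ_ge (k : ℕ) : 10 ≤ JJ k := by
  unfold JJ
  exact Nat.le_log_of_pow_le (by norm_num) (by omega)

theorem two_LL (j : ℕ) (hj : 10 ≤ j) : 2 * LL j = 2 ^ j := by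
  unfold LL
  obtain ⟨i, rfl⟩ : ∃ i, j = i + 1 := ⟨j - 1, by omega⟩
  simp [pow_succ]; ring

theorem LL_succ (j : ℕ) (hj : 10 ≤ j) : LL (j + 1) = 2 * LL j := by
  rw [two_LL j hj]; simp [LL]

theorem JJ_bd (k : ℕ) : 2 * LL (JJ k) ≤ k + 1024 ∧ k + 1024 < 4 * LL (JJ k) := by
  have h := two_LL _ (JJ_ge k)
  have h1 : 2 ^ JJ k ≤ k + 1024 := by unfold JJ; exact Nat.pow_log_le_self 2 (by omega)
  have h2 : k + 1024 < 2 ^ (JJ k + 1) := by
    unfold JJ; exact Nat.lt_pow_succ_log_self (by norm_num) _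
  rw [pow_succ] at h2
  omega

theorem JJ_eq (k j : ℕ) (hj : 10 ≤ j) (h1 : 2 * LL j ≤ k + 1024) (h2 : k + 1024 < 4 * LL j) :
    JJ k = j := by
  have h := two_LL j hj
  unfold JJ
  rw [Nat.log_eq_iff (by omega)]
  rw [pow_succ]
  omega

theorem JJ_succ (k : ℕ) : JJ (k + 1) = JJ k ∨
    (JJ (k + 1) = JJ k + 1 ∧ k + 1 + 1024 = 4 * LL (JJ k)) := by
  obtain ⟨h1, h2⟩ := JJ_bd k
  have h3 := JJ_ge k
  by_cases h : k + 1 + 1024 < 4 * LL (JJ k)
  · left; exact JJ_eq _ _ h3 (by omega) h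
  · right
    have h4 := LL_succ _ h3
    exact ⟨JJ_eq _ _ (by omega) (by omega) (by omega), by omega⟩

theorem LL_ge (j : ℕ) (hj : 10 ≤ j) : 4 * j ^ 2 ≤ LL j := by
  induction j, hj using Nat.le_induction with
  | base => norm_num [LL]
  | succ j hj ih => rw [LL_succ j hj]; nlinarith

theorem cube_le (j : ℕ) (hj : 10 ≤ j) : j ^ 3 ≤ 2 ^ j := by
  induction j, hj using Nat.le_induction with
  | base => norm_num
  | succ j hj ih =>
    rw [pow_succ 2]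
    have : (j + 1) ^ 3 ≤ j ^ 3 * 2 := by nlinarith [Nat.mul_le_mul hj hj, Nat.mul_le_mul_left (j * j) hj]
    omega

theorem QQ_bd (j : ℕ) (hj : 10 ≤ j) : 9 / 10 ≤ QQ j ∧ QQ j < 1 := by
  have h : (10 : ℝ) ≤ j := by exact_mod_cast hj
  unfold QQ
  have h1 : 1 / (j : ℝ) ≤ 1 / 10 := one_div_le_one_div_of_le (by norm_num) h
  have h2 : 0 < 1 / (j : ℝ) := by positivity
  constructor <;> linarith

theorem eta_bd (j : ℕ) (hj : 10 ≤ j) : 0 < eta j ∧ (j : ℝ) ^ 3 * eta j ≤ (1 / 8) ^ j := by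
  obtain ⟨q1, q2⟩ := QQ_bd j hj
  have h : (10 : ℝ) ≤ j := by exact_mod_cast hj
  refine ⟨pow_pos (by linarith) _, ?_⟩
  have h1 : QQ j ≤ Real.exp (-(1 / (j : ℝ))) := by
    have := Real.add_one_le_exp (-(1 / (j : ℝ)))
    unfold QQ; linarith
  have h2 : eta j ≤ Real.exp (-(4 * j)) := by
    refine (pow_le_pow_left₀ (by linarith) h1 _).trans ?_
    rw [← Real.exp_nat_mul, Real.exp_le_exp]
    have h3 : (4 : ℝ) * j ^ 2 ≤ LL j := by exact_mod_cast LL_ge j hj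
    rw [mul_neg, neg_le_neg_iff, mul_one_div, le_div_iff₀ (by linarith)]
    linarith
  have h4 : Real.exp (-(4 * j)) ≤ (1 / 16) ^ j := by
    rw [show -(4 * (j : ℝ)) = j * (-4) by ring, Real.exp_nat_mul]
    apply pow_le_pow_left₀ (Real.exp_pos _).le
    rw [Real.exp_neg, ← one_div]
    apply one_div_le_one_div_of_le (by norm_num)
    have h5 : (2 : ℝ) ≤ Real.exp 1 := by linarith [Real.add_one_le_exp (1 : ℝ)]
    have h6 := pow_le_pow_left₀ (by norm_num) h5 4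
    rw [← Real.exp_nat_mul] at h6
    norm_num at h6 ⊢
    exact h6
  have h7 : (j : ℝ) ^ 3 ≤ 2 ^ j := by exact_mod_cast cube_le j hj
  calc (j : ℝ) ^ 3 * eta j ≤ 2 ^ j * (1 / 16) ^ j :=
        mul_le_mul h7 (h2.trans h4) (pow_pos (by linarith) _).le (by positivity)
    _ = (1 / 8) ^ j := by rw [← mul_pow]; norm_num

theorem eighth_le (j : ℕ) (hj : 10 ≤ j) : (1 / 8 : ℝ) ^ j ≤ 1 / 64 := by
  have := pow_le_pow_of_le_one (by norm_num : (0 : ℝ) ≤ 1 / 8) (by norm_num) (show 2 ≤ j by omega)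
  norm_num at this ⊢
  exact this

theorem AA_ge (k : ℕ) : 1000 ≤ AA k := by
  have h : (10 : ℝ) ≤ JJ k := by exact_mod_cast JJ_ge k
  have := pow_le_pow_left₀ (by norm_num) h 3
  unfold AA; linarith

theorem AA_pos (k : ℕ) : 0 < AA k := by linarith [AA_ge k]

theorem RR_pos (k : ℕ) : 0 < RR k := by
  have := (QQ_bd _ (JJ_ge k)).1
  unfold RR
  split_ifs
  · exact inv_pos.mpr (by linarith)
  · linarith

theorem vv_nonneg (j n : ℕ) (hj : 10 ≤ j) (h1 : 2 * LL j ≤ n) (h2 : n ≤ 4 * LL j) : 0 ≤ vv j n := by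
  obtain ⟨q1, q2⟩ := QQ_bd j hj
  unfold vv eta
  have : Nat.dist n (3 * LL j) ≤ LL j := by unfold Nat.dist; omega
  linarith [pow_le_pow_of_le_one (by linarith : 0 ≤ QQ j) q2.le this]

theorem vv_end (j n : ℕ) (h : n = 2 * LL j ∨ n = 4 * LL j) : vv j n = 0 := by
  unfold vv eta
  have : Nat.dist n (3 * LL j) = LL j := by unfold Nat.dist; omega
  rw [this, sub_self]

theorem vv_near (j n : ℕ) (hj : 10 ≤ j) (h : n = 2 * LL j + 1 ∨ n + 1 = 4 * LL j) :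
    vv j n ≤ eta j := by
  obtain ⟨q1, q2⟩ := QQ_bd j hj
  have hL := LL_ge j hj
  have hL2 : 1 ≤ LL j := by nlinarith
  unfold vv
  have : Nat.dist n (3 * LL j) + 1 = LL j := by unfold Nat.dist; omega
  have e : eta j = QQ j ^ Nat.dist n (3 * LL j) * QQ j := by rw [← pow_succ, this]; rfl
  have h3 : 0 < QQ j ^ Nat.dist n (3 * LL j) := pow_pos (by linarith) _
  nlinarith

theorem vv_ctr (j : ℕ) (hj : 10 ≤ j) : 1 / 2 ≤ vv j (3 * LL j) := by
  obtain ⟨h1, h2⟩ := eta_bd j hj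
  have h3 := eighth_le j hj
  have h : (10 : ℝ) ≤ j := by exact_mod_cast hj
  have := pow_le_pow_left₀ (by norm_num) h 3
  unfold vv
  rw [Nat.dist_self, pow_zero]
  nlinarith

/-- value of the diagonal away from junctions -/
theorem BB_int (k : ℕ) (hk : k + 1024 ≠ 2 * LL (JJ k)) : 1 ≤ k ∧ JJ (k - 1) = JJ k ∧
    BB k = AA k * (if k + 1024 = 3 * LL (JJ k) then 2 * QQ (JJ k) else QQ (JJ k) + (QQ (JJ k))⁻¹) := by
  obtain ⟨h1, h2⟩ := JJ_bd k
  have h3 := JJ_ge k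
  have h4 : 1024 ≤ 2 * LL (JJ k) := by
    rw [two_LL _ h3]; exact Nat.pow_le_pow_right (n := 2) (by norm_num) h3
  have h5 : 1 ≤ k := by omega
  have h6 : JJ (k - 1) = JJ k := JJ_eq _ _ h3 (by omega) (by omega)
  refine ⟨h5, h6, ?_⟩
  unfold BB RR AA
  rw [if_neg (by omega), h6]
  split_ifs <;> first | omega | (simp only [div_eq_mul_inv, inv_inv]; ring)

theorem harm (k : ℕ) (hk : k + 1024 ≠ 2 * LL (JJ k)) :
    BB k * vv (JJ k) (k + 1024) - AA k * vv (JJ k) (k + 1023) - AA k * vv (JJ k) (k + 1025)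
      = -(eta (JJ k) * (BB k - 2 * AA k)) := by
  obtain ⟨-, -, h⟩ := BB_int k hk
  have q1 := (QQ_bd _ (JJ_ge k)).1
  have q0 : QQ (JJ k) ≠ 0 := by linarith
  have key : BB k * QQ (JJ k) ^ Nat.dist (k + 1024) (3 * LL (JJ k))
      = AA k * QQ (JJ k) ^ Nat.dist (k + 1023) (3 * LL (JJ k))
        + AA k * QQ (JJ k) ^ Nat.dist (k + 1025) (3 * LL (JJ k)) := by
    rw [h]
    rcases lt_trichotomy (k + 1024) (3 * LL (JJ k)) with hc | hc | hc
    · rw [if_neg hc.ne]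
      obtain ⟨d, hd⟩ : ∃ d, 3 * LL (JJ k) = k + 1025 + d := ⟨3 * LL (JJ k) - (k + 1025), by omega⟩
      rw [show Nat.dist (k + 1024) (3 * LL (JJ k)) = d + 1 by unfold Nat.dist; omega,
        show Nat.dist (k + 1023) (3 * LL (JJ k)) = d + 2 by unfold Nat.dist; omega,
        show Nat.dist (k + 1025) (3 * LL (JJ k)) = d by unfold Nat.dist; omega]
      field_simp
      ring
    · rw [if_pos hc]
      rw [show Nat.dist (k + 1024) (3 * LL (JJ k)) = 0 by unfold Nat.dist; omega,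
        show Nat.dist (k + 1023) (3 * LL (JJ k)) = 1 by unfold Nat.dist; omega,
        show Nat.dist (k + 1025) (3 * LL (JJ k)) = 1 by unfold Nat.dist; omega]
      ring
    · rw [if_neg hc.ne']
      obtain ⟨d, hd⟩ : ∃ d, k + 1023 = 3 * LL (JJ k) + d := ⟨k + 1023 - 3 * LL (JJ k), by omega⟩
      rw [show Nat.dist (k + 1024) (3 * LL (JJ k)) = d + 1 by unfold Nat.dist; omega,
        show Nat.dist (k + 1023) (3 * LL (JJ k)) = d by unfold Nat.dist; omega,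
        show Nat.dist (k + 1025) (3 * LL (JJ k)) = d + 2 by unfold Nat.dist; omega]
      field_simp
      ring
  unfold vv
  linear_combination key

noncomputable def psi (γ : ℕ → ℂ) (k : ℕ) : ℂ := γ (JJ k) * (UU k : ℝ)

theorem psi_succ (γ : ℕ → ℂ) (k : ℕ) :
    psi γ (k + 1) = γ (JJ k) * (((-1) ^ (k + 1) * vv (JJ k) (k + 1025) : ℝ) : ℂ) := by
  unfold psi UU
  rcases JJ_succ k with h | ⟨h1, h2⟩
  · rw [h]
  · rw [vv_end (JJ k) (k + 1025) (Or.inr h2), vv_end (JJ (k + 1)) (k + 1 + 1024)]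
    · simp
    · left; rw [h1, LL_succ _ (JJ_ge k)]; omega

theorem Cop_int (γ : ℕ → ℂ) (k : ℕ) (hk : k + 1024 ≠ 2 * LL (JJ k)) :
    Cop AA BB (psi γ) k = γ (JJ k) * (((-1) ^ k * -(eta (JJ k) * (BB k - 2 * AA k)) : ℝ) : ℂ) := by
  obtain ⟨h1, h2, -⟩ := BB_int k hk
  rw [← harm k hk]
  unfold Cop
  rw [if_neg (by omega), psi_succ]
  obtain ⟨m, rfl⟩ : ∃ m, k = m + 1 := ⟨k - 1, by omega⟩
  simp only [Nat.add_sub_cancel] at h2 ⊢
  unfold psi UU AA
  rw [h2, show m + 1 + 1023 = m + 1024 by ring]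
  push_cast
  ring

theorem psi_junc (γ : ℕ → ℂ) (k : ℕ) (hk : k + 1024 = 2 * LL (JJ k)) : psi γ k = 0 := by
  unfold psi UU
  rw [vv_end _ _ (Or.inl hk)]; simp

theorem inv_gap (j : ℕ) (hj : 10 ≤ j) : 1 / (j : ℝ) ≤ (QQ j)⁻¹ - 1 ∧
    1 / (j : ℝ) ^ 2 ≤ QQ j + (QQ j)⁻¹ - 2 ∧ (QQ j)⁻¹ ≤ 2 := by
  obtain ⟨q1, q2⟩ := QQ_bd j hj
  have e : 1 / (j : ℝ) = 1 - QQ j := by unfold QQ; ring
  have e2 : 1 / (j : ℝ) ^ 2 = (1 - QQ j) ^ 2 := by rw [← e]; ring
  have h1 : QQ j * (QQ j)⁻¹ = 1 := mul_inv_cancel₀ (by linarith)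
  have h2 : 0 < (QQ j)⁻¹ := inv_pos.mpr (by linarith)
  have h3 : 1 ≤ (QQ j)⁻¹ := by nlinarith
  rw [e, e2]
  refine ⟨by nlinarith, by nlinarith, by nlinarith⟩

theorem psi_form (γ : ℕ → ℂ) (k : ℕ) :
    (Cop AA BB (psi γ) k * conj (psi γ k)).re ≤ 1 / 2 * ‖psi γ k‖ ^ 2 := by
  by_cases hk : k + 1024 = 2 * LL (JJ k)
  · rw [psi_junc γ k hk]; simp
  · rw [Cop_int γ k hk]
    obtain ⟨-, -, hB⟩ := BB_int k hk
    obtain ⟨b1, b2⟩ := JJ_bd k
    have hv := vv_nonneg _ (k + 1024) (JJ_ge k) b1 b2.le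
    obtain ⟨e1, e2⟩ := eta_bd _ (JJ_ge k)
    have hA := AA_pos k
    have hT : -(eta (JJ k) * (BB k - 2 * AA k)) ≤ 1 / 2 * vv (JJ k) (k + 1024) := by
      by_cases hc : k + 1024 = 3 * LL (JJ k)
      · rw [if_pos hc] at hB
        have h1 := vv_ctr _ (JJ_ge k)
        have h2 := eighth_le _ (JJ_ge k)
        have h3 := (QQ_bd _ (JJ_ge k)).1
        rw [hc, hB]
        have h4 : AA k * eta (JJ k) ≤ 1 / 64 := e2.trans h2
        nlinarith [mul_pos hA e1]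
      · rw [if_neg hc] at hB
        have h1 := (inv_gap _ (JJ_ge k)).2.1
        have h2 : 0 ≤ 1 / (JJ k : ℝ) ^ 2 := by positivity
        have h3 : 0 ≤ BB k - 2 * AA k := by rw [hB]; nlinarith
        nlinarith [mul_nonneg e1.le h3]
    unfold psi UU
    rw [map_mul, Complex.conj_ofReal, mul_mul_mul_comm, ← Complex.ofReal_mul, mul_comm,
      Complex.re_ofReal_mul, re_self, norm_mul, Complex.norm_real, Real.norm_eq_abs, mul_pow, sq_abs]
    have hs : ((-1 : ℝ) ^ k) ^ 2 = 1 := by rw [← pow_mul, mul_comm, pow_mul]; norm_num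
    have h5 := mul_le_mul_of_nonneg_right hT hv
    have h6 : (-1) ^ k * -(eta (JJ k) * (BB k - 2 * AA k)) * ((-1) ^ k * vv (JJ k) (k + 1024))
        = ((-1 : ℝ) ^ k) ^ 2 * (-(eta (JJ k) * (BB k - 2 * AA k)) * vv (JJ k) (k + 1024)) := by ring
    rw [h6, mul_pow, hs]
    nlinarith [mul_le_mul_of_nonneg_right h5 (sq_nonneg ‖γ (JJ k)‖)]

theorem wt_ge (k : ℕ) (hk : k + 1024 ≠ 3 * LL (JJ k)) :
    2 ≤ BB k - AA k * 1 - (if k = 0 then 0 else AA (k - 1) / 1) := by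
  have hj : (10 : ℝ) ≤ JJ k := by exact_mod_cast JJ_ge k
  obtain ⟨g1, g2, -⟩ := inv_gap _ (JJ_ge k)
  by_cases hc : k + 1024 = 2 * LL (JJ k)
  · have hL := LL_ge _ (JJ_ge k)
    have hL2 : 1 ≤ LL (JJ k) := by nlinarith [JJ_ge k]
    have h1 : RR k = (QQ (JJ k))⁻¹ := by unfold RR; rw [if_pos (by omega)]
    have h2 : 2 ≤ AA k * ((QQ (JJ k))⁻¹ - 1) := by
      refine le_trans ?_ (mul_le_mul_of_nonneg_left g1 (AA_pos k).le)
      unfold AA
      rw [mul_one_div, le_div_iff₀ (by linarith)]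
      nlinarith
    unfold BB
    rw [h1]
    split_ifs with h0
    · linarith
    · obtain ⟨m, rfl⟩ : ∃ m, k = m + 1 := ⟨k - 1, by omega⟩
      simp only [Nat.add_sub_cancel]
      have h3 : RR m ≤ 1 := by
        obtain ⟨c1, c2⟩ := JJ_bd m
        unfold RR
        rw [if_neg]
        · exact (QQ_bd _ (JJ_ge m)).2.le
        · rcases JJ_succ m with h | ⟨h, h'⟩
          · rw [h] at hc; omega
          · have := LL_ge _ (JJ_ge m)
            have hL3 : 1 ≤ LL (JJ m) := by nlinarith [JJ_ge m]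
            omega
      have h4 : AA m / 1 ≤ AA m / RR m := div_le_div_of_nonneg_left (AA_pos m).le (RR_pos m) h3
      linarith
  · obtain ⟨h1, h2, h3⟩ := BB_int k hc
    rw [if_neg hk] at h3
    rw [if_neg (by omega), h3]
    have h4 : AA (k - 1) = AA k := by unfold AA; rw [h2]
    have h5 : 2 ≤ AA k * (QQ (JJ k) + (QQ (JJ k))⁻¹ - 2) := by
      refine le_trans ?_ (mul_le_mul_of_nonneg_left g2 (AA_pos k).le)
      unfold AA
      rw [mul_one_div, le_div_iff₀ (by positivity)]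
      nlinarith
    rw [h4]
    linarith

theorem Cop_small (γ : ℕ → ℂ) (G : ℝ) (j0 : ℕ) (hG : ∀ j, ‖γ j‖ ≤ G) (h0 : ∀ j < j0, γ j = 0)
    (k : ℕ) : ‖Cop AA BB (psi γ) k‖ ≤ 2 * G * (1 / 8) ^ j0 := by
  have hG0 : 0 ≤ G := (norm_nonneg _).trans (hG 0)
  have base : ∀ (j : ℕ) (c : ℝ), 10 ≤ j → |c| ≤ (j : ℝ) ^ 3 * eta j →
      ‖γ j * (c : ℂ)‖ ≤ G * (1 / 8) ^ j0 := by
    intro j c hj hc
    by_cases h : j < j0
    · rw [h0 j h, zero_mul, norm_zero]; positivity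
    · rw [norm_mul, Complex.norm_real, Real.norm_eq_abs]
      refine mul_le_mul (hG j) (hc.trans ((eta_bd j hj).2.trans ?_)) (abs_nonneg _) hG0
      exact pow_le_pow_of_le_one (by norm_num) (by norm_num) (not_lt.mp h)
  have habs : ∀ n : ℕ, |(-1 : ℝ) ^ n| = 1 := fun n => by rw [abs_pow, abs_neg, abs_one, one_pow]
  by_cases hk : k + 1024 = 2 * LL (JJ k)
  · have hL := LL_ge _ (JJ_ge k)
    have hL2 : 1 ≤ LL (JJ k) := by nlinarith [JJ_ge k]
    unfold Cop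
    rw [psi_junc γ k hk, mul_zero, add_zero, psi_succ]
    have b2 : ‖(AA k : ℂ) * (γ (JJ k) * (((-1) ^ (k + 1) * vv (JJ k) (k + 1025) : ℝ) : ℂ))‖
        ≤ G * (1 / 8) ^ j0 := by
      rw [mul_left_comm, ← Complex.ofReal_mul]
      apply base _ _ (JJ_ge k)
      rw [abs_mul, abs_mul, habs, one_mul, abs_of_pos (AA_pos k),
        abs_of_nonneg (vv_nonneg _ _ (JJ_ge k) (by omega) (by omega))]
      exact mul_le_mul_of_nonneg_left (vv_near _ _ (JJ_ge k) (by omega)) (AA_pos k).le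
    have b1 : ‖(if k = 0 then (0 : ℂ) else (AA (k - 1) : ℂ) * psi γ (k - 1))‖
        ≤ G * (1 / 8) ^ j0 := by
      split_ifs with hz
      · rw [norm_zero]; positivity
      · obtain ⟨m, rfl⟩ : ∃ m, k = m + 1 := ⟨k - 1, by omega⟩
        simp only [Nat.add_sub_cancel]
        obtain ⟨c1, c2⟩ := JJ_bd m
        unfold psi UU
        rw [mul_left_comm, ← Complex.ofReal_mul]
        apply base _ _ (JJ_ge m)
        rw [abs_mul, abs_mul, habs, one_mul, abs_of_pos (AA_pos m),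
          abs_of_nonneg (vv_nonneg _ _ (JJ_ge m) c1 c2.le)]
        refine mul_le_mul_of_nonneg_left (vv_near _ _ (JJ_ge m) ?_) (AA_pos m).le
        rcases JJ_succ m with h | ⟨h, h'⟩
        · rw [h] at hk; omega
        · omega
    refine (norm_add_le _ _).trans ?_
    linarith
  · rw [Cop_int γ k hk]
    obtain ⟨-, -, hB⟩ := BB_int k hk
    have e : γ (JJ k) * (((-1) ^ k * -(eta (JJ k) * (BB k - 2 * AA k)) : ℝ) : ℂ)
        = 2 * (γ (JJ k) * (((-1) ^ k * -(eta (JJ k) * (BB k / 2 - AA k)) : ℝ) : ℂ)) := by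
      push_cast; ring
    rw [e, norm_mul, Complex.norm_two, mul_assoc]
    refine mul_le_mul_of_nonneg_left (base _ _ (JJ_ge k) ?_) (by norm_num)
    obtain ⟨e1, -⟩ := eta_bd _ (JJ_ge k)
    rw [abs_mul, habs, one_mul, abs_neg, abs_mul, abs_of_pos e1, mul_comm]
    apply mul_le_mul_of_nonneg_right _ e1.le
    show _ ≤ AA k
    obtain ⟨q1, q2⟩ := QQ_bd _ (JJ_ge k)
    have g3 := (inv_gap _ (JJ_ge k)).2.2
    have g4 : 0 < (QQ (JJ k))⁻¹ := inv_pos.mpr (by linarith)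
    have hA := AA_pos k
    rw [abs_le, hB]
    split_ifs <;> constructor <;> nlinarith

end Pool.Agent.H15.CH2
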