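import Mathlib
import Pool.Agent.H15.CH2

set_option autoImplicit false
open Filter Topology Finset ComplexConjugate

namespace Pool.Agent.H15.CH3
open Pool.Agent.H15.CH1 Pool.Agent.H15.CH2

theorem JJ_tendsto : Tendsto JJ atTop atTop := by
  rw [tendsto_atTop]
  intro m
  filter_upwards [eventually_ge_atTop (2 ^ m)] with k hk
  unfold JJ
  exact Nat.le_log_of_pow_le (by norm_num) (by omega)

theorem JJr : Tendsto (fun k => (JJ k : ℝ)) atTop atTop := tendsto_natCast_atTop_atTop.comp JJ_tendsto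

theorem invJ : Tendsto (fun k => 1 / (JJ k : ℝ)) atTop (𝓝 0) := by
  simp only [one_div]
  exact tendsto_inv_atTop_zero.comp JJr

theorem QQ_tendsto : Tendsto (fun k => QQ (JJ k)) atTop (𝓝 1) := by
  have := invJ.const_sub 1
  rwa [sub_zero] at this

theorem RR_tendsto : Tendsto RR atTop (𝓝 1) := by
  have h := QQ_tendsto.inv₀ one_ne_zero
  rw [inv_one] at h
  exact Tendsto.if' h QQ_tendsto

theorem AA_ratio : Tendsto (fun k => AA (k + 1) / AA k) atTop (𝓝 1) := by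
  have h := (invJ.const_add 1).pow 3
  simp only [add_zero, one_pow] at h
  refine tendsto_of_tendsto_of_tendsto_of_le_of_le tendsto_const_nhds h (fun k => ?_) (fun k => ?_)
  · have hj : (10 : ℝ) ≤ JJ k := by exact_mod_cast JJ_ge k
    rw [one_le_div (AA_pos k)]
    unfold AA
    rcases JJ_succ k with h | ⟨h, -⟩ <;> rw [h]
    push_cast
    exact pow_le_pow_left₀ (by linarith) (by linarith) 3
  · have hj : (10 : ℝ) ≤ JJ k := by exact_mod_cast JJ_ge k
    show AA (k + 1) / AA k ≤ (1 + 1 / (JJ k : ℝ)) ^ 3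
    unfold AA
    rw [← div_pow]
    apply pow_le_pow_left₀ (by positivity)
    rw [div_le_iff₀ (by linarith), add_mul, one_div_mul_cancel (by linarith), one_mul]
    rcases JJ_succ k with h | ⟨h, -⟩ <;> rw [h]
    · linarith
    · push_cast; rfl

theorem BB_ge (k : ℕ) : AA k * (9 / 10) ≤ BB k := by
  have h1 : 9 / 10 ≤ RR k := by
    obtain ⟨q1, q2⟩ := QQ_bd _ (JJ_ge k)
    unfold RR
    split_ifs
    · have := (one_le_inv₀ (by linarith)).mpr q2.le
      linarith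
    · exact q1
  have h2 := mul_le_mul_of_nonneg_left h1 (AA_pos k).le
  unfold BB
  split_ifs
  · linarith
  · have := div_pos (AA_pos (k - 1)) (RR_pos (k - 1))
    linarith

theorem BB_tendsto : Tendsto BB atTop atTop := by
  refine tendsto_atTop_mono BB_ge (Tendsto.atTop_mul_const (by norm_num) ?_)
  exact (tendsto_pow_atTop (by norm_num)).comp JJr

theorem BB_ratio : Tendsto (fun k => BB (k + 1) / AA k) atTop (𝓝 2) := by
  have h := (RR_tendsto.inv₀ one_ne_zero).add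
    (AA_ratio.mul (RR_tendsto.comp (tendsto_add_atTop_nat 1)))
  norm_num at h
  refine h.congr fun k => ?_
  have := (AA_pos k).ne'
  have := (RR_pos k).ne'
  simp only [BB, Nat.add_one_ne_zero, if_false, Nat.add_sub_cancel]
  field_simp

theorem ratio : Tendsto (fun n => AA n ^ 2 / (BB n * BB (n + 1))) atTop (𝓝 (1 / 4 : ℝ)) := by
  rw [← tendsto_add_atTop_iff_nat 1]
  have h1 := BB_ratio.div AA_ratio one_ne_zero
  have h2 := (h1.mul (BB_ratio.comp (tendsto_add_atTop_nat 1))).inv₀ (by norm_num)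
  norm_num at h2
  refine h2.congr fun k => ?_
  have := (AA_pos k).ne'
  have := (AA_pos (k + 1)).ne'
  field_simp

theorem not_summable : ¬ Summable fun k => 1 / AA k := by
  intro h
  apply Real.not_summable_one_div_natCast
  rw [← summable_nat_add_iff 1024]
  refine Summable.of_nonneg_of_le (fun k => by positivity) (fun k => ?_) h
  apply one_div_le_one_div_of_le (AA_pos k)
  have h1 := cube_le _ (JJ_ge k)
  have h2 := (JJ_bd k).1
  rw [two_LL _ (JJ_ge k)] at h2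
  unfold AA
  exact_mod_cast h1.trans h2

theorem pos_form (x : ℕ → ℂ) (N : ℕ) (hx : x (N + 1) = 0) :
    0 ≤ ∑ k ∈ range (N + 1), (Cop AA BB x k * conj (x k)).re := by
  have h := formLB AA BB RR AA_pos RR_pos x N
  have e : ∀ k, BB k - AA k * RR k - (if k = 0 then 0 else AA (k - 1) / RR (k - 1)) = 0 := by
    intro k; unfold BB; ring
  simp only [e, zero_mul, sum_const_zero, hx, Complex.zero_re, mul_zero, sub_zero, zero_add] at h
  refine le_trans ?_ h
  have := AA_pos N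
  have := RR_pos N
  positivity

theorem Cop_zero (a b : ℕ → ℝ) (x : ℕ → ℂ) (N : ℕ) (hx : ∀ k, N ≤ k → x k = 0) (t : ℂ) (k : ℕ)
    (hk : N + 1 ≤ k) : Cop a b x k - t * x k = 0 := by
  unfold Cop
  rw [if_neg (by omega), hx (k - 1) (by omega), hx k (by omega), hx (k + 1) (by omega)]
  simp

theorem tsum1 (a b : ℕ → ℝ) (x : ℕ → ℂ) (N : ℕ) (hx : ∀ k, N ≤ k → x k = 0) (t : ℂ) :
    ∑' k, ‖Cop a b x k - t * x k‖ ^ 2 = ∑ k ∈ range (N + 1), ‖Cop a b x k - t * x k‖ ^ 2 :=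
  tsum_eq_sum fun k hk => by
    rw [Cop_zero a b x N hx t k (by simpa using hk)]; simp

theorem tsum2 (x : ℕ → ℂ) (N : ℕ) (hx : ∀ k, N ≤ k → x k = 0) :
    ∑' k, ‖x k‖ ^ 2 = ∑ k ∈ range (N + 1), ‖x k‖ ^ 2 :=
  tsum_eq_sum fun k hk => by
    rw [hx k (by simp at hk; omega)]; simp

theorem fin_bd (x : ℕ →₀ ℂ) : ∃ N, ∀ k, N ≤ k → x k = 0 := by
  obtain ⟨N, hN⟩ := x.support.bddAbove
  refine ⟨N + 1, fun k hk => ?_⟩
  by_contra h
  have := hN (Finsupp.mem_support_iff.mpr h)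
  omega

theorem sum_pos (x : ℕ → ℂ) (N : ℕ) (hx : ∀ k, N ≤ k → x k = 0) (h : x ≠ 0) :
    0 < ∑ k ∈ range (N + 1), ‖x k‖ ^ 2 := by
  obtain ⟨k, hk⟩ := Function.ne_iff.mp h
  refine lt_of_lt_of_le (pow_pos (norm_pos_iff.mpr hk) 2)
    (single_le_sum (f := fun k => ‖x k‖ ^ 2) (fun k _ => by positivity) (mem_range.mpr ?_))
  by_contra h2
  exact hk (hx k (by omega))

def SS : Set ℝ := {t : ℝ | ∀ ε : ℝ, 0 < ε → ∀ n : ℕ, ∃ V : Submodule ℂ (ℕ →₀ ℂ),
  Module.finrank ℂ V = n ∧ ∀ x ∈ V,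
    ∑' k : ℕ, ‖Cop AA BB x k - (t : ℂ) * x k‖ ^ 2 ≤ ε ^ 2 * ∑' k : ℕ, ‖x k‖ ^ 2}

theorem exists_vec (t : ℝ) (ht : t ∈ SS) (ε : ℝ) (hε : 0 < ε) : ∃ x : ℕ → ℂ, x ≠ 0 ∧
    (∃ N, ∀ k, N ≤ k → x k = 0) ∧
    ∑' k : ℕ, ‖Cop AA BB x k - (t : ℂ) * x k‖ ^ 2 ≤ ε ^ 2 * ∑' k : ℕ, ‖x k‖ ^ 2 := by
  obtain ⟨V, h1, h2⟩ := ht ε hε 1
  have : V ≠ ⊥ := by
    rintro rfl
    simp at h1
  obtain ⟨x, hx, hx0⟩ := V.ne_bot_iff.mp this
  exact ⟨x, fun h => hx0 (Finsupp.ext fun k => congrFun h k), fin_bd x, h2 x hx⟩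

theorem SS_nonneg (t : ℝ) (ht : t ∈ SS) : 0 ≤ t := by
  by_contra h
  have h := not_le.mp h
  obtain ⟨x, h0, ⟨N, hN⟩, h1⟩ := exists_vec t ht (-t / 2) (by linarith)
  rw [tsum1 _ _ x N hN, tsum2 x N hN] at h1
  have h2 := below AA BB x N t h (pos_form x N (hN _ (by omega)))
  have h3 := sum_pos x N hN h0
  have h4 : 0 < t ^ 2 := by nlinarith
  nlinarith [mul_pos h4 h3]

theorem ctr_J (j : ℕ) (hj : 10 ≤ j) : 3 * LL j - 1024 + 1024 = 3 * LL j ∧ JJ (3 * LL j - 1024) = j := by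
  have h1 := two_LL j hj
  have h2 : 2 ^ 10 ≤ 2 ^ j := Nat.pow_le_pow_right (by norm_num) hj
  exact ⟨by omega, JJ_eq _ _ hj (by omega) (by omega)⟩

theorem UU_ctr (j : ℕ) (hj : 10 ≤ j) : 1 / 2 ≤ |UU (3 * LL j - 1024)| := by
  obtain ⟨h1, h2⟩ := ctr_J j hj
  unfold UU
  rw [h1, h2, abs_mul, abs_pow, abs_neg, abs_one, one_pow, one_mul]
  exact (vv_ctr j hj).trans (le_abs_self _)

theorem one_not : (1 : ℝ) ∉ SS := by
  intro ht
  obtain ⟨x, h0, ⟨N, hN⟩, h1⟩ := exists_vec 1 ht (1 / 8) (by norm_num)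
  set γ : ℕ → ℂ := fun j => x (3 * LL j - 1024) / (UU (3 * LL j - 1024) : ℝ) with hγ
  set M := 2 * N + 1024 with hM
  have hψ : ∀ k, M ≤ k → psi γ k = 0 := by
    intro k hk
    have := (JJ_bd k).2
    unfold psi
    simp only [hγ]
    rw [hN _ (by omega)]; simp
  have hx : ∀ k, M ≤ k → x k = 0 := fun k hk => hN k (by omega)
  have e : x = (x - psi γ) + psi γ := by simp
  have hw : ∀ k, k + 1024 = 3 * LL (JJ k) → (x - psi γ) k = 0 := by
    intro k hk
    have h2 : 3 * LL (JJ k) - 1024 = k := by omega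
    have h3 := UU_ctr _ (JJ_ge k)
    rw [h2] at h3
    have h4 : ((UU k : ℝ) : ℂ) ≠ 0 := by
      rw [Complex.ofReal_ne_zero]; intro h; rw [h] at h3; norm_num at h3
    simp only [Pi.sub_apply, psi, hγ, h2]
    rw [div_mul_cancel₀ _ h4, sub_self]
  have hw0 : (x - psi γ) (M + 1) = 0 := by
    rw [Pi.sub_apply, hx _ (by omega), hψ _ (by omega), sub_zero]
  have g := gap AA BB (x - psi γ) (psi γ) M hw0 (hψ _ (by omega)) ?_ ?_
  · rw [← e] at g
    rw [tsum1 _ _ x M hx, tsum2 x M hx] at h1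
    have h3 := sum_pos x M hx h0
    simp only [Complex.ofReal_one, one_mul] at h1
    linarith
  · have h := formLB AA BB (fun _ => 1) AA_pos (fun _ => one_pos) (x - psi γ) M
    rw [hw0] at h
    simp only [zero_mul, Complex.zero_re, mul_zero, sub_zero] at h
    refine le_trans ?_ h
    rw [mul_sum]
    refine le_trans (sum_le_sum fun k _ => ?_) (le_add_of_nonneg_right ?_)
    · by_cases hk : k + 1024 = 3 * LL (JJ k)
      · rw [hw k hk]; simp
      · exact mul_le_mul_of_nonneg_right (wt_ge k hk) (sq_nonneg _)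
    · exact mul_nonneg (mul_nonneg (AA_pos M).le zero_le_one) (sq_nonneg _)
  · rw [mul_sum]
    exact sum_le_sum fun k _ => psi_form γ k

noncomputable def gam (j0 n : ℕ) (c : Fin n → ℂ) (j : ℕ) : ℂ :=
  if h : j0 ≤ j ∧ j - j0 < n then c ⟨j - j0, h.2⟩ else 0

theorem psi_gam_zero (j0 n : ℕ) (c : Fin n → ℂ) (k : ℕ) (hk : 2 ^ (j0 + n) ≤ k) :
    psi (gam j0 n c) k = 0 := by
  have : j0 + n ≤ JJ k := by
    unfold JJ
    exact Nat.le_log_of_pow_le (by norm_num) (by omega)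
  unfold psi gam
  rw [dif_neg (by omega), zero_mul]

noncomputable def Phi (j0 n : ℕ) : (Fin n → ℂ) →ₗ[ℂ] (ℕ →₀ ℂ) where
  toFun c := Finsupp.onFinset (range (2 ^ (j0 + n))) (psi (gam j0 n c)) fun k hk => by
    by_contra h
    exact hk (psi_gam_zero j0 n c k (by simpa using h))
  map_add' c d := by
    ext k
    simp only [Finsupp.onFinset_apply, Finsupp.add_apply, psi, gam, Pi.add_apply]
    split_ifs <;> ring
  map_smul' s c := by
    ext k
    simp only [Finsupp.onFinset_apply, Finsupp.smul_apply, psi, gam, Pi.smul_apply, smul_eq_mul,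
      RingHom.id_apply]
    split_ifs <;> ring

theorem Phi_apply (j0 n : ℕ) (c : Fin n → ℂ) : ⇑(Phi j0 n c) = psi (gam j0 n c) := rfl

theorem Phi_ctr (j0 n : ℕ) (hj : 10 ≤ j0) (c : Fin n → ℂ) (i : Fin n) :
    ‖c i‖ / 2 ≤ ‖psi (gam j0 n c) (3 * LL (j0 + i) - 1024)‖ := by
  have h1 := (ctr_J (j0 + i) (by omega)).2
  have h2 := UU_ctr (j0 + i) (by omega)
  unfold psi gam
  rw [h1, dif_pos ⟨by omega, by simp⟩, norm_mul, Complex.norm_real, Real.norm_eq_abs]
  simp only [Nat.add_sub_cancel_left, Fin.eta]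
  nlinarith [norm_nonneg (c i)]

theorem zero_mem : (0 : ℝ) ∈ SS := by
  intro ε hε n
  have hl : Tendsto (fun j : ℕ => 32 * 2 ^ n * (1 / 2 : ℝ) ^ j) atTop (𝓝 (32 * 2 ^ n * 0)) :=
    (tendsto_pow_atTop_nhds_zero_of_lt_one (by norm_num) (by norm_num)).const_mul _
  rw [mul_zero] at hl
  obtain ⟨j0, hj1, hj2⟩ := ((hl.eventually (ge_mem_nhds (pow_pos hε 2))).and
    (eventually_ge_atTop 10)).exists
  refine ⟨LinearMap.range (Phi j0 n), ?_, ?_⟩
  · rw [LinearMap.finrank_range_of_inj, Module.finrank_fin_fun]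
    rw [injective_iff_map_eq_zero]
    intro c hc
    ext i
    have := Phi_ctr j0 n hj2 c i
    rw [← Phi_apply, hc] at this
    simp only [Finsupp.coe_zero, Pi.zero_apply, norm_zero] at this
    exact norm_le_zero_iff.mp (by linarith)
  · rintro x ⟨c, rfl⟩
    rw [Phi_apply, tsum1 _ _ _ _ (psi_gam_zero j0 n c), tsum2 _ _ (psi_gam_zero j0 n c)]
    set T := ∑ k ∈ range (2 ^ (j0 + n) + 1), ‖psi (gam j0 n c) k‖ ^ 2 with hT
    have hT0 : 0 ≤ T := sum_nonneg fun k _ => by positivity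
    have hG : ∀ j, ‖gam j0 n c j‖ ≤ 2 * Real.sqrt T := by
      intro j
      unfold gam
      split_ifs with h
      · have h1 := Phi_ctr j0 n hj2 c ⟨j - j0, h.2⟩
        have h2 : ‖psi (gam j0 n c) (3 * LL (j0 + (j - j0)) - 1024)‖ ≤ Real.sqrt T := by
          apply Real.le_sqrt_of_sq_le
          by_cases hk : 3 * LL (j0 + (j - j0)) - 1024 ∈ range (2 ^ (j0 + n) + 1)
          · exact single_le_sum (f := fun k => ‖psi (gam j0 n c) k‖ ^ 2)
              (fun k _ => sq_nonneg _) hk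
          · rw [psi_gam_zero j0 n c _ (by simp at hk; omega)]; simpa using hT0
        simp only at h1
        linarith
      · rw [norm_zero]; positivity
    have h0 : ∀ j < j0, gam j0 n c j = 0 := fun j hj => by
      unfold gam; rw [dif_neg (by omega)]
    have hb : ∀ k ∈ range (2 ^ (j0 + n) + 1), ‖Cop AA BB (psi (gam j0 n c)) k
        - ((0 : ℝ) : ℂ) * psi (gam j0 n c) k‖ ^ 2 ≤ 16 * T * (1 / 64) ^ j0 := by
      intro k _
      rw [Complex.ofReal_zero, zero_mul, sub_zero]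
      refine (pow_le_pow_left₀ (norm_nonneg _) (Cop_small _ _ j0 hG h0 k) 2).trans (le_of_eq ?_)
      rw [mul_pow, mul_pow, mul_pow, Real.sq_sqrt hT0, ← pow_mul, mul_comm j0 2, pow_mul]
      norm_num
      ring
    refine (sum_le_sum hb).trans ?_
    rw [sum_const, card_range, nsmul_eq_mul]
    push_cast
    have a1 : (1 : ℝ) ≤ 2 ^ (j0 + n) := one_le_pow₀ (by norm_num)
    have a2 : (2 : ℝ) ^ j0 * (1 / 64) ^ j0 ≤ (1 / 2) ^ j0 := by
      rw [← mul_pow]; exact pow_le_pow_left₀ (by norm_num) (by norm_num) _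
    have a3 : (0 : ℝ) < (1 / 64) ^ j0 := by positivity
    have a4 : (0 : ℝ) < 2 ^ n := by positivity
    calc (2 ^ (j0 + n) + 1) * (16 * T * (1 / 64 : ℝ) ^ j0)
        ≤ (2 * 2 ^ (j0 + n)) * (16 * T * (1 / 64 : ℝ) ^ j0) := by gcongr; linarith
      _ = 32 * 2 ^ n * (2 ^ j0 * (1 / 64) ^ j0) * T := by rw [pow_add]; ring
      _ ≤ 32 * 2 ^ n * (1 / 2) ^ j0 * T := by gcongr
      _ ≤ ε ^ 2 * T := by gcongr

end Pool.Agent.H15.CH3
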