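import Mathlib

set_option autoImplicit false
open Finset

namespace Pool.Agent.H15.CS

/-- subset sums of the first `l` terms -/
def PP (b : ℕ → ℕ) (l z : ℕ) : Prop := ∃ F : Finset ℕ, F ⊆ range l ∧ ∑ i ∈ F, b i = z

/-- partial sums -/
def SS (b : ℕ → ℕ) (l : ℕ) : ℕ := ∑ i ∈ range l, b i

/-- a missing sum in the middle range -/
def Hole (b : ℕ → ℕ) (c l z : ℕ) : Prop := c ≤ z ∧ z + c ≤ SS b l ∧ ¬ PP b l z

/-- a chain of `k+1` holes with gaps at most `c` -/
def Ch (b : ℕ → ℕ) (c l k : ℕ) (g : ℕ → ℕ) : Prop :=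
  (∀ i, i ≤ k → Hole b c l (g i)) ∧ ∀ i, i < k → g i < g (i + 1) ∧ g (i + 1) ≤ g i + c

lemma PP_add (b : ℕ → ℕ) (l t p : ℕ) (V : Finset ℕ) (hlt : l ≤ t) (hp : PP b l p)
    (hV : V ⊆ Ico l t) : PP b t (p + ∑ i ∈ V, b i) := by
  obtain ⟨F, h1, h2⟩ := hp
  refine ⟨F ∪ V, ?_, ?_⟩
  · intro x hx
    rw [mem_union] at hx
    rcases hx with hx | hx
    · have := mem_range.1 (h1 hx); exact mem_range.2 (by omega)
    · have := mem_Ico.1 (hV hx); exact mem_range.2 (by omega)
  · rw [Finset.sum_union, h2]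
    rw [Finset.disjoint_left]
    intro x h3 h4
    have := mem_range.1 (h1 h3)
    have := mem_Ico.1 (hV h4)
    omega

lemma PP_symm (b : ℕ → ℕ) (l p : ℕ) (hp : PP b l p) : PP b l (SS b l - p) := by
  obtain ⟨F, h1, h2⟩ := hp
  refine ⟨range l \ F, sdiff_subset, ?_⟩
  have := Finset.sum_sdiff (f := b) h1
  unfold SS
  omega

lemma SS_Ico (b : ℕ → ℕ) (l t : ℕ) (h : l ≤ t) : SS b l + ∑ i ∈ Ico l t, b i = SS b t :=
  Finset.sum_range_add_sum_Ico b h

section main
variable (b : ℕ → ℕ) (c l1 : ℕ)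
  (hmono : ∀ u v, l1 ≤ u → u ≤ v → b u ≤ b v)
  (hcomp : ∀ n, c ≤ n → ∃ F : Finset ℕ, ∑ i ∈ F, b i = n)
  (hδ : ∀ t, l1 ≤ t → b t + 4 * c ≤ SS b t)
  (hbig : ∀ t, l1 ≤ t → 2 * c ≤ b t)
  (hunb : ∀ M, ∃ t, l1 ≤ t ∧ M < b t)
include hmono hcomp

lemma PP_low (l z : ℕ) (hl : l1 ≤ l) (h1 : c ≤ z) (h2 : z < b l) : PP b l z := by
  obtain ⟨F, hF⟩ := hcomp z h1
  refine ⟨F, fun x hx => ?_, hF⟩
  rw [mem_range]
  by_contra hh
  have a1 := hmono l x hl (by omega)
  have a2 : b x ≤ ∑ i ∈ F, b i := Finset.single_le_sum (f := b) (fun _ _ => Nat.zero_le _) hx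
  omega

include hδ hbig

lemma block (l t k : ℕ) (g : ℕ → ℕ) (hl : l1 ≤ l) (hlt : l < t) (ht : b l + c < b t)
    (ht' : b (t - 1) ≤ b l + c) (hg : Ch b c t k g) :
    (SS b t ≤ SS b l + g 0 ∧ Ch b c l k (fun i => g i - (SS b t - SS b l))) ∨
      ∃ g', Ch b c l (k + 1) g' := by
  classical
  have gm : ∀ i, i ≤ k → g 0 ≤ g i := by
    intro i
    induction i with
    | zero => intro _; exact le_rfl
    | succ i ih => intro hi; have := ih (by omega); have := (hg.2 i (by omega)).1; omega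
  have g0 : b t ≤ g 0 := by
    by_contra hh
    exact (hg.1 0 (Nat.zero_le _)).2.2
      (PP_low b c l1 hmono hcomp t _ (by omega) (hg.1 0 (Nat.zero_le _)).1 (by omega))
  have nP : ∀ i, i ≤ k → ∀ V : Finset ℕ, V ⊆ Ico l t → ∑ x ∈ V, b x ≤ g i →
      ¬ PP b l (g i - ∑ x ∈ V, b x) := by
    intro i hi V hV h1 h2
    have := PP_add b l t _ V hlt.le h2 hV
    rw [Nat.sub_add_cancel h1] at this
    exact (hg.1 i hi).2.2 this
  by_cases hall : ∑ x ∈ Ico l t, b x + c ≤ g 0
  · left
    have e := SS_Ico b l t hlt.le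
    refine ⟨by omega, fun i hi => ?_, fun i hi => ?_⟩
    · have a1 := gm i hi
      have a2 := (hg.1 i hi).2.1
      have a3 := nP i hi _ subset_rfl (by omega)
      refine ⟨by simp only; omega, by simp only; omega, ?_⟩
      simp only
      rwa [show SS b t - SS b l = ∑ x ∈ Ico l t, b x by omega]
    · have a1 := gm i (by omega)
      have a2 := hg.2 i hi
      simp only
      omega
  right
  have hex : ∃ u, l < u ∧ u < t ∧ ∑ x ∈ Ico l u, b x + c ≤ g 0 ∧
      g 0 < ∑ x ∈ Ico l u, b x + b u + c := by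
    by_contra hh
    push Not at hh
    have : ∀ u, l < u → u ≤ t → ∑ x ∈ Ico l u, b x + c ≤ g 0 := by
      intro u hu
      induction u, hu using Nat.le_induction with
      | base => intro _; simp; omega
      | succ u hu ih =>
        intro h
        have a1 := hh u hu (by omega) (ih (by omega))
        rw [Finset.sum_Ico_succ_top (by omega)]
        omega
    exact hall (this t hlt le_rfl)
  obtain ⟨u, u1, u2, u3, u4⟩ := hex
  obtain ⟨σ, hσ⟩ : ∃ σ, σ = ∑ x ∈ Ico l u, b x := ⟨_, rfl⟩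
  have hσ' : ∑ x ∈ Ico l (u + 1), b x = σ + b u := by
    rw [Finset.sum_Ico_succ_top (by omega), hσ]
  rw [← hσ] at u3 u4
  have bu1 : b l ≤ b u := hmono l u hl u1.le
  have bu2 : b u ≤ b (t - 1) := hmono u (t - 1) (by omega) (by omega)
  have bl := hbig l hl
  have dl := hδ l hl
  have up : ∀ i, i ≤ k → g i < σ + b u + c := by
    intro i
    induction i with
    | zero => intro _; exact u4
    | succ i ih =>
      intro hi
      have a1 := ih (by omega)
      have a2 := hg.2 i (by omega)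
      by_contra hh
      have a3 := nP (i + 1) hi (Ico l (u + 1)) (Ico_subset_Ico le_rfl (by omega)) (by omega)
      rw [hσ'] at a3
      exact a3 (PP_low b c l1 hmono hcomp l _ hl (by omega) (by omega))
  have h1 : ∀ i, i ≤ k → Hole b c l (g i - σ) := by
    intro i hi
    have a1 := gm i hi
    have a2 := up i hi
    have a3 := nP i hi (Ico l u) (Ico_subset_Ico le_rfl (by omega)) (by omega)
    rw [← hσ] at a3
    exact ⟨by omega, by omega, a3⟩
  have h2 : b l ≤ g 0 - σ := by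
    by_contra hh
    exact (h1 0 (Nat.zero_le _)).2.2
      (PP_low b c l1 hmono hcomp l _ hl (h1 0 (Nat.zero_le _)).1 (by omega))
  by_cases heq : b (t - 1) = b l
  · exfalso
    obtain ⟨F, hF1, hF2⟩ := PP_low b c l1 hmono hcomp t (g 0 - σ) (by omega) (by omega) (by omega)
    have a1 : ∃ w ∈ F, l ≤ w := by
      by_contra hh
      push Not at hh
      exact (h1 0 (Nat.zero_le _)).2.2 ⟨F, fun x hx => mem_range.2 (hh x hx), hF2⟩
    obtain ⟨w, w1, w2⟩ := a1
    have a2 := Finset.add_sum_erase F b w1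
    have a3 := hmono l w hl w2
    have a4 := hmono w (t - 1) (by omega) (by have := mem_range.1 (hF1 w1); omega)
    have a5 : PP b l (∑ x ∈ F.erase w, b x) := by
      refine ⟨F.erase w, fun x hx => ?_, rfl⟩
      rw [mem_range]
      by_contra hh
      have c1 := hmono l x hl (by omega)
      have c2 : b x ≤ ∑ i ∈ F.erase w, b i :=
        Finset.single_le_sum (f := b) (fun _ _ => Nat.zero_le _) hx
      omega
    have a6 := nP 0 (Nat.zero_le _) (Ico l (u + 1)) (Ico_subset_Ico le_rfl (by omega)) (by omega)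
    rw [hσ'] at a6
    apply a6
    rwa [show g 0 - (σ + b u) = ∑ x ∈ F.erase w, b x by omega]
  have a1 : ∑ x ∈ insert (t - 1) (Ico (l + 1) u), b x + b l = σ + b (t - 1) := by
    rw [Finset.sum_insert (by simp; omega), hσ, Finset.sum_eq_sum_Ico_succ_bot u1]
    ring
  have a2 : insert (t - 1) (Ico (l + 1) u) ⊆ Ico l t := by
    intro x hx
    rw [mem_insert, mem_Ico] at hx
    rw [mem_Ico]; omega
  obtain ⟨τ, hτ⟩ : ∃ τ, τ = ∑ x ∈ insert (t - 1) (Ico (l + 1) u), b x := ⟨_, rfl⟩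
  rw [← hτ] at a1
  have h3 : ∀ i, i ≤ k → Hole b c l (g i - τ) := by
    intro i hi
    have c1 := gm i hi
    have c2 := up i hi
    have c3 := nP i hi _ a2 (by omega)
    rw [← hτ] at c3
    exact ⟨by omega, by omega, c3⟩
  refine ⟨fun i => if i ≤ k then g i - τ else g k - σ, fun i hi => ?_, fun i hi => ?_⟩
  · simp only
    split_ifs with h
    · exact h3 i h
    · exact h1 k le_rfl
  · simp only
    have c1 := gm i (by omega)
    rw [if_pos (by omega)]
    split_ifs with h
    · have := hg.2 i (by omega)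
      omega
    · have : i = k := by omega
      subst this
      omega

include hunb

lemma next_stage (l : ℕ) (hl : l1 ≤ l) : ∃ t, l < t ∧ b l + c < b t ∧ b (t - 1) ≤ b l + c := by
  classical
  have hex : ∃ t, l ≤ t ∧ b l + c < b t := by
    obtain ⟨t, h1, h2⟩ := hunb (b l + c)
    refine ⟨t, ?_, h2⟩
    by_contra hh
    have := hmono t l h1 (by omega)
    omega
  have h1 := Nat.find_spec hex
  have h2 : l < Nat.find hex := by
    rcases Nat.lt_or_eq_of_le h1.1 with h | h
    · exact h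
    · rw [← h] at h1; omega
  refine ⟨Nat.find hex, h2, h1.2, ?_⟩
  have := Nat.find_min hex (show Nat.find hex - 1 < Nat.find hex by omega)
  push Not at this
  exact this (by omega)

lemma descend (k l : ℕ) (hl : l1 ≤ l) (h : ∀ g, ¬ Ch b c l (k + 1) g) :
    ∃ t, l ≤ t ∧ ∀ g, ¬ Ch b c t k g := by
  have key : ∀ n, ∃ t, l + n ≤ t ∧ (∀ g, ¬ Ch b c t (k + 1) g) ∧
      ∀ g, Ch b c t k g → SS b t ≤ SS b l + g 0 := by
    intro n
    induction n with
    | zero => exact ⟨l, le_rfl, h, fun g _ => by omega⟩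
    | succ n ih =>
      obtain ⟨s, s1, s2, s3⟩ := ih
      obtain ⟨t, t1, t2, t3⟩ := next_stage b c l1 hmono hcomp hδ hbig hunb s (by omega)
      refine ⟨t, by omega, fun g hg => ?_, fun g hg => ?_⟩
      · rcases block b c l1 hmono hcomp hδ hbig s t (k + 1) g (by omega) t1 t2 t3 hg with
          ⟨_, a⟩ | ⟨g', a⟩
        · exact s2 _ a
        · exact s2 g' ⟨fun i hi => a.1 i (by omega), fun i hi => a.2 i (by omega)⟩
      · rcases block b c l1 hmono hcomp hδ hbig s t k g (by omega) t1 t2 t3 hg with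
          ⟨a0, a⟩ | ⟨g', a⟩
        · have h5 : SS b s ≤ SS b l + (g 0 - (SS b t - SS b s)) := s3 _ a
          have := SS_Ico b s t t1.le
          omega
        · exact (s2 g' a).elim
  obtain ⟨n, n1, n2⟩ := hunb (SS b l)
  obtain ⟨t, t1, _, t3⟩ := key n
  refine ⟨t, by omega, fun g hg => ?_⟩
  have a1 := t3 g hg
  have a2 := hg.1 0 (Nat.zero_le _)
  have a3 := hmono n t n1 (by omega)
  have a4 := PP_symm b t _ (PP_low b c l1 hmono hcomp t (SS b t - g 0) (by omega)
    (by have := a2.2.1; omega) (by omega))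
  apply a2.2.2
  rwa [show SS b t - (SS b t - g 0) = g 0 by have := a2.2.1; omega] at a4

theorem full : ∃ l, ∀ t, l ≤ t → ∀ z, c ≤ z → z + c ≤ SS b t → PP b t z := by
  have h1 : ∀ k l, l1 ≤ l → (∀ g, ¬ Ch b c l k g) → ∃ t, l1 ≤ t ∧ ∀ g, ¬ Ch b c t 0 g := by
    intro k
    induction k with
    | zero => intro l hl h; exact ⟨l, hl, h⟩
    | succ k ih =>
      intro l hl h
      obtain ⟨t, t1, t2⟩ := descend b c l1 hmono hcomp hδ hbig hunb k l hl h
      exact ih t (by omega) t2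
  obtain ⟨l, hl, h2⟩ := h1 (SS b l1 + 1) l1 le_rfl (by
    intro g hg
    have a1 : ∀ i, i ≤ SS b l1 + 1 → i ≤ g i := by
      intro i
      induction i with
      | zero => intro _; exact Nat.zero_le _
      | succ i ih => intro hi; have := ih (by omega); have := (hg.2 i (by omega)).1; omega
    have a2 := a1 _ le_rfl
    have a3 := (hg.1 _ le_rfl).2.1
    omega)
  refine ⟨l, fun t ht => ?_⟩
  induction t, ht using Nat.le_induction with
  | base =>
    intro z z1 z2
    by_contra hh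
    exact h2 (fun _ => z) ⟨fun _ _ => ⟨z1, z2, hh⟩, fun i hi => by omega⟩
  | succ t ht ih =>
    intro z z1 z2
    have a1 := hδ t (by omega)
    have a2 : SS b (t + 1) = SS b t + b t := Finset.sum_range_succ b t
    by_cases hz : z + c ≤ SS b t
    · have := PP_add b t (t + 1) _ ∅ (by omega) (ih z z1 hz) (empty_subset _)
      simpa using this
    · have := PP_add b t (t + 1) _ {t} (by omega) (ih (z - b t) (by omega) (by omega)) (by simp)
      rwa [Finset.sum_singleton, Nat.sub_add_cancel (by omega)] at this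

end main

/-- complete after deleting the indices in `R` -/
def Cp (a : ℕ → ℕ) (R : Finset ℕ) : Prop :=
  ∃ N : ℕ, ∀ n : ℕ, N ≤ n → ∃ F : Finset ℕ, Disjoint F R ∧ ∑ i ∈ F, a i = n

lemma Cp_mono (a : ℕ → ℕ) (R R' : Finset ℕ) (h : R ⊆ R') (h' : Cp a R') : Cp a R := by
  obtain ⟨N, hN⟩ := h'
  refine ⟨N, fun n hn => ?_⟩
  obtain ⟨F, h1, h2⟩ := hN n hn
  exact ⟨F, Finset.disjoint_of_subset_right h h1, h2⟩

lemma sum_del (a : ℕ → ℕ) (R F : Finset ℕ) :
    ∑ i ∈ F, (if i ∈ R then 0 else a i) = ∑ i ∈ F \ R, a i := by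
  rw [Finset.sdiff_eq_filter, Finset.sum_filter]
  apply Finset.sum_congr rfl
  intro i _
  split_ifs <;> rfl

lemma slack (a : ℕ → ℕ) (hm : Monotone a) (hu : ∀ M, ∃ t, M < a t) (u : ℕ) (h : Cp a {u}) :
    ∃ t0, ∀ t, t0 ≤ t → a t + a u ≤ SS a t + 1 := by
  obtain ⟨N, hN⟩ := h
  obtain ⟨s, hs⟩ := hu N
  refine ⟨s + u + 1, fun t ht => ?_⟩
  have a1 := hm (show s ≤ t by omega)
  obtain ⟨F, h1, h2⟩ := hN (a t - 1) (by omega)
  have a2 : insert u F ⊆ range t := by
    intro x hx
    rw [mem_insert] at hx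
    rw [mem_range]
    rcases hx with hx | hx
    · omega
    · by_contra hh
      have c1 := hm (show t ≤ x by omega)
      have c2 : a x ≤ ∑ i ∈ F, a i := Finset.single_le_sum (f := a) (fun _ _ => Nat.zero_le _) hx
      omega
  have a3 := Finset.sum_le_sum_of_subset (f := a) a2
  rw [Finset.sum_insert (by simpa using h1), h2] at a3
  unfold SS
  omega

lemma extend (a : ℕ → ℕ) (hm : Monotone a) (hu : ∀ M, ∃ t, M < a t)
    (h2 : ∀ k, Cp a {k, k + 1}) (R : Finset ℕ) (hR : Cp a R) :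
    ∃ k, k ∉ R ∧ Cp a (insert k R) := by
  obtain ⟨c, hc⟩ := hR
  obtain ⟨D, hD⟩ : ∃ D, D = ∑ i ∈ R, a i := ⟨_, rfl⟩
  obtain ⟨u, hu1⟩ := hu (D + 4 * c)
  obtain ⟨t0, ht0⟩ := slack a hm hu u (Cp_mono a _ _ (by simp) (h2 u))
  obtain ⟨r, hr⟩ : ∃ r, ∀ x ∈ R, x < r :=
    ⟨R.sup id + 1, fun x hx => Nat.lt_succ_of_le (Finset.le_sup (f := id) hx)⟩
  obtain ⟨b, hb⟩ : ∃ b : ℕ → ℕ, b = fun i => if i ∈ R then 0 else a i := ⟨_, rfl⟩
  have b1 : ∀ t, r ≤ t → b t = a t := by
    intro t ht
    rw [hb]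
    exact if_neg (fun h => by have := hr t h; omega)
  have b2 : ∀ t, r ≤ t → SS b t + D = SS a t := by
    intro t ht
    unfold SS
    rw [hb, sum_del, hD]
    exact Finset.sum_sdiff (fun x hx => mem_range.2 (by have := hr x hx; omega))
  obtain ⟨l, hl⟩ := full b c (r + u + t0)
    (fun x y hx hxy => by rw [b1 x (by omega), b1 y (by omega)]; exact hm hxy)
    (fun n hn => by
      obtain ⟨F, h1, h3⟩ := hc n hn
      exact ⟨F, by rw [hb, sum_del, Finset.sdiff_eq_self_of_disjoint h1, h3]⟩)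
    (fun t ht => by
      have := ht0 t (by omega)
      have := b1 t (by omega)
      have := b2 t (by omega)
      omega)
    (fun t ht => by
      have := hm (show u ≤ t by omega)
      have := b1 t (by omega)
      omega)
    (fun M => by
      obtain ⟨s, hs⟩ := hu M
      have := hm (show s ≤ s + (r + u + t0) by omega)
      exact ⟨s + (r + u + t0), by omega, by rw [b1 _ (by omega)]; omega⟩)
  obtain ⟨k, hk⟩ : ∃ k, k = l + r + u := ⟨_, rfl⟩
  refine ⟨k + 1, fun h => by have := hr _ h; omega, ?_⟩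
  obtain ⟨N, hN⟩ := h2 k
  refine ⟨N + c, fun n hn => ?_⟩
  obtain ⟨F, h1, h3⟩ := hN (n - c) (by omega)
  have f1 := Finset.sum_filter_add_sum_filter_not F (fun i => i < k) a
  have f2 : ∑ i ∈ F.filter (fun i => i < k), a i ≤ SS a k :=
    Finset.sum_le_sum_of_subset (fun x hx => mem_range.2 (mem_filter.1 hx).2)
  have f3 : SS a (k + 1) = SS a k + a k := Finset.sum_range_succ a k
  have f4 := b2 (k + 1) (by omega)
  have f5 := hm (show u ≤ k by omega)
  obtain ⟨G, g1, g2⟩ := hl (k + 1) (by omega) (∑ i ∈ F.filter (fun i => i < k), a i + c)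
    (by omega) (by omega)
  rw [hb, sum_del] at g2
  have f6 : ∀ x ∈ F.filter (fun i => ¬ i < k), k + 1 < x := by
    intro x hx
    rw [mem_filter] at hx
    have := Finset.disjoint_left.1 h1 hx.1
    simp only [mem_insert, mem_singleton] at this
    omega
  refine ⟨(G \ R) ∪ F.filter (fun i => ¬ i < k), ?_, ?_⟩
  · rw [Finset.disjoint_left]
    intro x hx hx'
    rw [mem_union] at hx
    rw [mem_insert] at hx'
    rcases hx with hx | hx
    · rw [mem_sdiff] at hx
      have := mem_range.1 (g1 hx.1)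
      rcases hx' with h | h
      · omega
      · exact hx.2 h
    · have := f6 x hx
      rcases hx' with h | h
      · omega
      · have := hr x h; omega
  · rw [Finset.sum_union, g2]
    · omega
    · rw [Finset.disjoint_left]
      intro x hx hx'
      have := mem_range.1 (g1 (mem_sdiff.1 hx).1)
      have := f6 x hx'
      omega

lemma bounded_case (a : ℕ → ℕ) (hm : Monotone a) (M : ℕ) (hM : ∀ t, a t ≤ M) (h : Cp a ∅)
    (n : ℕ) : ∃ R : Finset ℕ, R.card = n ∧ Cp a R := by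
  classical
  obtain ⟨s, hs⟩ : ∃ s, ∀ t, s ≤ t → a t = a s := by
    have hex : ∃ d, ∃ s, a s + d = M := ⟨M - a 0, 0, by have := hM 0; omega⟩
    obtain ⟨s, hs⟩ := Nat.find_spec hex
    refine ⟨s, fun t ht => ?_⟩
    have a1 := hm ht
    have a2 := Nat.find_min' hex (show ∃ s, a s + (M - a t) = M from ⟨t, by have := hM t; omega⟩)
    have := hM t
    omega
  refine ⟨Ico s (s + n), by simp, ?_⟩
  obtain ⟨N, hN⟩ := h
  refine ⟨N, fun z hz => ?_⟩
  obtain ⟨F, _, h2⟩ := hN z hz
  refine ⟨F.image (fun i => if i < s then i else i + n), ?_, ?_⟩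
  · rw [Finset.disjoint_left]
    intro x hx hx'
    obtain ⟨i, _, rfl⟩ := mem_image.1 hx
    rw [mem_Ico] at hx'
    split_ifs at hx' <;> omega
  · rw [Finset.sum_image, ← h2]
    · apply Finset.sum_congr rfl
      intro i _
      split_ifs with h
      · rfl
      · rw [hs _ (by omega), hs i (by omega)]
    · intro x _ y _ hxy
      simp only at hxy
      split_ifs at hxy <;> omega

theorem not_two (a : ℕ → ℕ) (hm : Monotone a) (h2 : ∀ k, Cp a {k, k + 1}) (n : ℕ) :
    ∃ R : Finset ℕ, R.card = n ∧ Cp a R := by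
  have h0 : Cp a ∅ := Cp_mono a _ _ (empty_subset _) (h2 0)
  by_cases hu : ∀ M, ∃ t, M < a t
  · induction n with
    | zero => exact ⟨∅, rfl, h0⟩
    | succ n ih =>
      obtain ⟨R, h1, h3⟩ := ih
      obtain ⟨k, h4, h5⟩ := extend a hm hu h2 R h3
      exact ⟨insert k R, by rw [card_insert_of_notMem h4, h1], h5⟩
  · push Not at hu
    obtain ⟨M, hM⟩ := hu
    exact bounded_case a hm M hM h0 n

lemma brown (b : ℕ → ℕ) (h : ∀ t, b t ≤ SS b t + 1) (t : ℕ) : ∀ z, z ≤ SS b t → PP b t z := by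
  induction t with
  | zero => intro z hz; exact ⟨∅, by simp, by simp [SS] at hz; simp [hz]⟩
  | succ t ih =>
    intro z hz
    have a2 : SS b (t + 1) = SS b t + b t := Finset.sum_range_succ b t
    have a1 := h t
    by_cases hz' : z ≤ SS b t
    · have := PP_add b t (t + 1) _ ∅ (by omega) (ih z hz') (empty_subset _)
      simpa using this
    · have := PP_add b t (t + 1) _ {t} (by omega) (ih (z - b t) (by omega)) (by simp)
      rwa [Finset.sum_singleton, Nat.sub_add_cancel (by omega)] at this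

lemma pow_SS (t : ℕ) : SS (fun i => 2 ^ i) t + 1 = 2 ^ t := by
  induction t with
  | zero => simp [SS]
  | succ t ih =>
    have a2 : SS (fun i => 2 ^ i) (t + 1) = SS (fun i => 2 ^ i) t + 2 ^ t :=
      Finset.sum_range_succ _ t
    rw [a2, pow_succ]; omega

lemma pow_cp : Cp (fun i => 2 ^ i) ∅ := by
  refine ⟨0, fun n _ => ?_⟩
  obtain ⟨F, _, h⟩ := brown (fun i => 2 ^ i) (fun t => by have := pow_SS t; omega) n n
    (by have := pow_SS n; have := Nat.lt_two_pow_self (n := n); omega)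
  exact ⟨F, by simp, h⟩

lemma pow_ncp (u : ℕ) : ¬ Cp (fun i => 2 ^ i) {u} := by
  intro h
  obtain ⟨N, hN⟩ := h
  obtain ⟨s, hs⟩ : ∃ s, s = N + u + 1 := ⟨_, rfl⟩
  have c0 : s < 2 ^ s := Nat.lt_two_pow_self
  obtain ⟨F, h1, h2⟩ := hN (2 ^ s - 1) (by omega)
  have a2 : insert u F ⊆ range s := by
    intro x hx
    rw [mem_insert] at hx
    rw [mem_range]
    rcases hx with hx | hx
    · omega
    · by_contra hh
      have c1 : 2 ^ s ≤ 2 ^ x := Nat.pow_le_pow_right (by norm_num) (by omega)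
      have c2 : 2 ^ x ≤ ∑ i ∈ F, 2 ^ i :=
        Finset.single_le_sum (f := fun i => 2 ^ i) (fun _ _ => Nat.zero_le _) hx
      simp only at h2
      omega
  have a3 := Finset.sum_le_sum_of_subset (f := fun i => 2 ^ i) a2
  rw [Finset.sum_insert (by simpa using h1), h2] at a3
  have a4 : ∑ x ∈ range s, 2 ^ x + 1 = 2 ^ s := pow_SS s
  have a5 : 0 < 2 ^ u := by positivity
  omega

lemma fib_SS (t : ℕ) : SS (fun i => Nat.fib (i + 1)) t + 1 = Nat.fib (t + 2) := by
  induction t with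
  | zero => simp [SS]
  | succ t ih =>
    have a2 : SS (fun i => Nat.fib (i + 1)) (t + 1) = SS (fun i => Nat.fib (i + 1)) t +
      Nat.fib (t + 1) := Finset.sum_range_succ _ t
    have a3 : Nat.fib (t + 1 + 2) = Nat.fib (t + 1) + Nat.fib (t + 2) := Nat.fib_add_two
    omega

lemma fib_cp (u : ℕ) : Cp (fun i => Nat.fib (i + 1)) {u} := by
  obtain ⟨b, hb⟩ : ∃ b : ℕ → ℕ, b = fun i => if i ∈ ({u} : Finset ℕ) then 0 else Nat.fib (i + 1) :=
    ⟨_, rfl⟩
  have b1 : ∀ t, t ≤ u → SS b t + 1 = Nat.fib (t + 2) := by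
    intro t ht
    unfold SS
    rw [hb, sum_del (fun i => Nat.fib (i + 1)), Finset.sdiff_eq_self_of_disjoint (by simp; omega)]
    exact fib_SS t
  have b2 : ∀ t, u < t → SS b t + Nat.fib (u + 1) + 1 = Nat.fib (t + 2) := by
    intro t ht
    have := Finset.sum_sdiff (f := fun i => Nat.fib (i + 1))
      (show ({u} : Finset ℕ) ⊆ range t by simpa using ht)
    rw [Finset.sum_singleton] at this
    unfold SS
    rw [hb, sum_del (fun i => Nat.fib (i + 1)), this]
    exact fib_SS t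
  have b3 : ∀ t, b t ≤ Nat.fib (t + 1) := by
    intro t; rw [hb]; simp only; split_ifs <;> omega
  refine ⟨0, fun n _ => ?_⟩
  obtain ⟨F, _, h⟩ := brown b (fun t => by
      have a1 := b3 t
      have a2 : Nat.fib (t + 2) = Nat.fib t + Nat.fib (t + 1) := Nat.fib_add_two
      by_cases h : t ≤ u
      · have := b1 t h; omega
      · have := b2 t (by omega)
        have : Nat.fib (u + 1) ≤ Nat.fib t := Nat.fib_mono (by omega)
        omega) (n + u + 5) n (by
      have a1 := b2 (n + u + 5) (by omega)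
      have a2 : Nat.fib (n + u + 5 + 2) = Nat.fib (n + u + 5) + Nat.fib (n + u + 5 + 1) :=
        Nat.fib_add_two
      have a3 : Nat.fib (u + 1) ≤ Nat.fib (n + u + 5 + 1) := Nat.fib_mono (by omega)
      have a4 : n + u + 5 ≤ Nat.fib (n + u + 5) := Nat.le_fib_self (by omega)
      omega)
  rw [hb, sum_del (fun i => Nat.fib (i + 1))] at h
  exact ⟨F \ {u}, sdiff_disjoint, h⟩

lemma fib_ncp (i j : ℕ) (hij : i < j) : ¬ Cp (fun i => Nat.fib (i + 1)) {i, j} := by
  have low : ∀ (F : Finset ℕ) (t : ℕ), ∑ x ∈ F, Nat.fib (x + 1) + 1 = Nat.fib (t + 1) →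
      F ⊆ range t := by
    intro F t h x hx
    rw [mem_range]
    by_contra hh
    have c1 : Nat.fib (t + 1) ≤ Nat.fib (x + 1) := Nat.fib_mono (by omega)
    have c2 : Nat.fib (x + 1) ≤ ∑ x ∈ F, Nat.fib (x + 1) :=
      Finset.single_le_sum (f := fun x => Nat.fib (x + 1)) (fun _ _ => Nat.zero_le _) hx
    omega
  have top : ∀ (F : Finset ℕ) (t : ℕ), i < t → i ∉ F → F ⊆ range t →
      ∑ x ∈ F, Nat.fib (x + 1) + 1 < Nat.fib (t + 2) := by
    intro F t h1 h2 h3
    have a2 : insert i F ⊆ range t := insert_subset (mem_range.2 h1) h3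
    have a3 := Finset.sum_le_sum_of_subset (f := fun x => Nat.fib (x + 1)) a2
    rw [Finset.sum_insert h2] at a3
    have a4 : ∑ x ∈ range t, Nat.fib (x + 1) + 1 = Nat.fib (t + 2) := fib_SS t
    have a5 : 0 < Nat.fib (i + 1) := Nat.fib_pos.2 (by omega)
    omega
  have key : ∀ r, ∀ F : Finset ℕ, i ∉ F → j ∉ F →
      ∑ x ∈ F, Nat.fib (x + 1) + 1 ≠ Nat.fib (j + 2 * r + 2) := by
    intro r
    induction r with
    | zero =>
      intro F h1 h2 h3
      have a1 := low F (j + 1) h3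
      have a2 := top F j hij h1 (fun x hx => by
        have := mem_range.1 (a1 hx)
        have : x ≠ j := fun h => h2 (h ▸ hx)
        exact mem_range.2 (by omega))
      simp only [Nat.mul_zero, Nat.add_zero] at h3
      omega
    | succ r ih =>
      intro F h1 h2 h3
      rw [show j + 2 * (r + 1) + 2 = j + 2 * r + 2 + 2 by ring] at h3
      have a1 := low F (j + 2 * r + 2 + 1) h3
      by_cases hm : j + 2 * r + 2 ∈ F
      · have a2 := Finset.add_sum_erase F (fun x => Nat.fib (x + 1)) hm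
        have a3 : Nat.fib (j + 2 * r + 2 + 2) = Nat.fib (j + 2 * r + 2) +
          Nat.fib (j + 2 * r + 2 + 1) := Nat.fib_add_two
        exact ih (F.erase (j + 2 * r + 2)) (fun h => h1 (mem_of_mem_erase h))
          (fun h => h2 (mem_of_mem_erase h)) (by omega)
      · have a2 := top F (j + 2 * r + 2) (by omega) h1 (fun x hx => by
          have := mem_range.1 (a1 hx)
          have : x ≠ j + 2 * r + 2 := fun h => hm (h ▸ hx)
          exact mem_range.2 (by omega))
        omega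
  rintro ⟨N, hN⟩
  have c1 : j + 2 * (N + 3) + 2 ≤ Nat.fib (j + 2 * (N + 3) + 2) := Nat.le_fib_self (by omega)
  obtain ⟨F, h1, h2⟩ := hN (Nat.fib (j + 2 * (N + 3) + 2) - 1) (by omega)
  rw [Finset.disjoint_insert_right, Finset.disjoint_singleton_right] at h1
  exact key (N + 3) F h1.1 h1.2 (by simp only at h2; omega)

end Pool.Agent.H15.CS
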