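import Mathlib

set_option autoImplicit false

namespace Pool.Agent.H15.DP1

/-- The standard example `S 3`: `(i, false)` are the minimal, `(i, true)` the maximal points. -/
def S3 : Type := Fin 3 × Bool

instance : DecidableEq S3 := inferInstanceAs (DecidableEq (Fin 3 × Bool))
instance : Fintype S3 := inferInstanceAs (Fintype (Fin 3 × Bool))

def sle (x y : S3) : Bool := x == y || (!x.2 && y.2 && x.1 != y.1)

instance : PartialOrder S3 where
  le x y := sle x y = true
  le_refl := by decide
  le_trans := by decide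
  le_antisymm := by decide

instance : DecidableRel (fun x y : S3 => x ≤ y) := fun x y =>
  inferInstanceAs (Decidable (sle x y = true))

def pt (i : Fin 3) (b : Bool) : S3 := (i, b)

/-- position of a point of `S3` in the `i`-th linear extension -/
def pos (i : Fin 3) (x : S3) : ℕ :=
  if x.1 = i then (if x.2 then 3 else 4) else if x.2 then 5 + x.1.val else x.1.val

def key (i : Fin 3) (z : (Bool × Bool) × S3) : ℕ :=
  if pos i z.2 ≤ 3 then 20 * z.1.1.toNat + 10 * z.1.2.toNat + pos i z.2
  else 100 + 20 * z.1.2.toNat + 10 * z.1.1.toNat + pos i z.2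

theorem key_inj : ∀ i x y, key i x ≤ key i y → key i y ≤ key i x → x = y := by decide +kernel

theorem key_le : ∀ x y : (Bool × Bool) × S3, x ≤ y ↔ ∀ i, key i x ≤ key i y := by decide +kernel

theorem pos_inj : ∀ i x y, pos i x ≤ pos i y → pos i y ≤ pos i x → x = y := by decide

theorem pos_le : ∀ x y : S3, x ≤ y ↔ ∀ i, pos i x ≤ pos i y := by decide

def k2 (i : Fin 2) (z : Bool × Bool) : ℕ :=
  if i = 0 then 2 * z.1.toNat + z.2.toNat else 2 * z.2.toNat + z.1.toNat

theorem k2_inj : ∀ i x y, k2 i x ≤ k2 i y → k2 i y ≤ k2 i x → x = y := by decide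

theorem k2_le : ∀ x y : Bool × Bool, x ≤ y ↔ ∀ i, k2 i x ≤ k2 i y := by decide

theorem two_le (a : ℕ) (r : Fin a → Bool × Bool → Bool × Bool → Prop)
    (ht : ∀ i x y, r i x y ∨ r i y x) (h : ∀ x y, x ≤ y ↔ ∀ i, r i x y) : 2 ≤ a := by
  have h1 : ¬ ((true, false) : Bool × Bool) ≤ (false, true) := by decide
  have h2 : ¬ ((false, true) : Bool × Bool) ≤ (true, false) := by decide
  rw [h, not_forall] at h1 h2
  obtain ⟨i, hi⟩ := h1
  obtain ⟨j, hj⟩ := h2
  have hij : i ≠ j := by
    rintro rfl
    exact (ht i _ _).elim hi hj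
  have := i.2
  have := j.2
  have : i.val ≠ j.val := fun e => hij (Fin.ext e)
  omega

theorem three_le (c : ℕ) (r : Fin c → S3 → S3 → Prop)
    (htr : ∀ i x y z, r i x y → r i y z → r i x z)
    (ht : ∀ i x y, r i x y ∨ r i y x) (h : ∀ x y, x ≤ y ↔ ∀ i, r i x y) : 3 ≤ c := by
  have h1 : ∀ k : Fin 3, ∃ i, ¬ r i (pt k false) (pt k true) := by
    intro k
    rw [← not_forall, ← h]
    revert k
    decide
  choose g hg using h1
  have hinj : Function.Injective g := by
    intro k l hkl
    by_contra hne
    have e1 : pt k false ≤ pt l true := by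
      revert hne
      clear hkl
      revert k l
      decide
    have e2 : pt l false ≤ pt k true := by
      revert hne
      clear hkl e1
      revert k l
      decide
    have a1 := (h _ _).1 e1 (g k)
    have a2 := (h _ _).1 e2 (g k)
    have a3 : r (g k) (pt l true) (pt l false) := by
      have := hg l
      rw [← hkl] at this
      exact (ht _ _ _).resolve_left this
    exact hg k (htr _ _ _ _ (htr _ _ _ _ a1 a3) a2)
  simpa using Fintype.card_le_of_injective g hinj

end Pool.Agent.H15.DP1
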