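import Mathlib

/-! Radial profiles of logarithmic cusp type. -/

namespace Pool.Agent.H15.DR

open Real Set MeasureTheory Filter Topology Metric

theorem hd_pos {ψ ψ' : ℝ → ℝ} (h : ∀ y, HasDerivAt ψ (ψ' y) y) (h0 : ψ' 0 = 0) (y : ℝ) :
    HasDerivAt (fun y => ψ (max y 0)) (ψ' (max y 0)) y := by
  have a : ∀ y, y ≤ 0 → HasDerivWithinAt (fun y => ψ (max y 0)) (ψ' (max y 0)) (Iic 0) y := by
    intro y hy
    rw [max_eq_right hy, h0]
    exact (hasDerivWithinAt_const y _ (ψ 0)).congr (fun z hz => by rw [max_eq_right hz])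
      (by rw [max_eq_right hy])
  have b : ∀ y, 0 ≤ y → HasDerivWithinAt (fun y => ψ (max y 0)) (ψ' (max y 0)) (Ici 0) y := by
    intro y hy
    rw [max_eq_left hy]
    exact (h y).hasDerivWithinAt.congr (fun z hz => by rw [max_eq_left hz])
      (by rw [max_eq_left hy])
  rcases lt_trichotomy y 0 with hy | rfl | hy
  · exact (a y hy.le).hasDerivAt (Iic_mem_nhds hy)
  · have := (a 0 le_rfl).union (b 0 le_rfl)
    rwa [Iic_union_Ici, hasDerivWithinAt_univ] at this
  · exact (b y hy.le).hasDerivAt (Ici_mem_nhds hy)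

noncomputable def Y (T t : ℝ) : ℝ := max ((-log t - 2 * log T) / T) 0
noncomputable def M (T t : ℝ) : ℝ := 1 / (1 + Y T t ^ 2)
noncomputable def P (T t : ℝ) : ℝ := -log t / T + (arctan (Y T t) - Y T t)
noncomputable def A (T t : ℝ) : ℝ := -M T t / (T * t)
noncomputable def A' (T t : ℝ) : ℝ := -2 * Y T t * M T t ^ 2 / (T * t) ^ 2 + M T t / (T * t ^ 2)
noncomputable def D (T t : ℝ) : ℝ := -8 * Y T t * M T t ^ 2 / (T ^ 2 * t)
noncomputable def om (T t : ℝ) : ℝ := M T t / (T ^ 2 * t)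
noncomputable def W (s : ℝ) : ℝ := (-log s + 1) ^ (-(3 / 2) : ℝ) / s

variable {T t s : ℝ}

theorem Y_nn : 0 ≤ Y T t := le_max_right _ _
theorem M_pos : 0 < M T t := by unfold M; positivity
theorem M_mul : M T t * (1 + Y T t ^ 2) = 1 := by unfold M; field_simp
theorem M_le : M T t ≤ 1 := by nlinarith [@M_mul T t, @M_pos T t, sq_nonneg (Y T t)]
theorem YM : 2 * Y T t * M T t ≤ 1 := by
  nlinarith [@M_mul T t, mul_nonneg (@M_pos T t).le (sq_nonneg (Y T t - 1))]

theorem hd_z (ht : 0 < t) : HasDerivAt (fun t => (-log t - 2 * log T) / T) (-t⁻¹ / T) t :=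
  ((hasDerivAt_log ht.ne').neg.sub_const _).div_const _

theorem hd_P (hT : 0 < T) (ht : 0 < t) : HasDerivAt (P T) (A T t) t := by
  have h := (hd_pos (ψ := fun y => arctan y - y) (ψ' := fun y => 1 / (1 + y ^ 2) - 1)
    (fun y => (hasDerivAt_arctan y).sub (hasDerivAt_id y)) (by simp) _).comp t (hd_z (T := T) ht)
  refine (((hasDerivAt_log ht.ne').neg.div_const T).add h).congr_deriv ?_
  simp only [A, M, Y]
  field_simp
  ring

theorem hd_A (hT : 0 < T) (ht : 0 < t) : HasDerivAt (A T) (A' T t) t := by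
  have h := (hd_pos (ψ := fun y => 1 / (1 + y ^ 2)) (ψ' := fun y => -2 * y * (1 / (1 + y ^ 2)) ^ 2)
    (fun y => by
      refine ((hasDerivAt_const y (1:ℝ)).div ((hasDerivAt_pow 2 y).const_add 1)
        (by positivity)).congr_deriv ?_
      field_simp
      ring) (by simp) _).comp t (hd_z (T := T) ht)
  refine (h.neg.div ((hasDerivAt_id t).const_mul T) (mul_pos hT ht).ne').congr_deriv ?_
  simp only [A', M, Y, Function.comp, id, Pi.neg_apply]
  field_simp
  ring

theorem cY (ht : 0 < t) : ContinuousAt (Y T) t := (hd_z ht).continuousAt.max continuousAt_const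

theorem cM (ht : 0 < t) : ContinuousAt (M T) t :=
  continuousAt_const.div (((cY ht).pow 2).const_add 1) (by positivity)

theorem cA' (hT : 0 < T) (ht : 0 < t) : ContinuousAt (A' T) t := by
  have := cY (T := T) ht
  have := cM (T := T) ht
  unfold A'
  fun_prop (disch := positivity)

theorem lap (hT : 0 < T) (ht : 0 < t) : 4 * A T t + 4 * t * A' T t = D T t := by
  unfold A A' D; field_simp; ring

theorem om_nn (ht : 0 ≤ t) : 0 ≤ om T t := by have := @M_pos T t; unfold om; positivity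

theorem om_anti (hT : 2 ≤ T) (hs : 0 < s) (h : s ≤ t) : om T t ≤ om T s := by
  have ht : 0 < t := hs.trans_le h
  set δ := log t - log s with hδ
  have d0 : 0 ≤ δ := sub_nonneg.2 (log_le_log hs h)
  have e : t = s * exp δ := by rw [hδ, exp_sub, exp_log ht, exp_log hs]; field_simp
  have h1 : Y T s ≤ Y T t + δ / 2 := by
    have : δ / T ≤ δ / 2 := div_le_div_of_nonneg_left d0 two_pos hT
    refine max_le ?_ (by linarith [@Y_nn T t])
    have e2 : (-log s - 2 * log T) / T = (-log t - 2 * log T) / T + δ / T := by rw [hδ]; ring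
    linarith [le_max_left ((-log t - 2 * log T) / T) 0, show Y T t = max _ 0 from rfl]
  have h2 := quadratic_le_exp_of_nonneg d0
  have h3 : 1 + Y T s ^ 2 ≤ (1 + Y T t ^ 2) * exp δ := by
    have a := pow_le_pow_left₀ Y_nn h1 2
    have b := mul_le_mul_of_nonneg_left h2 (show 0 ≤ 1 + Y T t ^ 2 by positivity)
    nlinarith [mul_nonneg d0 (sq_nonneg (Y T t - 1)), mul_nonneg d0 (sq_nonneg (Y T t)),
      sq_nonneg (δ * Y T t), sq_nonneg δ]
  unfold om M
  rw [div_div, div_div]
  refine one_div_le_one_div_of_le (by positivity) ?_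
  calc (1 + Y T s ^ 2) * (T ^ 2 * s) ≤ (1 + Y T t ^ 2) * exp δ * (T ^ 2 * s) := by gcongr
    _ = _ := by rw [e]; ring

theorem om_le_W {τ : ℝ} (hτ : 1 ≤ τ) (hs : 0 < s) (h1 : s ≤ 1) : om (τ ^ 2) s ≤ 4 / τ * W s := by
  set z := -log s + 1 with hz
  have z0 : 0 < z := by linarith [log_nonpos hs.le h1]
  have hT : 1 ≤ τ ^ 2 := one_le_pow₀ hτ
  have a : z ≤ τ ^ 2 * (2 + Y (τ ^ 2) s) := by
    have b : (-log s - 2 * log (τ ^ 2)) / τ ^ 2 ≤ Y (τ ^ 2) s := le_max_left _ _
    rw [div_le_iff₀ (by positivity)] at b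
    linarith [log_le_sub_one_of_pos (show 0 < τ ^ 2 by positivity)]
  have m0 := @M_pos (τ ^ 2) s
  have m1 := @M_le (τ ^ 2) s
  have b : M (τ ^ 2) s * z ^ 2 ≤ 5 * τ ^ 4 := by
    have c := pow_le_pow_left₀ z0.le a 2
    have d : (2 + Y (τ ^ 2) s) ^ 2 ≤ 5 * (1 + Y (τ ^ 2) s ^ 2) := by
      nlinarith [sq_nonneg (2 * Y (τ ^ 2) s - 1)]
    calc M (τ ^ 2) s * z ^ 2 ≤ M (τ ^ 2) s * (τ ^ 4 * (5 * (1 + Y (τ ^ 2) s ^ 2))) := by
          refine mul_le_mul_of_nonneg_left (c.trans ?_) m0.le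
          rw [mul_pow, ← pow_mul]; gcongr
      _ = 5 * τ ^ 4 * (M (τ ^ 2) s * (1 + Y (τ ^ 2) s ^ 2)) := by ring
      _ = _ := by rw [M_mul, mul_one]
  have c : M (τ ^ 2) s * z ^ (3 / 2 : ℝ) ≤ 4 * τ ^ 3 := by
    refine le_of_pow_le_pow_left₀ four_ne_zero (by positivity) ?_
    rw [mul_pow, ← rpow_natCast (z ^ (3 / 2 : ℝ)), ← rpow_mul z0.le,
      show (3 / 2 : ℝ) * (4 : ℕ) = (6 : ℕ) by norm_num, rpow_natCast]
    have d := pow_le_pow_left₀ (by positivity) b 3
    have e : M (τ ^ 2) s ^ 4 * z ^ 6 ≤ (M (τ ^ 2) s * z ^ 2) ^ 3 := by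
      rw [mul_pow, ← pow_mul]
      exact mul_le_mul_of_nonneg_right (pow_le_pow_of_le_one m0.le m1 (by norm_num)) (by positivity)
    nlinarith [pow_pos (show 0 < τ by linarith) 12]
  have zp : 0 < z ^ (3 / 2 : ℝ) := by positivity
  unfold om W
  rw [← hz, rpow_neg z0.le, div_le_iff₀ (by positivity)]
  calc M (τ ^ 2) s = M (τ ^ 2) s * z ^ (3 / 2 : ℝ) * (z ^ (3 / 2 : ℝ))⁻¹ := by field_simp
    _ ≤ 4 * τ ^ 3 * (z ^ (3 / 2 : ℝ))⁻¹ := by gcongr
    _ = _ := by field_simp

theorem grad_sq (hT : 0 < T) (hs : 0 ≤ s) (h : s ≤ t) : (2 * A T t) ^ 2 * s ≤ 4 * om T t := by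
  rcases (hs.trans h).eq_or_lt with rfl | ht
  · simp [A, om]
  have m0 := @M_pos T t
  have e : (2 * A T t) ^ 2 * s = 4 * om T t * (M T t * (s / t)) := by unfold A om; field_simp; ring
  rw [e]
  exact mul_le_of_le_one_right (by have := @om_nn T t ht.le; positivity)
    (mul_le_one₀ M_le (by positivity) ((div_le_one ht).2 h))

theorem lap_le (hT : 1 ≤ T) (hs : 0 ≤ s) (h : s ≤ t) (ht : 0 < t) :
    |4 * A T t + 4 * s * A' T t| ≤ 8 * T * om T t := by
  have m0 := @M_pos T t
  have y0 := @Y_nn T t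
  have e : 4 * A T t + 4 * s * A' T t =
      -(4 * om T t * (T * (1 - s / t) + 2 * Y T t * M T t * (s / t))) := by
    unfold A A' om; field_simp; ring
  have a : s / t ≤ 1 := (div_le_one ht).2 h
  have b : 0 ≤ s / t := by positivity
  have o := @om_nn T t ht.le
  have c := mul_le_one₀ (@YM T t) b a
  rw [e, abs_neg, abs_of_nonneg (by have : 0 ≤ 1 - s / t := by linarith
                                    positivity)]
  have : T * (1 - s / t) + 2 * Y T t * M T t * (s / t) ≤ 2 * T := by nlinarith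
  nlinarith

theorem P_eq (hT : 0 < T) : P T t = min (-log t) (2 * log T) / T + arctan (Y T t) := by
  unfold P Y
  rcases le_total (-log t) (2 * log T) with h | h
  · rw [min_eq_left h, max_eq_right (div_nonpos_of_nonpos_of_nonneg (by linarith) hT.le)]; simp
  · rw [min_eq_right h, max_eq_left (div_nonneg (by linarith) hT.le)]; ring

theorem at_nn : 0 ≤ arctan (Y T t) := by
  rw [← arctan_zero]; exact arctan_strictMono.monotone Y_nn

theorem P_abs (hT : 1 ≤ T) (ht : 0 < t) (h2 : t ≤ 2) : |P T t| ≤ 4 := by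
  have a := log_le_sub_one_of_pos ht
  have b := log_le_sub_one_of_pos (show 0 < T by linarith)
  have c := log_nonneg hT
  have d : |min (-log t) (2 * log T) / T| ≤ 2 := by
    rw [abs_div, abs_of_pos (show 0 < T by linarith), div_le_iff₀ (by linarith), abs_le]
    exact ⟨le_min (by linarith) (by linarith), (min_le_right _ _).trans (by linarith)⟩
  rw [P_eq (by linarith), abs_le]
  have := abs_le.1 d
  constructor <;> linarith [@at_nn T t, arctan_lt_pi_div_two (Y T t), pi_le_four]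

abbrev E := EuclideanSpace ℝ (Fin 2)

theorem W_int : IntegrableOn (fun x : E => W (‖x‖ ^ 2)) (ball 0 1) := by
  rw [integrableOn_fun_norm_addHaar volume (f := fun r => W (r ^ 2))]
  have im : (fun L : ℝ => exp (-L / 2)) '' Ioi 0 = Ioo 0 1 := by
    ext r
    constructor
    · rintro ⟨L, hL, rfl⟩
      exact ⟨exp_pos _, exp_lt_one_iff.2 (by have : 0 < L := hL; linarith)⟩
    · rintro ⟨h0, h1⟩
      refine ⟨-2 * log r, by have := log_neg h0 h1; simp only [mem_Ioi]; linarith, ?_⟩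
      simp only
      rw [show -(-2 * log r) / 2 = log r by ring, exp_log h0]
  rw [← im, integrableOn_image_iff_integrableOn_abs_deriv_smul measurableSet_Ioi
    (f := fun L => exp (-L / 2)) (f' := fun L => exp (-L / 2) * (-1 / 2))
    (fun L _ => ((hasDerivAt_id L).neg.div_const 2).exp.hasDerivWithinAt)
    (fun a _ b _ h => by have := exp_injective h; linarith)]
  refine IntegrableOn.congr_fun ((integrableOn_add_rpow_Ioi_of_lt (a := -(3 / 2)) (m := 1) (c := 0)
    (by norm_num) (by norm_num)).const_mul (1 / 2)) (fun L _ => ?_) measurableSet_Ioi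
  have := exp_pos (-L / 2)
  simp only [W, finrank_euclideanSpace, Fintype.card_fin, smul_eq_mul, log_pow, log_exp]
  rw [abs_of_neg (by linarith), show -(((2:ℕ):ℝ) * (-L / 2)) + 1 = L + 1 by push_cast; ring]
  field_simp
  simp

end Pool.Agent.H15.DR
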