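import Pool.Agent.H15.DR1

/-! Weak gradient and weak Laplacian of one cusp. -/

namespace Pool.Agent.H15.DR

open Real Set MeasureTheory Filter Topology Metric InnerProductSpace

/-- test functions `C_0^∞(B_R)` -/
def IsTest (R : ℝ) (φ : E → ℝ) : Prop :=
  ContDiff ℝ (⊤ : ℕ∞) φ ∧ HasCompactSupport φ ∧ tsupport φ ⊆ ball 0 R

abbrev B : Set E := ball 0 (1 / 2)

variable {φ : E → ℝ} {T : ℝ} {a : E}

theorem IsTest.cd {R : ℝ} (h : IsTest R φ) : Continuous (fderiv ℝ φ) :=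
  h.1.continuous_fderiv (by simp)

theorem IsTest.bd {R : ℝ} (h : IsTest R φ) :
    ∃ C, 0 ≤ C ∧ ∀ x, |φ x| ≤ C ∧ ‖fderiv ℝ φ x‖ ≤ C := by
  obtain ⟨C, hC⟩ := h.1.continuous.bounded_above_of_compact_support h.2.1
  obtain ⟨C', hC'⟩ := h.cd.bounded_above_of_compact_support (h.2.1.fderiv ℝ)
  exact ⟨max C C', (norm_nonneg _).trans ((hC 0).trans (le_max_left _ _)),
    fun x => ⟨(hC x).trans (le_max_left _ _), (hC' x).trans (le_max_right _ _)⟩⟩

theorem ibp (h : IsTest (1 / 2) φ) {F : E → ℝ} {F' : E → E →L[ℝ] ℝ}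
    (hF : ∀ x, HasFDerivAt F (F' x) x) (v : E) (hc : Continuous fun x => F' x v) :
    ∫ x in B, F x * fderiv ℝ φ x v = -∫ x in B, F' x v * φ x := by
  have cF : Continuous F := continuous_iff_continuousAt.2 fun x => (hF x).continuousAt
  have e : ∀ x, fderiv ℝ F x = F' x := fun x => (hF x).fderiv
  have := h.cd
  have c0 := h.1.continuous
  rw [setIntegral_eq_integral_of_forall_compl_eq_zero fun x hx => by
      rw [fderiv_of_notMem_tsupport ℝ fun m => hx (h.2.2 m)]; simp,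
    setIntegral_eq_integral_of_forall_compl_eq_zero fun x hx => by
      rw [image_eq_zero_of_notMem_tsupport fun m => hx (h.2.2 m)]; simp,
    integral_mul_fderiv_eq_neg_fderiv_mul_of_integrable _ _ _ (fun x _ => (hF x).differentiableAt)
      fun x _ => h.1.differentiable (by simp) x]
  · simp only [e]
  · simp only [e]
    exact (hc.mul c0).integrable_of_hasCompactSupport h.2.1.mul_left
  · exact Continuous.integrable_of_hasCompactSupport (by fun_prop)
      (h.2.1.fderiv_apply ℝ v).mul_left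
  · exact (cF.mul c0).integrable_of_hasCompactSupport h.2.1.mul_left

theorem radial {Q Q' : ℝ → ℝ} (hQ : ∀ t, 0 < t → HasDerivAt Q (Q' t) t) {ε : ℝ} (hε : 0 < ε)
    (x : E) : HasFDerivAt (fun x => Q (‖x - a‖ ^ 2 + ε))
      ((2 * Q' (‖x - a‖ ^ 2 + ε)) • innerSL ℝ (x - a)) x := by
  have h := (hQ _ (by positivity)).comp_hasFDerivAt x
    ((((hasFDerivAt_id x).sub_const a).norm_sq).add_const ε)
  refine h.congr_fderiv ?_
  ext v
  simp
  ring

theorem cont_rad {Q : ℝ → ℝ} (hQ : ∀ t, 0 < t → ContinuousAt Q t) {ε : ℝ} (hε : 0 < ε) :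
    Continuous fun x : E => Q (‖x - a‖ ^ 2 + ε) :=
  continuous_iff_continuousAt.2 fun x =>
    ContinuousAt.comp (f := fun x : E => ‖x - a‖ ^ 2 + ε) (hQ _ (by positivity)) (by fun_prop)

theorem ibp1 (h : IsTest (1 / 2) φ) (hT : 0 < T) {ε : ℝ} (hε : 0 < ε) (v : E) :
    ∫ x in B, P T (‖x - a‖ ^ 2 + ε) * fderiv ℝ φ x v =
      -∫ x in B, 2 * A T (‖x - a‖ ^ 2 + ε) * ⟪x - a, v⟫_ℝ * φ x := by
  have := cont_rad (a := a) (fun t ht => (hd_A hT ht).continuousAt) hε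
  rw [ibp h (radial (fun t => hd_P hT) hε) v
    (by simp only [smul_apply, innerSL_apply_apply]; fun_prop)]
  simp only [smul_apply, innerSL_apply_apply, smul_eq_mul]

theorem ibp2 (h : IsTest (1 / 2) φ) (hT : 0 < T) {ε : ℝ} (hε : 0 < ε) :
    ∫ x in B, 2 * A T (‖x - a‖ ^ 2 + ε) * fderiv ℝ φ x (x - a) =
      -∫ x in B, (4 * A T (‖x - a‖ ^ 2 + ε) + 4 * ‖x - a‖ ^ 2 * A' T (‖x - a‖ ^ 2 + ε)) * φ x := by
  have c1 := cont_rad (a := a) (fun t ht => (hd_A hT ht).continuousAt) hε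
  have c2 := cont_rad (a := a) (fun t ht => cA' hT ht) hε
  have c3 := h.cd
  have c0 := h.1.continuous
  have key : ∀ i : Fin 2, ∫ x in B, A T (‖x - a‖ ^ 2 + ε) * (x - a) i *
      fderiv ℝ φ x (EuclideanSpace.single i 1) = -∫ x in B, (A T (‖x - a‖ ^ 2 + ε) +
        2 * (x - a) i ^ 2 * A' T (‖x - a‖ ^ 2 + ε)) * φ x := by
    intro i
    have e : ∀ x : E, (A T (‖x - a‖ ^ 2 + ε) • (EuclideanSpace.proj i : E →L[ℝ] ℝ) + (x - a) i •
        ((2 * A' T (‖x - a‖ ^ 2 + ε)) • innerSL ℝ (x - a))) (EuclideanSpace.single i 1) =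
        A T (‖x - a‖ ^ 2 + ε) + 2 * (x - a) i ^ 2 * A' T (‖x - a‖ ^ 2 + ε) := by
      intro x
      simp [EuclideanSpace.inner_single_right]
      ring
    rw [ibp h (F := fun x => A T (‖x - a‖ ^ 2 + ε) * (x - a) i) (fun x =>
      (radial (fun t => hd_A hT) hε x).mul
        (((EuclideanSpace.proj i : E →L[ℝ] ℝ).hasFDerivAt (x := x)).sub_const (a i)))
      _ (by simp only [e]; fun_prop)]
    simp only [e]
  have I : ∀ f : E → ℝ, Continuous f → IntegrableOn f B := fun f hf =>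
    (hf.continuousOn.integrableOn_compact (isCompact_closedBall 0 (1 / 2))).mono_set
      ball_subset_closedBall
  have k2 := congrArg (2 * ·) (congrArg₂ (· + ·) (key 0) (key 1))
  simp only at k2
  rw [← neg_add, ← integral_add (I _ (by fun_prop)) (I _ (by fun_prop)),
    ← integral_add (I _ (by fun_prop)) (I _ (by fun_prop)), mul_neg, ← integral_const_mul,
    ← integral_const_mul] at k2
  refine (integral_congr_ae (ae_of_all _ fun x => ?_)).trans (k2.trans (congrArg Neg.neg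
    (integral_congr_ae (ae_of_all _ fun x => ?_))))
  · have : x - a = (x - a) 0 • EuclideanSpace.single 0 1 + (x - a) 1 • EuclideanSpace.single 1 1 := by
      ext i; fin_cases i <;> simp
    have e := congrArg (fderiv ℝ φ x) this
    rw [map_add, map_smul, map_smul] at e
    simp only [e, smul_eq_mul]
    ring
  · have : ‖x - a‖ ^ 2 = (x - a) 0 ^ 2 + (x - a) 1 ^ 2 := by
      rw [EuclideanSpace.norm_sq_eq]; simp
    linear_combination (-4 * A' T (‖x - a‖ ^ 2 + ε) * φ x) * this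

theorem sub_lt (ha : a ∈ B) {x : E} (hx : x ∈ B) : ‖x - a‖ < 1 := by
  have := norm_sub_le x a
  rw [mem_ball_zero_iff] at ha hx
  linarith

theorem W_nn {s : ℝ} (h0 : 0 ≤ s) (h1 : s ≤ 1) : 0 ≤ W s := by
  have := log_nonpos h0 h1
  exact div_nonneg (rpow_nonneg (by linarith) _) h0

theorem W_int' (ha : a ∈ B) : IntegrableOn (fun x : E => W (‖x - a‖ ^ 2)) B := by
  have h := (measurePreserving_sub_right (volume : Measure E) a).integrableOn_comp_preimage
    (MeasurableEquiv.subRight a).measurableEmbedding (f := fun x : E => W (‖x‖ ^ 2)) (s := ball 0 1)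
  exact (h.2 W_int).mono_set fun x hx => mem_ball_zero_iff.2 (sub_lt ha hx)

theorem sq_le (ha : a ∈ B) {x : E} (hx : x ∈ B) : ‖x - a‖ ^ 2 ≤ 1 :=
  pow_le_one₀ (norm_nonneg _) (sub_lt ha hx).le

theorem om_le {τ : ℝ} (hτ : 1 ≤ τ) (ha : a ∈ B) {x : E} (hx : x ∈ B) :
    om (τ ^ 2) (‖x - a‖ ^ 2) ≤ 4 / τ * W (‖x - a‖ ^ 2) := by
  rcases (sq_nonneg ‖x - a‖).eq_or_lt with h | h
  · rw [← h]; simp [om, W]
  · exact om_le_W hτ h (sq_le ha hx)

theorem lim (ha : a ∈ B) {F : ℝ → E → ℝ} (C : ℝ) (hc : ∀ ε, 0 < ε → Continuous (F ε))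
    (hb : ∀ ε, 0 < ε → ε ≤ 1 → ∀ x ∈ B, x ≠ a → |F ε x| ≤ C * (1 + W (‖x - a‖ ^ 2)))
    (hl : ∀ x, x ≠ a → ContinuousAt (fun ε => F ε x) 0) :
    Tendsto (fun n : ℕ => ∫ x in B, F (1 / ((n:ℝ) + 1)) x) atTop (𝓝 (∫ x in B, F 0 x)) := by
  have hne : ∀ᵐ x ∂(volume.restrict B), x ≠ a := ae_restrict_of_ae (by simp [ae_iff])
  refine tendsto_integral_of_dominated_convergence (fun x => C * (1 + W (‖x - a‖ ^ 2)))
    (fun n => (hc _ (by positivity)).aestronglyMeasurable)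
    (((integrableOn_const measure_ball_lt_top.ne).add (W_int' ha)).const_mul C) (fun n => ?_) ?_
  · filter_upwards [hne, ae_restrict_mem measurableSet_ball] with x h1 h2
    exact hb _ (by positivity) (by rw [div_le_one (by positivity)]; simp) x h2 h1
  · filter_upwards [hne] with x hx
    exact (hl x hx).tendsto.comp tendsto_one_div_add_atTop_nhds_zero_nat

theorem cat {Q : ℝ → ℝ} (hQ : ∀ t, 0 < t → ContinuousAt Q t) {x : E} (hx : x ≠ a) :
    ContinuousAt (fun ε => Q (‖x - a‖ ^ 2 + ε)) 0 :=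
  ContinuousAt.comp (f := fun ε => ‖x - a‖ ^ 2 + ε)
    (hQ _ (by have := norm_pos_iff.2 (sub_ne_zero.2 hx); simpa using by positivity)) (by fun_prop)

theorem bds {τ : ℝ} (hτ : 2 ≤ τ) (ha : a ∈ B) {x : E} (hx : x ∈ B) (hn : x ≠ a) {ε : ℝ}
    (h0 : 0 < ε) : om (τ ^ 2) (‖x - a‖ ^ 2 + ε) ≤ 2 * W (‖x - a‖ ^ 2) ∧
      |2 * A (τ ^ 2) (‖x - a‖ ^ 2 + ε)| * ‖x - a‖ ≤ 2 * (1 + W (‖x - a‖ ^ 2)) := by
  have p := norm_pos_iff.2 (sub_ne_zero.2 hn)
  have w := W_nn (sq_nonneg _) (sq_le ha hx)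
  have h1 : om (τ ^ 2) (‖x - a‖ ^ 2 + ε) ≤ 2 * W (‖x - a‖ ^ 2) :=
    (om_anti (by nlinarith) (by positivity) (by linarith)).trans ((om_le (by linarith) ha hx).trans
      (mul_le_mul_of_nonneg_right (by rw [div_le_iff₀ (by linarith)]; linarith) w))
  have h2 := grad_sq (T := τ ^ 2) (by positivity) (sq_nonneg ‖x - a‖)
    (show _ ≤ ‖x - a‖ ^ 2 + ε by linarith)
  refine ⟨h1, ?_⟩
  rw [← sq_abs, ← mul_pow] at h2
  nlinarith [sq_nonneg (|2 * A (τ ^ 2) (‖x - a‖ ^ 2 + ε)| * ‖x - a‖ - 1)]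

theorem weak1 (h : IsTest (1 / 2) φ) {τ : ℝ} (hτ : 2 ≤ τ) (ha : a ∈ B) (v : E) :
    ∫ x in B, P (τ ^ 2) (‖x - a‖ ^ 2) * fderiv ℝ φ x v =
      -∫ x in B, 2 * A (τ ^ 2) (‖x - a‖ ^ 2) * ⟪x - a, v⟫_ℝ * φ x := by
  obtain ⟨C, C0, hC⟩ := h.bd
  have hT : 0 < τ ^ 2 := by positivity
  have c3 := h.cd
  have c0 := h.1.continuous
  have l1 := lim ha (F := fun ε x => P (τ ^ 2) (‖x - a‖ ^ 2 + ε) * fderiv ℝ φ x v) (4 * (C * ‖v‖))
    (fun ε hε => (cont_rad (fun t ht => (hd_P hT ht).continuousAt) hε).mul (by fun_prop))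
    (fun ε h0 h1 x hx hn => by
      have w := W_nn (sq_nonneg _) (sq_le ha hx)
      rw [abs_mul]
      refine (mul_le_mul (P_abs (by nlinarith) (by positivity) (by linarith [sq_le ha hx]))
        (((fderiv ℝ φ x).le_opNorm v).trans (mul_le_mul_of_nonneg_right (hC x).2 (norm_nonneg _)))
        (abs_nonneg _) (by norm_num)).trans (le_mul_of_one_le_right (by positivity) (by linarith)))
    (fun x hx => (cat (fun t ht => (hd_P hT ht).continuousAt) hx).mul continuousAt_const)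
  have l2 := lim ha (F := fun ε x => 2 * A (τ ^ 2) (‖x - a‖ ^ 2 + ε) * ⟪x - a, v⟫_ℝ * φ x)
    (2 * (‖v‖ * C))
    (fun ε hε => by
      have := cont_rad (a := a) (fun t ht => (hd_A hT ht).continuousAt) hε
      fun_prop)
    (fun ε h0 h1 x hx hn => by
      have b := (bds hτ ha hx hn h0).2
      have w := W_nn (sq_nonneg _) (sq_le ha hx)
      rw [abs_mul, abs_mul _ (inner ℝ _ _)]
      calc _ ≤ |2 * A (τ ^ 2) (‖x - a‖ ^ 2 + ε)| * (‖x - a‖ * ‖v‖) * C := by
            gcongr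
            exacts [abs_real_inner_le_norm _ _, (hC x).1]
        _ = |2 * A (τ ^ 2) (‖x - a‖ ^ 2 + ε)| * ‖x - a‖ * (‖v‖ * C) := by ring
        _ ≤ 2 * (1 + W (‖x - a‖ ^ 2)) * (‖v‖ * C) := by gcongr
        _ = _ := by ring)
    (fun x hx => by
      have := cat (fun t ht => (hd_A hT ht).continuousAt) hx
      fun_prop)
  simpa using tendsto_nhds_unique l1 (l2.neg.congr fun n => (ibp1 h hT (by positivity) v).symm)

theorem weak2 (h : IsTest (1 / 2) φ) {τ : ℝ} (hτ : 2 ≤ τ) (ha : a ∈ B) :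
    ∫ x in B, 2 * A (τ ^ 2) (‖x - a‖ ^ 2) * fderiv ℝ φ x (x - a) =
      -∫ x in B, D (τ ^ 2) (‖x - a‖ ^ 2) * φ x := by
  obtain ⟨C, C0, hC⟩ := h.bd
  have hT : 0 < τ ^ 2 := by positivity
  have c3 := h.cd
  have c0 := h.1.continuous
  have l1 := lim ha (F := fun ε x => 2 * A (τ ^ 2) (‖x - a‖ ^ 2 + ε) * fderiv ℝ φ x (x - a)) (2 * C)
    (fun ε hε => by
      have := cont_rad (a := a) (fun t ht => (hd_A hT ht).continuousAt) hε
      fun_prop)
    (fun ε h0 h1 x hx hn => by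
      have b := (bds hτ ha hx hn h0).2
      rw [abs_mul]
      calc _ ≤ |2 * A (τ ^ 2) (‖x - a‖ ^ 2 + ε)| * (C * ‖x - a‖) := by
            gcongr
            exact ((fderiv ℝ φ x).le_opNorm _).trans
              (mul_le_mul_of_nonneg_right (hC x).2 (norm_nonneg _))
        _ = |2 * A (τ ^ 2) (‖x - a‖ ^ 2 + ε)| * ‖x - a‖ * C := by ring
        _ ≤ 2 * (1 + W (‖x - a‖ ^ 2)) * C := by gcongr
        _ = _ := by ring)
    (fun x hx => by
      have := cat (fun t ht => (hd_A hT ht).continuousAt) hx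
      fun_prop)
  have l2 := lim ha (F := fun ε x => (4 * A (τ ^ 2) (‖x - a‖ ^ 2 + ε) +
      4 * ‖x - a‖ ^ 2 * A' (τ ^ 2) (‖x - a‖ ^ 2 + ε)) * φ x) (16 * τ ^ 2 * C)
    (fun ε hε => by
      have := cont_rad (a := a) (fun t ht => (hd_A hT ht).continuousAt) hε
      have := cont_rad (a := a) (fun t ht => cA' hT ht) hε
      fun_prop)
    (fun ε h0 h1 x hx hn => by
      have b := (bds hτ ha hx hn h0).1
      have w := W_nn (sq_nonneg _) (sq_le ha hx)
      rw [abs_mul]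
      calc _ ≤ 8 * τ ^ 2 * (2 * (1 + W (‖x - a‖ ^ 2))) * C := by
            refine mul_le_mul ((lap_le (by nlinarith) (sq_nonneg _) (by linarith)
              (by positivity)).trans ?_) (hC x).1 (abs_nonneg _) (by positivity)
            gcongr
            linarith
        _ = _ := by ring)
    (fun x hx => by
      have := cat (fun t ht => (hd_A hT ht).continuousAt) hx
      have := cat (fun t ht => cA' hT ht) hx
      fun_prop)
  have := tendsto_nhds_unique l1 (l2.neg.congr fun n => (ibp2 h hT (by positivity)).symm)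
  simp only [add_zero] at this
  rw [this]
  congr 2
  ext x
  rcases (sq_nonneg ‖x - a‖).eq_or_lt with e | e
  · rw [← e]; simp [A, D]
  · rw [lap hT e]

end Pool.Agent.H15.DR
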