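import Pool.Agent.H15.DR2

/-! The family of cusps and pointwise estimates. -/

namespace Pool.Agent.H15.DR

open Real Set MeasureTheory Filter Topology Metric InnerProductSpace

theorem int_tsum {α : Type*} [MeasurableSpace α] {μ : Measure α} {F : ℕ → α → ℝ}
    (h : ∀ i, Integrable (F i) μ) (hs : Summable fun i => ∫ a, ‖F i a‖ ∂μ) :
    Integrable (fun a => ∑' i, F i a) μ := by
  refine ⟨AEStronglyMeasurable.tsum fun i => (h i).1, ?_⟩
  refine lt_of_le_of_lt (lintegral_mono fun a => enorm_tsum_le_tsum_enorm) ?_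
  rw [lintegral_tsum fun i => (h i).1.enorm]
  simp only [← ofReal_integral_norm_eq_lintegral_enorm (h _)]
  rw [← ENNReal.ofReal_tsum_of_nonneg (fun i => integral_nonneg fun a => norm_nonneg _) hs]
  exact ENNReal.ofReal_lt_top

theorem one_off {F : Type*} [NormedAddCommGroup F] [CompleteSpace F] {v : ℕ → F} {k : ℕ} {c : ℝ}
    (hc : 0 ≤ c) (h : ∀ j, j ≠ k → ‖v j‖ ≤ c * (1 / 2) ^ j) :
    Summable v ∧ ‖∑' j, v j - v k‖ ≤ 2 * c := by
  have hs : HasSum (fun j : ℕ => c * (1 / 2) ^ j) (2 * c) := by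
    rw [mul_comm 2]; exact hasSum_geometric_two.mul_left c
  have h1 : Summable v := hs.summable.of_norm_bounded_eventually (by
    filter_upwards [(finite_singleton k).compl_mem_cofinite] with j hj using h j hj)
  refine ⟨h1, ?_⟩
  rw [h1.tsum_eq_add_tsum_ite k, add_sub_cancel_left]
  refine tsum_of_norm_bounded hs fun j => ?_
  split_ifs with e
  · simp; positivity
  · exact h j e

noncomputable def tau (k : ℕ) : ℝ := 16 * 4 ^ k
noncomputable def aa (k : ℕ) : E := EuclideanSpace.single 0 ((1 / 2) ^ k / 4)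
noncomputable def G (k : ℕ) (x : E) : ℝ := P (tau k ^ 2) (‖x - aa k‖ ^ 2)
noncomputable def gr (k : ℕ) (x : E) : E := (2 * A (tau k ^ 2) (‖x - aa k‖ ^ 2)) • (x - aa k)
noncomputable def ff (k : ℕ) (x : E) : ℝ := D (tau k ^ 2) (‖x - aa k‖ ^ 2)
noncomputable def th (k : ℕ) (x : E) : ℝ := 2 ^ k * om (tau k ^ 2) (‖x - aa k‖ ^ 2)
def Far (k : ℕ) (x : E) : Prop := (1 / 2) ^ k / 16 ≤ ‖x - aa k‖

theorem tau_ge (k : ℕ) : 16 ≤ tau k := le_mul_of_one_le_right (by norm_num) (one_le_pow₀ (by norm_num))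

theorem hp (k : ℕ) : (1 / 2 : ℝ) ^ k ≤ 1 := pow_le_one₀ (by norm_num) (by norm_num)

theorem aa_norm (k : ℕ) : ‖aa k‖ = (1 / 2) ^ k / 4 := by
  simp only [aa, PiLp.norm_single]; exact Real.norm_of_nonneg (by positivity)

theorem aa_mem (k : ℕ) : aa k ∈ B := by
  rw [mem_ball_zero_iff, aa_norm]; linarith [hp k]

theorem tau_eq (k : ℕ) : tau k * ((1 / 2) ^ k) ^ 2 = 16 := by
  rw [tau, mul_assoc, ← pow_mul, mul_comm k, pow_mul, ← mul_pow]; norm_num

theorem one_near (x : E) : ∃ k, ∀ j, j ≠ k → Far j x := by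
  have key : ∀ j k, j < k → ¬ Far j x → ¬ Far k x → False := by
    intro j k h a b
    simp only [Far, not_le] at a b
    have c := norm_sub_norm_le (aa j) (aa k)
    have d := norm_sub_le (x - aa k) (x - aa j)
    rw [sub_sub_sub_cancel_left] at d
    rw [aa_norm, aa_norm] at c
    have e : (1 / 2 : ℝ) ^ k ≤ (1 / 2) ^ (j + 1) := pow_le_pow_of_le_one (by norm_num) (by norm_num) h
    rw [pow_succ] at e
    have : (0:ℝ) < (1 / 2) ^ j := by positivity
    linarith
  by_cases h : ∃ k, ¬ Far k x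
  · obtain ⟨k, hk⟩ := h
    refine ⟨k, fun j hj => by_contra fun hn => ?_⟩
    rcases lt_or_gt_of_ne hj with h | h
    exacts [key j k h hn hk, key k j h hk hn]
  · push Not at h
    exact ⟨0, fun j _ => h j⟩

theorem Y_zero {T s : ℝ} (hT : 0 < T) (h : 1 ≤ T ^ 2 * s) : Y T s = 0 := by
  have hs : 0 < s := by by_contra hn; nlinarith [sq_nonneg T]
  have := log_nonneg h
  rw [log_mul (by positivity) hs.ne', log_pow] at this
  exact max_eq_right (div_nonpos_of_nonpos_of_nonneg (by push_cast at this; linarith) hT.le)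

theorem G_bd (k : ℕ) {x : E} (hx : x ∈ B) : arctan (Y (tau k ^ 2) (‖x - aa k‖ ^ 2)) ≤ G k x ∧
    G k x ≤ 1 / 4 * (1 / 2) ^ k + arctan (Y (tau k ^ 2) (‖x - aa k‖ ^ 2)) := by
  have t := tau_ge k
  have a := log_nonpos (sq_nonneg _) (sq_le (aa_mem k) hx)
  have b := log_nonneg (show 1 ≤ tau k ^ 2 by nlinarith)
  have c := log_le_sub_one_of_pos (show 0 < tau k by linarith)
  rw [G, P_eq (by positivity)]
  refine ⟨le_add_of_nonneg_left (div_nonneg (le_min (by linarith) (by linarith)) (by positivity)),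
    add_le_add_left ?_ _⟩
  rw [div_le_iff₀ (by positivity)]
  refine (min_le_right _ _).trans ?_
  rw [log_pow]
  have d := tau_eq k
  have e := hp k
  have f : (0:ℝ) < (1 / 2) ^ k := by positivity
  have : 16 ≤ tau k * (1 / 2) ^ k := by nlinarith [mul_pos f (show 0 < tau k by linarith)]
  push_cast
  nlinarith

theorem gr_sq (k : ℕ) (x : E) : ‖gr k x‖ ^ 2 =
    (2 * A (tau k ^ 2) (‖x - aa k‖ ^ 2)) ^ 2 * ‖x - aa k‖ ^ 2 := by
  rw [gr, norm_smul, mul_pow, Real.norm_eq_abs, sq_abs]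

theorem gr_le (k : ℕ) (x : E) : ‖gr k x‖ ^ 2 ≤ 4 * om (tau k ^ 2) (‖x - aa k‖ ^ 2) := by
  rw [gr_sq]; exact grad_sq (by have := tau_ge k; positivity) (sq_nonneg _) le_rfl

theorem th_nn (k : ℕ) (x : E) : 0 ≤ th k x := mul_nonneg (by positivity) (om_nn (sq_nonneg _))

theorem om_th (k : ℕ) (x : E) : om (tau k ^ 2) (‖x - aa k‖ ^ 2) = (1 / 2) ^ k * th k x := by
  rw [th, ← mul_assoc, ← mul_pow]; simp

theorem om_le_th (k : ℕ) (x : E) : om (tau k ^ 2) (‖x - aa k‖ ^ 2) ≤ th k x := by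
  rw [om_th]; exact mul_le_of_le_one_left (th_nn k x) (hp k)

theorem far {k : ℕ} {x : E} (h : Far k x) : Y (tau k ^ 2) (‖x - aa k‖ ^ 2) = 0 ∧
    ‖gr k x‖ ≤ 1 / 8 * (1 / 2) ^ k ∧ th k x ≤ 1 * (1 / 2) ^ k := by
  have t := tau_ge k
  have d := tau_eq k
  have e := hp k
  set δ : ℝ := (1 / 2) ^ k with hδ
  have f : 0 < δ := by positivity
  have s := pow_le_pow_left₀ (by positivity) h 2
  have a : 256 ≤ (tau k ^ 2) ^ 2 * ‖x - aa k‖ ^ 2 * δ ^ 6 := by
    calc (256:ℝ) = (tau k * δ ^ 2) ^ 4 / 256 := by rw [d]; norm_num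
      _ = (tau k ^ 2) ^ 2 * (δ / 16) ^ 2 * δ ^ 6 := by ring
      _ ≤ _ := by gcongr
  have a0 : 0 < (tau k ^ 2) ^ 2 * ‖x - aa k‖ ^ 2 := by
    by_contra hn; nlinarith [pow_pos f 6]
  have hy := Y_zero (T := tau k ^ 2) (s := ‖x - aa k‖ ^ 2) (by positivity)
    (by nlinarith [pow_le_one₀ f.le e (n := 6)])
  have o : om (tau k ^ 2) (‖x - aa k‖ ^ 2) ≤ δ ^ 2 / 256 := by
    rw [om, M, hy, div_le_div_iff₀ a0 (by norm_num)]
    have := pow_le_pow_of_le_one f.le e (show 2 ≤ 6 by norm_num)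
    nlinarith
  refine ⟨hy, le_of_sq_le_sq (by nlinarith [gr_le k x]) (by positivity), ?_⟩
  rw [om_th, ← hδ] at o
  nlinarith [th_nn k x]

theorem ff_sq (k : ℕ) (x : E) :
    ff k x ^ 2 ≤ 16 * om (tau k ^ 2) (‖x - aa k‖ ^ 2) * ‖gr k x‖ ^ 2 := by
  rw [gr_sq, ff]
  have t := tau_ge k
  generalize ‖x - aa k‖ ^ 2 = s, tau k ^ 2 = T
  have e : 16 * om T s * ((2 * A T s) ^ 2 * s) - D T s ^ 2 =
      64 * (M T s / (T ^ 2 * s)) ^ 2 * M T s * (1 - Y T s ^ 2 * M T s) := by
    unfold om A D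
    by_cases a : T = 0
    · simp [a]
    by_cases b : s = 0
    · simp [b]
    field_simp
    ring
  have m := @M_pos T s
  have : 0 ≤ 1 - Y T s ^ 2 * M T s := by nlinarith [@M_mul T s]
  rw [← sub_nonneg, e]
  positivity

theorem gr_ge {k : ℕ} {x : E} (h : ff k x ≠ 0) : 2 ≤ ‖gr k x‖ := by
  have t := tau_ge k
  refine le_of_sq_le_sq ?_ (norm_nonneg _)
  rw [gr_sq]
  rw [ff] at h
  have hT : 4 ≤ tau k ^ 2 := by nlinarith
  have hs := sq_nonneg ‖x - aa k‖
  generalize ‖x - aa k‖ ^ 2 = s, tau k ^ 2 = T at *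
  have s0 : 0 < s := hs.lt_of_ne (by rintro rfl; simp [D] at h)
  have y0 : Y T s ≠ 0 := by intro e; simp [D, e] at h
  have e : Y T s = (-log s - 2 * log T) / T := by
    rcases max_choice ((-log s - 2 * log T) / T) 0 with a | a
    exacts [a, absurd a y0]
  have e2 : T ^ 2 * s * exp (T * Y T s / 2) ^ 2 = 1 := by
    rw [← exp_nat_mul, e, ← exp_log (show 0 < T ^ 2 * s by positivity), ← exp_add,
      log_mul (by positivity) s0.ne', log_pow, exp_eq_one_iff]
    push_cast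
    field_simp
    ring
  have y := @Y_nn T s
  have q := quadratic_le_exp_of_nonneg (show 0 ≤ T * Y T s / 2 by positivity)
  have q2 : 1 + Y T s ^ 2 ≤ exp (T * Y T s / 2) := by
    nlinarith [mul_nonneg y (show 0 ≤ T by linarith), mul_le_mul_of_nonneg_right
      (show 16 ≤ T ^ 2 by nlinarith) (sq_nonneg (Y T s))]
  have q3 : T ^ 2 * s * (1 + Y T s ^ 2) ^ 2 ≤ 1 := le_trans (by gcongr) e2.le
  have e3 : (2 * A T s) ^ 2 * s = 4 / (T ^ 2 * s * (1 + Y T s ^ 2) ^ 2) := by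
    unfold A M; field_simp; norm_num
  rw [e3, le_div_iff₀ (by positivity)]
  linarith

theorem all_bd (k : ℕ) {x : E} (hx : x ∈ B) : |G k x| ≤ 8 * ((1 / 2) ^ k + th k x) ∧
    ‖gr k x‖ ≤ 8 * ((1 / 2) ^ k + th k x) ∧ |ff k x| ≤ 8 * ((1 / 2) ^ k + th k x) := by
  have t := tau_ge k
  have f : (0:ℝ) < (1 / 2) ^ k := by positivity
  have n := th_nn k x
  have o := om_le_th k x
  have o0 := @om_nn (tau k ^ 2) _ (sq_nonneg ‖x - aa k‖)
  have g := gr_le k x
  refine ⟨?_, ?_, ?_⟩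
  · obtain ⟨a, b⟩ := G_bd k hx
    rw [abs_of_nonneg (at_nn.trans a)]
    by_cases h : 1 ≤ (tau k ^ 2) ^ 2 * ‖x - aa k‖ ^ 2
    · rw [Y_zero (by positivity) h, arctan_zero] at b; linarith
    rcases (sq_nonneg ‖x - aa k‖).eq_or_lt with e | e
    · have : Y (tau k ^ 2) (‖x - aa k‖ ^ 2) = 0 := by
        rw [← e, Y, log_zero]
        exact max_eq_right (div_nonpos_of_nonpos_of_nonneg
          (by linarith [log_nonneg (show 1 ≤ tau k ^ 2 by nlinarith)]) (by positivity))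
      rw [this, arctan_zero] at b; linarith
    · have c := om_anti (T := tau k ^ 2) (t := 1 / (tau k ^ 2) ^ 2) (by nlinarith) e
        (by rw [le_div_iff₀ (by positivity)]; linarith)
      have d : om (tau k ^ 2) (1 / (tau k ^ 2) ^ 2) = 1 := by
        rw [om, M, Y_zero (by positivity) (le_of_eq (by field_simp))]; field_simp; simp
      linarith [arctan_lt_pi_div_two (Y (tau k ^ 2) (‖x - aa k‖ ^ 2)), pi_le_four]
  · rw [om_th] at g
    exact le_of_sq_le_sq (by nlinarith [mul_nonneg f.le n]) (by positivity)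
  · refine abs_le_of_sq_le_sq ((ff_sq k x).trans ?_) (by positivity)
    calc _ ≤ 16 * th k x * (4 * th k x) := by gcongr; linarith
      _ ≤ _ := by nlinarith [mul_nonneg f.le n]

theorem mY (T : ℝ) : Measurable (Y T) := by unfold Y; fun_prop
theorem mM (T : ℝ) : Measurable (M T) := by have := mY T; unfold M; fun_prop
theorem mG (k : ℕ) : Measurable (G k) := by
  have := mY (tau k ^ 2); have := continuous_arctan.measurable; unfold G P; fun_prop
theorem mgr (k : ℕ) : Measurable (gr k) := by have := mM (tau k ^ 2); unfold gr A; fun_prop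
theorem mff (k : ℕ) : Measurable (ff k) := by
  have := mM (tau k ^ 2); have := mY (tau k ^ 2); unfold ff D; fun_prop
theorem mth (k : ℕ) : Measurable (th k) := by have := mM (tau k ^ 2); unfold th om; fun_prop

theorem th_int : ∃ C, ∀ k, IntegrableOn (th k) B ∧ ∫ x in B, th k x ≤ C * (1 / 2) ^ k := by
  refine ⟨∫ x in ball (0:E) 1, W (‖x‖ ^ 2), fun k => ?_⟩
  have t := tau_ge k
  have w := W_int' (aa_mem k)
  have hb : ∀ x ∈ B, th k x ≤ W (‖x - aa k‖ ^ 2) * (1 / 2) ^ k := fun x hx => by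
    have a := om_le (τ := tau k) (by linarith) (aa_mem k) hx
    have b := W_nn (sq_nonneg _) (sq_le (aa_mem k) hx)
    have f : (0:ℝ) < (1 / 2) ^ k := by positivity
    have c : 4 / tau k ≤ ((1 / 2) ^ k) ^ 2 := by
      rw [div_le_iff₀ (by linarith), mul_comm, tau_eq]; norm_num
    rw [om_th] at a
    nlinarith [mul_le_mul_of_nonneg_right c b]
  have i : IntegrableOn (th k) B := (w.mul_const _).mono' (mth k).aestronglyMeasurable (by
    filter_upwards [ae_restrict_mem measurableSet_ball] with x hx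
    rw [Real.norm_of_nonneg (th_nn k x)]; exact hb x hx)
  refine ⟨i, (setIntegral_mono_on i (w.mul_const _) measurableSet_ball hb).trans ?_⟩
  rw [integral_mul_const]
  refine mul_le_mul_of_nonneg_right ?_ (by positivity)
  have mp := measurePreserving_sub_right (volume : Measure E) (aa k)
  have me := (MeasurableEquiv.subRight (aa k)).measurableEmbedding
  rw [← mp.setIntegral_preimage_emb me (fun x : E => W (‖x‖ ^ 2)) (ball 0 1)]
  refine setIntegral_mono_set ((mp.integrableOn_comp_preimage me).2 W_int) ?_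
    (LE.le.eventuallyLE fun x hx => mem_ball_zero_iff.2 (sub_lt (aa_mem k) hx))
  filter_upwards [ae_restrict_mem (measurableSet_ball.preimage me.measurable)] with x hx
  exact W_nn (sq_nonneg _) (pow_le_one₀ (norm_nonneg _) (mem_ball_zero_iff.1 hx).le)

end Pool.Agent.H15.DR
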