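import Pool.Agent.H15.DR3

/-! A bounded discontinuous solution with square integrable drift. -/

namespace Pool.Agent.H15.DR

open Real Set MeasureTheory Filter Topology Metric InnerProductSpace

noncomputable def uu (x : E) : ℝ := ∑' k, G k x
noncomputable def gg (x : E) : E := ∑' k, gr k x
noncomputable def fs (x : E) : ℝ := ∑' k, ff k x
noncomputable def bb (x : E) : E := (fs x / ‖gg x‖ ^ 2) • gg x
noncomputable def TH (x : E) : ℝ := ∑' k, th k x

instance : IsFiniteMeasure (volume.restrict B) := ⟨by rw [Measure.restrict_apply_univ]; exact measure_ball_lt_top⟩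

theorem TH_int : IntegrableOn TH B := by
  obtain ⟨C, hC⟩ := th_int
  refine int_tsum (fun k => (hC k).1) (Summable.of_nonneg_of_le
    (fun k => integral_nonneg fun x => norm_nonneg _) (fun k => ?_)
    (summable_geometric_two.mul_left C))
  simp only [Real.norm_of_nonneg (th_nn k _)]
  exact (hC k).2

theorem swap {F : ℕ → E → ℝ} (hm : ∀ k, Measurable (F k)) (C : ℝ) (C0 : 0 ≤ C)
    (hb : ∀ k, ∀ x ∈ B, |F k x| ≤ C * ((1 / 2) ^ k + th k x)) :
    (∀ k, IntegrableOn (F k) B) ∧ HasSum (fun k => ∫ x in B, F k x) (∫ x in B, ∑' k, F k x) := by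
  obtain ⟨K, hK⟩ := th_int
  have i0 : ∀ k, IntegrableOn (fun x => C * ((1 / 2) ^ k + th k x)) B := fun k =>
    ((integrable_const _).add (hK k).1).const_mul C
  have i : ∀ k, IntegrableOn (F k) B := fun k => (i0 k).mono' (hm k).aestronglyMeasurable (by
    filter_upwards [ae_restrict_mem measurableSet_ball] with x hx using hb k x hx)
  refine ⟨i, hasSum_integral_of_summable_integral_norm i (Summable.of_nonneg_of_le
    (fun k => integral_nonneg fun x => norm_nonneg _) (fun k => ?_)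
    (summable_geometric_two.mul_left (C * ((volume.restrict B).real univ + K))))⟩
  refine (setIntegral_mono_on (i k).norm (i0 k) measurableSet_ball (hb k)).trans ?_
  rw [integral_const_mul, integral_add (integrable_const _) (hK k).1, integral_const, smul_eq_mul,
    mul_assoc]
  refine mul_le_mul_of_nonneg_left ?_ C0
  linarith [(hK k).2]

theorem G_nn (k : ℕ) {x : E} (hx : x ∈ B) : 0 ≤ G k x := at_nn.trans (G_bd k hx).1

theorem pt {x : E} (hx : x ∈ B) : ∃ k, Summable (G · x) ∧ Summable (gr · x) ∧ Summable (ff · x) ∧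
    |uu x - G k x| ≤ 1 / 2 ∧ ‖gg x - gr k x‖ ≤ 1 / 4 ∧ fs x = ff k x ∧ th k x ≤ TH x := by
  obtain ⟨k, hk⟩ := one_near x
  obtain ⟨a1, a2⟩ := one_off (v := (G · x)) (k := k) (c := 1 / 4) (by norm_num) fun j hj => by
    have := (G_bd j hx).2
    rw [(far (hk j hj)).1, arctan_zero, add_zero] at this
    rwa [Real.norm_of_nonneg (G_nn j hx)]
  obtain ⟨b1, b2⟩ := one_off (v := (gr · x)) (k := k) (c := 1 / 8) (by norm_num)
    fun j hj => (far (hk j hj)).2.1
  obtain ⟨c1, c2⟩ := one_off (v := (ff · x)) (k := k) (c := 0) le_rfl fun j hj => by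
    simp [ff, D, (far (hk j hj)).1]
  obtain ⟨d1, -⟩ := one_off (v := (th · x)) (k := k) (c := 1) (by norm_num) fun j hj => by
    rw [Real.norm_of_nonneg (th_nn j x)]; exact (far (hk j hj)).2.2
  refine ⟨k, a1, b1, c1, by norm_num at a2 ⊢; exact a2, by norm_num at b2 ⊢; exact b2, ?_,
    d1.le_tsum k fun j _ => th_nn j x⟩
  simpa [sub_eq_zero, fs] using c2

theorem uu_bd {x : E} (hx : x ∈ B) : |uu x| ≤ 3 := by
  obtain ⟨k, -, -, -, h, -⟩ := pt hx
  have a := abs_le.1 h
  have b := (G_bd k hx).2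
  rw [abs_le]
  constructor <;> linarith [G_nn k hx, hp k, pi_le_four,
    arctan_lt_pi_div_two (Y (tau k ^ 2) (‖x - aa k‖ ^ 2))]

theorem gg_bd {x : E} (hx : x ∈ B) : ‖gg x‖ ^ 2 ≤ 1 + 8 * TH x := by
  obtain ⟨k, -, -, -, -, h, -, h2⟩ := pt hx
  have a := norm_sub_norm_le (gg x) (gr k x)
  have b := pow_le_pow_left₀ (norm_nonneg _) (show ‖gg x‖ ≤ ‖gr k x‖ + 1 / 4 by linarith) 2
  nlinarith [gr_le k x, om_le_th k x, sq_nonneg (‖gr k x‖ - 1 / 4)]

theorem bb_bd {x : E} (hx : x ∈ B) : ⟪gg x, bb x⟫_ℝ = fs x ∧ ‖bb x‖ ^ 2 ≤ 64 * TH x := by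
  obtain ⟨k, -, -, -, -, h, h1, h2⟩ := pt hx
  have t := th_nn k x
  by_cases e : ff k x = 0
  · simp only [bb, h1, e, zero_div, zero_smul, inner_zero_right, norm_zero, true_and]
    linarith
  have a := gr_ge e
  have b := norm_sub_norm_le (gr k x) (gg x)
  rw [norm_sub_rev] at b
  have c : 0 < ‖gg x‖ := by linarith
  constructor
  · rw [bb, inner_smul_right, real_inner_self_eq_norm_sq]; field_simp
  · have d : ‖bb x‖ ^ 2 = ff k x ^ 2 / ‖gg x‖ ^ 2 := by
      rw [bb, norm_smul, mul_pow, Real.norm_eq_abs, sq_abs, h1]; field_simp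
    rw [d, div_le_iff₀ (by positivity)]
    calc _ ≤ 16 * TH x * (2 * ‖gg x‖) ^ 2 := (ff_sq k x).trans (by
          have := (om_le_th k x).trans h2
          gcongr
          · linarith
          · linarith)
      _ = _ := by ring

theorem m_uu : Measurable uu := Measurable.tsum mG
theorem m_gg : Measurable gg := Measurable.tsum mgr
theorem m_bb : Measurable bb := by
  have := m_gg
  have : Measurable fs := Measurable.tsum mff
  unfold bb; fun_prop

theorem L2 {f : E → E} (hf : Measurable f) (c d : ℝ) (h : ∀ x ∈ B, ‖f x‖ ^ 2 ≤ c + d * TH x) :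
    MemLp f 2 (volume.restrict B) :=
  (memLp_two_iff_integrable_sq_norm hf.aestronglyMeasurable).2
    (((integrable_const c).add (TH_int.const_mul d)).mono'
      (hf.norm.pow_const 2).aestronglyMeasurable (by
        filter_upwards [ae_restrict_mem measurableSet_ball] with x hx
        rw [Real.norm_of_nonneg (sq_nonneg _)]; exact h x hx))

theorem weakG {φ : E → ℝ} (h : IsTest (1 / 2) φ) (v : E) :
    ∫ x in B, uu x * fderiv ℝ φ x v = -∫ x in B, ⟪gg x, v⟫_ℝ * φ x := by
  obtain ⟨C, C0, hC⟩ := h.bd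
  have c3 := h.cd
  have c0 := h.1.continuous
  have s1 := (swap (F := fun k x => G k x * fderiv ℝ φ x v)
    (fun k => (mG k).mul (Continuous.measurable (by fun_prop))) (C * ‖v‖ * 8) (by positivity)
    fun k x hx => by
      rw [abs_mul, mul_comm, mul_assoc]
      exact mul_le_mul (((fderiv ℝ φ x).le_opNorm v).trans
        (mul_le_mul_of_nonneg_right (hC x).2 (norm_nonneg _))) (all_bd k hx).1 (abs_nonneg _)
        (by positivity)).2
  have s2 := (swap (F := fun k x => ⟪gr k x, v⟫_ℝ * φ x)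
    (fun k => ((mgr k).inner measurable_const).mul c0.measurable) (C * ‖v‖ * 8) (by positivity)
    fun k x hx => by
      rw [abs_mul, mul_comm, mul_assoc, mul_assoc]
      refine mul_le_mul (hC x).1 ((abs_real_inner_le_norm _ _).trans ?_) (abs_nonneg _) C0
      rw [mul_comm]
      exact mul_le_mul_of_nonneg_left (all_bd k hx).2.1 (norm_nonneg _)).2.neg
  have e : ∀ k, ∫ x in B, G k x * fderiv ℝ φ x v = -∫ x in B, ⟪gr k x, v⟫_ℝ * φ x := fun k => by
    simp only [G, gr, real_inner_smul_left]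
    exact weak1 h (by linarith [tau_ge k]) (aa_mem k) v
  simp only [e] at s1
  have := s1.unique s2
  simp only [tsum_mul_right] at this
  rw [show (∫ x in B, uu x * fderiv ℝ φ x v) = _ from this]
  congr 1
  refine setIntegral_congr_fun measurableSet_ball fun x hx => ?_
  obtain ⟨k, -, b, -⟩ := pt hx
  have := (innerSL ℝ v).map_tsum b
  simp only [innerSL_apply_apply, real_inner_comm _ v] at this
  simp only [gg, this]

theorem weakE {φ : E → ℝ} (h : IsTest (1 / 2) φ) :
    ∫ x in B, ⟪gg x, gradient φ x + φ x • bb x⟫_ℝ = 0 := by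
  obtain ⟨C, C0, hC⟩ := h.bd
  have c3 := h.cd
  have c0 := h.1.continuous
  have ma : ∀ k, Measurable fun x => fderiv ℝ φ x (gr k x) := fun k =>
    (isBoundedBilinearMap_apply (𝕜 := ℝ) (E := E) (F := ℝ)).continuous.measurable.comp
      (c3.measurable.prodMk (mgr k))
  have b1 : ∀ k, ∀ x ∈ B, |fderiv ℝ φ x (gr k x)| ≤ C * 8 * ((1 / 2) ^ k + th k x) :=
    fun k x hx => by
      rw [mul_assoc]
      exact ((fderiv ℝ φ x).le_opNorm _).trans (mul_le_mul (hC x).2 (all_bd k hx).2.1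
        (norm_nonneg _) C0)
  have b2 : ∀ k, ∀ x ∈ B, |ff k x * φ x| ≤ C * 8 * ((1 / 2) ^ k + th k x) := fun k x hx => by
    rw [abs_mul, mul_comm, mul_assoc]
    exact mul_le_mul (hC x).1 (all_bd k hx).2.2 (abs_nonneg _) C0
  have i1 := (swap ma (C * 8) (by positivity) b1).1
  have i2 := (swap (F := fun k x => ff k x * φ x) (fun k => (mff k).mul c0.measurable) (C * 8)
    (by positivity) b2).1
  have s := (swap (F := fun k x => fderiv ℝ φ x (gr k x) + ff k x * φ x)
    (fun k => (ma k).add ((mff k).mul c0.measurable)) (2 * (C * 8)) (by positivity)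
    fun k x hx => (abs_add_le _ _).trans (by linarith [b1 k x hx, b2 k x hx])).2
  have e : ∀ k, ∫ x in B, (fderiv ℝ φ x (gr k x) + ff k x * φ x) = 0 := fun k => by
    rw [integral_add (i1 k) (i2 k)]
    simp only [ff, gr, map_smul, smul_eq_mul]
    rw [weak2 h (by linarith [tau_ge k]) (aa_mem k), neg_add_cancel]
  simp only [e] at s
  refine (setIntegral_congr_fun measurableSet_ball fun x hx => ?_).trans (s.unique hasSum_zero)
  obtain ⟨k, -, b, c, -⟩ := pt hx
  beta_reduce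
  rw [inner_add_right, inner_smul_right, (bb_bd hx).1,
    ((fderiv ℝ φ x).summable b).tsum_add (c.mul_right _), ← (fderiv ℝ φ x).map_tsum b,
    tsum_mul_right, real_inner_comm, gradient, toDual_symm_apply, mul_comm]
  rfl

theorem uu_lo {k : ℕ} {x : E} (hx : x ∈ B) (hn : x ≠ aa k)
    (h : ‖x - aa k‖ < exp (-log (tau k ^ 2) - tau k ^ 2)) : 3 / 4 ≤ uu x := by
  obtain ⟨j, a, -⟩ := pt hx
  have t := tau_ge k
  refine le_trans ?_ ((G_bd k hx).1.trans (a.le_tsum k fun j _ => G_nn j hx))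
  have p := norm_pos_iff.2 (sub_ne_zero.2 hn)
  have b := (log_lt_iff_lt_exp p).2 h
  have c : 1 ≤ Y (tau k ^ 2) (‖x - aa k‖ ^ 2) := by
    refine le_trans ?_ (le_max_left _ _)
    rw [le_div_iff₀ (by positivity), log_pow]
    push_cast
    nlinarith
  linarith [arctan_strictMono.monotone c, arctan_one, pi_gt_three]

theorem uu_hi {x : E} (hx : x ∈ B) (h : x 0 < 0) : uu x ≤ 1 / 2 := by
  refine (le_abs_self _).trans ((tsum_of_norm_bounded (f := (G · x))
    (hasSum_geometric_two.mul_left (1 / 4 : ℝ)) fun j => ?_).trans (by norm_num))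
  have f : Far j x := by
    have a := PiLp.norm_apply_le (x - aa j) 0
    have : (0:ℝ) < (1 / 2) ^ j := by positivity
    simp only [aa, PiLp.sub_apply, PiLp.single_apply, if_true, Real.norm_eq_abs] at a
    unfold Far aa
    linarith [neg_le_abs (x 0 - (1 / 2) ^ j / 4)]
  have := (G_bd j hx).2
  rw [(far f).1, arctan_zero, add_zero] at this
  rwa [Real.norm_of_nonneg (G_nn j hx)]

theorem discont : ¬ ∃ v : E → ℝ, ContinuousOn v B ∧ uu =ᵐ[volume.restrict B] v := by
  rintro ⟨v, hv, he⟩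
  rw [EventuallyEq, ae_restrict_iff' measurableSet_ball] at he
  have dn := (volume : Measure E).dense_of_ae he
  have h0 : (0:E) ∈ B := mem_ball_self (by norm_num)
  obtain ⟨r, r0, hr⟩ := Metric.eventually_nhds_iff_ball.1
    ((((hv.continuousAt (isOpen_ball.mem_nhds h0)).eventually
      (ball_mem_nhds (v 0) (show (0:ℝ) < 1 / 8 by norm_num)))).and (isOpen_ball.mem_nhds h0))
  obtain ⟨k, hk⟩ := exists_pow_lt_of_lt_one r0 (show (1 / 2 : ℝ) < 1 by norm_num)
  have f : (0:ℝ) < (1 / 2) ^ k := by positivity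
  have m1 : aa k ∈ ball (0:E) r := by rw [mem_ball_zero_iff, aa_norm]; linarith
  obtain ⟨x, ⟨⟨x1, x2⟩, x3⟩, x4⟩ := (dn.sdiff_finite (finite_singleton (aa k))).inter_open_nonempty
    (ball 0 r ∩ ball (aa k) (exp (-log (tau k ^ 2) - tau k ^ 2))) (isOpen_ball.inter isOpen_ball)
    ⟨aa k, m1, mem_ball_self (exp_pos _)⟩ |>.imp fun x hx => (⟨⟨hx.1, hx.2.1⟩, hx.2.2⟩ :
      ((x ∈ ball (0:E) r ∧ x ∈ ball (aa k) _) ∧ (x ∈ B → uu x = v x)) ∧ x ∉ ({aa k} : Set E))
  obtain ⟨y, ⟨y1, y2⟩, y3⟩ := dn.inter_open_nonempty (ball 0 r ∩ {x : E | x 0 < 0})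
    (isOpen_ball.inter (isOpen_lt (by fun_prop) continuous_const))
    ⟨-aa k, by simpa using m1, by simp [aa]⟩
  have a := uu_lo (hr x x1).2 x4 (mem_ball_iff_norm.1 x2)
  have b := uu_hi (hr y y1).2 y2
  have c := abs_lt.1 (mem_ball_iff_norm.1 (hr x x1).1)
  have d := abs_lt.1 (mem_ball_iff_norm.1 (hr y y1).1)
  rw [x3 (hr x x1).2] at a
  rw [y3 (hr y y1).2] at b
  linarith [c.2, d.1]

/-- Lebesgue measure on the disc `B_R` -/
noncomputable def mu (R : ℝ) : Measure E := volume.restrict (ball 0 R)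

/-- `g` is the weak gradient of `u` on `B_R` -/
def WeakGrad (R : ℝ) (u : E → ℝ) (g : E → E) : Prop :=
  ∀ φ, IsTest R φ → ∀ v, ∫ x, u x * fderiv ℝ φ x v ∂mu R = -∫ x, ⟪g x, v⟫_ℝ * φ x ∂mu R

/-- the weak equation for the gradient `g` and the drift `b` -/
def WeakEq (R : ℝ) (b g : E → E) : Prop :=
  ∀ h, IsTest R h → ∫ x, ⟪g x, gradient h x + h x • b x⟫_ℝ ∂mu R = 0

theorem main : ∃ (R : ℝ) (b g : E → E) (u : E → ℝ), 0 < R ∧ Measurable b ∧
    MemLp b 2 (mu R) ∧ MemLp u 2 (mu R) ∧ MemLp g 2 (mu R) ∧ MemLp u ⊤ (mu R) ∧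
    WeakGrad R u g ∧ WeakEq R b g ∧
    ¬ ∃ v : E → ℝ, ContinuousOn v (ball 0 R) ∧ u =ᵐ[mu R] v := by
  have t : MemLp uu ⊤ (volume.restrict B) := memLp_top_of_bound m_uu.aestronglyMeasurable 3 (by
    filter_upwards [ae_restrict_mem measurableSet_ball] with x hx using uu_bd hx)
  exact ⟨1 / 2, bb, gg, uu, by norm_num, m_bb, L2 m_bb 0 64 fun x hx => by
    simpa using (bb_bd hx).2, t.mono_exponent le_top, L2 m_gg 1 8 fun x => gg_bd, t,
    fun φ => weakG, fun h => weakE, discont⟩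

end Pool.Agent.H15.DR
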