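import Mathlib

set_option autoImplicit false

namespace Pool.Agent.H15.DS1

open Polynomial

theorem dom {B K : Type*} [CommRing B] [Field K] [LinearOrder K] [IsStrictOrderedRing K]
    (φ : B →+* K) (y : K) (hy : ∀ b, |φ b| < y)
    (hlow : ∀ b, φ b ≠ 0 → ∃ c, 1 ≤ |φ b| * |φ c|) :
    ∀ (n : ℕ) (p : B[X]), p.natDegree ≤ n → p.map φ ≠ 0 →
      ∃ c, 1 ≤ |(p.map φ).eval y| * |φ c| := by
  have hy1 : ∀ b, |φ b| + 1 < y := by
    intro b
    rcases le_total 0 (φ b) with h | h
    · have := hy (b + 1)
      rw [map_add, map_one, abs_of_nonneg (by linarith)] at this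
      rw [abs_of_nonneg h]; exact this
    · have := hy (-b + 1)
      rw [map_add, map_one, map_neg, abs_of_nonneg (by linarith)] at this
      rw [abs_of_nonpos h]; exact this
  have hy0 : 0 < y := lt_of_le_of_lt (abs_nonneg _) (hy 0)
  have key : ∀ p : B[X], (p.divX.map φ ≠ 0 → ∃ c, 1 ≤ |(p.divX.map φ).eval y| * |φ c|) →
      p.map φ ≠ 0 → ∃ c, 1 ≤ |(p.map φ).eval y| * |φ c| := by
    intro p ih h
    have e : p.map φ = X * p.divX.map φ + C (φ (p.coeff 0)) := by
      conv_lhs => rw [← X_mul_divX_add p]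
      rw [Polynomial.map_add, Polynomial.map_mul, map_X, map_C]
    by_cases hq : p.divX.map φ = 0
    · rw [e, hq, mul_zero, zero_add] at h ⊢
      rw [eval_C]
      exact hlow _ (fun h0 => h (by rw [h0]; simp))
    · obtain ⟨c, hc⟩ := ih hq
      refine ⟨c, ?_⟩
      rw [e, eval_add, eval_mul, eval_X, eval_C]
      set q := (p.divX.map φ).eval y
      have h1 := hy1 (p.coeff 0 * c)
      rw [map_mul, abs_mul] at h1
      have h2 : |y * q| ≤ |y * q + φ (p.coeff 0)| + |φ (p.coeff 0)| := by
        have := abs_sub (y * q + φ (p.coeff 0)) (φ (p.coeff 0))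
        simpa using this
      rw [abs_mul, abs_of_pos hy0] at h2
      have h3 : 0 ≤ |φ c| := abs_nonneg _
      nlinarith [mul_le_mul_of_nonneg_right h2 h3, mul_le_mul_of_nonneg_left hc hy0.le]
  intro n
  induction n with
  | zero =>
    intro p hp
    apply key
    intro h
    exfalso; apply h
    have : p.divX = 0 := by rw [divX_eq_zero_iff]; exact eq_C_of_natDegree_le_zero hp
    rw [this, Polynomial.map_zero]
  | succ n ih =>
    intro p hp
    apply key
    apply ih
    rw [natDegree_divX_eq_natDegree_tsub_one]; omega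

theorem exists_lb {K : Type*} [Field K] [LinearOrder K] [IsStrictOrderedRing K] (s : Finset K)
    (h : ∀ r ∈ s, 0 < r) : ∃ δ : K, 0 < δ ∧ ∀ r ∈ s, δ < r := by
  classical
  induction s using Finset.induction_on with
  | empty => exact ⟨1, one_pos, by simp⟩
  | insert a s _ ih =>
    obtain ⟨δ, h0, h1⟩ := ih (fun r hr => h r (Finset.mem_insert_of_mem hr))
    have ha := h a (Finset.mem_insert_self _ _)
    refine ⟨min δ (a / 2), lt_min h0 (by linarith), ?_⟩
    intro r hr
    rcases Finset.mem_insert.1 hr with rfl | hr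
    · exact lt_of_le_of_lt (min_le_right _ _) (by linarith)
    · exact lt_of_le_of_lt (min_le_left _ _) (h1 r hr)

theorem sign_change {K : Type*} [Field K] [LinearOrder K] [IsStrictOrderedRing K]
    (ivt : ∀ (p : K[X]) (a b : K), a < b → p.eval a * p.eval b < 0 →
      ∃ c, a < c ∧ c < b ∧ p.eval c = 0)
    (p : K[X]) (a lo hi : K) (h0 : p.eval a = 0) (h1 : p.derivative.eval a ≠ 0)
    (hl : lo < a) (hh : a < hi) :
    ∃ u v, lo < u ∧ u < v ∧ v < hi ∧ p.eval u * p.eval v < 0 := by
  classical
  obtain ⟨G, hG⟩ : (X - C a) ∣ p := dvd_iff_isRoot.2 h0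
  have hGa : G.eval a ≠ 0 := by
    intro h; apply h1; rw [hG]; simp [derivative_mul, h]
  have hG0 : G ≠ 0 := by rintro rfl; simp at hGa
  obtain ⟨δ, hδ, hb⟩ := exists_lb
    (insert (a - lo) (insert (hi - a) (G.roots.toFinset.image (fun r => |r - a|)))) (by
      intro r hr
      simp only [Finset.mem_insert, Finset.mem_image, Multiset.mem_toFinset, mem_roots hG0] at hr
      rcases hr with rfl | rfl | ⟨x, hx, rfl⟩
      · linarith
      · linarith
      · rw [abs_pos, sub_ne_zero]; rintro rfl; exact hGa hx)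
  have b1 := hb (a - lo) (by simp)
  have b2 := hb (hi - a) (by simp)
  have b3 : ∀ x, G.eval x = 0 → δ < |x - a| := fun x hx => hb _ (by
    simp only [Finset.mem_insert, Finset.mem_image, Multiset.mem_toFinset, mem_roots hG0]
    exact Or.inr (Or.inr ⟨x, hx, rfl⟩))
  have hpos : 0 < G.eval (a - δ) * G.eval (a + δ) := by
    rcases lt_trichotomy (G.eval (a - δ) * G.eval (a + δ)) 0 with h | h | h
    · obtain ⟨c, c1, c2, c3⟩ := ivt G _ _ (by linarith) h
      have := b3 c c3
      have h' : |c - a| < δ := abs_lt.2 ⟨by linarith, by linarith⟩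
      linarith
    · rcases mul_eq_zero.1 h with h | h
      · have := b3 _ h
        rw [show a - δ - a = -δ by ring, abs_neg, abs_of_pos hδ] at this
        exact absurd this (lt_irrefl _)
      · have := b3 _ h
        rw [show a + δ - a = δ by ring, abs_of_pos hδ] at this
        exact absurd this (lt_irrefl _)
    · exact h
  refine ⟨a - δ, a + δ, by linarith, by linarith, by linarith, ?_⟩
  rw [hG]
  simp only [eval_mul, eval_sub, eval_X, eval_C]
  have : (a - δ - a) * G.eval (a - δ) * ((a + δ - a) * G.eval (a + δ))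
      = -(δ * δ * (G.eval (a - δ) * G.eval (a + δ))) := by ring
  rw [this]
  have := mul_pos (mul_pos hδ hδ) hpos
  linarith

theorem hensel_splits (n : ℕ) (g : (PowerSeries ℚ)[X]) (hg : g.Monic) (hn : g.natDegree = n)
    (hm : g.map (PowerSeries.constantCoeff (R := ℚ)) =
      ∏ i ∈ Finset.range n, (X - C (i : ℚ))) :
    (g.map (algebraMap (PowerSeries ℚ) (LaurentSeries ℚ))).Splits := by
  classical
  have hsep : (∏ i ∈ Finset.range n, (X - C (i : ℚ))).Separable :=
    separable_prod_X_sub_C_iff'.2 (fun x _ y _ h => Nat.cast_injective h)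
  have hev : ∀ (q : (PowerSeries ℚ)[X]) (c : ℚ), PowerSeries.constantCoeff (q.eval (PowerSeries.C c))
      = (q.map (PowerSeries.constantCoeff (R := ℚ))).eval c := by
    intro q c
    have := eval₂_at_apply (p := q) (PowerSeries.constantCoeff (R := ℚ)) (PowerSeries.C c)
    rw [← this, eval_map]; simp
  have hroot : ∀ i ∈ Finset.range n, ∃ a : PowerSeries ℚ, g.IsRoot a ∧
      PowerSeries.constantCoeff a = (i : ℚ) := by
    intro i hi
    have hR : (∏ j ∈ Finset.range n, (X - C (j : ℚ))).eval (i : ℚ) = 0 := by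
      rw [eval_prod]; exact Finset.prod_eq_zero hi (by simp)
    obtain ⟨a, ha, hb⟩ := HenselianRing.is_henselian
      (I := (Ideal.span {PowerSeries.X} : Ideal (PowerSeries ℚ))) g hg (PowerSeries.C (i : ℚ))
      (by rw [Ideal.mem_span_singleton, PowerSeries.X_dvd_iff, hev, hm, hR])
      (by
        apply IsUnit.map
        rw [PowerSeries.isUnit_iff_constantCoeff, hev, ← derivative_map, hm, isUnit_iff_ne_zero]
        have := hsep.eval₂_derivative_ne_zero (RingHom.id ℚ) (x := (i : ℚ)) (by simpa using hR)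
        simpa using this)
    refine ⟨a, ha, ?_⟩
    rw [Ideal.mem_span_singleton, PowerSeries.X_dvd_iff, map_sub, sub_eq_zero] at hb
    simpa using hb
  choose! a ha hb using hroot
  have hinj : Function.Injective (algebraMap (PowerSeries ℚ) (LaurentSeries ℚ)) :=
    IsFractionRing.injective _ _
  have hmon := hg.map (algebraMap (PowerSeries ℚ) (LaurentSeries ℚ))
  rw [splits_iff_card_roots]
  apply le_antisymm (card_roots' _)
  rw [hg.natDegree_map, hn]
  have hsub : (Finset.range n).image (fun i => algebraMap _ (LaurentSeries ℚ) (a i)) ⊆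
      (g.map (algebraMap (PowerSeries ℚ) (LaurentSeries ℚ))).roots.toFinset := by
    intro z hz
    obtain ⟨i, hi, rfl⟩ := Finset.mem_image.1 hz
    rw [Multiset.mem_toFinset, mem_roots hmon.ne_zero]
    exact (ha i hi).map
  have hc : ((Finset.range n).image (fun i => algebraMap _ (LaurentSeries ℚ) (a i))).card = n := by
    rw [Finset.card_image_of_injOn, Finset.card_range]
    intro i hi j hj h
    have h2 := hinj h
    have h3 := hb i (by simpa using hi)
    rw [h2, hb j (by simpa using hj)] at h3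
    exact (Nat.cast_injective h3).symm
  calc n = _ := hc.symm
    _ ≤ _ := Finset.card_le_card hsub
    _ ≤ _ := Multiset.toFinset_card_le _

theorem int_mem (p : ℚ[X]) (hp : p.Monic) (φ : ℚ →+* LaurentSeries ℚ) (z : LaurentSeries ℚ)
    (hz : p.eval₂ φ z = 0) : ∃ g : PowerSeries ℚ, algebraMap _ _ g = z := by
  apply IsIntegrallyClosed.algebraMap_eq_of_integral
  refine ⟨p.map PowerSeries.C, hp.map _, ?_⟩
  rw [eval₂_map, RingHom.ext_rat ((algebraMap (PowerSeries ℚ) (LaurentSeries ℚ)).comp
    PowerSeries.C) φ, hz]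

theorem rac {F : Type*} [Field F] [CharZero F] (ψ : F →+* LaurentSeries ℚ) (x : F)
    (hx : IsAlgebraic ℚ x) : ∃ q : ℚ, x = q := by
  have key : ∀ y : F, IsAlgebraic ℚ y → ∃ g : PowerSeries ℚ, algebraMap _ _ g = ψ y := by
    intro y hy
    obtain ⟨p, hp, h⟩ := hy.isIntegral
    refine int_mem p hp (ψ.comp (algebraMap ℚ F)) _ ?_
    rw [← hom_eval₂, h, map_zero]
  obtain ⟨g, hg⟩ := key x hx
  refine ⟨PowerSeries.constantCoeff g, ?_⟩
  by_contra hne
  set c : ℚ := PowerSeries.constantCoeff g
  have hne' : x - c ≠ 0 := sub_ne_zero.2 hne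
  have halg : IsAlgebraic ℚ (x - c) := hx.sub (isAlgebraic_algebraMap c)
  obtain ⟨h, hh⟩ := key _ halg.inv
  have hc : algebraMap (PowerSeries ℚ) (LaurentSeries ℚ) (PowerSeries.C c) = ψ c := by
    have := RingHom.ext_rat ((algebraMap (PowerSeries ℚ) (LaurentSeries ℚ)).comp
      PowerSeries.C) (ψ.comp (algebraMap ℚ F))
    exact DFunLike.congr_fun this c
  have hinj : Function.Injective (algebraMap (PowerSeries ℚ) (LaurentSeries ℚ)) :=
    IsFractionRing.injective _ _
  have h1 : (g - PowerSeries.C c) * h = 1 := by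
    apply hinj
    rw [map_mul, map_sub, hg, hh, hc, ← map_sub, ← map_mul, mul_inv_cancel₀ hne', map_one, map_one]
  have h2 := congrArg (PowerSeries.constantCoeff (R := ℚ)) h1
  simp [c] at h2

end Pool.Agent.H15.DS1
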