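import Mathlib
import Pool.Agent.H15.DS1

set_option autoImplicit false

namespace Pool.Agent.H15.DS2

open Polynomial Pool.Agent.H15.DS1

theorem main (K : Type*) [Field K] [LinearOrder K] [IsStrictOrderedRing K]
    (ivt : ∀ (p : K[X]) (a b : K), a < b → p.eval a * p.eval b < 0 →
      ∃ c, a < c ∧ c < b ∧ p.eval c = 0)
    [Algebra (RatFunc ℚ) K] [Algebra.IsAlgebraic (RatFunc ℚ) K]
    (ht : ∀ n : ℕ, (n : K) < algebraMap (RatFunc ℚ) K RatFunc.X) :
    ∃ F : Subfield K, (∀ a b : K, a < b → ∃ f ∈ F, a < f ∧ f < b) ∧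
      ∀ x ∈ F, IsAlgebraic ℚ x → ∃ q : ℚ, x = q := by
  classical
  set t : K := algebraMap (RatFunc ℚ) K RatFunc.X with htdef
  let φ : ℚ[X] →+* K := (algebraMap (RatFunc ℚ) K).comp (algebraMap ℚ[X] (RatFunc ℚ))
  have hφX : φ X = t := by simp [φ, htdef]
  have hφinj : Function.Injective φ :=
    (algebraMap (RatFunc ℚ) K).injective.comp (IsFractionRing.injective _ _)
  have hφev : ∀ b : ℚ[X], φ b = (b.map (algebraMap ℚ K)).eval t := by
    intro b
    have : φ = (evalRingHom t).comp (mapRingHom (algebraMap ℚ K)) := by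
      apply Polynomial.ringHom_ext'
      · exact RingHom.ext_rat _ _
      · simp [hφX]
    rw [this]; simp
  have ht1 : 1 < t := by simpa using ht 1
  have hlow : ∀ b, φ b ≠ 0 → ∃ c, 1 ≤ |φ b| * |φ c| := by
    intro b hb
    have hb0 : b ≠ 0 := by rintro rfl; simp at hb
    obtain ⟨c, hc⟩ := dom (algebraMap ℚ K) t
      (by
        intro q
        obtain ⟨n, hn⟩ := exists_nat_gt |q|
        refine lt_trans ?_ (ht n)
        have : ((|q| : ℚ) : K) < ((n : ℚ) : K) := by exact_mod_cast hn
        simpa using this)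
      (by
        intro q hq
        refine ⟨q⁻¹, ?_⟩
        rw [← abs_mul, map_inv₀, mul_inv_cancel₀ hq, abs_one])
      b.natDegree b le_rfl (Polynomial.map_ne_zero hb0)
    refine ⟨C c, ?_⟩
    rw [hφev b, hφev (C c), map_C, eval_C]; exact hc
  have hpoly : ∀ a : K, ∃ P : ℚ[X][X], (P.map φ).eval a = 0 ∧
      (P.map φ).derivative.eval a ≠ 0 := by
    intro a
    have hint : IsIntegral (RatFunc ℚ) a := Algebra.IsIntegral.isIntegral a
    obtain ⟨b, hb, hP⟩ := IsLocalization.integerNormalization_spec (nonZeroDivisors ℚ[X])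
      (minpoly (RatFunc ℚ) a)
    have e : (IsLocalization.integerNormalization (nonZeroDivisors ℚ[X])
        (minpoly (RatFunc ℚ) a)).map φ =
        C (φ b) * (minpoly (RatFunc ℚ) a).map (algebraMap (RatFunc ℚ) K) := by
      rw [← Polynomial.map_map, hP, ← IsScalarTower.algebraMap_smul (RatFunc ℚ) b,
        smul_eq_C_mul, Polynomial.map_mul, map_C]
      rfl
    have hb0 : φ b ≠ 0 := by
      rw [map_ne_zero_iff φ hφinj]; exact nonZeroDivisors.ne_zero hb
    refine ⟨IsLocalization.integerNormalization (nonZeroDivisors ℚ[X])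
        (minpoly (RatFunc ℚ) a), ?_, ?_⟩
    · rw [e, eval_mul, eval_map_algebraMap, minpoly.aeval, mul_zero]
    · rw [e, derivative_C_mul, eval_mul, eval_C, derivative_map, eval_map_algebraMap]
      exact mul_ne_zero hb0
        ((minpoly.irreducible hint).separable.aeval_derivative_ne_zero (minpoly.aeval _ _))
  have hcof : ∀ y : K, ∃ b : ℚ[X], y ≤ φ (X * b) := by
    intro y
    have : ∃ b, y ≤ |φ b| := by
      by_contra hcon
      push Not at hcon
      obtain ⟨P, h0, h1⟩ := hpoly y
      obtain ⟨c, hc⟩ := dom φ y hcon hlow P.natDegree P le_rfl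
        (by intro h; rw [h] at h1; simp at h1)
      rw [h0] at hc; norm_num at hc
    obtain ⟨b, hb⟩ := this
    refine ⟨b ^ 2 + 1, hb.trans ?_⟩
    rw [map_mul, map_add, map_pow, map_one, hφX, ← sq_abs]
    nlinarith [abs_nonneg (φ b), sq_nonneg (|φ b| - 1), sq_nonneg (|φ b|)]
  let alg : Algebra (RatFunc ℚ) (LaurentSeries ℚ) := RatFunc.liftAlgebra _ _
  obtain ⟨L, hL⟩ : ∃ L : IntermediateField.Lifts (RatFunc ℚ) K (LaurentSeries ℚ), IsMax L :=
    zorn_le (fun c hc => IntermediateField.Lifts.exists_upper_bound c hc)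
  refine ⟨L.carrier.toSubfield, ?_, ?_⟩
  · intro lo hi hlh
    obtain ⟨P, h0, h1⟩ := hpoly ((lo + hi) / 2)
    obtain ⟨u, v, hu, huv, hv, hs⟩ := sign_change ivt _ _ lo hi h0 h1 (by linarith) (by linarith)
    set n := P.natDegree + 1 with hn
    let R0 : ℚ[X] := ∏ i ∈ Finset.range n, (X - C (i : ℚ))
    have hR0 : R0.Monic := monic_prod_of_monic _ _ (fun i _ => monic_X_sub_C _)
    have hR0d : R0.natDegree = n := by
      simp only [R0]
      rw [natDegree_prod_of_monic _ _ (fun i _ => monic_X_sub_C _)]
      simp only [natDegree_X_sub_C]; simp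
    let R : ℚ[X][X] := R0.map C
    have hR : R.Monic := hR0.map _
    have hRd : R.natDegree = n := by rw [hR0.natDegree_map, hR0d]
    set pu := (P.map φ).eval u
    set pv := (P.map φ).eval v
    have hpu : pu ≠ 0 := by intro h; rw [h] at hs; simp at hs
    have hpv : pv ≠ 0 := by intro h; rw [h] at hs; simp at hs
    obtain ⟨b, hb⟩ := hcof (|(R.map φ).eval u / pu| + |(R.map φ).eval v / pv| + 1)
    let Q : ℚ[X][X] := R + C (X * b) * P
    have hdeg : (C (X * b) * P).degree < R.degree := by
      rw [degree_eq_natDegree hR.ne_zero, hRd]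
      refine lt_of_le_of_lt degree_le_natDegree ?_
      have := natDegree_C_mul_le (X * b) P
      exact_mod_cast (by omega)
    have hQ : Q.Monic := hR.add_of_left hdeg
    have hQd : Q.natDegree = n := by
      rw [← hRd]; exact natDegree_add_eq_left_of_degree_lt hdeg
    have hsign : ∀ z : K, (P.map φ).eval z ≠ 0 →
        |(R.map φ).eval z / (P.map φ).eval z| < φ (X * b) →
        0 < (Q.map φ).eval z * (P.map φ).eval z := by
      intro z hz hlt
      have e : (Q.map φ).eval z * (P.map φ).eval z =
          ((R.map φ).eval z / (P.map φ).eval z + φ (X * b)) * ((P.map φ).eval z) ^ 2 := by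
        simp only [Q, Polynomial.map_add, Polynomial.map_mul, map_C, eval_add, eval_mul, eval_C]
        field_simp
      rw [e]
      have := neg_abs_le ((R.map φ).eval z / (P.map φ).eval z)
      exact mul_pos (by linarith) (by positivity)
    have s1 := hsign u hpu (by have := abs_nonneg ((R.map φ).eval v / pv); linarith)
    have s2 := hsign v hpv (by have := abs_nonneg ((R.map φ).eval u / pu); linarith)
    have hneg : (Q.map φ).eval u * (Q.map φ).eval v < 0 := by
      have h3 := mul_pos s1 s2
      by_contra hcon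
      push Not at hcon
      have h4 := mul_nonpos_of_nonneg_of_nonpos hcon hs.le
      nlinarith
    obtain ⟨f, f1, f2, f3⟩ := ivt _ u v huv hneg
    refine ⟨f, ?_, by linarith, by linarith⟩
    have hspl := hensel_splits n (Q.map (algebraMap ℚ[X] (PowerSeries ℚ))) (hQ.map _)
      (by rw [hQ.natDegree_map, hQd])
      (by
        have hc : (PowerSeries.constantCoeff (R := ℚ)).comp (algebraMap ℚ[X] (PowerSeries ℚ)) =
            evalRingHom 0 := by
          apply Polynomial.ringHom_ext'
          · exact RingHom.ext_rat _ _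
          · simp [PowerSeries.algebraMap_apply']
        rw [Polynomial.map_map, hc]
        simp only [Q, R, Polynomial.map_add, Polynomial.map_mul, map_C, Polynomial.map_map]
        have : (evalRingHom (0 : ℚ)).comp C = RingHom.id ℚ := RingHom.ext_rat _ _
        rw [this, Polynomial.map_id]
        simp [R0])
    have hmapeq : (Q.map (algebraMap ℚ[X] (PowerSeries ℚ))).map
        (algebraMap (PowerSeries ℚ) (LaurentSeries ℚ)) =
        (Q.map (algebraMap ℚ[X] (RatFunc ℚ))).map (algebraMap (RatFunc ℚ) (LaurentSeries ℚ)) := by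
      rw [Polynomial.map_map, Polynomial.map_map]
      congr 1
      apply Polynomial.ringHom_ext'
      · exact RingHom.ext_rat _ _
      · simp [PowerSeries.algebraMap_apply']
    rw [hmapeq] at hspl
    have hdvd : minpoly (RatFunc ℚ) f ∣ Q.map (algebraMap ℚ[X] (RatFunc ℚ)) := by
      apply minpoly.dvd
      rw [← eval_map_algebraMap, Polynomial.map_map]
      exact f3
    obtain ⟨y, hy1, hy2⟩ := L.exists_lift_of_splits (Algebra.IsIntegral.isIntegral f)
      (hspl.of_dvd ((hQ.map _).map _).ne_zero (Polynomial.map_dvd _ hdvd))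
    exact (hL hy1).1 hy2
  · intro x hx halg
    obtain ⟨q, hq⟩ := rac (F := L.carrier) L.emb.toRingHom ⟨x, hx⟩ (by
      obtain ⟨p, hp, h⟩ := halg
      refine ⟨p, hp, ?_⟩
      apply (L.carrier.val.toRingHom).injective
      rw [map_zero, aeval_def, hom_eval₂, RingHom.ext_rat (L.carrier.val.toRingHom.comp _)
        (algebraMap ℚ K)]
      exact h)
    exact ⟨q, by simpa using congrArg Subtype.val hq⟩

end Pool.Agent.H15.DS2
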