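import Mathlib

set_option autoImplicit false

namespace Pool.Agent.H15.DS3

open Polynomial Module

theorem half (F L : Type*) [Field F] [Field L] [Algebra F L] [FiniteDimensional F L]
    [IsGalois F L] (k : ℕ) (h : finrank F L = 2 ^ (k + 1)) :
    ∃ M : IntermediateField F L, finrank F M = 2 ∧ finrank M L = 2 ^ k := by
  have : Fact (Nat.Prime 2) := ⟨Nat.prime_two⟩
  obtain ⟨H, hH⟩ := Sylow.exists_subgroup_card_pow_prime (G := L ≃ₐ[F] L) 2 (n := k)
    (by rw [IsGalois.card_aut_eq_finrank, h]; exact pow_dvd_pow _ (Nat.le_succ k))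
  have h1 : finrank (IntermediateField.fixedField H) L = 2 ^ k := by
    rw [IntermediateField.finrank_fixedField_eq_card, hH]
  refine ⟨IntermediateField.fixedField H, ?_, h1⟩
  have h2 := finrank_mul_finrank F (IntermediateField.fixedField H) L
  rw [h1, h, pow_succ, mul_comm] at h2
  exact Nat.eq_of_mul_eq_mul_left (by positivity) h2

theorem quad (F E : Type*) [Field F] [CharZero F] [Field E] [Algebra F E]
    (h : finrank F E = 2) : ∃ (s : E) (d : F), s ^ 2 = algebraMap F E d ∧
      (∀ r : F, s ≠ algebraMap F E r) ∧ ∀ z : E, ∃ a b : F,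
        z = algebraMap F E a + algebraMap F E b * s := by
  have hfin : FiniteDimensional F E := Module.finite_of_finrank_pos (by omega)
  have span : ∀ s : E, (∀ r : F, s ≠ algebraMap F E r) → ∀ z : E, ∃ a b : F,
      z = algebraMap F E a + algebraMap F E b * s := by
    intro s hs z
    have hli : LinearIndependent F ![(1 : E), s] := by
      rw [LinearIndependent.pair_iff' one_ne_zero]
      intro a ha
      exact hs a (by rw [← ha, Algebra.algebraMap_eq_smul_one])
    have htop := hli.span_eq_top_of_card_eq_finrank' (by simp [h])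
    have hz : z ∈ Submodule.span F (Set.range ![(1 : E), s]) := by rw [htop]; trivial
    rw [Matrix.range_cons, Matrix.range_cons, Matrix.range_empty, Set.union_empty,
      Set.singleton_union, Submodule.mem_span_pair] at hz
    obtain ⟨a, b, hab⟩ := hz
    exact ⟨a, b, by rw [← hab, Algebra.smul_def, Algebra.smul_def, mul_one]⟩
  obtain ⟨x, hx⟩ : ∃ x : E, ∀ r : F, x ≠ algebraMap F E r := by
    by_contra hcon
    push Not at hcon
    have : finrank F E = 1 := by
      rw [finrank_eq_one_iff_of_nonzero' (1 : E) one_ne_zero]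
      intro w
      obtain ⟨r, hr⟩ := hcon w
      exact ⟨r, by rw [hr, Algebra.algebraMap_eq_smul_one]⟩
    omega
  obtain ⟨a, b, hab⟩ := span x hx (x ^ 2)
  have hs : ∀ r : F, x - algebraMap F E (b / 2) ≠ algebraMap F E r := by
    intro r hr
    exact hx (r + b / 2) (by rw [map_add, ← hr]; ring)
  refine ⟨x - algebraMap F E (b / 2), a + (b / 2) ^ 2, ?_, hs, span _ hs⟩
  have hb : algebraMap F E b = 2 * algebraMap F E (b / 2) := by
    rw [← map_ofNat (algebraMap F E) 2, ← map_mul]; congr 1; ring
  rw [map_add, map_pow, sub_sq, hab, hb]; ring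

variable {K : Type*} [Field K] [LinearOrder K] [IsStrictOrderedRing K] [IsRealClosed K]

theorem sq_all (E : Type*) [Field E] [Algebra K E] (h : finrank K E = 2) (z : E) :
    ∃ w : E, z = w ^ 2 := by
  obtain ⟨s, d, hs, hne, hspan⟩ := quad K E h
  have hd : d < 0 := by
    by_contra hcon
    obtain ⟨r, hr⟩ := IsSquare.of_nonneg (not_lt.1 hcon)
    rw [hr, map_mul, ← sq, sq_eq_sq_iff_eq_or_eq_neg] at hs
    rcases hs with hs | hs
    · exact hne r hs
    · exact hne (-r) (by rw [map_neg]; exact hs)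
  obtain ⟨a, b, rfl⟩ := hspan z
  obtain ⟨m0, hm0⟩ := IsSquare.of_nonneg (x := a ^ 2 - d * b ^ 2) (by nlinarith [sq_nonneg a, sq_nonneg b])
  set m := |m0| with hm
  have hm2 : m ^ 2 = a ^ 2 - d * b ^ 2 := by rw [hm, sq_abs, hm0, sq]
  have hma : |a| ≤ m := by
    apply abs_le_of_sq_le_sq' _ (abs_nonneg m0) |> abs_le.2
    rw [← hm, hm2]; nlinarith [sq_nonneg b]
  obtain ⟨h1, h2⟩ := abs_le.1 hma
  obtain ⟨u, hu⟩ := IsSquare.of_nonneg (x := (m + a) / 2) (by linarith)
  obtain ⟨v, hv⟩ := IsSquare.of_nonneg (x := (m - a) / (2 * (-d)))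
    (div_nonneg (by linarith) (by linarith))
  have hd0 : d ≠ 0 := hd.ne
  have hv' : m - a = -2 * d * (v * v) := by
    rw [← hv]; field_simp
  have hu' : m + a = 2 * (u * u) := by linarith
  have ha : a = u * u + d * (v * v) := by linarith
  have hb : b ^ 2 = (2 * u * v) ^ 2 := by
    have : d * b ^ 2 = d * (2 * u * v) ^ 2 := by
      have e : (m + a) * (m - a) = -(d * b ^ 2) := by linear_combination hm2
      rw [hu', hv'] at e
      linear_combination e
    exact mul_left_cancel₀ hd0 this
  rw [sq_eq_sq_iff_eq_or_eq_neg] at hb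
  rcases hb with hb | hb
  · refine ⟨algebraMap K E u + algebraMap K E v * s, ?_⟩
    rw [ha, hb]; simp only [map_add, map_mul, map_ofNat, ← hs]; ring
  · refine ⟨algebraMap K E u - algebraMap K E v * s, ?_⟩
    rw [ha, hb]; simp only [map_add, map_mul, map_ofNat, map_neg, ← hs]; ring

theorem odd_one (E : Type*) [Field E] [Algebra K E] [FiniteDimensional K E]
    (h : Odd (finrank K E)) : finrank K E = 1 := by
  obtain ⟨α, hα⟩ := Field.exists_primitive_element K E
  rw [Field.primitive_element_iff_minpoly_natDegree_eq] at hα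
  rw [← hα] at h ⊢
  obtain ⟨x, hx⟩ := IsRealClosed.exists_isRoot_of_odd_natDegree h
  exact natDegree_eq_of_degree_eq_some (degree_eq_one_of_irreducible_of_root
    (minpoly.irreducible (Algebra.IsIntegral.isIntegral α)) hx)

theorem gal_le (L : Type*) [Field L] [Algebra K L] [FiniteDimensional K L] [IsGalois K L] :
    finrank K L ≤ 2 := by
  have : Fact (Nat.Prime 2) := ⟨Nat.prime_two⟩
  obtain ⟨P⟩ : Nonempty (Sylow 2 (L ≃ₐ[K] L)) := inferInstance
  obtain ⟨k, hk⟩ := (IsPGroup.iff_card).1 P.isPGroup'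
  have h1 : finrank (IntermediateField.fixedField (P : Subgroup (L ≃ₐ[K] L))) L = 2 ^ k := by
    rw [IntermediateField.finrank_fixedField_eq_card, hk]
  have h2 := finrank_mul_finrank K (IntermediateField.fixedField (P : Subgroup (L ≃ₐ[K] L))) L
  have h3 := (P : Subgroup (L ≃ₐ[K] L)).index_mul_card
  rw [IsGalois.card_aut_eq_finrank, hk, ← h2, h1] at h3
  have h4 := Nat.eq_of_mul_eq_mul_right (by positivity) h3
  have h5 := odd_one (K := K) (IntermediateField.fixedField (P : Subgroup (L ≃ₐ[K] L))) (by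
    rw [← h4, ← Nat.not_even_iff_odd, even_iff_two_dvd]; exact P.not_dvd_index)
  rw [h5, h1, one_mul] at h2
  rcases k with _ | _ | k
  · omega
  · omega
  · exfalso
    obtain ⟨M, hM1, hM2⟩ := half K L (k + 1) h2.symm
    obtain ⟨N, hN1, -⟩ := half M L k hM2
    obtain ⟨s, d, hs, hne, -⟩ := quad M N hN1
    obtain ⟨w, hw⟩ := sq_all (K := K) M hM1 d
    rw [hw, map_pow, sq_eq_sq_iff_eq_or_eq_neg] at hs
    rcases hs with hs | hs
    · exact hne w hs
    · exact hne (-w) (by rw [map_neg]; exact hs)

theorem irr_le (q : K[X]) (hq : Irreducible q) : q.natDegree ≤ 2 := by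
  have : IsGalois K q.SplittingField := IsGalois.of_separable_splitting_field hq.separable
  have h := Irreducible.natDegree_dvd_finrank hq (SplittingField.splits q)
  exact (Nat.le_of_dvd finrank_pos h).trans (gal_le _)

theorem ivt (p : K[X]) (a b : K) (hab : a < b) :
    p.eval a * p.eval b < 0 → ∃ c, a < c ∧ c < b ∧ p.eval c = 0 := by
  induction p using WfDvdMonoid.induction_on_irreducible with
  | zero => intro h; simp at h
  | unit u hu =>
    intro h
    obtain ⟨r, -, rfl⟩ := Polynomial.isUnit_iff.1 hu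
    simp only [eval_C] at h
    nlinarith [mul_self_nonneg r]
  | mul r q _ hq ih =>
    intro h
    simp only [eval_mul] at h ⊢
    by_cases hr : r.eval a * r.eval b < 0
    · obtain ⟨c, c1, c2, c3⟩ := ih hr
      exact ⟨c, c1, c2, by rw [c3, mul_zero]⟩
    have hqs : q.eval a * q.eval b < 0 := by
      by_contra hcon
      have := mul_nonneg (not_lt.1 hcon) (not_lt.1 hr)
      nlinarith
    have hev : ∀ x, q.eval x = q.coeff 2 * x ^ 2 + q.coeff 1 * x + q.coeff 0 := by
      intro x
      rw [eval_eq_sum_range' (n := 3) (by have := irr_le q hq; omega)]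
      simp [Finset.sum_range_succ]; ring
    have hlin : q.coeff 2 = 0 := by
      by_contra h2
      have hD : 0 ≤ discrim (q.coeff 2) (q.coeff 1) (q.coeff 0) := by
        by_contra hD
        rw [discrim] at hD
        rw [hev, hev] at hqs
        have e1 : 0 < 4 * q.coeff 2 * (q.coeff 2 * a ^ 2 + q.coeff 1 * a + q.coeff 0) := by
          nlinarith [sq_nonneg (2 * q.coeff 2 * a + q.coeff 1)]
        have e2 : 0 < 4 * q.coeff 2 * (q.coeff 2 * b ^ 2 + q.coeff 1 * b + q.coeff 0) := by
          nlinarith [sq_nonneg (2 * q.coeff 2 * b + q.coeff 1)]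
        have e3 := mul_pos e1 e2
        nlinarith [mul_self_nonneg (q.coeff 2)]
      obtain ⟨x, hx⟩ := exists_quadratic_eq_zero h2 (IsSquare.of_nonneg hD)
      have h1 := degree_eq_one_of_irreducible_of_root hq (x := x) (by
        rw [IsRoot, hev, ← hx]; ring)
      exact h2 (coeff_eq_zero_of_degree_lt (by rw [h1]; norm_num))
    simp only [hev, hlin, zero_mul, zero_add] at hqs
    have h1 : q.coeff 1 ≠ 0 := by
      intro h0; rw [h0] at hqs; nlinarith [mul_self_nonneg (q.coeff 0)]
    have e : (q.coeff 1 * a + q.coeff 0) * (q.coeff 1 * b + q.coeff 0) =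
        q.coeff 1 ^ 2 * ((a - -q.coeff 0 / q.coeff 1) * (b - -q.coeff 0 / q.coeff 1)) := by
      field_simp; ring
    rw [e] at hqs
    have h3 : (a - -q.coeff 0 / q.coeff 1) * (b - -q.coeff 0 / q.coeff 1) < 0 := by
      by_contra hcon
      exact absurd hqs (not_lt.2 (mul_nonneg (sq_nonneg _) (not_lt.1 hcon)))
    refine ⟨-q.coeff 0 / q.coeff 1, by nlinarith, by nlinarith, ?_⟩
    rw [hev, hlin]; field_simp; ring

end Pool.Agent.H15.DS3
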