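import Pool.Agent.H15.WI3
import Pool.Agent.H18.Sieve

set_option autoImplicit false

namespace Pool.Agent.H15.E279

open Finset Filter Pool.Agent.H18.Sieve

/-- primes up to `D` -/
def PP (D : ℕ) : Finset ℕ := (Icc 1 D).filter Nat.Prime

lemma PP_prime {D p : ℕ} (h : p ∈ PP D) : p.Prime := (mem_filter.1 h).2

lemma PP_le {D p : ℕ} (h : p ∈ PP D) : p ≤ D := (mem_Icc.1 (mem_filter.1 h).1).2

noncomputable def F1 (p : ℕ) : ℝ := 1 / ((p : ℝ) - 1)

lemma F1_nonneg {p : ℕ} (hp : p.Prime) : 0 ≤ F1 p := by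
  have : (2 : ℝ) ≤ p := by exact_mod_cast hp.two_le
  unfold F1
  apply div_nonneg <;> linarith

lemma log_le_W (D : ℕ) : Real.log (D + 1 : ℕ) ≤ W (PP D) D F1 := by
  let f : ArithmeticFunction ℝ := ⟨fun n => (n : ℝ)⁻¹, by simp⟩
  have hf : f.IsMultiplicative := by
    refine ⟨by simp [f], fun {m n} _ => ?_⟩
    simp [f, mul_comm]
  have h1 := sum_le_W f hf (fun n => by simp [f]) F1 D (fun p hp => by
    have h2 : (2 : ℝ) ≤ p := by exact_mod_cast hp.two_le
    have key : ∀ X : ℕ, ∑ k ∈ Icc 1 X, f (p ^ k) = (1 - ((p : ℝ)⁻¹) ^ X) / (p - 1) := by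
      intro X
      induction X with
      | zero => simp
      | succ X ih =>
        rw [Finset.sum_Icc_succ_top (by omega), ih]
        simp only [f, ArithmeticFunction.coe_mk, Nat.cast_pow, inv_pow]
        have : (p : ℝ) - 1 ≠ 0 := by linarith
        have : (p : ℝ) ≠ 0 := by linarith
        field_simp
        ring
    rw [key]
    unfold F1
    have : 0 ≤ ((p : ℝ)⁻¹) ^ D := by positivity
    gcongr
    · linarith
    · linarith)
  refine le_trans ?_ h1
  refine (log_add_one_le_harmonic D).trans (le_of_eq ?_)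
  rw [harmonic_eq_sum_Icc]
  push_cast
  rfl

lemma card_le_of {c N E w L : ℝ} (hN : 0 ≤ N) (hE : 0 ≤ E) (hL : 1 ≤ L) (hw : L ≤ w)
    (h : c * w ^ 2 ≤ N * w + E) : c ≤ N / L + E := by
  have hw1 : 1 ≤ w := hL.trans hw
  have h1 : N / w ≤ N / L := div_le_div_of_nonneg_left hN (by linarith) hw
  have h2 : c ≤ N / w + E / w ^ 2 := by
    have e : N / w + E / w ^ 2 = (N * w + E) / w ^ 2 := by field_simp
    rw [e, le_div_iff₀ (by positivity)]; exact h
  have h3 : E / w ^ 2 ≤ E := div_le_self hE (by nlinarith)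
  linarith

/-- one class for every prime but `q`, on a progression -/
lemma sieveB (q : ℕ) (hq : q.Prime) (c D N : ℕ) (a : ℕ → ℕ) (L : ℝ) (hL : 1 ≤ L)
    (hD : 2 * L ≤ Real.log (D + 1 : ℕ)) (S : Finset ℕ) (hS : S ⊆ range N)
    (hav : ∀ s ∈ S, ∀ p, p.Prime → p ≤ D → p ≠ q → ¬ (q ^ 2 * s + c ≡ a p [MOD p])) :
    (S.card : ℝ) ≤ N / L + (D : ℝ) ^ 4 := by
  classical
  have hr : ∀ p, p.Prime → p ≠ q → ∃ r, r < p ∧ q ^ 2 * r + c ≡ a p [MOD p] := by
    intro p hp hpq
    have : Fact p.Prime := ⟨hp⟩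
    have hq0 : ((q : ZMod p)) ≠ 0 := by
      rw [Ne, ZMod.natCast_eq_zero_iff]
      exact fun h => hpq ((Nat.prime_dvd_prime_iff_eq hp hq).1 h)
    refine ⟨(((a p : ZMod p) - c) / (q : ZMod p) ^ 2).val, ZMod.val_lt _, ?_⟩
    rw [← ZMod.natCast_eq_natCast_iff]
    push_cast
    rw [ZMod.natCast_zmod_val]
    field_simp
    ring
  choose! r hr1 hr2 using hr
  have hP : ∀ p ∈ (PP D).erase q, p.Prime := fun p hp => PP_prime (mem_of_mem_erase hp)
  have h1 := sieve ((PP D).erase q) hP (fun p => {r p})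
    (fun p hp => by simpa using hr1 p (hP p hp) (ne_of_mem_erase hp))
    (fun p _ => by simp) (fun p hp => by simpa using (hP p hp).two_le) N D S hS
    (fun s hs p hp h => by
      refine hav s hs p (hP p hp) (PP_le (mem_of_mem_erase hp)) (ne_of_mem_erase hp) ?_
      refine Nat.ModEq.trans ?_ (hr2 p (hP p hp) (ne_of_mem_erase hp))
      rw [mem_singleton] at h
      rw [← h]
      exact ((Nat.mod_modEq s p).symm.mul_left _).add_right _)
  have e : hw (fun p => ({r p} : Finset ℕ)) = F1 := by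
    ext p; simp [hw, F1]
  rw [e] at h1
  refine card_le_of (Nat.cast_nonneg _) (by positivity) hL ?_ h1
  have h2 := log_le_W D
  by_cases hqD : q ∈ PP D
  · have h3 := W_union_le ((PP D).erase q) {q} (by simp) (by simpa using hq.pos) D F1
      (fun p hp => by
        rcases mem_union.1 hp with h | h
        · exact F1_nonneg (hP p h)
        · rw [mem_singleton.1 h]; exact F1_nonneg hq)
    rw [union_comm, ← insert_eq, insert_erase hqD, prod_singleton] at h3
    have h4 : F1 q ≤ 1 := by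
      have : (2 : ℝ) ≤ q := by exact_mod_cast hq.two_le
      unfold F1
      rw [div_le_one (by linarith)]; linarith
    have h5 := W_nonneg ((PP D).erase q) D F1 (fun p hp => F1_nonneg (hP p hp))
    nlinarith
  · rw [erase_eq_of_notMem hqD]; linarith

lemma one_add_sum_le (T : Finset ℕ) (f : ℕ → ℝ) (hf : ∀ p ∈ T, 0 ≤ f p) :
    1 + ∑ p ∈ T, f p ≤ ∏ p ∈ T, (1 + f p) := by
  classical
  induction T using Finset.induction_on with
  | empty => simp
  | insert x T hx ih =>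
    rw [sum_insert hx, prod_insert hx]
    have h1 := ih fun p hp => hf p (mem_insert_of_mem hp)
    have h2 := hf x (mem_insert_self _ _)
    have h3 : 0 ≤ ∑ p ∈ T, f p := sum_nonneg fun p hp => hf p (mem_insert_of_mem hp)
    nlinarith

/-- primes avoiding the class `1` modulo the primes of `T` -/
lemma sieveA (T : Finset ℕ) (D N : ℕ) (hT : T ⊆ PP D) (hT4 : ∀ p ∈ T, 4 ≤ p) (L Λ : ℝ)
    (hL : 1 ≤ L) (hΛ : 1 ≤ Λ) (hΛT : Λ ≤ ∑ p ∈ T, (1 : ℝ) / p)
    (hD : L ≤ Real.log (D + 1 : ℕ)) (S : Finset ℕ) (hS : S ⊆ range N)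
    (hav : ∀ s ∈ S, s.Prime ∧ D < s ∧ ∀ p ∈ T, s % p ≠ 1) :
    (S.card : ℝ) ≤ N / (L * Λ) + ((D * ∏ p ∈ T, p : ℕ) : ℝ) ^ 4 := by
  classical
  have h1 := sieve (PP D) (fun p hp => PP_prime hp) (fun p => if p ∈ T then {0, 1} else {0})
    (fun p hp => by
      have := (PP_prime hp).two_le
      split_ifs
      · intro x hx; simp only [mem_insert, mem_singleton] at hx; rw [mem_range]; omega
      · intro x hx; simp only [mem_singleton] at hx; rw [mem_range]; omega)
    (fun p _ => by split_ifs <;> simp)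
    (fun p hp => by
      split_ifs with h
      · simpa using hT4 p h
      · simpa using (PP_prime hp).two_le) N (D * ∏ p ∈ T, p) S hS
    (fun s hs p hp h => by
      obtain ⟨h1, h2, h3⟩ := hav s hs
      have h0 : s % p ≠ 0 := fun h4 => by
        have := (Nat.prime_dvd_prime_iff_eq (PP_prime hp) h1).1 (Nat.dvd_of_mod_eq_zero h4)
        have := PP_le hp
        omega
      split_ifs at h with hpT
      · simp only [mem_insert, mem_singleton] at h
        exact h.elim h0 (h3 p hpT)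
      · exact h0 (mem_singleton.1 h))
  obtain ⟨F, hF⟩ : ∃ F, F = hw (fun p => if p ∈ T then ({0, 1} : Finset ℕ) else {0}) := ⟨_, rfl⟩
  rw [← hF] at h1
  have hF1 : ∀ p, p ∉ T → F p = F1 p := by
    intro p hp; rw [hF]; simp [hw, F1, hp]
  have hF2 : ∀ p ∈ T, F p = 2 / ((p : ℝ) - 2) := by
    intro p hp; rw [hF]; simp [hw, hp]
  refine card_le_of (Nat.cast_nonneg _) (by positivity) (by nlinarith) ?_ h1
  have hTp : ∀ p ∈ T, 0 < p := fun p hp => by have := hT4 p hp; omega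
  have hU : PP D \ T ∪ T = PP D := sdiff_union_of_subset hT
  have hF0 : ∀ p ∈ PP D \ T ∪ T, 0 ≤ F p := by
    intro p hp
    by_cases h : p ∈ T
    · rw [hF2 p h]
      have : (4 : ℝ) ≤ p := by exact_mod_cast hT4 p h
      apply div_nonneg <;> linarith
    · rw [hF1 p h]; rw [hU] at hp; exact F1_nonneg (PP_prime hp)
  have h2 := le_W_union (PP D \ T) T sdiff_disjoint hTp D F hF0
  have h3 := W_union_le (PP D \ T) T sdiff_disjoint hTp D F1
    (fun p hp => by rw [hU] at hp; exact F1_nonneg (PP_prime hp))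
  rw [hU] at h2 h3
  have h4 : W (PP D \ T) D F1 ≤ W (PP D \ T) D F :=
    W_le_W _ _ _ _ (fun p hp => F1_nonneg (PP_prime (mem_sdiff.1 hp).1))
      fun p hp => (hF1 p (mem_sdiff.1 hp).2).ge
  have h5 : (∏ p ∈ T, (1 + F1 p)) * ∏ p ∈ T, (1 + (1 : ℝ) / p) ≤ ∏ p ∈ T, (1 + F p) := by
    rw [← prod_mul_distrib]
    refine prod_le_prod (fun p hp => ?_) fun p hp => ?_
    · have := F1_nonneg (PP_prime (hT hp)); positivity
    · rw [hF2 p hp]
      unfold F1
      have : (4 : ℝ) ≤ p := by exact_mod_cast hT4 p hp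
      have a1 : (p : ℝ) - 1 ≠ 0 := by linarith
      have a2 : (p : ℝ) - 2 ≠ 0 := by linarith
      have a3 : (p : ℝ) ≠ 0 := by linarith
      have e1 : (1 + 1 / ((p : ℝ) - 1)) * (1 + 1 / p) = (p + 1) / (p - 1) := by field_simp; ring
      have e2 : 1 + 2 / ((p : ℝ) - 2) = p / (p - 2) := by field_simp; ring
      rw [e1, e2, div_le_div_iff₀ (by linarith) (by linarith)]
      nlinarith
  have h6 := one_add_sum_le T (fun p => (1 : ℝ) / p) (fun p _ => by positivity)
  have h7 := log_le_W D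
  have h8 : 0 ≤ W (PP D \ T) D F1 :=
    W_nonneg _ _ _ fun p hp => F1_nonneg (PP_prime (mem_sdiff.1 hp).1)
  have h9 : 0 ≤ ∏ p ∈ T, (1 + F1 p) :=
    prod_nonneg fun p hp => by have := F1_nonneg (PP_prime (hT hp)); positivity
  calc L * Λ ≤ (W (PP D \ T) D F1 * ∏ p ∈ T, (1 + F1 p)) * ∏ p ∈ T, (1 + (1 : ℝ) / p) :=
        mul_le_mul (by linarith) (by linarith) (by linarith) (mul_nonneg h8 h9)
    _ = W (PP D \ T) D F1 * ((∏ p ∈ T, (1 + F1 p)) * ∏ p ∈ T, (1 + (1 : ℝ) / p)) := by ring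
    _ ≤ W (PP D \ T) D F * ∏ p ∈ T, (1 + F p) :=
        mul_le_mul h4 h5 (mul_nonneg h9 (by linarith)) (h8.trans h4)
    _ ≤ _ := h2

/-- supply of primes at scale `j` -/
def sup (q j : ℕ) : Finset ℕ :=
  (Ioc (2 ^ j) (2 * 2 ^ j)).filter (fun p : ℕ => p.Prime ∧ (p : ZMod q) = 1)

lemma sup_card (q : ℕ) (hq : q.Prime) :
    ∀ᶠ j : ℕ in atTop, (2 : ℝ) ^ j / (4 * q * j) ≤ (sup q j).card := by
  have : NeZero q := ⟨hq.ne_zero⟩
  have h1 := (tendsto_pow_atTop_atTop_of_one_lt (one_lt_two (α := ℕ))).eventually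
    (WI.many_primes (q := q) (b := 1) isUnit_one)
  filter_upwards [h1, eventually_ge_atTop 1] with j hj hj1
  have hj' : (1 : ℝ) ≤ j := by exact_mod_cast hj1
  have hq' : (0 : ℝ) < q := by exact_mod_cast hq.pos
  have hφ : (0 : ℝ) < q.totient := by exact_mod_cast Nat.totient_pos.2 hq.pos
  have hφ2 : (q.totient : ℝ) ≤ q := by exact_mod_cast Nat.totient_le q
  have h2 : Real.log (2 * ((2 ^ j : ℕ) : ℝ)) ≤ 2 * j := by
    push_cast
    rw [← pow_succ', Real.log_pow]
    have := Real.log_two_lt_d9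
    push_cast
    nlinarith
  have h3 : (2 : ℝ) ^ j / (2 * q) ≤ ((2 ^ j : ℕ) : ℝ) / (2 * q.totient) := by
    push_cast
    gcongr
  have h4 : (2 : ℝ) ^ j / (2 * q) ≤ (sup q j).card * (2 * j) :=
    h3.trans (hj.trans (mul_le_mul_of_nonneg_left h2 (Nat.cast_nonneg _)))
  rw [div_le_iff₀ (by positivity)] at h4 ⊢
  linarith

lemma exists_T (q : ℕ) (hq : q.Prime) (Λ : ℝ) : ∃ T : Finset ℕ,
    (∀ p ∈ T, p.Prime ∧ (p : ZMod q) = 1 ∧ 4 ≤ p) ∧ Λ ≤ ∑ p ∈ T, (1 : ℝ) / p := by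
  obtain ⟨j1, hj1⟩ := eventually_atTop.1 ((sup_card q hq).and (eventually_ge_atTop 2))
  have hq' : (0 : ℝ) < q := by exact_mod_cast hq.pos
  have key : ∀ J : ℕ, (∑ i ∈ range J, (1 : ℝ) / (i + 1)) / (8 * q * (j1 + 1)) ≤
      ∑ p ∈ (Ioc (2 ^ j1) (2 ^ (j1 + J))).filter (fun p : ℕ => p.Prime ∧ (p : ZMod q) = 1),
        (1 : ℝ) / p := by
    intro J
    induction J with
    | zero => simp
    | succ J ih =>
      have e : ∑ p ∈ (Ioc (2 ^ j1) (2 ^ (j1 + (J + 1)))).filter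
          (fun p : ℕ => p.Prime ∧ (p : ZMod q) = 1), (1 : ℝ) / p =
          ∑ p ∈ (Ioc (2 ^ j1) (2 ^ (j1 + J))).filter
          (fun p : ℕ => p.Prime ∧ (p : ZMod q) = 1), (1 : ℝ) / p +
          ∑ p ∈ sup q (j1 + J), (1 : ℝ) / p := by
        unfold sup
        rw [sum_filter, sum_filter, sum_filter, ← add_assoc, pow_succ' 2 (j1 + J),
          sum_Ioc_consecutive _ (Nat.pow_le_pow_right (by norm_num) (by omega)) (by omega)]
      rw [e, sum_range_succ, add_div]
      refine add_le_add ih ?_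
      obtain ⟨h1, h2⟩ := hj1 (j1 + J) (by omega)
      have h3 : (sup q (j1 + J)).card • ((1 : ℝ) / (2 * 2 ^ (j1 + J))) ≤
          ∑ p ∈ sup q (j1 + J), (1 : ℝ) / p := by
        refine card_nsmul_le_sum _ _ _ fun p hp => ?_
        have h4 := mem_Ioc.1 (mem_filter.1 hp).1
        have h5 : (0 : ℝ) < p := by exact_mod_cast (mem_filter.1 hp).2.1.pos
        exact one_div_le_one_div_of_le h5 (by exact_mod_cast h4.2)
      rw [nsmul_eq_mul] at h3
      refine le_trans ?_ h3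
      refine le_trans ?_ (mul_le_mul_of_nonneg_right h1 (by positivity))
      have h2' : (2 : ℝ) ≤ ((j1 + J : ℕ) : ℝ) := by exact_mod_cast h2
      have e2 : (2 : ℝ) ^ (j1 + J) / (4 * q * ((j1 + J : ℕ) : ℝ)) * (1 / (2 * 2 ^ (j1 + J))) =
          1 / (8 * q * ((j1 + J : ℕ) : ℝ)) := by field_simp; norm_num
      rw [e2, div_div]
      refine one_div_le_one_div_of_le (by positivity) ?_
      push_cast
      have a1 : (0 : ℝ) ≤ j1 := Nat.cast_nonneg _
      have a2 : (0 : ℝ) ≤ J := Nat.cast_nonneg _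
      nlinarith [mul_nonneg a1 a2, mul_nonneg hq'.le (mul_nonneg a1 a2)]
  obtain ⟨J, hJ⟩ := (Real.tendsto_sum_range_one_div_nat_succ_atTop.eventually_ge_atTop
    (Λ * (8 * q * (j1 + 1)))).exists
  refine ⟨_, fun p hp => ?_, le_trans ?_ (key J)⟩
  · have h1 := mem_filter.1 hp
    refine ⟨h1.2.1, h1.2.2, ?_⟩
    have h2 := (mem_Ioc.1 h1.1).1
    have h3 : 2 ^ 2 ≤ 2 ^ j1 := Nat.pow_le_pow_right (by norm_num) (hj1 j1 le_rfl).2
    omega
  · rw [le_div_iff₀ (by positivity)]; exact hJ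

end Pool.Agent.H15.E279
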