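import Pool.Agent.H15.E279a

set_option autoImplicit false

namespace Pool.Agent.H15.E279

open Finset Filter

def blk (K j : ℕ) : Finset ℕ := Ioc (K * 2 ^ (j + 1)) (K * 2 ^ (j + 2))

def LA (T : Finset ℕ) (K j : ℕ) : Finset ℕ :=
  (blk K j).filter fun n => n.Prime ∧ ∀ p ∈ T, n % p ≠ 1

open Classical in
noncomputable def LB (q c K j : ℕ) (a : ℕ → ℕ) : Finset ℕ :=
  (blk K j).filter fun n => n % q ^ 2 = c ∧
    ∀ p, p.Prime → p ≤ 2 ^ j → p ≠ q → ¬ (n ≡ a p [MOD p])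

lemma mem_LB {q c K j n : ℕ} {a : ℕ → ℕ} : n ∈ LB q c K j a ↔ n ∈ blk K j ∧ n % q ^ 2 = c ∧
    ∀ p, p.Prime → p ≤ 2 ^ j → p ≠ q → ¬ (n ≡ a p [MOD p]) := by
  unfold LB; simp only [mem_filter]

lemma logD (j : ℕ) (hj : 8 ≤ j) : (j : ℝ) / 32 ≤ Real.log ((2 ^ (j / 8) + 1 : ℕ)) := by
  have h1 : Real.log ((2 : ℝ) ^ (j / 8)) ≤ Real.log ((2 ^ (j / 8) + 1 : ℕ)) :=
    Real.log_le_log (by positivity) (by push_cast; linarith)
  rw [Real.log_pow] at h1
  have h2 : (j : ℝ) ≤ 16 * (j / 8 : ℕ) := by exact_mod_cast (by omega : j ≤ 16 * (j / 8))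
  have h3 := Real.log_two_gt_d9
  have h4 : (0 : ℝ) ≤ (j / 8 : ℕ) := Nat.cast_nonneg _
  nlinarith

lemma LB_card (q : ℕ) (hq : q.Prime) (c K j : ℕ) (hj : 64 ≤ j) (a : ℕ → ℕ) :
    ((LB q c K j a).card : ℝ) ≤
      (4 * K * 2 ^ j / q ^ 2 + 1) / (j / 64) + ((2 ^ (j / 8) : ℕ) : ℝ) ^ 4 := by
  classical
  have hj' : (64 : ℝ) ≤ j := by exact_mod_cast hj
  have hq2 : 0 < q ^ 2 := pow_pos hq.pos 2
  have h1 := sieveB q hq c (2 ^ (j / 8)) (K * 2 ^ (j + 2) / q ^ 2 + 1) a (j / 64) (by linarith)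
    (by have := logD j (by omega); linarith) ((LB q c K j a).image (· / q ^ 2))
    (fun s hs => by
      obtain ⟨n, hn, rfl⟩ := mem_image.1 hs
      have := (mem_Ioc.1 (mem_filter.1 hn).1).2
      rw [mem_range, Nat.lt_succ_iff]
      exact Nat.div_le_div_right this)
    (fun s hs p hp hpD hpq => by
      obtain ⟨n, hn, rfl⟩ := mem_image.1 hs
      obtain ⟨h2, h3⟩ := (mem_filter.1 hn).2
      rw [← h2, Nat.div_add_mod]
      exact h3 p hp (hpD.trans (Nat.pow_le_pow_right (by norm_num) (by omega))) hpq)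
  rw [card_image_of_injOn (fun n hn n' hn' h => by
    have h2 := (mem_filter.1 (mem_coe.1 hn)).2.1
    have h3 := (mem_filter.1 (mem_coe.1 hn')).2.1
    rw [← Nat.div_add_mod n (q ^ 2), ← Nat.div_add_mod n' (q ^ 2), h, h2, h3])] at h1
  refine h1.trans (add_le_add ?_ le_rfl)
  refine div_le_div_of_nonneg_right ?_ (by linarith)
  rw [Nat.cast_add, Nat.cast_one]
  refine add_le_add (Nat.cast_div_le.trans (le_of_eq ?_)) le_rfl
  push_cast
  ring

lemma LA_card (T : Finset ℕ) (K j : ℕ) (hK : 1 ≤ K) (hj : 64 ≤ j)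
    (hT : ∀ p ∈ T, p.Prime ∧ 4 ≤ p ∧ p ≤ 2 ^ (j / 8)) (Λ : ℝ) (hΛ : 1 ≤ Λ)
    (hΛT : Λ ≤ ∑ p ∈ T, (1 : ℝ) / p) :
    ((LA T K j).card : ℝ) ≤
      (5 * K * 2 ^ j) / (j / 32 * Λ) + ((2 ^ (j / 8) * ∏ p ∈ T, p : ℕ) : ℝ) ^ 4 := by
  have hj' : (64 : ℝ) ≤ j := by exact_mod_cast hj
  have h1 := sieveA T (2 ^ (j / 8)) (K * 2 ^ (j + 2) + 1)
    (fun p hp => mem_filter.2 ⟨mem_Icc.2 ⟨(hT p hp).1.one_le, (hT p hp).2.2⟩, (hT p hp).1⟩)
    (fun p hp => (hT p hp).2.1) (j / 32) Λ (by linarith) hΛ hΛT (logD j (by omega)) (LA T K j)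
    (fun s hs => by
      have := (mem_Ioc.1 (mem_filter.1 hs).1).2
      rw [mem_range]; omega)
    (fun s hs => by
      obtain ⟨h2, h3, h4⟩ := mem_filter.1 hs
      refine ⟨h3, ?_, h4⟩
      have h5 := (mem_Ioc.1 h2).1
      have h6 : 2 ^ (j / 8) ≤ 2 ^ (j + 1) := Nat.pow_le_pow_right (by norm_num) (by omega)
      have h7 : 2 ^ (j + 1) ≤ K * 2 ^ (j + 1) := Nat.le_mul_of_pos_left _ hK
      omega)
  refine h1.trans (add_le_add ?_ le_rfl)
  refine div_le_div_of_nonneg_right ?_ (by positivity)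
  push_cast
  have a1 : (1 : ℝ) ≤ K := by exact_mod_cast hK
  have a2 : (1 : ℝ) ≤ 2 ^ j := one_le_pow₀ (by norm_num)
  rw [pow_add]
  nlinarith

lemma left_card (K : ℕ) (hK : 1 ≤ K) : ∃ q : ℕ, q.Prime ∧ K < q ∧ ∃ T : Finset ℕ, ∃ j0 : ℕ,
    q ≤ 2 ^ j0 ∧ (∀ p ∈ T, p.Prime ∧ (p : ZMod q) = 1 ∧ p ≤ 2 ^ j0) ∧
    ∀ j, j0 ≤ j → ∀ a : ℕ → ℕ,
      (LA T K j ∪ (LB q 0 K j a ∪ LB q q K j a)).card ≤ (sup q j).card := by
  obtain ⟨q, hq1, hq⟩ := Nat.exists_infinite_primes (8192 * K)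
  obtain ⟨T, hT, hΛ⟩ := exists_T q hq (2560 * q * K)
  obtain ⟨j1, hj1⟩ := eventually_atTop.1 (sup_card q hq)
  obtain ⟨M, hM⟩ : ∃ M, M = ∏ p ∈ T, p := ⟨_, rfl⟩
  obtain ⟨j0, b1, b2, b3, b4, b5⟩ : ∃ j0 : ℕ, j1 ≤ j0 ∧ 64 ≤ j0 ∧ q ≤ j0 ∧
      8 * ∑ p ∈ T, p ≤ j0 ∧ 8 * (64 * q * (M ^ 4 + 4)) ≤ j0 :=
    ⟨j1 + 64 + q + 8 * ∑ p ∈ T, p + 8 * (64 * q * (M ^ 4 + 4)), by omega, by omega, by omega,
      by omega, by omega⟩
  have hle : ∀ p ∈ T, p ≤ ∑ p ∈ T, p := fun p hp =>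
    single_le_sum (f := fun p => p) (fun _ _ => Nat.zero_le _) hp
  refine ⟨q, hq, by omega, T, j0, b3.trans Nat.lt_two_pow_self.le, fun p hp =>
    ⟨(hT p hp).1, (hT p hp).2.1, ?_⟩, fun j hj a => ?_⟩
  · have := hle p hp
    exact le_trans (by omega) (Nat.lt_two_pow_self (n := j0)).le
  have hD : j / 8 < 2 ^ (j / 8) := Nat.lt_two_pow_self
  have hK' : (1 : ℝ) ≤ K := by exact_mod_cast hK
  have hq' : (8192 : ℝ) * K ≤ q := by exact_mod_cast hq1
  have hj' : (64 : ℝ) ≤ j := by exact_mod_cast (by omega : 64 ≤ j)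
  have h1 := LA_card T K j hK (by omega) (fun p hp => ⟨(hT p hp).1, (hT p hp).2.2, by
    have := hle p hp; omega⟩) (2560 * q * K) (by nlinarith) hΛ
  have h2 := LB_card q hq 0 K j (by omega) a
  have h3 := LB_card q hq q K j (by omega) a
  have h4 := hj1 j (by omega)
  have h5 : (LA T K j ∪ (LB q 0 K j a ∪ LB q q K j a)).card ≤
      (LA T K j).card + ((LB q 0 K j a).card + (LB q q K j a).card) :=
    (card_union_le _ _).trans (Nat.add_le_add_left (card_union_le _ _) _)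
  have h6 : (8 * q * j * (M ^ 4 + 4)) * (2 ^ (j / 8)) ^ 4 ≤ 2 ^ j := by
    have c1 : (2 ^ (j / 8)) ^ 4 * (2 ^ (j / 8)) ^ 4 ≤ 2 ^ j := by
      rw [← pow_add, ← pow_mul]; exact Nat.pow_le_pow_right (by norm_num) (by omega)
    refine le_trans (Nat.mul_le_mul_right _ ?_) c1
    obtain ⟨i, hi⟩ : ∃ i, i = j / 8 + 1 := ⟨_, rfl⟩
    have c2 : i ≤ 2 ^ (j / 8) := by omega
    have c3 : j ≤ 8 * i := by omega
    have c4 : 64 * q * (M ^ 4 + 4) ≤ i := by omega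
    calc 8 * q * j * (M ^ 4 + 4) ≤ 8 * q * (8 * i) * (M ^ 4 + 4) := by gcongr
      _ = 64 * q * (M ^ 4 + 4) * i := by ring
      _ ≤ i * i := Nat.mul_le_mul_right _ c4
      _ ≤ i ^ 4 := by
        rw [← pow_two]; exact Nat.pow_le_pow_right (by omega) (by norm_num)
      _ ≤ _ := Nat.pow_le_pow_left c2 4
  rw [← hM] at h1
  obtain ⟨D, hDe⟩ : ∃ D : ℕ, D = 2 ^ (j / 8) := ⟨_, rfl⟩
  rw [← hDe] at h1 h2 h3 h6 hD
  have hD1 : (1 : ℝ) ≤ (D : ℝ) ^ 4 := one_le_pow₀ (by exact_mod_cast (by omega : 1 ≤ D))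
  have h6' : (8 * q * j * ((M : ℝ) ^ 4 + 4)) * (D : ℝ) ^ 4 ≤ 2 ^ j := by exact_mod_cast h6
  obtain ⟨Y, hY⟩ : ∃ Y : ℝ, Y = 2 ^ j := ⟨_, rfl⟩
  have hY0 : 0 < Y := by rw [hY]; positivity
  rw [← hY] at h1 h2 h3 h4 h6'
  have hq0 : (0 : ℝ) < q := by linarith
  obtain ⟨Z, hZ⟩ : ∃ Z : ℝ, Z = Y / (16 * q * j) := ⟨_, rfl⟩
  have e1 : 5 * K * Y / (j / 32 * (2560 * q * K)) = Z := by rw [hZ]; field_simp; norm_num
  have e2 : Y / (4 * q * j) = 4 * Z := by rw [hZ]; field_simp; norm_num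
  have e3 : (4 * K * Y / q ^ 2 + 1) / (j / 64) ≤ Z / 2 + 1 := by
    rw [add_div]
    refine add_le_add ?_ (by rw [div_le_one (by linarith)]; linarith)
    have : 4 * K * Y / q ^ 2 / (j / 64) = Z / 2 * (8192 * K / q) := by
      rw [hZ]; field_simp; norm_num
    rw [this]
    exact mul_le_of_le_one_right (by rw [hZ]; positivity) (by rw [div_le_one hq0]; exact hq')
  have e4 : ((M : ℝ) ^ 4 + 4) * (D : ℝ) ^ 4 ≤ 2 * Z := by
    rw [hZ, mul_div_assoc', le_div_iff₀ (by positivity)]; linarith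
  have h7 : (((LA T K j).card + ((LB q 0 K j a).card + (LB q q K j a).card) : ℕ) : ℝ) ≤
      (sup q j).card := by
    push_cast at h1 ⊢
    rw [e1, mul_pow] at h1
    rw [e2] at h4
    nlinarith
  exact h5.trans (by exact_mod_cast h7)

lemma mod_one_of_factors (q : ℕ) : ∀ m : ℕ, 0 < m →
    (∀ p, p.Prime → p ∣ m → (p : ZMod q) = 1) → (m : ZMod q) = 1 := by
  intro m
  induction m using induction_on_primes with
  | zero => intro h; omega
  | one => intro _ _; simp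
  | prime_mul p a hp ih =>
    intro h0 h
    have ha : 0 < a := Nat.pos_of_mul_pos_left h0
    rw [Nat.cast_mul, h p hp (Dvd.intro _ rfl), ih ha fun r hr hra => h r hr (hra.mul_left _),
      one_mul]

lemma exists_blk (K j0 : ℕ) (hK : 1 ≤ K) : ∀ n, K * 2 ^ (j0 + 1) < n → ∃ j, j0 ≤ j ∧ n ∈ blk K j := by
  intro n
  induction n with
  | zero => intro h; omega
  | succ n ih =>
    intro h
    have hp : ∀ j, 0 < K * 2 ^ (j + 1) := fun j => by positivity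
    rcases Nat.lt_or_ge (K * 2 ^ (j0 + 1)) n with h1 | h1
    · obtain ⟨j, hj, hn⟩ := ih h1
      rw [blk, mem_Ioc] at hn
      rcases Nat.lt_or_ge n (K * 2 ^ (j + 2)) with h2 | h2
      · exact ⟨j, hj, mem_Ioc.2 ⟨by omega, h2⟩⟩
      · refine ⟨j + 1, by omega, mem_Ioc.2 ⟨(by omega : K * 2 ^ (j + 2) < n + 1), ?_⟩⟩
        have e : K * 2 ^ (j + 1 + 2) = 2 * (K * 2 ^ (j + 2)) := by ring
        have : 0 < K * 2 ^ (j + 2) := hp (j + 1)
        omega
    · refine ⟨j0, le_rfl, mem_Ioc.2 ⟨h, ?_⟩⟩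
      have e : K * 2 ^ (j0 + 2) = 2 * (K * 2 ^ (j0 + 1)) := by ring
      have := hp j0
      omega

theorem main (k : ℕ) : ∃ a : ℕ → ℕ, (∀ p : ℕ, p.Prime → a p < p) ∧
    ∃ N : ℕ, ∀ n : ℕ, N ≤ n → ∃ p : ℕ, p.Prime ∧ ∃ t : ℕ, k ≤ t ∧ n = a p + t * p := by
  classical
  obtain ⟨q, hq, hKq, T, j0, hqj, hT, hcard⟩ := left_card (k + 1) (by omega)
  have hq1 : 1 < q := hq.one_lt
  have step : ∀ (j : ℕ) (a : ℕ → ℕ), ∃ a' : ℕ → ℕ, (∀ p, (p ∉ sup q j ∨ j < j0) → a' p = a p) ∧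
      (∀ p, a p < p → a' p < p) ∧ (j0 ≤ j → ∀ n ∈ LA T (k + 1) j ∪
        (LB q 0 (k + 1) j a ∪ LB q q (k + 1) j a), ∃ p ∈ sup q j, a' p = n % p) := by
    intro j a
    rcases Nat.lt_or_ge j j0 with h | h
    · exact ⟨a, fun _ _ => rfl, fun _ h => h, fun h' => by omega⟩
    obtain ⟨L, hL⟩ : ∃ L, L = LA T (k + 1) j ∪ (LB q 0 (k + 1) j a ∪ LB q q (k + 1) j a) :=
      ⟨_, rfl⟩
    have h1 := hcard j h a
    rw [← hL] at h1 ⊢
    obtain ⟨f, hf⟩ : ∃ f : L → sup q j, Function.Injective f := by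
      obtain ⟨e⟩ := Function.Embedding.nonempty_of_card_le (α := L) (β := sup q j)
        (by simpa using h1)
      exact ⟨e, e.injective⟩
    refine ⟨fun p => if h : ∃ n : L, (f n : ℕ) = p then (h.choose : ℕ) % p else a p,
      fun p hp => ?_, fun p hp => ?_, fun _ n hn => ⟨f ⟨n, hn⟩, (f ⟨n, hn⟩).2, ?_⟩⟩
    · simp only
      rw [dif_neg]
      rintro ⟨n, rfl⟩
      rcases hp with hp | hp
      · exact hp (f n).2
      · omega
    · simp only
      split_ifs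
      · exact Nat.mod_lt _ (by omega)
      · exact hp
    · have h2 : ∃ n' : L, (f n' : ℕ) = f ⟨n, hn⟩ := ⟨_, rfl⟩
      simp only
      rw [dif_pos h2, hf (Subtype.ext h2.choose_spec)]
  choose st hst1 hst2 hst3 using step
  let a0 : ℕ → ℕ := fun p => if p = q ∨ (p : ZMod q) = 1 then 1 else 0
  let A : ℕ → ℕ → ℕ := fun j => Nat.rec a0 (fun j a => st j a) j
  have hA : ∀ j, A (j + 1) = st j (A j) := fun j => rfl
  have hlt : ∀ j p, p.Prime → A j p < p := by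
    intro j p hp
    induction j with
    | zero =>
      show a0 p < p
      have := hp.one_lt
      simp only [a0]; split_ifs <;> omega
    | succ j ih => rw [hA]; exact hst2 _ _ _ ih
  have hstab : ∀ p j, p ≤ 2 ^ j → ∀ i, A (j + i) p = A j p := by
    intro p j hp i
    induction i with
    | zero => rfl
    | succ i ih =>
      rw [← add_assoc, hA, hst1 _ _ _ (Or.inl fun h => ?_), ih]
      have h1 := (mem_Ioc.1 (mem_filter.1 h).1).1
      have h2 : 2 ^ j ≤ 2 ^ (j + i) := Nat.pow_le_pow_right (by norm_num) (by omega)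
      omega
  have hfin : ∀ p j, p ≤ 2 ^ j → A p p = A j p := by
    intro p j hp
    rw [← hstab p p Nat.lt_two_pow_self.le j, ← hstab p j hp p, add_comm]
  have hinit : ∀ p j : ℕ, ((p : ZMod q) ≠ 1 ∨ p ≤ 2 ^ j0) → A j p = a0 p := by
    intro p j hp
    induction j with
    | zero => rfl
    | succ j ih =>
      rw [hA, hst1 _ _ _ ?_, ih]
      rcases Nat.lt_or_ge j j0 with h | h
      · exact Or.inr h
      · refine Or.inl fun h1 => ?_
        rcases hp with hp | hp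
        · exact hp (mem_filter.1 h1).2.2
        · have h1 := (mem_Ioc.1 (mem_filter.1 h1).1).1
          have h2 : 2 ^ j0 ≤ 2 ^ j := Nat.pow_le_pow_right (by norm_num) h
          omega
  refine ⟨fun p => A p p, fun p hp => hlt p p hp, (k + 1) * 2 ^ (j0 + 1) + 1, fun n hn => ?_⟩
  obtain ⟨j, hj, hnj⟩ := exists_blk (k + 1) j0 (by omega) n (by omega)
  have hn1 := (mem_Ioc.1 hnj).1
  have hj2 : 2 ^ j0 ≤ 2 ^ j := Nat.pow_le_pow_right (by norm_num) hj
  by_contra hcon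
  have hno : ∀ p, p.Prime → k ≤ n / p → n % p ≠ A p p := fun p hp hk h =>
    hcon ⟨p, hp, n / p, hk, by simp only; rw [← h, mul_comm, Nat.mod_add_div]⟩
  have hsmall : ∀ p, p.Prime → p ≤ 2 ^ (j + 1) → n % p ≠ A p p := fun p hp hpj =>
    hno p hp (by
      rw [Nat.le_div_iff_mul_le hp.pos]
      have : k * p ≤ k * 2 ^ (j + 1) := Nat.mul_le_mul_left _ hpj
      rw [add_mul] at hn1
      omega)
  have hpow : 2 ^ (j + 1) = 2 * 2 ^ j := by ring
  have hmem : n ∈ LA T (k + 1) j ∪ (LB q 0 (k + 1) j (A j) ∪ LB q q (k + 1) j (A j)) := by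
    by_cases hc : ∃ p, p.Prime ∧ p ∣ n ∧ p ≠ q ∧ (p : ZMod q) ≠ 1
    · obtain ⟨p, hp, ⟨t, ht⟩, hpq, hp1⟩ := hc
      have ha : A p p = 0 := by rw [hinit p p (Or.inl hp1)]; simp [a0, hpq, hp1]
      have htk : t < k := by
        by_contra h
        refine hno p hp ?_ (by rw [ha, ht]; simp)
        rw [ht, Nat.mul_div_cancel_left _ hp.pos]; omega
      have ht1 : t = 1 := by
        by_contra h
        have ht0 : 0 < t := by
          rcases Nat.eq_zero_or_pos t with rfl | h0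
          · omega
          · exact h0
        have hr := Nat.minFac_prime h
        have hr1 := Nat.minFac_le ht0
        have hr2 : ((t.minFac : ℕ) : ZMod q) ≠ 1 := by
          intro h3
          have h4 : ((t.minFac : ℕ) : ZMod q) = ((1 : ℕ) : ZMod q) := by simpa using h3
          rw [ZMod.natCast_eq_natCast_iff', Nat.mod_eq_of_lt (by omega), Nat.mod_eq_of_lt hq1] at h4
          exact hr.one_lt.ne' h4
        refine hsmall _ hr (by omega) ?_
        rw [hinit _ _ (Or.inl hr2)]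
        have h5 : t.minFac ≠ q := by omega
        simp only [a0, h5, hr2, or_self, if_false]
        exact Nat.mod_eq_zero_of_dvd (ht ▸ (Nat.minFac_dvd t).mul_left p)
      refine mem_union_left _ (mem_filter.2 ⟨hnj, by rw [ht, ht1, mul_one]; exact hp,
        fun r hr => ?_⟩)
      obtain ⟨h1, h2, h3⟩ := hT r hr
      have := hsmall r h1 (by omega)
      rwa [hinit r r (Or.inr h3), show a0 r = 1 by simp [a0, h2]] at this
    · push Not at hc
      have hav : ∀ p, p.Prime → p ≤ 2 ^ j → p ≠ q → ¬ (n ≡ A j p [MOD p]) := by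
        intro p hp hpj _ h
        refine hsmall p hp (by omega) ?_
        rw [hfin p j hpj, h, Nat.mod_eq_of_lt (hlt j p hp)]
      have hnq : n % q ≠ 1 := by
        have := hsmall q hq (by omega)
        rwa [hinit q q (Or.inr hqj), show a0 q = 1 by simp [a0]] at this
      have hone : ∀ m, 0 < m → m ∣ n → ¬ q ∣ m → m % q = 1 := by
        intro m hm hmn hqm
        have h3 := mod_one_of_factors q m hm fun p hp hpm =>
          hc p hp (hpm.trans hmn) (by rintro rfl; exact hqm hpm)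
        have h4 : (m : ZMod q) = ((1 : ℕ) : ZMod q) := by simpa using h3
        rwa [ZMod.natCast_eq_natCast_iff', Nat.mod_eq_of_lt hq1] at h4
      have hqn : q ∣ n := by
        by_contra h
        exact hnq (hone n (by omega) dvd_rfl h)
      obtain ⟨m, hm⟩ := hqn
      have hm0 : 0 < m := by
        rcases Nat.eq_zero_or_pos m with rfl | h0
        · omega
        · exact h0
      refine mem_union_right _ ?_
      by_cases hqm : q ∣ m
      · refine mem_union_left _ (mem_LB.2 ⟨hnj, ?_, hav⟩)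
        rw [hm, sq, Nat.mul_mod_mul_left, Nat.mod_eq_zero_of_dvd hqm, mul_zero]
      · refine mem_union_right _ (mem_LB.2 ⟨hnj, ?_, hav⟩)
        rw [hm, sq, Nat.mul_mod_mul_left, hone m hm0 (hm ▸ Dvd.intro_left _ rfl) hqm, mul_one]
  obtain ⟨p, hp, hp2⟩ := hst3 j (A j) hj n hmem
  have h1 := mem_filter.1 hp
  have h2 := (mem_Ioc.1 h1.1).2
  refine hsmall p h1.2.1 (by omega) ?_
  rw [hfin p (j + 1) (by omega), hA, hp2]

end Pool.Agent.H15.E279
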