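import Mathlib

set_option autoImplicit false
open Finset Filter Topology

namespace Pool.Agent.H15.EP

/-- tail of reciprocal divisor sum -/
noncomputable def TT (K n : ℕ) : ℝ := ∑ d ∈ n.divisors.filter (fun d => K < d), (1 : ℝ) / d

lemma TT_nonneg (K n : ℕ) : 0 ≤ TT K n := Finset.sum_nonneg (fun _ _ => by positivity)

lemma TT_anti (K K' n : ℕ) (h : K ≤ K') : TT K' n ≤ TT K n := by
  apply Finset.sum_le_sum_of_subset_of_nonneg
  · intro d hd
    rw [mem_filter] at hd ⊢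
    exact ⟨hd.1, by omega⟩
  · intro _ _ _; positivity

lemma TT_sum (K N : ℕ) (hK : 0 < K) : ∑ n ∈ Ioc 0 N, TT K n ≤ (N : ℝ) / K := by
  have a1 : ∀ n ∈ Ioc 0 N, TT K n = ∑ d ∈ Ioc K (K + N), if d ∣ n then (1 : ℝ) / d else 0 := by
    intro n hn
    rw [mem_Ioc] at hn
    rw [← Finset.sum_filter]
    apply Finset.sum_congr _ (fun _ _ => rfl)
    ext d
    simp only [Nat.mem_divisors, mem_filter, mem_Ioc]
    constructor
    · rintro ⟨⟨h, _⟩, h2⟩
      have := Nat.le_of_dvd hn.1 h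
      exact ⟨⟨h2, by omega⟩, h⟩
    · rintro ⟨⟨h1, _⟩, h⟩
      exact ⟨⟨h, by omega⟩, h1⟩
  rw [Finset.sum_congr rfl a1, Finset.sum_comm]
  have a2 : ∀ d ∈ Ioc K (K + N), ∑ n ∈ Ioc 0 N, (if d ∣ n then (1 : ℝ) / d else 0) ≤
      N * ((d : ℝ) ^ 2)⁻¹ := by
    intro d hd
    rw [mem_Ioc] at hd
    rw [← Finset.sum_filter, Finset.sum_const, Nat.Ioc_filter_dvd_card_eq_div, nsmul_eq_mul]
    have d0 : (0 : ℝ) < d := by exact_mod_cast (by omega : 0 < d)
    calc _ ≤ (N : ℝ) / d * (1 / d) :=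
          mul_le_mul_of_nonneg_right Nat.cast_div_le (by positivity)
      _ = _ := by field_simp
  refine (Finset.sum_le_sum a2).trans ?_
  rw [← Finset.mul_sum, div_eq_mul_inv]
  apply mul_le_mul_of_nonneg_left _ (Nat.cast_nonneg _)
  have := sum_Ioc_inv_sq_le_sub (α := ℝ) hK.ne' (Nat.le_add_right K N)
  have h2 : (0 : ℝ) ≤ (((K + N : ℕ) : ℝ))⁻¹ := by positivity
  linarith

lemma markov (K N : ℕ) (hK : 0 < K) (η : ℝ) (hη : 0 < η) :
    (((Ioc 0 N).filter (fun n => η < TT K n)).card : ℝ) ≤ (N : ℝ) / K / η := by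
  rw [le_div_iff₀ hη]
  refine le_trans ?_ (TT_sum K N hK)
  calc _ = ∑ _n ∈ (Ioc 0 N).filter (fun n => η < TT K n), η := by
        rw [Finset.sum_const, nsmul_eq_mul]
    _ ≤ ∑ n ∈ (Ioc 0 N).filter (fun n => η < TT K n), TT K n :=
        Finset.sum_le_sum (fun n hn => (mem_filter.1 hn).2.le)
    _ ≤ _ := Finset.sum_le_sum_of_subset_of_nonneg (filter_subset _ _)
        (fun _ _ _ => TT_nonneg _ _)

lemma ap_count (S : Finset ℕ) (P r : ℕ) (hP : 0 < P) (D : ℝ) (hD : 0 ≤ D)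
    (h1 : ∀ n ∈ S, n % P = r) (h2 : ∀ a ∈ S, ∀ b ∈ S, (a : ℝ) - b ≤ D) :
    (S.card : ℝ) ≤ D / P + 1 := by
  rcases S.eq_empty_or_nonempty with rfl | hne
  · simp; positivity
  have P0 : (0 : ℝ) < P := by exact_mod_cast hP
  have hm := S.min'_mem hne
  obtain ⟨m, hm'⟩ : ∃ m, m = S.min' hne := ⟨_, rfl⟩
  rw [← hm'] at hm
  have hle : ∀ n ∈ S, m ≤ n := fun n hn => hm' ▸ S.min'_le n hn
  have h3 : S.card ≤ (range (⌊D / P⌋₊ + 1)).card := by
    apply Finset.card_le_card_of_injOn (fun n => n / P - m / P)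
    · intro n hn
      rw [Finset.mem_coe] at hn
      simp only [coe_range, Set.mem_Iio]
      apply Nat.lt_succ_of_le
      apply Nat.le_floor
      rw [le_div_iff₀ P0]
      refine le_trans (le_of_eq ?_) (h2 n hn m hm)
      have e1 := Nat.div_add_mod n P
      have e2 := Nat.div_add_mod m P
      rw [h1 n hn] at e1
      rw [h1 m hm] at e2
      rw [Nat.cast_sub (Nat.div_le_div_right (hle n hn))]
      have e1' : (P : ℝ) * (n / P : ℕ) + r = n := by exact_mod_cast e1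
      have e2' : (P : ℝ) * (m / P : ℕ) + r = m := by exact_mod_cast e2
      linarith
    · intro a ha b hb hab
      rw [Finset.mem_coe] at ha hb
      simp only at hab
      have e1 := Nat.div_add_mod a P
      have e2 := Nat.div_add_mod b P
      have e3 : m / P ≤ a / P := Nat.div_le_div_right (hle a ha)
      have e4 : m / P ≤ b / P := Nat.div_le_div_right (hle b hb)
      have e5 : a / P = b / P := by omega
      rw [h1 a ha, e5] at e1
      rw [h1 b hb] at e2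
      omega
  rw [card_range] at h3
  have h4 : (S.card : ℝ) ≤ (⌊D / P⌋₊ : ℝ) + 1 := by exact_mod_cast h3
  have h5 := Nat.floor_le (show 0 ≤ D / P by positivity)
  linarith

lemma core (f : ℕ → ℕ) (g : ℕ → ℝ) (M P x : ℕ) (hM : 0 < M) (hP : 0 < P) (hx : P * M ≤ x)
    (f0 : f 0 = 0) (g0 : ∀ n, 0 ≤ g n)
    (gper : ∀ a b, 0 < a → 0 < b → a % P = b % P → g a = g b)
    (happ : ∀ n, 0 < n → |(f n : ℝ) - n * g n| ≤ n * TT (M ^ 2) n) :
    (Set.ncard {n : ℕ | (x : ℝ) < (n : ℝ) + (f n : ℝ) ∧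
      (n : ℝ) + (f n : ℝ) < (x : ℝ) + (x : ℝ) / M} : ℝ) ≤ 8 * ((x : ℝ) / M) := by
  classical
  have M1 : (1 : ℝ) ≤ M := by exact_mod_cast hM
  have P0 : (0 : ℝ) < P := by exact_mod_cast hP
  have x0 : (0 : ℝ) ≤ x := Nat.cast_nonneg _
  obtain ⟨E, hE⟩ : ∃ E : ℝ, E = (x : ℝ) / M := ⟨_, rfl⟩
  have E0 : 0 ≤ E := by rw [hE]; positivity
  have E1 : E ≤ x := by rw [hE]; exact div_le_self x0 M1
  have E2 : (P : ℝ) ≤ E := by
    rw [hE, le_div_iff₀ (by linarith)]; exact_mod_cast hx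
  rw [← hE]
  obtain ⟨G, hG⟩ : ∃ G, G = (Ioc 0 (2 * x)).filter (fun n : ℕ =>
    (x : ℝ) - 2 * E ≤ n * (1 + g n) ∧ n * (1 + g n) ≤ (x : ℝ) + 3 * E) := ⟨_, rfl⟩
  obtain ⟨B, hB⟩ : ∃ B, B = (Ioc 0 (2 * x)).filter (fun n => 1 / (M : ℝ) < TT (M ^ 2) n) :=
    ⟨_, rfl⟩
  have hsub : {n : ℕ | (x : ℝ) < (n : ℝ) + (f n : ℝ) ∧ (n : ℝ) + (f n : ℝ) < (x : ℝ) + E} ⊆
      ↑(G ∪ B) := by
    rintro n ⟨h1, h2⟩
    have n0 : 0 < n := by
      rcases Nat.eq_zero_or_pos n with h | h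
      · subst h; simp [f0] at h1; linarith
      · exact h
    have fn : (0 : ℝ) ≤ f n := Nat.cast_nonneg _
    have n1 : (n : ℝ) ≤ 2 * x := by linarith
    have n2 : n ∈ Ioc 0 (2 * x) := mem_Ioc.2 ⟨n0, by exact_mod_cast n1⟩
    rw [Finset.mem_coe, mem_union, hG, hB, mem_filter, mem_filter]
    by_cases hb : 1 / (M : ℝ) < TT (M ^ 2) n
    · exact Or.inr ⟨n2, hb⟩
    · left
      push Not at hb
      have a1 := happ n n0
      have a2 : (n : ℝ) * TT (M ^ 2) n ≤ 2 * E := by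
        calc _ ≤ 2 * x * (1 / (M : ℝ)) := mul_le_mul n1 hb (TT_nonneg _ _) (by linarith)
          _ = _ := by rw [hE]; ring
      rw [abs_le] at a1
      exact ⟨n2, by linarith, by linarith⟩
  have c1 := Set.ncard_le_ncard hsub (Finset.finite_toSet _)
  rw [Set.ncard_coe_finset] at c1
  have c2 := c1.trans (card_union_le G B)
  have c3 : (B.card : ℝ) ≤ 2 * E := by
    rw [hB]
    refine (markov _ _ (by positivity) _ (by positivity)).trans (le_of_eq ?_)
    rw [hE]; push_cast; field_simp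
  have c4 : (G.card : ℝ) ≤ 6 * E := by
    rw [Finset.card_eq_sum_card_fiberwise (f := fun n => n % P) (t := range P)
      (fun n _ => by simpa using Nat.mod_lt n hP), Nat.cast_sum]
    have b1 : ∀ r ∈ range P, ((G.filter (fun n => n % P = r)).card : ℝ) ≤ 5 * E / P + 1 := by
      intro r _
      apply ap_count _ P r hP _ (by linarith) (fun n hn => (mem_filter.1 hn).2)
      intro a ha b hb
      rw [mem_filter, hG, mem_filter, mem_Ioc] at ha hb
      have e1 := gper a b ha.1.1.1 hb.1.1.1 (by rw [ha.2, hb.2])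
      have e2 := ha.1.2.2
      have e3 := hb.1.2.1
      rw [e1] at e2
      have e4 := g0 b
      by_cases hab : (a : ℝ) - b ≤ 0
      · linarith
      · nlinarith
    refine (Finset.sum_le_sum b1).trans ?_
    rw [Finset.sum_const, card_range, nsmul_eq_mul, mul_add, mul_div_cancel₀ _ P0.ne']
    linarith
  have c5 : (Set.ncard {n : ℕ | (x : ℝ) < (n : ℝ) + (f n : ℝ) ∧
      (n : ℝ) + (f n : ℝ) < (x : ℝ) + E} : ℝ) ≤ (G.card : ℝ) + B.card := by exact_mod_cast c2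
  linarith

/-- slowly growing parameter -/
def LL (x : ℕ) : ℕ := Nat.findGreatest (fun l => (l ^ 4).factorial * l ^ 2 ≤ x) x

lemma LL_spec (x : ℕ) (hx : 1 ≤ x) : 1 ≤ LL x ∧ (LL x ^ 4).factorial * LL x ^ 2 ≤ x :=
  ⟨Nat.le_findGreatest hx (by simpa using hx),
    Nat.findGreatest_spec (P := fun l => (l ^ 4).factorial * l ^ 2 ≤ x) hx (by simpa using hx)⟩

lemma LL_tend : Tendsto LL atTop atTop := by
  rw [tendsto_atTop_atTop]
  intro b
  exact ⟨b + (b ^ 4).factorial * b ^ 2, fun x hx => Nat.le_findGreatest (by omega) (by omega)⟩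

/-- the window length -/
noncomputable def FF (x : ℕ) : ℝ := (x : ℝ) / ((LL x ^ 2 : ℕ) : ℝ)

lemma FF_tend : Tendsto FF atTop atTop := by
  refine tendsto_atTop_mono' atTop ?_ (tendsto_natCast_atTop_atTop.comp LL_tend)
  filter_upwards [eventually_ge_atTop 1] with x hx
  obtain ⟨h1, h2⟩ := LL_spec x hx
  unfold FF
  rw [Function.comp, le_div_iff₀ (by positivity)]
  have h3 : LL x ≤ (LL x ^ 4).factorial :=
    (Nat.le_self_pow (by norm_num) _).trans (Nat.self_le_factorial _)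
  exact_mod_cast (Nat.mul_le_mul_right _ h3).trans h2

lemma dvd_per (K a b d : ℕ) (hd : 0 < d) (hK : d ≤ K) (h : a % K.factorial = b % K.factorial) :
    d ∣ a ↔ d ∣ b :=
  Nat.ModEq.dvd_iff h (Nat.dvd_factorial hd hK)

lemma count_gen (f : ℕ → ℕ) (g : ℕ → ℕ → ℝ) (f0 : f 0 = 0) (g0 : ∀ K n, 0 ≤ g K n)
    (gper : ∀ K a b, 0 < a → 0 < b → a % K.factorial = b % K.factorial → g K a = g K b)
    (happ : ∀ K n, 0 < n → |(f n : ℝ) - n * g K n| ≤ n * TT K n) (x : ℕ) (hx : 1 ≤ x) :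
    (Set.ncard {n : ℕ | (x : ℝ) < (n : ℝ) + (f n : ℝ) ∧
      (n : ℝ) + (f n : ℝ) < (x : ℝ) + FF x} : ℝ) ≤ 8 * FF x := by
  obtain ⟨h1, h2⟩ := LL_spec x hx
  have e : (LL x ^ 2) ^ 2 = LL x ^ 4 := by ring
  exact core f (g (LL x ^ 4)) (LL x ^ 2) (LL x ^ 4).factorial x (by positivity)
    (Nat.factorial_pos _) h2 f0 (g0 _) (gper _) (by rw [e]; exact happ _)

lemma count_sigma (x : ℕ) (hx : 1 ≤ x) :
    (Set.ncard {n : ℕ | (x : ℝ) < (n : ℝ) + ((ArithmeticFunction.sigma 1 n : ℕ) : ℝ) ∧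
      (n : ℝ) + ((ArithmeticFunction.sigma 1 n : ℕ) : ℝ) < (x : ℝ) + FF x} : ℝ) ≤ 8 * FF x := by
  apply count_gen (fun n => ArithmeticFunction.sigma 1 n)
    (fun K n => ∑ d ∈ n.divisors.filter (fun d => ¬ K < d), (1 : ℝ) / d) (by simp)
    (fun K n => Finset.sum_nonneg (fun _ _ => by positivity)) _ _ x hx
  · intro K a b ha hb h
    apply Finset.sum_congr _ (fun _ _ => rfl)
    ext d
    simp only [mem_filter, Nat.mem_divisors]
    constructor
    · rintro ⟨⟨h1, _⟩, h2⟩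
      exact ⟨⟨(dvd_per K a b d (Nat.pos_of_dvd_of_pos h1 ha) (by omega) h).1 h1, by omega⟩, h2⟩
    · rintro ⟨⟨h1, _⟩, h2⟩
      exact ⟨⟨(dvd_per K a b d (Nat.pos_of_dvd_of_pos h1 hb) (by omega) h).2 h1, by omega⟩, h2⟩
  · intro K n hn
    have h1 : ((ArithmeticFunction.sigma 1 n : ℕ) : ℝ) = n * ∑ d ∈ n.divisors, (1 : ℝ) / d := by
      rw [ArithmeticFunction.sigma_one_apply, ← Nat.sum_div_divisors n (fun d => d), Nat.cast_sum,
        Finset.mul_sum]
      apply Finset.sum_congr rfl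
      intro d hd
      rw [Nat.mem_divisors] at hd
      have d0 : (d : ℝ) ≠ 0 := by exact_mod_cast (Nat.pos_of_dvd_of_pos hd.1 hn).ne'
      rw [Nat.cast_div hd.1 d0]; ring
    rw [h1, ← Finset.sum_filter_add_sum_filter_not n.divisors (fun d => K < d)]
    have h2 := TT_nonneg K n
    unfold TT at h2 ⊢
    rw [mul_add, add_sub_cancel_right, abs_of_nonneg (by positivity)]

lemma one_sub_sum_le (s : Finset ℕ) (u : ℕ → ℝ) (h0 : ∀ i ∈ s, 0 ≤ u i) (h1 : ∀ i ∈ s, u i ≤ 1) :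
    1 - ∑ i ∈ s, u i ≤ ∏ i ∈ s, (1 - u i) := by
  induction s using Finset.induction_on with
  | empty => simp
  | insert a s ha ih =>
    rw [Finset.sum_insert ha, Finset.prod_insert ha]
    have a1 := ih (fun i hi => h0 i (mem_insert_of_mem hi)) (fun i hi => h1 i (mem_insert_of_mem hi))
    have a2 := h0 a (mem_insert_self _ _)
    have a3 := h1 a (mem_insert_self _ _)
    have a4 : 0 ≤ ∑ i ∈ s, u i := Finset.sum_nonneg (fun i hi => h0 i (mem_insert_of_mem hi))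
    nlinarith

/-- truncated totient ratio -/
noncomputable def gg (K n : ℕ) : ℝ := ∏ p ∈ n.primeFactors.filter (fun p => ¬ K < p), (1 - 1 / (p : ℝ))

lemma inv_bd (n p : ℕ) (hp : p ∈ n.primeFactors) : 0 ≤ 1 / (p : ℝ) ∧ 1 / (p : ℝ) ≤ 1 := by
  have : (1 : ℝ) ≤ p := by exact_mod_cast (Nat.prime_of_mem_primeFactors hp).one_le
  exact ⟨by positivity, by rw [div_le_one (by linarith)]; exact this⟩

lemma gg_bd (K n : ℕ) : 0 ≤ gg K n ∧ gg K n ≤ 1 :=
  ⟨Finset.prod_nonneg (fun p hp => by linarith [(inv_bd n p (mem_filter.1 hp).1).2]),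
    Finset.prod_le_one (fun p hp => by linarith [(inv_bd n p (mem_filter.1 hp).1).2])
      (fun p hp => by linarith [(inv_bd n p (mem_filter.1 hp).1).1])⟩

lemma phi_split (K n : ℕ) : ∃ R : ℝ, (Nat.totient n : ℝ) = n * (gg K n * R) ∧
    1 - TT K n ≤ R ∧ R ≤ 1 := by
  refine ⟨∏ p ∈ n.primeFactors.filter (fun p => K < p), (1 - 1 / (p : ℝ)), ?_, ?_, ?_⟩
  · have h1 := Nat.totient_eq_mul_prod_factors n
    have h2 : (Nat.totient n : ℝ) = n * ∏ p ∈ n.primeFactors, (1 - (p : ℝ)⁻¹) := by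
      have := congrArg (fun q : ℚ => (q : ℝ)) h1
      simpa using this
    unfold gg
    rw [h2, mul_comm (∏ p ∈ n.primeFactors.filter (fun p => ¬ K < p), (1 - 1 / (p : ℝ))),
      Finset.prod_filter_mul_prod_filter_not]
    simp
  · refine le_trans ?_ (one_sub_sum_le _ (fun p => 1 / (p : ℝ))
      (fun p hp => (inv_bd n p (mem_filter.1 hp).1).1) (fun p hp => (inv_bd n p (mem_filter.1 hp).1).2))
    apply sub_le_sub_left
    apply Finset.sum_le_sum_of_subset_of_nonneg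
    · intro p hp
      rw [mem_filter, Nat.mem_primeFactors] at hp
      rw [mem_filter, Nat.mem_divisors]
      exact ⟨hp.1.2, hp.2⟩
    · intro _ _ _; positivity
  · exact Finset.prod_le_one (fun p hp => by linarith [(inv_bd n p (mem_filter.1 hp).1).2])
      (fun p hp => by linarith [(inv_bd n p (mem_filter.1 hp).1).1])

lemma count_phi (x : ℕ) (hx : 1 ≤ x) :
    (Set.ncard {n : ℕ | (x : ℝ) < (n : ℝ) + ((Nat.totient n : ℕ) : ℝ) ∧
      (n : ℝ) + ((Nat.totient n : ℕ) : ℝ) < (x : ℝ) + FF x} : ℝ) ≤ 8 * FF x := by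
  apply count_gen Nat.totient gg (by simp) (fun K n => (gg_bd K n).1) _ _ x hx
  · intro K a b ha hb h
    apply Finset.prod_congr _ (fun _ _ => rfl)
    ext d
    simp only [mem_filter, Nat.mem_primeFactors]
    constructor
    · rintro ⟨⟨h0, h1, _⟩, h2⟩
      exact ⟨⟨h0, (dvd_per K a b d h0.pos (by omega) h).1 h1, by omega⟩, h2⟩
    · rintro ⟨⟨h0, h1, _⟩, h2⟩
      exact ⟨⟨h0, (dvd_per K a b d h0.pos (by omega) h).2 h1, by omega⟩, h2⟩
  · intro K n _
    obtain ⟨R, h1, h2, h3⟩ := phi_split K n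
    obtain ⟨g1, g2⟩ := gg_bd K n
    have n0 : (0 : ℝ) ≤ n := Nat.cast_nonneg _
    rw [h1, ← mul_sub, abs_mul, abs_of_nonneg n0]
    apply mul_le_mul_of_nonneg_left _ n0
    rw [abs_le]
    have := TT_nonneg K n
    constructor <;> nlinarith

lemma gg_lower (K n : ℕ) (hK : 1 ≤ K) : 1 / (K : ℝ) ≤ gg K n := by
  have h1 : ∀ K : ℕ, 1 ≤ K → ∏ j ∈ Ioc 1 K, (1 - 1 / (j : ℝ)) = 1 / (K : ℝ) := by
    intro K hK
    induction K, hK using Nat.le_induction with
    | base => simp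
    | succ K hK ih =>
      rw [Finset.prod_Ioc_succ_top hK, ih]
      have : (0 : ℝ) < K := by exact_mod_cast hK
      push_cast; field_simp; ring
  rw [← h1 K hK]
  unfold gg
  apply Finset.prod_le_prod_of_subset_of_le_one
  · intro p hp
    rw [mem_filter] at hp
    exact mem_Ioc.2 ⟨(Nat.prime_of_mem_primeFactors hp.1).one_lt, by omega⟩
  · intro j hj
    have : (1 : ℝ) ≤ j := by exact_mod_cast (mem_Ioc.1 hj).1.le
    have : 1 / (j : ℝ) ≤ 1 := by rw [div_le_one (by linarith)]; exact this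
    linarith
  · intro j _ _
    have : 0 ≤ 1 / (j : ℝ) := by positivity
    linarith

lemma inv_LL : Tendsto (fun n => 1 / (LL n : ℝ)) atTop (𝓝 0) :=
  tendsto_const_nhds.div_atTop (tendsto_natCast_atTop_atTop.comp LL_tend)

lemma FF_nonneg (n : ℕ) : 0 ≤ FF n := by unfold FF; positivity

lemma FF_sigma : Tendsto (fun n => FF n / ((ArithmeticFunction.sigma 1 n : ℕ) : ℝ)) atTop (𝓝 0) := by
  refine squeeze_zero' (Eventually.of_forall (fun n => div_nonneg (FF_nonneg n) (Nat.cast_nonneg _)))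
    ?_ inv_LL
  filter_upwards [eventually_ge_atTop 1] with n hn
  obtain ⟨h1, _⟩ := LL_spec n hn
  have a1 : n ≤ ArithmeticFunction.sigma 1 n := by
    rw [ArithmeticFunction.sigma_one_apply]
    exact Finset.single_le_sum (f := fun d => d) (fun _ _ => Nat.zero_le _)
      (Nat.mem_divisors_self n (by omega))
  have a2 : (n : ℝ) ≤ ((ArithmeticFunction.sigma 1 n : ℕ) : ℝ) := by exact_mod_cast a1
  have a3 : (1 : ℝ) ≤ n := by exact_mod_cast hn
  have a4 : (1 : ℝ) ≤ LL n := by exact_mod_cast h1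
  unfold FF
  push_cast
  rw [div_div, div_le_div_iff₀ (by positivity) (by positivity)]
  have a5 : (LL n : ℝ) ≤ (LL n : ℝ) ^ 2 := by nlinarith
  nlinarith

lemma FF_phi : Tendsto (fun n => FF n / (Nat.totient n : ℝ))
    (atTop ⊓ 𝓟 {n | TT (LL n) n ≤ 1 / 2}) (𝓝 0) := by
  have h0 : Tendsto (fun n => 2 * (1 / (LL n : ℝ))) atTop (𝓝 0) := by
    simpa using inv_LL.const_mul 2
  refine squeeze_zero' (Eventually.of_forall (fun n => div_nonneg (FF_nonneg n) (Nat.cast_nonneg _)))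
    ?_ (h0.mono_left inf_le_left)
  rw [eventually_inf_principal]
  filter_upwards [eventually_ge_atTop 1] with n hn hA
  obtain ⟨h1, _⟩ := LL_spec n hn
  obtain ⟨R, r1, r2, _⟩ := phi_split (LL n) n
  have a1 := gg_lower (LL n) n h1
  have a3 : (1 : ℝ) ≤ n := by exact_mod_cast hn
  have a4 : (1 : ℝ) ≤ LL n := by exact_mod_cast h1
  have hA' : TT (LL n) n ≤ 1 / 2 := hA
  have a5 : 1 / (LL n : ℝ) * (1 / 2) ≤ gg (LL n) n * R :=
    mul_le_mul a1 (by linarith) (by norm_num) (gg_bd _ _).1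
  have a6 : (n : ℝ) * (1 / (LL n : ℝ) * (1 / 2)) ≤ Nat.totient n := by
    rw [r1]; exact mul_le_mul_of_nonneg_left a5 (by linarith)
  calc FF n / (Nat.totient n : ℝ) ≤ FF n / ((n : ℝ) * (1 / (LL n : ℝ) * (1 / 2))) :=
        div_le_div_of_nonneg_left (FF_nonneg n) (by positivity) a6
    _ = 2 * (1 / (LL n : ℝ)) := by
        unfold FF; push_cast; field_simp

lemma dens : Tendsto (fun N : ℕ => ((({n | TT (LL n) n ≤ 1 / 2} : Set ℕ) ∩ Set.Iio N).ncard : ℝ) /
    (N : ℝ)) atTop (𝓝 1) := by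
  classical
  rw [Metric.tendsto_atTop]
  intro ε hε
  obtain ⟨L, hL⟩ := exists_nat_gt (4 / ε)
  have L0 : (0 : ℝ) < L := lt_trans (by positivity) hL
  have L1 : 0 < L := by exact_mod_cast L0
  obtain ⟨N0, hN0⟩ := tendsto_atTop_atTop.1 LL_tend L
  obtain ⟨N1, hN1⟩ := exists_nat_gt (2 * ((N0 : ℝ) + 1) / ε)
  refine ⟨N1, fun N hN => ?_⟩
  have hN' : (N1 : ℝ) ≤ N := by exact_mod_cast hN
  have Np : (0 : ℝ) < N := lt_of_lt_of_le (lt_trans (by positivity) hN1) hN'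
  have e1 : (({n | TT (LL n) n ≤ 1 / 2} : Set ℕ) ∩ Set.Iio N) =
      ↑((range N).filter (fun n => TT (LL n) n ≤ 1 / 2)) := by
    ext n; simp [and_comm]
  rw [e1, Set.ncard_coe_finset]
  have e2 := Finset.card_filter_add_card_filter_not (s := range N) (fun n => TT (LL n) n ≤ 1 / 2)
  rw [card_range] at e2
  have e3 : (range N).filter (fun n => ¬ TT (LL n) n ≤ 1 / 2) ⊆
      range (N0 + 1) ∪ (Ioc 0 N).filter (fun n => 1 / 2 < TT L n) := by
    intro n hn
    rw [mem_filter, mem_range] at hn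
    rw [mem_union, mem_range, mem_filter, mem_Ioc]
    by_cases h : n < N0 + 1
    · exact Or.inl h
    · have := TT_anti L (LL n) n (hN0 n (by omega))
      exact Or.inr ⟨⟨by omega, by omega⟩, by linarith [not_le.1 hn.2]⟩
  have e4 := (card_le_card e3).trans (card_union_le _ _)
  rw [card_range] at e4
  have e5 := markov L N L1 (1 / 2) (by norm_num)
  obtain ⟨a, ha⟩ : ∃ a, a = ((range N).filter (fun n => TT (LL n) n ≤ 1 / 2)).card := ⟨_, rfl⟩
  obtain ⟨b, hb⟩ : ∃ b, b = ((range N).filter (fun n => ¬ TT (LL n) n ≤ 1 / 2)).card := ⟨_, rfl⟩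
  obtain ⟨c, hc⟩ : ∃ c, c = ((Ioc 0 N).filter (fun n => 1 / 2 < TT L n)).card := ⟨_, rfl⟩
  rw [← ha, ← hb] at e2
  rw [← hb, ← hc] at e4
  rw [← hc] at e5
  rw [← ha]
  have f2 : (a : ℝ) + b = N := by exact_mod_cast e2
  have f4 : (b : ℝ) ≤ N0 + 1 + c := by exact_mod_cast e4
  have f0 : (0 : ℝ) ≤ b := Nat.cast_nonneg _
  have f5 : (a : ℝ) / N - 1 = -(b / N) := by field_simp; linarith
  rw [Real.dist_eq, f5, abs_neg, abs_of_nonneg (by positivity), div_lt_iff₀ Np]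
  rw [div_lt_iff₀ hε] at hL hN1
  have f6 : (N : ℝ) / L / (1 / 2) ≤ ε * N / 2 := by
    rw [div_div, div_le_iff₀ (by positivity)]
    nlinarith
  nlinarith

end Pool.Agent.H15.EP
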