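import Mathlib

set_option autoImplicit false
open MeasureTheory Set

namespace Pool.Agent.H15.GB

noncomputable def pp (t : ℝ) : ℝ := t * (1 - 4 * t ^ 2)

noncomputable def gg (t : ℝ) : ℂ := Set.indicator (Icc (-1/2 : ℝ) (1/2)) (fun t => ((pp t : ℝ) : ℂ)) t

lemma pp_cont : Continuous pp := by unfold pp; fun_prop

lemma pp_bound {t : ℝ} (h1 : -1/2 ≤ t) (h2 : t ≤ 1/2) : |pp t| ≤ 1 := by
  unfold pp
  rw [abs_le]
  constructor <;> nlinarith [sq_nonneg t, mul_nonneg (by linarith : (0:ℝ) ≤ t + 1/2) (by linarith : (0:ℝ) ≤ 1/2 - t)]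

lemma gg_meas : Measurable gg := by
  unfold gg
  exact (Complex.continuous_ofReal.comp pp_cont).measurable.indicator measurableSet_Icc

lemma gg_integrable : Integrable gg volume := by
  unfold gg
  rw [integrable_indicator_iff measurableSet_Icc]
  exact (Complex.continuous_ofReal.comp pp_cont).integrableOn_Icc

lemma gg_memLp : MemLp gg 2 volume := by
  unfold gg
  rw [memLp_indicator_iff_restrict measurableSet_Icc]
  refine MemLp.of_bound (Complex.continuous_ofReal.comp pp_cont).aestronglyMeasurable 1 ?_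
  filter_upwards [ae_restrict_mem measurableSet_Icc] with t ht
  simpa using pp_bound ht.1 ht.2

lemma gg_odd (t : ℝ) : gg (-t) = -gg t := by
  unfold gg
  by_cases h : t ∈ Icc (-1/2 : ℝ) (1/2)
  · have h' : -t ∈ Icc (-1/2 : ℝ) (1/2) := ⟨by linarith [h.2], by linarith [h.1]⟩
    rw [indicator_of_mem h, indicator_of_mem h']
    unfold pp
    push_cast
    ring
  · have h' : -t ∉ Icc (-1/2 : ℝ) (1/2) := fun h' => h ⟨by linarith [h'.2], by linarith [h'.1]⟩
    rw [indicator_of_notMem h, indicator_of_notMem h']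
    simp

lemma ibp (h h1 : ℝ → ℝ) (hd : ∀ t, HasDerivAt h (h1 t) t) (hc : Continuous h1) (c : ℂ) (a b : ℝ) :
    c * ∫ t in a..b, (h t : ℂ) * Complex.exp (c * t) =
      (h b : ℂ) * Complex.exp (c * b) - (h a : ℂ) * Complex.exp (c * a)
        - ∫ t in a..b, (h1 t : ℂ) * Complex.exp (c * t) := by
  have e1 : ∀ t : ℝ, HasDerivAt (fun t : ℝ => Complex.exp (c * t)) (Complex.exp (c * t) * c) t := by
    intro t
    have : HasDerivAt (fun t : ℝ => c * (t : ℂ)) c t := by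
      simpa using (Complex.ofRealCLM.hasDerivAt (x := t)).const_mul c
    exact this.cexp
  have := intervalIntegral.integral_mul_deriv_eq_deriv_mul (a := a) (b := b)
    (u := fun t => (h t : ℂ)) (v := fun t : ℝ => Complex.exp (c * t))
    (u' := fun t => (h1 t : ℂ)) (v' := fun t : ℝ => Complex.exp (c * t) * c)
    (fun t _ => (hd t).ofReal_comp) (fun t _ => e1 t)
    ((Complex.continuous_ofReal.comp hc).intervalIntegrable _ _)
    (by apply Continuous.intervalIntegrable; fun_prop)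
  rw [← this, ← intervalIntegral.integral_const_mul]
  congr 1
  ext t
  ring

lemma norm_ee (w t : ℝ) : ‖Complex.exp (-2 * (Real.pi : ℂ) * Complex.I * (w : ℂ) * (t : ℂ))‖ = 1 := by
  rw [Complex.norm_exp]
  simp

lemma int_bound (h : ℝ → ℝ) (K w : ℝ) (hb : ∀ t, -1/2 ≤ t → t ≤ 1/2 → |h t| ≤ K) :
    ‖∫ t in (-1/2 : ℝ)..(1/2), (h t : ℂ) * Complex.exp (-2 * (Real.pi : ℂ) * Complex.I * (w : ℂ) * (t : ℂ))‖ ≤ K := by
  have := intervalIntegral.norm_integral_le_of_norm_le_const (a := (-1/2 : ℝ)) (b := 1/2) (C := K)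
    (f := fun t : ℝ => (h t : ℂ) * Complex.exp (-2 * (Real.pi : ℂ) * Complex.I * (w : ℂ) * (t : ℂ))) ?_
  · norm_num at this ⊢
    exact this
  · intro t ht
    rw [uIoc_of_le (by norm_num)] at ht
    rw [norm_mul, norm_ee, mul_one, Complex.norm_real, Real.norm_eq_abs]
    exact hb t ht.1.le ht.2

lemma decay (h h1 h2 : ℝ → ℝ) (hd : ∀ t, HasDerivAt h (h1 t) t) (hd1 : ∀ t, HasDerivAt h1 (h2 t) t)
    (hc : Continuous h2) (ha : h (-1/2) = 0) (hb : h (1/2) = 0) (K w : ℝ)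
    (b0 : ∀ t, -1/2 ≤ t → t ≤ 1/2 → |h t| ≤ K) (b1 : ∀ t, -1/2 ≤ t → t ≤ 1/2 → |h1 t| ≤ K)
    (b2 : ∀ t, -1/2 ≤ t → t ≤ 1/2 → |h2 t| ≤ K) :
    ‖∫ t in (-1/2 : ℝ)..(1/2), (h t : ℂ) * Complex.exp (-2 * (Real.pi : ℂ) * Complex.I * (w : ℂ) * (t : ℂ))‖
      ≤ 4 * K * (1 + w ^ 2)⁻¹ := by
  have hc1 : Continuous h1 := continuous_iff_continuousAt.2 fun t => (hd1 t).continuousAt
  set c : ℂ := -2 * (Real.pi : ℂ) * Complex.I * (w : ℂ) with hcdef
  have i1 := ibp h h1 hd hc1 c (-1/2) (1/2)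
  have i2 := ibp h1 h2 hd1 hc c (-1/2) (1/2)
  rw [ha, hb] at i1
  set J0 := ∫ t in (-1/2 : ℝ)..(1/2), (h t : ℂ) * Complex.exp (c * t) with hJ0
  set J1 := ∫ t in (-1/2 : ℝ)..(1/2), (h1 t : ℂ) * Complex.exp (c * t) with hJ1
  set J2 := ∫ t in (-1/2 : ℝ)..(1/2), (h2 t : ℂ) * Complex.exp (c * t) with hJ2
  have n0 : ‖J0‖ ≤ K := int_bound h K w b0
  have n2 : ‖J2‖ ≤ K := int_bound h2 K w b2
  have e : c ^ 2 * J0 = -((h1 (1/2) : ℂ) * Complex.exp (c * ((1/2 : ℝ) : ℂ))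
      - (h1 (-1/2) : ℂ) * Complex.exp (c * ((-1/2 : ℝ) : ℂ)) - J2) := by
    rw [← i2]
    have : c * J0 = -J1 := by rw [i1]; simp
    rw [pow_two, mul_assoc, this]; ring
  have nb : ‖(h1 (1/2) : ℂ) * Complex.exp (c * ((1/2 : ℝ) : ℂ))‖ ≤ K := by
    rw [norm_mul, hcdef, norm_ee, mul_one, Complex.norm_real, Real.norm_eq_abs]
    exact b1 _ (by norm_num) (by norm_num)
  have na : ‖(h1 (-1/2) : ℂ) * Complex.exp (c * ((-1/2 : ℝ) : ℂ))‖ ≤ K := by
    rw [norm_mul, hcdef, norm_ee, mul_one, Complex.norm_real, Real.norm_eq_abs]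
    exact b1 _ (by norm_num) (by norm_num)
  have n3 : ‖c ^ 2 * J0‖ ≤ 3 * K := by
    rw [e, norm_neg]
    have := norm_sub_le ((h1 (1/2) : ℂ) * Complex.exp (c * ((1/2 : ℝ) : ℂ))
      - (h1 (-1/2) : ℂ) * Complex.exp (c * ((-1/2 : ℝ) : ℂ))) J2
    have := norm_sub_le ((h1 (1/2) : ℂ) * Complex.exp (c * ((1/2 : ℝ) : ℂ)))
      ((h1 (-1/2) : ℂ) * Complex.exp (c * ((-1/2 : ℝ) : ℂ)))
    linarith
  have nc : w ^ 2 ≤ ‖c ^ 2‖ := by
    rw [norm_pow, hcdef]
    simp only [norm_mul, norm_neg, Complex.norm_real, Complex.norm_I, Real.norm_eq_abs, Complex.norm_ofNat]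
    rw [abs_of_pos Real.pi_pos]
    have := Real.pi_gt_three
    have h2 : |w| ^ 2 = w ^ 2 := sq_abs w
    have h3 : (2 * Real.pi * 1 * |w|) ^ 2 = (2 * Real.pi) ^ 2 * w ^ 2 := by rw [← h2]; ring
    rw [h3]
    nlinarith [sq_nonneg w, mul_nonneg (sq_nonneg w) (by nlinarith : (0:ℝ) ≤ (2 * Real.pi) ^ 2 - 1)]
  rw [norm_mul] at n3
  have hp : (0:ℝ) < 1 + w ^ 2 := by positivity
  rw [← div_eq_mul_inv, le_div_iff₀ hp]
  nlinarith [norm_nonneg J0, mul_le_mul_of_nonneg_right nc (norm_nonneg J0)]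

lemma gauss_le (u : ℝ) : (1 + u ^ 2) * Real.exp (-Real.pi * u ^ 2) ≤ (1 + u ^ 2)⁻¹ := by
  have hp : (0:ℝ) < 1 + u ^ 2 := by positivity
  have h1 := Real.quadratic_le_exp_of_nonneg (x := Real.pi * u ^ 2) (by positivity)
  have := Real.pi_gt_three
  have h2 : (1 + u ^ 2) ^ 2 ≤ Real.exp (Real.pi * u ^ 2) := by
    have a1 : 2 * u ^ 2 ≤ Real.pi * u ^ 2 := by nlinarith [sq_nonneg u]
    have a2 : (2 * u ^ 2) ^ 2 ≤ (Real.pi * u ^ 2) ^ 2 := by
      apply pow_le_pow_left₀ (by positivity) a1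
    nlinarith [sq_nonneg (u ^ 2)]
  rw [neg_mul, Real.exp_neg, ← div_eq_mul_inv, div_le_iff₀ (Real.exp_pos _), inv_mul_eq_div,
    le_div_iff₀ hp]
  nlinarith

lemma gauss_le' (x t : ℝ) (h1 : -1/2 ≤ t) (h2 : t ≤ 1/2) :
    (1 + (t - x) ^ 2) * Real.exp (-Real.pi * (t - x) ^ 2) ≤ 2 * (1 + x ^ 2)⁻¹ := by
  refine (gauss_le _).trans ?_
  rw [← div_eq_mul_inv, inv_eq_one_div, div_le_div_iff₀ (by positivity) (by positivity)]
  nlinarith [sq_nonneg (2 * t - x), mul_nonneg (by linarith : (0:ℝ) ≤ t + 1/2) (by linarith : (0:ℝ) ≤ 1/2 - t)]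

lemma stft_bound (x w : ℝ) :
    ‖∫ t : ℝ, gg t * Complex.exp (-(Real.pi : ℂ) * (((t - x) ^ 2 : ℝ) : ℂ))
        * Complex.exp (-2 * (Real.pi : ℂ) * Complex.I * (w : ℂ) * (t : ℂ))‖
      ≤ 800 * ((1 + x ^ 2)⁻¹ * (1 + w ^ 2)⁻¹) := by
  set E : ℝ → ℝ := fun t => Real.exp (-Real.pi * (t - x) ^ 2) with hE
  have e0 : (∫ t : ℝ, gg t * Complex.exp (-(Real.pi : ℂ) * (((t - x) ^ 2 : ℝ) : ℂ))
        * Complex.exp (-2 * (Real.pi : ℂ) * Complex.I * (w : ℂ) * (t : ℂ))) =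
      ∫ t in (-1/2 : ℝ)..(1/2), ((pp t * E t : ℝ) : ℂ) *
        Complex.exp (-2 * (Real.pi : ℂ) * Complex.I * (w : ℂ) * (t : ℂ)) := by
    rw [intervalIntegral.integral_of_le (by norm_num), ← integral_Icc_eq_integral_Ioc,
      ← integral_indicator measurableSet_Icc]
    congr 1
    ext t
    unfold gg
    by_cases h : t ∈ Icc (-1/2 : ℝ) (1/2)
    · rw [indicator_of_mem h, indicator_of_mem h, hE]
      push_cast
      ring
    · rw [indicator_of_notMem h, indicator_of_notMem h]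
      simp
  rw [e0]
  have dE : ∀ t, HasDerivAt E (E t * (-Real.pi * (2 * (t - x)))) t := by
    intro t
    have : HasDerivAt (fun t : ℝ => -Real.pi * (t - x) ^ 2) (-Real.pi * (2 * (t - x))) t := by
      have := (((hasDerivAt_id t).sub_const x).pow 2).const_mul (-Real.pi)
      simpa using this
    exact this.exp
  have Epos : ∀ t, 0 < E t := fun t => Real.exp_pos _
  have pi3 := Real.pi_gt_three
  have pi4 := Real.pi_lt_four
  have key : ∀ (t a : ℝ), -1/2 ≤ t → t ≤ 1/2 → |a| ≤ 100 * (1 + (t - x) ^ 2) →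
      |a * E t| ≤ 200 * (1 + x ^ 2)⁻¹ := by
    intro t a h1 h2 ha
    rw [abs_mul, abs_of_pos (Epos t)]
    have := gauss_le' x t h1 h2
    have h3 := mul_le_mul_of_nonneg_right ha (Epos t).le
    simp only [hE] at h3 ⊢
    linarith
  have := decay (fun t => pp t * E t)
    (fun t => ((1 - 12 * t ^ 2) - 2 * Real.pi * (t - x) * pp t) * E t)
    (fun t => (-24 * t - 4 * Real.pi * (t - x) * (1 - 12 * t ^ 2)
      + (4 * Real.pi ^ 2 * (t - x) ^ 2 - 2 * Real.pi) * pp t) * E t) ?_ ?_ ?_ ?_ ?_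
      (200 * (1 + x ^ 2)⁻¹) w ?_ ?_ ?_
  · refine this.trans (le_of_eq ?_)
    ring
  · intro t
    have d1 : HasDerivAt pp (1 - 12 * t ^ 2) t := by
      have := (hasDerivAt_id t).mul ((((hasDerivAt_id t).pow 2).const_mul 4).const_sub 1)
      exact this.congr_deriv (by simp; ring)
    exact (d1.mul (dE t)).congr_deriv (by ring)
  · intro t
    have d1 : HasDerivAt pp (1 - 12 * t ^ 2) t := by
      have := (hasDerivAt_id t).mul ((((hasDerivAt_id t).pow 2).const_mul 4).const_sub 1)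
      exact this.congr_deriv (by simp; ring)
    have d2 : HasDerivAt (fun t : ℝ => 1 - 12 * t ^ 2) (-24 * t) t := by
      have := (((hasDerivAt_id t).pow 2).const_mul 12).const_sub 1
      exact this.congr_deriv (by simp; ring)
    have d3 : HasDerivAt (fun t : ℝ => 2 * Real.pi * (t - x)) (2 * Real.pi) t := by
      simpa using ((hasDerivAt_id t).sub_const x).const_mul (2 * Real.pi)
    exact ((d2.sub (d3.mul d1)).mul (dE t)).congr_deriv
      (by simp only [Pi.sub_apply, Pi.mul_apply]; ring)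
  · have := pp_cont
    simp only [hE]
    fun_prop
  · simp [pp]; norm_num
  · simp [pp]; norm_num
  · intro t h1 h2
    apply key t _ h1 h2
    have := pp_bound h1 h2
    nlinarith [sq_nonneg (t - x)]
  · intro t h1 h2
    apply key t _ h1 h2
    have hp := pp_bound h1 h2
    have a1 : |1 - 12 * t ^ 2| ≤ 2 := by
      rw [abs_le]; constructor <;> nlinarith [sq_nonneg t]
    have a2 : |2 * Real.pi * (t - x) * pp t| ≤ 8 * |t - x| := by
      rw [abs_mul, abs_mul, abs_of_pos (by positivity : 0 < 2 * Real.pi)]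
      have := abs_nonneg (t - x)
      calc 2 * Real.pi * |t - x| * |pp t| ≤ 2 * Real.pi * |t - x| * 1 := by gcongr
        _ ≤ 8 * |t - x| := by nlinarith
    have a3 := abs_sub (1 - 12 * t ^ 2) (2 * Real.pi * (t - x) * pp t)
    have a4 : |t - x| ≤ 1 + (t - x) ^ 2 := by
      rw [← sq_abs (t - x)]; nlinarith [sq_nonneg (|t - x| - 1), abs_nonneg (t - x)]
    nlinarith [sq_nonneg (t - x)]
  · intro t h1 h2
    apply key t _ h1 h2
    have hp := pp_bound h1 h2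
    have a0 : |-24 * t| ≤ 12 := by
      rw [abs_le]; constructor <;> linarith
    have a1 : |1 - 12 * t ^ 2| ≤ 2 := by
      rw [abs_le]; constructor <;> nlinarith [sq_nonneg t]
    have a2 : |4 * Real.pi * (t - x) * (1 - 12 * t ^ 2)| ≤ 32 * |t - x| := by
      rw [abs_mul, abs_mul, abs_of_pos (by positivity : 0 < 4 * Real.pi)]
      have := abs_nonneg (t - x)
      calc 4 * Real.pi * |t - x| * |1 - 12 * t ^ 2| ≤ 4 * Real.pi * |t - x| * 2 := by gcongr
        _ ≤ 32 * |t - x| := by nlinarith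
    have a5 : |(4 * Real.pi ^ 2 * (t - x) ^ 2 - 2 * Real.pi) * pp t| ≤ 64 * (t - x) ^ 2 + 8 := by
      rw [abs_mul]
      have b1 : |4 * Real.pi ^ 2 * (t - x) ^ 2 - 2 * Real.pi| ≤ 64 * (t - x) ^ 2 + 8 := by
        have : Real.pi ^ 2 ≤ 16 := by nlinarith
        have b2 : 4 * Real.pi ^ 2 * (t - x) ^ 2 ≤ 64 * (t - x) ^ 2 := by nlinarith [sq_nonneg (t - x)]
        have b3 : 0 ≤ 4 * Real.pi ^ 2 * (t - x) ^ 2 := by positivity
        rw [abs_le]; constructor <;> nlinarith [sq_nonneg (t - x)]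
      calc _ ≤ (64 * (t - x) ^ 2 + 8) * 1 := by gcongr
        _ = _ := by ring
    have a3 := abs_sub (-24 * t) (4 * Real.pi * (t - x) * (1 - 12 * t ^ 2))
    have a6 := abs_add_le (-24 * t - 4 * Real.pi * (t - x) * (1 - 12 * t ^ 2))
      ((4 * Real.pi ^ 2 * (t - x) ^ 2 - 2 * Real.pi) * pp t)
    have a4 : 2 * |t - x| ≤ 1 + (t - x) ^ 2 := by
      rw [← sq_abs (t - x)]; nlinarith [sq_nonneg (|t - x| - 1), abs_nonneg (t - x)]
    nlinarith [sq_nonneg (t - x)]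

lemma stft_integrable :
    Integrable (fun p : ℝ × ℝ => ∫ t : ℝ, gg t
        * Complex.exp (-(Real.pi : ℂ) * (((t - p.1) ^ 2 : ℝ) : ℂ))
        * Complex.exp (-2 * (Real.pi : ℂ) * Complex.I * (p.2 : ℂ) * (t : ℂ)))
      (volume : Measure (ℝ × ℝ)) := by
  have hm : Integrable (fun p : ℝ × ℝ => 800 * ((1 + p.1 ^ 2)⁻¹ * (1 + p.2 ^ 2)⁻¹))
      (volume : Measure (ℝ × ℝ)) :=
    (Integrable.mul_prod integrable_inv_one_add_sq integrable_inv_one_add_sq).const_mul 800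
  refine hm.mono' ?_ (Filter.Eventually.of_forall fun p => stft_bound p.1 p.2)
  apply StronglyMeasurable.aestronglyMeasurable
  apply StronglyMeasurable.integral_prod_right
    (f := fun (p : ℝ × ℝ) (t : ℝ) => gg t
        * Complex.exp (-(Real.pi : ℂ) * (((t - p.1) ^ 2 : ℝ) : ℂ))
        * Complex.exp (-2 * (Real.pi : ℂ) * Complex.I * (p.2 : ℂ) * (t : ℂ)))
  apply Measurable.stronglyMeasurable
  apply Measurable.mul
  · apply Measurable.mul
    · exact gg_meas.comp measurable_snd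
    · apply Continuous.measurable
      fun_prop
  · apply Continuous.measurable
    fun_prop

end Pool.Agent.H15.GB
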