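import Pool.Agent.H15.GB1

set_option autoImplicit false
open MeasureTheory Set

namespace Pool.Agent.H15.GB

@[irreducible] noncomputable def FF (f : ℝ → ℂ) (γ : ℝ × ℝ) : ℝ :=
  ‖∫ t : ℝ, f t * (starRingEnd ℂ)
          (Complex.exp (2 * (Real.pi : ℂ) * Complex.I * ((γ.2 : ℝ) : ℂ) * (t : ℂ))
            * gg (t - γ.1))‖ ^ 2

noncomputable def qq (c t : ℝ) : ℝ := pp (Int.fract (t - c + 1/2) - 1/2)

lemma qq_bound (c t : ℝ) : |qq c t| ≤ 1 := by
  unfold qq
  apply pp_bound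
  · linarith [Int.fract_nonneg (t - c + 1/2)]
  · linarith [Int.fract_lt_one (t - c + 1/2)]

lemma qq_meas (c : ℝ) : Measurable (qq c) := by
  unfold qq
  apply pp_cont.measurable.comp
  exact (measurable_fract.comp (by fun_prop)).sub_const _

lemma row (f : ℝ → ℂ) (hf : MemLp f 2 volume) (x : ℝ) :
    HasSum (fun k : ℤ => FF f (x, (k : ℝ)))
      (∫ t in (x - 1/2)..(x - 1/2 + 1), ‖f t‖ ^ 2 * (pp (t - x)) ^ 2) := by
  have hab : x - 1/2 < x - 1/2 + 1 := by linarith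
  have hL : MemLp (fun t => f t * ((pp (t - x) : ℝ) : ℂ)) 2
      (volume.restrict (Ioc (x - 1/2) (x - 1/2 + 1))) := by
    refine (hf.restrict _).of_le ?_ ?_
    · apply (hf.restrict _).aestronglyMeasurable.mul
      have := pp_cont
      apply Continuous.aestronglyMeasurable
      fun_prop
    · filter_upwards [ae_restrict_mem measurableSet_Ioc] with t ht
      rw [norm_mul, Complex.norm_real, Real.norm_eq_abs]
      have := pp_bound (t := t - x) (by linarith [ht.1]) (by linarith [ht.2])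
      nlinarith [norm_nonneg (f t), abs_nonneg (pp (t - x))]
  have := hasSum_sq_fourierCoeffOn hab hL
  have e1 : x - 1/2 + 1 - (x - 1/2) = 1 := by ring
  convert this using 1
  · ext k
    unfold FF
    congr 2
    rw [fourierCoeffOn_eq_integral, intervalIntegral.integral_of_le hab.le,
      ← integral_Icc_eq_integral_Ioc, ← integral_indicator measurableSet_Icc]
    simp only [fourier_coe_apply, e1]
    rw [div_one, one_smul]
    congr 1
    ext t
    unfold gg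
    by_cases h : t ∈ Icc (x - 1/2) (x - 1/2 + 1)
    · have h' : t - x ∈ Icc (-1/2 : ℝ) (1/2) := ⟨by linarith [h.1], by linarith [h.2]⟩
      rw [indicator_of_mem h, indicator_of_mem h', map_mul, ← Complex.exp_conj]
      simp only [map_mul, Complex.conj_ofReal, Complex.conj_I, smul_eq_mul, map_ofNat]
      push_cast
      ring_nf
    · have h' : t - x ∉ Icc (-1/2 : ℝ) (1/2) := fun h' => h ⟨by linarith [h'.1], by linarith [h'.2]⟩
      rw [indicator_of_notMem h, indicator_of_notMem h']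
      simp
  · rw [e1, inv_one, one_smul]
    congr 1
    ext t
    rw [norm_mul, Complex.norm_real, Real.norm_eq_abs, mul_pow, sq_abs]

lemma wt_integrable (f : ℝ → ℂ) (hf : MemLp f 2 volume) (c : ℝ) :
    Integrable (fun t => ‖f t‖ ^ 2 * (qq c t) ^ 2) volume := by
  have h1 : Integrable (fun t => ‖f t‖ ^ 2) volume := by
    exact (memLp_two_iff_integrable_sq_norm hf.aestronglyMeasurable).1 hf
  refine h1.mono' ?_ (Filter.Eventually.of_forall fun t => ?_)
  · exact h1.aestronglyMeasurable.mul ((qq_meas c).pow_const 2).aestronglyMeasurable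
  · rw [Real.norm_eq_abs, abs_of_nonneg (by positivity)]
    have := qq_bound c t
    have h2 : (qq c t) ^ 2 ≤ 1 := by
      rw [← sq_abs]; nlinarith [abs_nonneg (qq c t)]
    nlinarith [sq_nonneg ‖f t‖]

lemma cols (f : ℝ → ℂ) (hf : MemLp f 2 volume) (c : ℝ) :
    HasSum (fun m : ℤ => ∫ t in ((m : ℝ) + c - 1/2)..((m : ℝ) + c - 1/2 + 1),
      ‖f t‖ ^ 2 * (pp (t - ((m : ℝ) + c))) ^ 2) (∫ t, ‖f t‖ ^ 2 * (qq c t) ^ 2) := by
  have := (wt_integrable f hf c).hasSum_intervalIntegral (c - 1/2)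
  refine (congrArg (fun F => HasSum F _) (funext fun m => ?_)).mp this
  symm
  have e : c - 1/2 + (m : ℝ) = (m : ℝ) + c - 1/2 := by ring
  rw [e, intervalIntegral.integral_of_le (by linarith), intervalIntegral.integral_of_le (by linarith),
    integral_Ioc_eq_integral_Ioo, integral_Ioc_eq_integral_Ioo]
  refine setIntegral_congr_fun measurableSet_Ioo fun t ht => ?_
  congr 2
  unfold qq
  congr 1
  have : Int.fract (t - c + 1/2) = t - c + 1/2 - m := by
    rw [Int.fract_eq_iff]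
    refine ⟨by linarith [ht.1], by linarith [ht.2], m, by ring⟩
  rw [this]; ring

def Gam (c : ℝ) : Set (ℝ × ℝ) := Set.range (fun i : ℤ × ℤ => ((i.1 : ℝ) + c, (i.2 : ℝ)))

lemma par_inj (c : ℝ) : Function.Injective (fun i : ℤ × ℤ => (((i.1 : ℝ) + c, (i.2 : ℝ)) : ℝ × ℝ)) := by
  rintro ⟨a, b⟩ ⟨a', b'⟩ h
  simp only [Prod.mk.injEq, add_left_inj, Int.cast_inj] at h
  exact Prod.ext h.1 h.2

lemma hasSum_Gam (f : ℝ → ℂ) (hf : MemLp f 2 volume) (c : ℝ) :
    HasSum (fun γ : Gam c => FF f γ) (∫ t, ‖f t‖ ^ 2 * (qq c t) ^ 2) := by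
  have h1 : HasSum (fun i : ℤ × ℤ => FF f ((i.1 : ℝ) + c, (i.2 : ℝ)))
      (∫ t, ‖f t‖ ^ 2 * (qq c t) ^ 2) := by
    have hs : Summable (fun i : ℤ × ℤ => FF f ((i.1 : ℝ) + c, (i.2 : ℝ))) := by
      rw [summable_prod_of_nonneg (fun i => by unfold FF; positivity)]
      refine ⟨fun m => (row f hf ((m : ℝ) + c)).summable, ?_⟩
      refine (cols f hf c).summable.congr fun m => ?_
      exact (row f hf ((m : ℝ) + c)).tsum_eq.symm
    have h2 : HasSum (fun m : ℤ => ∫ t in ((m : ℝ) + c - 1/2)..((m : ℝ) + c - 1/2 + 1),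
      ‖f t‖ ^ 2 * (pp (t - ((m : ℝ) + c))) ^ 2) _ :=
      hs.hasSum.prod_fiberwise (fun m : ℤ => row f hf ((m : ℝ) + c))
    rw [← h2.unique (cols f hf c)]
    exact hs.hasSum
  exact (Equiv.ofInjective _ (par_inj c)).hasSum_iff.1 h1

lemma Gam_disj : Disjoint (Gam 0) (Gam (1/4)) := by
  rw [Set.disjoint_left]
  rintro _ ⟨⟨a, b⟩, rfl⟩ ⟨⟨a', b'⟩, h⟩
  simp only [Prod.mk.injEq] at h
  have h1 : ((4 * a' + 1 : ℤ) : ℝ) = ((4 * a : ℤ) : ℝ) := by push_cast; linarith [h.1]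
  have h2 : 4 * a' + 1 = 4 * a := by exact_mod_cast h1
  omega

lemma pp_low {u : ℝ} (h1 : 1/16 ≤ |u|) (h2 : |u| ≤ 7/16) : 1/10000 ≤ (pp u) ^ 2 := by
  unfold pp
  have a1 : 1/256 ≤ u ^ 2 := by rw [← sq_abs]; nlinarith
  have a2 : u ^ 2 ≤ 49/256 := by rw [← sq_abs]; nlinarith [abs_nonneg u]
  have a3 : (15/64) ^ 2 ≤ (1 - 4 * u ^ 2) ^ 2 := by
    apply pow_le_pow_left₀ (by norm_num); linarith
  rw [mul_pow]
  nlinarith

lemma qq_low (t : ℝ) : 1/10000 ≤ (qq 0 t) ^ 2 + (qq (1/4) t) ^ 2 := by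
  unfold qq
  set v := Int.fract (t - 0 + 1/2) with hv
  have v0 : 0 ≤ v := Int.fract_nonneg _
  have v1 : v < 1 := Int.fract_lt_one _
  have hfl : t - 0 + 1/2 = (⌊t - 0 + 1/2⌋ : ℝ) + v := (Int.floor_add_fract _).symm
  by_cases h : 1/16 ≤ |v - 1/2| ∧ |v - 1/2| ≤ 7/16
  · have := pp_low h.1 h.2
    nlinarith [sq_nonneg (pp (Int.fract (t - 1/4 + 1/2) - 1/2))]
  · have key : 1/10000 ≤ (pp (Int.fract (t - 1/4 + 1/2) - 1/2)) ^ 2 := by
      by_cases h4 : 1/4 ≤ v
      · have : Int.fract (t - 1/4 + 1/2) = v - 1/4 := by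
          rw [Int.fract_eq_iff]
          refine ⟨by linarith, by linarith, ⌊t - 0 + 1/2⌋, by linarith⟩
        rw [this]
        rcases not_and_or.1 h with h | h
        · rw [not_le, abs_lt] at h
          apply pp_low
          · rw [abs_of_neg (by linarith)]; linarith
          · rw [abs_of_neg (by linarith)]; linarith
        · rw [not_le, lt_abs] at h
          rcases h with h | h
          · apply pp_low
            · rw [abs_of_pos (by linarith)]; linarith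
            · rw [abs_of_pos (by linarith)]; linarith
          · linarith
      · have : Int.fract (t - 1/4 + 1/2) = v + 3/4 := by
          rw [Int.fract_eq_iff]
          refine ⟨by linarith, by linarith, ⌊t - 0 + 1/2⌋ - 1, by push_cast; linarith⟩
        rw [this]
        rcases not_and_or.1 h with h | h
        · rw [not_le, abs_lt] at h
          linarith
        · rw [not_le, lt_abs] at h
          rcases h with h | h
          · linarith
          · apply pp_low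
            · rw [abs_of_pos (by linarith)]; linarith
            · rw [abs_of_pos (by linarith)]; linarith
    nlinarith [sq_nonneg (pp (v - 1/2))]

lemma frame (f : ℝ → ℂ) (hf : MemLp f 2 volume) :
    Summable (fun γ : (Gam 0 ∪ Gam (1/4) : Set (ℝ × ℝ)) => FF f γ) ∧
    (1/10000 : ℝ) * (∫ t : ℝ, ‖f t‖ ^ 2) ≤ ∑' γ : (Gam 0 ∪ Gam (1/4) : Set (ℝ × ℝ)), FF f γ ∧
    ∑' γ : (Gam 0 ∪ Gam (1/4) : Set (ℝ × ℝ)), FF f γ ≤ 2 * (∫ t : ℝ, ‖f t‖ ^ 2) := by
  have h : HasSum (fun γ : (Gam 0 ∪ Gam (1/4) : Set (ℝ × ℝ)) => FF f γ) _ :=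
    HasSum.add_disjoint (f := FF f) Gam_disj (hasSum_Gam f hf 0) (hasSum_Gam f hf (1/4))
  have h1 : Integrable (fun t => ‖f t‖ ^ 2) volume := by
    exact (memLp_two_iff_integrable_sq_norm hf.aestronglyMeasurable).1 hf
  refine ⟨h.summable, ?_, ?_⟩
  · rw [h.tsum_eq, ← integral_add (wt_integrable f hf _) (wt_integrable f hf _), ← integral_const_mul]
    apply integral_mono (h1.const_mul _) ((wt_integrable f hf _).add (wt_integrable f hf _))
    intro t
    have := qq_low t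
    simp only [Pi.add_apply]
    nlinarith [sq_nonneg ‖f t‖]
  · rw [h.tsum_eq, ← integral_add (wt_integrable f hf _) (wt_integrable f hf _), ← integral_const_mul]
    apply integral_mono ((wt_integrable f hf _).add (wt_integrable f hf _)) (h1.const_mul _)
    intro t
    have a1 : (qq 0 t) ^ 2 ≤ 1 := by
      rw [← sq_abs]; nlinarith [abs_nonneg (qq 0 t), qq_bound 0 t]
    have a2 : (qq (1/4) t) ^ 2 ≤ 1 := by
      rw [← sq_abs]; nlinarith [abs_nonneg (qq (1/4) t), qq_bound (1/4) t]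
    simp only [Pi.add_apply]
    nlinarith [sq_nonneg ‖f t‖]

lemma box_eq (c a b R : ℝ) :
    Gam c ∩ (Ico a (a + R) ×ˢ Ico b (b + R)) =
      (fun i : ℤ × ℤ => (((i.1 : ℝ) + c, (i.2 : ℝ)) : ℝ × ℝ)) ''
        ((Finset.Ico ⌈a - c⌉ ⌈a - c + R⌉ ×ˢ Finset.Ico ⌈b⌉ ⌈b + R⌉ : Finset (ℤ × ℤ)) : Set (ℤ × ℤ)) := by
  ext γ
  simp only [Gam, mem_inter_iff, mem_range, mem_prod, mem_Ico, mem_image, Finset.coe_product,
    Finset.coe_Ico, Int.ceil_le, Int.lt_ceil]
  constructor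
  · rintro ⟨⟨i, rfl⟩, ⟨h1, h2⟩, h3, h4⟩
    exact ⟨i, ⟨⟨by linarith, by linarith⟩, h3, h4⟩, rfl⟩
  · rintro ⟨i, ⟨⟨h1, h2⟩, h3, h4⟩, rfl⟩
    exact ⟨⟨i, rfl⟩, ⟨by linarith, by linarith⟩, h3, h4⟩

lemma ico_card (a R : ℝ) (hR : 1 ≤ R) :
    R - 1 ≤ ((Finset.Ico ⌈a⌉ ⌈a + R⌉).card : ℝ) ∧ ((Finset.Ico ⌈a⌉ ⌈a + R⌉).card : ℝ) ≤ R + 1 := by
  have h1 : ⌈a⌉ ≤ ⌈a + R⌉ := Int.ceil_mono (by linarith)
  have h2 : (((Finset.Ico ⌈a⌉ ⌈a + R⌉).card : ℤ) : ℝ) = ((⌈a + R⌉ - ⌈a⌉ : ℤ) : ℝ) := by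
    rw [Int.card_Ico, Int.toNat_of_nonneg (by omega)]
  push_cast at h2
  rw [h2]
  constructor <;> linarith [Int.le_ceil a, Int.le_ceil (a + R), Int.ceil_lt_add_one a,
    Int.ceil_lt_add_one (a + R)]

lemma box_fin (c a b R : ℝ) : (Gam c ∩ (Ico a (a + R) ×ˢ Ico b (b + R))).Finite := by
  rw [box_eq]
  exact (Finset.finite_toSet _).image _

lemma box_card (c a b R : ℝ) (hR : 1 ≤ R) :
    (R - 1) ^ 2 ≤ ((Gam c ∩ (Ico a (a + R) ×ˢ Ico b (b + R))).ncard : ℝ) ∧
    ((Gam c ∩ (Ico a (a + R) ×ˢ Ico b (b + R))).ncard : ℝ) ≤ (R + 1) ^ 2 := by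
  rw [box_eq, Set.ncard_image_of_injective _ (par_inj c), Set.ncard_coe_finset, Finset.card_product]
  push_cast
  obtain ⟨h1, h2⟩ := ico_card (a - c) R hR
  obtain ⟨h3, h4⟩ := ico_card b R hR
  constructor
  · rw [pow_two]; apply mul_le_mul h1 h3 (by linarith) (by positivity)
  · rw [pow_two]; apply mul_le_mul h2 h4 (by positivity) (by linarith)

lemma box2_fin (a b R : ℝ) : ((Gam 0 ∪ Gam (1/4)) ∩ (Ico a (a + R) ×ˢ Ico b (b + R))).Finite := by
  rw [union_inter_distrib_right]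
  exact (box_fin _ _ _ _).union (box_fin _ _ _ _)

lemma box2_card (a b R : ℝ) (hR : 1 ≤ R) :
    2 * (R - 1) ^ 2 ≤ (((Gam 0 ∪ Gam (1/4)) ∩ (Ico a (a + R) ×ˢ Ico b (b + R))).ncard : ℝ) ∧
    (((Gam 0 ∪ Gam (1/4)) ∩ (Ico a (a + R) ×ˢ Ico b (b + R))).ncard : ℝ) ≤ 2 * (R + 1) ^ 2 := by
  rw [union_inter_distrib_right, Set.ncard_union_eq
    (Gam_disj.mono inter_subset_left inter_subset_left) (box_fin _ _ _ _) (box_fin _ _ _ _)]
  push_cast
  obtain ⟨h1, h2⟩ := box_card 0 a b R hR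
  obtain ⟨h3, h4⟩ := box_card (1/4) a b R hR
  constructor <;> linarith

lemma density :
    Filter.liminf (fun R : ℝ => ⨅ z : ℝ × ℝ,
        (((Gam 0 ∪ Gam (1/4)) ∩ (Set.Ico z.1 (z.1 + R) ×ˢ Set.Ico z.2 (z.2 + R))).ncard : ℝ) / R ^ 2)
      Filter.atTop = 2 := by
  apply Filter.Tendsto.liminf_eq
  have t0 : Filter.Tendsto (fun R : ℝ => R⁻¹) Filter.atTop (nhds 0) := tendsto_inv_atTop_zero
  have t1 : Filter.Tendsto (fun R : ℝ => 2 * (1 - R⁻¹) ^ 2) Filter.atTop (nhds 2) := by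
    have := (((t0.const_sub 1).pow 2).const_mul 2)
    simpa using this
  have t2 : Filter.Tendsto (fun R : ℝ => 2 * (1 + R⁻¹) ^ 2) Filter.atTop (nhds 2) := by
    have := (((t0.const_add 1).pow 2).const_mul 2)
    simpa using this
  refine tendsto_of_tendsto_of_tendsto_of_le_of_le' t1 t2 ?_ ?_
  · filter_upwards [Filter.eventually_ge_atTop (1 : ℝ)] with R hR
    apply le_ciInf
    intro z
    have := (box2_card z.1 z.2 R hR).1
    rw [le_div_iff₀ (by positivity)]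
    refine le_trans (le_of_eq ?_) this
    field_simp
  · filter_upwards [Filter.eventually_ge_atTop (1 : ℝ)] with R hR
    refine ciInf_le_of_le ⟨0, ?_⟩ ((0, 0) : ℝ × ℝ) ?_
    · rintro _ ⟨z, rfl⟩
      positivity
    · have := (box2_card (0:ℝ) 0 R hR).2
      rw [div_le_iff₀ (by positivity)]
      refine le_trans this (le_of_eq ?_)
      field_simp

end Pool.Agent.H15.GB
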