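import Mathlib
set_option autoImplicit false

namespace Pool.Agent.H15.GE

open Set

variable {V C : Type} (κ : V → V → C) (e : C)

def AH : Prop := ∀ (A : Set V) (f : V → V), (∀ x ∈ A, ∀ y ∈ A, κ (f x) (f y) = κ x y) →
  ∃ g : V ≃ V, (∀ x y, κ (g x) (g y) = κ x y) ∧ ∀ x ∈ A, g x = f x

variable {κ e}

theorem no_clique (sym : ∀ x y, κ x y = κ y x) (dg : ∀ x y, κ x y = e ↔ x = y) (h : AH κ)
    (k : ℕ → V) (c : C) (hc : c ≠ e) (hk : ∀ i j, i ≠ j → κ (k i) (k j) = c) : False := by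
  classical
  have inj : Function.Injective k := by
    intro i j p
    by_contra q
    exact hc ((hk i j q).symm.trans ((dg _ _).2 p))
  obtain ⟨M, hM, hmax⟩ := zorn_subset_nonempty {S : Set V | S.Pairwise fun x y => κ x y = c}
    (fun ch h1 h2 _ => ⟨⋃₀ ch, (pairwise_sUnion h2.directedOn).2 fun a ha => h1 ha,
      fun s hs => subset_sUnion_of_mem hs⟩) (range k) (by
      rintro _ ⟨i, rfl⟩ _ ⟨j, rfl⟩ p
      exact hk i j fun q => p (by rw [q]))
  let f : V → V := fun x => if p : ∃ i, k i = x then k (p.choose + 1) else x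
  have f1 : ∀ i, f (k i) = k (i + 1) := by
    intro i
    have p : ∃ j, k j = k i := ⟨i, rfl⟩
    simp only [f, dif_pos p]
    rw [inj p.choose_spec]
  have f2 : ∀ x, (¬ ∃ i, k i = x) → f x = x := fun x p => by simp only [f, dif_neg p]
  have f3 : ∀ x ∈ M, f x ∈ M ∧ f x ≠ k 0 := by
    intro x hx
    by_cases p : ∃ i, k i = x
    · obtain ⟨i, rfl⟩ := p
      rw [f1]
      exact ⟨hM ⟨_, rfl⟩, fun q => by have := inj q; omega⟩
    · rw [f2 x p]
      exact ⟨hx, fun q => p ⟨0, q.symm⟩⟩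
  have f4 : ∀ x y, f x = f y → x = y := by
    intro x y q
    by_cases p : ∃ i, k i = x <;> by_cases p' : ∃ i, k i = y
    · obtain ⟨i, rfl⟩ := p
      obtain ⟨j, rfl⟩ := p'
      rw [f1, f1] at q
      have := inj q
      rw [show i = j by omega]
    · obtain ⟨i, rfl⟩ := p
      rw [f1, f2 y p'] at q
      exact absurd ⟨_, q⟩ p'
    · obtain ⟨i, rfl⟩ := p'
      rw [f1, f2 x p] at q
      exact absurd ⟨_, q.symm⟩ p
    · rwa [f2 x p, f2 y p'] at q
  obtain ⟨g, g1, g2⟩ := h M f (by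
    intro x hx y hy
    by_cases p : x = y
    · rw [p, (dg _ _).2 rfl, (dg _ _).2 rfl]
    · rw [hmax.prop hx hy p, hmax.prop (f3 x hx).1 (f3 y hy).1 fun q => p (f4 x y q)])
  have hu : ∀ x ∈ M, κ (g.symm (k 0)) x = c := by
    intro x hx
    rw [← g1, g.apply_symm_apply, g2 x hx]
    exact hmax.prop (hM ⟨0, rfl⟩) (f3 x hx).1 (f3 x hx).2.symm
  have : insert (g.symm (k 0)) M ⊆ M := by
    refine hmax.le_of_ge ?_ (subset_insert _ _)
    exact hmax.prop.insert fun x hx _ => ⟨hu x hx, (sym _ _).trans (hu x hx)⟩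
  exact hc ((hu _ (this (mem_insert _ _))).symm.trans ((dg _ _).2 rfl))

theorem lists {S : Set V} (hS : S.Countable) : {l : List V | ∀ b ∈ l, b ∈ S}.Countable := by
  have := hS.to_subtype
  refine (countable_range (List.map (Subtype.val : S → V))).mono fun l hl => ?_
  exact ⟨l.attach.map fun b => ⟨b.1, hl b.1 b.2⟩, by simp [Function.comp_def]⟩

theorem closure [Countable C] [Nonempty V] (κ : V → V → C) : ∃ M : Set V, M.Countable ∧
    ∀ (w : V) (l : List V), (∀ b ∈ l, b ∈ M) → ∃ u ∈ M, ∀ b ∈ l, κ u b = κ w b := by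
  have h1 : ∀ (l : List V) (t : List C), ∃ u : V, (∃ w, l.map (κ w) = t) → l.map (κ u) = t := by
    intro l t
    by_cases p : ∃ w, l.map (κ w) = t
    · exact p.imp fun _ a _ => a
    · exact ⟨Classical.arbitrary V, fun q => absurd q p⟩
  choose pk hpk using h1
  let N : ℕ → Set V := fun n => Nat.rec ∅
    (fun _ S => S ∪ ⋃ l ∈ {l : List V | ∀ b ∈ l, b ∈ S}, range (pk l)) n
  have hN : ∀ n, N (n + 1) = N n ∪ ⋃ l ∈ {l : List V | ∀ b ∈ l, b ∈ N n}, range (pk l) :=
    fun n => rfl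
  have cn : ∀ n, (N n).Countable := by
    intro n
    induction n with
    | zero => exact countable_empty
    | succ n ih =>
      rw [hN]
      exact ih.union (Set.Countable.biUnion (lists ih) fun l _ => countable_range _)
  have mono : Monotone N := monotone_nat_of_le_succ fun n => by rw [hN]; exact subset_union_left
  refine ⟨⋃ n, N n, countable_iUnion cn, fun w l hl => ?_⟩
  have : ∃ n, ∀ b ∈ l, b ∈ N n := by
    induction l with
    | nil => exact ⟨0, by simp⟩
    | cons a l ih =>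
      obtain ⟨n, hn⟩ := ih fun b hb => hl b (List.mem_cons_of_mem _ hb)
      obtain ⟨m, hm⟩ := mem_iUnion.1 (hl a List.mem_cons_self)
      refine ⟨max n m, fun b hb => ?_⟩
      rcases List.mem_cons.1 hb with rfl | hb
      · exact mono (le_max_right _ _) hm
      · exact mono (le_max_left _ _) (hn b hb)
  obtain ⟨n, hn⟩ := this
  refine ⟨pk l (l.map (κ w)), mem_iUnion.2 ⟨n + 1, ?_⟩, ?_⟩
  · rw [hN]
    exact Or.inr (mem_biUnion (x := l) hn ⟨_, rfl⟩)
  · exact List.map_inj_left.1 (hpk l _ ⟨w, rfl⟩)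

theorem split (sym : ∀ x y, κ x y = κ y x) (dg : ∀ x y, κ x y = e ↔ x = y) (h : AH κ)
    {M : Set V} {w : V} (hw : w ∉ M)
    (hM : ∀ l : List V, (∀ b ∈ l, b ∈ M) → ∃ u ∈ M, ∀ b ∈ l, κ u b = κ w b)
    (l : List V) (hl : ∀ b ∈ l, b ∈ M) :
    ∃ a ∈ M, ∃ a' ∈ M, (∀ b ∈ l, κ a b = κ a' b) ∧ κ w a ≠ κ w a' := by
  by_contra hc
  push Not at hc
  have h1 : ∀ l : {l : List V // ∀ b ∈ l, b ∈ M}, ∃ u ∈ M, ∀ b ∈ l.1, κ u b = κ w b :=
    fun l => hM l.1 l.2
  choose pk p1 p2 using h1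
  let L : ℕ → {l : List V // ∀ b ∈ l, b ∈ M} := fun n => Nat.rec ⟨l, hl⟩
    (fun _ s => ⟨pk s :: s.1, fun b hb => by
      rcases List.mem_cons.1 hb with rfl | hb
      · exact p1 s
      · exact s.2 b hb⟩) n
  have hL : ∀ n, (L (n + 1)).1 = pk (L n) :: (L n).1 := fun n => rfl
  have sub : ∀ n m, n ≤ m → ∀ b ∈ (L n).1, b ∈ (L m).1 := by
    intro n m p
    induction p with
    | refl => exact fun _ q => q
    | step _ ih => exact fun b q => by rw [hL]; exact List.mem_cons_of_mem _ (ih b q)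
  have col : ∀ n, κ w (pk (L n)) = κ w (pk (L 0)) := fun n =>
    hc _ (p1 _) _ (p1 _) fun b hb =>
      (p2 _ b (sub 0 n (Nat.zero_le n) b hb)).trans (p2 (L 0) b hb).symm
  have lt : ∀ i j, i < j → κ (pk (L j)) (pk (L i)) = κ w (pk (L 0)) := fun i j p =>
    (p2 _ _ (sub (i + 1) j p _ (by rw [hL]; exact List.mem_cons_self))).trans (col i)
  refine no_clique sym dg h (fun n => pk (L n)) (κ w (pk (L 0)))
    (fun q => hw (by rw [(dg _ _).1 q]; exact p1 _)) fun i j p => ?_
  rcases lt_or_gt_of_ne p with q | q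
  · exact (sym _ _).trans (lt i j q)
  · exact lt j i q

theorem main [Countable C] (sym : ∀ x y, κ x y = κ y x) (dg : ∀ x y, κ x y = e ↔ x = y)
    (h : AH κ) [Uncountable V] : ∃ F : (ℕ → Bool) → V, Function.Injective F := by
  classical
  obtain ⟨M, Mc, hM⟩ := closure κ
  obtain ⟨w, hw⟩ : ∃ w, w ∉ M := by
    by_contra p
    push Not at p
    exact not_countable_univ (Mc.mono fun x _ => p x)
  let S := {s : List V × (V → V) // (∀ b ∈ s.1, b ∈ M) ∧ ∀ x y, κ (s.2 x) (s.2 y) = κ x y}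
  have st : ∀ s : S, ∃ t : Bool → S, (∀ i, ∀ b ∈ s.1.1, b ∈ (t i).1.1 ∧ (t i).1.2 b = s.1.2 b) ∧
      ∃ a ∈ (t false).1.1, ∃ a' ∈ (t true).1.1, (t false).1.2 a = (t true).1.2 a' ∧
        κ w a ≠ κ w a' := by
    rintro ⟨⟨l, g⟩, hl, hg⟩
    obtain ⟨a, ha, a', ha', p, q⟩ := split sym dg h hw (hM w) l hl
    have na : a' ∉ l := fun r => q (by rw [(dg _ _).1 ((p a' r).trans ((dg _ _).2 rfl))])
    obtain ⟨k, k1, k2⟩ := h {x | x = a' ∨ x ∈ l} (fun x => if x = a' then a else x) (by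
      rintro x (rfl | hx) y (rfl | hy)
      · rw [(dg _ _).2 rfl, (dg _ _).2 rfl]
      · have : y ≠ x := fun r => na (r ▸ hy)
        simp only [if_true, this, if_false]
        exact p y hy
      · have : x ≠ y := fun r => na (r ▸ hx)
        simp only [if_true, this, if_false]
        rw [sym, sym x y]
        exact p x hx
      · have h1 : x ≠ a' := fun r => na (r ▸ hx)
        have h2 : y ≠ a' := fun r => na (r ▸ hy)
        simp only [h1, h2, if_false])
    have m1 : ∀ u ∈ M, ∀ b ∈ u :: l, b ∈ M := fun u hu b hb => by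
      rcases List.mem_cons.1 hb with rfl | hb
      · exact hu
      · exact hl b hb
    refine ⟨fun i => Bool.rec ⟨(a :: l, g), m1 a ha, hg⟩
      ⟨(a' :: l, fun x => g (k x)), m1 a' ha', fun x y => (hg _ _).trans (k1 x y)⟩ i, ?_,
      a, List.mem_cons_self, a', List.mem_cons_self, ?_, q⟩
    · rintro (_ | _) b hb
      · exact ⟨List.mem_cons_of_mem _ hb, rfl⟩
      · refine ⟨List.mem_cons_of_mem _ hb, ?_⟩
        have : b ≠ a' := fun r => na (r ▸ hb)
        show g (k b) = g b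
        rw [k2 b (Or.inr hb)]
        simp only [this, if_false]
    · show g a = g (k a')
      rw [k2 a' (Or.inl rfl)]
      simp only [if_true]
  choose T T1 T2 using st
  let R : (ℕ → Bool) → ℕ → S := fun x n =>
    Nat.rec ⟨([], id), by simp, fun _ _ => rfl⟩ (fun n s => T s (x n)) n
  have hR : ∀ x n, R x (n + 1) = T (R x n) (x n) := fun x n => rfl
  have mono : ∀ x n m, n ≤ m → ∀ b ∈ (R x n).1.1, b ∈ (R x m).1.1 ∧ (R x m).1.2 b = (R x n).1.2 b := by
    intro x n m p
    induction p with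
    | refl => exact fun _ q => ⟨q, rfl⟩
    | step _ ih =>
      intro b q
      rw [hR]
      exact ⟨(T1 _ _ b (ih b q).1).1, (T1 _ _ b (ih b q).1).2.trans (ih b q).2⟩
  have loc : ∀ n x y, (∀ i < n, x i = y i) → R x n = R y n := by
    intro n
    induction n with
    | zero => intro x y _; rfl
    | succ n ih =>
      intro x y p
      rw [hR, hR, p n (Nat.lt_succ_self n), ih x y fun i hi => p i (Nat.lt_succ_of_lt hi)]
  have ex : ∀ x, ∃ g : V → V, (∀ u v, κ (g u) (g v) = κ u v) ∧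
      ∀ n, ∀ b ∈ (R x n).1.1, g b = (R x n).1.2 b := by
    intro x
    let f : V → V := fun b => if p : ∃ n, b ∈ (R x n).1.1 then (R x p.choose).1.2 b else b
    have hf : ∀ n, ∀ b ∈ (R x n).1.1, f b = (R x n).1.2 b := by
      intro n b hb
      have p : ∃ n, b ∈ (R x n).1.1 := ⟨n, hb⟩
      simp only [f, dif_pos p]
      rw [← (mono x _ _ (le_max_left p.choose n) b p.choose_spec).2,
        (mono x _ _ (le_max_right p.choose n) b hb).2]
    obtain ⟨g, g1, g2⟩ := h {b | ∃ n, b ∈ (R x n).1.1} f (by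
      rintro u ⟨n, hn⟩ v ⟨m, hm⟩
      rw [hf _ u (mono x _ _ (le_max_left n m) u hn).1,
        hf _ v (mono x _ _ (le_max_right n m) v hm).1]
      exact (R x _).2.2 u v)
    exact ⟨g, g1, fun n b hb => (g2 b ⟨n, hb⟩).trans (hf n b hb)⟩
  choose G G1 G2 using ex
  have key : ∀ x y n, R x n = R y n → x n = false → y n = true → G x w ≠ G y w := by
    intro x y n p q r s
    obtain ⟨a, ha, a', ha', u, v⟩ := T2 (R x n)
    have e1 := G2 x (n + 1) a (by rw [hR, q]; exact ha)
    have e2 := G2 y (n + 1) a' (by rw [hR, r, ← p]; exact ha')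
    rw [hR, q] at e1
    rw [hR, r, ← p] at e2
    apply v
    rw [← G1 x, ← G1 y w, s, e1, e2, u]
  refine ⟨fun x => G x w, fun x y s => ?_⟩
  by_contra ne
  have hex : ∃ n, x n ≠ y n := Function.ne_iff.1 ne
  have p := loc (Nat.find hex) x y fun i hi => not_not.1 (Nat.find_min hex hi)
  have q := Nat.find_spec hex
  cases hx : x (Nat.find hex) <;> cases hy : y (Nat.find hex)
  · exact q (hx.trans hy.symm)
  · exact key x y _ p hx hy s
  · exact key y x _ p.symm hy hx s.symm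
  · exact q (hx.trans hy.symm)

end Pool.Agent.H15.GE
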