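import Mathlib

set_option autoImplicit false

namespace Pool.Agent.H15.HB

open Finset PowerSeries

noncomputable def tr (n : ℕ) : ℂ⟦X⟧ →ₗ[ℂ] EuclideanSpace ℂ (Fin n) where
  toFun x := WithLp.toLp 2 fun k : Fin n => coeff (k : ℕ) x
  map_add' x y := by ext k; simp
  map_smul' c x := by ext k; simp

noncomputable def ν (n : ℕ) (x : ℂ⟦X⟧) : ℝ := ‖tr n x‖

lemma ν_nonneg (n : ℕ) (x : ℂ⟦X⟧) : 0 ≤ ν n x := norm_nonneg _

lemma ν_sq (n : ℕ) (x : ℂ⟦X⟧) : ν n x ^ 2 = ∑ k ∈ range n, ‖coeff k x‖ ^ 2 := by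
  unfold ν
  rw [EuclideanSpace.norm_sq_eq, ← Fin.sum_univ_eq_sum_range (fun k => ‖coeff k x‖ ^ 2)]
  rfl

lemma ν_add (n : ℕ) (x y : ℂ⟦X⟧) : ν n (x + y) ≤ ν n x + ν n y := by
  unfold ν; rw [map_add]; exact norm_add_le _ _

lemma ν_sum (n : ℕ) (s : Finset ℕ) (x : ℕ → ℂ⟦X⟧) :
    ν n (∑ j ∈ s, x j) ≤ ∑ j ∈ s, ν n (x j) := by
  unfold ν; rw [map_sum]; exact norm_sum_le _ _

lemma ν_smul (n : ℕ) (c : ℂ) (x : ℂ⟦X⟧) : ν n (c • x) = ‖c‖ * ν n x := by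
  unfold ν; rw [map_smul, norm_smul]

lemma ν_le_of_sq {n : ℕ} {x : ℂ⟦X⟧} {c : ℝ} (hc : 0 ≤ c)
    (h : ∑ k ∈ range n, ‖coeff k x‖ ^ 2 ≤ c ^ 2) : ν n x ≤ c := by
  rw [← ν_sq] at h
  exact (pow_le_pow_iff_left₀ (ν_nonneg _ _) hc two_ne_zero).1 h

lemma ν_congr {n : ℕ} {x y : ℂ⟦X⟧} (h : X ^ n ∣ x - y) : ν n x = ν n y := by
  unfold ν
  congr 1
  ext k
  have := X_pow_dvd_iff.1 h k k.2
  rw [map_sub, sub_eq_zero] at this
  simpa [tr] using this

lemma ν_shift (n p : ℕ) (x : ℂ⟦X⟧) : ν n (X ^ p * x) ≤ ν n x := by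
  apply ν_le_of_sq (ν_nonneg _ _)
  rw [ν_sq]
  calc ∑ k ∈ range n, ‖coeff k (X ^ p * x)‖ ^ 2
      ≤ ∑ k ∈ range (p + n), ‖coeff k (X ^ p * x)‖ ^ 2 :=
        Finset.sum_le_sum_of_subset_of_nonneg (range_subset_range.2 (by omega))
          fun _ _ _ => by positivity
    _ = ∑ k ∈ range n, ‖coeff k x‖ ^ 2 := by
        rw [Finset.sum_range_add, Finset.sum_eq_zero, zero_add]
        · apply Finset.sum_congr rfl
          intro k _
          rw [add_comm, coeff_X_pow_mul]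
        · intro k hk
          rw [coeff_X_pow_mul', if_neg (by simp at hk; omega)]; simp

lemma ν_one (n : ℕ) : ν n 1 ≤ 1 := by
  apply ν_le_of_sq zero_le_one
  cases n with
  | zero => simp
  | succ n => rw [Finset.sum_range_succ']; simp [coeff_one]

lemma ν_supp {N : ℕ} {x : ℂ⟦X⟧} (h : ∀ k, N ≤ k → coeff k x = 0) (n : ℕ) : ν n x ≤ ν N x := by
  apply ν_le_of_sq (ν_nonneg _ _)
  rw [ν_sq]
  calc ∑ k ∈ range n, ‖coeff k x‖ ^ 2 ≤ ∑ k ∈ range (N + n), ‖coeff k x‖ ^ 2 :=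
        Finset.sum_le_sum_of_subset_of_nonneg (range_subset_range.2 (by omega))
          fun _ _ _ => by positivity
    _ = _ := by
        rw [Finset.sum_range_add, Finset.sum_eq_zero (s := range n), add_zero]
        intro k _
        rw [h _ (by omega)]; simp

/-- the damping multiplier -/
noncomputable def w (p : ℕ) (ρ : ℝ) : ℂ⟦X⟧ := (1 - X ^ p) * (1 - (ρ : ℂ) • X ^ p)⁻¹

lemma w_eq {p : ℕ} (hp : 0 < p) (ρ : ℝ) : w p ρ = 1 - X ^ p + (ρ : ℂ) • (X ^ p * w p ρ) := by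
  have h : (1 - (ρ : ℂ) • X ^ p : ℂ⟦X⟧)⁻¹ * (1 - (ρ : ℂ) • X ^ p) = 1 := by
    apply PowerSeries.inv_mul_cancel
    rw [smul_eq_C_mul]
    simp [hp.ne']
  have : w p ρ * (1 - (ρ : ℂ) • X ^ p) = 1 - X ^ p := by
    unfold w; rw [mul_assoc, h, mul_one]
  rw [← this, mul_sub, mul_one, mul_smul_comm, mul_comm (X ^ p)]
  abel

lemma w_dvd {p : ℕ} (hp : 0 < p) (ρ : ℝ) : X ^ p ∣ w p ρ - 1 := by
  refine ⟨-1 + (ρ : ℂ) • w p ρ, ?_⟩
  conv_lhs => rw [w_eq hp ρ]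
  rw [mul_add, mul_smul_comm]; ring

lemma w_mul {p : ℕ} (hp : 0 < p) {ρ : ℝ} (h0 : 0 < ρ) (h1 : ρ < 1) (n : ℕ) (x : ℂ⟦X⟧) :
    ν n (w p ρ * x) ^ 2 ≤ 1 / ρ * ν n x ^ 2 := by
  obtain ⟨d, hd⟩ : ∃ d, d = w p ρ * x - x := ⟨_, rfl⟩
  have hrec : d = X ^ p * ((ρ : ℂ) • d - ((1 - ρ : ℝ) : ℂ) • x) := by
    have e : w p ρ * x = (1 - X ^ p + (ρ : ℂ) • (X ^ p * w p ρ)) * x := by rw [← w_eq hp ρ]
    rw [hd]
    conv_lhs => rw [e]
    simp only [smul_eq_C_mul]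
    push_cast
    simp only [map_sub, map_one]
    ring
  have hstep : ∀ k, ‖coeff k (w p ρ * x)‖ ^ 2 + 1 / (ρ * (1 - ρ))
      * ‖coeff k ((ρ : ℂ) • d - ((1 - ρ : ℝ) : ℂ) • x)‖ ^ 2
      ≤ 1 / ρ * ‖coeff k x‖ ^ 2 + 1 / (ρ * (1 - ρ)) * ‖coeff k d‖ ^ 2 := by
    intro k
    have e : coeff k (w p ρ * x) = coeff k x + coeff k d := by rw [hd, map_sub]; ring
    rw [e, map_sub, map_smul, map_smul]
    generalize coeff k x = a
    generalize coeff k d = b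
    simp only [Complex.sq_norm, Complex.normSq_apply, smul_eq_mul, Complex.add_re, Complex.add_im,
      Complex.sub_re, Complex.sub_im, Complex.re_ofReal_mul, Complex.im_ofReal_mul]
    have h2 : 0 < 1 - ρ := by linarith
    rw [← sub_nonneg]
    have : 1 / ρ * (a.re * a.re + a.im * a.im) + 1 / (ρ * (1 - ρ)) * (b.re * b.re + b.im * b.im) -
      ((a.re + b.re) * (a.re + b.re) + (a.im + b.im) * (a.im + b.im) +
        1 / (ρ * (1 - ρ)) * ((ρ * b.re - (1 - ρ) * a.re) * (ρ * b.re - (1 - ρ) * a.re) +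
          (ρ * b.im - (1 - ρ) * a.im) * (ρ * b.im - (1 - ρ) * a.im)))
        = 1 / ρ * (b.re ^ 2 + b.im ^ 2) := by field_simp; ring
    rw [this]; positivity
  have hsum := Finset.sum_le_sum (s := range n) fun k _ => hstep k
  rw [Finset.sum_add_distrib, Finset.sum_add_distrib, ← Finset.mul_sum, ← Finset.mul_sum,
    ← Finset.mul_sum, ← ν_sq, ← ν_sq, ← ν_sq, ← ν_sq] at hsum
  have h3 : ν n d ≤ ν n ((ρ : ℂ) • d - ((1 - ρ : ℝ) : ℂ) • x) := by
    conv_lhs => rw [hrec]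
    exact ν_shift _ _ _
  have h4 := pow_le_pow_left₀ (ν_nonneg _ _) h3 2
  have h5 : 0 < 1 / (ρ * (1 - ρ)) := by have : 0 < 1 - ρ := by linarith
                                        positivity
  nlinarith

lemma w_sub_one {p : ℕ} (hp : 0 < p) {ρ : ℝ} (h0 : 0 < ρ) (h1 : ρ < 1) (n : ℕ) :
    ν n (w p ρ - 1) ^ 2 ≤ 1 / ρ - 1 := by
  have h2 := w_mul hp h0 h1 (n+1) 1
  have h3 := pow_le_pow_left₀ (ν_nonneg _ _) (ν_one (n+1)) 2
  have h4 : ν (n+1) (w p ρ * 1) ^ 2 = ν (n+1) (w p ρ - 1) ^ 2 + 1 := by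
    have h5 := X_pow_dvd_iff.1 (w_dvd hp ρ) 0 hp
    rw [ν_sq, ν_sq, Finset.sum_range_succ', Finset.sum_range_succ', h5, mul_one]
    rw [map_sub, sub_eq_zero] at h5
    rw [h5]
    simp [coeff_one]
  have h6 : ν n (w p ρ - 1) ^ 2 ≤ ν (n+1) (w p ρ - 1) ^ 2 := by
    rw [ν_sq, ν_sq, Finset.sum_range_succ]
    have : 0 ≤ ‖coeff n (w p ρ - 1)‖ ^ 2 := by positivity
    linarith
  have h7 : 0 < 1 / ρ := by positivity
  nlinarith

lemma w_small {p : ℕ} (hp : 0 < p) {ρ : ℝ} (h0 : 0 < ρ) (n : ℕ) (x : ℂ⟦X⟧) :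
    (1 - ρ) * ν n (w p ρ * x) ≤ ν n (x - X ^ p * x) := by
  have e : w p ρ * x = (x - X ^ p * x) + (ρ : ℂ) • (X ^ p * (w p ρ * x)) := by
    conv_lhs => rw [w_eq hp ρ]
    simp only [smul_eq_C_mul]; ring
  have h1 := ν_add n (x - X ^ p * x) ((ρ : ℂ) • (X ^ p * (w p ρ * x)))
  rw [← e, ν_smul, Complex.norm_real, Real.norm_eq_abs, abs_of_pos h0] at h1
  have h2 := ν_shift n p (w p ρ * x)
  nlinarith

/-- slow bump -/
noncomputable def τ (K t : ℕ) : ℝ := ((min t (2 * K - t) : ℕ) : ℝ) / K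

noncomputable def ψ (N p K : ℕ) (M : ℂ) : ℂ⟦X⟧ :=
  PowerSeries.mk fun k => if N ≤ k ∧ p ∣ k - N then M * (τ K ((k - N) / p) : ℝ) else 0

lemma ψ_lt {N p K : ℕ} {M : ℂ} {k : ℕ} (h : k < N) : coeff k (ψ N p K M) = 0 := by
  simp [ψ, not_le.2 h]

lemma ψ_ge {N p K : ℕ} (hp : 0 < p) {M : ℂ} {k : ℕ} (h : N + 2 * p * K ≤ k) :
    coeff k (ψ N p K M) = 0 := by
  simp only [ψ, coeff_mk]
  split_ifs with h1
  · have : 2 * K ≤ (k - N) / p := by
      rw [Nat.le_div_iff_mul_le hp]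
      have : 2 * K * p = 2 * p * K := by ring
      omega
    have h2 : min ((k - N) / p) (2 * K - (k - N) / p) = 0 := by omega
    simp [τ, h2]
  · rfl

lemma ψ_mid {N p K : ℕ} (hp : 0 < p) (hK : 0 < K) (M : ℂ) :
    coeff (N + p * K) (ψ N p K M) = M := by
  have h2 : min K (2 * K - K) = K := by omega
  have : (K : ℝ) ≠ 0 := by positivity
  simp only [ψ, coeff_mk]
  rw [show N + p * K - N = p * K by omega, if_pos ⟨by omega, Dvd.intro K rfl⟩,
    Nat.mul_div_cancel_left _ hp, τ, h2, div_self this]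
  simp

lemma ψ_gap {N p K r : ℕ} (h0 : 0 < r) (h1 : r < p) (M : ℂ) :
    coeff (N + p * K + r) (ψ N p K M) = 0 := by
  simp only [ψ, coeff_mk]
  rw [if_neg]
  rintro ⟨_, h⟩
  rw [show N + p * K + r - N = p * K + r by omega] at h
  have := (Nat.dvd_add_right (Dvd.intro K rfl)).1 h
  exact absurd (Nat.le_of_dvd h0 this) (by omega)

lemma τ_diff {K : ℕ} (hK : 0 < K) (t : ℕ) : |τ K (t+1) - τ K t| ≤ 1 / K := by
  unfold τ
  have hK' : (0:ℝ) < K := by positivity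
  rw [← sub_div, abs_div, abs_of_pos hK']
  apply div_le_div_of_nonneg_right _ hK'.le
  have h1 : min (t+1) (2 * K - (t+1)) ≤ min t (2 * K - t) + 1 := by omega
  have h2 : min t (2 * K - t) ≤ min (t+1) (2 * K - (t+1)) + 1 := by omega
  have h1' : ((min (t+1) (2 * K - (t+1)) : ℕ) : ℝ) ≤ ((min t (2 * K - t) : ℕ) : ℝ) + 1 := by
    exact_mod_cast h1
  have h2' : ((min t (2 * K - t) : ℕ) : ℝ) ≤ ((min (t+1) (2 * K - (t+1)) : ℕ) : ℝ) + 1 := by
    exact_mod_cast h2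
  rw [abs_le]; constructor <;> linarith

lemma ψ_diff {N p K : ℕ} (hp : 0 < p) (hK : 0 < K) (M : ℂ) (k : ℕ) :
    ‖coeff k (ψ N p K M - X ^ p * ψ N p K M)‖ ≤ ‖M‖ / K := by
  have hK' : (0:ℝ) < K := by positivity
  rw [map_sub, coeff_X_pow_mul']
  by_cases h1 : N ≤ k ∧ p ∣ k - N
  · obtain ⟨t, ht⟩ := h1.2
    have hk : coeff k (ψ N p K M) = M * (τ K t : ℝ) := by
      simp only [ψ, coeff_mk]
      rw [if_pos h1, ht, Nat.mul_div_cancel_left _ hp]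
    rw [hk]
    cases t with
    | zero =>
      have : (if p ≤ k then coeff (k - p) (ψ N p K M) else 0) = 0 := by
        split_ifs with h
        · exact ψ_lt (by omega)
        · rfl
      rw [this]; simp [τ]; positivity
    | succ t =>
      have e : p * (t+1) = p * t + p := by ring
      rw [if_pos (by omega)]
      have hk2 : coeff (k - p) (ψ N p K M) = M * (τ K t : ℝ) := by
        simp only [ψ, coeff_mk]
        have e2 : k - p - N = p * t := by omega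
        rw [if_pos ⟨by omega, by rw [e2]; exact Dvd.intro t rfl⟩, e2,
          Nat.mul_div_cancel_left _ hp]
      rw [hk2, ← mul_sub, ← Complex.ofReal_sub, norm_mul, Complex.norm_real, Real.norm_eq_abs,
        div_eq_mul_one_div]
      exact mul_le_mul_of_nonneg_left (τ_diff hK t) (norm_nonneg _)
  · have hk : coeff k (ψ N p K M) = 0 := by simp only [ψ, coeff_mk]; rw [if_neg h1]
    have : (if p ≤ k then coeff (k - p) (ψ N p K M) else 0) = 0 := by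
      split_ifs with h
      · simp only [ψ, coeff_mk]
        rw [if_neg]
        rintro ⟨h2, t, ht⟩
        apply h1
        refine ⟨by omega, t + 1, ?_⟩
        have e : p * (t+1) = p * t + p := by ring
        omega
      · rfl
    rw [hk, this]; simp; positivity

lemma ψ_exists (N : ℕ) {p : ℕ} (hp : 0 < p) (M : ℂ) {θ : ℝ} (hθ : 0 < θ) :
    ∃ K, 0 < K ∧ ∀ n, ν n (ψ N p K M - X ^ p * ψ N p K M) ≤ θ := by
  obtain ⟨K, hK⟩ := exists_nat_gt ((N + 3 * p) * ‖M‖ ^ 2 / θ ^ 2)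
  have hK' : (0:ℝ) < K := lt_of_le_of_lt (by positivity) hK
  have hK0 : 0 < K := by exact_mod_cast hK'
  refine ⟨K, hK0, fun n => ?_⟩
  refine (ν_supp (N := N + 3 * p * K) ?_ n).trans ?_
  · intro k hk
    have h1 : p * 1 ≤ p * K := Nat.mul_le_mul_left p hK0
    have e1 : 3 * p * K = 3 * (p * K) := by ring
    have e2 : 2 * p * K = 2 * (p * K) := by ring
    rw [map_sub, coeff_X_pow_mul', ψ_ge hp (by omega), if_pos (by omega), ψ_ge hp (by omega)]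
    simp
  · apply ν_le_of_sq hθ.le
    calc ∑ k ∈ range (N + 3 * p * K), ‖coeff k (ψ N p K M - X ^ p * ψ N p K M)‖ ^ 2
        ≤ ∑ _k ∈ range (N + 3 * p * K), (‖M‖ / K) ^ 2 :=
          Finset.sum_le_sum fun k _ => pow_le_pow_left₀ (norm_nonneg _) (ψ_diff hp hK0 M k) 2
      _ = (N + 3 * p * K) * (‖M‖ / K) ^ 2 := by simp
      _ ≤ ((N + 3 * p) * K) * (‖M‖ / K) ^ 2 := by
          apply mul_le_mul_of_nonneg_right _ (by positivity)
          have : (1:ℝ) ≤ K := by exact_mod_cast hK0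
          have h2 : (0:ℝ) ≤ N := by positivity
          nlinarith
      _ = (N + 3 * p) * ‖M‖ ^ 2 / K := by field_simp
      _ ≤ θ ^ 2 := by
          rw [div_lt_iff₀ (by positivity)] at hK
          rw [div_le_iff₀ hK']; linarith

end Pool.Agent.H15.HB
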