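import Pool.Agent.H15.HB1

set_option autoImplicit false

namespace Pool.Agent.H15.HB

open Finset PowerSeries

noncomputable def s (j : ℕ) : ℝ := (1/2) ^ j / 16
lemma s_pos (j : ℕ) : 0 < s j := by unfold s; positivity
noncomputable def ρ (j : ℕ) : ℝ := 1 / (1 + s j ^ 2)
lemma ρ_pos (j : ℕ) : 0 < ρ j := by unfold ρ; positivity
lemma ρ_lt (j : ℕ) : ρ j < 1 := by
  unfold ρ; have := s_pos j; rw [div_lt_one (by positivity)]; nlinarith
lemma ρ_inv (j : ℕ) : 1 / ρ j = 1 + s j ^ 2 := by unfold ρ; simp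
lemma θ_pos (j : ℕ) : 0 < s j * (1 - ρ j) := mul_pos (s_pos j) (by linarith [ρ_lt j])

lemma s_sum (J l : ℕ) : ∑ i ∈ range l, s (J + i) ≤ 2 * s J - 2 * s (J + l) := by
  induction l with
  | zero => simp
  | succ l ih =>
    rw [Finset.sum_range_succ]
    have : s (J + (l+1)) = s (J + l) / 2 := by unfold s; rw [← add_assoc, pow_succ]; ring
    linarith

lemma s_sum' (J l : ℕ) : ∑ i ∈ range l, s (J + i) ≤ 2 * s J := by
  linarith [s_sum J l, s_pos (J + l)]

lemma s_le (J : ℕ) : s J ≤ 1 / 16 := by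
  unfold s
  have : ((1:ℝ)/2) ^ J ≤ 1 := pow_le_one₀ (by norm_num) (by norm_num)
  linarith

noncomputable def W (j : ℕ) : ℂ⟦X⟧ := w (j+1) (ρ j)

lemma prod_W_sq (J : ℕ) (t : Finset ℕ) (n : ℕ) (x : ℂ⟦X⟧) :
    ν n ((∏ i ∈ t, W (J + i)) * x) ^ 2 ≤ Real.exp (∑ i ∈ t, s (J + i)) * ν n x ^ 2 := by
  induction t using Finset.induction_on with
  | empty => simp
  | insert a t ha ih =>
    rw [Finset.prod_insert ha, Finset.sum_insert ha, mul_assoc, Real.exp_add, mul_assoc]
    refine (w_mul (by omega) (ρ_pos _) (ρ_lt _) n _).trans ?_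
    apply mul_le_mul _ ih (by positivity) (by positivity)
    rw [ρ_inv]
    have h1 := Real.add_one_le_exp (s (J + a))
    have h2 := s_pos (J + a)
    have h3 := s_le (J + a)
    nlinarith

lemma prod_W (J l : ℕ) (t : Finset ℕ) (ht : t ⊆ range l) (n : ℕ) (x : ℂ⟦X⟧) :
    ν n ((∏ i ∈ t, W (J + i)) * x) ≤ 2 * ν n x := by
  have h1 := prod_W_sq J t n x
  have h2 : ∑ i ∈ t, s (J + i) ≤ 1 := by
    refine (Finset.sum_le_sum_of_subset_of_nonneg ht fun i _ _ => (s_pos _).le).trans ?_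
    linarith [s_sum' J l, s_le J]
  have h3 : Real.exp (∑ i ∈ t, s (J + i)) ≤ 4 :=
    (Real.exp_le_exp.2 h2).trans (by linarith [Real.exp_one_lt_d9])
  have h4 : ν n ((∏ i ∈ t, W (J + i)) * x) ^ 2 ≤ (2 * ν n x) ^ 2 := by
    nlinarith [sq_nonneg (ν n x)]
  exact (pow_le_pow_iff_left₀ (ν_nonneg _ _) (by linarith [ν_nonneg n x]) two_ne_zero).1 h4

noncomputable def U (J l : ℕ) : ℂ⟦X⟧ := ∏ i ∈ range l, W (J + i)

lemma W_one (j n : ℕ) : ν n (W j - 1) ≤ s j := by
  have := w_sub_one (p := j+1) (by omega) (ρ_pos j) (ρ_lt j) n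
  rw [ρ_inv] at this
  exact (pow_le_pow_iff_left₀ (ν_nonneg _ _) (s_pos j).le two_ne_zero).1 (by unfold W; linarith)

lemma U_one (J l n : ℕ) : ν n (U J l - 1) ≤ 2 * ∑ i ∈ range l, s (J + i) := by
  induction l with
  | zero => simp [U, ν]
  | succ l ih =>
    have e : U J (l+1) - 1 = U J l * (W (J + l) - 1) + (U J l - 1) := by
      unfold U; rw [Finset.prod_range_succ]; ring
    rw [e, Finset.sum_range_succ]
    have h1 := ν_add n (U J l * (W (J + l) - 1)) (U J l - 1)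
    have h2 := prod_W J l (range l) subset_rfl n (W (J + l) - 1)
    have h3 := W_one (J + l) n
    unfold U at *
    linarith

lemma U_dvd (J l : ℕ) : X ^ l ∣ U J (l+1) - U J l := by
  have e : U J (l+1) - U J l = U J l * (W (J + l) - 1) := by
    unfold U; rw [Finset.prod_range_succ]; ring
  rw [e]
  exact Dvd.dvd.mul_left ((pow_dvd_pow X (by omega)).trans (w_dvd (p := J + l + 1) (by omega) _)) _

noncomputable def lim (F : ℕ → ℂ⟦X⟧) : ℂ⟦X⟧ := PowerSeries.mk fun k => coeff k (F (k+1))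

lemma lim_dvd {F : ℕ → ℂ⟦X⟧} (h : ∀ L, X ^ L ∣ F (L+1) - F L) (L : ℕ) : X ^ L ∣ lim F - F L := by
  have key : ∀ a b, a ≤ b → X ^ a ∣ F b - F a := by
    intro a b hab
    induction b, hab using Nat.le_induction with
    | base => simp
    | succ b hab ih =>
      have := ((pow_dvd_pow X hab).trans (h b)).add ih
      simpa using this
  rw [X_pow_dvd_iff]
  intro k hk
  have := X_pow_dvd_iff.1 (key (k+1) L hk) k (by omega)
  rw [map_sub, sub_eq_zero] at this ⊢
  rw [this]; simp [lim]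

structure St where
  Φ : ℂ⟦X⟧
  f : ℂ⟦X⟧
  N : ℕ

noncomputable def Mf (j : ℕ) (a : St) : ℂ :=
  -(starRingEnd ℂ (∑ n ∈ range a.N, starRingEnd ℂ (coeff n a.Φ) * coeff (j + n) a.f)) / (s j : ℝ)

noncomputable def Kf (j : ℕ) (a : St) : ℕ :=
  (ψ_exists a.N (p := j+1) (by omega) (Mf j a) (θ_pos j)).choose

lemma Kf_pos (j : ℕ) (a : St) : 0 < Kf j a :=
  (ψ_exists a.N (p := j+1) (by omega) (Mf j a) (θ_pos j)).choose_spec.1

noncomputable def st : ℕ → St
  | 0 => ⟨1, 1, 1⟩
  | j + 1 => ⟨(st j).Φ + ψ (st j).N (j+1) (Kf j (st j)) (Mf j (st j)),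
      (st j).f + ((s j : ℝ) : ℂ) • X ^ ((st j).N + (j+1) * Kf j (st j) + j),
      (st j).N + 2 * (j+1) * Kf j (st j)⟩

noncomputable def Ψ (j : ℕ) : ℂ⟦X⟧ := ψ (st j).N (j+1) (Kf j (st j)) (Mf j (st j))
noncomputable def nn (j : ℕ) : ℕ := (st j).N + (j+1) * Kf j (st j) + j

lemma Φ_succ (j : ℕ) : (st (j+1)).Φ = (st j).Φ + Ψ j := rfl
lemma f_succ (j : ℕ) : (st (j+1)).f = (st j).f + ((s j : ℝ) : ℂ) • X ^ nn j := rfl
lemma N_succ (j : ℕ) : (st (j+1)).N = (st j).N + 2 * (j+1) * Kf j (st j) := rfl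

lemma nn_bd (j : ℕ) : (st j).N + j < nn j ∧ nn j < (st (j+1)).N := by
  have h1 : (j+1) * 1 ≤ (j+1) * Kf j (st j) := Nat.mul_le_mul_left _ (Kf_pos j (st j))
  have e : 2 * (j+1) * Kf j (st j) = 2 * ((j+1) * Kf j (st j)) := by ring
  rw [N_succ, nn]
  omega

lemma N_ge (j : ℕ) : j + 1 ≤ (st j).N := by
  induction j with
  | zero => exact le_rfl
  | succ j ih => have := nn_bd j; omega

lemma WΨ (j n : ℕ) : ν n (W j * Ψ j) ≤ s j := by
  have h1 := w_small (p := j+1) (by omega) (ρ_pos j) n (Ψ j)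
  have h2 := (ψ_exists (st j).N (p := j+1) (by omega) (Mf j (st j)) (θ_pos j)).choose_spec.2 n
  have h3 : 0 < 1 - ρ j := by linarith [ρ_lt j]
  have h4 : (1 - ρ j) * ν n (W j * Ψ j) ≤ (1 - ρ j) * s j := by
    rw [mul_comm _ (s j)]; exact h1.trans h2
  exact le_of_mul_le_mul_left h4 h3

lemma supp (j : ℕ) : ∀ k, (st j).N ≤ k → coeff k (st j).Φ = 0 ∧ coeff k (st j).f = 0 := by
  induction j with
  | zero =>
    intro k hk
    have : k ≠ 0 := by have : 1 ≤ k := hk; omega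
    constructor <;> simp [st, coeff_one, this]
  | succ j ih =>
    intro k hk
    have h1 := nn_bd j
    obtain ⟨h2, h3⟩ := ih k (by omega)
    rw [Φ_succ, f_succ, map_add, map_add, h2, h3, map_smul, coeff_X_pow, if_neg (by omega), Ψ,
      ψ_ge (by omega) hk]
    simp

noncomputable def term (L m n : ℕ) : ℂ := starRingEnd ℂ (coeff n (st L).Φ) * coeff (m + n) (st L).f

lemma term_succ (L m n : ℕ) (hm : m ≤ L) : term (L+1) m n = term L m n
    + if m + n = nn L then starRingEnd ℂ (coeff n (Ψ L)) * (s L : ℝ) else 0 := by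
  have h1 := nn_bd L
  unfold term
  rw [Φ_succ, f_succ, map_add, map_add (coeff (m + n)), map_smul, coeff_X_pow]
  rcases lt_or_ge n (st L).N with h | h
  · rw [if_neg (by omega), if_neg (by omega), Ψ, ψ_lt h]; simp
  · rw [(supp L n h).1, (supp L (m + n) (by omega)).2]
    split_ifs <;> simp

lemma term_stable (L m n : ℕ) (hm : m < L) : term (L+1) m n = term L m n := by
  rw [term_succ L m n hm.le]
  split_ifs with h
  · have e : n = (st L).N + (L+1) * Kf L (st L) + (L - m) := by unfold nn at h; omega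
    rw [e, Ψ, ψ_gap (by omega) (by omega)]; simp
  · simp

lemma term_stable' (L m n : ℕ) (hm : m + 1 ≤ L) : term L m n = term (m+1) m n := by
  induction L, hm using Nat.le_induction with
  | base => rfl
  | succ L h ih => rw [term_stable L m n h, ih]

lemma term_sum (m N : ℕ) (hN : (st (m+1)).N ≤ N) : ∑ n ∈ range N, term (m+1) m n = 0 := by
  have h1 := nn_bd m
  simp only [term_succ m m _ le_rfl, Finset.sum_add_distrib]
  have e1 : ∑ n ∈ range N, term m m n = ∑ n ∈ range (st m).N, term m m n := by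
    symm
    apply Finset.sum_subset (range_subset_range.2 (by omega))
    intro k _ hk
    unfold term
    rw [(supp m k (by simpa using hk)).1]; simp
  rw [e1, Finset.sum_eq_single (s := range N) ((st m).N + (m+1) * Kf m (st m))]
  · rw [if_pos (by unfold nn; omega), Ψ, ψ_mid (by omega) (Kf_pos _ _), Mf]
    have : ((s m : ℝ) : ℂ) ≠ 0 := by exact_mod_cast (s_pos m).ne'
    simp only [term, map_div₀, map_neg, Complex.conj_conj, Complex.conj_ofReal]
    field_simp
    ring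
  · intro k _ hk
    rw [if_neg (by unfold nn; omega)]
  · intro h
    exfalso; apply h; rw [mem_range]; unfold nn at h1; omega

noncomputable def φ : ℂ⟦X⟧ := lim fun j => (st j).Φ
noncomputable def f : ℂ⟦X⟧ := lim fun j => (st j).f
noncomputable def u (J : ℕ) : ℂ⟦X⟧ := lim (U J)

lemma φ_dvd (L : ℕ) : X ^ L ∣ φ - (st L).Φ := by
  apply lim_dvd (F := fun j => (st j).Φ)
  intro L
  rw [Φ_succ, add_sub_cancel_left, X_pow_dvd_iff]
  intro k hk
  exact ψ_lt (by have := N_ge L; omega)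

lemma f_dvd (L : ℕ) : X ^ L ∣ f - (st L).f := by
  apply lim_dvd (F := fun j => (st j).f)
  intro L
  rw [f_succ, add_sub_cancel_left, smul_eq_C_mul]
  exact Dvd.dvd.mul_left (pow_dvd_pow X (by have := nn_bd L; omega)) _

lemma u_dvd (J l : ℕ) : X ^ l ∣ u J - U J l := lim_dvd (U_dvd J) l

lemma c_zero (m N : ℕ) (hN : (st (m+1)).N ≤ N) :
    ∑ n ∈ range N, starRingEnd ℂ (coeff n φ) * coeff (m + n) f = 0 := by
  rw [← term_sum m N hN]
  apply Finset.sum_congr rfl
  intro n _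
  rw [← term_stable' (m + n + 1) m n (by omega), term]
  have h1 := X_pow_dvd_iff.1 (φ_dvd (m + n + 1)) n (by omega)
  have h2 := X_pow_dvd_iff.1 (f_dvd (m + n + 1)) (m + n) (by omega)
  rw [map_sub, sub_eq_zero] at h1 h2
  rw [h1, h2]

lemma f_norm (n : ℕ) : ν n (f - 1) ≤ 1 / 8 := by
  have h : ∀ L, ν n ((st L).f - 1) ≤ ∑ i ∈ range L, s (0 + i) := by
    intro L
    induction L with
    | zero => simp [st, ν]
    | succ L ih =>
      rw [f_succ, Finset.sum_range_succ, add_sub_right_comm]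
      refine (ν_add _ _ _).trans (add_le_add ih ?_)
      rw [ν_smul, Complex.norm_real, Real.norm_eq_abs, abs_of_pos (s_pos L), zero_add]
      have := (ν_shift n (nn L) 1).trans (ν_one n)
      rw [mul_one] at this
      nlinarith [s_pos L]
  have h2 : ν n (f - 1) = ν n ((st n).f - 1) := ν_congr (by simpa using f_dvd n)
  rw [h2]
  linarith [h n, s_sum' 0 n, s_le 0]

lemma f_zero : coeff 0 (f - 1) = 0 := by
  have h := X_pow_dvd_iff.1 (f_dvd 1) 0 one_pos
  rw [map_sub, sub_eq_zero] at h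
  rw [map_sub, h, f_succ, map_add, map_smul, coeff_X_pow, if_neg (by have := nn_bd 0; omega)]
  simp [st]

lemma u_norm (J n : ℕ) : ν n (u J - 1) ≤ 4 * s J := by
  have h2 : ν n (u J - 1) = ν n (U J n - 1) := ν_congr (by simpa using u_dvd J n)
  rw [h2]
  linarith [U_one J n n, s_sum' J n]

lemma Φ_add (J l : ℕ) : (st (J + l)).Φ = (st J).Φ + ∑ i ∈ range l, Ψ (J + i) := by
  induction l with
  | zero => simp
  | succ l ih => rw [← add_assoc, Φ_succ, ih, Finset.sum_range_succ, add_assoc]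

lemma v_norm (J n : ℕ) : ν n (φ * u J - (st J).Φ * u J) ≤ 4 * s J := by
  have h2 : ν n (φ * u J - (st J).Φ * u J) = ν n (∑ i ∈ range n, U J n * Ψ (J + i)) := by
    apply ν_congr
    have h3 := (pow_dvd_pow X (by omega : n ≤ J + n)).trans (φ_dvd (J + n))
    have h4 := u_dvd J n
    rw [Φ_add] at h3
    rw [← Finset.mul_sum]
    generalize ∑ i ∈ range n, Ψ (J + i) = T at *
    have := (h3.mul_right (u J)).add (h4.mul_right T)
    convert this using 1
    ring
  rw [h2]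
  refine (ν_sum _ _ _).trans ?_
  have h5 : ∀ i ∈ range n, ν n (U J n * Ψ (J + i)) ≤ 2 * s (J + i) := by
    intro i hi
    unfold U
    rw [← Finset.prod_erase_mul _ _ hi, mul_assoc]
    refine (prod_W J n _ (Finset.erase_subset _ _) n _).trans ?_
    linarith [WΨ (J + i) n]
  refine (Finset.sum_le_sum h5).trans ?_
  rw [← Finset.mul_sum]
  linarith [s_sum' J n]

lemma v_bdd (J : ℕ) : ∃ C, ∀ n, ν n (φ * u J) ≤ C := by
  refine ⟨4 * s J + 2 * ν (st J).N (st J).Φ, fun n => ?_⟩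
  have h1 := ν_add n (φ * u J - (st J).Φ * u J) ((st J).Φ * u J)
  rw [sub_add_cancel] at h1
  have h2 : ν n ((st J).Φ * u J) = ν n (U J n * (st J).Φ) := by
    apply ν_congr
    rw [mul_comm, ← sub_mul]
    exact (u_dvd J n).mul_right _
  have h3 := prod_W J n (range n) subset_rfl n (st J).Φ
  have h4 := ν_supp (fun k hk => (supp J k hk).1) n
  have h5 := v_norm J n
  unfold U at h2
  linarith

lemma v_one (n : ℕ) : ν n (φ * u 0 - 1) ≤ 1 / 2 := by
  have h1 := ν_add n (φ * u 0 - (st 0).Φ * u 0) (u 0 - 1)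
  have e : φ * u 0 - (st 0).Φ * u 0 + (u 0 - 1) = φ * u 0 - 1 := by simp [st]
  rw [e] at h1
  linarith [v_norm 0 n, u_norm 0 n, s_le 0]

end Pool.Agent.H15.HB
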