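import Pool.Agent.H15.HB2

set_option autoImplicit false

namespace Pool.Agent.H15.HB

open Finset PowerSeries Filter Topology
open scoped InnerProductSpace

noncomputable abbrev L := lp (fun _ : ℕ => ℂ) 2
noncomputable abbrev H := WithLp 2 (L × L)

lemma mem2 {x : ℕ → ℂ} (h : Summable fun k => ‖x k‖ ^ 2) : Memℓp x 2 :=
  memℓp_gen (by simpa using h)

lemma summ (x : L) : Summable fun k => ‖x k‖ ^ 2 := by
  simpa using (memℓp_gen_iff (by norm_num)).1 (lp.memℓp x)

lemma nsq (x : L) : ‖x‖ ^ 2 = ∑' k, ‖x k‖ ^ 2 := by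
  simpa using lp.norm_rpow_eq_tsum (p := 2) (by norm_num) x

def sh (x : ℕ → ℂ) : ℕ → ℂ
  | 0 => 0
  | k + 1 => x k

noncomputable def S : L →ₗᵢ[ℂ] L where
  toFun x := ⟨sh x, mem2 ((summable_nat_add_iff 1).1 (summ x))⟩
  map_add' x y := by ext k; cases k <;> simp [sh]
  map_smul' c x := by ext k; cases k <;> simp [sh]
  norm_map' x := by
    apply (pow_left_inj₀ (norm_nonneg _) (norm_nonneg _) two_ne_zero).1
    rw [nsq, nsq, (summ _).tsum_eq_zero_add]
    simp [sh]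

@[simp] lemma S_zero (x : L) : S x 0 = 0 := rfl
@[simp] lemma S_succ (x : L) (k : ℕ) : S x (k+1) = x k := rfl

noncomputable def B (x : L) : L := ⟨fun k => x (k+1), mem2 ((summable_nat_add_iff 1).2 (summ x))⟩
@[simp] lemma B_apply (x : L) (k : ℕ) : B x k = x (k+1) := rfl

lemma inner_S (x y : L) : ⟪S x, y⟫_ℂ = ⟪x, B y⟫_ℂ := by
  have h := (lp.summable_inner (𝕜 := ℂ) (S x) y).tsum_eq_zero_add
  rw [lp.inner_eq_tsum, lp.inner_eq_tsum, h]
  simp only [S_zero, S_succ, B_apply, inner_zero_left, zero_add]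

lemma S_B {x : L} (h : x 0 = 0) : S (B x) = x := by
  ext k; cases k <;> simp [h]

lemma B_iter (N : ℕ) (x : L) (k : ℕ) : (B^[N] x) k = x (k + N) := by
  induction N generalizing k with
  | zero => rfl
  | succ N ih => rw [Function.iterate_succ_apply', B_apply, ih, show k + 1 + N = k + (N + 1) by omega]

lemma B_tendsto (x : L) : Tendsto (fun N => ‖B^[N] x‖ ^ 2) atTop (𝓝 0) := by
  simp only [nsq, B_iter]
  exact tendsto_sum_nat_add fun k => ‖x k‖ ^ 2

lemma S_iter (n : ℕ) (x : L) (k : ℕ) : (S^[n] x) k = if n ≤ k then x (k - n) else 0 := by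
  induction n generalizing k with
  | zero => simp
  | succ n ih =>
    rw [Function.iterate_succ_apply']
    cases k with
    | zero => simp
    | succ k => rw [S_succ, ih]; simp

lemma inner_S_iter (n : ℕ) (x y : L) : ⟪S^[n] x, y⟫_ℂ = ⟪x, B^[n] y⟫_ℂ := by
  induction n generalizing y with
  | zero => rfl
  | succ n ih => rw [Function.iterate_succ_apply', inner_S, ih, Function.iterate_succ_apply]

noncomputable def T : H →ₗᵢ[ℂ] H := S.withLpProdMap 2 S
noncomputable def BH (y : H) : H := WithLp.toLp 2 (B y.fst, B y.snd)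

lemma T_fst (x : H) : (T x).fst = S x.fst := rfl
lemma T_snd (x : H) : (T x).snd = S x.snd := rfl

lemma innerH (x y : H) : ⟪x, y⟫_ℂ = ⟪x.fst, y.fst⟫_ℂ + ⟪x.snd, y.snd⟫_ℂ := rfl

lemma inner_T (x y : H) : ⟪T x, y⟫_ℂ = ⟪x, BH y⟫_ℂ := by
  rw [innerH, innerH, T_fst, T_snd, inner_S, inner_S]; rfl

lemma T_iter (n : ℕ) (x : H) : (T^[n] x).fst = S^[n] x.fst ∧ (T^[n] x).snd = S^[n] x.snd := by
  induction n with
  | zero => exact ⟨rfl, rfl⟩
  | succ n ih => simp only [Function.iterate_succ_apply', T_fst, T_snd, ih.1, ih.2, and_self]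

lemma BH_iter (n : ℕ) (x : H) : (BH^[n] x).fst = B^[n] x.fst ∧ (BH^[n] x).snd = B^[n] x.snd := by
  induction n with
  | zero => exact ⟨rfl, rfl⟩
  | succ n ih =>
    simp only [Function.iterate_succ_apply', ← ih.1, ← ih.2]
    exact ⟨rfl, rfl⟩

lemma BH_tendsto (x : H) : Tendsto (fun N => ‖BH^[N] x‖) atTop (𝓝 0) := by
  have h := (B_tendsto x.fst).add (B_tendsto x.snd)
  have h2 : Tendsto (fun N => ‖BH^[N] x‖ ^ 2) atTop (𝓝 0) := by
    simp only [WithLp.prod_norm_sq_eq_of_L2, (BH_iter _ x).1, (BH_iter _ x).2]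
    simpa using h
  have := h2.sqrt
  simpa using this

noncomputable def ps (x : L) : ℂ⟦X⟧ := PowerSeries.mk x

lemma ps_S (x : L) : ps (S x) = X * ps x := by
  ext k; cases k with
  | zero => simp [ps]
  | succ k => simp [ps, coeff_succ_X_mul]

noncomputable def G (φ : ℂ⟦X⟧) : Submodule ℂ H where
  carrier := {x | ps x.snd = ps x.fst * φ}
  add_mem' := by
    intro x y hx hy
    have e : ∀ a b : L, ps (a + b) = ps a + ps b := fun a b => by ext k; simp [ps]
    simp only [Set.mem_ofPred_eq, WithLp.add_fst, WithLp.add_snd, e] at *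
    rw [hx, hy]; ring
  zero_mem' := by
    have e : ps 0 = 0 := by ext k; simp [ps]
    simp [e]
  smul_mem' := by
    intro c x hx
    have e : ∀ a : L, ps (c • a) = c • ps a := fun a => by ext k; simp [ps]
    simp only [Set.mem_ofPred_eq, WithLp.smul_fst, WithLp.smul_snd, e] at *
    rw [hx, smul_mul_assoc]

lemma mem_G {φ : ℂ⟦X⟧} {x : H} : x ∈ G φ ↔ ps x.snd = ps x.fst * φ := Iff.rfl

noncomputable def ev1 (k : ℕ) : H →L[ℂ] ℂ :=
  (lp.evalCLM ℂ (fun _ : ℕ => ℂ) 2 k).comp (WithLp.fstL 2 ℂ L L)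
noncomputable def ev2 (k : ℕ) : H →L[ℂ] ℂ :=
  (lp.evalCLM ℂ (fun _ : ℕ => ℂ) 2 k).comp (WithLp.sndL 2 ℂ L L)
lemma ev1_apply (k : ℕ) (x : H) : ev1 k x = x.fst k := rfl
lemma ev2_apply (k : ℕ) (x : H) : ev2 k x = x.snd k := rfl

noncomputable def G0 (φ : ℂ⟦X⟧) : Submodule ℂ H := G φ ⊓ LinearMap.ker (ev1 0 : H →ₗ[ℂ] ℂ)

lemma mem_G0 {φ : ℂ⟦X⟧} {x : H} : x ∈ G0 φ ↔ x ∈ G φ ∧ x.fst 0 = 0 := Iff.rfl

lemma G0_closed (φ : ℂ⟦X⟧) : IsClosed (G0 φ : Set H) := by
  have e : (G0 φ : Set H) = (⋂ n, {x : H | ev2 n x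
      = ∑ p ∈ antidiagonal n, ev1 p.1 x * coeff p.2 φ}) ∩ {x | ev1 0 x = 0} := by
    ext x
    simp only [SetLike.mem_coe, mem_G0, mem_G, Set.mem_inter_iff, Set.mem_iInter, Set.mem_ofPred_eq,
      ev1_apply, ev2_apply, PowerSeries.ext_iff, coeff_mul, ps, coeff_mk]
  rw [e]
  refine (isClosed_iInter fun n => isClosed_eq (by fun_prop) (by fun_prop)).inter
    (isClosed_eq (by fun_prop) continuous_const)

lemma T_mem {φ : ℂ⟦X⟧} {x : H} (h : x ∈ G φ) : T x ∈ G0 φ := by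
  refine ⟨?_, rfl⟩
  change ps (S x.snd) = ps (S x.fst) * φ
  rw [ps_S, ps_S, mem_G.1 h, mul_assoc]

lemma G0_BH {φ : ℂ⟦X⟧} {x : H} (h : x ∈ G0 φ) : T (BH x) = x ∧ BH x ∈ G φ := by
  obtain ⟨h1, h2⟩ := mem_G0.1 h
  have h3 : x.snd 0 = 0 := by
    have := congrArg (coeff 0) (mem_G.1 h1)
    simpa [ps, h2] using this
  have h4 : T (BH x) = x := by
    apply WithLp.ofLp_injective
    exact Prod.ext (S_B h2) (S_B h3)
  refine ⟨h4, ?_⟩
  have h5 := mem_G.1 h1
  rw [← S_B h2, ← S_B h3, ps_S, ps_S, mul_assoc] at h5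
  exact mul_left_cancel₀ X_ne_zero h5

lemma exists_e (φ : ℂ⟦X⟧) (x : H) (hx : x ∈ G φ) (h0 : x.fst 0 ≠ 0) :
    ∃ e ∈ G φ, ‖e‖ = 1 ∧ 0 < (e.fst 0).re ∧ (e.fst 0).im = 0 ∧ ∀ y ∈ G0 φ, ⟪e, y⟫_ℂ = 0 := by
  have : CompleteSpace (G0 φ) := (G0_closed φ).completeSpace_coe
  obtain ⟨w, hw, hw2⟩ := Submodule.HasOrthogonalProjection.exists_orthogonal (K := G0 φ)
    ((x.fst 0)⁻¹ • x)
  set v := (x.fst 0)⁻¹ • x - w with hv
  have hv0 : v.fst 0 = 1 := by
    have : w.fst 0 = 0 := (mem_G0.1 hw).2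
    simp [hv, this, h0]
  have hne : v ≠ 0 := by intro h; simp [h] at hv0
  have hn : 0 < ‖v‖ := norm_pos_iff.2 hne
  refine ⟨((‖v‖⁻¹ : ℝ) : ℂ) • v, (G φ).smul_mem _ ((G φ).sub_mem ((G φ).smul_mem _ hx) hw.1),
    ?_, ?_, ?_, ?_⟩
  · rw [norm_smul]; simp [hn.ne']
  · simp [hv0, hn]
  · simp [hv0]
  · intro y hy
    rw [inner_smul_left, Submodule.inner_left_of_mem_orthogonal hy hw2, mul_zero]

section pair
variable {φ : ℂ⟦X⟧} {e : H} (he : e ∈ G φ) (hn : ‖e‖ = 1) (h0 : e.fst 0 ≠ 0)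
  (ho : ∀ y ∈ G0 φ, ⟪e, y⟫_ℂ = 0)
include he hn h0 ho

omit hn in
lemma wold (y : H) (hy : ∀ j, ⟪T^[j] e, y⟫_ℂ = 0) (x : H) (hx : x ∈ G φ) : ⟪x, y⟫_ℂ = 0 := by
  have key : ∀ N, ∀ y : H, (∀ j, ⟪T^[j] e, y⟫_ℂ = 0) → ∀ x ∈ G φ,
      ‖⟪x, y⟫_ℂ‖ ≤ ‖x‖ * ‖BH^[N] y‖ := by
    intro N
    induction N with
    | zero => intro y _ x _; exact norm_inner_le_norm _ _
    | succ N ih =>
      intro y hy x hx
      set c := x.fst 0 / e.fst 0 with hc
      have h1 : x - c • e ∈ G0 φ := by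
        refine ⟨(G φ).sub_mem hx ((G φ).smul_mem _ he), ?_⟩
        change (x - c • e).fst 0 = 0
        simp [hc, h0]
      obtain ⟨h2, h3⟩ := G0_BH h1
      have h4 : ⟪x, y⟫_ℂ = ⟪BH (x - c • e), BH y⟫_ℂ := by
        rw [← inner_T, h2, inner_sub_left, inner_smul_left]
        have := hy 0
        simp only [Function.iterate_zero, id] at this
        rw [this]; simp
      have h5 : ‖BH (x - c • e)‖ ≤ ‖x‖ := by
        rw [← T.norm_map, h2]
        have h6 : ⟪c • e, x - c • e⟫_ℂ = 0 := by rw [inner_smul_left, ho _ h1, mul_zero]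
        have h7 := norm_add_sq_eq_norm_sq_add_norm_sq_of_inner_eq_zero _ _ h6
        rw [add_sub_cancel] at h7
        nlinarith [norm_nonneg x, norm_nonneg (x - c • e), mul_self_nonneg ‖c • e‖]
      rw [h4, Function.iterate_succ_apply]
      refine (ih (BH y) (fun j => ?_) _ h3).trans (mul_le_mul_of_nonneg_right h5 (norm_nonneg _))
      rw [← inner_T, ← hy (j+1), Function.iterate_succ_apply']
  have h1 := (BH_tendsto y).const_mul ‖x‖
  rw [mul_zero] at h1
  exact norm_le_zero_iff.1 (ge_of_tendsto' h1 fun N => key N y hy x hx)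

omit h0 in
lemma orthon : Orthonormal ℂ fun n => T^[n] e := by
  have hG : ∀ n, T^[n] e ∈ G φ := by
    intro n
    induction n with
    | zero => exact he
    | succ n ih => rw [Function.iterate_succ_apply']; exact (T_mem ih).1
  have hi : ∀ n x y, ⟪T^[n] x, T^[n] y⟫_ℂ = ⟪x, y⟫_ℂ := by
    intro n x y
    induction n with
    | zero => rfl
    | succ n ih => simp only [Function.iterate_succ_apply', T.inner_map_map, ih]
  have hlt : ∀ n m, n < m → ⟪T^[n] e, T^[m] e⟫_ℂ = 0 := by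
    intro n m h
    obtain ⟨d, rfl⟩ := Nat.exists_eq_add_of_lt h
    rw [add_assoc, Function.iterate_add_apply, hi, Function.iterate_succ_apply']
    exact ho _ (T_mem (hG d))
  constructor
  · intro n
    induction n with
    | zero => exact hn
    | succ n ih => simp only [Function.iterate_succ_apply', T.norm_map, ih]
  · intro n m h
    rcases lt_or_gt_of_ne h with h | h
    · exact hlt n m h
    · exact inner_eq_zero_symm.1 (hlt m n h)

omit h0 in
lemma exists_V (g : L) : ∃ z : H, ‖z‖ = ‖g‖ ∧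
    (∀ n, z.fst n = ∑ k ∈ range (n+1), e.fst k * g (n - k)) ∧
    (∀ n, z.snd n = ∑ k ∈ range (n+1), e.snd k * g (n - k)) := by
  have hO := (orthon he hn ho).orthogonalFamily
  have hs := hO.hasSum_linearIsometry g
  have aux : ∀ (a : L) (n : ℕ), HasSum (fun i => g i * (S^[i] a) n)
      (∑ k ∈ range (n+1), a k * g (n - k)) := by
    intro a n
    have : ∑ k ∈ range (n+1), a k * g (n - k) = ∑ i ∈ range (n+1), g i * (S^[i] a) n := by
      rw [← Finset.sum_range_reflect]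
      apply Finset.sum_congr rfl
      intro i hi
      have := mem_range.1 hi
      rw [S_iter, if_pos (by omega), mul_comm, show n + 1 - 1 - i = n - i by omega,
        show n - (n - i) = i by omega]
    rw [this]
    apply hasSum_sum_of_ne_finset_zero
    intro i hi
    rw [S_iter, if_neg (by simp at hi; omega), mul_zero]
  refine ⟨hO.linearIsometry g, LinearIsometry.norm_map _ _, fun n => ?_, fun n => ?_⟩
  · have h1 := (ev1 n).hasSum hs
    simp only [LinearIsometry.toSpanSingleton_apply, map_smul, smul_eq_mul, ev1_apply,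
      (T_iter _ e).1] at h1
    exact h1.unique (aux _ n)
  · have h1 := (ev2 n).hasSum hs
    simp only [LinearIsometry.toSpanSingleton_apply, map_smul, smul_eq_mul, ev2_apply,
      (T_iter _ e).2] at h1
    exact h1.unique (aux _ n)

end pair

end Pool.Agent.H15.HB
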