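import Pool.Agent.H15.HB3

set_option autoImplicit false

namespace Pool.Agent.H15.HB

open Finset PowerSeries Filter Topology
open scoped InnerProductSpace

set_option maxHeartbeats 200000 in
lemma ofν {x : ℂ⟦X⟧} {C : ℝ} (h : ∀ n, ν n x ≤ C) : ∃ y : L, (∀ k, y k = coeff k x) ∧ ‖y‖ ≤ C := by
  have hC : 0 ≤ C := (ν_nonneg 0 x).trans (h 0)
  have h1 : ∀ n, ∑ k ∈ range n, ‖coeff k x‖ ^ 2 ≤ C ^ 2 := fun n => by
    rw [← ν_sq]; exact pow_le_pow_left₀ (ν_nonneg _ _) (h n) 2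
  have h2 := summable_of_sum_range_le (fun k => by positivity) h1
  refine ⟨⟨fun k => coeff k x, mem2 h2⟩, fun k => rfl, ?_⟩
  apply (pow_le_pow_iff_left₀ (norm_nonneg _) hC two_ne_zero).1
  rw [nsq]
  exact Real.tsum_le_of_sum_range_le (fun k => by positivity) h1

set_option maxHeartbeats 200000 in
lemma innerL (x y : L) : ⟪x, y⟫_ℂ = ∑' n, y n * starRingEnd ℂ (x n) := by
  rw [lp.inner_eq_tsum]; rfl

lemma innerH1 (x : H) (y : L) : ⟪x, (WithLp.toLp 2 (y, 0) : H)⟫_ℂ = ⟪x.fst, y⟫_ℂ := by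
  rw [innerH]; simp only [WithLp.toLp_fst, WithLp.toLp_snd, inner_zero_right, add_zero]

lemma innerH2 (x : H) (y : L) : ⟪x, (WithLp.toLp 2 (0, y) : H)⟫_ℂ = ⟪x.snd, y⟫_ℂ := by
  rw [innerH]; simp only [WithLp.toLp_fst, WithLp.toLp_snd, inner_zero_right, zero_add]

set_option maxHeartbeats 200000 in
lemma delta : ∃ δ : L, (∀ k, δ k = coeff k (1 : ℂ⟦X⟧)) ∧ ‖δ‖ ≤ 1 ∧ ∀ y : L, ⟪δ, y⟫_ℂ = y 0 := by
  obtain ⟨δ, hδ, hδn⟩ := ofν ν_one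
  refine ⟨δ, hδ, hδn, fun y => ?_⟩
  rw [innerL, tsum_eq_single 0]
  · simp [hδ]
  · intro k hk; simp [hδ, coeff_one, hk]

set_option maxHeartbeats 200000 in
lemma dom {δ : L} (hδ : ∀ k, δ k = coeff k (1 : ℂ⟦X⟧)) (J : ℕ) :
    ∃ x ∈ G φ, (∀ k, x.snd k = coeff k (φ * u J)) ∧ ‖x.fst - δ‖ ≤ 4 * s J := by
  obtain ⟨r, hr, hrn⟩ := ofν (u_norm J)
  obtain ⟨C, hC⟩ := v_bdd J
  obtain ⟨v, hv, -⟩ := ofν hC
  refine ⟨WithLp.toLp 2 (r + δ, v), ?_, hv, ?_⟩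
  · rw [mem_G, WithLp.toLp_fst, WithLp.toLp_snd]
    have e1 : ps v = φ * u J := by ext k; rw [ps, coeff_mk, hv]
    have e2 : ps (r + δ) = u J := by
      ext k; rw [ps, coeff_mk, lp.coeFn_add, Pi.add_apply, hr, hδ, map_sub, sub_add_cancel]
    rw [e1, e2, mul_comm]
  · rw [WithLp.toLp_fst, add_sub_cancel_right]; exact hrn

set_option maxHeartbeats 200000 in
lemma conv_single (b : L) (j : ℕ) (t : ℂ) (n : ℕ) :
    ∑ k ∈ range (n+1), b k * (lp.single 2 j t : L) (n - k) = t * (S^[j] b) n := by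
  simp only [S_iter, lp.single_apply]
  split_ifs with h
  · rw [Finset.sum_eq_single (n - j)]
    · rw [show n - (n - j) = j by omega]; simp [mul_comm]
    · intro k hk hk2
      have := mem_range.1 hk
      rw [Pi.single_eq_of_ne (by omega), mul_zero]
    · intro h2; exfalso; apply h2; rw [mem_range]; omega
  · rw [mul_zero]
    apply Finset.sum_eq_zero
    intro k _
    rw [Pi.single_eq_of_ne (by omega), mul_zero]

set_option maxHeartbeats 200000 in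
lemma perp (b F : L) (h : ∀ g : ℕ → ℂ, Summable (fun n => ‖g n‖ ^ 2) →
    (∑' n, ‖F n + ∑ k ∈ Finset.range (n+1), b k * g (n-k)‖ ^ 2) - ∑' n, ‖g n‖ ^ 2
      ≤ ∑' m, ‖F m‖ ^ 2) (j : ℕ) : ⟪S^[j] b, F⟫_ℂ = 0 := by
  obtain ⟨t, ht⟩ : ∃ t, t = ⟪S^[j] b, F⟫_ℂ := ⟨_, rfl⟩
  have h1 := h (lp.single 2 j t : L) (summ _)
  simp only [conv_single] at h1
  generalize S^[j] b = β at *
  rw [← ht]
  have h2 : ∀ n, F n + t * β n = (F + t • β) n := fun n => by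
    rw [lp.coeFn_add, lp.coeFn_smul, Pi.add_apply, Pi.smul_apply, smul_eq_mul]
  simp only [h2] at h1
  rw [← nsq, ← nsq, ← nsq, lp.norm_single (by norm_num : (0:ENNReal) < 2),
    norm_add_sq (𝕜 := ℂ), inner_smul_right, ← inner_conj_symm, ← ht, Complex.mul_conj,
    Complex.normSq_eq_norm_sq] at h1
  simp only [RCLike.re_to_complex, Complex.ofReal_re] at h1
  have h3 : ‖t‖ ^ 2 ≤ 0 := by nlinarith [sq_nonneg ‖t • β‖]
  exact norm_eq_zero.1 (pow_eq_zero_iff two_ne_zero |>.1 (le_antisymm h3 (sq_nonneg _)))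

section pair
variable {φ : ℂ⟦X⟧} {e : H} (he : e ∈ G φ) (hn : ‖e‖ = 1) (h0 : e.fst 0 ≠ 0)
  (ho : ∀ y ∈ G0 φ, ⟪e, y⟫_ℂ = 0)
include he hn h0 ho

set_option maxHeartbeats 200000 in
omit h0 in
lemma iso (g : ℕ → ℂ) (hg : Summable (fun n => ‖g n‖ ^ 2)) :
      Summable (fun n => ‖∑ k ∈ Finset.range (n+1), e.fst k * g (n-k)‖ ^ 2) ∧
      Summable (fun n => ‖∑ k ∈ Finset.range (n+1), e.snd k * g (n-k)‖ ^ 2) ∧
      (∑' n, ‖∑ k ∈ Finset.range (n+1), e.fst k * g (n-k)‖ ^ 2) +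
        (∑' n, ‖∑ k ∈ Finset.range (n+1), e.snd k * g (n-k)‖ ^ 2) = ∑' n, ‖g n‖ ^ 2 := by
  obtain ⟨g', hg'⟩ : ∃ g' : L, ∀ k, g k = g' k := ⟨⟨g, mem2 hg⟩, fun _ => rfl⟩
  obtain ⟨z, hz, hz1, hz2⟩ := exists_V he hn ho g'
  simp only [hg', ← hz1, ← hz2]
  refine ⟨summ _, summ _, ?_⟩
  rw [← nsq, ← nsq, ← WithLp.prod_norm_sq_eq_of_L2, hz, nsq]

set_option maxHeartbeats 200000 in
omit hn in
lemma cyc {δ : L} (hδi : ∀ y : L, ⟪δ, y⟫_ℂ = y 0) (hx : ∀ J, ∃ x ∈ G φ, ‖x.fst - δ‖ ≤ 4 * s J)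
    (g : ℕ → ℂ) (hg : Summable (fun n => ‖g n‖ ^ 2))
    (hj : ∀ j : ℕ, ∑' n, e.fst n * starRingEnd ℂ (g (n + j)) = 0) : g = 0 := by
  obtain ⟨g', hg'⟩ : ∃ g' : L, ∀ k, g' k = g k := ⟨⟨g, mem2 hg⟩, fun _ => rfl⟩
  ext k
  have hz : ∀ j, ⟪T^[j] e, (WithLp.toLp 2 (B^[k] g', 0) : H)⟫_ℂ = 0 := by
    intro j
    rw [innerH1, (T_iter j e).1, inner_S_iter, ← Function.iterate_add_apply, inner_eq_zero_symm,
      innerL]
    simp only [B_iter, hg']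
    exact hj (j + k)
  have h1 : ∀ J, ‖g k‖ ≤ 4 * s J * ‖B^[k] g'‖ := by
    intro J
    obtain ⟨x, hxG, hxn⟩ := hx J
    have h4 := wold he h0 ho _ hz x hxG
    rw [innerH1] at h4
    have h5 := norm_inner_le_norm (𝕜 := ℂ) (x.fst - δ) (B^[k] g')
    rw [inner_sub_left, h4, hδi, B_iter, zero_add, hg', zero_sub, norm_neg] at h5
    exact h5.trans (mul_le_mul_of_nonneg_right hxn (norm_nonneg _))
  have h2 : Tendsto (fun J => 4 * s J * ‖B^[k] g'‖) atTop (𝓝 0) := by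
    have := (((tendsto_pow_atTop_nhds_zero_of_lt_one (r := (1/2 : ℝ)) (by norm_num)
      (by norm_num)).div_const 16).const_mul 4).mul_const ‖B^[k] g'‖
    rw [zero_div, mul_zero, zero_mul] at this
    exact this
  exact norm_le_zero_iff.1 (ge_of_tendsto' h2 h1)

set_option maxHeartbeats 200000 in
omit hn h0 ho in
lemma conv (n : ℕ) : ∑ k ∈ Finset.range (n+1), e.fst k * coeff (n-k) φ = e.snd n := by
  have := congrArg (coeff n) (mem_G.1 he)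
  rw [coeff_mul, Finset.Nat.sum_antidiagonal_eq_sum_range_succ_mk] at this
  simp only [ps, coeff_mk] at this
  exact this.symm

set_option maxHeartbeats 200000 in
omit hn in
lemma fail {δ q F : L} (hδi : ∀ y : L, ⟪δ, y⟫_ℂ = y 0) {x : H} (hx : x ∈ G φ)
    (e1 : x.snd = q + δ) (hq : ‖q‖ ≤ 1 / 2) (hF : ‖F‖ ≤ 9 / 8) (e2 : F 0 = 1)
    (h : ∀ j, ⟪S^[j] e.snd, F⟫_ℂ = 0) : False := by
  have hz : ∀ j, ⟪T^[j] e, (WithLp.toLp 2 (0, F) : H)⟫_ℂ = 0 := by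
    intro j
    rw [innerH2, (T_iter j e).2, h]
  have h4 := wold he h0 ho _ hz x hx
  rw [innerH2, e1, inner_add_left, hδi, e2] at h4
  have h5 := norm_inner_le_norm (𝕜 := ℂ) q F
  rw [eq_neg_of_add_eq_zero_left h4, norm_neg, norm_one] at h5
  nlinarith [norm_nonneg q, norm_nonneg F]

end pair

set_option maxHeartbeats 200000 in
theorem gen (φ f : ℂ⟦X⟧) (v : ℕ → ℂ⟦X⟧) (NN : ℕ → ℕ)
    (c_zero : ∀ m N, NN m ≤ N → ∑ n ∈ range N, starRingEnd ℂ (coeff n φ) * coeff (m + n) f = 0)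
    (dom : ∀ {δ : L}, (∀ k, δ k = coeff k (1 : ℂ⟦X⟧)) → ∀ J, ∃ x ∈ G φ,
      (∀ k, x.snd k = coeff k (v J)) ∧ ‖x.fst - δ‖ ≤ 4 * s J)
    (f_norm : ∀ n, ν n (f - 1) ≤ 1 / 8) (f_zero : coeff 0 (f - 1) = 0)
    (v_one : ∀ n, ν n (v 0 - 1) ≤ 1 / 2) :
    ¬ (∀ (a b φ : ℕ → ℂ),
    (∀ g : ℕ → ℂ, Summable (fun n => ‖g n‖ ^ 2) →
      Summable (fun n => ‖∑ k ∈ Finset.range (n+1), a k * g (n-k)‖ ^ 2) ∧
      Summable (fun n => ‖∑ k ∈ Finset.range (n+1), b k * g (n-k)‖ ^ 2) ∧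
      (∑' n, ‖∑ k ∈ Finset.range (n+1), a k * g (n-k)‖ ^ 2) +
        (∑' n, ‖∑ k ∈ Finset.range (n+1), b k * g (n-k)‖ ^ 2) = ∑' n, ‖g n‖ ^ 2) →
    (∀ g : ℕ → ℂ, Summable (fun n => ‖g n‖ ^ 2) →
      (∀ j : ℕ, ∑' n, a n * starRingEnd ℂ (g (n + j)) = 0) → g = 0) →
    0 < (a 0).re → (a 0).im = 0 →
    (∀ n, ∑ k ∈ Finset.range (n+1), a k * φ (n-k) = b n) →
    ∀ f c : ℕ → ℂ, Summable (fun n => ‖f n‖ ^ 2) →
      (∀ m, Filter.Tendsto (fun N => ∑ n ∈ Finset.range N, starRingEnd ℂ (φ n) * f (m+n))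
        Filter.atTop (nhds (c m))) →
      Summable (fun m => ‖c m‖ ^ 2) →
      IsLUB {x : ℝ | ∃ g : ℕ → ℂ, Summable (fun n => ‖g n‖ ^ 2) ∧
          x = (∑' n, ‖f n + ∑ k ∈ Finset.range (n+1), b k * g (n-k)‖ ^ 2) - ∑' n, ‖g n‖ ^ 2}
        ((∑' m, ‖f m‖ ^ 2) + ∑' m, ‖c m‖ ^ 2)) := by
  intro hall
  obtain ⟨δ, hδ, hδn, hδi⟩ := delta
  obtain ⟨x0, hx0, hx1, hx2⟩ := dom hδ 0
  have hx3 : x0.fst 0 ≠ 0 := by
    intro h
    have h1 := lp.norm_apply_le_norm (by norm_num) (x0.fst - δ) 0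
    rw [lp.coeFn_sub, Pi.sub_apply, h, hδ, coeff_zero_one, zero_sub, norm_neg, norm_one] at h1
    linarith [s_le 0]
  obtain ⟨e, he, hn, hre, him, ho⟩ := exists_e φ x0 hx0 hx3
  have h0 : e.fst 0 ≠ 0 := by intro h; rw [h] at hre; exact lt_irrefl _ hre
  obtain ⟨r, hr, hrn⟩ := ofν f_norm
  obtain ⟨F, hF⟩ : ∃ F : L, F = r + δ := ⟨_, rfl⟩
  have hFk : ∀ k, F k = coeff k f := fun k => by
    rw [hF, lp.coeFn_add, Pi.add_apply, hr, hδ, map_sub, sub_add_cancel]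
  have key := hall e.fst e.snd (fun n => coeff n φ) (iso he hn ho)
    (cyc he h0 ho hδi fun J => (dom hδ J).imp fun x hx => ⟨hx.1, hx.2.2⟩) hre him (conv he)
    F (fun _ => 0) (summ F) ?_ (by simp)
  · obtain ⟨q, hq, hqn⟩ := ofν v_one
    have e1 : x0.snd = q + δ := by
      ext k; rw [lp.coeFn_add, Pi.add_apply, hx1, hq, hδ, map_sub, sub_add_cancel]
    have e2 : F 0 = 1 := by
      have := f_zero
      rw [map_sub, sub_eq_zero] at this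
      rw [hFk, this, coeff_zero_one]
    have h6 : ‖F‖ ≤ 9 / 8 := by rw [hF]; linarith [norm_add_le r δ]
    refine fail he h0 ho hδi hx0 e1 hqn h6 e2 (perp e.snd F fun g hg => ?_)
    have := key.1 ⟨g, hg, rfl⟩
    rwa [norm_zero, zero_pow two_ne_zero, tsum_zero, add_zero] at this
  · intro m
    apply tendsto_const_nhds.congr'
    filter_upwards [eventually_ge_atTop (NN m)] with N hN
    simp only [hFk]
    exact (c_zero m N hN).symm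

theorem main :
    ¬ (∀ (a b φ : ℕ → ℂ),
    (∀ g : ℕ → ℂ, Summable (fun n => ‖g n‖ ^ 2) →
      Summable (fun n => ‖∑ k ∈ Finset.range (n+1), a k * g (n-k)‖ ^ 2) ∧
      Summable (fun n => ‖∑ k ∈ Finset.range (n+1), b k * g (n-k)‖ ^ 2) ∧
      (∑' n, ‖∑ k ∈ Finset.range (n+1), a k * g (n-k)‖ ^ 2) +
        (∑' n, ‖∑ k ∈ Finset.range (n+1), b k * g (n-k)‖ ^ 2) = ∑' n, ‖g n‖ ^ 2) →
    (∀ g : ℕ → ℂ, Summable (fun n => ‖g n‖ ^ 2) →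
      (∀ j : ℕ, ∑' n, a n * starRingEnd ℂ (g (n + j)) = 0) → g = 0) →
    0 < (a 0).re → (a 0).im = 0 →
    (∀ n, ∑ k ∈ Finset.range (n+1), a k * φ (n-k) = b n) →
    ∀ f c : ℕ → ℂ, Summable (fun n => ‖f n‖ ^ 2) →
      (∀ m, Filter.Tendsto (fun N => ∑ n ∈ Finset.range N, starRingEnd ℂ (φ n) * f (m+n))
        Filter.atTop (nhds (c m))) →
      Summable (fun m => ‖c m‖ ^ 2) →
      IsLUB {x : ℝ | ∃ g : ℕ → ℂ, Summable (fun n => ‖g n‖ ^ 2) ∧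
          x = (∑' n, ‖f n + ∑ k ∈ Finset.range (n+1), b k * g (n-k)‖ ^ 2) - ∑' n, ‖g n‖ ^ 2}
        ((∑' m, ‖f m‖ ^ 2) + ∑' m, ‖c m‖ ^ 2)) :=
  gen φ f (fun J => φ * u J) (fun m => (st (m+1)).N) c_zero dom f_norm f_zero v_one

end Pool.Agent.H15.HB
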