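import Mathlib

/-! One-dimensional integrals for the non-conjugate Hilbert inequality. -/

namespace Pool.Agent.H15.HI

open MeasureTheory Set Real Filter Topology
open scoped ENNReal

noncomputable def ph (x y : ℝ) : ℝ := √x / ((x + y) * √y)

noncomputable def G (x t : ℝ) : ℝ := 2 * arctan (√t / √x)

theorem ph_nonneg {x y : ℝ} (hx : 0 < x) (hy : 0 < y) : 0 ≤ ph x y := by
  unfold ph; positivity

theorem G_deriv {x y : ℝ} (hx : 0 < x) (hy : 0 < y) : HasDerivAt (G x) (ph x y) y := by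
  have h1 := ((Real.hasDerivAt_sqrt hy.ne').div_const √x).arctan.const_mul 2
  refine h1.congr_deriv ?_
  have a := Real.sqrt_pos.2 hx
  have b := Real.sqrt_pos.2 hy
  have ea : √x ^ 2 = x := Real.sq_sqrt hx.le
  have eb : √y ^ 2 = y := Real.sq_sqrt hy.le
  unfold ph
  rw [div_pow, ea, eb]
  field_simp
  rw [ea]

theorem G_cont (x : ℝ) : Continuous (G x) := by
  unfold G; fun_prop

theorem G_tendsto {x : ℝ} (hx : 0 < x) : Tendsto (G x) atTop (𝓝 π) := by
  have h1 : Tendsto (fun t : ℝ => √t / √x) atTop atTop :=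
    Real.tendsto_sqrt_atTop.atTop_div_const (Real.sqrt_pos.2 hx)
  have h2 := ((tendsto_arctan_atTop.mono_right nhdsWithin_le_nhds).comp h1).const_mul 2
  have e : 2 * (π / 2) = π := by ring
  rw [e] at h2
  exact h2

theorem ph_intOn {x s : ℝ} (hx : 0 < x) (hs : 0 ≤ s) : IntegrableOn (ph x) (Ioi s) :=
  integrableOn_Ioi_deriv_of_nonneg (G_cont x).continuousWithinAt
    (fun _ hy => G_deriv hx (hs.trans_lt hy)) (fun _ hy => ph_nonneg hx (hs.trans_lt hy))
    (G_tendsto hx)

theorem int_Ioi {x s : ℝ} (hx : 0 < x) (hs : 0 ≤ s) : ∫ y in Ioi s, ph x y = π - G x s :=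
  integral_Ioi_of_hasDerivAt_of_nonneg (G_cont x).continuousWithinAt
    (fun _ hy => G_deriv hx (hs.trans_lt hy)) (fun _ hy => ph_nonneg hx (hs.trans_lt hy))
    (G_tendsto hx)

theorem int_Ioc {x s t : ℝ} (hx : 0 < x) (hs : 0 ≤ s) (hst : s ≤ t) :
    ∫ y in Ioc s t, ph x y = G x t - G x s := by
  have h := setIntegral_union (f := ph x) (μ := volume) (Ioc_disjoint_Ioi_same (a := s) (b := t))
    measurableSet_Ioi ((ph_intOn hx hs).mono_set Ioc_subset_Ioi_self) (ph_intOn hx (hs.trans hst))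
  rw [Ioc_union_Ioi_eq_Ioi hst, int_Ioi hx hs, int_Ioi hx (hs.trans hst)] at h
  linarith

theorem lint_Ioi {x s : ℝ} (hx : 0 < x) (hs : 0 ≤ s) (k : ℝ) (hk : 0 ≤ k) :
    ∫⁻ y in Ioi s, ENNReal.ofReal (k * ph x y) = ENNReal.ofReal (k * (π - G x s)) := by
  rw [← int_Ioi hx hs, ← integral_const_mul, ofReal_integral_eq_lintegral_ofReal
    ((ph_intOn hx hs).const_mul k)]
  exact (ae_restrict_iff' measurableSet_Ioi).2 (ae_of_all _ fun y hy =>
    mul_nonneg hk (ph_nonneg hx (hs.trans_lt hy)))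

theorem lint_Ioc {x s t : ℝ} (hx : 0 < x) (hs : 0 ≤ s) (hst : s ≤ t) (k : ℝ) (hk : 0 ≤ k) :
    ∫⁻ y in Ioc s t, ENNReal.ofReal (k * ph x y) = ENNReal.ofReal (k * (G x t - G x s)) := by
  rw [← int_Ioc hx hs hst, ← integral_const_mul, ofReal_integral_eq_lintegral_ofReal
    (((ph_intOn hx hs).mono_set Ioc_subset_Ioi_self).const_mul k)]
  exact (ae_restrict_iff' measurableSet_Ioc).2 (ae_of_all _ fun y hy =>
    mul_nonneg hk (ph_nonneg hx (hs.trans_lt hy.1)))

theorem G_zero (x : ℝ) : G x 0 = 0 := by simp [G]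

theorem G_nonneg {x t : ℝ} : 0 ≤ G x t := by
  unfold G
  have : 0 ≤ arctan (√t / √x) := arctan_nonneg.2 (by positivity)
  linarith

theorem G_le_pi {x t : ℝ} : G x t ≤ π := by
  unfold G
  have := arctan_lt_pi_div_two (√t / √x)
  linarith

theorem G_mono {x t x' t' : ℝ} (hx : 0 < x) (hx' : 0 < x') (ht' : 0 ≤ t') (h : t * x' ≤ t' * x) :
    G x t ≤ G x' t' := by
  unfold G
  have : √t / √x ≤ √t' / √x' := by
    rw [div_le_div_iff₀ (Real.sqrt_pos.2 hx) (Real.sqrt_pos.2 hx'), mul_comm √t, ← Real.sqrt_mul hx'.le,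
      ← Real.sqrt_mul ht']
    exact Real.sqrt_le_sqrt (by linarith)
  have := arctan_strictMono.monotone this
  linarith

theorem G11 : G 1 1 = π / 2 := by simp [G]; ring

theorem G13 : G 1 3 = 2 * π / 3 := by simp [G]; ring

theorem G31 : G 3 1 = π / 3 := by simp [G]; ring

noncomputable def sm (c x y : ℝ) : ℝ := if (x ≤ c ↔ y ≤ c) then 1 else 0

noncomputable def ind (c x : ℝ) : ℝ := if c / 3 < x ∧ x ≤ 3 * c then 1 else 0

theorem L1 {c x : ℝ} (hc : 0 < c) (hx : 0 < x) (k : ℝ) (hk : 0 ≤ k) :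
    ∫⁻ y in Ioi 0, ENNReal.ofReal (k * ((1 - sm c x y / 100) * ph x y)) ≤
      ENNReal.ofReal (k * (π * (1 - 1 / 200 - (1 - ind c x) / 600))) := by
  rw [← Ioc_union_Ioi_eq_Ioi hc.le, lintegral_union measurableSet_Ioi Ioc_disjoint_Ioi_same]
  have g0 := @G_nonneg x c
  have g1 := @G_le_pi x c
  by_cases hxc : x ≤ c
  · rw [setLIntegral_congr_fun measurableSet_Ioc
        (g := fun y => ENNReal.ofReal ((k * (99 / 100)) * ph x y)) (fun y hy => by
          simp only [sm, hxc, hy.2, if_true]; congr 1; ring),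
      setLIntegral_congr_fun measurableSet_Ioi
        (g := fun y => ENNReal.ofReal (k * ph x y)) (fun y hy => by
          have : ¬ y ≤ c := not_le.2 hy
          simp [sm, hxc, this]),
      lint_Ioc hx le_rfl hc.le _ (by positivity), lint_Ioi hx hc.le _ hk, G_zero,
      ← ENNReal.ofReal_add (by rw [sub_zero]; positivity) (mul_nonneg hk (by linarith))]
    refine ENNReal.ofReal_le_ofReal ?_
    have h1 : π / 2 ≤ G x c := G11 ▸ G_mono one_pos hx hc.le (by linarith)
    have : 99 / 100 * G x c + (π - G x c) ≤ π * (1 - 1 / 200 - (1 - ind c x) / 600) := by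
      unfold ind
      split_ifs with h
      · linarith
      · have h2 : x ≤ c / 3 := by
          by_contra hh; exact h ⟨not_le.1 hh, by linarith⟩
        have h3 : 2 * π / 3 ≤ G x c := G13 ▸ G_mono one_pos hx hc.le (by linarith)
        linarith
    nlinarith
  · rw [setLIntegral_congr_fun measurableSet_Ioc
        (g := fun y => ENNReal.ofReal (k * ph x y)) (fun y hy => by
          simp [sm, hxc, hy.2]),
      setLIntegral_congr_fun measurableSet_Ioi
        (g := fun y => ENNReal.ofReal ((k * (99 / 100)) * ph x y)) (fun y hy => by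
          have : ¬ y ≤ c := not_le.2 hy
          simp only [sm, hxc, this, if_true]; congr 1; ring),
      lint_Ioc hx le_rfl hc.le _ hk, lint_Ioi hx hc.le _ (by positivity), G_zero,
      ← ENNReal.ofReal_add (by rw [sub_zero]; positivity)
        (mul_nonneg (by positivity) (by linarith))]
    refine ENNReal.ofReal_le_ofReal ?_
    push Not at hxc
    have h1 : G x c ≤ π / 2 := G11 ▸ G_mono hx one_pos zero_le_one (by linarith)
    have : G x c + 99 / 100 * (π - G x c) ≤ π * (1 - 1 / 200 - (1 - ind c x) / 600) := by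
      unfold ind
      split_ifs with h
      · linarith
      · have h2 : 3 * c < x := by
          by_contra hh; exact h ⟨by linarith, not_lt.1 hh⟩
        have h3 : G x c ≤ π / 3 := G31 ▸ G_mono hx (by norm_num) zero_le_one (by linarith)
        linarith
    nlinarith

theorem L2 {c y : ℝ} (hc : 0 < c) (hy : 0 < y) (k : ℝ) (hk : 0 ≤ k) :
    ∫⁻ x in Ioi 0, ENNReal.ofReal (k * ((1 + ind c x / 600) * ph y x)) ≤
      ENNReal.ofReal (k * (π * (1 + 1 / 900))) := by
  have hc3 : 0 ≤ c / 3 := by positivity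
  have hc4 : c / 3 ≤ 3 * c := by linarith
  rw [← Ioc_union_Ioi_eq_Ioi hc3, lintegral_union measurableSet_Ioi Ioc_disjoint_Ioi_same,
    ← Ioc_union_Ioi_eq_Ioi hc4, lintegral_union measurableSet_Ioi Ioc_disjoint_Ioi_same]
  have g0 := @G_nonneg y (c / 3)
  have g1 := @G_le_pi y (3 * c)
  have g2 : G y (c / 3) ≤ G y (3 * c) := G_mono hy hy (by positivity) (by nlinarith)
  rw [setLIntegral_congr_fun measurableSet_Ioc
        (g := fun x => ENNReal.ofReal (k * ph y x)) (fun x hx => by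
          have : ¬ c / 3 < x := not_lt.2 hx.2
          simp [ind, this]),
    setLIntegral_congr_fun (s := Ioc (c / 3) (3 * c)) measurableSet_Ioc
        (g := fun x => ENNReal.ofReal ((k * (601 / 600)) * ph y x)) (fun x hx => by
          simp only [ind, hx.1, hx.2, and_self, if_true]; congr 1; ring),
    setLIntegral_congr_fun measurableSet_Ioi
        (g := fun x => ENNReal.ofReal (k * ph y x)) (fun x hx => by
          have : ¬ x ≤ 3 * c := not_le.2 hx
          simp [ind, this]),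
    lint_Ioc hy le_rfl hc3 _ hk, lint_Ioc hy hc3 hc4 _ (by positivity),
    lint_Ioi hy (by positivity) _ hk, G_zero,
    ← ENNReal.ofReal_add (mul_nonneg (by positivity) (by linarith)) (mul_nonneg hk (by linarith)),
    ← ENNReal.ofReal_add (by rw [sub_zero]; positivity) (add_nonneg
      (mul_nonneg (by positivity) (by linarith)) (mul_nonneg hk (by linarith)))]
  refine ENNReal.ofReal_le_ofReal ?_
  have : G y (3 * c) - G y (c / 3) ≤ 2 * π / 3 := by
    rcases le_total y c with h | h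
    · have h3 : π / 3 ≤ G y (c / 3) := G31 ▸ G_mono (by norm_num) hy hc3 (by linarith)
      linarith
    · have h3 : G y (3 * c) ≤ 2 * π / 3 := G13 ▸ G_mono hy one_pos (by norm_num) (by linarith)
      linarith
  nlinarith

theorem median (a : ℝ → ℝ) (ha : Measurable a) (ha0 : ∀ x, 0 ≤ a x)
    (h1 : ∫⁻ x in Ioi 0, ENNReal.ofReal (a x) = 1) :
    ∃ c : ℝ, 0 < c ∧ ∫⁻ x in Ioc 0 c, ENNReal.ofReal (a x) = ENNReal.ofReal (1 / 2) ∧
      ∫⁻ x in Ioi c, ENNReal.ofReal (a x) = ENNReal.ofReal (1 / 2) := by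
  have hi : IntegrableOn a (Ioi 0) := by
    refine ⟨ha.aestronglyMeasurable, ?_⟩
    rw [hasFiniteIntegral_iff_ofReal (ae_of_all _ ha0), h1]
    exact ENNReal.one_lt_top
  have hI : ∫ x in Ioi 0, a x = 1 := by
    rw [integral_eq_lintegral_of_nonneg_ae (ae_of_all _ ha0) ha.aestronglyMeasurable, h1]; simp
  have ht := intervalIntegral_tendsto_integral_Ioi 0 hi tendsto_id
  rw [hI] at ht
  obtain ⟨N, hN, hN0⟩ := ((ht.eventually (lt_mem_nhds (show (1:ℝ) / 2 < 1 by norm_num))).and
    (eventually_ge_atTop 0)).exists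
  have hc : ContinuousOn (fun b => ∫ x in (0:ℝ)..b, a x) (Icc 0 N) := by
    have := intervalIntegral.continuousOn_primitive_interval' (μ := volume) (f := a) (a := 0)
      (b₁ := 0) (b₂ := N) ((intervalIntegrable_iff_integrableOn_Ioc_of_le hN0).2
        (hi.mono_set Ioc_subset_Ioi_self)) left_mem_uIcc
    rwa [uIcc_of_le hN0] at this
  obtain ⟨c, hc1, hc2⟩ := intermediate_value_Icc hN0 hc
    (show (1:ℝ) / 2 ∈ Icc (∫ x in (0:ℝ)..0, a x) (∫ x in (0:ℝ)..N, a x) from
      ⟨by simp, hN.le⟩)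
  have hc0 : 0 < c := by
    rcases hc1.1.eq_or_lt with h | h
    · rw [← h] at hc2; norm_num at hc2
    · exact h
  simp only at hc2
  rw [intervalIntegral.integral_of_le hc0.le] at hc2
  have h := setIntegral_union (f := a) (μ := volume) (Ioc_disjoint_Ioi_same (a := 0) (b := c))
    measurableSet_Ioi (hi.mono_set Ioc_subset_Ioi_self) (hi.mono_set (Ioi_subset_Ioi hc0.le))
  rw [Ioc_union_Ioi_eq_Ioi hc0.le, hI, hc2] at h
  refine ⟨c, hc0, ?_, ?_⟩
  · rw [← hc2, ofReal_integral_eq_lintegral_ofReal (hi.mono_set Ioc_subset_Ioi_self)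
      (ae_of_all _ ha0)]
  · rw [show (1:ℝ) / 2 = ∫ x in Ioi c, a x by linarith, ofReal_integral_eq_lintegral_ofReal
      (hi.mono_set (Ioi_subset_Ioi hc0.le)) (ae_of_all _ ha0)]

end Pool.Agent.H15.HI
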