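import Pool.Agent.H15.HI1

/-! The constant `√π` is not sharp in the Hilbert-type inequality with `p = q = 4/3`. -/

namespace Pool.Agent.H15.HI

open MeasureTheory Set Real Filter Topology
open scoped ENNReal

theorem amgm {z u v w : ℝ} (hu : 0 ≤ u) (hv : 0 ≤ v) (hw : 0 ≤ w) (h : z ^ 4 ≤ u * v * w ^ 2) :
    z ≤ u / 4 + v / 4 + w / 2 := by
  have h1 : u * v ≤ ((u + v) / 2) ^ 2 := by nlinarith [sq_nonneg (u - v)]
  have h2 : (z ^ 2) ^ 2 ≤ ((u + v) / 2 * w) ^ 2 := by
    have := mul_le_mul_of_nonneg_right h1 (sq_nonneg w)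
    nlinarith
  have h3 := (abs_le_of_sq_le_sq' h2 (by positivity)).2
  have h4 : z ^ 2 ≤ (u / 4 + v / 4 + w / 2) ^ 2 := by nlinarith [sq_nonneg ((u + v) / 2 - w)]
  exact (abs_le_of_sq_le_sq' h4 (by positivity)).2

theorem ph_mul {x y : ℝ} (hx : 0 < x) (hy : 0 < y) : ph x y * ph y x = 1 / (x + y) ^ 2 := by
  have a := Real.sqrt_pos.2 hx
  have b := Real.sqrt_pos.2 hy
  unfold ph
  rw [add_comm y x]
  field_simp

theorem sm_cases (c x y : ℝ) : sm c x y = 0 ∨ sm c x y = 1 := by
  unfold sm; split_ifs <;> simp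

theorem ind_cases (c x : ℝ) : ind c x = 0 ∨ ind c x = 1 := by
  unfold ind; split_ifs <;> simp

theorem point {c x y A B z : ℝ} (hx : 0 < x) (hy : 0 < y) (hA : 0 ≤ A) (hB : 0 ≤ B)
    (h : z ^ 4 ≤ A ^ 3 * B ^ 3 / ((x + y) ^ 2 * π ^ 2)) :
    z ≤ B / (4 * π) * ((1 + ind c x / 600) * ph y x) +
      (A / (4 * π) * ((1 - sm c x y / 100) * ph x y) +
        A * ((1 + 1 / 10000 - ind c x / 1200) / 2) * B + A / 400 * (sm c x y * B)) := by
  have p1 := ph_nonneg hx hy
  have p2 := ph_nonneg hy hx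
  have hπ := pi_pos
  have hl : 1 ≤ (1 - sm c x y / 100) * (1 + ind c x / 600) *
      (1 + 1 / 10000 - ind c x / 1200 + sm c x y / 200) ^ 2 := by
    rcases sm_cases c x y with h1 | h1 <;> rcases ind_cases c x with h2 | h2 <;>
      rw [h1, h2] <;> norm_num
  have s1 : 0 ≤ 1 - sm c x y / 100 := by rcases sm_cases c x y with h1 | h1 <;> rw [h1] <;> norm_num
  have s2 : 0 ≤ 1 + ind c x / 600 := by rcases ind_cases c x with h1 | h1 <;> rw [h1] <;> norm_num
  have s3 : 0 ≤ 1 + 1 / 10000 - ind c x / 1200 + sm c x y / 200 := by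
    rcases sm_cases c x y with h1 | h1 <;> rcases ind_cases c x with h2 | h2 <;>
      rw [h1, h2] <;> norm_num
  have key := amgm (z := z) (u := A / π * ((1 - sm c x y / 100) * ph x y))
    (v := B / π * ((1 + ind c x / 600) * ph y x))
    (w := A * B * (1 + 1 / 10000 - ind c x / 1200 + sm c x y / 200))
    (by positivity) (by positivity) (by positivity) (by
      refine h.trans ?_
      have e : A / π * ((1 - sm c x y / 100) * ph x y) * (B / π * ((1 + ind c x / 600) * ph y x)) *
          (A * B * (1 + 1 / 10000 - ind c x / 1200 + sm c x y / 200)) ^ 2 =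
          A ^ 3 * B ^ 3 * (ph x y * ph y x) / π ^ 2 * ((1 - sm c x y / 100) * (1 + ind c x / 600) *
            (1 + 1 / 10000 - ind c x / 1200 + sm c x y / 200) ^ 2) := by
        field_simp
      rw [e, ph_mul hx hy]
      have e2 : A ^ 3 * B ^ 3 * (1 / (x + y) ^ 2) / π ^ 2 = A ^ 3 * B ^ 3 / ((x + y) ^ 2 * π ^ 2) := by
        field_simp
      rw [e2]
      exact le_mul_of_one_le_right (by positivity) hl)
  refine key.trans (le_of_eq ?_)
  field_simp
  ring

theorem meas_sm (c x : ℝ) : Measurable (sm c x) := by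
  unfold sm
  refine Measurable.ite ?_ measurable_const measurable_const
  by_cases h : x ≤ c
  · have : {y : ℝ | x ≤ c ↔ y ≤ c} = Iic c := by ext y; simp [h]
    rw [this]; exact measurableSet_Iic
  · have : {y : ℝ | x ≤ c ↔ y ≤ c} = Ioi c := by ext y; simp [h]
    rw [this]; exact measurableSet_Ioi

theorem meas_ind (c : ℝ) : Measurable (ind c) := by
  unfold ind
  exact Measurable.ite measurableSet_Ioc measurable_const measurable_const

theorem core (a b : ℝ → ℝ) (ha : Measurable a) (hb : Measurable b) (ha0 : ∀ x, 0 ≤ a x)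
    (hb0 : ∀ x, 0 ≤ b x) (ha1 : ∫⁻ x in Ioi 0, ENNReal.ofReal (a x) = 1)
    (hb1 : ∫⁻ x in Ioi 0, ENNReal.ofReal (b x) = 1) (z : ℝ → ℝ → ℝ)
    (hz : ∀ x y, 0 < x → 0 < y → z x y ^ 4 ≤ a x ^ 3 * b y ^ 3 / ((x + y) ^ 2 * π ^ 2)) :
    ∫⁻ x in Ioi 0, ∫⁻ y in Ioi 0, ENNReal.ofReal (z x y) ≤ ENNReal.ofReal (99999 / 100000) := by
  obtain ⟨c, hc, hm1, hm2⟩ := median a ha ha0 ha1
  have hπ := pi_pos
  set β1 := ∫⁻ y in Ioc 0 c, ENNReal.ofReal (b y) with hβ1
  set β2 := ∫⁻ y in Ioi c, ENNReal.ofReal (b y) with hβ2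
  have hβ : β1 + β2 = 1 := by
    rw [← hb1, ← Ioc_union_Ioi_eq_Ioi hc.le, lintegral_union measurableSet_Ioi Ioc_disjoint_Ioi_same]
  let T2 : ℝ → ℝ → ℝ≥0∞ := fun x y =>
    ENNReal.ofReal (b y / (4 * π) * ((1 + ind c x / 600) * ph y x))
  have hT2 : Measurable (Function.uncurry T2) := by
    have := meas_ind c
    simp only [T2, ph]
    refine ENNReal.measurable_ofReal.comp ?_
    fun_prop
  have h2 : ∫⁻ x in Ioi 0, ∫⁻ y in Ioi 0, T2 x y ≤ ENNReal.ofReal ((1 + 1 / 900) / 4) := by
    rw [lintegral_lintegral_swap hT2.aemeasurable]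
    calc _ ≤ ∫⁻ y in Ioi 0, ENNReal.ofReal ((1 + 1 / 900) / 4) * ENNReal.ofReal (b y) := by
          refine setLIntegral_mono' measurableSet_Ioi fun y hy => ?_
          refine (L2 hc hy _ (by have := hb0 y; positivity)).trans (le_of_eq ?_)
          rw [← ENNReal.ofReal_mul (by norm_num)]
          congr 1
          field_simp
      _ = _ := by rw [lintegral_const_mul' _ _ ENNReal.ofReal_ne_top, hb1, mul_one]
  have h4 : ∀ x, ∫⁻ y in Ioi 0, ENNReal.ofReal (sm c x y * b y) = if x ≤ c then β1 else β2 := by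
    intro x
    rw [← Ioc_union_Ioi_eq_Ioi hc.le, lintegral_union measurableSet_Ioi Ioc_disjoint_Ioi_same]
    split_ifs with hxc
    · rw [setLIntegral_congr_fun measurableSet_Ioc
          (g := fun y => ENNReal.ofReal (b y)) (fun y hy => by simp [sm, hxc, hy.2]),
        setLIntegral_congr_fun measurableSet_Ioi (g := fun _ => 0) (fun y hy => by
          have : ¬ y ≤ c := not_le.2 hy
          simp [sm, hxc, this])]
      simp [hβ1]
    · rw [setLIntegral_congr_fun measurableSet_Ioc
          (g := fun _ => 0) (fun y hy => by simp [sm, hxc, hy.2]),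
        setLIntegral_congr_fun measurableSet_Ioi (g := fun y => ENNReal.ofReal (b y)) (fun y hy => by
          have : ¬ y ≤ c := not_le.2 hy
          simp [sm, hxc, this])]
      simp [hβ2]
  have h3 : ∀ x ∈ Ioi (0:ℝ), ∫⁻ y in Ioi 0, ENNReal.ofReal (z x y) ≤ (∫⁻ y in Ioi 0, T2 x y) +
      (ENNReal.ofReal (3 / 4 - 1 / 800 - 1 / 2400 + 1 / 20000) * ENNReal.ofReal (a x) +
        ENNReal.ofReal (1 / 400) * (ENNReal.ofReal (a x) * if x ≤ c then β1 else β2)) := by
    intro x hx
    have hax := ha0 x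
    have s3 : 0 ≤ (1 + 1 / 10000 - ind c x / 1200) / 2 := by
      rcases ind_cases c x with h2 | h2 <;> rw [h2] <;> norm_num
    have s4 : 0 ≤ 1 - 1 / 200 - (1 - ind c x) / 600 := by
      rcases ind_cases c x with h2 | h2 <;> rw [h2] <;> norm_num
    calc _ ≤ ∫⁻ y in Ioi 0, (T2 x y + (ENNReal.ofReal (a x / (4 * π) * ((1 - sm c x y / 100) * ph x y))
          + ENNReal.ofReal (a x * ((1 + 1 / 10000 - ind c x / 1200) / 2)) * ENNReal.ofReal (b y)
          + ENNReal.ofReal (a x / 400) * ENNReal.ofReal (sm c x y * b y))) := by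
          refine setLIntegral_mono' measurableSet_Ioi fun y hy => ?_
          refine (ENNReal.ofReal_le_ofReal (point (c := c) hx hy hax (hb0 y) (hz x y hx hy))).trans ?_
          refine ENNReal.ofReal_add_le.trans (add_le_add le_rfl ?_)
          refine ENNReal.ofReal_add_le.trans (add_le_add (ENNReal.ofReal_add_le.trans
            (add_le_add le_rfl ?_)) ?_)
          · rw [ENNReal.ofReal_mul (by positivity)]
          · rw [ENNReal.ofReal_mul (by positivity)]
      _ ≤ _ := by
          have m2 : Measurable (T2 x) := hT2.of_uncurry_left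
          have m3 : Measurable fun y => ENNReal.ofReal (a x * ((1 + 1 / 10000 - ind c x / 1200) / 2))
              * ENNReal.ofReal (b y) := by fun_prop
          have m4 : Measurable fun y => ENNReal.ofReal (a x / 400)
              * ENNReal.ofReal (sm c x y * b y) := by have := meas_sm c x; fun_prop
          rw [lintegral_add_left m2, lintegral_add_right _ m4, lintegral_add_right _ m3,
            lintegral_const_mul' _ _ ENNReal.ofReal_ne_top,
            lintegral_const_mul' _ _ ENNReal.ofReal_ne_top, hb1, h4, mul_one]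
          refine add_le_add le_rfl (add_le_add ?_ (le_of_eq ?_))
          · refine (add_le_add (L1 hc hx _ (by positivity)) le_rfl).trans (le_of_eq ?_)
            rw [← ENNReal.ofReal_add (by positivity) (by positivity),
              ← ENNReal.ofReal_mul (by norm_num)]
            congr 1
            field_simp
            ring
          · rw [← mul_assoc, ← ENNReal.ofReal_mul (by norm_num)]
            congr 2
            ring
  refine (setLIntegral_mono' measurableSet_Ioi h3).trans ?_
  have m5 : Measurable fun x => ENNReal.ofReal (3 / 4 - 1 / 800 - 1 / 2400 + 1 / 20000)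
      * ENNReal.ofReal (a x) := by fun_prop
  have hβ1' : β1 ≠ ∞ := ne_top_of_le_ne_top ENNReal.one_ne_top (hβ ▸ le_self_add)
  have hβ2' : β2 ≠ ∞ := ne_top_of_le_ne_top ENNReal.one_ne_top (hβ ▸ le_add_self)
  have h5 : ∫⁻ x in Ioi 0, (ENNReal.ofReal (a x) * if x ≤ c then β1 else β2)
      = ENNReal.ofReal (1 / 2) := by
    rw [← Ioc_union_Ioi_eq_Ioi hc.le, lintegral_union measurableSet_Ioi Ioc_disjoint_Ioi_same,
      setLIntegral_congr_fun measurableSet_Ioc
          (g := fun x => ENNReal.ofReal (a x) * β1) (fun x hx => by simp [hx.2]),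
      setLIntegral_congr_fun measurableSet_Ioi (g := fun x => ENNReal.ofReal (a x) * β2)
        (fun x hx => by
          have : ¬ x ≤ c := not_le.2 hx
          simp [this]),
      lintegral_mul_const' _ _ hβ1', lintegral_mul_const' _ _ hβ2', hm1, hm2, ← mul_add, hβ, mul_one]
  rw [lintegral_add_left hT2.lintegral_prod_right, lintegral_add_left m5,
    lintegral_const_mul' _ _ ENNReal.ofReal_ne_top, lintegral_const_mul' _ _ ENNReal.ofReal_ne_top,
    ha1, h5, mul_one, ← ENNReal.ofReal_mul (by norm_num),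
    ← ENNReal.ofReal_add (by norm_num) (by norm_num)]
  refine (add_le_add h2 le_rfl).trans ?_
  rw [← ENNReal.ofReal_add (by norm_num) (by norm_num)]
  exact ENNReal.ofReal_le_ofReal (by norm_num)

end Pool.Agent.H15.HI
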