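import Pool.Agent.H15.HI2

/-! Integral and series forms. -/

namespace Pool.Agent.H15.HI

open MeasureTheory Set Real Filter Topology
open scoped ENNReal

theorem ae_zero {f : ℝ → ℝ} (hf : Measurable f) (hf0 : ∀ x, 0 ≤ f x)
    (h : ∫⁻ x in Ioi 0, ENNReal.ofReal (f x ^ (4 / 3 : ℝ)) = 0) :
    ∀ᵐ x ∂(volume.restrict (Ioi (0:ℝ))), f x = 0 := by
  rw [lintegral_eq_zero_iff (by fun_prop)] at h
  filter_upwards [h] with x hx
  simp only [Pi.zero_apply, ENNReal.ofReal_eq_zero] at hx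
  have h1 : f x ^ (4 / 3 : ℝ) = 0 := le_antisymm hx (Real.rpow_nonneg (hf0 x) _)
  exact (Real.rpow_eq_zero (hf0 x) (by norm_num)).1 h1

theorem intI (f g : ℝ → ℝ) (hf : Measurable f) (hg : Measurable g) (hf0 : ∀ x, 0 ≤ f x)
    (hg0 : ∀ x, 0 ≤ g x) :
    ∫⁻ x in Ioi 0, ∫⁻ y in Ioi 0, ENNReal.ofReal (f x * g y * (x + y) ^ (-(1 / 2) : ℝ)) ≤
      ENNReal.ofReal (99999 / 100000 * √π) *
        (∫⁻ x in Ioi 0, ENNReal.ofReal (f x ^ (4 / 3 : ℝ))) ^ (3 / 4 : ℝ) *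
        (∫⁻ y in Ioi 0, ENNReal.ofReal (g y ^ (4 / 3 : ℝ))) ^ (3 / 4 : ℝ) := by
  set α := ∫⁻ x in Ioi 0, ENNReal.ofReal (f x ^ (4 / 3 : ℝ)) with hα
  set β := ∫⁻ x in Ioi 0, ENNReal.ofReal (g x ^ (4 / 3 : ℝ)) with hβ
  have hπ := pi_pos
  by_cases hα0 : α = 0
  · rw [lintegral_congr_ae (g := fun _ => 0)]
    · simp
    · filter_upwards [ae_zero hf hf0 hα0] with x hx
      simp [hx]
  by_cases hβ0 : β = 0
  · have : ∀ x, ∫⁻ y in Ioi 0, ENNReal.ofReal (f x * g y * (x + y) ^ (-(1 / 2) : ℝ)) = 0 := by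
      intro x
      rw [lintegral_congr_ae (g := fun _ => 0)]
      · simp
      · filter_upwards [ae_zero hg hg0 hβ0] with y hy
        simp [hy]
    simp only [this]
    simp
  have hC : ENNReal.ofReal (99999 / 100000 * √π) ≠ 0 := by
    rw [Ne, ENNReal.ofReal_eq_zero, not_le]; positivity
  have hα0' : α ^ (3 / 4 : ℝ) ≠ 0 := by simp [hα0]; norm_num
  have hβ0' : β ^ (3 / 4 : ℝ) ≠ 0 := by simp [hβ0]; norm_num
  by_cases hα1 : α = ∞
  · rw [hα1, ENNReal.top_rpow_of_pos (by norm_num), ENNReal.mul_top hC, ENNReal.top_mul hβ0']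
    exact le_top
  by_cases hβ1 : β = ∞
  · rw [hβ1, ENNReal.top_rpow_of_pos (by norm_num), ENNReal.mul_top (mul_ne_zero hC hα0')]
    exact le_top
  obtain ⟨A, hA, hAe⟩ : ∃ A : ℝ, 0 < A ∧ α = ENNReal.ofReal A :=
    ⟨α.toReal, ENNReal.toReal_pos hα0 hα1, (ENNReal.ofReal_toReal hα1).symm⟩
  obtain ⟨B, hB, hBe⟩ : ∃ B : ℝ, 0 < B ∧ β = ENNReal.ofReal B :=
    ⟨β.toReal, ENNReal.toReal_pos hβ0 hβ1, (ENNReal.ofReal_toReal hβ1).symm⟩
  have norm1 : ∀ (f : ℝ → ℝ) (A : ℝ), 0 < A →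
      ∫⁻ x in Ioi 0, ENNReal.ofReal (f x ^ (4 / 3 : ℝ)) = ENNReal.ofReal A →
      ∫⁻ x in Ioi 0, ENNReal.ofReal (A⁻¹ * f x ^ (4 / 3 : ℝ)) = 1 := by
    intro f A hA h
    simp only [ENNReal.ofReal_mul (inv_nonneg.2 hA.le)]
    rw [lintegral_const_mul' _ _ ENNReal.ofReal_ne_top, h, ← ENNReal.ofReal_mul (inv_nonneg.2 hA.le),
      inv_mul_cancel₀ hA.ne', ENNReal.ofReal_one]
  set M := √π * A ^ (3 / 4 : ℝ) * B ^ (3 / 4 : ℝ) with hM
  have hM0 : 0 < M := by positivity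
  have p4 : ∀ t : ℝ, 0 ≤ t → (t ^ (4 / 3 : ℝ)) ^ 3 = t ^ 4 := by
    intro t ht
    rw [← Real.rpow_natCast, ← Real.rpow_mul ht, ← Real.rpow_natCast]; norm_num
  have p3 : ∀ t : ℝ, 0 ≤ t → (t ^ (3 / 4 : ℝ)) ^ 4 = t ^ 3 := by
    intro t ht
    rw [← Real.rpow_natCast, ← Real.rpow_mul ht, ← Real.rpow_natCast]; norm_num
  have key := core (fun x => A⁻¹ * f x ^ (4 / 3 : ℝ)) (fun x => B⁻¹ * g x ^ (4 / 3 : ℝ))
    (by fun_prop) (by fun_prop) (fun x => by have := hf0 x; positivity)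
    (fun x => by have := hg0 x; positivity) (norm1 f A hA hAe) (norm1 g B hB hBe)
    (fun x y => M⁻¹ * (f x * g y * (x + y) ^ (-(1 / 2) : ℝ))) (by
      intro x y hx hy
      have e1 : ((x + y) ^ (-(1 / 2) : ℝ)) ^ 4 = ((x + y) ^ 2)⁻¹ := by
        rw [← Real.rpow_natCast, ← Real.rpow_mul (by positivity), ← Real.rpow_natCast,
          ← Real.rpow_neg (by positivity)]
        norm_num
      have e2 : M ^ 4 = π ^ 2 * A ^ 3 * B ^ 3 := by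
        rw [hM, mul_pow, mul_pow, p3 A hA.le, p3 B hB.le, show √π ^ 4 = (√π ^ 2) ^ 2 by ring,
          Real.sq_sqrt hπ.le]
      simp only [mul_pow, inv_pow, e1, e2, p4 _ (hf0 x), p4 _ (hg0 y)]
      apply le_of_eq
      field_simp)
  have e3 : ∀ x y, ENNReal.ofReal (f x * g y * (x + y) ^ (-(1 / 2) : ℝ)) = ENNReal.ofReal M *
      ENNReal.ofReal (M⁻¹ * (f x * g y * (x + y) ^ (-(1 / 2) : ℝ))) := by
    intro x y
    rw [← ENNReal.ofReal_mul hM0.le, mul_inv_cancel_left₀ hM0.ne']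
  simp only [e3, lintegral_const_mul' _ _ (ENNReal.ofReal_ne_top (r := M))]
  refine (mul_le_mul_right key _).trans (le_of_eq ?_)
  rw [hAe, hBe, ENNReal.ofReal_rpow_of_pos hA, ENNReal.ofReal_rpow_of_pos hB,
    ← ENNReal.ofReal_mul hM0.le, ← ENNReal.ofReal_mul (by positivity),
    ← ENNReal.ofReal_mul (by positivity)]
  congr 1
  rw [hM]; ring

theorem lint_ceil (F : ℕ → ℝ≥0∞) : ∫⁻ x in Ioi (0:ℝ), F ⌈x⌉₊ = ∑' m : ℕ, F (m + 1) := by
  have e : Ioi (0:ℝ) = ⋃ m : ℕ, Ioc (m:ℝ) (m + 1) := by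
    ext x
    simp only [mem_Ioi, mem_iUnion, mem_Ioc]
    constructor
    · intro hx
      obtain ⟨k, hk⟩ : ∃ k, ⌈x⌉₊ = k + 1 :=
        Nat.exists_eq_succ_of_ne_zero (Nat.ceil_pos.2 hx).ne'
      have := (Nat.ceil_eq_iff (by omega)).1 hk
      exact ⟨k, by simpa using this.1, by simpa using this.2⟩
    · rintro ⟨m, h, _⟩
      exact (Nat.cast_nonneg m).trans_lt h
  rw [e, lintegral_iUnion (fun _ => measurableSet_Ioc)]
  · refine tsum_congr fun m => ?_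
    rw [setLIntegral_congr_fun measurableSet_Ioc (g := fun _ => F (m + 1)) (fun x hx => by
      have : ⌈x⌉₊ = m + 1 := (Nat.ceil_eq_iff (by omega)).2 ⟨by simpa using hx.1, by simpa using hx.2⟩
      simp [this])]
    simp
  · intro i j hij
    rcases lt_or_gt_of_ne hij with h | h
    · have : (i:ℝ) + 1 ≤ j := by exact_mod_cast h
      exact Ioc_disjoint_Ioc.2 (by simp [this])
    · have : (j:ℝ) + 1 ≤ i := by exact_mod_cast h
      exact Ioc_disjoint_Ioc.2 (by simp [this])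

theorem serS (a b : ℕ → ℝ) (ha : ∀ m, 0 ≤ a m) (hb : ∀ m, 0 ≤ b m) :
    ∑' m : ℕ, ∑' n : ℕ, ENNReal.ofReal (a (m + 1) * b (n + 1) *
      (((m + 1 : ℕ) : ℝ) + ((n + 1 : ℕ) : ℝ)) ^ (-(1 / 2) : ℝ)) ≤
      ENNReal.ofReal (99999 / 100000 * √π) *
        (∑' m : ℕ, ENNReal.ofReal (a (m + 1) ^ (4 / 3 : ℝ))) ^ (3 / 4 : ℝ) *
        (∑' n : ℕ, ENNReal.ofReal (b (n + 1) ^ (4 / 3 : ℝ))) ^ (3 / 4 : ℝ) := by
  have h := intI (fun x => a ⌈x⌉₊) (fun x => b ⌈x⌉₊)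
    ((measurable_from_top (f := a)).comp Nat.measurable_ceil)
    ((measurable_from_top (f := b)).comp Nat.measurable_ceil) (fun _ => ha _) (fun _ => hb _)
  rw [lint_ceil (fun m => ENNReal.ofReal (a m ^ (4 / 3 : ℝ))),
    lint_ceil (fun m => ENNReal.ofReal (b m ^ (4 / 3 : ℝ)))] at h
  refine le_trans ?_ h
  rw [← lint_ceil (fun m => ∑' n : ℕ, ENNReal.ofReal (a m * b (n + 1) *
      ((m : ℝ) + ((n + 1 : ℕ) : ℝ)) ^ (-(1 / 2) : ℝ)))]
  refine setLIntegral_mono' measurableSet_Ioi fun x hx => ?_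
  rw [← lint_ceil (fun n => ENNReal.ofReal (a ⌈x⌉₊ * b n *
      ((⌈x⌉₊ : ℝ) + (n : ℝ)) ^ (-(1 / 2) : ℝ)))]
  refine setLIntegral_mono' measurableSet_Ioi fun y hy => ENNReal.ofReal_le_ofReal ?_
  refine mul_le_mul_of_nonneg_left ?_ (mul_nonneg (ha _) (hb _))
  have hx' : 0 < x := hx
  have hy' : 0 < y := hy
  exact Real.rpow_le_rpow_of_nonpos (by positivity) (add_le_add (Nat.le_ceil x) (Nat.le_ceil y))
    (by norm_num)

theorem const_lt : 99999 / 100000 * √π < √π := by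
  have := Real.sqrt_pos.2 pi_pos
  linarith

end Pool.Agent.H15.HI
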