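import Mathlib
set_option autoImplicit false

namespace Pool.Agent.H15.IC

open Set

variable {ι : Type} [LinearOrder ι]

def Pos (v : ι →₀ ℚ) : Prop := ∃ i, 0 < v i ∧ ∀ j, i < j → v j = 0

theorem Pos.asymm {v w : ι →₀ ℚ} (h : Pos (v - w)) (h' : Pos (w - v)) : False := by
  obtain ⟨i, a, b⟩ := h
  obtain ⟨j, c, d⟩ := h'
  simp only [Finsupp.sub_apply] at a b c d
  rcases lt_trichotomy i j with e | e | e
  · linarith [b j e]
  · subst e; linarith
  · linarith [d i e]

theorem wo_countable [WellFoundedLT ι] (L : Set ι) (φ : ι → ℝ)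
    (h : ∀ i ∈ L, ∀ j ∈ L, i < j → φ i < φ j) : L.Countable := by
  have : ∀ i, ∃ q : ℚ, i ∈ L → φ i < q ∧ ∀ j ∈ L, i < j → q < φ j := by
    intro i
    by_cases hi : i ∈ L
    swap
    · exact ⟨0, fun k => absurd k hi⟩
    by_cases hn : {j | j ∈ L ∧ i < j}.Nonempty
    · obtain ⟨m, hm, hmin⟩ := WellFounded.has_min wellFounded_lt _ hn
      obtain ⟨q, a, b⟩ := exists_rat_btwn (h i hi m hm.1 hm.2)
      refine ⟨q, fun _ => ⟨a, fun j hj k => ?_⟩⟩
      rcases (not_lt.1 (hmin j ⟨hj, k⟩)).eq_or_lt with e | e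
      · rw [← e]; exact b
      · exact b.trans (h m hm.1 j hj e)
    · obtain ⟨q, a⟩ := exists_rat_gt (φ i)
      exact ⟨q, fun _ => ⟨a, fun j hj k => absurd ⟨j, hj, k⟩ hn⟩⟩
  choose q hq using this
  refine countable_of_injective_of_countable_image (f := q) ?_ (to_countable _)
  intro i hi j hj e
  rcases lt_trichotomy i j with k | k | k
  · have a := (hq i hi).2 j hj k
    have b := (hq j hj).1
    rw [e] at a
    linarith
  · exact k
  · have a := (hq j hj).2 i hi k
    have b := (hq i hi).1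
    rw [e] at b
    linarith

theorem key [WellFoundedLT ι] (n : ℕ) : ∀ (X : Set (ι →₀ ℚ)) (s : (ι →₀ ℚ) → ℝ),
    (∀ x ∈ X, x.support.card = n) → (∀ x ∈ X, ∀ y ∈ X, Pos (y - x) → s x < s y) →
    X.Countable := by
  classical
  induction n with
  | zero =>
    intro X s h _
    refine (countable_singleton 0).mono fun x hx => ?_
    have := h x hx
    rwa [Finset.card_eq_zero, Finsupp.support_eq_empty] at this
  | succ n ih =>
    intro X s h H
    let Y : ℚ → ι → Set (ι →₀ ℚ) := fun q i => {x | x ∈ X ∧ x i = q ∧ ∀ j, i < j → x j = 0}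
    have hY : ∀ q, q ≠ 0 → ∀ i, (Y q i).Countable := by
      intro q hq i
      have e : ∀ x ∈ Y q i, Finsupp.erase i x + Finsupp.single i q = x := by
        intro x hx
        rw [← hx.2.1]
        exact Finsupp.erase_add_single i x
      have := ih (Finsupp.erase i '' Y q i) (fun v => s (v + Finsupp.single i q)) (by
        rintro _ ⟨x, hx, rfl⟩
        rw [Finsupp.support_erase, Finset.card_erase_of_mem, h x hx.1]
        · rfl
        · rw [Finsupp.mem_support_iff, hx.2.1]; exact hq) (by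
        rintro _ ⟨x, hx, rfl⟩ _ ⟨y, hy, rfl⟩ k
        simp only [e x hx, e y hy]
        refine H x hx.1 y hy.1 ?_
        rw [← e x hx, ← e y hy, add_sub_add_right_eq_sub]
        exact k)
      refine (this.image fun v => v + Finsupp.single i q).mono fun x hx => ?_
      exact ⟨_, ⟨x, hx, rfl⟩, e x hx⟩
    have hL : ∀ q, q ≠ 0 → {i | (Y q i).Nonempty}.Countable := by
      intro q hq
      have : ∀ i, ∃ x, (Y q i).Nonempty → x ∈ Y q i := by
        intro i
        by_cases k : (Y q i).Nonempty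
        · exact ⟨k.some, fun _ => k.some_mem⟩
        · exact ⟨0, fun k' => absurd k' k⟩
      choose x hx using this
      rcases lt_or_gt_of_ne hq with hq | hq
      · refine wo_countable _ (fun i => - s (x i)) fun i hi j hj k => ?_
        refine neg_lt_neg (H _ (hx j hj).1 _ (hx i hi).1 ⟨j, ?_, fun l hl => ?_⟩)
        · rw [Finsupp.sub_apply, (hx j hj).2.1, (hx i hi).2.2 j k]; linarith
        · rw [Finsupp.sub_apply, (hx j hj).2.2 l hl, (hx i hi).2.2 l (k.trans hl), sub_zero]
      · refine wo_countable _ (fun i => s (x i)) fun i hi j hj k => ?_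
        refine H _ (hx i hi).1 _ (hx j hj).1 ⟨j, ?_, fun l hl => ?_⟩
        · rw [Finsupp.sub_apply, (hx j hj).2.1, (hx i hi).2.2 j k]; linarith
        · rw [Finsupp.sub_apply, (hx j hj).2.2 l hl, (hx i hi).2.2 l (k.trans hl), sub_zero]
    have hc : (⋃ q ∈ {q : ℚ | q ≠ 0}, ⋃ i ∈ {i | (Y q i).Nonempty}, Y q i).Countable :=
      (to_countable _).biUnion fun q hq => (hL q hq).biUnion fun i _ => hY q hq i
    refine hc.mono fun x hx => ?_
    have hne : x.support.Nonempty := by
      rw [← Finset.card_pos, h x hx]; exact Nat.succ_pos n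
    have hm : x ∈ Y (x (x.support.max' hne)) (x.support.max' hne) := by
      refine ⟨hx, rfl, fun j hj => ?_⟩
      by_contra k
      exact absurd (x.support.le_max' j (Finsupp.mem_support_iff.2 k)) (not_le.2 hj)
    simp only [mem_iUnion]
    exact ⟨_, Finsupp.mem_support_iff.1 (x.support.max'_mem hne), _, ⟨x, hm⟩, hm⟩

theorem key' [WellFoundedLT ι] (X : Set (ι →₀ ℚ)) (s : (ι →₀ ℚ) → ℝ)
    (H : ∀ x ∈ X, ∀ y ∈ X, Pos (y - x) → s x < s y) : X.Countable := by
  have : (⋃ n : ℕ, {x | x ∈ X ∧ x.support.card = n}).Countable :=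
    countable_iUnion fun n => key n _ s (fun x hx => hx.2) fun x hx y hy => H x hx.1 y hy.1
  refine this.mono fun x hx => ?_
  simp only [mem_iUnion]
  exact ⟨x.support.card, hx, rfl⟩

theorem main : ∃ f : ℝ → Fin 2, ∀ X : Set ℝ,
    (∃ c, ∀ x ∈ X, ∀ y ∈ X, x ≠ y → f |x - y| = c) → X.Countable := by
  classical
  let b := Module.Basis.ofVectorSpace ℚ ℝ
  obtain ⟨lo, wf⟩ := exists_wellFoundedLT (Module.Basis.ofVectorSpaceIndex ℚ ℝ)
  refine ⟨fun t => if Pos (b.repr t) then 0 else 1, ?_⟩
  rintro X ⟨c, hc⟩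
  refine countable_of_injective_of_countable_image (f := b.repr) b.repr.injective.injOn ?_
  have ne : ∀ x y : ℝ, Pos (b.repr y - b.repr x) → x ≠ y := by
    rintro x y k rfl
    exact k.asymm k
  by_cases h0 : c = 0
  · refine key' _ (fun v => b.repr.symm v) ?_
    rintro _ ⟨x, hx, rfl⟩ _ ⟨y, hy, rfl⟩ k
    simp only [LinearEquiv.symm_apply_apply]
    rcases lt_or_gt_of_ne (ne x y k) with e | e
    · exact e
    · have := hc x hx y hy (ne x y k)
      rw [h0, abs_of_pos (sub_pos.2 e)] at this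
      by_cases p : Pos (b.repr (x - y))
      · rw [map_sub] at p
        exact (k.asymm p).elim
      · simp only [p, if_false] at this
        exact absurd this (by decide)
  · refine key' _ (fun v => - b.repr.symm v) ?_
    rintro _ ⟨x, hx, rfl⟩ _ ⟨y, hy, rfl⟩ k
    simp only [LinearEquiv.symm_apply_apply]
    rcases lt_or_gt_of_ne (ne x y k) with e | e
    · have := hc y hy x hx (ne x y k).symm
      rw [abs_of_pos (sub_pos.2 e)] at this
      rw [← map_sub] at k
      simp only [k, if_true] at this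
      exact absurd this.symm h0
    · exact neg_lt_neg e

end Pool.Agent.H15.IC
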