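import Mathlib

/-! The sine basis of `L²(0,1)`. -/

namespace Pool.Agent.H15.IS

open MeasureTheory Set Real
open scoped InnerProductSpace

/-- the real Hilbert space `L²(0,1)` -/
noncomputable abbrev X := Lp ℝ 2 (volume.restrict (Ioo (0:ℝ) 1))

/-- the normalized eigenfunction `√2 sin((n+1)πz)` of the Dirichlet Laplacian on `(0,1)` -/
noncomputable def sn (n : ℕ) (z : ℝ) : ℝ := √2 * sin ((n + 1) * π * z)

theorem sn_mem (n : ℕ) : MemLp (sn n) 2 (volume.restrict (Ioo (0:ℝ) 1)) := by
  refine MemLp.of_bound (by unfold sn; fun_prop) √2 (ae_of_all _ fun z => ?_)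
  rw [sn, norm_mul, Real.norm_eq_abs, Real.norm_eq_abs, abs_of_nonneg (Real.sqrt_nonneg _)]
  exact mul_le_of_le_one_right (Real.sqrt_nonneg _) (abs_sin_le_one _)

noncomputable def e (n : ℕ) : X := (sn_mem n).toLp

theorem inner_e (n : ℕ) (x : X) : ⟪e n, x⟫_ℝ = ∫ z in Ioo (0:ℝ) 1, x z * sn n z := by
  rw [L2.inner_def]
  refine integral_congr_ae ?_
  filter_upwards [(sn_mem n).coeFn_toLp] with z hz
  simp [e, hz]

theorem int_cos (j : ℤ) : ∫ z in Ioo (0:ℝ) 1, cos (j * π * z) = if j = 0 then 1 else 0 := by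
  rw [← integral_Ioc_eq_integral_Ioo, ← intervalIntegral.integral_of_le zero_le_one]
  split_ifs with h
  · simp [h]
  · have : (j:ℝ) * π ≠ 0 := mul_ne_zero (by exact_mod_cast h) pi_ne_zero
    rw [intervalIntegral.integral_comp_mul_left (fun x => cos x) this]
    simp

theorem e_on : Orthonormal ℝ e := by
  rw [orthonormal_iff_ite]
  intro m n
  rw [inner_e]
  have h1 : ∫ z in Ioo (0:ℝ) 1, (e n : ℝ → ℝ) z * sn m z =
      ∫ z in Ioo (0:ℝ) 1, (cos (((m:ℤ) - n : ℤ) * π * z) - cos (((m:ℤ) + n + 2 : ℤ) * π * z)) := by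
    refine integral_congr_ae ?_
    filter_upwards [(sn_mem n).coeFn_toLp] with z hz
    rw [e, hz, sn, sn]
    have e1 : (((m:ℤ) - n : ℤ) : ℝ) * π * z = (m + 1) * π * z - (n + 1) * π * z := by
      push_cast; ring
    have e2 : (((m:ℤ) + n + 2 : ℤ) : ℝ) * π * z = (m + 1) * π * z + (n + 1) * π * z := by
      push_cast; ring
    rw [e1, e2, cos_sub, cos_add]
    have : √2 * √2 = 2 := Real.mul_self_sqrt (by norm_num)
    linear_combination sin ((n + 1) * π * z) * sin ((m + 1) * π * z) * this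
  have hi : ∀ j : ℤ, IntegrableOn (fun z => cos (j * π * z)) (Ioo (0:ℝ) 1) := fun j =>
    ((by fun_prop : Continuous fun z : ℝ => cos (j * π * z)).integrableOn_Icc).mono_set
      Ioo_subset_Icc_self
  rw [h1, integral_sub (hi _) (hi _), int_cos, int_cos, if_neg (show (m:ℤ) + n + 2 ≠ 0 by omega)]
  by_cases h : m = n
  · simp [h]
  · rw [if_neg (by omega), if_neg h]; simp

theorem e_total (x : X) (h : ∀ n, ⟪e n, x⟫_ℝ = 0) : x = 0 := by
  have h2 : (0:ℝ) < √2 := by positivity
  have h1 : ∀ n : ℕ, ∫ z in Ioo (0:ℝ) 1, x z * sin (n * π * z) = 0 := by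
    intro n
    rcases n with _ | n
    · simp
    · have := h n
      rw [inner_e] at this
      have e : ∀ z, x z * sn n z = √2 * (x z * sin (((n + 1 : ℕ) : ℝ) * π * z)) := by
        intro z; rw [sn]; push_cast; ring
      simp only [e, integral_const_mul] at this
      exact (mul_eq_zero.1 this).resolve_left h2.ne'
  have h3 : ∀ n : ℤ, ∫ z in Ioo (0:ℝ) 1, x z * sin (n * π * z) = 0 := by
    intro n
    obtain ⟨k, rfl | rfl⟩ := n.eq_nat_or_neg
    · simpa using h1 k
    · simpa [integral_neg] using h1 k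
  let g : ℝ → ℝ := (Ioo (0:ℝ) 1).indicator x
  have hg : MemLp g 2 volume := (memLp_indicator_iff_restrict measurableSet_Ioo).2 (Lp.memLp x)
  have hg' : MemLp (fun z => g (-z)) 2 volume :=
    hg.comp_measurePreserving (Measure.measurePreserving_neg volume)
  let F : ℝ → ℂ := fun z => ((g z - g (-z) : ℝ) : ℂ)
  have hF : MemLp F 2 (volume.restrict (Ioc (-1:ℝ) 1)) := ((hg.sub hg').restrict _).ofReal
  have hgi : IntervalIntegrable (fun z => (g z : ℂ)) volume (-1) 1 := by
    rw [intervalIntegrable_iff_integrableOn_Ioc_of_le (by norm_num)]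
    exact ((hg.restrict _).ofReal (K := ℂ)).integrable (by norm_num)
  have hgi' : IntervalIntegrable (fun z => (g (-z) : ℂ)) volume (-1) 1 := by
    rw [intervalIntegrable_iff_integrableOn_Ioc_of_le (by norm_num)]
    exact ((hg'.restrict _).ofReal (K := ℂ)).integrable (by norm_num)
  have hc : ∀ n : ℤ, fourierCoeffOn (show (-1:ℝ) < 1 by norm_num) F n = 0 := by
    intro n
    rw [fourierCoeffOn_eq_integral]
    simp only [fourier_coe_apply, smul_eq_mul, F]
    let E : ℝ → ℂ := fun z => Complex.exp (2 * π * Complex.I * (-n : ℤ) * z / ((1 - -1 : ℝ) : ℂ))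
    have hE : Continuous E := by fun_prop
    have a1 : ∫ z in (-1:ℝ)..1, E z * ((g z - g (-z) : ℝ) : ℂ) =
        (∫ z in (-1:ℝ)..1, E z * (g z : ℂ)) - ∫ z in (-1:ℝ)..1, E z * (g (-z) : ℂ) := by
      rw [← intervalIntegral.integral_sub (hgi.continuousOn_mul hE.continuousOn)
        (hgi'.continuousOn_mul hE.continuousOn)]
      congr 1; ext z; push_cast; ring
    have a2 : ∫ z in (-1:ℝ)..1, E z * (g (-z) : ℂ) = ∫ z in (-1:ℝ)..1, E (-z) * (g z : ℂ) := by
      have := intervalIntegral.integral_comp_neg (a := -1) (b := 1) (fun z => E (-z) * (g z : ℂ))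
      simpa using this
    have a3 : ∀ z : ℝ, E z - E (-z) = -2 * Complex.I * (sin (n * π * z) : ℝ) := by
      intro z
      have b1 : E z = Complex.exp (-((n * π * z : ℝ) : ℂ) * Complex.I) := by
        simp only [E]; congr 1; push_cast; ring
      have b2 : E (-z) = Complex.exp (((n * π * z : ℝ) : ℂ) * Complex.I) := by
        simp only [E]; congr 1; push_cast; ring
      rw [b1, b2, Complex.ofReal_sin, Complex.sin]
      linear_combination (Complex.exp (-((n * π * z : ℝ) : ℂ) * Complex.I)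
        - Complex.exp (((n * π * z : ℝ) : ℂ) * Complex.I)) * Complex.I_mul_I
    have a4 : ∫ z in (-1:ℝ)..1, g z * sin (n * π * z) = 0 := by
      rw [intervalIntegral.integral_of_le (by norm_num), ← h3 n]
      have : (fun z => g z * sin (n * π * z)) =
          (Ioo (0:ℝ) 1).indicator fun z => x z * sin (n * π * z) := by
        ext z; simp only [g, indicator]; split_ifs <;> simp
      rw [this, setIntegral_indicator measurableSet_Ioo, inter_eq_right.2]
      exact fun z hz => ⟨by linarith [hz.1], hz.2.le⟩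
    change _ • ∫ z in (-1:ℝ)..1, E z * ((g z - g (-z) : ℝ) : ℂ) = 0
    rw [a1, a2, ← intervalIntegral.integral_sub (hgi.continuousOn_mul hE.continuousOn)
      (hgi.continuousOn_mul (by fun_prop))]
    have : ∀ z : ℝ, E z * (g z : ℂ) - E (-z) * (g z : ℂ)
        = -2 * Complex.I * ((g z * sin (n * π * z) : ℝ) : ℂ) := by
      intro z; rw [← sub_mul, a3]; push_cast; ring
    simp only [this]
    rw [intervalIntegral.integral_const_mul, intervalIntegral.integral_ofReal, a4]
    simp
  have hp := tsum_sq_fourierCoeffOn (show (-1:ℝ) < 1 by norm_num) hF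
  simp only [hc, norm_zero, ne_eq, OfNat.ofNat_ne_zero, not_false_eq_true, zero_pow, tsum_zero,
    smul_eq_mul] at hp
  have hp2 : ∫ z in (-1:ℝ)..1, ‖F z‖ ^ 2 = 0 := by
    rcases mul_eq_zero.1 hp.symm with h | h
    · norm_num at h
    · exact h
  rw [intervalIntegral.integral_of_le (by norm_num),
    integral_eq_zero_iff_of_nonneg (fun _ => by positivity) (hF.norm.integrable_sq)] at hp2
  have hp3 := ae_restrict_of_ae_restrict_of_subset (s := Ioo (0:ℝ) 1) (t := Ioc (-1) 1)
    (fun z hz => ⟨by linarith [hz.1], hz.2.le⟩) hp2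
  refine Lp.eq_zero_iff_ae_eq_zero.2 ?_
  filter_upwards [hp3, ae_restrict_mem measurableSet_Ioo] with z hz hz'
  have b : -z ∉ Ioo (0:ℝ) 1 := fun hh => by linarith [hh.1, hz'.1]
  simpa [F, g, hz', b] using hz

noncomputable def sb : HilbertBasis ℕ ℝ X :=
  HilbertBasis.mkOfOrthogonalEqBot e_on (by
    rw [Submodule.eq_bot_iff]
    intro x hx
    exact e_total x fun n => (Submodule.mem_orthogonal _ _).1 hx _ (Submodule.subset_span ⟨n, rfl⟩))

theorem sb_repr (x : X) (n : ℕ) : sb.repr x n = ∫ z in Ioo (0:ℝ) 1, x z * sn n z := by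
  rw [HilbertBasis.repr_apply_apply, sb, HilbertBasis.coe_mkOfOrthogonalEqBot, inner_e]

end Pool.Agent.H15.IS
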