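import Pool.Agent.H15.IS1

/-! The boundary controlled heat equation in spectral coordinates. -/

namespace Pool.Agent.H15.IS

open MeasureTheory Set Real Filter Topology
open scoped ENNReal

abbrev L := lp (fun _ : ℕ => ℝ) (2:ℝ≥0∞)

noncomputable def lam (n : ℕ) : ℝ := ((n + 1) * π) ^ 2

noncomputable def bb (n : ℕ) : ℝ := √2 * ((n + 1) * π) * (-1) ^ n

def Adm (v : ℝ → ℝ) : Prop := Measurable v ∧ ∃ M, ∀ s, |v s| ≤ M

noncomputable def wc (t : ℝ) (v : ℝ → ℝ) (n : ℕ) : ℝ :=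
  bb n * ∫ s in (0:ℝ)..t, exp (-lam n * (t - s)) * v s

noncomputable def A (t : ℝ) (c : ℕ → ℝ) (v : ℝ → ℝ) (n : ℕ) : ℝ :=
  exp (-lam n * t) * c n + wc t v n

noncomputable def U (t : ℝ) (v : ℝ → ℝ) : ℝ := ∫ s in (0:ℝ)..t, exp s * v s ^ 8

theorem Adm.ii {v : ℝ → ℝ} (hv : Adm v) {g : ℝ → ℝ} (hg : Continuous g) (a b : ℝ) :
    IntervalIntegrable (fun s => g s * v s) volume a b := by
  obtain ⟨h1, M, h2⟩ := hv
  refine IntervalIntegrable.continuousOn_mul ?_ hg.continuousOn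
  rw [intervalIntegrable_iff]
  exact Measure.integrableOn_of_bounded (M := M) (by simp [uIoc]) h1.aestronglyMeasurable
    (ae_of_all _ h2)

theorem Adm.pow8 {v : ℝ → ℝ} (hv : Adm v) : Adm fun s => v s ^ 8 := by
  obtain ⟨h1, M, h2⟩ := hv
  exact ⟨h1.pow_const 8, M ^ 8, fun s => by
    rw [abs_pow]; exact pow_le_pow_left₀ (abs_nonneg _) (h2 s) 8⟩

theorem U_nonneg {t : ℝ} (ht : 0 ≤ t) (v : ℝ → ℝ) : 0 ≤ U t v :=
  intervalIntegral.integral_nonneg ht fun _ _ => by positivity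

theorem one_le_lam (n : ℕ) : 1 ≤ lam n := by
  have h1 : (0:ℝ) ≤ n := Nat.cast_nonneg n
  have h2 := pi_gt_three
  exact one_le_pow₀ (by nlinarith)

theorem int_exp_le {l t : ℝ} (hl : 0 < l) : ∫ s in (0:ℝ)..t, exp (-l * (t - s)) ≤ 1 / l := by
  have h : ∀ s ∈ uIcc (0:ℝ) t, HasDerivAt (fun s => exp (-l * (t - s)) / l) (exp (-l * (t - s))) s := by
    intro s _
    have := ((((hasDerivAt_id s).const_sub t).const_mul (-l)).exp).div_const l
    refine this.congr_deriv ?_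
    simp only [id]
    field_simp
  rw [intervalIntegral.integral_eq_sub_of_hasDerivAt h (Continuous.intervalIntegrable (by fun_prop) _ _)]
  simp only [sub_self, mul_zero, exp_zero]
  have : 0 ≤ exp (-l * (t - 0)) / l := by positivity
  linarith

noncomputable def q (n : ℕ) : ℝ := (((n + 1 : ℕ) : ℝ) ^ (3 / 2 : ℝ))⁻¹

theorem q_summable : Summable q :=
  (summable_nat_add_iff 1).2 (Real.summable_nat_rpow_inv.2 (show (1:ℝ) < 3 / 2 by norm_num))

theorem q_nonneg (n : ℕ) : 0 ≤ q n := by unfold q; positivity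

theorem wc_sq_le {t ρ : ℝ} {v : ℝ → ℝ} (hv : Adm v) (ht : 0 ≤ t) (hρ : 0 < ρ)
    (hU : exp (-t) * U t v ≤ ρ ^ 8) (n : ℕ) : wc t v n ^ 2 ≤ 49 * ρ ^ 2 * q n := by
  obtain ⟨θ, hθ, h4, h6⟩ : ∃ θ : ℝ, 0 < θ ∧ θ ^ 4 = n + 1 ∧ q n = (θ ^ 6)⁻¹ := by
    refine ⟨((n + 1 : ℕ) : ℝ) ^ (1 / 4 : ℝ), by positivity, ?_, ?_⟩
    · rw [← Real.rpow_natCast, ← Real.rpow_mul (by positivity)]; norm_num
    · rw [← Real.rpow_natCast, ← Real.rpow_mul (by positivity), q]; norm_num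
  have hl := one_le_lam n
  set m := θ * ρ with hm
  have hm0 : 0 < m := by positivity
  have h1 : |∫ s in (0:ℝ)..t, exp (-lam n * (t - s)) * v s| ≤
      ∫ s in (0:ℝ)..t, (m * exp (-lam n * (t - s)) + exp (-t) / m ^ 7 * (exp s * v s ^ 8)) := by
    rw [← Real.norm_eq_abs]
    refine intervalIntegral.norm_integral_le_of_norm_le ht (ae_of_all _ fun s hs => ?_) ?_
    · have a1 : |v s| ≤ m + v s ^ 8 / m ^ 7 := by
        rcases le_total |v s| m with h | h
        · have : 0 ≤ v s ^ 8 / m ^ 7 := by positivity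
          linarith
        · have : |v s| ≤ v s ^ 8 / m ^ 7 := by
            rw [le_div_iff₀ (by positivity), ← Even.pow_abs (by decide : Even 8), pow_succ' _ 7]
            exact mul_le_mul_of_nonneg_left (pow_le_pow_left₀ hm0.le h 7) (abs_nonneg _)
          linarith
      have a2 : exp (-lam n * (t - s)) ≤ exp (-t) * exp s := by
        rw [← exp_add]; exact exp_le_exp.2 (by nlinarith [hs.2])
      rw [norm_mul, Real.norm_eq_abs, Real.norm_eq_abs, abs_of_pos (exp_pos _)]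
      have a3 := mul_le_mul_of_nonneg_left a1 (exp_pos (-lam n * (t - s))).le
      have a4 := mul_le_mul_of_nonneg_right a2 (show 0 ≤ v s ^ 8 / m ^ 7 by positivity)
      have e : exp (-t) / m ^ 7 * (exp s * v s ^ 8) = exp (-t) * exp s * (v s ^ 8 / m ^ 7) := by ring
      rw [e]
      linarith
    · exact (Continuous.intervalIntegrable (by fun_prop) _ _).add
        ((hv.pow8.ii continuous_exp 0 t).const_mul _)
  rw [intervalIntegral.integral_add (Continuous.intervalIntegrable (by fun_prop) _ _)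
    ((hv.pow8.ii continuous_exp 0 t).const_mul _), intervalIntegral.integral_const_mul,
    intervalIntegral.integral_const_mul] at h1
  have h2 := mul_le_mul_of_nonneg_left (int_exp_le (t := t) (show 0 < lam n by linarith)) hm0.le
  have h3 : exp (-t) / m ^ 7 * U t v ≤ ρ ^ 8 / m ^ 7 := by
    rw [div_mul_eq_mul_div]; exact div_le_div_of_nonneg_right hU (by positivity)
  have h5 : |∫ s in (0:ℝ)..t, exp (-lam n * (t - s)) * v s| ≤ m * (1 / lam n) + ρ ^ 8 / m ^ 7 :=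
    h1.trans (add_le_add h2 h3)
  have hπ3 := pi_gt_three
  have hπ4 := pi_le_four
  have hs : √2 ≤ 3 / 2 := Real.sqrt_le_iff.2 ⟨by norm_num, by norm_num⟩
  have hs0 := Real.sqrt_nonneg 2
  have h7 : |wc t v n| ≤ 7 * ρ / θ ^ 3 := by
    have b1 : |bb n| = √2 * (θ ^ 4 * π) := by
      rw [bb, abs_mul, abs_pow, abs_neg, abs_one, one_pow, mul_one, h4, abs_of_nonneg (by positivity)]
    rw [wc, abs_mul, b1]
    refine (mul_le_mul_of_nonneg_left h5 (by positivity)).trans ?_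
    have e : √2 * (θ ^ 4 * π) * (m * (1 / lam n) + ρ ^ 8 / m ^ 7) = (√2 / π + √2 * π) * ρ / θ ^ 3 := by
      rw [lam, ← h4, hm]; field_simp
    rw [e]
    refine div_le_div_of_nonneg_right (mul_le_mul_of_nonneg_right ?_ hρ.le) (by positivity)
    have : √2 / π ≤ 1 := (div_le_one (by linarith)).2 (by linarith)
    nlinarith
  rw [← sq_abs, h6]
  refine (pow_le_pow_left₀ (abs_nonneg _) h7 2).trans (le_of_eq ?_)
  field_simp
  norm_num

theorem exists_rho (y : ℝ) {ε : ℝ} (hy : 0 ≤ y) (hε : 0 < ε) : ∃ ρ : ℝ, 0 < ρ ∧ ρ ^ 8 = y + ε :=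
  ⟨(y + ε) ^ ((8:ℕ)⁻¹ : ℝ), by positivity, Real.rpow_inv_natCast_pow (by positivity) (by norm_num)⟩

theorem sq_norm (c : L) : HasSum (fun n => c n ^ 2) (‖c‖ ^ 2) := by
  have := lp.hasSum_norm (p := 2) (by simp) c
  simpa using this

theorem A_sq_le {t ρ : ℝ} {v : ℝ → ℝ} (hv : Adm v) (ht : 0 ≤ t) (hρ : 0 < ρ)
    (hU : exp (-t) * U t v ≤ ρ ^ 8) (c : ℕ → ℝ) (n : ℕ) :
    A t c v n ^ 2 ≤ 2 * exp (-t) ^ 2 * c n ^ 2 + 98 * ρ ^ 2 * q n := by
  have h1 := wc_sq_le hv ht hρ hU n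
  have h2 : exp (-lam n * t) ≤ exp (-t) := exp_le_exp.2 (by nlinarith [one_le_lam n])
  have h3 := mul_le_mul_of_nonneg_right (pow_le_pow_left₀ (exp_pos _).le h2 2) (sq_nonneg (c n))
  rw [A]
  nlinarith [sq_nonneg (exp (-lam n * t) * c n - wc t v n)]

theorem A_mem {t : ℝ} {v : ℝ → ℝ} (hv : Adm v) (ht : 0 ≤ t) (c : L) : Memℓp (A t c v) (2:ℝ≥0∞) := by
  obtain ⟨ρ, hρ, h⟩ := exists_rho (exp (-t) * U t v) (mul_nonneg (exp_pos _).le (U_nonneg ht v)) one_pos
  refine memℓp_gen ?_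
  simp only [ENNReal.toReal_ofNat, Real.rpow_ofNat, Real.norm_eq_abs, sq_abs]
  exact Summable.of_nonneg_of_le (fun _ => sq_nonneg _) (A_sq_le hv ht hρ (by linarith) c)
    (((sq_norm c).summable.mul_left _).add (q_summable.mul_left _))

open Classical in
noncomputable def Ph (t : ℝ) (c : L) (v : ℝ → ℝ) : L :=
  if h : Memℓp (A t c v) (2:ℝ≥0∞) then ⟨A t c v, h⟩ else 0

theorem Ph_coe {t : ℝ} {v : ℝ → ℝ} (hv : Adm v) (ht : 0 ≤ t) (c : L) :
    (Ph t c v : ℕ → ℝ) = A t c v := by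
  rw [Ph, dif_pos (A_mem hv ht c)]

noncomputable def kap : ℝ := 128 * (49 * ∑' n, q n) ^ 4

theorem kap_nonneg : 0 ≤ kap := by unfold kap; positivity

theorem Ph_le {t : ℝ} {v : ℝ → ℝ} (hv : Adm v) (ht : 0 ≤ t) (c : L) :
    exp t * ‖Ph t c v‖ ^ 8 - kap * U t v ≤ 128 * ‖c‖ ^ 8 := by
  have hq : 0 ≤ ∑' n, q n := tsum_nonneg q_nonneg
  have key : ∀ ε > 0, ‖Ph t c v‖ ^ 8 ≤ 128 * exp (-t) * ‖c‖ ^ 8 + kap * (exp (-t) * U t v + ε) := by
    intro ε hε
    obtain ⟨ρ, hρ, h⟩ := exists_rho (exp (-t) * U t v)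
      (mul_nonneg (exp_pos _).le (U_nonneg ht v)) hε
    have h1 := sq_norm (Ph t c v)
    rw [Ph_coe hv ht] at h1
    have h2 := hasSum_le (A_sq_le hv ht hρ (by linarith) c) h1
      (((sq_norm c).mul_left _).add (q_summable.hasSum.mul_left _))
    have h3 := pow_le_pow_left₀ (sq_nonneg _) h2 4
    set a := exp (-t) ^ 2 * ‖c‖ ^ 2 with ha
    set b := 49 * (∑' n, q n) * ρ ^ 2 with hb
    have h4 : (a + b) ^ 4 ≤ 8 * (a ^ 4 + b ^ 4) := by
      have a1 : (a + b) ^ 2 ≤ 2 * (a ^ 2 + b ^ 2) := by nlinarith [sq_nonneg (a - b)]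
      have a2 := pow_le_pow_left₀ (sq_nonneg _) a1 2
      nlinarith [sq_nonneg (a ^ 2 - b ^ 2)]
    have h5 : a ^ 4 ≤ exp (-t) * ‖c‖ ^ 8 := by
      have b1 : exp (-t) ≤ 1 := exp_le_one_iff.2 (by linarith)
      have b2 : exp (-t) ^ 8 ≤ exp (-t) := pow_le_of_le_one (exp_pos _).le b1 (by norm_num)
      calc a ^ 4 = exp (-t) ^ 8 * ‖c‖ ^ 8 := by rw [ha]; ring
        _ ≤ _ := mul_le_mul_of_nonneg_right b2 (by positivity)
    have h6 : 128 * b ^ 4 = kap * (exp (-t) * U t v + ε) := by rw [← h, hb, kap]; ring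
    have h7 : (2 * exp (-t) ^ 2 * ‖c‖ ^ 2 + 98 * ρ ^ 2 * ∑' n, q n) ^ 4 = 16 * (a + b) ^ 4 := by
      rw [ha, hb]; ring
    rw [h7, ← pow_mul] at h3
    have h3' : ‖Ph t c v‖ ^ 8 ≤ 16 * (a + b) ^ 4 := h3
    clear_value a b
    nlinarith
  have h8 : ‖Ph t c v‖ ^ 8 ≤ 128 * exp (-t) * ‖c‖ ^ 8 + kap * (exp (-t) * U t v) := by
    refine le_of_forall_pos_le_add fun δ hδ => ?_
    have k0 := kap_nonneg
    have := key (δ / (kap + 1)) (by positivity)
    have h9 : kap * (δ / (kap + 1)) ≤ δ := by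
      rw [← mul_div_assoc, div_le_iff₀ (by positivity)]; nlinarith
    linarith
  have h9 := mul_le_mul_of_nonneg_left h8 (exp_pos t).le
  have e : exp t * exp (-t) = 1 := by rw [← exp_add]; simp
  have e2 : exp t * (128 * exp (-t) * ‖c‖ ^ 8 + kap * (exp (-t) * U t v))
      = 128 * ‖c‖ ^ 8 + kap * U t v := by
    linear_combination (128 * ‖c‖ ^ 8 + kap * U t v) * e
  linarith

noncomputable def cat (h : ℝ) (v w : ℝ → ℝ) : ℝ → ℝ := fun s => if s ≤ h then v s else w (s - h)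

theorem Adm.cat {v w : ℝ → ℝ} (hv : Adm v) (hw : Adm w) (h : ℝ) : Adm (cat h v w) := by
  obtain ⟨h1, M, h2⟩ := hv
  obtain ⟨h3, N, h4⟩ := hw
  refine ⟨Measurable.ite measurableSet_Iic h1 (h3.comp (by fun_prop)), max M N, fun s => ?_⟩
  unfold IS.cat
  split_ifs
  · exact (h2 _).trans (le_max_left _ _)
  · exact (h4 _).trans (le_max_right _ _)

theorem int_cat {v w : ℝ → ℝ} (hv : Adm v) (hw : Adm w) {h t : ℝ} (hh : 0 ≤ h) (ht : 0 ≤ t)
    {g : ℝ → ℝ} (hg : Continuous g) :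
    ∫ s in (0:ℝ)..(t + h), g s * cat h v w s =
      (∫ s in (0:ℝ)..h, g s * v s) + ∫ s in (0:ℝ)..t, g (s + h) * w s := by
  rw [← intervalIntegral.integral_add_adjacent_intervals ((hv.cat hw h).ii hg 0 h)
    ((hv.cat hw h).ii hg h (t + h))]
  congr 1
  · refine intervalIntegral.integral_congr fun s hs => ?_
    rw [uIcc_of_le hh] at hs
    simp [cat, hs.2]
  · have := intervalIntegral.integral_comp_add_right (a := 0) (b := t)
      (fun s => g s * cat h v w s) h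
    rw [zero_add] at this
    rw [← this]
    refine intervalIntegral.integral_congr_ae (ae_of_all _ fun s hs => ?_)
    rw [uIoc_of_le ht] at hs
    have : ¬ (s + h ≤ h) := by linarith [hs.1]
    simp [cat, this]

theorem Ph_cat {v w : ℝ → ℝ} (hv : Adm v) (hw : Adm w) {h t : ℝ} (hh : 0 ≤ h) (ht : 0 ≤ t)
    (c : L) : Ph t (Ph h c v) w = Ph (t + h) c (cat h v w) := by
  apply lp.ext
  rw [Ph_coe hw ht, Ph_coe hv hh, Ph_coe (hv.cat hw h) (by linarith)]
  funext n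
  simp only [A, wc]
  rw [int_cat hv hw hh ht (by fun_prop)]
  have e1 : ∫ s in (0:ℝ)..h, exp (-lam n * (t + h - s)) * v s =
      exp (-lam n * t) * ∫ s in (0:ℝ)..h, exp (-lam n * (h - s)) * v s := by
    rw [← intervalIntegral.integral_const_mul]
    congr 1; ext s
    rw [← mul_assoc, ← exp_add]
    congr 2; ring
  have e2 : ∀ s, t + h - (s + h) = t - s := fun s => by ring
  have e3 : exp (-lam n * (t + h)) = exp (-lam n * t) * exp (-lam n * h) := by
    rw [← exp_add]; congr 1; ring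
  simp only [e1, e2, e3]
  ring

theorem U_cat {v w : ℝ → ℝ} (hv : Adm v) (hw : Adm w) {h t : ℝ} (hh : 0 ≤ h) (ht : 0 ≤ t) :
    U (t + h) (cat h v w) = U h v + exp h * U t w := by
  have e : ∀ s, cat h v w s ^ 8 = cat h (fun s => v s ^ 8) (fun s => w s ^ 8) s := by
    intro s; unfold cat; split_ifs <;> rfl
  simp only [U, e]
  rw [int_cat hv.pow8 hw.pow8 hh ht continuous_exp, ← intervalIntegral.integral_const_mul]
  congr 2; ext s
  rw [exp_add]; ring

end Pool.Agent.H15.IS
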