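import Pool.Agent.H15.IS2

/-! A coercive ISS Lyapunov function for the heat equation with Dirichlet boundary input. -/

namespace Pool.Agent.H15.IS

open MeasureTheory Set Real Filter Topology
open scoped ENNReal

/-- the input space `L^∞(ℝ₊)` -/
noncomputable abbrev Inp := Lp ℝ ⊤ (volume.restrict (Ioi (0:ℝ)))

/-- `φ` is the mild solution map, written in the eigenbasis of the Dirichlet Laplacian. -/
def IsMild (φ : ℝ → X → Inp → X) : Prop :=
  ∀ t : ℝ, 0 ≤ t → ∀ (x : X) (u : Inp) (n : ℕ),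
    ∫ z in Ioo (0:ℝ) 1, φ t x u z * sn n z =
      exp (-((n + 1) * π) ^ 2 * t) * (∫ z in Ioo (0:ℝ) 1, x z * sn n z) +
        √2 * ((n + 1) * π) * (-1) ^ n *
          ∫ s in (0:ℝ)..t, exp (-((n + 1) * π) ^ 2 * (t - s)) * u s

abbrev P := {p : ℝ × (ℝ → ℝ) // 0 ≤ p.1 ∧ Adm p.2}

instance : Nonempty P := ⟨⟨(0, 0), le_rfl, measurable_const, 0, by simp⟩⟩

noncomputable def J (p : P) (c : L) : ℝ := exp p.1.1 * ‖Ph p.1.1 c p.1.2‖ ^ 8 - kap * U p.1.1 p.1.2

noncomputable def V0 (c : L) : ℝ := ⨆ p : P, J p c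

theorem J_bdd (c : L) : BddAbove (range fun p : P => J p c) :=
  ⟨128 * ‖c‖ ^ 8, by rintro _ ⟨p, rfl⟩; exact Ph_le p.2.2 p.2.1 c⟩

theorem V0_le (c : L) : V0 c ≤ 128 * ‖c‖ ^ 8 := ciSup_le fun p => Ph_le p.2.2 p.2.1 c

theorem le_V0 (c : L) : ‖c‖ ^ 8 ≤ V0 c := by
  have h0 : Adm (0 : ℝ → ℝ) := ⟨measurable_const, 0, by simp⟩
  refine le_trans (le_of_eq ?_) (le_ciSup (J_bdd c) ⟨(0, 0), le_rfl, h0⟩)
  have : Ph 0 c 0 = c := by
    apply lp.ext
    rw [Ph_coe h0 le_rfl]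
    funext n; simp [A, wc]
  simp [J, U, this]

theorem V0_convex : ConvexOn ℝ univ V0 := by
  refine ⟨convex_univ, fun c _ d _ a b ha hb hab => ciSup_le fun p => ?_⟩
  have e : Ph p.1.1 (a • c + b • d) p.1.2 = a • Ph p.1.1 c p.1.2 + b • Ph p.1.1 d p.1.2 := by
    apply lp.ext
    rw [lp.coeFn_add, lp.coeFn_smul, lp.coeFn_smul, Ph_coe p.2.2 p.2.1, Ph_coe p.2.2 p.2.1,
      Ph_coe p.2.2 p.2.1, lp.coeFn_add, lp.coeFn_smul, lp.coeFn_smul]
    funext n
    simp only [A, Pi.add_apply, Pi.smul_apply, smul_eq_mul]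
    linear_combination (-wc p.1.1 p.1.2 n) * hab
  have h1 := ((convexOn_univ_norm (E := L)).pow (fun _ _ => norm_nonneg _) 8).2
    (mem_univ (Ph p.1.1 c p.1.2)) (mem_univ (Ph p.1.1 d p.1.2)) ha hb hab
  simp only [Pi.pow_apply, smul_eq_mul] at h1
  have h2 := mul_le_mul_of_nonneg_left (le_ciSup (J_bdd c) p) ha
  have h3 := mul_le_mul_of_nonneg_left (le_ciSup (J_bdd d) p) hb
  have h4 := mul_le_mul_of_nonneg_left h1 (exp_pos p.1.1).le
  simp only [J, smul_eq_mul, V0] at h2 h3 ⊢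
  rw [e]
  have e2 : kap * U p.1.1 p.1.2 = a * (kap * U p.1.1 p.1.2) + b * (kap * U p.1.1 p.1.2) := by
    rw [← add_mul, hab, one_mul]
  linarith

theorem V0_cont : Continuous V0 := by
  rw [← continuousOn_univ]
  refine ((V0_convex.continuousOn_tfae isOpen_univ univ_nonempty).out 3 1).1 ?_
  refine ⟨0, mem_univ _, 128, ?_⟩
  rw [eventually_map]
  filter_upwards [Metric.ball_mem_nhds (0:L) one_pos] with c hc
  have h1 : ‖c‖ ≤ 1 := (mem_ball_zero_iff.1 hc).le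
  have h2 : ‖c‖ ^ 8 ≤ 1 := pow_le_one₀ (norm_nonneg _) h1
  linarith [V0_le c]

theorem V0_diss {v : ℝ → ℝ} (hv : Measurable v) {M : ℝ} (hM : ∀ s, |v s| ≤ M) {h : ℝ}
    (hh : 0 ≤ h) (c : L) : V0 (Ph h c v) ≤ exp (-h) * V0 c + kap * M ^ 8 * h := by
  have hv' : Adm v := ⟨hv, M, hM⟩
  have hU : U h v ≤ exp h * M ^ 8 * h := by
    have := intervalIntegral.integral_mono_on (f := fun s => exp s * v s ^ 8)
      (g := fun _ => exp h * M ^ 8) hh (hv'.pow8.ii continuous_exp 0 h)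
      (Continuous.intervalIntegrable continuous_const _ _) (fun s hs => by
        refine mul_le_mul (exp_le_exp.2 hs.2) ?_ (by positivity) (exp_pos _).le
        rw [← Even.pow_abs (by decide : Even 8)]
        exact pow_le_pow_left₀ (abs_nonneg _) (hM s) 8)
    rw [intervalIntegral.integral_const, sub_zero, smul_eq_mul, mul_comm] at this
    exact this
  refine ciSup_le fun p => ?_
  have h1 := le_ciSup (J_bdd c) ⟨(p.1.1 + h, cat h v p.1.2), add_nonneg p.2.1 hh, hv'.cat p.2.2 h⟩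
  simp only [J] at h1 ⊢
  rw [U_cat hv' p.2.2 hh p.2.1, ← Ph_cat hv' p.2.2 hh p.2.1, exp_add] at h1
  have e : exp (-h) * exp h = 1 := by rw [← exp_add]; simp
  have h2 := mul_le_mul_of_nonneg_left h1 (exp_pos (-h)).le
  have h3 := mul_le_mul_of_nonneg_left hU (mul_nonneg kap_nonneg (exp_pos (-h)).le)
  have e1 : exp (-h) * (exp p.1.1 * exp h * ‖Ph p.1.1 (Ph h c v) p.1.2‖ ^ 8 -
      kap * (U h v + exp h * U p.1.1 p.1.2)) = exp p.1.1 * ‖Ph p.1.1 (Ph h c v) p.1.2‖ ^ 8 -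
        kap * U p.1.1 p.1.2 - kap * exp (-h) * U h v := by
    linear_combination (exp p.1.1 * ‖Ph p.1.1 (Ph h c v) p.1.2‖ ^ 8 - kap * U p.1.1 p.1.2) * e
  have e2 : kap * exp (-h) * (exp h * M ^ 8 * h) = kap * M ^ 8 * h := by
    linear_combination (kap * M ^ 8 * h) * e
  rw [e1] at h2
  rw [e2] at h3
  unfold V0 J
  linarith

noncomputable def tr (u : Inp) : ℝ → ℝ := fun s => max (-‖u‖) (min ‖u‖ (u s))

theorem tr_meas (u : Inp) : Measurable (tr u) :=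
  measurable_const.max (measurable_const.min (Lp.stronglyMeasurable u).measurable)

theorem tr_le (u : Inp) (s : ℝ) : |tr u s| ≤ ‖u‖ :=
  abs_le.2 ⟨le_max_left _ _, max_le (by linarith [norm_nonneg u]) (min_le_left _ _)⟩

theorem tr_ae (u : Inp) : ∀ᵐ s, s ∈ Ioi (0:ℝ) → tr u s = u s := by
  rw [← ae_restrict_iff' measurableSet_Ioi]
  filter_upwards [ae_le_eLpNormEssSup (f := u) (μ := volume.restrict (Ioi (0:ℝ)))] with s hs
  have h1 : ‖u s‖ ≤ ‖u‖ := by
    rw [Lp.norm_def, eLpNorm_exponent_top, ← toReal_enorm]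
    refine ENNReal.toReal_mono ?_ hs
    rw [← eLpNorm_exponent_top]
    exact Lp.eLpNorm_ne_top u
  have := abs_le.1 h1
  rw [tr, min_eq_right this.2, max_eq_right this.1]

theorem mild_iff {t : ℝ} (ht : 0 ≤ t) (x : X) (u : Inp) (n : ℕ) :
    Ph t (sb.repr x) (tr u) n = exp (-((n + 1) * π) ^ 2 * t) * (∫ z in Ioo (0:ℝ) 1, x z * sn n z) +
        √2 * ((n + 1) * π) * (-1) ^ n *
          ∫ s in (0:ℝ)..t, exp (-((n + 1) * π) ^ 2 * (t - s)) * u s := by
  rw [Ph_coe ⟨tr_meas u, _, tr_le u⟩ ht, A, wc, sb_repr, lam, bb]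
  congr 2
  refine intervalIntegral.integral_congr_ae ?_
  filter_upwards [tr_ae u] with s hs hs'
  rw [uIoc_of_le ht] at hs'
  rw [hs hs'.1]

theorem main : (∃ φ, IsMild φ) ∧ ∃ (V : X → ℝ) (κ : ℝ), 0 < κ ∧ Continuous V ∧
    (∀ x, ‖x‖ ^ 8 ≤ V x ∧ V x ≤ 128 * ‖x‖ ^ 8) ∧
    ∀ φ, IsMild φ → ∀ (x : X) (u : Inp),
      limsup (fun h : ℝ => (((V (φ h x u) - V x) / h : ℝ) : EReal)) (𝓝[>] 0) ≤
        ((-‖x‖ ^ 8 + κ * ‖u‖ ^ 8 : ℝ) : EReal) := by
  refine ⟨⟨fun t x u => sb.repr.symm (Ph t (sb.repr x) (tr u)), fun t ht x u n => ?_⟩,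
    fun x => V0 (sb.repr x), kap + 1, by linarith [kap_nonneg],
    V0_cont.comp sb.repr.continuous, fun x => ?_, fun φ hφ x u => ?_⟩
  · rw [← sb_repr, LinearIsometryEquiv.apply_symm_apply, mild_iff ht]
  · rw [← sb.repr.norm_map x]
    exact ⟨le_V0 _, V0_le _⟩
  · have h0 := le_V0 (sb.repr x)
    rw [sb.repr.norm_map x] at h0
    set W := V0 (sb.repr x) with hW
    have hW0 : 0 ≤ W := le_trans (by positivity) h0
    have h1 : ∀ᶠ h in 𝓝[>] (0:ℝ), (((V0 (sb.repr (φ h x u)) - W) / h : ℝ) : EReal) ≤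
        ((-W / (1 + h) + kap * ‖u‖ ^ 8 : ℝ) : EReal) := by
      filter_upwards [self_mem_nhdsWithin] with h hh
      have hh' : 0 < h := hh
      have e : sb.repr (φ h x u) = Ph h (sb.repr x) (tr u) := by
        apply lp.ext
        funext n
        rw [sb_repr, hφ h hh'.le, mild_iff hh'.le]
      have a := V0_diss (tr_meas u) (tr_le u) hh'.le (sb.repr x)
      have b : exp (-h) ≤ 1 / (1 + h) := by
        rw [exp_neg, one_div]
        exact inv_anti₀ (by positivity) (by linarith [add_one_le_exp h])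
      rw [EReal.coe_le_coe_iff, e, div_le_iff₀ hh']
      have c := mul_le_mul_of_nonneg_right b hW0
      have d : (-W / (1 + h) + kap * ‖u‖ ^ 8) * h = 1 / (1 + h) * W - W + kap * ‖u‖ ^ 8 * h := by
        field_simp; ring
      rw [d]
      linarith
    have h2 : Tendsto (fun h : ℝ => ((-W / (1 + h) + kap * ‖u‖ ^ 8 : ℝ) : EReal)) (𝓝[>] 0)
        (𝓝 ((-W / (1 + 0) + kap * ‖u‖ ^ 8 : ℝ) : EReal)) := by
      refine (continuous_coe_real_ereal.tendsto _).comp (tendsto_nhdsWithin_of_tendsto_nhds ?_)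
      exact ContinuousAt.tendsto (f := fun h : ℝ => -W / (1 + h) + kap * ‖u‖ ^ 8)
        (by fun_prop (disch := norm_num))
    refine (limsup_le_limsup h1).trans (h2.limsup_eq.le.trans ?_)
    rw [EReal.coe_le_coe_iff]
    have : 0 ≤ ‖u‖ ^ 8 := by positivity
    simp only [add_zero, div_one]
    linarith

end Pool.Agent.H15.IS
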