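import Mathlib

/-! Tools: a dyadic James lemma and basic estimates for quasi-greedy bases. -/

namespace Pool.Agent.H15.LE

open Finset

theorem james {Y : Type*} [NormedAddCommGroup Y] [NormedSpace ℝ Y] [UniformConvexSpace Y]
    {ε : ℝ} (hε : 0 < ε) : ∃ p : ℕ, ∀ (s : ℕ → Y) (ρ : ℝ), 0 < ρ → (∀ i, ‖s i‖ ≤ ρ) →
    ¬ (∀ a q : ℕ, a + 2 * 2 ^ q ≤ 2 * 2 ^ p → ε * ρ * 2 ^ q ≤
      ‖∑ i ∈ range (2 ^ q), s (a + 2 ^ q + i) - ∑ i ∈ range (2 ^ q), s (a + i)‖) := by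
  obtain ⟨δ, hδ, h⟩ := exists_forall_closed_ball_dist_add_le_two_sub Y hε
  set b := 2 - min δ 1 with hb
  have hb1 : 1 ≤ b := by have := min_le_right δ 1; linarith
  have hb2 : b < 2 := by have := lt_min hδ one_pos; linarith
  have hbδ : 2 - δ ≤ b := by have := min_le_left δ 1; linarith
  obtain ⟨p, hp⟩ := exists_pow_lt_of_lt_one (show 0 < ε / 2 by positivity)
    (show b / 2 < 1 by linarith)
  refine ⟨p, fun s ρ hρ hs H => ?_⟩
  have key : ∀ q a : ℕ, a + 2 ^ q ≤ 2 * 2 ^ p → ‖∑ i ∈ range (2 ^ q), s (a + i)‖ ≤ b ^ q * ρ := by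
    intro q
    induction q with
    | zero => intro a _; simpa using hs a
    | succ q ih =>
      intro a ha
      rw [pow_succ] at ha
      have h1 := ih a (by omega)
      have h2 := ih (a + 2 ^ q) (by omega)
      have h3 := H a q (by omega)
      have e : ∑ i ∈ range (2 ^ (q+1)), s (a + i)
          = ∑ i ∈ range (2 ^ q), s (a + 2 ^ q + i) + ∑ i ∈ range (2 ^ q), s (a + i) := by
        rw [pow_succ, mul_two, sum_range_add, add_comm]
        simp only [add_assoc]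
      rw [e]
      set u := ∑ i ∈ range (2 ^ q), s (a + 2 ^ q + i)
      set v := ∑ i ∈ range (2 ^ q), s (a + i)
      set r := b ^ q * ρ with hr
      have hr0 : 0 < r := by positivity
      have hr2 : r ≤ ρ * 2 ^ q := by
        rw [hr, mul_comm]
        exact mul_le_mul_of_nonneg_left (pow_le_pow_left₀ (by linarith) hb2.le q) hρ.le
      have h4 := @h (r⁻¹ • u) (by
          rw [norm_smul, norm_inv, Real.norm_eq_abs, abs_of_pos hr0, inv_mul_le_iff₀ hr0]; linarith)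
        (r⁻¹ • v) (by
          rw [norm_smul, norm_inv, Real.norm_eq_abs, abs_of_pos hr0, inv_mul_le_iff₀ hr0]; linarith)
        (by
          rw [← smul_sub, norm_smul, norm_inv, Real.norm_eq_abs, abs_of_pos hr0,
            le_inv_mul_iff₀ hr0]
          nlinarith)
      rw [← smul_add, norm_smul, norm_inv, Real.norm_eq_abs, abs_of_pos hr0,
        inv_mul_le_iff₀ hr0] at h4
      calc _ ≤ r * (2 - δ) := h4
        _ ≤ r * b := mul_le_mul_of_nonneg_left hbδ hr0.le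
        _ = _ := by rw [hr]; ring
  have h1 := key p 0 (by omega)
  have h2 := key p (0 + 2 ^ p) (by omega)
  have h3 := (H 0 p (by omega)).trans (norm_sub_le _ _)
  rw [div_pow, div_lt_div_iff₀ (by positivity) (by positivity)] at hp
  nlinarith

variable {𝕜 : Type*} [RCLike 𝕜] {X : Type*} [NormedAddCommGroup X] [NormedSpace 𝕜 X]

theorem james' {Y : Type*} [NormedAddCommGroup Y] [NormedSpace 𝕜 Y] [UniformConvexSpace Y]
    (T : X ≃L[𝕜] Y) {ε : ℝ} (hε : 0 < ε) :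
    ∃ p : ℕ, ∀ (s : ℕ → X) (ρ : ℝ), 0 < ρ → (∀ i, ‖s i‖ ≤ ρ) →
    ¬ (∀ a q : ℕ, a + 2 * 2 ^ q ≤ 2 * 2 ^ p → ε * ρ * 2 ^ q ≤
      ‖∑ i ∈ range (2 ^ q), s (a + 2 ^ q + i) - ∑ i ∈ range (2 ^ q), s (a + i)‖) := by
  let _ : NormedSpace ℝ Y := NormedSpace.restrictScalars ℝ 𝕜 Y
  set α := ‖(T : X →L[𝕜] Y)‖ + 1 with hα
  set β := ‖(T.symm : Y →L[𝕜] X)‖ + 1 with hβ
  have hα0 : 0 < α := by positivity
  have hβ0 : 0 < β := by positivity
  obtain ⟨p, hp⟩ := james (Y := Y) (show 0 < ε / (α * β) by positivity)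
  refine ⟨p, fun s ρ hρ hs H => hp (fun i => T (s i)) (α * ρ) (by positivity) (fun i => ?_) ?_⟩
  · calc ‖T (s i)‖ ≤ ‖(T : X →L[𝕜] Y)‖ * ‖s i‖ := (T : X →L[𝕜] Y).le_opNorm _
      _ ≤ α * ρ := mul_le_mul (by linarith) (hs i) (norm_nonneg _) hα0.le
  · intro a q haq
    have h1 := H a q haq
    rw [← map_sum, ← map_sum, ← map_sub]
    set w := ∑ i ∈ range (2 ^ q), s (a + 2 ^ q + i) - ∑ i ∈ range (2 ^ q), s (a + i)
    have h2 : ‖w‖ ≤ β * ‖T w‖ := by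
      calc ‖w‖ = ‖(T.symm : Y →L[𝕜] X) (T w)‖ := by simp
        _ ≤ ‖(T.symm : Y →L[𝕜] X)‖ * ‖T w‖ := ContinuousLinearMap.le_opNorm _ _
        _ ≤ _ := mul_le_mul_of_nonneg_right (by linarith) (norm_nonneg _)
    have e : ε / (α * β) * (α * ρ) * 2 ^ q = (ε * ρ * 2 ^ q) / β := by field_simp
    rw [e, div_le_iff₀ hβ0]
    linarith

noncomputable def sg (a : 𝕜) : 𝕜 := a / (‖a‖ : 𝕜)

theorem norm_sg {a : 𝕜} (h : a ≠ 0) : ‖sg a‖ = 1 := by
  rw [sg, norm_div, RCLike.norm_ofReal, abs_norm, div_self (norm_ne_zero_iff.2 h)]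

theorem mul_sg (a : 𝕜) : (‖a‖ : 𝕜) * sg a = a := by
  by_cases h : a = 0
  · simp [h]
  · have : (‖a‖ : 𝕜) ≠ 0 := by exact_mod_cast norm_ne_zero_iff.2 h
    rw [sg]; field_simp

theorem sg_mul {μ : ℝ} (hμ : 0 < μ) (a : 𝕜) : sg ((μ : 𝕜) * a) = sg a := by
  have : (μ : 𝕜) ≠ 0 := by exact_mod_cast hμ.ne'
  rw [sg, sg, norm_mul, RCLike.norm_ofReal, abs_of_pos hμ]
  push_cast
  rw [mul_div_mul_left _ _ this]

structure QGB (x : ℕ → X) (f : ℕ → X →L[𝕜] 𝕜) (C : ℝ) (A : X → ℝ → Finset ℕ) : Prop where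
  bi : ∀ n k, f n (x k) = if n = k then 1 else 0
  qg : ∀ (y : X) (B : Finset ℕ), (∀ n ∈ B, ∀ k ∉ B, ‖f k y‖ ≤ ‖f n y‖) →
    ‖∑ n ∈ B, f n y • x n‖ ≤ C * ‖y‖
  lev : ∀ h t, 0 < t → ∀ n, n ∈ A h t ↔ t ≤ ‖f n h‖
  one_le : 1 ≤ C

variable {x : ℕ → X} {f : ℕ → X →L[𝕜] 𝕜} {C : ℝ} {A : X → ℝ → Finset ℕ}

theorem QGB.coef (H : QGB x f C A) (B : Finset ℕ) (c : ℕ → 𝕜) (k : ℕ) :
    f k (∑ n ∈ B, c n • x n) = if k ∈ B then c k else 0 := by
  simp [map_sum, H.bi]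

theorem QGB.sub_le (H : QGB x f C A) {B B' : Finset ℕ} (hB : B ⊆ B') (ε : ℕ → 𝕜)
    (hε : ∀ n ∈ B', ‖ε n‖ = 1) : ‖∑ n ∈ B, ε n • x n‖ ≤ C * ‖∑ n ∈ B', ε n • x n‖ := by
  have h := H.qg (∑ n ∈ B', ε n • x n) B (by
    intro n hn k _
    rw [H.coef, H.coef, if_pos (hB hn), hε n (hB hn)]
    split_ifs with hk
    · exact (hε k hk).le
    · simp)
  rwa [sum_congr rfl fun n hn => by rw [H.coef, if_pos (hB hn)]] at h

theorem QGB.trunc (H : QGB x f C A) (y : X) (B : Finset ℕ) :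
    (∀ n ∈ B, ∀ k ∉ B, ‖f k y‖ ≤ ‖f n y‖) → ∀ s : ℝ, 0 ≤ s → (∀ n ∈ B, s ≤ ‖f n y‖) →
    ‖∑ n ∈ B, (f n y - s * sg (f n y)) • x n‖ ≤ C * ‖y‖ := by
  induction B using Finset.induction_on_min_value (fun n => ‖f n y‖) with
  | empty => intro _ _ _ _; have := H.one_le; simp; positivity
  | insert a B haB hmin ih =>
    intro hg s hs0 hs
    have h0 := H.qg y _ hg
    rcases hs0.eq_or_lt with rfl | hs0'
    · simpa using h0
    have ht : s ≤ ‖f a y‖ := hs a (mem_insert_self _ _)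
    have ht0 : 0 < ‖f a y‖ := hs0'.trans_le ht
    have h1 := ih (by
      intro n hn k hk
      by_cases hka : k = a
      · rw [hka]; exact hmin n hn
      · exact hg n (mem_insert_of_mem hn) k (by simp [hka, hk])) ‖f a y‖ ht0.le hmin
    set l : ℝ := s / ‖f a y‖ with hl
    have hl0 : 0 ≤ l := by positivity
    have hl1 : l ≤ 1 := (div_le_one ht0).2 ht
    have hls : (s : 𝕜) = (l : 𝕜) * (‖f a y‖ : 𝕜) := by
      rw [← RCLike.ofReal_mul, hl, div_mul_cancel₀ _ ht0.ne']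
    have e : ∑ n ∈ insert a B, (f n y - s * sg (f n y)) • x n
        = ((1 - l : ℝ) : 𝕜) • ∑ n ∈ insert a B, f n y • x n
          + (l : 𝕜) • ∑ n ∈ B, (f n y - (‖f a y‖ : ℝ) * sg (f n y)) • x n := by
      have e1 : ∑ n ∈ B, (f n y - (‖f a y‖ : ℝ) * sg (f n y)) • x n
          = ∑ n ∈ insert a B, (f n y - (‖f a y‖ : ℝ) * sg (f n y)) • x n := by
        rw [sum_insert haB, mul_sg]; simp
      rw [e1, smul_sum, smul_sum, ← sum_add_distrib]
      refine sum_congr rfl fun n _ => ?_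
      rw [smul_smul, smul_smul, ← add_smul, hls]
      congr 1
      push_cast
      ring
    rw [e]
    refine (norm_add_le _ _).trans ?_
    rw [norm_smul, norm_smul, RCLike.norm_ofReal, RCLike.norm_ofReal, abs_of_nonneg hl0,
      abs_of_nonneg (by linarith)]
    nlinarith

/-- the signed indicator of the level set -/
noncomputable def ind (x : ℕ → X) (f : ℕ → X →L[𝕜] 𝕜) (y : X) (B : Finset ℕ) : X :=
  ∑ n ∈ B, sg (f n y) • x n

theorem QGB.greedy (H : QGB x f C A) (y : X) {t : ℝ} (ht : 0 < t) :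
    ∀ n ∈ A y t, ∀ k ∉ A y t, ‖f k y‖ ≤ ‖f n y‖ := by
  intro n hn k hk
  rw [H.lev y t ht] at hn hk
  linarith [not_le.1 hk]

theorem QGB.psi_le (H : QGB x f C A) (y : X) {t : ℝ} (ht : 0 < t) :
    t * ‖ind x f y (A y t)‖ ≤ 2 * C * ‖y‖ := by
  have h1 := H.trunc y _ (H.greedy y ht) t ht.le fun n hn => (H.lev y t ht n).1 hn
  have h2 := H.qg y _ (H.greedy y ht)
  have e : (t : 𝕜) • ind x f y (A y t) = ∑ n ∈ A y t, f n y • x n
      - ∑ n ∈ A y t, (f n y - t * sg (f n y)) • x n := by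
    rw [ind, smul_sum, ← sum_sub_distrib]
    refine sum_congr rfl fun n _ => ?_
    rw [smul_smul, ← sub_smul]
    congr 1; ring
  have h3 := norm_sub_le (∑ n ∈ A y t, f n y • x n) (∑ n ∈ A y t, (f n y - t * sg (f n y)) • x n)
  rw [← e, norm_smul, RCLike.norm_ofReal, abs_of_pos ht] at h3
  linarith

theorem QGB.psi_ge (H : QGB x f C A) (h g : X) {t t0 η : ℝ} (ht : 0 < t) (ht0 : 0 < t0)
    (hη : t ≤ η * t0) (μ : ℕ → ℝ) (hμ0 : ∀ n, 0 ≤ μ n) (hμ1 : ∀ n, μ n ≤ 1)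
    (hg : ∀ n, f n g = (μ n : 𝕜) * f n h) (hμ : ∀ n, t ≤ ‖f n h‖ → ‖f n h‖ < t0 → μ n = 1) :
    t * ‖ind x f h (A h t)‖ ≤ t * ‖ind x f g (A g t)‖ + 2 * C ^ 2 * η * ‖h‖ := by
  have hn : ∀ n, ‖f n g‖ = μ n * ‖f n h‖ := fun n => by
    rw [hg, norm_mul, RCLike.norm_ofReal, abs_of_nonneg (hμ0 n)]
  have hsub : A g t ⊆ A h t := by
    intro n hn'
    rw [H.lev _ t ht] at hn' ⊢
    rw [hn] at hn'
    exact hn'.trans (mul_le_of_le_one_left (norm_nonneg _) (hμ1 n))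
  have e1 : ind x f g (A g t) = ∑ n ∈ A g t, sg (f n h) • x n := by
    refine sum_congr rfl fun n hn' => ?_
    rw [H.lev _ t ht, hn] at hn'
    have : 0 < μ n := by
      rcases (hμ0 n).eq_or_lt with h0 | h0
      · rw [← h0] at hn'; linarith
      · exact h0
    rw [hg, sg_mul this]
  have e2 : ind x f h (A h t) = ∑ n ∈ A h t \ A g t, sg (f n h) • x n + ind x f g (A g t) := by
    rw [e1, sum_sdiff hsub]; rfl
  have hsub2 : A h t \ A g t ⊆ A h t0 := by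
    intro n hn'
    rw [mem_sdiff, H.lev _ t ht, H.lev _ t ht] at hn'
    rw [H.lev _ t0 ht0]
    by_contra hc
    apply hn'.2
    rw [hn, hμ n hn'.1 (not_le.1 hc), one_mul]
    exact hn'.1
  have h1 := H.sub_le hsub2 (fun n => sg (f n h)) (fun n hn' => norm_sg (by
    rw [H.lev _ t0 ht0] at hn'
    exact norm_pos_iff.1 (ht0.trans_le hn')))
  have h2 := H.psi_le h ht0
  have h3 := norm_add_le (∑ n ∈ A h t \ A g t, sg (f n h) • x n) (ind x f g (A g t))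
  rw [← e2] at h3
  have hC := H.one_le
  have hη0 : 0 ≤ η := by
    by_contra hc
    nlinarith [not_le.1 hc]
  change _ ≤ C * ‖ind x f h (A h t0)‖ at h1
  have h4 : t * ‖∑ n ∈ A h t \ A g t, sg (f n h) • x n‖ ≤ η * t0 * (C * ‖ind x f h (A h t0)‖) :=
    mul_le_mul hη h1 (norm_nonneg _) (by positivity)
  have h5 : η * C * (t0 * ‖ind x f h (A h t0)‖) ≤ η * C * (2 * C * ‖h‖) :=
    mul_le_mul_of_nonneg_left h2 (by positivity)
  nlinarith

end Pool.Agent.H15.LE
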