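import Pool.Agent.H15.LE1

/-! The chain estimate and the summability of the level functionals. -/

namespace Pool.Agent.H15.LE

open Finset

variable {𝕜 : Type*} [RCLike 𝕜] {X : Type*} [NormedAddCommGroup X] [NormedSpace 𝕜 X]
variable {x : ℕ → X} {f : ℕ → X →L[𝕜] 𝕜} {C : ℝ} {A : X → ℝ → Finset ℕ}

def JP (X : Type*) [NormedAddCommGroup X] (ε : ℝ) (p : ℕ) : Prop :=
  ∀ (s : ℕ → X) (ρ : ℝ), 0 < ρ → (∀ i, ‖s i‖ ≤ ρ) →
    ¬ (∀ a q : ℕ, a + 2 * 2 ^ q ≤ 2 * 2 ^ p → ε * ρ * 2 ^ q ≤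
      ‖∑ i ∈ range (2 ^ q), s (a + 2 ^ q + i) - ∑ i ∈ range (2 ^ q), s (a + i)‖)

theorem QGB.chain (H : QGB x f C A) {p : ℕ} (hp : JP X (1 / (2 * C)) p) {θ β η : ℝ} {J : ℕ}
    (hθ : 0 < θ) (hη0 : 0 < η) (hη1 : η ≤ 1) (hβ : 2 * C ^ 2 * η * (2 ^ J * θ / (2 * C)) ≤ β) :
    ∀ j, j ≤ J → ∀ (h : X) (t : ℕ → ℝ), (∀ i, 0 < t i) → (∀ i, t (i+1) ≤ η * t i) →
      (∀ i < (2 * 2 ^ p) ^ j, θ + j * β ≤ t (i+1) * ‖ind x f h (A h (t (i+1)))‖) →
      2 ^ j * θ / (2 * C) ≤ ‖h‖ := by
  have hC := H.one_le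
  intro j
  induction j with
  | zero =>
    intro _ h t ht _ h3
    have h4 := h3 0 (by simp)
    have h5 := H.psi_le h (ht (0+1))
    rw [div_le_iff₀ (by positivity)]
    simp only [Nat.cast_zero, zero_mul, add_zero] at h4
    linarith
  | succ j ih =>
    intro hj h t ht ht2 h3
    by_contra hc
    push Not at hc
    have hanti : Antitone t := antitone_nat_of_succ_le fun i =>
      (ht2 i).trans (mul_le_of_le_one_left (ht i).le hη1)
    set n0 := (2 * 2 ^ p) ^ j with hn0
    set lam := 2 ^ j * θ / (2 * C) with hlam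
    have hlam0 : 0 < lam := by positivity
    have hc2 : ‖h‖ < 2 * lam := by
      have : 2 ^ (j+1) * θ / (2 * C) = 2 * lam := by rw [hlam]; ring
      linarith
    have hc3 : 2 * C ^ 2 * η * ‖h‖ ≤ β := by
      refine le_trans (mul_le_mul_of_nonneg_left (hc.le.trans ?_) (by positivity)) hβ
      refine div_le_div_of_nonneg_right (mul_le_mul_of_nonneg_right ?_ hθ.le) (by positivity)
      exact pow_le_pow_right₀ (by norm_num) hj
    refine hp (fun L => ∑ n ∈ A h (t (L * n0)), f n h • x n) (C * (2 * lam)) (by positivity)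
      (fun L => (H.qg h _ (H.greedy h (ht _))).trans
        (mul_le_mul_of_nonneg_left hc2.le (by positivity))) ?_
    intro a q haq
    have e0 : 1 / (2 * C) * (C * (2 * lam)) * 2 ^ q = lam * 2 ^ q := by field_simp
    rw [e0]
    set w := ∑ i ∈ range (2 ^ q), ∑ n ∈ A h (t ((a + 2 ^ q + i) * n0)), f n h • x n
      - ∑ i ∈ range (2 ^ q), ∑ n ∈ A h (t ((a + i) * n0)), f n h • x n with hw
    have hq : (0:ℝ) < 2 ^ q := by positivity
    let d : ℕ → ℕ → ℝ := fun n i => (if n ∈ A h (t ((a + 2 ^ q + i) * n0)) then 1 else 0)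
      - (if n ∈ A h (t ((a + i) * n0)) then 1 else 0)
    have hd : ∀ n i, 0 ≤ d n i ∧ d n i ≤ 1 := by
      intro n i
      have : n ∈ A h (t ((a + i) * n0)) → n ∈ A h (t ((a + 2 ^ q + i) * n0)) := by
        rw [H.lev _ _ (ht _), H.lev _ _ (ht _)]
        exact fun hh => (hanti (Nat.mul_le_mul_right _ (by omega))).trans hh
      simp only [d]
      split_ifs with h1 h2 h2
      · norm_num
      · norm_num
      · exact absurd (this h2) h1
      · norm_num
    let μ : ℕ → ℝ := fun n => (2 ^ q)⁻¹ * ∑ i ∈ range (2 ^ q), d n i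
    have hμ0 : ∀ n, 0 ≤ μ n := fun n =>
      mul_nonneg (by positivity) (sum_nonneg fun i _ => (hd n i).1)
    have hμ1 : ∀ n, μ n ≤ 1 := fun n => by
      simp only [μ]
      rw [inv_mul_le_iff₀ hq]
      calc _ ≤ ∑ i ∈ range (2 ^ q), (1:ℝ) := sum_le_sum fun i _ => (hd n i).2
        _ = _ := by simp
    let g : X := (((2 ^ q)⁻¹ : ℝ) : 𝕜) • w
    have hg : ∀ n, f n g = (μ n : 𝕜) * f n h := by
      intro n
      simp only [g, μ, map_smul, smul_eq_mul, hw, map_sub]
      rw [map_sum, map_sum, ← sum_sub_distrib, RCLike.ofReal_mul, mul_assoc, RCLike.ofReal_sum,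
        sum_mul]
      congr 1
      refine sum_congr rfl fun i _ => ?_
      rw [H.coef, H.coef]
      simp only [d]
      split_ifs <;> simp
    obtain ⟨L, hL⟩ : ∃ L, L + 1 = a + 2 ^ q := ⟨a + 2 ^ q - 1, by
      have : 0 < 2 ^ q := by positivity
      omega⟩
    have key := ih (by omega) g (fun i => t (L * n0 + i)) (fun i => ht _) (fun i => ht2 _) (by
      intro i hi
      have h4 := h3 (L * n0 + i) (by
        rw [pow_succ, ← hn0]
        calc L * n0 + i < (L + 1) * n0 := by rw [add_mul, one_mul]; omega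
          _ ≤ (2 * 2 ^ p) * n0 := Nat.mul_le_mul_right _ (by omega)
          _ = _ := mul_comm _ _)
      have h5 := H.psi_ge h g (t := t (L * n0 + i + 1)) (t0 := t (L * n0)) (η := η) (ht _) (ht _)
        ((hanti (by omega)).trans (ht2 _)) μ hμ0 hμ1 hg (by
          intro n h6 h7
          simp only [μ]
          rw [sum_congr rfl (g := fun _ => (1:ℝ)) fun i' hi' => ?_]
          · simp
          · have hi'' := mem_range.1 hi'
            have a1 : n ∈ A h (t ((a + 2 ^ q + i') * n0)) := by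
              rw [H.lev _ _ (ht _)]
              refine (hanti ?_).trans h6
              calc L * n0 + i + 1 ≤ (L + 1) * n0 := by rw [add_mul, one_mul]; omega
                _ ≤ _ := Nat.mul_le_mul_right _ (by omega)
            have a2 : n ∉ A h (t ((a + i') * n0)) := by
              rw [H.lev _ _ (ht _), not_le]
              exact h7.trans_le (hanti (Nat.mul_le_mul_right _ (by omega)))
            simp [d, a1, a2])
      push_cast at h4
      change θ + j * β ≤ t (L * n0 + i + 1) * ‖ind x f g (A g (t (L * n0 + i + 1)))‖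
      linarith)
    simp only [g] at key
    rw [norm_smul, RCLike.norm_ofReal, abs_of_pos (by positivity), le_inv_mul_iff₀ hq] at key
    linarith

theorem QGB.count (H : QGB x f C A) {p c0 : ℕ} (hp : JP X (1 / (2 * C)) p) (hc0 : C ≤ 2 ^ c0)
    (y : X) (hy : 0 < ‖y‖) {T : ℝ} (hT : 0 < T) (K J : ℕ) :
    (((range K).filter fun k => 8 * C * ‖y‖ / 2 ^ J ≤
      T / 2 ^ k * ‖ind x f y (A y (T / 2 ^ k))‖).card : ℝ) ≤ (c0 + 2) * 2 ^ ((p + 2) * J) := by
  classical
  have hC := H.one_le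
  set S := (range K).filter fun k => 8 * C * ‖y‖ / 2 ^ J ≤
      T / 2 ^ k * ‖ind x f y (A y (T / 2 ^ k))‖ with hS
  set D := 2 * J + c0 with hD
  have main : S.card ≤ D * (2 * 2 ^ p) ^ J := by
    by_contra hc
    push Not at hc
    let P : ℕ → Prop := fun k => k ∈ S ∨ K ≤ k
    have hinf : {k | P k}.Infinite :=
      (Set.Ici_infinite K).mono fun k hk => Or.inr hk
    have hmono : StrictMono (Nat.nth P) := Nat.nth_strictMono hinf
    have hcount : Nat.count P K = S.card := by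
      rw [Nat.count_eq_card_filter_range]
      congr 1
      ext k
      simp only [mem_filter, mem_range, P]
      constructor
      · rintro ⟨h1, h2 | h2⟩
        · exact h2
        · omega
      · intro h
        exact ⟨mem_range.1 (mem_filter.1 h).1, Or.inl h⟩
    have hmem : ∀ i < S.card, Nat.nth P i ∈ S := by
      intro i hi
      have h1 : Nat.nth P i < K := Nat.nth_lt_of_lt_count (by rwa [hcount])
      have h0 : P (Nat.nth P i) := Nat.nth_mem_of_infinite hinf i
      rcases h0 with h | h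
      · exact h
      · omega
    have hgap : ∀ a b, Nat.nth P a + b ≤ Nat.nth P (a + b) := by
      intro a b
      induction b with
      | zero => simp
      | succ b ih => have := hmono (show a + b < a + (b + 1) by omega); omega
    set θ := 4 * C * ‖y‖ / 2 ^ J with hθ
    have hθ0 : 0 < θ := by positivity
    have h1 := H.chain hp (θ := θ) (β := θ / 2 ^ J) (η := 1 / 2 ^ D) (J := J) hθ0 (by positivity)
      (by rw [div_le_one (by positivity)]; exact one_le_pow₀ (by norm_num))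
      (by
        have e : 2 * C ^ 2 * (1 / 2 ^ D) * (2 ^ J * θ / (2 * C)) = C / 2 ^ c0 * (θ / 2 ^ J) := by
          rw [hD, pow_add, two_mul J, pow_add]; field_simp
        rw [e]
        exact mul_le_of_le_one_left (by positivity) ((div_le_one (by positivity)).2 hc0))
      J le_rfl y (fun i => T / 2 ^ (Nat.nth P (D * i))) (fun i => by positivity)
      (fun i => by
        have := hgap (D * i) D
        rw [← mul_add_one] at this
        rw [div_mul_div_comm, one_mul, ← pow_add]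
        exact div_le_div_of_nonneg_left hT.le (by positivity)
          (pow_le_pow_right₀ (by norm_num) (by omega)))
      (fun i hi => by
        have h2 := hmem (D * (i+1)) (lt_of_le_of_lt (Nat.mul_le_mul_left _ hi) hc)
        have h3 := (mem_filter.1 h2).2
        refine le_trans ?_ h3
        have h4 : (J:ℝ) ≤ 2 ^ J := by exact_mod_cast (Nat.lt_two_pow_self (n := J)).le
        have h5 : J * (θ / 2 ^ J) ≤ θ := by
          rw [← mul_div_assoc, div_le_iff₀ (by positivity)]; nlinarith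
        have e : 8 * C * ‖y‖ / 2 ^ J = 2 * θ := by rw [hθ]; ring
        linarith)
    have e : 2 ^ J * θ / (2 * C) = 2 * ‖y‖ := by rw [hθ]; field_simp; norm_num
    linarith
  have h2 : D * (2 * 2 ^ p) ^ J ≤ (c0 + 2) * 2 ^ ((p + 2) * J) := by
    have a1 : J ≤ 2 ^ J := (Nat.lt_two_pow_self (n := J)).le
    have a2 : 1 ≤ 2 ^ J := Nat.one_le_two_pow
    have a3 : D ≤ (c0 + 2) * 2 ^ J := by rw [hD]; nlinarith
    have e : (c0 + 2) * 2 ^ ((p + 2) * J) = (c0 + 2) * 2 ^ J * (2 * 2 ^ p) ^ J := by ring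
    rw [e]
    exact Nat.mul_le_mul_right _ a3
  exact_mod_cast main.trans h2

theorem pow_le_levels {Q ψ : ℝ} (r : ℕ) (h0 : 0 ≤ ψ) (h1 : ψ ≤ Q) (K : ℕ) :
    ψ ^ r ≤ ∑ k ∈ range K, (if Q / 2 ^ (k+1) < ψ then (Q / 2 ^ k) ^ r else 0) + (Q / 2 ^ K) ^ r := by
  have hQ : 0 ≤ Q := h0.trans h1
  induction K with
  | zero => simpa using pow_le_pow_left₀ h0 h1 r
  | succ K ih =>
    rw [sum_range_succ]
    have a : 0 ≤ (Q / 2 ^ (K+1)) ^ r := by positivity
    split_ifs with h
    · linarith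
    · have b := pow_le_pow_left₀ h0 (not_lt.1 h) r
      have c : 0 ≤ ∑ k ∈ range K, (if Q / 2 ^ (k+1) < ψ then (Q / 2 ^ k) ^ r else 0) :=
        sum_nonneg fun k _ => by split_ifs <;> positivity
      linarith

theorem QGB.sum_psi (H : QGB x f C A) {p c0 : ℕ} (hp : JP X (1 / (2 * C)) p) (hc0 : C ≤ 2 ^ c0)
    (y : X) (hy : 0 < ‖y‖) {T : ℝ} (hT : 0 < T) (K : ℕ) :
    ∑ k ∈ range K, (T / 2 ^ k * ‖ind x f y (A y (T / 2 ^ k))‖) ^ (p + 3)
      ≤ (2 * ((c0 + 2) * 2 ^ (p + 2)) + 1) * (8 * C * ‖y‖) ^ (p + 3) := by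
  have hC := H.one_le
  set Q := 8 * C * ‖y‖ with hQ
  have hQ0 : 0 < Q := by positivity
  set ψ : ℕ → ℝ := fun k => T / 2 ^ k * ‖ind x f y (A y (T / 2 ^ k))‖ with hψ
  have h1 : ∀ k ∈ range K, ψ k ^ (p+3) ≤ ∑ J ∈ range K,
      (if Q / 2 ^ (J+1) < ψ k then (Q / 2 ^ J) ^ (p+3) else 0) + (Q / 2 ^ K) ^ (p+3) := by
    intro k _
    refine pow_le_levels _ (by positivity) ?_ K
    have := H.psi_le y (show 0 < T / 2 ^ k by positivity)
    simp only [hψ, hQ]
    nlinarith
  refine (sum_le_sum h1).trans ?_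
  rw [sum_add_distrib, sum_comm, sum_const, card_range, nsmul_eq_mul]
  have h2 : ∀ J ∈ range K, ∑ k ∈ range K, (if Q / 2 ^ (J+1) < ψ k then (Q / 2 ^ J) ^ (p+3) else 0)
      ≤ ((c0 + 2) * 2 ^ (p + 2) * Q ^ (p+3)) * (1 / 2) ^ J := by
    intro J _
    rw [← sum_filter, sum_const, nsmul_eq_mul]
    have a := H.count hp hc0 y hy hT K (J+1)
    have b : (((range K).filter fun k => Q / 2 ^ (J+1) < ψ k).card : ℝ) ≤
        ((range K).filter fun k => 8 * C * ‖y‖ / 2 ^ (J+1) ≤
          T / 2 ^ k * ‖ind x f y (A y (T / 2 ^ k))‖).card := by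
      refine Nat.cast_le.2 (card_le_card fun k hk => ?_)
      rw [mem_filter] at hk ⊢
      exact ⟨hk.1, hk.2.le⟩
    calc _ ≤ ((c0 + 2) * 2 ^ ((p + 2) * (J+1))) * (Q / 2 ^ J) ^ (p+3) :=
          mul_le_mul_of_nonneg_right (b.trans a) (by positivity)
      _ = _ := by
          rw [div_pow, one_div, inv_pow]
          field_simp
          ring
  have h3 := sum_le_sum h2
  rw [← mul_sum] at h3
  have h4 := sum_geometric_two_le K
  have h5 : (K:ℝ) * (Q / 2 ^ K) ^ (p+3) ≤ Q ^ (p+3) := by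
    have a : (K:ℝ) ≤ 2 ^ K := by exact_mod_cast (Nat.lt_two_pow_self (n := K)).le
    have b : (2:ℝ) ^ K ≤ (2 ^ K) ^ (p+3) := le_self_pow₀ (one_le_pow₀ (by norm_num)) (by omega)
    rw [div_pow, ← mul_div_assoc, div_le_iff₀ (by positivity), mul_comm]
    exact mul_le_mul_of_nonneg_left (a.trans b) (by positivity)
  have h6 : ((c0 + 2) * 2 ^ (p + 2) * Q ^ (p+3)) * ∑ J ∈ range K, (1 / 2 : ℝ) ^ J
      ≤ ((c0 + 2) * 2 ^ (p + 2) * Q ^ (p+3)) * 2 := mul_le_mul_of_nonneg_left h4 (by positivity)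
  linarith

end Pool.Agent.H15.LE
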