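import Pool.Agent.H15.LE2

/-! Lorentz embedding for quasi-greedy bases of superreflexive spaces. -/

namespace Pool.Agent.H15.LE

open Finset

/-- lower democracy function: `phiL 𝕜 x m = inf {‖∑_{n∈A} ε_n x_n‖ : |A| ≥ m, |ε_n| = 1}`. -/
noncomputable def phiL (𝕜 : Type*) [RCLike 𝕜] {X : Type*} [NormedAddCommGroup X] [NormedSpace 𝕜 X]
    (x : ℕ → X) (m : ℕ) : ℝ :=
  sInf {r : ℝ | ∃ (A : Finset ℕ) (ε : ℕ → 𝕜), m ≤ A.card ∧ (∀ n ∈ A, ‖ε n‖ = 1) ∧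
    r = ‖∑ n ∈ A, ε n • x n‖}

/-- nonincreasing rearrangement: `rearr a m = inf {t ≥ 0 : fewer than m indices have a n > t}`. -/
noncomputable def rearr (a : ℕ → ℝ) (m : ℕ) : ℝ :=
  sInf {t : ℝ | 0 ≤ t ∧ {n | t < a n}.encard < m}

variable {𝕜 : Type*} [RCLike 𝕜] {X : Type*} [NormedAddCommGroup X] [NormedSpace 𝕜 X]

theorem phiL_nonneg (x : ℕ → X) (m : ℕ) : 0 ≤ phiL 𝕜 x m :=
  Real.sInf_nonneg (by rintro _ ⟨A, ε, _, _, rfl⟩; exact norm_nonneg _)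

theorem phiL_le (x : ℕ → X) (m : ℕ) (A : Finset ℕ) (ε : ℕ → 𝕜) (h : m ≤ A.card)
    (hε : ∀ n ∈ A, ‖ε n‖ = 1) : phiL 𝕜 x m ≤ ‖∑ n ∈ A, ε n • x n‖ :=
  csInf_le ⟨0, by rintro _ ⟨A, ε, _, _, rfl⟩; exact norm_nonneg _⟩ ⟨A, ε, h, hε, rfl⟩

theorem phiL_mono (x : ℕ → X) : Monotone (phiL 𝕜 x) := by
  intro m m' h
  refine le_csInf ⟨_, range m', fun _ => 1, by simp, by simp, rfl⟩ ?_
  rintro _ ⟨A, ε, h1, h2, rfl⟩
  exact phiL_le x m A ε (h.trans h1) h2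

theorem phiL_zero (x : ℕ → X) : phiL 𝕜 x 0 = 0 :=
  le_antisymm (by simpa using phiL_le (𝕜 := 𝕜) x 0 ∅ (fun _ => 1) (by simp) (by simp))
    (phiL_nonneg x 0)

theorem rearr_nonneg (a : ℕ → ℝ) (m : ℕ) : 0 ≤ rearr a m :=
  Real.sInf_nonneg fun _ h => h.1

theorem rearr_le (a : ℕ → ℝ) (m : ℕ) {t : ℝ} (ht : 0 ≤ t) (h : {n | t < a n}.encard < m) :
    rearr a m ≤ t := csInf_le ⟨0, fun _ h => h.1⟩ ⟨ht, h⟩

theorem fin_level (x : ℕ → X) (f : ℕ → X →L[𝕜] 𝕜)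
    (hbi : ∀ n k, f n (x k) = if n = k then 1 else 0)
    (hd : Dense (Submodule.span 𝕜 (Set.range x) : Set X)) {M : ℝ} (hM0 : 0 < M)
    (hM : ∀ n, ‖f n‖ ≤ M) (y : X) {t : ℝ} (ht : 0 < t) : {n | t ≤ ‖f n y‖}.Finite := by
  obtain ⟨z, hz, hyz⟩ := Metric.mem_closure_iff.1 (hd y) (t / M) (by positivity)
  obtain ⟨c, rfl⟩ := Finsupp.mem_span_range_iff_exists_finsupp.1 hz
  refine c.support.finite_toSet.subset fun n hn => ?_
  by_contra hc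
  have h0 : f n (c.sum fun i a => a • x i) = 0 := by
    rw [Finsupp.sum, map_sum]
    refine sum_eq_zero fun k hk => ?_
    have : n ≠ k := by rintro rfl; exact hc hk
    simp [hbi, this]
  have h1 : ‖f n y‖ ≤ M * dist y (c.sum fun i a => a • x i) := by
    rw [dist_eq_norm]
    calc ‖f n y‖ = ‖f n (y - c.sum fun i a => a • x i)‖ := by rw [map_sub, h0, sub_zero]
      _ ≤ _ := ((f n).le_opNorm _).trans (mul_le_mul_of_nonneg_right (hM n) (norm_nonneg _))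
  rw [lt_div_iff₀ hM0] at hyz
  have h2 : t ≤ ‖f n y‖ := hn
  linarith

variable {x : ℕ → X} {f : ℕ → X →L[𝕜] 𝕜} {C : ℝ} {A : X → ℝ → Finset ℕ}

theorem QGB.level_sum (H : QGB x f C A) (y : X) {t : ℝ} (ht : 0 < t) (r N : ℕ) (c : ℝ)
    (hc : 0 ≤ c) :
    ∑ m ∈ range N, (if t < rearr (fun n => ‖f n y‖) (m+1) then c else 0)
      * (phiL 𝕜 x (m+1) ^ (r+1) - phiL 𝕜 x m ^ (r+1)) ≤ c * ‖ind x f y (A y t)‖ ^ (r+1) := by
  have hΔ : ∀ m, 0 ≤ phiL 𝕜 x (m+1) ^ (r+1) - phiL 𝕜 x m ^ (r+1) := fun m =>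
    sub_nonneg.2 (pow_le_pow_left₀ (phiL_nonneg x m) (phiL_mono x (Nat.le_succ m)) _)
  calc _ = ∑ m ∈ (range N).filter (fun m => t < rearr (fun n => ‖f n y‖) (m+1)),
        c * (phiL 𝕜 x (m+1) ^ (r+1) - phiL 𝕜 x m ^ (r+1)) := by
        rw [sum_filter]
        exact sum_congr rfl fun m _ => by split_ifs <;> simp
    _ ≤ ∑ m ∈ range (A y t).card, c * (phiL 𝕜 x (m+1) ^ (r+1) - phiL 𝕜 x m ^ (r+1)) := by
        refine sum_le_sum_of_subset_of_nonneg (fun m hm => ?_) fun m _ _ => mul_nonneg hc (hΔ m)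
        have h1 := (mem_filter.1 hm).2
        rw [mem_range]
        by_contra h2
        refine absurd h1 (not_lt.2 (rearr_le _ _ ht.le ?_))
        have h3 : {n | t < ‖f n y‖} ⊆ (A y t : Set ℕ) := fun n hn =>
          (H.lev y t ht n).2 (le_of_lt hn)
        refine (Set.encard_le_encard h3).trans_lt ?_
        rw [Set.encard_coe_eq_coe_finsetCard]
        exact_mod_cast (by omega : (A y t).card < m + 1)
    _ = c * phiL 𝕜 x (A y t).card ^ (r+1) := by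
        rw [← mul_sum, sum_range_sub (fun m => phiL 𝕜 x m ^ (r+1)), phiL_zero]; simp
    _ ≤ _ := by
        refine mul_le_mul_of_nonneg_left (pow_le_pow_left₀ (phiL_nonneg x _) ?_ _) hc
        refine phiL_le x _ _ _ le_rfl fun n hn => norm_sg ?_
        rw [H.lev y t ht] at hn
        exact norm_pos_iff.1 (ht.trans_le hn)

theorem QGB.lorentz (H : QGB x f C A) {p c0 : ℕ} (hp : JP X (1 / (2 * C)) p) (hc0 : C ≤ 2 ^ c0)
    {M : ℝ} (hM0 : 0 < M) (hM : ∀ n, ‖f n‖ ≤ M) (y : X) (N : ℕ) :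
    ∑ m ∈ range N, rearr (fun n => ‖f n y‖) (m+1) ^ (p+3) * phiL 𝕜 x (m+1) ^ (p+2)
      * (phiL 𝕜 x (m+1) - phiL 𝕜 x m) ≤
      (2 ^ (p+3) * (2 * ((c0 + 2) * 2 ^ (p + 2)) + 1) * (8 * C) ^ (p+3) + M ^ (p+3))
        * ‖y‖ ^ (p+3) := by
  have hC := H.one_le
  have hT : ∀ m, rearr (fun n => ‖f n y‖) (m+1) ≤ M * ‖y‖ := by
    intro m
    refine rearr_le _ _ (by positivity) ?_
    have : {n | M * ‖y‖ < ‖f n y‖} = ∅ := by
      ext n
      simp only [Set.mem_setOf_eq, Set.mem_empty_iff_false, iff_false, not_lt]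
      exact ((f n).le_opNorm _).trans (mul_le_mul_of_nonneg_right (hM n) (norm_nonneg _))
    rw [this, Set.encard_empty]
    exact_mod_cast Nat.succ_pos m
  rcases (norm_nonneg y).eq_or_lt with hy | hy
  · have : ∀ m, rearr (fun n => ‖f n y‖) (m+1) = 0 := fun m =>
      le_antisymm (by simpa [← hy] using hT m) (rearr_nonneg _ _)
    simp [this, ← hy]
  set T := M * ‖y‖ with hTdef
  have hT0 : 0 < T := by positivity
  set s := phiL 𝕜 x with hs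
  set a := rearr (fun n => ‖f n y‖) with ha
  obtain ⟨K, hK⟩ := pow_unbounded_of_one_lt (s N) (show (1:ℝ) < 2 by norm_num)
  have hΔ : ∀ m, 0 ≤ s (m+1) ^ (p+3) - s m ^ (p+3) := fun m =>
    sub_nonneg.2 (pow_le_pow_left₀ (phiL_nonneg x m) (phiL_mono x (Nat.le_succ m)) _)
  have h1 : ∀ m ∈ range N, a (m+1) ^ (p+3) * s (m+1) ^ (p+2) * (s (m+1) - s m) ≤
      ∑ k ∈ range K, (if T / 2 ^ (k+1) < a (m+1) then (T / 2 ^ k) ^ (p+3) else 0)
        * (s (m+1) ^ (p+3) - s m ^ (p+3)) + (T / 2 ^ K) ^ (p+3) * (s (m+1) ^ (p+3) - s m ^ (p+3)) := by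
    intro m _
    rw [← sum_mul, ← add_mul, mul_assoc]
    have b1 : s m ^ (p+2) ≤ s (m+1) ^ (p+2) :=
      pow_le_pow_left₀ (phiL_nonneg x m) (phiL_mono x (Nat.le_succ m)) _
    have b2 : s (m+1) ^ (p+2) * (s (m+1) - s m) ≤ s (m+1) ^ (p+3) - s m ^ (p+3) := by
      have := mul_le_mul_of_nonneg_right b1 (phiL_nonneg (𝕜 := 𝕜) x m)
      rw [pow_succ _ (p+2), pow_succ _ (p+2)]
      linarith
    have b3 := pow_le_levels (p+3) (rearr_nonneg _ (m+1)) (hT m) K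
    calc _ ≤ a (m+1) ^ (p+3) * (s (m+1) ^ (p+3) - s m ^ (p+3)) :=
          mul_le_mul_of_nonneg_left b2 (pow_nonneg (rearr_nonneg _ _) _)
      _ ≤ _ := mul_le_mul_of_nonneg_right b3 (hΔ m)
  refine (sum_le_sum h1).trans ?_
  rw [sum_add_distrib, sum_comm, ← mul_sum, sum_range_sub (fun m => s m ^ (p+3))]
  have h2 : ∀ k ∈ range K, ∑ m ∈ range N,
      (if T / 2 ^ (k+1) < a (m+1) then (T / 2 ^ k) ^ (p+3) else 0) * (s (m+1) ^ (p+3) - s m ^ (p+3))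
      ≤ 2 ^ (p+3) * (T / 2 / 2 ^ k * ‖ind x f y (A y (T / 2 / 2 ^ k))‖) ^ (p+3) := by
    intro k _
    have e : T / 2 ^ (k+1) = T / 2 / 2 ^ k := by rw [pow_succ]; field_simp
    have := H.level_sum y (show 0 < T / 2 ^ (k+1) by positivity) (p+2) N ((T / 2 ^ k) ^ (p+3))
      (by positivity)
    refine this.trans (le_of_eq ?_)
    rw [e, ← mul_pow, ← mul_pow]
    congr 1
    field_simp
  have h3 := sum_le_sum h2
  rw [← mul_sum] at h3
  have h4 := H.sum_psi hp hc0 y hy (show 0 < T / 2 by positivity) K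
  have h5 : (T / 2 ^ K) ^ (p+3) * (s N ^ (p+3) - s 0 ^ (p+3)) ≤ T ^ (p+3) := by
    have : s 0 = 0 := phiL_zero x
    rw [this, zero_pow (by omega), sub_zero, ← mul_pow]
    refine pow_le_pow_left₀ (mul_nonneg (by positivity) (phiL_nonneg x N)) ?_ _
    rw [div_mul_eq_mul_div, div_le_iff₀ (by positivity)]
    exact mul_le_mul_of_nonneg_left hK.le hT0.le
  have h6 := mul_le_mul_of_nonneg_left h4 (show (0:ℝ) ≤ 2 ^ (p+3) by positivity)
  rw [hTdef, mul_pow] at h5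
  rw [mul_pow (8 * C)] at h6
  linarith

theorem main {Y : Type*} [NormedAddCommGroup Y] [NormedSpace 𝕜 Y] [UniformConvexSpace Y]
    (T : X ≃L[𝕜] Y) (x : ℕ → X) (f : ℕ → X →L[𝕜] 𝕜)
    (hbi : ∀ n k, f n (x k) = if n = k then 1 else 0)
    (hd : Dense (Submodule.span 𝕜 (Set.range x) : Set X))
    (hb : ∃ M : ℝ, ∀ n, ‖x n‖ ≤ M ∧ ‖f n‖ ≤ M)
    (hqg : ∃ C : ℝ, ∀ (y : X) (B : Finset ℕ), B.Nonempty →
      (∀ n ∈ B, ∀ k ∉ B, ‖f k y‖ ≤ ‖f n y‖) → ‖∑ n ∈ B, f n y • x n‖ ≤ C * ‖y‖) :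
    ∃ r : ℝ, 1 ≤ r ∧ ∃ C : ℝ, ∀ y : X,
      Summable (fun m : ℕ => rearr (fun n => ‖f n y‖) (m+1) ^ r * phiL 𝕜 x (m+1) ^ (r - 1)
        * (phiL 𝕜 x (m+1) - phiL 𝕜 x m)) ∧
      (∑' m : ℕ, rearr (fun n => ‖f n y‖) (m+1) ^ r * phiL 𝕜 x (m+1) ^ (r - 1)
        * (phiL 𝕜 x (m+1) - phiL 𝕜 x m)) ^ (1 / r) ≤ C * ‖y‖ := by
  classical
  obtain ⟨M0, hM0⟩ := hb
  obtain ⟨C0, hC0⟩ := hqg
  set M := max M0 1
  have hM1 : 0 < M := lt_max_of_lt_right one_pos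
  have hM : ∀ n, ‖f n‖ ≤ M := fun n => (hM0 n).2.trans (le_max_left _ _)
  set C := max C0 1
  have hC : 1 ≤ C := le_max_right _ _
  let A : X → ℝ → Finset ℕ := fun y t =>
    if ht : 0 < t then (fin_level x f hbi hd hM1 hM y ht).toFinset else ∅
  have H : QGB x f C A :=
    { bi := hbi
      qg := fun y B hB => by
        rcases B.eq_empty_or_nonempty with rfl | hne
        · simp; positivity
        · exact (hC0 y B hne hB).trans
            (mul_le_mul_of_nonneg_right (le_max_left _ _) (norm_nonneg _))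
      lev := fun y t ht n => by simp [A, ht]
      one_le := hC }
  obtain ⟨p, hp⟩ := james' T (show 0 < 1 / (2 * C) by positivity)
  obtain ⟨c0, hc0⟩ := pow_unbounded_of_one_lt C (show (1:ℝ) < 2 by norm_num)
  set L : ℝ := 2 ^ (p+3) * (2 * ((c0 + 2) * 2 ^ (p + 2)) + 1) * (8 * C) ^ (p+3) + M ^ (p+3)
  have hL : 0 ≤ L := by positivity
  refine ⟨((p + 3 : ℕ) : ℝ), by push_cast; linarith [Nat.cast_nonneg (α := ℝ) p],
    L ^ (1 / ((p + 3 : ℕ) : ℝ)), fun y => ?_⟩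
  have e : ((p + 3 : ℕ) : ℝ) - 1 = ((p + 2 : ℕ) : ℝ) := by push_cast; ring
  simp only [e, Real.rpow_natCast]
  have h0 : ∀ m, 0 ≤ rearr (fun n => ‖f n y‖) (m+1) ^ (p+3) * phiL 𝕜 x (m+1) ^ (p+2)
      * (phiL 𝕜 x (m+1) - phiL 𝕜 x m) := fun m =>
    mul_nonneg (mul_nonneg (pow_nonneg (rearr_nonneg _ _) _) (pow_nonneg (phiL_nonneg _ _) _))
      (sub_nonneg.2 (phiL_mono x (Nat.le_succ m)))
  have h1 := H.lorentz hp hc0.le hM1 hM y
  refine ⟨summable_of_sum_range_le h0 h1, ?_⟩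
  have h2 := Real.tsum_le_of_sum_range_le h0 h1
  refine (Real.rpow_le_rpow (tsum_nonneg h0) h2 (by positivity)).trans (le_of_eq ?_)
  rw [Real.mul_rpow hL (by positivity), one_div, Real.pow_rpow_inv_natCast (norm_nonneg _) (by omega)]

end Pool.Agent.H15.LE
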