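import Mathlib

/-! Definitions for scalar time-delay systems with delay `3π`. -/

namespace Pool.Agent.H15.LK

open MeasureTheory Set Real Filter Topology

theorem hT : -(3 * π) ≤ (0:ℝ) := by linarith [pi_pos]

/-- the state space `C([-3π,0],ℝ)` -/
abbrev St := C(Icc (-(3 * π)) (0:ℝ), ℝ)

/-- the point `0` of `[-3π,0]` -/
def z0 : Icc (-(3 * π)) (0:ℝ) := ⟨0, hT, le_rfl⟩

/-- value of a state at a real argument, clamped to `[-3π,0]` -/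
noncomputable def ev (x : St) (r : ℝ) : ℝ := x (projIcc _ _ hT r)

theorem ev_cont2 : Continuous fun p : St × ℝ => ev p.1 p.2 :=
  continuous_fst.eval (continuous_projIcc.comp continuous_snd)

theorem ev_cont (x : St) : Continuous (ev x) := x.continuous.comp continuous_projIcc

/-- Driver's state: `x(s+h)` for `s ≤ -h` and `x(0) + d (h+s)` for `s ≥ -h`. -/
noncomputable def star (x : St) (d h : ℝ) : St :=
  ⟨fun s => ev x (s + h) + d * max (h + s) 0, by have := ev_cont x; fun_prop⟩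

/-- the Driver derivative -/
noncomputable def driver (f : St → ℝ → ℝ) (V : St → ℝ) (x : St) (v : ℝ) : EReal :=
  limsup (fun h : ℝ => (((V (star x (f x v) h) - V x) / h : ℝ) : EReal)) (𝓝[>] 0)

/-- `ξ t` is the state at time `t ∈ [0,b)` of a solution with input `u`. -/
def IsSol (f : St → ℝ → ℝ) (u : ℝ → ℝ) (ξ : ℝ → St) (b : EReal) : Prop :=
  ∃ y : ℝ → ℝ, ContinuousOn y {t | -(3 * π) ≤ t ∧ (t : EReal) < b} ∧
    ∀ t : ℝ, 0 ≤ t → (t : EReal) < b → (∀ s, ξ t s = y (t + s)) ∧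
      IntervalIntegrable (fun τ => f (ξ τ) (u τ)) volume 0 t ∧
      y t = y 0 + ∫ τ in (0:ℝ)..t, f (ξ τ) (u τ)

/-- the regularity condition on a functional `V` -/
def Regular (f : St → ℝ → ℝ) (V : St → ℝ) : Prop :=
  ∀ u : ℝ → ℝ, MemLp u ⊤ (volume.restrict (Ioi 0)) → ∀ (ξ : ℝ → St) (b : EReal), IsSol f u ξ b →
    (∀ t₁ t₂ : ℝ, 0 ≤ t₁ → t₁ ≤ t₂ → (t₂ : EReal) < b →
      AbsolutelyContinuousOnInterval (fun t => V (ξ t)) t₁ t₂) ∧
    ∀ᵐ t : ℝ, 0 ≤ t → (t : EReal) < b →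
      limsup (fun h : ℝ => (((V (ξ (t + h)) - V (ξ t)) / h : ℝ) : EReal)) (𝓝[>] 0)
        = driver f V (ξ t) (u t)

/-- class `K` -/
def IsK (γ : ℝ → ℝ) : Prop := ContinuousOn γ (Ici 0) ∧ StrictMonoOn γ (Ici 0) ∧ γ 0 = 0

/-- class `K∞` -/
def IsKinf (γ : ℝ → ℝ) : Prop := IsK γ ∧ Tendsto γ atTop atTop

/-- class `KL` -/
def IsKL (β : ℝ → ℝ → ℝ) : Prop :=
  (∀ t, 0 ≤ t → IsK fun r => β r t) ∧
    ∀ r, 0 ≤ r → AntitoneOn (β r) (Ici 0) ∧ Tendsto (β r) atTop (𝓝 0)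

/-- the ISS estimate along all global solutions -/
def ISS (f : St → ℝ → ℝ) : Prop :=
  ∃ β γ, IsKL β ∧ IsKinf γ ∧ ∀ u : ℝ → ℝ, MemLp u ⊤ (volume.restrict (Ioi 0)) →
    ∀ ξ : ℝ → St, IsSol f u ξ ⊤ → ∀ t, 0 ≤ t →
      |ξ t z0| ≤ β ‖ξ 0‖ t + γ (eLpNorm u ⊤ (volume.restrict (Ioi 0))).toReal

end Pool.Agent.H15.LK
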