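import Pool.Agent.H15.LK1

/-! The system and the functional. -/

namespace Pool.Agent.H15.LK

open MeasureTheory Set Real Filter Topology

noncomputable def h0 (a : ℝ) : ℝ := max (1 - |a|) 0

noncomputable def h1 (a : ℝ) : ℝ := smoothTransition ((a ^ 2 - 1) / 3)

noncomputable def KK : ℝ := 2 * exp (2 * π)

noncomputable def N (x : St) : ℝ :=
  KK * ∫ r in (-(2 * π))..0, exp r * (|ev x (r - π)| * h0 (ev x r))

noncomputable def sg (v : ℝ) : ℝ := max (-1) (min 1 (v - 5))

noncomputable def gg (a v : ℝ) : ℝ := min 1 (max (|a| - 2) 0 + max (|v| - |a|) 0)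

noncomputable def ff (x : St) (v : ℝ) : ℝ := -x z0 + N x * (sg v * gg (x z0) v)

noncomputable def VV (x : St) : ℝ := x z0 ^ 2 + h1 (x z0) * N x ^ 2

theorem KK_pos : 0 < KK := by unfold KK; positivity

theorem h0_cont : Continuous h0 := by unfold h0; fun_prop

theorem h0_nonneg (a : ℝ) : 0 ≤ h0 a := le_max_right _ _

theorem h0_le (a : ℝ) : h0 a ≤ 1 := max_le (by linarith [abs_nonneg a]) zero_le_one

theorem h0_lip (a b : ℝ) : |h0 a - h0 b| ≤ |a - b| := by
  refine (abs_max_sub_max_le_abs _ _ _).trans ?_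
  rw [sub_sub_sub_cancel_left, abs_sub_comm a b]
  exact abs_abs_sub_abs_le_abs_sub _ _

theorem h1_cd : ContDiff ℝ 1 h1 := by
  unfold h1
  exact smoothTransition.contDiff.comp (by fun_prop)

theorem ev_le (x : St) (r : ℝ) : |ev x r| ≤ ‖x‖ := x.norm_coe_le_norm _

theorem ev_sub (x x' : St) (r : ℝ) : |ev x r - ev x' r| ≤ ‖x - x'‖ := (x - x').norm_coe_le_norm _

theorem ev_zero (x : St) {r : ℝ} (hr : 0 ≤ r) : ev x r = x z0 := by
  rw [ev, projIcc_of_right_le _ hr]; rfl

theorem ev_mem (x : St) (s : Icc (-(3 * π)) (0:ℝ)) : ev x s = x s := by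
  rw [ev, projIcc_val]

theorem N_cont : Continuous N := by
  unfold N
  refine continuous_const.mul (intervalIntegral.continuous_parametric_intervalIntegral_of_continuous'
    (f := fun (x : St) r => exp r * (|ev x (r - π)| * h0 (ev x r))) ?_ _ _)
  have a : Continuous fun p : St × ℝ => ev p.1 (p.2 - π) :=
    ev_cont2.comp (continuous_fst.prodMk (continuous_snd.sub continuous_const))
  exact (continuous_exp.comp continuous_snd).mul (a.abs.mul (h0_cont.comp ev_cont2))

theorem int_cont (x : St) : Continuous fun r => exp r * (|ev x (r - π)| * h0 (ev x r)) := by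
  have := ev_cont x
  have := h0_cont
  fun_prop

theorem N_nonneg (x : St) : 0 ≤ N x :=
  mul_nonneg KK_pos.le (intervalIntegral.integral_nonneg (by linarith [pi_pos]) fun r _ =>
    mul_nonneg (exp_pos _).le (mul_nonneg (abs_nonneg _) (h0_nonneg _)))

theorem N_lip {x x' : St} {ρ : ℝ} (h : ‖x'‖ ≤ ρ) :
    |N x - N x'| ≤ KK * ((1 + ρ) * (2 * π)) * ‖x - x'‖ := by
  have hπ := pi_pos
  rw [N, N, ← mul_sub, ← intervalIntegral.integral_sub ((int_cont x).intervalIntegrable _ _)
    ((int_cont x').intervalIntegrable _ _), abs_mul, abs_of_pos KK_pos, mul_assoc]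
  refine mul_le_mul_of_nonneg_left ?_ KK_pos.le
  have := intervalIntegral.norm_integral_le_of_norm_le_const (a := -(2 * π)) (b := 0)
    (C := (1 + ρ) * ‖x - x'‖) (f := fun r => exp r * (|ev x (r - π)| * h0 (ev x r))
      - exp r * (|ev x' (r - π)| * h0 (ev x' r))) (by
    intro r hr
    rw [uIoc_of_le (by linarith)] at hr
    have a1 : exp r ≤ 1 := exp_le_one_iff.2 hr.2
    have a2 := (abs_abs_sub_abs_le_abs_sub _ _).trans (ev_sub x x' (r - π))
    have a3 := (h0_lip _ _).trans (ev_sub x x' r)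
    have a4 := (ev_le x' (r - π)).trans h
    have e : |ev x (r - π)| * h0 (ev x r) - |ev x' (r - π)| * h0 (ev x' r) =
        (|ev x (r - π)| - |ev x' (r - π)|) * h0 (ev x r)
          + |ev x' (r - π)| * (h0 (ev x r) - h0 (ev x' r)) := by ring
    rw [← mul_sub, Real.norm_eq_abs, abs_mul, abs_of_pos (exp_pos _), e]
    refine (mul_le_of_le_one_left (abs_nonneg _) a1).trans ((abs_add_le _ _).trans ?_)
    rw [abs_mul, abs_mul, abs_abs, abs_of_nonneg (h0_nonneg _)]
    have b1 := mul_le_mul a2 (h0_le (ev x r)) (h0_nonneg _) (norm_nonneg _)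
    have b2 := mul_le_mul a4 a3 (abs_nonneg _) ((abs_nonneg _).trans a4)
    linarith)
  rw [sub_neg_eq_add, zero_add, abs_of_pos (show 0 < 2 * π by positivity)] at this
  refine this.trans (le_of_eq (by ring))

theorem N_zero : N 0 = 0 := by simp [N, ev]

theorem N_le (x : St) : N x ≤ KK * (2 * π) * ‖x‖ := by
  have := N_lip (x := x) (x' := 0) (ρ := 0) (by simp)
  rw [N_zero, sub_zero, sub_zero, add_zero, one_mul] at this
  exact (le_abs_self _).trans this

theorem sg_le (v : ℝ) : |sg v| ≤ 1 :=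
  abs_le.2 ⟨le_max_left _ _, max_le (by norm_num) (min_le_left _ _)⟩

theorem gg_nonneg (a v : ℝ) : 0 ≤ gg a v :=
  le_min zero_le_one (add_nonneg (le_max_right _ _) (le_max_right _ _))

theorem gg_le (a v : ℝ) : gg a v ≤ 1 := min_le_left _ _

theorem sgg_le (a v : ℝ) : |sg v * gg a v| ≤ 1 := by
  rw [abs_mul, abs_of_nonneg (gg_nonneg _ _)]
  exact mul_le_one₀ (sg_le v) (gg_nonneg _ _) (gg_le _ _)

theorem gg_lip (a b v : ℝ) : |gg a v - gg b v| ≤ 2 * |a - b| := by
  unfold gg
  rw [min_comm 1, min_comm 1]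
  refine (abs_min_sub_min_le_max _ _ _ _).trans (max_le ?_ (by simp))
  have a1 := abs_max_sub_max_le_abs (|a| - 2) (|b| - 2) 0
  have a2 := abs_max_sub_max_le_abs (|v| - |a|) (|v| - |b|) 0
  have a3 := abs_abs_sub_abs_le_abs_sub a b
  rw [sub_sub_sub_cancel_right] at a1
  rw [sub_sub_sub_cancel_left, abs_sub_comm |b|] at a2
  rw [add_sub_add_comm]
  exact (abs_add_le _ _).trans (by linarith)

theorem ff_cont : Continuous (Function.uncurry ff) := by
  have := N_cont
  have h : Continuous fun x : St => x z0 := continuous_eval_const z0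
  unfold Function.uncurry ff sg gg
  fun_prop

theorem ff_le (x : St) (v : ℝ) : |ff x v| ≤ (1 + KK * (2 * π)) * ‖x‖ := by
  have a1 : |x z0| ≤ ‖x‖ := x.norm_coe_le_norm _
  have a2 := N_le x
  have a3 : |N x * (sg v * gg (x z0) v)| ≤ N x := by
    rw [abs_mul, abs_of_nonneg (N_nonneg x)]
    exact mul_le_of_le_one_right (N_nonneg x) (sgg_le _ _)
  have := abs_add_le (-x z0) (N x * (sg v * gg (x z0) v))
  rw [abs_neg] at this
  unfold ff
  linarith

theorem ff_lip (ρ : ℝ) : ∃ L : ℝ, ∀ (x x' : St) (v : ℝ), ‖x‖ ≤ ρ → ‖x'‖ ≤ ρ → |v| ≤ ρ →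
    |ff x v - ff x' v| ≤ L * ‖x - x'‖ := by
  refine ⟨1 + KK * ((1 + ρ) * (2 * π)) + KK * (2 * π) * ρ * 2, fun x x' v _ h _ => ?_⟩
  have a1 : |x z0 - x' z0| ≤ ‖x - x'‖ := (x - x').norm_coe_le_norm _
  have a2 := N_lip (x := x) h
  have a3 : N x' ≤ KK * (2 * π) * ρ :=
    (N_le x').trans (mul_le_mul_of_nonneg_left h (by have := KK_pos; have := pi_pos; positivity))
  have e : ff x v - ff x' v = -(x z0 - x' z0) + ((N x - N x') * (sg v * gg (x z0) v)
      + N x' * (sg v * (gg (x z0) v - gg (x' z0) v))) := by unfold ff; ring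
  have b1 : |(N x - N x') * (sg v * gg (x z0) v)| ≤ |N x - N x'| := by
    rw [abs_mul]; exact mul_le_of_le_one_right (abs_nonneg _) (sgg_le _ _)
  have b2 : |N x' * (sg v * (gg (x z0) v - gg (x' z0) v))| ≤ KK * (2 * π) * ρ * (2 * ‖x - x'‖) := by
    rw [abs_mul, abs_of_nonneg (N_nonneg _), abs_mul]
    refine mul_le_mul a3 ?_ (by positivity) ((N_nonneg _).trans a3)
    have := mul_le_of_le_one_left (abs_nonneg (gg (x z0) v - gg (x' z0) v)) (sg_le v)
    linarith [gg_lip (x z0) (x' z0) v]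
  rw [e]
  refine (abs_add_le _ _).trans ?_
  rw [abs_neg]
  have := abs_add_le ((N x - N x') * (sg v * gg (x z0) v))
    (N x' * (sg v * (gg (x z0) v - gg (x' z0) v)))
  linarith

theorem VV_cont : Continuous VV := by
  have := N_cont
  have := h1_cd.continuous
  have h : Continuous fun x : St => x z0 := continuous_eval_const z0
  unfold VV
  fun_prop

theorem VV_bd (x : St) : x z0 ^ 2 ≤ VV x ∧ VV x ≤ (1 + (KK * (2 * π)) ^ 2) * ‖x‖ ^ 2 := by
  have a0 : 0 ≤ h1 (x z0) := smoothTransition.nonneg _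
  have a1 : h1 (x z0) ≤ 1 := smoothTransition.le_one _
  have a2 : x z0 ^ 2 ≤ ‖x‖ ^ 2 := by
    rw [← sq_abs]; exact pow_le_pow_left₀ (abs_nonneg _) (x.norm_coe_le_norm _) 2
  have a3 := pow_le_pow_left₀ (N_nonneg x) (N_le x) 2
  have a4 := mul_le_of_le_one_left (sq_nonneg (N x)) a1
  have a5 := mul_nonneg a0 (sq_nonneg (N x))
  unfold VV
  constructor <;> nlinarith

/-- the memory term along a trajectory -/
noncomputable def nn (y : ℝ → ℝ) (t : ℝ) : ℝ :=
  KK * ∫ r in (-(2 * π))..0, exp r * (|y (t + r - π)| * h0 (y (t + r)))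

theorem N_eq {y : ℝ → ℝ} {x : St} {t : ℝ} (h : ∀ s, x s = y (t + s)) : N x = nn y t := by
  have hπ := pi_pos
  unfold N nn
  congr 1
  refine intervalIntegral.integral_congr fun r hr => ?_
  rw [uIcc_of_le (by linarith)] at hr
  have a := h ⟨r - π, by linarith [hr.1], by linarith [hr.2]⟩
  have b := h ⟨r, by linarith [hr.1], hr.2⟩
  rw [← ev_mem] at a b
  simp only at a b ⊢
  rw [a, b, add_sub_assoc]

theorem nn_deriv {y : ℝ → ℝ} (hy : Continuous y) (t : ℝ) :
    HasDerivAt (nn y) (-nn y t + KK * (|y (t - π)| * h0 (y t)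
      - exp (-(2 * π)) * (|y (t - 3 * π)| * h0 (y (t - 2 * π))))) t := by
  let k : ℝ → ℝ := fun ρ => exp ρ * (|y (ρ - π)| * h0 (y ρ))
  have hk : Continuous k := by have := h0_cont; fun_prop
  have e : ∀ t, nn y t = KK * (exp (-t) * ((∫ ρ in (0:ℝ)..t, k ρ) - ∫ ρ in (0:ℝ)..(t - 2 * π), k ρ)) := by
    intro t
    rw [intervalIntegral.integral_interval_sub_left (hk.intervalIntegrable _ _)
      (hk.intervalIntegrable _ _)]
    have := intervalIntegral.integral_comp_add_left (a := -(2 * π)) (b := 0) k t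
    rw [add_zero, ← sub_eq_add_neg] at this
    rw [← this, ← intervalIntegral.integral_const_mul, nn]
    congr 2; ext r
    simp only [k]
    rw [← mul_assoc (exp (-t)), ← exp_add]
    congr 2; ring
  have d1 : ∀ t, HasDerivAt (fun t => ∫ ρ in (0:ℝ)..t, k ρ) (k t) t := fun t =>
    (hk.integral_hasStrictDerivAt 0 t).hasDerivAt
  have d2 := (d1 (t - 2 * π)).comp t ((hasDerivAt_id t).sub_const (2 * π))
  have d3 := (((hasDerivAt_neg t).exp.mul ((d1 t).sub d2)).const_mul KK)
  have e' : nn y = fun t => KK * (exp (-t) *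
      ((∫ ρ in (0:ℝ)..t, k ρ) - ∫ ρ in (0:ℝ)..(t - 2 * π), k ρ)) := funext e
  rw [e t]
  refine (e' ▸ d3).congr_deriv ?_
  have a1 : exp (-t) * exp t = 1 := by rw [← exp_add]; simp
  have a2 : exp (-t) * exp (t - 2 * π) = exp (-(2 * π)) := by rw [← exp_add]; congr 1; ring
  have a3 : t - 2 * π - π = t - 3 * π := by ring
  simp only [k, a3, Pi.sub_apply, Function.comp, id]
  linear_combination KK * (|y (t - π)| * h0 (y t)) * a1
    - KK * (|y (t - 3 * π)| * h0 (y (t - 2 * π))) * a2

theorem nn_cd {y : ℝ → ℝ} (hy : Continuous y) : ContDiff ℝ 1 (nn y) := by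
  have hd : Differentiable ℝ (nn y) := fun t => (nn_deriv hy t).differentiableAt
  refine contDiff_one_iff_deriv.2 ⟨hd, ?_⟩
  rw [show deriv (nn y) = _ from funext fun t => (nn_deriv hy t).deriv]
  have := hd.continuous
  have := h0_cont
  fun_prop

/-- the value of the derivative of `VV` in the direction `d` -/
noncomputable def DD (x : St) (d : ℝ) : ℝ :=
  2 * x z0 * d + (deriv h1 (x z0) * d * N x ^ 2 + h1 (x z0) * (2 * N x *
    (-N x + KK * (|ev x (-π)| * h0 (x z0)
      - exp (-(2 * π)) * (|ev x (-(3 * π))| * h0 (ev x (-(2 * π))))))))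

theorem limsup_eq {y : ℝ → ℝ} (hy : Continuous y) {t d : ℝ} (hd : HasDerivWithinAt y d (Ici t) t)
    {ξ : ℝ → St} (h0 : ∀ s, ξ 0 s = y (t + s)) (hξ : ∀ᶠ h in 𝓝[>] (0:ℝ), ∀ s, ξ h s = y (t + h + s)) :
    limsup (fun h : ℝ => (((VV (ξ h) - VV (ξ 0)) / h : ℝ) : EReal)) (𝓝[>] 0) = DD (ξ 0) d := by
  have hπ := pi_pos
  have e0 : ξ 0 z0 = y t := by simpa [z0] using h0 z0
  have e1 : ev (ξ 0) (-π) = y (t - π) := by
    have := h0 ⟨-π, by linarith, by linarith⟩
    rwa [← ev_mem] at this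
  have e2 : ev (ξ 0) (-(2 * π)) = y (t - 2 * π) := by
    have := h0 ⟨-(2 * π), by linarith, by linarith⟩
    rwa [← ev_mem] at this
  have e3 : ev (ξ 0) (-(3 * π)) = y (t - 3 * π) := by
    have := h0 ⟨-(3 * π), by linarith, by linarith⟩
    rwa [← ev_mem] at this
  have dn := (nn_deriv hy t).hasDerivWithinAt (s := Ici t)
  have dh : HasDerivAt h1 (deriv h1 (y t)) (y t) :=
    (h1_cd.differentiable (by norm_num) _).hasDerivAt
  have dw : HasDerivWithinAt (fun t => y t ^ 2 + h1 (y t) * nn y t ^ 2) (DD (ξ 0) d) (Ici t) t := by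
    refine ((hd.pow 2).add ((dh.comp_hasDerivWithinAt t hd).mul (dn.pow 2))).congr_deriv ?_
    simp only [DD, e0, e1, e2, e3, N_eq h0, Function.comp, Pi.pow_apply]
    push_cast
    ring
  have h2 := (hasDerivWithinAt_iff_tendsto_slope' (show t ∉ Ioi t by simp)).1 (dw.mono Ioi_subset_Ici_self)
  have h3 : Tendsto (fun h : ℝ => t + h) (𝓝[>] 0) (𝓝[>] t) := by
    refine tendsto_nhdsWithin_iff.2 ⟨?_, ?_⟩
    · exact ((continuous_const.add continuous_id).tendsto' 0 t (by simp)).mono_left nhdsWithin_le_nhds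
    · filter_upwards [self_mem_nhdsWithin] with h hh
      simpa using hh
  have h4 : Tendsto (fun h : ℝ => (VV (ξ h) - VV (ξ 0)) / h) (𝓝[>] 0) (𝓝 (DD (ξ 0) d)) := by
    refine (h2.comp h3).congr' ?_
    filter_upwards [hξ] with h hh
    have : ξ h z0 = y (t + h) := by simpa [z0] using hh z0
    simp only [Function.comp, slope_def_field, VV, N_eq hh, N_eq h0, this, e0, add_sub_cancel_left]
  exact ((continuous_coe_real_ereal.tendsto _).comp h4).limsup_eq

theorem driver_eq (x : St) (v : ℝ) : driver ff VV x v = DD x (ff x v) := by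
  have e : star x (ff x v) 0 = x := by
    ext s
    simp [star, ev_mem, max_eq_right s.2.2]
  have := limsup_eq (y := fun r => ev x r + ff x v * max r 0) (t := 0) (d := ff x v)
    (ξ := star x (ff x v)) (by have := ev_cont x; fun_prop) (by
      have h : HasDerivWithinAt (fun r : ℝ => x z0 + ff x v * r) (ff x v) (Ici 0) 0 := by
        simpa using (((hasDerivAt_id (0:ℝ)).const_mul (ff x v)).const_add (x z0)).hasDerivWithinAt
      refine h.congr (fun r hr => ?_) ?_
      · rw [ev_zero x hr, max_eq_left hr]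
      · simp [ev_zero x le_rfl])
    (fun s => by simp [star]) (Eventually.of_forall fun h s => by simp [star, add_comm])
  rw [e] at this
  exact this

theorem DD_le (x : St) (v : ℝ) (h : |v| ≤ |x z0|) : DD x (ff x v) ≤ -x z0 ^ 2 := by
  set a := x z0 with ha
  have hN := N_nonneg x
  have hK := KK_pos
  have k1 : 0 ≤ exp (-(2 * π)) * (|ev x (-(3 * π))| * h0 (ev x (-(2 * π)))) :=
    mul_nonneg (exp_pos _).le (mul_nonneg (abs_nonneg _) (h0_nonneg _))
  have a0 : 0 ≤ h1 a := smoothTransition.nonneg _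
  have hd : deriv h1 a = deriv smoothTransition ((a ^ 2 - 1) / 3) * (2 * a / 3) := by
    have d1 : HasDerivAt (fun a : ℝ => (a ^ 2 - 1) / 3) (2 * a / 3) a := by
      simpa using ((hasDerivAt_pow 2 a).sub_const 1).div_const 3
    exact (((smoothTransition.contDiff (n := 1)).differentiable (by norm_num) _).hasDerivAt.comp
      a d1).deriv
  rcases le_or_gt |a| 2 with h2 | h2
  · have g0 : gg a v = 0 := by
      unfold gg
      rw [max_eq_right (by linarith), max_eq_right (by linarith)]; simp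
    have p1 : 0 ≤ deriv h1 a * a := by
      rw [hd]
      have := smoothTransition.monotone.deriv_nonneg (x := (a ^ 2 - 1) / 3)
      have e : deriv smoothTransition ((a ^ 2 - 1) / 3) * (2 * a / 3) * a
        = deriv smoothTransition ((a ^ 2 - 1) / 3) * (2 * a ^ 2 / 3) := by ring
      rw [e]; positivity
    have p2 : h1 a * h0 a = 0 := by
      rcases le_total |a| 1 with h3 | h3
      · have : h1 a = 0 := smoothTransition.zero_of_nonpos (by
          have := sq_le_one_iff_abs_le_one a |>.2 h3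
          linarith)
        rw [this, zero_mul]
      · rw [h0, max_eq_right (by linarith), mul_zero]
    have e : DD x (ff x v) = -2 * a ^ 2 - deriv h1 a * a * N x ^ 2 - h1 a * (2 * N x * (N x +
        KK * (exp (-(2 * π)) * (|ev x (-(3 * π))| * h0 (ev x (-(2 * π))))))) := by
      simp only [DD, ff, ← ha, g0]
      linear_combination (2 * N x * KK * |ev x (-π)|) * p2
    rw [e]
    have q1 := mul_nonneg p1 (sq_nonneg (N x))
    have q2 : 0 ≤ h1 a * (2 * N x * (N x +
        KK * (exp (-(2 * π)) * (|ev x (-(3 * π))| * h0 (ev x (-(2 * π))))))) := by positivity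
    nlinarith [sq_nonneg a]
  · have s4 : 4 < a ^ 2 := by rw [← sq_abs]; nlinarith
    have p1 : h1 a = 1 := smoothTransition.one_of_one_le (by linarith)
    have p2 : deriv h1 a = 0 := by
      have : smoothTransition =ᶠ[𝓝 ((a ^ 2 - 1) / 3)] fun _ => 1 := by
        filter_upwards [lt_mem_nhds (show 1 < (a ^ 2 - 1) / 3 by linarith)] with z hz
        exact smoothTransition.one_of_one_le hz.le
      rw [hd, this.deriv_eq]; simp
    have p3 : h0 a = 0 := max_eq_right (by linarith)
    have p4 := abs_le.1 (sgg_le a v)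
    simp only [DD, ff, ← ha, p1, p2, p3]
    set w := sg v * gg a v
    have q2 : 0 ≤ N x * (KK * (exp (-(2 * π)) * (|ev x (-(3 * π))| * h0 (ev x (-(2 * π)))))) := by
      positivity
    have q3 : w ^ 2 ≤ 1 := by nlinarith
    have q4 := mul_le_of_le_one_right (sq_nonneg (N x)) q3
    nlinarith [sq_nonneg (a - N x * w)]

end Pool.Agent.H15.LK
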