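import Pool.Agent.H15.LK2

/-! Regularity of the functional and failure of ISS. -/

namespace Pool.Agent.H15.LK

open MeasureTheory Set Real Filter Topology

theorem lt_b {s q : ℝ} {b : EReal} (h : s ≤ q) (hq : (q : EReal) < b) : (s : EReal) < b :=
  lt_of_le_of_lt (EReal.coe_le_coe_iff.2 h) hq

theorem loc {u : ℝ → ℝ} {ξ : ℝ → St} {b : EReal} (h : IsSol ff u ξ b) {q : ℝ} (hq0 : 0 ≤ q)
    (hq : (q : EReal) < b) : ∃ y : ℝ → ℝ, Continuous y ∧
      IntervalIntegrable (fun τ => ff (ξ τ) (u τ)) volume 0 q ∧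
      ∀ t ∈ Icc 0 q, (∀ s, ξ t s = y (t + s)) ∧ y t = y 0 + ∫ τ in (0:ℝ)..t, ff (ξ τ) (u τ) := by
  obtain ⟨y, hy, h⟩ := h
  have hπ := pi_pos
  have cl : ∀ r, -(3 * π) ≤ r → r ≤ q → max (-(3 * π)) (min r q) = r := fun r h1 h2 => by
    rw [min_eq_left h2, max_eq_right h1]
  refine ⟨fun r => y (max (-(3 * π)) (min r q)), hy.comp_continuous (by fun_prop) fun r =>
    ⟨le_max_left _ _, lt_b (max_le (by linarith) (min_le_right _ _)) hq⟩, (h q hq0 hq).2.1,
    fun t ht => ⟨fun s => ?_, ?_⟩⟩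
  · simp only
    rw [cl _ (by linarith [s.2.1, ht.1]) (by linarith [s.2.2, ht.2])]
    exact (h t ht.1 (lt_b ht.2 hq)).1 s
  · simp only
    rw [cl t (by linarith [ht.1]) ht.2, cl 0 hT hq0]
    exact (h t ht.1 (lt_b ht.2 hq)).2.2

theorem regular : Regular ff VV := by
  intro u _ ξ b h
  have hπ := pi_pos
  constructor
  · intro t₁ t₂ h1' h12 h2
    obtain ⟨y, hy, hi, hs⟩ := loc h (h1'.trans h12) h2
    obtain ⟨B, hB⟩ := (isCompact_Icc (a := -(3 * π)) (b := t₂)).exists_bound_of_continuousOn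
      hy.continuousOn
    have hB0 : 0 ≤ B := (norm_nonneg _).trans (hB 0 ⟨hT, h1'.trans h12⟩)
    have hK := KK_pos
    have hξ : ∀ t ∈ Icc 0 t₂, ‖ξ t‖ ≤ B := fun t ht =>
      (ContinuousMap.norm_le _ hB0).2 fun s => by
        rw [(hs t ht).1 s]
        exact hB _ ⟨by linarith [s.2.1, ht.1], by linarith [s.2.2, ht.2]⟩
    obtain ⟨K0, hL⟩ : ∃ K0 : NNReal, LipschitzOnWith K0 y (Icc 0 t₂) := by
      refine ⟨⟨(1 + KK * (2 * π)) * B, by positivity⟩,
        LipschitzOnWith.of_dist_le_mul fun a ha c hc => ?_⟩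
      have sub : ∀ a ∈ Icc 0 t₂, IntervalIntegrable (fun τ => ff (ξ τ) (u τ)) volume 0 a :=
        fun a ha => hi.mono_set (by
          rw [uIcc_of_le ha.1, uIcc_of_le (h1'.trans h12)]; exact Icc_subset_Icc le_rfl ha.2)
      rw [Real.dist_eq, Real.dist_eq, (hs a ha).2, (hs c hc).2, add_sub_add_left_eq_sub,
        intervalIntegral.integral_interval_sub_left (sub a ha) (sub c hc)]
      refine intervalIntegral.norm_integral_le_of_norm_le_const (C := (1 + KK * (2 * π)) * B)
        (f := fun τ => ff (ξ τ) (u τ)) fun τ hτ => (ff_le _ _).trans (mul_le_mul_of_nonneg_left (hξ τ ?_) (by positivity))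
      exact ⟨(le_min hc.1 ha.1).trans hτ.1.le, hτ.2.trans (max_le hc.2 ha.2)⟩
    obtain ⟨K1, hK1⟩ := ((nn_cd hy).locallyLipschitz.locallyLipschitzOn
      (s := Icc 0 t₂)).exists_lipschitzOnWith_of_compact isCompact_Icc
    have hF : ContDiff ℝ 1 fun p : ℝ × ℝ => p.1 ^ 2 + h1 p.1 * p.2 ^ 2 := by
      have := h1_cd
      fun_prop
    obtain ⟨K2, hK2⟩ := (hF.locallyLipschitz.locallyLipschitzOn
      (s := (fun t => (y t, nn y t)) '' Icc 0 t₂)).exists_lipschitzOnWith_of_compact
      (isCompact_Icc.image (hy.prodMk (nn_cd hy).continuous))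
    have hW := hK2.comp (hL.prodMk hK1) (mapsTo_image _ _)
    have e : ∀ t ∈ Icc 0 t₂, VV (ξ t) = y t ^ 2 + h1 (y t) * nn y t ^ 2 := by
      intro t ht
      have : ξ t z0 = y t := by simpa [z0] using (hs t ht).1 z0
      rw [VV, N_eq (hs t ht).1, this]
    have sub : uIcc t₁ t₂ ⊆ Icc 0 t₂ := by
      rw [uIcc_of_le h12]; exact Icc_subset_Icc h1' le_rfl
    refine LipschitzOnWith.absolutelyContinuousOnInterval (K := K2 * max K0 K1)
      fun a ha c hc => ?_
    rw [e a (sub ha), e c (sub hc)]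
    exact hW (sub ha) (sub hc)
  · have key : ∀ q : ℚ, ∀ᵐ t : ℝ, ((q:ℝ) : EReal) < b → 0 ≤ t → t < q →
        limsup (fun h : ℝ => (((VV (ξ (t + h)) - VV (ξ t)) / h : ℝ) : EReal)) (𝓝[>] 0)
          = driver ff VV (ξ t) (u t) := by
      intro q
      by_cases hq : ((q:ℝ) : EReal) < b ∧ (0:ℝ) ≤ q
      · obtain ⟨y, hy, hi, hs⟩ := loc h hq.2 hq.1
        filter_upwards [hi.ae_hasDerivAt_integral] with t ht _ ht0 htq
        have d1 := (ht (by rw [uIcc_of_le hq.2]; exact ⟨ht0, htq.le⟩) 0 left_mem_uIcc).const_add (y 0)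
        have d2 : HasDerivWithinAt y (ff (ξ t) (u t)) (Ici t) t := by
          refine d1.hasDerivWithinAt.congr_of_eventuallyEq ?_ (hs t ⟨ht0, htq.le⟩).2
          filter_upwards [self_mem_nhdsWithin, mem_nhdsWithin_of_mem_nhds (gt_mem_nhds htq)]
            with r hr hr'
          exact (hs r ⟨ht0.trans hr, hr'.le⟩).2
        have := limsup_eq hy d2 (ξ := fun h => ξ (t + h))
          (fun s => by simpa using (hs t ⟨ht0, htq.le⟩).1 s) (by
            filter_upwards [self_mem_nhdsWithin,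
              mem_nhdsWithin_of_mem_nhds (gt_mem_nhds (show (0:ℝ) < q - t by linarith))] with r hr hr'
            have hr0 : 0 < r := hr
            exact (hs (t + r) ⟨by linarith, by linarith⟩).1)
        simp only [add_zero] at this
        rw [this, driver_eq]
      · exact Eventually.of_forall fun t h1 h2 h3 => absurd ⟨h1, h2.trans h3.le⟩ hq
    filter_upwards [ae_all_iff.2 key] with t ht ht0 htb
    obtain ⟨q, hq1, hq2⟩ := EReal.exists_rat_btwn_of_lt htb
    exact ht q hq2 ht0 (EReal.coe_lt_coe_iff.1 hq1)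

theorem pos_sq_deriv (x : ℝ) : HasDerivAt (fun x : ℝ => max x 0 ^ 2) (2 * max x 0) x := by
  rcases lt_trichotomy x 0 with h | rfl | h
  · have : (fun x : ℝ => max x 0 ^ 2) =ᶠ[𝓝 x] fun _ => 0 := by
      filter_upwards [gt_mem_nhds h] with z hz
      simp [max_eq_right hz.le]
    rw [max_eq_right h.le, mul_zero]
    exact (hasDerivAt_const x 0).congr_of_eventuallyEq this
  · rw [hasDerivAt_iff_tendsto_slope_zero]
    have h1 : Tendsto (fun t : ℝ => max t 0) (𝓝[≠] 0) (𝓝 (2 * max (0:ℝ) 0)) :=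
      (Continuous.tendsto' (by fun_prop) 0 _ (by simp)).mono_left nhdsWithin_le_nhds
    refine h1.congr' ?_
    filter_upwards [self_mem_nhdsWithin] with t ht
    have ht' : t ≠ 0 := ht
    rcases le_total t 0 with h | h
    · simp [max_eq_right h]
    · simp only [max_eq_left h, zero_add, max_self, smul_eq_mul]
      field_simp
      simp
  · have : (fun x : ℝ => max x 0 ^ 2) =ᶠ[𝓝 x] fun x => x ^ 2 := by
      filter_upwards [lt_mem_nhds h] with z hz
      simp [max_eq_left hz.le]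
    rw [max_eq_left h.le]
    exact (by simpa using hasDerivAt_pow 2 x : HasDerivAt (fun x : ℝ => x ^ 2) (2 * x) x).congr_of_eventuallyEq this

noncomputable def ss (t : ℝ) : ℝ := max (sin t) 0 ^ 2

theorem ss_cont : Continuous ss := by unfold ss; fun_prop

theorem ss_int (a : ℝ) : ∫ r in a..(a + 2 * π), ss r = π / 2 := by
  rw [← intervalIntegral.integral_add_adjacent_intervals (b := a + π)
    (ss_cont.intervalIntegrable _ _) (ss_cont.intervalIntegrable _ _)]
  have h := intervalIntegral.integral_comp_add_right (a := a) (b := a + π) ss π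
  rw [show a + π + π = a + 2 * π by ring] at h
  rw [← h, ← intervalIntegral.integral_add (ss_cont.intervalIntegrable _ _)
    (Continuous.intervalIntegrable (by have := ss_cont; fun_prop) _ _)]
  have e : ∀ r, ss r + ss (r + π) = sin r ^ 2 := by
    intro r
    rw [ss, ss, sin_add_pi]
    rcases le_total (sin r) 0 with h | h
    · rw [max_eq_right h, max_eq_left (by linarith)]; ring
    · rw [max_eq_left h, max_eq_right (by linarith)]; ring
  simp only [e, integral_sin_sq, sin_add_pi, cos_add_pi]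
  ring

theorem nn_ge {R : ℝ} (hR : 0 < R) (t : ℝ) : 3 * R ≤ nn (fun t => R * ss t) t := by
  have hπ := pi_gt_three
  have e : ∀ ρ, |R * ss (ρ - π)| * h0 (R * ss ρ) = R * ss (ρ - π) := by
    intro ρ
    rcases le_total (sin ρ) 0 with h | h
    · have : ss ρ = 0 := by simp [ss, max_eq_right h]
      rw [this, abs_of_nonneg (by unfold ss; positivity)]
      simp [h0]
    · have : ss (ρ - π) = 0 := by
        rw [ss, sin_sub_pi, max_eq_right (by linarith)]; simp
      simp [this]
  have hc := ss_cont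
  have h1 := intervalIntegral.integral_mono_on (μ := volume) (a := -(2 * π)) (b := 0)
    (f := fun r => exp (-(2 * π)) * R * ss (t - π + r))
    (g := fun r => exp r * (|R * ss (t + r - π)| * h0 (R * ss (t + r)))) (by linarith)
    (Continuous.intervalIntegrable (by fun_prop) _ _)
    (Continuous.intervalIntegrable (by have := h0_cont; fun_prop) _ _) (fun r hr => by
      rw [e, mul_assoc, show t - π + r = t + r - π by ring]
      exact mul_le_mul_of_nonneg_right (exp_le_exp.2 hr.1) (by unfold ss; positivity))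
  have h2 := ss_int (t - π + -(2 * π))
  rw [intervalIntegral.integral_const_mul, intervalIntegral.integral_comp_add_left ss,
    show t - π + 0 = t - π + -(2 * π) + 2 * π by ring, h2] at h1
  have h3 := mul_le_mul_of_nonneg_left h1 KK_pos.le
  have a : exp (2 * π) * exp (-(2 * π)) = 1 := by rw [← exp_add]; simp
  have e2 : KK * (exp (-(2 * π)) * R * (π / 2)) = R * π := by
    rw [KK]; linear_combination (R * π) * a
  rw [e2] at h3
  unfold nn
  nlinarith

theorem not_iss : ¬ ISS ff := by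
  rintro ⟨β, γ, hβ, hγ, H⟩
  have g0 : 0 ≤ γ 6 := hγ.1.2.2 ▸ hγ.1.2.1.monotoneOn (mem_Ici.2 le_rfl) (by norm_num) (by norm_num)
  set R := γ 6 + 1 with hR
  have hR0 : 0 < R := by linarith
  let y : ℝ → ℝ := fun t => R * ss t
  let y' : ℝ → ℝ := fun t => R * (2 * max (sin t) 0 * cos t)
  have hy : Continuous y := by have := ss_cont; fun_prop
  have hy' : Continuous y' := by fun_prop
  have hd : ∀ t, HasDerivAt y (y' t) t := fun t =>
    ((pos_sq_deriv (sin t)).comp t (hasDerivAt_sin t)).const_mul R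
  let ξ : ℝ → St := fun t => ⟨fun s => y (t + s), by fun_prop⟩
  let u : ℝ → ℝ := fun t => 5 + (y' t + y t) / nn y t
  have hn : ∀ t, 3 * R ≤ nn y t := nn_ge hR0
  have hθ : ∀ t, |(y' t + y t) / nn y t| ≤ 1 := by
    intro t
    have hp : 0 < nn y t := by linarith [hn t]
    rw [abs_div, abs_of_pos hp, div_le_one hp]
    refine le_trans ?_ (hn t)
    have a0 : 0 ≤ max (sin t) 0 := le_max_right _ _
    have a1 : max (sin t) 0 ≤ 1 := max_le (sin_le_one t) zero_le_one
    have a2 := neg_one_le_cos t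
    have a3 := cos_le_one t
    have e : y' t + y t = R * (2 * max (sin t) 0 * cos t + max (sin t) 0 ^ 2) := by
      simp only [y, y', ss]; ring
    rw [e, abs_mul, abs_of_pos hR0, mul_comm 3]
    refine mul_le_mul_of_nonneg_left (abs_le.2 ⟨?_, ?_⟩) hR0.le <;> nlinarith
  have hu : Continuous u := continuous_const.add ((hy'.add hy).div (nn_cd hy).continuous
    fun t => by linarith [hn t])
  have hu6 : ∀ t, ‖u t‖ ≤ 6 := fun t => by
    have := abs_le.1 (hθ t)
    exact abs_le.2 ⟨by simp only [u]; linarith, by simp only [u]; linarith⟩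
  have hf : ∀ t, ff (ξ t) (u t) = y' t := by
    intro t
    have hp : 0 < nn y t := by linarith [hn t]
    have a := abs_le.1 (hθ t)
    have e0 : ξ t z0 = y t := by simp [ξ, z0]
    have e1 : N (ξ t) = nn y t := N_eq fun s => rfl
    have e2 : sg (u t) = (y' t + y t) / nn y t := by
      simp only [sg, u, add_sub_cancel_left]
      rw [min_eq_right a.2, max_eq_right a.1]
    have e3 : gg (y t) (u t) = 1 := by
      refine min_eq_left ?_
      have b1 := le_max_left (|y t| - 2) 0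
      have b2 := le_max_left (|u t| - |y t|) 0
      have b3 : 4 ≤ |u t| := le_trans (by simp only [u]; linarith) (le_abs_self _)
      linarith
    rw [ff, e0, e1, e2, e3]
    field_simp
    ring
  have hsol : IsSol ff u ξ ⊤ := by
    refine ⟨y, hy.continuousOn, fun t _ _ => ⟨fun s => rfl, ?_, ?_⟩⟩
    · simp only [hf]; exact hy'.intervalIntegrable _ _
    · simp only [hf]
      rw [intervalIntegral.integral_eq_sub_of_hasDerivAt (fun t _ => hd t) (hy'.intervalIntegrable _ _)]
      ring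
  have hm := H u (memLp_top_of_bound hu.aestronglyMeasurable 6 (ae_of_all _ hu6)) ξ hsol
  have h6 : (eLpNorm u ⊤ (volume.restrict (Ioi 0))).toReal ≤ 6 := by
    rw [eLpNorm_exponent_top]
    exact ENNReal.toReal_le_of_le_ofReal (by norm_num) (eLpNormEssSup_le_of_ae_bound (ae_of_all _ hu6))
  have h7 := hγ.1.2.1.monotoneOn (mem_Ici.2 ENNReal.toReal_nonneg) (by norm_num) h6
  have h8 := (hβ.2 ‖ξ 0‖ (norm_nonneg _)).2.eventually (gt_mem_nhds one_pos)
  obtain ⟨T0, hT0⟩ := eventually_atTop.1 h8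
  obtain ⟨k, hk⟩ := exists_nat_ge T0
  have hπ := pi_gt_three
  have hk0 : (0:ℝ) ≤ k := Nat.cast_nonneg k
  have h9 := hm (π / 2 + k * (2 * π)) (by positivity)
  have h10 := hT0 (π / 2 + k * (2 * π)) (by nlinarith)
  have e : ξ (π / 2 + k * (2 * π)) z0 = R := by
    simp [ξ, z0, y, ss, sin_add_nat_mul_two_pi]
  rw [e, abs_of_pos hR0] at h9
  linarith

theorem main : ∃ (f : St → ℝ → ℝ) (V : St → ℝ) (c : ℝ), Continuous (Function.uncurry f) ∧
    (∀ ρ : ℝ, ∃ L : ℝ, ∀ (x x' : St) (v : ℝ), ‖x‖ ≤ ρ → ‖x'‖ ≤ ρ → |v| ≤ ρ →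
      |f x v - f x' v| ≤ L * ‖x - x'‖) ∧ f 0 0 = 0 ∧ Continuous V ∧ Regular f V ∧ 0 < c ∧
    (∀ x, |x z0| ^ 2 ≤ V x ∧ V x ≤ c * ‖x‖ ^ 2) ∧
    (∀ x v, |v| ≤ |x z0| → driver f V x v ≤ ((-|x z0| ^ 2 : ℝ) : EReal)) ∧ ¬ ISS f := by
  refine ⟨ff, VV, 1 + (KK * (2 * π)) ^ 2, ff_cont, ff_lip, by simp [ff, N_zero], VV_cont, regular,
    by positivity, fun x => by rw [sq_abs]; exact VV_bd x, fun x v h => ?_, not_iss⟩
  rw [driver_eq, EReal.coe_le_coe_iff, sq_abs]
  exact DD_le x v h

end Pool.Agent.H15.LK
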