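import Mathlib

set_option autoImplicit false

namespace Pool.Agent.H15.LP

open Filter Topology MeasureTheory Set Real

noncomputable def E (y : ℝ) : ℝ := ∫ s in (0:ℝ)..1, exp (y * s)
noncomputable def h (y : ℝ) : ℝ := 1 / √(E y)
noncomputable def F (r : ℝ) : ℝ := ∫ φ in (-π)..π, h (r ^ 2 * cos φ ^ 2)
noncomputable def W (v : ℝ) : ℝ := F (√(-2 * log v))
noncomputable def I (k : ℕ) : ℝ := ∫ p in Ioi (0:ℝ), exp (-(k:ℝ) * p ^ 2) * h (p ^ 2)

lemma E_cont : Continuous E := by
  unfold E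
  exact intervalIntegral.continuous_parametric_intervalIntegral_of_continuous'
    (f := fun y s => exp (y * s)) (by unfold Function.uncurry; fun_prop) 0 1

lemma E_mono : Monotone E := by
  intro a b hab
  unfold E
  apply intervalIntegral.integral_mono_on zero_le_one
  · exact (by fun_prop : Continuous fun s => exp (a * s)).intervalIntegrable _ _
  · exact (by fun_prop : Continuous fun s => exp (b * s)).intervalIntegrable _ _
  · intro s hs
    exact exp_le_exp.2 (mul_le_mul_of_nonneg_right hab hs.1)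

lemma E_pos (y : ℝ) : 0 < E y := by
  unfold E
  apply intervalIntegral.intervalIntegral_pos_of_pos
  · exact (by fun_prop : Continuous fun s => exp (y * s)).intervalIntegrable _ _
  · intro s; exact exp_pos _
  · exact one_pos

lemma E_zero : E 0 = 1 := by simp [E]

lemma E_eq {y : ℝ} (hy : y ≠ 0) : E y = (exp y - 1) / y := by
  unfold E
  have : ∫ s in (0:ℝ)..1, exp (y * s) = exp (y * 1) / y - exp (y * 0) / y := by
    apply intervalIntegral.integral_eq_sub_of_hasDerivAt (f := fun s => exp (y * s) / y)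
    · intro s _
      have := (((hasDerivAt_id s).const_mul y).exp).div_const y
      exact this.congr_deriv (by simp only [id]; field_simp)
    · exact (by fun_prop : Continuous fun s => exp (y * s)).intervalIntegrable _ _
  rw [this]; simp; ring

lemma h_pos (y : ℝ) : 0 < h y := by
  unfold h; have := sqrt_pos.2 (E_pos y); positivity

lemma h_cont : Continuous h := by
  unfold h
  exact continuous_const.div E_cont.sqrt fun y => (sqrt_pos.2 (E_pos y)).ne'

lemma h_anti : Antitone h := by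
  intro a b hab
  unfold h
  exact one_div_le_one_div_of_le (sqrt_pos.2 (E_pos a)) (sqrt_le_sqrt (E_mono hab))

lemma h_le {y : ℝ} (hy : 0 ≤ y) : h y ≤ 1 := by
  have := h_anti hy
  simpa [h, E_zero] using this

lemma h_sq {p : ℝ} (hp : 0 < p) : h (p ^ 2) = p / √(exp (p ^ 2) - 1) := by
  unfold h
  rw [E_eq (by positivity), sqrt_div' _ (by positivity), sqrt_sq hp.le]
  simp

lemma F_cont : Continuous F := by
  unfold F
  refine intervalIntegral.continuous_parametric_intervalIntegral_of_continuous'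
    (f := fun r φ => h (r ^ 2 * cos φ ^ 2)) ?_ _ _
  exact h_cont.comp (by fun_prop)

lemma hc_int (r : ℝ) : IntervalIntegrable (fun φ => h (r ^ 2 * cos φ ^ 2)) volume (-π) π :=
  (h_cont.comp (by fun_prop : Continuous fun φ => r ^ 2 * cos φ ^ 2)).intervalIntegrable _ _

lemma F_anti {a b : ℝ} (ha : 0 ≤ a) (hab : a ≤ b) : F b ≤ F a := by
  unfold F
  apply intervalIntegral.integral_mono_on (by linarith [pi_pos]) (hc_int b) (hc_int a)
  intro φ _
  apply h_anti
  exact mul_le_mul_of_nonneg_right (pow_le_pow_left₀ ha hab 2) (sq_nonneg _)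

lemma F_nonneg (r : ℝ) : 0 ≤ F r := by
  unfold F
  exact intervalIntegral.integral_nonneg (by linarith [pi_pos]) fun φ _ => (h_pos _).le

lemma F_le (r : ℝ) : F r ≤ 2 * π := by
  unfold F
  have := intervalIntegral.integral_mono_on (by linarith [pi_pos] : -π ≤ π) (hc_int r)
    (intervalIntegrable_const (c := (1:ℝ))) (fun φ _ => h_le (by positivity))
  simp at this
  linarith

lemma W_nonneg (v : ℝ) : 0 ≤ W v := F_nonneg _
lemma W_le (v : ℝ) : W v ≤ 2 * π := F_le _

lemma W_mono {a b : ℝ} (ha : 0 < a) (hab : a ≤ b) : W a ≤ W b := by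
  unfold W
  apply F_anti (sqrt_nonneg _)
  apply sqrt_le_sqrt
  have := log_le_log ha hab
  linarith

lemma W_contAt {v : ℝ} (hv : 0 < v) : ContinuousAt W v := by
  unfold W
  refine F_cont.continuousAt.comp ?_
  exact ((continuousAt_log hv.ne').const_mul (-2)).sqrt

lemma W_meas : Measurable W := by
  unfold W
  exact F_cont.measurable.comp ((measurable_log.const_mul (-2)).sqrt)

lemma I_int {k : ℕ} (hk : 1 ≤ k) :
    Integrable fun p : ℝ => exp (-(k:ℝ) * p ^ 2) * h (p ^ 2) := by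
  have hk' : (0:ℝ) < k := by exact_mod_cast hk
  refine (integrable_exp_neg_mul_sq hk').mono' ?_ ?_
  · exact ((by fun_prop : Continuous fun p : ℝ => exp (-(k:ℝ) * p ^ 2)).mul
      (h_cont.comp (by fun_prop : Continuous fun p : ℝ => p ^ 2))).aestronglyMeasurable
  · filter_upwards with p
    rw [Real.norm_eq_abs, abs_of_nonneg (mul_pos (exp_pos _) (h_pos _)).le]
    exact mul_le_of_le_one_right (exp_pos _).le (h_le (sq_nonneg p))

lemma polar {k : ℕ} (hk : 1 ≤ k) :
    ∫ r in Ioi (0:ℝ), r * exp (-(k:ℝ) * r ^ 2) * F r = 2 * I k * √(π / k) := by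
  have hk' : (0:ℝ) < k := by exact_mod_cast hk
  have h1 := integral_comp_polarCoord_symm
    (fun p : ℝ × ℝ => (exp (-(k:ℝ) * p.1 ^ 2) * h (p.1 ^ 2)) * exp (-(k:ℝ) * p.2 ^ 2))
  have h2 : ∫ p : ℝ × ℝ, (exp (-(k:ℝ) * p.1 ^ 2) * h (p.1 ^ 2)) * exp (-(k:ℝ) * p.2 ^ 2)
      = 2 * I k * √(π / k) := by
    rw [Measure.volume_eq_prod, integral_prod_mul (fun p : ℝ => exp (-(k:ℝ) * p ^ 2) * h (p ^ 2))
      (fun p : ℝ => exp (-(k:ℝ) * p ^ 2)), integral_gaussian]
    congr 1
    unfold I
    rw [← integral_comp_abs (f := fun p : ℝ => exp (-(k:ℝ) * p ^ 2) * h (p ^ 2))]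
    simp only [sq_abs]
  rw [← h2, ← h1, polarCoord_target]
  have e : ∀ p : ℝ × ℝ, p.1 • ((exp (-(k:ℝ) * (polarCoord.symm p).1 ^ 2)
      * h ((polarCoord.symm p).1 ^ 2)) * exp (-(k:ℝ) * (polarCoord.symm p).2 ^ 2))
      = p.1 * exp (-(k:ℝ) * p.1 ^ 2) * h (p.1 ^ 2 * cos p.2 ^ 2) := by
    intro p
    simp only [polarCoord_symm_apply, smul_eq_mul, mul_pow]
    have : exp (-(k:ℝ) * p.1 ^ 2) = exp (-(k:ℝ) * (p.1 ^ 2 * cos p.2 ^ 2))
        * exp (-(k:ℝ) * (p.1 ^ 2 * sin p.2 ^ 2)) := by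
      rw [← exp_add]; congr 1
      have := sin_sq_add_cos_sq p.2
      linear_combination ((k:ℝ) * p.1 ^ 2) * this
    rw [this]; ring
  simp only [e]
  rw [Measure.volume_eq_prod, setIntegral_prod]
  · apply setIntegral_congr_fun measurableSet_Ioi
    intro r _
    simp only
    rw [integral_const_mul, F, intervalIntegral.integral_of_le (by linarith [pi_pos]),
      integral_Ioc_eq_integral_Ioo]
  · have hb : IntegrableOn (fun p : ℝ × ℝ => (p.1 * exp (-(k:ℝ) * p.1 ^ 2)) * (1:ℝ))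
        (Ioi (0:ℝ) ×ˢ Ioo (-π) π) (volume.prod volume) := by
      rw [IntegrableOn, ← Measure.prod_restrict]
      refine Integrable.mul_prod (f := fun r : ℝ => r * exp (-(k:ℝ) * r ^ 2))
        (g := fun _ : ℝ => (1:ℝ)) ?_ ?_
      · exact (integrable_mul_exp_neg_mul_sq hk').integrableOn
      · exact integrableOn_const (by simp)
    refine hb.mono' ?_ ?_
    · refine Continuous.aestronglyMeasurable ?_
      exact (by fun_prop : Continuous fun p : ℝ × ℝ => p.1 * exp (-(k:ℝ) * p.1 ^ 2)).mul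
        (h_cont.comp (by fun_prop : Continuous fun p : ℝ × ℝ => p.1 ^ 2 * cos p.2 ^ 2))
    · rw [ae_restrict_iff' (measurableSet_Ioi.prod measurableSet_Ioo)]
      filter_upwards with p hp
      have hp1 : 0 < p.1 := hp.1
      have h3 : 0 < p.1 * exp (-(k:ℝ) * p.1 ^ 2) := mul_pos hp1 (exp_pos _)
      rw [Real.norm_eq_abs, abs_of_nonneg (mul_pos h3 (h_pos _)).le]
      exact mul_le_mul_of_nonneg_left (h_le (by positivity)) h3.le

lemma subst (k : ℕ) :
    ∫ v in Ioo (0:ℝ) 1, W v * v ^ (2 * k + 1)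
      = ∫ r in Ioi (0:ℝ), r * exp (-((k+1 : ℕ):ℝ) * r ^ 2) * F r := by
  have him : (fun r : ℝ => exp (-(r ^ 2) / 2)) '' Ioi 0 = Ioo 0 1 := by
    ext v
    constructor
    · rintro ⟨r, hr, rfl⟩
      have hr' : (0:ℝ) < r := hr
      refine ⟨exp_pos _, exp_lt_one_iff.2 ?_⟩
      have : 0 < r ^ 2 := by positivity
      linarith
    · rintro ⟨h0, h1⟩
      have hl : 0 < -2 * log v := by have := log_neg h0 h1; linarith
      refine ⟨√(-2 * log v), sqrt_pos.2 hl, ?_⟩
      simp only
      rw [sq_sqrt hl.le, show -(-2 * log v) / 2 = log v by ring, exp_log h0]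
  rw [← him, integral_image_eq_integral_abs_deriv_smul measurableSet_Ioi
    (f' := fun r => -r * exp (-(r ^ 2) / 2))]
  · apply setIntegral_congr_fun measurableSet_Ioi
    intro r hr
    have hr' : (0:ℝ) < r := hr
    simp only [smul_eq_mul, W]
    rw [log_exp, show -2 * (-(r ^ 2) / 2) = r ^ 2 by ring, sqrt_sq hr'.le, abs_mul, abs_neg,
      abs_of_pos hr', abs_of_pos (exp_pos _), ← exp_nat_mul]
    have : exp (-((k+1 : ℕ):ℝ) * r ^ 2)
        = exp (-(r ^ 2) / 2) * exp (((2 * k + 1 : ℕ) : ℝ) * (-(r ^ 2) / 2)) := by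
      rw [← exp_add]; congr 1; push_cast; ring
    rw [this]; ring
  · intro r _
    have := (((hasDerivAt_pow 2 r).neg).div_const 2).exp
    exact (this.congr_deriv (by simp; ring)).hasDerivWithinAt
  · intro a ha b hb hab
    have ha' : (0:ℝ) < a := ha
    have hb' : (0:ℝ) < b := hb
    have := exp_injective hab
    have h2 : a ^ 2 = b ^ 2 := by linarith
    exact (pow_left_inj₀ ha'.le hb'.le two_ne_zero).1 h2

lemma I_pos {k : ℕ} (hk : 1 ≤ k) : 0 < I k := by
  unfold I
  rw [setIntegral_pos_iff_support_of_nonneg_ae]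
  · have : (Function.support fun p : ℝ => exp (-(k:ℝ) * p ^ 2) * h (p ^ 2)) = univ := by
      ext p; simp [(h_pos _).ne']
    rw [this]; simp
  · filter_upwards with p
    exact (mul_pos (exp_pos _) (h_pos _)).le
  · exact (I_int hk).integrableOn

lemma I_rec {k : ℕ} (hk : 1 ≤ k) : (2 * k + 2) * I (k+1) = (2 * k + 1) * I k := by
  have hk' : (0:ℝ) < k := by exact_mod_cast hk
  have key := integral_Ioi_of_hasDerivAt_of_tendsto (a := (0:ℝ)) (m := 0)
    (f := fun p : ℝ => exp (-((k+1 : ℕ):ℝ) * p ^ 2) * √(exp (p ^ 2) - 1))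
    (f' := fun p : ℝ => (2 * k + 2) * (exp (-((k+1 : ℕ):ℝ) * p ^ 2) * h (p ^ 2))
      - (2 * k + 1) * (exp (-(k:ℝ) * p ^ 2) * h (p ^ 2)))
    (by fun_prop) ?_ ?_ ?_
  · rw [integral_sub ((I_int (by omega : 1 ≤ k + 1)).integrableOn.const_mul _)
      ((I_int hk).integrableOn.const_mul _), integral_const_mul, integral_const_mul] at key
    simp only [ne_eq, OfNat.ofNat_ne_zero, not_false_eq_true, zero_pow, mul_zero, exp_zero,
      sub_self, sqrt_zero] at key
    unfold I
    linarith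
  · intro p hp
    have hp' : (0:ℝ) < p := hp
    have hpos : 0 < exp (p ^ 2) - 1 := by
      have : 1 < exp (p ^ 2) := one_lt_exp_iff.2 (by positivity)
      linarith
    have d1 := ((hasDerivAt_pow 2 p).const_mul (-((k+1 : ℕ):ℝ))).exp
    have d2 := (((hasDerivAt_pow 2 p).exp).sub_const 1).sqrt hpos.ne'
    refine (d1.mul d2).congr_deriv ?_
    rw [h_sq hp']
    have hs := sqrt_pos.2 hpos
    have hs2 := sq_sqrt hpos.le
    have e : exp (-(k:ℝ) * p ^ 2) = exp (-((k+1 : ℕ):ℝ) * p ^ 2) * exp (p ^ 2) := by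
      rw [← exp_add]; congr 1; push_cast; ring
    rw [e]
    generalize exp (-((k+1 : ℕ):ℝ) * p ^ 2) = A
    generalize √(exp (p ^ 2) - 1) = S at *
    have hE : exp (p ^ 2) = S ^ 2 + 1 := by linarith
    rw [hE]
    push_cast
    field_simp
    ring
  · exact ((I_int (by omega : 1 ≤ k + 1)).integrableOn.const_mul _).sub
      ((I_int hk).integrableOn.const_mul _)
  · have hb : Tendsto (fun p : ℝ => exp (-(k:ℝ) * p ^ 2)) atTop (𝓝 0) := by
      apply tendsto_exp_atBot.comp
      exact (tendsto_pow_atTop two_ne_zero).const_mul_atTop_of_neg (by linarith)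
    refine squeeze_zero (fun p => by positivity) (fun p => ?_) hb
    have e : exp (-(k:ℝ) * p ^ 2) = exp (-((k+1 : ℕ):ℝ) * p ^ 2) * exp (p ^ 2) := by
      rw [← exp_add]; congr 1; push_cast; ring
    rw [e]
    apply mul_le_mul_of_nonneg_left _ (exp_pos _).le
    have h1 : 1 ≤ exp (p ^ 2) := one_le_exp (sq_nonneg p)
    rw [sqrt_le_iff]
    constructor
    · linarith
    · nlinarith

lemma I_eq (k : ℕ) : I (k+1) * (4 ^ (k+1) * ((k+1).factorial : ℝ) ^ 2)
    = 2 * I 1 * ((2 * (k+1)).factorial : ℝ) := by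
  induction k with
  | zero => simp; ring
  | succ k ih =>
    have hr := I_rec (k := k+1) (by omega)
    have e : 2 * (k + 1 + 1) = 2 * (k+1) + 1 + 1 := by ring
    rw [e, Nat.factorial_succ (2 * (k+1) + 1), Nat.factorial_succ (2 * (k+1)),
      Nat.factorial_succ (k+1)]
    push_cast at *
    have hk : (0:ℝ) < 2 * (k+1) + 2 := by positivity
    have : I (k+1+1) = (2 * (k+1) + 1) * I (k+1) / (2 * (k+1) + 2) := by
      field_simp; linarith
    rw [this]
    field_simp
    linear_combination (4 * ((k:ℝ) + 2)) * ih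

lemma moment (k : ℕ) :
    4 ^ (k+1) * ((∫ v in Ioo (0:ℝ) 1, W v * v ^ (2 * k + 1)) / ((2 * k + 1).factorial : ℝ))
      = (8 * I 1 * √π) * (√((k+1 : ℕ) : ℝ) / (((k+1).factorial : ℝ) ^ 2)) := by
  rw [subst, polar (by omega)]
  have h1 := I_eq k
  have e : 2 * (k + 1) = (2 * k + 1) + 1 := by ring
  rw [e, Nat.factorial_succ (2 * k + 1)] at h1
  have hk : (0:ℝ) < ((k+1 : ℕ) : ℝ) := by positivity
  rw [sqrt_div pi_pos.le]
  have hs := sqrt_pos.2 hk
  have hs2 := sq_sqrt hk.le
  generalize √((k+1 : ℕ) : ℝ) = S at *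
  have hf1 : (0:ℝ) < ((2 * k + 1).factorial : ℝ) := by positivity
  have hf2 : (0:ℝ) < ((k+1).factorial : ℝ) := by positivity
  field_simp
  push_cast at *
  rw [hs2]
  linear_combination 2 * h1

end Pool.Agent.H15.LP
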