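import Pool.Agent.H15.LP1
import Pool.Agent.H15.LP2

set_option autoImplicit false

namespace Pool.Agent.H15.LP

open Filter Topology MeasureTheory Real Finset

lemma step_int (G : ℕ → ℝ) (n : ℕ) :
    ∑ j ∈ range (n+1), G (j+1) / ((n:ℝ)+1)
      = ∫ v in Set.Ioo (0:ℝ) 1, G ⌈v * ((n:ℝ)+1)⌉₊ := by
  have hN : (0:ℝ) < (n:ℝ)+1 := by positivity
  have hle : ∀ j : ℕ, (j:ℝ) / ((n:ℝ)+1) ≤ ((j+1 : ℕ):ℝ) / ((n:ℝ)+1) := fun j => by
    push_cast; gcongr; linarith
  have hc : ∀ j : ℕ, Set.EqOn (fun v : ℝ => G ⌈v * ((n:ℝ)+1)⌉₊) (fun _ => G (j+1))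
      (Set.Ioc ((j:ℝ) / ((n:ℝ)+1)) (((j+1 : ℕ):ℝ) / ((n:ℝ)+1))) := by
    intro j v hv
    have h1 := (div_lt_iff₀ hN).1 hv.1
    have h2 := (le_div_iff₀ hN).1 hv.2
    have : ⌈v * ((n:ℝ)+1)⌉₊ = j + 1 := by
      rw [Nat.ceil_eq_iff (by omega)]
      exact ⟨by simpa using h1, h2⟩
    simp only [this]
  have h := intervalIntegral.sum_integral_adjacent_intervals (μ := volume)
    (f := fun v : ℝ => G ⌈v * ((n:ℝ)+1)⌉₊) (a := fun j : ℕ => (j:ℝ) / ((n:ℝ)+1)) (n := n+1) ?_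
  · simp only [Nat.cast_zero, zero_div] at h
    rw [show ((n+1 : ℕ):ℝ) / ((n:ℝ)+1) = 1 by push_cast; field_simp,
      intervalIntegral.integral_of_le zero_le_one, integral_Ioc_eq_integral_Ioo] at h
    rw [← h]
    apply Finset.sum_congr rfl
    intro j _
    rw [intervalIntegral.integral_of_le (hle j), setIntegral_congr_fun measurableSet_Ioc (hc j),
      ← intervalIntegral.integral_of_le (hle j), intervalIntegral.integral_const]
    push_cast; simp only [smul_eq_mul]; field_simp; ring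
  · intro j _
    rw [intervalIntegrable_iff_integrableOn_Ioc_of_le (hle j)]
    exact (integrableOn_congr_fun (hc j) measurableSet_Ioc).2 (integrableOn_const (by simp))

lemma ceil_lim {v : ℝ} (hv : 0 ≤ v) :
    Tendsto (fun n : ℕ => (⌈v * ((n:ℝ)+1)⌉₊ : ℝ) / ((n:ℝ)+1)) atTop (𝓝 v) :=
  (tendsto_nat_ceil_mul_div_atTop hv).comp
    (tendsto_atTop_add_const_right _ 1 tendsto_natCast_atTop_atTop)

lemma const_lim (c : ℝ) : Tendsto (fun n : ℕ => c / ((n:ℝ)+1)) atTop (𝓝 0) := by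
  have := (tendsto_one_div_add_atTop_nhds_zero_nat (𝕜 := ℝ)).const_mul c
  simp only [mul_zero] at this
  exact this.congr fun n => by ring

lemma riem (k : ℕ) :
    Tendsto (fun n : ℕ => ∑ j ∈ range (n+1), (W (((j+1 : ℕ):ℝ) / ((n:ℝ)+1))
      * (((j+1+k).choose (2*k+1) : ℝ) / ((n:ℝ)+1) ^ (2*k+1))) / ((n:ℝ)+1)) atTop
      (𝓝 ((∫ v in Set.Ioo (0:ℝ) 1, W v * v ^ (2 * k + 1)) / ((2 * k + 1).factorial : ℝ))) := by
  have e : ∀ n : ℕ, ∑ j ∈ range (n+1), (W (((j+1 : ℕ):ℝ) / ((n:ℝ)+1))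
      * (((j+1+k).choose (2*k+1) : ℝ) / ((n:ℝ)+1) ^ (2*k+1))) / ((n:ℝ)+1)
      = ∫ v in Set.Ioo (0:ℝ) 1, (fun m : ℕ => W ((m:ℝ) / ((n:ℝ)+1))
      * (((m+k).choose (2*k+1) : ℝ) / ((n:ℝ)+1) ^ (2*k+1))) ⌈v * ((n:ℝ)+1)⌉₊ := fun n =>
    step_int (fun m : ℕ => W ((m:ℝ) / ((n:ℝ)+1))
      * (((m+k).choose (2*k+1) : ℝ) / ((n:ℝ)+1) ^ (2*k+1))) n
  simp only [e]
  rw [← integral_div]
  apply tendsto_integral_of_dominated_convergence (fun _ => 2 * π * ((k:ℝ)+1) ^ (2*k+1))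
  · intro n
    refine Measurable.aestronglyMeasurable ?_
    exact (measurable_from_nat (f := fun m : ℕ => W ((m:ℝ) / ((n:ℝ)+1))
      * (((m+k).choose (2*k+1) : ℝ) / ((n:ℝ)+1) ^ (2*k+1)))).comp
      (Nat.measurable_ceil.comp (measurable_id.mul_const _))
  · exact integrableOn_const (by simp)
  · intro n
    rw [ae_restrict_iff' measurableSet_Ioo]
    filter_upwards with v hv
    have hN : (0:ℝ) < (n:ℝ)+1 := by positivity
    have hm : ⌈v * ((n:ℝ)+1)⌉₊ ≤ n + 1 := by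
      rw [Nat.ceil_le]; push_cast; nlinarith [hv.2]
    generalize ⌈v * ((n:ℝ)+1)⌉₊ = m at hm
    rw [Real.norm_eq_abs, abs_of_nonneg (mul_nonneg (W_nonneg _) (by positivity))]
    apply mul_le_mul (W_le _) _ (by positivity) (by positivity)
    rw [div_le_iff₀ (by positivity), ← mul_pow]
    have h1 : ((m+k).choose (2*k+1) : ℝ) ≤ ((m+k : ℕ) : ℝ) ^ (2*k+1) := by
      exact_mod_cast Nat.choose_le_pow _ _
    refine h1.trans (pow_le_pow_left₀ (by positivity) ?_ _)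
    have : (m:ℝ) ≤ n + 1 := by exact_mod_cast hm
    push_cast
    nlinarith [mul_nonneg (Nat.cast_nonneg (α := ℝ) k) (Nat.cast_nonneg (α := ℝ) n)]
  · rw [ae_restrict_iff' measurableSet_Ioo]
    filter_upwards with v hv
    have h1 := ceil_lim hv.1.le
    have h2 : Tendsto (fun n : ℕ => ((⌈v * ((n:ℝ)+1)⌉₊ + k : ℕ) : ℝ) / ((n:ℝ)+1)) atTop (𝓝 v) := by
      have := h1.add (const_lim k)
      rw [add_zero] at this
      exact this.congr fun n => by push_cast; ring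
    have h3 := choose_tendsto _ v h2 (2*k+1)
    have h4 := ((W_contAt hv.1).tendsto.comp h1).mul h3
    rw [mul_div_assoc]
    exact h4

noncomputable def κ : ℝ := 1 / (8 * I 1 * √π)

lemma κ_pos : 0 < κ := by
  unfold κ; have := I_pos (k := 1) le_rfl; have := sqrt_pos.2 pi_pos; positivity

noncomputable def B (n k : ℕ) : ℝ :=
  ∑ j ∈ range (n+1), W (((j+1 : ℕ):ℝ) / ((n:ℝ)+1))
    * (((j+1+k).choose (2*k) : ℝ) - ((j+k).choose (2*k) : ℝ))
    + 1 / ((n:ℝ)+1) * ((n+1+k).choose (2*k) : ℝ)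

noncomputable def a (n k : ℕ) : ℝ := κ * (4 ^ k / ((n:ℝ)+1) ^ (2*k) * B n k)

lemma diff_nonneg (j k : ℕ) :
    (0:ℝ) ≤ ((j+1+k).choose (2*k) : ℝ) - ((j+k).choose (2*k) : ℝ) := by
  have : (j+k).choose (2*k) ≤ (j+1+k).choose (2*k) := Nat.choose_le_choose _ (by omega)
  have : ((j+k).choose (2*k) : ℝ) ≤ ((j+1+k).choose (2*k) : ℝ) := by exact_mod_cast this
  linarith

lemma B_nonneg (n k : ℕ) : 0 ≤ B n k := by
  unfold B
  exact add_nonneg (Finset.sum_nonneg fun j _ => mul_nonneg (W_nonneg _) (diff_nonneg j k))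
    (by positivity)

lemma B_le (n k : ℕ) : B n k ≤ (2 * π + 1) * ((n+1+k).choose (2*k) : ℝ) := by
  unfold B
  have h1 : ∑ j ∈ range (n+1), W (((j+1 : ℕ):ℝ) / ((n:ℝ)+1))
      * (((j+1+k).choose (2*k) : ℝ) - ((j+k).choose (2*k) : ℝ))
      ≤ ∑ j ∈ range (n+1), 2 * π * (((j+1+k).choose (2*k) : ℝ) - ((j+k).choose (2*k) : ℝ)) :=
    Finset.sum_le_sum fun j _ => mul_le_mul_of_nonneg_right (W_le _) (diff_nonneg j k)
  rw [← Finset.mul_sum, Finset.sum_range_sub (fun j => ((j+k).choose (2*k) : ℝ))] at h1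
  have h2 : 1 / ((n:ℝ)+1) ≤ 1 := by
    rw [div_le_one (by positivity)]; have : (0:ℝ) ≤ n := Nat.cast_nonneg n; linarith
  have h3 : (0:ℝ) ≤ ((n+1+k).choose (2*k) : ℝ) := by positivity
  have h4 : (0:ℝ) ≤ ((0+k).choose (2*k) : ℝ) := by positivity
  nlinarith [pi_pos]

lemma a_zero {n k : ℕ} (h : n + 1 < k) : a n k = 0 := by
  have h1 := B_le n k
  rw [Nat.choose_eq_zero_of_lt (by omega)] at h1
  have : B n k = 0 := le_antisymm (by simpa using h1) (B_nonneg n k)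
  simp [a, this]

lemma a_le (n k : ℕ) : |a n k| ≤ κ * (2 * π + 1) * (16 ^ k / k.factorial) := by
  have hκ := κ_pos
  have hp := pi_pos
  rcases lt_or_ge (n+1) k with h | h
  · rw [a_zero h, abs_zero]; positivity
  have hN : (0:ℝ) < (n:ℝ)+1 := by positivity
  unfold a
  rw [abs_of_nonneg (mul_nonneg hκ.le (mul_nonneg (by positivity) (B_nonneg n k))), mul_assoc]
  apply mul_le_mul_of_nonneg_left _ hκ.le
  have h1 : ((n+1+k).choose (2*k) : ℝ) ≤ ((n+1+k : ℕ) : ℝ) ^ (2*k) / (2*k).factorial :=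
    Nat.choose_le_pow_div _ _
  have h2 : ((n+1+k : ℕ) : ℝ) ^ (2*k) ≤ (2 * ((n:ℝ)+1)) ^ (2*k) := by
    apply pow_le_pow_left₀ (by positivity)
    have : (k:ℝ) ≤ n + 1 := by exact_mod_cast h
    push_cast; linarith
  have h3 : (k.factorial : ℝ) ≤ (2*k).factorial := by
    exact_mod_cast Nat.factorial_le (by omega)
  have h4 : ((n+1+k).choose (2*k) : ℝ) ≤ (2 * ((n:ℝ)+1)) ^ (2*k) / k.factorial :=
    h1.trans (div_le_div₀ (by positivity) h2 (by positivity) h3)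
  calc 4 ^ k / ((n:ℝ)+1) ^ (2*k) * B n k
      ≤ 4 ^ k / ((n:ℝ)+1) ^ (2*k) * ((2 * π + 1) * ((2 * ((n:ℝ)+1)) ^ (2*k) / k.factorial)) := by
        apply mul_le_mul_of_nonneg_left _ (by positivity)
        exact (B_le n k).trans (mul_le_mul_of_nonneg_left h4 (by positivity))
    _ = (2 * π + 1) * (16 ^ k / k.factorial) := by
        rw [mul_pow, pow_mul (2:ℝ), show (16:ℝ) = 4 * 2 ^ 2 by norm_num, mul_pow]
        field_simp

lemma a_lim (k : ℕ) :
    Tendsto (fun n => a n k) atTop (𝓝 (√(k:ℝ) / (k.factorial : ℝ) ^ 2)) := by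
  have hT : Tendsto (fun n : ℕ => 1 / ((n:ℝ)+1)
      * (((n+1+k).choose (2*k) : ℝ) / ((n:ℝ)+1) ^ (2*k))) atTop (𝓝 0) := by
    have h2 : Tendsto (fun n : ℕ => ((n+1+k : ℕ) : ℝ) / ((n:ℝ)+1)) atTop (𝓝 1) := by
      have := (const_lim k).const_add 1
      rw [add_zero] at this
      exact this.congr fun n => by push_cast; field_simp
    have := (const_lim 1).mul (choose_tendsto _ 1 h2 (2*k))
    rwa [zero_mul] at this
  cases k with
  | zero =>
    have := hT.const_mul κ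
    simp only [mul_zero] at this
    simp only [Nat.cast_zero, sqrt_zero, zero_div]
    refine this.congr fun n => ?_
    simp [a, B]
  | succ k =>
    have h1 := (((riem k).add hT).const_mul ((4:ℝ) ^ (k+1))).const_mul κ
    rw [add_zero, moment] at h1
    have e : κ * (8 * I 1 * √π * (√((k+1 : ℕ) : ℝ) / (((k+1).factorial : ℝ) ^ 2)))
        = √((k+1 : ℕ) : ℝ) / (((k+1).factorial : ℝ) ^ 2) := by
      have := I_pos (k := 1) le_rfl; have := sqrt_pos.2 pi_pos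
      unfold κ; field_simp
    rw [e] at h1
    refine h1.congr fun n => ?_
    unfold a B
    congr 1
    rw [mul_add ((4:ℝ) ^ (k+1)), mul_add (_ / _), Finset.mul_sum, Finset.mul_sum]
    congr 1
    · apply Finset.sum_congr rfl
      intro j _
      have e1 : j + 1 + (k+1) = (j + 1 + k) + 1 := by ring
      have e2 : j + (k+1) = j + 1 + k := by ring
      have e3 : 2 * (k+1) = (2 * k + 1) + 1 := by ring
      rw [e1, e2, e3, Nat.choose_succ_succ (j+1+k) (2*k+1)]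
      push_cast
      field_simp
      ring
    · ring

noncomputable def P (n : ℕ) : Polynomial ℝ :=
  ∑ k ∈ range (n+2), Polynomial.monomial k (a n k)

lemma P_deg (n : ℕ) : (P n).natDegree ≤ n + 1 := by
  unfold P
  apply Polynomial.natDegree_sum_le_of_forall_le
  intro k hk
  exact (Polynomial.natDegree_monomial_le _).trans (by simp at hk; omega)

lemma P_aeval (n : ℕ) (z : ℂ) : Polynomial.aeval z (P n) = ∑' k, (a n k : ℂ) * z ^ k := by
  rw [tsum_eq_sum (s := range (n+2))]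
  · unfold P
    simp [map_sum, Polynomial.aeval_monomial]
  · intro k hk
    rw [a_zero (by simp at hk; omega)]; simp

lemma P_eval (n : ℕ) (y : ℝ) :
    (P n).eval (((n:ℝ)+1) ^ 2 / 4 * y) = κ * (∑ j ∈ range (n+1), W (((j+1 : ℕ):ℝ) / ((n:ℝ)+1))
      * (s (j+1) y - s j y) + 1 / ((n:ℝ)+1) * s (n+1) y) := by
  have hN : (0:ℝ) < (n:ℝ)+1 := by positivity
  have h1 : (P n).eval (((n:ℝ)+1) ^ 2 / 4 * y) = κ * ∑ k ∈ range (n+2), B n k * y ^ k := by
    unfold P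
    rw [Polynomial.eval_finsetSum, Finset.mul_sum]
    apply Finset.sum_congr rfl
    intro k _
    rw [Polynomial.eval_monomial, a, mul_pow, div_pow, ← pow_mul]
    field_simp
  rw [h1]
  congr 1
  unfold B
  simp only [add_mul, Finset.sum_add_distrib, Finset.sum_mul]
  congr 1
  · rw [Finset.sum_comm]
    apply Finset.sum_congr rfl
    intro j hj
    have hj' := mem_range.1 hj
    rw [← s_eq (j+1) (n+2) (by omega), ← s_eq j (n+2) (by omega), ← Finset.sum_sub_distrib,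
      Finset.mul_sum]
    apply Finset.sum_congr rfl
    intro k _; ring
  · rw [← s_eq (n+1) (n+2) le_rfl, Finset.mul_sum]
    apply Finset.sum_congr rfl
    intro k _; ring

lemma abel_pos (w c : ℕ → ℝ) (hc : ∀ j, |c j| ≤ 1) (σ : ℝ) (hσ : |σ| ≤ 1) (N : ℕ)
    (h0 : 0 ≤ w 1) (hw : ∀ j, j + 1 ≤ N → w (j+1) ≤ w (j+2)) :
    w (N+1) * (σ * c (N+1) - 1) ≤ σ * ∑ j ∈ range (N+1), w (j+1) * (c (j+1) - c j) := by
  have hs : ∀ j, σ * c j ≤ 1 := fun j => by
    have : |σ * c j| ≤ 1 := by rw [abs_mul]; exact mul_le_one₀ hσ (abs_nonneg _) (hc j)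
    exact (le_abs_self _).trans this
  induction N with
  | zero =>
    simp only [zero_add, range_one, sum_singleton]
    nlinarith [hs 0]
  | succ N ih =>
    rw [Finset.sum_range_succ, mul_add]
    have := ih fun j hj => hw j (by omega)
    have h2 := hw N le_rfl
    nlinarith [hs (N+1)]

lemma P_roots (n : ℕ) : ∀ z : ℂ, Polynomial.aeval z (P n) = 0 → z.im = 0 ∧ z.re ≤ 0 := by
  have hN : (0:ℝ) < (n:ℝ)+1 := by positivity
  have hM : (0:ℝ) < 2 * ((n+1 : ℕ):ℝ) + 1 := by positivity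
  set u : ℕ → ℝ := fun i => i * π / (2 * ((n+1 : ℕ):ℝ) + 1) with hu
  have hu0 : ∀ i, 0 ≤ u i := fun i => by simp only [hu]; have := pi_pos; positivity
  have hu1 : ∀ i, i ≤ n + 1 → u i < π / 2 := fun i hi => by
    simp only [hu]
    rw [div_lt_div_iff₀ hM two_pos]
    have : (i:ℝ) ≤ ((n+1 : ℕ):ℝ) := by exact_mod_cast hi
    nlinarith [pi_pos]
  apply roots_of_alt (n+1) (P n) (P_deg n) (fun i => ((n:ℝ)+1) ^ 2 / 4 * (-4 * sin (u i) ^ 2))
  · intro i hi
    have h1 : u i < u (i+1) := by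
      simp only [hu]; apply div_lt_div_of_pos_right _ hM; push_cast; nlinarith [pi_pos]
    have h2 : sin (u i) < sin (u (i+1)) :=
      sin_lt_sin_of_lt_of_le_pi_div_two (by linarith [hu0 i, pi_pos]) (hu1 _ hi).le h1
    have h3 : 0 ≤ sin (u i) := sin_nonneg_of_nonneg_of_le_pi (hu0 i)
      (by linarith [hu1 i hi.le, pi_pos])
    have h4 : sin (u i) ^ 2 < sin (u (i+1)) ^ 2 := by nlinarith
    have : 0 < ((n:ℝ)+1) ^ 2 / 4 := by positivity
    nlinarith
  · have : 0 ≤ ((n:ℝ)+1) ^ 2 / 4 * sin (u 0) ^ 2 := by positivity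
    linarith
  · intro i hi
    have hcos : 0 < cos (u i) := cos_pos_of_mem_Ioo ⟨by linarith [hu0 i, pi_pos], hu1 i hi⟩
    have hend : cos ((2 * ((n+1 : ℕ):ℝ) + 1) * u i) = (-1) ^ i := by
      simp only [hu]
      rw [mul_div_cancel₀ _ hM.ne', cos_nat_mul_pi]
    have hσ : |((-1:ℝ)) ^ i| ≤ 1 := by simp
    have key := abel_pos (fun j => W ((j:ℝ) / ((n:ℝ)+1))) (fun j => cos ((2 * (j:ℝ) + 1) * u i))
      (fun j => abs_cos_le_one _) ((-1) ^ i) hσ n (W_nonneg _) (fun j _ => W_mono (by positivity)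
        (by push_cast; gcongr; linarith))
    simp only [hend] at key
    have hsq : ((-1:ℝ)) ^ i * (-1) ^ i = 1 := by rw [← mul_pow]; simp
    rw [hsq, sub_self, mul_zero] at key
    have e : cos (u i) * ((-1) ^ i * (P n).eval (((n:ℝ)+1) ^ 2 / 4 * (-4 * sin (u i) ^ 2)))
        = κ * ((-1) ^ i * ∑ j ∈ range (n+1), W (((j+1 : ℕ):ℝ) / ((n:ℝ)+1))
          * (cos ((2 * ((j+1 : ℕ):ℝ) + 1) * u i) - cos ((2 * (j:ℝ) + 1) * u i))
          + 1 / ((n:ℝ)+1)) := by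
      rw [P_eval]
      have h1 := s_cos (u i) (n+1)
      rw [hend] at h1
      have h2 : ∑ j ∈ range (n+1), W (((j+1 : ℕ):ℝ) / ((n:ℝ)+1))
          * (cos ((2 * ((j+1 : ℕ):ℝ) + 1) * u i) - cos ((2 * (j:ℝ) + 1) * u i))
          = cos (u i) * ∑ j ∈ range (n+1), W (((j+1 : ℕ):ℝ) / ((n:ℝ)+1))
          * (s (j+1) (-4 * sin (u i) ^ 2) - s j (-4 * sin (u i) ^ 2)) := by
        rw [Finset.mul_sum]
        apply Finset.sum_congr rfl
        intro j _
        rw [← s_cos, ← s_cos]; ring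
      rw [h2]
      linear_combination κ * (-1) ^ i * (1 / ((n:ℝ)+1)) * h1 + κ * (1 / ((n:ℝ)+1)) * hsq
    have hpos : 0 < cos (u i) * ((-1) ^ i
        * (P n).eval (((n:ℝ)+1) ^ 2 / 4 * (-4 * sin (u i) ^ 2))) := by
      rw [e]
      apply mul_pos κ_pos
      have : 0 < 1 / ((n:ℝ)+1) := by positivity
      linarith
    exact (pos_iff_pos_of_mul_pos hpos).1 hcos

theorem main :
    ∃ p : ℕ → Polynomial ℝ,
      (∀ n, ∀ z : ℂ, Polynomial.aeval z (p n) = 0 → z.im = 0 ∧ z.re ≤ 0) ∧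
      TendstoLocallyUniformly (fun n (z : ℂ) => Polynomial.aeval z (p n))
        (fun z : ℂ => ∑' k : ℕ,
          ((Real.sqrt (k : ℝ) / ((Nat.factorial k : ℝ) ^ 2) : ℝ) : ℂ) * z ^ k)
        Filter.atTop := by
  refine ⟨P, P_roots, ?_⟩
  simp only [P_aeval]
  apply locunif a _ (fun k => κ * (2 * π + 1) * (16 ^ k / k.factorial)) _ a_le a_lim
  intro R _
  have := (Real.summable_pow_div_factorial (16 * R)).mul_left (κ * (2 * π + 1))
  refine this.congr fun k => ?_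
  rw [mul_pow]; ring

end Pool.Agent.H15.LP
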