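import Mathlib

set_option autoImplicit false

open MeasureTheory Filter Set
open scoped ENNReal symmDiff

namespace Pool.Agent.H15.MA1

universe u

/-- Classes of Borel subsets of the line modulo null sets, as a sublattice of germs. -/
def MA : Sublattice (Germ (ae (volume : Measure ℝ)) Prop) where
  carrier := {g | ∃ s : Set ℝ, MeasurableSet s ∧
    g = ((fun x => x ∈ s : ℝ → Prop) : Germ (ae (volume : Measure ℝ)) Prop)}
  supClosed' := by
    rintro _ ⟨s, hs, rfl⟩ _ ⟨t, ht, rfl⟩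
    exact ⟨s ∪ t, hs.union ht, rfl⟩
  infClosed' := by
    rintro _ ⟨s, hs, rfl⟩ _ ⟨t, ht, rfl⟩
    exact ⟨s ∩ t, hs.inter ht, rfl⟩

noncomputable def cls (s : Set ℝ) (hs : MeasurableSet s) : MA :=
  ⟨((fun x => x ∈ s : ℝ → Prop) : Germ (ae (volume : Measure ℝ)) Prop), s, hs, rfl⟩

theorem cls_surj (a : MA) : ∃ s hs, a = cls s hs := by
  obtain ⟨g, s, hs, rfl⟩ := a
  exact ⟨s, hs, rfl⟩

theorem cls_le (s t : Set ℝ) (hs : MeasurableSet s) (ht : MeasurableSet t) :
    cls s hs ≤ cls t ht ↔ s ≤ᵐ[volume] t := by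
  change ((fun x => x ∈ s : ℝ → Prop) : Germ (ae (volume : Measure ℝ)) Prop) ≤
    ((fun x => x ∈ t : ℝ → Prop) : Germ (ae (volume : Measure ℝ)) Prop) ↔ _
  rw [Germ.coe_le]
  rfl

theorem cls_sup (s t : Set ℝ) (hs : MeasurableSet s) (ht : MeasurableSet t) :
    cls s hs ⊔ cls t ht = cls (s ∪ t) (hs.union ht) := rfl

theorem cls_inf (s t : Set ℝ) (hs : MeasurableSet s) (ht : MeasurableSet t) :
    cls s hs ⊓ cls t ht = cls (s ∩ t) (hs.inter ht) := rfl

noncomputable def mes (U : Set ℝ) (a : MA) : ℝ≥0∞ :=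
  Germ.liftOn a.1 (fun p : ℝ → Prop => volume ({x | p x} ∩ U)) (by
    intro p q h
    apply measure_congr
    filter_upwards [h] with x hx
    change (p x ∧ x ∈ U) = (q x ∧ x ∈ U)
    rw [hx])

theorem mes_cls (U s : Set ℝ) (hs : MeasurableSet s) : mes U (cls s hs) = volume (s ∩ U) := rfl

theorem exists_family : ∃ U : ℕ → Set ℝ, ∀ a b : MA, (∀ n, mes (U n) a ≤ mes (U n) b) ↔ a ≤ b := by
  obtain ⟨A, hA, hd⟩ := exists_countable_measureDense (volume : Measure ℝ)
  obtain ⟨U, hU⟩ := hA.exists_eq_range hd.nonempty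
  refine ⟨U, fun a b => ?_⟩
  obtain ⟨s, hs, rfl⟩ := cls_surj a
  obtain ⟨t, ht, rfl⟩ := cls_surj b
  rw [cls_le]
  simp only [mes_cls]
  constructor
  · intro h
    rw [ae_le_set]
    by_contra hne
    obtain ⟨d, hdm, hdsub, hdpos, hdtop⟩ :=
      Measure.exists_subset_measure_lt_top (μ := volume) (hs.diff ht) (pos_iff_ne_zero.2 hne)
    set m : ℝ := (volume d).toReal with hm
    have hmpos : 0 < m := ENNReal.toReal_pos hdpos.ne' hdtop.ne
    have hdm' : volume d = ENNReal.ofReal m := (ENNReal.ofReal_toReal hdtop.ne).symm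
    obtain ⟨V, hV, hVd⟩ := hd.approx d hdm hdtop.ne (m / 3) (by positivity)
    rw [hU] at hV
    obtain ⟨n, rfl⟩ := hV
    have h1 : volume (t ∩ U n) ≤ volume (d ∆ U n) := by
      apply measure_mono
      intro x hx
      rw [Set.mem_symmDiff]
      right
      exact ⟨hx.2, fun hxd => (hdsub hxd).2 hx.1⟩
    have h2 : volume d ≤ volume (s ∩ U n) + volume (d ∆ U n) := by
      refine le_trans (measure_mono ?_) (measure_union_le _ _)
      intro x hx
      by_cases hxU : x ∈ U n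
      · exact Or.inl ⟨(hdsub hx).1, hxU⟩
      · right
        rw [Set.mem_symmDiff]
        exact Or.inl ⟨hx, hxU⟩
    have h3 : volume d ≤ ENNReal.ofReal (m / 3) + ENNReal.ofReal (m / 3) :=
      h2.trans (add_le_add ((h n).trans (h1.trans hVd.le)) hVd.le)
    rw [hdm', ← ENNReal.ofReal_add (by positivity) (by positivity),
      ENNReal.ofReal_le_ofReal_iff (by positivity)] at h3
    linarith
  · intro h n
    apply measure_mono_ae
    filter_upwards [h] with x hx
    exact fun hx' => ⟨hx hx'.1, hx'.2⟩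

theorem small_piece {D : Type u} [LinearOrder D] (h : MA → D)
    (hsup : ∀ a b, h (a ⊔ b) = h a ⊔ h b) (n : ℕ) :
    ∃ c : ℝ, h (cls (Ico c (c + (1 / 2) ^ n)) measurableSet_Ico) =
      h (cls (Ico 0 1) measurableSet_Ico) := by
  induction n with
  | zero => exact ⟨0, by simp⟩
  | succ n ih =>
    obtain ⟨c, hc⟩ := ih
    have hp : (0 : ℝ) < (1 / 2) ^ (n + 1) := by positivity
    have he : Ico c (c + (1 / 2) ^ (n + 1)) ∪
        Ico (c + (1 / 2) ^ (n + 1)) (c + (1 / 2) ^ (n + 1) + (1 / 2) ^ (n + 1)) =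
        Ico c (c + (1 / 2 : ℝ) ^ n) := by
      rw [Ico_union_Ico_eq_Ico (by linarith) (by linarith)]
      congr 1
      ring
    have hs := hsup (cls (Ico c (c + (1 / 2) ^ (n + 1))) measurableSet_Ico)
      (cls (Ico (c + (1 / 2) ^ (n + 1)) (c + (1 / 2) ^ (n + 1) + (1 / 2) ^ (n + 1)))
        measurableSet_Ico)
    rw [cls_sup] at hs
    simp only [he] at hs
    rw [hc] at hs
    rcases max_choice (h (cls (Ico c (c + (1 / 2) ^ (n + 1))) measurableSet_Ico))
      (h (cls (Ico (c + (1 / 2) ^ (n + 1)) (c + (1 / 2) ^ (n + 1) + (1 / 2) ^ (n + 1)))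
        measurableSet_Ico)) with h1 | h1
    · exact ⟨c, by rw [hs, h1]⟩
    · exact ⟨c + (1 / 2) ^ (n + 1), by rw [hs, h1]⟩

theorem not_sep (D : ℕ → Type u) [∀ n, LinearOrder (D n)] (h : ∀ n, MA → D n)
    (hsup : ∀ n a b, h n (a ⊔ b) = h n a ⊔ h n b)
    (hinf : ∀ n a b, h n (a ⊓ b) = h n a ⊓ h n b) :
    ∃ a b : MA, a ≠ b ∧ ∀ n, h n a = h n b := by
  choose c hc using fun n => small_piece (h n) (hsup n) (n + 2)
  set W : Set ℝ := ⋃ n, Ico (c n) (c n + (1 / 2) ^ (n + 2)) with hW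
  have hWm : MeasurableSet W := MeasurableSet.iUnion fun n => measurableSet_Ico
  have hbm : MeasurableSet (Ico (0 : ℝ) 1 \ W) := measurableSet_Ico.diff hWm
  refine ⟨cls _ hbm, cls ∅ MeasurableSet.empty, ?_, ?_⟩
  · intro he
    have h1 := (cls_le _ _ hbm MeasurableSet.empty).1 he.le
    rw [ae_le_set, Set.sdiff_empty] at h1
    have h2 : volume (Ico (0 : ℝ) 1) ≤ volume (Ico (0 : ℝ) 1 \ W) + volume W := by
      refine le_trans (measure_mono ?_) (measure_union_le _ _)
      intro x hx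
      by_cases hxW : x ∈ W
      · exact Or.inr hxW
      · exact Or.inl ⟨hx, hxW⟩
    have h3 : volume W ≤ ∑' n : ℕ, ENNReal.ofReal ((1 / 2) ^ (n + 2)) := by
      refine (measure_iUnion_le _).trans (le_of_eq ?_)
      congr 1
      funext n
      rw [Real.volume_Ico]
      congr 1
      ring
    have hsum : HasSum (fun n : ℕ => (1 / 2 : ℝ) ^ (n + 2)) (1 / 2) := by
      have := (hasSum_geometric_two).mul_left (1 / 4 : ℝ)
      have e : (fun n : ℕ => (1 / 2 : ℝ) ^ (n + 2)) = fun i => 1 / 4 * (1 / 2) ^ i := by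
        funext n
        ring
      rw [e]
      norm_num at this ⊢
      exact this
    rw [← ENNReal.ofReal_tsum_of_nonneg (fun n => by positivity) hsum.summable,
      hsum.tsum_eq] at h3
    rw [h1, zero_add, Real.volume_Ico] at h2
    have h4 := h2.trans h3
    rw [ENNReal.ofReal_le_ofReal_iff (by norm_num)] at h4
    norm_num at h4
  · intro n
    have e1 : cls _ hbm ⊓ cls (Ico 0 1) measurableSet_Ico = cls _ hbm := by
      rw [cls_inf]
      congr 1
      ext x
      exact ⟨fun hx => hx.1, fun hx => ⟨hx, hx.1⟩⟩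
    have e2 : cls _ hbm ⊓ cls (Ico (c n) (c n + (1 / 2) ^ (n + 2))) measurableSet_Ico =
        cls ∅ MeasurableSet.empty := by
      rw [cls_inf]
      congr 1
      ext x
      refine ⟨fun hx => (hx.1.2 (mem_iUnion.2 ⟨n, hx.2⟩)).elim, fun hx => hx.elim⟩
    rw [← e2, hinf, hc, ← hinf, e1]

end Pool.Agent.H15.MA1
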