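import Mathlib

set_option autoImplicit false
open Finset

namespace Pool.Agent.H15.MB

/-! order `h = p + 2` throughout -/

def NN (p k : ℕ) : ℕ := (4 * (p + 2) * (p + 2)) ^ (k + 1)
def nn (p k : ℕ) : ℕ := (p + 2) * NN p k + 1
def ee (p k : ℕ) : ℕ := (p + 2) * NN p (k + 1) - (p + 1) * NN p k
def EE (p k r : ℕ) : ℕ := ∑ i ∈ Finset.range r, ee p (k + 2 * (i + 1))

lemma NN_succ (p k : ℕ) : NN p (k + 1) = 4 * (p + 2) * (p + 2) * NN p k := by
  unfold NN; rw [pow_succ]; ring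

lemma NN_gt (p k : ℕ) : k + 1 < NN p k := by
  unfold NN
  exact Nat.lt_pow_self (by nlinarith)

lemma NN_mono (p : ℕ) {j k : ℕ} (h : j ≤ k) : NN p j ≤ NN p k := by
  unfold NN
  exact Nat.pow_le_pow_right (by nlinarith) (by omega)

lemma nn_mono (p : ℕ) {j k : ℕ} (h : j ≤ k) : nn p j ≤ nn p k := by
  unfold nn
  have := Nat.mul_le_mul_left (p + 2) (NN_mono p h)
  omega

lemma big (p k : ℕ) : (p + 2) * (nn p k + 1) ≤ NN p (k + 1) := by
  have := NN_gt p k
  rw [NN_succ]; unfold nn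
  nlinarith [Nat.zero_le (p * p * NN p k), Nat.zero_le (p * NN p k)]

lemma nn_le (p k : ℕ) : nn p k + 1 ≤ NN p (k + 1) := by
  have := big p k
  nlinarith

lemma NN_lt_nn (p k : ℕ) : 2 * NN p k < nn p k := by
  unfold nn; nlinarith

lemma ee_add (p k : ℕ) : ee p k + (p + 1) * NN p k + 1 = nn p (k + 1) := by
  have : (p + 1) * NN p k ≤ (p + 2) * NN p (k + 1) :=
    Nat.mul_le_mul (by omega) (NN_mono p (by omega))
  unfold ee nn
  omega

lemma ee_gt (p k : ℕ) : (p + 1) * NN p (k + 1) + (p + 2) * NN p k < ee p k := by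
  have h1 := ee_add p k
  have h2 := NN_succ p k
  have h3 := NN_gt p k
  unfold nn at h1
  nlinarith [Nat.zero_le (p * p * NN p k), Nat.zero_le (p * NN p k)]

lemma ee_le (p k : ℕ) : ee p k ≤ (p + 2) * NN p (k + 1) := Nat.sub_le _ _

lemma low_bound (p k r u : ℕ) (hr : r ≤ p) (hu : u ≤ ee p k) :
    4 * (u + EE p k r) ≤ NN p (k + 2 * (r + 1)) := by
  have h1 : EE p k r ≤ r * ((p + 2) * NN p (k + 2 * r + 1)) := by
    unfold EE
    calc _ ≤ ∑ _i ∈ Finset.range r, (p + 2) * NN p (k + 2 * r + 1) := by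
          apply Finset.sum_le_sum
          intro i hi
          rw [Finset.mem_range] at hi
          exact (ee_le _ _).trans (Nat.mul_le_mul_left _ (NN_mono p (by omega)))
      _ = _ := by simp
  have h2 : u ≤ (p + 2) * NN p (k + 2 * r + 1) :=
    hu.trans ((ee_le _ _).trans (Nat.mul_le_mul_left _ (NN_mono p (by omega))))
  have h3 : NN p (k + 2 * (r + 1)) = 4 * (p + 2) * (p + 2) * NN p (k + 2 * r + 1) :=
    NN_succ p (k + 2 * r + 1)
  have h4 : r * ((p + 2) * NN p (k + 2 * r + 1)) ≤ p * ((p + 2) * NN p (k + 2 * r + 1)) :=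
    Nat.mul_le_mul_right _ hr
  nlinarith [Nat.zero_le ((p + 2) * NN p (k + 2 * r + 1))]

/-- the part of the basis that does not depend on the choices -/
def A0 (p : ℕ) : Set ℕ := {x | ∃ k, (nn p k + 1 ≤ x ∧ x ≤ NN p (k + 1)) ∨ x = ee p k ∨
  ∃ j, 1 ≤ j ∧ j ≤ (p + 2) * k ∧ x + EE p k p + ee p k = nn p (k + 2 * p + 3) + j}

def AA (p : ℕ) (U : ℕ → Finset ℕ) : Set ℕ :=
  {x | x ∈ A0 p ∨ ∃ k, ∃ u ∈ U k, x + EE p k p + u = nn p (k + 2 * p + 3)}

lemma cases_AA {p : ℕ} {U : ℕ → Finset ℕ} (hU : ∀ k, ∀ u ∈ U k, u ≤ k) {x : ℕ}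
    (hx : x ∈ AA p U) : ∃ k, (nn p k + 1 ≤ x ∧ x ≤ NN p (k + 1)) ∨ x = ee p k ∨
      ∃ u, u ≤ ee p k ∧ x + EE p k p + u = nn p (k + 2 * p + 3) ∧
        (u ∈ U k ∨ (NN p (k + 1) < u ∧ u < ee p k)) := by
  rcases hx with ⟨k, h | h | ⟨j, h1, h2, h3⟩⟩ | ⟨k, u, hu, h⟩
  · exact ⟨k, Or.inl h⟩
  · exact ⟨k, Or.inr (Or.inl h)⟩
  · have a1 := ee_gt p k
    have a2 := NN_gt p k
    have a3 : (p + 2) * k ≤ (p + 2) * NN p k := Nat.mul_le_mul_left _ (by omega)
    have a4 : NN p (k + 1) ≤ (p + 1) * NN p (k + 1) := by nlinarith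
    exact ⟨k, Or.inr (Or.inr ⟨ee p k - j, by omega, by omega, Or.inr ⟨by omega, by omega⟩⟩)⟩
  · have a1 := ee_gt p k
    have a2 := NN_gt p k
    have a3 : NN p k ≤ (p + 2) * NN p k := by nlinarith
    have := hU k u hu
    exact ⟨k, Or.inr (Or.inr ⟨u, by omega, h, Or.inl hu⟩)⟩

lemma P1 {p : ℕ} {U : ℕ → Finset ℕ} (hU : ∀ k, ∀ u ∈ U k, u ≤ k) {x : ℕ}
    (hx : x ∈ AA p U) (j : ℕ) :
    x ≤ NN p (j + 1) ∨ x = ee p j ∨ 4 * nn p (j + 1) ≤ 4 * x + NN p j := by
  obtain ⟨k, h | h | ⟨u, h1, h2, -⟩⟩ := cases_AA hU hx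
  · rcases le_or_gt k j with c | c
    · left; exact h.2.trans (NN_mono p (by omega))
    · right; right
      have := nn_mono p (show j + 1 ≤ k by omega)
      omega
  · rcases lt_trichotomy k j with c | c | c
    · left
      have a1 := ee_add p k
      have a2 := nn_mono p (show k + 1 ≤ j by omega)
      have a3 := nn_le p j
      omega
    · right; left; rw [h, c]
    · right; right
      have a1 := ee_gt p k
      have a2 := nn_mono p (show j + 1 ≤ k by omega)
      have a3 := nn_le p k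
      have a4 : NN p (k + 1) ≤ (p + 1) * NN p (k + 1) := by nlinarith
      omega
  · have a0 := low_bound p k p u le_rfl h1
    rcases lt_trichotomy (k + 2 * p + 2) j with c | c | c
    · left
      have a2 := nn_mono p (show k + 2 * p + 3 ≤ j by omega)
      have a3 := nn_le p j
      omega
    · right; right
      subst c
      have e1 : k + 2 * (p + 1) = k + 2 * p + 2 := by ring
      rw [e1] at a0
      have e2 : k + 2 * p + 2 + 1 = k + 2 * p + 3 := by ring
      rw [e2]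
      omega
    · right; right
      have a2 := nn_mono p (show j + 1 ≤ k + 2 * p + 2 by omega)
      have a3 := nn_le p (k + 2 * p + 2)
      have a4 := NN_lt_nn p (k + 2 * p + 3)
      have a5 := NN_mono p (show k + 2 * (p + 1) ≤ k + 2 * p + 3 by omega)
      have e2 : k + 2 * p + 2 + 1 = k + 2 * p + 3 := by ring
      rw [e2] at a3
      omega

lemma P3 {p : ℕ} {U : ℕ → Finset ℕ} (hU : ∀ k, ∀ u ∈ U k, u ≤ k) {x : ℕ}
    (hx : x ∈ AA p U) (k : ℕ) (h1 : NN p (k + 2 * p + 3) < x) (h2 : x ≤ nn p (k + 2 * p + 3)) :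
    x = ee p (k + 2 * p + 2) ∨ ∃ u, u ≤ ee p k ∧ x + EE p k p + u = nn p (k + 2 * p + 3) ∧
        (u ∈ U k ∨ (NN p (k + 1) < u ∧ u < ee p k)) := by
  obtain ⟨j, h | h | ⟨u, g1, g2, g3⟩⟩ := cases_AA hU hx
  · exfalso
    rcases le_or_gt j (k + 2 * p + 2) with c | c
    · have := NN_mono p (show j + 1 ≤ k + 2 * p + 3 by omega)
      omega
    · have := nn_mono p (show k + 2 * p + 3 ≤ j by omega)
      omega
  · rcases lt_trichotomy j (k + 2 * p + 2) with c | c | c
    · exfalso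
      have a1 := ee_add p j
      have a2 := nn_mono p (show j + 1 ≤ k + 2 * p + 2 by omega)
      have a3 := nn_le p (k + 2 * p + 2)
      have e2 : k + 2 * p + 2 + 1 = k + 2 * p + 3 := by ring
      rw [e2] at a3
      omega
    · left; rw [h, c]
    · exfalso
      have a1 := ee_gt p j
      have a2 := nn_mono p (show k + 2 * p + 3 ≤ j by omega)
      have a3 := nn_le p j
      have a4 : NN p (j + 1) ≤ (p + 1) * NN p (j + 1) := by nlinarith
      omega
  · have a0 := low_bound p j p u le_rfl g1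
    rcases lt_trichotomy j k with c | c | c
    · exfalso
      have a2 := nn_mono p (show j + 2 * p + 3 ≤ k + 2 * p + 2 by omega)
      have a3 := nn_le p (k + 2 * p + 2)
      have e2 : k + 2 * p + 2 + 1 = k + 2 * p + 3 := by ring
      rw [e2] at a3
      omega
    · right
      subst c
      exact ⟨u, g1, g2, g3⟩
    · exfalso
      have a2 := nn_mono p (show k + 2 * p + 3 ≤ j + 2 * p + 2 by omega)
      have a3 := nn_le p (j + 2 * p + 2)
      have a4 := NN_lt_nn p (j + 2 * p + 3)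
      have a5 := NN_mono p (show j + 2 * (p + 1) ≤ j + 2 * p + 3 by omega)
      have e2 : j + 2 * p + 2 + 1 = j + 2 * p + 3 := by ring
      rw [e2] at a3
      omega

lemma exists_big (s : Multiset ℕ) (c B : ℕ) (hc : Multiset.card s ≤ c) (h : c * B < s.sum) :
    ∃ x ∈ s, B < x := by
  by_contra hcon
  push Not at hcon
  have := Multiset.sum_le_card_nsmul s B hcon
  rw [smul_eq_mul] at this
  have := Nat.mul_le_mul_right B hc
  omega

lemma peel {p : ℕ} {U : ℕ → Finset ℕ} (hU : ∀ k, ∀ u ∈ U k, u ≤ k) (k u : ℕ) (hu : u ≤ ee p k) :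
    ∀ r ≤ p, ∀ s : Multiset ℕ, Multiset.card s = r + 1 → (∀ x ∈ s, x ∈ AA p U) →
      s.sum = u + EE p k r → u ∈ s := by
  intro r
  induction r with
  | zero =>
    intro _ s h1 _ h3
    obtain ⟨a, rfl⟩ := Multiset.card_eq_one.1 h1
    simp [EE] at h3
    simp [h3]
  | succ r ih =>
    intro hr s h1 h2 h3
    have a0 := low_bound p k r u (by omega) hu
    have a1 : EE p k (r + 1) = EE p k r + ee p (k + 2 * (r + 1)) := by
      unfold EE; rw [Finset.sum_range_succ]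
    have a2 := ee_gt p (k + 2 * (r + 1))
    obtain ⟨y, hy, hy2⟩ := exists_big s (p + 1) (NN p (k + 2 * (r + 1) + 1)) (by omega) (by omega)
    obtain ⟨s', rfl⟩ := Multiset.exists_cons_of_mem hy
    rw [Multiset.card_cons] at h1
    rw [Multiset.sum_cons] at h3
    have a3 := ee_add p (k + 2 * (r + 1))
    rcases P1 hU (h2 y hy) (k + 2 * (r + 1)) with c | c | c
    · omega
    · exact Multiset.mem_cons_of_mem (ih (by omega) s' (by omega)
        (fun x hx => h2 x (Multiset.mem_cons_of_mem hx)) (by omega))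
    · exfalso
      have a4 : NN p (k + 2 * (r + 1)) ≤ (p + 1) * NN p (k + 2 * (r + 1)) := by nlinarith
      omega

/-- every representation of the critical number uses a chosen element -/
lemma P2 {p : ℕ} {U : ℕ → Finset ℕ} (hU : ∀ k, ∀ u ∈ U k, u ≤ k) (k : ℕ) (s : Multiset ℕ)
    (h1 : Multiset.card s = p + 2) (h2 : ∀ x ∈ s, x ∈ AA p U)
    (h3 : s.sum = nn p (k + 2 * p + 3)) :
    ∃ u ∈ U k, u ∈ s ∧ ∃ x ∈ s, x + EE p k p + u = nn p (k + 2 * p + 3) := by
  obtain ⟨x, hx, hx2⟩ := exists_big s (p + 2) (NN p (k + 2 * p + 3)) (by omega) (by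
    rw [h3]; unfold nn; omega)
  obtain ⟨s', rfl⟩ := Multiset.exists_cons_of_mem hx
  rw [Multiset.card_cons] at h1
  rw [Multiset.sum_cons] at h3
  have h2' : ∀ y ∈ s', y ∈ AA p U := fun y hy => h2 y (Multiset.mem_cons_of_mem hy)
  rcases P3 hU (h2 x hx) k hx2 (by omega) with c | ⟨u, g1, g2, g3⟩
  · exfalso
    have a1 := ee_add p (k + 2 * p + 2)
    have e2 : k + 2 * p + 2 + 1 = k + 2 * p + 3 := by ring
    rw [e2] at a1
    obtain ⟨y, hy, hy2⟩ := exists_big s' (p + 1) (NN p (k + 2 * p + 2)) (by omega) (by omega)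
    have a2 : y ≤ s'.sum := Multiset.single_le_sum (fun _ _ => Nat.zero_le _) y hy
    have a3 := ee_gt p (k + 2 * p + 1)
    have a4 := ee_add p (k + 2 * p + 1)
    have a5 := NN_gt p (k + 2 * p + 1)
    have e3 : k + 2 * p + 1 + 1 = k + 2 * p + 2 := by ring
    have a6 : NN p (k + 2 * p + 1) ≤ (p + 1) * NN p (k + 2 * p + 1) := by nlinarith
    have a7 : NN p (k + 2 * p + 1) ≤ (p + 2) * NN p (k + 2 * p + 1) := by nlinarith
    have a8 := P1 hU (h2' y hy) (k + 2 * p + 1)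
    rw [e3] at a3 a4 a8
    omega
  · have hu := peel hU k u g1 p le_rfl s' (by omega) h2' (by omega)
    rcases g3 with g3 | g3
    · exact ⟨u, g3, Multiset.mem_cons_of_mem hu, x, hx, g2⟩
    · exfalso
      have a1 := ee_add p k
      have a6 : NN p k ≤ (p + 1) * NN p k := by nlinarith
      rcases P1 hU (h2' u hu) k with c | c | c <;> omega

def EM (p k : ℕ) : Multiset ℕ := (Finset.range p).val.map (fun i => ee p (k + 2 * (i + 1)))

lemma EM_card (p k : ℕ) : Multiset.card (EM p k) = p := by simp [EM]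

lemma EM_sum (p k : ℕ) : (EM p k).sum = EE p k p := rfl

lemma ee_mem (p k : ℕ) : ee p k ∈ A0 p := ⟨k, Or.inr (Or.inl rfl)⟩

lemma ee_big (p k : ℕ) : k < ee p k := by
  have a1 := ee_gt p k
  have a2 := NN_gt p k
  have a3 : NN p k ≤ (p + 2) * NN p k := by nlinarith
  omega

lemma EM_mem (p k : ℕ) : ∀ x ∈ EM p k, x ∈ A0 p ∧ k < x := by
  intro x hx
  obtain ⟨i, -, rfl⟩ := Multiset.mem_map.1 hx
  have := ee_big p (k + 2 * (i + 1))
  exact ⟨ee_mem _ _, by omega⟩

lemma block_big (p k u : ℕ) (hu : u ≤ ee p k) : EE p k p + u + k < nn p (k + 2 * p + 3) := by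
  have a0 := low_bound p k p u le_rfl hu
  have a4 := NN_lt_nn p (k + 2 * p + 3)
  have a5 := NN_mono p (show k + 2 * (p + 1) ≤ k + 2 * p + 3 by omega)
  have a6 := NN_gt p (k + 2 * p + 3)
  omega

lemma cover_crit {p : ℕ} {U : ℕ → Finset ℕ} (hU : ∀ k, ∀ u ∈ U k, u ≤ k) (k u : ℕ)
    (hu : u ∈ U k) : ∃ s : Multiset ℕ, Multiset.card s = p + 2 ∧
      (∀ x ∈ s, x = u ∨ (x ∈ AA p U ∧ k < x)) ∧ s.sum = nn p (k + 2 * p + 3) := by
  have a1 := hU k u hu
  have a2 := ee_big p k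
  have a3 := block_big p k u (by omega)
  refine ⟨(nn p (k + 2 * p + 3) - EE p k p - u) ::ₘ u ::ₘ EM p k, by simp [EM_card], ?_, ?_⟩
  · intro x hx
    simp only [Multiset.mem_cons] at hx
    rcases hx with rfl | rfl | hx
    · exact Or.inr ⟨Or.inr ⟨k, u, hu, by omega⟩, by omega⟩
    · exact Or.inl rfl
    · exact Or.inr ⟨Or.inl (EM_mem p k x hx).1, (EM_mem p k x hx).2⟩
  · rw [Multiset.sum_cons, Multiset.sum_cons, EM_sum]; omega

lemma cover_other (p k y m : ℕ) (hy : y ≤ k) (h1 : nn p (k + 2 * p + 3) < m)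
    (h2 : m < nn p (k + 1 + 2 * p + 3)) : ∃ s : Multiset ℕ, Multiset.card s = p + 2 ∧
      (∀ x ∈ s, x = y ∨ (x ∈ A0 p ∧ k < x)) ∧ s.sum = m := by
  have e1 : k + 1 + 2 * p + 3 = k + 2 * p + 3 + 1 := by ring
  rw [e1] at h2
  have b0 := big p (k + 2 * p + 3)
  have b1 := NN_lt_nn p (k + 2 * p + 3)
  have b2 := NN_gt p (k + 2 * p + 3)
  by_cases c1 : m ≤ nn p (k + 2 * p + 3) + (p + 2) * k
  · have a3 := block_big p k (ee p k) le_rfl
    refine ⟨(m - EE p k p - ee p k) ::ₘ ee p k ::ₘ EM p k, by simp [EM_card], ?_, ?_⟩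
    · intro x hx
      simp only [Multiset.mem_cons] at hx
      rcases hx with rfl | rfl | hx
      · exact Or.inr ⟨⟨k, Or.inr (Or.inr ⟨m - nn p (k + 2 * p + 3), by omega, by omega,
          by omega⟩)⟩, by omega⟩
      · exact Or.inr ⟨ee_mem _ _, ee_big _ _⟩
      · exact Or.inr (EM_mem p k x hx)
    · rw [Multiset.sum_cons, Multiset.sum_cons, EM_sum]; omega
  · by_cases c2 : m ≤ NN p (k + 2 * p + 3 + 1)
    · have a1 : (p + 1) * y ≤ (p + 2) * k := Nat.mul_le_mul (by omega) hy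
      refine ⟨(m - (p + 1) * y) ::ₘ Multiset.replicate (p + 1) y, by simp, ?_, ?_⟩
      · intro x hx
        simp only [Multiset.mem_cons] at hx
        rcases hx with rfl | hx
        · exact Or.inr ⟨⟨k + 2 * p + 3, Or.inl ⟨by omega, by omega⟩⟩, by omega⟩
        · exact Or.inl (Multiset.eq_of_mem_replicate hx)
      · rw [Multiset.sum_cons, Multiset.sum_replicate, smul_eq_mul]; omega
    · have hm := Nat.div_add_mod m (p + 2)
      have hr : m % (p + 2) < p + 2 := Nat.mod_lt _ (by omega)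
      obtain ⟨q, hq⟩ : ∃ q, q = m / (p + 2) := ⟨_, rfl⟩
      obtain ⟨r, hr'⟩ : ∃ r, r = m % (p + 2) := ⟨_, rfl⟩
      rw [← hq, ← hr'] at hm
      rw [← hr'] at hr
      have a1 : nn p (k + 2 * p + 3) + 1 ≤ q := by
        rw [hq, Nat.le_div_iff_mul_le (by omega), mul_comm]; omega
      have a2 : m ≤ (p + 2) * NN p (k + 2 * p + 3 + 1) := by
        unfold nn at h2; omega
      obtain ⟨t, ht⟩ : ∃ t, t + r = p + 2 := ⟨p + 2 - r, by omega⟩
      refine ⟨Multiset.replicate r (q + 1) + Multiset.replicate t q, by simp; omega, ?_, ?_⟩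
      · intro x hx
        rcases Multiset.mem_add.1 hx with hx | hx
        · obtain ⟨hr0, rfl⟩ := Multiset.mem_replicate.1 hx
          have : q < NN p (k + 2 * p + 3 + 1) := by
            apply Nat.lt_of_mul_lt_mul_left (a := p + 2)
            omega
          exact Or.inr ⟨⟨k + 2 * p + 3, Or.inl ⟨by omega, by omega⟩⟩, by omega⟩
        · obtain ⟨-, rfl⟩ := Multiset.mem_replicate.1 hx
          have : x ≤ NN p (k + 2 * p + 3 + 1) := by
            apply Nat.le_of_mul_le_mul_left (c := p + 2) _ (by omega)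
            omega
          exact Or.inr ⟨⟨k + 2 * p + 3, Or.inl ⟨by omega, by omega⟩⟩, by omega⟩
      · rw [Multiset.sum_add, Multiset.sum_replicate, Multiset.sum_replicate, smul_eq_mul,
          smul_eq_mul, ← hm, ← ht]
        ring

lemma find_stage (p k0 m : ℕ) (hm : nn p (k0 + 2 * p + 3) ≤ m) :
    ∃ k, k0 ≤ k ∧ nn p (k + 2 * p + 3) ≤ m ∧ m < nn p (k + 1 + 2 * p + 3) := by
  classical
  have hex : ∃ k, m < nn p (k + 1 + 2 * p + 3) := by
    refine ⟨m, ?_⟩
    have b1 := NN_lt_nn p (m + 1 + 2 * p + 3)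
    have b2 := NN_gt p (m + 1 + 2 * p + 3)
    omega
  by_cases h0 : k0 ≤ Nat.find hex
  · refine ⟨Nat.find hex, h0, ?_, Nat.find_spec hex⟩
    rcases Nat.eq_zero_or_pos (Nat.find hex) with h | h
    · have : k0 = Nat.find hex := by omega
      rw [← this]; exact hm
    · have := Nat.find_min hex (show Nat.find hex - 1 < Nat.find hex by omega)
      rw [Nat.sub_add_cancel h] at this
      omega
  · exfalso
    have := Nat.find_spec hex
    have := nn_mono p (show Nat.find hex + 1 + 2 * p + 3 ≤ k0 + 2 * p + 3 by omega)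
    omega

lemma fun_iff_multiset (h : ℕ) (B : Set ℕ) (m : ℕ) :
    (∃ f : Fin h → ℕ, (∀ i, f i ∈ B) ∧ ∑ i, f i = m) ↔
      ∃ s : Multiset ℕ, Multiset.card s = h ∧ (∀ x ∈ s, x ∈ B) ∧ s.sum = m := by
  constructor
  · rintro ⟨f, h1, h2⟩
    refine ⟨Finset.univ.val.map f, by simp, ?_, h2⟩
    intro x hx
    obtain ⟨i, -, rfl⟩ := Multiset.mem_map.1 hx
    exact h1 i
  · rintro ⟨s, h1, h2, h3⟩
    induction s using Quotient.inductionOn with
    | _ l =>
      have e : l.length = h := by simpa using h1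
      subst e
      refine ⟨l.get, fun i => h2 _ (by simp), ?_⟩
      rw [← List.sum_ofFn, List.ofFn_get]
      simpa using h3

/-- removing a bounded set that misses some chosen element at every late stage keeps a basis -/
lemma basis_of {p : ℕ} {U : ℕ → Finset ℕ} (hU : ∀ k, ∀ u ∈ U k, u ≤ k) (S : Set ℕ) (B k0 : ℕ)
    (hS : ∀ x ∈ S, x ≤ B) (hk : ∀ k, k0 ≤ k → ∃ u ∈ U k, u ∈ AA p U ∧ u ∉ S) :
    ∃ N : ℕ, ∀ m : ℕ, N ≤ m →
      ∃ f : Fin (p + 2) → ℕ, (∀ i, f i ∈ AA p U \ S) ∧ ∑ i, f i = m := by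
  refine ⟨nn p (k0 + B + 2 * p + 3), fun m hm => ?_⟩
  rw [fun_iff_multiset]
  obtain ⟨k, hk1, hk2, hk3⟩ := find_stage p (k0 + B) m hm
  obtain ⟨u, hu1, hu2, hu3⟩ := hk k (by omega)
  rcases hk2.eq_or_lt with c | c
  · obtain ⟨s, s1, s2, s3⟩ := cover_crit (p := p) hU k u hu1
    refine ⟨s, s1, fun x hx => ?_, s3.trans c⟩
    rcases s2 x hx with rfl | ⟨g1, g2⟩
    · exact ⟨hu2, hu3⟩
    · exact ⟨g1, fun h => by have := hS x h; omega⟩
  · obtain ⟨s, s1, s2, s3⟩ := cover_other p k u m (hU k u hu1) c hk3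
    refine ⟨s, s1, fun x hx => ?_, s3⟩
    rcases s2 x hx with rfl | ⟨g1, g2⟩
    · exact ⟨hu2, hu3⟩
    · exact ⟨Or.inl g1, fun h => by have := hS x h; omega⟩

end Pool.Agent.H15.MB
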