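import Pool.Agent.H15.MB1

set_option autoImplicit false
open Finset

namespace Pool.Agent.H15.MB

open Classical in
noncomputable def aF (p k : ℕ) : ℕ := Nat.findGreatest (fun x => x ∈ A0 p) k

lemma nn_succ_mem (p k : ℕ) : nn p k + 1 ∈ A0 p := ⟨k, Or.inl ⟨le_rfl, nn_le p k⟩⟩

lemma nn_gt (p k : ℕ) : k < nn p k := by
  have b1 := NN_lt_nn p k
  have b2 := NN_gt p k
  omega

theorem propF (p : ℕ) : ∃ A : Set ℕ, ∀ S : Set ℕ, S ⊆ A →
    ((∃ N : ℕ, ∀ n : ℕ, N ≤ n →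
      ∃ f : Fin (p + 2) → ℕ, (∀ i, f i ∈ A \ S) ∧ ∑ i, f i = n) ↔ S.Finite) := by
  classical
  let U : ℕ → Finset ℕ := fun k => {aF p k}
  have hU : ∀ k, ∀ u ∈ U k, u ≤ k := by
    intro k u hu
    rw [Finset.mem_singleton.1 hu]
    exact Nat.findGreatest_le _
  refine ⟨AA p U, fun S hS => ⟨?_, ?_⟩⟩
  · rintro ⟨N, hN⟩
    by_contra hinf
    obtain ⟨x, hxS, hxN⟩ := Set.Infinite.exists_gt hinf N
    have key : ∃ k, N ≤ nn p (k + 2 * p + 3) ∧
        (aF p k ∈ S ∨ x + EE p k p + aF p k = nn p (k + 2 * p + 3)) := by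
      rcases hS hxS with h | ⟨k, u, hu, h⟩
      · refine ⟨x, ?_, Or.inl ?_⟩
        · have := nn_gt p (x + 2 * p + 3)
          omega
        · have : aF p x = x := Nat.findGreatest_eq h
          rw [this]; exact hxS
      · rw [Finset.mem_singleton.1 hu] at h
        exact ⟨k, by omega, Or.inr h⟩
    obtain ⟨k, hk1, hk2⟩ := key
    obtain ⟨s, s1, s2, s3⟩ := (fun_iff_multiset _ _ _).1 (hN _ hk1)
    obtain ⟨u, hu, hus, y, hys, hy⟩ := P2 hU k s s1 (fun x hx => (s2 x hx).1) s3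
    rw [Finset.mem_singleton.1 hu] at hus hy
    rcases hk2 with h | h
    · exact (s2 _ hus).2 h
    · have : y = x := by omega
      rw [this] at hys
      exact (s2 _ hys).2 hxS
  · intro hfin
    obtain ⟨B, hB⟩ := hfin.bddAbove
    refine basis_of hU S B (nn p B + 1) (fun x hx => hB hx) (fun k hk => ?_)
    refine ⟨aF p k, Finset.mem_singleton_self _,
      Or.inl (Nat.findGreatest_spec (P := fun x => x ∈ A0 p) hk (nn_succ_mem p B)), fun h => ?_⟩
    have h1 : nn p B + 1 ≤ aF p k := Nat.le_findGreatest hk (nn_succ_mem p B)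
    have h2 := hB h
    have h3 := nn_gt p B
    omega

/-- enumeration of finite sets in which each occurs infinitely often -/
def TT (k : ℕ) : Finset ℕ := Denumerable.ofNat (Finset ℕ) (Nat.unpair k).1

open Classical in
noncomputable def Uf (p r k : ℕ) (Z : Set ℕ) : Finset ℕ :=
  (if (TT k).card = r ∧ (∀ x ∈ TT k, x ≤ k ∧ (x ∈ A0 p ∨ x ∈ Z)) then TT k
    else Finset.Icc (nn p r + 1) (nn p r + r)).filter (fun x => x ≤ k)

noncomputable def ZZ (p r : ℕ) : ℕ → Set ℕ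
  | 0 => ∅
  | k + 1 => ZZ p r k ∪ {x | ∃ u ∈ Uf p r k (ZZ p r k), x + EE p k p + u = nn p (k + 2 * p + 3)}

noncomputable def UU (p r k : ℕ) : Finset ℕ := Uf p r k (ZZ p r k)

lemma mem_ZZ (p r k x : ℕ) : x ∈ ZZ p r k ↔
    ∃ j < k, ∃ u ∈ UU p r j, x + EE p j p + u = nn p (j + 2 * p + 3) := by
  induction k with
  | zero => simp [ZZ]
  | succ k ih =>
    simp only [ZZ, Set.mem_union, Set.mem_ofPred_eq, ih]
    constructor
    · rintro (⟨j, hj, h⟩ | h)
      · exact ⟨j, by omega, h⟩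
      · exact ⟨k, by omega, h⟩
    · rintro ⟨j, hj, h⟩
      rcases Nat.lt_succ_iff_lt_or_eq.1 hj with c | c
      · exact Or.inl ⟨j, c, h⟩
      · subst c; exact Or.inr h

theorem rmin (p r : ℕ) : ∃ A : Set ℕ, ∀ S : Set ℕ, S ⊆ A →
    ((∃ N : ℕ, ∀ n : ℕ, N ≤ n →
      ∃ f : Fin (p + 2) → ℕ, (∀ i, f i ∈ A \ S) ∧ ∑ i, f i = n) ↔ S.encard < r) := by
  classical
  have hU : ∀ k, ∀ u ∈ UU p r k, u ≤ k := fun k u hu => (Finset.mem_filter.1 hu).2
  refine ⟨AA p (UU p r), fun S hS => ⟨?_, ?_⟩⟩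
  · rintro ⟨N, hN⟩
    by_contra hcon
    push Not at hcon
    obtain ⟨T, hT1, hT2⟩ := Set.exists_subset_encard_eq hcon
    have hTf : T.Finite := Set.finite_of_encard_eq_coe hT2
    obtain ⟨T, rfl⟩ := hTf.exists_finset_coe
    rw [Set.encard_coe_eq_coe_finsetCard] at hT2
    have hT3 : T.card = r := by exact_mod_cast hT2
    have h1 : ∀ x ∈ T, ∃ j, ∀ k, j ≤ k → x ≤ k ∧ (x ∈ A0 p ∨ x ∈ ZZ p r k) := by
      intro x hx
      rcases hS (hT1 hx) with h | ⟨j, h⟩
      · exact ⟨x, fun k hk => ⟨hk, Or.inl h⟩⟩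
      · exact ⟨x + j + 1, fun k hk => ⟨by omega, Or.inr ((mem_ZZ p r k x).2 ⟨j, by omega, h⟩)⟩⟩
    choose! J hJ using h1
    obtain ⟨c, hc⟩ : ∃ c, Denumerable.ofNat (Finset ℕ) c = T := ⟨_, Denumerable.ofNat_encode T⟩
    obtain ⟨k, hk⟩ : ∃ k, k = Nat.pair c (N + ∑ x ∈ T, J x) := ⟨_, rfl⟩
    have hk1 : N + ∑ x ∈ T, J x ≤ k := by rw [hk]; exact Nat.right_le_pair _ _
    have hk2 : TT k = T := by
      rw [hk]; unfold TT
      rw [Nat.unpair_pair]
      exact hc
    have hk3 : UU p r k ⊆ T := by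
      unfold UU Uf
      rw [hk2, if_pos]
      · exact Finset.filter_subset _ _
      · refine ⟨hT3, fun x hx => hJ x hx k ?_⟩
        have := Finset.single_le_sum (f := J) (fun _ _ => Nat.zero_le _) hx
        omega
    obtain ⟨s, s1, s2, s3⟩ := (fun_iff_multiset _ _ _).1 (hN (nn p (k + 2 * p + 3)) (by
      have := nn_gt p (k + 2 * p + 3)
      omega))
    obtain ⟨u, hu, hus, -⟩ := P2 hU k s s1 (fun x hx => (s2 x hx).1) s3
    exact (s2 u hus).2 (hT1 (hk3 hu))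
  · intro hlt
    have hfin : S.Finite := Set.finite_of_encard_le_coe hlt.le
    obtain ⟨B, hB⟩ := hfin.bddAbove
    obtain ⟨S, rfl⟩ := hfin.exists_finset_coe
    rw [Set.encard_coe_eq_coe_finsetCard] at hlt
    have hlt' : S.card < r := by exact_mod_cast hlt
    refine basis_of hU _ B (nn p r + r) (fun x hx => hB hx) (fun k hk => ?_)
    have key : (UU p r k).card = r ∧ ∀ u ∈ UU p r k, u ∈ AA p (UU p r) := by
      by_cases c : (TT k).card = r ∧ (∀ x ∈ TT k, x ≤ k ∧ (x ∈ A0 p ∨ x ∈ ZZ p r k))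
      · have e : UU p r k = TT k := by
          unfold UU Uf
          rw [if_pos c, Finset.filter_true_of_mem (fun x hx => (c.2 x hx).1)]
        refine ⟨by rw [e]; exact c.1, fun u hu => ?_⟩
        rw [e] at hu
        rcases (c.2 u hu).2 with h | h
        · exact Or.inl h
        · obtain ⟨j, -, h⟩ := (mem_ZZ p r k u).1 h
          exact Or.inr ⟨j, h⟩
      · have e : UU p r k = Finset.Icc (nn p r + 1) (nn p r + r) := by
          unfold UU Uf
          rw [if_neg c, Finset.filter_true_of_mem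
            (fun x hx => (Finset.mem_Icc.1 hx).2.trans hk)]
        refine ⟨by rw [e, Nat.card_Icc]; omega, fun u hu => ?_⟩
        rw [e, Finset.mem_Icc] at hu
        refine Or.inl ⟨r, Or.inl ⟨hu.1, ?_⟩⟩
        have b1 := big p r
        have b2 := nn_gt p r
        nlinarith [hu.2]
    obtain ⟨u, hu1, hu2⟩ := Finset.exists_mem_notMem_of_card_lt_card
      (s := S) (t := UU p r k) (by omega)
    exact ⟨u, hu1, key.2 u hu1, hu2⟩

end Pool.Agent.H15.MB
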