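import Mathlib

set_option autoImplicit false

namespace Pool.Agent.H15.MK1

variable {F : Type*} [Field F] {m : ℕ}

def B (u v : Fin (m + 1) → F) : F := u 0 * v 0 - ∑ i : Fin m, u i.succ * v i.succ

theorem B_comm (u v : Fin (m + 1) → F) : B u v = B v u := by
  simp only [B, mul_comm]

theorem B_addl (u v w : Fin (m + 1) → F) : B (u + v) w = B u w + B v w := by
  simp only [B, Pi.add_apply, add_mul, Finset.sum_add_distrib]; ring

theorem B_smull (s : F) (u w : Fin (m + 1) → F) : B (s • u) w = s * B u w := by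
  simp only [B, Pi.smul_apply, smul_eq_mul, mul_assoc, ← Finset.mul_sum]; ring

theorem B_subl (u v w : Fin (m + 1) → F) : B (u - v) w = B u w - B v w := by
  simp only [B, Pi.sub_apply, sub_mul, Finset.sum_sub_distrib]; ring

theorem B_addr (u v w : Fin (m + 1) → F) : B w (u + v) = B w u + B w v := by
  rw [B_comm, B_addl, B_comm u, B_comm v]

theorem B_smulr (s : F) (u w : Fin (m + 1) → F) : B w (s • u) = s * B w u := by
  rw [B_comm, B_smull, B_comm]

theorem B_subr (u v w : Fin (m + 1) → F) : B w (u - v) = B w u - B w v := by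
  rw [B_comm, B_subl, B_comm u, B_comm v]

theorem B_zero (w : Fin (m + 1) → F) : B 0 w = 0 := by simp [B]

theorem exists_orth (hm : 2 ≤ m) (a b : Fin (m + 1) → F) :
    ∃ c, c ≠ 0 ∧ B c a = 0 ∧ B c b = 0 := by
  let f : (Fin (m + 1) → F) →ₗ[F] F × F :=
    { toFun := fun v => (B v a, B v b)
      map_add' := fun u v => by simp [B_addl]
      map_smul' := fun s u => by simp [B_smull] }
  have h : LinearMap.ker f ≠ ⊥ := LinearMap.ker_ne_bot_of_finrank_lt (by simp; omega)
  obtain ⟨c, hc, h0⟩ := Submodule.exists_mem_ne_zero_of_ne_bot h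
  have := LinearMap.mem_ker.1 hc
  exact ⟨c, h0, congrArg Prod.fst this, congrArg Prod.snd this⟩

variable [LinearOrder F] [IsStrictOrderedRing F]

theorem cs (u v : Fin (m + 1) → F) : (∑ i : Fin m, u i.succ * v i.succ) ^ 2 ≤
    (∑ i : Fin m, u i.succ * u i.succ) * (∑ i : Fin m, v i.succ * v i.succ) := by
  have := Finset.sum_mul_sq_le_sq_mul_sq Finset.univ (fun i : Fin m => u i.succ)
    (fun i : Fin m => v i.succ)
  simpa only [sq] using this

theorem F1 {t v : Fin (m + 1) → F} (ht : 0 < B t t) (h : B t v = 0) (hv : v ≠ 0) :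
    B v v < 0 := by
  have hc := cs t v
  have h1 : 0 ≤ ∑ i : Fin m, t i.succ * t i.succ := Finset.sum_nonneg (fun i _ => mul_self_nonneg _)
  have h2 : 0 ≤ ∑ i : Fin m, v i.succ * v i.succ := Finset.sum_nonneg (fun i _ => mul_self_nonneg _)
  simp only [B] at ht h ⊢
  have ht0 : 0 < t 0 * t 0 := by linarith
  rcases h2.eq_or_lt with h3 | h3
  · exfalso; apply hv
    have h4 := (Finset.sum_eq_zero_iff_of_nonneg (fun i _ => mul_self_nonneg (v (Fin.succ i)))).1
      h3.symm
    have h5 : ∀ i : Fin m, v i.succ = 0 := fun i => mul_self_eq_zero.1 (h4 i (Finset.mem_univ _))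
    simp only [h5, mul_zero, Finset.sum_const_zero, sub_zero] at h
    have h6 : v 0 = 0 := by
      rcases mul_eq_zero.1 h with h | h
      · rw [h] at ht0; simp at ht0
      · exact h
    funext i
    exact Fin.cases h6 h5 i
  · rw [← sub_eq_zero.1 h] at hc
    by_contra hcon
    push Not at hcon
    nlinarith [mul_lt_mul_of_pos_right (sub_pos.1 ht) h3, mul_nonneg ht0.le hcon]

theorem null_pos {p q : Fin (m + 1) → F} (hp : B p p = 0) (hq : B q q = 0) (h : 0 < B p q) :
    0 < p 0 * q 0 := by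
  have hc := cs p q
  simp only [B] at hp hq h
  rw [← sub_eq_zero.1 hp, ← sub_eq_zero.1 hq] at hc
  nlinarith

theorem null_neg {p q : Fin (m + 1) → F} (hp : B p p = 0) (hq : B q q = 0) (h : B p q < 0) :
    p 0 * q 0 < 0 := by
  have hc := cs p q
  simp only [B] at hp hq h
  rw [← sub_eq_zero.1 hp, ← sub_eq_zero.1 hq] at hc
  nlinarith

theorem F4 {p q r : Fin (m + 1) → F} (hp : B p p = 0) (hq : B q q = 0) (hr : B r r = 0)
    (h1 : 0 < B (p - q) (p - q)) (h2 : B (p - r) (p - r) < 0) (h3 : B (q - r) (q - r) < 0) :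
    False := by
  simp only [B_subl, B_subr, hp, hq, hr, B_comm q p, B_comm r p, B_comm r q] at h1 h2 h3
  have a1 := null_neg hp hq (by linarith)
  have a2 := null_pos hp hr (by linarith)
  have a3 := null_pos hq hr (by linarith)
  nlinarith [mul_pos a2 a3, mul_self_nonneg (r 0)]

theorem exists_time {a : Fin (m + 1) → F} (ha : B a a < 0) : ∃ t, 0 < B t t ∧ B t a = 0 := by
  let e : Fin (m + 1) → F := Pi.single 0 1
  have he : B e e = 1 := by simp [B, e]
  have h0 := ha.ne
  refine ⟨e - (B e a / B a a) • a, ?_, ?_⟩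
  · simp only [B_subl, B_subr, B_smull, B_smulr, he, B_comm a e]
    have : 1 - B e a / B a a * B e a - B e a / B a a * (B e a - B e a / B a a * B a a)
        = 1 + (B e a) ^ 2 / (-B a a) := by field_simp; ring
    rw [this]
    have : 0 ≤ (B e a) ^ 2 / (-B a a) := div_nonneg (sq_nonneg _) (by linarith)
    linarith
  · simp only [B_subl, B_smull]; field_simp; ring

theorem F2 (hm : 2 ≤ m) (hE : ∀ s : F, 0 ≤ s → ∃ r, r * r = s) {a : Fin (m + 1) → F}
    (ha : B a a < 0) : ∃ l, l ≠ 0 ∧ B l l = 0 ∧ B l a = 0 := by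
  obtain ⟨t, ht, hta⟩ := exists_time ha
  obtain ⟨c, hc, hca, hct⟩ := exists_orth hm a t
  have htc : B t c = 0 := by rw [B_comm, hct]
  have hcc := F1 ht htc hc
  obtain ⟨r, hr⟩ := hE (B t t / (-B c c)) (div_nonneg ht.le (by linarith))
  refine ⟨t + r • c, ?_, ?_, ?_⟩
  · intro h
    have := B_zero t
    rw [← h, B_addl, B_smull, hct] at this
    linarith
  · simp only [B_addl, B_addr, B_smull, B_smulr, hct, htc]
    have h0 := hcc.ne
    have : r * r * B c c = - B t t := by rw [hr]; field_simp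
    linear_combination this
  · simp only [B_addl, B_smull, hta, hca]; ring

theorem F3aux (hm : 2 ≤ m) (hE : ∀ s : F, 0 ≤ s → ∃ r, r * r = s) {a b : Fin (m + 1) → F}
    (ha : B a a < 0) (hb : b ≠ 0) (hab : B b a = 0) (ρ κ : F) (hρ : 0 < ρ)
    (hκ : 4 * ρ * B b b < κ ^ 2) : ∃ c, B c a = 0 ∧ B c c = ρ ∧ 2 * B c b = κ := by
  obtain ⟨t, ht, hta⟩ := exists_time ha
  rcases lt_trichotomy (B b b) 0 with hD | hD | hD
  · have h0 := hD.ne
    obtain ⟨s, hs, hsa, hsb⟩ : ∃ s, 0 < B s s ∧ B s a = 0 ∧ B s b = 0 := by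
      refine ⟨t - (B t b / B b b) • b, ?_, ?_, ?_⟩
      · simp only [B_subl, B_subr, B_smull, B_smulr, B_comm b t]
        have : B t t - B t b / B b b * B t b -
            B t b / B b b * (B t b - B t b / B b b * B b b)
            = B t t + (B t b) ^ 2 / (-B b b) := by field_simp; ring
        rw [this]
        have : 0 ≤ (B t b) ^ 2 / (-B b b) := div_nonneg (sq_nonneg _) (by linarith)
        linarith
      · simp only [B_subl, B_smull, hta, hab]; ring
      · simp only [B_subl, B_smull]; field_simp; ring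
    obtain ⟨r, hr⟩ := hE ((ρ - (κ / (2 * B b b)) ^ 2 * B b b) / B s s)
      (div_nonneg (by nlinarith [sq_nonneg (κ / (2 * B b b))]) hs.le)
    have h1 := hs.ne'
    have hr' : r * r * B s s = ρ - (κ / (2 * B b b)) ^ 2 * B b b := by rw [hr]; field_simp
    refine ⟨(κ / (2 * B b b)) • b + r • s, ?_, ?_, ?_⟩
    · simp only [B_addl, B_smull, hab, hsa]; ring
    · simp only [B_addl, B_addr, B_smull, B_smulr, hsb, B_comm b s]
      linear_combination hr'
    · simp only [B_addl, B_smull, hsb]; field_simp; ring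
  · have hβ : B t b ≠ 0 := fun h => absurd (F1 ht h hb) (by rw [hD]; exact lt_irrefl _)
    have hκ0 : κ ≠ 0 := by rintro rfl; rw [hD] at hκ; simp at hκ
    refine ⟨(κ / (2 * B t b)) • t + ((ρ - (κ / (2 * B t b)) ^ 2 * B t t) / κ) • b, ?_, ?_, ?_⟩
    · simp only [B_addl, B_smull, hab, hta]; ring
    · simp only [B_addl, B_addr, B_smull, B_smulr, hD, B_comm b t]
      field_simp; ring
    · simp only [B_addl, B_smull, hD]; field_simp; ring
  · obtain ⟨s, hs0, hsa, hsb⟩ := exists_orth hm a b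
    have hs := F1 hD (by rw [B_comm, hsb]) hs0
    have h0 := hD.ne'
    have h2 : 0 ≤ (κ / (2 * B b b)) ^ 2 * B b b - ρ := by
      have : (κ / (2 * B b b)) ^ 2 * B b b - ρ = (κ ^ 2 - 4 * ρ * B b b) / (4 * B b b) := by
        field_simp; ring
      rw [this]; exact div_nonneg (by linarith) (by linarith)
    obtain ⟨r, hr⟩ := hE (((κ / (2 * B b b)) ^ 2 * B b b - ρ) / (-B s s))
      (div_nonneg h2 (by linarith))
    have h1 := hs.ne
    have hr' : r * r * B s s = ρ - (κ / (2 * B b b)) ^ 2 * B b b := by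
      rw [hr, div_mul_eq_mul_div, div_eq_iff (neg_ne_zero.2 h1)]; ring
    refine ⟨(κ / (2 * B b b)) • b + r • s, ?_, ?_, ?_⟩
    · simp only [B_addl, B_smull, hab, hsa]; ring
    · simp only [B_addl, B_addr, B_smull, B_smulr, hsb, B_comm b s]
      linear_combination hr'
    · simp only [B_addl, B_smull, hsb]; field_simp; ring

theorem F3 (hm : 2 ≤ m) (hE : ∀ s : F, 0 ≤ s → ∃ r, r * r = s) {a b : Fin (m + 1) → F}
    (ha : B a a < 0) (hb : B b b < 0) (hab : B (a - b) (a - b) < 0) (hne : ∀ s : F, b ≠ s • a) :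
    ∃ w, B w w = 0 ∧ B (w - a) (w - a) = 0 ∧ B (w - b) (w - b) = 0 := by
  have h0 := ha.ne
  simp only [B_subl, B_subr, B_comm b a] at hab
  obtain ⟨c, h1, h2, h3⟩ := F3aux hm hE ha (b := b - (B a b / B a a) • a)
    (sub_ne_zero.2 (hne _)) (by simp only [B_subl, B_smull, B_comm b a]; field_simp; ring)
    (-B a a / 4) (B b b - B a b) (by linarith) (by
      simp only [B_subl, B_subr, B_smull, B_smulr, B_comm b a]
      have : 4 * (-B a a / 4) * (B b b - B a b / B a a * B a b -
          B a b / B a a * (B a b - B a b / B a a * B a a))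
          = (B a b) ^ 2 - B a a * B b b := by field_simp; ring
      rw [this]
      nlinarith [mul_pos_of_neg_of_neg hb hab])
  simp only [B_subr, B_smulr, h1, mul_zero, sub_zero] at h3
  refine ⟨(1 / 2 : F) • a + c, ?_, ?_, ?_⟩
  · simp only [B_addl, B_addr, B_smull, B_smulr, h1, B_comm a c, h2]; ring
  · simp only [B_subl, B_subr, B_addl, B_addr, B_smull, B_smulr, h1, B_comm a c, h2]; ring
  · simp only [B_subl, B_subr, B_addl, B_addr, B_smull, B_smulr, h1, B_comm a c, h2,
      B_comm b a, B_comm b c]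
    linear_combination (-1 : F) * h3

end Pool.Agent.H15.MK1
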