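import Mathlib
import Pool.Agent.H15.MK1

set_option autoImplicit false

namespace Pool.Agent.H15.MK2

open Pool.Agent.H15.MK1

variable {F : Type*} [Field F] {m : ℕ}

def L (x y : Fin (m + 1) → F) : Prop := B (x - y) (x - y) = 0 ∧ x ≠ y

def S (x z p : Fin (m + 1) → F) : Prop :=
  x ≠ z ∧ ¬ L x z ∧ L p x ∧ ¬ L p z ∧ ∀ u, ¬ (L u p ∧ L u x ∧ L u z)

def N (x y z : Fin (m + 1) → F) : Prop := ∀ u, ¬ (L u x ∧ L u y ∧ L u z)

theorem B_swap (x y : Fin (m + 1) → F) : B (x - y) (x - y) = B (y - x) (y - x) := by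
  simp only [B_subl, B_subr, B_comm y x]; ring

variable [LinearOrder F] [IsStrictOrderedRing F]

theorem S_sound {x z p : Fin (m + 1) → F} (h : S x z p) : B (z - x) (z - x) < 0 := by
  obtain ⟨h1, h2, ⟨h3, h3'⟩, h4, h5⟩ := h
  rcases lt_trichotomy (B (z - x) (z - x)) 0 with h | h | h
  · exact h
  · exact absurd ⟨by rw [B_swap, h], h1⟩ h2
  exfalso
  obtain ⟨b, rfl⟩ : ∃ b, z = x + b := ⟨z - x, by ring⟩
  obtain ⟨l, rfl⟩ : ∃ l, p = x + l := ⟨p - x, by ring⟩
  simp only [add_sub_cancel_left] at h h3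
  have hl : l ≠ 0 := by rintro rfl; simp at h3'
  have hbl : B b l ≠ 0 := fun h0 => absurd (F1 h h0 hl) (by rw [h3]; exact lt_irrefl _)
  set s := B b b / (2 * B b l) with hs
  have hs1 : s * (2 * B b l) = B b b := by rw [hs]; field_simp
  have hs0 : s ≠ 0 := by intro h0; rw [h0] at hs1; linarith
  have hz : B (s • l - b) (s • l - b) = 0 := by
    simp only [B_subl, B_subr, B_smull, B_smulr, h3, B_comm l b]; linear_combination -hs1
  have hne : x + s • l ≠ x + b := by
    intro h0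
    have h6 : s • l = b := add_left_cancel h0
    rw [← h6, B_smull, B_smulr, h3] at h; simp at h
  have hLz : L (x + s • l) (x + b) := ⟨by rw [add_sub_add_left_eq_sub]; exact hz, hne⟩
  refine h5 (x + s • l) ⟨⟨?_, ?_⟩, ⟨?_, ?_⟩, hLz⟩
  · rw [add_sub_add_left_eq_sub]
    simp only [B_subl, B_subr, B_smull, B_smulr, h3]; ring
  · intro h0; exact h4 (h0 ▸ hLz)
  · rw [add_sub_cancel_left]; simp only [B_smull, B_smulr, h3]; ring
  · intro h0
    have : s • l = 0 := by simpa using h0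
    exact hl ((smul_eq_zero.1 this).resolve_left hs0)

theorem S_complete (hm : 2 ≤ m) (hE : ∀ s : F, 0 ≤ s → ∃ r, r * r = s)
    {x z : Fin (m + 1) → F} (h : B (z - x) (z - x) < 0) : ∃ p, S x z p := by
  obtain ⟨b, rfl⟩ : ∃ b, z = x + b := ⟨z - x, by ring⟩
  simp only [add_sub_cancel_left] at h
  obtain ⟨l, hl, hll, hlb⟩ := F2 hm hE h
  refine ⟨x + l, ?_, ?_, ⟨?_, ?_⟩, ?_, ?_⟩
  · intro h0
    have : b = 0 := by simpa using h0
    rw [this, B_zero] at h; exact lt_irrefl _ h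
  · rintro ⟨h0, -⟩
    rw [B_swap, add_sub_cancel_left] at h0; linarith
  · rw [add_sub_cancel_left]; exact hll
  · intro h0; exact hl (by simpa using h0)
  · rintro ⟨h0, -⟩
    rw [add_sub_add_left_eq_sub] at h0
    simp only [B_subl, B_subr, hll, hlb, B_comm b l] at h0; linarith
  · rintro u ⟨⟨h1, -⟩, ⟨h2, -⟩, ⟨h3, -⟩⟩
    obtain ⟨w, rfl⟩ : ∃ w, u = x + w := ⟨u - x, by ring⟩
    simp only [add_sub_cancel_left, add_sub_add_left_eq_sub] at h1 h2 h3
    simp only [B_subl, B_subr, hll, h2, B_comm l w, B_comm b w] at h1 h3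
    have hwl : B w l = 0 := by linarith
    have := F1 (t := b - (2 : F) • w) (v := l)
      (by simp only [B_subl, B_subr, B_smull, B_smulr, h2, B_comm b w]; linarith)
      (by simp only [B_subl, B_smull, hwl, B_comm b l, hlb]; ring) hl
    linarith

theorem N_of {x y z : Fin (m + 1) → F} (h1 : 0 < B (x - y) (x - y))
    (h2 : B (z - x) (z - x) < 0) (h3 : B (z - y) (z - y) < 0) : N x y z := by
  rintro u ⟨⟨a1, -⟩, ⟨a2, -⟩, ⟨a3, -⟩⟩
  refine F4 a1 a2 a3 ?_ ?_ ?_
  · rw [show u - x - (u - y) = y - x by ring, B_swap]; exact h1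
  · rw [show u - x - (u - z) = z - x by ring]; exact h2
  · rw [show u - y - (u - z) = z - y by ring]; exact h3

theorem col (hm : 2 ≤ m) (hE : ∀ s : F, 0 ≤ s → ∃ r, r * r = s) {x y z : Fin (m + 1) → F}
    (h1 : B (y - x) (y - x) < 0) (h2 : B (z - x) (z - x) < 0) (h3 : B (z - y) (z - y) < 0)
    (hN : N x y z) : ∃ s : F, z - x = s • (y - x) := by
  by_contra hcon
  push Not at hcon
  obtain ⟨w, a1, a2, a3⟩ := F3 hm hE h1 h2
    (by rw [show y - x - (z - x) = y - z by ring, B_swap]; exact h3) hcon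
  refine hN (x + w) ⟨⟨?_, ?_⟩, ⟨?_, ?_⟩, ⟨?_, ?_⟩⟩
  · rw [add_sub_cancel_left]; exact a1
  · intro h0
    have : w = 0 := by simpa using h0
    rw [this, show (0 : Fin (m + 1) → F) - (y - x) = x - y by ring, B_swap] at a2; linarith
  · rw [show x + w - y = w - (y - x) by ring]; exact a2
  · intro h0
    rw [show w = y - x by rw [← h0]; ring] at a1; linarith
  · rw [show x + w - z = w - (z - x) by ring]; exact a3
  · intro h0
    rw [show w = z - x by rw [← h0]; ring] at a1; linarith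

theorem main (hm : 2 ≤ m) (hE : ∀ s : F, 0 ≤ s → ∃ r, r * r = s) (x y : Fin (m + 1) → F) :
    (∃ z z' p1 p2 p3 p4, x ≠ y ∧ ¬ L x y ∧ L z z' ∧ S x z p1 ∧ S y z p2 ∧ S x z' p3 ∧
      S y z' p4 ∧ N x y z ∧ N x y z') ↔ 0 < B (x - y) (x - y) := by
  constructor
  · rintro ⟨z, z', p1, p2, p3, p4, h1, h2, ⟨h3, h3'⟩, s1, s2, s3, s4, n1, n2⟩
    rcases lt_trichotomy (B (x - y) (x - y)) 0 with h | h | h
    · exfalso
      rw [B_swap] at h
      obtain ⟨s, hs⟩ := col hm hE h (S_sound s1) (S_sound s2) n1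
      obtain ⟨s', hs'⟩ := col hm hE h (S_sound s3) (S_sound s4) n2
      have e : z - z' = (s - s') • (y - x) := by rw [sub_smul, ← hs, ← hs']; ring
      rw [e, B_smull, B_smulr, ← mul_assoc] at h3
      have h4 := mul_self_eq_zero.1 ((mul_eq_zero.1 h3).resolve_right h.ne)
      rw [h4, zero_smul] at e
      exact h3' (sub_eq_zero.1 e)
    · exact absurd ⟨h, h1⟩ h2
    · exact h
  · intro h
    obtain ⟨a, rfl⟩ : ∃ a, y = x + a := ⟨y - x, by ring⟩
    have ha : 0 < B a a := by rwa [B_swap, add_sub_cancel_left] at h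
    obtain ⟨c0, hc0, hca0, -⟩ := exists_orth hm a a
    have hcc0 := F1 ha (by rw [B_comm, hca0]) hc0
    obtain ⟨r, hr⟩ := hE (B a a / (-B c0 c0)) (div_nonneg ha.le (by linarith))
    have h0 := hcc0.ne
    obtain ⟨c, hca, hcc⟩ : ∃ c, B c a = 0 ∧ B c c = -B a a := by
      refine ⟨r • c0, by rw [B_smull, hca0, mul_zero], ?_⟩
      rw [B_smull, B_smulr, ← mul_assoc, hr]; field_simp
    have e1 : B (x + (3 : F) • c - x) (x + (3 : F) • c - x) < 0 := by
      rw [add_sub_cancel_left, B_smull, B_smulr, hcc]; linarith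
    have e2 : B (x + (3 : F) • c - (x + a)) (x + (3 : F) • c - (x + a)) < 0 := by
      rw [add_sub_add_left_eq_sub]
      simp only [B_subl, B_subr, B_smull, B_smulr, hcc, hca, B_comm a c]; linarith
    have e3 : B (x + (a + (4 : F) • c) - x) (x + (a + (4 : F) • c) - x) < 0 := by
      rw [add_sub_cancel_left]
      simp only [B_addl, B_addr, B_smull, B_smulr, hcc, hca, B_comm a c]; linarith
    have e4 : B (x + (a + (4 : F) • c) - (x + a)) (x + (a + (4 : F) • c) - (x + a)) < 0 := by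
      rw [add_sub_add_left_eq_sub, add_sub_cancel_left, B_smull, B_smulr, hcc]; linarith
    obtain ⟨p1, s1⟩ := S_complete hm hE e1
    obtain ⟨p2, s2⟩ := S_complete hm hE e2
    obtain ⟨p3, s3⟩ := S_complete hm hE e3
    obtain ⟨p4, s4⟩ := S_complete hm hE e4
    refine ⟨_, _, p1, p2, p3, p4, ?_, ?_, ⟨?_, ?_⟩, s1, s2, s3, s4, N_of h e1 e2, N_of h e3 e4⟩
    · intro h1; rw [← h1, sub_self, B_zero] at h; exact lt_irrefl _ h
    · rintro ⟨h1, -⟩; linarith
    · rw [add_sub_add_left_eq_sub]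
      simp only [B_subl, B_subr, B_addl, B_addr, B_smull, B_smulr, hcc, hca, B_comm a c]; ring
    · intro h1
      have h2 := congrArg (fun v => B v a) (add_left_cancel h1)
      simp only [B_addl, B_smull, hca] at h2; linarith

end Pool.Agent.H15.MK2
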