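import Mathlib

set_option autoImplicit false

namespace Pool.Agent.H15.MO

open Set

theorem weight (ι : Type) : ∃ (M : Type) (_ : LinearOrder M) (_ : WellFoundedLT M)
    (w : Finset ι → M), Function.Injective w ∧ ∀ a b p q : Finset ι,
      (∀ i, i ∈ p ∨ i ∈ q → i ∈ a ∨ i ∈ b) → (∀ i, i ∈ p → i ∈ q → i ∈ a ∧ i ∈ b) →
      w a ≤ w p → w b ≤ w q → w p = w a ∧ w q = w b := by
  classical
  obtain ⟨_, _⟩ := exists_wellFoundedLT (α := ι)
  let v : Finset ι → (ι →₀ ℕ) := fun a => Finsupp.indicator a (fun _ _ => 1)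
  have hv : ∀ a i, v a i = if i ∈ a then 1 else 0 := fun a i => by
    simp [v, Finsupp.indicator_apply]
  refine ⟨Colex (ι →₀ ℕ), inferInstance, inferInstance, fun a => toColex (v a), ?_, ?_⟩
  · intro a b h
    have h' : v a = v b := toColex.injective h
    ext i
    have := congrArg (fun f => f i) h'
    simp only [hv] at this
    by_cases h1 : i ∈ a <;> by_cases h2 : i ∈ b <;> simp_all
  · intro a b p q h1 h2 k1 k2
    have : v p + v q ≤ v a + v b := fun i => by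
      have := h1 i
      have := h2 i
      simp only [Finsupp.add_apply, hv]
      by_cases i ∈ a <;> by_cases i ∈ b <;> by_cases i ∈ p <;> by_cases i ∈ q <;> simp_all
    have h3 : toColex (v p) + toColex (v q) ≤ toColex (v a) + toColex (v b) :=
      Finsupp.toColex_monotone this
    constructor
    · refine le_antisymm ?_ k1
      by_contra k
      exact absurd (add_lt_add_of_lt_of_le (not_le.1 k) k2) (not_lt.2 h3)
    · refine le_antisymm ?_ k2
      by_contra k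
      exact absurd (add_lt_add_of_le_of_lt k1 (not_le.1 k)) (not_lt.2 h3)

variable {T : Type} [BooleanAlgebra T]

structure Ch (χ : T → Prop) : Prop where
  inf : ∀ x y, χ (x ⊓ y) ↔ χ x ∧ χ y
  sup : ∀ x y, χ (x ⊔ y) ↔ χ x ∨ χ y
  compl : ∀ x, χ xᶜ ↔ ¬ χ x

theorem Ch.mono {χ : T → Prop} (h : Ch χ) {x y : T} (hxy : x ≤ y) (hx : χ x) : χ y := by
  have := (h.sup x y).2 (Or.inl hx)
  rwa [sup_eq_right.2 hxy] at this

theorem exists_ch (C A B : Set T) (hC : IsChain (· ≤ ·) C) (hA : A ⊆ C) (hB : B ⊆ C)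
    (nA : A.Nonempty) (nB : B.Nonempty) (h : ∀ a ∈ A, ∀ b ∈ B, ¬ a ≤ b) :
    ∃ χ : T → Prop, Ch χ ∧ (∀ a ∈ A, χ a) ∧ ∀ b ∈ B, ¬ χ b := by
  let I : Order.Ideal T :=
    { carrier := {z | ∃ b ∈ B, z ≤ b}
      lower' := fun x y hxy ⟨b, hb, k⟩ => ⟨b, hb, hxy.trans k⟩
      nonempty' := by obtain ⟨b, hb⟩ := nB; exact ⟨b, b, hb, le_rfl⟩
      directed' := by
        rintro x ⟨b, hb, k⟩ y ⟨c, hc, l⟩
        rcases hC.total (hB hb) (hB hc) with j | j
        · exact ⟨c, ⟨c, hc, le_rfl⟩, k.trans j, l⟩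
        · exact ⟨b, ⟨b, hb, le_rfl⟩, k, l.trans j⟩ }
  have hF : Order.IsPFilter {z | ∃ a ∈ A, a ≤ z} := Order.IsPFilter.of_def
    (by obtain ⟨a, ha⟩ := nA; exact ⟨a, a, ha, le_rfl⟩)
    (by
      rintro x ⟨b, hb, k⟩ y ⟨c, hc, l⟩
      rcases hC.total (hA hb) (hA hc) with j | j
      · exact ⟨b, ⟨b, hb, le_rfl⟩, k, j.trans l⟩
      · exact ⟨c, ⟨c, hc, le_rfl⟩, j.trans k, l⟩)
    (fun hxy ⟨a, ha, k⟩ => ⟨a, ha, k.trans hxy⟩)
  obtain ⟨J, pJ, h1, h2⟩ := DistribLattice.prime_ideal_of_disjoint_filter_ideal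
    (F := hF.toPFilter) (I := I) (disjoint_left.2 (by
      rintro z ⟨a, ha, k⟩ ⟨b, hb, l⟩
      exact h a ha b hb (k.trans l)))
  refine ⟨fun x => x ∉ J, ⟨fun x y => ?_, fun x y => ?_, fun x => ?_⟩, fun a ha => ?_,
    fun b hb => not_not.2 (h1 ⟨b, hb, le_rfl⟩)⟩
  · rw [← not_or]
    refine not_congr ⟨fun k => pJ.mem_or_mem k, ?_⟩
    rintro (k | k)
    · exact J.lower inf_le_left k
    · exact J.lower inf_le_right k
  · rw [Order.Ideal.sup_mem_iff, not_and_or]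
  · rw [not_not]
    constructor
    · intro k
      exact (pJ.mem_or_compl_mem (x := x)).resolve_right k
    · intro k k'
      have := J.sup_mem k k'
      rw [sup_compl_eq_top] at this
      exact pJ.toIsProper.top_notMem this
  · exact disjoint_left.1 h2 (show a ∈ (hF.toPFilter : Set T) from ⟨a, ha, le_rfl⟩)

theorem main' (C : Set T) (hC : IsChain (· ≤ ·) C) (hb : ⊥ ∈ C) (ht : ⊤ ∈ C)
    (hg : ∀ x, x ∈ BooleanSubalgebra.closure C) :
    ∃ φ : {S : Set T // S.Nonempty ∧ IsSublattice S} → T, (∀ S, φ S ∈ S.1) ∧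
      ∀ S S', (∀ x ∈ S.1, ∀ x' ∈ S'.1, x ⊓ x' ∈ S.1 ∧ x ⊔ x' ∈ S'.1) → φ S ≤ φ S' := by
  classical
  let ι := {c // c ∈ C ∧ c ≠ ⊥ ∧ c ≠ ⊤}
  have e1 : ∀ c : ι, ∃ χ : T → Prop, Ch χ ∧ (∀ a ∈ {d | d ∈ C ∧ c.1 ≤ d}, χ a) ∧
      ∀ b ∈ {d | d ∈ C ∧ d < c.1}, ¬ χ b := fun c =>
    exists_ch C _ _ hC (fun _ h => h.1) (fun _ h => h.1) ⟨⊤, ht, le_top⟩
      ⟨⊥, hb, bot_lt_iff_ne_bot.2 c.2.2.1⟩
      (fun a ha b hb k => lt_irrefl _ (hb.2.trans_le (ha.2.trans k)))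
  have e2 : ∀ c : ι, ∃ χ : T → Prop, Ch χ ∧ (∀ a ∈ {d | d ∈ C ∧ c.1 < d}, χ a) ∧
      ∀ b ∈ {d | d ∈ C ∧ d ≤ c.1}, ¬ χ b := fun c =>
    exists_ch C _ _ hC (fun _ h => h.1) (fun _ h => h.1) ⟨⊤, ht, lt_top_iff_ne_top.2 c.2.2.2⟩
      ⟨⊥, hb, bot_le⟩ (fun a ha b hb k => lt_irrefl _ (ha.2.trans_le (k.trans hb.2)))
  choose p cp p1 p2 using e1
  choose m cm m1 m2 using e2
  let bd : T → Set ι := fun x => {c | ¬ (p c x ↔ m c x)}
  have gen : ∀ d ∈ C, bd d ⊆ {c | c.1 = d} := by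
    intro d hd c hc
    by_contra k
    rcases hC.total c.2.1 hd with j | j
    · exact hc (iff_of_true (p1 c d ⟨hd, j⟩) (m1 c d ⟨hd, lt_of_le_of_ne j k⟩))
    · exact hc (iff_of_false (p2 c d ⟨hd, lt_of_le_of_ne j (Ne.symm k)⟩) (m2 c d ⟨hd, j⟩))
  have genf : ∀ d ∈ C, (bd d).Finite := fun d hd =>
    (Set.Subsingleton.finite (s := {c : ι | c.1 = d})
      (fun a ha b hb => Subtype.ext (ha.trans hb.symm))).subset (gen d hd)
  have fin : ∀ x, (bd x).Finite := by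
    intro x
    refine BooleanSubalgebra.closure_bot_sup_induction (p := fun x _ => (bd x).Finite)
      genf (genf _ hb) (fun x _ y _ hx hy => (hx.union hy).subset fun c hc => ?_)
      (fun x _ hx => hx.subset fun c hc => ?_) (hg x)
    · simp only [bd, mem_ofPred_eq, mem_union, (cp c).sup, (cm c).sup] at hc ⊢
      tauto
    · simp only [bd, mem_ofPred_eq, (cp c).compl, (cm c).compl] at hc ⊢
      tauto
  have loc : ∀ x, ∃ F : Set T, F.Finite ∧ F ⊆ C ∧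
      ∀ a b, (∀ d ∈ F, d ≤ a ∨ b ≤ d) → b \ a ≤ x ∨ b \ a ≤ xᶜ := by
    intro x
    refine BooleanSubalgebra.closure_bot_sup_induction (p := fun x _ => ∃ F : Set T, F.Finite ∧
      F ⊆ C ∧ ∀ a b, (∀ d ∈ F, d ≤ a ∨ b ≤ d) → b \ a ≤ x ∨ b \ a ≤ xᶜ) ?_ ?_ ?_ ?_ (hg x)
    · intro d hd
      refine ⟨{d}, finite_singleton _, singleton_subset_iff.2 hd, fun a b h => ?_⟩
      rcases h d rfl with k | k
      · exact Or.inr (by rw [_root_.sdiff_eq]; exact inf_le_right.trans (compl_le_compl k))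
      · exact Or.inl (sdiff_le.trans k)
    · exact ⟨∅, finite_empty, empty_subset _, fun a b _ => Or.inr (by simp)⟩
    · rintro x _ y _ ⟨F, f1, f2, f3⟩ ⟨G, g1, g2, g3⟩
      refine ⟨F ∪ G, f1.union g1, union_subset f2 g2, fun a b h => ?_⟩
      rcases f3 a b (fun d hd => h d (Or.inl hd)) with k | k
      · exact Or.inl (k.trans le_sup_left)
      rcases g3 a b (fun d hd => h d (Or.inr hd)) with l | l
      · exact Or.inl (l.trans le_sup_right)
      · exact Or.inr (by rw [compl_sup]; exact le_inf k l)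
    · rintro x _ ⟨F, f1, f2, f3⟩
      exact ⟨F, f1, f2, fun a b h => by rw [compl_compl]; exact (f3 a b h).symm⟩
  have det0 : ∀ x, (∀ c, p c x ↔ m c x) → x = ⊥ ∨ x = ⊤ := by
    intro x hx
    obtain ⟨F0, f1, f2, f3⟩ := loc x
    let F : Set T := insert ⊥ (insert ⊤ F0)
    have fF : F.Finite := (f1.insert _).insert _
    have sF : F ⊆ C := insert_subset hb (insert_subset ht f2)
    have all : ∀ b ∈ F, b ≤ x ∨ b ≤ xᶜ := by
      by_contra k
      push Not at k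
      obtain ⟨b, ⟨b1, b2⟩, bm⟩ := (fF.subset (show {b | b ∈ F ∧ ¬ b ≤ x ∧ ¬ b ≤ xᶜ} ⊆ F from
        fun _ h => h.1)).exists_minimal k
      have bne : ⊥ < b := bot_lt_iff_ne_bot.2 fun j => b2.1 (j ▸ bot_le)
      obtain ⟨a, ⟨a1, a2⟩, am⟩ := (fF.subset (show {a | a ∈ F ∧ a < b} ⊆ F from
        fun _ h => h.1)).exists_maximal ⟨⊥, Or.inl rfl, bne⟩
      have ha : a ≤ x ∨ a ≤ xᶜ := by
        by_contra j
        push Not at j
        exact absurd (bm ⟨a1, j⟩ a2.le) a2.not_ge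
      have he := f3 a b (fun d hd => by
        have hd' : d ∈ F := Or.inr (Or.inr hd)
        rcases hC.total (sF hd') (sF b1) with j | j
        · rcases j.eq_or_lt with j | j
          · exact Or.inr j.ge
          · rcases hC.total (sF hd') (sF a1) with l | l
            · exact Or.inl l
            · exact Or.inl (am ⟨hd', j⟩ l)
        · exact Or.inr j)
      have cover : ∀ z, a ≤ z → b \ a ≤ z → b ≤ z := fun z k1 k2 =>
        le_sup_sdiff.trans (sup_le k1 k2)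
      by_cases a0 : a = ⊥
      · rcases he with j | j
        · exact b2.1 (cover _ (a0 ▸ bot_le) j)
        · exact b2.2 (cover _ (a0 ▸ bot_le) j)
      let c : ι := ⟨a, sF a1, a0, fun j => not_top_lt (j ▸ a2)⟩
      have q1 : p c a := p1 c a ⟨sF a1, le_rfl⟩
      have q2 : m c (b \ a) := by
        rw [_root_.sdiff_eq, (cm c).inf, (cm c).compl]
        exact ⟨m1 c b ⟨sF b1, a2⟩, m2 c a ⟨sF a1, le_rfl⟩⟩
      rcases ha with j | j <;> rcases he with l | l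
      · exact b2.1 (cover _ j l)
      · exact ((cm c).compl x).1 ((cm c).mono l q2) ((hx c).1 ((cp c).mono j q1))
      · exact ((cp c).compl x).1 ((cp c).mono j q1) ((hx c).2 ((cm c).mono l q2))
      · exact b2.2 (cover _ j l)
    rcases all ⊤ (Or.inr (Or.inl rfl)) with k | k
    · exact Or.inr (top_le_iff.1 k)
    · exact Or.inl (compl_eq_top.1 (top_le_iff.1 k))
  have det : ∀ x y, bd x = bd y → x = y ∨ IsCompl x y := by
    intro x y h
    rcases det0 (symmDiff x y) (fun c => by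
      have : c ∈ bd x ↔ c ∈ bd y := by rw [h]
      simp only [bd, mem_ofPred_eq] at this
      simp only [symmDiff_eq, (cp c).sup, (cm c).sup, (cp c).inf, (cm c).inf, (cp c).compl,
        (cm c).compl]
      tauto) with k | k
    · exact Or.inl (symmDiff_eq_bot.1 k)
    · exact Or.inr ((symmDiff_eq_top _ _).1 k)
  obtain ⟨M, _, _, w, wi, ws⟩ := weight ι
  let W : T → M := fun x => w (fin x).toFinset
  have sub : ∀ x y, W x ≤ W (x ⊓ y) → W y ≤ W (x ⊔ y) → W (x ⊓ y) = W x ∧ W (x ⊔ y) = W y := by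
    intro x y
    refine ws _ _ _ _ (fun c => ?_) (fun c => ?_) <;>
    · simp only [Finite.mem_toFinset, bd, mem_ofPred_eq, (cp c).sup, (cm c).sup, (cp c).inf,
        (cm c).inf]
      tauto
  have ex : ∀ S : {S : Set T // S.Nonempty ∧ IsSublattice S}, ∃ x ∈ S.1,
      (∀ y ∈ S.1, W x ≤ W y) ∧ ∀ y ∈ S.1, W y = W x → x ≤ y := by
    intro S
    obtain ⟨_, ⟨x, hx, rfl⟩, hm⟩ := wellFounded_lt.has_min (W '' S.1) (S.2.1.image W)
    have hm' : ∀ y ∈ S.1, W x ≤ W y := fun y hy => not_lt.1 (hm _ ⟨y, hy, rfl⟩)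
    by_cases k : ∀ y ∈ S.1, W y = W x → x ≤ y
    · exact ⟨x, hx, hm', k⟩
    · push Not at k
      obtain ⟨y, hy, e, n⟩ := k
      have : bd x = bd y := by simpa using wi e.symm
      rcases det x y this with j | j
      · exact absurd j.le n
      · have i1 := S.2.2.infClosed hx hy
        have i2 := (sub x y (hm' _ i1) (e ▸ hm' _ (S.2.2.supClosed hx hy))).1
        rw [j.inf_eq_bot] at i1 i2
        exact ⟨⊥, i1, fun z hz => i2 ▸ hm' z hz, fun _ _ _ => bot_le⟩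
  choose φ f1 f2 f3 using ex
  refine ⟨φ, f1, fun S S' h => ?_⟩
  obtain ⟨k1, k2⟩ := h _ (f1 S) _ (f1 S')
  exact (f3 S _ k1 (sub _ _ (f2 S _ k1) (f2 S' _ k2)).1).trans inf_le_right

theorem main (C : Set T) (hC : IsChain (· ≤ ·) C) (hg : BooleanSubalgebra.closure C = ⊤) :
    ∃ φ : {S : Set T // S.Nonempty ∧ IsSublattice S} → T, (∀ S, φ S ∈ S.1) ∧
      ∀ S S', (∀ x ∈ S.1, ∀ x' ∈ S'.1, x ⊓ x' ∈ S.1 ∧ x ⊔ x' ∈ S'.1) → φ S ≤ φ S' :=
  main' (insert ⊤ (insert ⊥ C))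
    ((hC.insert fun _ _ _ => Or.inl bot_le).insert fun _ _ _ => Or.inr le_top)
    (Or.inr (Or.inl rfl)) (Or.inl rfl) fun x =>
    BooleanSubalgebra.closure_mono ((subset_insert _ _).trans (subset_insert _ _))
      (by rw [hg]; exact BooleanSubalgebra.mem_top)

end Pool.Agent.H15.MO
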