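import Mathlib

set_option autoImplicit false

open Polynomial

namespace Pool.Agent.H15.MS

noncomputable def T (γ : ℕ → ℝ) (p : ℝ[X]) : ℝ[X] := p.sum fun k a => monomial k (γ k * a)

theorem coeff_T (γ : ℕ → ℝ) (p : ℝ[X]) (n : ℕ) : (T γ p).coeff n = γ n * p.coeff n := by
  classical
  unfold T
  rw [coeff_sum, Polynomial.sum_def]
  simp only [coeff_monomial]
  rw [Finset.sum_ite_eq' p.support n (fun k => γ k * p.coeff k)]
  split_ifs with h
  · rfl
  · rw [notMem_support_iff.1 h, mul_zero]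

def IsMS (γ : ℕ → ℝ) : Prop := ∀ p : ℝ[X], p.Splits → (T γ p).Splits

theorem IsMS.mul {α β : ℕ → ℝ} (ha : IsMS α) (hb : IsMS β) : IsMS fun k => α k * β k := by
  intro p hp
  have : T (fun k => α k * β k) p = T α (T β p) := by
    ext n; simp only [coeff_T]; ring
  rw [this]
  exact ha _ (hb _ hp)

theorem ms_const (c : ℝ) : IsMS fun _ => c := by
  intro p hp
  have : T (fun _ => c) p = C c * p := by
    ext n; simp only [coeff_T, coeff_C_mul]
  rw [this]
  exact hp.C_mul c

theorem IsMS.pow {α : ℕ → ℝ} (ha : IsMS α) (m : ℕ) : IsMS fun k => α k ^ m := by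
  induction m with
  | zero => simpa using ms_const 1
  | succ m ih => simpa only [pow_succ] using ih.mul ha

theorem ms_geom (r : ℝ) : IsMS fun k => r ^ k := by
  intro p hp
  have : T (fun k => r ^ k) p = p.comp (C r * X) := by
    ext n; simp only [coeff_T, comp_C_mul_X_coeff]; ring
  rw [this]
  refine hp.comp_of_natDegree_le_one ?_
  exact (natDegree_C_mul_le _ _).trans natDegree_X_le

theorem ms_exp (u h : ℝ) : IsMS fun k => Real.exp (u + k * h) := by
  have := (ms_const (Real.exp u)).mul (ms_geom (Real.exp h))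
  convert this using 2 with k
  rw [Real.exp_add, Real.exp_nat_mul]

theorem splits_derivative {p : ℝ[X]} (hp : p.Splits) : (derivative p).Splits := by
  rw [splits_iff_card_roots] at *
  have h1 := card_roots_le_derivative p
  have h2 := card_roots' (derivative p)
  have h3 : (derivative p).natDegree ≤ p.natDegree - 1 := natDegree_derivative_le p
  omega

theorem ms_succ : IsMS fun k => (k : ℝ) + 1 := by
  intro p hp
  have : T (fun k => (k : ℝ) + 1) p = derivative (X * p) := by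
    ext n; simp only [coeff_T, coeff_derivative, coeff_X_mul]; ring
  rw [this]
  exact splits_derivative (Splits.X.mul hp)

theorem newton {p : ℝ[X]} (hp : p.Splits) : 2 * p.coeff 0 * p.coeff 2 ≤ p.coeff 1 ^ 2 := by
  obtain ⟨m, hm⟩ := splits_iff_exists_multiset'.1 hp
  generalize p.leadingCoeff = c at hm
  subst hm
  clear hp
  induction m using Multiset.induction_on with
  | empty => simp [coeff_C]
  | cons r m ih =>
    rw [Multiset.map_cons, Multiset.prod_cons, mul_left_comm]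
    generalize C c * (m.map (X + C ·)).prod = q at ih
    have e0 : ((X + C r) * q).coeff 0 = r * q.coeff 0 := by simp [add_mul]
    have e1 : ((X + C r) * q).coeff 1 = q.coeff 0 + r * q.coeff 1 := by
      rw [add_mul, coeff_add, coeff_C_mul, coeff_X_mul]
    have e2 : ((X + C r) * q).coeff 2 = q.coeff 1 + r * q.coeff 2 := by
      rw [add_mul, coeff_add, coeff_C_mul, coeff_X_mul]
    rw [e0, e1, e2]
    nlinarith [mul_le_mul_of_nonneg_left ih (sq_nonneg r), sq_nonneg (q.coeff 0)]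

theorem quad_eq {p : ℝ[X]} (h : ∀ n, 3 ≤ n → p.coeff n = 0) :
    p = C (p.coeff 2) * X ^ 2 + C (p.coeff 1) * X + C (p.coeff 0) := by
  ext n
  rcases n with _ | _ | _ | n
  · simp
  · simp
  · simp
  · rw [h _ (by omega)]; simp [coeff_X, coeff_C]

theorem quad_splits {p : ℝ[X]} (h : ∀ n, 3 ≤ n → p.coeff n = 0)
    (hd : 4 * p.coeff 2 * p.coeff 0 ≤ p.coeff 1 ^ 2) : p.Splits := by
  have e := quad_eq h
  by_cases h2 : p.coeff 2 = 0
  · apply Splits.of_natDegree_le_one
    rw [natDegree_le_iff_coeff_eq_zero]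
    intro n hn
    by_cases h3 : n = 2
    · rw [h3, h2]
    · exact h n (by omega)
  · obtain ⟨x, hx⟩ := exists_quadratic_eq_zero (a := p.coeff 2) (b := p.coeff 1) (c := p.coeff 0) h2
      ⟨√(discrim (p.coeff 2) (p.coeff 1) (p.coeff 0)), by
        rw [Real.mul_self_sqrt]; unfold discrim; linarith⟩
    refine Splits.of_natDegree_eq_two (x := x) ?_ ?_
    · rw [e]; exact natDegree_quadratic h2
    · rw [e]; simp only [eval_add, eval_mul, eval_C, eval_pow, eval_X]; linarith

theorem quad_disc {p : ℝ[X]} (h : ∀ n, 3 ≤ n → p.coeff n = 0) (hp : p.Splits) :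
    4 * p.coeff 2 * p.coeff 0 ≤ p.coeff 1 ^ 2 := by
  have e := quad_eq h
  by_cases h2 : p.coeff 2 = 0
  · rw [h2]; simpa using sq_nonneg _
  · have hd : p.degree ≠ 0 := by rw [e, degree_quadratic h2]; decide
    obtain ⟨x, hx⟩ := hp.exists_eval_eq_zero hd
    rw [e] at hx
    simp only [eval_add, eval_mul, eval_C, eval_pow, eval_X] at hx
    have : p.coeff 0 = -(p.coeff 2 * x ^ 2 + p.coeff 1 * x) := by linarith
    rw [this]
    nlinarith [sq_nonneg (2 * p.coeff 2 * x + p.coeff 1)]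

/-- three-term sequences -/
def tri (a b c : ℝ) : ℕ → ℝ
  | 0 => a
  | 1 => b
  | 2 => c
  | _ + 3 => 0

theorem tri_nonneg {a b c : ℝ} (ha : 0 ≤ a) (hb : 0 ≤ b) (hc : 0 ≤ c) : ∀ k, 0 ≤ tri a b c k
  | 0 => ha
  | 1 => hb
  | 2 => hc
  | _ + 3 => le_rfl

theorem ms_tri {a b c : ℝ} (ha : 0 ≤ a) (hc : 0 ≤ c) (h : 2 * a * c ≤ b ^ 2) :
    IsMS (tri a b c) := by
  intro p hp
  apply quad_splits
  · intro n hn
    obtain ⟨m, rfl⟩ := Nat.exists_eq_add_of_le' hn
    rw [coeff_T]; simp [tri]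
  · simp only [coeff_T, tri]
    have h1 := newton hp
    have h2 : 0 ≤ a * c := mul_nonneg ha hc
    nlinarith [mul_le_mul_of_nonneg_left h1 h2, mul_le_mul_of_nonneg_right h (sq_nonneg (p.coeff 1))]

theorem jensen {γ : ℕ → ℝ} (h : IsMS γ) (N : ℕ) : (T γ ((1 + X) ^ N)).Splits := by
  apply h
  have := (Splits.X_add_C (1 : ℝ)).pow N
  rwa [C_1, add_comm] at this

theorem coeff_jensen (γ : ℕ → ℝ) (N k : ℕ) :
    (T γ ((1 + X) ^ N)).coeff k = γ k * N.choose k := by
  rw [coeff_T, coeff_one_add_X_pow]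

def JS (γ : ℕ → ℝ) : Prop := ∀ N : ℕ, (T γ ((1 + X) ^ N)).Splits

theorem turan' {γ : ℕ → ℝ} (h : JS γ) : γ 0 * γ 2 ≤ γ 1 ^ 2 := by
  have := quad_disc (fun n hn => by
    rw [coeff_jensen, Nat.choose_eq_zero_of_lt (by omega)]; simp) (h 2)
  simp only [coeff_jensen] at this
  norm_num at this
  linarith

theorem turan {γ : ℕ → ℝ} (h : IsMS γ) : γ 0 * γ 2 ≤ γ 1 ^ 2 := turan' (jensen h)

theorem sign {γ : ℕ → ℝ} (h : IsMS γ) : 0 ≤ γ 0 * γ 2 := by
  have hs : ((X + C (1 : ℝ)) * (X - C 1)).Splits := (Splits.X_add_C _).mul (Splits.X_sub_C _)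
  have e : ((X + C (1 : ℝ)) * (X - C 1)) = X ^ 2 - C 1 := by rw [C_1]; ring
  rw [e] at hs
  have := quad_disc (fun n hn => by
    rw [coeff_T, coeff_sub, coeff_X_pow, coeff_C, if_neg (by omega), if_neg (by omega)]; simp)
    (h _ hs)
  simp only [coeff_T, coeff_sub, coeff_X_pow, coeff_C] at this
  norm_num at this
  linarith

theorem cut {γ : ℕ → ℝ} (h : IsMS γ) (h3 : γ 3 = 0) : 4 * (γ 0 * γ 2) ≤ 3 * γ 1 ^ 2 := by
  have := quad_disc (fun n hn => by
    rw [coeff_jensen]
    by_cases h : n = 3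
    · rw [h, h3, zero_mul]
    · rw [Nat.choose_eq_zero_of_lt (by omega)]; simp) (jensen h 3)
  simp only [coeff_jensen] at this
  norm_num [Nat.choose] at this
  linarith

end Pool.Agent.H15.MS
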