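import Mathlib
import Pool.Agent.H15.MS1

set_option autoImplicit false

open Polynomial Finset

namespace Pool.Agent.H15.MS

theorem homog_real (γ : ℕ → ℝ) (N : ℕ) (g : ℝ) (m : Multiset ℝ) (hc : m.card = N)
    (h : T γ ((1 + X) ^ N) = C g * (m.map (X + C ·)).prod) (u v : ℝ) (hv : v ≠ 0) :
    g * (m.map fun w => u + w * v).prod =
      ∑ k ∈ range (N + 1), γ k * N.choose k * u ^ k * v ^ (N - k) := by
  have h1 : ∀ m : Multiset ℝ, (m.map fun w => u + w * v).prod =
      v ^ m.card * eval (u / v) (m.map (X + C ·)).prod := by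
    intro m
    induction m using Multiset.induction_on with
    | empty => simp
    | cons a m ih =>
      simp only [Multiset.map_cons, Multiset.prod_cons, ih, Multiset.card_cons, eval_mul, eval_add,
        eval_X, eval_C]
      field_simp
      ring
  have hd : (T γ ((1 + X) ^ N)).natDegree < N + 1 := by
    rw [Nat.lt_succ_iff, natDegree_le_iff_coeff_eq_zero]
    intro k hk
    rw [coeff_jensen, Nat.choose_eq_zero_of_lt hk]; simp
  have h2 := eval_eq_sum_range' hd (u / v)
  rw [h, eval_mul, eval_C] at h2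
  rw [h1, hc, mul_left_comm, h2, mul_sum]
  refine sum_congr rfl fun k hk => ?_
  have hk' : k ≤ N := Nat.lt_succ_iff.1 (mem_range.1 hk)
  rw [← h, coeff_jensen]
  obtain ⟨j, rfl⟩ := Nat.exists_eq_add_of_le hk'
  rw [Nat.add_sub_cancel_left, pow_add, div_pow]
  field_simp

theorem homog (γ : ℕ → ℝ) (N : ℕ) (g : ℝ) (m : Multiset ℝ) (hc : m.card = N)
    (h : T γ ((1 + X) ^ N) = C g * (m.map (X + C ·)).prod) (U V : ℝ[X])
    (hV : ∀ x ∈ Set.Ioo (0 : ℝ) 1, eval x V ≠ 0) :
    C g * (m.map fun w => U + C w * V).prod =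
      ∑ k ∈ range (N + 1), C (γ k * N.choose k) * (U ^ k * V ^ (N - k)) := by
  apply eq_of_infinite_eval_eq
  refine (Set.Ioo_infinite (zero_lt_one' ℝ)).mono fun x hx => ?_
  have := homog_real γ N g m hc h (eval x U) (eval x V) (hV x hx)
  simp only [Set.mem_ofPred_eq, eval_mul, eval_C, eval_multiset_prod, Multiset.map_map,
    Function.comp_def, eval_add, eval_finsetSum, eval_pow]
  rw [this]
  exact sum_congr rfl fun k _ => by ring

theorem coeff_lin_pow (s : ℝ) (m j : ℕ) :
    ((1 + C s * X) ^ m).coeff j = m.choose j * s ^ j := by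
  have : (1 + C s * X : ℝ[X]) ^ m = ((1 + X) ^ m).comp (C s * X) := by simp
  rw [this, comp_C_mul_X_coeff, coeff_one_add_X_pow]

noncomputable def D (γ : ℕ → ℝ) (s : ℝ) (n : ℕ) : ℝ :=
  ∑ k ∈ range (n + 1), n.choose k * γ k * s ^ (n - k)

noncomputable def P (s : ℝ) (m : Multiset ℝ) : ℝ[X] :=
  (m.map fun w => X + C w * (1 + C s * X)).prod

theorem P_coeff (γ : ℕ → ℝ) (N : ℕ) (g : ℝ) (m : Multiset ℝ) (hc : m.card = N)
    (h : T γ ((1 + X) ^ N) = C g * (m.map (X + C ·)).prod) (s : ℝ) (hs : -1 ≤ s) (n : ℕ)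
    (hn : n ≤ N) : g * (P s m).coeff n = N.choose n * D γ s n := by
  have := homog γ N g m hc h X (1 + C s * X) fun x hx => by
    simp only [eval_add, eval_one, eval_mul, eval_C, eval_X]
    nlinarith [hx.1, hx.2]
  have h2 := congrArg (fun p => p.coeff n) this
  simp only [coeff_C_mul, finsetSum_coeff, coeff_X_pow_mul', coeff_lin_pow] at h2
  unfold P D
  rw [h2, mul_sum, ← sum_subset (range_subset_range.2 (Nat.succ_le_succ hn))]
  · refine sum_congr rfl fun k hk => ?_
    have hk' : k ≤ n := Nat.lt_succ_iff.1 (mem_range.1 hk)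
    rw [if_pos hk']
    have := congrArg (Nat.cast : ℕ → ℝ) (Nat.choose_mul (n := N) hk')
    push_cast at this
    calc _ = γ k * s ^ (n - k) * (N.choose k * (N - k).choose (n - k)) := by ring
      _ = _ := by rw [← this]; ring
  · intro k _ hk
    rw [if_neg (by simpa [Nat.lt_succ_iff] using hk), mul_zero]

theorem P_cons0 (s w : ℝ) (m : Multiset ℝ) : (P s (w ::ₘ m)).coeff 0 = w * (P s m).coeff 0 := by
  simp [P, mul_coeff_zero]

theorem P_cons (s w : ℝ) (m : Multiset ℝ) (n : ℕ) : (P s (w ::ₘ m)).coeff (n + 1) =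
    w * (P s m).coeff (n + 1) + (1 + s * w) * (P s m).coeff n := by
  have : P s (w ::ₘ m) = C w * P s m + C (1 + s * w) * (X * P s m) := by
    simp only [P, Multiset.map_cons, Multiset.prod_cons, C_add, C_mul, C_1]; ring
  rw [this, coeff_add, coeff_C_mul, coeff_C_mul, coeff_X_mul]

theorem P_ineq (m : Multiset ℝ) (hm : ∀ w ∈ m, 0 ≤ w) :
    (∀ n, |(P (-1) m).coeff n| ≤ (P 1 m).coeff n) ∧ 0 ≤ (P (-1) m).coeff 0 ∧
      ∀ n, -((m.map fun w => max (w - 1) 0).sum * (P 1 m).coeff n) ≤ (P (-1) m).coeff (n + 1) := by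
  induction m using Multiset.induction_on with
  | empty =>
    refine ⟨fun n => ?_, by simp [P], fun n => by simp [P, coeff_one]⟩
    simp only [P, Multiset.map_zero, Multiset.prod_zero, coeff_one]
    split_ifs <;> simp
  | cons w m ih =>
    have hw : 0 ≤ w := hm w (Multiset.mem_cons_self _ _)
    obtain ⟨a, b, c⟩ := ih fun x hx => hm x (Multiset.mem_cons_of_mem hx)
    have hZ : ∀ n, 0 ≤ (P 1 m).coeff n := fun n => (abs_nonneg _).trans (a n)
    have hS : 0 ≤ (m.map fun w => max (w - 1) 0).sum :=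
      Multiset.sum_nonneg fun x hx => by
        obtain ⟨y, _, rfl⟩ := Multiset.mem_map.1 hx
        exact le_max_right _ _
    set S := (m.map fun w => max (w - 1) 0).sum with hSd
    refine ⟨fun n => ?_, by rw [P_cons0]; exact mul_nonneg hw b, fun n => ?_⟩
    · cases n with
      | zero =>
        rw [P_cons0, P_cons0, abs_mul, abs_of_nonneg hw]
        exact mul_le_mul_of_nonneg_left (a 0) hw
      | succ n =>
        rw [P_cons, P_cons]
        refine (abs_add_le _ _).trans ?_
        rw [abs_mul, abs_mul, abs_of_nonneg hw]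
        refine add_le_add (mul_le_mul_of_nonneg_left (a _) hw) ?_
        refine mul_le_mul ?_ (a n) (abs_nonneg _) (by linarith)
        rw [abs_le]; constructor <;> linarith
    · rw [Multiset.map_cons, Multiset.sum_cons, ← hSd, P_cons]
      have c1 := mul_le_mul_of_nonneg_left (c n) hw
      have a1 := (abs_le.1 (a n)).2
      have hz := hZ n
      cases n with
      | zero =>
        rw [P_cons0]
        rcases le_total w 1 with h | h
        · rw [max_eq_right (by linarith)]
          nlinarith [mul_nonneg (sub_nonneg.2 h) b]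
        · rw [max_eq_left (by linarith)]
          nlinarith [mul_le_mul_of_nonneg_left a1 (sub_nonneg.2 h),
            mul_nonneg (mul_nonneg (sub_nonneg.2 h) (sub_nonneg.2 h)) hz]
      | succ n =>
        rw [P_cons]
        have hz' := hZ n
        rcases le_total w 1 with h | h
        · rw [max_eq_right (by linarith)]
          nlinarith [mul_le_mul_of_nonneg_left (c n) (sub_nonneg.2 h),
            mul_nonneg (mul_nonneg hw hS) hz']
        · rw [max_eq_left (by linarith)]
          nlinarith [mul_le_mul_of_nonneg_left a1 (sub_nonneg.2 h),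
            mul_nonneg (mul_nonneg (sub_nonneg.2 h) (sub_nonneg.2 h)) hz,
            mul_nonneg (mul_nonneg (add_nonneg (sub_nonneg.2 h) hS) (add_nonneg zero_le_one hw)) hz']

theorem Q_coeff (m : Multiset ℝ) :
    ((m.map fun w => 1 + C w * X).prod).coeff 0 = 1 ∧
    ((m.map fun w => 1 + C w * X).prod).coeff 1 = m.sum ∧
    2 * ((m.map fun w => 1 + C w * X).prod).coeff 2 = m.sum ^ 2 - (m.map fun w => w ^ 2).sum := by
  induction m using Multiset.induction_on with
  | empty => simp [coeff_one]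
  | cons w m ih =>
    obtain ⟨a, b, c⟩ := ih
    simp only [Multiset.map_cons, Multiset.prod_cons, Multiset.sum_cons]
    generalize (m.map fun w => 1 + C w * X).prod = q at a b c
    have e : (1 + C w * X) * q = q + C w * (X * q) := by ring
    rw [e]
    simp only [coeff_add, coeff_C_mul, coeff_X_mul_zero, coeff_X_mul]
    refine ⟨by rw [a]; ring, by rw [a, b]; ring, ?_⟩
    rw [b]; linarith

theorem sum_bound (m : Multiset ℝ) (μ δ : ℝ) (hμ : μ ≤ 1) (hδ : 0 < δ) :
    (m.map fun w => max (w - 1) 0).sum * δ ≤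
      m.card * δ ^ 2 + ((m.map fun w => w ^ 2).sum - 2 * μ * m.sum + m.card * μ ^ 2) := by
  induction m using Multiset.induction_on with
  | empty => simp
  | cons w m ih =>
    simp only [Multiset.map_cons, Multiset.sum_cons, Multiset.card_cons]
    push_cast
    have : max (w - 1) 0 * δ ≤ δ ^ 2 + (w - μ) ^ 2 := by
      rcases le_total w 1 with h | h
      · rw [max_eq_right (by linarith), zero_mul]; positivity
      · rw [max_eq_left (by linarith)]
        nlinarith [sq_nonneg (w - μ - δ), mul_nonneg (sub_nonneg.2 hμ) hδ.le]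
    nlinarith

theorem exists_small (r : ℕ → ℝ) (h0 : ∀ j, 0 ≤ r j) (h1 : ∀ j, r j ≤ 1) (ε : ℝ) (hε : 0 < ε)
    (M0 : ℕ) : ∃ M, M0 ≤ M ∧ (M + 1) * (r (M + 1) - r M) ≤ ε := by
  by_contra hc
  push Not at hc
  apply Real.not_summable_natCast_inv
  rw [← summable_nat_add_iff (M0 + 1), ← summable_mul_left_iff hε.ne']
  refine summable_of_sum_range_le (c := 1) (fun n => by positivity) fun n => ?_
  have : ∑ i ∈ range n, ε * (((i + (M0 + 1) : ℕ) : ℝ))⁻¹ ≤ r (M0 + n) - r M0 := by
    induction n with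
    | zero => simp
    | succ n ih =>
      rw [sum_range_succ]
      have h2 := hc (M0 + n) (by omega)
      have h3 : ε * (((n + (M0 + 1) : ℕ) : ℝ))⁻¹ ≤ r (M0 + n + 1) - r (M0 + n) := by
        rw [← div_eq_mul_inv, div_le_iff₀ (by positivity)]
        push_cast at h2 ⊢
        nlinarith
      rw [← add_assoc M0 n 1]
      linarith
  linarith [h0 M0, h1 (M0 + n)]

theorem D_nonneg {γ : ℕ → ℝ} (h : JS γ) (h0 : ∀ k, 0 ≤ γ k) (hm : Monotone γ) (n : ℕ) :
    0 ≤ D γ (-1) n := by
  cases n with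
  | zero => simpa [D] using h0 0
  | succ n =>
  by_cases hz : ∀ k, γ k = 0
  · simp [D, hz]
  push Not at hz
  obtain ⟨k0, hk0⟩ := hz
  have hpos : ∀ k, k0 ≤ k → 0 < γ k := fun k hk =>
    lt_of_lt_of_le (lt_of_le_of_ne (h0 k0) hk0.symm) (hm hk)
  have hA : 0 ≤ D γ 1 n := sum_nonneg fun k _ => by have := h0 k; positivity
  have key : ∀ δ : ℝ, 0 < δ → -(4 * δ * (n + 1) * D γ 1 n) ≤ D γ (-1) (n + 1) := by
    intro δ hδ
    have hr1 : ∀ j, γ j / γ (j + 1) ≤ 1 := fun j =>
      div_le_one_of_le₀ (hm (Nat.le_succ j)) (h0 _)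
    obtain ⟨M, hM, hsm⟩ := exists_small (fun j => γ j / γ (j + 1))
      (fun j => div_nonneg (h0 _) (h0 _)) hr1 (δ ^ 2) (by positivity) (k0 + 2 * n)
    have g2 : 0 < γ (M + 2) := hpos _ (by omega)
    have g1 : 0 < γ (M + 1) := hpos _ (by omega)
    obtain ⟨m, hJ⟩ := splits_iff_exists_multiset'.1 (h (M + 2))
    have hdeg : (T γ ((1 + X) ^ (M + 2))).natDegree = M + 2 := by
      apply natDegree_eq_of_le_of_coeff_ne_zero
      · rw [natDegree_le_iff_coeff_eq_zero]
        intro k hk
        rw [coeff_jensen, Nat.choose_eq_zero_of_lt hk]; simp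
      · rw [coeff_jensen]; simp [g2.ne']
    have hlc : (T γ ((1 + X) ^ (M + 2))).leadingCoeff = γ (M + 2) := by
      rw [leadingCoeff, hdeg, coeff_jensen]; simp
    rw [hlc] at hJ
    have hc : m.card = M + 2 := by
      rw [← hdeg, hJ, natDegree_C_mul g2.ne', natDegree_multiset_prod_of_monic]
      · simp
      · intro f hf
        obtain ⟨a, _, rfl⟩ := Multiset.mem_map.1 hf
        exact monic_X_add_C a
    have hw : ∀ w ∈ m, 0 ≤ w := by
      intro w hw
      by_contra hneg
      push Not at hneg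
      have e := homog_real γ _ _ m hc hJ (-w) 1 one_ne_zero
      rw [Multiset.prod_eq_zero (Multiset.mem_map.2 ⟨w, hw, by ring⟩), mul_zero,
        sum_range_succ] at e
      have a1 : 0 ≤ ∑ k ∈ range (M + 2), γ k * (M + 2).choose k * (-w) ^ k * 1 ^ (M + 2 - k) :=
        sum_nonneg fun k _ => by
          have := h0 k
          have := neg_pos.2 hneg
          positivity
      have a2 : 0 < γ (M + 2) * (M + 2).choose (M + 2) * (-w) ^ (M + 2) * 1 ^ (M + 2 - (M + 2)) := by
        have := neg_pos.2 hneg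
        rw [Nat.choose_self]
        positivity
      linarith
    have hq := homog γ _ _ m hc hJ 1 X fun x hx => by simpa using hx.1.ne'
    obtain ⟨-, q1, q2⟩ := Q_coeff m
    have c1 := congrArg (fun p => p.coeff 1) hq
    have c2 := congrArg (fun p => p.coeff 2) hq
    simp only [coeff_C_mul, finsetSum_coeff, one_pow, one_mul, coeff_X_pow] at c1 c2
    rw [sum_eq_single (M + 1) (fun k hk hne => by
        rw [if_neg (by have := mem_range.1 hk; omega), mul_zero]) (by simp),
      if_pos (by omega), q1, Nat.choose_succ_self_right] at c1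
    rw [sum_eq_single M (fun k hk hne => by
        rw [if_neg (by have := mem_range.1 hk; omega), mul_zero]) (by simp),
      if_pos (by omega)] at c2
    have c3 : (((M + 2).choose M : ℕ) : ℝ) = (M + 2) * (M + 1) / 2 := by
      rw [← Nat.choose_symm (show M ≤ M + 2 by omega), Nat.add_sub_cancel_left, Nat.cast_choose_two]
      push_cast; ring
    rw [c3] at c2
    push_cast at c1
    set μ := γ (M + 1) / γ (M + 2) with hμ
    set ρ := γ M / γ (M + 1) with hρ
    have hμ1 : μ ≤ 1 := hr1 (M + 1)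
    have hμ0 : 0 ≤ μ := div_nonneg (h0 _) (h0 _)
    have s1 : m.sum = (M + 2) * μ := by
      rw [hμ]; field_simp; linarith
    have s2 : (m.map fun w => w ^ 2).sum = m.sum ^ 2 - (M + 2) * (M + 1) * (ρ * μ) := by
      have : ρ * μ = γ M / γ (M + 2) := by rw [hρ, hμ]; field_simp
      rw [this]
      have : ((m.map fun w => 1 + C w * X).prod).coeff 2 =
          γ M / γ (M + 2) * ((M + 2) * (M + 1) / 2) := by
        field_simp; linarith
      rw [this] at q2
      linarith
    have hb := sum_bound m μ δ hμ1 hδ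
    rw [s2, s1, hc] at hb
    push_cast at hb
    set S := (m.map fun w => max (w - 1) 0).sum
    have hsm' : (M + 1) * (μ - ρ) ≤ δ ^ 2 := hsm
    have hv : μ * ((M + 1) * (μ - ρ)) ≤ δ ^ 2 := by nlinarith [sq_nonneg δ]
    have hS : S ≤ 2 * (M + 2) * δ := by
      have hM2 : (0 : ℝ) ≤ M + 2 := by positivity
      have : S * δ ≤ (2 * (M + 2) * δ) * δ := by nlinarith [mul_le_mul_of_nonneg_left hv hM2]
      exact le_of_mul_le_mul_right this hδ
    have p1 := P_coeff γ _ _ m hc hJ (-1) le_rfl (n + 1) (by omega)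
    have p2 := P_coeff γ _ _ m hc hJ 1 (by norm_num) n (by omega)
    have p3 := mul_le_mul_of_nonneg_left ((P_ineq m hw).2.2 n) g2.le
    rw [p1, mul_neg, mul_left_comm, p2] at p3
    have ch := congrArg (Nat.cast : ℕ → ℝ) (Nat.choose_succ_right_eq (M + 2) n)
    rw [Nat.cast_mul, Nat.cast_mul, Nat.cast_sub (by omega)] at ch
    push_cast at ch
    have cp : (0 : ℝ) < (M + 2).choose n := by exact_mod_cast Nat.choose_pos (by omega)
    set B : ℝ := (((M + 2).choose n : ℕ) : ℝ)
    set B' : ℝ := (((M + 2).choose (n + 1) : ℕ) : ℝ)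
    set d := D γ (-1) (n + 1)
    set A := D γ 1 n
    have hn1 : (0 : ℝ) ≤ n + 1 := by positivity
    have p4 : B * (-(S * A * (n + 1))) ≤ B * ((M + 2 - n) * d) := by
      have := mul_le_mul_of_nonneg_left p3 hn1
      calc _ = (n + 1) * -(S * (B * A)) := by ring
        _ ≤ (n + 1) * (B' * d) := this
        _ = B' * (n + 1) * d := by ring
        _ = _ := by rw [ch]; ring
    have p5 := le_of_mul_le_mul_left p4 cp
    have hMn : (2 * n : ℝ) ≤ M := by exact_mod_cast (show 2 * n ≤ M by omega)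
    by_contra hcon
    push Not at hcon
    have hAn : 0 ≤ A * (n + 1) := mul_nonneg hA hn1
    have hd0 : d < 0 := by nlinarith [mul_nonneg hδ.le hAn]
    have p6 : S * (A * (n + 1)) ≤ 2 * (M + 2) * δ * (A * (n + 1)) :=
      mul_le_mul_of_nonneg_right hS hAn
    have hM2 : (0 : ℝ) < (M + 2) / 2 := by positivity
    nlinarith [mul_lt_mul_of_pos_left hcon hM2, mul_nonneg (show (0 : ℝ) ≤ (M + 2) / 2 - n by linarith)
      (neg_pos.2 hd0).le]
  by_contra hcon
  push Not at hcon
  have hK : 0 < 4 * (n + 1) * D γ 1 n + 1 := by positivity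
  have := key (-D γ (-1) (n + 1) / (4 * (n + 1) * D γ 1 n + 1)) (div_pos (neg_pos.2 hcon) hK)
  have e : 4 * (-D γ (-1) (n + 1) / (4 * (n + 1) * D γ 1 n + 1)) * (n + 1) * D γ 1 n =
      -D γ (-1) (n + 1) - -D γ (-1) (n + 1) / (4 * (n + 1) * D γ 1 n + 1) := by
    field_simp; ring
  rw [e] at this
  linarith [div_pos (neg_pos.2 hcon) hK]

end Pool.Agent.H15.MS
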