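import Mathlib
import Pool.Agent.H15.MS2

set_option autoImplicit false

open Polynomial Finset

namespace Pool.Agent.H15.MS

theorem logconvex (c : ℕ → ℝ)
    (h : ∀ k m : ℕ, 0 ≤ ∑ l ∈ range (m + 1), m.choose l * c (k + (m - l)) * (-1 : ℝ) ^ (m - l)) :
    c 1 ^ 2 ≤ c 0 * c 2 := by
  set L : ℝ[X] →ₗ[ℝ] ℝ := Polynomial.lsum fun j => LinearMap.smulRight LinearMap.id (c j) with hL
  have L1 : ∀ j : ℕ, L (X ^ j) = c j := by
    intro j
    rw [← monomial_one_right_eq_X_pow, hL, lsum_apply, sum_monomial_index] <;> simp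
  have L2 : ∀ k m : ℕ, 0 ≤ L (X ^ k * (1 - X) ^ m) := by
    intro k m
    have e : (X ^ k * (1 - X) ^ m : ℝ[X]) =
        ∑ l ∈ range (m + 1), ((m.choose l : ℝ) * (-1) ^ (m - l)) • X ^ (k + (m - l)) := by
      rw [sub_eq_add_neg, add_pow, mul_sum]
      refine sum_congr rfl fun l _ => ?_
      rw [smul_eq_C_mul, neg_pow, pow_add]
      simp only [C_mul, C_pow, C_neg, C_1, map_natCast]
      ring
    rw [e, map_sum]
    simp only [map_smul, L1, smul_eq_mul]
    refine (h k m).trans (le_of_eq (sum_congr rfl fun l _ => by ring))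
  have L3 : ∀ n ν : ℕ, 0 ≤ L (bernsteinPolynomial ℝ n ν) := by
    intro n ν
    have : bernsteinPolynomial ℝ n ν = (n.choose ν : ℝ) • (X ^ ν * (1 - X) ^ (n - ν)) := by
      rw [bernsteinPolynomial, smul_eq_C_mul, map_natCast, mul_assoc]
    rw [this, map_smul, smul_eq_mul]
    exact mul_nonneg (Nat.cast_nonneg _) (L2 _ _)
  have key : ∀ (a : ℝ) (n : ℕ), 0 ≤ (n : ℝ) ^ 2 * (c 0 * (a * a) + -(2 * c 1) * a + c 2) +
      n * (c 1 - c 2) := by
    intro a n
    have s0 := congrArg L (bernsteinPolynomial.sum ℝ n)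
    have s1 := congrArg L (bernsteinPolynomial.sum_smul ℝ n)
    have s2 := congrArg L (bernsteinPolynomial.sum_mul_smul ℝ n)
    have l0 : L 1 = c 0 := by simpa using L1 0
    have l1 : L X = c 1 := by simpa using L1 1
    simp only [map_sum, map_nsmul, l0, l1, L1] at s0 s1 s2
    simp only [nsmul_eq_mul] at s1 s2
    have cs : ∀ ν : ℕ, ((ν * (ν - 1) : ℕ) : ℝ) = ν ^ 2 - ν := by
      intro ν
      cases ν with
      | zero => simp
      | succ ν => simp; ring
    simp only [cs] at s2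
    have p : 0 ≤ ∑ ν ∈ range (n + 1), ((ν : ℝ) - n * a) ^ 2 * L (bernsteinPolynomial ℝ n ν) :=
      sum_nonneg fun ν _ => mul_nonneg (sq_nonneg _) (L3 n ν)
    have e : ∑ ν ∈ range (n + 1), ((ν : ℝ) - n * a) ^ 2 * L (bernsteinPolynomial ℝ n ν) =
        ∑ ν ∈ range (n + 1), ((ν : ℝ) ^ 2 - ν) * L (bernsteinPolynomial ℝ n ν) +
        (1 - 2 * n * a) * ∑ ν ∈ range (n + 1), (ν : ℝ) * L (bernsteinPolynomial ℝ n ν) +
        (n * a) ^ 2 * ∑ ν ∈ range (n + 1), L (bernsteinPolynomial ℝ n ν) := by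
      rw [mul_sum, mul_sum, ← sum_add_distrib, ← sum_add_distrib]
      exact sum_congr rfl fun ν _ => by ring
    rw [e, s0, s1, s2] at p
    linarith
  have := discrim_le_zero (a := c 0) (b := -(2 * c 1)) (c := c 2) fun a => by
    by_contra hc
    push Not at hc
    set q := c 0 * (a * a) + -(2 * c 1) * a + c 2
    obtain ⟨n, hn⟩ := exists_nat_gt (|c 1 - c 2| / (-q))
    have hq : 0 < -q := neg_pos.2 hc
    have hn0 : (0 : ℝ) < n := lt_of_le_of_lt (by positivity) hn
    rw [div_lt_iff₀ hq] at hn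
    have := key a n
    have h2 := le_abs_self (c 1 - c 2)
    nlinarith
  unfold discrim at this
  linarith

theorem core (f : ℝ → ℝ) (h0 : ∀ t, 0 ≤ f t) (hm : Monotone f)
    (hs : ∀ t h : ℝ, JS fun k => f (t + k * h)) (t h : ℝ) (hh : 0 ≤ h) :
    f t ^ 2 = f (t - h) * f (t + h) := by
  apply le_antisymm
  · have := logconvex (fun j => f (t + h - j * h)) fun k m => by
      have := D_nonneg (hs (t + h - (k + m) * h) h) (fun _ => h0 _)
        (fun a b hab => hm (by
          have : (a : ℝ) ≤ b := by exact_mod_cast hab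
          nlinarith)) m
      refine this.trans (le_of_eq (sum_congr rfl fun l hl => ?_))
      have hl' : l ≤ m := Nat.lt_succ_iff.1 (mem_range.1 hl)
      congr 3
      push_cast [hl']
      ring
    simp only [Nat.cast_one, Nat.cast_zero, Nat.cast_ofNat] at this
    have e1 : t + h - 1 * h = t := by ring
    have e2 : t + h - 0 * h = t + h := by ring
    have e3 : t + h - 2 * h = t - h := by ring
    rw [e1, e2, e3] at this
    linarith
  · have := turan' (hs (t - h) h)
    simp only [Nat.cast_one, Nat.cast_zero, Nat.cast_ofNat] at this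
    have e1 : t - h + 1 * h = t := by ring
    have e2 : t - h + 0 * h = t - h := by ring
    have e3 : t - h + 2 * h = t + h := by ring
    rwa [e1, e2, e3] at this

theorem mono_of_quasi (f : ℝ → ℝ) (h0 : ∀ t, 0 ≤ f t)
    (hs : ∀ t h : ℝ, f t * f (t + 2 * h) ≤ f (t + h) ^ 2)
    (hq : ∀ s t, s + 1 ≤ t → f s ≤ f t) : Monotone f := by
  have key : ∀ (j : ℕ) (s h : ℝ), f s ≤ f (s + 2 ^ j * h) → f s ≤ f (s + h) := by
    intro j
    induction j with
    | zero => intro s h; simp
    | succ j ih =>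
      intro s h hj
      apply ih
      have h1 := hs s (2 ^ j * h)
      have e : 2 * (2 ^ j * h) = 2 ^ (j + 1) * h := by ring
      rw [e] at h1
      have h2 : f s ^ 2 ≤ f (s + 2 ^ j * h) ^ 2 := by nlinarith [h0 s]
      exact (pow_le_pow_iff_left₀ (h0 _) (h0 _) (by norm_num)).1 h2
  intro s t hst
  rcases hst.eq_or_lt with rfl | hlt
  · exact le_rfl
  have hp : 0 < t - s := sub_pos.2 hlt
  obtain ⟨j, hj⟩ := pow_unbounded_of_one_lt (1 / (t - s)) (one_lt_two (α := ℝ))
  rw [div_lt_iff₀ hp] at hj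
  have := key j s (t - s) (hq _ _ (by linarith))
  simpa using this

theorem zero_prop (f : ℝ → ℝ) (h0 : ∀ t, 0 ≤ f t) (hm : Monotone f)
    (he : ∀ t h, 0 ≤ h → f t ^ 2 = f (t - h) * f (t + h)) (s : ℝ) (hz : f s = 0) (t : ℝ) :
    f t = 0 := by
  rcases le_total t s with h | h
  · exact le_antisymm (hz ▸ hm h) (h0 t)
  · have := he t (t - s) (by linarith)
    rw [sub_sub_cancel, hz, zero_mul] at this
    exact pow_eq_zero_iff (by norm_num) |>.1 this

theorem affine (H : ℝ → ℝ) (hm : Monotone H)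
    (he : ∀ t h, 0 ≤ h → 2 * H t = H (t - h) + H (t + h)) (t : ℝ) :
    H t = H 0 + t * (H 1 - H 0) := by
  have mid : ∀ a b, H a + H b = 2 * H ((a + b) / 2) := by
    intro a b
    rcases le_total a b with h | h
    · rw [he _ ((b - a) / 2) (by linarith)]; congr 2 <;> ring
    · rw [he _ ((a - b) / 2) (by linarith), add_comm]; congr 2 <;> ring
  let A : ℝ →+ ℝ :=
    { toFun := fun t => H t - H 0
      map_zero' := sub_self _
      map_add' := fun a b => by
        have h1 := mid a b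
        have h2 := mid (a + b) 0
        rw [add_zero] at h2
        linarith }
  have hc : Continuous A := by
    refine A.continuous_of_isBounded_nhds_zero (s := Set.Icc (-1) 1)
      (Icc_mem_nhds (by norm_num) (by norm_num)) ?_
    refine (Metric.isBounded_Icc (H (-1) - H 0) (H 1 - H 0)).subset ?_
    rintro _ ⟨x, hx, rfl⟩
    exact ⟨sub_le_sub_right (hm hx.1) _, sub_le_sub_right (hm hx.2) _⟩
  have := map_real_smul A hc t 1
  simp only [smul_eq_mul, mul_one] at this
  have e1 : A t = H t - H 0 := rfl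
  have e2 : A 1 = H 1 - H 0 := rfl
  rw [e1, e2] at this
  linarith

theorem fd_mvt (n : ℕ) : ∀ (p t : ℝ), 0 < t → ∃ ξ : ℝ, 0 < ξ ∧
    ∑ k ∈ range (n + 1), (n.choose k : ℝ) * (t + k) ^ p * (-1) ^ (n - k) =
      (∏ i ∈ range n, (p - i)) * ξ ^ (p - n) := by
  induction n with
  | zero => intro p t ht; exact ⟨t, ht, by simp⟩
  | succ n ih =>
    intro p t ht
    set g : ℝ → ℝ → ℝ := fun p t =>
      ∑ k ∈ range (n + 1), (n.choose k : ℝ) * (t + k) ^ p * (-1) ^ (n - k) with hg
    have hd : ∀ x, 0 < x → HasDerivAt (g p) (p * g (p - 1) x) x := by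
      intro x hx
      simp only [hg, mul_sum]
      refine HasDerivAt.fun_sum fun k _ => ?_
      have hk : x + k ≠ 0 := by positivity
      have := ((((hasDerivAt_id x).add_const (k : ℝ)).rpow_const (p := p) (Or.inl hk)).const_mul
        (n.choose k : ℝ)).mul_const ((-1 : ℝ) ^ (n - k))
      refine this.congr_deriv ?_
      simp only [id]
      ring
    obtain ⟨x, hx, hx2⟩ := exists_hasDerivAt_eq_slope (g p) (fun x => p * g (p - 1) x)
      (show t < t + 1 by linarith)
      (fun y hy => (hd y (by linarith [hy.1])).continuousAt.continuousWithinAt)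
      (fun y hy => hd y (by linarith [hy.1]))
    obtain ⟨ξ, hξ, he⟩ := ih (p - 1) x (by linarith [hx.1])
    refine ⟨ξ, hξ, ?_⟩
    have e1 : ∑ k ∈ range (n + 1 + 1), ((n + 1).choose k : ℝ) * (t + k) ^ p * (-1) ^ (n + 1 - k) =
        g p (t + 1) - g p t := by
      have a := fwdDiff_iter_eq_sum_shift (h := (1 : ℝ)) (fun x : ℝ => x ^ p)
      have b : ∀ m y, ∑ k ∈ range (m + 1), (m.choose k : ℝ) * (y + k) ^ p * (-1) ^ (m - k) =
          (fwdDiff (1 : ℝ))^[m] (fun x : ℝ => x ^ p) y := by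
        intro m y
        rw [a]
        refine sum_congr rfl fun k _ => ?_
        simp only [zsmul_eq_mul, nsmul_eq_mul, mul_one]
        push_cast
        ring
      simp only [hg, b]
      rw [Function.iterate_succ_apply']
      rfl
    rw [e1, prod_range_succ']
    have e2 : g p (t + 1) - g p t = p * g (p - 1) x := by rw [hx2]; simp
    have e3 : g (p - 1) x = (∏ i ∈ range n, (p - 1 - i)) * ξ ^ (p - 1 - n) := he
    rw [e2, e3]
    have e4 : ∏ i ∈ range n, (p - 1 - i) = ∏ i ∈ range n, (p - ((i + 1 : ℕ) : ℝ)) :=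
      prod_congr rfl fun i _ => by push_cast; ring
    have e5 : p - 1 - n = p - ((n + 1 : ℕ) : ℝ) := by push_cast; ring
    rw [e4, e5]
    simp only [Nat.cast_zero, sub_zero]
    ring

theorem int_exp (a : ℝ) (ha : 0 ≤ a) (h : IsMS fun k => ((k : ℝ) + 1) ^ a) :
    ∃ m : ℕ, a = m := by
  by_contra hc
  push Not at hc
  set m := ⌊a⌋₊
  have h1 : (m : ℝ) < a := lt_of_le_of_ne (Nat.floor_le ha) (hc m).symm
  have h2 : a < m + 1 := Nat.lt_floor_add_one a
  have := D_nonneg (jensen h) (fun k => by positivity) (fun i j hij => by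
    have : (i : ℝ) ≤ j := by exact_mod_cast hij
    exact Real.rpow_le_rpow (by positivity) (by linarith) ha) (m + 2)
  obtain ⟨ξ, hξ, he⟩ := fd_mvt (m + 2) a 1 one_pos
  have e : D (fun k => ((k : ℝ) + 1) ^ a) (-1) (m + 2) = _ :=
    (sum_congr rfl fun k _ => by rw [add_comm (1 : ℝ) k]).trans he
  rw [e, prod_range_succ] at this
  have p1 : 0 < ∏ i ∈ range (m + 1), (a - i) := prod_pos fun i hi => by
    have : (i : ℝ) ≤ m := by exact_mod_cast Nat.lt_succ_iff.1 (mem_range.1 hi)
    linarith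
  have p2 : a - ((m + 1 : ℕ) : ℝ) < 0 := by push_cast; linarith
  have p3 := Real.rpow_pos_of_pos hξ (a - ((m + 2 : ℕ) : ℝ))
  nlinarith [mul_pos (mul_pos p1 (neg_pos.2 p2)) p3]

end Pool.Agent.H15.MS
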