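import Mathlib
import Pool.Agent.H15.MS3

set_option autoImplicit false

open Polynomial Finset

namespace Pool.Agent.H15.MS

def Adm (Ψ : ℝ → ℝ → ℝ) : Prop :=
  ∀ α β : ℕ → ℝ, IsMS α → IsMS β → (∀ k, 0 ≤ α k) → (∀ k, 0 ≤ β k) →
    IsMS fun k => Ψ (α k) (β k)

theorem Adm.swap {Ψ : ℝ → ℝ → ℝ} (h : Adm Ψ) : Adm fun x y => Ψ y x :=
  fun α β a b c d => h β α b a d c

theorem Adm.neg {Ψ : ℝ → ℝ → ℝ} (h : Adm Ψ) : Adm fun x y => -Ψ x y := fun α β a b c d => by
  have := (ms_const (-1)).mul (h α β a b c d)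
  simpa using this

theorem Adm.samp {Ψ : ℝ → ℝ → ℝ} (h : Adm Ψ) (u v a b : ℝ) :
    IsMS fun k => Ψ (Real.exp (u + k * a)) (Real.exp (v + k * b)) :=
  h _ _ (ms_exp u a) (ms_exp v b) (fun _ => (Real.exp_pos _).le) (fun _ => (Real.exp_pos _).le)

theorem Adm.samp1 {Ψ : ℝ → ℝ → ℝ} (h : Adm Ψ) (u v a : ℝ) :
    IsMS fun k => Ψ (Real.exp (u + k * a)) (Real.exp v) := by
  simpa using h.samp u v a 0

theorem Adm.mono {Ψ : ℝ → ℝ → ℝ} (h : Adm Ψ) (h0 : ∀ u v, 0 ≤ Ψ (Real.exp u) (Real.exp v))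
    (v : ℝ) : Monotone fun u => Ψ (Real.exp u) (Real.exp v) := by
  refine mono_of_quasi _ (fun u => h0 u v) (fun t a => ?_) fun s t hst => ?_
  · simpa using turan (h.samp1 t v a)
  · have e1 : 2 * Real.exp s ≤ Real.exp t := by
      have a1 := Real.exp_le_exp.2 hst
      rw [Real.exp_add] at a1
      have a2 := Real.add_one_le_exp 1
      nlinarith [Real.exp_pos s]
    have hs := Real.exp_pos s
    have := turan (h _ _ (ms_tri (a := Real.exp s) (b := Real.exp t) (c := Real.exp s) hs.le hs.le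
      (by nlinarith)) (ms_const (Real.exp v)) (tri_nonneg hs.le (Real.exp_pos _).le hs.le)
      fun _ => (Real.exp_pos _).le)
    simp only [tri] at this
    rw [← sq] at this
    exact (pow_le_pow_iff_left₀ (h0 _ _) (h0 _ _) (by norm_num)).1 this

theorem Adm.int {Ψ : ℝ → ℝ → ℝ} (h : Adm Ψ) {c A B : ℝ} (hc : 0 < c) (hA : 0 ≤ A)
    (he : ∀ x y, 0 < x → 0 < y → Ψ x y = c * x ^ A * y ^ B) : ∃ m : ℕ, A = m := by
  apply int_exp A hA
  have := (ms_const c⁻¹).mul (h _ _ ms_succ (ms_const 1) (fun k => by positivity)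
    fun _ => zero_le_one)
  convert this using 2 with k
  rw [he _ _ (by positivity) one_pos, Real.one_rpow]
  field_simp

theorem pos_case {Ψ : ℝ → ℝ → ℝ} (h : Adm Ψ) (h0 : ∀ u v, 0 ≤ Ψ (Real.exp u) (Real.exp v)) :
    ∃ (c : ℝ) (a b : ℕ), ∀ x y, 0 < x → 0 < y → Ψ x y = c * x ^ a * y ^ b := by
  have m1 := h.mono h0
  have m2 := h.swap.mono fun u v => h0 v u
  have c1 := fun v => core _ (fun u => h0 u v) (m1 v) fun t a => jensen (h.samp1 t v a)
  have c2 := fun u => core _ (fun v => h0 u v) (m2 u) fun t a => jensen (h.swap.samp1 t u a)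
  have c3 := core (fun t => Ψ (Real.exp t) (Real.exp t)) (fun t => h0 t t)
    (fun s t hst => (m1 s hst).trans (m2 t hst)) fun t a => jensen (h.samp t t a a)
  by_cases hz : ∃ u v, Ψ (Real.exp u) (Real.exp v) = 0
  · obtain ⟨u, v, hz⟩ := hz
    refine ⟨0, 0, 0, fun x y hx hy => ?_⟩
    have a1 := zero_prop _ (fun u => h0 u v) (m1 v) (c1 v) u hz (Real.log x)
    have a2 := zero_prop _ (fun v => h0 (Real.log x) v) (m2 _) (c2 _) v a1 (Real.log y)
    simp only [Real.exp_log hx, Real.exp_log hy] at a2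
    simp [a2]
  push Not at hz
  have hp : ∀ u v, 0 < Ψ (Real.exp u) (Real.exp v) := fun u v =>
    lt_of_le_of_ne (h0 u v) (hz u v).symm
  set H : ℝ → ℝ → ℝ := fun u v => Real.log (Ψ (Real.exp u) (Real.exp v)) with hH
  have lg : ∀ {x y z : ℝ}, 0 < y → 0 < z → x ^ 2 = y * z →
      2 * Real.log x = Real.log y + Real.log z := by
    intro x y z hy hz e
    rw [← Real.log_mul hy.ne' hz.ne', ← e, Real.log_pow]; norm_num
  have n1 : ∀ v, Monotone fun u => H u v := fun v s t hst => Real.log_le_log (hp _ _) (m1 v hst)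
  have n2 : ∀ u, Monotone fun v => H u v := fun u s t hst => Real.log_le_log (hp _ _) (m2 u hst)
  have a1 : ∀ v t, H t v = H 0 v + t * (H 1 v - H 0 v) := fun v =>
    affine (fun u => H u v) (n1 v) fun t a ha => lg (hp _ _) (hp _ _) (c1 v t a ha)
  have a2 : ∀ u t, H u t = H u 0 + t * (H u 1 - H u 0) := fun u =>
    affine (fun v => H u v) (n2 u) fun t a ha => lg (hp _ _) (hp _ _) (c2 u t a ha)
  have a3 : 2 * H 0 0 = H (0 - 1) (0 - 1) + H (0 + 1) (0 + 1) :=
    lg (hp _ _) (hp _ _) (c3 0 1 zero_le_one)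
  rw [zero_add, a1 (0 - 1) (0 - 1), a2 0 (0 - 1), a2 1 (0 - 1)] at a3
  have he : ∀ x y, 0 < x → 0 < y →
      Ψ x y = Real.exp (H 0 0) * x ^ (H 1 0 - H 0 0) * y ^ (H 0 1 - H 0 0) := by
    intro x y hx hy
    have b1 : Ψ x y = Real.exp (H (Real.log x) (Real.log y)) := by
      simp only [hH]
      rw [Real.exp_log (hp _ _), Real.exp_log hx, Real.exp_log hy]
    rw [b1, Real.rpow_def_of_pos hx, Real.rpow_def_of_pos hy, ← Real.exp_add, ← Real.exp_add,
      a1, a2 0, a2 1]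
    congr 1
    have : H 1 1 = H 1 0 + H 0 1 - H 0 0 := by linarith
    rw [this]; ring
  obtain ⟨a, ha⟩ := h.int (Real.exp_pos _) (sub_nonneg.2 (n1 0 zero_le_one)) he
  obtain ⟨b, hb⟩ := h.swap.int (B := H 1 0 - H 0 0) (Real.exp_pos (H 0 0))
    (sub_nonneg.2 (n2 0 zero_le_one)) fun x y hx hy => by
      simp only; rw [he y x hy hx]; ring
  refine ⟨Real.exp (H 0 0), a, b, fun x y hx hy => ?_⟩
  rw [he x y hx hy, ha, hb, Real.rpow_natCast, Real.rpow_natCast]

theorem open_case {Ψ : ℝ → ℝ → ℝ} (h : Adm Ψ) :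
    ∃ (c : ℝ) (a b : ℕ), ∀ x y, 0 < x → 0 < y → Ψ x y = c * x ^ a * y ^ b := by
  by_cases h0 : ∀ u v, 0 ≤ Ψ (Real.exp u) (Real.exp v)
  · exact pos_case h h0
  push Not at h0
  obtain ⟨u, v, huv⟩ := h0
  obtain ⟨c, a, b, he⟩ := pos_case h.neg fun s t => by
    have := sign (h.samp u v ((s - u) / 2) ((t - v) / 2))
    simp only [Nat.cast_zero, zero_mul, add_zero, Nat.cast_ofNat] at this
    have e1 : u + 2 * ((s - u) / 2) = s := by ring
    have e2 : v + 2 * ((t - v) / 2) = t := by ring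
    rw [e1, e2] at this
    by_contra hc
    push Not at hc
    nlinarith
  exact ⟨-c, a, b, fun x y hx hy => by have := he x y hx hy; linarith⟩

theorem boundary (F : ℝ → ℝ) (h : ∀ α : ℕ → ℝ, IsMS α → (∀ k, 0 ≤ α k) → IsMS fun k => F (α k))
    (d : ℝ) (a : ℕ) (he : ∀ x, 0 < x → F x = d * x ^ a) : F 0 = d * 0 ^ a := by
  have t1 : ∀ x, 0 < x → F 0 * F 0 ≤ (d * x ^ a) ^ 2 := fun x hx => by
    have := turan (h _ (ms_tri (a := 0) (b := x) (c := 0) le_rfl le_rfl (by nlinarith))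
      (tri_nonneg le_rfl hx.le le_rfl))
    simp only [tri] at this
    rwa [he x hx] at this
  cases a with
  | zero =>
    have s := h _ (ms_tri (a := 1) (b := 0) (c := 0) zero_le_one le_rfl (by norm_num))
      (tri_nonneg zero_le_one le_rfl le_rfl)
    have t2 := turan s
    have t3 := sign s
    have t4 := cut (h _ (ms_tri (a := 1) (b := 2) (c := 1) zero_le_one zero_le_one (by norm_num))
      (tri_nonneg zero_le_one zero_le_two zero_le_one))
    have t5 := t1 1 one_pos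
    simp only [tri, he 1 one_pos, he 2 two_pos, pow_zero, mul_one] at t2 t3 t4 t5 ⊢
    rcases lt_trichotomy (F 0) 0 with h1 | h1 | h1
    · have : d ≤ 0 := by nlinarith
      have : F 0 ≤ d := by nlinarith
      nlinarith
    · have := t4 h1
      rw [h1]; nlinarith
    · have : 0 ≤ d := by nlinarith
      have : d ≤ F 0 := by nlinarith
      nlinarith
  | succ a =>
    rw [zero_pow (Nat.succ_ne_zero a), mul_zero]
    have hc : Continuous fun x : ℝ => (d * x ^ (a + 1)) ^ 2 := by fun_prop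
    have h1 : Filter.Tendsto (fun x : ℝ => (d * x ^ (a + 1)) ^ 2) (nhdsWithin 0 (Set.Ioi 0))
        (nhds 0) := by
      have := hc.tendsto 0
      simp only [ne_eq, Nat.add_eq_zero_iff, one_ne_zero, and_false, not_false_eq_true, zero_pow,
        mul_zero, OfNat.ofNat_ne_zero] at this
      exact this.mono_left nhdsWithin_le_nhds
    have := ge_of_tendsto h1 (eventually_nhdsWithin_of_forall t1)
    exact mul_self_eq_zero.1 (le_antisymm this (mul_self_nonneg _))

theorem main (Ψ : ℝ → ℝ → ℝ) : Adm Ψ ↔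
    ∃ (c : ℝ) (a b : ℕ), ∀ x y, 0 ≤ x → 0 ≤ y → Ψ x y = c * x ^ a * y ^ b := by
  constructor
  · intro h
    obtain ⟨c, a, b, he⟩ := open_case h
    refine ⟨c, a, b, ?_⟩
    have s1 : ∀ x y, 0 ≤ x → 0 < y → Ψ x y = c * x ^ a * y ^ b := by
      intro x y hx hy
      rcases hx.eq_or_lt with rfl | hx
      · have := boundary (fun x => Ψ x y) (fun α p q => h α _ p (ms_const y) q fun _ => hy.le)
          (c * y ^ b) a fun x hx => by rw [he x y hx hy]; ring
        rw [this]; ring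
      · exact he x y hx hy
    intro x y hx hy
    rcases hy.eq_or_lt with rfl | hy
    · exact boundary (fun y => Ψ x y) (fun β p q => h _ β (ms_const x) p (fun _ => hx) q)
        (c * x ^ a) b fun y hy => s1 x y hx hy
    · exact s1 x y hx hy
  · rintro ⟨c, a, b, he⟩ α β p q r s
    have := ((ms_const c).mul (p.pow a)).mul (q.pow b)
    convert this using 2 with k
    exact he _ _ (r k) (s k)

theorem splits_iff (p : ℝ[X]) : p.Splits ↔ p = 0 ∨ ∀ z : ℂ, aeval z p = 0 → z.im = 0 := by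
  constructor
  · intro h
    by_cases h0 : p = 0
    · exact Or.inl h0
    refine Or.inr fun z hz => ?_
    obtain ⟨x, rfl⟩ := h.mem_range_of_isRoot h0 (i := algebraMap ℝ ℂ) (x := z)
      (by rw [IsRoot, eval_map_algebraMap]; exact hz)
    simp
  · rintro (rfl | h)
    · exact Splits.zero
    refine Splits.of_splits_map (algebraMap ℝ ℂ) (IsAlgClosed.splits _) fun z hz => ?_
    have := h z (by rw [← eval_map_algebraMap]; exact (isRoot_of_mem_roots hz))
    exact ⟨z.re, Complex.ext (by simp) (by simp [this])⟩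

end Pool.Agent.H15.MS
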