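import Mathlib
import Pool.Agent.H15.MS4

set_option autoImplicit false

open Polynomial Finset Filter Topology

namespace Pool.Agent.H15.MS

theorem splits_reflect {p : ℝ[X]} (hp : p.Splits) : ∀ N, p.natDegree ≤ N → (reflect N p).Splits := by
  induction hp using Submonoid.closure_induction with
  | mem x hx =>
    intro N hN
    rcases hx with ⟨a, rfl⟩ | ⟨a, rfl⟩
    · rw [reflect_C]; exact Splits.C_mul_X_pow _ _
    · rw [natDegree_X_add_C] at hN
      obtain ⟨M, rfl⟩ := Nat.exists_eq_add_of_le hN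
      have := reflect_mul (X + C a) (C 1) (F := 1) (G := M) (natDegree_X_add_C a).le (by simp)
      rw [C_1, mul_one] at this
      rw [this, ← C_1, reflect_C]
      refine Splits.mul (Splits.of_natDegree_le_one ?_) (Splits.C_mul_X_pow _ _)
      rw [natDegree_le_iff_coeff_eq_zero]
      intro k hk
      rw [coeff_reflect, revAt_eq_self_of_lt hk]
      exact coeff_eq_zero_of_natDegree_lt (by rw [natDegree_X_add_C]; exact hk)
  | one => intro N _; rw [← C_1, reflect_C]; exact Splits.C_mul_X_pow _ _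
  | mul x y _ _ ihx ihy =>
    intro N hN
    by_cases hx : x = 0
    · subst hx; simp
    by_cases hy : y = 0
    · subst hy; simp
    rw [natDegree_mul hx hy] at hN
    obtain ⟨M, rfl⟩ := Nat.exists_eq_add_of_le hN
    rw [add_assoc, reflect_mul x y le_rfl (Nat.le_add_right _ _)]
    exact (ihx _ le_rfl).mul (ihy _ (Nat.le_add_right _ _))

theorem splits_iter {p : ℝ[X]} (hp : p.Splits) (j : ℕ) : (derivative^[j] p).Splits := by
  induction j with
  | zero => exact hp
  | succ j ih => rw [Function.iterate_succ_apply']; exact splits_derivative ih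

theorem deg_reflect {p : ℝ[X]} {N : ℕ} (h : p.natDegree ≤ N) : (reflect N p).natDegree ≤ N := by
  rw [natDegree_le_iff_coeff_eq_zero]
  intro k hk
  rw [coeff_reflect, revAt_eq_self_of_lt hk]
  exact coeff_eq_zero_of_natDegree_lt (lt_of_le_of_lt h hk)

theorem window {B : ℝ[X]} (hB : B.Splits) (j n e : ℕ) (hd : B.natDegree ≤ j + n + e) :
    (T (fun i => B.coeff (i + j) / (j + n + e).choose (i + j)) ((1 + X) ^ n)).Splits := by
  have d1 : (derivative^[j] B).natDegree ≤ n + e :=
    (natDegree_iterate_derivative B j).trans (by omega)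
  have s2 := splits_reflect (splits_iter hB j) _ d1
  have d3 : (derivative^[e] (reflect (n + e) (derivative^[j] B))).natDegree ≤ n :=
    (natDegree_iterate_derivative _ e).trans (by have := deg_reflect d1; omega)
  have s4 := (splits_reflect (splits_iter s2 e) _ d3).C_mul
    ((n.factorial : ℝ) / (j + n + e).factorial)
  convert s4 using 1
  ext i
  rw [coeff_jensen, coeff_C_mul]
  by_cases hi : n < i
  · rw [Nat.choose_eq_zero_of_lt hi, coeff_eq_zero_of_natDegree_lt (lt_of_le_of_lt (deg_reflect d3) hi)]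
    simp
  push Not at hi
  obtain ⟨m, rfl⟩ := Nat.exists_eq_add_of_le hi
  rw [coeff_reflect, revAt_le hi, Nat.add_sub_cancel_left, coeff_iterate_derivative, coeff_reflect,
    revAt_le (by omega), show i + m + e - (m + e) = i by omega, coeff_iterate_derivative]
  simp only [nsmul_eq_mul]
  have f1 := congrArg (Nat.cast : ℕ → ℝ)
    (Nat.factorial_mul_descFactorial (show e ≤ m + e by omega))
  have f2 := congrArg (Nat.cast : ℕ → ℝ)
    (Nat.factorial_mul_descFactorial (show j ≤ i + j by omega))
  have f3 := congrArg (Nat.cast : ℕ → ℝ)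
    (Nat.choose_mul_factorial_mul_factorial (show i + j ≤ j + (i + m) + e by omega))
  have f4 := congrArg (Nat.cast : ℕ → ℝ)
    (Nat.choose_mul_factorial_mul_factorial (show i ≤ i + m by omega))
  rw [Nat.add_sub_cancel] at f1 f2
  rw [show j + (i + m) + e - (i + j) = m + e by omega] at f3
  rw [Nat.add_sub_cancel_left] at f4
  push_cast at f1 f2 f3 f4
  have p1 : (0 : ℝ) < ((j + (i + m) + e).choose (i + j) : ℕ) := by
    exact_mod_cast Nat.choose_pos (by omega)
  have p2 : (0 : ℝ) < (m.factorial : ℕ) := by exact_mod_cast Nat.factorial_pos _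
  have p3 : (0 : ℝ) < (i.factorial : ℕ) := by exact_mod_cast Nat.factorial_pos _
  have p4 : (0 : ℝ) < ((m + e).factorial : ℕ) := by exact_mod_cast Nat.factorial_pos _
  have p5 : (0 : ℝ) < ((i + j).factorial : ℕ) := by exact_mod_cast Nat.factorial_pos _
  have g1 : (((m + e).descFactorial e : ℕ) : ℝ) = (m + e).factorial / m.factorial := by
    rw [← f1]; field_simp
  have g2 : (((i + j).descFactorial j : ℕ) : ℝ) = (i + j).factorial / i.factorial := by
    rw [← f2]; field_simp
  rw [g1, g2, ← f3, ← f4]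
  field_simp

theorem root_bound {q : ℝ[X]} (hq : q.Splits) (z w : ℂ) (hz : z.im ≠ 0) :
    ‖aeval w q‖ ≤ (1 + ‖w - z‖ / |z.im|) ^ q.natDegree * ‖aeval z q‖ := by
  have hK : 1 ≤ 1 + ‖w - z‖ / |z.im| := le_add_of_nonneg_right (by positivity)
  induction hq using Submonoid.closure_induction with
  | mem x hx =>
    rcases hx with ⟨a, rfl⟩ | ⟨a, rfl⟩
    · simp
    · rw [natDegree_X_add_C, pow_one]
      simp only [map_add, aeval_X, aeval_C, Complex.coe_algebraMap]
      have h1 : |z.im| ≤ ‖z + a‖ := by simpa using Complex.abs_im_le_norm (z + a)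
      have h2 : ‖w + a‖ ≤ ‖z + a‖ + ‖w - z‖ := by
        have := norm_add_le (z + a) (w - z)
        rwa [show z + a + (w - z) = w + a by ring] at this
      have h3 : 0 < |z.im| := abs_pos.2 hz
      have h4 : ‖w - z‖ ≤ ‖w - z‖ / |z.im| * ‖z + a‖ := by
        rw [div_mul_eq_mul_div, le_div_iff₀ h3]
        exact mul_le_mul_of_nonneg_left h1 (norm_nonneg _)
      linarith
  | one => simp
  | mul x y _ _ ihx ihy =>
    by_cases hx : x = 0
    · subst hx; simp
    by_cases hy : y = 0
    · subst hy; simp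
    rw [natDegree_mul hx hy, map_mul, map_mul, norm_mul, norm_mul, pow_add]
    calc _ ≤ _ := mul_le_mul ihx ihy (norm_nonneg _) (by positivity)
      _ = _ := by ring

theorem closed_lim (n : ℕ) (γ : ℕ → ℕ → ℝ) (g : ℕ → ℝ)
    (hs : ∀ j, (T (γ j) ((1 + X) ^ n)).Splits)
    (hl : ∀ i ≤ n, Tendsto (fun j => γ j i) atTop (𝓝 (g i))) : (T g ((1 + X) ^ n)).Splits := by
  have hd : ∀ γ : ℕ → ℝ, (T γ ((1 + X) ^ n)).natDegree < n + 1 := fun γ => by
    rw [Nat.lt_succ_iff, natDegree_le_iff_coeff_eq_zero]
    intro k hk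
    rw [coeff_jensen, Nat.choose_eq_zero_of_lt hk]; simp
  have ht : ∀ w : ℂ, Tendsto (fun j => aeval w (T (γ j) ((1 + X) ^ n))) atTop
      (𝓝 (aeval w (T g ((1 + X) ^ n)))) := by
    intro w
    simp only [aeval_eq_sum_range' (hd _), coeff_jensen]
    refine tendsto_finsetSum _ fun i hi => ?_
    exact ((hl i (Nat.lt_succ_iff.1 (mem_range.1 hi))).mul_const _).smul_const _
  rw [splits_iff]
  by_cases h : ∀ z : ℂ, aeval z (T g ((1 + X) ^ n)) = 0 → z.im = 0
  · exact Or.inr h
  left
  push Not at h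
  obtain ⟨z, hz, hi⟩ := h
  apply eq_of_infinite_eval_eq
  refine Set.infinite_univ.mono fun x _ => ?_
  have hK : 1 ≤ 1 + ‖(x : ℂ) - z‖ / |z.im| := le_add_of_nonneg_right (by positivity)
  have h1 := ((ht z).norm.const_mul ((1 + ‖(x : ℂ) - z‖ / |z.im|) ^ n))
  rw [hz, norm_zero, mul_zero] at h1
  have h2 := le_of_tendsto_of_tendsto' (ht x).norm h1 fun j =>
    (root_bound (hs j) z x hi).trans (mul_le_mul_of_nonneg_right
      (pow_le_pow_right₀ hK (Nat.lt_succ_iff.1 (hd _))) (norm_nonneg _))
  have h3 : aeval (x : ℂ) (T g ((1 + X) ^ n)) = 0 := norm_le_zero_iff.1 h2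
  have h4 := aeval_algebraMap_apply_eq_algebraMap_eval (A := ℂ) x (T g ((1 + X) ^ n))
  simp only [Complex.coe_algebraMap] at h4
  rw [h3] at h4
  simpa using h4.symm

noncomputable def rho (n j i : ℕ) : ℝ :=
  ((j + n + (j + n)).choose (i + j) : ℝ) / (j + n + (j + n)).choose j

theorem rho_prop (n i : ℕ) (hi : i ≤ n) :
    (∀ j, 1 ≤ rho n j i) ∧ Tendsto (fun j => rho n j i) atTop (𝓝 1) := by
  have cp : ∀ j, (0 : ℝ) < ((j + n + (j + n)).choose j : ℕ) := fun j => by
    exact_mod_cast Nat.choose_pos (by omega)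
  induction i with
  | zero =>
    have : ∀ j, rho n j 0 = 1 := fun j => by
      unfold rho; rw [zero_add]; exact div_self (cp j).ne'
    simp [this]
  | succ i ih =>
    obtain ⟨a, b⟩ := ih (by omega)
    have hc : (0 : ℝ) ≤ 2 * n - 2 * i - 1 := by
      have : (i : ℝ) + 1 ≤ n := by exact_mod_cast hi
      linarith
    have e : ∀ j, rho n j (i + 1) = rho n j i * (1 + (2 * n - 2 * i - 1) / (j + (i + 1))) := by
      intro j
      have := congrArg (Nat.cast : ℕ → ℝ) (Nat.choose_succ_right_eq (j + n + (j + n)) (i + j))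
      rw [Nat.cast_mul, Nat.cast_mul, Nat.cast_sub (by omega)] at this
      push_cast at this
      unfold rho
      rw [show i + 1 + j = i + j + 1 by ring]
      have := cp j
      field_simp
      linarith
    simp only [e]
    constructor
    · intro j
      have : (0 : ℝ) ≤ (2 * n - 2 * i - 1) / (j + (i + 1)) := by positivity
      nlinarith [a j]
    · have h1 : Tendsto (fun j : ℕ => (2 * n - 2 * i - 1 : ℝ) / (j + (i + 1))) atTop (𝓝 0) :=
        tendsto_const_nhds.div_atTop (tendsto_atTop_add_const_right _ _ tendsto_natCast_atTop_atTop)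
      simpa using b.mul (h1.const_add 1)

end Pool.Agent.H15.MS
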