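import Mathlib
import Pool.Agent.H15.MS5

set_option autoImplicit false

open Polynomial Finset Filter Topology

namespace Pool.Agent.H15.MS

noncomputable def app (F : ℝ → ℝ) (d : ℕ) (p : ℝ[X]) : ℝ[X] :=
  ∑ k ∈ range (d + 1), monomial k (F (p.coeff k))

theorem coeff_app (F : ℝ → ℝ) (d : ℕ) (p : ℝ[X]) (k : ℕ) :
    (app F d p).coeff k = if k ≤ d then F (p.coeff k) else 0 := by
  unfold app
  simp only [finsetSum_coeff, coeff_monomial]
  rw [sum_ite_eq' (range (d + 1)) k fun k => F (p.coeff k)]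
  simp only [mem_range, Nat.lt_succ_iff]

theorem deg_app (F : ℝ → ℝ) (d : ℕ) (p : ℝ[X]) : (app F d p).natDegree ≤ d := by
  rw [natDegree_le_iff_coeff_eq_zero]
  intro k hk
  rw [coeff_app, if_neg (by omega)]

/-- preservation on polynomials of exact degree `d` with positive coefficients -/
def Pres (F : ℝ → ℝ) : Prop :=
  ∀ (d : ℕ) (p : ℝ[X]), p.Splits → p.natDegree = d → (∀ k ≤ d, 0 < p.coeff k) → (app F d p).Splits

theorem Pres.binom {F : ℝ → ℝ} (h : Pres F) (N : ℕ) {c r : ℝ} (hc : 0 < c) (hr : 0 < r) :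
    ∃ B : ℝ[X], B.Splits ∧ B.natDegree ≤ N ∧ ∀ k ≤ N, B.coeff k = F (c * (N.choose k * r ^ k)) := by
  have hco : ∀ k, (C c * (1 + C r * X) ^ N).coeff k = c * (N.choose k * r ^ k) := fun k => by
    rw [coeff_C_mul, coeff_lin_pow]
  have hp : ∀ k ≤ N, 0 < (C c * (1 + C r * X) ^ N).coeff k := fun k hk => by
    rw [hco]
    have : (0 : ℝ) < (N.choose k : ℕ) := by exact_mod_cast Nat.choose_pos hk
    positivity
  refine ⟨_, h N (C c * (1 + C r * X) ^ N) ?_ ?_ hp, deg_app _ _ _, fun k hk => ?_⟩
  · refine ((Splits.of_natDegree_le_one ?_).pow N).C_mul c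
    exact (natDegree_add_le _ _).trans (max_le (by simp)
      ((natDegree_C_mul_le _ _).trans natDegree_X_le))
  · apply natDegree_eq_of_le_of_coeff_ne_zero
    · rw [natDegree_le_iff_coeff_eq_zero]
      intro k hk
      rw [hco, Nat.choose_eq_zero_of_lt hk]; simp
    · exact (hp N le_rfl).ne'
  · rw [coeff_app, if_pos hk, hco]

theorem Pres.quad {F : ℝ → ℝ} (h : Pres F) {a b : ℝ} (ha : 0 < a) (hb : 2 * a ≤ b) :
    4 * F a * F a ≤ F b ^ 2 := by
  set p : ℝ[X] := C a * X ^ 2 + C b * X + C a with hp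
  have c0 : p.coeff 0 = a := by simp [hp]
  have c1 : p.coeff 1 = b := by simp [hp]
  have c2 : p.coeff 2 = a := by simp [hp]
  have hd : p.natDegree = 2 := natDegree_quadratic ha.ne'
  have hs : p.Splits := quad_splits
    (fun n hn => coeff_eq_zero_of_natDegree_lt (by rw [hd]; omega)) (by rw [c0, c1, c2]; nlinarith)
  have := quad_disc (fun n hn => by rw [coeff_app, if_neg (by omega)]) (h 2 p hs hd fun k hk => by
    interval_cases k
    · rw [c0]; exact ha
    · rw [c1]; linarith
    · rw [c2]; exact ha)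
  simpa [coeff_app, c0, c1, c2] using this

theorem Pres.near {F : ℝ → ℝ} (h : Pres F) (h0 : ∀ x, 0 < x → 0 ≤ F x) (m : ℕ) {a r : ℝ}
    (ha : 0 < a) (hr : 0 < r) : F a * F (a * r ^ 2) ≤ F (a * r * ((m + 2) / (m + 1))) ^ 2 := by
  have kp : (0 : ℝ) < ((m + 2 + m).choose m : ℕ) := by exact_mod_cast Nat.choose_pos (by omega)
  set K : ℝ := (((m + 2 + m).choose m : ℕ) : ℝ) with hK
  have k1 : (((m + 2 + m).choose (1 + m) : ℕ) : ℝ) = K * ((m + 2) / (m + 1)) := by
    have := congrArg (Nat.cast : ℕ → ℝ) (Nat.choose_succ_right_eq (m + 2 + m) m)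
    rw [Nat.add_sub_cancel] at this
    push_cast at this
    rw [add_comm 1 m]
    field_simp
    linarith
  have k2 : (((m + 2 + m).choose (2 + m) : ℕ) : ℝ) = K := by
    rw [hK, ← Nat.choose_symm (show 2 + m ≤ m + 2 + m by omega)]
    congr 2; omega
  obtain ⟨B, hB, hd, hc⟩ := h.binom (m + 2 + m) (c := a / (K * r ^ m)) (by positivity) hr
  have w := quad_disc (fun n hn => by
    rw [coeff_jensen, Nat.choose_eq_zero_of_lt (show 2 < n by omega)]; simp) (window hB m 2 m hd)
  simp only [coeff_jensen] at w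
  rw [hc _ (by omega), hc _ (by omega), hc _ (by omega), k1, k2, zero_add, ← hK] at w
  have e0 : a / (K * r ^ m) * (K * r ^ m) = a := by field_simp
  have e1 : a / (K * r ^ m) * (K * ((m + 2) / (m + 1)) * r ^ (1 + m)) =
      a * r * ((m + 2) / (m + 1)) := by field_simp; ring
  have e2 : a / (K * r ^ m) * (K * r ^ (2 + m)) = a * r ^ 2 := by field_simp; ring
  rw [e0, e1, e2] at w
  norm_num at w
  set l : ℝ := (m + 2) / (m + 1) with hl
  have l1 : 1 ≤ l := by rw [hl, le_div_iff₀ (by positivity)]; linarith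
  set y := F (a * r * l)
  have hy : 0 ≤ y := h0 _ (by positivity)
  have h1 : y / (K * l) ≤ y / K := div_le_div_of_nonneg_left hy kp (by nlinarith)
  have h2 : (y / (K * l) * 2) ^ 2 ≤ (y / K * 2) ^ 2 := by gcongr
  have h3 := w.trans h2
  have e3 : (y / K * 2) ^ 2 = 4 * y ^ 2 / K ^ 2 := by field_simp; ring
  have e4 : 4 * (F (a * r ^ 2) / K) * (F a / K) = 4 * (F a * F (a * r ^ 2)) / K ^ 2 := by
    field_simp
  rw [e3, e4, div_le_div_iff_of_pos_right (by positivity)] at h3
  linarith

theorem Pres.mono {F : ℝ → ℝ} (h : Pres F) (h0 : ∀ x, 0 < x → 0 ≤ F x) :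
    Monotone fun t => F (Real.exp t) := by
  have hq : ∀ s t, s + 1 ≤ t → F (Real.exp s) ≤ F (Real.exp t) := by
    intro s t hst
    have e1 : 2 * Real.exp s ≤ Real.exp t := by
      have a1 := Real.exp_le_exp.2 hst
      rw [Real.exp_add] at a1
      have a2 := Real.add_one_le_exp 1
      nlinarith [Real.exp_pos s]
    have := h.quad (Real.exp_pos s) e1
    have a := h0 _ (Real.exp_pos s)
    have b := h0 _ (Real.exp_pos t)
    nlinarith
  intro s t hst
  rcases hst.eq_or_lt with rfl | hlt
  · exact le_rfl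
  obtain ⟨m, hm⟩ := exists_nat_one_div_lt (show 0 < (t - s) / 2 by linarith)
  set l := Real.log ((m + 2) / (m + 1)) with hl
  have l0 : 0 ≤ l := Real.log_nonneg (by rw [le_div_iff₀ (by positivity)]; linarith)
  have l1 : l ≤ 1 / (m + 1) := by
    have := Real.log_le_sub_one_of_pos (show (0 : ℝ) < (m + 2) / (m + 1) by positivity)
    have e : ((m : ℝ) + 2) / (m + 1) - 1 = 1 / (m + 1) := by field_simp; ring
    rwa [e] at this
  have key : ∀ (j : ℕ) (u : ℝ), F (Real.exp s) ≤ F (Real.exp (s + (2 * l + 2 ^ j * u))) →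
      F (Real.exp s) ≤ F (Real.exp (s + (2 * l + u))) := by
    intro j
    induction j with
    | zero => intro u; simp
    | succ j ih =>
      intro u hj
      apply ih
      have h1 := h.near h0 m (Real.exp_pos s) (Real.exp_pos (l + 2 ^ j * u))
      have e1 : Real.exp s * Real.exp (l + 2 ^ j * u) ^ 2 =
          Real.exp (s + (2 * l + 2 ^ (j + 1) * u)) := by
        rw [sq, ← Real.exp_add, ← Real.exp_add]; congr 1; ring
      have e2 : Real.exp s * Real.exp (l + 2 ^ j * u) * ((m + 2) / (m + 1)) =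
          Real.exp (s + (2 * l + 2 ^ j * u)) := by
        rw [← Real.exp_log (show (0 : ℝ) < (m + 2) / (m + 1) by positivity), ← hl,
          ← Real.exp_add, ← Real.exp_add]; congr 1; ring
      rw [e1, e2] at h1
      have h2 : F (Real.exp s) ^ 2 ≤ F (Real.exp (s + (2 * l + 2 ^ j * u))) ^ 2 := by
        nlinarith [h0 _ (Real.exp_pos s)]
      exact (pow_le_pow_iff_left₀ (h0 _ (Real.exp_pos _)) (h0 _ (Real.exp_pos _))
        (by norm_num)).1 h2
  have hp : 0 < t - s - 2 * l := by linarith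
  obtain ⟨j, hj⟩ := pow_unbounded_of_one_lt (1 / (t - s - 2 * l)) (one_lt_two (α := ℝ))
  rw [div_lt_iff₀ hp] at hj
  have := key j (t - s - 2 * l) (hq _ _ (by linarith))
  rwa [show s + (2 * l + (t - s - 2 * l)) = t by ring] at this

theorem Pres.js {F : ℝ → ℝ} (h : Pres F) (hm : Monotone fun t => F (Real.exp t)) (t u : ℝ) :
    JS fun k => Function.rightLim (fun t => F (Real.exp t)) (t + k * u) := by
  intro n
  set σ : ℕ → ℝ := fun j => 1 + 1 / ((j : ℝ) + 1) with hσ
  have σ1 : ∀ j, 1 < σ j := fun j => by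
    have : (0 : ℝ) < 1 / ((j : ℝ) + 1) := by positivity
    simp only [hσ]; linarith
  have σl : Tendsto σ atTop (𝓝 1) := by
    have := (tendsto_one_div_add_atTop_nhds_zero_nat (𝕜 := ℝ)).const_add 1
    rw [add_zero] at this
    exact this
  have cp : ∀ j, (0 : ℝ) < ((j + n + (j + n)).choose j : ℕ) := fun j => by
    exact_mod_cast Nat.choose_pos (by omega)
  refine closed_lim n (fun j i => F (Real.exp (t + i * u + Real.log (rho n j i * σ j))) /
    rho n j i) _ (fun j => ?_) fun i hi => ?_
  · have := σ1 j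
    have := cp j
    obtain ⟨B, hB, hd, hc⟩ := h.binom (j + n + (j + n))
      (c := Real.exp t * σ j / ((j + n + (j + n)).choose j * Real.exp u ^ j)) (by positivity)
      (Real.exp_pos u)
    have w := (window hB j n (j + n) hd).C_mul ((j + n + (j + n)).choose j)
    convert w using 1
    ext i
    rw [coeff_C_mul, coeff_jensen, coeff_jensen]
    by_cases hi : n < i
    · rw [Nat.choose_eq_zero_of_lt hi]; simp
    push Not at hi
    have r1 := (rho_prop n i hi).1 j
    have c2 : (0 : ℝ) < ((j + n + (j + n)).choose (i + j) : ℕ) := by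
      exact_mod_cast Nat.choose_pos (by omega)
    rw [hc _ (by omega), Real.exp_add, Real.exp_log (by positivity), Real.exp_add,
      Real.exp_nat_mul]
    have e : Real.exp t * σ j / ((j + n + (j + n)).choose j * Real.exp u ^ j) *
        ((j + n + (j + n)).choose (i + j) * Real.exp u ^ (i + j)) =
        Real.exp t * Real.exp u ^ i * (rho n j i * σ j) := by
      unfold rho
      have := Real.exp_pos u
      field_simp
      ring
    rw [e]
    unfold rho
    field_simp
  · obtain ⟨a, b⟩ := rho_prop n i hi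
    have h1 : Tendsto (fun j => t + i * u + Real.log (rho n j i * σ j)) atTop
        (𝓝[>] (t + i * u)) := by
      rw [tendsto_nhdsWithin_iff]
      constructor
      · have := ((b.mul σl).log (by norm_num)).const_add (t + i * u)
        simpa using this
      · refine Eventually.of_forall fun j => ?_
        have : 0 < Real.log (rho n j i * σ j) := Real.log_pos (by nlinarith [a j, σ1 j])
        simpa using this
    have := ((hm.tendsto_rightLim (t + i * u)).comp h1).div b one_ne_zero
    rw [div_one] at this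
    exact this

theorem power {F : ℝ → ℝ} (h : Pres F) (h0 : ∀ x, 0 < x → 0 ≤ F x) :
    ∃ c α : ℝ, 0 ≤ c ∧ 1 ≤ α ∧ ∀ x, 0 < x → F x = c * x ^ α := by
  have hm := h.mono h0
  set f : ℝ → ℝ := fun t => F (Real.exp t) with hf
  set g := Function.rightLim f with hg
  have fg : ∀ t, f t ≤ g t := fun t => hm.le_rightLim le_rfl
  have g0 : ∀ t, 0 ≤ g t := fun t => (h0 _ (Real.exp_pos t)).trans (fg t)
  have gm : Monotone g := hm.rightLim
  have hc := core g g0 gm (h.js hm)
  by_cases hz : ∃ s, g s = 0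
  · obtain ⟨s, hs⟩ := hz
    refine ⟨0, 1, le_rfl, le_rfl, fun x hx => ?_⟩
    have a := fg (Real.log x)
    rw [zero_prop g g0 gm hc s hs] at a
    simp only [hf, Real.exp_log hx] at a
    rw [zero_mul]
    exact le_antisymm a (h0 x hx)
  push Not at hz
  have gp : ∀ t, 0 < g t := fun t => lt_of_le_of_ne (g0 t) (hz t).symm
  have ha := affine (fun t => Real.log (g t)) (fun s t hst => Real.log_le_log (gp _) (gm hst))
    fun t a ha => by
      rw [← Real.log_mul (gp _).ne' (gp _).ne', ← hc t a ha, Real.log_pow]; norm_num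
  set α := Real.log (g 1) - Real.log (g 0)
  have ge : ∀ t, g t = g 0 * Real.exp (t * α) := fun t => by
    rw [← Real.exp_log (gp t), ha t, Real.exp_add, Real.exp_log (gp 0)]
  have fe : ∀ t, f t = g 0 * Real.exp (t * α) := by
    intro t
    refine le_antisymm ((fg t).trans (ge t).le) ?_
    have hcont : Continuous fun s => g 0 * Real.exp (s * α) := by fun_prop
    refine le_of_tendsto ((hcont.tendsto t).mono_left (nhdsWithin_le_nhds (s := Set.Iio t))) ?_
    refine eventually_nhdsWithin_of_forall fun s hs => ?_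
    rw [← ge s]
    exact hm.rightLim_le hs
  have Fe : ∀ x, 0 < x → F x = g 0 * x ^ α := fun x hx => by
    have := fe (Real.log x)
    simp only [hf, Real.exp_log hx] at this
    rw [this, Real.rpow_def_of_pos hx]
  refine ⟨g 0, α, g0 0, ?_, Fe⟩
  have q := h.quad one_pos (show 2 * (1 : ℝ) ≤ 2 by norm_num)
  rw [Fe 1 one_pos, Fe 2 two_pos, Real.one_rpow] at q
  have p := gp 0
  have p2 : (0 : ℝ) < 2 ^ α := by positivity
  have : (2 : ℝ) ^ (1 : ℝ) ≤ 2 ^ α := by
    rw [Real.rpow_one]
    by_contra hcon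
    push Not at hcon
    have : (g 0 * 2 ^ α) ^ 2 < (g 0 * 2) ^ 2 := by gcongr
    nlinarith
  exact (Real.rpow_le_rpow_left_iff one_lt_two).1 this

end Pool.Agent.H15.MS
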