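import Mathlib

set_option autoImplicit false

namespace Pool.Agent.H15.NB1

open Polynomial Cardinal

def ext (K : Subfield ℝ) (s : ℝ) (hs : s * s ∈ K) (hn : s ∉ K) : Subfield ℝ where
  carrier := {z | ∃ x ∈ K, ∃ y ∈ K, z = x + y * s}
  mul_mem' := by
    rintro _ _ ⟨x, hx, y, hy, rfl⟩ ⟨u, hu, v, hv, rfl⟩
    exact ⟨x * u + y * v * (s * s), K.add_mem (K.mul_mem hx hu) (K.mul_mem (K.mul_mem hy hv) hs),
      x * v + y * u, K.add_mem (K.mul_mem hx hv) (K.mul_mem hy hu), by ring⟩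
  one_mem' := ⟨1, K.one_mem, 0, K.zero_mem, by ring⟩
  add_mem' := by
    rintro _ _ ⟨x, hx, y, hy, rfl⟩ ⟨u, hu, v, hv, rfl⟩
    exact ⟨x + u, K.add_mem hx hu, y + v, K.add_mem hy hv, by ring⟩
  zero_mem' := ⟨0, K.zero_mem, 0, K.zero_mem, by ring⟩
  neg_mem' := by
    rintro _ ⟨x, hx, y, hy, rfl⟩
    exact ⟨-x, K.neg_mem hx, -y, K.neg_mem hy, by ring⟩
  inv_mem' := by
    rintro _ ⟨x, hx, y, hy, rfl⟩
    have hd : x * x - y * y * (s * s) ∈ K :=
      K.sub_mem (K.mul_mem hx hx) (K.mul_mem (K.mul_mem hy hy) hs)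
    by_cases h0 : x + y * s = 0
    · exact ⟨0, K.zero_mem, 0, K.zero_mem, by rw [h0]; simp⟩
    by_cases h1 : x - y * s = 0
    · by_cases hy0 : y = 0
      · exact ⟨x⁻¹, K.inv_mem hx, 0, K.zero_mem, by rw [hy0]; simp⟩
      · exfalso; apply hn
        have : s = x / y := by field_simp; linarith
        rw [this]; exact K.div_mem hx hy
    refine ⟨x / (x * x - y * y * (s * s)), K.div_mem hx hd, -y / (x * x - y * y * (s * s)),
      K.div_mem (K.neg_mem hy) hd, ?_⟩
    rw [show x * x - y * y * (s * s) = (x + y * s) * (x - y * s) by ring]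
    field_simp; ring

theorem eucl (K0 : Subfield ℝ) (C : Set ℝ) (h3 : ∀ c ∈ C, c ^ 3 ∈ K0) (hn : ∀ c ∈ C, c ∉ K0) :
    ∃ K : Subfield ℝ, K0 ≤ K ∧ (∀ c ∈ C, c ∉ K) ∧ ∀ s : ℝ, s * s ∈ K → s ∈ K := by
  obtain ⟨K, h1, h2⟩ := zorn_le_nonempty₀ {K : Subfield ℝ | ∀ c ∈ C, c ∉ K}
    (fun ch hch hc y hy => ⟨sSup ch, fun c hcC hmem => by
      obtain ⟨L, hL, hcL⟩ := (Subfield.mem_sSup_of_directedOn ⟨y, hy⟩ hc.directedOn).1 hmem
      exact hch hL c hcC hcL, fun z hz => le_sSup hz⟩) K0 hn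
  refine ⟨K, h1, h2.prop, ?_⟩
  intro s hs
  by_contra hns
  have hle : K ≤ ext K s hs hns := fun x hx => ⟨x, hx, 0, K.zero_mem, by ring⟩
  have hmem : ext K s hs hns ∈ {K : Subfield ℝ | ∀ c ∈ C, c ∉ K} := by
    rintro c hc ⟨x, hx, y, hy, rfl⟩
    have hs0 : s ≠ 0 := by rintro rfl; exact hns K.zero_mem
    have h3K : (3 : ℝ) ∈ K := by exact_mod_cast natCast_mem K 3
    by_cases hy0 : y = 0
    · exact h2.prop _ hc (by rw [hy0]; simpa using hx)
    have hpos : 0 < 3 * x * x + y * y * (s * s) := by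
      have := mul_pos (mul_self_pos.2 hy0) (mul_self_pos.2 hs0)
      nlinarith [mul_self_nonneg x]
    apply hns
    have e : s = ((x + y * s) ^ 3 - x * x * x - 3 * x * y * y * (s * s)) /
        (y * (3 * x * x + y * y * (s * s))) := by
      rw [eq_div_iff (mul_ne_zero hy0 hpos.ne')]; ring
    rw [e]
    exact K.div_mem (K.sub_mem (K.sub_mem (h1 (h3 _ hc)) (K.mul_mem (K.mul_mem hx hx) hx))
      (K.mul_mem (K.mul_mem (K.mul_mem (K.mul_mem h3K hx) hy) hy) hs))
      (K.mul_mem hy (K.add_mem (K.mul_mem (K.mul_mem h3K hx) hx)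
        (K.mul_mem (K.mul_mem hy hy) hs)))
  exact hns (h2.le_of_ge hmem hle ⟨0, K.zero_mem, 1, K.one_mem, by ring⟩)

theorem not_mem_cube {F : Type} [Field F] [Algebra F ℝ] {r : ℝ} (hr : Transcendental F r) :
    r ∉ IntermediateField.adjoin F {r ^ 3} := by
  intro h
  obtain ⟨p, q, hpq⟩ := (IntermediateField.mem_adjoin_simple_iff F r).1 h
  have hr0 : r ≠ 0 := by rintro rfl; exact hr isAlgebraic_zero
  have hq : aeval (r ^ 3) q ≠ 0 := by intro h0; rw [h0, div_zero] at hpq; exact hr0 hpq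
  have hq0 : q ≠ 0 := by rintro rfl; simp at hq
  rw [eq_div_iff hq] at hpq
  have e : X * expand F 3 q = expand F 3 p := by
    apply transcendental_iff_injective.1 hr
    simp only [map_mul, aeval_X, expand_aeval]; exact hpq
  have h1 := congrArg natDegree e
  rw [natDegree_X_mul ((expand_ne_zero (by norm_num)).2 hq0), natDegree_expand,
    natDegree_expand] at h1
  omega

theorem fields {ι : Type} (r : ι → ℝ) (hr : AlgebraicIndependent ℚ r) (J : Set ι) :
    ∃ K : Subfield ℝ, (∀ i, r i ^ 3 ∈ K) ∧ (∀ i, r i ∈ K ↔ i ∉ J) ∧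
      ∀ s : ℝ, s * s ∈ K → s ∈ K := by
  obtain ⟨K, h1, h2, h3⟩ := eucl
    (Subfield.closure (Set.range (fun i => r i ^ 3) ∪ r '' Jᶜ)) (r '' J)
    (by rintro _ ⟨i, -, rfl⟩; exact Subfield.subset_closure (Or.inl ⟨i, rfl⟩))
    (by
      rintro _ ⟨i, hi, rfl⟩ hmem
      have ht : Transcendental (IntermediateField.adjoin ℚ (r '' {i}ᶜ)) (r i) :=
        IntermediateField.transcendental_adjoin_iff.2 (hr.transcendental_adjoin (by simp))
      apply not_mem_cube ht
      have hb : ∀ j, j ≠ i → r j ∈ IntermediateField.adjoin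
          (IntermediateField.adjoin ℚ (r '' {i}ᶜ)) {r i ^ 3} := fun j hj =>
        IntermediateField.algebraMap_mem _
          (⟨r j, IntermediateField.subset_adjoin _ _ ⟨j, hj, rfl⟩⟩ :
            IntermediateField.adjoin ℚ (r '' {i}ᶜ))
      refine (Subfield.closure_le (t := (IntermediateField.adjoin
          (IntermediateField.adjoin ℚ (r '' {i}ᶜ)) {r i ^ 3}).toSubfield)).2 ?_ hmem
      rintro _ (⟨j, rfl⟩ | ⟨j, hj, rfl⟩)
      · by_cases hji : j = i
        · subst hji; exact IntermediateField.mem_adjoin_simple_self _ _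
        · exact pow_mem (hb j hji) 3
      · exact hb j (by rintro rfl; exact hj hi))
  refine ⟨K, fun i => h1 (Subfield.subset_closure (Or.inl ⟨i, rfl⟩)), fun i => ⟨?_, ?_⟩, h3⟩
  · intro h hi; exact h2 _ ⟨i, hi, rfl⟩ h
  · intro hi; exact h1 (Subfield.subset_closure (Or.inr ⟨i, hi, rfl⟩))

theorem card_borel : #{t : Set ℝ | MeasurableSet t} ≤ 𝔠 := by
  have h := MeasurableSpace.cardinal_measurableSet_le_continuum
    (s := MeasurableSpace.countableGeneratingSet ℝ)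
    ((MeasurableSpace.countable_countableGeneratingSet.le_aleph0).trans aleph0_le_continuum)
  rwa [MeasurableSpace.generateFrom_countableGeneratingSet] at h

theorem main : ∃ K : Subfield ℝ, (∀ s : ℝ, s * s ∈ K → s ∈ K) ∧
    ∀ B : Set ℝ, MeasurableSet B → ¬ ∀ x : K, (x : ℝ) ∈ B ↔ ∃ y : K, x = y * y * y := by
  by_contra hcon
  push Not at hcon
  obtain ⟨s, hs⟩ := exists_isTranscendenceBasis ℚ ℝ
  have hc : 𝔠 ≤ #s := by
    have := hs.isAlgebraic
    have h1 := Algebra.IsAlgebraic.cardinalMk_le_max (Algebra.adjoin ℚ (Set.range ((↑) : s → ℝ))) ℝ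
    have h2 := Algebra.cardinalMk_adjoin_le ℚ (Set.range ((↑) : s → ℝ))
    rw [Subtype.range_coe, mk_eq_aleph0 ℚ] at h2
    rw [mk_real, Subtype.range_coe] at h1
    by_contra hlt
    push Not at hlt
    exact absurd h1 (not_le.2 (max_lt (lt_of_le_of_lt h2 (sup_lt_iff.2 ⟨sup_lt_iff.2
      ⟨aleph0_lt_continuum, hlt⟩, aleph0_lt_continuum⟩)) aleph0_lt_continuum))
  choose K hK1 hK2 hK3 using fields ((↑) : s → ℝ) hs.1
  choose B hB1 hB2 using fun J => hcon (K J) (hK3 J)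
  have key : ∀ J (i : s), i ∉ J ↔ (i : ℝ) ^ 3 ∈ B J := by
    intro J i
    rw [← hK2, hB2 J ⟨_, hK1 J i⟩]
    constructor
    · intro h; exact ⟨⟨_, h⟩, Subtype.ext (by simp; ring)⟩
    · rintro ⟨y, hy⟩
      have h1 : (i : ℝ) ^ 3 = (y : ℝ) ^ 3 := by
        have := congrArg Subtype.val hy
        simp at this; rw [this]; ring
      rw [(Odd.strictMono_pow (by decide : Odd 3)).injective h1]; exact y.2
  have hinj : Function.Injective
      (fun J => (⟨B J, hB1 J⟩ : {t : Set ℝ | MeasurableSet t})) := by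
    intro J J' h
    have h1 : B J = B J' := congrArg Subtype.val h
    ext i
    rw [← not_iff_not, key, key, h1]
  have h1 := mk_le_of_injective hinj
  rw [mk_set] at h1
  exact absurd ((h1.trans card_borel).trans hc) (not_le.2 (cantor _))

end Pool.Agent.H15.NB1
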