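import Mathlib

set_option autoImplicit false

namespace Pool.Agent.H15.NP

open Polynomial Finset

section gen
variable {R : Type*} [CommRing R]

noncomputable def It (G : R[X]) (n : ℕ) : R[X] := G.comp^[n] X

lemma It_eval (G : R[X]) (n : ℕ) (t : R) : (It G n).eval t = (fun a => G.eval a)^[n] t := by
  unfold It
  rw [iterate_comp_eval]; simp

lemma It_succ (G : R[X]) (n : ℕ) : It G (n + 1) = G.comp (It G n) := by
  unfold It
  rw [Function.iterate_succ_apply']

lemma orbit_exp (G : R[X]) (x : R) (n : ℕ) :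
    (G.eval x - x) ^ 2 ∣ (fun a => G.eval a)^[n] x - x -
      (G.eval x - x) * ∑ j ∈ range n, (G.derivative.eval x) ^ j := by
  induction n with
  | zero => simp
  | succ n ih =>
    obtain ⟨k, hk⟩ := ih
    rw [Function.iterate_succ_apply', geom_sum_succ]
    set S := ∑ j ∈ range n, (G.derivative.eval x) ^ j
    set y := G.eval x - x with hy
    have h1 : (fun a => G.eval a)^[n] x = x + (y * S + y ^ 2 * k) := by linear_combination hk
    rw [h1]
    obtain ⟨k', hk'⟩ := binomExpansion G x (y * S + y ^ 2 * k)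
    refine ⟨G.derivative.eval x * k + k' * (S + y * k) ^ 2, ?_⟩
    rw [hk']
    linear_combination -hy

lemma orbit_dvd (G : R[X]) (x : R) (n : ℕ) :
    (G.eval x - x) ∣ (fun a => G.eval a)^[n] x - x := by
  obtain ⟨k, hk⟩ := orbit_exp G x n
  exact ⟨(∑ j ∈ range n, (G.derivative.eval x) ^ j) + (G.eval x - x) * k, by
    linear_combination hk⟩

lemma deriv_It (G : R[X]) (x q : R) (hq : q ∣ G.eval x - x) (n : ℕ) :
    q ∣ (It G n).derivative.eval x - (G.derivative.eval x) ^ n := by
  induction n with
  | zero => simp [It]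
  | succ n ih =>
    rw [It_succ, derivative_comp, eval_mul, eval_comp, It_eval]
    have h1 : q ∣ G.derivative.eval ((fun a => G.eval a)^[n] x) - G.derivative.eval x :=
      (hq.trans (orbit_dvd G x n)).trans (sub_dvd_eval_sub _ _ _)
    obtain ⟨a, ha⟩ := ih
    obtain ⟨b, hb⟩ := h1
    refine ⟨a * G.derivative.eval ((fun a => G.eval a)^[n] x) + b * (G.derivative.eval x) ^ n, ?_⟩
    linear_combination (G.derivative.eval ((fun a => G.eval a)^[n] x)) * ha +
      (G.derivative.eval x) ^ n * hb

lemma It_iter (G : R[X]) (m n : ℕ) (x : R) :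
    (fun a => (It G m).eval a)^[n] x = (fun a => G.eval a)^[m * n] x := by
  have : (fun a => (It G m).eval a) = (fun a => G.eval a)^[m] := by
    funext a; exact It_eval G m a
  rw [this, ← Function.iterate_mul]

lemma dvd_sum_of_fix [IsDomain R] (G : R[X]) (x : R) (n : ℕ)
    (hn : (fun a => G.eval a)^[n] x = x) (hy : G.eval x - x ≠ 0) :
    (G.eval x - x) ∣ ∑ j ∈ range n, (G.derivative.eval x) ^ j := by
  obtain ⟨k, hk⟩ := orbit_exp G x n
  rw [hn] at hk
  refine ⟨-k, ?_⟩
  apply mul_left_cancel₀ hy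
  linear_combination -hk

end gen

section padic
variable {q : ℕ} [hq : Fact q.Prime]

lemma q_dvd_nat {n : ℕ} (h : (q : ℤ_[q]) ∣ (n : ℤ_[q])) : q ∣ n := by
  have h1 : ‖((n : ℤ) : ℤ_[q])‖ < 1 := by
    rw [PadicInt.norm_lt_one_iff_dvd]; exact_mod_cast h
  rw [PadicInt.norm_int_lt_one_iff_dvd] at h1
  exact_mod_cast h1

lemma q_not_dvd_one : ¬ (q : ℤ_[q]) ∣ 1 := fun h => by
  have := q_dvd_nat (q := q) (n := 1) (by simpa using h)
  exact hq.out.one_lt.ne' (Nat.dvd_one.mp this)

lemma fix_of_per (hodd : Odd q) (x : ℤ_[q]) : ∀ n : ℕ, 0 < n → ∀ G : ℤ_[q][X],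
    (q : ℤ_[q]) ^ 2 ∣ G.eval x - x → (q : ℤ_[q]) ∣ G.derivative.eval x - 1 →
    (fun a => G.eval a)^[n] x = x → G.eval x = x := by
  intro n
  induction n using Nat.strong_induction_on with
  | _ n ih =>
    intro hn G h2 h1 hper
    by_contra hne
    have hy : G.eval x - x ≠ 0 := sub_ne_zero.mpr hne
    have hq1 : (q : ℤ_[q]) ∣ G.eval x - x := (dvd_pow_self _ two_ne_zero).trans h2
    have hS := dvd_sum_of_fix G x n hper hy
    have hqn : q ∣ n := by
      apply q_dvd_nat
      have h3 : (q : ℤ_[q]) ∣ (∑ j ∈ range n, (G.derivative.eval x) ^ j) - (n : ℤ_[q]) := by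
        have : (∑ j ∈ range n, (G.derivative.eval x) ^ j) - (n : ℤ_[q]) =
            ∑ j ∈ range n, ((G.derivative.eval x) ^ j - 1) := by
          rw [sum_sub_distrib]; simp
        rw [this]
        refine dvd_sum fun j _ => h1.trans ?_
        simpa using sub_dvd_pow_sub_pow (G.derivative.eval x) 1 j
      have h4 := dvd_sub (hq1.trans hS) h3
      simpa using h4
    obtain ⟨m, rfl⟩ := hqn
    have hm : 0 < m := Nat.pos_of_mul_pos_left hn
    have hlt : m < q * m := by nlinarith [hq.out.one_lt]
    have hfix : (It G q).eval x = x := by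
      refine ih m hlt hm (It G q) ?_ ?_ ?_
      · rw [It_eval]; exact h2.trans (orbit_dvd G x q)
      · have h5 := deriv_It G x q hq1 q
        have h6 : (q : ℤ_[q]) ∣ (G.derivative.eval x) ^ q - 1 := h1.trans (by
          simpa using sub_dvd_pow_sub_pow (G.derivative.eval x) 1 q)
        have := dvd_add h5 h6
        simpa using this
      · rw [It_iter]; exact hper
    rw [It_eval] at hfix
    have hS' := h2.trans (dvd_sum_of_fix G x q hfix hy)
    obtain ⟨t, ht⟩ := h1
    have hl : G.derivative.eval x = 1 + q * t := by linear_combination ht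
    have h7 := odd_sq_dvd_geom_sum₂_sub (R := ℤ_[q]) (1 : ℤ_[q]) t hodd
    simp only [one_pow, mul_one] at h7
    rw [hl] at hS'
    have h8 := dvd_sub hS' h7
    have h9 : (q : ℤ_[q]) * q ∣ q * 1 := by
      rw [← sq]; simpa using h8
    have hq0 : (q : ℤ_[q]) ≠ 0 := by exact_mod_cast hq.out.ne_zero
    exact q_not_dvd_one ((mul_dvd_mul_iff_left hq0).mp h9)

lemma exists_N (hodd : Odd q) : ∃ N : ℕ, 0 < N ∧ ∀ (G : ℤ_[q][X]) (x : ℤ_[q]) (n : ℕ), 0 < n →
    (fun a => G.eval a)^[n] x = x → (fun a => G.eval a)^[N] x = x := by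
  have hq1 := hq.out.one_lt
  refine ⟨(q ^ 2).factorial * (q - 1), Nat.mul_pos (Nat.factorial_pos _) (by omega), ?_⟩
  intro G x n hn hper
  set N0 := (q ^ 2).factorial
  haveI : NeZero (q ^ 2) := ⟨by positivity⟩
  have hA : (q : ℤ_[q]) ^ 2 ∣ (It G N0).eval x - x := by
    set φ := PadicInt.toZModPow (p := q) 2
    have hsemi : ∀ k : ℕ, φ ((fun a => G.eval a)^[k] x) =
        (fun a => (G.map φ).eval a)^[k] (φ x) := by
      intro k
      induction k with
      | zero => simp
      | succ k ih =>
        rw [Function.iterate_succ_apply', Function.iterate_succ_apply', ← ih, eval_map,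
          eval₂_at_apply]
    have hp : Function.IsPeriodicPt (fun a => (G.map φ).eval a) n (φ x) := by
      unfold Function.IsPeriodicPt Function.IsFixedPt
      rw [← hsemi, hper]
    have hpos := hp.minimalPeriod_pos hn
    have hle : Function.minimalPeriod (fun a => (G.map φ).eval a) (φ x) ≤ q ^ 2 := by
      have := Function.minimalPeriod_le_card (f := fun a => (G.map φ).eval a) (x := φ x)
      rwa [ZMod.card] at this
    have hdvd : Function.minimalPeriod (fun a => (G.map φ).eval a) (φ x) ∣ N0 :=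
      Nat.dvd_factorial hpos hle
    have hp2 : Function.IsPeriodicPt (fun a => (G.map φ).eval a) N0 (φ x) :=
      Function.isPeriodicPt_iff_minimalPeriod_dvd.mpr hdvd
    have h0 : φ ((It G N0).eval x - x) = 0 := by
      rw [map_sub, It_eval, hsemi, sub_eq_zero]; exact hp2
    have : (It G N0).eval x - x ∈ RingHom.ker φ := h0
    rw [PadicInt.ker_toZModPow, Ideal.mem_span_singleton] at this
    exact this
  have hA1 : (q : ℤ_[q]) ∣ (It G N0).eval x - x := (dvd_pow_self _ two_ne_zero).trans hA
  have hper0 : ∀ k, (fun a => G.eval a)^[k * n] x = x := by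
    intro k
    rw [mul_comm, Function.iterate_mul]
    exact Function.iterate_fixed hper k
  by_cases hl : (q : ℤ_[q]) ∣ (It G N0).derivative.eval x
  · have hfix : (It G N0).eval x = x := by
      by_contra hne
      have hy : (It G N0).eval x - x ≠ 0 := sub_ne_zero.mpr hne
      have hS := hA1.trans (dvd_sum_of_fix (It G N0) x n (by rw [It_iter]; exact hper0 N0) hy)
      obtain ⟨m, rfl⟩ : ∃ m, n = m + 1 := ⟨n - 1, by omega⟩
      rw [geom_sum_succ] at hS
      exact q_not_dvd_one ((dvd_add_right (hl.mul_right _)).mp hS)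
    rw [← It_iter]
    exact Function.iterate_fixed hfix _
  · have hu : (q : ℤ_[q]) ∣ ((It G N0).derivative.eval x) ^ (q - 1) - 1 := by
      set l := (It G N0).derivative.eval x
      have h1 : PadicInt.toZMod l ≠ 0 := by
        intro h
        have : l ∈ RingHom.ker (PadicInt.toZMod (p := q)) := h
        rw [PadicInt.ker_toZMod, PadicInt.maximalIdeal_eq_span_p, Ideal.mem_span_singleton] at this
        exact hl this
      have h2 : l ^ (q - 1) - 1 ∈ RingHom.ker (PadicInt.toZMod (p := q)) := by
        rw [RingHom.mem_ker, map_sub, map_pow, ZMod.pow_card_sub_one_eq_one h1]; simp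
      rwa [PadicInt.ker_toZMod, PadicInt.maximalIdeal_eq_span_p, Ideal.mem_span_singleton] at h2
    have hfix : (It (It G N0) (q - 1)).eval x = x := by
      refine fix_of_per hodd x n hn _ ?_ ?_ ?_
      · rw [It_eval]; exact hA.trans (orbit_dvd _ x _)
      · have h5 := deriv_It (It G N0) x q hA1 (q - 1)
        have := dvd_add h5 hu
        simpa using this
      · rw [It_iter, It_iter, ← mul_assoc]; exact hper0 _
    rw [It_eval, It_iter] at hfix
    exact hfix

end padic

end Pool.Agent.H15.NP
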