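import Mathlib
import Pool.Agent.H15.NP1

set_option autoImplicit false

namespace Pool.Agent.H15.NP

open Polynomial Finset

lemma iter_map {A B : Type*} [CommRing A] [CommRing B] (φ : A →+* B) (G : A[X]) (x : A) (k : ℕ) :
    φ ((fun a => G.eval a)^[k] x) = (fun a => (G.map φ).eval a)^[k] (φ x) := by
  induction k with
  | zero => simp
  | succ k ih =>
    rw [Function.iterate_succ_apply', Function.iterate_succ_apply', ← ih, eval_map,
      eval₂_at_apply]

section padic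
variable {q : ℕ} [hq : Fact q.Prime]

lemma norm_le_one_of_int {z : ℚ_[q]} (hz : IsIntegral ℤ z) : ‖z‖ ≤ 1 := by
  have h1 : IsIntegral ℤ_[q] z := hz.tower_top
  obtain ⟨y, hy⟩ := IsIntegrallyClosed.isIntegral_iff.mp h1
  rw [← hy]
  exact y.2

lemma norm_grow (g : ℚ_[q][X]) (hd : 2 ≤ g.natDegree) (hc : ∀ i, ‖g.coeff i‖ ≤ 1)
    (hl : ‖g.leadingCoeff‖ = 1) (z : ℚ_[q]) (hz : 1 < ‖z‖) : ‖z‖ < ‖g.eval z‖ := by
  rw [eval_eq_sum_range, sum_range_succ]
  set d := g.natDegree
  have h1 : ‖∑ i ∈ range d, g.coeff i * z ^ i‖ ≤ ‖z‖ ^ (d - 1) := by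
    apply IsUltrametricDist.norm_sum_le_of_forall_le_of_nonneg (by positivity)
    intro i hi
    rw [norm_mul, norm_pow]
    have : ‖z‖ ^ i ≤ ‖z‖ ^ (d - 1) :=
      pow_le_pow_right₀ hz.le (by have := mem_range.mp hi; omega)
    calc ‖g.coeff i‖ * ‖z‖ ^ i ≤ 1 * ‖z‖ ^ i := by gcongr; exact hc i
      _ ≤ _ := by rw [one_mul]; exact this
  have h2 : ‖g.coeff d * z ^ d‖ = ‖z‖ ^ d := by
    rw [norm_mul, norm_pow]
    change ‖g.leadingCoeff‖ * _ = _
    rw [hl, one_mul]
  have h3 : ‖z‖ ^ (d - 1) < ‖z‖ ^ d := pow_lt_pow_right₀ hz (by omega)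
  have h4 : ‖z‖ < ‖z‖ ^ d := by
    calc ‖z‖ = ‖z‖ ^ 1 := (pow_one _).symm
      _ < _ := pow_lt_pow_right₀ hz (by omega)
  rw [IsUltrametricDist.norm_add_eq_max_of_norm_ne_norm (by rw [h2]; linarith), h2]
  exact h4.trans_le (le_max_right _ _)

lemma exists_NQ (hodd : Odd q) : ∃ N : ℕ, 0 < N ∧ ∀ (g : ℚ_[q][X]), 2 ≤ g.natDegree →
    (∀ i, ‖g.coeff i‖ ≤ 1) → ‖g.leadingCoeff‖ = 1 → ∀ (x : ℚ_[q]) (n : ℕ), 0 < n →
    (fun a => g.eval a)^[n] x = x → (fun a => g.eval a)^[N] x = x := by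
  obtain ⟨N, hN, H⟩ := exists_N hodd
  refine ⟨N, hN, fun g hd hc hl x n hn hper => ?_⟩
  have hx : ‖x‖ ≤ 1 := by
    by_contra hx
    push Not at hx
    have : ∀ k : ℕ, ‖x‖ < ‖(fun a => g.eval a)^[k + 1] x‖ := by
      intro k
      induction k with
      | zero => simpa using norm_grow g hd hc hl x hx
      | succ k ih =>
        rw [Function.iterate_succ_apply']
        exact ih.trans (norm_grow g hd hc hl _ (hx.trans ih))
    obtain ⟨m, rfl⟩ : ∃ m, n = m + 1 := ⟨n - 1, by omega⟩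
    have := this m
    rw [hper] at this
    exact lt_irrefl _ this
  have hg : g ∈ lifts (algebraMap ℤ_[q] ℚ_[q]) := by
    rw [lifts_iff_coeff_lifts]
    intro i
    exact ⟨⟨g.coeff i, hc i⟩, rfl⟩
  obtain ⟨G, rfl⟩ := (mem_lifts _).mp hg
  set y : ℤ_[q] := ⟨x, hx⟩
  have hxy : x = algebraMap ℤ_[q] ℚ_[q] y := rfl
  have hinj : Function.Injective (algebraMap ℤ_[q] ℚ_[q]) := Subtype.val_injective
  rw [hxy, ← iter_map] at hper ⊢
  rw [H G y n hn (hinj hper)]

lemma exists_root (hodd : Odd q) (m : ℕ) (hm0 : 0 < m) (hm : m.Coprime (q * (q - 1))) :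
    ∃ z : ℚ_[q], z ^ m = 2 := by
  have hq1 := hq.out.one_lt
  have hq2 : q ≠ 2 := by rintro rfl; exact absurd hodd (by decide)
  have hmq : m.Coprime q := Nat.Coprime.coprime_mul_right_right hm
  have hm1 : m.Coprime (q - 1) := Nat.Coprime.coprime_mul_left_right hm
  obtain ⟨k, hk⟩ : ∃ k : ℕ, (k * m) % (q - 1) = 1 % (q - 1) := by
    by_cases h : q - 1 = 1
    · exact ⟨0, by rw [h]; simp⟩
    · obtain ⟨k, -, hk⟩ := Nat.exists_mul_mod_eq_one_of_coprime hm1 (by omega)
      exact ⟨k, by rw [mul_comm, hk, Nat.mod_eq_of_lt (by omega)]⟩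
  have h2 : (2 : ZMod q) ≠ 0 := by
    intro h
    have : ((2 : ℕ) : ZMod q) = 0 := by exact_mod_cast h
    rw [ZMod.natCast_eq_zero_iff] at this
    exact hq2 ((Nat.prime_dvd_prime_iff_eq hq.out Nat.prime_two).mp this)
  have hz : (2 : ZMod q) ^ (k * m) = 2 := by
    have h3 : ∀ j : ℕ, (2 : ZMod q) ^ j = 2 ^ (j % (q - 1)) := by
      intro j
      conv_lhs => rw [← Nat.div_add_mod j (q - 1), pow_add, pow_mul,
        ZMod.pow_card_sub_one_eq_one h2, one_pow, one_mul]
    rw [h3, hk, ← h3, pow_one]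
  have hdv : (q : ℤ) ∣ 2 ^ (k * m) - 2 := by
    rw [← ZMod.intCast_zmod_eq_zero_iff_dvd]
    push_cast
    rw [hz, sub_self]
  have hn : ‖(X ^ m - C 2 : ℤ[X]).aeval ((2 : ℤ_[q]) ^ k)‖ <
      ‖(X ^ m - C 2 : ℤ[X]).derivative.aeval ((2 : ℤ_[q]) ^ k)‖ ^ 2 := by
    have e1 : (X ^ m - C 2 : ℤ[X]).aeval ((2 : ℤ_[q]) ^ k) = ((2 ^ (k * m) - 2 : ℤ) : ℤ_[q]) := by
      rw [map_sub, aeval_C, map_pow, aeval_X]
      simp [pow_mul]
    have e2 : (X ^ m - C 2 : ℤ[X]).derivative.aeval ((2 : ℤ_[q]) ^ k) =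
        ((m * 2 ^ (k * (m - 1)) : ℕ) : ℤ) := by
      simp [derivative_X_pow, pow_mul]
    have e3 : ‖((((m * 2 ^ (k * (m - 1)) : ℕ) : ℤ)) : ℤ_[q])‖ = 1 := by
      apply le_antisymm (PadicInt.norm_le_one _)
      by_contra h
      push Not at h
      rw [PadicInt.norm_int_lt_one_iff_dvd, Int.natCast_dvd_natCast] at h
      rcases (Nat.Prime.dvd_mul hq.out).mp h with h | h
      · exact (Nat.Prime.coprime_iff_not_dvd hq.out).mp hmq.symm h
      · exact hq2 ((Nat.prime_dvd_prime_iff_eq hq.out Nat.prime_two).mp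
          (hq.out.dvd_of_dvd_pow h))
    rw [e1, e2, e3, one_pow, PadicInt.norm_int_lt_one_iff_dvd]
    exact hdv
  obtain ⟨z, hz, -⟩ := hensels_lemma hn
  refine ⟨(z : ℚ_[q]), ?_⟩
  have : z ^ m = 2 := by
    rw [map_sub, aeval_C, map_pow, aeval_X] at hz
    simp at hz
    linear_combination hz
  have h5 := congrArg (algebraMap ℤ_[q] ℚ_[q]) this
  rw [map_pow, map_ofNat] at h5
  exact h5

end padic

lemma arch_grow (g : ℂ[X]) (hd : 2 ≤ g.natDegree) :
    ∃ R : ℝ, ∀ z : ℂ, R < ‖z‖ → ‖z‖ < ‖g.eval z‖ := by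
  have h1 : 0 < g.divX.degree := by
    rw [← natDegree_pos_iff_degree_pos, natDegree_divX_eq_natDegree_tsub_one]; omega
  have h2 := g.divX.tendsto_norm_atTop h1 (l := Filter.comap (fun z : ℂ => ‖z‖) Filter.atTop)
    (z := fun z => z) Filter.tendsto_comap
  have h3 := h2.eventually (Filter.eventually_ge_atTop 2)
  rw [Filter.eventually_comap, Filter.eventually_atTop] at h3
  obtain ⟨R, hR⟩ := h3
  refine ⟨max R ‖g.coeff 0‖, fun z hz => ?_⟩
  have h4 := hR ‖z‖ ((le_max_left _ _).trans hz.le) z rfl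
  have h5 : g.eval z = g.divX.eval z * z + g.coeff 0 := by
    conv_lhs => rw [← divX_mul_X_add g]
    simp
  have h6 : ‖g.coeff 0‖ < ‖z‖ := (le_max_right _ _).trans_lt hz
  have h7 : ‖g.divX.eval z * z‖ ≤ ‖g.eval z‖ + ‖g.coeff 0‖ := by
    have : g.divX.eval z * z = g.eval z - g.coeff 0 := by rw [h5]; ring
    rw [this]; exact norm_sub_le _ _
  rw [norm_mul] at h7
  nlinarith [norm_nonneg z]

lemma chain_periodic {K : Type*} [Field K] [NumberField K] (f : K[X]) (hd : 2 ≤ f.natDegree)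
    (x : ℕ → K) (hx : ∀ k, f.eval (x (k + 1)) = x k) :
    ∃ n, 0 < n ∧ (fun a => f.eval a)^[n] (x 0) = x 0 := by
  classical
  have hf0 : f ≠ 0 := by rintro rfl; simp at hd
  have hc : f.leadingCoeff ≠ 0 := leadingCoeff_ne_zero.mpr hf0
  set g := f * C f.leadingCoeff⁻¹ with hg
  have hgm : g.Monic := monic_mul_leadingCoeff_inv hf0
  have hgd : g.natDegree = f.natDegree := natDegree_mul_leadingCoeff_inv _ hf0
  have : Algebra.IsAlgebraic ℤ K :=
    (IsFractionRing.comap_isAlgebraic_iff (A := ℤ) (K := ℚ) (C := K)).mpr inferInstance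
  obtain ⟨D, hD0, hD⟩ := Algebra.IsAlgebraic.exists_integral_multiples ℤ
    (insert (x 0) (insert f.leadingCoeff⁻¹ ((range (f.natDegree + 1)).image g.coeff)))
  have hDi : IsIntegral ℤ (D : K) := by
    have := isIntegral_algebraMap (R := ℤ) (A := K) (x := D)
    simpa using this
  have hint : ∀ k, IsIntegral ℤ ((D : K) * x k) := by
    intro k
    induction k with
    | zero => simpa [zsmul_eq_mul] using hD (x 0) (by simp)
    | succ k ih =>
      refine IsIntegral.of_aeval_monic_of_isIntegral_coeff (p := g.scaleRoots (D : K))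
        ((monic_scaleRoots_iff _).mpr hgm) (by rw [natDegree_scaleRoots, hgd]; omega) ?_ ?_
      · rw [scaleRoots_eval_mul, hgd, hg, eval_mul, eval_C, hx]
        obtain ⟨e, he⟩ : ∃ e, f.natDegree = e + 2 := ⟨f.natDegree - 2, by omega⟩
        have h1 : IsIntegral ℤ ((D : K) * f.leadingCoeff⁻¹) := by
          simpa [zsmul_eq_mul] using hD f.leadingCoeff⁻¹ (by simp)
        have := ((hDi.pow e).mul ih).mul h1
        convert this using 1
        rw [he]; ring
      · intro i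
        rw [coeff_scaleRoots]
        rcases lt_trichotomy i g.natDegree with hi | hi | hi
        · obtain ⟨e, he⟩ : ∃ e, g.natDegree - i = e + 1 := ⟨g.natDegree - i - 1, by omega⟩
          have h1 : IsIntegral ℤ ((D : K) * g.coeff i) := by
            have := hD (g.coeff i) (by
              simp only [mem_insert, mem_image, mem_range]
              right; right; exact ⟨i, by omega, rfl⟩)
            simpa [zsmul_eq_mul] using this
          have := h1.mul (hDi.pow e)
          convert this using 1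
          rw [he]; ring
        · rw [hi, hgm.coeff_natDegree]; simpa using isIntegral_one
        · rw [coeff_eq_zero_of_natDegree_lt hi]; simpa using isIntegral_zero
  have harch : ∀ φ : K →+* ℂ, ∃ B : ℝ, ∀ k, ‖φ ((D : K) * x k)‖ ≤ B := by
    intro φ
    obtain ⟨R, hR⟩ := arch_grow (f.map φ) (by rwa [natDegree_map])
    refine ⟨‖φ D‖ * max R ‖φ (x 0)‖, fun k => ?_⟩
    rw [map_mul, norm_mul]
    gcongr
    induction k with
    | zero => exact le_max_right _ _
    | succ k ih =>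
      by_contra h
      push Not at h
      have h1 := hR _ ((le_max_left _ _).trans_lt h)
      rw [eval_map, eval₂_at_apply, hx] at h1
      linarith
  choose B hB using harch
  obtain ⟨B0, hB0⟩ := (Set.finite_range B).bddAbove
  have hfin := NumberField.Embeddings.finite_of_norm_le K ℂ B0
  have hmaps : ∀ k, (D : K) * x k ∈ {x : K | IsIntegral ℤ x ∧ ∀ φ : K →+* ℂ, ‖φ x‖ ≤ B0} :=
    fun k => ⟨hint k, fun φ => (hB φ k).trans (hB0 ⟨φ, rfl⟩)⟩
  obtain ⟨i, j, hij, he⟩ := Set.Finite.exists_lt_map_eq_of_forall_mem hmaps hfin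
  have hD' : (D : K) ≠ 0 := by exact_mod_cast hD0
  have he' : x i = x j := mul_left_cancel₀ hD' he
  have hit : ∀ a b, (fun t => f.eval t)^[a] (x (b + a)) = x b := by
    intro a
    induction a with
    | zero => simp
    | succ a ih =>
      intro b
      rw [Function.iterate_succ_apply, ← add_assoc]
      simp only [hx]
      exact ih b
  refine ⟨j - i, by omega, ?_⟩
  have h1 := hit i 0
  have h2 := hit j 0
  rw [zero_add] at h1 h2
  have h3 : j = (j - i) + i := by omega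
  rw [h3, Function.iterate_add_apply, ← h3, ← he', h1] at h2
  exact h2

end Pool.Agent.H15.NP
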