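import Mathlib
import Pool.Agent.H15.NP2

set_option autoImplicit false

namespace Pool.Agent.H15.NP

open Polynomial Finset IntermediateField

lemma step (m q : ℕ) (hm : Odd m) : ∃ p q' : ℕ, p.Prime ∧ q < p ∧ 2 < p ∧ q'.Prime ∧ p < q' ∧
    (m * p).Coprime (q' * (q' - 1)) := by
  obtain ⟨p, hp1, hp⟩ := Nat.exists_infinite_primes (max q 2 + 1)
  have hp2 : 2 < p := by have := le_max_right q 2; omega
  have hq : q < p := by have := le_max_left q 2; omega
  have hodd : Odd (m * p) := hm.mul (hp.odd_of_ne_two (by omega))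
  have hpos : 0 < m * p := hodd.pos
  obtain ⟨r, hr1, hr, hr2⟩ := Nat.forall_exists_prime_gt_and_zmodEq (m * p) (q := m * p) (a := -1)
    hpos.ne' (isCoprime_one_left.neg_left)
  have hmp : p ≤ m * p := Nat.le_mul_of_pos_left _ hm.pos
  refine ⟨p, r, hp, hq, hp2, hr, by omega, Nat.Coprime.mul_right ?_ ?_⟩
  · exact (Nat.coprime_of_lt_prime hpos.ne' hr1 hr).symm
  · have h1 : ((m * p : ℕ) : ℤ) ∣ (r : ℤ) + 1 := by
      have := hr2.symm.dvd
      simpa using this
    have h2 : m * p ∣ r + 1 := by exact_mod_cast h1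
    have h3 : Nat.gcd (m * p) (r - 1) ∣ 2 := by
      have h4 : Nat.gcd (m * p) (r - 1) ∣ r + 1 := (Nat.gcd_dvd_left _ _).trans h2
      have h5 := Nat.gcd_dvd_right (m * p) (r - 1)
      have h6 : r + 1 = (r - 1) + 2 := by have := hr.one_lt; omega
      rw [h6] at h4
      exact (Nat.dvd_add_right h5).mp h4
    rcases (Nat.dvd_prime Nat.prime_two).mp h3 with h | h
    · exact h
    · exfalso
      have : 2 ∣ m * p := h ▸ Nat.gcd_dvd_left _ _
      exact (Nat.not_even_iff_odd.mpr hodd) (even_iff_two_dvd.mpr this)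

lemma exists_seq : ∃ p q : ℕ → ℕ, (∀ n, (p n).Prime ∧ 2 < p n ∧ n < p n) ∧
    (∀ n, (q n).Prime ∧ n < q n ∧ 2 < q n) ∧
    ∀ j n, (∏ i ∈ range n, p i).Coprime (q j * (q j - 1)) := by
  choose P Q hP hqP h2P hQ hPQ hco using step
  let nx : {x : ℕ × ℕ // Odd x.1} → {x : ℕ × ℕ // Odd x.1} := fun x =>
    ⟨(x.1.1 * P x.1.1 x.1.2 x.2, Q x.1.1 x.1.2 x.2),
      x.2.mul ((hP _ _ _).odd_of_ne_two (h2P _ _ _).ne')⟩
  let s : ℕ → {x : ℕ × ℕ // Odd x.1} := fun n => nx^[n] ⟨(1, 0), odd_one⟩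
  have hs : ∀ n, s (n + 1) = nx (s n) := fun n => Function.iterate_succ_apply' _ _ _
  let p : ℕ → ℕ := fun n => P (s n).1.1 (s n).1.2 (s n).2
  let q : ℕ → ℕ := fun n => Q (s n).1.1 (s n).1.2 (s n).2
  have h1 : ∀ n, (s (n + 1)).1.1 = (s n).1.1 * p n := fun n => by rw [hs]
  have h2 : ∀ n, (s (n + 1)).1.2 = q n := fun n => by rw [hs]
  have h3 : ∀ n, (s n).1.2 < p n := fun n => hqP _ _ _
  have h4 : ∀ n, p n < q n := fun n => hPQ _ _ _
  have hmono : StrictMono fun n => (s n).1.2 :=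
    strictMono_nat_of_lt_succ fun n => by
      show (s n).1.2 < (s (n + 1)).1.2
      rw [h2]; exact (h3 n).trans (h4 n)
  have h5 : ∀ n, n ≤ (s n).1.2 := fun n => hmono.id_le n
  have h6 : ∀ n, (s n).1.1 = ∏ i ∈ range n, p i := by
    intro n
    induction n with
    | zero => rfl
    | succ n ih => rw [h1, ih, prod_range_succ]
  have hp : ∀ n, (p n).Prime := fun n => hP _ _ _
  have hq : ∀ n, (q n).Prime := fun n => hQ _ _ _
  refine ⟨p, q, fun n => ⟨hp n, h2P _ _ _, (h5 n).trans_lt (h3 n)⟩,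
    fun n => ⟨hq n, ((h5 n).trans_lt (h3 n)).trans (h4 n), (h2P _ _ _).trans (h4 n)⟩, ?_⟩
  intro j n
  apply Nat.Coprime.prod_left
  intro i _
  rcases le_or_gt i j with hij | hij
  · have h7 : (s (j + 1)).1.1.Coprime (q j * (q j - 1)) := by
      rw [h1]; exact hco _ _ _
    rw [h6] at h7
    exact Nat.Coprime.coprime_dvd_left (dvd_prod_of_mem _ (mem_range.mpr (by omega))) h7
  · have h7 : q j < p i := by
      have := hmono.monotone (show j + 1 ≤ i by omega)
      simp only [h2] at this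
      exact this.trans_lt (h3 i)
    have h8 := (hq j).one_lt
    exact Nat.Coprime.mul_right (Nat.coprime_of_lt_prime (by omega) h7 (hp i))
      (Nat.coprime_of_lt_prime (by omega) (by omega) (hp i))

abbrev Qb := AlgebraicClosure ℚ

lemma isInt (a : Qb) : IsIntegral ℚ a := by
  have h := ((AlgebraicClosure.isAlgebraic ℚ).isAlgebraic a).isIntegral
  convert h
  · rfl
  · exact Subsingleton.elim _ _

lemma minpoly_rad (m : ℕ) (hm : Odd m) (a : Qb) (ha : a ^ m = 2) :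
    minpoly ℚ a = X ^ m - C 2 := by
  symm
  apply minpoly.eq_of_irreducible_of_monic
  · apply X_pow_sub_C_irreducible_of_odd hm
    intro p hp _ b hb
    have hb0 : b ≠ 0 := by
      rintro rfl
      rw [zero_pow hp.ne_zero] at hb
      norm_num at hb
    have h1 := congrArg (padicValRat 2) hb
    rw [padicValRat.pow] at h1
    have h2 : padicValRat 2 (2 : ℚ) = 1 := by
      have := padicValRat.self (p := 2) (by norm_num)
      simpa using this
    rw [h2] at h1
    have h3 : (p : ℤ) ∣ 1 := ⟨_, h1.symm⟩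
    have h4 : p ∣ 1 := by exact_mod_cast h3
    exact hp.one_lt.ne' (Nat.dvd_one.mp h4)
  · rw [map_sub, aeval_C, map_pow, aeval_X, ha]; simp
  · exact monic_X_pow_sub_C _ hm.pos.ne'

lemma finrank_rad (m : ℕ) (hm : Odd m) (a : Qb) (ha : a ^ m = 2) :
    Module.finrank ℚ ℚ⟮a⟯ = m := by
  rw [adjoin.finrank (isInt a), minpoly_rad m hm a ha,
    natDegree_X_pow_sub_C]

lemma exists_emb (m : ℕ) (hm : Odd m) (a : Qb) (ha : a ^ m = 2) {q : ℕ} [Fact q.Prime]
    (hodd : Odd q) (hco : m.Coprime (q * (q - 1))) : Nonempty (ℚ⟮a⟯ →+* ℚ_[q]) := by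
  obtain ⟨z, hz⟩ := exists_root hodd m hm.pos hco
  refine ⟨((algHomAdjoinIntegralEquiv ℚ (K := ℚ_[q])
    (isInt a)).symm ⟨z, ?_⟩).toRingHom⟩
  rw [mem_aroots, minpoly_rad m hm a ha]
  refine ⟨(monic_X_pow_sub_C _ hm.pos.ne').ne_zero, ?_⟩
  rw [map_sub, aeval_C, map_pow, aeval_X, hz]; simp

lemma lift_poly (E : IntermediateField ℚ Qb) (f : Qb[X]) (hf : ∀ i, f.coeff i ∈ E) :
    ∃ g : E[X], g.map (algebraMap E Qb) = f := by
  rw [← mem_lifts, lifts_iff_coeff_lifts]
  exact fun i => ⟨⟨f.coeff i, hf i⟩, rfl⟩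

lemma descent (E E' : IntermediateField ℚ Qb) (hle : E ≤ E') (m p : ℕ) (hm : 0 < m) (hp : p.Prime)
    (hE : Module.finrank ℚ E = m) (hE' : Module.finrank ℚ E' = m * p) (f : Qb[X])
    (hf : ∀ i, f.coeff i ∈ E) (hf0 : f ≠ 0) (hd : f.natDegree < p) (y : Qb) (hy : y ∈ E')
    (hr : f.eval y = 0) : y ∈ E := by
  obtain ⟨g, rfl⟩ := lift_poly E f hf
  have hg0 : g ≠ 0 := by rintro rfl; simp at hf0
  have hint : IsIntegral E y := (isInt y).tower_top
  have h1 : (minpoly E y).natDegree ≤ g.natDegree :=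
    natDegree_le_of_dvd (minpoly.dvd E y (by rwa [aeval_def, ← eval_map])) hg0
  rw [natDegree_map] at hd
  have h2 : Module.finrank E E⟮y⟯ < p := by rw [adjoin.finrank hint]; omega
  have h3 : (E⟮y⟯).restrictScalars ℚ ≤ E' := by
    have : E⟮y⟯ ≤ extendScalars hle := by
      rw [adjoin_simple_le_iff]; exact hy
    intro t ht
    exact this ht
  have h4 := finrank_dvd_of_le_right h3
  have h5 : Module.finrank ℚ ((E⟮y⟯).restrictScalars ℚ) = m * Module.finrank E E⟮y⟯ := by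
    rw [← hE]
    exact (Module.finrank_mul_finrank ℚ E E⟮y⟯).symm
  rw [h5, hE', mul_dvd_mul_iff_left hm.ne'] at h4
  rcases (Nat.dvd_prime hp).mp h4 with h | h
  · rw [finrank_adjoin_simple_eq_one_iff, IntermediateField.mem_bot] at h
    obtain ⟨t, rfl⟩ := h
    exact t.2
  · omega

end Pool.Agent.H15.NP
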