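import Mathlib
import Pool.Agent.H15.NP3

set_option autoImplicit false

namespace Pool.Agent.H15.NP

open Polynomial Finset IntermediateField

lemma norm_le_of_mul {q : ℕ} [Fact q.Prime] {E : Type*} [Field E] (j : E →+* Qb) (ι : E →+* ℚ_[q])
    (D : ℤ) (hD : ¬ (q : ℤ) ∣ D) (c : E) (hc : IsIntegral ℤ (D • j c)) : ‖ι c‖ ≤ 1 := by
  have h1 : IsIntegral ℤ (D • c) := by
    have hinj : Function.Injective j.toIntAlgHom := j.injective
    rw [← isIntegral_algHom_iff _ hinj]
    have h0 : j.toIntAlgHom (D • c) = (D : Qb) * j c := by simp [zsmul_eq_mul]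
    rw [h0]
    rw [zsmul_eq_mul] at hc
    convert hc
    exact Subsingleton.elim _ _
  have h2 := norm_le_one_of_int (h1.map ι.toIntAlgHom)
  have h3 : ‖(D : ℚ_[q])‖ = 1 := by
    apply le_antisymm (Padic.norm_int_le_one D)
    by_contra h
    push Not at h
    exact hD (Padic.norm_intCast_lt_one_iff.mp h)
  simpa [zsmul_eq_mul, h3] using h2

theorem tower : ∃ (α : ℕ → Qb) (m : ℕ → ℕ), (∀ n, n ≤ m n ∧ 0 < m n ∧ α n ^ m n = 2) ∧
    Monotone (fun n => ℚ⟮α n⟯) ∧ ∀ (f : Qb[X]) (n0 : ℕ), (∀ i, f.coeff i ∈ ℚ⟮α n0⟯) →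
      2 ≤ f.natDegree → ∀ S : Set Qb, (∀ x ∈ S, ∃ n, x ∈ ℚ⟮α n⟯) →
      (∀ x ∈ S, ∃ y ∈ S, f.eval y = x) → S.Finite := by
  classical
  obtain ⟨p, q, hp, hq, hco⟩ := exists_seq
  have hroot : ∀ (n : ℕ) (a : Qb), ∃ b : Qb, b ^ p n = a := fun n a =>
    IsAlgClosed.exists_pow_nat_eq a (hp n).1.pos
  choose rt hrt using hroot
  obtain ⟨α, hα0, hα⟩ : ∃ α : ℕ → Qb, α 0 = 2 ∧ ∀ n, α (n + 1) ^ p n = α n :=
    ⟨fun n => Nat.rec 2 (fun k a => rt k a) n, rfl, fun n => hrt n _⟩
  obtain ⟨m, hm0, hm, hco'⟩ : ∃ m : ℕ → ℕ, m 0 = 1 ∧ (∀ n, m (n + 1) = m n * p n) ∧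
      ∀ j n, (m n).Coprime (q j * (q j - 1)) :=
    ⟨fun n => ∏ i ∈ range n, p i, rfl, fun n => prod_range_succ _ _, hco⟩
  have hmo : ∀ n, Odd (m n) := by
    intro n
    induction n with
    | zero => rw [hm0]; exact odd_one
    | succ n ih => rw [hm]; exact ih.mul ((hp n).1.odd_of_ne_two (hp n).2.1.ne')
  have hα2 : ∀ n, α n ^ m n = 2 := by
    intro n
    induction n with
    | zero => rw [hm0, hα0, pow_one]
    | succ n ih => rw [hm, mul_comm, pow_mul, hα, ih]
  have hmono : Monotone (fun n => ℚ⟮α n⟯) := by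
    apply monotone_nat_of_le_succ
    intro n
    rw [adjoin_simple_le_iff, ← hα n]
    exact pow_mem (mem_adjoin_simple_self ℚ (α (n + 1))) _
  have hmn : ∀ {a b : ℕ}, a ≤ b → ℚ⟮α a⟯ ≤ ℚ⟮α b⟯ := fun h => hmono h
  refine ⟨α, m, fun n => ⟨?_, (hmo n).pos, hα2 n⟩, hmono, ?_⟩
  · cases n with
    | zero => exact Nat.zero_le _
    | succ n =>
      rw [hm]
      have := Nat.le_mul_of_pos_left (p n) (hmo n).pos
      have := (hp n).2.2
      omega
  intro f n0 hf hd S hS hsurj
  have hf0 : f ≠ 0 := by rintro rfl; simp at hd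
  have : Algebra.IsAlgebraic ℚ Qb := ⟨fun a => (isInt a).isAlgebraic⟩
  have : Algebra.IsAlgebraic ℤ Qb :=
    (IsFractionRing.comap_isAlgebraic_iff (A := ℤ) (K := ℚ) (C := Qb)).mpr inferInstance
  obtain ⟨D, hD0, hD⟩ := Algebra.IsAlgebraic.exists_integral_multiples ℤ
    (insert f.leadingCoeff⁻¹ ((range (f.natDegree + 1)).image f.coeff))
  obtain ⟨hr, hrD, hr2⟩ := hq D.natAbs
  set r := q D.natAbs with hrdef
  have : Fact r.Prime := ⟨hr⟩
  have hrodd : Odd r := hr.odd_of_ne_two hr2.ne'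
  have hnd : ¬ (r : ℤ) ∣ D := by
    intro h
    rw [Int.natCast_dvd] at h
    have := Nat.le_of_dvd (Int.natAbs_pos.mpr hD0) h
    omega
  obtain ⟨N, hN, HN⟩ := exists_NQ hrodd
  have key : ∀ x ∈ S, (fun a => f.eval a)^[N] x = x := by
    intro x hx
    obtain ⟨n1, hn1⟩ := hS x hx
    set n := max n0 (max n1 f.natDegree) with hn
    have h0 : n0 ≤ n := le_max_left _ _
    have h1 : n1 ≤ n := (le_max_left _ _).trans (le_max_right _ _)
    have h2 : f.natDegree ≤ n := (le_max_right _ _).trans (le_max_right _ _)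
    have hdesc : ∀ z y : Qb, z ∈ ℚ⟮α n⟯ → f.eval y = z → ∀ j, y ∈ ℚ⟮α (n + j)⟯ → y ∈ ℚ⟮α n⟯ := by
      intro z y hz hy j
      induction j with
      | zero => exact id
      | succ j ih =>
        intro hyj
        apply ih
        have hdeg : (f - C z).natDegree = f.natDegree := natDegree_sub_C
        refine descent ℚ⟮α (n + j)⟯ ℚ⟮α (n + j + 1)⟯ (hmn (Nat.le_succ _)) (m (n + j)) (p (n + j))
          (hmo _).pos (hp _).1 (finrank_rad _ (hmo _) _ (hα2 _)) ?_ (f - C z) ?_ ?_ ?_ y hyj ?_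
        · rw [← hm]; exact finrank_rad _ (hmo _) _ (hα2 _)
        · intro i
          rw [coeff_sub, coeff_C]
          refine sub_mem (hmn (show n0 ≤ n + j by omega) (hf i)) ?_
          split_ifs
          · exact hmn (show n ≤ n + j by omega) hz
          · exact zero_mem _
        · intro h; rw [h] at hdeg; simp at hdeg; omega
        · rw [hdeg]; have := (hp (n + j)).2.2; omega
        · simp [hy]
    choose! nx hnx using hsurj
    have hch : ∀ k, nx^[k] x ∈ S ∧ nx^[k] x ∈ ℚ⟮α n⟯ := by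
      intro k
      induction k with
      | zero => exact ⟨hx, hmn h1 hn1⟩
      | succ k ih =>
        rw [Function.iterate_succ_apply']
        obtain ⟨ha, hb⟩ := hnx _ ih.1
        obtain ⟨n2, hn2⟩ := hS _ ha
        exact ⟨ha, hdesc _ _ ih.2 hb n2 (hmn (show n2 ≤ n + n2 by omega) hn2)⟩
    obtain ⟨g, hg⟩ := lift_poly ℚ⟮α n⟯ f fun i => hmn h0 (hf i)
    have hgd : g.natDegree = f.natDegree := by rw [← hg, natDegree_map]
    have : FiniteDimensional ℚ ℚ⟮α n⟯ := adjoin.finiteDimensional (isInt _)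
    have : NumberField ℚ⟮α n⟯ := {}
    have hinj : Function.Injective (algebraMap ℚ⟮α n⟯ Qb) := Subtype.val_injective
    obtain ⟨k, hk, hper⟩ := chain_periodic g (by omega) (fun k => ⟨nx^[k] x, (hch k).2⟩) (by
      intro k
      apply hinj
      rw [← eval₂_at_apply, ← eval_map, hg]
      show f.eval (nx^[k + 1] x) = nx^[k] x
      rw [Function.iterate_succ_apply']
      exact (hnx _ (hch k).1).2)
    obtain ⟨ι⟩ := exists_emb (m n) (hmo n) (α n) (hα2 n) hrodd (hco' _ _)
    have hcoef : ∀ i, algebraMap ℚ⟮α n⟯ Qb (g.coeff i) = f.coeff i := by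
      intro i; rw [← hg, coeff_map]
    have hc1 : ∀ i, ‖(g.map ι).coeff i‖ ≤ 1 := by
      intro i
      rw [coeff_map]
      apply norm_le_of_mul (algebraMap ℚ⟮α n⟯ Qb) ι D hnd
      rw [hcoef]
      by_cases hi : i ≤ f.natDegree
      · exact hD _ (by
          simp only [mem_insert, mem_image, mem_range]
          right; exact ⟨i, by omega, rfl⟩)
      · rw [coeff_eq_zero_of_natDegree_lt (by omega)]; simpa using isIntegral_zero
    have hg0 : g ≠ 0 := by rintro rfl; simp at hgd; omega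
    have hl : ‖(g.map ι).leadingCoeff‖ = 1 := by
      refine le_antisymm (hc1 _) ?_
      rw [leadingCoeff_map]
      have hl0 : g.leadingCoeff ≠ 0 := leadingCoeff_ne_zero.mpr hg0
      have h3 : ‖ι g.leadingCoeff⁻¹‖ ≤ 1 := by
        apply norm_le_of_mul (algebraMap ℚ⟮α n⟯ Qb) ι D hnd
        have : algebraMap ℚ⟮α n⟯ Qb g.leadingCoeff⁻¹ = f.leadingCoeff⁻¹ := by
          rw [map_inv₀, leadingCoeff, hcoef, hgd]; rfl
        rw [this]
        exact hD _ (by simp)
      rw [map_inv₀, norm_inv] at h3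
      have h4 : 0 < ‖ι g.leadingCoeff‖ := norm_pos_iff.mpr ((map_ne_zero ι).mpr hl0)
      exact (inv_le_one₀ h4).mp h3
    have h5 := HN (g.map ι) (by rw [natDegree_map]; omega) hc1 hl
      (ι ⟨nx^[0] x, (hch 0).2⟩) k hk (by rw [← iter_map, hper])
    rw [← iter_map] at h5
    have h6 := congrArg (algebraMap ℚ⟮α n⟯ Qb) (ι.injective h5)
    rw [iter_map, hg] at h6
    exact h6
  have hne : It f N - X ≠ 0 := by
    intro h
    have h1 : It f N = X := sub_eq_zero.mp h
    have h2 := congrArg natDegree h1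
    unfold It at h2
    rw [natDegree_iterate_comp, natDegree_X, mul_one] at h2
    have := Nat.one_lt_pow hN.ne' (show 1 < f.natDegree by omega)
    omega
  refine (It f N - X).roots.toFinset.finite_toSet.subset fun x hx => ?_
  simp only [mem_coe, Multiset.mem_toFinset, mem_roots hne, IsRoot.def, eval_sub, eval_X, It_eval]
  rw [key x hx, sub_self]

lemma height_rad (β : Qb) (m : ℕ) (hm : 0 < m) (e : ℕ) (h : β ^ m = 2 ^ e) :
    NumberField.absLogHeight₁ β = e * Real.log 2 / m := by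
  unfold NumberField.absLogHeight₁ NumberField.absMulHeight₁
  rw [dif_pos (isInt β)]
  have : FiniteDimensional ℚ ℚ⟮β⟯ := adjoin.finiteDimensional (isInt _)
  have : NumberField ℚ⟮β⟯ := {}
  have h2 : Height.mulHeight₁ (2 : ℚ⟮β⟯) = 2 ^ Module.finrank ℚ ℚ⟮β⟯ := by
    rw [NumberField.mulHeight₁_eq, ← NumberField.InfinitePlace.sum_mult_eq,
      ← prod_pow_eq_pow_sum]
    have e1 : ∀ v : NumberField.FinitePlace ℚ⟮β⟯, max (v 2) 1 = 1 := by
      intro v
      apply max_eq_right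
      have := NumberField.FinitePlace.add_le v 1 1
      rw [one_add_one_eq_two] at this
      simpa using this
    have e2 : ∀ v : NumberField.InfinitePlace ℚ⟮β⟯, max (v 2) 1 = 2 := by
      intro v
      have : v 2 = 2 := by
        have := NumberField.InfinitePlace.map_natCast v 2
        simpa using this
      rw [this]; norm_num
    simp [e1, e2]
  have h3 : (AdjoinSimple.gen ℚ β) ^ m = 2 ^ e := by
    apply (algebraMap ℚ⟮β⟯ Qb).injective
    rw [map_pow, map_pow, map_ofNat, AdjoinSimple.algebraMap_gen]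
    exact h
  have h4 := congrArg Height.logHeight₁ h3
  rw [Height.logHeight₁_pow, Height.logHeight₁_pow, Height.logHeight₁_eq_log_mulHeight₁,
    Height.logHeight₁_eq_log_mulHeight₁, h2, Real.log_pow] at h4
  rw [Real.log_rpow (Height.mulHeight₁_pos _)]
  have h5 : (0 : ℝ) < Module.finrank ℚ ℚ⟮β⟯ := by exact_mod_cast Module.finrank_pos
  have h6 : (0 : ℝ) < m := by exact_mod_cast hm
  field_simp
  linear_combination h4

end Pool.Agent.H15.NP
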