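import Mathlib

set_option autoImplicit false

open Finset

namespace Pool.Agent.H15.NS1

theorem konig {V : Type} [Fintype V] [DecidableEq V] (rel : V → V → Prop) (n : ℕ)
    (h : ¬ ∃ a b : Fin n → V, Function.Injective a ∧ Function.Injective b ∧
      ∀ i, rel (a i) (b i)) :
    ∃ A B : Finset V, A.card + B.card < n ∧ ∀ l r, rel l r → l ∈ A ∨ r ∈ B := by
  classical
  by_cases hn : Fintype.card V < n
  · exact ⟨univ, ∅, by simpa using hn, fun l r _ => Or.inl (mem_univ _)⟩
  push Not at hn
  obtain ⟨d, hd⟩ := Nat.exists_eq_add_of_le hn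
  let t : V → Finset (V ⊕ Fin d) := fun l => (univ.filter (rel l)).disjSum univ
  by_cases hall : ∀ s : Finset V, s.card ≤ (s.biUnion t).card
  · exfalso
    obtain ⟨f, hf, hft⟩ := (all_card_le_biUnion_card_iff_exists_injective t).1 hall
    let S : Finset V := univ.filter fun l => (f l).isLeft
    have h1 : (univ.filter fun l => ¬ (f l).isLeft).card ≤ d := by
      have : (univ.filter fun l => ¬ (f l).isLeft).card ≤
          ((univ : Finset (Fin d)).map Function.Embedding.inr : Finset (V ⊕ Fin d)).card := by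
        apply card_le_card_of_injOn f
        · intro l hl
          simp only [coe_filter, mem_univ, true_and, Set.mem_ofPred_eq] at hl
          cases hfl : f l with
          | inl v => simp [hfl] at hl
          | inr v => simp
        · exact hf.injOn
      simpa using this
    have h2 := card_filter_add_card_filter_not (s := (univ : Finset V)) (fun l => (f l).isLeft = true)
    have h3 : n ≤ S.card := by
      rw [card_univ] at h2
      simp only [S]
      omega
    obtain ⟨e⟩ : Nonempty (Fin n ↪ S) :=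
      Function.Embedding.nonempty_of_card_le (by simpa using h3)
    have h4 : ∀ i, ∃ v, f (e i) = Sum.inl v := by
      intro i
      have := (mem_filter.1 (e i).2).2
      exact Sum.isLeft_iff.1 this
    choose b hb using h4
    apply h
    refine ⟨fun i => e i, b, fun i j hij => e.injective (Subtype.ext hij), ?_, ?_⟩
    · intro i j hij
      apply e.injective
      apply Subtype.ext
      apply hf
      rw [hb, hb, hij]
    · intro i
      have := hft (e i)
      rw [hb] at this
      simpa [t] using this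
  · push Not at hall
    obtain ⟨s, hs⟩ := hall
    have hne : s.Nonempty := card_pos.1 (by omega)
    let N : Finset V := univ.filter fun r => ∃ l ∈ s, rel l r
    have h1 : N.disjSum (univ : Finset (Fin d)) ⊆ s.biUnion t := by
      intro z hz
      rw [mem_biUnion]
      cases z with
      | inl v =>
        simp only [inl_mem_disjSum, N, mem_filter, mem_univ, true_and] at hz
        obtain ⟨l, hl, hr⟩ := hz
        exact ⟨l, hl, by simpa [t] using hr⟩
      | inr v =>
        obtain ⟨l, hl⟩ := hne
        exact ⟨l, hl, by simp [t]⟩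
    have h2 := card_le_card h1
    rw [card_disjSum, card_univ, Fintype.card_fin] at h2
    have h3 := card_compl s
    have h4 := card_le_univ s
    refine ⟨sᶜ, N, by omega, fun l r hr => ?_⟩
    by_cases hl : l ∈ s
    · right
      simp only [N, mem_filter, mem_univ, true_and]
      exact ⟨l, hl, hr⟩
    · left
      simpa using hl

theorem mult {V T : Type} [DecidableEq V] [Fintype T] [DecidableEq T] (L P : Finset V)
    (A : T → Finset V) (hPL : P ⊆ L) (h1 : ∀ l ∈ L, ∃ k, l ∈ A k)
    (h2 : ∀ l ∈ P, ∃ k k', k ≠ k' ∧ l ∈ A k ∧ l ∈ A k') :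
    L.card + P.card ≤ ∑ k, (A k).card := by
  have e1 : ∑ l ∈ L, (univ.filter fun k => l ∈ A k).card = ∑ k, (L.filter fun l => l ∈ A k).card := by
    simp only [card_filter]
    exact sum_comm
  have e2 : ∑ k, (L.filter fun l => l ∈ A k).card ≤ ∑ k, (A k).card := by
    apply sum_le_sum
    intro k _
    apply card_le_card
    intro l hl
    exact (mem_filter.1 hl).2
  have e3 : L.card + P.card = ∑ l ∈ L, (1 + if l ∈ P then 1 else 0) := by
    rw [sum_add_distrib, ← card_filter, ← card_eq_sum_ones, filter_mem_eq_inter,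
      inter_eq_right.2 hPL]
  rw [e3]
  refine le_trans ?_ (e1.le.trans e2)
  apply sum_le_sum
  intro l hl
  split_ifs with hP
  · obtain ⟨k, k', hk, ha, hb⟩ := h2 l hP
    exact one_lt_card.2 ⟨k, by simpa using ha, k', by simpa using hb, hk⟩
  · obtain ⟨k, hk⟩ := h1 l hl
    exact card_pos.2 ⟨k, by simpa using hk⟩

theorem miss {V T : Type} [DecidableEq V] [Fintype T] (R : Finset V) (B : T → Finset V) :
    R.card ≤ (R \ univ.biUnion B).card + ∑ k, (B k).card :=
  le_trans card_le_card_sdiff_add_card (Nat.add_le_add_left card_biUnion_le _)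

theorem two {V T : Type} [DecidableEq V] (P Q : Finset V) (A B : T → Finset V) (c : V → V → T)
    (κ : ℕ) (hQ : κ < Q.card) (hB : ∀ k, (B k).card ≤ κ)
    (h : ∀ l ∈ P, ∀ r ∈ Q, l ∈ A (c l r) ∧ r ∈ B (c l r)) :
    ∀ l ∈ P, ∃ k k', k ≠ k' ∧ l ∈ A k ∧ l ∈ A k' := by
  intro l hl
  by_contra hc
  push Not at hc
  obtain ⟨r0, hr0⟩ : Q.Nonempty := card_pos.1 (by omega)
  have : Q ⊆ B (c l r0) := by
    intro r hr
    by_cases e : c l r = c l r0
    · rw [← e]
      exact (h l hl r hr).2
    · exact absurd (h l hl r0 hr0).1 (hc _ _ e (h l hl r hr).1)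
  have := card_le_card this
  have := hB (c l r0)
  omega

theorem core {V T : Type} [DecidableEq V] [Fintype T] [DecidableEq T] (L R : Finset V)
    (A B A' B' : T → Finset V) (c : V → V → T) (κ : ℕ)
    (hAB : ∀ k, (A k).card + (B k).card ≤ κ) (hAB' : ∀ k, (A' k).card + (B' k).card ≤ κ)
    (hL : ∀ l ∈ L, ∃ k, l ∈ A k) (hR : ∀ r ∈ R, ∃ k, r ∈ B' k)
    (h1 : ∀ l ∈ L, ∀ r ∈ R, l ∈ A (c l r) ∨ r ∈ B (c l r))
    (h2 : ∀ l ∈ L, ∀ r ∈ R, l ∈ A' (c l r) ∨ r ∈ B' (c l r)) :
    L.card + R.card ≤ Fintype.card T * κ + κ := by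
  by_contra hcon
  set P := L \ univ.biUnion A' with hP
  set Q := R \ univ.biUnion B with hQ
  have s1 : ∑ k, (A k).card + ∑ k, (B k).card ≤ Fintype.card T * κ := by
    rw [← sum_add_distrib]
    simpa using sum_le_card_nsmul univ _ κ (fun k _ => hAB k)
  have s2 : ∑ k, (A' k).card + ∑ k, (B' k).card ≤ Fintype.card T * κ := by
    rw [← sum_add_distrib]
    simpa using sum_le_card_nsmul univ _ κ (fun k _ => hAB' k)
  have m1 := miss R B
  have m2 := miss L A'
  rw [← hQ] at m1
  rw [← hP] at m2
  have a1 := mult L ∅ A (empty_subset _) hL (by simp)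
  have a2 := mult R ∅ B' (empty_subset _) hR (by simp)
  rw [card_empty] at a1 a2
  have key : ∀ l ∈ P, ∀ r ∈ Q, l ∈ A (c l r) ∧ r ∈ B' (c l r) := by
    intro l hl r hr
    simp only [hP, hQ, mem_sdiff, mem_biUnion, mem_univ, true_and, not_exists] at hl hr
    exact ⟨(h1 l hl.1 r hr.1).resolve_right (hr.2 _), (h2 l hl.1 r hr.1).resolve_left (hl.2 _)⟩
  have b1 := mult L P A sdiff_subset hL
    (two P Q A B' c κ (by omega) (fun k => by have := hAB' k; omega) key)
  have b2 := mult R Q B' sdiff_subset hR
    (two Q P B' A (fun r l => c l r) κ (by omega) (fun k => by have := hAB k; omega)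
      (fun r hr l hl => (key l hl r hr).symm))
  omega

theorem main (t κ m : ℕ) (hm : t * κ + κ + 2 ≤ m) (c : Fin m → Fin m → Fin t) :
    ∃ k : Fin t, ∃ a b : Fin (κ + 1) → Fin m, Function.Injective a ∧ Function.Injective b ∧
      (∀ i j, a i < b j) ∧ ∀ i, c (a i) (b i) = k := by
  by_contra hcon
  have hk : ∀ (x : ℕ) (k : Fin t), ∃ A B : Finset (Fin m), A.card + B.card < κ + 1 ∧
      ∀ l r : Fin m, (l.val < x ∧ x ≤ r.val ∧ c l r = k) → l ∈ A ∨ r ∈ B := by
    intro x k
    apply konig
    rintro ⟨a, b, ha, hb, h⟩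
    apply hcon
    refine ⟨k, a, b, ha, hb, fun i j => ?_, fun i => (h i).2.2⟩
    have := (h i).1
    have := (h j).2.1
    exact Fin.lt_def.2 (by omega)
  choose A B hAB hc using hk
  have hex : ∃ x, ¬ ∀ l : Fin m, l.val < x → ∃ k, l ∈ A x k := by
    refine ⟨m, fun h => ?_⟩
    have a1 := mult univ ∅ (A m) (empty_subset _) (fun l _ => h l l.2) (by simp)
    have a2 := sum_le_card_nsmul univ (fun k => (A m k).card) κ
      (fun k _ => by have := hAB m k; omega)
    simp at a1 a2
    omega
  classical
  have h1 := Nat.find_spec hex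
  obtain ⟨x, hx⟩ : ∃ x, Nat.find hex = x + 1 := by
    apply Nat.exists_eq_succ_of_ne_zero
    intro e
    rw [e] at h1
    exact h1 (fun l hl => absurd hl (Nat.not_lt_zero _))
  have h0 := Nat.find_min hex (m := x) (by omega)
  rw [hx] at h1
  push Not at h0 h1
  obtain ⟨l0, hl0, hl0'⟩ := h1
  have := core (univ.filter fun l : Fin m => l.val < x) (univ.filter fun r : Fin m => x + 1 ≤ r.val)
    (A x) (B x) (A (x + 1)) (B (x + 1)) c κ
    (fun k => by have := hAB x k; omega) (fun k => by have := hAB (x + 1) k; omega)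
    (fun l hl => h0 l (mem_filter.1 hl).2)
    (fun r hr => ⟨c l0 r, (hc (x + 1) _ l0 r ⟨hl0, (mem_filter.1 hr).2, rfl⟩).resolve_left (hl0' _)⟩)
    (fun l hl r hr => hc x _ l r
      ⟨(mem_filter.1 hl).2, by have := (mem_filter.1 hr).2; omega, rfl⟩)
    (fun l hl r hr => hc (x + 1) _ l r
      ⟨by have := (mem_filter.1 hl).2; omega, (mem_filter.1 hr).2, rfl⟩)
  have hsub : (univ : Finset (Fin m)) ⊆ (univ.filter fun l : Fin m => l.val < x) ∪
      (univ.filter fun r : Fin m => x + 1 ≤ r.val) ∪ (univ.filter fun r : Fin m => r.val = x) := by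
    intro v _
    simp only [mem_union, mem_filter, mem_univ, true_and]
    omega
  have c1 := card_le_card hsub
  have c2 := card_union_le ((univ.filter fun l : Fin m => l.val < x) ∪
      (univ.filter fun r : Fin m => x + 1 ≤ r.val)) (univ.filter fun r : Fin m => r.val = x)
  have c3 := card_union_le (univ.filter fun l : Fin m => l.val < x)
      (univ.filter fun r : Fin m => x + 1 ≤ r.val)
  have c4 : (univ.filter fun r : Fin m => r.val = x).card ≤ 1 := by
    apply card_le_one.2
    intro a ha b hb
    exact Fin.ext ((mem_filter.1 ha).2.trans (mem_filter.1 hb).2.symm)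
  simp only [card_univ, Fintype.card_fin] at c1 this
  omega

end Pool.Agent.H15.NS1
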