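import Mathlib

set_option autoImplicit false

namespace Pool.Agent.H15.PC

open Finset Filter Topology

abbrev T1 := UnitAddCircle

open Classical in
noncomputable def Pc (x : ℕ → T1) (T : Finset ℕ) (r : ℝ) : ℕ :=
  (T.offDiag.filter fun p => ‖x p.1 - x p.2‖ < r).card

open Classical in
noncomputable def Cr (c : ℕ → T1) (C : Finset ℕ) (x : ℕ → T1) (T : Finset ℕ) (r : ℝ) : ℕ :=
  ((C ×ˢ T).filter fun p => ‖c p.1 - x p.2‖ < r).card

def PP (x : ℕ → T1) (F : ℕ → Finset ℕ) : Prop :=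
  ∀ s : ℝ, 0 < s → Tendsto (fun N : ℕ => (Pc x (F N) (s / N) : ℝ) / N) atTop (𝓝 (2 * s))

lemma Pc_le {x y : ℕ → T1} {T U : Finset ℕ} {r r' : ℝ} (hT : T ⊆ U)
    (h : ∀ k ∈ T, ∀ l ∈ T, ‖x k - x l‖ < r → ‖y k - y l‖ < r') : Pc x T r ≤ Pc y U r' := by
  classical
  unfold Pc
  apply card_le_card
  intro p hp
  simp only [mem_filter, mem_offDiag] at hp ⊢
  exact ⟨⟨hT hp.1.1, hT hp.1.2.1, hp.1.2.2⟩, h _ hp.1.1 _ hp.1.2.1 hp.2⟩

lemma Pc_mono (x : ℕ → T1) {T U : Finset ℕ} {r r' : ℝ} (hT : T ⊆ U) (h : r ≤ r') :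
    Pc x T r ≤ Pc x U r' := Pc_le hT fun _ _ _ _ h' => h'.trans_le h

lemma Cr_le {c x y : ℕ → T1} {C T U : Finset ℕ} {r r' : ℝ} (hT : T ⊆ U)
    (h : ∀ k ∈ C, ∀ l ∈ T, ‖c k - x l‖ < r → ‖c k - y l‖ < r') :
    Cr c C x T r ≤ Cr c C y U r' := by
  classical
  unfold Cr
  apply card_le_card
  intro p hp
  simp only [mem_filter, mem_product] at hp ⊢
  exact ⟨⟨hp.1.1, hT hp.1.2⟩, h _ hp.1.1 _ hp.1.2 hp.2⟩

lemma Pc_union (x : ℕ → T1) (A B : Finset ℕ) (r : ℝ) :
    Pc x (A ∪ B) r ≤ Pc x A r + Pc x B r + 2 * Cr x B x A r := by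
  classical
  unfold Pc Cr
  set S := (B ×ˢ A).filter fun p => ‖x p.1 - x p.2‖ < r
  have h1 : ((A ∪ B).offDiag.filter fun p => ‖x p.1 - x p.2‖ < r) ⊆
      (A.offDiag.filter fun p => ‖x p.1 - x p.2‖ < r) ∪
      (B.offDiag.filter fun p => ‖x p.1 - x p.2‖ < r) ∪ S ∪ S.image Prod.swap := by
    rintro ⟨k, l⟩ hp
    simp only [mem_filter, mem_offDiag, mem_union, mem_image, S, mem_product] at hp ⊢
    obtain ⟨⟨hk, hl, hne⟩, h⟩ := hp
    rcases hk with hk | hk <;> rcases hl with hl | hl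
    · exact Or.inl (Or.inl (Or.inl ⟨⟨hk, hl, hne⟩, h⟩))
    · exact Or.inr ⟨(l, k), ⟨⟨hl, hk⟩, by rwa [norm_sub_rev]⟩, rfl⟩
    · exact Or.inl (Or.inr ⟨⟨hk, hl⟩, h⟩)
    · exact Or.inl (Or.inl (Or.inr ⟨⟨hk, hl, hne⟩, h⟩))
  refine (card_le_card h1).trans ?_
  refine (card_union_le _ _).trans ?_
  have h2 := card_union_le ((A.offDiag.filter fun p => ‖x p.1 - x p.2‖ < r) ∪
      (B.offDiag.filter fun p => ‖x p.1 - x p.2‖ < r)) S
  have h3 := card_union_le (A.offDiag.filter fun p => ‖x p.1 - x p.2‖ < r)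
      (B.offDiag.filter fun p => ‖x p.1 - x p.2‖ < r)
  have h4 : (S.image Prod.swap).card ≤ S.card := card_image_le
  omega

lemma Pc_le_sq (x : ℕ → T1) (T : Finset ℕ) (r : ℝ) : Pc x T r ≤ T.card ^ 2 := by
  classical
  unfold Pc
  refine (card_filter_le _ _).trans ?_
  rw [offDiag_card, sq]
  omega

lemma Cr_eq_sum (c : ℕ → T1) (C : Finset ℕ) (x : ℕ → T1) (T : Finset ℕ) (r : ℝ) :
    Cr c C x T r = ∑ i ∈ C, Cr c {i} x T r := by
  classical
  unfold Cr
  simp only [card_filter, sum_product, sum_singleton]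

lemma sum_sq_le (c : ℕ → T1) (C : Finset ℕ) (x : ℕ → T1) (T : Finset ℕ) (r : ℝ)
    (hsep : ∀ i ∈ C, ∀ j ∈ C, i ≠ j → 2 * r ≤ ‖c i - c j‖) :
    ∑ i ∈ C, Cr c {i} x T r ^ 2 ≤ Pc x T (2 * r) + T.card := by
  classical
  set A : ℕ → Finset ℕ := fun i => T.filter fun l => ‖c i - x l‖ < r with hA
  have h1 : ∀ i, Cr c {i} x T r = (A i).card := by
    intro i
    unfold Cr
    simp only [hA, card_filter, sum_product, sum_singleton]
  have h2 : ∑ i ∈ C, Cr c {i} x T r ^ 2 = (C.biUnion fun i => A i ×ˢ A i).card := by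
    rw [card_biUnion]
    · exact sum_congr rfl fun i _ => by rw [h1, card_product, sq]
    · intro i hi j hj hne
      rw [Function.onFun, disjoint_left]
      rintro ⟨k, l⟩ h3 h4
      simp only [hA, mem_product, mem_filter] at h3 h4
      have h5 := hsep i hi j hj hne
      have h6 : ‖c i - c j‖ ≤ ‖c i - x k‖ + ‖c j - x k‖ := by
        have := norm_sub_le (c i - x k) (c j - x k)
        simpa using this
      linarith [h3.1.2, h4.1.2]
  rw [h2]
  have h3 : (C.biUnion fun i => A i ×ˢ A i) ⊆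
      (T.offDiag.filter fun p => ‖x p.1 - x p.2‖ < 2 * r) ∪ T.diag := by
    rintro ⟨k, l⟩ hp
    simp only [hA, mem_biUnion, mem_product, mem_filter, mem_union, mem_offDiag, mem_diag] at hp ⊢
    obtain ⟨i, -, ⟨hk, hk'⟩, hl, hl'⟩ := hp
    by_cases hkl : k = l
    · exact Or.inr ⟨hk, hkl⟩
    · refine Or.inl ⟨⟨hk, hl, hkl⟩, ?_⟩
      have h6 : ‖x k - x l‖ ≤ ‖c i - x l‖ + ‖c i - x k‖ := by
        have := norm_sub_le (c i - x l) (c i - x k)
        simpa using this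
      linarith
  refine (card_le_card h3).trans ((card_union_le _ _).trans ?_)
  rw [diag_card]
  rfl

lemma Cr_sep (c : ℕ → T1) (C : Finset ℕ) (x : ℕ → T1) (T : Finset ℕ) (r : ℝ)
    (hsep : ∀ i ∈ C, ∀ j ∈ C, i ≠ j → 2 * r ≤ ‖c i - c j‖) :
    Cr c C x T r ^ 2 ≤ C.card * (Pc x T (2 * r) + T.card) := by
  rw [Cr_eq_sum]
  exact sq_sum_le_card_mul_sum_sq.trans (Nat.mul_le_mul_left _ (sum_sq_le c C x T r hsep))

lemma Cr_crude (c : ℕ → T1) (C : Finset ℕ) (x : ℕ → T1) (T : Finset ℕ) (r : ℝ) :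
    Cr c C x T r ^ 2 ≤ C.card ^ 2 * (Pc x T (2 * r) + T.card) := by
  rw [Cr_eq_sum]
  refine sq_sum_le_card_mul_sum_sq.trans ?_
  rw [sq, mul_assoc]
  refine Nat.mul_le_mul_left _ ?_
  rw [← smul_eq_mul, ← sum_const]
  refine sum_le_sum fun i _ => ?_
  have := Cr_sep c {i} x T r (by simp)
  simpa using this

lemma div_le_sqrt {c a P N : ℕ} (hN : 0 < N) (h : c ^ 2 ≤ a * (P + N)) :
    (c : ℝ) / N ≤ Real.sqrt ((a / N) * (P / N + 1)) := by
  apply Real.le_sqrt_of_sq_le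
  have h1 : (c : ℝ) ^ 2 ≤ a * (P + N) := by exact_mod_cast h
  have h2 : (0 : ℝ) < N := by exact_mod_cast hN
  rw [div_pow, div_le_iff₀ (by positivity)]
  refine h1.trans_eq ?_
  field_simp

lemma tendsto_err {a P : ℕ → ℝ} {L : ℝ} (ha : Tendsto a atTop (𝓝 0)) (hP : Tendsto P atTop (𝓝 L)) :
    Tendsto (fun N => Real.sqrt (a N * (P N + 1))) atTop (𝓝 0) := by
  have := (ha.mul (hP.add_const 1)).sqrt
  simpa using this

lemma squeeze_rat {f : ℕ → ℝ} {s : ℝ} (hs : 0 < s)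
    (hu : ∀ t : ℚ, s < t → ∃ g : ℕ → ℝ, Tendsto g atTop (𝓝 (2 * t)) ∧ ∀ᶠ N in atTop, f N ≤ g N)
    (hl : ∀ t : ℚ, 0 < t → t < s →
      ∃ g : ℕ → ℝ, Tendsto g atTop (𝓝 (2 * t)) ∧ ∀ᶠ N in atTop, g N ≤ f N) :
    Tendsto f atTop (𝓝 (2 * s)) := by
  rw [tendsto_order]
  constructor
  · intro a ha
    obtain ⟨t, ht1, ht2⟩ := exists_rat_btwn (show max (a / 2) 0 < s from max_lt (by linarith) hs)
    obtain ⟨g, hg, hgf⟩ := hl t (by exact_mod_cast (le_max_right _ _).trans_lt ht1) ht2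
    have h1 : a < 2 * t := by linarith [le_max_left (a / 2) 0]
    filter_upwards [hgf, hg.eventually (lt_mem_nhds h1)] with N h2 h3
    exact h3.trans_le h2
  · intro b hb
    obtain ⟨t, ht1, ht2⟩ := exists_rat_btwn (show s < b / 2 by linarith)
    obtain ⟨g, hg, hgf⟩ := hu t ht1
    have h1 : 2 * (t : ℝ) < b := by linarith
    filter_upwards [hgf, hg.eventually (gt_mem_nhds h1)] with N h2 h3
    exact h2.trans_lt h3

lemma insertion (w : ℕ → T1) (G B : ℕ → Finset ℕ) (hGB : ∀ N, range N = G N ∪ B N)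
    (hG : PP w G) (hB : Tendsto (fun N : ℕ => ((B N).card : ℝ) / N) atTop (𝓝 0))
    (hsep : ∀ s : ℝ, ∀ᶠ N : ℕ in atTop, ∀ i ∈ B N, ∀ j ∈ B N, i ≠ j → s / N ≤ ‖w i - w j‖) :
    PP w range := by
  intro s hs
  have h1 := hG s hs
  have h2 := tendsto_err hB (hG (2 * s) (by positivity))
  have h3 := h1.add (h2.const_mul 2)
  rw [mul_zero, add_zero] at h3
  refine tendsto_of_tendsto_of_tendsto_of_le_of_le' h1 h3 ?_ ?_
  · filter_upwards with N
    gcongr
    exact Pc_mono w (by rw [hGB]; exact subset_union_left) le_rfl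
  · filter_upwards [hsep (2 * s), eventually_gt_atTop 0] with N hN hN0
    have hN' : (0 : ℝ) < N := by exact_mod_cast hN0
    have h4 := Pc_union w (G N) (B N) (s / N)
    rw [← hGB] at h4
    have h5 : Pc w (B N) (s / N) = 0 := by
      classical
      unfold Pc
      rw [card_eq_zero, filter_eq_empty_iff]
      rintro ⟨i, j⟩ hp
      rw [mem_offDiag] at hp
      have := hN i hp.1 j hp.2.1 hp.2.2
      have h6 : s / N ≤ 2 * s / N := by gcongr; linarith
      exact not_lt.mpr (h6.trans this)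
    have h6 := Cr_sep w (B N) w (G N) (s / N) (by
      intro i hi j hj hij
      rw [← mul_div_assoc]; exact hN i hi j hj hij)
    have h7 : (G N).card ≤ N := by
      have := card_le_card (show G N ⊆ range N by rw [hGB]; exact subset_union_left)
      simpa using this
    have h8 := div_le_sqrt hN0 (h6.trans (Nat.mul_le_mul_left _ (Nat.add_le_add_left h7 _)))
    rw [← mul_div_assoc] at h8
    rw [h5] at h4
    have h9 : (Pc w (range N) (s / N) : ℝ) ≤ Pc w (G N) (s / N) + 2 * Cr w (B N) w (G N) (s / N) := by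
      exact_mod_cast h4
    calc (Pc w (range N) (s / N) : ℝ) / N ≤
        (Pc w (G N) (s / N) + 2 * Cr w (B N) w (G N) (s / N)) / N := by gcongr
      _ = (Pc w (G N) (s / N) : ℝ) / N + 2 * ((Cr w (B N) w (G N) (s / N) : ℝ) / N) := by ring
      _ ≤ _ := by gcongr

lemma one_side (u v w : ℕ → T1) (N K : ℕ) (hN : 0 < N) (hK : K ≤ N) (η r ρ : ℝ)
    (huv : ∀ k, K ≤ k → ‖u k - v k‖ ≤ η) (huw : ∀ k, K ≤ k → ‖u k - w k‖ ≤ η)
    (hρ : 2 * (r + η) ≤ ρ) :
    (Pc u (range N) r : ℝ) / N ≤ (Pc v (range N) (r + 2 * η) : ℝ) / N + ((K ^ 2 : ℕ) : ℝ) / N +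
      2 * Real.sqrt ((((K ^ 2 : ℕ) : ℝ) / N) * ((Pc w (range N) ρ : ℝ) / N + 1)) := by
  have h0 : range N = Ico K N ∪ range K := by
    ext k; simp only [mem_range, mem_union, mem_Ico]; omega
  have hsub : Ico K N ⊆ range N := by rw [h0]; exact subset_union_left
  have h1 := Pc_union u (Ico K N) (range K) r
  rw [← h0] at h1
  have h2 : Pc u (Ico K N) r ≤ Pc v (range N) (r + 2 * η) := by
    refine Pc_le hsub fun k hk l hl h => ?_
    have h3 := huv k (mem_Ico.mp hk).1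
    have h4 := huv l (mem_Ico.mp hl).1
    have h5 : v k - v l = (u k - u l) - (u k - v k) + (u l - v l) := by abel
    have h6 := norm_add_le ((u k - u l) - (u k - v k)) (u l - v l)
    have h7 := norm_sub_le (u k - u l) (u k - v k)
    rw [h5]; linarith
  have h3 := Pc_le_sq u (range K) r
  rw [card_range] at h3
  have h4 : Cr u (range K) u (Ico K N) r ≤ Cr u (range K) w (range N) (r + η) := by
    refine Cr_le hsub fun k _ l hl h => ?_
    have h4 := huw l (mem_Ico.mp hl).1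
    have h5 : u k - w l = (u k - u l) + (u l - w l) := by abel
    have h6 := norm_add_le (u k - u l) (u l - w l)
    rw [h5]; linarith
  have h5 := Cr_crude u (range K) w (range N) (r + η)
  rw [card_range, card_range] at h5
  have h6 := div_le_sqrt hN (h5.trans (Nat.mul_le_mul_left _
    (Nat.add_le_add_right (Pc_mono w subset_rfl hρ) _)))
  have h7 : Pc u (range N) r ≤ Pc v (range N) (r + 2 * η) + K ^ 2 +
      2 * Cr u (range K) w (range N) (r + η) := by omega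
  have h8 : (Pc u (range N) r : ℝ) ≤ Pc v (range N) (r + 2 * η) + ((K ^ 2 : ℕ) : ℝ) +
      2 * Cr u (range K) w (range N) (r + η) := by exact_mod_cast h7
  have hN' : (0 : ℝ) < N := by exact_mod_cast hN
  calc (Pc u (range N) r : ℝ) / N ≤ (Pc v (range N) (r + 2 * η) + ((K ^ 2 : ℕ) : ℝ) +
      2 * Cr u (range K) w (range N) (r + η)) / N := by gcongr
    _ = (Pc v (range N) (r + 2 * η) : ℝ) / N + ((K ^ 2 : ℕ) : ℝ) / N +
      2 * ((Cr u (range K) w (range N) (r + η) : ℝ) / N) := by ring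
    _ ≤ _ := by gcongr

lemma stability (z w : ℕ → T1) (hzw : ∀ k, ‖z k - w k‖ ≤ 1 / ((k : ℝ) + 1) ^ 8)
    (hw : PP w range) : PP z range := by
  intro s hs
  set K : ℕ → ℕ := fun N => N.sqrt.sqrt with hK
  have hK1 : ∀ N, K N ≤ N := fun N => (Nat.sqrt_le_self _).trans (Nat.sqrt_le_self _)
  have hK2 : ∀ N, N < (K N + 1) ^ 4 := by
    intro N
    have h1 := Nat.lt_succ_sqrt' N
    have h2 := Nat.lt_succ_sqrt' N.sqrt
    calc N < (N.sqrt + 1) ^ 2 := h1
      _ ≤ ((K N + 1) ^ 2) ^ 2 := Nat.pow_le_pow_left h2 2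
      _ = _ := by ring
  have hclose : ∀ N, 0 < N → ∀ k, K N ≤ k → ‖z k - w k‖ ≤ 1 / (N : ℝ) ^ 2 := by
    intro N hN k hk
    refine (hzw k).trans ?_
    have h1 : (N : ℝ) ≤ ((k : ℝ) + 1) ^ 4 := by
      have := (hK2 N).le.trans (Nat.pow_le_pow_left (Nat.add_le_add_right hk 1) 4)
      exact_mod_cast this
    have hN' : (0 : ℝ) < N := by exact_mod_cast hN
    apply one_div_le_one_div_of_le (by positivity)
    calc (N : ℝ) ^ 2 ≤ (((k : ℝ) + 1) ^ 4) ^ 2 := by gcongr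
      _ = _ := by ring
  have hκ : Tendsto (fun N : ℕ => (((K N) ^ 2 : ℕ) : ℝ) / N) atTop (𝓝 0) := by
    have h1 : Tendsto (fun N : ℕ => (Real.sqrt N)⁻¹) atTop (𝓝 0) :=
      (Real.tendsto_sqrt_atTop.comp tendsto_natCast_atTop_atTop).inv_tendsto_atTop
    refine squeeze_zero' (Eventually.of_forall fun N => by positivity) ?_ h1
    filter_upwards [eventually_gt_atTop 0] with N hN
    have hN' : (0 : ℝ) < N := by exact_mod_cast hN
    have h2 : (((K N) ^ 2 : ℕ) : ℝ) ≤ Real.sqrt N :=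
      (Nat.cast_le.mpr (Nat.sqrt_le' _)).trans Real.nat_sqrt_le_real_sqrt
    rw [div_le_iff₀ hN']
    refine h2.trans_eq ?_
    have h3 := Real.sqrt_pos.mpr hN'
    field_simp
    exact Real.sq_sqrt hN'.le
  have herr := hκ.add ((tendsto_err hκ (hw (2 * s + 2) (by positivity))).const_mul 2)
  simp only [mul_zero, add_zero] at herr
  have hev : ∀ ε : ℝ, 0 < ε → ∀ᶠ N : ℕ in atTop, 0 < N ∧ 2 * (1 / (N : ℝ) ^ 2) ≤ ε / N := by
    intro ε hε
    filter_upwards [eventually_gt_atTop 0,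
      tendsto_natCast_atTop_atTop.eventually (eventually_ge_atTop (2 / ε))] with N hN h
    have hN' : (0 : ℝ) < N := by exact_mod_cast hN
    refine ⟨hN, ?_⟩
    rw [div_le_iff₀ hε] at h
    rw [mul_one_div, div_le_div_iff₀ (by positivity) hN']
    nlinarith
  apply squeeze_rat hs
  · intro t ht
    have h1 := (hw t (hs.trans ht)).add herr
    rw [add_zero] at h1
    refine ⟨_, h1, ?_⟩
    filter_upwards [hev (t - s) (by linarith), hev 2 two_pos] with N ⟨hN, h2⟩ ⟨_, h3⟩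
    have h4 := one_side z w w N (K N) hN (hK1 N) (1 / (N : ℝ) ^ 2) (s / N) ((2 * s + 2) / N)
      (hclose N hN) (hclose N hN) (by rw [add_div, mul_add, mul_div_assoc]; linarith)
    have h5 : Pc w (range N) (s / N + 2 * (1 / (N : ℝ) ^ 2)) ≤ Pc w (range N) (t / N) :=
      Pc_mono w subset_rfl (by rw [sub_div] at h2; linarith)
    refine h4.trans ?_
    rw [add_assoc]
    gcongr
  · intro t ht0 ht
    have h1 := (hw t (by exact_mod_cast ht0)).sub herr
    rw [sub_zero] at h1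
    refine ⟨_, h1, ?_⟩
    filter_upwards [hev (s - t) (by linarith), hev 2 two_pos] with N ⟨hN, h2⟩ ⟨_, h3⟩
    have hN' : (0 : ℝ) < N := by exact_mod_cast hN
    have hts : (t : ℝ) / N ≤ s / N := by gcongr
    have h4 := one_side w z w N (K N) hN (hK1 N) (1 / (N : ℝ) ^ 2) (t / N) ((2 * s + 2) / N)
      (fun k hk => by rw [norm_sub_rev]; exact hclose N hN k hk) (fun k _ => by simp)
      (by rw [add_div, mul_add, mul_div_assoc]; linarith)
    have h5 : Pc z (range N) (t / N + 2 * (1 / (N : ℝ) ^ 2)) ≤ Pc z (range N) (s / N) :=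
      Pc_mono z subset_rfl (by rw [sub_div] at h2; linarith)
    have h6 : (Pc z (range N) (t / N + 2 * (1 / (N : ℝ) ^ 2)) : ℝ) / N ≤
        (Pc z (range N) (s / N) : ℝ) / N := by gcongr
    linarith

end Pool.Agent.H15.PC
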