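import Mathlib
import Pool.Agent.H15.PC1

set_option autoImplicit false

namespace Pool.Agent.H15.PC

open Finset Filter Topology MeasureTheory ProbabilityTheory

instance : IsProbabilityMeasure (volume : Measure T1) := ⟨UnitAddCircle.measure_univ⟩

lemma card_symm (T : Finset ℕ) (q : ℕ × ℕ → Prop) [DecidablePred q]
    (hq : ∀ p, q p → q p.swap) :
    (T.offDiag.filter q).card = 2 * ((T.offDiag.filter fun p => p.1 < p.2).filter q).card := by
  classical
  set S := (T.offDiag.filter fun p => p.1 < p.2).filter q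
  have h1 : T.offDiag.filter q = S ∪ S.image Prod.swap := by
    ext ⟨k, l⟩
    simp only [S, mem_filter, mem_offDiag, mem_union, mem_image]
    constructor
    · rintro ⟨⟨hk, hl, hne⟩, h⟩
      rcases lt_or_gt_of_ne hne with h' | h'
      · exact Or.inl ⟨⟨⟨hk, hl, hne⟩, h'⟩, h⟩
      · exact Or.inr ⟨(l, k), ⟨⟨⟨hl, hk, hne.symm⟩, h'⟩, hq _ h⟩, rfl⟩
    · rintro (⟨⟨h1, _⟩, h⟩ | ⟨⟨a, b⟩, ⟨⟨⟨h1, h2, h3⟩, _⟩, h⟩, he⟩)
      · exact ⟨h1, h⟩
      · simp only [Prod.swap_prod_mk, Prod.mk.injEq] at he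
        obtain ⟨rfl, rfl⟩ := he
        exact ⟨⟨h2, h1, h3.symm⟩, hq _ h⟩
  rw [h1, card_union_of_disjoint, card_image_of_injective _ Prod.swap_injective, two_mul]
  rw [disjoint_left]
  rintro ⟨k, l⟩ h2 h3
  simp only [S, mem_filter, mem_offDiag, mem_image] at h2 h3
  obtain ⟨⟨a, b⟩, ⟨⟨_, h4⟩, _⟩, he⟩ := h3
  simp only [Prod.swap_prod_mk, Prod.mk.injEq] at he
  obtain ⟨rfl, rfl⟩ := he
  have := h2.1.2
  simp only at h4 this
  omega

section prob
variable {Ω : Type} [MeasurableSpace Ω] {P : Measure Ω} [IsProbabilityMeasure P]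
  {X : ℕ → Ω → T1}

lemma indep_sub (hm : ∀ i, Measurable (X i)) (hl : ∀ i, HasLaw (X i) volume P)
    (hi : iIndepFun X P) (S : Finset ℕ) (j m : ℕ) (hj : j ∈ S) (hmS : m ∉ S) :
    IndepFun (fun ω (i : S) => X i ω) (fun ω => X j ω - X m ω) P ∧
      P.map (fun ω => X j ω - X m ω) = volume := by
  set Y : Ω → (S → T1) := fun ω (i : S) => X i ω with hY
  have hYm : Measurable Y := measurable_pi_lambda _ fun i => hm i
  have h1 : IndepFun Y (X m) P := by
    have := hi.indepFun_finset S {m} (by simpa using hmS) hm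
    exact this.comp measurable_id (measurable_pi_apply (⟨m, by simp⟩ : ({m} : Finset ℕ)))
  rw [indepFun_iff_map_prod_eq_prod_map_map hYm.aemeasurable (hm m).aemeasurable,
    (hl m).map_eq] at h1
  have h2 : MeasurePreserving (fun p : (S → T1) × T1 => (id p.1, p.1 ⟨j, hj⟩ - p.2))
      ((P.map Y).prod volume) ((P.map Y).prod volume) := by
    refine MeasurePreserving.skew_product (g := fun (y : S → T1) (z : T1) => y ⟨j, hj⟩ - z)
      (MeasurePreserving.id _) (by fun_prop) (Eventually.of_forall fun y => ?_)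
    exact (Measure.measurePreserving_sub_left volume _).map_eq
  have hD : Measurable fun ω => X j ω - X m ω := (hm j).sub (hm m)
  have h3 : P.map (fun ω => (Y ω, X j ω - X m ω)) = (P.map Y).prod volume := by
    rw [← h2.map_eq, ← h1, Measure.map_map h2.measurable (hYm.prodMk (hm m))]
    rfl
  have : IsProbabilityMeasure (P.map Y) := Measure.isProbabilityMeasure_map hYm.aemeasurable
  have h4 : P.map (fun ω => X j ω - X m ω) = volume := by
    have := congrArg (Measure.map Prod.snd) h3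
    rw [Measure.map_map measurable_snd (hYm.prodMk hD), Measure.map_snd_prod] at this
    simpa [Function.comp_def] using this
  refine ⟨?_, h4⟩
  rw [indepFun_iff_map_prod_eq_prod_map_map hYm.aemeasurable hD.aemeasurable, h3, h4]

noncomputable def ind (r : ℝ) : T1 → ℝ := (Metric.ball (0 : T1) r).indicator 1

lemma ind_meas (r : ℝ) : Measurable (ind r) := measurable_one.indicator Metric.isOpen_ball.measurableSet

lemma ind_neg (r : ℝ) (g : T1) : ind r (-g) = ind r g := by
  simp [ind, Set.indicator]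

lemma ind_sq (r : ℝ) (g : T1) : ind r g ^ 2 = ind r g := by
  unfold ind Set.indicator; split_ifs <;> simp

lemma ind_int (r : ℝ) (hr : 0 ≤ r) : ∫ g, ind r g = min 1 (2 * r) := by
  unfold ind
  rw [integral_indicator_one Metric.isOpen_ball.measurableSet, measureReal_def,
    ← measure_congr AddCircle.closedBall_ae_eq_ball, AddCircle.volume_closedBall,
    ENNReal.toReal_ofReal (by positivity)]

lemma pair_indep (hm : ∀ i, Measurable (X i)) (hl : ∀ i, HasLaw (X i) volume P)
    (hi : iIndepFun X P) (r : ℝ) (k l j m : ℕ) (hjm : j ≠ m) (hk : m ≠ k) (hlm : m ≠ l) :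
    IndepFun (fun ω => ind r (X k ω - X l ω)) (fun ω => ind r (X j ω - X m ω)) P := by
  classical
  have h1 := (indep_sub hm hl hi {k, l, j} j m (by simp) (by simp [hk, hlm, hjm.symm])).1
  have h2 : Measurable fun y : ({k, l, j} : Finset ℕ) → T1 =>
      ind r (y ⟨k, by simp⟩ - y ⟨l, by simp⟩) := (ind_meas r).comp (by fun_prop)
  exact h1.comp h2 (ind_meas r)

lemma cheb (hm : ∀ i, Measurable (X i)) (hl : ∀ i, HasLaw (X i) volume P)
    (hi : iIndepFun X P) (T : Finset ℕ) (r c : ℝ) (hr : 0 ≤ r) (hc : 0 < c) :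
    P {ω | 2 * c ≤ |(Pc (fun k => X k ω) T r : ℝ) - T.offDiag.card * min 1 (2 * r)|} ≤
      ENNReal.ofReal (T.card ^ 2 * (2 * r) / c ^ 2) := by
  classical
  set U := T.offDiag.filter fun p => p.1 < p.2 with hU
  set Y : ℕ × ℕ → Ω → ℝ := fun p ω => ind r (X p.1 ω - X p.2 ω) with hY
  have hYm : ∀ p, Measurable (Y p) := fun p => (ind_meas r).comp ((hm _).sub (hm _))
  have hYL : ∀ p, MemLp (Y p) 2 P := fun p =>
    MemLp.of_bound (hYm p).aestronglyMeasurable 1 (Eventually.of_forall fun ω => by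
      simp only [hY, ind, Set.indicator]; split_ifs <;> simp)
  have hlt : ∀ p ∈ U, p.1 < p.2 := fun p hp => (mem_filter.mp hp).2
  have hE : ∀ p ∈ U, P[Y p] = min 1 (2 * r) := by
    intro p hp
    have h1 := (indep_sub hm hl hi {p.1} p.1 p.2 (by simp) (by simpa using (hlt p hp).ne')).2
    have hD : Measurable fun ω => X p.1 ω - X p.2 ω := (hm _).sub (hm _)
    rw [← ind_int r hr, ← h1, integral_map hD.aemeasurable
      (ind_meas r).aestronglyMeasurable]
  have hpw : Set.Pairwise (U : Set (ℕ × ℕ)) fun p q => IndepFun (Y p) (Y q) P := by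
    rintro ⟨k, l⟩ hp ⟨j, m⟩ hq hne
    have h1 : k < l := hlt _ hp
    have h2 : j < m := hlt _ hq
    by_cases h3 : m ≠ k ∧ m ≠ l
    · exact pair_indep hm hl hi r k l j m h2.ne h3.1 h3.2
    · have h4 : j ≠ k ∧ j ≠ l := by
        have : ¬ (k = j ∧ l = m) := by
          rintro ⟨rfl, rfl⟩; exact hne rfl
        omega
      have h5 := pair_indep hm hl hi r k l m j h2.ne' h4.1 h4.2
      have h6 : Y (j, m) = fun ω => ind r (X m ω - X j ω) := by
        funext ω; simp only [hY]; rw [← ind_neg, neg_sub]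
      rw [h6]; exact h5
  have hV : Var[∑ p ∈ U, Y p; P] ≤ T.card ^ 2 * (2 * r) := by
    rw [IndepFun.variance_sum (fun p _ => hYL p) hpw]
    have h1 : ∀ p ∈ U, Var[Y p; P] ≤ 2 * r := by
      intro p hp
      refine (variance_le_expectation_sq (hYm p).aestronglyMeasurable).trans ?_
      have : Y p ^ 2 = Y p := by funext ω; exact ind_sq _ _
      rw [this, hE p hp]
      exact min_le_right _ _
    refine (sum_le_card_nsmul _ _ _ h1).trans ?_
    rw [nsmul_eq_mul]
    have h2 : U.card ≤ T.card ^ 2 := by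
      refine (card_filter_le _ _).trans ?_
      rw [offDiag_card, sq]; omega
    gcongr
    exact_mod_cast h2
  have hEs : P[∑ p ∈ U, Y p] = U.card * min 1 (2 * r) := by
    simp only [Finset.sum_apply]
    rw [integral_finsetSum _ fun p _ => (hYL p).integrable one_le_two, sum_congr rfl hE]
    simp
  have h1 := meas_ge_le_variance_div_sq (memLp_finsetSum' U fun p _ => hYL p) hc
  refine le_trans (le_of_eq ?_) (h1.trans (ENNReal.ofReal_le_ofReal (by gcongr)))
  congr 1
  ext ω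
  simp only [Set.mem_ofPred_eq]
  rw [hEs]
  have h2 : (Pc (fun k => X k ω) T r : ℝ) = 2 * (∑ p ∈ U, Y p) ω := by
    unfold Pc
    rw [card_symm T _ (fun p hp => by rwa [norm_sub_rev] at hp), card_filter]
    push_cast
    simp only [Finset.sum_apply, hY, ind, Set.indicator, mem_ball_zero_iff, Pi.one_apply]
    rfl
  have h3 : (T.offDiag.card : ℝ) = 2 * U.card := by
    have := card_symm T (fun _ => True) (fun _ _ => trivial)
    simp only [filter_true] at this
    exact_mod_cast this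
  rw [h2, h3, mul_assoc, ← mul_sub, abs_mul, abs_two]
  constructor <;> intro h <;> linarith

end prob

lemma sub_tendsto (G : ℕ → Finset ℕ) (hG : ∀ N, G N ⊆ range N)
    (hc : Tendsto (fun N : ℕ => ((G N).card : ℝ) / N) atTop (𝓝 1)) :
    ∃ x : ℕ → T1, ∀ t : ℚ, 0 < t → Tendsto (fun m : ℕ =>
      (Pc x (G ((m + 1) ^ 4)) (t / ((m + 1) ^ 4 : ℕ)) : ℝ) / ((m + 1) ^ 4 : ℕ)) atTop
        (𝓝 (2 * t)) := by
  obtain ⟨Ω, _, P, X, hm, hl, hi, _⟩ := exists_iid ℕ (volume : Measure T1)
  have key : ∀ t : ℚ, ∀ᵐ ω ∂P, 0 < t → Tendsto (fun m : ℕ =>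
      (Pc (fun k => X k ω) (G ((m + 1) ^ 4)) (t / ((m + 1) ^ 4 : ℕ)) : ℝ) / ((m + 1) ^ 4 : ℕ))
        atTop (𝓝 (2 * t)) := by
    intro t
    by_cases ht : 0 < t
    swap
    · exact Eventually.of_forall fun ω h => absurd h ht
    have ht' : (0 : ℝ) < t := by exact_mod_cast ht
    set n : ℕ → ℕ := fun m => (m + 1) ^ 4 with hn
    have hn0 : ∀ m, (0 : ℝ) < n m := fun m => by simp only [hn]; positivity
    set E : ℕ → Set Ω := fun m => {ω | 2 * ((m : ℝ) + 1) ^ 3 ≤
      |(Pc (fun k => X k ω) (G (n m)) (t / n m) : ℝ) -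
        (G (n m)).offDiag.card * min 1 (2 * ((t : ℝ) / n m))|} with hE
    have h1 : ∀ m, P (E m) ≤ ENNReal.ofReal (2 * t * (1 / ((m : ℝ) + 1) ^ 2)) := by
      intro m
      refine (cheb hm hl hi (G (n m)) (t / n m) (((m : ℝ) + 1) ^ 3) (by positivity)
        (by positivity)).trans (ENNReal.ofReal_le_ofReal ?_)
      have h2 : ((G (n m)).card : ℝ) ≤ n m := by
        have := card_le_card (hG (n m))
        rw [card_range] at this
        exact_mod_cast this
      have h3 : (n m : ℝ) = ((m : ℝ) + 1) ^ 4 := by simp [hn]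
      calc ((G (n m)).card : ℝ) ^ 2 * (2 * (t / n m)) / (((m : ℝ) + 1) ^ 3) ^ 2 ≤
          (n m : ℝ) ^ 2 * (2 * (t / n m)) / (((m : ℝ) + 1) ^ 3) ^ 2 := by
            have := hn0 m
            gcongr
        _ = _ := by rw [h3]; field_simp
    have h2 : Summable fun m : ℕ => 2 * t * (1 / ((m : ℝ) + 1) ^ 2) := by
      apply Summable.mul_left
      have := (summable_nat_add_iff 1).mpr (Real.summable_one_div_nat_pow.mpr one_lt_two)
      simpa using this
    have h3 : ∑' m, P (E m) ≠ ⊤ := by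
      refine ne_top_of_le_ne_top ?_ (ENNReal.tsum_le_tsum h1)
      rw [← ENNReal.ofReal_tsum_of_nonneg (fun m => by positivity) h2]
      exact ENNReal.ofReal_ne_top
    have hnt : Tendsto n atTop atTop :=
      (tendsto_pow_atTop (by norm_num)).comp (tendsto_add_atTop_nat 1)
    have hnr : Tendsto (fun m => (n m : ℝ)) atTop atTop := tendsto_natCast_atTop_atTop.comp hnt
    have h4 : Tendsto (fun m => ((G (n m)).offDiag.card : ℝ) * min 1 (2 * ((t : ℝ) / n m)) / n m) atTop
        (𝓝 (2 * t)) := by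
      have h5 := hc.comp hnt
      have h6 := ((h5.mul h5).sub (h5.mul hnr.inv_tendsto_atTop)).const_mul (2 * (t : ℝ))
      simp only [mul_one, mul_zero, sub_zero] at h6
      refine h6.congr' ?_
      filter_upwards [hnr.eventually (eventually_ge_atTop (2 * (t : ℝ)))] with m h7
      have h8 := hn0 m
      rw [min_eq_right (by rw [← mul_div_assoc, div_le_one h8]; exact h7), offDiag_card,
        Nat.cast_sub (Nat.le_mul_self _)]
      simp only [Function.comp, Pi.inv_apply]
      push_cast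
      field_simp
    have h5 : Tendsto (fun m : ℕ => 2 * (1 / ((m : ℝ) + 1))) atTop (𝓝 0) := by
      simpa using tendsto_one_div_add_atTop_nhds_zero_nat.const_mul (2 : ℝ)
    filter_upwards [ae_eventually_notMem h3] with ω hω _
    have h6 : Tendsto (fun m => ((Pc (fun k => X k ω) (G (n m)) (t / n m) : ℝ) -
        (G (n m)).offDiag.card * min 1 (2 * ((t : ℝ) / n m))) / n m) atTop (𝓝 0) := by
      refine squeeze_zero_norm' ?_ h5
      filter_upwards [hω] with m h7
      simp only [hE, Set.mem_ofPred_eq, not_le] at h7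
      have h3 : (n m : ℝ) = ((m : ℝ) + 1) ^ 4 := by simp [hn]
      rw [norm_div, Real.norm_eq_abs, Real.norm_eq_abs, abs_of_pos (hn0 m), div_le_iff₀ (hn0 m)]
      refine h7.le.trans_eq ?_
      rw [h3]; field_simp
    have h7 := h6.add h4
    rw [zero_add] at h7
    refine h7.congr fun m => ?_
    ring
  obtain ⟨ω, hω⟩ := (ae_all_iff.mpr key).exists
  exact ⟨fun k => X k ω, hω⟩

theorem exists_PP (G : ℕ → Finset ℕ) (hG : ∀ N, G N ⊆ range N) (hmono : Monotone G)
    (hc : Tendsto (fun N : ℕ => ((G N).card : ℝ) / N) atTop (𝓝 1)) : ∃ x : ℕ → T1, PP x G := by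
  obtain ⟨x, hx⟩ := sub_tendsto G hG hc
  refine ⟨x, fun s hs => ?_⟩
  set K : ℕ → ℕ := fun N => N.sqrt.sqrt with hK
  have hK1 : ∀ N, K N ^ 4 ≤ N := by
    intro N
    calc K N ^ 4 = (K N ^ 2) ^ 2 := by ring
      _ ≤ N.sqrt ^ 2 := Nat.pow_le_pow_left (Nat.sqrt_le' _) 2
      _ ≤ N := Nat.sqrt_le' _
  have hK2 : ∀ N, N < (K N + 1) ^ 4 := by
    intro N
    have h1 := Nat.lt_succ_sqrt' N
    have h2 := Nat.lt_succ_sqrt' N.sqrt
    calc N < (N.sqrt + 1) ^ 2 := h1
      _ ≤ ((K N + 1) ^ 2) ^ 2 := Nat.pow_le_pow_left h2 2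
      _ = _ := by ring
  have hKt : Tendsto K atTop atTop := by
    rw [tendsto_atTop_atTop]
    intro b
    refine ⟨(b + 1) ^ 4, fun N hN => ?_⟩
    by_contra h
    have := (hK2 N).trans_le (Nat.pow_le_pow_left (show K N + 1 ≤ b + 1 by omega) 4)
    omega
  set ρ : ℕ → ℝ := fun N => (1 + ((K N : ℝ))⁻¹) ^ 4 with hρ
  have hρt : Tendsto ρ atTop (𝓝 1) := by
    have := (((tendsto_natCast_atTop_atTop (R := ℝ)).comp hKt).inv_tendsto_atTop.const_add 1).pow 4
    simpa using this
  have hρe : ∀ N, 0 < K N → (((K N + 1) ^ 4 : ℕ) : ℝ) = ρ N * ((K N ^ 4 : ℕ) : ℝ) := by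
    intro N h
    have : (0 : ℝ) < K N := by exact_mod_cast h
    simp only [hρ]; push_cast; field_simp
  apply squeeze_rat hs
  · intro t ht
    have ht0 : (0 : ℝ) < t := hs.trans ht
    have h1 := ((hx t (by exact_mod_cast ht0)).comp hKt).mul hρt
    rw [mul_one] at h1
    refine ⟨_, h1, ?_⟩
    have h2 : ∀ᶠ N in atTop, ρ N < t / s := hρt.eventually (gt_mem_nhds (by
      rw [one_lt_div hs]; exact ht))
    filter_upwards [h2, hKt.eventually (eventually_gt_atTop 0)] with N h3 h4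
    have h5 := hρe N h4
    have h6 : ((K N ^ 4 : ℕ) : ℝ) ≤ N := by exact_mod_cast hK1 N
    have h7 : (0 : ℝ) < ((K N ^ 4 : ℕ) : ℝ) := by positivity
    have h8 : (0 : ℝ) < ρ N := by simp only [hρ]; positivity
    have h9 : Pc x (G N) (s / N) ≤ Pc x (G ((K N + 1) ^ 4)) (t / ((K N + 1) ^ 4 : ℕ)) := by
      refine Pc_mono x (hmono (hK2 N).le) ?_
      rw [h5, div_le_div_iff₀ (by linarith) (by positivity)]
      rw [lt_div_iff₀ hs] at h3
      calc s * (ρ N * ((K N ^ 4 : ℕ) : ℝ)) = (ρ N * s) * ((K N ^ 4 : ℕ) : ℝ) := by ring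
        _ ≤ t * N := by gcongr
    simp only [Function.comp]
    calc (Pc x (G N) (s / N) : ℝ) / N ≤
        (Pc x (G ((K N + 1) ^ 4)) (t / ((K N + 1) ^ 4 : ℕ)) : ℝ) / ((K N ^ 4 : ℕ) : ℝ) := by
          gcongr
      _ = _ := by
        generalize (Pc x (G ((K N + 1) ^ 4)) (t / ((K N + 1) ^ 4 : ℕ)) : ℝ) = A
        rw [h5]; field_simp
  · intro t ht0 ht
    have ht0' : (0 : ℝ) < t := by exact_mod_cast ht0
    have h1 := ((hx t ht0).comp ((tendsto_sub_atTop_nat 1).comp hKt)).div hρt one_ne_zero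
    rw [div_one] at h1
    refine ⟨_, h1, ?_⟩
    have h2 : ∀ᶠ N in atTop, ρ N < s / t := hρt.eventually (gt_mem_nhds (by
      rw [one_lt_div ht0']; exact ht))
    filter_upwards [h2, hKt.eventually (eventually_gt_atTop 0)] with N h3 h4
    have h5 := hρe N h4
    have h6 : (N : ℝ) ≤ (((K N + 1) ^ 4 : ℕ) : ℝ) := by exact_mod_cast (hK2 N).le
    have h7 : (0 : ℝ) < ((K N ^ 4 : ℕ) : ℝ) := by positivity
    have h8 : (0 : ℝ) < ρ N := by simp only [hρ]; positivity
    have h10 : (0 : ℝ) < N := h7.trans_le (by exact_mod_cast hK1 N)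
    have h9 : Pc x (G (K N ^ 4)) (t / (K N ^ 4 : ℕ)) ≤ Pc x (G N) (s / N) := by
      refine Pc_mono x (hmono (hK1 N)) ?_
      rw [div_le_div_iff₀ h7 h10]
      rw [lt_div_iff₀ ht0'] at h3
      calc (t : ℝ) * N ≤ t * (ρ N * ((K N ^ 4 : ℕ) : ℝ)) := by rw [← h5]; gcongr
        _ = (ρ N * t) * ((K N ^ 4 : ℕ) : ℝ) := by ring
        _ ≤ _ := by gcongr
    simp only [Function.comp, Pi.div_apply]
    rw [Nat.sub_add_cancel h4, div_div, mul_comm _ (ρ N), ← h5]
    gcongr

end Pool.Agent.H15.PC
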