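import Mathlib
import Pool.Agent.H15.PC2

set_option autoImplicit false

namespace Pool.Agent.H15.PC

open Finset Filter Topology

lemma approx (t : T1) (ε : ℝ) (b : ℕ) (hε : 0 < ε) :
    ∃ n : ℕ, b < n ∧ ‖(((n : ℝ) * Real.sqrt 2 : ℝ) : T1) - t‖ ≤ ε := by
  have h1 : DenseRange (· • ((Real.sqrt 2 : ℝ) : T1) : ℤ → T1) :=
    AddCircle.denseRange_zsmul_coe_iff.mpr (by simpa using irrational_sqrt_two)
  have h2 : MapClusterPt t atTop (· • ((Real.sqrt 2 : ℝ) : T1) : ℕ → T1) :=
    ((mapClusterPt_atTop_nsmul_tfae t _).out 0 3).mpr (h1 t)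
  have h3 := (mapClusterPt_iff_frequently.mp h2) _ (Metric.closedBall_mem_nhds t hε)
  obtain ⟨n, h4, h5⟩ := (h3.and_eventually (eventually_gt_atTop b)).exists
  refine ⟨n, h5, ?_⟩
  rw [mem_closedBall_iff_norm, ← AddCircle.coe_nsmul, nsmul_eq_mul] at h4
  exact h4

lemma locate (S : ℕ → ℕ) (hS : StrictMono S) (j0 N : ℕ) (h : S j0 ≤ N) :
    ∃ j, j0 ≤ j ∧ S j ≤ N ∧ N < S (j + 1) := by
  classical
  have h1 : ∃ i, N < S (i + 1) := ⟨N, (Nat.lt_succ_self N).trans_le (hS.id_le _)⟩
  refine ⟨Nat.find h1, ?_, ?_, Nat.find_spec h1⟩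
  · have := h.trans_lt (Nat.find_spec h1)
    exact Nat.le_of_lt_succ (hS.lt_iff_lt.mp this)
  · rcases h2 : Nat.find h1 with _ | i
    · exact (hS.monotone (Nat.zero_le _)).trans h
    · exact not_lt.mp (Nat.find_min h1 (by omega))

theorem main (M : ℕ → ℕ) (hM0 : ∀ j, 0 < M j) (hM : ∀ j, (4 ^ j + 2) * M j ≤ M (j + 1)) :
    ∃ a : ℕ → ℕ, StrictMono a ∧ 0 < a 0 ∧
      (∀ j, ∃ d, ∀ t < 2 * M j, a (4 ^ j * M j + t) = a (4 ^ j * M j) + t * d) ∧
      PP (fun n => (((a n : ℝ) * Real.sqrt 2 : ℝ) : T1)) range := by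
  classical
  obtain ⟨S, hSd⟩ : ∃ S : ℕ → ℕ, ∀ j, S j = 4 ^ j * M j := ⟨_, fun _ => rfl⟩
  simp only [← hSd]
  have hM1 : ∀ j, S j + 2 * M j ≤ M (j + 1) := fun j => by rw [hSd, ← add_mul]; exact hM j
  have hMS : ∀ j, M j ≤ S j := fun j => by
    rw [hSd]; exact Nat.le_mul_of_pos_left _ (by positivity)
  have hMm : StrictMono M := strictMono_nat_of_lt_succ fun j => by
    have := hM1 j; have := hM0 j; omega
  have hSm : StrictMono S := strictMono_nat_of_lt_succ fun j => by
    have := hM1 j; have := hM0 j; have := hMS (j + 1); omega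
  have hlt : ∀ i j k, i < j → k < S i + 2 * M i → k < M j := fun i j k hij hk =>
    hk.trans_le ((hM1 i).trans (hMm.monotone hij))
  have huniq : ∀ i j k, S i ≤ k → k < S i + 2 * M i → S j ≤ k → k < S j + 2 * M j → i = j := by
    intro i j k h1 h2 h3 h4
    rcases lt_trichotomy i j with h | h | h
    · have := hlt i j k h h2; have := hMS j; omega
    · exact h
    · have := hlt j i k h h4; have := hMS i; omega
  obtain ⟨J, hJ⟩ : ∃ J : ℕ → ℕ, ∀ j k, S j ≤ k → k < S j + 2 * M j → J k = j := by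
    refine ⟨fun k => if h : ∃ j, S j ≤ k ∧ k < S j + 2 * M j then h.choose else 0, ?_⟩
    intro j k h1 h2
    have h : ∃ j, S j ≤ k ∧ k < S j + 2 * M j := ⟨j, h1, h2⟩
    simp only [dif_pos h]
    exact huniq _ _ k h.choose_spec.1 h.choose_spec.2 h1 h2
  set B : ℕ → Finset ℕ := fun N => (range N).filter fun k => ∃ j, S j ≤ k ∧ k < S j + 2 * M j
    with hB
  set G : ℕ → Finset ℕ := fun N => (range N).filter fun k => ¬ ∃ j, S j ≤ k ∧ k < S j + 2 * M j
    with hG
  have hBc : Tendsto (fun N : ℕ => ((B N).card : ℝ) / N) atTop (𝓝 0) := by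
    rw [Metric.tendsto_atTop]
    intro ε hε
    obtain ⟨j0, hj0⟩ := pow_unbounded_of_one_lt (3 / ε) (show (1 : ℝ) < 4 by norm_num)
    refine ⟨S j0, fun N hN => ?_⟩
    obtain ⟨j, h1, h2, h3⟩ := locate S hSm j0 N hN
    have h4 : B N ⊆ range (M j) ∪ Ico (S j) (S j + 2 * M j) := by
      intro k hk
      simp only [hB, mem_filter, mem_range, mem_union, mem_Ico] at hk ⊢
      obtain ⟨hk, i, h5, h6⟩ := hk
      have h7 : i < j + 1 := hSm.lt_iff_lt.mp (by omega)
      rcases Nat.lt_succ_iff_lt_or_eq.mp h7 with h | h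
      · exact Or.inl (hlt i j k h h6)
      · subst h; exact Or.inr ⟨h5, h6⟩
    have h5 : (B N).card ≤ 3 * M j := by
      have := (card_le_card h4).trans (card_union_le _ _)
      simp only [card_range, Nat.card_Ico] at this
      omega
    have h6 : (4 : ℝ) ^ j0 * M j ≤ N := by
      have : 4 ^ j0 * M j ≤ N := (Nat.mul_le_mul_right _ (Nat.pow_le_pow_right (by norm_num) h1)).trans
        (hSd j ▸ h2)
      exact_mod_cast this
    have h7 : (0 : ℝ) < M j := by exact_mod_cast hM0 j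
    have h8 : (0 : ℝ) < N := lt_of_lt_of_le (by positivity) h6
    have h9 : ((B N).card : ℝ) ≤ 3 * M j := by exact_mod_cast h5
    rw [Real.dist_eq, sub_zero, abs_of_nonneg (by positivity), div_lt_iff₀ h8]
    rw [div_lt_iff₀ hε] at hj0
    nlinarith
  have hGc : Tendsto (fun N : ℕ => ((G N).card : ℝ) / N) atTop (𝓝 1) := by
    have h1 := hBc.const_sub 1
    rw [sub_zero] at h1
    refine h1.congr' ?_
    filter_upwards [eventually_gt_atTop 0] with N hN
    have h2 : (B N).card + (G N).card = N := by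
      simp only [hB, hG]
      rw [card_filter_add_card_filter_not, card_range]
    have h3 : ((B N).card : ℝ) + (G N).card = N := by exact_mod_cast h2
    have h4 : (0 : ℝ) < N := by exact_mod_cast hN
    field_simp
    linarith
  obtain ⟨x, hx⟩ := exists_PP G (fun N => filter_subset _ _)
    (fun N N' h => filter_subset_filter _ (range_mono h)) hGc
  set τ : ℕ → ℝ := fun j => 1 / 2 ^ (j + 2) with hτ
  set σ : ℕ → ℝ := fun j => τ j / (4 * M j) with hσ
  have hτ0 : ∀ j, 0 < τ j := fun j => by simp only [hτ]; positivity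
  have hMr : ∀ j, (1 : ℝ) ≤ M j := fun j => by exact_mod_cast hM0 j
  have hσ0 : ∀ j, 0 < σ j := fun j => by
    have := hτ0 j; have := hMr j; simp only [hσ]; positivity
  have hτa : ∀ i j, i ≤ j → τ j ≤ τ i := fun i j h => by
    simp only [hτ]; gcongr; norm_num
  have hτh : ∀ i j, i < j → τ j ≤ τ i / 2 := fun i j h => by
    refine (hτa (i + 1) j h).trans_eq ?_
    simp only [hτ]; field_simp; ring
  have hσa : ∀ i j, i ≤ j → σ j ≤ σ i := fun i j h => by
    have h1 := hτa i j h
    have h2 : (M i : ℝ) ≤ M j := by exact_mod_cast hMm.monotone h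
    have := hMr i; have := hτ0 i
    simp only [hσ]; gcongr
  have hστ : ∀ j, σ j * (2 * M j) = τ j / 2 := fun j => by
    have := hMr j; simp only [hσ]; field_simp; ring
  obtain ⟨w, hw1, hw2⟩ : ∃ w : ℕ → T1,
      (∀ k, (¬ ∃ j, S j ≤ k ∧ k < S j + 2 * M j) → w k = x k) ∧
      ∀ j t, t < 2 * M j → w (S j + t) = ((τ j + t * σ j : ℝ) : T1) := by
    refine ⟨fun k => if ∃ j, S j ≤ k ∧ k < S j + 2 * M j then
      ((τ (J k) + ((k - S (J k) : ℕ) : ℝ) * σ (J k) : ℝ) : T1) else x k,
      fun k hk => if_neg hk, fun j t ht => ?_⟩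
    have h1 : ∃ i, S i ≤ S j + t ∧ S j + t < S i + 2 * M i := ⟨j, by omega, by omega⟩
    simp only [if_pos h1]
    rw [hJ j (S j + t) (by omega) (by omega), Nat.add_sub_cancel_left]
  have hwG : PP w G := by
    intro s hs
    refine (hx s hs).congr fun N => ?_
    have h1 : ∀ k ∈ G N, w k = x k := fun k hk => hw1 k (mem_filter.mp hk).2
    congr 2
    apply le_antisymm
    · exact Pc_le subset_rfl fun k hk l hl h => by rwa [h1 k hk, h1 l hl]
    · exact Pc_le subset_rfl fun k hk l hl h => by rwa [← h1 k hk, ← h1 l hl]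
  have hrange : ∀ j (t : ℕ), t < 2 * M j → τ j ≤ τ j + t * σ j ∧ τ j + t * σ j ≤ 3 / 2 * τ j := by
    intro j t ht
    have h1 : (t : ℝ) ≤ 2 * M j := by exact_mod_cast ht.le
    have h2 := hσ0 j
    have h3 := hστ j
    constructor
    · have : 0 ≤ (t : ℝ) * σ j := by positivity
      linarith
    · nlinarith
  have hw : PP w range := by
    refine insertion w G B (fun N => ?_) hwG hBc fun s => ?_
    · simp only [hB, hG]; rw [union_comm, filter_union_filter_not_eq]
    obtain ⟨j0, hj0⟩ := pow_unbounded_of_one_lt (16 * s) (show (1 : ℝ) < 2 by norm_num)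
    filter_upwards [eventually_ge_atTop (S j0)] with N hN
    obtain ⟨j, h1, h2, h3⟩ := locate S hSm j0 N hN
    have h4 : s / N ≤ σ j := by
      have h5 : (4 : ℝ) ^ j * M j ≤ N := by
        have := hSd j ▸ h2
        exact_mod_cast this
      have h6 := hMr j
      have h7 : (2 : ℝ) ^ j0 ≤ 2 ^ j := pow_le_pow_right₀ (by norm_num) h1
      rw [div_le_iff₀ (lt_of_lt_of_le (by positivity) h5)]
      calc s ≤ 2 ^ j / 16 := by linarith
        _ = σ j * (4 ^ j * M j) := by
          simp only [hσ, hτ]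
          rw [show (4 : ℝ) ^ j = 2 ^ j * 2 ^ j by rw [← mul_pow]; norm_num]
          field_simp; ring
        _ ≤ _ := by have := hσ0 j; gcongr
    have key : ∀ i i' (t t' : ℕ), i ≤ j → i' ≤ j → t < 2 * M i → t' < 2 * M i' →
        S i + t ≠ S i' + t' → σ j ≤ |τ i + t * σ i - (τ i' + t' * σ i')| := by
      intro i i' t t' hi hi' ht ht' hne
      have h5 := hrange i t ht
      have h6 := hrange i' t' ht'
      have h7 : ∀ i, σ i ≤ τ i / 4 := fun i => by
        have := hστ i; have := hMr i; have := hσ0 i; nlinarith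
      rcases lt_trichotomy i i' with h | h | h
      · have := hτh i i' h; have := h7 i; have := hσa i j hi
        exact le_abs.mpr (Or.inl (by linarith))
      · subst h
        have h8 : (1 : ℝ) ≤ |(t : ℝ) - t'| := by
          have : (t : ℤ) - t' ≠ 0 := by omega
          have := Int.one_le_abs this
          exact_mod_cast this
        rw [show τ i + t * σ i - (τ i + t' * σ i) = (t - t') * σ i by ring, abs_mul,
          abs_of_pos (hσ0 i)]
        have := hσa i j hi; have := hσ0 i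
        nlinarith
      · have := hτh i' i h; have := h7 i'; have := hσa i' j hi'
        exact le_abs.mpr (Or.inr (by linarith))
    intro k hk l hl hkl
    simp only [hB, mem_filter, mem_range] at hk hl
    obtain ⟨hk, i, h5, h6⟩ := hk
    obtain ⟨hl, i', h7, h8⟩ := hl
    obtain ⟨t, rfl⟩ := Nat.exists_eq_add_of_le h5
    obtain ⟨t', rfl⟩ := Nat.exists_eq_add_of_le h7
    have h9 : i < j + 1 := hSm.lt_iff_lt.mp (by omega)
    have h10 : i' < j + 1 := hSm.lt_iff_lt.mp (by omega)
    have ht : t < 2 * M i := by omega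
    have ht' : t' < 2 * M i' := by omega
    rw [hw2 i t ht, hw2 i' t' ht', ← AddCircle.coe_sub,
      (AddCircle.norm_coe_eq_abs_iff 1 one_ne_zero).mpr]
    · exact h4.trans (key i i' t t' (by omega) (by omega) ht ht' hkl)
    · have h11 := hrange i t ht
      have h12 := hrange i' t' ht'
      have h13 := hτa 0 i (Nat.zero_le _)
      have h14 := hτa 0 i' (Nat.zero_le _)
      have h15 : τ 0 = 1 / 4 := by simp only [hτ]; norm_num
      have h16 := hτ0 i; have h17 := hτ0 i'
      rw [h15] at h13 h14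
      rw [abs_one, abs_le]
      constructor <;> linarith only [h11.1, h11.2, h12.1, h12.2, h13, h14, h16, h17]
  set η : ℕ → ℝ := fun k => 1 / ((k : ℝ) + 1) ^ 8 with hη
  have hη0 : ∀ k, 0 < η k := fun k => by simp only [hη]; positivity
  have hηa : ∀ k l, k ≤ l → η l ≤ η k := fun k l h => by simp only [hη]; gcongr
  choose! ap hap1 hap2 using approx
  set d : ℕ → ℕ := fun j => ap (σ j : T1) (η (S j + 2 * M j) / (4 * M j)) 0 with hd
  have hdp : ∀ j, 0 < η (S j + 2 * M j) / (4 * M j) := fun j => by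
    have := hη0 (S j + 2 * M j); have := hMr j; positivity
  obtain ⟨a, ha0, ha1, ha2⟩ : ∃ a : ℕ → ℕ, a 0 = ap (w 0) (η (3 * 0) / 2) 0 ∧
      (∀ k, (∃ j, S j < k + 1 ∧ k + 1 < S j + 2 * M j) → a (k + 1) = a k + d (J (k + 1))) ∧
      ∀ k, (¬ ∃ j, S j < k + 1 ∧ k + 1 < S j + 2 * M j) →
        a (k + 1) = ap (w (k + 1)) (η (3 * (k + 1)) / 2) (a k) :=
    ⟨fun k => Nat.rec (ap (w 0) (η (3 * 0) / 2) 0) (fun k a =>
      if ∃ j, S j < k + 1 ∧ k + 1 < S j + 2 * M j then a + d (J (k + 1))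
      else ap (w (k + 1)) (η (3 * (k + 1)) / 2) a) k, rfl, fun k h => if_pos h, fun k h => if_neg h⟩
  have hAP : ∀ j, ∀ t < 2 * M j, a (S j + t) = a (S j) + t * d j := by
    intro j t
    induction t with
    | zero => simp
    | succ t ih =>
      intro ht
      rw [← add_assoc, ha1 _ ⟨j, by omega, by omega⟩, ih (by omega),
        hJ j _ (by omega) (by omega)]
      ring
  have hnon : ∀ k, (¬ ∃ j, S j < k ∧ k < S j + 2 * M j) →
      ‖(((a k : ℝ) * Real.sqrt 2 : ℝ) : T1) - w k‖ ≤ η (3 * k) / 2 := by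
    intro k hk
    cases k with
    | zero => rw [ha0]; exact hap2 _ _ _ (half_pos (hη0 _))
    | succ k => rw [ha2 k hk]; exact hap2 _ _ _ (half_pos (hη0 _))
  refine ⟨a, strictMono_nat_of_lt_succ fun k => ?_, ?_, fun j => ⟨d j, hAP j⟩, ?_⟩
  · by_cases h : ∃ j, S j < k + 1 ∧ k + 1 < S j + 2 * M j
    · rw [ha1 k h]
      exact Nat.lt_add_of_pos_right (hap1 _ _ _ (hdp _))
    · rw [ha2 k h]; exact hap1 _ _ _ (half_pos (hη0 _))
  · rw [ha0]; exact hap1 _ _ _ (half_pos (hη0 _))
  refine stability _ w (fun k => ?_) hw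
  change _ ≤ η k
  by_cases h : ∃ j, S j < k ∧ k < S j + 2 * M j
  · obtain ⟨j, h1, h2⟩ := h
    obtain ⟨t, rfl⟩ := Nat.exists_eq_add_of_le h1.le
    have ht : t < 2 * M j := by omega
    have h3 := hnon (S j) (by
      rintro ⟨i, h4, h5⟩
      have := huniq i j (S j) h4.le h5 le_rfl (by have := hM0 j; omega)
      subst this; omega)
    have h4 := hw2 j 0 (by have := hM0 j; omega)
    rw [add_zero] at h4
    have h5 := hap2 (σ j : T1) _ 0 (hdp j)
    have h6 : (((a (S j + t) : ℝ) * Real.sqrt 2 : ℝ) : T1) - w (S j + t) =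
        ((((a (S j) : ℝ) * Real.sqrt 2 : ℝ) : T1) - w (S j)) +
          t • ((((d j : ℝ) * Real.sqrt 2 : ℝ) : T1) - (σ j : T1)) := by
      rw [hAP j t ht, hw2 j t ht, h4]
      simp only [← AddCircle.coe_sub, ← AddCircle.coe_nsmul, ← AddCircle.coe_add, nsmul_eq_mul]
      congr 1
      push_cast
      ring
    rw [h6]
    refine (norm_add_le _ _).trans ?_
    have h7 := norm_nsmul_le (n := t) (a := (((d j : ℝ) * Real.sqrt 2 : ℝ) : T1) - (σ j : T1))
    have h8 : (t : ℝ) ≤ 2 * M j := by exact_mod_cast ht.le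
    have h9 : (t : ℝ) * ‖(((d j : ℝ) * Real.sqrt 2 : ℝ) : T1) - (σ j : T1)‖ ≤
        (2 * M j) * (η (S j + 2 * M j) / (4 * M j)) := by gcongr
    have h10 : (2 * M j) * (η (S j + 2 * M j) / (4 * M j)) = η (S j + 2 * M j) / 2 := by
      have := hMr j; field_simp; ring
    have h11 := hηa (S j + t) (S j + 2 * M j) (by omega)
    have h12 := hηa (S j + t) (3 * S j) (by have := hMS j; omega)
    linarith
  · have h1 := hnon k h
    have h2 := hηa k (3 * k) (by omega)
    have := hη0 k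
    linarith

end Pool.Agent.H15.PC
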