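import Mathlib
set_option autoImplicit false

namespace Pool.Agent.H15.PL

open Set MeasureTheory

def le (p q : ℝ × ℝ) : Prop :=
  0 ≤ q.2 - p.2 ∧ q.2 - p.2 ≤ q.1 - p.1 ∧ (q.2 = p.2 → q.1 = p.1)

theorem le_rfl' (p : ℝ × ℝ) : le p p := ⟨by simp, by simp, fun _ => rfl⟩

theorem le.trans {p q r : ℝ × ℝ} (h1 : le p q) (h2 : le q r) : le p r := by
  obtain ⟨a1, a2, a3⟩ := h1
  obtain ⟨b1, b2, b3⟩ := h2
  refine ⟨by linarith, by linarith, fun h => ?_⟩
  have e1 : q.2 = p.2 := by linarith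
  have e2 : r.2 = q.2 := by linarith
  rw [b3 e2, a3 e1]

theorem le.antisymm {p q : ℝ × ℝ} (h1 : le p q) (h2 : le q p) : p = q := by
  have e : q.2 = p.2 := by linarith [h1.1, h2.1]
  exact Prod.ext (h1.2.2 e).symm e.symm

def Gap (Γ : Set (ℝ × ℝ)) (p q : ℝ × ℝ) : Prop :=
  p ∈ Γ ∧ q ∈ Γ ∧ 0 < q.2 - p.2 ∧ q.2 - p.2 < q.1 - p.1 ∧ ∀ r ∈ Γ, le r p ∨ le q r

structure Loc (G : AddSubgroup ℝ) (Cx Cy : Set ℝ) (p q : ℝ × ℝ) (Δ : Set (ℝ × ℝ)) : Prop where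
  lo : p ∈ Δ
  hi : q ∈ Δ
  btw : ∀ r ∈ Δ, le p r ∧ le r q
  chain : ∀ r ∈ Δ, ∀ s ∈ Δ, le r s ∨ le s r
  shift : ∀ r ∈ Δ, r.1 - r.2 ∈ G
  gx : ∀ x, p.1 ≤ x → x ≤ q.1 →
    (∃ y, (x, y) ∈ Δ) ∨ (x ∉ Cx ∧ ∃ u v, Gap Δ u v ∧ u.1 < x ∧ x < v.1)
  gy : ∀ y, p.2 ≤ y → y ≤ q.2 →
    (∃ x, (x, y) ∈ Δ) ∨ (y ∉ Cy ∧ ∃ u v, Gap Δ u v ∧ u.2 < y ∧ y < v.2)

structure Cond (G : AddSubgroup ℝ) (Γ : Set (ℝ × ℝ)) : Prop where
  chain : ∀ r ∈ Γ, ∀ s ∈ Γ, le r s ∨ le s r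
  shift : ∀ r ∈ Γ, r.1 - r.2 ∈ G
  gx : ∀ x, (∃ y, (x, y) ∈ Γ) ∨ ∃ u v, Gap Γ u v ∧ u.1 < x ∧ x < v.1
  gy : ∀ y, (∃ x, (x, y) ∈ Γ) ∨ ∃ u v, Gap Γ u v ∧ u.2 < y ∧ y < v.2

variable {G : AddSubgroup ℝ} {Cx Cy : Set ℝ}

theorem le_of_shift {r s : ℝ × ℝ} (h : r.1 - r.2 = s.1 - s.2) (h' : r.1 ≤ s.1) : le r s :=
  ⟨by linarith, by linarith, fun e => by linarith⟩

theorem seg {p q : ℝ × ℝ} (hp : p.1 - p.2 ∈ G) (h : p.1 - p.2 = q.1 - q.2) (h' : p.1 ≤ q.1) :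
    ∃ Δ, Loc G Cx Cy p q Δ := by
  refine ⟨{r | r.1 - r.2 = p.1 - p.2 ∧ p.1 ≤ r.1 ∧ r.1 ≤ q.1}, ⟨rfl, le_rfl, h'⟩,
    ⟨h.symm, h', le_rfl⟩, ?_, ?_, ?_, ?_, ?_⟩
  · rintro r ⟨h1, h2, h3⟩
    exact ⟨le_of_shift h1.symm h2, le_of_shift (h1.trans h) h3⟩
  · rintro r ⟨h1, -, -⟩ s ⟨h2, -, -⟩
    rcases le_total r.1 s.1 with e | e
    · exact Or.inl (le_of_shift (h1.trans h2.symm) e)
    · exact Or.inr (le_of_shift (h2.trans h1.symm) e)
  · rintro r ⟨h1, -, -⟩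
    rw [h1]; exact hp
  · intro x h1 h2
    exact Or.inl ⟨x - (p.1 - p.2), by simp, h1, h2⟩
  · intro y h1 h2
    refine Or.inl ⟨y + (p.1 - p.2), by simp, ?_, ?_⟩
    · show p.1 ≤ y + (p.1 - p.2)
      linarith
    · show y + (p.1 - p.2) ≤ q.1
      linarith

theorem gap {p q : ℝ × ℝ} (hp : p.1 - p.2 ∈ G) (hq : q.1 - q.2 ∈ G) (h1 : 0 < q.2 - p.2)
    (h2 : q.2 - p.2 < q.1 - p.1) (hx : ∀ x, p.1 < x → x < q.1 → x ∉ Cx)
    (hy : ∀ y, p.2 < y → y < q.2 → y ∉ Cy) : ∃ Δ, Loc G Cx Cy p q Δ := by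
  have hpq : le p q := ⟨h1.le, h2.le, fun e => by linarith⟩
  have hg : Gap {p, q} p q := by
    refine ⟨Or.inl rfl, Or.inr rfl, h1, h2, ?_⟩
    rintro r (rfl | rfl)
    · exact Or.inl (le_rfl' _)
    · exact Or.inr (le_rfl' _)
  refine ⟨{p, q}, Or.inl rfl, Or.inr rfl, ?_, ?_, ?_, ?_, ?_⟩
  · rintro r (rfl | rfl)
    · exact ⟨le_rfl' _, hpq⟩
    · exact ⟨hpq, le_rfl' _⟩
  · rintro r (rfl | rfl) s (rfl | rfl)
    · exact Or.inl (le_rfl' _)
    · exact Or.inl hpq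
    · exact Or.inr hpq
    · exact Or.inl (le_rfl' _)
  · rintro r (rfl | rfl)
    · exact hp
    · exact hq
  · intro x a b
    rcases a.eq_or_lt with a | a
    · exact Or.inl ⟨p.2, Or.inl (by rw [← a])⟩
    rcases b.eq_or_lt with b | b
    · exact Or.inl ⟨q.2, Or.inr (by rw [b]; rfl)⟩
    exact Or.inr ⟨hx x a b, p, q, hg, a, b⟩
  · intro y a b
    rcases a.eq_or_lt with a | a
    · exact Or.inl ⟨p.1, Or.inl (by rw [← a])⟩
    rcases b.eq_or_lt with b | b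
    · exact Or.inl ⟨q.1, Or.inr (by rw [b]; rfl)⟩
    exact Or.inr ⟨hy y a b, p, q, hg, a, b⟩

theorem concat {p r q : ℝ × ℝ} (h1 : ∃ Δ, Loc G Cx Cy p r Δ) (h2 : ∃ Δ, Loc G Cx Cy r q Δ) :
    ∃ Δ, Loc G Cx Cy p q Δ := by
  obtain ⟨A, hA⟩ := h1
  obtain ⟨B, hB⟩ := h2
  have gA : ∀ u v, Gap A u v → Gap (A ∪ B) u v := by
    rintro u v ⟨a, b, c, d, e⟩
    refine ⟨Or.inl a, Or.inl b, c, d, ?_⟩
    rintro s (hs | hs)
    · exact e s hs
    · exact Or.inr ((hA.btw v b).2.trans (hB.btw s hs).1)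
  have gB : ∀ u v, Gap B u v → Gap (A ∪ B) u v := by
    rintro u v ⟨a, b, c, d, e⟩
    refine ⟨Or.inr a, Or.inr b, c, d, ?_⟩
    rintro s (hs | hs)
    · exact Or.inl ((hA.btw s hs).2.trans (hB.btw u a).1)
    · exact e s hs
  refine ⟨A ∪ B, Or.inl hA.lo, Or.inr hB.hi, ?_, ?_, ?_, ?_, ?_⟩
  · rintro s (hs | hs)
    · exact ⟨(hA.btw s hs).1, (hA.btw s hs).2.trans (hB.btw q hB.hi).1⟩
    · exact ⟨(hA.btw p hA.lo).2.trans (hB.btw s hs).1, (hB.btw s hs).2⟩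
  · rintro s (hs | hs) t (ht | ht)
    · exact hA.chain s hs t ht
    · exact Or.inl ((hA.btw s hs).2.trans (hB.btw t ht).1)
    · exact Or.inr ((hA.btw t ht).2.trans (hB.btw s hs).1)
    · exact hB.chain s hs t ht
  · rintro s (hs | hs)
    · exact hA.shift s hs
    · exact hB.shift s hs
  · intro x a b
    rcases le_total x r.1 with c | c
    · rcases hA.gx x a c with ⟨y, hy⟩ | ⟨h, u, v, g, h'⟩
      · exact Or.inl ⟨y, Or.inl hy⟩
      · exact Or.inr ⟨h, u, v, gA u v g, h'⟩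
    · rcases hB.gx x c b with ⟨y, hy⟩ | ⟨h, u, v, g, h'⟩
      · exact Or.inl ⟨y, Or.inr hy⟩
      · exact Or.inr ⟨h, u, v, gB u v g, h'⟩
  · intro x a b
    rcases le_total x r.2 with c | c
    · rcases hA.gy x a c with ⟨y, hy⟩ | ⟨h, u, v, g, h'⟩
      · exact Or.inl ⟨y, Or.inl hy⟩
      · exact Or.inr ⟨h, u, v, gA u v g, h'⟩
    · rcases hB.gy x c b with ⟨y, hy⟩ | ⟨h, u, v, g, h'⟩
      · exact Or.inl ⟨y, Or.inr hy⟩
      · exact Or.inr ⟨h, u, v, gB u v g, h'⟩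

open Classical in
noncomputable def W (mark : ℕ → Prop) (δ : ℝ) (N : ℕ) : ℝ :=
  ∑ i ∈ Finset.range N, if mark i then 0 else δ

theorem W_nonneg (mark : ℕ → Prop) {δ : ℝ} (hδ : 0 < δ) (N : ℕ) : 0 ≤ W mark δ N :=
  Finset.sum_nonneg fun i _ => by split_ifs <;> linarith

theorem W_pos (mark : ℕ → Prop) (δ : ℝ) (N : ℕ) (h : mark N) : W mark δ (N + 1) = W mark δ N := by
  simp [W, Finset.sum_range_succ, h]

theorem W_neg (mark : ℕ → Prop) (δ : ℝ) (N : ℕ) (h : ¬ mark N) :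
    W mark δ (N + 1) = W mark δ N + δ := by
  simp [W, Finset.sum_range_succ, h]

theorem pick (hG : Dense (G : Set ℝ)) {a b : ℝ} (h : a < b) : ∃ d ∈ G, a < d ∧ d < b := by
  obtain ⟨d, h1, h2⟩ := hG.exists_between h
  exact ⟨d, h1, h2.1, h2.2⟩

theorem sweepX (hG : Dense (G : Set ℝ)) (C : Set ℝ) (p : ℝ × ℝ) (hp : p.1 - p.2 ∈ G) {δ : ℝ}
    (hδ : 0 < δ) (mark : ℕ → Prop)
    (hm : ∀ i : ℕ, ¬ mark i → ∀ x, p.1 + i * δ < x → x < p.1 + (i + 1) * δ → x ∉ C) (N : ℕ) :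
    ∀ q : ℝ × ℝ, q.1 = p.1 + N * δ → q.1 - q.2 ∈ G →
      ((q.1 - q.2 - (p.1 - p.2) = 0 ∧ W mark δ N = 0) ∨
        (0 < q.1 - q.2 - (p.1 - p.2) ∧ q.1 - q.2 - (p.1 - p.2) < W mark δ N)) →
      ∃ Δ, Loc G C ∅ p q Δ := by
  induction N with
  | zero =>
    intro q h1 _ h3
    have h0 : W mark δ 0 = 0 := by simp [W]
    simp only [Nat.cast_zero, zero_mul, add_zero] at h1
    rcases h3 with h3 | h3
    · exact seg hp (by linarith [h3.1]) h1.ge
    · linarith [h3.1, h3.2]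
  | succ N ih =>
    intro q h1 h2 h3
    push_cast at h1
    by_cases hN : mark N
    · rw [W_pos _ _ _ hN] at h3
      have e : (q.1 - δ) - (q.2 - δ) = q.1 - q.2 := by ring
      refine concat (ih (q.1 - δ, q.2 - δ) (by simp only; linarith) (by simp only [e]; exact h2)
        (by simp only [e]; exact h3)) (seg (by simp only [e]; exact h2) e (by simp only; linarith))
    · rw [W_neg _ _ _ hN] at h3
      have hW := W_nonneg mark hδ N
      have h4 : 0 < q.1 - q.2 - (p.1 - p.2) ∧ q.1 - q.2 - (p.1 - p.2) < W mark δ N + δ := by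
        rcases h3 with h3 | h3
        · linarith [h3.2]
        · exact h3
      obtain ⟨d, hd, d0, d1, d2⟩ : ∃ d ∈ G, 0 < d ∧ d < δ ∧
          ((q.1 - q.2 - d - (p.1 - p.2) = 0 ∧ W mark δ N = 0) ∨
          (0 < q.1 - q.2 - d - (p.1 - p.2) ∧ q.1 - q.2 - d - (p.1 - p.2) < W mark δ N)) := by
        rcases hW.eq_or_lt with h0 | h0
        · exact ⟨_, G.sub_mem h2 hp, h4.1, by linarith [h4.2], Or.inl ⟨by ring, h0.symm⟩⟩
        · obtain ⟨d, hd, a, b⟩ := pick hG (a := max 0 (q.1 - q.2 - (p.1 - p.2) - W mark δ N))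
            (b := min δ (q.1 - q.2 - (p.1 - p.2)))
            (max_lt (lt_min hδ h4.1) (lt_min (by linarith [h4.2]) (by linarith)))
          rw [max_lt_iff] at a
          rw [lt_min_iff] at b
          exact ⟨d, hd, a.1, b.1, Or.inr ⟨by linarith [b.2], by linarith [a.2]⟩⟩
      have e : (q.1 - δ) - (q.2 - δ + d) = q.1 - q.2 - d := by ring
      have hr : q.1 - q.2 - d ∈ G := G.sub_mem h2 hd
      refine concat (ih (q.1 - δ, q.2 - δ + d) (by simp only; linarith)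
        (by simp only [e]; exact hr) (by simp only [e]; exact d2))
        (gap (by simp only [e]; exact hr) h2 (by simp only; linarith) (by simp only; linarith)
          (fun x a b => hm N hN x (by simp only at a; linarith) (by linarith))
          (fun _ _ _ h => h))

theorem sweepY (hG : Dense (G : Set ℝ)) (C : Set ℝ) (p : ℝ × ℝ) (hp : p.1 - p.2 ∈ G) {δ : ℝ}
    (hδ : 0 < δ) (mark : ℕ → Prop)
    (hm : ∀ i : ℕ, ¬ mark i → ∀ x, p.2 + i * δ < x → x < p.2 + (i + 1) * δ → x ∉ C) (N : ℕ) :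
    ∀ q : ℝ × ℝ, q.2 = p.2 + N * δ → q.1 - q.2 ∈ G →
      ((q.1 - q.2 - (p.1 - p.2) = 0 ∧ W mark δ N = 0) ∨
        (0 < q.1 - q.2 - (p.1 - p.2) ∧ 0 < W mark δ N)) →
      ∃ Δ, Loc G ∅ C p q Δ := by
  induction N with
  | zero =>
    intro q h1 _ h3
    have h0 : W mark δ 0 = 0 := by simp [W]
    simp only [Nat.cast_zero, zero_mul, add_zero] at h1
    rcases h3 with h3 | h3
    · exact seg hp (by linarith [h3.1]) (by linarith [h3.1])
    · linarith [h3.1, h3.2]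
  | succ N ih =>
    intro q h1 h2 h3
    push_cast at h1
    by_cases hN : mark N
    · rw [W_pos _ _ _ hN] at h3
      have e : (q.1 - δ) - (q.2 - δ) = q.1 - q.2 := by ring
      refine concat (ih (q.1 - δ, q.2 - δ) (by simp only; linarith) (by simp only [e]; exact h2)
        (by simp only [e]; exact h3)) (seg (by simp only [e]; exact h2) e (by simp only; linarith))
    · rw [W_neg _ _ _ hN] at h3
      have hW := W_nonneg mark hδ N
      have h4 : 0 < q.1 - q.2 - (p.1 - p.2) := by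
        rcases h3 with h3 | h3
        · linarith [h3.2]
        · exact h3.1
      obtain ⟨d, hd, d0, d2⟩ : ∃ d ∈ G, 0 < d ∧
          ((q.1 - q.2 - d - (p.1 - p.2) = 0 ∧ W mark δ N = 0) ∨
          (0 < q.1 - q.2 - d - (p.1 - p.2) ∧ 0 < W mark δ N)) := by
        rcases hW.eq_or_lt with h0 | h0
        · exact ⟨_, G.sub_mem h2 hp, h4, Or.inl ⟨by ring, h0.symm⟩⟩
        · obtain ⟨d, hd, a, b⟩ := pick hG h4
          exact ⟨d, hd, a, Or.inr ⟨by linarith, h0⟩⟩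
      have e : (q.1 - δ - d) - (q.2 - δ) = q.1 - q.2 - d := by ring
      have hr : q.1 - q.2 - d ∈ G := G.sub_mem h2 hd
      refine concat (ih (q.1 - δ - d, q.2 - δ) (by simp only; linarith)
        (by simp only [e]; exact hr) (by simp only [e]; exact d2))
        (gap (by simp only [e]; exact hr) h2 (by simp only; linarith) (by simp only; linarith)
          (fun _ _ _ h => h)
          (fun x a b => hm N hN x (by simp only at a; linarith) (by linarith)))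

theorem mesh {C : Set ℝ} (hC : IsCompact C) (h0 : volume C = 0) {a b ε : ℝ} (hab : a < b)
    (hε : 0 < ε) : ∃ (N : ℕ) (δ : ℝ) (mark : ℕ → Prop), 0 < δ ∧ b = a + N * δ ∧
      (∀ i : ℕ, ¬ mark i → ∀ x, a + i * δ < x → x < a + (i + 1) * δ → x ∉ C) ∧
      b - a - ε < W mark δ N := by
  have h1 := tendsto_measure_cthickening_of_isCompact (μ := volume) hC
  rw [h0] at h1
  have h2 := h1.eventually (gt_mem_nhds (ENNReal.ofReal_pos.2 hε))
  obtain ⟨η, hη, h3⟩ := Metric.eventually_nhds_iff.1 h2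
  obtain ⟨N, hN⟩ := exists_nat_gt ((b - a) / η)
  have hN0 : (0 : ℝ) < N := lt_trans (div_pos (sub_pos.2 hab) hη) hN
  set δ := (b - a) / N with hδ
  have δ0 : 0 < δ := div_pos (sub_pos.2 hab) hN0
  have δη : δ < η := by
    rw [hδ, div_lt_iff₀ hN0]
    rw [div_lt_iff₀ hη] at hN
    linarith
  have hT : volume (Metric.cthickening δ C) < ENNReal.ofReal ε :=
    h3 (by rw [Real.dist_eq, sub_zero, abs_of_pos δ0]; exact δη)
  set T := Metric.cthickening δ C with hTd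
  let mark : ℕ → Prop := fun i => Ioc (a + i * δ) (a + (i + 1) * δ) ⊆ T
  have hb : b = a + N * δ := by rw [hδ]; field_simp; ring
  refine ⟨N, δ, mark, δ0, hb, ?_, ?_⟩
  · intro i hi x h1 h2 hx
    apply hi
    intro z hz
    refine Metric.mem_cthickening_of_dist_le z x δ C hx ?_
    rw [Real.dist_eq, abs_le]
    constructor <;> linarith [hz.1, hz.2]
  · have key : ∀ n : ℕ, ENNReal.ofReal (n * δ - W mark δ n) ≤ volume (T ∩ Iic (a + n * δ)) := by
      intro n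
      induction n with
      | zero => simp [W]
      | succ n ih =>
        push_cast
        by_cases hn : mark n
        · rw [W_pos _ _ _ hn]
          have e : (n + 1) * δ - W mark δ n = (n * δ - W mark δ n) + δ := by ring
          rw [e]
          refine ENNReal.ofReal_add_le.trans ?_
          have hv : volume (Ioc (a + n * δ) (a + (n + 1) * δ)) = ENNReal.ofReal δ := by
            rw [Real.volume_Ioc]; congr 1; ring
          rw [← hv]
          refine (add_le_add ih le_rfl).trans ?_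
          rw [← measure_union _ measurableSet_Ioc]
          · apply measure_mono
            rintro z (hz | hz)
            · exact ⟨hz.1, by have := hz.2; simp only [mem_Iic] at this ⊢; linarith⟩
            · exact ⟨hn hz, hz.2⟩
          · rw [Set.disjoint_left]
            intro z hz hz'
            exact absurd hz.2 (not_le.2 hz'.1)
        · rw [W_neg _ _ _ hn]
          have e : (n + 1) * δ - (W mark δ n + δ) = n * δ - W mark δ n := by ring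
          rw [e]
          refine ih.trans (measure_mono ?_)
          intro z hz
          exact ⟨hz.1, by have := hz.2; simp only [mem_Iic] at this ⊢; linarith⟩
    have h4 := ((key N).trans (measure_mono inter_subset_left)).trans_lt hT
    rw [ENNReal.ofReal_lt_ofReal_iff hε] at h4
    linarith

theorem locX (hG : Dense (G : Set ℝ)) {C : Set ℝ} (hC : IsCompact C) (h0 : volume C = 0)
    (p q : ℝ × ℝ) (hp : p.1 - p.2 ∈ G) (hq : q.1 - q.2 ∈ G) (h1 : 0 < q.2 - p.2)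
    (h2 : q.2 - p.2 < q.1 - p.1) : ∃ Δ, Loc G C ∅ p q Δ := by
  obtain ⟨N, δ, mark, a, b, c, d⟩ := mesh hC h0 (a := p.1) (b := q.1) (by linarith) h1
  exact sweepX hG C p hp a mark c N q b hq (Or.inr ⟨by linarith, by linarith⟩)

theorem locY (hG : Dense (G : Set ℝ)) {C : Set ℝ} (hC : IsCompact C) (h0 : volume C = 0)
    (p q : ℝ × ℝ) (hp : p.1 - p.2 ∈ G) (hq : q.1 - q.2 ∈ G) (h1 : 0 < q.2 - p.2)
    (h2 : q.2 - p.2 < q.1 - p.1) : ∃ Δ, Loc G ∅ C p q Δ := by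
  obtain ⟨N, δ, mark, a, b, c, d⟩ := mesh hC h0 (a := p.2) (b := q.2) (by linarith) h1
  exact sweepY hG C p hp a mark c N q b hq (Or.inr ⟨by linarith, by linarith⟩)

end Pool.Agent.H15.PL
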