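import Mathlib
import Pool.Agent.H15.PL1
set_option autoImplicit false

namespace Pool.Agent.H15.PL

open Set MeasureTheory

variable {G : AddSubgroup ℝ} {Cx Cy : Set ℝ}

theorem gap_cases {Γ : Set (ℝ × ℝ)} {p q p' q' : ℝ × ℝ} (h : Gap Γ p q) (h' : Gap Γ p' q') :
    (p = p' ∧ q = q') ∨ le q p' ∨ le q' p := by
  rcases h.2.2.2.2 p' h'.1 with a | a
  swap
  · exact Or.inr (Or.inl a)
  rcases h'.2.2.2.2 p h.1 with b | b
  swap
  · exact Or.inr (Or.inr b)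
  rcases h.2.2.2.2 q' h'.2.1 with c | c
  · exact Or.inr (Or.inr c)
  rcases h'.2.2.2.2 q h.2.1 with d | d
  · exact Or.inr (Or.inl d)
  exact Or.inl ⟨b.antisymm a, c.antisymm d⟩

theorem step (hloc : ∀ p q : ℝ × ℝ, p.1 - p.2 ∈ G → q.1 - q.2 ∈ G → 0 < q.2 - p.2 →
      q.2 - p.2 < q.1 - p.1 → ∃ Δ, Loc G Cx Cy p q Δ) (Γ : Set (ℝ × ℝ)) (h : Cond G Γ) :
    ∃ Γ', Cond G Γ' ∧ Γ ⊆ Γ' ∧ (∀ x ∈ Cx, ∃ y, (x, y) ∈ Γ') ∧ (∀ y ∈ Cy, ∃ x, (x, y) ∈ Γ') := by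
  have hex : ∀ p q : ℝ × ℝ, ∃ Δ, Gap Γ p q → Loc G Cx Cy p q Δ := by
    intro p q
    by_cases g : Gap Γ p q
    · obtain ⟨Δ, hΔ⟩ := hloc p q (h.shift p g.1) (h.shift q g.2.1) g.2.2.1 g.2.2.2.1
      exact ⟨Δ, fun _ => hΔ⟩
    · exact ⟨∅, fun g' => absurd g' g⟩
  choose Δ hΔ using hex
  let Γ' : Set (ℝ × ℝ) := Γ ∪ {r | ∃ p q, Gap Γ p q ∧ r ∈ Δ p q}
  have hsub : ∀ p q, Gap Γ p q → Δ p q ⊆ Γ' := fun p q g r hr => Or.inr ⟨p, q, g, hr⟩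
  have out : ∀ p q, Gap Γ p q → ∀ r ∈ Γ', r ∈ Δ p q ∨ le r p ∨ le q r := by
    rintro p q g r (hr | ⟨p', q', g', hr⟩)
    · exact Or.inr (g.2.2.2.2 r hr)
    · rcases gap_cases g g' with ⟨rfl, rfl⟩ | a | a
      · exact Or.inl hr
      · exact Or.inr (Or.inr (a.trans ((hΔ p' q' g').btw r hr).1))
      · exact Or.inr (Or.inl (((hΔ p' q' g').btw r hr).2.trans a))
  have newgap : ∀ p q, Gap Γ p q → ∀ u v, Gap (Δ p q) u v → Gap Γ' u v := by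
    rintro p q g u v ⟨a, b, c, d, e⟩
    refine ⟨hsub p q g a, hsub p q g b, c, d, fun r hr => ?_⟩
    rcases out p q g r hr with k | k | k
    · exact e r k
    · exact Or.inl (k.trans ((hΔ p q g).btw u a).1)
    · exact Or.inr (((hΔ p q g).btw v b).2.trans k)
  have half : ∀ r, (∃ p q, Gap Γ p q ∧ r ∈ Δ p q) → ∀ s ∈ Γ', le r s ∨ le s r := by
    rintro r ⟨p, q, g, hr⟩ s hs
    rcases out p q g s hs with k | k | k
    · exact (hΔ p q g).chain r hr s k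
    · exact Or.inr (k.trans ((hΔ p q g).btw r hr).1)
    · exact Or.inl (((hΔ p q g).btw r hr).2.trans k)
  have kx : ∀ x, (∃ y, (x, y) ∈ Γ') ∨ (x ∉ Cx ∧ ∃ u v, Gap Γ' u v ∧ u.1 < x ∧ x < v.1) := by
    intro x
    rcases h.gx x with ⟨y, hy⟩ | ⟨p, q, g, a, b⟩
    · exact Or.inl ⟨y, Or.inl hy⟩
    · rcases (hΔ p q g).gx x a.le b.le with ⟨y, hy⟩ | ⟨c, u, v, g', d⟩
      · exact Or.inl ⟨y, hsub p q g hy⟩
      · exact Or.inr ⟨c, u, v, newgap p q g u v g', d⟩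
  have ky : ∀ y, (∃ x, (x, y) ∈ Γ') ∨ (y ∉ Cy ∧ ∃ u v, Gap Γ' u v ∧ u.2 < y ∧ y < v.2) := by
    intro x
    rcases h.gy x with ⟨y, hy⟩ | ⟨p, q, g, a, b⟩
    · exact Or.inl ⟨y, Or.inl hy⟩
    · rcases (hΔ p q g).gy x a.le b.le with ⟨y, hy⟩ | ⟨c, u, v, g', d⟩
      · exact Or.inl ⟨y, hsub p q g hy⟩
      · exact Or.inr ⟨c, u, v, newgap p q g u v g', d⟩
  refine ⟨Γ', ⟨?_, ?_, fun x => (kx x).imp id And.right, fun y => (ky y).imp id And.right⟩,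
    subset_union_left, fun x hx => (kx x).resolve_right fun k => k.1 hx,
    fun y hy => (ky y).resolve_right fun k => k.1 hy⟩
  · rintro r (hr | hr) s hs
    · rcases hs with hs | hs
      · exact h.chain r hr s hs
      · exact (half s hs r (Or.inl hr)).symm
    · exact half r hr s hs
  · rintro r (hr | ⟨p, q, g, hr⟩)
    · exact h.shift r hr
    · exact (hΔ p q g).shift r hr

theorem init {g : ℝ} (hg : g ∈ G) (h0 : 0 < g) (h1 : g < 1) :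
    Cond G {r | (r.1 - r.2 = 0 ∧ r.1 ≤ 0) ∨ (r.1 - r.2 = g ∧ 1 ≤ r.1)} := by
  have cross : ∀ r s : ℝ × ℝ, (r.1 - r.2 = 0 ∧ r.1 ≤ 0) → (s.1 - s.2 = g ∧ 1 ≤ s.1) → le r s := by
    rintro r s ⟨a, b⟩ ⟨c, d⟩
    exact ⟨by linarith, by linarith, fun e => by linarith⟩
  have hgap : Gap {r | (r.1 - r.2 = 0 ∧ r.1 ≤ 0) ∨ (r.1 - r.2 = g ∧ 1 ≤ r.1)} (0, 0) (1, 1 - g) := by
    refine ⟨Or.inl ⟨by simp, le_rfl⟩, Or.inr ⟨by simp, le_rfl⟩, by simp only; linarith,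
      by simp only; linarith, ?_⟩
    rintro r (⟨a, b⟩ | ⟨a, b⟩)
    · exact Or.inl (le_of_shift (by simp [a]) b)
    · exact Or.inr (le_of_shift (by simp [a]) b)
  refine ⟨?_, ?_, ?_, ?_⟩
  · rintro r (a | a) s (b | b)
    · rcases le_total r.1 s.1 with e | e
      · exact Or.inl (le_of_shift (a.1.trans b.1.symm) e)
      · exact Or.inr (le_of_shift (b.1.trans a.1.symm) e)
    · exact Or.inl (cross r s a b)
    · exact Or.inr (cross s r b a)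
    · rcases le_total r.1 s.1 with e | e
      · exact Or.inl (le_of_shift (a.1.trans b.1.symm) e)
      · exact Or.inr (le_of_shift (b.1.trans a.1.symm) e)
  · rintro r (a | a)
    · rw [a.1]; exact G.zero_mem
    · rw [a.1]; exact hg
  · intro x
    rcases le_or_gt x 0 with a | a
    · exact Or.inl ⟨x, Or.inl ⟨by simp, a⟩⟩
    rcases le_or_gt 1 x with b | b
    · exact Or.inl ⟨x - g, Or.inr ⟨by simp, b⟩⟩
    exact Or.inr ⟨_, _, hgap, a, b⟩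
  · intro y
    rcases le_or_gt y 0 with a | a
    · exact Or.inl ⟨y, Or.inl ⟨by simp, a⟩⟩
    rcases le_or_gt (1 - g) y with b | b
    · exact Or.inl ⟨y + g, Or.inr ⟨by simp, by simp only; linarith⟩⟩
    exact Or.inr ⟨_, _, hgap, a, b⟩

theorem finish (hG : Dense (G : Set ℝ)) {g : ℝ} (h0 : 0 < g) (Γ : Set (ℝ × ℝ))
    (hsub : {r : ℝ × ℝ | (r.1 - r.2 = 0 ∧ r.1 ≤ 0) ∨ (r.1 - r.2 = g ∧ 1 ≤ r.1)} ⊆ Γ)
    (chain : ∀ r ∈ Γ, ∀ s ∈ Γ, le r s ∨ le s r) (shift : ∀ r ∈ Γ, r.1 - r.2 ∈ G)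
    (hx : ∀ x ∈ G, ∃ y, (x, y) ∈ Γ) (hy : ∀ y ∈ G, ∃ x, (x, y) ∈ Γ) :
    ∃ f : G → G, Function.Bijective f ∧ (∀ x y, dist (f x) (f y) ≤ dist x y) ∧ ¬ Isometry f := by
  have hx' : ∀ x : G, ∃ y : G, ((x : ℝ), (y : ℝ)) ∈ Γ := by
    intro x
    obtain ⟨y, h⟩ := hx x x.2
    have := G.sub_mem x.2 (shift _ h)
    exact ⟨⟨y, by simpa using this⟩, h⟩
  choose f hf using hx'
  have uniq : ∀ x y y' : ℝ, (x, y) ∈ Γ → (x, y') ∈ Γ → y = y' := by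
    intro x y y' a b
    rcases chain _ a _ b with c | c <;> linarith [c.1, c.2.1]
  refine ⟨f, ⟨?_, ?_⟩, ?_, ?_⟩
  · intro x y e
    apply Subtype.ext
    rcases chain _ (hf x) _ (hf y) with c | c
    · exact (c.2.2 (by simp [e])).symm
    · exact c.2.2 (by simp [e])
  · intro y
    obtain ⟨x, h⟩ := hy y y.2
    have := G.add_mem (shift _ h) y.2
    refine ⟨⟨x, by simpa using this⟩, Subtype.ext (uniq x _ _ (hf ⟨x, _⟩) h)⟩
  · intro x y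
    rw [Subtype.dist_eq, Subtype.dist_eq, Real.dist_eq, Real.dist_eq]
    rcases chain _ (hf x) _ (hf y) with c | c
    · have a := c.1
      have b := c.2.1
      simp only at a b
      rw [abs_sub_comm, abs_sub_comm (x : ℝ), abs_of_nonneg a, abs_of_nonneg (a.trans b)]
      exact b
    · have a := c.1
      have b := c.2.1
      simp only at a b
      rw [abs_of_nonneg a, abs_of_nonneg (a.trans b)]
      exact b
  · intro hI
    obtain ⟨x, hxG, a, -⟩ := pick hG (a := 1 + g) (b := 2 + g) (by linarith)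
    have e1 : (f 0 : ℝ) = 0 := uniq 0 _ _ (hf 0) (hsub (Or.inl ⟨by simp, le_rfl⟩))
    have e2 : (f ⟨x, hxG⟩ : ℝ) = x - g :=
      uniq x _ _ (hf ⟨x, hxG⟩) (hsub (Or.inr ⟨by simp, by simp only; linarith⟩))
    have := hI.dist_eq ⟨x, hxG⟩ 0
    rw [Subtype.dist_eq, Subtype.dist_eq, Real.dist_eq, Real.dist_eq, e1, e2] at this
    simp only [ZeroMemClass.coe_zero, sub_zero] at this
    rw [abs_of_pos (by linarith), abs_of_pos (by linarith)] at this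
    linarith

theorem not_plastic (hG : Dense (G : Set ℝ)) (C : ℕ → Set ℝ) (hC : ∀ n, IsCompact (C n))
    (h0 : ∀ n, volume (C n) = 0) (hcov : (G : Set ℝ) ⊆ ⋃ n, C n) :
    ∃ f : G → G, Function.Bijective f ∧ (∀ x y, dist (f x) (f y) ≤ dist x y) ∧ ¬ Isometry f := by
  obtain ⟨g, hg, g0, g1⟩ := pick hG zero_lt_one
  have st : ∀ (n : ℕ) (Γ : {Γ // Cond G Γ}), ∃ Γ' : {Γ // Cond G Γ}, Γ.1 ⊆ Γ'.1 ∧
      (∀ x ∈ C n, ∃ y, (x, y) ∈ Γ'.1) ∧ (∀ y ∈ C n, ∃ x, (x, y) ∈ Γ'.1) := by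
    intro n Γ
    obtain ⟨A, a1, a2, a3, -⟩ := step (locX hG (hC n) (h0 n)) Γ.1 Γ.2
    obtain ⟨B, b1, b2, -, b3⟩ := step (locY hG (hC n) (h0 n)) A a1
    exact ⟨⟨B, b1⟩, a2.trans b2, fun x hx => (a3 x hx).imp fun y hy => b2 hy, b3⟩
  choose F hF using st
  let S : ℕ → {Γ // Cond G Γ} := fun n => Nat.rec ⟨_, init hg g0 g1⟩ (fun n Γ => F n Γ) n
  have hS : ∀ n, S (n + 1) = F n (S n) := fun n => rfl
  have mono : Monotone fun n => (S n).1 :=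
    monotone_nat_of_le_succ fun n => by simp only [hS]; exact (hF n (S n)).1
  refine finish hG g0 (⋃ n, (S n).1) (subset_iUnion (fun n => (S n).1) 0) ?_ ?_ ?_ ?_
  · intro r hr s hs
    obtain ⟨n, hn⟩ := mem_iUnion.1 hr
    obtain ⟨m, hm⟩ := mem_iUnion.1 hs
    exact (S (max n m)).2.chain r (mono (le_max_left _ _) hn) s (mono (le_max_right _ _) hm)
  · intro r hr
    obtain ⟨n, hn⟩ := mem_iUnion.1 hr
    exact (S n).2.shift r hn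
  · intro x hx
    obtain ⟨n, hn⟩ := mem_iUnion.1 (hcov hx)
    obtain ⟨y, hy⟩ := (hF n (S n)).2.1 x hn
    exact ⟨y, mem_iUnion.2 ⟨n + 1, hy⟩⟩
  · intro x hx
    obtain ⟨n, hn⟩ := mem_iUnion.1 (hcov hx)
    obtain ⟨y, hy⟩ := (hF n (S n)).2.2 x hn
    exact ⟨y, mem_iUnion.2 ⟨n + 1, hy⟩⟩

end Pool.Agent.H15.PL
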