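import Mathlib
import Pool.Agent.H15.PL2
set_option autoImplicit false

namespace Pool.Agent.H15.PL

open Set MeasureTheory Metric Filter Topology Pointwise

def Small (A : Set ℝ) : Prop :=
  ∃ C : ℕ → Set ℝ, (∀ n, IsCompact (C n)) ∧ (∀ n, volume (C n) = 0) ∧ A ⊆ ⋃ n, C n

theorem Small.mono {A B : Set ℝ} (h : Small B) (hAB : A ⊆ B) : Small A := by
  obtain ⟨C, a, b, c⟩ := h
  exact ⟨C, a, b, hAB.trans c⟩

theorem small_empty : Small ∅ := ⟨fun _ => ∅, fun _ => isCompact_empty, by simp, by simp⟩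

theorem small_iUnion {A : ℕ → Set ℝ} (h : ∀ n, Small (A n)) : Small (⋃ n, A n) := by
  choose C a b c using h
  refine ⟨fun k => C (Nat.unpair k).1 (Nat.unpair k).2, fun k => a _ _, fun k => b _ _, ?_⟩
  intro x hx
  obtain ⟨n, hn⟩ := mem_iUnion.1 hx
  obtain ⟨m, hm⟩ := mem_iUnion.1 (c n hn)
  exact mem_iUnion.2 ⟨Nat.pair n m, by simpa using hm⟩

theorem Small.union {A B : Set ℝ} (hA : Small A) (hB : Small B) : Small (A ∪ B) := by
  refine (small_iUnion (A := fun n => if n = 0 then A else B) fun n => ?_).mono ?_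
  · split_ifs
    · exact hA
    · exact hB
  · rintro x (hx | hx)
    · exact mem_iUnion.2 ⟨0, by simpa using hx⟩
    · exact mem_iUnion.2 ⟨1, by simpa using hx⟩

def Inv (t : ℝ) (A B C : Set ℝ) : Prop :=
  ¬ ∀ᵐ a : ℝ, ∀ᵐ b : ℝ, ¬ (a ∈ A ∧ b ∈ B ∧ t - a - b ∈ C)

theorem Inv.rot {t : ℝ} {A B C : Set ℝ} (h : Inv t A B C) (hA : IsClosed A) (hB : IsClosed B)
    (hC : IsClosed C) : Inv t B C A := by
  intro k
  apply h
  have k' : ∀ᵐ b : ℝ, ∀ᵐ a : ℝ, ¬ (a ∈ A ∧ b ∈ B ∧ t - a - b ∈ C) := by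
    filter_upwards [k] with b hb
    filter_upwards [(Measure.measurePreserving_sub_left volume (t - b)).quasiMeasurePreserving.ae hb]
      with a ha
    rintro ⟨h1, h2, h3⟩
    refine ha ⟨h2, ?_, ?_⟩
    · convert h3 using 1; ring
    · convert h1 using 1; ring
  refine (Measure.ae_ae_comm (p := fun a b : ℝ => ¬ (a ∈ A ∧ b ∈ B ∧ t - a - b ∈ C)) ?_).2 k'
  refine MeasurableSet.compl (IsClosed.measurableSet ?_)
  exact (hA.preimage continuous_fst).inter ((hB.preimage continuous_snd).inter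
    (hC.preimage (by fun_prop : Continuous fun p : ℝ × ℝ => t - p.1 - p.2)))

theorem isOpen_conv (B : Set ℝ) {C : Set ℝ} (hC : IsCompact C) :
    IsOpen {s : ℝ | volume {b | b ∈ B ∧ s - b ∈ C} ≠ 0} := by
  rw [isOpen_iff_mem_nhds]
  intro s0 h0
  have h1 := eventually_nhds_zero_measure_vadd_sdiff_lt (μ := (volume : Measure ℝ)) hC
    hC.isClosed h0
  have h2 : Tendsto (fun s : ℝ => s - s0) (𝓝 s0) (𝓝 0) := by
    have : Continuous fun s : ℝ => s - s0 := by fun_prop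
    simpa using this.tendsto s0
  filter_upwards [h2.eventually h1] with s hs
  intro hz
  have h3 : {b | b ∈ B ∧ s0 - b ∈ C} ⊆ {b | b ∈ B ∧ s - b ∈ C} ∪
      (fun b => s - b) ⁻¹' (((s - s0) +ᵥ C) \ C) := by
    rintro b ⟨b1, b2⟩
    by_cases hb : s - b ∈ C
    · exact Or.inl ⟨b1, hb⟩
    · exact Or.inr ⟨⟨s0 - b, b2, by simp⟩, hb⟩
  have h4 := (measure_mono (μ := (volume : Measure ℝ)) h3).trans (measure_union_le _ _)
  rw [hz, zero_add, (Measure.measurePreserving_sub_left volume s).measure_preimage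
    (((hC.vadd _).measurableSet.diff hC.measurableSet).nullMeasurableSet)] at h4
  exact absurd hs (not_lt.2 h4)

theorem conv_nonempty {A : Set ℝ} (hA : IsClosed A) (h0 : volume A ≠ 0) :
    ∃ s : ℝ, volume {b | b ∈ A ∧ s - b ∈ A} ≠ 0 := by
  by_contra hc
  push Not at hc
  have k : ∀ᵐ s : ℝ, ∀ᵐ b : ℝ, ¬ (b ∈ A ∧ s - b ∈ A) :=
    Eventually.of_forall fun s => by rw [ae_iff]; simpa using hc s
  have k' := (Measure.ae_ae_comm (p := fun s b : ℝ => ¬ (b ∈ A ∧ s - b ∈ A)) (by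
    refine MeasurableSet.compl (IsClosed.measurableSet ?_)
    exact (hA.preimage continuous_snd).inter
      (hA.preimage (by fun_prop : Continuous fun p : ℝ × ℝ => p.1 - p.2)))).1 k
  apply h0
  refine measure_mono_null ?_ (ae_iff.1 k')
  intro b hb h
  apply h0
  have := (measurePreserving_add_right volume b).quasiMeasurePreserving.ae h
  refine measure_mono_null ?_ (ae_iff.1 this)
  intro a ha h'
  exact h' ⟨hb, by simpa using ha⟩

section
variable {Y : Type} [MetricSpace Y] (f : Y → ℝ)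

def Ker : Set Y := {y | ∀ V, IsOpen V → y ∈ V → ¬ Small (f '' V)}

def cl (p : Y × ℝ) : Set ℝ := closure (f '' (ball p.1 p.2 ∩ Ker f))

def OK (p : Y × ℝ) : Prop := p.1 ∈ Ker f ∧ 0 < p.2 ∧ IsCompact (cl f p)

theorem small_compl [SecondCountableTopology Y] : Small (f '' (Ker f)ᶜ) := by
  obtain ⟨T, Tc, Tsub, hT⟩ := TopologicalSpace.isOpen_sUnion_countable
    {V : Set Y | IsOpen V ∧ Small (f '' V)} fun V h => h.1
  obtain ⟨e, he⟩ := (Tc.insert ∅).exists_eq_range (insert_nonempty _ _)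
  refine (small_iUnion (A := fun n => f '' e n) fun n => ?_).mono ?_
  · have : e n ∈ insert ∅ T := by rw [he]; exact mem_range_self n
    rcases this with h | h
    · rw [h, image_empty]; exact small_empty
    · exact (Tsub h).2
  · rintro _ ⟨y, hy, rfl⟩
    simp only [Ker, mem_compl_iff, mem_setOf_eq, not_forall, not_not] at hy
    obtain ⟨V, a, b, c⟩ := hy
    have : y ∈ ⋃₀ T := by rw [hT]; exact ⟨V, ⟨a, c⟩, b⟩
    obtain ⟨U, hU, hyU⟩ := this
    have : U ∈ range e := by rw [← he]; exact Or.inr hU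
    obtain ⟨n, rfl⟩ := this
    exact mem_iUnion.2 ⟨n, y, hyU, rfl⟩

theorem OK.pos [SecondCountableTopology Y] {p : Y × ℝ} (h : OK f p) : volume (cl f p) ≠ 0 := by
  intro h0
  apply h.1 (ball p.1 p.2) isOpen_ball (mem_ball_self h.2.1)
  have h1 : Small (cl f p) := ⟨fun _ => cl f p, fun _ => h.2.2, fun _ => h0, subset_iUnion (fun _ : ℕ => cl f p) 0⟩
  refine (h1.union (small_compl f)).mono ?_
  rintro _ ⟨y, hy, rfl⟩
  by_cases k : y ∈ Ker f
  · exact Or.inl (subset_closure ⟨y, ⟨hy, k⟩, rfl⟩)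
  · exact Or.inr ⟨y, k, rfl⟩

theorem shrink (hf : Continuous f) {y : Y} (hy : y ∈ Ker f) {O : Set ℝ} (hO : O ∈ 𝓝 (f y))
    {V : Set Y} (hV : V ∈ 𝓝 y) {ε : ℝ} (hε : 0 < ε) :
    ∃ r, r < ε ∧ OK f (y, r) ∧ closedBall y r ⊆ V ∧ cl f (y, r) ⊆ O := by
  obtain ⟨η, η0, hη⟩ := Metric.nhds_basis_closedBall.mem_iff.1 hO
  have h1 : f ⁻¹' closedBall (f y) η ∈ 𝓝 y := hf.continuousAt (closedBall_mem_nhds _ η0)
  obtain ⟨ρ, ρ0, hρ⟩ := Metric.nhds_basis_closedBall.mem_iff.1 (inter_mem h1 hV)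
  have hr : closedBall y (min ρ (ε / 2)) ⊆ closedBall y ρ :=
    closedBall_subset_closedBall (min_le_left _ _)
  have hcl : cl f (y, min ρ (ε / 2)) ⊆ closedBall (f y) η := by
    refine closure_minimal ?_ isClosed_closedBall
    rintro _ ⟨z, hz, rfl⟩
    exact (hρ (hr (ball_subset_closedBall hz.1))).1
  refine ⟨min ρ (ε / 2), (min_le_right _ _).trans_lt (half_lt_self hε),
    ⟨hy, lt_min ρ0 (half_pos hε), ?_⟩, fun z hz => (hρ (hr hz)).2, hcl.trans hη⟩
  exact (isCompact_closedBall _ _).of_isClosed_subset isClosed_closure hcl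

theorem inv_of [SecondCountableTopology Y] {t : ℝ} {p : Y × ℝ} (hp : OK f p) {B C : Set ℝ}
    (h : cl f p ⊆ {a | volume {b | b ∈ B ∧ t - a - b ∈ C} ≠ 0}) : Inv t (cl f p) B C := by
  intro k
  apply hp.pos
  refine measure_mono_null ?_ (ae_iff.1 k)
  intro a ha h'
  apply h ha
  refine measure_mono_null ?_ (ae_iff.1 h')
  intro b hb h''
  exact h'' ⟨ha, hb⟩

theorem isOpen_conv' (t : ℝ) (B : Set ℝ) {C : Set ℝ} (hC : IsCompact C) :
    IsOpen {a : ℝ | volume {b | b ∈ B ∧ t - a - b ∈ C} ≠ 0} :=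
  (isOpen_conv B hC).preimage (by fun_prop : Continuous fun a : ℝ => t - a)

theorem refine1 [SecondCountableTopology Y] (hf : Continuous f) {t : ℝ} {p q s : Y × ℝ}
    (hq : OK f q) (hs : OK f s) (h : Inv t (cl f p) (cl f q) (cl f s)) {ε : ℝ} (hε : 0 < ε) :
    ∃ p', OK f p' ∧ p'.2 < ε ∧ closedBall p'.1 p'.2 ⊆ ball p.1 p.2 ∧
      Inv t (cl f q) (cl f s) (cl f p') := by
  have hO := isOpen_conv' t (cl f q) hs.2.2
  obtain ⟨a, ha, ha'⟩ : ∃ a ∈ cl f p, volume {b | b ∈ cl f q ∧ t - a - b ∈ cl f s} ≠ 0 := by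
    by_contra hc
    push Not at hc
    apply h
    refine Eventually.of_forall fun a => ?_
    by_cases ha : a ∈ cl f p
    · rw [ae_iff]
      refine measure_mono_null ?_ (hc a ha)
      intro b hb
      exact (not_not.1 hb).2
    · exact Eventually.of_forall fun b hb => ha hb.1
  obtain ⟨_, h1, y, hy, rfl⟩ := mem_closure_iff.1 ha _ hO ha'
  obtain ⟨r, a1, a2, a3, a4⟩ := shrink f hf hy.2 (hO.mem_nhds h1) (isOpen_ball.mem_nhds hy.1) hε
  exact ⟨(y, r), a2, a1, a3, (inv_of f a2 a4).rot isClosed_closure isClosed_closure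
    isClosed_closure⟩

theorem lim [CompleteSpace Y] (hf : Continuous f) (p : ℕ → Y × ℝ) (h0 : ∀ n, 0 < (p n).2)
    (h1 : ∀ n, (p (n + 1)).2 < 1 / ((n : ℝ) + 1))
    (h2 : ∀ n, closedBall (p (n + 1)).1 (p (n + 1)).2 ⊆ ball (p n).1 (p n).2) :
    ∃ z, ∀ ε > 0, ∀ᶠ n in atTop, cl f (p n) ⊆ closedBall (f z) ε := by
  have anti : Antitone fun n => closedBall (p n).1 (p n).2 :=
    antitone_nat_of_succ_le fun n => (h2 n).trans ball_subset_closedBall
  have hr : Tendsto (fun n => (p n).2) atTop (𝓝 0) := by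
    rw [← tendsto_add_atTop_iff_nat 1]
    exact squeeze_zero (fun n => (h0 _).le) (fun n => (h1 n).le)
      tendsto_one_div_add_atTop_nhds_zero_nat
  have hr2 : Tendsto (fun n => 2 * (p n).2) atTop (𝓝 0) := by simpa using hr.const_mul 2
  obtain ⟨z, hz⟩ := Metric.nonempty_iInter_of_nonempty_biInter
    (s := fun n => closedBall (p n).1 (p n).2) (fun n => isClosed_closedBall)
    (fun n => isBounded_closedBall)
    (fun N => ⟨(p N).1, mem_iInter₂.2 fun n hn => anti hn (mem_closedBall_self (h0 N).le)⟩)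
    (squeeze_zero (fun n => diam_nonneg) (fun n => diam_closedBall (h0 n).le) hr2)
  refine ⟨z, fun ε hε => ?_⟩
  obtain ⟨δ, δ0, hδ⟩ := Metric.continuous_iff.1 hf z ε hε
  filter_upwards [hr2.eventually (gt_mem_nhds δ0)] with n hn
  refine closure_minimal ?_ isClosed_closedBall
  rintro _ ⟨w, hw, rfl⟩
  refine (hδ w ?_).le
  have a := mem_iInter.1 hz n
  have b := hw.1
  rw [mem_closedBall] at a
  rw [mem_ball] at b
  linarith [dist_triangle_right w z (p n).1]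

theorem reach [CompleteSpace Y] [SecondCountableTopology Y] (hf : Continuous f) {t : ℝ}
    {p q s : Y × ℝ} (hp : OK f p) (hq : OK f q) (hs : OK f s)
    (h : Inv t (cl f p) (cl f q) (cl f s)) : ∃ x y z, t = f x + f y + f z := by
  let S := {u : (Y × ℝ) × (Y × ℝ) × (Y × ℝ) // OK f u.1 ∧ OK f u.2.1 ∧ OK f u.2.2 ∧
    Inv t (cl f u.1) (cl f u.2.1) (cl f u.2.2)}
  have st : ∀ (n : ℕ) (u : S), ∃ v : S,
      (v.1.1.2 < 1 / ((n : ℝ) + 1) ∧ closedBall v.1.1.1 v.1.1.2 ⊆ ball u.1.1.1 u.1.1.2) ∧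
      (v.1.2.1.2 < 1 / ((n : ℝ) + 1) ∧
        closedBall v.1.2.1.1 v.1.2.1.2 ⊆ ball u.1.2.1.1 u.1.2.1.2) ∧
      (v.1.2.2.2 < 1 / ((n : ℝ) + 1) ∧
        closedBall v.1.2.2.1 v.1.2.2.2 ⊆ ball u.1.2.2.1 u.1.2.2.2) := by
    rintro n ⟨⟨p, q, s⟩, -, hq, hs, h⟩
    have hε : (0 : ℝ) < 1 / ((n : ℝ) + 1) := by positivity
    obtain ⟨p', a1, a2, a3, a4⟩ := refine1 f hf hq hs h hε
    obtain ⟨q', b1, b2, b3, b4⟩ := refine1 f hf hs a1 a4 hε
    obtain ⟨s', c1, c2, c3, c4⟩ := refine1 f hf a1 b1 b4 hε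
    exact ⟨⟨(p', q', s'), a1, b1, c1, c4⟩, ⟨a2, a3⟩, ⟨b2, b3⟩, ⟨c2, c3⟩⟩
  choose F hF using st
  let u : ℕ → S := fun n => Nat.rec ⟨(p, q, s), hp, hq, hs, h⟩ (fun n v => F n v) n
  obtain ⟨x, hx⟩ := lim f hf (fun n => (u n).1.1) (fun n => (u n).2.1.2.1)
    (fun n => (hF n (u n)).1.1) (fun n => (hF n (u n)).1.2)
  obtain ⟨y, hy⟩ := lim f hf (fun n => (u n).1.2.1) (fun n => (u n).2.2.1.2.1)
    (fun n => (hF n (u n)).2.1.1) (fun n => (hF n (u n)).2.1.2)
  obtain ⟨z, hz⟩ := lim f hf (fun n => (u n).1.2.2) (fun n => (u n).2.2.2.1.2.1)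
    (fun n => (hF n (u n)).2.2.1) (fun n => (hF n (u n)).2.2.2)
  refine ⟨x, y, z, eq_of_forall_dist_le fun ε hε => ?_⟩
  have e3 : 0 < ε / 3 := by positivity
  obtain ⟨n, a, b, c⟩ := ((hx _ e3).and ((hy _ e3).and (hz _ e3))).exists
  obtain ⟨a', b', h1, h2, h3⟩ : ∃ a' b', a' ∈ cl f (u n).1.1 ∧ b' ∈ cl f (u n).1.2.1 ∧
      t - a' - b' ∈ cl f (u n).1.2.2 := by
    by_contra hc
    exact (u n).2.2.2.2 (Eventually.of_forall fun a' => Eventually.of_forall fun b' k =>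
      hc ⟨a', b', k⟩)
  have k1 := a h1
  have k2 := b h2
  have k3 := c h3
  rw [mem_closedBall, Real.dist_eq, abs_le] at k1 k2 k3
  rw [Real.dist_eq, abs_le]
  constructor <;> linarith [k1.1, k1.2, k2.1, k2.2, k3.1, k3.2]

theorem interior_sum [CompleteSpace Y] [SecondCountableTopology Y] (hf : Continuous f)
    (h : ¬ Small (range f)) :
    ∃ O : Set ℝ, IsOpen O ∧ O.Nonempty ∧ ∀ t ∈ O, ∃ x y z, t = f x + f y + f z := by
  obtain ⟨y, hy⟩ : (Ker f).Nonempty := by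
    by_contra hc
    rw [not_nonempty_iff_eq_empty] at hc
    have := small_compl f
    rw [hc, compl_empty, image_univ] at this
    exact h this
  obtain ⟨r, -, a, -, -⟩ := shrink f hf hy univ_mem univ_mem zero_lt_one
  obtain ⟨s, hs⟩ := conv_nonempty isClosed_closure (a.pos f)
  refine ⟨{t | volume {b | b ∈ cl f (y, r) ∧ t - f y - b ∈ cl f (y, r)} ≠ 0},
    (isOpen_conv _ a.2.2).preimage (by fun_prop : Continuous fun t : ℝ => t - f y),
    ⟨s + f y, by simp only [mem_setOf_eq, add_sub_cancel_right]; exact hs⟩, fun t ht => ?_⟩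
  obtain ⟨r', -, b, -, c⟩ := shrink f hf hy
    ((isOpen_conv' t (cl f (y, r)) a.2.2).mem_nhds ht) univ_mem zero_lt_one
  exact reach f hf b a a (inv_of f b c)

end

theorem main (G : AddSubgroup ℝ) (hG : Dense (G : Set ℝ)) (hA : AnalyticSet (G : Set ℝ)) :
    ∃ f : G → G, Function.Bijective f ∧ (∀ x y, dist (f x) (f y) ≤ dist x y) ∧ ¬ Isometry f := by
  by_cases hS : Small (G : Set ℝ)
  · obtain ⟨C, a, b, c⟩ := hS
    exact not_plastic hG C a b c
  have hall : ∀ x : ℝ, x ∈ G := by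
    rw [AnalyticSet] at hA
    rcases hA with h | ⟨f, hf, h⟩
    · exact absurd (by rw [h]; exact small_empty) hS
    letI := TopologicalSpace.upgradeIsCompletelyMetrizable (ℕ → ℕ)
    obtain ⟨O, a, ⟨t, ht⟩, c⟩ := interior_sum f hf (by rw [h]; exact hS)
    have hm : ∀ x, f x ∈ G := fun x => by
      have : f x ∈ range f := mem_range_self x
      rwa [h] at this
    have hO : O ⊆ G := fun t ht => by
      obtain ⟨x, y, z, rfl⟩ := c t ht
      exact G.add_mem (G.add_mem (hm x) (hm y)) (hm z)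
    have h1 : IsOpen (G : Set ℝ) :=
      G.isOpen_of_mem_nhds (mem_of_superset (a.mem_nhds ht) hO)
    intro x
    have h2 := G.isClosed_of_isOpen h1
    have : x ∈ closure (G : Set ℝ) := hG x
    rwa [h2.closure_eq] at this
  refine ⟨fun x => ⟨x / 2, hall _⟩, ⟨?_, ?_⟩, ?_, ?_⟩
  · intro x y e
    have := congrArg Subtype.val e
    simp only at this
    exact Subtype.ext (by linarith)
  · intro y
    exact ⟨⟨2 * y, hall _⟩, Subtype.ext (by simp)⟩
  · intro x y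
    rw [Subtype.dist_eq, Subtype.dist_eq, Real.dist_eq, Real.dist_eq]
    simp only
    rw [← sub_div, abs_div, abs_two]
    linarith [abs_nonneg ((x : ℝ) - y)]
  · intro hI
    have := hI.dist_eq ⟨2, hall _⟩ ⟨0, hall _⟩
    rw [Subtype.dist_eq, Subtype.dist_eq, Real.dist_eq, Real.dist_eq] at this
    norm_num at this

end Pool.Agent.H15.PL
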