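import Mathlib
import Pool.Agent.H15.PL2
set_option autoImplicit false

namespace Pool.Agent.H15.PL

open Set MeasureTheory Filter Topology

variable {G : AddSubgroup ℝ} {Cx Cy : Set ℝ}

theorem step' (Γ : Set (ℝ × ℝ)) (h : Cond G Γ)
    (hloc : ∀ p q : ℝ × ℝ, Gap Γ p q → ∃ Δ, Loc G Cx Cy p q Δ) :
    ∃ Γ', Cond G Γ' ∧ Γ ⊆ Γ' ∧ (∀ x ∈ Cx, ∃ y, (x, y) ∈ Γ') ∧ (∀ y ∈ Cy, ∃ x, (x, y) ∈ Γ') := by
  have hex : ∀ p q : ℝ × ℝ, ∃ Δ, Gap Γ p q → Loc G Cx Cy p q Δ := by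
    intro p q
    by_cases g : Gap Γ p q
    · obtain ⟨Δ, hΔ⟩ := hloc p q g
      exact ⟨Δ, fun _ => hΔ⟩
    · exact ⟨∅, fun g' => absurd g' g⟩
  choose Δ hΔ using hex
  let Γ' : Set (ℝ × ℝ) := Γ ∪ {r | ∃ p q, Gap Γ p q ∧ r ∈ Δ p q}
  have hsub : ∀ p q, Gap Γ p q → Δ p q ⊆ Γ' := fun p q g r hr => Or.inr ⟨p, q, g, hr⟩
  have out : ∀ p q, Gap Γ p q → ∀ r ∈ Γ', r ∈ Δ p q ∨ le r p ∨ le q r := by
    rintro p q g r (hr | ⟨p', q', g', hr⟩)
    · exact Or.inr (g.2.2.2.2 r hr)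
    · rcases gap_cases g g' with ⟨rfl, rfl⟩ | a | a
      · exact Or.inl hr
      · exact Or.inr (Or.inr (a.trans ((hΔ p' q' g').btw r hr).1))
      · exact Or.inr (Or.inl (((hΔ p' q' g').btw r hr).2.trans a))
  have newgap : ∀ p q, Gap Γ p q → ∀ u v, Gap (Δ p q) u v → Gap Γ' u v := by
    rintro p q g u v ⟨a, b, c, d, e⟩
    refine ⟨hsub p q g a, hsub p q g b, c, d, fun r hr => ?_⟩
    rcases out p q g r hr with k | k | k
    · exact e r k
    · exact Or.inl (k.trans ((hΔ p q g).btw u a).1)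
    · exact Or.inr (((hΔ p q g).btw v b).2.trans k)
  have half : ∀ r, (∃ p q, Gap Γ p q ∧ r ∈ Δ p q) → ∀ s ∈ Γ', le r s ∨ le s r := by
    rintro r ⟨p, q, g, hr⟩ s hs
    rcases out p q g s hs with k | k | k
    · exact (hΔ p q g).chain r hr s k
    · exact Or.inr (k.trans ((hΔ p q g).btw r hr).1)
    · exact Or.inl (((hΔ p q g).btw r hr).2.trans k)
  have kx : ∀ x, (∃ y, (x, y) ∈ Γ') ∨ (x ∉ Cx ∧ ∃ u v, Gap Γ' u v ∧ u.1 < x ∧ x < v.1) := by
    intro x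
    rcases h.gx x with ⟨y, hy⟩ | ⟨p, q, g, a, b⟩
    · exact Or.inl ⟨y, Or.inl hy⟩
    · rcases (hΔ p q g).gx x a.le b.le with ⟨y, hy⟩ | ⟨c, u, v, g', d⟩
      · exact Or.inl ⟨y, hsub p q g hy⟩
      · exact Or.inr ⟨c, u, v, newgap p q g u v g', d⟩
  have ky : ∀ y, (∃ x, (x, y) ∈ Γ') ∨ (y ∉ Cy ∧ ∃ u v, Gap Γ' u v ∧ u.2 < y ∧ y < v.2) := by
    intro x
    rcases h.gy x with ⟨y, hy⟩ | ⟨p, q, g, a, b⟩
    · exact Or.inl ⟨y, Or.inl hy⟩
    · rcases (hΔ p q g).gy x a.le b.le with ⟨y, hy⟩ | ⟨c, u, v, g', d⟩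
      · exact Or.inl ⟨y, hsub p q g hy⟩
      · exact Or.inr ⟨c, u, v, newgap p q g u v g', d⟩
  refine ⟨Γ', ⟨?_, ?_, fun x => (kx x).imp id And.right, fun y => (ky y).imp id And.right⟩,
    subset_union_left, fun x hx => (kx x).resolve_right fun k => k.1 hx,
    fun y hy => (ky y).resolve_right fun k => k.1 hy⟩
  · rintro r (hr | hr) s hs
    · rcases hs with hs | hs
      · exact h.chain r hr s hs
      · exact (half s hs r (Or.inl hr)).symm
    · exact half r hr s hs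
  · rintro r (hr | ⟨p, q, g, hr⟩)
    · exact h.shift r hr
    · exact (hΔ p q g).shift r hr


theorem extX (hG : Dense (G : Set ℝ)) (Γ : Set (ℝ × ℝ)) (h : Cond G Γ) {u v : ℝ × ℝ}
    (g : Gap Γ u v) {α β : ℝ} (h1 : u.1 < α) (h2 : α ≤ β) (h3 : β < v.1)
    (h4 : β - α < v.2 - u.2) :
    ∃ Γ', Cond G Γ' ∧ Γ ⊆ Γ' ∧ ∀ x ∈ Icc α β, ∃ y, (x, y) ∈ Γ' := by
  obtain ⟨Γ', a, b, c, -⟩ := step' (Cx := Icc α β) (Cy := ∅) Γ h (by
    intro p q g'
    have hp := h.shift p g'.1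
    have hq := h.shift q g'.2.1
    rcases gap_cases g' g with ⟨rfl, rfl⟩ | k | k
    · obtain ⟨d, hd, d1, d2⟩ := pick hG (a := max (p.1 - p.2) (β - q.2))
        (b := min (α - p.2) (q.1 - q.2))
        (max_lt (lt_min (by linarith) (by linarith [g.2.2.2.1]))
          (lt_min (by linarith) (by linarith)))
      rw [max_lt_iff] at d1
      rw [lt_min_iff] at d2
      have e1 : α - (α - d) = d := by ring
      have e2 : β - (β - d) = d := by ring
      refine concat (r := (α, α - d)) (gap hp (by simp only [e1]; exact hd)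
        (by simp only; linarith [d2.1]) (by simp only; linarith [d1.1])
        (fun x _ b k => absurd k.1 (not_le.2 b)) (fun _ _ _ k => k))
        (concat (r := (β, β - d)) (seg (by simp only [e1]; exact hd) (by simp only [e1, e2]) h2)
        (gap (by simp only [e2]; exact hd) hq (by simp only; linarith [d1.2])
          (by simp only; linarith [d2.2]) (fun x a _ k => absurd k.2 (not_le.2 a))
          (fun _ _ _ k => k)))
    · exact gap hp hq g'.2.2.1 g'.2.2.2.1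
        (fun x _ b c => by linarith [c.1, k.1, k.2.1]) (fun _ _ _ k => k)
    · exact gap hp hq g'.2.2.1 g'.2.2.2.1
        (fun x a _ c => by linarith [c.2, k.1, k.2.1]) (fun _ _ _ k => k))
  exact ⟨Γ', a, b, c⟩

theorem extY (hG : Dense (G : Set ℝ)) (Γ : Set (ℝ × ℝ)) (h : Cond G Γ) {u v : ℝ × ℝ}
    (g : Gap Γ u v) {α β : ℝ} (h1 : u.2 < α) (h2 : α ≤ β) (h3 : β < v.2) :
    ∃ Γ', Cond G Γ' ∧ Γ ⊆ Γ' ∧ ∀ y ∈ Icc α β, ∃ x, (x, y) ∈ Γ' := by
  obtain ⟨Γ', a, b, -, c⟩ := step' (Cx := ∅) (Cy := Icc α β) Γ h (by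
    intro p q g'
    have hp := h.shift p g'.1
    have hq := h.shift q g'.2.1
    rcases gap_cases g' g with ⟨rfl, rfl⟩ | k | k
    · obtain ⟨d, hd, d1, d2⟩ := pick hG (a := p.1 - p.2) (b := q.1 - q.2)
        (by linarith [g.2.2.2.1])
      have e1 : α + d - α = d := by ring
      have e2 : β + d - β = d := by ring
      refine concat (r := (α + d, α)) (gap hp (by simp only [e1]; exact hd)
        (by simp only; linarith) (by simp only; linarith) (fun _ _ _ k => k)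
        (fun x _ b k => absurd k.1 (not_le.2 b)))
        (concat (r := (β + d, β)) (seg (by simp only [e1]; exact hd) (by simp only [e1, e2])
          (by simp only; linarith))
        (gap (by simp only [e2]; exact hd) hq (by simp only; linarith)
          (by simp only; linarith) (fun _ _ _ k => k) (fun x a _ k => absurd k.2 (not_le.2 a))))
    · exact gap hp hq g'.2.2.1 g'.2.2.2.1 (fun _ _ _ k => k)
        (fun x _ b c => by linarith [c.1, k.1, k.2.1])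
    · exact gap hp hq g'.2.2.1 g'.2.2.2.1 (fun _ _ _ k => k)
        (fun x a _ c => by linarith [c.2, k.1, k.2.1]))
  exact ⟨Γ', a, b, c⟩

def Cov (b : Bool) (Γ : Set (ℝ × ℝ)) (x : ℝ) : Prop :=
  match b with
  | true => ∃ y, (x, y) ∈ Γ
  | false => ∃ y, (y, x) ∈ Γ

theorem Cov.mono {b : Bool} {Γ Γ' : Set (ℝ × ℝ)} {x : ℝ} (h : Cov b Γ x) (k : Γ ⊆ Γ') :
    Cov b Γ' x := by
  cases b
  · exact Exists.imp (fun _ a => k a) h
  · exact Exists.imp (fun _ a => k a) h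

theorem ext (hG : Dense (G : Set ℝ)) (Γ : Set (ℝ × ℝ)) (h : Cond G Γ) (b : Bool) (x : ℝ) :
    Cov b Γ x ∨ ∃ α β : ℚ, x ∈ Icc (α : ℝ) β ∧
      ∃ Γ', Cond G Γ' ∧ Γ ⊆ Γ' ∧ ∀ z ∈ Icc (α : ℝ) β, Cov b Γ' z := by
  cases b
  · rcases h.gy x with k | ⟨u, v, g, a, c⟩
    · exact Or.inl k
    · obtain ⟨α, a1, a2⟩ := exists_rat_btwn a
      obtain ⟨β, b1, b2⟩ := exists_rat_btwn c
      exact Or.inr ⟨α, β, ⟨a2.le, b1.le⟩, extY hG Γ h g a1 (by linarith) b2⟩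
  · rcases h.gx x with k | ⟨u, v, g, a, c⟩
    · exact Or.inl k
    · have hp := g.2.2.1
      obtain ⟨α, a1, a2⟩ := exists_rat_btwn (max_lt a (by linarith : x - (v.2 - u.2) / 2 < x))
      obtain ⟨β, b1, b2⟩ := exists_rat_btwn (lt_min c (by linarith : x < x + (v.2 - u.2) / 2))
      rw [max_lt_iff] at a1
      rw [lt_min_iff] at b2
      exact Or.inr ⟨α, β, ⟨a2.le, b1.le⟩,
        extX hG Γ h g a1.1 (by linarith) b2.1 (by linarith [a1.2, b2.2])⟩

theorem covM (hG : Dense (G : Set ℝ))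
    (hcov : ∀ F : G → Set (ℕ → ℕ), (∀ g, IsMeagre (F g)) → ⋃ g, F g ≠ univ) :
    ∃ f : G → G, Function.Bijective f ∧ (∀ x y, dist (f x) (f y) ≤ dist x y) ∧ ¬ Isometry f := by
  classical
  obtain ⟨g, hg, g0, g1⟩ := pick hG zero_lt_one
  obtain ⟨e, he⟩ := exists_surjective_nat (Bool × ℚ × ℚ)
  have st : ∀ (k : ℕ) (Γ : {Γ // Cond G Γ}), ∃ Γ' : {Γ // Cond G Γ}, Γ.1 ⊆ Γ'.1 ∧
      ((∃ Δ, Cond G Δ ∧ Γ.1 ⊆ Δ ∧ ∀ z ∈ Icc ((e k).2.1 : ℝ) (e k).2.2, Cov (e k).1 Δ z) →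
        ∀ z ∈ Icc ((e k).2.1 : ℝ) (e k).2.2, Cov (e k).1 Γ'.1 z) := by
    intro k Γ
    by_cases h : ∃ Δ, Cond G Δ ∧ Γ.1 ⊆ Δ ∧ ∀ z ∈ Icc ((e k).2.1 : ℝ) (e k).2.2, Cov (e k).1 Δ z
    · obtain ⟨Δ, a, b, c⟩ := h
      exact ⟨⟨Δ, a⟩, b, fun _ => c⟩
    · exact ⟨Γ, Subset.rfl, fun k => absurd k h⟩
  choose F hF using st
  let S : (ℕ → ℕ) → ℕ → {Γ // Cond G Γ} := fun z n =>
    Nat.rec ⟨_, init hg g0 g1⟩ (fun n Γ => F (z n) Γ) n
  have hS : ∀ z n, S z (n + 1) = F (z n) (S z n) := fun z n => rfl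
  have mono : ∀ z, Monotone fun n => (S z n).1 := fun z =>
    monotone_nat_of_le_succ fun n => by simp only [hS]; exact (hF (z n) (S z n)).1
  have loc : ∀ n z w, (∀ i < n, z i = w i) → S z n = S w n := by
    intro n
    induction n with
    | zero => intro z w _; rfl
    | succ n ih =>
      intro z w h
      rw [hS, hS, h n (Nat.lt_succ_self n), ih z w fun i hi => h i (Nat.lt_succ_of_lt hi)]
  let D : Bool → ℝ → Set (ℕ → ℕ) := fun b x => {z | ∃ n, Cov b (S z n).1 x}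
  have hop : ∀ b x, IsOpen (D b x) := by
    intro b x
    rw [isOpen_iff_mem_nhds]
    rintro z ⟨n, hn⟩
    have : PiNat.cylinder z n ∈ 𝓝 z :=
      (PiNat.isOpen_cylinder (fun _ => ℕ) z n).mem_nhds (PiNat.self_mem_cylinder z n)
    filter_upwards [this] with w hw
    exact ⟨n, by rw [loc n w z hw]; exact hn⟩
  have hde : ∀ b x, Dense (D b x) := by
    intro b x
    rw [(PiNat.isTopologicalBasis_cylinders (fun _ => ℕ)).dense_iff]
    rintro _ ⟨z, n, rfl⟩ -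
    rcases ext hG (S z n).1 (S z n).2 b x with h | ⟨α, β, hx, h⟩
    · exact ⟨z, PiNat.self_mem_cylinder z n, n, h⟩
    · obtain ⟨k, hk⟩ := he (b, α, β)
      have hw : ∀ i < n, Function.update z n k i = z i := fun i hi =>
        Function.update_of_ne hi.ne _ _
      refine ⟨Function.update z n k, hw, n + 1, ?_⟩
      rw [hS, loc n _ z hw, Function.update_self]
      have := (hF k (S z n)).2
      rw [hk] at this
      exact this h x hx
  have hme : ∀ x : G, IsMeagre (D true x ∩ D false x)ᶜ := by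
    intro x
    rw [IsMeagre, compl_compl]
    exact inter_mem (residual_of_dense_open (hop _ _) (hde _ _))
      (residual_of_dense_open (hop _ _) (hde _ _))
  obtain ⟨z, hz⟩ := (ne_univ_iff_exists_notMem _).1 (hcov _ hme)
  simp only [mem_iUnion, not_exists, mem_compl_iff, not_not] at hz
  refine finish hG g0 (⋃ n, (S z n).1) (subset_iUnion (fun n => (S z n).1) 0) ?_ ?_ ?_ ?_
  · intro r hr s hs
    obtain ⟨n, hn⟩ := mem_iUnion.1 hr
    obtain ⟨m, hm⟩ := mem_iUnion.1 hs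
    exact (S z (max n m)).2.chain r (mono z (le_max_left _ _) hn) s (mono z (le_max_right _ _) hm)
  · intro r hr
    obtain ⟨n, hn⟩ := mem_iUnion.1 hr
    exact (S z n).2.shift r hn
  · intro x hx
    obtain ⟨n, y, hy⟩ := (hz ⟨x, hx⟩).1
    exact ⟨y, mem_iUnion.2 ⟨n, hy⟩⟩
  · intro x hx
    obtain ⟨n, y, hy⟩ := (hz ⟨x, hx⟩).2
    exact ⟨y, mem_iUnion.2 ⟨n, hy⟩⟩

end Pool.Agent.H15.PL
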