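import Mathlib

set_option autoImplicit false
open Finset

namespace Pool.Agent.H15.PV

lemma orth (M : ℕ) (hM : 0 < M) (w : ℂ) (hw : IsPrimitiveRoot w M) (u v : ℕ)
    (h : u % M ≠ v % M) : ∑ t ∈ range M, w ^ (t * u) * (starRingEnd ℂ) (w ^ (t * v)) = 0 := by
  have hn : ‖w‖ = 1 := hw.norm'_eq_one hM.ne'
  have hc : w * (starRingEnd ℂ) w = 1 := by
    rw [Complex.mul_conj, Complex.normSq_eq_norm_sq, hn]; simp
  have h1 : ∀ t, w ^ (t * u) * (starRingEnd ℂ) (w ^ (t * v)) =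
      (w ^ u * ((starRingEnd ℂ) w) ^ v) ^ t := by
    intro t
    rw [map_pow, mul_pow, ← pow_mul, ← pow_mul, mul_comm u, mul_comm v]
  simp only [h1]
  have hm : ∀ n, w ^ n = w ^ (n % M) := by
    intro n
    conv_lhs => rw [← Nat.div_add_mod n M, pow_add, pow_mul, hw.pow_eq_one, one_pow, one_mul]
  have h2 : w ^ u * ((starRingEnd ℂ) w) ^ v ≠ 1 := by
    intro h3
    apply h
    apply hw.pow_inj (Nat.mod_lt _ hM) (Nat.mod_lt _ hM)
    rw [← hm, ← hm]
    have h4 : w ^ v * ((starRingEnd ℂ) w) ^ v = 1 := by rw [← mul_pow, hc, one_pow]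
    calc w ^ u = w ^ u * (w ^ v * ((starRingEnd ℂ) w) ^ v) := by rw [h4, mul_one]
      _ = w ^ v * (w ^ u * ((starRingEnd ℂ) w) ^ v) := by ring
      _ = w ^ v := by rw [h3, mul_one]
  have h5 : (w ^ u * ((starRingEnd ℂ) w) ^ v) ^ M = 1 := by
    rw [mul_pow, ← pow_mul, ← pow_mul, mul_comm u, mul_comm v, pow_mul, pow_mul, ← map_pow,
      hw.pow_eq_one]
    simp
  rw [geom_sum_eq h2, h5]
  simp

lemma parseval {ι : Type} (M : ℕ) (hM : 0 < M) (w : ℂ) (hw : IsPrimitiveRoot w M)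
    (s : Finset ι) (f : ι → ℕ) (c : ι → ℂ)
    (hf : ∀ i ∈ s, ∀ j ∈ s, f i % M = f j % M → i = j) :
    ∑ t ∈ range M, ‖∑ i ∈ s, c i * w ^ (t * f i)‖ ^ 2 = M * ∑ i ∈ s, ‖c i‖ ^ 2 := by
  classical
  have hn : ‖w‖ = 1 := hw.norm'_eq_one hM.ne'
  have key : ∀ z : ℂ, ((‖z‖ ^ 2 : ℝ) : ℂ) = z * (starRingEnd ℂ) z := by
    intro z
    rw [Complex.mul_conj, Complex.normSq_eq_norm_sq]
  apply Complex.ofReal_injective
  rw [Complex.ofReal_sum, Complex.ofReal_mul, Complex.ofReal_sum]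
  simp only [key, map_sum, map_mul, Finset.sum_mul_sum]
  rw [Finset.sum_comm, Finset.mul_sum]
  apply Finset.sum_congr rfl
  intro i hi
  rw [Finset.sum_comm, Finset.sum_eq_single i]
  · have : ∀ t, c i * w ^ (t * f i) * ((starRingEnd ℂ) (c i) * (starRingEnd ℂ) (w ^ (t * f i))) =
        c i * (starRingEnd ℂ) (c i) := by
      intro t
      have := key (w ^ (t * f i))
      rw [norm_pow, hn] at this
      simp only [one_pow, Complex.ofReal_one] at this
      linear_combination (-(c i * (starRingEnd ℂ) (c i))) * this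
    simp only [this]
    simp
  · intro j hj hji
    have := orth M hM w hw (f i) (f j) (fun h => hji (hf i hi j hj h).symm)
    calc ∑ t ∈ range M, c i * w ^ (t * f i) * ((starRingEnd ℂ) (c j) * (starRingEnd ℂ) (w ^ (t * f j)))
        = c i * (starRingEnd ℂ) (c j) *
          ∑ t ∈ range M, w ^ (t * f i) * (starRingEnd ℂ) (w ^ (t * f j)) := by
          rw [Finset.mul_sum]; apply Finset.sum_congr rfl; intro t _; ring
      _ = 0 := by rw [this, mul_zero]
  · intro h; exact absurd hi h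

end Pool.Agent.H15.PV
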