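import Mathlib

/-! Rademacher systems: an `ℓ₂ⁿ` complemented in a finite `ℓ₄`. -/

namespace Pool.Agent.H15.QG

open Finset

theorem rad_exists (n : ℕ) : ∃ (N : ℕ) (r : ℕ → ℕ → ℝ), 0 < N ∧
    (∀ c d : ℕ → ℝ, ∑ ω ∈ range N, (∑ i ∈ range n, c i * r i ω) * (∑ i ∈ range n, d i * r i ω)
      = N * ∑ i ∈ range n, c i * d i) ∧
    (∀ c : ℕ → ℝ, ∑ ω ∈ range N, (∑ i ∈ range n, c i * r i ω) ^ 4
      ≤ 3 * N * (∑ i ∈ range n, c i ^ 2) ^ 2) := by
  induction n with
  | zero => exact ⟨1, fun _ _ => 0, one_pos, by simp, by simp⟩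
  | succ n ih =>
    obtain ⟨N, r, hN, h2, h4⟩ := ih
    obtain ⟨r', e1, e2⟩ : ∃ r' : ℕ → ℕ → ℝ,
        (∀ (c : ℕ → ℝ), ∀ ω ∈ range N, ∑ i ∈ range (n+1), c i * r' i ω
          = (∑ i ∈ range n, c i * r i ω) + c n) ∧
        (∀ (c : ℕ → ℝ), ∀ ω ∈ range N, ∑ i ∈ range (n+1), c i * r' i (N + ω)
          = (∑ i ∈ range n, c i * r i ω) - c n) := by
      refine ⟨fun i ω => if i < n then (if ω < N then r i ω else r i (ω - N))
        else (if ω < N then 1 else -1), ?_, ?_⟩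
      · intro c ω hω
        rw [sum_range_succ]
        have := mem_range.1 hω
        simp only [this, if_true, lt_irrefl, if_false, mul_one]
        congr 1
        exact sum_congr rfl fun i hi => by simp [mem_range.1 hi]
      · intro c ω hω
        rw [sum_range_succ]
        have : ¬ (N + ω < N) := by omega
        simp only [this, if_false, lt_irrefl, Nat.add_sub_cancel_left]
        rw [sub_eq_add_neg, mul_neg_one]
        congr 1
        exact sum_congr rfl fun i hi => by simp [mem_range.1 hi]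
    refine ⟨N + N, r', by omega, ?_, ?_⟩
    · intro c d
      have : ∀ ω ∈ range N, (∑ i ∈ range (n+1), c i * r' i ω) * (∑ i ∈ range (n+1), d i * r' i ω)
          + (∑ i ∈ range (n+1), c i * r' i (N + ω)) * (∑ i ∈ range (n+1), d i * r' i (N + ω))
          = 2 * ((∑ i ∈ range n, c i * r i ω) * (∑ i ∈ range n, d i * r i ω)) + 2 * (c n * d n) := by
        intro ω hω; rw [e1 c ω hω, e1 d ω hω, e2 c ω hω, e2 d ω hω]; ring
      rw [sum_range_add, ← sum_add_distrib, sum_congr rfl this, sum_add_distrib, ← mul_sum, h2,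
        sum_const, card_range, sum_range_succ]
      push_cast
      simp only [nsmul_eq_mul]
      ring
    · intro c
      have : ∀ ω ∈ range N, (∑ i ∈ range (n+1), c i * r' i ω) ^ 4
          + (∑ i ∈ range (n+1), c i * r' i (N + ω)) ^ 4
          = 2 * (∑ i ∈ range n, c i * r i ω) ^ 4 + 12 * c n ^ 2 *
            ((∑ i ∈ range n, c i * r i ω) * (∑ i ∈ range n, c i * r i ω)) + 2 * c n ^ 4 := by
        intro ω hω; rw [e1 c ω hω, e2 c ω hω]; ring
      rw [sum_range_add, ← sum_add_distrib, sum_congr rfl this, sum_add_distrib, sum_add_distrib,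
        ← mul_sum, ← mul_sum, h2, sum_const, card_range, sum_range_succ]
      have h := h4 c
      have hs : ∑ i ∈ range n, c i * c i = ∑ i ∈ range n, c i ^ 2 :=
        sum_congr rfl fun i _ => by ring
      rw [hs]
      push_cast
      simp only [nsmul_eq_mul]
      have hN' : (0:ℝ) ≤ N := Nat.cast_nonneg N
      have : 0 ≤ (N:ℝ) * c n ^ 4 := by positivity
      nlinarith

/-- the data of a complemented `ℓ₂ⁿ` inside `ℓ₄ᴺ`. -/
structure Blk (n : ℕ) where
  N : ℕ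
  E : (ℕ → ℝ) →ₗ[ℝ] (ℕ → ℝ)
  R : (ℕ → ℝ) →ₗ[ℝ] (ℕ → ℝ)
  E_zero : ∀ c ω, N ≤ ω → E c ω = 0
  R_zero : ∀ w i, n ≤ i → R w i = 0
  E_congr : ∀ c d, (∀ i < n, c i = d i) → E c = E d
  R_congr : ∀ w w', (∀ ω < N, w ω = w' ω) → R w = R w'
  RE : ∀ c i, i < n → R (E c) i = c i
  E_le : ∀ c, ∑ ω ∈ range N, (E c ω) ^ 4 ≤ 3 * (∑ i ∈ range n, c i ^ 2) ^ 2
  R_le : ∀ w, (∑ i ∈ range n, (R w i) ^ 2) ^ 2 ≤ ∑ ω ∈ range N, w ω ^ 4

theorem blk_nonempty (n : ℕ) : Nonempty (Blk n) := by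
  obtain ⟨N, r, hN, h2, h4⟩ := rad_exists n
  have hN' : (0:ℝ) < N := by exact_mod_cast hN
  obtain ⟨ρ, hρ, hρ4⟩ : ∃ ρ : ℝ, 0 < ρ ∧ ρ ^ 4 * N = 1 := by
    refine ⟨√(√((N:ℝ)⁻¹)), by positivity, ?_⟩
    have : √(√((N:ℝ)⁻¹)) ^ 4 = (√(√((N:ℝ)⁻¹)) ^ 2) ^ 2 := by ring
    rw [this, Real.sq_sqrt (Real.sqrt_nonneg _), Real.sq_sqrt (by positivity)]
    field_simp
  let E : (ℕ → ℝ) →ₗ[ℝ] (ℕ → ℝ) :=
    { toFun := fun c ω => if ω < N then ρ * ∑ i ∈ range n, c i * r i ω else 0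
      map_add' := by
        intro c d; ext ω
        simp only [Pi.add_apply, add_mul, sum_add_distrib]
        split_ifs <;> ring
      map_smul' := by
        intro a c; ext ω
        simp only [Pi.smul_apply, smul_eq_mul, RingHom.id_apply, mul_assoc, ← mul_sum]
        split_ifs <;> ring }
  let R : (ℕ → ℝ) →ₗ[ℝ] (ℕ → ℝ) :=
    { toFun := fun w i => if i < n then ρ ^ 3 * ∑ ω ∈ range N, w ω * r i ω else 0
      map_add' := by
        intro c d; ext ω
        simp only [Pi.add_apply, add_mul, sum_add_distrib]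
        split_ifs <;> ring
      map_smul' := by
        intro a c; ext ω
        simp only [Pi.smul_apply, smul_eq_mul, RingHom.id_apply, mul_assoc, ← mul_sum]
        split_ifs <;> ring }
  have hE : ∀ c ω, E c ω = if ω < N then ρ * ∑ i ∈ range n, c i * r i ω else 0 := fun _ _ => rfl
  have hR : ∀ w i, R w i = if i < n then ρ ^ 3 * ∑ ω ∈ range N, w ω * r i ω else 0 :=
    fun _ _ => rfl
  refine ⟨⟨N, E, R, ?_, ?_, ?_, ?_, ?_, ?_, ?_⟩⟩
  · intro c ω h; rw [hE, if_neg (by omega)]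
  · intro w i h; rw [hR, if_neg (by omega)]
  · intro c d h; ext ω; rw [hE, hE, sum_congr rfl fun i hi => by rw [h i (mem_range.1 hi)]]
  · intro c d h; ext ω; rw [hR, hR, sum_congr rfl fun i hi => by rw [h i (mem_range.1 hi)]]
  · intro c i hi
    rw [hR, if_pos hi]
    have h := h2 c (Pi.single i 1)
    have e1 : ∀ ω, ∑ k ∈ range n, (Pi.single i (1:ℝ) : ℕ → ℝ) k * r k ω = r i ω := by
      intro ω
      rw [sum_eq_single i] <;> simp +contextual [hi]
    have e2 : ∑ k ∈ range n, c k * (Pi.single i (1:ℝ) : ℕ → ℝ) k = c i := by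
      rw [sum_eq_single i] <;> simp +contextual [hi]
    simp only [e1, e2] at h
    have e3 : ∑ ω ∈ range N, E c ω * r i ω
        = ρ * ∑ ω ∈ range N, (∑ i ∈ range n, c i * r i ω) * r i ω := by
      rw [mul_sum]
      exact sum_congr rfl fun ω hω => by rw [hE, if_pos (mem_range.1 hω)]; ring
    rw [e3, h]
    linear_combination c i * hρ4
  · intro c
    have e3 : ∑ ω ∈ range N, E c ω ^ 4
        = ρ ^ 4 * ∑ ω ∈ range N, (∑ i ∈ range n, c i * r i ω) ^ 4 := by
      rw [mul_sum]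
      exact sum_congr rfl fun ω hω => by rw [hE, if_pos (mem_range.1 hω)]; ring
    rw [e3]
    calc _ ≤ ρ ^ 4 * (3 * N * (∑ i ∈ range n, c i ^ 2) ^ 2) :=
          mul_le_mul_of_nonneg_left (h4 c) (by positivity)
      _ = 3 * (∑ i ∈ range n, c i ^ 2) ^ 2 := by
          linear_combination 3 * (∑ i ∈ range n, c i ^ 2) ^ 2 * hρ4
  · intro w
    set c := R w with hc
    set S := ∑ i ∈ range n, c i ^ 2 with hS
    have hS0 : 0 ≤ S := sum_nonneg fun _ _ => sq_nonneg _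
    have e1 : S = ρ ^ 3 * ∑ ω ∈ range N, w ω * ∑ i ∈ range n, c i * r i ω := by
      simp only [mul_sum]
      rw [sum_comm, hS]
      refine sum_congr rfl fun i hi => ?_
      have : c i = ρ ^ 3 * ∑ ω ∈ range N, w ω * r i ω := by rw [hc, hR, if_pos (mem_range.1 hi)]
      rw [sq]
      nth_rewrite 2 [this]
      rw [mul_sum, mul_sum]
      exact sum_congr rfl fun ω _ => by ring
    have cs := sum_mul_sq_le_sq_mul_sq (range N) w (fun ω => ∑ i ∈ range n, c i * r i ω)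
    have e2 : ∑ ω ∈ range N, (∑ i ∈ range n, c i * r i ω) ^ 2 = N * S := by
      have := h2 c c
      simp only [← sq] at this
      exact this
    rw [e2] at cs
    set Q := ∑ ω ∈ range N, w ω ^ 2 with hQ
    have hQ0 : 0 ≤ Q := sum_nonneg fun _ _ => sq_nonneg _
    have h1 : S ^ 2 ≤ ρ ^ 2 * Q * S := by
      calc S ^ 2 = ρ ^ 6 * (∑ ω ∈ range N, w ω * ∑ i ∈ range n, c i * r i ω) ^ 2 := by
            nth_rewrite 1 [e1]; ring
        _ ≤ ρ ^ 6 * (Q * (N * S)) := mul_le_mul_of_nonneg_left cs (by positivity)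
        _ = ρ ^ 2 * Q * S := by linear_combination ρ ^ 2 * Q * S * hρ4
    have h3 : S ≤ ρ ^ 2 * Q := by
      rcases hS0.eq_or_lt with h | h
      · rw [← h]; positivity
      · nlinarith
    have cs2 := sum_mul_sq_le_sq_mul_sq (range N) (fun _ => (1:ℝ)) (fun ω => w ω ^ 2)
    simp only [one_mul, one_pow, sum_const, card_range, nsmul_eq_mul, mul_one, ← pow_mul] at cs2
    calc S ^ 2 ≤ (ρ ^ 2 * Q) ^ 2 := pow_le_pow_left₀ hS0 h3 2
      _ = ρ ^ 4 * Q ^ 2 := by ring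
      _ ≤ ρ ^ 4 * (N * ∑ ω ∈ range N, w ω ^ 4) := mul_le_mul_of_nonneg_left cs2 (by positivity)
      _ = _ := by linear_combination (∑ ω ∈ range N, w ω ^ 4) * hρ4

end Pool.Agent.H15.QG
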