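import Pool.Agent.H15.QG1

/-! A chain decomposition: `ℓ₄ ≅ (⊕ ℓ₂^{2j+1})₄ ⊕ ℓ₄`, in coordinates. -/

namespace Pool.Agent.H15.QG

open Finset

noncomputable def B (j : ℕ) : Blk (j ^ 2) := Classical.choice (blk_nonempty _)

noncomputable def vv (y : ℕ → ℕ → ℝ) : ℕ → ℕ → ℝ :=
  fun j => y j + (B j).E ((B (j+1)).R (y (j+1)) - (B j).R (y j))

noncomputable def uu (y : ℕ → ℕ → ℝ) : ℕ → ℝ :=
  fun i => (B (Nat.sqrt i + 1)).R (y (Nat.sqrt i + 1)) i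

noncomputable def cc (u : ℕ → ℝ) (v : ℕ → ℕ → ℝ) (j : ℕ) : ℕ → ℝ :=
  fun i => if i < j ^ 2 then (B j).R (v j) i else u i

noncomputable def psi (u : ℕ → ℝ) (v : ℕ → ℕ → ℝ) : ℕ → ℕ → ℝ :=
  fun j => v j + (B j).E (cc u v (j - 1) - (B j).R (v j))

theorem sqrt_eq_of {i j : ℕ} (h1 : j ^ 2 ≤ i) (h2 : i < (j+1) ^ 2) : Nat.sqrt i = j :=
  (Nat.eq_sqrt'.2 ⟨h1, h2⟩).symm

theorem sq_le_succ (j : ℕ) : j ^ 2 ≤ (j+1) ^ 2 := Nat.pow_le_pow_left (Nat.le_succ j) 2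

theorem R_vv (y : ℕ → ℕ → ℝ) (j i : ℕ) (hi : i < j ^ 2) :
    (B j).R (vv y j) i = (B (j+1)).R (y (j+1)) i := by
  simp only [vv, map_add, Pi.add_apply]
  rw [(B j).RE _ _ hi]
  simp

theorem R_psi (u : ℕ → ℝ) (v : ℕ → ℕ → ℝ) (j i : ℕ) (hi : i < j ^ 2) :
    (B j).R (psi u v j) i = cc u v (j - 1) i := by
  simp only [psi, map_add, Pi.add_apply]
  rw [(B j).RE _ _ hi]
  simp

theorem psi_uv (y : ℕ → ℕ → ℝ) : psi (uu y) (vv y) = y := by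
  funext j
  have : (B j).E (cc (uu y) (vv y) (j - 1) - (B j).R (vv y j))
      = (B j).E ((B j).R (y j) - (B (j+1)).R (y (j+1))) := by
    apply (B j).E_congr
    intro i hi
    simp only [Pi.sub_apply]
    rw [R_vv y j i hi]
    congr 1
    obtain _ | j := j
    · simp at hi
    · simp only [Nat.add_sub_cancel, cc]
      split_ifs with h
      · exact R_vv y j i h
      · have := sqrt_eq_of (not_lt.1 h) hi
        simp only [uu]
        rw [this]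
  simp only [psi]
  rw [this]
  simp only [vv, map_sub]
  abel

theorem vv_psi (u : ℕ → ℝ) (v : ℕ → ℕ → ℝ) : vv (psi u v) = v := by
  funext j
  have : (B j).E ((B (j+1)).R (psi u v (j+1)) - (B j).R (psi u v j))
      = (B j).E ((B j).R (v j) - cc u v (j - 1)) := by
    apply (B j).E_congr
    intro i hi
    simp only [Pi.sub_apply]
    rw [R_psi u v j i hi, R_psi u v (j+1) i (hi.trans_le (sq_le_succ j))]
    simp [cc, hi]
  simp only [vv]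
  rw [this]
  simp only [psi, map_sub]
  abel

theorem uu_psi (u : ℕ → ℝ) (v : ℕ → ℕ → ℝ) : uu (psi u v) = u := by
  funext i
  simp only [uu]
  rw [R_psi u v (Nat.sqrt i + 1) i (Nat.lt_succ_sqrt' i)]
  simp only [Nat.add_sub_cancel, cc]
  rw [if_neg (not_lt.2 (Nat.sqrt_le' i))]

def Bd (y : ℕ → ℕ → ℝ) (K : ℝ) : Prop :=
  ∀ (J : ℕ) (W : ℕ → ℕ), ∑ j ∈ range J, ∑ ω ∈ range (W j), y j ω ^ 4 ≤ K

def UB (u : ℕ → ℝ) (K : ℝ) : Prop :=
  ∀ J : ℕ, ∑ j ∈ range J, (∑ i ∈ Ico (j ^ 2) ((j+1) ^ 2), u i ^ 2) ^ 2 ≤ K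

theorem sum_range_le_of_zero (f : ℕ → ℝ) (N W : ℕ) (h0 : ∀ i, 0 ≤ f i)
    (h : ∀ i, N ≤ i → f i = 0) : ∑ i ∈ range W, f i ≤ ∑ i ∈ range N, f i := by
  rcases le_total W N with hW | hW
  · exact sum_le_sum_of_subset_of_nonneg (range_mono hW) fun _ _ _ => h0 _
  · exact (sum_subset (range_mono hW) fun i _ hi => h i (by simpa using hi)).ge

theorem row_add_E {n : ℕ} (b : Blk n) (w c d : ℕ → ℝ) (W : ℕ) :
    ∑ ω ∈ range W, (w + b.E (c - d)) ω ^ 4 ≤ 8 * ∑ ω ∈ range W, w ω ^ 4 +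
      192 * ((∑ i ∈ range n, c i ^ 2) ^ 2 + (∑ i ∈ range n, d i ^ 2) ^ 2) := by
  have h1 : ∑ ω ∈ range W, (w + b.E (c - d)) ω ^ 4
      ≤ 8 * ∑ ω ∈ range W, w ω ^ 4 + 8 * ∑ ω ∈ range W, b.E (c - d) ω ^ 4 := by
    rw [mul_sum, mul_sum, ← sum_add_distrib]
    refine sum_le_sum fun ω _ => ?_
    simp only [Pi.add_apply]
    set p := w ω
    set q := b.E (c - d) ω
    have a1 : (p + q) ^ 2 ≤ 2 * (p ^ 2 + q ^ 2) := by nlinarith [sq_nonneg (p - q)]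
    have a2 : ((p + q) ^ 2) ^ 2 ≤ (2 * (p ^ 2 + q ^ 2)) ^ 2 := pow_le_pow_left₀ (sq_nonneg _) a1 2
    nlinarith [sq_nonneg (p ^ 2 - q ^ 2)]
  have h2 : ∑ ω ∈ range W, b.E (c - d) ω ^ 4 ≤ 3 * (∑ i ∈ range n, (c - d) i ^ 2) ^ 2 :=
    (sum_range_le_of_zero _ b.N W (fun _ => by positivity)
      (fun i hi => by rw [b.E_zero _ _ hi]; norm_num)).trans (b.E_le _)
  have h3 : ∑ i ∈ range n, (c - d) i ^ 2
      ≤ 2 * (∑ i ∈ range n, c i ^ 2 + ∑ i ∈ range n, d i ^ 2) := by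
    rw [← sum_add_distrib, mul_sum]
    refine sum_le_sum fun i _ => ?_
    simp only [Pi.sub_apply]
    nlinarith [sq_nonneg (c i + d i)]
  have h4 := pow_le_pow_left₀ (sum_nonneg fun _ _ => sq_nonneg _) h3 2
  nlinarith [sq_nonneg (∑ i ∈ range n, c i ^ 2 - ∑ i ∈ range n, d i ^ 2)]

theorem Bd.shift {y : ℕ → ℕ → ℝ} {K : ℝ} (h : Bd y K) (J : ℕ) :
    ∑ j ∈ range J, ∑ ω ∈ range (B (j+1)).N, y (j+1) ω ^ 4 ≤ K := by
  have := h (J+1) (fun j => (B j).N)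
  rw [sum_range_succ'] at this
  have h0 : 0 ≤ ∑ ω ∈ range (B 0).N, y 0 ω ^ 4 := sum_nonneg fun _ _ => by positivity
  linarith

theorem uu_bd {y : ℕ → ℕ → ℝ} {K : ℝ} (h : Bd y K) : UB (uu y) K := by
  intro J
  refine le_trans (sum_le_sum fun j _ => ?_) (h.shift J)
  refine le_trans (pow_le_pow_left₀ (sum_nonneg fun _ _ => sq_nonneg _) ?_ 2) ((B (j+1)).R_le _)
  calc ∑ i ∈ Ico (j ^ 2) ((j+1) ^ 2), uu y i ^ 2
      = ∑ i ∈ Ico (j ^ 2) ((j+1) ^ 2), (B (j+1)).R (y (j+1)) i ^ 2 := by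
        refine sum_congr rfl fun i hi => ?_
        have := sqrt_eq_of (mem_Ico.1 hi).1 (mem_Ico.1 hi).2
        simp only [uu]
        rw [this]
    _ ≤ _ := sum_le_sum_of_subset_of_nonneg
        (fun i hi => mem_range.2 (mem_Ico.1 hi).2) fun _ _ _ => sq_nonneg _

theorem vv_bd {y : ℕ → ℕ → ℝ} {K : ℝ} (h : Bd y K) : Bd (vv y) (392 * K) := by
  intro J W
  have h1 : ∀ j ∈ range J, ∑ ω ∈ range (W j), vv y j ω ^ 4 ≤ 8 * ∑ ω ∈ range (W j), y j ω ^ 4 +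
      192 * (∑ ω ∈ range (B (j+1)).N, y (j+1) ω ^ 4 + ∑ ω ∈ range (B j).N, y j ω ^ 4) := by
    intro j _
    have a := row_add_E (B j) (y j) ((B (j+1)).R (y (j+1))) ((B j).R (y j)) (W j)
    have b := (B j).R_le (y j)
    have c := (B (j+1)).R_le (y (j+1))
    have d : ∑ i ∈ range (j ^ 2), (B (j+1)).R (y (j+1)) i ^ 2
        ≤ ∑ i ∈ range ((j+1) ^ 2), (B (j+1)).R (y (j+1)) i ^ 2 :=
      sum_le_sum_of_subset_of_nonneg (range_mono (sq_le_succ j)) fun _ _ _ => sq_nonneg _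
    have e := pow_le_pow_left₀ (sum_nonneg fun _ _ => sq_nonneg _) d 2
    simp only [vv]
    linarith
  have h2 := sum_le_sum h1
  rw [sum_add_distrib, ← mul_sum, ← mul_sum, sum_add_distrib] at h2
  have := h J W
  have := h.shift J
  have := h J (fun j => (B j).N)
  linarith

theorem psi_bd {u : ℕ → ℝ} {v : ℕ → ℕ → ℝ} {K L : ℝ} (hu : UB u L) (h : Bd v K) :
    Bd (psi u v) (584 * K + 384 * L) := by
  intro J W
  have h1 : ∀ j ∈ range J, ∑ ω ∈ range (W j), psi u v j ω ^ 4 ≤ 8 * ∑ ω ∈ range (W j), v j ω ^ 4 +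
      192 * ((∑ i ∈ range (j ^ 2), cc u v (j - 1) i ^ 2) ^ 2 + ∑ ω ∈ range (B j).N, v j ω ^ 4) := by
    intro j _
    have a := row_add_E (B j) (v j) (cc u v (j - 1)) ((B j).R (v j)) (W j)
    have b := (B j).R_le (v j)
    simp only [psi]
    linarith
  have h2 := sum_le_sum h1
  rw [sum_add_distrib, ← mul_sum, ← mul_sum, sum_add_distrib] at h2
  have h3 : ∑ j ∈ range J, (∑ i ∈ range (j ^ 2), cc u v (j - 1) i ^ 2) ^ 2
      ≤ ∑ j ∈ range (J+1), (∑ i ∈ range (j ^ 2), cc u v (j - 1) i ^ 2) ^ 2 :=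
    sum_le_sum_of_subset_of_nonneg (range_mono (by omega)) fun _ _ _ => sq_nonneg _
  rw [sum_range_succ'] at h3
  have h4 : ∀ j ∈ range J, (∑ i ∈ range ((j+1) ^ 2), cc u v (j + 1 - 1) i ^ 2) ^ 2
      ≤ 2 * ∑ ω ∈ range (B j).N, v j ω ^ 4
        + 2 * (∑ i ∈ Ico (j ^ 2) ((j+1) ^ 2), u i ^ 2) ^ 2 := by
    intro j _
    have e : ∑ i ∈ range ((j+1) ^ 2), cc u v (j + 1 - 1) i ^ 2
        = ∑ i ∈ range (j ^ 2), (B j).R (v j) i ^ 2 + ∑ i ∈ Ico (j ^ 2) ((j+1) ^ 2), u i ^ 2 := by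
      rw [← sum_range_add_sum_Ico _ (sq_le_succ j)]
      congr 1
      · exact sum_congr rfl fun i hi => by simp [cc, mem_range.1 hi]
      · exact sum_congr rfl fun i hi => by simp [cc, not_lt.2 (mem_Ico.1 hi).1]
    rw [e]
    have b := (B j).R_le (v j)
    nlinarith [sq_nonneg (∑ i ∈ range (j ^ 2), (B j).R (v j) i ^ 2
      - ∑ i ∈ Ico (j ^ 2) ((j+1) ^ 2), u i ^ 2)]
  have h5 := sum_le_sum h4
  rw [sum_add_distrib, ← mul_sum, ← mul_sum] at h5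
  have := h J W
  have := hu J
  have := h J (fun j => (B j).N)
  simp only [ne_eq, OfNat.ofNat_ne_zero, not_false_eq_true, zero_pow, range_zero, sum_empty,
    add_zero] at h3
  linarith

end Pool.Agent.H15.QG
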