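import Pool.Agent.H15.QG2

/-! The thresholding estimate for the averaging operator. -/

namespace Pool.Agent.H15.QG

open Finset

/-- `a'` is a thresholding of `a` at level `t`. -/
def Th (t a a' : ℝ) : Prop := (a' = a ∧ t ≤ |a|) ∨ (a' = 0 ∧ |a| ≤ t)

theorem point_est (m : ℕ) (hm : 0 < m) (g g' : ℕ → ℝ) (t D a a' : ℝ) (ht : 0 ≤ t) (hD : 0 < D)
    (hg : ∀ s, Th t (g s) (g' s)) (ha : Th t a a') :
    (a' + (∑ s ∈ range m, g' s) / m) ^ 2 ≤ 10 * (a + (∑ s ∈ range m, g s) / m) ^ 2 +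
      (if (m:ℝ) * t ^ 2 ≤ D then 8 * t ^ 2 else 0) + 8 * (∑ s ∈ range m, g s ^ 4) / D := by
  have hm' : (0:ℝ) < m := by exact_mod_cast hm
  set σ := (∑ s ∈ range m, g s) / m with hσ
  set σ' := (∑ s ∈ range m, g' s) / m with hσ'
  set β := ∑ s ∈ range m, g s ^ 4 with hβ
  set q := ∑ s ∈ range m, g s ^ 2 with hq
  have hβ0 : 0 ≤ β := sum_nonneg fun _ _ => by positivity
  have hq0 : 0 ≤ q := sum_nonneg fun _ _ => by positivity
  have h1 : q ^ 2 ≤ m * β := by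
    have cs2 := sum_mul_sq_le_sq_mul_sq (range m) (fun _ => (1:ℝ)) (fun s => g s ^ 2)
    simpa only [one_mul, one_pow, sum_const, card_range, nsmul_eq_mul, mul_one, ← pow_mul] using cs2
  have h2 : σ ^ 2 ≤ q / m := by
    have cs2 := sum_mul_sq_le_sq_mul_sq (range m) (fun _ => (1:ℝ)) g
    simp only [one_mul, one_pow, sum_const, card_range, nsmul_eq_mul, mul_one] at cs2
    rw [hσ, div_pow, div_le_div_iff₀ (by positivity) hm']
    nlinarith
  have h3 : |σ - σ'| ≤ t := by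
    rw [hσ, hσ', ← sub_div, ← sum_sub_distrib, abs_div, abs_of_pos hm', div_le_iff₀ hm']
    refine (abs_sum_le_sum_abs _ _).trans ?_
    calc ∑ s ∈ range m, |g s - g' s| ≤ ∑ s ∈ range m, t := by
          refine sum_le_sum fun s _ => ?_
          rcases hg s with ⟨h, _⟩ | ⟨h, h'⟩
          · rw [h]; simpa using ht
          · rw [h]; simpa using h'
      _ = t * m := by simp [mul_comm]
  have h4 : t * |σ'| ≤ q / m := by
    rw [hσ', abs_div, abs_of_pos hm', ← mul_div_assoc]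
    refine div_le_div_of_nonneg_right ?_ hm'.le
    refine (mul_le_mul_of_nonneg_left (abs_sum_le_sum_abs _ _) ht).trans ?_
    rw [mul_sum]
    refine sum_le_sum fun s _ => ?_
    rcases hg s with ⟨h, h'⟩ | ⟨h, _⟩
    · rw [h, ← sq_abs, sq]; exact mul_le_mul_of_nonneg_right h' (abs_nonneg _)
    · rw [h]; simp; positivity
  have h5 : (q / m) ^ 2 ≤ β / m := by
    rw [div_pow, div_le_div_iff₀ (by positivity) hm']
    nlinarith
  have h3' : (σ - σ') ^ 2 ≤ t ^ 2 := by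
    rw [← sq_abs]; exact pow_le_pow_left₀ (abs_nonneg _) h3 2
  have hb : 0 ≤ β / D := by positivity
  have e8 : 8 * β / D = 8 * (β / D) := by ring
  rw [e8]
  by_cases hc : (m:ℝ) * t ^ 2 ≤ D
  · rw [if_pos hc]
    rcases ha with ⟨h, _⟩ | ⟨h, h'⟩
    · rw [h]
      nlinarith [sq_nonneg (a + σ + (σ - σ')), sq_nonneg (a + σ), sq_nonneg t]
    · rw [h]
      have h'' : a ^ 2 ≤ t ^ 2 := by rw [← sq_abs]; exact pow_le_pow_left₀ (abs_nonneg _) h' 2
      nlinarith [sq_nonneg (a + σ + (a + (σ - σ'))), sq_nonneg (a + σ), sq_nonneg (a - (σ - σ'))]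
  · rw [if_neg hc]
    push Not at hc
    have ht0 : 0 < t ^ 2 := by
      by_contra hh
      have : t ^ 2 = 0 := le_antisymm (not_lt.1 hh) (sq_nonneg _)
      rw [this] at hc; linarith
    have h6 : β / m ≤ t ^ 2 * (β / D) := by
      rw [← mul_div_assoc, div_le_div_iff₀ hm' hD]
      nlinarith
    rcases ha with ⟨h, h'⟩ | ⟨h, _⟩
    · rw [h]
      have h'' : t ^ 2 ≤ a ^ 2 := by rw [← sq_abs a]; exact pow_le_pow_left₀ ht h' 2
      have h7 : (σ ^ 2) ^ 2 ≤ t ^ 2 * (β / D) :=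
        ((pow_le_pow_left₀ (sq_nonneg _) h2 2).trans h5).trans h6
      have h8 : 2 * σ ^ 2 ≤ t ^ 2 / 2 + 2 * (β / D) := by
        refine le_of_mul_le_mul_left ?_ ht0
        nlinarith [sq_nonneg (t ^ 2 - 2 * σ ^ 2)]
      have h9 : a ^ 2 ≤ 2 * (a + σ) ^ 2 + 2 * σ ^ 2 := by nlinarith [sq_nonneg (a + 2 * σ)]
      nlinarith [sq_nonneg (a + σ + (σ - σ'))]
    · rw [h]
      have h7 : t ^ 2 * σ' ^ 2 ≤ t ^ 2 * (β / D) := by
        have := pow_le_pow_left₀ (by positivity) h4 2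
        rw [mul_pow, sq_abs] at this
        linarith
      have h8 := le_of_mul_le_mul_left h7 ht0
      nlinarith [sq_nonneg (a + σ)]

theorem count_est (t D : ℝ) (hD : 0 ≤ D) (d : ℕ) :
    ∑ s ∈ range d, (if ((s + 1 : ℕ):ℝ) * t ^ 2 ≤ D then t ^ 2 else 0) ≤ D ∧
    ∑ s ∈ range d, (if ((s + 1 : ℕ):ℝ) * t ^ 2 ≤ D then t ^ 2 else 0) ≤ d * t ^ 2 := by
  induction d with
  | zero => simpa using hD
  | succ d ih =>
    rw [sum_range_succ]
    split_ifs with h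
    · push_cast at h ⊢ ih
      constructor <;> nlinarith [ih.2]
    · push_cast at h ⊢ ih
      constructor <;> nlinarith [ih.2, ih.1, sq_nonneg t]

def mm (i : ℕ) : ℕ := i - Nat.sqrt i ^ 2 + 1

noncomputable def SS (v : ℕ → ℕ → ℝ) : ℕ → ℝ :=
  fun i => (∑ s ∈ range (mm i), v i ((B i).N + s)) / mm i

theorem mm_pos (i : ℕ) : 0 < mm i := Nat.succ_pos _

theorem mm_eq (j s : ℕ) (hs : s < 2 * j + 1) : mm (j ^ 2 + s) = s + 1 := by
  have : Nat.sqrt (j ^ 2 + s) = j := sqrt_eq_of (by omega) (by nlinarith)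
  simp [mm, this]

theorem sum_blk (f : ℕ → ℝ) (j : ℕ) :
    ∑ i ∈ Ico (j ^ 2) ((j+1) ^ 2), f i = ∑ s ∈ range (2 * j + 1), f (j ^ 2 + s) := by
  rw [sum_Ico_eq_sum_range]
  congr 2
  have : (j+1) ^ 2 = j ^ 2 + (2 * j + 1) := by ring
  omega

theorem blk_est (a a' : ℕ → ℝ) (v v' : ℕ → ℕ → ℝ) (t : ℝ) (ht : 0 ≤ t)
    (ha : ∀ i, Th t (a i) (a' i)) (hv : ∀ j ω, Th t (v j ω) (v' j ω)) (j : ℕ) :
    (∑ i ∈ Ico (j ^ 2) ((j+1) ^ 2), (a' + SS v') i ^ 2) ^ 2 ≤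
      676 * ((∑ i ∈ Ico (j ^ 2) ((j+1) ^ 2), (a + SS v) i ^ 2) ^ 2 +
        ∑ i ∈ Ico (j ^ 2) ((j+1) ^ 2), ∑ s ∈ range (mm i), v i ((B i).N + s) ^ 4) := by
  set U := ∑ i ∈ Ico (j ^ 2) ((j+1) ^ 2), (a + SS v) i ^ 2 with hU
  set V := ∑ i ∈ Ico (j ^ 2) ((j+1) ^ 2), ∑ s ∈ range (mm i), v i ((B i).N + s) ^ 4 with hV
  have hU0 : 0 ≤ U := sum_nonneg fun _ _ => sq_nonneg _
  have hV0 : 0 ≤ V := sum_nonneg fun _ _ => sum_nonneg fun _ _ => by positivity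
  have key : ∀ D : ℝ, 0 < D → U ≤ D → V ≤ D ^ 2 →
      ∑ i ∈ Ico (j ^ 2) ((j+1) ^ 2), (a' + SS v') i ^ 2 ≤ 26 * D := by
    intro D hD h1 h2
    have h3 := sum_le_sum (s := Ico (j ^ 2) ((j+1) ^ 2)) fun i _ =>
      point_est (mm i) (mm_pos i) (fun s => v i ((B i).N + s)) (fun s => v' i ((B i).N + s)) t D
        (a i) (a' i) ht hD (fun s => hv _ _) (ha i)
    rw [sum_add_distrib, sum_add_distrib, ← mul_sum, ← sum_div, ← mul_sum] at h3
    have h4 : ∑ i ∈ Ico (j ^ 2) ((j+1) ^ 2), (if (mm i : ℝ) * t ^ 2 ≤ D then 8 * t ^ 2 else 0)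
        ≤ 8 * D := by
      rw [sum_blk]
      have := (count_est t D hD.le (2 * j + 1)).1
      calc _ = 8 * ∑ s ∈ range (2 * j + 1),
            (if ((s + 1 : ℕ):ℝ) * t ^ 2 ≤ D then t ^ 2 else 0) := by
            rw [mul_sum]
            refine sum_congr rfl fun s hs => ?_
            rw [mm_eq j s (mem_range.1 hs)]
            split_ifs <;> simp
        _ ≤ _ := by linarith
    have h5 : 8 * V / D ≤ 8 * D := by
      rw [div_le_iff₀ hD]; nlinarith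
    have h6 : ∑ i ∈ Ico (j ^ 2) ((j+1) ^ 2), (a' + SS v') i ^ 2 ≤ 10 * U +
      ∑ i ∈ Ico (j ^ 2) ((j+1) ^ 2), (if (mm i : ℝ) * t ^ 2 ≤ D then 8 * t ^ 2 else 0)
        + 8 * V / D := h3
    linarith
  have h7 : ∑ i ∈ Ico (j ^ 2) ((j+1) ^ 2), (a' + SS v') i ^ 2 ≤ 26 * √(U ^ 2 + V) := by
    refine le_of_forall_pos_le_add fun ε hε => ?_
    have s0 := Real.sqrt_nonneg (U ^ 2 + V)
    have s1 : √(U ^ 2 + V) ^ 2 = U ^ 2 + V := Real.sq_sqrt (by positivity)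
    have s2 : U ≤ √(U ^ 2 + V) := Real.le_sqrt_of_sq_le (by linarith)
    have := key (√(U ^ 2 + V) + ε / 26) (by positivity) (by linarith) (by nlinarith)
    linarith
  have h8 := pow_le_pow_left₀ (sum_nonneg fun _ _ => sq_nonneg _) h7 2
  rw [mul_pow, Real.sq_sqrt (by positivity)] at h8
  linarith

theorem sum_Ico_sq (f : ℕ → ℝ) (J : ℕ) :
    ∑ j ∈ range J, ∑ i ∈ Ico (j ^ 2) ((j+1) ^ 2), f i = ∑ i ∈ range (J ^ 2), f i := by
  induction J with
  | zero => simp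
  | succ J ih => rw [sum_range_succ, ih, sum_range_add_sum_Ico _ (sq_le_succ J)]

theorem qg_est (a a' : ℕ → ℝ) (v v' : ℕ → ℕ → ℝ) (t K L : ℝ) (ht : 0 ≤ t)
    (ha : ∀ i, Th t (a i) (a' i)) (hv : ∀ j ω, Th t (v j ω) (v' j ω))
    (hu : UB (a + SS v) L) (h : Bd v K) :
    UB (a' + SS v') (676 * (L + K)) ∧ Bd v' K := by
  constructor
  · intro J
    refine (sum_le_sum fun j _ => blk_est a a' v v' t ht ha hv j).trans ?_
    rw [← mul_sum, sum_add_distrib, sum_Ico_sq]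
    have h1 := hu J
    have h2 := h (J ^ 2) (fun i => (B i).N + mm i)
    have h3 : ∑ i ∈ range (J ^ 2), ∑ s ∈ range (mm i), v i ((B i).N + s) ^ 4 ≤
        ∑ i ∈ range (J ^ 2), ∑ ω ∈ range ((B i).N + mm i), v i ω ^ 4 := by
      refine sum_le_sum fun i _ => ?_
      rw [sum_range_add]
      have : 0 ≤ ∑ ω ∈ range (B i).N, v i ω ^ 4 := sum_nonneg fun _ _ => by positivity
      linarith
    linarith
  · intro J W
    refine le_trans (sum_le_sum fun j _ => sum_le_sum fun ω _ => ?_) (h J W)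
    rcases hv j ω with ⟨h, _⟩ | ⟨h, _⟩
    · rw [h]
    · rw [h]; simp; positivity

end Pool.Agent.H15.QG
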