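import Pool.Agent.H15.QG3

/-! The basis of `ℓ₄` in coordinates: synthesis and analysis maps. -/

namespace Pool.Agent.H15.QG

open Finset
open scoped ENNReal

instance fact4 : Fact ((1:ℝ≥0∞) ≤ 4) := ⟨by norm_num⟩

abbrev X := lp (fun _ : ℕ => ℝ) (4:ℝ≥0∞)

abbrev κ := ℕ ⊕ ℕ × ℕ

def view (y : ℕ → ℝ) : ℕ → ℕ → ℝ := fun j ω => y (Nat.pair j ω)

def mk (z : ℕ → ℕ → ℝ) : ℕ → ℝ := fun k => z (Nat.unpair k).1 (Nat.unpair k).2

theorem view_mk (z : ℕ → ℕ → ℝ) : view (mk z) = z := by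
  funext j ω; simp [view, mk]

theorem mk_view (y : ℕ → ℝ) : mk (view y) = y := by
  funext k; simp [view, mk]

theorem four_toReal : (4:ℝ≥0∞).toReal = ((4:ℕ):ℝ) := by simp

theorem abs_rpow4 (a : ℝ) : ‖a‖ ^ (4:ℝ≥0∞).toReal = a ^ 4 := by
  rw [four_toReal, Real.rpow_natCast, Real.norm_eq_abs]
  exact Even.pow_abs (by decide) a

theorem view_bd (y : X) : Bd (view y) (‖y‖ ^ 4) := by
  intro J W
  have h := lp.sum_rpow_le_norm_rpow (p := 4) (by simp) y
    (((range J).sigma fun j => range (W j)).image fun p => Nat.pair p.1 p.2)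
  rw [sum_image, sum_sigma] at h
  · simp only [abs_rpow4] at h
    rw [four_toReal, Real.rpow_natCast] at h
    exact h
  · rintro ⟨a, b⟩ _ ⟨c, d⟩ _ h
    obtain ⟨rfl, rfl⟩ := Nat.pair_eq_pair.1 h
    rfl

theorem mk_sum_le {z : ℕ → ℕ → ℝ} {K : ℝ} (h : Bd z K) (s : Finset ℕ) :
    ∑ k ∈ s, ‖mk z k‖ ^ (4:ℝ≥0∞).toReal ≤ K := by
  simp only [abs_rpow4]
  obtain ⟨M, hM⟩ := s.exists_nat_subset_range
  have h1 := h M (fun _ => M)
  rw [← sum_product'] at h1
  refine le_trans ?_ h1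
  have e : ∑ k ∈ s, mk z k ^ 4 = ∑ p ∈ s.image Nat.unpair, z p.1 p.2 ^ 4 := by
    rw [sum_image]
    · rfl
    · intro a _ b _ hab
      exact Nat.pairEquiv.symm.injective hab
  rw [e]
  refine sum_le_sum_of_subset_of_nonneg ?_ fun _ _ _ => by positivity
  intro p hp
  obtain ⟨k, hk, rfl⟩ := mem_image.1 hp
  have := mem_range.1 (hM hk)
  have a := Nat.unpair_left_le k
  have b := Nat.unpair_right_le k
  simp only [mem_product, mem_range]
  omega

theorem mk_mem {z : ℕ → ℕ → ℝ} {K : ℝ} (h : Bd z K) : Memℓp (mk z) (4:ℝ≥0∞) :=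
  memℓp_gen' (mk_sum_le h)

theorem norm_le_of_bd (y : X) {K : ℝ} (h : Bd (view y) K) : ‖y‖ ^ 4 ≤ K := by
  have h1 := lp.norm_rpow_eq_tsum (p := 4) (by simp) y
  rw [four_toReal, Real.rpow_natCast, ← four_toReal] at h1
  rw [h1]
  refine Real.tsum_le_of_sum_le (fun _ => by positivity) fun s => ?_
  have := mk_sum_le h s
  rwa [mk_view] at this

def ca (c : κ → ℝ) : ℕ → ℝ := fun i => c (Sum.inl i)

def cb (c : κ → ℝ) : ℕ → ℕ → ℝ := fun j ω => c (Sum.inr (j, ω))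

theorem SS_add (v w : ℕ → ℕ → ℝ) : SS (v + w) = SS v + SS w := by
  funext i; simp [SS, sum_add_distrib, add_div]

theorem SS_smul (a : ℝ) (v : ℕ → ℕ → ℝ) : SS (a • v) = a • SS v := by
  funext i; simp [SS, ← mul_sum, mul_div_assoc]

theorem vv_add (v w : ℕ → ℕ → ℝ) : vv (v + w) = vv v + vv w := by
  funext j; simp only [vv, Pi.add_apply, map_add, map_sub]; abel

theorem vv_smul (a : ℝ) (v : ℕ → ℕ → ℝ) : vv (a • v) = a • vv v := by
  funext j; simp only [vv, Pi.smul_apply, map_smul, map_sub, smul_add, smul_sub]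

theorem uu_add (v w : ℕ → ℕ → ℝ) : uu (v + w) = uu v + uu w := by
  funext j; simp [uu]

theorem uu_smul (a : ℝ) (v : ℕ → ℕ → ℝ) : uu (a • v) = a • uu v := by
  funext j; simp [uu]

theorem cc_add (u u' : ℕ → ℝ) (v w : ℕ → ℕ → ℝ) (j : ℕ) :
    cc (u + u') (v + w) j = cc u v j + cc u' w j := by
  funext i; simp only [cc, Pi.add_apply, map_add]; split_ifs <;> rfl

theorem cc_smul (a : ℝ) (u : ℕ → ℝ) (v : ℕ → ℕ → ℝ) (j : ℕ) :
    cc (a • u) (a • v) j = a • cc u v j := by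
  funext i; simp only [cc, Pi.smul_apply, map_smul]; split_ifs <;> rfl

theorem psi_add (u u' : ℕ → ℝ) (v w : ℕ → ℕ → ℝ) :
    psi (u + u') (v + w) = psi u v + psi u' w := by
  funext j; simp only [psi, cc_add, Pi.add_apply, map_add, map_sub]; abel

theorem psi_smul (a : ℝ) (u : ℕ → ℝ) (v : ℕ → ℕ → ℝ) :
    psi (a • u) (a • v) = a • psi u v := by
  funext j; simp only [psi, cc_smul, Pi.smul_apply, map_smul, map_sub, smul_add, smul_sub]

/-- synthesis -/
noncomputable def Syn : (κ → ℝ) →ₗ[ℝ] (ℕ → ℝ) where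
  toFun c := mk (psi (ca c + SS (cb c)) (cb c))
  map_add' c d := by
    have e1 : ca (c + d) = ca c + ca d := rfl
    have e2 : cb (c + d) = cb c + cb d := rfl
    rw [e1, e2, SS_add, add_add_add_comm, psi_add]; rfl
  map_smul' a c := by
    have e1 : ca (a • c) = a • ca c := rfl
    have e2 : cb (a • c) = a • cb c := rfl
    rw [e1, e2, SS_smul, ← smul_add, psi_smul]; rfl

/-- analysis -/
noncomputable def Ana : (ℕ → ℝ) →ₗ[ℝ] (κ → ℝ) where
  toFun y := Sum.elim (uu (view y) - SS (vv (view y))) (fun p => vv (view y) p.1 p.2)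
  map_add' c d := by
    have e1 : view (c + d) = view c + view d := rfl
    rw [e1, uu_add, vv_add, SS_add]
    funext k; rcases k with i | p
    · simp; ring
    · simp
  map_smul' a c := by
    have e1 : view (a • c) = a • view c := rfl
    rw [e1, uu_smul, vv_smul, SS_smul]
    funext k; rcases k with i | p
    · simp; ring
    · simp

theorem view_Syn (c : κ → ℝ) : view (Syn c) = psi (ca c + SS (cb c)) (cb c) :=
  view_mk (psi (ca c + SS (cb c)) (cb c))

theorem cb_Ana (y : ℕ → ℝ) : cb (Ana y) = vv (view y) := rfl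

theorem ca_Ana (y : ℕ → ℝ) : ca (Ana y) + SS (cb (Ana y)) = uu (view y) := by
  have : ca (Ana y) = uu (view y) - SS (vv (view y)) := rfl
  rw [this, cb_Ana]; abel

theorem Syn_Ana (y : ℕ → ℝ) : Syn (Ana y) = y := by
  rw [← mk_view (Syn (Ana y)), view_Syn, ca_Ana, cb_Ana, psi_uv, mk_view]

theorem Ana_Syn (c : κ → ℝ) : Ana (Syn c) = c := by
  funext k
  rcases k with i | p
  · change (uu (view (Syn c)) - SS (vv (view (Syn c)))) i = _
    rw [view_Syn, uu_psi, vv_psi]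
    simp [ca]
  · change vv (view (Syn c)) p.1 p.2 = _
    rw [view_Syn, vv_psi]
    rfl

theorem Bd.pt {z : ℕ → ℕ → ℝ} {K : ℝ} (h : Bd z K) (j ω : ℕ) : z j ω ^ 4 ≤ K := by
  refine le_trans ?_ (h (j+1) (fun _ => ω + 1))
  refine le_trans ?_ (single_le_sum (f := fun j => ∑ ω ∈ range (ω + 1), z j ω ^ 4)
    (fun _ _ => sum_nonneg fun _ _ => by positivity) (self_mem_range_succ j))
  exact single_le_sum (f := fun ω => z j ω ^ 4) (fun _ _ => by positivity) (self_mem_range_succ ω)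

theorem UB.blk {u : ℕ → ℝ} {K : ℝ} (h : UB u K) (j : ℕ) :
    (∑ i ∈ Ico (j ^ 2) ((j+1) ^ 2), u i ^ 2) ^ 2 ≤ K :=
  le_trans (single_le_sum (f := fun j => (∑ i ∈ Ico (j ^ 2) ((j+1) ^ 2), u i ^ 2) ^ 2)
    (fun _ _ => sq_nonneg _) (self_mem_range_succ j)) (h (j+1))

theorem SS_le {v : ℕ → ℕ → ℝ} {M : ℝ} (h : ∀ j ω, |v j ω| ≤ M) (i : ℕ) : |SS v i| ≤ M := by
  have hm : (0:ℝ) < mm i := by exact_mod_cast mm_pos i
  rw [SS, abs_div, abs_of_pos hm, div_le_iff₀ hm]
  refine (abs_sum_le_sum_abs _ _).trans ?_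
  calc _ ≤ ∑ s ∈ range (mm i), M := sum_le_sum fun s _ => h _ _
    _ = _ := by simp [mul_comm]

theorem Ana_le (y : X) (k : κ) : ‖Ana y k‖ ≤ 6 * ‖y‖ := by
  have hv : ∀ j ω, |vv (view y) j ω| ≤ 5 * ‖y‖ := by
    intro j ω
    have := (vv_bd (view_bd y)).pt j ω
    refine abs_le_of_sq_le_sq' ?_ (by positivity) |> fun h => abs_le.2 h
    refine (pow_le_pow_iff_left₀ (sq_nonneg _) (sq_nonneg _) two_ne_zero).1 ?_
    have : 0 ≤ ‖y‖ ^ 4 := by positivity
    nlinarith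
  have hu : ∀ i, |uu (view y) i| ≤ ‖y‖ := by
    intro i
    have h1 := (uu_bd (view_bd y)).blk (Nat.sqrt i)
    have h2 : uu (view y) i ^ 2 ≤ ∑ i ∈ Ico (Nat.sqrt i ^ 2) ((Nat.sqrt i+1) ^ 2), uu (view y) i ^ 2 :=
      single_le_sum (f := fun i => uu (view y) i ^ 2) (fun _ _ => sq_nonneg _)
        (mem_Ico.2 ⟨Nat.sqrt_le' i, Nat.lt_succ_sqrt' i⟩)
    have h3 := pow_le_pow_left₀ (sq_nonneg _) h2 2
    refine abs_le_of_sq_le_sq' ?_ (by positivity) |> fun h => abs_le.2 h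
    refine (pow_le_pow_iff_left₀ (sq_nonneg _) (sq_nonneg _) two_ne_zero).1 ?_
    nlinarith
  rw [Real.norm_eq_abs]
  rcases k with i | p
  · change |uu (view y) i - SS (vv (view y)) i| ≤ _
    have := SS_le hv i
    have := hu i
    have := abs_sub (uu (view y) i) (SS (vv (view y)) i)
    linarith
  · have := hv p.1 p.2
    have := norm_nonneg y
    change |vv (view y) p.1 p.2| ≤ _
    linarith

theorem UB_of_sum {u : ℕ → ℝ} {M : ℝ} (h : ∀ n, ∑ i ∈ range n, u i ^ 2 ≤ M) : UB u (M ^ 2) := by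
  intro J
  refine (sum_sq_le_sq_sum_of_nonneg fun _ _ => sum_nonneg fun _ _ => sq_nonneg _).trans ?_
  rw [sum_Ico_sq]
  exact pow_le_pow_left₀ (sum_nonneg fun _ _ => sq_nonneg _) (h _) 2

theorem sum_one_pt {f : ℕ → ℝ} (i0 : ℕ) (M : ℝ) (hM : 0 ≤ M) (h : ∀ i, i ≠ i0 → f i = 0)
    (h1 : f i0 ≤ M) (n : ℕ) : ∑ i ∈ range n, f i ≤ M := by
  by_cases hi : i0 ∈ range n
  · rw [sum_eq_single_of_mem i0 hi fun b _ hb => h b hb]; exact h1
  · rw [sum_eq_zero fun b hb => h b (by rintro rfl; exact hi hb)]; exact hM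

theorem single_bd (k : κ) : Bd (view (Syn (Pi.single k 1))) 968 := by
  rw [view_Syn]
  have e : (968:ℝ) = 584 * 1 + 384 * 1 ^ 2 := by norm_num
  rw [e]
  rcases k with i0 | ⟨j0, ω0⟩
  · have e1 : cb (Pi.single (Sum.inl i0) (1:ℝ)) = 0 := by
      funext j ω; simp [cb]
    have e2 : SS 0 = 0 := by funext i; simp [SS]
    rw [e1, e2]
    refine psi_bd (UB_of_sum fun n => sum_one_pt i0 1 zero_le_one ?_ ?_ n) ?_
    · intro i hi; simp [ca, hi]
    · simp [ca]
    · intro J W; simp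
  · have e1 : ca (Pi.single (Sum.inr (j0, ω0)) (1:ℝ)) = 0 := by
      funext i; simp [ca]
    rw [e1, zero_add]
    refine psi_bd (UB_of_sum fun n => sum_one_pt j0 1 zero_le_one ?_ ?_ n) ?_
    · intro i hi; simp [SS, cb, hi]
    · have : |SS (cb (Pi.single (Sum.inr (j0, ω0)) (1:ℝ))) j0| ≤ 1 := by
        refine SS_le (fun j ω => ?_) j0
        simp only [cb, Pi.single_apply]
        split_ifs <;> simp
      rw [← sq_abs]
      exact pow_le_one₀ (abs_nonneg _) this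
    · intro J W
      refine sum_one_pt j0 1 zero_le_one ?_ ?_ J
      · intro i hi; simp [cb, hi]
      · refine sum_one_pt ω0 1 zero_le_one ?_ ?_ _
        · intro i hi; simp [cb, hi]
        · simp [cb]

noncomputable def xx (k : κ) : X :=
  ⟨Syn (Pi.single k 1), by
    have := mk_mem (single_bd k)
    rwa [mk_view] at this⟩

theorem xx_coe (k : κ) : (xx k : ℕ → ℝ) = Syn (Pi.single k 1) := rfl

noncomputable def ff (k : κ) : X →L[ℝ] ℝ :=
  LinearMap.mkContinuous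
    { toFun := fun y => Ana y k
      map_add' := fun y z => by rw [lp.coeFn_add, map_add]; rfl
      map_smul' := fun a y => by rw [lp.coeFn_smul, map_smul]; rfl } 6 (fun y => Ana_le y k)

theorem ff_apply (k : κ) (y : X) : ff k y = Ana y k := rfl

theorem ff_norm (k : κ) : ‖ff k‖ ≤ 6 := LinearMap.mkContinuous_norm_le _ (by norm_num) _

theorem xx_norm (k : κ) : ‖xx k‖ ≤ 6 := by
  have := norm_le_of_bd (xx k) (single_bd k)
  exact (pow_le_pow_iff_left₀ (norm_nonneg _) (by norm_num) (by norm_num : (4:ℕ) ≠ 0)).1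
    (by linarith)

theorem ff_xx (k l : κ) : ff k (xx l) = if k = l then 1 else 0 := by
  rw [ff_apply, xx_coe, Ana_Syn, Pi.single_apply]

theorem sum_coe (A : Finset κ) (c : κ → ℝ) :
    ((∑ k ∈ A, c k • xx k : X) : ℕ → ℝ) = Syn (fun k => if k ∈ A then c k else 0) := by
  rw [lp.coeFn_sum]
  simp only [lp.coeFn_smul, xx_coe, ← map_smul, ← map_sum]
  congr 1
  funext l
  simp [Finset.sum_apply, Pi.single_apply]

end Pool.Agent.H15.QG
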