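import Pool.Agent.H15.QG4

/-! A quasi-greedy basis of `ℓ₄` whose dual basis is not quasi-greedy. -/

namespace Pool.Agent.H15.QG

open Finset
open scoped ENNReal

theorem qg (y : X) (A : Finset κ) (hA : ∀ n ∈ A, ∀ k ∉ A, |ff k y| ≤ |ff n y|) :
    ‖∑ n ∈ A, ff n y • xx n‖ ≤ 101 * ‖y‖ := by
  rcases A.eq_empty_or_nonempty with rfl | hne
  · simp
  obtain ⟨n0, hn0, hmin⟩ := A.exists_min_image (fun n => |ff n y|) hne
  have hth : ∀ k, Th |ff n0 y| (Ana y k) (if k ∈ A then ff k y else 0) := by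
    intro k
    by_cases hk : k ∈ A
    · left; rw [if_pos hk]; exact ⟨rfl, hmin k hk⟩
    · right; rw [if_neg hk]; exact ⟨rfl, hA n0 hn0 k hk⟩
  have h1 := qg_est (ca (Ana y)) (ca fun k => if k ∈ A then ff k y else 0) (cb (Ana y))
    (cb fun k => if k ∈ A then ff k y else 0) |ff n0 y| (392 * ‖y‖ ^ 4) (‖y‖ ^ 4) (abs_nonneg _)
    (fun i => hth _) (fun j ω => hth _) (by rw [ca_Ana]; exact uu_bd (view_bd y))
    (by rw [cb_Ana]; exact vv_bd (view_bd y))
  have h2 := psi_bd h1.1 h1.2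
  rw [← view_Syn, ← sum_coe] at h2
  have h3 := norm_le_of_bd _ h2
  refine (pow_le_pow_iff_left₀ (norm_nonneg _) (by positivity) (by norm_num : (4:ℕ) ≠ 0)).1 ?_
  have : 0 ≤ ‖y‖ ^ 4 := by positivity
  nlinarith

theorem Ana_fin (y : ℕ → ℝ) (k0 : ℕ) (hy : ∀ k, k ≠ k0 → y k = 0) :
    ∃ A : Finset κ, ∀ k ∉ A, Ana y k = 0 := by
  set j0 := (Nat.unpair k0).1
  set ω0 := (Nat.unpair k0).2
  have h1 : ∀ j ω, (j ≠ j0 ∨ ω ≠ ω0) → view y j ω = 0 := by
    intro j ω h
    refine hy _ ?_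
    rintro rfl
    simp [j0, ω0] at h
  have h2 : ∀ j, j0 < j → view y j = 0 := fun j hj => funext fun ω => h1 j ω (Or.inl hj.ne')
  have h3 : ∀ j, j0 < j → vv (view y) j = 0 := by
    intro j hj
    simp [vv, h2 j hj, h2 (j+1) (by omega)]
  refine ⟨(range (j0 ^ 2 + j0 + 1)).disjSum
    (range (j0 + 1) ×ˢ range (ω0 + 1 + ∑ j ∈ range (j0 + 1), (B j).N)), ?_⟩
  rintro (i | ⟨j, ω⟩) hk
  · simp only [inl_mem_disjSum, mem_range, not_lt] at hk
    change uu (view y) i - SS (vv (view y)) i = 0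
    have a : j0 ≤ Nat.sqrt i := Nat.le_sqrt'.2 (by omega)
    simp [uu, SS, h2 (Nat.sqrt i + 1) (by omega), h3 i (by omega)]
  · change vv (view y) j ω = 0
    by_cases hj : j0 < j
    · rw [h3 j hj]; rfl
    · simp only [inr_mem_disjSum, mem_product, mem_range, not_and, not_lt] at hk
      have a := hk (by omega)
      have b : (B j).N ≤ ∑ j ∈ range (j0 + 1), (B j).N :=
        single_le_sum (f := fun j => (B j).N) (fun _ _ => Nat.zero_le _) (mem_range.2 (by omega))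
      simp only [vv, Pi.add_apply]
      rw [h1 j ω (Or.inr (by omega)), (B j).E_zero _ _ (by omega), add_zero]

theorem dense_xx : Dense (Submodule.span ℝ (Set.range xx) : Set X) := by
  intro y
  have h := lp.hasSum_single (p := 4) (by simp) y
  refine mem_closure_of_tendsto h (Filter.Eventually.of_forall fun s => ?_)
  refine Submodule.sum_mem _ fun i _ => ?_
  obtain ⟨A, hA⟩ := Ana_fin (lp.single 4 i (y i) : X) i
    (fun k hk => lp.single_apply_ne (E := fun _ : ℕ => ℝ) 4 i _ hk)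
  have e : (lp.single 4 i (y i) : X) = ∑ k ∈ A, Ana (lp.single 4 i (y i) : X) k • xx k := by
    apply lp.ext
    rw [sum_coe]
    nth_rewrite 1 [← Syn_Ana (lp.single 4 i (y i) : X)]
    congr 1
    funext k
    split_ifs with hk
    · rfl
    · exact hA k hk
  rw [e]
  exact Submodule.sum_mem _ fun k _ => Submodule.smul_mem _ _ (Submodule.subset_span ⟨k, rfl⟩)

theorem harm_big (R : ℝ) : ∃ L : ℕ, 1 ≤ L ∧ R ≤ ∑ s ∈ Ico L (L ^ 2), (1:ℝ) / (s + 1) := by
  obtain ⟨L, hL⟩ := exists_nat_ge (Real.exp (R + 1))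
  have hL0 : (0:ℝ) < L := (Real.exp_pos _).trans_le hL
  have hL1 : 1 ≤ L := by exact_mod_cast hL0
  refine ⟨L, hL1, ?_⟩
  have e : ∀ n, ((harmonic n : ℚ) : ℝ) = ∑ s ∈ range n, (1:ℝ) / (s + 1) := by
    intro n; simp [harmonic]
  have h1 := log_add_one_le_harmonic (L ^ 2)
  have h2 := harmonic_le_one_add_log L
  rw [e] at h1 h2
  have h3 := sum_range_add_sum_Ico (fun s : ℕ => (1:ℝ) / (s + 1)) (show L ≤ L ^ 2 by nlinarith)
  have h4 : R + 1 ≤ Real.log L := (Real.le_log_iff_exp_le hL0).2 hL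
  have h5 : 2 * Real.log L ≤ Real.log ((L ^ 2 + 1 : ℕ) : ℝ) := by
    have : 2 * Real.log L = Real.log ((L:ℝ) ^ 2) := by rw [Real.log_pow]; norm_num
    rw [this]
    exact Real.log_le_log (by positivity) (by push_cast; linarith)
  linarith

theorem not_dual : ¬ ∃ C : ℝ, ∀ (g : X →L[ℝ] ℝ) (A : Finset κ),
    (∀ n ∈ A, ∀ k ∉ A, |g (xx k)| ≤ |g (xx n)|) → ‖∑ n ∈ A, g (xx n) • ff n‖ ≤ C * ‖g‖ := by
  rintro ⟨C, hC⟩
  obtain ⟨L, hL, hH⟩ := harm_big (584 * C ^ 4 + 1)
  set H := ∑ s ∈ Ico L (L ^ 2), (1:ℝ) / (s + 1) with hHdef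
  have hH0 : 0 < H := by
    have : 0 ≤ C ^ 4 := by positivity
    linarith
  set j := L ^ 2 with hj
  set T : Finset ℕ := Ico (j ^ 2 + L) (j ^ 2 + L ^ 2) with hT
  have hTm : ∀ i ∈ T, L + 1 ≤ mm i ∧ mm i ≤ L ^ 2 := by
    intro i hi
    obtain ⟨h1, h2⟩ := mem_Ico.1 hi
    obtain ⟨s, rfl⟩ : ∃ s, i = j ^ 2 + s := ⟨i - j ^ 2, by omega⟩
    rw [mm_eq j s (by omega)]
    omega
  have hTsub : T ⊆ Ico (j ^ 2) ((j+1) ^ 2) := by
    intro i hi
    obtain ⟨h1, h2⟩ := mem_Ico.1 hi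
    have : (j+1) ^ 2 = j ^ 2 + (2 * j + 1) := by ring
    exact mem_Ico.2 ⟨by omega, by omega⟩
  have hmp : ∀ i, (0:ℝ) < mm i := fun i => by exact_mod_cast mm_pos i
  let α : ℕ → ℝ := fun i => √(1 / mm i)
  have hα0 : ∀ i, 0 ≤ α i := fun i => Real.sqrt_nonneg _
  have hα2 : ∀ i, α i ^ 2 = 1 / mm i := fun i => Real.sq_sqrt (by have := hmp i; positivity)
  have hsum : ∑ i ∈ T, α i ^ 2 = H := by
    rw [hT, hHdef, add_comm (j ^ 2) L, add_comm (j ^ 2) (L ^ 2), ← sum_Ico_add']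
    refine sum_congr rfl fun s hs => ?_
    rw [hα2, add_comm s, mm_eq j s (by have := (mem_Ico.1 hs).2; omega)]
    push_cast; rfl
  have hgb : ∀ y : X, ‖∑ i ∈ T, α i * uu (view y) i‖ ≤ √H * ‖y‖ := by
    intro y
    have h1 := (uu_bd (view_bd y)).blk j
    have h2 : ∑ i ∈ T, uu (view y) i ^ 2 ≤ ∑ i ∈ Ico (j ^ 2) ((j+1) ^ 2), uu (view y) i ^ 2 :=
      sum_le_sum_of_subset_of_nonneg hTsub fun _ _ _ => sq_nonneg _
    have h3 : ∑ i ∈ Ico (j ^ 2) ((j+1) ^ 2), uu (view y) i ^ 2 ≤ ‖y‖ ^ 2 :=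
      (pow_le_pow_iff_left₀ (sum_nonneg fun _ _ => sq_nonneg _) (sq_nonneg _) two_ne_zero).1
        (by nlinarith)
    have h4 := sum_mul_sq_le_sq_mul_sq T α (uu (view y))
    rw [hsum] at h4
    rw [Real.norm_eq_abs]
    refine abs_le.2 (abs_le_of_sq_le_sq' ?_ (by positivity))
    rw [mul_pow, Real.sq_sqrt hH0.le]
    nlinarith
  let g : X →L[ℝ] ℝ := LinearMap.mkContinuous
    { toFun := fun y => ∑ i ∈ T, α i * uu (view y) i
      map_add' := fun y z => by
        have e1 : view ((y + z : X) : ℕ → ℝ) = view y + view z := by rw [lp.coeFn_add]; rfl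
        simp only [e1, uu_add, Pi.add_apply, mul_add, sum_add_distrib]
      map_smul' := fun a y => by
        have e1 : view ((a • y : X) : ℕ → ℝ) = a • view y := by rw [lp.coeFn_smul]; rfl
        simp only [e1, uu_smul, Pi.smul_apply, smul_eq_mul, RingHom.id_apply, mul_sum]
        exact sum_congr rfl fun _ _ => by ring } √H hgb
  have hg : ∀ y : X, g y = ∑ i ∈ T, α i * uu (view y) i := fun _ => rfl
  have hgn : ‖g‖ ≤ √H := LinearMap.mkContinuous_norm_le _ (Real.sqrt_nonneg _) _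
  have hgx : ∀ k, g (xx k) = ∑ i ∈ T, α i *
      (ca (Pi.single k 1) i + SS (cb (Pi.single k 1)) i) := by
    intro k
    rw [hg, xx_coe, view_Syn, uu_psi]
    rfl
  have hgl : ∀ i0, g (xx (Sum.inl i0)) = if i0 ∈ T then α i0 else 0 := by
    intro i0
    rw [hgx]
    simp [ca, cb, SS, Pi.single_apply]
  have hgr : ∀ j0 ω0, |g (xx (Sum.inr (j0, ω0)))| ≤ if j0 ∈ T then α j0 / mm j0 else 0 := by
    intro j0 ω0
    rw [hgx]
    have e : ∀ i, i ≠ j0 → α i * (ca (Pi.single (Sum.inr (j0, ω0)) 1) i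
        + SS (cb (Pi.single (Sum.inr (j0, ω0)) 1)) i) = 0 := by
      intro i hi; simp [ca, cb, SS, hi]
    split_ifs with h
    · rw [sum_eq_single_of_mem j0 h fun b _ hb => e b hb]
      have e1 : ca (Pi.single (Sum.inr (j0, ω0)) (1:ℝ)) j0 = 0 := by simp [ca]
      rw [e1, zero_add, SS, ← mul_div_assoc, abs_div, abs_of_pos (hmp j0), abs_mul,
        abs_of_nonneg (hα0 _)]
      refine div_le_div_of_nonneg_right (mul_le_of_le_one_right (hα0 _) ?_) (hmp j0).le
      refine (abs_sum_le_sum_abs _ _).trans ?_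
      refine sum_one_pt (ω0 - (B j0).N) 1 zero_le_one ?_ ?_ _
      · intro s hs
        have : (B j0).N + s ≠ ω0 := by omega
        simp [cb, this]
      · simp only [cb, Pi.single_apply]
        split_ifs <;> simp
    · rw [sum_eq_zero fun b hb => e b (by rintro rfl; exact h hb)]; simp
  have hgreedy : ∀ n ∈ T.map ⟨Sum.inl, Sum.inl_injective⟩, ∀ k ∉ T.map
      (⟨Sum.inl, Sum.inl_injective⟩ : ℕ ↪ κ), |g (xx k)| ≤ |g (xx n)| := by
    intro n hn k hk
    obtain ⟨i, hi, rfl⟩ := mem_map.1 hn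
    rcases k with i0 | ⟨j0, ω0⟩
    · have : i0 ∉ T := fun h => hk (mem_map.2 ⟨i0, h, rfl⟩)
      rw [hgl i0, if_neg this, abs_zero]
      exact abs_nonneg _
    · refine (hgr j0 ω0).trans ?_
      split_ifs with h
      · change _ ≤ |g (xx (Sum.inl i))|
        rw [hgl i, if_pos hi, abs_of_nonneg (hα0 _)]
        refine (pow_le_pow_iff_left₀ (div_nonneg (hα0 _) (hmp _).le) (hα0 _) two_ne_zero).1 ?_
        rw [div_pow, hα2, hα2, div_div, div_le_div_iff₀ (by have := hmp j0; positivity) (hmp i)]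
        have a : (mm i : ℝ) ≤ (L:ℝ) ^ 2 := by exact_mod_cast (hTm i hi).2
        have b : (L:ℝ) + 1 ≤ mm j0 := by exact_mod_cast (hTm j0 h).1
        have c : (0:ℝ) ≤ L := Nat.cast_nonneg L
        have d : (L:ℝ) ^ 2 ≤ (mm j0 : ℝ) ^ 2 := pow_le_pow_left₀ c (by linarith) 2
        nlinarith
      · exact abs_nonneg _
  have h1 := hC g _ hgreedy
  rw [sum_map] at h1
  simp only [Function.Embedding.coeFn_mk] at h1
  let c : κ → ℝ := Sum.elim (fun i => if i ∈ T then - α i else 0)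
    (fun p => if p.1 ∈ T ∧ (B p.1).N ≤ p.2 ∧ p.2 < (B p.1).N + mm p.1 then α p.1 else 0)
  have hu0 : ca c + SS (cb c) = 0 := by
    funext i
    simp only [Pi.add_apply, ca, SS, cb, c, Sum.elim_inl, Sum.elim_inr, Pi.zero_apply]
    by_cases hi : i ∈ T
    · rw [if_pos hi, sum_congr rfl (g := fun _ => α i) fun s hs => by
        rw [if_pos ⟨hi, by omega, by have := mem_range.1 hs; omega⟩]]
      have := hmp i
      simp only [sum_const, card_range, nsmul_eq_mul]
      field_simp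
      ring
    · simp [hi]
  have hv : Bd (cb c) H := by
    intro J W
    rw [← hsum]
    calc ∑ i ∈ range J, ∑ ω ∈ range (W i), cb c i ω ^ 4
        ≤ ∑ i ∈ range J, (if i ∈ T then α i ^ 2 else 0) := by
          refine sum_le_sum fun i _ => ?_
          by_cases hi : i ∈ T
          · rw [if_pos hi]
            refine (sum_range_le_of_zero _ ((B i).N + mm i) _ (fun _ => by positivity) ?_).trans ?_
            · intro ω hω
              have : ¬ (ω < (B i).N + mm i) := by omega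
              simp [cb, c, this]
            · rw [sum_range_add, sum_eq_zero, zero_add,
                sum_congr rfl (g := fun _ => α i ^ 4) fun s hs => ?_]
              · have := hmp i
                have e : α i ^ 4 = (α i ^ 2) ^ 2 := by ring
                simp only [sum_const, card_range, nsmul_eq_mul, e, hα2]
                apply le_of_eq
                field_simp
              · have := mem_range.1 hs
                simp [cb, c, hi, this]
              · intro ω hω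
                have : ¬ ((B i).N ≤ ω) := by have := mem_range.1 hω; omega
                simp [cb, c, this]
          · simp [cb, c, hi]
      _ ≤ _ := by
          rw [← sum_filter]
          exact sum_le_sum_of_subset_of_nonneg (fun i hi => (mem_filter.1 hi).2)
            fun _ _ _ => sq_nonneg _
  have hz : Bd (view (Syn c)) (584 * H + 384 * 0) := by
    rw [view_Syn, hu0]
    exact psi_bd (fun J => by simp) hv
  let z : X := ⟨Syn c, by have := mk_mem hz; rwa [mk_view] at this⟩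
  have hzn : ‖z‖ ^ 4 ≤ 584 * H + 384 * 0 := norm_le_of_bd z hz
  have hΓ : (∑ i ∈ T, g (xx (Sum.inl i)) • ff (Sum.inl i)) z = - H := by
    rw [ContinuousLinearMap.sum_apply, ← hsum, ← sum_neg_distrib]
    refine sum_congr rfl fun i hi => ?_
    have : ff (Sum.inl i) z = - α i := by
      rw [ff_apply]
      change Ana (Syn c) _ = _
      rw [Ana_Syn]
      simp [c, hi]
    rw [ContinuousLinearMap.smul_apply, this, hgl, if_pos hi, smul_eq_mul]
    ring
  have h2 := (∑ i ∈ T, g (xx (Sum.inl i)) • ff (Sum.inl i)).le_opNorm z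
  rw [hΓ, norm_neg, Real.norm_eq_abs, abs_of_pos hH0] at h2
  have h3 : H ≤ |C| * √H * ‖z‖ := by
    refine h2.trans (mul_le_mul_of_nonneg_right (h1.trans ?_) (norm_nonneg _))
    exact (mul_le_mul_of_nonneg_right (le_abs_self C) (norm_nonneg _)).trans
      (mul_le_mul_of_nonneg_left hgn (abs_nonneg _))
  have h4 := pow_le_pow_left₀ hH0.le h3 4
  have e1 : (|C| * √H * ‖z‖) ^ 4 = C ^ 4 * H ^ 2 * ‖z‖ ^ 4 := by
    rw [mul_pow, mul_pow, Even.pow_abs (by decide), show √H ^ 4 = (√H ^ 2) ^ 2 by ring,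
      Real.sq_sqrt hH0.le]
  rw [e1] at h4
  have h5 : H ^ 4 ≤ C ^ 4 * H ^ 2 * (584 * H) :=
    h4.trans (mul_le_mul_of_nonneg_left (by linarith) (by positivity))
  have h6 : H ^ 3 * H ≤ H ^ 3 * (584 * C ^ 4) := by linarith
  have h7 := le_of_mul_le_mul_left h6 (by positivity)
  linarith

theorem main :
    ¬ (∀ (p : ℝ≥0∞) [Fact (1 ≤ p)], 1 < p → p ≠ 2 → p ≠ ⊤ →
      ∀ (x : ℕ → lp (fun _ : ℕ => ℝ) p) (f : ℕ → (lp (fun _ : ℕ => ℝ) p →L[ℝ] ℝ)),
        (∀ m n : ℕ, f m (x n) = if m = n then 1 else 0) →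
        Dense (Submodule.span ℝ (Set.range x) : Set (lp (fun _ : ℕ => ℝ) p)) →
        (∃ M : ℝ, ∀ n : ℕ, ‖x n‖ ≤ M ∧ ‖f n‖ ≤ M) →
        (∃ C : ℝ, ∀ (y : lp (fun _ : ℕ => ℝ) p) (A : Finset ℕ),
            (∀ n ∈ A, ∀ k ∉ A, |f k y| ≤ |f n y|) →
            ‖∑ n ∈ A, f n y • x n‖ ≤ C * ‖y‖) →
        (∃ C : ℝ, ∀ (g : lp (fun _ : ℕ => ℝ) p →L[ℝ] ℝ) (A : Finset ℕ),
            (∀ n ∈ A, ∀ k ∉ A, |g (x k)| ≤ |g (x n)|) →
            ‖∑ n ∈ A, g (x n) • f n‖ ≤ C * ‖g‖)) := by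
  intro h
  let e : ℕ ≃ κ := (Denumerable.eqv κ).symm
  obtain ⟨C, hC⟩ := h 4 (by norm_num) (by norm_num) (by simp) (fun n => xx (e n))
    (fun n => ff (e n)) (fun m n => by simp [ff_xx]) (by
      have : Set.range (fun n => xx (e n)) = Set.range xx := e.surjective.range_comp xx
      rw [this]; exact dense_xx) ⟨6, fun n => ⟨xx_norm _, ff_norm _⟩⟩ ⟨101, fun y A hA => by
      have := qg y (A.map e.toEmbedding) (by
        intro n hn k hk
        obtain ⟨n', hn', rfl⟩ := mem_map.1 hn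
        obtain ⟨k', rfl⟩ := e.surjective k
        exact hA n' hn' k' fun hh => hk (mem_map.2 ⟨k', hh, rfl⟩))
      rwa [sum_map] at this⟩
  refine not_dual ⟨C, fun g A hA => ?_⟩
  have := hC g (A.map e.symm.toEmbedding) (by
    intro n hn k hk
    obtain ⟨n', hn', rfl⟩ := mem_map.1 hn
    obtain ⟨k', rfl⟩ := e.symm.surjective k
    simpa using hA n' hn' k' fun hh => hk (mem_map.2 ⟨k', hh, rfl⟩))
  rw [sum_map] at this
  simpa using this

end Pool.Agent.H15.QG
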