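import Mathlib

set_option autoImplicit false
open Finset

namespace Pool.Agent.H15.RD

def cnt : ℕ → ℕ → ℕ
  | 0, _ => 0
  | B+1, Z => Z % 2 + cnt B (Z / 2)

lemma cnt_add (B : ℕ) : ∀ a b c : ℕ, c ≤ 1 → cnt B (a + b + c) ≤ cnt B a + cnt B b + c := by
  induction B with
  | zero => intro a b c _; simp [cnt]
  | succ B ih =>
    intro a b c hc
    simp only [cnt]
    have e : (a + b + c) / 2 = a / 2 + b / 2 + (a % 2 + b % 2 + c) / 2 := by omega
    have := ih (a / 2) (b / 2) ((a % 2 + b % 2 + c) / 2) (by omega)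
    rw [e]
    omega

lemma cnt_mono (B : ℕ) : ∀ Z, cnt B Z ≤ cnt (B + 1) Z := by
  induction B with
  | zero => intro Z; simp [cnt]
  | succ B ih =>
    intro Z
    have := ih (Z / 2)
    simp only [cnt] at this ⊢
    omega

def PC (Z c : ℕ) : Prop := ∀ B, cnt B Z ≤ c

lemma PC_zero : PC 0 0 := by
  intro B
  induction B with
  | zero => simp [cnt]
  | succ B ih => simpa [cnt] using ih

lemma PC_lt (b : ℕ) : ∀ Z, Z < 2 ^ b → PC Z b := by
  induction b with
  | zero => intro Z h; have : Z = 0 := by simpa using h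
            subst this; exact PC_zero
  | succ b ih =>
    intro Z h B
    cases B with
    | zero => simp [cnt]
    | succ B =>
      have := ih (Z / 2) (by rw [pow_succ] at h; omega) B
      simp only [cnt]
      omega

lemma PC_pow {Z c : ℕ} (h : PC Z c) (k : ℕ) : PC (Z * 2 ^ k) c := by
  induction k with
  | zero => simpa using h
  | succ k ih =>
    intro B
    cases B with
    | zero => simp [cnt]
    | succ B =>
      have := ih B
      simp only [cnt]
      have e1 : Z * 2 ^ (k + 1) / 2 = Z * 2 ^ k := by rw [pow_succ, ← mul_assoc]; omega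
      have e2 : Z * 2 ^ (k + 1) % 2 = 0 := by rw [pow_succ, ← mul_assoc]; omega
      rw [e1, e2]; omega

lemma PC_add {a b c d : ℕ} (h1 : PC a c) (h2 : PC b d) : PC (a + b) (c + d) := by
  intro B
  have := cnt_add B a b 0 (by norm_num)
  have := h1 B
  have := h2 B
  simp only [add_zero] at *
  omega

lemma PC_sum (f : ℕ → ℕ) (c : ℕ) (h : ∀ i, PC (f i) c) (J : ℕ) :
    PC (∑ i ∈ range J, f i) (J * c) := by
  induction J with
  | zero => simpa using PC_zero
  | succ J ih =>
    rw [sum_range_succ, add_mul, one_mul]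
    exact PC_add ih (h J)

noncomputable def ones (x : ℝ) (N : ℕ) : ℕ :=
  ((range N).filter (fun n : ℕ => ⌊(2 : ℝ) ^ (n + 1) * x⌋ % 2 = 1)).card

lemma ones_mono (x : ℝ) {N N' : ℕ} (h : N ≤ N') : ones x N ≤ ones x N' :=
  card_le_card (filter_subset_filter _ (range_mono h))

lemma ones_eq (x : ℝ) (hx : 0 ≤ x) (N : ℕ) : ones x N = cnt N ⌊(2 : ℝ) ^ N * x⌋₊ := by
  induction N with
  | zero => simp [ones, cnt]
  | succ N ih =>
    have e1 : ⌊(2 : ℝ) ^ (N + 1) * x⌋₊ / 2 = ⌊(2 : ℝ) ^ N * x⌋₊ := by
      rw [← Nat.floor_div_natCast]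
      congr 1
      push_cast
      ring
    have e2 : ((⌊(2 : ℝ) ^ (N + 1) * x⌋₊ : ℕ) : ℤ) = ⌊(2 : ℝ) ^ (N + 1) * x⌋ :=
      Int.natCast_floor_eq_floor (by positivity)
    simp only [cnt]
    rw [e1, ← ih]
    unfold ones
    rw [range_add_one, filter_insert]
    split_ifs with h
    · rw [card_insert_of_notMem (by simp)]
      rw [← e2] at h
      omega
    · rw [← e2] at h
      omega

def wd (f : ℕ → Bool) : ℕ → ℕ
  | 0 => 0
  | G+1 => 2 * wd f G + (f G).toNat

lemma wd_lt (f : ℕ → Bool) (G : ℕ) : wd f G < 2 ^ G := by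
  induction G with
  | zero => simp [wd]
  | succ G ih =>
    have := Bool.toNat_le (f G)
    simp only [wd, pow_succ]
    omega

lemma wd_digit (f : ℕ → Bool) (G : ℕ) (θ : ℝ) (z : ℤ) (h1 : z + (wd f G : ℝ) / 2 ^ G ≤ θ)
    (h2 : θ < z + ((wd f G : ℝ) + 1) / 2 ^ G) :
    ∀ i < G, ⌊(2 : ℝ) ^ (i + 1) * θ⌋ % 2 = ((f i).toNat : ℤ) := by
  induction G with
  | zero => intro i hi; omega
  | succ G ih =>
    have hb := Bool.toNat_le (f G)
    have hb' : ((f G).toNat : ℝ) ≤ 1 := by exact_mod_cast hb
    have hb0 : (0 : ℝ) ≤ ((f G).toNat : ℝ) := by positivity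
    have hp : (0 : ℝ) < 2 ^ G := by positivity
    simp only [wd] at h1 h2
    push_cast at h1 h2
    intro i hi
    rcases Nat.lt_succ_iff_lt_or_eq.1 hi with hi | rfl
    · apply ih _ _ i hi
      · refine le_trans ?_ h1
        have : (wd f G : ℝ) / 2 ^ G ≤ (2 * (wd f G : ℝ) + (f G).toNat) / 2 ^ (G + 1) := by
          rw [div_le_div_iff₀ hp (by positivity), pow_succ]
          nlinarith
        linarith
      · refine lt_of_lt_of_le h2 ?_
        have : (2 * (wd f G : ℝ) + (f G).toNat + 1) / 2 ^ (G + 1) ≤ ((wd f G : ℝ) + 1) / 2 ^ G := by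
          rw [div_le_div_iff₀ (by positivity) hp, pow_succ]
          nlinarith
        linarith
    · have : ⌊(2 : ℝ) ^ (i + 1) * θ⌋ = 2 * (2 ^ i * z + wd f i) + (f i).toNat := by
        rw [Int.floor_eq_iff]
        push_cast
        have hq : (0 : ℝ) < 2 ^ (i + 1) := by positivity
        have a1 := mul_le_mul_of_nonneg_left h1 hq.le
        have a2 := mul_lt_mul_of_pos_left h2 hq
        rw [mul_add, mul_div_cancel₀ _ hq.ne'] at a1 a2
        rw [pow_succ] at a1 a2 ⊢
        constructor <;> nlinarith
      rw [this]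
      omega

lemma ent_lower {W : Type} [Fintype W] [DecidableEq W] (N : ℕ) (ω : ℕ → W) (S : Finset ℕ)
    (hS : S ⊆ range N) (hpos : 0 < S.card) (k : ℕ)
    (hb : ∀ w, (S.filter (fun n => ω n = w)).card * 2 ^ k ≤ S.card) :
    ((S.card : ℝ) / N) * (k * Real.log 2) ≤
      ∑ w : W, Real.negMulLog ((((range N).filter (fun n => ω n = w)).card : ℝ) / N) := by
  have hSN : S.card ≤ N := by simpa using card_le_card hS
  have hN : (0 : ℝ) < N := by exact_mod_cast lt_of_lt_of_le hpos hSN
  have hσ : (0 : ℝ) < S.card := by exact_mod_cast hpos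
  have hSN' : (S.card : ℝ) ≤ N := by exact_mod_cast hSN
  set c : ℝ := (S.card : ℝ) / N with hc
  have c0 : 0 < c := by positivity
  have c1 : c ≤ 1 := by rw [hc, div_le_one hN]; exact hSN'
  set T := range N \ S with hT
  have hTc : (T.card : ℝ) = N - S.card := by
    rw [hT, card_sdiff_of_subset hS, card_range, Nat.cast_sub hSN]
  have hsum : ∑ w : W, ((S.filter (fun n => ω n = w)).card : ℝ) = S.card := by
    rw [← Nat.cast_sum, ← card_eq_sum_card_fiberwise (f := ω) (t := univ) (fun _ _ => by simp)]
  have key : ∀ w : W, c * (((S.filter (fun n => ω n = w)).card : ℝ) / S.card * (k * Real.log 2)) ≤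
      Real.negMulLog ((((range N).filter (fun n => ω n = w)).card : ℝ) / N) := by
    intro w
    set b : ℝ := ((S.filter (fun n => ω n = w)).card : ℝ) / S.card with hbdef
    set a : ℝ := ((T.filter (fun n => ω n = w)).card : ℝ) / T.card with hadef
    have b0 : 0 ≤ b := by positivity
    have a0 : 0 ≤ a := by positivity
    have hle : ((T.filter (fun n => ω n = w)).card : ℝ) ≤ T.card := by
      exact_mod_cast card_filter_le _ _
    have a1 : a ≤ 1 := div_le_one_of_le₀ hle (by positivity)
    have split : (((range N).filter (fun n => ω n = w)).card : ℝ) =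
        (T.filter (fun n => ω n = w)).card + (S.filter (fun n => ω n = w)).card := by
      rw [← Nat.cast_add, ← card_union_of_disjoint, ← filter_union, hT, sdiff_union_of_subset hS]
      exact disjoint_filter_filter sdiff_disjoint
    have e : (((range N).filter (fun n => ω n = w)).card : ℝ) / N = (1 - c) * a + c * b := by
      rw [split, add_div]
      congr 1
      · rcases eq_or_lt_of_le (show (0:ℝ) ≤ T.card by positivity) with h | h
        · have : ((T.filter (fun n => ω n = w)).card : ℝ) = 0 := le_antisymm (h ▸ hle) (by positivity)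
          rw [hadef, this]; simp
        · have : 1 - c = T.card / N := by rw [hTc, hc]; field_simp
          rw [this, hadef]; field_simp
      · rw [hc, hbdef]; field_simp
    have conc := Real.concaveOn_negMulLog.2 (show a ∈ Set.Ici (0:ℝ) from a0)
      (show b ∈ Set.Ici (0:ℝ) from b0) (show 0 ≤ 1 - c by linarith) c0.le (by ring)
    simp only [smul_eq_mul] at conc
    rw [e]
    refine le_trans ?_ conc
    have n1 : 0 ≤ (1 - c) * Real.negMulLog a :=
      mul_nonneg (by linarith) (Real.negMulLog_nonneg a0 a1)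
    have n2 : b * (k * Real.log 2) ≤ Real.negMulLog b := by
      rcases eq_or_lt_of_le b0 with h | h
      · rw [← h]; simp
      · have hb1 : b * 2 ^ k ≤ 1 := by
          rw [hbdef, div_mul_eq_mul_div, div_le_one hσ]
          exact_mod_cast hb w
        have hl := Real.log_nonpos (by positivity) hb1
        rw [Real.log_mul h.ne' (by positivity), Real.log_pow] at hl
        unfold Real.negMulLog
        nlinarith
    nlinarith
  refine le_trans (le_of_eq ?_) (sum_le_sum fun w _ => key w)
  rw [← mul_sum, ← sum_mul, ← sum_div, hsum, div_self hσ.ne', one_mul]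

noncomputable def Ent (k N : ℕ) (y : ℝ) : ℝ :=
  ∑ w : Fin k → Fin 2,
    Real.negMulLog
      ((((Finset.range N).filter (fun n : ℕ =>
          ∀ i : Fin k,
            ⌊((2 : ℕ) : ℝ) ^ (n + i.val + 1) * y⌋ % ((2 : ℕ) : ℤ) = ((w i : ℕ) : ℤ))).card : ℝ)
        / (N : ℝ))

noncomputable def om (k : ℕ) (y : ℝ) (n : ℕ) : Fin k → Fin 2 := fun i =>
  ⟨(⌊(2 : ℝ) ^ (n + i.val + 1) * y⌋ % 2).toNat, by omega⟩

lemma Ent_eq (k N : ℕ) (y : ℝ) : Ent k N y =
    ∑ w : Fin k → Fin 2, Real.negMulLog ((((range N).filter (fun n => om k y n = w)).card : ℝ) / N) := by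
  unfold Ent
  refine sum_congr rfl fun w _ => ?_
  congr 4
  refine filter_congr fun n _ => ?_
  rw [funext_iff]
  refine forall_congr' fun i => ?_
  rw [Fin.ext_iff]
  simp only [om, Nat.cast_ofNat]
  omega

lemma good (y : ℝ) (P L J H K N k : ℕ) (hK : K = 2 * H) (hH : 1 ≤ H) (hJ : 1 ≤ J)
    (hL : K * 2 ^ K ≤ L) (hN : N = P + J * L) (hN2 : N ≤ 16 * (J * (H * 2 ^ K))) (hk : k ≤ H)
    (hd : ∀ i < J, ∀ n < K * 2 ^ K,
      ⌊(2 : ℝ) ^ (P + i * L + n + 1) * y⌋ % 2 = (((n / K).testBit (n % K)).toNat : ℤ)) :
    (k : ℝ) * Real.log 2 / 16 ≤ Ent k N y := by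
  classical
  have K0 : 0 < K := by omega
  set I : Finset (ℕ × ℕ × ℕ) := range J ×ˢ range H ×ˢ range (2 ^ K) with hI
  set φ : ℕ × ℕ × ℕ → ℕ := fun u => P + u.1 * L + (u.2.2 * K + u.2.1) with hφ
  have hlt : ∀ o t : ℕ, o < K → t < 2 ^ K → t * K + o < K * 2 ^ K := by
    intro o t ho ht
    have : (t + 1) * K ≤ 2 ^ K * K := Nat.mul_le_mul_right _ ht
    nlinarith
  have hinj : Set.InjOn φ I := by
    rintro ⟨i, o, t⟩ h1 ⟨i', o', t'⟩ h2 h
    simp only [hI, coe_product, coe_range, Set.mem_prod, Set.mem_Iio] at h1 h2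
    simp only [hφ] at h
    have a1 := hlt o t (by omega) h1.2.2
    have a2 := hlt o' t' (by omega) h2.2.2
    have h' : i * L + (t * K + o) = i' * L + (t' * K + o') := by omega
    have L0 : 0 < L := by omega
    have b1 : (i * L + (t * K + o)) / L = i := by
      rw [add_comm, Nat.add_mul_div_right _ _ L0, Nat.div_eq_of_lt (by omega), zero_add]
    have b2 : (i' * L + (t' * K + o')) / L = i' := by
      rw [add_comm, Nat.add_mul_div_right _ _ L0, Nat.div_eq_of_lt (by omega), zero_add]
    have ii : i = i' := by rw [← b1, h', b2]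
    subst ii
    have h'' : t * K + o = t' * K + o' := by omega
    have c1 : (t * K + o) / K = t := by
      rw [add_comm, Nat.add_mul_div_right _ _ K0, Nat.div_eq_of_lt (by omega), zero_add]
    have c2 : (t' * K + o') / K = t' := by
      rw [add_comm, Nat.add_mul_div_right _ _ K0, Nat.div_eq_of_lt (by omega), zero_add]
    have tt : t = t' := by rw [← c1, h'', c2]
    subst tt
    have : o = o' := by omega
    subst this
    rfl
  have hIc : I.card = J * (H * 2 ^ K) := by simp [hI]
  have hSc : (I.image φ).card = J * (H * 2 ^ K) := by rw [card_image_of_injOn hinj, hIc]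
  have hsub : I.image φ ⊆ range N := by
    intro n hn
    obtain ⟨⟨i, o, t⟩, h1, rfl⟩ := mem_image.1 hn
    simp only [hI, mem_product, mem_range] at h1
    have a1 := hlt o t (by omega) h1.2.2
    have : (i + 1) * L ≤ J * L := Nat.mul_le_mul_right _ h1.1
    simp only [hφ, mem_range]
    nlinarith
  have hbit : ∀ u ∈ I, ∀ l : Fin k, ((om k y (φ u) l : ℕ)) = (u.2.2.testBit (u.2.1 + l)).toNat := by
    rintro ⟨i, o, t⟩ h1 l
    simp only [hI, mem_product, mem_range] at h1
    have hl := l.2
    have a1 := hlt (o + l) t (by omega) h1.2.2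
    have := hd i h1.1 _ a1
    have c1 : (t * K + (o + l)) / K = t := by
      rw [add_comm, Nat.add_mul_div_right _ _ K0, Nat.div_eq_of_lt (by omega), zero_add]
    have c2 : (t * K + (o + l)) % K = o + l := by
      rw [add_comm, Nat.add_mul_mod_self_right, Nat.mod_eq_of_lt (by omega)]
    rw [c1, c2] at this
    simp only [om, hφ]
    have e : P + i * L + (t * K + o) + l + 1 = P + i * L + (t * K + (o + l)) + 1 := by ring
    rw [e, this]
    simp
  have hfib : ∀ w, ((I.image φ).filter (fun n => om k y n = w)).card * 2 ^ k ≤ (I.image φ).card := by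
    intro w
    have s1 : ((I.image φ).filter (fun n => om k y n = w)).card ≤
        (I.filter (fun u => om k y (φ u) = w)).card := by
      rw [filter_image]
      exact card_image_le
    have s2 : (I.filter (fun u => om k y (φ u) = w)).card ≤
        (range J ×ˢ range H ×ˢ range (2 ^ (K - k))).card := by
      apply card_le_card_of_injOn
        (fun u => (u.1, u.2.1, u.2.2 % 2 ^ u.2.1 + 2 ^ u.2.1 * (u.2.2 / 2 ^ (u.2.1 + k))))
      · rintro ⟨i, o, t⟩ h1
        simp only [hI, coe_filter, mem_product, mem_range, Set.mem_ofPred_eq] at h1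
        simp only [coe_product, coe_range, Set.mem_prod, Set.mem_Iio]
        refine ⟨h1.1.1, h1.1.2.1, ?_⟩
        have a1 : t % 2 ^ o < 2 ^ o := Nat.mod_lt _ (by positivity)
        have a2 : t / 2 ^ (o + k) < 2 ^ (K - k - o) := by
          rw [Nat.div_lt_iff_lt_mul (by positivity), ← pow_add]
          have : K - k - o + (o + k) = K := by omega
          rw [this]; exact h1.1.2.2
        have a3 : 2 ^ (K - k) = 2 ^ o * 2 ^ (K - k - o) := by
          rw [← pow_add]; congr 1; omega
        have a4 : 2 ^ o * (t / 2 ^ (o + k) + 1) ≤ 2 ^ o * 2 ^ (K - k - o) := Nat.mul_le_mul_left _ a2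
        rw [a3]
        nlinarith
      · rintro ⟨i, o, t⟩ h1 ⟨i', o', t'⟩ h2 h
        simp only [coe_filter, Set.mem_ofPred_eq] at h1 h2
        simp only [Prod.mk.injEq] at h
        obtain ⟨rfl, rfl, h⟩ := h
        have p0 : 0 < 2 ^ o := by positivity
        have m1 : t % 2 ^ o = t' % 2 ^ o := by
          have := congrArg (· % 2 ^ o) h
          simpa using this
        have m2 : t / 2 ^ (o + k) = t' / 2 ^ (o + k) := by
          rw [m1] at h
          exact Nat.eq_of_mul_eq_mul_left p0 (by omega)
        have : t = t' := by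
          apply Nat.eq_of_testBit_eq
          intro j
          by_cases j1 : j < o
          · have := congrArg (fun z => Nat.testBit z j) m1
            simpa [Nat.testBit_mod_two_pow, j1] using this
          · by_cases j2 : j < o + k
            · have b1 := hbit _ h1.1 ⟨j - o, by omega⟩
              have b2 := hbit _ h2.1 ⟨j - o, by omega⟩
              rw [h1.2] at b1
              rw [h2.2] at b2
              simp only at b1 b2
              have e : o + (j - o) = j := by omega
              rw [e] at b1 b2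
              have := b1.symm.trans b2
              revert this
              cases t.testBit j <;> cases t'.testBit j <;> simp
            · have := congrArg (fun z => Nat.testBit z (j - (o + k))) m2
              simp only [Nat.testBit_div_two_pow] at this
              have e : j - (o + k) + (o + k) = j := by omega
              rwa [e] at this
        rw [this]
    have s3 : (range J ×ˢ range H ×ˢ range (2 ^ (K - k))).card * 2 ^ k = J * (H * 2 ^ K) := by
      simp only [card_product, card_range]
      have : 2 ^ K = 2 ^ (K - k) * 2 ^ k := by rw [← pow_add]; congr 1; omega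
      rw [this]; ring
    rw [hSc, ← s3]
    exact Nat.mul_le_mul_right _ (s1.trans s2)
  have hpos : 0 < (I.image φ).card := by rw [hSc]; positivity
  have := ent_lower N (om k y) (I.image φ) hsub hpos k hfib
  rw [Ent_eq]
  refine le_trans ?_ this
  have N0 : (0 : ℝ) < N := by
    have : (I.image φ).card ≤ N := by simpa using card_le_card hsub
    exact_mod_cast lt_of_lt_of_le hpos this
  have r : (1 : ℝ) / 16 ≤ ((I.image φ).card : ℝ) / N := by
    rw [div_le_div_iff₀ (by norm_num) N0, hSc]
    have : (N : ℝ) ≤ ((16 * (J * (H * 2 ^ K)) : ℕ) : ℝ) := by exact_mod_cast hN2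
    push_cast at this ⊢
    linarith
  have l0 : 0 ≤ (k : ℝ) * Real.log 2 := mul_nonneg (by positivity) (Real.log_nonneg (by norm_num))
  nlinarith

end Pool.Agent.H15.RD
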