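import Pool.Agent.H15.RD1

set_option autoImplicit false
open Finset

namespace Pool.Agent.H15.RD

def CC (q J : ℕ) : ℕ := ∑ i ∈ range J, q ^ i

lemma CC_mul (q J : ℕ) : (CC q J : ℝ) * ((q : ℝ) - 1) = (q : ℝ) ^ J - 1 := by
  unfold CC
  push_cast
  exact geom_sum_mul _ _

lemma CC_le (q J : ℕ) (hq : 2 ≤ q) : CC q J ≤ q ^ J := by
  have h := CC_mul q J
  have hq' : (2 : ℝ) ≤ q := by exact_mod_cast hq
  have : (CC q J : ℝ) ≤ (q : ℝ) ^ J := by
    have : (0 : ℝ) ≤ CC q J := by positivity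
    nlinarith
  exact_mod_cast this

lemma CC_div (q J t : ℕ) (hq : 2 ≤ q) (h : J ≤ t) : (CC q J : ℝ) / q ^ t ≤ 1 / ((q : ℝ) - 1) := by
  have hq' : (2 : ℝ) ≤ q := by exact_mod_cast hq
  have h1 := CC_mul q J
  have h2 : (q : ℝ) ^ J ≤ q ^ t := pow_le_pow_right₀ (by linarith) h
  rw [div_le_div_iff₀ (by positivity) (by linarith)]
  linarith

lemma geomC (q J t : ℕ) (hq : 2 ≤ q) : ∃ (z : ℤ) (u : ℝ), (CC q J : ℝ) / q ^ t = z + u ∧ 0 ≤ u ∧
    u ≤ 1 / ((q : ℝ) - 1) ∧ (1 ≤ t → t ≤ J → 1 / (q : ℝ) ≤ u) := by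
  have hq' : (2 : ℝ) ≤ q := by exact_mod_cast hq
  by_cases h : t ≤ J
  · obtain ⟨d, rfl⟩ := Nat.exists_eq_add_of_le h
    refine ⟨CC q d, (CC q t : ℝ) / q ^ t, ?_, by positivity, CC_div q t t hq le_rfl, ?_⟩
    · have : CC q (t + d) = CC q t + q ^ t * CC q d := by
        unfold CC
        rw [sum_range_add, mul_sum]
        simp only [pow_add]
      rw [this]
      push_cast
      field_simp
      ring
    · intro h1 _
      obtain ⟨s, rfl⟩ := Nat.exists_eq_add_of_le' h1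
      have : q ^ s ≤ CC q (s + 1) := by
        unfold CC
        rw [sum_range_succ]
        omega
      have h2 : (q : ℝ) ^ s ≤ CC q (s + 1) := by exact_mod_cast this
      rw [div_le_div_iff₀ (by positivity) (by positivity), pow_succ]
      nlinarith
  · exact ⟨0, (CC q J : ℝ) / q ^ t, by simp, by positivity, CC_div q J t hq (by omega),
      fun _ h' => absurd h' h⟩

lemma geomC2 (q J t : ℕ) (hq : 2 ≤ q) : ∃ (z : ℤ) (v : ℝ),
    (CC q J : ℝ) ^ 2 / q ^ (J + t) = z + v ∧ 0 ≤ v ∧ v ≤ J / ((q : ℝ) - 1) := by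
  have hq' : (2 : ℝ) ≤ q := by exact_mod_cast hq
  choose z u h1 h2 h3 _ using fun i => geomC q J (J + t - i) hq
  refine ⟨∑ i ∈ range J, z i, ∑ i ∈ range J, u i, ?_, sum_nonneg fun i _ => h2 i, ?_⟩
  · push_cast
    rw [← sum_add_distrib, ← sum_congr rfl fun i _ => h1 i]
    have e : (CC q J : ℝ) = ∑ i ∈ range J, (q : ℝ) ^ i := by unfold CC; push_cast; rfl
    rw [pow_two]
    nth_rewrite 1 [e]
    rw [sum_mul, sum_div]
    refine sum_congr rfl fun i hi => ?_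
    have hi' := mem_range.1 hi
    have : (q : ℝ) ^ (J + t) = q ^ i * q ^ (J + t - i) := by
      rw [← pow_add]; congr 1; omega
    rw [this]
    field_simp
  · refine (sum_le_sum fun i _ => h3 i).trans (le_of_eq ?_)
    simp
    field_simp

lemma window (A m L J M W P G D : ℕ) (y e : ℝ) (hA : 1 ≤ A) (hL1 : 1 ≤ L)
    (hL : 2 ^ L ≡ 1 [MOD A]) (hP : P + 2 * (J * L) = m + 2 * M) (hM : M ≤ P)
    (hW1 : 1 + (D : ℝ) / 2 ^ G + 1 / 2 ^ L - ((2 ^ (P + m) % A : ℕ) : ℝ) / A ≤ 2 * A * W / 2 ^ L)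
    (hW2 : 2 * A * W / 2 ^ L <
      1 + (D : ℝ) / 2 ^ G + 1 / 2 ^ L - ((2 ^ (P + m) % A : ℕ) : ℝ) / A + 2 * A / 2 ^ L)
    (hW3 : 2 * A * W / (2 : ℝ) ^ L ≤ 3)
    (hs : (4 + 2 * A + A * J) / ((2 : ℝ) ^ L - 1) ≤ 1 / 2 ^ G)
    (hy : y = 1 / ((A : ℝ) / 2 ^ m) - ((W * (2 ^ L) ^ J + CC (2 ^ L) J : ℕ) : ℝ) / 2 ^ M
      + ((A : ℝ) / 2 ^ m) * (((W * (2 ^ L) ^ J + CC (2 ^ L) J : ℕ) : ℝ) / 2 ^ M) ^ 2 - e)
    (he0 : 0 ≤ e) (he1 : 2 ^ (P + J * L) * e ≤ 1) (i : ℕ) (hi : i < J) :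
    ∃ z : ℤ, z + (D : ℝ) / 2 ^ G ≤ 2 ^ (P + i * L) * y ∧
      2 ^ (P + i * L) * y < z + ((D : ℝ) + 1) / 2 ^ G := by
  obtain ⟨t, rfl⟩ := Nat.exists_eq_add_of_lt hi
  have hq : 2 ≤ 2 ^ L := by
    calc 2 = 2 ^ 1 := rfl
      _ ≤ 2 ^ L := Nat.pow_le_pow_right (by norm_num) hL1
  obtain ⟨d, rfl⟩ := Nat.exists_eq_add_of_le hM
  set J := i + t + 1 with hJ
  obtain ⟨z1, u, h1, -, u1, u0⟩ := geomC (2 ^ L) J (t + 1) hq
  replace u0 := u0 (by omega) (by omega)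
  obtain ⟨z2, v, h2, v0, v1⟩ := geomC2 (2 ^ L) J (t + 1) hq
  set C := CC (2 ^ L) J with hC
  set β : ℝ := ((2 ^ (M + d + m) % A : ℕ) : ℝ) / A with hβ
  have A0 : (0 : ℝ) < A := by exact_mod_cast hA
  have hmod : 2 ^ (M + d + m + i * L) % A = 2 ^ (M + d + m) % A := by
    have : 2 ^ (M + d + m) * (2 ^ L) ^ i ≡ 2 ^ (M + d + m) * 1 ^ i [MOD A] :=
      Nat.ModEq.mul_left _ (hL.pow i)
    rw [one_pow, mul_one, ← pow_mul, ← pow_add, mul_comm L i] at this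
    exact this
  have h3 : (2 : ℝ) ^ (M + d + m + i * L) / A = ((2 ^ (M + d + m + i * L) / A : ℕ) : ℝ) + β := by
    have := Nat.div_add_mod (2 ^ (M + d + m + i * L)) A
    rw [hmod] at this
    have h' : (A : ℝ) * ((2 ^ (M + d + m + i * L) / A : ℕ) : ℝ) + ((2 ^ (M + d + m) % A : ℕ) : ℝ)
        = (2 : ℝ) ^ (M + d + m + i * L) := by exact_mod_cast this
    rw [hβ, ← h']
    field_simp
  push_cast at h1 h2 u0 u1 v1 hy
  set q : ℝ := 2 ^ L with hqd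
  have hq' : (2 : ℝ) ≤ q := by rw [hqd]; exact_mod_cast hq
  have pw : (2 : ℝ) ^ (M + d + i * L) * q ^ (J + (t + 1)) = 2 ^ m * (2 ^ M) ^ 2 := by
    rw [hqd, ← pow_mul, ← pow_mul, ← pow_add, ← pow_add]
    congr 1
    rw [hJ] at hP ⊢
    nlinarith
  have pw1 : (2 : ℝ) ^ (M + d + i * L) = 2 ^ m * (2 ^ M) ^ 2 / q ^ (J + (t + 1)) := by
    rw [← pw]; field_simp
  have t1 : (2 : ℝ) ^ (M + d + i * L) * (1 / ((A : ℝ) / 2 ^ m)) = 2 ^ (M + d + m + i * L) / A := by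
    field_simp
    ring
  have t2 : (2 : ℝ) ^ (M + d + i * L) * ((W * q ^ J + C) / 2 ^ M) = 2 ^ (d + i * L) * (W * q ^ J + C) := by
    field_simp
    ring
  have t3 : (2 : ℝ) ^ (M + d + i * L) * (((A : ℝ) / 2 ^ m) * ((W * q ^ J + C) / 2 ^ M) ^ 2) =
      A * W ^ 2 * q ^ i + 2 * A * W * (C / q ^ (t + 1)) + A * (C ^ 2 / q ^ (J + (t + 1))) := by
    rw [pw1, hJ]
    field_simp
    ring
  have t4 : (2 : ℝ) ^ (M + d + i * L) * e ≤ 1 / q := by
    have : (2 : ℝ) ^ (M + d + J * L) = 2 ^ (M + d + i * L) * q ^ (t + 1) := by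
      rw [hqd, ← pow_mul, ← pow_add]; congr 1; rw [hJ]; ring
    rw [this] at he1
    have a1 : q ≤ q ^ (t + 1) := by
      rw [pow_succ]
      have : (1 : ℝ) ≤ q ^ t := one_le_pow₀ (by linarith)
      nlinarith
    have a2 : 0 ≤ (2 : ℝ) ^ (M + d + i * L) * e := by positivity
    rw [le_div_iff₀ (by linarith)]
    nlinarith
  have t5 : 0 ≤ (2 : ℝ) ^ (M + d + i * L) * e := by positivity
  have main : (2 : ℝ) ^ (M + d + i * L) * y =
      (((2 ^ (M + d + m + i * L) / A : ℕ) : ℤ) - 2 ^ (d + i * L) * (W * (2 ^ L) ^ J + C)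
        + A * W ^ 2 * (2 ^ L) ^ i + 2 * A * W * z1 + A * z2 : ℤ) + β + 2 * A * W * u + A * v
        - 2 ^ (M + d + i * L) * e := by
    rw [hy, mul_sub, mul_add, mul_sub, t1, t2, t3, h1, h2, h3]
    simp only [Int.cast_add, Int.cast_sub, Int.cast_mul, Int.cast_pow, Int.cast_natCast,
      Int.cast_ofNat]
    ring
  set z0 : ℤ := (((2 ^ (M + d + m + i * L) / A : ℕ) : ℤ) - 2 ^ (d + i * L) * (W * (2 ^ L) ^ J + C)
        + A * W ^ 2 * (2 ^ L) ^ i + 2 * A * W * z1 + A * z2 : ℤ) with hz0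
  refine ⟨z0 + 1, ?_, ?_⟩
  · rw [main]
    push_cast
    have b1 : 2 * A * W / q ≤ 2 * A * W * u := by
      rw [div_eq_mul_one_div]
      apply mul_le_mul_of_nonneg_left u0 (by positivity)
    have b2 : 0 ≤ A * v := by positivity
    linarith
  · rw [main]
    push_cast
    have q1 : 0 < q - 1 := by linarith
    have b1 : 2 * A * W * u ≤ 2 * A * W / q + 3 / (q - 1) := by
      have c1 : 2 * A * W * u ≤ 2 * A * W * (1 / (q - 1)) :=
        mul_le_mul_of_nonneg_left u1 (by positivity)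
      have c2 : 2 * A * W * (1 / (q - 1)) = 2 * A * W / q + (2 * A * W / q) / (q - 1) := by
        field_simp
        ring
      have c3 : (2 * A * W / q) / (q - 1) ≤ 3 / (q - 1) := div_le_div_of_nonneg_right hW3 q1.le
      linarith
    have b2 : A * v ≤ A * J / (q - 1) := by
      rw [mul_div_assoc]
      exact mul_le_mul_of_nonneg_left v1 A0.le
    have b3 : 1 / q ≤ 1 / (q - 1) := one_div_le_one_div_of_le q1 (by linarith)
    have b4 : 2 * A / q ≤ 2 * A / (q - 1) :=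
      div_le_div_of_nonneg_left (by positivity) q1 (by linarith)
    have b5 : (4 + 2 * A + A * J) / (q - 1) =
        1 / (q - 1) + 3 / (q - 1) + 2 * A / (q - 1) + A * J / (q - 1) := by
      field_simp
      ring
    rw [add_div]
    linarith

lemma recip (a η x : ℝ) (ha : 1 ≤ a) (hη : 0 ≤ η) (h1 : a + a ^ 2 * η ≤ x) :
    ∃ e, x⁻¹ = 1 / a - η + a * η ^ 2 - e ∧ 0 ≤ e ∧ e ≤ a ^ 2 * η ^ 3 + (x - (a + a ^ 2 * η)) := by
  set a' := a + a ^ 2 * η with ha'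
  have p1 : 0 ≤ a ^ 2 * η := by positivity
  have a1 : 1 ≤ a' := by linarith
  have x1 : 1 ≤ x := by linarith
  have p2 : 0 ≤ a * η := by positivity
  have e1 : 1 / a - η + a * η ^ 2 - a'⁻¹ = a ^ 2 * η ^ 3 / (1 + a * η) := by
    have : a' = a * (1 + a * η) := by rw [ha']; ring
    rw [this]
    field_simp
    ring
  have e2 : a'⁻¹ - x⁻¹ = (x - a') / (a' * x) := by field_simp
  have b1 : a ^ 2 * η ^ 3 / (1 + a * η) ≤ a ^ 2 * η ^ 3 := div_le_self (by positivity) (by linarith)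
  have b2 : (x - a') / (a' * x) ≤ x - a' := div_le_self (by linarith) (by nlinarith)
  have b3 : 0 ≤ a ^ 2 * η ^ 3 / (1 + a * η) := by positivity
  have b4 : 0 ≤ (x - a') / (a' * x) := div_nonneg (by linarith) (by positivity)
  refine ⟨1 / a - η + a * η ^ 2 - x⁻¹, by ring, by linarith, by linarith⟩

end Pool.Agent.H15.RD
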