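import Pool.Agent.H15.RD2

set_option autoImplicit false
open Finset

namespace Pool.Agent.H15.RD

def Good (s : ℕ) (x : ℝ) : Prop :=
  ∃ N, s ≤ N ∧ ∀ k, k ≤ s → (k : ℝ) * Real.log 2 / 16 ≤ Ent k N x⁻¹

lemma params (s A m R : ℕ) (hodd : Odd A) : ∃ J L H K G : ℕ, K = 2 * H ∧ G = K * 2 ^ K ∧ s ≤ H ∧ 1 ≤ H ∧
    7 ≤ J ∧ 2 * (s + 1) ≤ J ∧ 2 ^ L ≡ 1 [MOD A] ∧ G + (8 + 4 * A + 2 * (A * J)) ≤ L ∧ L ≤ 2 * G ∧
    m + 4 * A + 14 ≤ L ∧ 3 * A + 1 + 2 * (A * J) ≤ L ∧ R ≤ L := by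
  have hA : 0 < A := hodd.pos
  have hφ : 0 < A.totient := Nat.totient_pos.2 hA
  obtain ⟨J, hJ⟩ : ∃ J, J = 2 * s + 7 := ⟨_, rfl⟩
  obtain ⟨σ, hσ⟩ : ∃ σ, σ = 8 + 4 * A + 2 * (A * J) := ⟨_, rfl⟩
  obtain ⟨H, hH⟩ : ∃ H, H = m + 4 * A + 14 + R + σ + A.totient + s + 1 := ⟨_, rfl⟩
  obtain ⟨G, hG⟩ : ∃ G, G = (2 * H) * 2 ^ (2 * H) := ⟨_, rfl⟩
  have h1 : 2 * H ≤ G := by
    rw [hG]
    exact Nat.le_mul_of_pos_right _ (by positivity)
  have h2 := Nat.div_add_mod (G + σ) A.totient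
  have h3 := Nat.mod_lt (G + σ) hφ
  refine ⟨J, A.totient * ((G + σ) / A.totient + 1), H, 2 * H, G, rfl, hG, by omega, by omega,
    by omega, by omega, ?_, ?_, ?_, ?_, ?_, ?_⟩
  · have := (Nat.ModEq.pow_totient (x := 2) (n := A)
      (Nat.coprime_two_left.2 hodd)).pow ((G + σ) / A.totient + 1)
    rwa [one_pow, ← pow_mul] at this
  all_goals rw [mul_add, mul_one]; omega

lemma step (s A m R : ℕ) (hodd : Odd A) (hm : 2 ^ m ≤ A) : ∃ T A' m' R' : ℕ,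
    R ≤ T ∧ m ≤ T ∧ s ≤ T ∧ T + 1 ≤ R' ∧ Odd A' ∧ 2 ^ m' ≤ A' ∧
    (A : ℝ) / 2 ^ m ≤ (A' : ℝ) / 2 ^ m' ∧ (A' : ℝ) / 2 ^ m' ≤ (A : ℝ) / 2 ^ m + 1 / 2 ^ T / 4 ∧
    (∃ c, PC A' c ∧ c * (s + 1) ≤ T) ∧
    ∀ x : ℝ, (A' : ℝ) / 2 ^ m' ≤ x → x ≤ (A' : ℝ) / 2 ^ m' + 1 / 2 ^ R' → Good s x := by
  obtain ⟨J, L, H, K, G, hK, hG, hsH, hH, hJ, hsJ, hL, l1, l2, l3, l4, l5⟩ := params s A m R hodd
  have hA : 1 ≤ A := hodd.pos
  have A0 : (0 : ℝ) < A := by exact_mod_cast hA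
  have A1 : (1 : ℝ) ≤ A := by exact_mod_cast hA
  have hAlt : A < 2 ^ A := Nat.lt_two_pow_self
  have hAlt' : (A : ℝ) ≤ 2 ^ A := by exact_mod_cast hAlt.le
  have hL1 : 1 ≤ L := by omega
  have hJL : 7 * L ≤ J * L := Nat.mul_le_mul_right _ hJ
  obtain ⟨M, hM⟩ : ∃ M, M = 2 * (J * L) + 3 * L + 2 * A + 7 := ⟨_, rfl⟩
  obtain ⟨P, hP⟩ : ∃ P, P = m + 2 * (J * L) + 6 * L + 4 * A + 14 := ⟨_, rfl⟩
  set f : ℕ → Bool := fun n => (n / K).testBit (n % K) with hf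
  obtain ⟨D, hD⟩ : ∃ D, D = wd f G := ⟨_, rfl⟩
  have hDlt : (D : ℝ) / 2 ^ G ≤ 1 := by
    rw [div_le_one (by positivity), hD]
    exact_mod_cast (wd_lt f G).le
  have hD0 : 0 ≤ (D : ℝ) / 2 ^ G := by positivity
  set β : ℝ := ((2 ^ (P + m) % A : ℕ) : ℝ) / A with hβ
  have β0 : 0 ≤ β := by positivity
  have β1 : β ≤ 1 := by
    rw [hβ, div_le_one A0]
    exact_mod_cast (Nat.mod_lt _ hA).le
  have hq : 2 ≤ 2 ^ L := by
    calc 2 = 2 ^ 1 := rfl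
      _ ≤ 2 ^ L := Nat.pow_le_pow_right (by norm_num) hL1
  have hq' : (2 : ℝ) ≤ 2 ^ L := by exact_mod_cast hq
  have q0 : (0 : ℝ) < 1 / 2 ^ L := by positivity
  obtain ⟨W, hW⟩ : ∃ W, W = ⌈(1 + (D : ℝ) / 2 ^ G + 1 / 2 ^ L - β) * 2 ^ L / (2 * A)⌉₊ := ⟨_, rfl⟩
  have hW1 : 1 + (D : ℝ) / 2 ^ G + 1 / 2 ^ L - β ≤ 2 * A * W / 2 ^ L := by
    have := Nat.le_ceil ((1 + (D : ℝ) / 2 ^ G + 1 / 2 ^ L - β) * 2 ^ L / (2 * A))
    rw [← hW, div_le_iff₀ (by positivity)] at this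
    rw [le_div_iff₀ (by positivity)]
    linarith
  have hW2 : 2 * A * W / 2 ^ L < 1 + (D : ℝ) / 2 ^ G + 1 / 2 ^ L - β + 2 * A / 2 ^ L := by
    have := Nat.ceil_lt_add_one (a := (1 + (D : ℝ) / 2 ^ G + 1 / 2 ^ L - β) * 2 ^ L / (2 * A))
      (div_nonneg (mul_nonneg (by linarith) (by positivity)) (by positivity))
    rw [← hW, ← sub_lt_iff_lt_add, lt_div_iff₀ (by positivity)] at this
    rw [← sub_lt_iff_lt_add, ← sub_div, div_lt_iff₀ (by positivity)]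
    linarith
  have hs : (4 + 2 * A + A * J) / ((2 : ℝ) ^ L - 1) ≤ 1 / 2 ^ G := by
    have a1 : 8 + 4 * A + 2 * (A * J) < 2 ^ (8 + 4 * A + 2 * (A * J)) := Nat.lt_two_pow_self
    have a2 : 2 ^ G * 2 ^ (8 + 4 * A + 2 * (A * J)) ≤ 2 ^ L := by
      rw [← pow_add]; exact Nat.pow_le_pow_right (by norm_num) l1
    have a3 : 2 ^ G * (8 + 4 * A + 2 * (A * J)) ≤ 2 ^ L :=
      (Nat.mul_le_mul_left _ a1.le).trans a2
    have a4 : (2 : ℝ) ^ G * (8 + 4 * A + 2 * (A * J)) ≤ 2 ^ L := by exact_mod_cast a3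
    rw [div_le_div_iff₀ (by linarith) (by positivity)]
    linarith
  have hW3 : 2 * A * W / (2 : ℝ) ^ L ≤ 3 := by
    have a1 : (1 : ℝ) / 2 ^ G ≤ 1 := by
      rw [div_le_one (by positivity)]; exact one_le_pow₀ (by norm_num)
    have a2 : (1 + 2 * A) / (2 : ℝ) ^ L ≤ (4 + 2 * A + A * J) / ((2 : ℝ) ^ L - 1) := by
      apply div_le_div₀ (by positivity) _ (by linarith) (by linarith)
      have : (0 : ℝ) ≤ A * J := by positivity
      linarith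
    rw [add_div] at a2
    linarith
  have hW4 : W < 2 ^ (L + 1) := by
    rw [div_le_iff₀ (by positivity)] at hW3
    have W0 : (0 : ℝ) ≤ W := by positivity
    have : (W : ℝ) < 2 ^ (L + 1) := by
      rw [pow_succ]; nlinarith
    exact_mod_cast this
  obtain ⟨E, hE⟩ : ∃ E, E = W * (2 ^ L) ^ J + CC (2 ^ L) J := ⟨_, rfl⟩
  have hE1 : E ≤ 2 ^ (J * L + L + 1) := by
    have a1 := CC_le (2 ^ L) J hq
    have a2 : (W + 1) * (2 ^ L) ^ J ≤ 2 ^ (L + 1) * (2 ^ L) ^ J := Nat.mul_le_mul_right _ hW4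
    have a3 : 2 ^ (J * L + L + 1) = 2 ^ (L + 1) * (2 ^ L) ^ J := by
      rw [← pow_mul, ← pow_add]; congr 1; ring
    rw [a3, hE]
    nlinarith
  have hE1' : (E : ℝ) ≤ 2 ^ (J * L + L + 1) := by exact_mod_cast hE1
  have hEodd : Odd E := by
    obtain ⟨j, rfl⟩ : ∃ j, J = j + 1 := ⟨J - 1, by omega⟩
    have ev : Even (2 ^ L) := (Nat.even_pow.2 ⟨even_two, by omega⟩)
    have : CC (2 ^ L) (j + 1) = 2 ^ L * CC (2 ^ L) j + 1 := by
      unfold CC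
      rw [sum_range_succ', mul_sum]
      simp [pow_succ, mul_comm]
    rw [hE, this, pow_succ, ← add_assoc]
    apply Even.add_one
    exact ((ev.mul_left _).mul_left _).add (ev.mul_right _)
  set a : ℝ := (A : ℝ) / 2 ^ m with ha
  have a1 : 1 ≤ a := by
    rw [ha, one_le_div (by positivity)]; exact_mod_cast hm
  have aA : a ≤ 2 ^ A := by
    refine le_trans ?_ hAlt'
    exact div_le_self A0.le (one_le_pow₀ (by norm_num))
  set η : ℝ := (E : ℝ) / 2 ^ M with hη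
  have η0 : 0 ≤ η := by positivity
  have ha' : ((A * 2 ^ (m + M) + A ^ 2 * E : ℕ) : ℝ) / 2 ^ (2 * m + M) = a + a ^ 2 * η := by
    rw [ha, hη]
    push_cast
    field_simp
    ring
  have hδ : a ^ 2 * η ≤ 1 / 2 ^ (J * L) / 4 := by
    have b1 : a ^ 2 ≤ (2 ^ A) ^ 2 := pow_le_pow_left₀ (by linarith) aA 2
    have b2 : η ≤ 2 ^ (J * L + L + 1) / 2 ^ M := div_le_div_of_nonneg_right hE1' (by positivity)
    refine (mul_le_mul b1 b2 η0 (by positivity)).trans ?_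
    rw [div_div, ← mul_div_assoc, div_le_div_iff₀ (by positivity) (by positivity), one_mul,
      show (4 : ℝ) = 2 ^ 2 by norm_num, ← pow_mul, ← pow_add, ← pow_add, ← pow_add]
    exact pow_le_pow_right₀ (by norm_num) (by omega)
  refine ⟨J * L, A * 2 ^ (m + M) + A ^ 2 * E, 2 * m + M, P + J * L + 1, by omega, by omega, ?_,
    by omega, ?_, ?_, ?_, ?_, ?_, ?_⟩
  · have : J * 1 ≤ J * L := Nat.mul_le_mul_left _ hL1
    omega
  · apply Even.add_odd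
    · exact (Nat.even_pow.2 ⟨even_two, by omega⟩).mul_left _
    · exact hodd.pow.mul hEodd
  · have : 2 ^ (2 * m + M) = 2 ^ m * 2 ^ (m + M) := by rw [← pow_add]; congr 1; ring
    rw [this]
    exact (Nat.mul_le_mul_right _ hm).trans (Nat.le_add_right _ _)
  · rw [ha']
    have : 0 ≤ a ^ 2 * η := by positivity
    linarith
  · rw [ha']
    linarith
  · have sq : A ^ 2 < 2 ^ (2 * A) := by
      rw [mul_comm, pow_mul]; exact Nat.pow_lt_pow_left hAlt (by norm_num)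
    have p1 : PC (A * 2 ^ (m + M)) A := PC_pow (PC_lt A A hAlt) _
    have p2 : PC (A ^ 2 * W * 2 ^ (L * J)) (2 * A + (L + 1)) := by
      apply PC_pow
      apply PC_lt
      rw [pow_add]
      exact Nat.mul_lt_mul'' sq hW4
    have p3 : PC (∑ i ∈ range J, A ^ 2 * 2 ^ (L * i)) (J * (2 * A)) :=
      PC_sum _ _ (fun i => PC_pow (PC_lt _ _ sq) _) J
    have e : A * 2 ^ (m + M) + A ^ 2 * E =
        A * 2 ^ (m + M) + (A ^ 2 * W * 2 ^ (L * J) + ∑ i ∈ range J, A ^ 2 * 2 ^ (L * i)) := by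
      rw [hE, CC, mul_add, mul_sum]
      simp only [pow_mul, mul_assoc]
    refine ⟨_, e ▸ PC_add p1 (PC_add p2 p3), ?_⟩
    have b1 : A + (2 * A + (L + 1) + J * (2 * A)) ≤ 2 * L := by nlinarith
    calc _ ≤ 2 * L * (s + 1) := Nat.mul_le_mul_right _ b1
      _ = 2 * (s + 1) * L := by ring
      _ ≤ J * L := Nat.mul_le_mul_right _ hsJ
  · intro x x1 x2
    rw [ha'] at x1 x2
    obtain ⟨e, he, e0, e1⟩ := recip a η x a1 η0 x1
    have he1 : 2 ^ (P + J * L) * e ≤ 1 := by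
      have c1 : 2 ^ (P + J * L) * (a ^ 2 * η ^ 3) ≤ 1 / 2 := by
        have b1 : (A : ℝ) ^ 2 ≤ (2 ^ A) ^ 2 := pow_le_pow_left₀ A0.le hAlt' 2
        have b2 : (E : ℝ) ^ 3 ≤ (2 ^ (J * L + L + 1)) ^ 3 := pow_le_pow_left₀ (by positivity) hE1' 3
        have b3 : 2 ^ (P + J * L) * (a ^ 2 * η ^ 3) =
            2 ^ (P + J * L) * ((A : ℝ) ^ 2 * (E : ℝ) ^ 3) / ((2 ^ m) ^ 2 * (2 ^ M) ^ 3) := by
          rw [ha, hη]; field_simp
        rw [b3, div_le_div_iff₀ (by positivity) (by positivity), one_mul]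
        calc _ ≤ 2 ^ (P + J * L) * ((2 ^ A) ^ 2 * (2 ^ (J * L + L + 1)) ^ 3) * (2 : ℝ) ^ 1 := by
              rw [pow_one]; gcongr
          _ ≤ _ := by
              rw [← pow_mul, ← pow_mul, ← pow_mul, ← pow_mul, ← pow_add, ← pow_add, ← pow_add,
                ← pow_add]
              exact pow_le_pow_right₀ (by norm_num) (by omega)
      have c2 : 2 ^ (P + J * L) * (x - (a + a ^ 2 * η)) ≤ 1 / 2 := by
        have : x - (a + a ^ 2 * η) ≤ 1 / 2 ^ (P + J * L + 1) := by linarith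
        refine (mul_le_mul_of_nonneg_left this (by positivity)).trans (le_of_eq ?_)
        rw [pow_succ]; field_simp
      have c3 := mul_le_mul_of_nonneg_left e1 (show (0 : ℝ) ≤ 2 ^ (P + J * L) by positivity)
      rw [mul_add] at c3
      linarith
    have hw := window A m L J M W P G D x⁻¹ e hA hL1 hL (by omega) (by omega) hW1 hW2 hW3 hs
      (by rw [← hE]; exact he) e0 he1
    refine ⟨P + J * L, by nlinarith, fun k hk => ?_⟩
    apply good x⁻¹ P L J H K (P + J * L) k hK hH (by omega) (by omega) rfl _ (by omega)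
    · intro i hi n hn
      obtain ⟨z, z1, z2⟩ := hw i hi
      rw [hD] at z1 z2
      have := wd_digit f G _ z z1 z2 n (by omega)
      rw [← mul_assoc, ← pow_add] at this
      have e : n + 1 + (P + i * L) = P + i * L + n + 1 := by ring
      rw [e] at this
      exact this
    · have b1 : J * L ≤ J * (2 * G) := Nat.mul_le_mul_left _ l2
      have b2 : J * (2 * G) = 4 * (J * (H * 2 ^ K)) := by rw [hG, hK]; ring
      omega

end Pool.Agent.H15.RD
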