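import Pool.Agent.H15.RD3

set_option autoImplicit false
open Finset

namespace Pool.Agent.H15.RD

lemma seqs : ∃ (A m T : ℕ → ℕ), (∀ s, 2 ^ m s ≤ A s) ∧ (∀ s, m s ≤ T s) ∧ (∀ s, s ≤ T s) ∧
    (∀ s, T s + 1 ≤ T (s + 1)) ∧
    (∀ s, (A s : ℝ) / 2 ^ m s ≤ (A (s + 1) : ℝ) / 2 ^ m (s + 1)) ∧
    (∀ s, (A (s + 1) : ℝ) / 2 ^ m (s + 1) ≤ (A s : ℝ) / 2 ^ m s + 1 / 2 ^ T s / 4) ∧
    (∀ s, ∃ c, PC (A (s + 1)) c ∧ c * (s + 1) ≤ T s) ∧
    ∀ s, ∀ x : ℝ, (A (s + 1) : ℝ) / 2 ^ m (s + 1) ≤ x →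
      x ≤ (A (s + 1) : ℝ) / 2 ^ m (s + 1) + 1 / 2 ^ T (s + 1) → Good s x := by
  choose T A' m' R' h1 h2 h3 h4 h5 h6 h7 h8 h9 h10 using
    fun (s : ℕ) (u : {u : ℕ × ℕ × ℕ // Odd u.1 ∧ 2 ^ u.2.1 ≤ u.1}) =>
      step s u.1.1 u.1.2.1 u.1.2.2 u.2.1 u.2.2
  let st : ℕ → {u : ℕ × ℕ × ℕ // Odd u.1 ∧ 2 ^ u.2.1 ≤ u.1} := fun n =>
    Nat.rec ⟨(1, 0, 0), odd_one, le_rfl⟩
      (fun s u => ⟨(A' s u, m' s u, R' s u), h5 s u, h6 s u⟩) n
  refine ⟨fun s => (st s).1.1, fun s => (st s).1.2.1, fun s => T s (st s), fun s => (st s).2.2,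
    fun s => h2 s (st s), fun s => h3 s (st s), fun s => ?_, fun s => h7 s (st s),
    fun s => h8 s (st s), fun s => h9 s (st s), fun s x x1 x2 => h10 s (st s) x x1 (x2.trans ?_)⟩
  · exact (h4 s (st s)).trans (h1 (s + 1) (st (s + 1)))
  · have : R' s (st s) ≤ T (s + 1) (st (s + 1)) := h1 (s + 1) (st (s + 1))
    have : (1 : ℝ) / 2 ^ T (s + 1) (st (s + 1)) ≤ 1 / 2 ^ R' s (st s) :=
      one_div_le_one_div_of_le (by positivity) (pow_le_pow_right₀ (by norm_num) this)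
    exact add_le_add le_rfl this

lemma exists_x : ∃ x : ℝ, 1 ≤ x ∧ (∀ s, Good s x) ∧
    ∀ s, ∃ N₀, ∀ N, N₀ ≤ N → ones x N * (s + 1) ≤ N := by
  obtain ⟨A, m, T, h1, h2, h3, h4, h5, h6, h7, h8⟩ := seqs
  set a : ℕ → ℝ := fun s => (A s : ℝ) / 2 ^ m s with ha
  have amono : Monotone a := monotone_nat_of_le_succ h5
  have banti : Antitone (fun s => a s + 1 / 2 ^ T s / 2) := by
    apply antitone_nat_of_succ_le
    intro s
    have b1 : (1 : ℝ) / 2 ^ T (s + 1) ≤ 1 / 2 ^ (T s + 1) :=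
      one_div_le_one_div_of_le (by positivity) (pow_le_pow_right₀ (by norm_num) (h4 s))
    have b2 : (1 : ℝ) / 2 ^ (T s + 1) = 1 / 2 ^ T s / 2 := by rw [pow_succ]; field_simp
    have := h6 s
    simp only [ha]
    linarith
  have hub : ∀ s u, a u ≤ a s + 1 / 2 ^ T s / 2 := by
    intro s u
    rcases le_total u s with h | h
    · have := amono h
      have : (0 : ℝ) ≤ 1 / 2 ^ T s / 2 := by positivity
      linarith
    · have := banti h
      have : (0 : ℝ) ≤ 1 / 2 ^ T u / 2 := by positivity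
      simp only at *
      linarith
  have bdd : BddAbove (Set.range a) := ⟨_, by rintro _ ⟨u, rfl⟩; exact hub 0 u⟩
  have x1 : ∀ s, a s ≤ ⨆ u, a u := fun s => le_ciSup bdd s
  have x2 : ∀ s, ⨆ u, a u ≤ a s + 1 / 2 ^ T s / 2 := fun s => ciSup_le (hub s)
  set x := ⨆ u, a u with hx
  have x0 : 1 ≤ x := by
    refine le_trans ?_ (x1 0)
    simp only [ha]
    rw [one_le_div (by positivity)]
    exact_mod_cast h1 0
  refine ⟨x, x0, fun s => h8 s x (x1 _) ?_, fun s0 => ⟨T s0, fun N hN => ?_⟩⟩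
  · have := x2 (s + 1)
    have : (0 : ℝ) ≤ 1 / 2 ^ T (s + 1) := by positivity
    simp only [ha] at *
    linarith
  · have ex : ∃ s, s0 ≤ s ∧ T s ≤ N ∧ N ≤ T (s + 1) := by
      by_contra hc
      push Not at hc
      have : ∀ d, T (s0 + d) ≤ N := by
        intro d
        induction d with
        | zero => simpa using hN
        | succ d ih => exact (hc _ (by omega) ih).le
      have := this (N + 1)
      have := h3 (s0 + (N + 1))
      omega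
    obtain ⟨s, s1, s2, s3⟩ := ex
    obtain ⟨c, c1, c2⟩ := h7 s
    obtain ⟨d, hd⟩ := Nat.exists_eq_add_of_le (h2 (s + 1))
    have fl : ⌊(2 : ℝ) ^ T (s + 1) * x⌋₊ = A (s + 1) * 2 ^ d := by
      rw [Nat.floor_eq_iff (by positivity)]
      have p0 : (0 : ℝ) < 2 ^ T (s + 1) := by positivity
      have b1 := mul_le_mul_of_nonneg_left (x1 (s + 1)) p0.le
      have b2 := mul_le_mul_of_nonneg_left (x2 (s + 1)) p0.le
      have b3 : (2 : ℝ) ^ T (s + 1) * a (s + 1) = A (s + 1) * 2 ^ d := by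
        simp only [ha]
        rw [hd, pow_add]
        field_simp
      have b4 : (2 : ℝ) ^ T (s + 1) * (1 / 2 ^ T (s + 1) / 2) = 1 / 2 := by field_simp
      rw [mul_add, b4, b3] at b2
      rw [b3] at b1
      push_cast
      constructor <;> linarith
    have o1 : ones x (T (s + 1)) ≤ c := by
      rw [ones_eq x (by linarith), fl]
      exact PC_pow c1 d _
    have o2 := ones_mono x s3
    calc ones x N * (s0 + 1) ≤ c * (s + 1) := Nat.mul_le_mul (o2.trans o1) (by omega)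
      _ ≤ N := c2.trans s2

lemma Ent_one (x : ℝ) (N : ℕ) (hN : 0 < N) :
    Ent 1 N x = Real.negMulLog (1 - (ones x N : ℝ) / N) + Real.negMulLog ((ones x N : ℝ) / N) := by
  rw [Ent_eq, ← (Equiv.funUnique (Fin 1) (Fin 2)).symm.sum_comp, Fin.sum_univ_two]
  have e1 : ∀ n, om 1 x n = (Equiv.funUnique (Fin 1) (Fin 2)).symm 1 ↔
      ⌊(2 : ℝ) ^ (n + 1) * x⌋ % 2 = 1 := by
    intro n
    rw [funext_iff, Fin.forall_fin_one, Fin.ext_iff]
    simp [om]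
    omega
  have e0 : ∀ n, om 1 x n = (Equiv.funUnique (Fin 1) (Fin 2)).symm 0 ↔
      ¬ (⌊(2 : ℝ) ^ (n + 1) * x⌋ % 2 = 1) := by
    intro n
    rw [funext_iff, Fin.forall_fin_one, Fin.ext_iff]
    simp [om]
    omega
  rw [filter_congr (fun n _ => e0 n), filter_congr (fun n _ => e1 n)]
  have := card_filter_add_card_filter_not (s := range N)
    (fun n : ℕ => ⌊(2 : ℝ) ^ (n + 1) * x⌋ % 2 = 1)
  rw [card_range] at this
  have N0 : (0 : ℝ) < N := by exact_mod_cast hN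
  congr 2
  have h' : ((ones x N : ℕ) : ℝ) +
      (((range N).filter (fun n : ℕ => ¬ (⌊(2 : ℝ) ^ (n + 1) * x⌋ % 2 = 1))).card : ℝ) = N := by
    unfold ones
    exact_mod_cast this
  field_simp
  linarith

lemma det_x (x : ℝ) (h : ∀ s, ∃ N₀, ∀ N, N₀ ≤ N → ones x N * (s + 1) ≤ N) (ε : ℝ) (hε : 0 < ε) :
    ∃ N₀, ∀ N, N₀ ≤ N → Ent 1 N x < ε := by
  have t0 : Filter.Tendsto (fun N : ℕ => (ones x N : ℝ) / N) Filter.atTop (nhds 0) := by
    rw [Metric.tendsto_atTop]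
    intro δ hδ
    obtain ⟨s, hs⟩ := exists_nat_one_div_lt hδ
    obtain ⟨N₀, h0⟩ := h s
    refine ⟨max N₀ 1, fun N hN => ?_⟩
    have a1 := h0 N (le_trans (le_max_left _ _) hN)
    have N0 : (0 : ℝ) < N := by exact_mod_cast lt_of_lt_of_le one_pos (le_trans (le_max_right _ _) hN)
    rw [Real.dist_eq, sub_zero, abs_of_nonneg (by positivity)]
    refine lt_of_le_of_lt ?_ hs
    rw [div_le_div_iff₀ N0 (by positivity), one_mul]
    exact_mod_cast a1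
  have c : Continuous (fun p : ℝ => Real.negMulLog (1 - p) + Real.negMulLog p) := by fun_prop
  have t1 := (c.tendsto 0).comp t0
  simp only [sub_zero, Real.negMulLog_one, Real.negMulLog_zero, add_zero] at t1
  obtain ⟨N₀, h0⟩ := Filter.eventually_atTop.1 (t1.eventually (gt_mem_nhds hε))
  refine ⟨max N₀ 1, fun N hN => ?_⟩
  rw [Ent_one x N (lt_of_lt_of_le one_pos (le_trans (le_max_right _ _) hN))]
  exact h0 N (le_trans (le_max_left _ _) hN)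

theorem final : ∃ x : ℝ, x ≠ 0 ∧
    (∀ ε : ℝ, 0 < ε → ∃ K : ℕ, ∃ N₀ : ℕ, ∀ N : ℕ, N₀ ≤ N →
      ∃ k : ℕ, 1 ≤ k ∧ k ≤ K ∧ Ent k N x / (k : ℝ) < ε) ∧
    ¬ (∀ ε : ℝ, 0 < ε → ∃ K : ℕ, ∃ N₀ : ℕ, ∀ N : ℕ, N₀ ≤ N →
      ∃ k : ℕ, 1 ≤ k ∧ k ≤ K ∧ Ent k N x⁻¹ / (k : ℝ) < ε) := by
  obtain ⟨x, x1, hg, ho⟩ := exists_x
  refine ⟨x, by linarith, fun ε hε => ?_, fun h => ?_⟩
  · obtain ⟨N₀, h0⟩ := det_x x ho ε hε
    exact ⟨1, N₀, fun N hN => ⟨1, le_rfl, le_rfl, by simpa using h0 N hN⟩⟩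
  · have l0 : 0 < Real.log 2 := Real.log_pos (by norm_num)
    obtain ⟨K, N₀, h0⟩ := h (Real.log 2 / 16) (by positivity)
    obtain ⟨N, n1, n2⟩ := hg (max K N₀)
    obtain ⟨k, k1, k2, k3⟩ := h0 N (le_trans (le_max_right _ _) n1)
    have := n2 k (le_trans k2 (le_max_left _ _))
    have k0 : (0 : ℝ) < k := by exact_mod_cast k1
    rw [div_lt_iff₀ k0] at k3
    linarith

end Pool.Agent.H15.RD
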