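import Mathlib

set_option autoImplicit false

namespace Pool.Agent.H15.RG

open Classical

/-! coloured back and forth -/

def EP (G : SimpleGraph ℕ) (c : ℕ → ℕ) (k : ℕ) : Prop :=
  ∀ U W : Finset ℕ, Disjoint U W → (k ≠ 0 → ∀ u ∈ U, c u = 0) →
    ∃ v, v ∉ U ∧ v ∉ W ∧ c v = k ∧ (∀ u ∈ U, G.Adj v u) ∧ ∀ w ∈ W, ¬ G.Adj v w

def Ind (G : SimpleGraph ℕ) (c : ℕ → ℕ) : Prop := ∀ a b, G.Adj a b → c a = 0 ∨ c b = 0

def PI (G H : SimpleGraph ℕ) (c d : ℕ → ℕ) (p : Finset (ℕ × ℕ)) : Prop :=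
  ∀ x ∈ p, c x.1 = d x.2 ∧ ∀ y ∈ p, (x.1 = y.1 ↔ x.2 = y.2) ∧ (G.Adj x.1 y.1 ↔ H.Adj x.2 y.2)

lemma step {G H : SimpleGraph ℕ} {c d : ℕ → ℕ} (hH : ∀ a, EP H d (c a)) (hI : Ind G c)
    {p : Finset (ℕ × ℕ)} (hp : PI G H c d p) (a : ℕ) :
    ∃ q, PI G H c d q ∧ p ⊆ q ∧ ∃ b, (a, b) ∈ q := by
  by_cases h : ∃ b, (a, b) ∈ p
  · exact ⟨p, hp, subset_rfl, h⟩
  · obtain ⟨v, h1, h2, hc, h3, h4⟩ := hH a ((p.filter fun x => G.Adj a x.1).image Prod.snd)
      ((p.filter fun x => ¬ G.Adj a x.1).image Prod.snd) (by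
        rw [Finset.disjoint_left]
        intro b hb hb'
        simp only [Finset.mem_image, Finset.mem_filter] at hb hb'
        obtain ⟨x, ⟨hx, hx'⟩, rfl⟩ := hb
        obtain ⟨y, ⟨hy, hy'⟩, e⟩ := hb'
        rw [(((hp y hy).2 x hx).1).mpr e] at hy'
        exact hy' hx') (by
        intro hk u hu
        simp only [Finset.mem_image, Finset.mem_filter] at hu
        obtain ⟨x, ⟨hx, hx'⟩, rfl⟩ := hu
        rw [← (hp x hx).1]
        exact (hI _ _ hx').resolve_left hk)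
    have key : ∀ y ∈ p, (a = y.1 ↔ v = y.2) ∧ (G.Adj a y.1 ↔ H.Adj v y.2) := by
      intro y hy
      by_cases hay : G.Adj a y.1
      · have hm : y.2 ∈ (p.filter fun x => G.Adj a x.1).image Prod.snd :=
          Finset.mem_image_of_mem _ (Finset.mem_filter.mpr ⟨hy, hay⟩)
        refine ⟨⟨fun e => absurd ⟨y.2, by rw [e]; exact hy⟩ h, fun e => absurd (e ▸ hm) h1⟩, ?_⟩
        exact ⟨fun _ => h3 _ hm, fun _ => hay⟩
      · have hm : y.2 ∈ (p.filter fun x => ¬ G.Adj a x.1).image Prod.snd :=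
          Finset.mem_image_of_mem _ (Finset.mem_filter.mpr ⟨hy, hay⟩)
        refine ⟨⟨fun e => absurd ⟨y.2, by rw [e]; exact hy⟩ h, fun e => absurd (e ▸ hm) h2⟩, ?_⟩
        exact ⟨fun e => absurd e hay, fun e => absurd e (h4 _ hm)⟩
    refine ⟨insert (a, v) p, ?_, Finset.subset_insert _ _, v, Finset.mem_insert_self _ _⟩
    intro x hx
    refine ⟨?_, fun y hy => ?_⟩
    · rcases Finset.mem_insert.mp hx with rfl | hx
      · exact hc.symm
      · exact (hp x hx).1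
    rcases Finset.mem_insert.mp hx with rfl | hx <;> rcases Finset.mem_insert.mp hy with rfl | hy
    · simp
    · exact key y hy
    · have := key x hx
      exact ⟨by simpa only [eq_comm] using this.1, by
        rw [G.adj_comm, H.adj_comm]; exact this.2⟩
    · exact (hp x hx).2 y hy

lemma PI.swap {G H : SimpleGraph ℕ} {c d : ℕ → ℕ} {p : Finset (ℕ × ℕ)} (hp : PI G H c d p) :
    PI H G d c (p.image Prod.swap) := by
  intro x hx
  simp only [Finset.mem_image] at hx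
  obtain ⟨x, hx, rfl⟩ := hx
  refine ⟨(hp x hx).1.symm, fun y hy => ?_⟩
  simp only [Finset.mem_image] at hy
  obtain ⟨y, hy, rfl⟩ := hy
  exact ⟨((hp x hx).2 y hy).1.symm, ((hp x hx).2 y hy).2.symm⟩

lemma step2 {G H : SimpleGraph ℕ} {c d : ℕ → ℕ} (hG : ∀ a, EP G c (d a)) (hH : ∀ a, EP H d (c a))
    (hI : Ind G c) (hJ : Ind H d) {p : Finset (ℕ × ℕ)} (hp : PI G H c d p)
    (a : ℕ) : ∃ q, PI G H c d q ∧ p ⊆ q ∧ (∃ b, (a, b) ∈ q) ∧ ∃ b, (b, a) ∈ q := by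
  obtain ⟨q, hq, hpq, b, hb⟩ := step hH hI hp a
  obtain ⟨r, hr, hqr, e, he⟩ := step hG hJ hq.swap a
  have hsub : q ⊆ r.image Prod.swap := by
    intro x hx
    exact Finset.mem_image.mpr ⟨x.swap, hqr (Finset.mem_image_of_mem _ hx), rfl⟩
  exact ⟨r.image Prod.swap, hr.swap, hpq.trans hsub, ⟨b, hsub hb⟩,
    ⟨e, Finset.mem_image.mpr ⟨(a, e), he, rfl⟩⟩⟩

lemma extend {G H : SimpleGraph ℕ} {c d : ℕ → ℕ} (hG : ∀ a, EP G c (d a))
    (hH : ∀ a, EP H d (c a)) (hI : Ind G c) (hJ : Ind H d) {p : Finset (ℕ × ℕ)}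
    (hp : PI G H c d p) :
    ∃ σ : Equiv.Perm ℕ, (∀ a b, G.Adj a b ↔ H.Adj (σ a) (σ b)) ∧ (∀ a, c a = d (σ a)) ∧
      ∀ x ∈ p, σ x.1 = x.2 := by
  choose nx h1 h2 h3 h4 using
    fun (q : {q // PI G H c d q}) (a : ℕ) => step2 hG hH hI hJ q.2 a
  let s : ℕ → {q // PI G H c d q} := fun n => Nat.rec ⟨p, hp⟩ (fun n q => ⟨nx q n, h1 q n⟩) n
  have hc : ∀ n, (s (n + 1)).1 = nx (s n) n := fun _ => rfl
  have hmono : Monotone fun n => (s n).1 :=
    monotone_nat_of_le_succ fun n => by rw [hc]; exact h2 _ _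
  have hrel : ∀ m n x y, x ∈ (s m).1 → y ∈ (s n).1 →
      (x.1 = y.1 ↔ x.2 = y.2) ∧ (G.Adj x.1 y.1 ↔ H.Adj x.2 y.2) := fun m n x y hx hy =>
    ((s (max m n)).2 x (hmono (le_max_left m n) hx)).2 y (hmono (le_max_right m n) hy)
  choose f hf using fun a => h3 (s a) a
  choose g hg using fun a => h4 (s a) a
  refine ⟨⟨f, g, fun a => ?_, fun a => ?_⟩, fun a b => ?_, fun a => ?_, fun x hx => ?_⟩
  · exact (hrel (f a + 1) (a + 1) _ _ (hg (f a)) (hf a)).1.mpr rfl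
  · exact (hrel (g a + 1) (a + 1) _ _ (hf (g a)) (hg a)).1.mp rfl
  · exact (hrel (a + 1) (b + 1) _ _ (hf a) (hf b)).2
  · exact ((s (a + 1)).2 _ (hf a)).1
  · exact (hrel (x.1 + 1) 0 _ _ (hf x.1) hx).1.mp rfl

lemma bits (U : Finset ℕ) : ∃ v : ℕ, ∀ i, v.testBit i = true ↔ i ∈ U := by
  induction U using Finset.induction_on with
  | empty => exact ⟨0, by simp⟩
  | insert a U _ ih =>
    obtain ⟨v, hv⟩ := ih
    refine ⟨2 ^ a ||| v, fun i => ?_⟩
    rw [Nat.testBit_or, Bool.or_eq_true, hv, Nat.testBit_two_pow, Finset.mem_insert]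
    simp [eq_comm]

lemma big (U W : Finset ℕ) : ∃ v : ℕ, (∀ x ∈ U ∪ W, x < v) ∧
    ∀ x ∈ U ∪ W, (v.testBit x = true ↔ x ∈ U) := by
  let M := (U ∪ W).sup id + 1
  have hM : ∀ x ∈ U ∪ W, x < M := fun x hx =>
    Nat.lt_succ_of_le (Finset.le_sup (f := id) hx)
  obtain ⟨v, hv⟩ := bits (insert M U)
  have h1 : 2 ^ M ≤ v := Nat.ge_two_pow_of_testBit ((hv M).mpr (Finset.mem_insert_self _ _))
  have h2 : M < v := lt_of_lt_of_le Nat.lt_two_pow_self h1
  refine ⟨v, fun x hx => (hM x hx).trans h2, fun x hx => ?_⟩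
  rw [hv, Finset.mem_insert]
  have := hM x hx
  constructor
  · rintro (h | h)
    · omega
    · exact h
  · exact Or.inr

def R : SimpleGraph ℕ := SimpleGraph.fromRel (fun i j : ℕ => Nat.testBit j i = true)

lemma EP_R : EP R (fun _ => 0) 0 := by
  intro U W hUW _
  obtain ⟨v, h3, hv⟩ := big U W
  refine ⟨v, fun h => lt_irrefl _ (h3 v (Finset.mem_union_left _ h)),
    fun h => lt_irrefl _ (h3 v (Finset.mem_union_right _ h)), rfl, fun u hu => ?_,
    fun w hw => ?_⟩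
  · have hu' := Finset.mem_union_left W hu
    exact ⟨(h3 u hu').ne', Or.inr ((hv u hu').mpr hu)⟩
  · have hw' := Finset.mem_union_right U hw
    rintro ⟨_, h | h⟩
    · have := Nat.ge_two_pow_of_testBit h
      have h4 := h3 w hw'
      have : v < 2 ^ v := Nat.lt_two_pow_self
      omega
    · exact Finset.disjoint_left.mp hUW ((hv w hw').mp h) hw

def col (v : ℕ) : ℕ := (Nat.unpair v).1

def Γ : SimpleGraph ℕ where
  Adj i j := i ≠ j ∧ (col i = 0 ∨ col j = 0) ∧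
    (Nat.unpair (max i j)).2.testBit (min i j) = true
  symm := ⟨fun i j h => ⟨h.1.symm, h.2.1.symm, by rw [max_comm, min_comm]; exact h.2.2⟩⟩
  loopless := ⟨fun _ h => h.1 rfl⟩

lemma Ind_Γ : Ind Γ col := fun _ _ h => h.2.1

lemma EP_Γ (k : ℕ) : EP Γ col k := by
  intro U W hUW hk
  obtain ⟨t, h3, ht⟩ := big U W
  have h4 : ∀ x ∈ U ∪ W, x < Nat.pair k t := fun x hx => (h3 x hx).trans_le (Nat.right_le_pair k t)
  refine ⟨Nat.pair k t, fun h => lt_irrefl _ (h4 _ (Finset.mem_union_left _ h)),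
    fun h => lt_irrefl _ (h4 _ (Finset.mem_union_right _ h)), by simp [col], fun u hu => ?_,
    fun w hw => ?_⟩
  · have hu' := Finset.mem_union_left W hu
    refine ⟨(h4 u hu').ne', ?_, ?_⟩
    · by_cases h0 : k = 0
      · left; simp [col, h0]
      · right; exact hk h0 u hu
    · rw [max_eq_left (h4 u hu').le, min_eq_right (h4 u hu').le, Nat.unpair_pair]
      exact (ht u hu').mpr hu
  · have hw' := Finset.mem_union_right U hw
    rintro ⟨_, _, h⟩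
    rw [max_eq_left (h4 w hw').le, min_eq_right (h4 w hw').le, Nat.unpair_pair] at h
    exact Finset.disjoint_left.mp hUW ((ht w hw').mp h) hw

lemma iso_R : Nonempty (Γ ≃g R) := by
  have h0 : EP Γ (fun _ => 0) 0 := by
    intro U W hUW _
    obtain ⟨v, h1, h2, _, h3⟩ := EP_Γ 0 U W hUW (fun h => absurd rfl h)
    exact ⟨v, h1, h2, rfl, h3⟩
  obtain ⟨σ, h, -, -⟩ := extend (G := Γ) (H := R) (c := fun _ => 0) (d := fun _ => 0)
    (fun _ => h0) (fun _ => EP_R) (fun _ _ _ => Or.inl rfl) (fun _ _ _ => Or.inl rfl)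
    (p := ∅) (by simp [PI])
  exact ⟨⟨σ, fun {a b} => (h a b).symm⟩⟩

def GG : Subgroup (Equiv.Perm ℕ) where
  carrier := {g | (∀ x y, Γ.Adj (g x) (g y) ↔ Γ.Adj x y) ∧ ∀ x, col (g x) = col x}
  one_mem' := ⟨fun _ _ => Iff.rfl, fun _ => rfl⟩
  mul_mem' := fun {a b} ha hb => ⟨fun x y => (ha.1 _ _).trans (hb.1 x y),
    fun x => (ha.2 _).trans (hb.2 x)⟩
  inv_mem' := fun {a} ha => ⟨fun x y => by
    have := ha.1 (a⁻¹ x) (a⁻¹ y)
    simpa using this.symm, fun x => by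
    have := ha.2 (a⁻¹ x)
    simpa using this.symm⟩

lemma two {a b a' b' : ℕ} (h1 : a ≠ b) (h2 : a' ≠ b') (h3 : col a = col a') (h4 : col b = col b')
    (h5 : Γ.Adj a b ↔ Γ.Adj a' b') : ∃ g ∈ GG, g a = a' ∧ g b = b' := by
  obtain ⟨σ, k1, k2, k3⟩ := extend (G := Γ) (H := Γ) (c := col) (d := col)
    (fun _ => EP_Γ _) (fun _ => EP_Γ _) Ind_Γ Ind_Γ (p := {(a, a'), (b, b')}) (by
      intro x hx
      simp only [Finset.mem_insert, Finset.mem_singleton] at hx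
      refine ⟨by rcases hx with rfl | rfl <;> assumption, fun y hy => ?_⟩
      simp only [Finset.mem_insert, Finset.mem_singleton] at hy
      rcases hx with rfl | rfl <;> rcases hy with rfl | rfl
      · simp
      · exact ⟨by simp [h1, h2], h5⟩
      · exact ⟨by simp [h1.symm, h2.symm], by rw [Γ.adj_comm, h5, Γ.adj_comm]⟩
      · simp)
  exact ⟨σ, ⟨fun x y => (k1 x y).symm, fun x => (k2 x).symm⟩, k3 (a, a') (by simp),
    k3 (b, b') (by simp)⟩

end Pool.Agent.H15.RG
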