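import Mathlib
import Pool.Agent.H15.RG1

set_option autoImplicit false

namespace Pool.Agent.H15.RG

open Classical MeasureTheory

abbrev I : Type := {S : Set (Sym2 ℕ) // ∃ e : Sym2 ℕ, ¬ e.IsDiag ∧
  S = {e' : Sym2 ℕ | ∃ g ∈ GG, Sym2.map (⇑g) e = e'}}

def orb (u v : ℕ) (h : u ≠ v) : I :=
  ⟨{e' | ∃ g ∈ GG, Sym2.map (⇑g) s(u, v) = e'}, s(u, v), by simpa using h, rfl⟩

lemma orbit_eq {e e' : Sym2 ℕ} {g : Equiv.Perm ℕ} (hg : g ∈ GG) (h : Sym2.map (⇑g) e = e') :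
    {x : Sym2 ℕ | ∃ g ∈ GG, Sym2.map (⇑g) e = x} =
      {x : Sym2 ℕ | ∃ g ∈ GG, Sym2.map (⇑g) e' = x} := by
  subst h
  ext x
  constructor
  · rintro ⟨k, hk, rfl⟩
    refine ⟨k * g⁻¹, GG.mul_mem hk (GG.inv_mem hg), ?_⟩
    rw [Sym2.map_map]
    congr 1
    ext y; simp
  · rintro ⟨k, hk, rfl⟩
    refine ⟨k * g, GG.mul_mem hk hg, ?_⟩
    rw [Sym2.map_map]
    rfl

lemma mem_iff {u v : ℕ} (h : u ≠ v) (S : I) : s(u, v) ∈ S.1 ↔ S = orb u v h := by
  constructor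
  · obtain ⟨S, e, he, rfl⟩ := S
    rintro ⟨g, hg, hh⟩
    exact Subtype.ext (orbit_eq hg hh)
  · rintro rfl
    exact ⟨1, GG.one_mem, by simp⟩

lemma orb_eq {a b a' b' : ℕ} (h1 : a ≠ b) (h2 : a' ≠ b') (h3 : col a = col a')
    (h4 : col b = col b') (h5 : Γ.Adj a b ↔ Γ.Adj a' b') : orb a b h1 = orb a' b' h2 := by
  obtain ⟨g, hg, e1, e2⟩ := two h1 h2 h3 h4 h5
  exact Subtype.ext (orbit_eq hg (by rw [Sym2.map_mk, e1, e2]))

def rg (c : I → Bool) : SimpleGraph ℕ :=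
  SimpleGraph.fromRel (fun x y : ℕ => ∃ S : I, s(x, y) ∈ S.1 ∧ c S = true)

lemma rg_adj (c : I → Bool) {u v : ℕ} (h : u ≠ v) : (rg c).Adj u v ↔ c (orb u v h) = true := by
  rw [rg, SimpleGraph.fromRel_adj]
  constructor
  · rintro ⟨_, ⟨S, h1, h2⟩ | ⟨S, h1, h2⟩⟩
    · rwa [(mem_iff h S).1 h1] at h2
    · rw [Sym2.eq_swap] at h1
      rwa [(mem_iff h S).1 h1] at h2
  · intro hc
    exact ⟨h, Or.inl ⟨_, (mem_iff h _).2 rfl, hc⟩⟩

def xx (n j : ℕ) : ℕ := Nat.pair (n + 1) j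

lemma col_xx (n j : ℕ) : col (xx n j) = n + 1 := by simp [col, xx]

lemma exists_z (n : ℕ) (ε : Bool) : ∃ z, col z = 0 ∧ (Γ.Adj z (xx n 0) ↔ ε = true) := by
  cases ε
  · obtain ⟨v, -, -, h, -, h2⟩ := EP_Γ 0 ∅ {xx n 0} (by simp) (fun h => absurd rfl h)
    exact ⟨v, h, by simpa using h2⟩
  · obtain ⟨v, -, -, h, h2, -⟩ := EP_Γ 0 {xx n 0} ∅ (by simp) (fun h => absurd rfl h)
    exact ⟨v, h, by simpa using h2⟩

noncomputable def zz (n : ℕ) (ε : Bool) : ℕ := (exists_z n ε).choose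

lemma zz_col (n : ℕ) (ε : Bool) : col (zz n ε) = 0 := (exists_z n ε).choose_spec.1
lemma zz_adj (n : ℕ) (ε : Bool) : Γ.Adj (zz n ε) (xx n 0) ↔ ε = true :=
  (exists_z n ε).choose_spec.2

lemma ne_of_col {z : ℕ} (hz : col z = 0) (n j : ℕ) : z ≠ xx n j := by
  intro e
  rw [e, col_xx] at hz
  omega

noncomputable def φ (n : ℕ) (ε : Bool) : I := orb (zz n ε) (xx n 0) (ne_of_col (zz_col n ε) n 0)

lemma φ_inj {n m : ℕ} {ε δ : Bool} (h : φ n ε = φ m δ) : n = m ∧ ε = δ := by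
  have h1 : s(zz m δ, xx m 0) ∈ (φ n ε).1 := (mem_iff _ _).2 h
  obtain ⟨g, hg, e⟩ := h1
  rw [Sym2.map_mk, Sym2.eq_iff] at e
  rcases e with ⟨e1, e2⟩ | ⟨e1, _⟩
  · have h2 := hg.2 (xx n 0)
    rw [e2, col_xx, col_xx] at h2
    have h3 := hg.1 (zz n ε) (xx n 0)
    rw [e1, e2, zz_adj, zz_adj] at h3
    refine ⟨by omega, ?_⟩
    cases ε <;> cases δ <;> simp_all
  · have h2 := hg.2 (zz n ε)
    rw [e1, col_xx, zz_col] at h2
    omega

lemma no_twin (c : I → Bool) (h : Nonempty (rg c ≃g R)) (n : ℕ) : c (φ n true) ≠ c (φ n false) := by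
  intro hc
  obtain ⟨e⟩ := h
  have hxy : xx n 0 ≠ xx n 1 := by simp [xx]
  obtain ⟨v, h1, h2, -, h3, h4⟩ := EP_R {e (xx n 0)} {e (xx n 1)} (by
    simpa using hxy) (fun h => absurd rfl h)
  obtain ⟨z, rfl⟩ := e.surjective v
  simp only [Finset.mem_singleton, forall_eq] at h1 h2 h3 h4
  have z0 : z ≠ xx n 0 := fun k => h1 (by rw [k])
  have z1 : z ≠ xx n 1 := fun k => h2 (by rw [k])
  rw [e.map_adj_iff, rg_adj c z0] at h3
  rw [e.map_adj_iff, rg_adj c z1] at h4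
  apply h4
  by_cases hz : col z = 0
  · have key : ∀ j (hj : z ≠ xx n j), c (orb z (xx n j) hj) = c (φ n true) := by
      intro j hj
      by_cases ha : Γ.Adj z (xx n j)
      · congr 1
        exact orb_eq _ _ (hz.trans (zz_col _ _).symm) (by rw [col_xx, col_xx])
          (by rw [zz_adj]; simp [ha])
      · rw [hc]
        congr 1
        exact orb_eq _ _ (hz.trans (zz_col _ _).symm) (by rw [col_xx, col_xx])
          (by rw [zz_adj]; simp [ha])
    rw [key 1 z1, ← key 0 z0, h3]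
  · have na : ∀ j, ¬ Γ.Adj z (xx n j) := by
      intro j ha
      rcases Ind_Γ _ _ ha with k | k
      · exact hz k
      · rw [col_xx] at k; omega
    rw [← h3]
    congr 1
    exact orb_eq _ _ rfl (by rw [col_xx, col_xx]) (by simp [na])

noncomputable abbrev μ : Measure (I → Bool) :=
  Measure.infinitePi (fun _ : I => (PMF.uniformOfFintype Bool).toMeasure)

lemma piece (N : ℕ) (f : Fin N → Bool) :
    μ {c | ∀ n : Fin N, c (φ n true) = f n ∧ c (φ n false) = !f n} ≤ (2⁻¹ : ENNReal) ^ (2 * N) := by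
  let ψ : Fin N × Bool → I := fun p => φ p.1 p.2
  have hψ : Function.Injective ψ := by
    intro p q h
    obtain ⟨h1, h2⟩ := φ_inj h
    exact Prod.ext (Fin.ext h1) h2
  let t : I → Set Bool := fun i => {b | ∀ p, ψ p = i → b = (if p.2 then f p.1 else !f p.1)}
  have h1 : {c : I → Bool | ∀ n : Fin N, c (φ n true) = f n ∧ c (φ n false) = !f n} ⊆
      Set.pi (Finset.univ.image ψ : Finset I) t := by
    intro c hc i _ p hp
    subst hp
    obtain ⟨n, ε⟩ := p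
    cases ε
    · exact (hc n).2
    · exact (hc n).1
  refine (measure_mono h1).trans ?_
  rw [Measure.infinitePi_pi _ (fun _ _ => MeasurableSet.of_discrete),
    Finset.prod_image (fun p _ q _ h => hψ h)]
  have h2 : ∀ p, (PMF.uniformOfFintype Bool).toMeasure (t (ψ p)) = 2⁻¹ := by
    intro p
    have : t (ψ p) = {if p.2 then f p.1 else !f p.1} := by
      ext b
      constructor
      · intro h; exact h p rfl
      · intro h q hq
        rw [hψ hq]; exact h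
    rw [this, PMF.toMeasure_apply_singleton _ _ (MeasurableSet.singleton _)]
    simp
  rw [Finset.prod_congr rfl (fun p _ => h2 p)]
  simp [mul_comm]

lemma null : μ {c | Nonempty (rg c ≃g R)} = 0 := by
  have hN : ∀ N : ℕ, μ {c | Nonempty (rg c ≃g R)} ≤ (2⁻¹ : ENNReal) ^ N := by
    intro N
    have h1 : {c | Nonempty (rg c ≃g R)} ⊆ ⋃ f : Fin N → Bool,
        {c | ∀ n : Fin N, c (φ n true) = f n ∧ c (φ n false) = !f n} := by
      intro c hc
      refine Set.mem_iUnion.2 ⟨fun n => c (φ n true), fun n => ⟨rfl, ?_⟩⟩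
      have := no_twin c hc n
      cases h1 : c (φ n true) <;> cases h2 : c (φ n false) <;> simp_all
    refine (measure_mono h1).trans ((measure_iUnion_fintype_le _ _).trans ?_)
    refine (Finset.sum_le_sum fun f _ => piece N f).trans ?_
    rw [Finset.sum_const, Finset.card_univ, Fintype.card_fun, Fintype.card_bool, Fintype.card_fin,
      nsmul_eq_mul, two_mul, pow_add, ← mul_assoc]
    push_cast
    rw [← mul_pow, ENNReal.mul_inv_cancel (by norm_num) (by norm_num), one_pow, one_mul]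
  exact le_antisymm (ge_of_tendsto' (ENNReal.tendsto_pow_atTop_nhds_zero_of_lt_one
    (by norm_num : (2⁻¹ : ENNReal) < 1)) hN) zero_le

theorem main :
    ¬ (∀ (Ω : Type) [Countable Ω] (G : Subgroup (Equiv.Perm Ω)),
    (∃ Γ : SimpleGraph Ω, (∀ g ∈ G, ∀ x y : Ω, Γ.Adj (g x) (g y) ↔ Γ.Adj x y) ∧
        Nonempty (Γ ≃g SimpleGraph.fromRel (fun i j : ℕ => Nat.testBit j i = true))) ↔
    (Measure.infinitePi
        (fun _ : {S : Set (Sym2 Ω) // ∃ e : Sym2 Ω, ¬ e.IsDiag ∧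
            S = {e' : Sym2 Ω | ∃ g ∈ G, Sym2.map (⇑g) e = e'}} =>
          (PMF.uniformOfFintype Bool).toMeasure))
      {c : {S : Set (Sym2 Ω) // ∃ e : Sym2 Ω, ¬ e.IsDiag ∧
            S = {e' : Sym2 Ω | ∃ g ∈ G, Sym2.map (⇑g) e = e'}} → Bool |
        Nonempty (SimpleGraph.fromRel
            (fun x y : Ω => ∃ S : {S : Set (Sym2 Ω) // ∃ e : Sym2 Ω, ¬ e.IsDiag ∧
                S = {e' : Sym2 Ω | ∃ g ∈ G, Sym2.map (⇑g) e = e'}},
              s(x, y) ∈ S.1 ∧ c S = true)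
          ≃g SimpleGraph.fromRel (fun i j : ℕ => Nat.testBit j i = true))} > 0) := by
  intro h
  have := (h ℕ GG).1 ⟨Γ, fun g hg => hg.1, iso_R⟩
  exact absurd null this.ne'

end Pool.Agent.H15.RG
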