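import Mathlib

set_option autoImplicit false
open Filter Topology Finset

namespace Pool.Agent.H15.RJ1

noncomputable def ee (x : ℝ) : ℂ := Complex.exp (Complex.I * (x : ℂ))

theorem ee_add (x y : ℝ) : ee (x + y) = ee x * ee y := by
  unfold ee
  rw [← Complex.exp_add]; congr 1; push_cast; ring

theorem norm_ee (x : ℝ) : ‖ee x‖ = 1 := by
  unfold ee
  rw [mul_comm]; exact Complex.norm_exp_ofReal_mul_I x

theorem ee_zero : ee 0 = 1 := by simp [ee]

theorem conj_ee (x : ℝ) : (starRingEnd ℂ) (ee x) = ee (-x) := by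
  unfold ee
  rw [← Complex.exp_conj]; congr 1; simp

theorem norm_ee_sub_one_ge (x : ℝ) (h0 : 0 ≤ x) (h1 : x ≤ 1) : x / 2 ≤ ‖ee x - 1‖ := by
  unfold ee
  rw [Complex.norm_exp_I_mul_ofReal_sub_one, Real.norm_eq_abs]
  refine le_trans ?_ (le_abs_self _)
  have hpi := Real.pi_gt_three
  have hpi2 := Real.pi_lt_four
  have h2 : 2 / Real.pi * (x / 2) ≤ Real.sin (x / 2) :=
    Real.mul_le_sin (by linarith) (by linarith)
  have h3 : 1 / 2 ≤ 2 / Real.pi := by
    rw [div_le_div_iff₀ (by norm_num) (by linarith)]; linarith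
  nlinarith

theorem norm_ee_sub_ee_le (x y : ℝ) : ‖ee x - ee y‖ ≤ |x - y| := by
  have : ee x - ee y = ee y * (ee (x - y) - 1) := by
    rw [mul_sub, ← ee_add, mul_one]; congr 2; ring
  rw [this, norm_mul, norm_ee, one_mul]
  unfold ee
  exact Real.norm_exp_I_mul_ofReal_sub_one_le

theorem fd (g : ℕ → ℝ) (B : ℕ) (δ η : ℝ) (hδ : 0 < δ)
    (h1 : ∀ b ≤ B, δ ≤ g (b + 1) - g b ∧ g (b + 1) - g b ≤ 1)
    (h2 : ∀ b < B, |(g (b + 2) - g (b + 1)) - (g (b + 1) - g b)| ≤ η) :
    ‖∑ b ∈ range B, ee (g b)‖ ≤ 4 / δ + B * (4 * η / δ ^ 2) := by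
  set c : ℕ → ℂ := fun b => (ee (g (b + 1) - g b) - 1)⁻¹ with hc
  have hlow : ∀ b ≤ B, δ / 2 ≤ ‖ee (g (b + 1) - g b) - 1‖ := by
    intro b hb
    have := norm_ee_sub_one_ge _ (hδ.le.trans (h1 b hb).1) (h1 b hb).2
    linarith [(h1 b hb).1]
  have hne : ∀ b ≤ B, ee (g (b + 1) - g b) - 1 ≠ 0 := by
    intro b hb h
    have := hlow b hb
    rw [h, norm_zero] at this
    linarith
  have hcn : ∀ b ≤ B, ‖c b‖ ≤ 2 / δ := by
    intro b hb
    simp only [hc, norm_inv]
    rw [inv_le_comm₀ (lt_of_lt_of_le (by linarith) (hlow b hb)) (by positivity), inv_div]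
    exact hlow b hb
  have hcd : ∀ b < B, ‖c b - c (b + 1)‖ ≤ 4 * η / δ ^ 2 := by
    intro b hb
    have e1 : c b - c (b + 1) = c b * c (b + 1) *
        (ee (g (b + 2) - g (b + 1)) - ee (g (b + 1) - g b)) := by
      have n1 := hne b hb.le
      have n2 := hne (b + 1) hb
      simp only [hc]
      field_simp
      ring
    rw [e1, norm_mul, norm_mul]
    have a1 := hcn b hb.le
    have a2 := hcn (b + 1) hb
    have a3 := (norm_ee_sub_ee_le _ _).trans (h2 b hb)
    calc ‖c b‖ * ‖c (b + 1)‖ * ‖ee (g (b + 2) - g (b + 1)) - ee (g (b + 1) - g b)‖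
        ≤ (2 / δ) * (2 / δ) * η := by gcongr
      _ = 4 * η / δ ^ 2 := by field_simp; ring
  have key : ∀ n ≤ B, ‖∑ b ∈ range n, ee (g b) - c n * ee (g n) + c 0 * ee (g 0)‖
      ≤ n * (4 * η / δ ^ 2) := by
    intro n
    induction n with
    | zero => intro _; simp
    | succ n ih =>
      intro hn
      have ih' := ih (by omega)
      have e2 : ∑ b ∈ range (n + 1), ee (g b) - c (n + 1) * ee (g (n + 1)) + c 0 * ee (g 0)
          = (∑ b ∈ range n, ee (g b) - c n * ee (g n) + c 0 * ee (g 0))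
            + (c n - c (n + 1)) * ee (g (n + 1)) := by
        rw [sum_range_succ]
        have e3 : ee (g (n + 1)) = ee (g (n + 1) - g n) * ee (g n) := by
          rw [← ee_add]; congr 1; ring
        have e4 : ee (g n) + c n * ee (g n) = c n * ee (g (n + 1)) := by
          rw [e3]
          have n1 := hne n (by omega)
          simp only [hc]
          field_simp
          ring
        linear_combination e4
      rw [e2]
      refine (norm_add_le _ _).trans ?_
      rw [norm_mul, norm_ee, mul_one]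
      have := hcd n (by omega)
      push_cast
      linarith
  have k := key B le_rfl
  have e5 : ∑ b ∈ range B, ee (g b) = (∑ b ∈ range B, ee (g b) - c B * ee (g B) + c 0 * ee (g 0))
      + c B * ee (g B) - c 0 * ee (g 0) := by ring
  rw [e5]
  refine (norm_sub_le _ _).trans ?_
  have := norm_add_le (∑ b ∈ range B, ee (g b) - c B * ee (g B) + c 0 * ee (g 0)) (c B * ee (g B))
  rw [norm_mul, norm_ee, mul_one] at this ⊢
  have a1 := hcn B le_rfl
  have a2 := hcn 0 (Nat.zero_le _)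
  have : 4 / δ = 2 / δ + 2 / δ := by ring
  linarith

theorem mvt (f f' : ℝ → ℝ) (x s m M : ℝ) (hs : 0 ≤ s)
    (hd : ∀ y ∈ Set.Icc x (x + s), HasDerivAt f (f' y) y)
    (hb : ∀ y ∈ Set.Icc x (x + s), m ≤ f' y ∧ f' y ≤ M) :
    m * s ≤ f (x + s) - f x ∧ f (x + s) - f x ≤ M * s := by
  rcases hs.eq_or_lt with h | h
  · subst h; simp
  · have hc : ContinuousOn f (Set.Icc x (x + s)) := fun y hy =>
      (hd y hy).continuousAt.continuousWithinAt
    obtain ⟨c, hc1, hc2⟩ := exists_hasDerivAt_eq_slope f f' (by linarith : x < x + s) hc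
      (fun y hy => hd y (Set.Ioo_subset_Icc_self hy))
    have hb' := hb c (Set.Ioo_subset_Icc_self hc1)
    rw [hc2, add_sub_cancel_left] at hb'
    constructor
    · rw [← le_div_iff₀ h]; exact hb'.1
    · rw [← div_le_iff₀ h]; exact hb'.2

noncomputable def T1 (y : ℝ) : ℝ := 1 + Real.tan y ^ 2
noncomputable def T2 (y : ℝ) : ℝ := 2 * Real.tan y * (1 + Real.tan y ^ 2)
noncomputable def T3 (y : ℝ) : ℝ := (2 + 6 * Real.tan y ^ 2) * (1 + Real.tan y ^ 2)

theorem cos_ne (y : ℝ) (h0 : 1 / 4 ≤ y) (h1 : y ≤ 3 / 4) : Real.cos y ≠ 0 := by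
  have hpi := Real.pi_gt_three
  exact (Real.cos_pos_of_mem_Ioo ⟨by linarith, by linarith⟩).ne'

theorem tan_bd (y : ℝ) (h0 : 1 / 4 ≤ y) (h1 : y ≤ 3 / 4) :
    1 / 4 ≤ Real.tan y ∧ Real.tan y ≤ 1 := by
  have hpi := Real.pi_gt_three
  constructor
  · exact h0.trans (Real.le_tan (by linarith) (by linarith))
  · rw [← Real.tan_pi_div_four]
    exact (Real.tan_lt_tan_of_nonneg_of_lt_pi_div_two (by linarith) (by linarith)
      (by linarith)).le

theorem d0 (y : ℝ) (h0 : 1 / 4 ≤ y) (h1 : y ≤ 3 / 4) : HasDerivAt Real.tan (T1 y) y := by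
  have h := Real.hasDerivAt_tan (cos_ne y h0 h1)
  convert h using 1
  unfold T1
  rw [← Real.inv_one_add_tan_sq (cos_ne y h0 h1)]
  simp

theorem d1 (y : ℝ) (h0 : 1 / 4 ≤ y) (h1 : y ≤ 3 / 4) : HasDerivAt T1 (T2 y) y := by
  have h := ((d0 y h0 h1).pow 2).const_add 1
  refine HasDerivAt.congr_deriv h ?_
  unfold T2 T1
  simp

theorem d2 (y : ℝ) (h0 : 1 / 4 ≤ y) (h1 : y ≤ 3 / 4) : HasDerivAt T2 (T3 y) y := by
  have h := ((d0 y h0 h1).const_mul 2).mul (d1 y h0 h1)
  refine HasDerivAt.congr_deriv h ?_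
  unfold T3 T2 T1
  ring

theorem T2_bd (y : ℝ) (h0 : 1 / 4 ≤ y) (h1 : y ≤ 3 / 4) : 1 / 2 ≤ T2 y ∧ T2 y ≤ 4 := by
  obtain ⟨a, b⟩ := tan_bd y h0 h1
  unfold T2
  constructor <;> nlinarith [sq_nonneg (Real.tan y), mul_nonneg (by linarith : 0 ≤ Real.tan y) (sq_nonneg (Real.tan y)), pow_le_one₀ (by linarith : 0 ≤ Real.tan y) b (n := 3)]

theorem T3_bd (y : ℝ) (h0 : 1 / 4 ≤ y) (h1 : y ≤ 3 / 4) : 0 ≤ T3 y ∧ T3 y ≤ 16 := by
  obtain ⟨a, b⟩ := tan_bd y h0 h1
  have c : Real.tan y ^ 2 ≤ 1 := pow_le_one₀ (by linarith) b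
  unfold T3
  constructor
  · positivity
  · nlinarith [sq_nonneg (Real.tan y)]

/-- second mixed difference -/
theorem diff2 (x r s : ℝ) (hr : 0 ≤ r) (hs : 0 ≤ s) (h0 : 1 / 4 ≤ x) (h1 : x + r + s ≤ 3 / 4) :
    (1 / 2 * r) * s ≤ (Real.tan (x + s + r) - Real.tan (x + s)) - (Real.tan (x + r) - Real.tan x) ∧
    (Real.tan (x + s + r) - Real.tan (x + s)) - (Real.tan (x + r) - Real.tan x) ≤ (4 * r) * s := by
  apply mvt (fun y => Real.tan (y + r) - Real.tan y) (fun y => T1 (y + r) - T1 y) x s _ _ hs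
  · intro y hy
    exact ((d0 (y + r) (by linarith [hy.1]) (by linarith [hy.2])).comp_add_const y r).sub
      (d0 y (by linarith [hy.1]) (by linarith [hy.2]))
  · intro y hy
    apply mvt T1 T2 y r _ _ hr
    · intro z hz
      exact d1 z (by linarith [hy.1, hz.1]) (by linarith [hy.2, hz.2])
    · intro z hz
      exact T2_bd z (by linarith [hy.1, hz.1]) (by linarith [hy.2, hz.2])

/-- third mixed difference -/
theorem diff3 (x r s : ℝ) (hr : 0 ≤ r) (hs : 0 ≤ s) (h0 : 1 / 4 ≤ x) (h1 : x + r + 2 * s ≤ 3 / 4) :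
    0 ≤ ((Real.tan (x + s + s + r) - Real.tan (x + s + s)) - (Real.tan (x + s + r) - Real.tan (x + s)))
      - ((Real.tan (x + s + r) - Real.tan (x + s)) - (Real.tan (x + r) - Real.tan x)) ∧
    ((Real.tan (x + s + s + r) - Real.tan (x + s + s)) - (Real.tan (x + s + r) - Real.tan (x + s)))
      - ((Real.tan (x + s + r) - Real.tan (x + s)) - (Real.tan (x + r) - Real.tan x))
      ≤ ((16 * r) * s) * s := by
  have := mvt (fun y => (Real.tan (y + s + r) - Real.tan (y + s)) - (Real.tan (y + r) - Real.tan y))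
    (fun y => (T1 (y + s + r) - T1 (y + s)) - (T1 (y + r) - T1 y)) x s ((0 * r) * s) ((16 * r) * s) hs
    ?_ ?_
  · simpa using this
  · intro y hy
    have a1 := ((d0 (y + s + r) (by linarith [hy.1]) (by linarith [hy.2])).comp_add_const
      (y + s) r).comp_add_const y s
    have a2 := (d0 (y + s) (by linarith [hy.1]) (by linarith [hy.2])).comp_add_const y s
    have a3 := (d0 (y + r) (by linarith [hy.1]) (by linarith [hy.2])).comp_add_const y r
    have a4 := d0 y (by linarith [hy.1]) (by linarith [hy.2])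
    exact (a1.sub a2).sub (a3.sub a4)
  · intro y hy
    apply mvt (fun z => T1 (z + r) - T1 z) (fun z => T2 (z + r) - T2 z) y s _ _ hs
    · intro z hz
      exact ((d1 (z + r) (by linarith [hy.1, hz.1]) (by linarith [hy.2, hz.2])).comp_add_const
        z r).sub (d1 z (by linarith [hy.1, hz.1]) (by linarith [hy.2, hz.2]))
    · intro z hz
      apply mvt T2 T3 z r _ _ hr
      · intro u hu
        exact d2 u (by linarith [hy.1, hz.1, hu.1]) (by linarith [hy.2, hz.2, hu.2])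
      · intro u hu
        exact T3_bd u (by linarith [hy.1, hz.1, hu.1]) (by linarith [hy.2, hz.2, hu.2])

end Pool.Agent.H15.RJ1
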