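import Mathlib
import Pool.Agent.H15.RJ1

set_option autoImplicit false
open Filter Topology Finset

namespace Pool.Agent.H15.RJ2
open Pool.Agent.H15.RJ1

theorem offdiag (t α w v : ℝ) (A B a a' : ℕ) (ht : 0 < t) (hw : 0 < w) (hv : 0 < v)
    (hB : 0 < B) (h0 : 1 / 4 ≤ α) (h1 : α + A * w + (B + 2) * v ≤ 3 / 4)
    (hs : 4 * t * A * w * v ≤ 1) (ha : a < A) (haa : a' < a) :
    ‖∑ b ∈ range B, ee (t * Real.tan (α + a * w + b * v) - t * Real.tan (α + a' * w + b * v))‖
      ≤ B * (8 / (t * w * v * B) + 256 * A / (t * w)) := by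
  set r : ℝ := ((a : ℝ) - a') * w with hr
  have ha1 : (a' : ℝ) + 1 ≤ a := by exact_mod_cast haa
  have ha2 : (a : ℝ) + 1 ≤ A := by exact_mod_cast ha
  have ha3 : (0 : ℝ) ≤ a' := Nat.cast_nonneg _
  have hr1 : w ≤ r := by rw [hr]; nlinarith
  have hr2 : r ≤ A * w := by rw [hr]; nlinarith
  have hr0 : 0 ≤ r := by linarith
  have hBp : (0 : ℝ) < B := by exact_mod_cast hB
  set g : ℕ → ℝ := fun b => t * (Real.tan (α + a' * w + b * v + r) - Real.tan (α + a' * w + b * v))
    with hg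
  have e1 : ∀ b : ℕ, t * Real.tan (α + a * w + b * v) - t * Real.tan (α + a' * w + b * v) = g b := by
    intro b
    simp only [hg]
    have : α + a' * w + b * v + r = α + a * w + b * v := by rw [hr]; ring
    rw [this]; ring
  simp only [e1]
  have hx : ∀ b : ℕ, b ≤ B → 1 / 4 ≤ α + a' * w + b * v ∧
      α + a' * w + b * v + r + 2 * v ≤ 3 / 4 := by
    intro b hb
    have hb' : (b : ℝ) ≤ B := by exact_mod_cast hb
    have hb0 : (0 : ℝ) ≤ b := Nat.cast_nonneg _
    constructor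
    · nlinarith [mul_nonneg ha3 hw.le, mul_nonneg hb0 hv.le]
    · rw [hr]; nlinarith [mul_le_mul_of_nonneg_right hb' hv.le]
  have := fd g B (t * w * v / 2) (16 * t * A * w * v ^ 2) (by positivity) ?_ ?_
  · refine this.trans (le_of_eq ?_)
    field_simp
    ring
  · intro b hb
    obtain ⟨x1, x2⟩ := hx b hb
    obtain ⟨d1, d2⟩ := diff2 (α + a' * w + b * v) r v hr0 hv.le x1 (by linarith)
    have e2 : g (b + 1) - g b = t * ((Real.tan (α + a' * w + b * v + v + r)
        - Real.tan (α + a' * w + b * v + v)) - (Real.tan (α + a' * w + b * v + r)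
        - Real.tan (α + a' * w + b * v))) := by
      simp only [hg]
      have : α + a' * w + ((b + 1 : ℕ) : ℝ) * v = α + a' * w + b * v + v := by push_cast; ring
      rw [this]; ring
    rw [e2]
    constructor
    · have : t * w * v / 2 ≤ t * (1 / 2 * r * v) := by
        nlinarith [mul_le_mul_of_nonneg_right hr1 (mul_pos ht hv).le]
      exact this.trans (mul_le_mul_of_nonneg_left d1 ht.le)
    · refine (mul_le_mul_of_nonneg_left d2 ht.le).trans ?_
      nlinarith [mul_le_mul_of_nonneg_right hr2 (mul_pos ht hv).le]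
  · intro b hb
    obtain ⟨x1, x2⟩ := hx b hb.le
    obtain ⟨d1, d2⟩ := diff3 (α + a' * w + b * v) r v hr0 hv.le x1 x2
    have e2 : (g (b + 2) - g (b + 1)) - (g (b + 1) - g b) = t * (((Real.tan (α + a' * w + b * v + v + v + r)
        - Real.tan (α + a' * w + b * v + v + v)) - (Real.tan (α + a' * w + b * v + v + r)
        - Real.tan (α + a' * w + b * v + v))) - ((Real.tan (α + a' * w + b * v + v + r)
        - Real.tan (α + a' * w + b * v + v)) - (Real.tan (α + a' * w + b * v + r)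
        - Real.tan (α + a' * w + b * v)))) := by
      simp only [hg]
      have h1 : α + a' * w + ((b + 1 : ℕ) : ℝ) * v = α + a' * w + b * v + v := by push_cast; ring
      have h2 : α + a' * w + ((b + 2 : ℕ) : ℝ) * v = α + a' * w + b * v + v + v := by
        push_cast; ring
      rw [h1, h2]; ring
    rw [e2, abs_of_nonneg (mul_nonneg ht.le d1)]
    refine (mul_le_mul_of_nonneg_left d2 ht.le).trans ?_
    nlinarith [mul_le_mul_of_nonneg_right hr2 (mul_pos ht (pow_pos hv 2)).le]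

theorem weyl_gen (z : ℕ → ℕ → ℝ) (A B : ℕ) (κ : ℝ) (hκ : 0 ≤ κ)
    (h : ∀ a < A, ∀ a' < a, ‖∑ b ∈ range B, ee (z a b - z a' b)‖ ≤ B * κ) :
    ‖∑ a ∈ range A, ∑ b ∈ range B, ee (z a b)‖ ^ 2 ≤ B * (A * B + A * (A * (B * κ))) := by
  rw [sum_comm]
  have h1 : ‖∑ b ∈ range B, ∑ a ∈ range A, ee (z a b)‖ ^ 2
      ≤ B * ∑ b ∈ range B, ‖∑ a ∈ range A, ee (z a b)‖ ^ 2 := by
    calc _ ≤ (∑ b ∈ range B, ‖∑ a ∈ range A, ee (z a b)‖) ^ 2 :=
          pow_le_pow_left₀ (norm_nonneg _) (norm_sum_le _ _) 2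
      _ ≤ _ := by
          have := sq_sum_le_card_mul_sum_sq (s := range B)
            (f := fun b => ‖∑ a ∈ range A, ee (z a b)‖)
          rwa [card_range] at this
  refine h1.trans (mul_le_mul_of_nonneg_left ?_ (Nat.cast_nonneg _))
  have h2 : ((∑ b ∈ range B, ‖∑ a ∈ range A, ee (z a b)‖ ^ 2 : ℝ) : ℂ)
      = ∑ a ∈ range A, ∑ a' ∈ range A, ∑ b ∈ range B, ee (z a b - z a' b) := by
    push_cast
    have : ∀ b, ((‖∑ a ∈ range A, ee (z a b)‖ : ℝ) : ℂ) ^ 2
        = ∑ a ∈ range A, ∑ a' ∈ range A, ee (z a b - z a' b) := by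
      intro b
      rw [← Complex.mul_conj', map_sum, sum_mul_sum]
      refine sum_congr rfl fun a _ => sum_congr rfl fun a' _ => ?_
      rw [conj_ee, ← ee_add]; rfl
    simp only [this]
    rw [sum_comm]
    refine sum_congr rfl fun a _ => ?_
    rw [sum_comm]
  have h3 : ∑ b ∈ range B, ‖∑ a ∈ range A, ee (z a b)‖ ^ 2
      ≤ ‖∑ a ∈ range A, ∑ a' ∈ range A, ∑ b ∈ range B, ee (z a b - z a' b)‖ := by
    rw [← h2, Complex.norm_real]
    exact le_abs_self _
  refine h3.trans ((norm_sum_le _ _).trans ?_)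
  have h4 : ∀ a ∈ range A, ‖∑ a' ∈ range A, ∑ b ∈ range B, ee (z a b - z a' b)‖
      ≤ B + A * (B * κ) := by
    intro a ha
    refine (norm_sum_le _ _).trans ?_
    have h5 : ∀ a' ∈ range A, ‖∑ b ∈ range B, ee (z a b - z a' b)‖
        ≤ (if a' = a then (B : ℝ) else 0) + B * κ := by
      intro a' ha'
      have hBκ : (0 : ℝ) ≤ B * κ := by positivity
      rcases lt_trichotomy a' a with hl | he | hl
      · rw [if_neg hl.ne, zero_add]
        exact h a (mem_range.mp ha) a' hl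
      · subst he
        simp [ee_zero, hBκ]
      · rw [if_neg hl.ne', zero_add]
        have := h a' (mem_range.mp ha') a hl
        rw [← Complex.norm_conj, map_sum] at this
        simp only [conj_ee, neg_sub] at this
        exact this
    refine (sum_le_sum h5).trans ?_
    rw [sum_add_distrib, sum_ite_eq', if_pos ha]
    simp
  refine (sum_le_sum h4).trans (le_of_eq ?_)
  simp only [sum_const, card_range, nsmul_eq_mul]
  ring

theorem weyl (t α w v : ℝ) (A B : ℕ) (ht : 0 < t) (hw : 0 < w) (hv : 0 < v)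
    (hA : 0 < A) (hB : 0 < B) (h0 : 1 / 4 ≤ α) (h1 : α + A * w + (B + 2) * v ≤ 3 / 4)
    (hs : 4 * t * A * w * v ≤ 1) (ε : ℝ) (hε : 0 ≤ ε)
    (hb : 1 / (A : ℝ) + 8 / (t * w * v * B) + 256 * A / (t * w) ≤ ε ^ 2) :
    ‖∑ a ∈ range A, ∑ b ∈ range B, ee (t * Real.tan (α + a * w + b * v))‖ ≤ A * B * ε := by
  have hAp : (0 : ℝ) < A := by exact_mod_cast hA
  have hBp : (0 : ℝ) < B := by exact_mod_cast hB
  have := weyl_gen (fun a b => t * Real.tan (α + a * w + b * v)) A B
    (8 / (t * w * v * B) + 256 * A / (t * w)) (by positivity)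
    (fun a ha a' haa => offdiag t α w v A B a a' ht hw hv hB h0 h1 hs ha haa)
  refine (pow_le_pow_iff_left₀ (norm_nonneg _) (by positivity) two_ne_zero).mp (this.trans ?_)
  have e : (B : ℝ) * (A * B + A * (A * (B * (8 / (t * w * v * B) + 256 * A / (t * w)))))
      = (A * B) ^ 2 * (1 / (A : ℝ) + 8 / (t * w * v * B) + 256 * A / (t * w)) := by
    field_simp
    ring
  rw [e, mul_pow ((A : ℝ) * B)]
  exact mul_le_mul_of_nonneg_left hb (by positivity)

end Pool.Agent.H15.RJ2
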