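import Mathlib
import Pool.Agent.H15.RJ2

set_option autoImplicit false
open Filter Topology Finset

namespace Pool.Agent.H15.RJ3

def MM (l : ℕ) : ℕ := 16 ^ (l + 2) * (l + 1).factorial

noncomputable def ww (l : ℕ) : ℝ := Real.pi / MM l

theorem MM_pos (l : ℕ) : 0 < MM l := by unfold MM; positivity

theorem MM_succ (l : ℕ) : MM (l + 1) = MM l * (16 * (l + 2)) := by
  unfold MM
  rw [Nat.factorial_succ (l + 1)]
  ring

theorem ww_pos (l : ℕ) : 0 < ww l := by
  unfold ww
  have := MM_pos l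
  have := Real.pi_pos
  positivity

theorem ww_succ (l : ℕ) : ww (l + 1) * ((l : ℝ) + 2) = ww l / 16 := by
  unfold ww
  rw [MM_succ]
  have : (0 : ℝ) < MM l := by exact_mod_cast MM_pos l
  push_cast
  field_simp

theorem ww_succ_le (l : ℕ) : ww (l + 1) ≤ ww l / 16 := by
  rw [← ww_succ]
  have := ww_pos (l + 1)
  have : (0 : ℝ) ≤ l := Nat.cast_nonneg _
  nlinarith

theorem ww_anti : Antitone ww := by
  apply antitone_nat_of_succ_le
  intro n
  have := ww_succ_le n
  have := ww_pos n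
  linarith

theorem ww_add_le (j i : ℕ) : ww (j + i) ≤ ww j * (1 / 16) ^ i := by
  induction i with
  | zero => simp
  | succ i ih =>
    have := ww_succ_le (j + i)
    rw [pow_succ, ← add_assoc]
    linarith

theorem ww_zero_le : ww 0 ≤ 1 / 64 := by
  unfold ww MM
  have := Real.pi_lt_four
  norm_num
  linarith

theorem ww_mul_le (l : ℕ) : ww l * ((l : ℝ) + 1) ≤ 1 / 64 * (1 / 16) ^ l := by
  cases l with
  | zero => simpa using ww_zero_le
  | succ m =>
    have h1 := ww_succ m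
    have h2 := ww_add_le 0 m
    have h3 := ww_zero_le
    have h4 : (0 : ℝ) < (1 / 16) ^ m := by positivity
    rw [zero_add] at h2
    push_cast
    rw [pow_succ]
    have : ((m : ℝ) + 1 + 1) = m + 2 := by ring
    rw [this, h1]
    nlinarith

theorem ww_mul_le' (l : ℕ) : ww l * ((l : ℝ) + 1) ≤ 1 / 64 := by
  have := ww_mul_le l
  have h : (1 / 16 : ℝ) ^ l ≤ 1 := pow_le_one₀ (by norm_num) (by norm_num)
  linarith

theorem ww_mul_tendsto : Tendsto (fun l : ℕ => ww l * ((l : ℝ) + 1)) atTop (𝓝 0) := by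
  have h : Tendsto (fun l : ℕ => 1 / 64 * (1 / 16 : ℝ) ^ l) atTop (𝓝 (1 / 64 * 0)) :=
    (tendsto_pow_atTop_nhds_zero_of_lt_one (by norm_num) (by norm_num)).const_mul _
  rw [mul_zero] at h
  refine squeeze_zero (fun l => ?_) ww_mul_le h
  have := ww_pos l
  positivity

theorem ww_tendsto : Tendsto ww atTop (𝓝 0) := by
  refine squeeze_zero (fun l => (ww_pos l).le) (fun l => ?_) ww_mul_tendsto
  have := ww_pos l
  have : (0 : ℝ) ≤ l := Nat.cast_nonneg _
  nlinarith

theorem select (ε : ℝ) (hε : 0 < ε) (K : ℕ) : ∃ t0 : ℝ, 0 < t0 ∧ ∀ t ≥ t0, ∃ i l : ℕ,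
    K ≤ i ∧ K ≤ l ∧ i ≠ l ∧ 4 * t * ((i + 1 : ℕ) : ℝ) * ww i * ww l ≤ 1 ∧
    1 / ((i + 1 : ℕ) : ℝ) + 8 / (t * ww i * ww l * ((l + 1 : ℕ) : ℝ))
      + 256 * ((i + 1 : ℕ) : ℝ) / (t * ww i) ≤ ε ^ 2 := by
  set e : ℝ := ε ^ 2 / 3 with he
  have he0 : 0 < e := by positivity
  obtain ⟨j0, hj0⟩ := exists_nat_one_div_lt he0
  set j := max j0 K with hj
  have hjj : ∀ i, j ≤ i → 1 / ((i + 1 : ℕ) : ℝ) ≤ e := by
    intro i hi
    refine le_trans ?_ hj0.le
    have : (j0 : ℝ) ≤ i := by exact_mod_cast (le_max_left _ _).trans hi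
    push_cast
    apply one_div_le_one_div_of_le (by positivity)
    linarith
  set S : ℕ → ℝ := fun i => 1 / (4 * ((i : ℝ) + 1) * ww i) with hS
  have hSpos : ∀ i, 0 < S i := fun i => by have := ww_pos i; simp only [hS]; positivity
  have hwj := ww_pos j
  have h1 : ∀ᶠ i : ℕ in atTop, ww i * ((i : ℝ) + 1) < ww j * e / 512 :=
    ww_mul_tendsto.eventually (gt_mem_nhds (by positivity))
  obtain ⟨j', hj'1, hj'2⟩ := (h1.and (eventually_gt_atTop j)).exists
  have hwj' := ww_pos j'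
  have hG1 : 8 / e ≤ ww j * S j' / 16 := by
    simp only [hS]
    rw [div_le_div_iff₀ he0 (by norm_num), mul_one_div, div_mul_eq_mul_div,
      le_div_iff₀ (by positivity)]
    nlinarith
  obtain ⟨L1, hL1⟩ := exists_nat_ge (8 / e / (ww j' * S j))
  set L0 := max L1 j' with hL0
  have hG2 : ∀ l, L0 ≤ l → 8 / e ≤ ww j' * S j * ((l : ℝ) + 1) := by
    intro l hl
    have : (L1 : ℝ) ≤ l := by exact_mod_cast (le_max_left _ _).trans hl
    have hp := mul_pos hwj' (hSpos j)
    rw [div_le_iff₀ hp] at hL1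
    nlinarith
  have hwL := ww_pos L0
  refine ⟨max (S j' / ww L0 + 1) (max (256 * ((j : ℝ) + 1) / (e * ww j))
    (256 * ((j' : ℝ) + 1) / (e * ww j'))), lt_max_of_lt_left (by have := hSpos j'; positivity), ?_⟩
  intro t ht
  have ht1 : S j' / ww L0 + 1 ≤ t := (le_max_left _ _).trans ht
  have ht2 : 256 * ((j : ℝ) + 1) / (e * ww j) ≤ t := ((le_max_left _ _).trans (le_max_right _ _)).trans ht
  have ht3 : 256 * ((j' : ℝ) + 1) / (e * ww j') ≤ t :=
    ((le_max_right _ _).trans (le_max_right _ _)).trans ht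
  have ht0 : 0 < t := lt_of_lt_of_le (by have := hSpos j'; positivity) ht1
  have hex : ∃ l, t * ww l ≤ S j' := by
    have : Tendsto (fun l => t * ww l) atTop (𝓝 (t * 0)) := ww_tendsto.const_mul t
    rw [mul_zero] at this
    exact (this.eventually (ge_mem_nhds (hSpos j'))).exists
  classical
  set l := Nat.find hex with hl
  have hl1 : t * ww l ≤ S j' := Nat.find_spec hex
  have hl2 : L0 < l := by
    by_contra hcon
    have h2 : ww L0 ≤ ww l := ww_anti (not_lt.mp hcon)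
    have h3 : S j' / ww L0 < t := by linarith
    rw [div_lt_iff₀ hwL] at h3
    nlinarith
  obtain ⟨m, hm⟩ : ∃ m, l = m + 1 := ⟨l - 1, by omega⟩
  have hl3 : S j' < t * ww m := by
    have := Nat.find_min hex (m := m) (by omega)
    exact not_le.mp this
  have hwl := ww_pos l
  have hjL : j' ≤ L0 := le_max_right _ _
  have hKj : K ≤ j := le_max_right _ _
  have fin : ∀ i : ℕ, j ≤ i → 256 * ((i : ℝ) + 1) / (e * ww i) ≤ t →
      8 / e ≤ t * ww i * ww l * ((l : ℝ) + 1) →
      1 / ((i + 1 : ℕ) : ℝ) + 8 / (t * ww i * ww l * ((l + 1 : ℕ) : ℝ))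
      + 256 * ((i + 1 : ℕ) : ℝ) / (t * ww i) ≤ ε ^ 2 := by
    intro i hi a1 a2
    have hwi := ww_pos i
    have b1 := hjj i hi
    have b2 : 8 / (t * ww i * ww l * ((l + 1 : ℕ) : ℝ)) ≤ e := by
      push_cast
      rw [div_le_iff₀ (by positivity)]
      rw [div_le_iff₀ he0] at a2
      linarith
    have b3 : 256 * ((i + 1 : ℕ) : ℝ) / (t * ww i) ≤ e := by
      push_cast
      rw [div_le_iff₀ (by positivity)]
      rw [div_le_iff₀ (by positivity)] at a1
      linarith
    linarith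
  have up : ∀ i : ℕ, t * ww l ≤ S i → 4 * t * ((i + 1 : ℕ) : ℝ) * ww i * ww l ≤ 1 := by
    intro i hi
    have hwi := ww_pos i
    simp only [hS] at hi
    rw [le_div_iff₀ (by positivity)] at hi
    push_cast
    linarith
  by_cases hc : t * ww l ≤ S j
  · refine ⟨j, l, hKj, by omega, by omega, up j hc, fin j le_rfl ht2 ?_⟩
    have e1 : ww l * ((l : ℝ) + 1) = ww m / 16 := by
      rw [hm, ← ww_succ]; push_cast; ring
    have : t * ww j * ww l * ((l : ℝ) + 1) = ww j * (t * ww m) / 16 := by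
      rw [mul_assoc (t * ww j), e1]; ring
    rw [this]
    refine hG1.trans ?_
    gcongr
  · refine ⟨j', l, by omega, by omega, by omega, up j' hl1, fin j' hj'2.le ht3 ?_⟩
    refine (hG2 l hl2.le).trans ?_
    have : t * ww j' * ww l * ((l : ℝ) + 1) = ww j' * (t * ww l) * ((l : ℝ) + 1) := by ring
    rw [this]
    gcongr
    exact (not_le.mp hc).le

end Pool.Agent.H15.RJ3
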