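import Mathlib
import Pool.Agent.H15.RJ3

set_option autoImplicit false
open Filter Topology Finset MeasureTheory

namespace Pool.Agent.H15.RJ4
open Pool.Agent.H15.RJ1 Pool.Agent.H15.RJ2 Pool.Agent.H15.RJ3

abbrev OO : Type := (l : ℕ) → ZMod (l + 1)

noncomputable def mu : Measure OO := Measure.addHaarMeasure ⊤

instance : IsProbabilityMeasure mu := ⟨by
  have := Measure.addHaarMeasure_self (G := OO) (K₀ := ⊤)
  simpa [mu] using this⟩

instance : mu.IsAddLeftInvariant := by unfold mu; infer_instance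

noncomputable def tm (ω : OO) (l : ℕ) : ℝ := ww l * ((ω l).val : ℝ)

noncomputable def yy (ω : OO) : ℝ := 1 / 4 + ∑' l, tm ω l

theorem tm_nonneg (ω : OO) (l : ℕ) : 0 ≤ tm ω l := by
  unfold tm; have := ww_pos l; positivity

theorem tm_le0 (ω : OO) (l : ℕ) : tm ω l ≤ ww l * ((l : ℝ) + 1) := by
  unfold tm
  have h : ((ω l).val : ℝ) ≤ (l : ℝ) + 1 := by exact_mod_cast (ZMod.val_lt (ω l)).le
  exact mul_le_mul_of_nonneg_left h (ww_pos l).le

theorem tm_le (ω : OO) (l : ℕ) : tm ω l ≤ 1 / 64 * (1 / 16) ^ l :=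
  (tm_le0 ω l).trans (ww_mul_le l)

theorem geo_hasSum : HasSum (fun l : ℕ => (1 / 16 : ℝ) ^ l) (16 / 15) := by
  have := hasSum_geometric_of_lt_one (r := (1 / 16 : ℝ)) (by norm_num) (by norm_num)
  convert this using 1
  norm_num

theorem tm_summable (ω : OO) : Summable (tm ω) :=
  Summable.of_nonneg_of_le (tm_nonneg ω) (tm_le ω) (geo_hasSum.summable.mul_left _)

theorem yy_ge (ω : OO) : 1 / 4 ≤ yy ω := by
  unfold yy
  have : 0 ≤ ∑' l, tm ω l := tsum_nonneg (tm_nonneg ω)
  linarith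

theorem yy_le (ω : OO) : yy ω ≤ 1 / 4 + 1 / 32 := by
  unfold yy
  have := hasSum_le (tm_le ω) (tm_summable ω).hasSum (geo_hasSum.mul_left (1 / 64))
  linarith

theorem yy_cont : Continuous yy := by
  unfold yy
  refine continuous_const.add (continuous_tsum (u := fun l => 1 / 64 * (1 / 16 : ℝ) ^ l) ?_
    (geo_hasSum.summable.mul_left _) ?_)
  · intro l
    unfold tm
    have : Continuous (fun d : ZMod (l + 1) => ww l * (d.val : ℝ)) := continuous_of_discreteTopology
    exact this.comp (continuous_apply l)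
  · intro l ω
    rw [Real.norm_eq_abs, abs_of_nonneg (tm_nonneg ω l)]
    exact tm_le ω l

theorem yy_update (ω : OO) (i : ℕ) (d : ZMod (i + 1)) :
    yy (Function.update ω i d) = yy ω - tm ω i + ww i * (d.val : ℝ) := by
  unfold yy
  have h1 := (tm_summable ω).hasSum.update i (ww i * (d.val : ℝ))
  have h2 : tm (Function.update ω i d) = Function.update (tm ω) i (ww i * (d.val : ℝ)) := by
    ext l
    by_cases h : l = i
    · subst h; simp [tm]
    · simp [tm, Function.update_of_ne h]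
  rw [h2, h1.tsum_eq]
  ring

theorem single_add (ω : OO) (i : ℕ) (s : ZMod (i + 1)) :
    Pi.single i s + ω = Function.update ω i (s + ω i) := by
  ext l
  by_cases h : l = i
  · subst h; simp
  · simp [Function.update_of_ne h, Pi.single_eq_of_ne h]

theorem yy_shift (ω : OO) (i l : ℕ) (hil : i ≠ l) (s : ZMod (i + 1)) (r : ZMod (l + 1)) :
    yy ((Pi.single i s + Pi.single l r) + ω) = (yy ω - tm ω i - tm ω l)
      + ((s + ω i).val : ℝ) * ww i + ((r + ω l).val : ℝ) * ww l := by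
  rw [add_assoc, single_add, single_add, yy_update, yy_update]
  simp only [tm, Function.update_of_ne hil]
  ring

theorem alpha_ge (ω : OO) (i l : ℕ) (hil : i ≠ l) : 1 / 4 ≤ yy ω - tm ω i - tm ω l := by
  have h := yy_shift ω i l hil (-ω i) (-ω l)
  simp only [neg_add_cancel, ZMod.val_zero, Nat.cast_zero, zero_mul, add_zero] at h
  rw [← h]
  exact yy_ge _

theorem sum_zmod (n : ℕ) (f : ℕ → ℂ) (c : ZMod (n + 1)) :
    ∑ s : ZMod (n + 1), f (s + c).val = ∑ a ∈ range (n + 1), f a := by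
  rw [← (Fin.sum_univ_eq_sum_range f (n + 1))]
  exact Equiv.sum_comp (Equiv.addRight c) (fun s : ZMod (n + 1) => f s.val)

theorem avg_small (ε : ℝ) (hε : 0 < ε) (K : ℕ) : ∃ t0 : ℝ, ∀ t ≥ t0, ∃ i l : ℕ,
    K ≤ i ∧ K ≤ l ∧ ∀ ω : OO, ‖∑ s : ZMod (i + 1), ∑ r : ZMod (l + 1),
      ee (t * Real.tan (yy ((Pi.single i s + Pi.single l r) + ω)))‖
        ≤ ((i + 1 : ℕ) : ℝ) * ((l + 1 : ℕ) : ℝ) * ε := by
  obtain ⟨t0, ht0, h⟩ := select ε hε K
  refine ⟨t0, fun t ht => ?_⟩
  obtain ⟨i, l, hi, hl, hil, h1, h2⟩ := h t ht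
  refine ⟨i, l, hi, hl, fun ω => ?_⟩
  simp only [yy_shift ω i l hil]
  set α := yy ω - tm ω i - tm ω l with hα
  have e1 : ∀ s : ZMod (i + 1), ∑ r : ZMod (l + 1),
      ee (t * Real.tan (α + ((s + ω i).val : ℝ) * ww i + ((r + ω l).val : ℝ) * ww l))
      = ∑ b ∈ range (l + 1), ee (t * Real.tan (α + ((s + ω i).val : ℝ) * ww i + (b : ℝ) * ww l)) :=
    fun s => sum_zmod l
      (fun b => ee (t * Real.tan (α + ((s + ω i).val : ℝ) * ww i + (b : ℝ) * ww l))) (ω l)
  simp only [e1]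
  rw [sum_zmod i (fun a => ∑ b ∈ range (l + 1),
    ee (t * Real.tan (α + (a : ℝ) * ww i + (b : ℝ) * ww l))) (ω i)]
  refine weyl t α (ww i) (ww l) (i + 1) (l + 1) (lt_of_lt_of_le ht0 ht) (ww_pos i) (ww_pos l)
    (Nat.succ_pos _) (Nat.succ_pos _) (alpha_ge ω i l hil) ?_ h1 ε hε.le h2
  have a1 := yy_le ω
  have a2 := tm_nonneg ω i
  have a3 := tm_nonneg ω l
  have a4 := ww_mul_le' i
  have a5 := ww_mul_le' l
  have a6 := ww_pos l
  have a7 : (0 : ℝ) ≤ l := Nat.cast_nonneg _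
  push_cast
  nlinarith [mul_nonneg a6.le a7]

theorem unif (h : C(OO, ℂ)) (ε : ℝ) (hε : 0 < ε) : ∃ K : ℕ, ∀ v : OO, (∀ k < K, v k = 0) →
    ∀ ω, ‖h (v + ω) - h ω‖ ≤ ε := by
  let F : C(OO × OO, ℂ) := ⟨fun p => h (p.1 + p.2) - h p.2, by fun_prop⟩
  have hc : Continuous (fun v => ‖F.curry v‖) := F.curry.continuous.norm
  have h0 : ‖F.curry 0‖ < ε := by
    have : F.curry 0 = 0 := by ext ω; simp [F]
    rw [this, norm_zero]; exact hε
  have hU : {v | ‖F.curry v‖ < ε} ∈ 𝓝 (0 : OO) :=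
    (isOpen_lt hc continuous_const).mem_nhds h0
  rw [nhds_pi, Filter.mem_pi] at hU
  obtain ⟨I, hI, t, ht, hsub⟩ := hU
  obtain ⟨K, hK⟩ := hI.bddAbove
  refine ⟨K + 1, fun v hv ω => ?_⟩
  have hv' : v ∈ I.pi t := by
    intro k hk
    rw [hv k (Nat.lt_succ_of_le (hK hk))]
    exact mem_of_mem_nhds (ht k)
  have := hsub hv'
  exact ((F.curry v).norm_coe_le_norm ω).trans (le_of_lt this)

theorem tan_yy_cont : Continuous (fun ω => Real.tan (yy ω)) := by
  rw [continuous_iff_continuousAt]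
  intro ω
  have h := (d0 (yy ω) (yy_ge ω) (by linarith [yy_le ω])).continuousAt
  exact ContinuousAt.comp (f := yy) h yy_cont.continuousAt

theorem ee_cont : Continuous ee := by unfold ee; fun_prop

theorem rajchman (h : C(OO, ℂ)) :
    Tendsto (fun t : ℝ => ∫ ω, ee (t * Real.tan (yy ω)) * h ω ∂mu) atTop (𝓝 0) := by
  rw [NormedAddGroup.tendsto_nhds_zero]
  intro ε hε
  set δ : ℝ := ε / (2 * (‖h‖ + 1)) with hδ
  have hδ0 : 0 < δ := by positivity
  obtain ⟨K, hK⟩ := unif h δ hδ0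
  obtain ⟨t0, ht0⟩ := avg_small δ hδ0 K
  filter_upwards [eventually_ge_atTop t0] with t ht
  obtain ⟨i, l, hi, hl, hs⟩ := ht0 t ht
  set F : OO → ℂ := fun ω => ee (t * Real.tan (yy ω)) * h ω with hF
  have hFc : Continuous F := (ee_cont.comp (continuous_const.mul tan_yy_cont)).mul h.continuous
  have hint : ∀ v : OO, Integrable (fun ω => F (v + ω)) mu := fun v =>
    (hFc.comp (continuous_const.add continuous_id)).integrable_of_hasCompactSupport
      (HasCompactSupport.of_compactSpace _)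
  set N : ℝ := ((i + 1 : ℕ) : ℝ) * ((l + 1 : ℕ) : ℝ) with hN
  have hN0 : 0 < N := by positivity
  have e1 : ∫ ω, (∑ s : ZMod (i + 1), ∑ r : ZMod (l + 1), F ((Pi.single i s + Pi.single l r) + ω)) ∂mu
      = (N : ℂ) * ∫ ω, F ω ∂mu := by
    rw [integral_finsetSum _ (fun s _ => integrable_finsetSum _ (fun r _ => hint _))]
    have : ∀ s : ZMod (i + 1), ∫ ω, (∑ r : ZMod (l + 1), F ((Pi.single i s + Pi.single l r) + ω)) ∂mu
        = ((l + 1 : ℕ) : ℂ) * ∫ ω, F ω ∂mu := by
      intro s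
      rw [integral_finsetSum _ (fun r _ => hint _)]
      simp only [integral_add_left_eq_self]
      simp
    simp only [this]
    simp [hN, mul_assoc]
  have e2 : ∀ ω, ‖∑ s : ZMod (i + 1), ∑ r : ZMod (l + 1), F ((Pi.single i s + Pi.single l r) + ω)‖
      ≤ N * δ * (‖h‖ + 1) := by
    intro ω
    have e3 : ∑ s : ZMod (i + 1), ∑ r : ZMod (l + 1), F ((Pi.single i s + Pi.single l r) + ω)
        = (∑ s : ZMod (i + 1), ∑ r : ZMod (l + 1),
          ee (t * Real.tan (yy ((Pi.single i s + Pi.single l r) + ω)))) * h ω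
        + ∑ s : ZMod (i + 1), ∑ r : ZMod (l + 1),
          ee (t * Real.tan (yy ((Pi.single i s + Pi.single l r) + ω))) *
            (h ((Pi.single i s + Pi.single l r) + ω) - h ω) := by
      rw [sum_mul, ← sum_add_distrib]
      refine sum_congr rfl fun s _ => ?_
      rw [sum_mul, ← sum_add_distrib]
      refine sum_congr rfl fun r _ => ?_
      simp only [hF]; ring
    rw [e3]
    refine (norm_add_le _ _).trans ?_
    have b1 : ‖(∑ s : ZMod (i + 1), ∑ r : ZMod (l + 1),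
          ee (t * Real.tan (yy ((Pi.single i s + Pi.single l r) + ω)))) * h ω‖ ≤ N * δ * ‖h‖ := by
      rw [norm_mul]
      exact mul_le_mul (hs ω) (h.norm_coe_le_norm ω) (norm_nonneg _) (by positivity)
    have b2 : ‖∑ s : ZMod (i + 1), ∑ r : ZMod (l + 1),
          ee (t * Real.tan (yy ((Pi.single i s + Pi.single l r) + ω))) *
            (h ((Pi.single i s + Pi.single l r) + ω) - h ω)‖ ≤ N * δ := by
      refine (norm_sum_le _ _).trans ?_
      have : ∀ s : ZMod (i + 1), ‖∑ r : ZMod (l + 1),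
          ee (t * Real.tan (yy ((Pi.single i s + Pi.single l r) + ω))) *
            (h ((Pi.single i s + Pi.single l r) + ω) - h ω)‖ ≤ ((l + 1 : ℕ) : ℝ) * δ := by
        intro s
        refine (norm_sum_le _ _).trans ?_
        have : ∀ r : ZMod (l + 1), ‖ee (t * Real.tan (yy ((Pi.single i s + Pi.single l r) + ω))) *
            (h ((Pi.single i s + Pi.single l r) + ω) - h ω)‖ ≤ δ := by
          intro r
          rw [norm_mul, norm_ee, one_mul]
          apply hK
          intro k hk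
          have h1 : k ≠ i := by omega
          have h2 : k ≠ l := by omega
          simp [Pi.single_eq_of_ne h1, Pi.single_eq_of_ne h2]
        refine (sum_le_sum fun r _ => this r).trans (le_of_eq ?_)
        simp
      refine (sum_le_sum fun s _ => this s).trans (le_of_eq ?_)
      simp [hN, mul_assoc]
    linarith
  have e4 := norm_integral_le_of_norm_le_const (μ := mu) (Eventually.of_forall e2)
  rw [e1, norm_mul, Complex.norm_real, Real.norm_eq_abs, abs_of_pos hN0] at e4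
  simp only [probReal_univ, mul_one] at e4
  have e5 : δ * (‖h‖ + 1) = ε / 2 := by rw [hδ]; field_simp
  rw [mul_assoc N δ, e5] at e4
  have := le_of_mul_le_mul_left e4 hN0
  linarith

theorem tail_bound (ω : OO) (j : ℕ) : ∃ (n : ℕ) (τ : ℝ), 0 ≤ τ ∧ τ ≤ 1 ∧
    2 * (MM j : ℝ) * yy ω = (MM j : ℝ) / 2 + n * (2 * Real.pi) + τ := by
  have hM : (0 : ℝ) < MM j := by exact_mod_cast MM_pos j
  have hsum := (tm_summable ω).sum_add_tsum_nat_add (j + 1)
  have hdvd : ∀ k i, MM k ∣ MM (k + i) := by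
    intro k i
    induction i with
    | zero => simp
    | succ i ih => rw [← add_assoc, MM_succ]; exact ih.mul_right _
  have hhead : ∀ k ∈ range (j + 1), 2 * (MM j : ℝ) * tm ω k
      = ((MM j / MM k * (ω k).val : ℕ) : ℝ) * (2 * Real.pi) := by
    intro k hk
    have hk' : k ≤ j := Nat.lt_succ_iff.mp (mem_range.mp hk)
    obtain ⟨i, rfl⟩ := Nat.exists_eq_add_of_le hk'
    obtain ⟨c, hc⟩ := hdvd k i
    have hMk : (0 : ℝ) < MM k := by exact_mod_cast MM_pos k
    rw [hc, Nat.mul_div_cancel_left _ (MM_pos k)]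
    unfold tm ww
    push_cast
    field_simp
  have htail : ∀ k, tm ω (k + (j + 1)) ≤ ww j / 16 * (1 / 16) ^ k := by
    intro k
    refine (tm_le0 ω _).trans ?_
    have h1 := ww_succ (j + k)
    have h2 := ww_add_le j k
    have e : k + (j + 1) = j + k + 1 := by ring
    rw [e]
    push_cast at h1 ⊢
    have : ((j : ℝ) + k + 1 + 1) = j + k + 2 := by ring
    rw [this, h1]
    linarith
  have hs2 : Summable (fun k => tm ω (k + (j + 1))) := (summable_nat_add_iff _).mpr (tm_summable ω)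
  have ht := hasSum_le htail hs2.hasSum (geo_hasSum.mul_left (ww j / 16))
  refine ⟨∑ k ∈ range (j + 1), MM j / MM k * (ω k).val,
    2 * (MM j : ℝ) * ∑' k, tm ω (k + (j + 1)), ?_, ?_, ?_⟩
  · have : 0 ≤ ∑' k, tm ω (k + (j + 1)) := tsum_nonneg (fun k => tm_nonneg ω (k + (j + 1)))
    exact mul_nonneg (mul_nonneg zero_le_two hM.le) this
  · have h3 : (MM j : ℝ) * ww j = Real.pi := by unfold ww; field_simp
    have := Real.pi_lt_four
    generalize (∑' k, tm ω (k + (j + 1))) = X at ht ⊢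
    nlinarith [mul_le_mul_of_nonneg_left ht hM.le]
  · unfold yy
    rw [← hsum, Nat.cast_sum, sum_mul, ← sum_congr rfl hhead, ← mul_sum]
    ring

theorem not_rajchman (j : ℕ) : 1 / 2 ≤ ‖∫ ω, ee (2 * (MM j : ℝ) * yy ω) ∂mu‖ := by
  have e1 : ∫ ω, ee (2 * (MM j : ℝ) * yy ω) ∂mu
      = ee ((MM j : ℝ) / 2) * ∫ ω, ee (2 * (MM j : ℝ) * yy ω - (MM j : ℝ) / 2) ∂mu := by
    rw [← integral_const_mul]
    congr 1
    ext ω
    rw [← ee_add]; congr 1; ring
  rw [e1, norm_mul, norm_ee, one_mul]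
  refine le_trans ?_ (Complex.re_le_norm _)
  have hc : Continuous (fun ω => ee (2 * (MM j : ℝ) * yy ω - (MM j : ℝ) / 2)) :=
    ee_cont.comp ((continuous_const.mul yy_cont).sub continuous_const)
  have hi : Integrable (fun ω => ee (2 * (MM j : ℝ) * yy ω - (MM j : ℝ) / 2)) mu :=
    hc.integrable_of_hasCompactSupport (HasCompactSupport.of_compactSpace _)
  have h2 := integral_re hi
  simp only [RCLike.re_to_complex] at h2
  rw [← h2]
  have h3 : ∫ _ω : OO, (1 / 2 : ℝ) ∂mu = 1 / 2 := by simp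
  rw [← h3]
  refine integral_mono (integrable_const _) hi.re fun ω => ?_
  obtain ⟨n, τ, h0, h1, he⟩ := tail_bound ω j
  have : 2 * (MM j : ℝ) * yy ω - (MM j : ℝ) / 2 = τ + n * (2 * Real.pi) := by linarith
  show 1 / 2 ≤ (ee _).re
  rw [this]
  unfold ee
  rw [mul_comm, Complex.exp_ofReal_mul_I_re, Real.cos_add_nat_mul_two_pi]
  have := Real.one_sub_sq_div_two_le_cos (x := τ)
  nlinarith

end Pool.Agent.H15.RJ4
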