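import Mathlib
import Pool.Agent.H15.RJ4

set_option autoImplicit false
open Filter Topology Finset MeasureTheory

namespace Pool.Agent.H15.RJ5
open Pool.Agent.H15.RJ1 Pool.Agent.H15.RJ2 Pool.Agent.H15.RJ3 Pool.Agent.H15.RJ4

abbrev HH : Type := Lp ℂ 2 mu

noncomputable def Mul : C(OO, ℂ) →L[ℂ] (HH →L[ℂ] HH) :=
  ((ContinuousLinearMap.mul ℂ ℂ).holderL mu ⊤ 2 2).comp (ContinuousMap.toLp ⊤ mu ℂ)

theorem Mul_coe (g : C(OO, ℂ)) (z : HH) : (Mul g z : OO → ℂ) =ᵐ[mu] fun ω => g ω * z ω := by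
  have h1 := (ContinuousLinearMap.mul ℂ ℂ).coeFn_holder (r := 2) (ContinuousMap.toLp ⊤ mu ℂ g) z
  have h2 := ContinuousMap.coeFn_toLp (p := ⊤) mu (𝕜 := ℂ) g
  filter_upwards [h1, h2] with ω a b
  refine Eq.trans a ?_
  rw [b]; rfl

theorem Mul_one : Mul 1 = 1 := by
  ext1 z
  apply Lp.ext
  filter_upwards [Mul_coe 1 z] with ω a
  rw [a]; simp

theorem Mul_mul (f g : C(OO, ℂ)) : Mul (f * g) = Mul f * Mul g := by
  ext1 z
  apply Lp.ext
  filter_upwards [Mul_coe (f * g) z, Mul_coe f (Mul g z), Mul_coe g z] with ω a b c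
  rw [a]
  refine Eq.trans ?_ b.symm
  rw [c]; simp [mul_assoc]

theorem Mul_norm (g : C(OO, ℂ)) (hg : ∀ ω, ‖g ω‖ ≤ 1) : ‖Mul g‖ ≤ 1 := by
  refine ContinuousLinearMap.opNorm_le_bound _ zero_le_one fun z => ?_
  rw [one_mul]
  apply Lp.norm_le_norm_of_ae_le
  filter_upwards [Mul_coe g z] with ω a
  rw [a, norm_mul]
  exact mul_le_of_le_one_left (norm_nonneg _) (hg ω)

theorem Mul_toLp (g f : C(OO, ℂ)) :
    Mul g (ContinuousMap.toLp 2 mu ℂ f) = ContinuousMap.toLp 2 mu ℂ (g * f) := by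
  apply Lp.ext
  filter_upwards [Mul_coe g (ContinuousMap.toLp 2 mu ℂ f),
    ContinuousMap.coeFn_toLp (p := 2) mu (𝕜 := ℂ) f,
    ContinuousMap.coeFn_toLp (p := 2) mu (𝕜 := ℂ) (g * f)] with ω a b c
  rw [a, b, c]; rfl

noncomputable def EE (t : ℝ) : C(OO, ℂ) :=
  ⟨fun ω => ee (t * Real.tan (yy ω)), ee_cont.comp (continuous_const.mul tan_yy_cont)⟩

theorem EE_zero : EE 0 = 1 := by
  ext ω; simp [EE, ee_zero]

theorem EE_add (s t : ℝ) : EE (s + t) = EE s * EE t := by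
  ext ω
  show ee _ = ee _ * ee _
  rw [← ee_add, add_mul]

theorem EE_cont : Continuous EE := by
  apply ContinuousMap.continuous_of_continuous_uncurry
  show Continuous (fun q : ℝ × OO => ee (q.1 * Real.tan (yy q.2)))
  exact ee_cont.comp (continuous_fst.mul (tan_yy_cont.comp continuous_snd))

theorem EE_norm (t : ℝ) : ‖EE t‖ ≤ 1 := by
  rw [ContinuousMap.norm_le _ zero_le_one]
  intro ω
  exact (norm_ee _).le

theorem T_norm (t : ℝ) : ‖Mul (EE t)‖ ≤ 1 := Mul_norm _ fun _ => (norm_ee _).le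

theorem weak0 (f g : C(OO, ℂ)) : Tendsto (fun t : ℝ => inner ℂ (Mul (EE t) (ContinuousMap.toLp 2 mu ℂ f))
    (ContinuousMap.toLp 2 mu ℂ g)) atTop (𝓝 0) := by
  have h := rajchman (f * star g)
  have h2 := (Complex.continuous_conj.tendsto 0).comp h
  rw [map_zero] at h2
  refine h2.congr fun t => ?_
  rw [Mul_toLp, ContinuousMap.inner_toLp, Function.comp, ← integral_conj]
  congr 1
  ext ω
  simp [EE]
  ring

theorem weak (x y : HH) : Tendsto (fun t : ℝ => inner ℂ (Mul (EE t) x) y) atTop (𝓝 0) := by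
  have hd := ContinuousMap.toLp_denseRange ℂ mu (p := 2) ℂ (by norm_num)
  rw [NormedAddGroup.tendsto_nhds_zero]
  intro ε hε
  obtain ⟨f, hf⟩ := hd.exists_dist_lt x (ε := ε / (3 * (‖y‖ + 1))) (by positivity)
  set f' : HH := ContinuousMap.toLp 2 mu ℂ f with hf'
  obtain ⟨g, hg⟩ := hd.exists_dist_lt y (ε := ε / (3 * (‖f'‖ + 1))) (by positivity)
  set g' : HH := ContinuousMap.toLp 2 mu ℂ g with hg'
  have h0 := (NormedAddGroup.tendsto_nhds_zero.mp (weak0 f g)) (ε / 3) (by positivity)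
  filter_upwards [h0] with t ht
  rw [← hf', ← hg'] at ht
  have e : inner ℂ (Mul (EE t) x) y = inner ℂ (Mul (EE t) (x - f')) y
      + inner ℂ (Mul (EE t) f') (y - g') + inner ℂ (Mul (EE t) f') g' := by
    rw [map_sub, inner_sub_left, inner_sub_right]; ring
  have hn : ∀ z : HH, ‖Mul (EE t) z‖ ≤ ‖z‖ := fun z =>
    ((Mul (EE t)).le_opNorm z).trans (mul_le_of_le_one_left (norm_nonneg _) (T_norm t))
  rw [dist_eq_norm] at hf hg
  have b1 : ‖inner ℂ (Mul (EE t) (x - f')) y‖ ≤ ε / 3 := by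
    refine (norm_inner_le_norm _ _).trans ?_
    have h1 := (hn (x - f')).trans hf.le
    calc ‖Mul (EE t) (x - f')‖ * ‖y‖ ≤ ε / (3 * (‖y‖ + 1)) * (‖y‖ + 1) := by
          gcongr; linarith
      _ = ε / 3 := by field_simp
  have b2 : ‖inner ℂ (Mul (EE t) f') (y - g')‖ ≤ ε / 3 := by
    refine (norm_inner_le_norm _ _).trans ?_
    have h1 := hn f'
    calc ‖Mul (EE t) f'‖ * ‖y - g'‖ ≤ (‖f'‖ + 1) * (ε / (3 * (‖f'‖ + 1))) := by
          gcongr; linarith
      _ = ε / 3 := by field_simp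
  rw [e]
  refine lt_of_le_of_lt ((norm_add_le _ _).trans (add_le_add (norm_add_le _ _) le_rfl)) ?_
  linarith

theorem int_EE : IntegrableOn (fun t : ℝ => ((Real.exp (-t) : ℝ) : ℂ) • EE t) (Set.Ioi 0) := by
  have hc : Continuous (fun t : ℝ => ((Real.exp (-t) : ℝ) : ℂ) • EE t) := by
    have := EE_cont
    fun_prop
  refine Integrable.mono' (integrableOn_exp_neg_Ioi 0) hc.aestronglyMeasurable ?_
  refine Eventually.of_forall fun t => ?_
  rw [norm_smul, Complex.norm_real, Real.norm_eq_abs, abs_of_pos (Real.exp_pos _)]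
  exact mul_le_of_le_one_right (Real.exp_pos _).le (EE_norm t)

noncomputable def uu : C(OO, ℂ) :=
  1 - (2 : ℂ) • ∫ t in Set.Ioi (0 : ℝ), ((Real.exp (-t) : ℝ) : ℂ) • EE t

theorem cog (z : HH) : z - (2 : ℂ) • ∫ t in Set.Ioi (0 : ℝ),
    ((Real.exp (-t) : ℝ) : ℂ) • Mul (EE t) z = Mul uu z := by
  have h := (Mul.flip z).integral_comp_comm int_EE
  simp only [ContinuousLinearMap.flip_apply, map_smul] at h
  unfold uu
  rw [map_sub, map_smul, Mul_one]
  simp only [sub_apply, one_apply_eq_self,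
    smul_apply]
  rw [← h]

theorem uu_apply (ω : OO) : uu ω = -ee (2 * yy ω) := by
  have h := (ContinuousMap.evalCLM ℂ ω : C(OO, ℂ) →L[ℂ] ℂ).integral_comp_comm int_EE
  set x : ℝ := Real.tan (yy ω) with hx
  have h2 : (∫ t in Set.Ioi (0 : ℝ), ((Real.exp (-t) : ℝ) : ℂ) • EE t) ω
      = ∫ t in Set.Ioi (0 : ℝ), Complex.exp ((-1 + Complex.I * x) * t) := by
    refine Eq.trans h.symm ?_
    congr 1
    ext t
    show ((Real.exp (-t) : ℝ) : ℂ) * ee (t * x) = _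
    unfold ee
    rw [Complex.ofReal_exp, ← Complex.exp_add]
    congr 1
    push_cast; ring
  have h3 : (-1 + Complex.I * x).re < 0 := by simp
  rw [integral_exp_mul_complex_Ioi h3] at h2
  have h4 : uu ω = 1 - 2 * (∫ t in Set.Ioi (0 : ℝ), ((Real.exp (-t) : ℝ) : ℂ) • EE t) ω := rfl
  rw [h4, h2]
  have hc : Real.cos (yy ω) ≠ 0 := cos_ne _ (yy_ge ω) (by linarith [yy_le ω])
  have hne : (-1 + Complex.I * x) ≠ 0 := fun h0 => by rw [h0] at h3; simp at h3
  have e1 : ee (2 * yy ω) = ee (yy ω) * ee (yy ω) := by rw [← ee_add, two_mul]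
  have e2 : ee (yy ω) = Real.cos (yy ω) + Real.sin (yy ω) * Complex.I := by
    unfold ee
    rw [mul_comm, Complex.exp_mul_I]; push_cast; rfl
  have e3 : (x : ℂ) * Real.cos (yy ω) = Real.sin (yy ω) := by
    rw [← Complex.ofReal_mul, hx, Real.tan_mul_cos hc]
  have e4 : ((Real.sin (yy ω) : ℝ) : ℂ) ^ 2 + ((Real.cos (yy ω) : ℝ) : ℂ) ^ 2 = 1 := by
    rw [← Complex.ofReal_pow, ← Complex.ofReal_pow, ← Complex.ofReal_add, Real.sin_sq_add_cos_sq]
    rfl
  rw [e1, e2]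
  generalize ((Real.sin (yy ω) : ℝ) : ℂ) = s at *
  generalize ((Real.cos (yy ω) : ℝ) : ℂ) = c at *
  simp only [Complex.ofReal_zero, mul_zero, Complex.exp_zero]
  field_simp
  subst e3
  have hI := Complex.I_mul_I
  linear_combination (-(1 + Complex.I * x)) * e4 + (c ^ 2 * x ^ 2 * (1 + Complex.I * x)) * hI

theorem iter (n : ℕ) (f : C(OO, ℂ)) : (fun z : HH => Mul uu z)^[n] (ContinuousMap.toLp 2 mu ℂ f)
    = ContinuousMap.toLp 2 mu ℂ (uu ^ n * f) := by
  induction n with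
  | zero => simp
  | succ n ih =>
    rw [Function.iterate_succ_apply', ih, Mul_toLp, pow_succ', mul_assoc]

theorem ee_pow (x : ℝ) (n : ℕ) : ee x ^ n = ee (n * x) := by
  induction n with
  | zero => simp [ee_zero]
  | succ n ih => rw [pow_succ, ih, ← ee_add]; congr 1; push_cast; ring

theorem not_weak : ¬ Tendsto (fun n : ℕ => inner ℂ ((fun z : HH => Mul uu z)^[n]
    (ContinuousMap.toLp 2 mu ℂ (1 : C(OO, ℂ)))) (ContinuousMap.toLp 2 mu ℂ (1 : C(OO, ℂ)))) atTop (𝓝 0) := by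
  intro h
  have h1 := (NormedAddGroup.tendsto_nhds_zero.mp h) (1 / 2) (by norm_num)
  obtain ⟨N, hN⟩ := eventually_atTop.mp h1
  have hM : N ≤ MM N := by
    unfold MM
    have a := Nat.self_le_factorial (N + 1)
    have b : 1 ≤ 16 ^ (N + 2) := Nat.one_le_pow _ _ (by norm_num)
    nlinarith
  have h2 := hN _ hM
  rw [iter, ContinuousMap.inner_toLp] at h2
  have h3 := not_rajchman N
  have e : ∫ ω, (1 : C(OO, ℂ)) ω * (starRingEnd ℂ) ((uu ^ MM N * 1) ω) ∂mu
      = (starRingEnd ℂ) ((-1) ^ MM N * ∫ ω, ee (2 * (MM N : ℝ) * yy ω) ∂mu) := by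
    rw [← integral_const_mul, ← integral_conj]
    congr 1
    ext ω
    rw [mul_one, ContinuousMap.one_apply, one_mul, ContinuousMap.pow_apply, uu_apply, neg_pow,
      ee_pow]
    congr 3
    ring
  rw [e, Complex.norm_conj, norm_mul, norm_pow, norm_neg, norm_one, one_pow, one_mul] at h2
  linarith

end Pool.Agent.H15.RJ5
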