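import Mathlib

set_option autoImplicit false
open Finset

namespace Pool.Agent.H15.RO

/-- number of elements of `B` pushed out of `B` by the shift `m` -/
def lam (B : Finset ℕ) (m : ℕ) : ℕ := (B.filter (fun b => b + m ∉ B)).card

lemma lam_zero (B : Finset ℕ) : lam B 0 = 0 := by
  unfold lam
  rw [Finset.card_eq_zero, Finset.filter_eq_empty_iff]
  intro b hb h
  exact h (by simpa using hb)

lemma lam_add (B : Finset ℕ) (m n : ℕ) : lam B (m + n) ≤ lam B m + lam B n := by
  unfold lam
  have h1 : B.filter (fun b => b + (m + n) ∉ B) ⊆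
      B.filter (fun b => b + m ∉ B) ∪ B.filter (fun b => b + m ∈ B ∧ b + m + n ∉ B) := by
    intro b hb
    simp only [mem_filter, mem_union] at hb ⊢
    by_cases h : b + m ∈ B
    · right; exact ⟨hb.1, h, by rw [add_assoc]; exact hb.2⟩
    · left; exact ⟨hb.1, h⟩
  have h2 : (B.filter (fun b => b + m ∈ B ∧ b + m + n ∉ B)).card ≤
      (B.filter (fun b => b + n ∉ B)).card := by
    apply Finset.card_le_card_of_injOn (fun b => b + m)
    · intro b hb
      simp only [coe_filter, Set.mem_ofPred_eq] at hb ⊢
      exact ⟨hb.2.1, hb.2.2⟩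
    · intro a _ b _ h
      simpa using h
  calc _ ≤ _ := Finset.card_le_card h1
    _ ≤ _ := Finset.card_union_le _ _
    _ ≤ _ := by omega

lemma lam_mul (B : Finset ℕ) (k m : ℕ) : lam B (k * m) ≤ k * lam B m := by
  induction k with
  | zero => simp [lam_zero]
  | succ k ih =>
    have := lam_add B (k * m) m
    rw [Nat.succ_mul, Nat.succ_mul]
    omega

lemma lam_sum (B : Finset ℕ) (S : Finset ℕ) : lam B (∑ x ∈ S, x) ≤ ∑ x ∈ S, lam B x := by
  classical
  induction S using Finset.induction_on with
  | empty => simp [lam_zero]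
  | insert a s ha ih =>
    rw [Finset.sum_insert ha, Finset.sum_insert ha]
    have := lam_add B a (∑ x ∈ s, x)
    omega

lemma card_not_shift (B : Finset ℕ) (w : ℕ) :
    (B.filter (fun c => c ∉ B.image (fun b => b + w))).card = lam B w := by
  unfold lam
  have h1 := Finset.card_filter_add_card_filter_not (s := B) (fun c => c ∈ B.image (fun b => b + w))
  have h2 := Finset.card_filter_add_card_filter_not (s := B) (fun b => b + w ∈ B)
  have h3 : (B.filter (fun c => c ∈ B.image (fun b => b + w))).card =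
      (B.filter (fun b => b + w ∈ B)).card := by
    symm
    apply Finset.card_bij (fun b _ => b + w)
    · intro b hb
      simp only [mem_filter, mem_image] at hb ⊢
      exact ⟨hb.2, b, hb.1, rfl⟩
    · intro a _ b _ h
      simpa using h
    · intro c hc
      simp only [mem_filter, mem_image] at hc
      obtain ⟨hc1, b, hb, rfl⟩ := hc
      exact ⟨b, by simp [hb, hc1], rfl⟩
  omega

lemma lam_sub (B : Finset ℕ) (w d : ℕ) : lam B d ≤ lam B (w + d) + lam B w := by
  rw [← card_not_shift B w]
  unfold lam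
  have h1 : B.filter (fun b => b + d ∉ B) ⊆
      B.filter (fun b => b + (w + d) ∉ B) ∪ B.filter (fun b => b + (w + d) ∈ B ∧ b + d ∉ B) := by
    intro b hb
    simp only [mem_filter, mem_union] at hb ⊢
    by_cases h : b + (w + d) ∈ B
    · right; exact ⟨hb.1, h, hb.2⟩
    · left; exact ⟨hb.1, h⟩
  have h2 : (B.filter (fun b => b + (w + d) ∈ B ∧ b + d ∉ B)).card ≤
      (B.filter (fun c => c ∉ B.image (fun b => b + w))).card := by
    apply Finset.card_le_card_of_injOn (fun b => b + (w + d))
    · intro b hb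
      simp only [coe_filter, Set.mem_ofPred_eq, mem_image, not_exists, not_and] at hb ⊢
      refine ⟨hb.2.1, ?_⟩
      intro x hx hxe
      apply hb.2.2
      have : x = b + d := by omega
      rwa [← this]
    · intro a _ b _ h
      simpa using h
  calc _ ≤ _ := Finset.card_le_card h1
    _ ≤ _ := Finset.card_union_le _ _
    _ ≤ _ := by omega

lemma card_union_shift (B : Finset ℕ) (x : ℕ) :
    (B ∪ B.image (fun b => b + x)).card = B.card + lam B x := by
  have h1 : B ∪ B.image (fun b => b + x) =
      B ∪ (B.filter (fun b => b + x ∉ B)).image (fun b => b + x) := by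
    ext c
    simp only [mem_union, mem_image, mem_filter]
    constructor
    · rintro (h | ⟨b, hb, rfl⟩)
      · exact Or.inl h
      · by_cases h : b + x ∈ B
        · exact Or.inl h
        · exact Or.inr ⟨b, ⟨hb, h⟩, rfl⟩
    · rintro (h | ⟨b, hb, rfl⟩)
      · exact Or.inl h
      · exact Or.inr ⟨b, hb.1, rfl⟩
  rw [h1, Finset.card_union_of_disjoint, Finset.card_image_of_injective]
  · rfl
  · intro a b h; simpa using h
  · rw [Finset.disjoint_right]
    intro c hc
    simp only [mem_image, mem_filter] at hc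
    obtain ⟨b, hb, rfl⟩ := hc
    exact hb.2

/-- pigeonhole: some small multiple of `d` is a difference of two elements of a dense set -/
lemma diff_multiple (W : Finset ℕ) (N D d : ℕ) (hW : ∀ w ∈ W, w ≤ N)
    (hD : N + 1 ≤ D * W.card) (hd : 4 * D * d ≤ 3 * N) :
    ∃ t, 1 ≤ t ∧ t ≤ 4 * D ∧ ∃ w ∈ W, ∃ w' ∈ W, w + t * d = w' := by
  have hc : (Finset.range (4 * N + 1)).card < ((Finset.range (4 * D + 1)) ×ˢ W).card := by
    rw [Finset.card_product, Finset.card_range, Finset.card_range]
    nlinarith
  obtain ⟨p, hp, p', hp', hne, he⟩ := Finset.exists_ne_map_eq_of_card_lt_of_maps_to hc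
    (f := fun p : ℕ × ℕ => p.2 + p.1 * d) (by
      intro p hp
      simp only [coe_product, coe_range, Set.mem_prod, Set.mem_Iio, mem_coe] at hp ⊢
      have h1 := hW _ hp.2
      have h2 : p.1 * d ≤ 4 * D * d := Nat.mul_le_mul_right _ (by omega)
      omega)
  simp only [mem_product, mem_range] at hp hp'
  obtain ⟨i, w⟩ := p
  obtain ⟨i', w'⟩ := p'
  simp only at hp hp' he
  rcases lt_trichotomy i i' with h | h | h
  · refine ⟨i' - i, by omega, by omega, w', hp'.2, w, hp.2, ?_⟩
    have : i' * d = i * d + (i' - i) * d := by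
      rw [← Nat.add_mul]; congr 1; omega
    omega
  · subst h
    exfalso; apply hne
    have : w = w' := by omega
    rw [this]
  · refine ⟨i - i', by omega, by omega, w, hp.2, w', hp'.2, ?_⟩
    have : i * d = i' * d + (i - i') * d := by
      rw [← Nat.add_mul]; congr 1; omega
    omega

/-- a progression starting in `B` with few holes -/
lemma dense_prog (B : Finset ℕ) (hB : B.Nonempty) (q L Λ : ℕ)
    (h : ∀ d < L, lam B (q * d) ≤ Λ) :
    ∃ b ∈ B, ((Finset.range L).filter (fun i => b + q * i ∉ B)).card * B.card ≤ L * Λ := by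
  by_contra hcon
  push Not at hcon
  have h1 : ∑ b ∈ B, ((Finset.range L).filter (fun i => b + q * i ∉ B)).card =
      ∑ i ∈ Finset.range L, lam B (q * i) := by
    unfold lam
    simp only [Finset.card_filter]
    rw [Finset.sum_comm]
  have h2 : ∑ i ∈ Finset.range L, lam B (q * i) ≤ L * Λ := by
    calc _ ≤ ∑ _i ∈ Finset.range L, Λ := Finset.sum_le_sum (fun i hi => h i (by simpa using hi))
      _ = L * Λ := by simp
  have h3 : ∑ _b ∈ B, L * Λ < ∑ b ∈ B,
      ((Finset.range L).filter (fun i => b + q * i ∉ B)).card * B.card :=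
    Finset.sum_lt_sum_of_nonempty hB hcon
  rw [Finset.sum_const, smul_eq_mul, ← Finset.sum_mul, h1] at h3
  have h4 := Nat.mul_le_mul_right B.card h2
  nlinarith

/-- subset sums of small numbers are dense -/
lemma fill (F : Finset ℕ) (N : ℕ) (hF : ∀ x ∈ F, x ≤ N) (z : ℕ) (hz : z ≤ ∑ x ∈ F, x) :
    ∃ S ⊆ F, ∑ x ∈ S, x ≤ z ∧ z ≤ ∑ x ∈ S, x + N := by
  classical
  induction F using Finset.induction_on with
  | empty => exact ⟨∅, Finset.Subset.refl _, by simp, by simp at hz; omega⟩
  | insert a s ha ih =>
    by_cases h : z ≤ ∑ x ∈ s, x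
    · obtain ⟨S, hS, h1, h2⟩ := ih (fun x hx => hF x (Finset.mem_insert_of_mem hx)) h
      exact ⟨S, hS.trans (Finset.subset_insert _ _), h1, h2⟩
    · rw [Finset.sum_insert ha] at hz
      have := hF a (Finset.mem_insert_self _ _)
      exact ⟨s, Finset.subset_insert _ _, by omega, by omega⟩

lemma exists_step (P : ℕ → Prop) (h : ℕ) (h0 : P 0) (hh : ¬ P h) :
    ∃ i < h, P i ∧ ¬ P (i + 1) := by
  induction h with
  | zero => exact absurd h0 hh
  | succ k ih =>
    by_cases hk : P k
    · exact ⟨k, by omega, hk, hh⟩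
    · obtain ⟨i, hi, h1, h2⟩ := ih hk
      exact ⟨i, by omega, h1, h2⟩

end Pool.Agent.H15.RO
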