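import Pool.Agent.H15.RO1

set_option autoImplicit false
open Finset

namespace Pool.Agent.H15.RO

/-- number of members of `W` whose chosen representation uses `x` -/
def deg (W : Finset ℕ) (rep : ℕ → Finset ℕ) (x : ℕ) : ℕ := (W.filter (fun w => x ∈ rep w)).card

lemma card_le_avoid (W : Finset ℕ) (rep : ℕ → Finset ℕ) (F : Finset ℕ) :
    W.card ≤ (W.filter (fun w => Disjoint (rep w) F)).card + ∑ x ∈ F, deg W rep x := by
  have h1 : W ⊆ W.filter (fun w => Disjoint (rep w) F) ∪
      F.biUnion (fun x => W.filter (fun w => x ∈ rep w)) := by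
    intro w hw
    simp only [mem_union, mem_filter, mem_biUnion]
    by_cases h : Disjoint (rep w) F
    · exact Or.inl ⟨hw, h⟩
    · rw [Finset.not_disjoint_iff] at h
      obtain ⟨x, h1, h2⟩ := h
      exact Or.inr ⟨x, h2, hw, h1⟩
  calc _ ≤ _ := Finset.card_le_card h1
    _ ≤ _ := Finset.card_union_le _ _
    _ ≤ _ := by
      have := Finset.card_biUnion_le (s := F) (t := fun x => W.filter (fun w => x ∈ rep w))
      unfold deg
      omega

lemma deg_mono {W W' : Finset ℕ} (h : W' ⊆ W) (rep : ℕ → Finset ℕ) (x : ℕ) :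
    deg W' rep x ≤ deg W rep x :=
  Finset.card_le_card (Finset.filter_subset_filter _ h)

lemma sum_deg_le (W : Finset ℕ) (rep : ℕ → Finset ℕ) (h : ℕ) (hc : ∀ w ∈ W, (rep w).card ≤ h)
    (F : Finset ℕ) : ∑ x ∈ F, deg W rep x ≤ h * W.card := by
  unfold deg
  simp only [Finset.card_filter]
  rw [Finset.sum_comm]
  calc _ ≤ ∑ _w ∈ W, h := by
        apply Finset.sum_le_sum
        intro w hw
        rw [← Finset.card_filter]
        refine le_trans (Finset.card_le_card ?_) (hc w hw)
        intro x hx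
        exact (Finset.mem_filter.1 hx).2
    _ = _ := by simp [mul_comm]

lemma count_sep (X U V : Finset ℕ) (h : ℕ) (hU : U ⊆ X) (hUV : Disjoint U V)
    (cU : U.card ≤ h) (cV : V.card ≤ h) :
    2 ^ X.card ≤ 4 ^ h * (X.powerset.filter (fun S => U ⊆ S ∧ Disjoint V S)).card := by
  have h1 : (X \ (U ∪ V)).powerset.card ≤
      (X.powerset.filter (fun S => U ⊆ S ∧ Disjoint V S)).card := by
    apply Finset.card_le_card_of_injOn (fun S => S ∪ U)
    · intro S hS
      simp only [coe_powerset, Set.mem_preimage, Set.mem_powerset_iff, coe_subset,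
        coe_filter, mem_powerset, Set.mem_ofPred_eq] at hS ⊢
      refine ⟨Finset.union_subset (hS.trans Finset.sdiff_subset) hU,
        Finset.subset_union_right, ?_⟩
      rw [Finset.disjoint_union_right]
      refine ⟨?_, hUV.symm⟩
      rw [Finset.disjoint_left]
      intro v hv hvS
      have := hS hvS
      simp [hv] at this
    · intro S hS S' hS' he
      simp only [coe_powerset, Set.mem_preimage, Set.mem_powerset_iff, coe_subset] at hS hS'
      ext x
      have he' : x ∈ S ∪ U ↔ x ∈ S' ∪ U := by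
        have : S ∪ U = S' ∪ U := he
        rw [this]
      simp only [mem_union] at he'
      constructor
      · intro hx
        have := hS hx
        simp only [mem_sdiff, mem_union, not_or] at this
        tauto
      · intro hx
        have := hS' hx
        simp only [mem_sdiff, mem_union, not_or] at this
        tauto
  rw [Finset.card_powerset] at h1
  have h2 : X.card ≤ (X \ (U ∪ V)).card + 2 * h := by
    have := Finset.le_card_sdiff (U ∪ V) X
    have := Finset.card_union_le U V
    omega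
  calc 2 ^ X.card ≤ 2 ^ ((X \ (U ∪ V)).card + 2 * h) := Nat.pow_le_pow_right (by norm_num) h2
    _ = 4 ^ h * 2 ^ (X \ (U ∪ V)).card := by
        rw [pow_add, pow_mul, mul_comm]; norm_num
    _ ≤ _ := Nat.mul_le_mul_left _ h1

/-- a two-colouring of the generators keeping many sums in each colour -/
lemma split (X W : Finset ℕ) (rep : ℕ → Finset ℕ) (h τ : ℕ)
    (hX : ∀ w ∈ W, rep w ⊆ X) (hc : ∀ w ∈ W, (rep w).card ≤ h)
    (hd : ∀ x, deg W rep x ≤ τ) (hτ : 2 * h * τ ≤ W.card) :
    ∃ S ⊆ X, W.card ≤ 2 * 4 ^ h * (W.filter (fun w => rep w ⊆ S)).card ∧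
      W.card ≤ 2 * 4 ^ h * (W.filter (fun w => Disjoint (rep w) S)).card := by
  have key : ∃ S ∈ X.powerset, W.card * W.card ≤ 2 * 4 ^ h *
      ((W.filter (fun w => rep w ⊆ S)).card * (W.filter (fun w => Disjoint (rep w) S)).card) := by
    by_contra hcon
    push Not at hcon
    have h1 : ∑ S ∈ X.powerset, 2 * 4 ^ h *
      ((W.filter (fun w => rep w ⊆ S)).card * (W.filter (fun w => Disjoint (rep w) S)).card) <
        ∑ _S ∈ X.powerset, W.card * W.card :=
      Finset.sum_lt_sum_of_nonempty ⟨∅, by simp⟩ hcon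
    rw [Finset.sum_const, smul_eq_mul, Finset.card_powerset, ← Finset.mul_sum] at h1
    have h2 : ∑ S ∈ X.powerset,
      ((W.filter (fun w => rep w ⊆ S)).card * (W.filter (fun w => Disjoint (rep w) S)).card) =
        ∑ w ∈ W, ∑ w' ∈ W,
          (X.powerset.filter (fun S => rep w ⊆ S ∧ Disjoint (rep w') S)).card := by
      simp only [Finset.card_filter, Finset.sum_mul_sum]
      rw [Finset.sum_comm]
      apply Finset.sum_congr rfl
      intro w _
      rw [Finset.sum_comm]
      apply Finset.sum_congr rfl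
      intro w' _
      apply Finset.sum_congr rfl
      intro S _
      by_cases a : rep w ⊆ S <;> by_cases b : Disjoint (rep w') S <;> simp [a, b]
    have h3 : ∀ w ∈ W, 2 ^ X.card * W.card ≤ 2 * 4 ^ h * ∑ w' ∈ W,
          (X.powerset.filter (fun S => rep w ⊆ S ∧ Disjoint (rep w') S)).card := by
      intro w hw
      have a1 := card_le_avoid W rep (rep w)
      have a2 : ∑ x ∈ rep w, deg W rep x ≤ h * τ := by
        calc _ ≤ ∑ _x ∈ rep w, τ := Finset.sum_le_sum (fun x _ => hd x)
          _ = (rep w).card * τ := by simp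
          _ ≤ _ := Nat.mul_le_mul_right _ (hc w hw)
      have a3 : W.card ≤ 2 * (W.filter (fun w' => Disjoint (rep w') (rep w))).card := by
        nlinarith
      have a4 : ∑ _w' ∈ W.filter (fun w' => Disjoint (rep w') (rep w)), 2 ^ X.card ≤
          ∑ w' ∈ W.filter (fun w' => Disjoint (rep w') (rep w)), 4 ^ h *
          (X.powerset.filter (fun S => rep w ⊆ S ∧ Disjoint (rep w') S)).card := by
        apply Finset.sum_le_sum
        intro w' hw'
        rw [Finset.mem_filter] at hw'
        exact count_sep X (rep w) (rep w') h (hX w hw) hw'.2.symm (hc w hw) (hc w' hw'.1)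
      have a5 : ∑ w' ∈ W.filter (fun w' => Disjoint (rep w') (rep w)), 4 ^ h *
          (X.powerset.filter (fun S => rep w ⊆ S ∧ Disjoint (rep w') S)).card ≤
          ∑ w' ∈ W, 4 ^ h *
          (X.powerset.filter (fun S => rep w ⊆ S ∧ Disjoint (rep w') S)).card :=
        Finset.sum_le_sum_of_subset (Finset.filter_subset _ _)
      have a6 := a4.trans a5
      rw [Finset.sum_const, smul_eq_mul, ← Finset.mul_sum] at a6
      calc 2 ^ X.card * W.card
          ≤ 2 ^ X.card * (2 * (W.filter (fun w' => Disjoint (rep w') (rep w))).card) :=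
            Nat.mul_le_mul_left _ a3
        _ = 2 * ((W.filter (fun w' => Disjoint (rep w') (rep w))).card * 2 ^ X.card) := by ring
        _ ≤ 2 * (4 ^ h * _) := Nat.mul_le_mul_left _ a6
        _ = _ := by ring
    have h4 := Finset.sum_le_sum h3
    rw [Finset.sum_const, smul_eq_mul, ← Finset.mul_sum, ← h2] at h4
    nlinarith
  obtain ⟨S, hS, hk⟩ := key
  refine ⟨S, Finset.mem_powerset.1 hS, ?_, ?_⟩
  · rcases Nat.eq_zero_or_pos W.card with h0 | h0
    · omega
    have : (W.filter (fun w => Disjoint (rep w) S)).card ≤ W.card := Finset.card_filter_le _ _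
    apply Nat.le_of_mul_le_mul_right _ h0
    calc _ ≤ _ := hk
      _ ≤ 2 * 4 ^ h * ((W.filter (fun w => rep w ⊆ S)).card * W.card) :=
        Nat.mul_le_mul_left _ (Nat.mul_le_mul_left _ this)
      _ = _ := by ring
  · rcases Nat.eq_zero_or_pos W.card with h0 | h0
    · omega
    have : (W.filter (fun w => rep w ⊆ S)).card ≤ W.card := Finset.card_filter_le _ _
    apply Nat.le_of_mul_le_mul_right _ h0
    calc _ ≤ _ := hk
      _ ≤ 2 * 4 ^ h * (W.card * (W.filter (fun w => Disjoint (rep w) S)).card) :=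
        Nat.mul_le_mul_left _ (Nat.mul_le_mul_right _ this)
      _ = _ := by ring

/-- `W` plus the subset sums of `F` -/
def BS (W F : Finset ℕ) : Finset ℕ :=
  F.powerset.biUnion (fun S => W.image (fun w => w + ∑ x ∈ S, x))

lemma mem_BS {W F : Finset ℕ} {b : ℕ} : b ∈ BS W F ↔ ∃ S ⊆ F, ∃ w ∈ W, w + ∑ x ∈ S, x = b := by
  simp [BS]

lemma BS_insert (W F : Finset ℕ) (x : ℕ) (hx : x ∉ F) :
    BS W F ∪ (BS W F).image (fun b => b + x) ⊆ BS W (insert x F) := by
  intro c hc
  simp only [mem_union, mem_image, mem_BS] at hc ⊢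
  rcases hc with ⟨S, hS, w, hw, rfl⟩ | ⟨b, ⟨S, hS, w, hw, rfl⟩, rfl⟩
  · exact ⟨S, hS.trans (Finset.subset_insert _ _), w, hw, rfl⟩
  · refine ⟨insert x S, Finset.insert_subset_insert _ hS, w, hw, ?_⟩
    rw [Finset.sum_insert (fun h => hx (hS h))]
    ring

lemma BS_le (W F : Finset ℕ) (N : ℕ) (hW : ∀ w ∈ W, w ≤ N) (hF : ∀ x ∈ F, x ≤ N) :
    ∀ b ∈ BS W F, b ≤ (F.card + 1) * N := by
  intro b hb
  obtain ⟨S, hS, w, hw, rfl⟩ := mem_BS.1 hb
  have h1 : ∑ x ∈ S, x ≤ S.card * N := by
    calc _ ≤ ∑ _x ∈ S, N := Finset.sum_le_sum (fun x hx => hF x (hS hx))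
      _ = _ := by simp
  have h2 := Finset.card_le_card hS
  have h3 := hW w hw
  nlinarith

lemma sub_BS (W F : Finset ℕ) : W ⊆ BS W F := by
  intro w hw
  exact mem_BS.2 ⟨∅, Finset.empty_subset _, w, hw, by simp⟩

lemma exists_r (E D : ℕ) (hE : 1 ≤ E) :
    ∃ r : ℕ, ∀ s : ℕ, r < s → D * (s + 1) * E ^ s < (E + 1) ^ s := by
  have hE' : (0 : ℝ) < E := by exact_mod_cast hE
  have h1 : (1 : ℝ) < (E + 1) / E := by
    rw [lt_div_iff₀ hE']; linarith
  have h2 := tendsto_pow_const_div_const_pow_of_one_lt 1 h1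
  have hD : (0 : ℝ) < 1 / (2 * D + 1) := by positivity
  have h3 := (h2.eventually (gt_mem_nhds hD))
  obtain ⟨r, hr⟩ := Filter.eventually_atTop.1 h3
  refine ⟨r, fun s hs => ?_⟩
  have h4 := hr s hs.le
  have hs1 : (1 : ℝ) ≤ s := by exact_mod_cast (by omega : 1 ≤ s)
  rw [pow_one, div_pow, div_div_eq_mul_div, div_lt_div_iff₀ (by positivity) (by positivity)] at h4
  have h5 : (D : ℝ) * (s + 1) * (E : ℝ) ^ s < (E + 1) ^ s := by
    have hp : (0 : ℝ) < (E : ℝ) ^ s := by positivity
    have hD0 : (0 : ℝ) ≤ D := by positivity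
    have : (D : ℝ) * (s + 1) ≤ s * (2 * D + 1) := by nlinarith
    nlinarith
  exact_mod_cast h5

/-- adding boundedly many generators makes the set almost invariant -/
lemma growth (E D r : ℕ) (hE : 1 ≤ E)
    (hr : ∀ s : ℕ, r < s → D * (s + 1) * E ^ s < (E + 1) ^ s)
    (N : ℕ) (W X : Finset ℕ) (hW : ∀ w ∈ W, w ≤ N) (hX : ∀ x ∈ X, x ≤ N)
    (hD : N + 1 ≤ D * W.card) :
    ∃ F ⊆ X, F.card ≤ r ∧ ∀ x ∈ X, x ∉ F → E * lam (BS W F) x ≤ (BS W F).card := by
  have hE' : (0 : ℝ) < E := by exact_mod_cast hE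
  set ρ : ℝ := E / (E + 1) with hρ
  have hρ0 : 0 < ρ := by positivity
  obtain ⟨F, hF, hmax⟩ := Finset.exists_max_image X.powerset
    (fun F => ((BS W F).card : ℝ) * ρ ^ F.card) ⟨∅, by simp⟩
  rw [Finset.mem_powerset] at hF
  refine ⟨F, hF, ?_, ?_⟩
  · by_contra hcon
    push Not at hcon
    have h1 := hmax ∅ (by simp)
    simp only [card_empty, pow_zero, mul_one] at h1
    have h2 : W.card ≤ (BS W ∅).card := Finset.card_le_card (sub_BS _ _)
    have h3 : (BS W F).card ≤ (F.card + 1) * (N + 1) := by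
      have : BS W F ⊆ Finset.range ((F.card + 1) * N + 1) := by
        intro b hb
        have := BS_le W F N hW (fun x hx => hX x (hF hx)) b hb
        simp only [mem_range]; omega
      have := Finset.card_le_card this
      rw [Finset.card_range] at this
      nlinarith
    have h4 := hr _ hcon
    have h5 : ((BS W ∅).card : ℝ) * (E + 1) ^ F.card ≤ (BS W F).card * (E : ℝ) ^ F.card := by
      rw [hρ, div_pow, ← mul_div_assoc, le_div_iff₀ (by positivity)] at h1
      exact h1
    have h6 : (BS W ∅).card * (E + 1) ^ F.card ≤ (BS W F).card * E ^ F.card := by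
      exact_mod_cast h5
    have h7 : (N + 1) * (E + 1) ^ F.card ≤ D * ((F.card + 1) * (N + 1) * E ^ F.card) := by
      calc _ ≤ D * W.card * (E + 1) ^ F.card := Nat.mul_le_mul_right _ hD
        _ ≤ D * (BS W ∅).card * (E + 1) ^ F.card :=
          Nat.mul_le_mul_right _ (Nat.mul_le_mul_left _ h2)
        _ = D * ((BS W ∅).card * (E + 1) ^ F.card) := by ring
        _ ≤ D * ((BS W F).card * E ^ F.card) := Nat.mul_le_mul_left _ h6
        _ ≤ _ := Nat.mul_le_mul_left _ (Nat.mul_le_mul_right _ h3)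
    have h8 : (N + 1) * (D * (F.card + 1) * E ^ F.card) < (N + 1) * (E + 1) ^ F.card :=
      Nat.mul_lt_mul_of_pos_left h4 (by omega)
    nlinarith
  · intro x hx hxF
    have h1 := hmax (insert x F) (Finset.mem_powerset.2 (Finset.insert_subset hx hF))
    rw [Finset.card_insert_of_notMem hxF, pow_succ, ← mul_assoc] at h1
    have h2 := Finset.card_le_card (BS_insert W F x hxF)
    rw [card_union_shift] at h2
    have hp : 0 < ρ ^ F.card := by positivity
    have h3 : ((BS W (insert x F)).card : ℝ) * ρ ≤ (BS W F).card := by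
      have : ((BS W (insert x F)).card : ℝ) * ρ * ρ ^ F.card ≤ (BS W F).card * ρ ^ F.card := by
        calc _ = ((BS W (insert x F)).card : ℝ) * ρ ^ F.card * ρ := by ring
          _ ≤ _ := h1
      exact le_of_mul_le_mul_right this hp
    rw [hρ, ← mul_div_assoc, div_le_iff₀ (by positivity)] at h3
    have h4 : (BS W (insert x F)).card * E ≤ (BS W F).card * (E + 1) := by exact_mod_cast h3
    nlinarith

end Pool.Agent.H15.RO
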