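import Pool.Agent.H15.RO2

set_option autoImplicit false
open Finset

namespace Pool.Agent.H15.RO

lemma lemA (h D : ℕ) : ∃ E r q : ℕ, 1 ≤ q ∧ ∀ (N : ℕ) (X W : Finset ℕ) (rep : ℕ → Finset ℕ)
    (τ : ℕ), q ≤ N → (∀ x ∈ X, x ≤ N) → (∀ w ∈ W, w ≤ N) → (∀ w ∈ W, rep w ⊆ X) →
    (∀ w ∈ W, (rep w).card ≤ h) → (∀ w ∈ W, ∑ x ∈ rep w, x = w) → N + 1 ≤ D * W.card →
    (∀ x, deg W rep x ≤ τ) → E * τ ≤ N + 1 →
    ∃ a ρ : ℕ, a ≤ r * N ∧ ∀ m, a ≤ m → m ≤ a + 2 * N → m ≡ ρ [MOD q] →
      ∃ S ⊆ X, S.card ≤ r ∧ ∑ x ∈ S, x = m := by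
  obtain ⟨D', hD'⟩ : ∃ D', D' = 4 * 4 ^ h * D := ⟨_, rfl⟩
  obtain ⟨q, hq⟩ : ∃ q, q = (4 * D').factorial := ⟨_, rfl⟩
  have hq1 : 1 ≤ q := by rw [hq]; exact Nat.factorial_pos _
  obtain ⟨E', hE'⟩ : ∃ E', E' = 8 * h * D' * q + 1 := ⟨_, rfl⟩
  obtain ⟨r0, hr0⟩ := exists_r E' D' (by omega)
  refine ⟨2 * h * D + r0 * D', 2 * h + r0 + 2, q, hq1, ?_⟩
  intro N X W rep τ hqN hX hW hrX hrc hrs hD hdeg hE
  have hDpos : 0 < D := by
    rcases Nat.eq_zero_or_pos D with h0 | h0
    · rw [h0] at hD; omega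
    · exact h0
  have hτ1 : 2 * h * τ ≤ W.card := by
    apply Nat.le_of_mul_le_mul_left _ hDpos
    nlinarith [Nat.zero_le (r0 * D' * τ)]
  obtain ⟨S, hSX, hW1, hW2⟩ := split X W rep h τ hrX hrc hdeg hτ1
  set W1 := W.filter (fun w => rep w ⊆ S) with hW1def
  set W2 := W.filter (fun w => Disjoint (rep w) S) with hW2def
  have hD1 : N + 1 ≤ D' * W1.card := by
    calc N + 1 ≤ D * W.card := hD
      _ ≤ D * (2 * 4 ^ h * W1.card) := Nat.mul_le_mul_left _ hW1
      _ ≤ 2 * (D * (2 * 4 ^ h * W1.card)) := by omega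
      _ = D' * W1.card := by rw [hD']; ring
  obtain ⟨F, hF, hFr, hlam⟩ := growth E' D' r0 (by omega) hr0 N W1 (X \ S)
    (fun w hw => hW w (Finset.mem_filter.1 hw).1) (fun x hx => hX x (Finset.mem_sdiff.1 hx).1) hD1
  set B := BS W1 F with hB
  set W3 := W2.filter (fun w => Disjoint (rep w) F) with hW3def
  have hW3W : ∀ w ∈ W3, w ∈ W ∧ Disjoint (rep w) S ∧ Disjoint (rep w) F := by
    intro w hw
    rw [hW3def, Finset.mem_filter, hW2def, Finset.mem_filter] at hw
    exact ⟨hw.1.1, hw.1.2, hw.2⟩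
  have hD3 : N + 1 ≤ D' * W3.card := by
    have a1 := card_le_avoid W2 rep F
    rw [← hW3def] at a1
    have a2 : ∑ x ∈ F, deg W2 rep x ≤ r0 * τ := by
      calc _ ≤ ∑ _x ∈ F, τ := Finset.sum_le_sum (fun x _ =>
            (deg_mono (Finset.filter_subset _ _) rep x).trans (hdeg x))
        _ = F.card * τ := by simp
        _ ≤ _ := Nat.mul_le_mul_right _ hFr
    have a3 : W2.card ≤ W3.card + r0 * τ := by omega
    have a4 : 2 * (N + 1) ≤ D' * W2.card := by
      calc 2 * (N + 1) ≤ 2 * (D * W.card) := Nat.mul_le_mul_left _ hD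
        _ ≤ 2 * (D * (2 * 4 ^ h * W2.card)) := Nat.mul_le_mul_left _ (Nat.mul_le_mul_left _ hW2)
        _ = D' * W2.card := by rw [hD']; ring
    have a5 : D' * W2.card ≤ D' * (W3.card + r0 * τ) := Nat.mul_le_mul_left _ a3
    have a6 : r0 * D' * τ ≤ N + 1 := by nlinarith [Nat.zero_le (2 * h * D * τ)]
    nlinarith
  have hlamw : ∀ w ∈ W3, E' * lam B w ≤ h * B.card := by
    intro w hw
    obtain ⟨h1, h2, h3⟩ := hW3W w hw
    have b1 := lam_sum B (rep w)
    rw [hrs w h1] at b1
    calc E' * lam B w ≤ E' * ∑ x ∈ rep w, lam B x := Nat.mul_le_mul_left _ b1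
      _ = ∑ x ∈ rep w, E' * lam B x := Finset.mul_sum _ _ _
      _ ≤ ∑ _x ∈ rep w, B.card := by
          apply Finset.sum_le_sum
          intro x hx
          exact hlam x (Finset.mem_sdiff.2 ⟨hrX w h1 hx, Finset.disjoint_left.1 h2 hx⟩)
            (Finset.disjoint_left.1 h3 hx)
      _ = (rep w).card * B.card := by simp
      _ ≤ _ := Nat.mul_le_mul_right _ (hrc w h1)
  obtain ⟨L, hL⟩ : ∃ L, L = 3 * N / q + 1 := ⟨_, rfl⟩
  have hlamq : ∀ d < L, lam B (q * d) ≤ 2 * q * h * B.card / E' := by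
    intro d hd
    rw [Nat.le_div_iff_mul_le (by omega)]
    have c1 : q * d ≤ 3 * N := by
      have : d ≤ 3 * N / q := by omega
      calc q * d ≤ q * (3 * N / q) := Nat.mul_le_mul_left _ this
        _ ≤ 3 * N := Nat.mul_div_le _ _
    have c2 : 4 * D' * d ≤ 3 * N :=
      le_trans (Nat.mul_le_mul_right _ (by rw [hq]; exact Nat.self_le_factorial _)) c1
    obtain ⟨t, ht1, ht2, w, hw, w', hw', he⟩ :=
      diff_multiple W3 N D' d (fun w hw => hW w (hW3W w hw).1) hD3 c2
    obtain ⟨k, hk⟩ : t ∣ q := by rw [hq]; exact Nat.dvd_factorial (by omega) ht2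
    have c3 : k ≤ q := by rw [hk]; nlinarith
    have c4 : lam B (q * d) ≤ k * lam B (t * d) := by
      have : q * d = k * (t * d) := by rw [hk]; ring
      rw [this]; exact lam_mul _ _ _
    have c5 := lam_sub B w (t * d)
    rw [he] at c5
    have c6 := hlamw w hw
    have c7 := hlamw w' hw'
    calc lam B (q * d) * E' ≤ k * lam B (t * d) * E' := Nat.mul_le_mul_right _ c4
      _ ≤ q * (lam B w' + lam B w) * E' := Nat.mul_le_mul_right _ (Nat.mul_le_mul c3 c5)
      _ = q * (E' * lam B w' + E' * lam B w) := by ring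
      _ ≤ q * (h * B.card + h * B.card) := Nat.mul_le_mul_left _ (by omega)
      _ = _ := by ring
  have hW1ne : W1.Nonempty := by
    rw [← Finset.card_pos]
    rcases Nat.eq_zero_or_pos W1.card with h0 | h0
    · rw [h0] at hD1; omega
    · exact h0
  have hBne : B.Nonempty := hW1ne.mono (sub_BS _ _)
  obtain ⟨b, hb, hg⟩ := dense_prog B hBne q L _ hlamq
  set g := ((Finset.range L).filter (fun i => b + q * i ∉ B)).card with hgdef
  have hBpos : 0 < B.card := Finset.card_pos.2 hBne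
  have hg2 : g * E' ≤ 8 * h * N := by
    have d1 : 2 * q * h * B.card / E' * E' ≤ 2 * q * h * B.card := Nat.div_mul_le_self _ _
    have d2 : q * L ≤ 4 * N := by
      have := Nat.mul_div_le (3 * N) q
      rw [hL, Nat.mul_add]; omega
    apply Nat.le_of_mul_le_mul_right _ hBpos
    calc g * E' * B.card = g * B.card * E' := by ring
      _ ≤ L * (2 * q * h * B.card / E') * E' := Nat.mul_le_mul_right _ hg
      _ = L * (2 * q * h * B.card / E' * E') := by ring
      _ ≤ L * (2 * q * h * B.card) := Nat.mul_le_mul_left _ d1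
      _ = q * L * (2 * h * B.card) := by ring
      _ ≤ 4 * N * (2 * h * B.card) := Nat.mul_le_mul_right _ d2
      _ = _ := by ring
  have hg3 : q * g < W3.card := by
    by_contra hcon
    push Not at hcon
    have e1 : N + 1 ≤ D' * (q * g) := hD3.trans (Nat.mul_le_mul_left _ hcon)
    have e2 : 8 * h * (N + 1) ≤ 8 * h * (D' * (q * g)) := Nat.mul_le_mul_left _ e1
    have e3 : g * E' = 8 * h * (D' * (q * g)) + g := by rw [hE']; ring
    have e4 : 0 < g := by
      rcases Nat.eq_zero_or_pos g with h0 | h0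
      · rw [h0] at e1; simp at e1
      · exact h0
    nlinarith
  obtain ⟨ρ, -, hρ⟩ := Finset.exists_lt_card_fiber_of_mul_lt_card_of_maps_to
    (s := W3) (t := Finset.range q) (f := fun w => w % q) (n := g)
    (fun w _ => Finset.mem_range.2 (Nat.mod_lt _ hq1)) (by rwa [Finset.card_range])
  have hble : b ≤ (r0 + 1) * N := by
    have := BS_le W1 F N (fun w hw => hW w (Finset.mem_filter.1 hw).1)
      (fun x hx => hX x (Finset.mem_sdiff.1 (hF hx)).1) b hb
    exact this.trans (Nat.mul_le_mul_right _ (by omega))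
  refine ⟨b + N, b + ρ, by nlinarith [Nat.zero_le (2 * h * N)], ?_⟩
  intro m hm1 hm2 hm3
  have hex : ∃ w ∈ W3, m - w ∈ B := by
    by_contra hcon
    push Not at hcon
    have f1 : (W3.filter (fun w => w % q = ρ)).card ≤ g := by
      have hdiv : ∀ w ∈ W3.filter (fun w => w % q = ρ), b + q * ((m - w - b) / q) = m - w := by
        intro w hw
        rw [Finset.mem_filter] at hw
        have g1 := hW w (hW3W w hw.1).1
        have g2 : q ∣ m - (w + b) := by
          apply (Nat.modEq_iff_dvd' (by omega)).1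
          have : w ≡ ρ [MOD q] := by rw [← hw.2]; exact (Nat.mod_modEq w q).symm
          calc w + b ≡ ρ + b [MOD q] := this.add_right _
            _ = b + ρ := add_comm _ _
            _ ≡ m [MOD q] := hm3.symm
        have g3 : m - w - b = m - (w + b) := by omega
        rw [g3, Nat.mul_div_cancel' g2]
        omega
      apply Finset.card_le_card_of_injOn (fun w => (m - w - b) / q)
      · intro w hw
        have g0 := hdiv w hw
        simp only [coe_filter, Set.mem_ofPred_eq, mem_range] at hw ⊢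
        have g1 := hW w (hW3W w hw.1).1
        refine ⟨?_, ?_⟩
        · have : (m - w - b) / q ≤ 3 * N / q := Nat.div_le_div_right (by omega)
          omega
        · rw [g0]; exact hcon w hw.1
      · intro w hw w' hw' he
        have g0 := hdiv w hw
        have g0' := hdiv w' hw'
        simp only [coe_filter, Set.mem_ofPred_eq] at hw hw'
        have g1 := hW w (hW3W w hw.1).1
        have g1' := hW w' (hW3W w' hw'.1).1
        have he' : (m - w - b) / q = (m - w' - b) / q := he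
        rw [he'] at g0
        omega
    omega
  obtain ⟨w, hw, hwB⟩ := hex
  obtain ⟨S', hS', w1, hw1, he⟩ := mem_BS.1 hwB
  obtain ⟨h1, h2, h3⟩ := hW3W w hw
  rw [hW1def, Finset.mem_filter] at hw1
  have g1 := hW w h1
  have dj1 : Disjoint (rep w1) S' := by
    rw [Finset.disjoint_left]
    intro x hx hx'
    exact (Finset.mem_sdiff.1 (hF (hS' hx'))).2 (hw1.2 hx)
  have dj2 : Disjoint (rep w1 ∪ S') (rep w) := by
    rw [Finset.disjoint_union_left]
    exact ⟨(Finset.disjoint_of_subset_right hw1.2 h2).symm,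
      (Finset.disjoint_of_subset_right hS' h3).symm⟩
  refine ⟨rep w1 ∪ S' ∪ rep w, ?_, ?_, ?_⟩
  · exact Finset.union_subset (Finset.union_subset (hrX _ hw1.1)
      (hS'.trans (hF.trans Finset.sdiff_subset))) (hrX _ h1)
  · have := Finset.card_union_le (rep w1 ∪ S') (rep w)
    have := Finset.card_union_le (rep w1) S'
    have := hrc _ hw1.1
    have := hrc _ h1
    have := Finset.card_le_card hS'
    omega
  · rw [Finset.sum_union dj2, Finset.sum_union dj1, hrs _ hw1.1, hrs _ h1]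
    omega

end Pool.Agent.H15.RO
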