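import Pool.Agent.H15.RO3

set_option autoImplicit false
open Finset

namespace Pool.Agent.H15.RO

/-- `m` is a sum of at most `j` elements of `A`, repetition allowed -/
def Rep (A : Set ℕ) (j m : ℕ) : Prop :=
  ∃ s : Multiset ℕ, Multiset.card s ≤ j ∧ (∀ x ∈ s, x ∈ A) ∧ s.sum = m

open Classical in
noncomputable def T (A : Set ℕ) (j N : ℕ) : Finset ℕ := (Finset.range (N + 1)).filter (Rep A j)

lemma mem_T {A : Set ℕ} {j N m : ℕ} : m ∈ T A j N ↔ m ≤ N ∧ Rep A j m := by
  unfold T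
  simp only [mem_filter, mem_range]
  rw [Nat.lt_succ_iff]

lemma card_T_zero (A : Set ℕ) (N : ℕ) : (T A 0 N).card ≤ 1 := by
  rw [Finset.card_le_one]
  intro a ha b hb
  obtain ⟨-, s, h1, -, h3⟩ := mem_T.1 ha
  obtain ⟨-, s', h1', -, h3'⟩ := mem_T.1 hb
  have e1 : s = 0 := Multiset.card_eq_zero.1 (by omega)
  have e2 : s' = 0 := Multiset.card_eq_zero.1 (by omega)
  subst e1 e2
  rw [← h3, ← h3']

lemma card_T_pos (A : Set ℕ) (j N : ℕ) : 0 < (T A j N).card :=
  Finset.card_pos.2 ⟨0, mem_T.2 ⟨by omega, 0, by simp, by simp, by simp⟩⟩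

lemma card_T_top (A : Set ℕ) (h N0 N : ℕ) (hA : ∀ n ≥ N0, Rep A h n) (hN : 2 * N0 ≤ N) :
    N + 1 ≤ 2 * (T A h N).card := by
  have h1 : Finset.Icc N0 N ⊆ T A h N := by
    intro m hm
    rw [Finset.mem_Icc] at hm
    exact mem_T.2 ⟨hm.2, hA m hm.1⟩
  have := Finset.card_le_card h1
  rw [Nat.card_Icc] at this
  omega

lemma exists_best (A : Set ℕ) (j m : ℕ) (h : Rep A j m) :
    ∃ s : Multiset ℕ, (Multiset.card s ≤ j ∧ (∀ x ∈ s, x ∈ A) ∧ s.sum = m) ∧
      ∀ s' : Multiset ℕ, (Multiset.card s' ≤ j ∧ (∀ x ∈ s', x ∈ A) ∧ s'.sum = m) →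
        s'.toFinset.card ≤ s.toFinset.card := by
  classical
  let P : ℕ → Prop := fun k => ∃ s : Multiset ℕ,
    (Multiset.card s ≤ j ∧ (∀ x ∈ s, x ∈ A) ∧ s.sum = m) ∧ s.toFinset.card = k
  obtain ⟨s0, hs0⟩ := h
  have h0 : P s0.toFinset.card := ⟨s0, hs0, rfl⟩
  have hb : s0.toFinset.card ≤ j := (Multiset.toFinset_card_le s0).trans hs0.1
  obtain ⟨s, hs, hk⟩ := Nat.findGreatest_spec (P := P) hb h0
  refine ⟨s, hs, fun s' hs' => ?_⟩
  rw [hk]
  exact Nat.le_findGreatest ((Multiset.toFinset_card_le s').trans hs'.1) ⟨s', hs', rfl⟩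

lemma light (A : Set ℕ) (j N : ℕ) : ∃ (W : Finset ℕ) (rep : ℕ → Finset ℕ),
    (∀ w ∈ W, w ≤ N) ∧ (∀ w ∈ W, (↑(rep w) : Set ℕ) ⊆ A) ∧ (∀ w ∈ W, (rep w).card ≤ j + 1) ∧
    (∀ w ∈ W, ∑ x ∈ rep w, x = w) ∧
    (T A (j + 1) N).card ≤ W.card + (j + 1) * (T A j N).card ∧
    ∀ x, deg W rep x ≤ (T A j N).card := by
  classical
  let Q : ℕ → Prop := fun w => ∃ S : Finset ℕ, (↑S : Set ℕ) ⊆ A ∧ S.card ≤ j + 1 ∧ ∑ x ∈ S, x = w
  let rep : ℕ → Finset ℕ := fun w => if hw : Q w then Classical.choose hw else ∅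
  have hrep : ∀ w, Q w → (↑(rep w) : Set ℕ) ⊆ A ∧ (rep w).card ≤ j + 1 ∧ ∑ x ∈ rep w, x = w := by
    intro w hw
    have := Classical.choose_spec hw
    simp only [rep, dif_pos hw]
    exact this
  let W := (Finset.range (N + 1)).filter Q
  have hW : ∀ w, w ∈ W ↔ w ≤ N ∧ Q w := by
    intro w
    simp only [W, mem_filter, mem_range]
    rw [Nat.lt_succ_iff]
  let best : ℕ → Multiset ℕ := fun u =>
    if hu : Rep A j u then Classical.choose (exists_best A j u hu) else 0
  have hbest : ∀ u, Rep A j u → (Multiset.card (best u) ≤ j ∧ (∀ x ∈ best u, x ∈ A) ∧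
      (best u).sum = u) ∧ ∀ s' : Multiset ℕ,
        (Multiset.card s' ≤ j ∧ (∀ x ∈ s', x ∈ A) ∧ s'.sum = u) →
        s'.toFinset.card ≤ (best u).toFinset.card := by
    intro u hu
    have := Classical.choose_spec (exists_best A j u hu)
    simp only [best, dif_pos hu]
    exact this
  refine ⟨W, rep, fun w hw => ((hW w).1 hw).1, fun w hw => (hrep w ((hW w).1 hw).2).1,
    fun w hw => (hrep w ((hW w).1 hw).2).2.1, fun w hw => (hrep w ((hW w).1 hw).2).2.2, ?_, ?_⟩
  · have h1 : T A (j + 1) N ⊆ W ∪ (T A j N ∪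
        (T A j N).biUnion (fun u => (best u).toFinset.image (fun x => u + x))) := by
      intro w hw
      obtain ⟨hwN, hwR⟩ := mem_T.1 hw
      obtain ⟨s, ⟨hs1, hs2, hs3⟩, hs4⟩ := exists_best A (j + 1) w hwR
      simp only [mem_union, mem_biUnion, mem_image, Multiset.mem_toFinset]
      by_cases hnd : s.Nodup
      · left
        refine (hW w).2 ⟨hwN, ⟨s, hnd⟩, fun x hx => hs2 x hx, hs1, ?_⟩
        rw [← hs3]
        simp [Finset.sum]
      · right
        right
        rw [Multiset.nodup_iff_count_le_one] at hnd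
        push Not at hnd
        obtain ⟨x, hx⟩ := hnd
        have hxs : x ∈ s := Multiset.count_pos.1 (by omega)
        obtain ⟨s', rfl⟩ := Multiset.exists_cons_of_mem hxs
        rw [Multiset.count_cons_self] at hx
        have hxs' : x ∈ s' := Multiset.count_pos.1 (by omega)
        rw [Multiset.card_cons] at hs1
        rw [Multiset.sum_cons] at hs3
        have hR : Multiset.card s' ≤ j ∧ (∀ y ∈ s', y ∈ A) ∧ s'.sum = s'.sum :=
          ⟨by omega, fun y hy => hs2 y (Multiset.mem_cons_of_mem hy), rfl⟩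
        obtain ⟨⟨b1, b2, b3⟩, b4⟩ := hbest s'.sum ⟨s', hR⟩
        refine ⟨s'.sum, mem_T.2 ⟨by omega, s', hR⟩, x, ?_, by omega⟩
        by_contra hxb
        have c1 := hs4 (x ::ₘ best s'.sum) ⟨by rw [Multiset.card_cons]; omega, by
          intro y hy
          rcases Multiset.mem_cons.1 hy with rfl | hy
          · exact hs2 _ hxs
          · exact b2 y hy, by rw [Multiset.sum_cons, b3]; exact hs3⟩
        have c2 := b4 s' hR
        rw [Multiset.toFinset_cons, Multiset.toFinset_cons,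
          Finset.card_insert_of_notMem (by simpa using hxb),
          Finset.insert_eq_of_mem (by simpa using hxs')] at c1
        omega
    have h2 : ((T A j N).biUnion (fun u => (best u).toFinset.image (fun x => u + x))).card ≤
        j * (T A j N).card := by
      calc _ ≤ _ := Finset.card_biUnion_le
        _ ≤ ∑ _u ∈ T A j N, j := by
          apply Finset.sum_le_sum
          intro u hu
          exact Finset.card_image_le.trans ((Multiset.toFinset_card_le _).trans
            (hbest u (mem_T.1 hu).2).1.1)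
        _ = _ := by simp [mul_comm]
    have h3 := Finset.card_le_card h1
    have h4 := Finset.card_union_le W (T A j N ∪
        (T A j N).biUnion (fun u => (best u).toFinset.image (fun x => u + x)))
    have h5 := Finset.card_union_le (T A j N)
        ((T A j N).biUnion (fun u => (best u).toFinset.image (fun x => u + x)))
    nlinarith
  · intro x
    unfold deg
    have hsum : ∀ w ∈ W.filter (fun w => x ∈ rep w), x + ∑ y ∈ (rep w).erase x, y = w := by
      intro w hw
      rw [Finset.mem_filter] at hw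
      rw [Finset.add_sum_erase (rep w) (fun y => y) hw.2]
      exact (hrep w ((hW w).1 hw.1).2).2.2
    apply Finset.card_le_card_of_injOn (fun w => w - x)
    · intro w hw
      have h0 := hsum w hw
      simp only [coe_filter, Set.mem_ofPred_eq] at hw
      obtain ⟨hwN, hwQ⟩ := (hW w).1 hw.1
      obtain ⟨r1, r2, r3⟩ := hrep w hwQ
      simp only [mem_coe]
      refine mem_T.2 ⟨by omega, ((rep w).erase x).val, ?_, ?_, ?_⟩
      · have := Finset.card_erase_of_mem hw.2
        have h9 : Multiset.card ((rep w).erase x).val = ((rep w).erase x).card := rfl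
        omega
      · intro y hy
        exact r1 (Finset.mem_of_mem_erase hy)
      · have h9 : ((rep w).erase x).val.sum = ∑ y ∈ (rep w).erase x, y := by
          simp [Finset.sum]
        omega
    · intro w hw w' hw' he
      have h0 := hsum w hw
      have h0' := hsum w' hw'
      have he' : w - x = w' - x := he
      omega

/-- the iterates of a map, started at 2 -/
def seqD (φ : ℕ → ℕ) : ℕ → ℕ
  | 0 => 2
  | i + 1 => φ (seqD φ i)

lemma hier (A : Set ℕ) (h N0 N : ℕ) (φ : ℕ → ℕ) (hA : ∀ n ≥ N0, Rep A h n) (hN : 2 * N0 ≤ N)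
    (hN2 : seqD φ h ≤ N) : ∃ i j, i + j + 1 = h ∧ N + 1 ≤ seqD φ i * (T A (j + 1) N).card ∧
      φ (seqD φ i) * (T A j N).card < N + 1 := by
  obtain ⟨i, hi, h1, h2⟩ := exists_step (fun i => N + 1 ≤ seqD φ i * (T A (h - i) N).card) h
    (by simpa [seqD] using card_T_top A h N0 N hA hN) (by
      have := card_T_zero A N
      rw [Nat.sub_self]
      have : seqD φ h * (T A 0 N).card ≤ seqD φ h * 1 := Nat.mul_le_mul_left _ this
      omega)
  refine ⟨i, h - (i + 1), by omega, ?_, ?_⟩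
  · have : h - (i + 1) + 1 = h - i := by omega
    rw [this]; exact h1
  · push Not at h2
    exact h2

open Classical in
lemma many_large (h : ℕ) (ψ : ℕ → ℕ) : ∃ C : ℕ, ∀ (A : Set ℕ) (N0 N : ℕ),
    (∀ n ≥ N0, Rep A h n) → 2 * N0 ≤ N → C ≤ N → ∃ c, 1 ≤ c ∧ c ≤ C ∧
      ψ c ≤ ((Finset.range (N + 1)).filter (fun x => x ∈ A ∧ N + 1 ≤ c * x)).card := by
  let φ : ℕ → ℕ := fun D => 2 * D * ψ (4 * h * D)
  refine ⟨∑ i ∈ Finset.range (h + 1), 4 * (h + 1) * seqD φ i, ?_⟩
  intro A N0 N hA hN hC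
  have hle : ∀ i ≤ h, 4 * (h + 1) * seqD φ i ≤
      ∑ i ∈ Finset.range (h + 1), 4 * (h + 1) * seqD φ i := by
    intro i hi
    exact Finset.single_le_sum (f := fun i => 4 * (h + 1) * seqD φ i)
      (fun _ _ => Nat.zero_le _) (Finset.mem_range.2 (by omega))
  obtain ⟨i, j, hij, h1, h2⟩ := hier A h N0 N φ hA hN (by
    have := hle h le_rfl
    nlinarith [Nat.zero_le (h * seqD φ h)])
  obtain ⟨D, hD⟩ : ∃ D, D = seqD φ i := ⟨_, rfl⟩
  rw [← hD] at h1 h2
  have hle' := hle i (by omega)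
  rw [← hD] at hle'
  have hDpos : 0 < D := by
    rcases Nat.eq_zero_or_pos D with h0 | h0
    · rw [h0] at h1; omega
    · exact h0
  have hh : 0 < h := by omega
  refine ⟨4 * h * D, Nat.mul_pos (by omega) hDpos, by nlinarith, ?_⟩
  set Y := (Finset.range (N + 1)).filter (fun x => x ∈ A ∧ N + 1 ≤ 4 * h * D * x) with hY
  have a1 : T A (j + 1) N ⊆ Finset.range (N / (4 * D) + 1) ∪
      Y.biUnion (fun y => (T A j N).image (fun u => y + u)) := by
    intro m hm
    obtain ⟨hmN, s, s1, s2, s3⟩ := mem_T.1 hm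
    simp only [mem_union, mem_range, mem_biUnion, mem_image]
    by_cases hall : ∀ x ∈ s, 4 * h * D * x ≤ N
    · left
      rw [Nat.lt_succ_iff, Nat.le_div_iff_mul_le (by omega)]
      have b1 : (s.map (fun x => 4 * h * D * x)).sum ≤
          Multiset.card (s.map (fun x => 4 * h * D * x)) • N := by
        apply Multiset.sum_le_card_nsmul
        intro y hy
        obtain ⟨x, hx, rfl⟩ := Multiset.mem_map.1 hy
        exact hall x hx
      rw [Multiset.sum_map_mul_left, Multiset.map_id', s3, Multiset.card_map, smul_eq_mul] at b1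
      have b2 : Multiset.card s * N ≤ h * N := Nat.mul_le_mul_right _ (by omega)
      apply Nat.le_of_mul_le_mul_left _ hh
      nlinarith
    · right
      push Not at hall
      obtain ⟨x, hx, hx2⟩ := hall
      obtain ⟨s', rfl⟩ := Multiset.exists_cons_of_mem hx
      rw [Multiset.card_cons] at s1
      rw [Multiset.sum_cons] at s3
      refine ⟨x, ?_, s'.sum, mem_T.2 ⟨by omega, s', by omega,
        fun y hy => s2 y (Multiset.mem_cons_of_mem hy), rfl⟩, s3⟩
      rw [hY, Finset.mem_filter, Finset.mem_range]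
      exact ⟨by omega, s2 x hx, by omega⟩
  have a2 : (Y.biUnion (fun y => (T A j N).image (fun u => y + u))).card ≤
      Y.card * (T A j N).card := by
    calc _ ≤ _ := Finset.card_biUnion_le
      _ ≤ ∑ _y ∈ Y, (T A j N).card := Finset.sum_le_sum (fun y _ => Finset.card_image_le)
      _ = _ := by simp
  have a3 := (Finset.card_le_card a1).trans (Finset.card_union_le _ _)
  rw [Finset.card_range] at a3
  have a4 : N / (4 * D) * (4 * D) ≤ N := Nat.div_mul_le_self _ _
  have a5 : 4 * D ≤ N := by nlinarith [Nat.zero_le (h * D)]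
  have a6 : (T A (j + 1) N).card ≤ N / (4 * D) + 1 + Y.card * (T A j N).card := by omega
  have a7 : 4 * (N + 1) ≤ 4 * D * (N / (4 * D) + 1 + Y.card * (T A j N).card) := by
    calc _ ≤ 4 * (D * (T A (j + 1) N).card) := Nat.mul_le_mul_left _ h1
      _ ≤ 4 * (D * (N / (4 * D) + 1 + Y.card * (T A j N).card)) :=
        Nat.mul_le_mul_left _ (Nat.mul_le_mul_left _ a6)
      _ = _ := by ring
  have a8 : N + 1 ≤ 2 * D * Y.card * (T A j N).card := by nlinarith
  by_contra hcon
  push Not at hcon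
  have a9 : 2 * D * Y.card * (T A j N).card ≤ φ D * (T A j N).card :=
    Nat.mul_le_mul_right _ (Nat.mul_le_mul_left _ hcon.le)
  omega

lemma small_residue (A : Set ℕ) (q ρ : ℕ) (hq : 1 ≤ q)
    (h : ∃ S : Finset ℕ, (↑S : Set ℕ) ⊆ A ∧ ∑ x ∈ S, x ≡ ρ [MOD q]) :
    ∃ S : Finset ℕ, (↑S : Set ℕ) ⊆ A ∧ S.card ≤ 2 * q ∧ ∑ x ∈ S, x ≡ ρ [MOD q] := by
  obtain ⟨S, h1, h2⟩ := h
  induction hk : S.card using Nat.strong_induction_on generalizing S with
  | _ k ih =>
    by_cases hS : S.card ≤ 2 * q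
    · exact ⟨S, h1, hS, h2⟩
    · obtain ⟨t, ht, htc, hd⟩ := Int.erdos_ginzburg_ziv (n := q) (s := S) (fun x => (x : ℤ))
        (by omega)
      have hd' : q ∣ ∑ x ∈ t, x := by
        rw [← Int.natCast_dvd_natCast, Nat.cast_sum]; exact hd
      have hsum := Finset.sum_sdiff (f := fun x => x) ht
      have hc := Finset.card_sdiff_add_card_eq_card ht
      apply ih (S \ t).card (by omega) (S \ t)
        (fun x hx => h1 (Finset.mem_sdiff.1 hx).1) ?_ rfl
      calc ∑ x ∈ S \ t, x ≡ ∑ x ∈ S \ t, x + ∑ x ∈ t, x [MOD q] := by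
            have := ((Nat.modEq_zero_iff_dvd).2 hd').add_left (∑ x ∈ S \ t, x)
            simpa using this.symm
        _ = ∑ x ∈ S, x := hsum
        _ ≡ ρ [MOD q] := h2

lemma residue_set (A : Set ℕ) (q : ℕ) (hq : 1 ≤ q)
    (h : ∀ ρ, ∃ S : Finset ℕ, (↑S : Set ℕ) ⊆ A ∧ ∑ x ∈ S, x ≡ ρ [MOD q]) :
    ∃ G : Finset ℕ, (↑G : Set ℕ) ⊆ A ∧ G.card ≤ 2 * q * q ∧
      ∀ ρ, ∃ S ⊆ G, S.card ≤ 2 * q ∧ ∑ x ∈ S, x ≡ ρ [MOD q] := by
  choose f hf1 hf2 hf3 using fun ρ => small_residue A q ρ hq (h ρ)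
  refine ⟨(Finset.range q).biUnion f, ?_, ?_, ?_⟩
  · intro x hx
    simp only [coe_biUnion, mem_coe, Set.mem_iUnion] at hx
    obtain ⟨ρ, -, hx⟩ := hx
    exact hf1 ρ hx
  · calc _ ≤ _ := Finset.card_biUnion_le
      _ ≤ ∑ _y ∈ Finset.range q, 2 * q := Finset.sum_le_sum (fun y _ => hf2 y)
      _ = _ := by simp [mul_comm]
  · intro ρ
    refine ⟨f (ρ % q), Finset.subset_biUnion_of_mem f (Finset.mem_range.2 (Nat.mod_lt _ hq)),
      hf2 _, (hf3 _).trans (Nat.mod_modEq _ _)⟩

end Pool.Agent.H15.RO
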