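import Pool.Agent.H15.RO4

set_option autoImplicit false
open Finset

namespace Pool.Agent.H15.RO

lemma le_sum_range (f : ℕ → ℕ) {i n : ℕ} (hi : i ≤ n) : f i ≤ ∑ k ∈ Finset.range (n + 1), f k :=
  Finset.single_le_sum (f := f) (fun _ _ => Nat.zero_le _) (Finset.mem_range.2 (by omega))

/-- Main theorem: a basis of order `h` whose finite subset sums meet every residue class has
restricted order bounded in terms of `h` alone. -/
theorem main (h : ℕ) : ∃ t : ℕ, ∀ (A : Set ℕ) (N0 : ℕ), (∀ n ≥ N0, Rep A h n) →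
    (∀ q, 1 ≤ q → ∀ ρ, ∃ S : Finset ℕ, (↑S : Set ℕ) ⊆ A ∧ ∑ x ∈ S, x ≡ ρ [MOD q]) →
    ∃ N1, ∀ n ≥ N1, ∃ S : Finset ℕ, (↑S : Set ℕ) ⊆ A ∧ S.card ≤ t ∧ ∑ x ∈ S, x = n := by
  classical
  choose E r q hq hA using lemA h
  let φ : ℕ → ℕ := fun D => E (2 * D) + 4 * D * (h + 2 * q (2 * D) * q (2 * D))
  obtain ⟨Dm, hDm⟩ : ∃ Dm, ∀ i ≤ h, seqD φ i ≤ Dm :=
    ⟨_, fun i hi => le_sum_range (seqD φ) hi⟩
  obtain ⟨rm, hrm⟩ : ∃ rm, ∀ i ≤ h, r (2 * seqD φ i) ≤ rm :=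
    ⟨_, fun i hi => le_sum_range (fun i => r (2 * seqD φ i)) hi⟩
  obtain ⟨qm, hqm⟩ : ∃ qm, ∀ i ≤ h, q (2 * seqD φ i) ≤ qm :=
    ⟨_, fun i hi => le_sum_range (fun i => q (2 * seqD φ i)) hi⟩
  obtain ⟨R, hR⟩ : ∃ R, R = rm + 1 := ⟨_, rfl⟩
  obtain ⟨C, hC⟩ := many_large h (fun c => c * R + h * (4 * Dm * (c * R)))
  refine ⟨rm + C * R + 2 * qm, ?_⟩
  intro A N0 hbasis hres
  choose G hG1 hG2 hG3 using fun D => residue_set A (q (2 * D)) (hq _) (hres _ (hq _))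
  obtain ⟨σ, hσ⟩ : ∃ σ, ∀ i ≤ h, ∑ x ∈ G (seqD φ i), x ≤ σ :=
    ⟨_, fun i hi => le_sum_range (fun i => ∑ x ∈ G (seqD φ i), x) hi⟩
  refine ⟨R * (2 * N0 + C + Dm + qm + σ + C * σ), ?_⟩
  intro n hn
  have hRpos : 0 < R := by omega
  obtain ⟨N, hN⟩ : ∃ N, N = n / R := ⟨_, rfl⟩
  have hN1 : 2 * N0 + C + Dm + qm + σ + C * σ ≤ N := by
    rw [hN, Nat.le_div_iff_mul_le hRpos, mul_comm]; exact hn
  have hN2 : R * N ≤ n := by rw [hN]; exact Nat.mul_div_le _ _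
  have hN3 : n < R * (N + 1) := by rw [hN]; exact Nat.lt_mul_div_succ _ hRpos
  obtain ⟨i, j, hij, h1, h2⟩ := hier A h N0 N φ hbasis (by omega) (by
    have := hDm h le_rfl
    omega)
  have e1 := hDm i (by omega)
  have e2 := hrm i (by omega)
  have e3 := hqm i (by omega)
  have e4 := hσ i (by omega)
  obtain ⟨D, hD⟩ : ∃ D, D = seqD φ i := ⟨_, rfl⟩
  rw [← hD] at h1 h2 e1 e2 e3 e4
  obtain ⟨τ, hτ⟩ : ∃ τ, τ = (T A j N).card := ⟨_, rfl⟩
  obtain ⟨W, rep, w1, w2, w3, w4, w5, w6⟩ := light A j N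
  rw [← hτ] at h2 w5 w6
  have h2' : (E (2 * D) + 4 * D * (h + 2 * q (2 * D) * q (2 * D))) * τ < N + 1 := h2
  obtain ⟨c, hc1, hc2, hc3⟩ := hC A N0 N hbasis (by omega) (by omega)
  set Y := (Finset.range (N + 1)).filter (fun x => x ∈ A ∧ N + 1 ≤ c * x) with hY
  obtain ⟨M, hM⟩ : ∃ M, M = c * R := ⟨_, rfl⟩
  rw [← hM] at hc3
  have hMpos : 0 < M := by rw [hM]; exact Nat.mul_pos hc1 hRpos
  have hWN : W.card ≤ N + 1 := by
    have : W ⊆ Finset.range (N + 1) := fun w hw => Finset.mem_range.2 (by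
      have := w1 w hw
      omega)
    simpa using Finset.card_le_card this
  have hbad : (Y.filter (fun x => ¬ 4 * Dm * M * deg W rep x ≤ N + 1)).card ≤
      h * (4 * Dm * M) := by
    set Z := Y.filter (fun x => ¬ 4 * Dm * M * deg W rep x ≤ N + 1) with hZ
    have b1 := sum_deg_le W rep h (fun w hw => (w3 w hw).trans (by omega)) Z
    have b2 : ∑ _x ∈ Z, (N + 1) ≤ ∑ x ∈ Z, 4 * Dm * M * deg W rep x := by
      apply Finset.sum_le_sum
      intro x hx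
      have := (Finset.mem_filter.1 hx).2
      omega
    rw [Finset.sum_const, smul_eq_mul, ← Finset.mul_sum] at b2
    apply Nat.le_of_mul_le_mul_right _ (show 0 < N + 1 by omega)
    calc _ ≤ _ := b2
      _ ≤ 4 * Dm * M * (h * (N + 1)) :=
        Nat.mul_le_mul_left _ (b1.trans (Nat.mul_le_mul_left _ hWN))
      _ = _ := by ring
  have hgood : M ≤ (Y.filter (fun x => 4 * Dm * M * deg W rep x ≤ N + 1)).card := by
    have := Finset.card_filter_add_card_filter_not (s := Y)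
      (fun x => 4 * Dm * M * deg W rep x ≤ N + 1)
    omega
  obtain ⟨Ff, hFf1, hFf2⟩ := Finset.exists_subset_card_eq hgood
  have hFf : ∀ x ∈ Ff, x ≤ N ∧ x ∈ A ∧ N + 1 ≤ c * x ∧ 4 * Dm * M * deg W rep x ≤ N + 1 := by
    intro x hx
    have := hFf1 hx
    rw [Finset.mem_filter, hY, Finset.mem_filter, Finset.mem_range] at this
    exact ⟨by omega, this.1.2.1, this.1.2.2, this.2⟩
  have hFdeg : 4 * D * ∑ x ∈ Ff, deg W rep x ≤ N + 1 := by
    have b2 : ∑ x ∈ Ff, 4 * Dm * M * deg W rep x ≤ ∑ _x ∈ Ff, (N + 1) :=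
      Finset.sum_le_sum (fun x hx => (hFf x hx).2.2.2)
    rw [Finset.sum_const, smul_eq_mul, ← Finset.mul_sum, hFf2] at b2
    apply Nat.le_of_mul_le_mul_left _ hMpos
    calc _ = 4 * D * M * ∑ x ∈ Ff, deg W rep x := by ring
      _ ≤ 4 * Dm * M * ∑ x ∈ Ff, deg W rep x :=
        Nat.mul_le_mul_right _ (Nat.mul_le_mul_right _ (by omega))
      _ ≤ _ := b2
  have hFsum : n ≤ ∑ x ∈ Ff, x := by
    have b2 : ∑ _x ∈ Ff, (N + 1) ≤ ∑ x ∈ Ff, c * x :=
      Finset.sum_le_sum (fun x hx => (hFf x hx).2.2.1)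
    rw [Finset.sum_const, smul_eq_mul, ← Finset.mul_sum, hFf2, hM] at b2
    have : R * (N + 1) ≤ ∑ x ∈ Ff, x := by
      apply Nat.le_of_mul_le_mul_left _ hc1
      calc _ = c * R * (N + 1) := by ring
        _ ≤ _ := b2
    omega
  have hGF : Disjoint (G D) Ff := by
    rw [Finset.disjoint_left]
    intro x hx hx'
    have b1 : x ≤ ∑ x ∈ G D, x :=
      Finset.single_le_sum (f := fun x => x) (fun _ _ => Nat.zero_le _) hx
    have b2 := (hFf x hx').2.2.1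
    have b3 : c * x ≤ C * σ := Nat.mul_le_mul hc2 (by omega)
    omega
  set Wf := W.filter (fun w => Disjoint (rep w) (G D ∪ Ff)) with hWf
  set X := ((Finset.range (N + 1)).filter (fun x => x ∈ A)) \ (G D ∪ Ff) with hX
  have hWfc : N + 1 ≤ 2 * D * Wf.card := by
    have b1 := card_le_avoid W rep (G D ∪ Ff)
    rw [← hWf, Finset.sum_union hGF] at b1
    have b2 : ∑ x ∈ G D, deg W rep x ≤ 2 * q (2 * D) * q (2 * D) * τ := by
      calc _ ≤ ∑ _x ∈ G D, τ := Finset.sum_le_sum (fun x _ => w6 x)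
        _ = (G D).card * τ := by simp
        _ ≤ _ := Nat.mul_le_mul_right _ (hG2 D)
    have b3 : (j + 1) * τ ≤ h * τ := Nat.mul_le_mul_right _ (by omega)
    obtain ⟨u, hu⟩ : ∃ u, u = ∑ x ∈ Ff, deg W rep x := ⟨_, rfl⟩
    obtain ⟨Q, hQ⟩ : ∃ Q, Q = 2 * q (2 * D) * q (2 * D) := ⟨_, rfl⟩
    rw [← hu] at b1 hFdeg
    rw [← hQ] at b2 h2'
    have b4 : (T A (j + 1) N).card ≤ Wf.card + (h * τ + Q * τ) + u := by omega
    have b5 : 4 * (N + 1) ≤ 4 * D * (Wf.card + (h * τ + Q * τ) + u) := by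
      calc _ ≤ 4 * (D * (T A (j + 1) N).card) := Nat.mul_le_mul_left _ h1
        _ ≤ 4 * (D * (Wf.card + (h * τ + Q * τ) + u)) :=
          Nat.mul_le_mul_left _ (Nat.mul_le_mul_left _ b4)
        _ = _ := by ring
    have b6 : 4 * D * (h * τ + Q * τ) ≤ N + 1 := by
      have : (E (2 * D) + 4 * D * (h + Q)) * τ = E (2 * D) * τ + 4 * D * (h * τ + Q * τ) := by
        ring
      omega
    have b7 : 4 * D * (Wf.card + (h * τ + Q * τ) + u) =
        2 * (2 * D * Wf.card) + 4 * D * (h * τ + Q * τ) + 4 * D * u := by ring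
    omega
  have hWfW : ∀ w ∈ Wf, w ∈ W ∧ Disjoint (rep w) (G D ∪ Ff) := fun w hw => Finset.mem_filter.1 hw
  obtain ⟨a, ρ, ha, hm⟩ := hA (2 * D) N X Wf rep τ (by omega)
    (fun x hx => by
      rw [hX, Finset.mem_sdiff, Finset.mem_filter, Finset.mem_range] at hx
      omega)
    (fun w hw => w1 w (hWfW w hw).1)
    (fun w hw x hx => by
      rw [hX, Finset.mem_sdiff, Finset.mem_filter, Finset.mem_range]
      have b1 : x ≤ ∑ x ∈ rep w, x :=
        Finset.single_le_sum (f := fun x => x) (fun _ _ => Nat.zero_le _) hx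
      rw [w4 w (hWfW w hw).1] at b1
      have b2 := w1 w (hWfW w hw).1
      exact ⟨⟨by omega, w2 w (hWfW w hw).1 hx⟩, Finset.disjoint_left.1 (hWfW w hw).2 hx⟩)
    (fun w hw => (w3 w (hWfW w hw).1).trans (by omega))
    (fun w hw => w4 w (hWfW w hw).1) hWfc
    (fun x => (deg_mono (Finset.filter_subset _ _) rep x).trans (w6 x))
    (by
      have : (E (2 * D) + 4 * D * (h + 2 * q (2 * D) * q (2 * D))) * τ =
        E (2 * D) * τ + 4 * D * (h + 2 * q (2 * D) * q (2 * D)) * τ := by ring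
      omega)
  have ha2 : a + σ ≤ n := by
    have : r (2 * D) * N ≤ rm * N := Nat.mul_le_mul_right _ e2
    rw [hR, Nat.add_mul] at hN2
    omega
  obtain ⟨Sf, hSf1, hSf2, hSf3⟩ := fill Ff N (fun x hx => (hFf x hx).1) (n - a - σ) (by omega)
  obtain ⟨n', hn'⟩ : ∃ n', n' = n - ∑ x ∈ Sf, x := ⟨_, rfl⟩
  obtain ⟨Sr, hSr1, hSr2, hSr3⟩ := hG3 D (n' + (q (2 * D) - 1) * ρ)
  have hSrle : ∑ x ∈ Sr, x ≤ σ :=
    (Finset.sum_le_sum_of_subset (f := fun x => x) hSr1).trans e4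
  obtain ⟨S, hS1, hS2, hS3⟩ := hm (n' - ∑ x ∈ Sr, x) (by omega) (by omega) (by
    apply Nat.ModEq.add_right_cancel' (∑ x ∈ Sr, x)
    rw [Nat.sub_add_cancel (by omega)]
    have b1 := hSr3.add_left ρ
    have b2 : ρ + (n' + (q (2 * D) - 1) * ρ) = n' + q (2 * D) * ρ := by
      obtain ⟨k, hk⟩ : ∃ k, q (2 * D) = k + 1 := ⟨q (2 * D) - 1, by have := hq (2 * D); omega⟩
      rw [hk, Nat.add_sub_cancel]; ring
    rw [b2] at b1
    refine Nat.ModEq.trans ?_ b1.symm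
    simp [Nat.ModEq])
  have d1 : Disjoint Sr Sf := Finset.disjoint_of_subset_left hSr1
    (Finset.disjoint_of_subset_right hSf1 hGF)
  have d2 : Disjoint S (Sr ∪ Sf) := by
    rw [Finset.disjoint_left]
    intro x hx hx'
    exact (Finset.mem_sdiff.1 (hS1 hx)).2 (Finset.union_subset_union hSr1 hSf1 hx')
  refine ⟨S ∪ (Sr ∪ Sf), ?_, ?_, ?_⟩
  · intro x hx
    simp only [coe_union, Set.mem_union, mem_coe] at hx
    rcases hx with hx | hx | hx
    · exact (Finset.mem_filter.1 (Finset.mem_sdiff.1 (hS1 hx)).1).2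
    · exact hG1 D (hSr1 hx)
    · exact (hFf x (hSf1 hx)).2.1
  · have b1 := Finset.card_union_le S (Sr ∪ Sf)
    have b2 := Finset.card_union_le Sr Sf
    have b3 := Finset.card_le_card hSf1
    have b4 : c * R ≤ C * R := Nat.mul_le_mul_right _ hc2
    omega
  · rw [Finset.sum_union d2, Finset.sum_union d1, hS3]
    omega

/-- If `A` minus any finite set is still a basis, subset sums of `A` meet every residue class. -/
theorem residues_of_robust (A : Set ℕ)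
    (hA : ∀ F : Finset ℕ, ∃ k N : ℕ, ∀ n ≥ N,
        ∃ s : Multiset ℕ, (∀ x ∈ s, x ∈ A ∧ x ∉ F) ∧ Multiset.card s ≤ k ∧ s.sum = n)
    (q : ℕ) (hq : 1 ≤ q) (ρ : ℕ) :
    ∃ S : Finset ℕ, (↑S : Set ℕ) ⊆ A ∧ ∑ x ∈ S, x ≡ ρ [MOD q] := by
  classical
  have hfin : {x ∈ A | {y ∈ A | y % q = x % q}.Finite}.Finite := by
    have h1 : {x ∈ A | {y ∈ A | y % q = x % q}.Finite} ⊆
        ⋃ k ∈ {k | k < q ∧ {y ∈ A | y % q = k}.Finite}, {y ∈ A | y % q = k} := by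
      intro x hx
      simp only [Set.mem_iUnion]
      exact ⟨x % q, ⟨Nat.mod_lt _ hq, hx.2⟩, hx.1, rfl⟩
    refine Set.Finite.subset (Set.Finite.biUnion ?_ (fun k hk => hk.2)) h1
    exact (Set.finite_lt_nat q).subset (fun k hk => hk.1)
  obtain ⟨k, N, hN⟩ := hA hfin.toFinset
  obtain ⟨s, hs1, -, hs3⟩ := hN (ρ + q * N) (by nlinarith)
  have key : ∀ s : Multiset ℕ, (∀ x ∈ s, {y ∈ A | y % q = x % q}.Infinite) →
      ∃ S : Finset ℕ, (↑S : Set ℕ) ⊆ A ∧ ∑ x ∈ S, x ≡ s.sum [MOD q] := by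
    intro s
    induction s using Multiset.induction_on with
    | empty => intro _; exact ⟨∅, by simp, by simp [Nat.ModEq]⟩
    | cons a s ih =>
      intro hs
      obtain ⟨S, h1, h2⟩ := ih (fun x hx => hs x (Multiset.mem_cons_of_mem hx))
      obtain ⟨y, hy, hyS⟩ := (hs a (Multiset.mem_cons_self _ _)).exists_notMem_finset S
      refine ⟨insert y S, ?_, ?_⟩
      · rw [Finset.coe_insert]
        exact Set.insert_subset hy.1 h1
      · rw [Finset.sum_insert hyS, Multiset.sum_cons]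
        exact Nat.ModEq.add hy.2 h2
  obtain ⟨S, h1, h2⟩ := key s (fun x hx => by
    have := hs1 x hx
    intro hf
    exact this.2 (by simp [this.1, hf]))
  refine ⟨S, h1, h2.trans ?_⟩
  rw [hs3]
  simp [Nat.ModEq]

end Pool.Agent.H15.RO
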