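import Mathlib

set_option autoImplicit false
open Filter Topology MeasureTheory

namespace Pool.Agent.H15.RS1

abbrev KK : Type := (Set.Icc (0:ℝ) 1) × (Set.Icc (0:ℝ) 1)

noncomputable def EE (t : ℝ) : C(KK, ℂ) :=
  ⟨fun p => Complex.exp ((-(((p.1 : ℝ) : ℂ)) ^ 2 + ((p.2 : ℝ) : ℂ) * Complex.I) * (t : ℂ)), by fun_prop⟩

noncomputable def x0 : C(KK, ℂ) := ⟨fun p => ((p.1 : ℝ) : ℂ), by fun_prop⟩

theorem EE_apply (t : ℝ) (p : KK) : EE t p =
    Complex.exp ((-(((p.1 : ℝ) : ℂ)) ^ 2 + ((p.2 : ℝ) : ℂ) * Complex.I) * (t : ℂ)) := rfl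

theorem EE_zero : EE 0 = 1 := by
  ext p; simp [EE_apply]

theorem EE_add (s t : ℝ) : EE (s + t) = EE s * EE t := by
  ext p
  simp only [EE_apply, ContinuousMap.mul_apply]
  rw [← Complex.exp_add]
  congr 1
  push_cast; ring

theorem norm_EE_apply (t : ℝ) (p : KK) : ‖EE t p‖ = Real.exp (-((p.1 : ℝ) ^ 2 * t)) := by
  rw [EE_apply, Complex.norm_exp]
  congr 1
  have : (-(((p.1 : ℝ) : ℂ)) ^ 2 + ((p.2 : ℝ) : ℂ) * Complex.I) * (t : ℂ)
      = ((-((p.1 : ℝ) ^ 2 * t) : ℝ) : ℂ) + (((p.2 : ℝ) * t : ℝ) : ℂ) * Complex.I := by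
    push_cast; ring
  rw [this]
  simp only [Complex.add_re, Complex.ofReal_re, Complex.mul_re, Complex.I_re, Complex.I_im,
    Complex.ofReal_im]
  ring

theorem norm_EE_le (t : ℝ) (ht : 0 ≤ t) : ‖EE t‖ ≤ 1 := by
  rw [ContinuousMap.norm_le _ zero_le_one]
  intro p
  rw [norm_EE_apply, Real.exp_le_one_iff]
  have := sq_nonneg (p.1 : ℝ)
  nlinarith [mul_nonneg this ht]

theorem cont_EE : Continuous EE := by
  apply ContinuousMap.continuous_of_continuous_uncurry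
  show Continuous (fun q : ℝ × KK =>
    Complex.exp ((-(((q.2.1 : ℝ) : ℂ)) ^ 2 + ((q.2.2 : ℝ) : ℂ) * Complex.I) * (q.1 : ℂ)))
  fun_prop

theorem norm_x0_le : ‖x0‖ ≤ 1 := by
  rw [ContinuousMap.norm_le _ zero_le_one]
  intro p
  show ‖((p.1 : ℝ) : ℂ)‖ ≤ 1
  rw [Complex.norm_real, Real.norm_eq_abs, abs_of_nonneg p.1.2.1]
  exact p.1.2.2

theorem orbit_le (t : ℝ) (ht : 0 < t) : ‖EE t * x0‖ ≤ (Real.sqrt t)⁻¹ := by
  rw [ContinuousMap.norm_le _ (by positivity)]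
  intro p
  rw [ContinuousMap.mul_apply, norm_mul, norm_EE_apply]
  show _ * ‖((p.1 : ℝ) : ℂ)‖ ≤ _
  rw [Complex.norm_real, Real.norm_eq_abs, abs_of_nonneg p.1.2.1]
  have hu : 0 ≤ (p.1 : ℝ) := p.1.2.1
  set u : ℝ := (p.1 : ℝ) with hud
  have hs : 0 < Real.sqrt t := Real.sqrt_pos.mpr ht
  have hsq : Real.sqrt t ^ 2 = t := Real.sq_sqrt ht.le
  rw [Real.exp_neg, inv_mul_eq_div, div_le_iff₀ (Real.exp_pos _), inv_mul_eq_div, le_div_iff₀ hs]
  have h1 : u ^ 2 * t + 1 ≤ Real.exp (u ^ 2 * t) := Real.add_one_le_exp _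
  have h2 : u * Real.sqrt t ≤ u ^ 2 * t + 1 := by
    have : u ^ 2 * t = (u * Real.sqrt t) ^ 2 := by rw [mul_pow, hsq]
    rw [this]
    nlinarith [sq_nonneg (u * Real.sqrt t - 1)]
  linarith

theorem orbit_tendsto : Tendsto (fun t : ℝ => EE t * x0) atTop (𝓝 0) := by
  rw [tendsto_zero_iff_norm_tendsto_zero]
  have h : Tendsto (fun t : ℝ => (Real.sqrt t)⁻¹) atTop (𝓝 0) :=
    tendsto_inv_atTop_zero.comp Real.tendsto_sqrt_atTop
  refine squeeze_zero' (Eventually.of_forall fun _ => norm_nonneg _) ?_ h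
  filter_upwards [eventually_gt_atTop 0] with t ht
  exact orbit_le t ht

theorem integrable_orbit (a s : ℝ) (ha : 0 < a) :
    IntegrableOn (fun t : ℝ =>
      Complex.exp (-(((a : ℂ) + (s : ℂ) * Complex.I) * (t : ℂ))) • (EE t * x0)) (Set.Ioi 0) := by
  have hc : Continuous (fun t : ℝ =>
      Complex.exp (-(((a : ℂ) + (s : ℂ) * Complex.I) * (t : ℂ))) • (EE t * x0)) := by
    have := cont_EE
    fun_prop
  refine Integrable.mono' (exp_neg_integrableOn_Ioi 0 ha) hc.aestronglyMeasurable ?_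
  rw [ae_restrict_iff' measurableSet_Ioi]
  refine Eventually.of_forall fun t ht => ?_
  have ht0 : 0 ≤ t := le_of_lt ht
  rw [norm_smul, Complex.norm_exp]
  have h1 : (-(((a : ℂ) + (s : ℂ) * Complex.I) * (t : ℂ))).re = -a * t := by
    simp
  rw [h1]
  have h2 : ‖EE t * x0‖ ≤ 1 := by
    calc ‖EE t * x0‖ ≤ ‖EE t‖ * ‖x0‖ := norm_mul_le _ _
      _ ≤ 1 * 1 := mul_le_mul (norm_EE_le t ht0) norm_x0_le (norm_nonneg _) zero_le_one
      _ = 1 := one_mul 1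
  have := Real.exp_pos (-a * t)
  nlinarith

theorem res_lower (a s : ℝ) (ha : 0 < a) (ha1 : a ≤ 1) (hs : s ∈ Set.Icc (0:ℝ) 1) :
    Real.sqrt a / (2 * a) ≤ ‖∫ t in Set.Ioi (0:ℝ),
      Complex.exp (-(((a : ℂ) + (s : ℂ) * Complex.I) * (t : ℂ))) • (EE t * x0)‖ := by
  have hsa : Real.sqrt a ∈ Set.Icc (0:ℝ) 1 :=
    ⟨Real.sqrt_nonneg _, Real.sqrt_le_one.mpr ha1⟩
  let p : KK := (⟨Real.sqrt a, hsa⟩, ⟨s, hs⟩)
  refine le_trans ?_ (ContinuousMap.norm_coe_le_norm _ p)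
  have hev := (ContinuousMap.evalCLM ℂ p : C(KK, ℂ) →L[ℂ] ℂ).integral_comp_comm
    (integrable_orbit a s ha)
  have hev2 : (∫ t in Set.Ioi (0:ℝ),
      Complex.exp (-(((a : ℂ) + (s : ℂ) * Complex.I) * (t : ℂ))) • (EE t * x0)) p
      = ∫ t in Set.Ioi (0:ℝ), ((Real.exp (-(2 * a) * t) * Real.sqrt a : ℝ) : ℂ) := by
    refine Eq.trans hev.symm ?_
    congr 1
    ext t
    show Complex.exp (-(((a : ℂ) + (s : ℂ) * Complex.I) * (t : ℂ))) *
      (Complex.exp ((-(((Real.sqrt a : ℝ) : ℂ)) ^ 2 + ((s : ℝ) : ℂ) * Complex.I) * (t : ℂ)) *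
        ((Real.sqrt a : ℝ) : ℂ)) = _
    have hq : ((Real.sqrt a : ℝ) : ℂ) ^ 2 = (a : ℂ) := by
      rw [← Complex.ofReal_pow, Real.sq_sqrt ha.le]
    rw [hq, ← mul_assoc, ← Complex.exp_add]
    push_cast
    congr 2
    ring
  rw [hev2, integral_complex_ofReal, integral_mul_const, Complex.norm_real]
  have h2a : -(2 * a) < 0 := by linarith
  rw [integral_exp_mul_Ioi h2a]
  simp only [mul_zero, Real.exp_zero]
  rw [Real.norm_eq_abs]
  refine le_trans (le_of_eq ?_) (le_abs_self _)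
  field_simp

theorem final_lower (a : ℝ) (ha : 0 < a) (ha1 : a ≤ 1) :
    ENNReal.ofReal (1 / 4) ≤ ENNReal.ofReal a * ∫⁻ s : ℝ,
      ((‖∫ t in Set.Ioi (0:ℝ),
      Complex.exp (-(((a : ℂ) + (s : ℂ) * Complex.I) * (t : ℂ))) • (EE t * x0)‖₊ : ENNReal)) ^ 2 := by
  have h1 : ENNReal.ofReal (1 / (4 * a)) ≤ ∫⁻ s : ℝ,
      ((‖∫ t in Set.Ioi (0:ℝ),
      Complex.exp (-(((a : ℂ) + (s : ℂ) * Complex.I) * (t : ℂ))) • (EE t * x0)‖₊ : ENNReal)) ^ 2 := by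
    refine le_trans ?_ (setLIntegral_le_lintegral (Set.Icc (0:ℝ) 1) _)
    have h3 : ∫⁻ _ in Set.Icc (0:ℝ) 1, ENNReal.ofReal (1 / (4 * a)) = ENNReal.ofReal (1 / (4 * a)) := by
      simp
    rw [← h3]
    refine setLIntegral_mono' measurableSet_Icc fun s hs => ?_
    have h4 := res_lower a s ha ha1 hs
    rw [← enorm_eq_nnnorm, ← ofReal_norm, ← ENNReal.ofReal_pow (norm_nonneg _)]
    apply ENNReal.ofReal_le_ofReal
    have h5 : (Real.sqrt a / (2 * a)) ^ 2 = 1 / (4 * a) := by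
      rw [div_pow, Real.sq_sqrt ha.le]
      field_simp
      norm_num
    rw [← h5]
    exact pow_le_pow_left₀ (by positivity) h4 2
  calc ENNReal.ofReal (1 / 4) = ENNReal.ofReal a * ENNReal.ofReal (1 / (4 * a)) := by
        rw [← ENNReal.ofReal_mul ha.le]
        congr 1
        field_simp
    _ ≤ _ := by gcongr

end Pool.Agent.H15.RS1
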