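import Mathlib

set_option autoImplicit false

namespace Pool.Agent.H15.SF

/-- residue class mod 7 active in phase `i` -/
def cc (i : ℕ) : ℕ := if i % 3 = 0 then 1 else if i % 3 = 1 then 4 else 2

/-- start of phase `i` -/
def aa (e : ℕ) : ℕ → ℕ
  | 0 => 71
  | i + 1 => 2 * (aa e i + cc i + 21) + e

/-- the dynamic part -/
def TT (e y : ℕ) : Prop :=
  y = 29 ∨ y = 30 ∨ y = 32 ∨
    ∃ i, y % 7 = cc i ∧ aa e i ≤ y ∧ y < aa e (i + 1) + cc (i + 1) + 28

/-- the aperiodic set -/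
def SS (e n : ℕ) : Prop :=
  (n = 50 ∨ n = 51 ∨ n = 54 ∨ n = 62 ∨ n = 76 ∨ n = 85 ∨ n = 96) ∨
  (196 ≤ n ∧ (n % 49 = 3 ∨ n % 49 = 22 ∨ n % 49 = 32 ∨ n % 49 = 40 ∨ n % 49 = 48)) ∨
  (n % 7 = 0 ∧ TT e (n / 7))

lemma cc_cases (i : ℕ) :
    (i % 3 = 0 ∧ cc i = 1) ∨ (i % 3 = 1 ∧ cc i = 4) ∨ (i % 3 = 2 ∧ cc i = 2) := by
  unfold cc
  split_ifs <;> omega

lemma aa_succ (e i : ℕ) : aa e (i + 1) = 2 * (aa e i + cc i + 21) + e := rfl

lemma aa_mod (e : ℕ) (he : e = 0 ∨ e = 7) (i : ℕ) : aa e i % 7 = cc i := by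
  induction i with
  | zero => simp [aa, cc]
  | succ i ih =>
    have h1 := cc_cases i
    have h2 := cc_cases (i + 1)
    rw [aa_succ]
    omega

lemma aa_lower (e i : ℕ) : 71 + i ≤ aa e i := by
  induction i with
  | zero => exact le_rfl
  | succ i ih => rw [aa_succ]; omega

lemma aa_mono (e : ℕ) : Monotone (aa e) := by
  apply monotone_nat_of_le_succ
  intro i
  rw [aa_succ]; omega

lemma T_class (e y : ℕ) (h : TT e y) :
    (y % 7 = 1 ∨ y % 7 = 2 ∨ y % 7 = 4) ∧ y % 7 + 28 ≤ y := by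
  rcases h with h | h | h | ⟨i, h1, h2, _⟩
  · omega
  · omega
  · omega
  · have := cc_cases i
    have := aa_lower e i
    omega

lemma gap (e : ℕ) (he : e = 0 ∨ e = 7) (y i : ℕ) (h : TT e y) (hc : y % 7 = cc (i + 1))
    (hy : y < aa e (i + 1)) : 2 * y + e ≤ aa e i := by
  have h0 := aa_lower e i
  rcases h with h | h | h | ⟨j, h1, h2, h3⟩
  · omega
  · omega
  · omega
  · have c1 := cc_cases j
    have c2 := cc_cases (j + 1)
    have c3 := cc_cases (i + 1)
    have m1 := aa_mod e he (j + 1)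
    have hj : j < i + 1 := by
      by_contra hh
      have := aa_mono e (show i + 1 ≤ j by omega)
      omega
    have hj2 : j + 1 + 1 ≤ i := by omega
    have := aa_mono e hj2
    rw [aa_succ e (j + 1)] at this
    omega

lemma T_sf (e : ℕ) (he : e = 0 ∨ e = 7) (u v : ℕ) (hu : TT e u) (hv : TT e v)
    (hne : e = 0 → u ≠ v) : ¬ TT e (u + v) := by
  intro hw
  have cu := T_class e u hu
  have cv := T_class e v hv
  rcases hw with h | h | h | ⟨i, h1, h2, h3⟩
  · omega
  · omega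
  · omega
  · have c1 := cc_cases i
    have c2 := cc_cases (i + 1)
    have hu7 : u % 7 = cc (i + 1) := by omega
    have hv7 : v % 7 = cc (i + 1) := by omega
    have g1 := gap e he u i hu hu7 (by omega)
    have g2 := gap e he v i hv hv7 (by omega)
    omega

lemma T_small (e i : ℕ) : TT e (cc i + 28) := by
  have := cc_cases i
  unfold TT
  omega

lemma phase (e y : ℕ) (hy : aa e 2 ≤ y) (hc : y % 7 = 1 ∨ y % 7 = 2 ∨ y % 7 = 4) :
    ∃ i, y % 7 = cc i ∧ aa e i ≤ y ∧ y < aa e (i + 3) := by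
  have hex : ∃ j, y < aa e j := ⟨y, by have := aa_lower e y; omega⟩
  classical
  have h1 := Nat.find_spec hex
  obtain ⟨j, hj⟩ : ∃ j, j = Nat.find hex := ⟨_, rfl⟩
  rw [← hj] at h1
  have h2 : ∀ t, t < j → aa e t ≤ y := by
    intro t ht
    have := Nat.find_min hex (hj ▸ ht)
    omega
  have h3 : 2 < j := by
    by_contra hh
    have := aa_mono e (show j ≤ 2 by omega)
    omega
  have c1 := cc_cases (j - 1)
  have c2 := cc_cases (j - 2)
  have c3 := cc_cases (j - 3)
  have : y % 7 = cc (j - 1) ∨ y % 7 = cc (j - 2) ∨ y % 7 = cc (j - 3) := by omega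
  rcases this with h | h | h
  · exact ⟨j - 1, h, h2 _ (by omega), lt_of_lt_of_le h1 (aa_mono e (by omega))⟩
  · exact ⟨j - 2, h, h2 _ (by omega), lt_of_lt_of_le h1 (aa_mono e (by omega))⟩
  · exact ⟨j - 3, h, h2 _ (by omega), lt_of_lt_of_le h1 (aa_mono e (by omega))⟩

lemma T_cp (e : ℕ) (he : e = 0 ∨ e = 7) (y : ℕ) (hy : aa e 2 ≤ y)
    (hc : y % 7 = 1 ∨ y % 7 = 2 ∨ y % 7 = 4) :
    TT e y ∨ ∃ u v, TT e u ∧ TT e v ∧ (e = 0 → u ≠ v) ∧ u + v = y := by
  obtain ⟨i, h1, h2, h3⟩ := phase e y hy hc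
  by_cases hb : y < aa e (i + 1) + cc (i + 1) + 28
  · exact Or.inl (Or.inr (Or.inr (Or.inr ⟨i, h1, h2, hb⟩)))
  right
  have c0 := cc_cases i
  have c1 := cc_cases (i + 1)
  have c2 := cc_cases (i + 1 + 1)
  have m1 := aa_mod e he (i + 1)
  have m2 := aa_mod e he (i + 1 + 1)
  have l1 := aa_lower e (i + 1)
  have s2 := aa_succ e (i + 1)
  have s3 := aa_succ e (i + 1 + 1)
  have h3' : y < aa e (i + 1 + 1 + 1) := h3
  have mem : ∀ z, z % 7 = cc (i + 1) → aa e (i + 1) ≤ z →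
      z < aa e (i + 1 + 1) + cc (i + 1 + 1) + 28 → TT e z :=
    fun z a b c => Or.inr (Or.inr (Or.inr ⟨i + 1, a, b, c⟩))
  by_cases k1 : y ≤ aa e (i + 1 + 1) + cc (i + 1 + 1) + 21 + (cc (i + 1) + 28)
  · exact ⟨cc (i + 1) + 28, y - (cc (i + 1) + 28), T_small e _,
      mem _ (by omega) (by omega) (by omega), by omega, by omega⟩
  by_cases k2 : y ≤ aa e (i + 1 + 1) + cc (i + 1 + 1) + 21 + aa e (i + 1)
  · exact ⟨aa e (i + 1), y - aa e (i + 1), mem _ (by omega) (by omega) (by omega),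
      mem _ (by omega) (by omega) (by omega), by omega, by omega⟩
  · exact ⟨aa e (i + 1 + 1) + cc (i + 1 + 1) + 21, y - (aa e (i + 1 + 1) + cc (i + 1 + 1) + 21),
      mem _ (by omega) (by omega) (by omega),
      mem _ (by omega) (by omega) (by omega), by omega, by omega⟩

lemma T_ap (e : ℕ) (he : e = 0 ∨ e = 7) (p N : ℕ) (hp : 0 < p) :
    ∃ y, N ≤ y ∧ TT e y ∧ ¬ TT e (y + 7 * p) := by
  obtain ⟨i, hi⟩ : ∃ i, i = N + 7 * p := ⟨_, rfl⟩
  have c0 := cc_cases i
  have c1 := cc_cases (i + 1)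
  have c2 := cc_cases (i + 1 + 1)
  have c3 := cc_cases (i + 1 + 1 + 1)
  have m1 := aa_mod e he (i + 1)
  have l0 := aa_lower e i
  have s1 := aa_succ e i
  have s2 := aa_succ e (i + 1)
  have s3 := aa_succ e (i + 1 + 1)
  refine ⟨aa e (i + 1) + cc (i + 1) + 21, by omega,
    Or.inr (Or.inr (Or.inr ⟨i, by omega, by omega, by omega⟩)), ?_⟩
  intro h
  have := gap e he _ (i + 1 + 1) h (by omega) (by omega)
  omega

lemma S_pos (e n : ℕ) (h : SS e n) : 50 ≤ n := by
  rcases h with h | h | ⟨h1, h2⟩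
  · omega
  · omega
  · have := T_class e _ h2
    omega

lemma S_sf (e : ℕ) (he : e = 0 ∨ e = 7) (s t : ℕ) (hs : SS e s) (ht : SS e t)
    (hne : e = 0 → s ≠ t) : ¬ SS e (s + t) := by
  intro hw
  rcases hs with hs | hs | ⟨hs1, hs2⟩
  · rcases ht with ht | ht | ⟨ht1, ht2⟩
    · rcases hw with hw | hw | ⟨hw1, hw2⟩
      · omega
      · omega
      · have := T_class e _ hw2
        omega
    · rcases hw with hw | hw | ⟨hw1, hw2⟩
      · omega
      · omega
      · have := T_class e _ hw2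
        omega
    · have := T_class e _ ht2
      rcases hw with hw | hw | ⟨hw1, hw2⟩
      · omega
      · omega
      · omega
  · rcases ht with ht | ht | ⟨ht1, ht2⟩
    · rcases hw with hw | hw | ⟨hw1, hw2⟩
      · omega
      · omega
      · have := T_class e _ hw2
        omega
    · rcases hw with hw | hw | ⟨hw1, hw2⟩
      · omega
      · omega
      · have := T_class e _ hw2
        omega
    · have := T_class e _ ht2
      rcases hw with hw | hw | ⟨hw1, hw2⟩
      · omega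
      · omega
      · omega
  · have := T_class e _ hs2
    rcases ht with ht | ht | ⟨ht1, ht2⟩
    · rcases hw with hw | hw | ⟨hw1, hw2⟩
      · omega
      · omega
      · omega
    · rcases hw with hw | hw | ⟨hw1, hw2⟩
      · omega
      · omega
      · omega
    · have := T_class e _ ht2
      rcases hw with hw | hw | ⟨hw1, hw2⟩
      · omega
      · omega
      · have e1 : (s + t) / 7 = s / 7 + t / 7 := by omega
        rw [e1] at hw2
        exact T_sf e he _ _ hs2 ht2 (by omega) hw2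

lemma S_ap (e : ℕ) (he : e = 0 ∨ e = 7) (p N : ℕ) (hp : 0 < p)
    (h : ∀ n, N ≤ n → SS e n → SS e (n + p)) : False := by
  obtain ⟨y, h1, h2, h3⟩ := T_ap e he p N hp
  have h4 : ∀ k, SS e (7 * y + k * p) := by
    intro k
    induction k with
    | zero => exact Or.inr (Or.inr ⟨by omega, by simpa using h2⟩)
    | succ k ih =>
      have := h _ (by omega) ih
      rwa [show 7 * y + (k + 1) * p = 7 * y + k * p + p by ring]
  have c := T_class e _ h2
  rcases h4 49 with h5 | h5 | ⟨_, h5⟩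
  · omega
  · omega
  · rw [show (7 * y + 49 * p) / 7 = y + 7 * p by omega] at h5
    exact h3 h5

lemma table : ∀ r < 49, (r = 3 ∨ r = 22 ∨ r = 32 ∨ r = 40 ∨ r = 48) ∨ (r = 7 ∨ r = 14 ∨ r = 28) ∨
    ∃ s ∈ [50, 51, 54, 62, 76, 85, 96, 203, 210, 224, 199, 218, 228, 236, 244],
      (r + 245 - s) % 49 ∈ [3, 22, 32, 40, 48] := by
  decide

lemma S_list (e s : ℕ)
    (hs : s ∈ [50, 51, 54, 62, 76, 85, 96, 203, 210, 224, 199, 218, 228, 236, 244]) :
    SS e s ∧ s ≤ 244 := by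
  simp only [List.mem_cons, List.not_mem_nil, or_false] at hs
  unfold SS TT
  omega

lemma S_cp (e : ℕ) (he : e = 0 ∨ e = 7) :
    ∃ N, ∀ n, N ≤ n → SS e n ∨ ∃ s t, SS e s ∧ SS e t ∧ (e = 0 → s ≠ t) ∧ s + t = n := by
  refine ⟨7 * aa e 2 + 1000, fun n hn => ?_⟩
  rcases table (n % 49) (Nat.mod_lt _ (by norm_num)) with h | h | ⟨s, hs, h⟩
  · exact Or.inl (Or.inr (Or.inl ⟨by omega, h⟩))
  · rcases T_cp e he (n / 7) (by omega) (by omega) with h1 | ⟨u, v, hu, hv, h1, h2⟩
    · exact Or.inl (Or.inr (Or.inr ⟨by omega, h1⟩))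
    · refine Or.inr ⟨7 * u, 7 * v, Or.inr (Or.inr ⟨by omega, by simpa using hu⟩),
        Or.inr (Or.inr ⟨by omega, by simpa using hv⟩), by omega, by omega⟩
  · obtain ⟨h1, h2⟩ := S_list e s hs
    simp only [List.mem_cons, List.not_mem_nil, or_false] at h
    refine Or.inr ⟨s, n - s, h1, Or.inr (Or.inl ⟨by omega, by omega⟩), by omega, by omega⟩

lemma S_inf (e : ℕ) : (Set.ofPred (SS e)).Infinite := by
  apply Set.infinite_of_forall_exists_gt
  intro a
  exact ⟨49 * (a + 4) + 3, Or.inr (Or.inl ⟨by omega, by omega⟩), by omega⟩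

/-- The enumeration of the set, with all the facts that are needed. -/
theorem seq_exists (e : ℕ) (he : e = 0 ∨ e = 7) :
    ∃ (k : ℕ) (a : ℕ → ℕ), 1 ≤ k ∧ (∀ i, 1 ≤ a i) ∧ StrictMono a ∧
      (∀ i j n, (e = 0 → i ≠ j) → a i + a j ≠ a n) ∧
      (∀ n m, k ≤ n + 1 → a n < m → m < a (n + 1) →
        ∃ i j, i ≤ n ∧ j ≤ n ∧ (e = 0 → i ≠ j) ∧ a i + a j = m) ∧
      (∀ p N, 0 < p → (∀ n, N ≤ n → a (n + p + 1) + a n = a (n + 1) + a (n + p)) → False) := by
  obtain ⟨N0, hN0⟩ := S_cp e he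
  have hinf := S_inf e
  have hmono : StrictMono (Nat.nth (SS e)) := Nat.nth_strictMono hinf
  have hmem : ∀ i, SS e (Nat.nth (SS e) i) := Nat.nth_mem_of_infinite hinf
  have hsur : ∀ s, SS e s → ∃ i, Nat.nth (SS e) i = s := by
    intro s hs
    have : s ∈ Set.range (Nat.nth (SS e)) := by
      rw [Nat.range_nth_of_infinite hinf]; exact hs
    exact this
  obtain ⟨a, ha⟩ : ∃ a, a = Nat.nth (SS e) := ⟨_, rfl⟩
  rw [← ha] at hmono hmem hsur
  refine ⟨N0 + 1, a, by omega, fun i => ?_, hmono, ?_, ?_, ?_⟩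
  · have := S_pos e _ (hmem i)
    omega
  · intro i j n hij h
    refine S_sf e he _ _ (hmem i) (hmem j) (fun h0 h1 => hij h0 (hmono.injective h1)) ?_
    rw [h]; exact hmem n
  · intro n m hn h1 h2
    have h3 : n ≤ a n := hmono.le_apply
    have key : ∀ i, a i < a (n + 1) → i ≤ n := fun i hi => by
      have := hmono.lt_iff_lt.1 hi
      omega
    rcases hN0 m (by omega) with h | ⟨s, t, hs, ht, h4, h5⟩
    · obtain ⟨i, hi⟩ := hsur m h
      have b1 := key i (by omega)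
      have := hmono.monotone b1
      omega
    · obtain ⟨i, hi⟩ := hsur s hs
      obtain ⟨j, hj⟩ := hsur t ht
      refine ⟨i, j, key i (by omega), key j (by omega), fun h0 h6 => h4 h0 ?_, by omega⟩
      rw [← hi, ← hj, h6]
  · intro p N hp h
    have h1 : ∀ d, a (N + d + p) + a N = a (N + d) + a (N + p) := by
      intro d
      induction d with
      | zero => simp [add_comm]
      | succ d ih =>
        have := h (N + d) (by omega)
        rw [show N + (d + 1) + p = N + d + p + 1 by ring, show N + (d + 1) = N + d + 1 by ring]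
        omega
    have h2 : a N < a (N + p) := hmono (by omega)
    refine S_ap e he (a (N + p) - a N) (a N) (by omega) ?_
    intro n hn hs
    obtain ⟨i, hi⟩ := hsur n hs
    have h3 : N ≤ i := hmono.le_iff_le.1 (by omega)
    obtain ⟨d, rfl⟩ := Nat.exists_eq_add_of_le h3
    have h4 := h1 d
    have h5 := hmem (N + d + p)
    rwa [show a (N + d + p) = n + (a (N + p) - a N) by omega] at h5

end Pool.Agent.H15.SF
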