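import Mathlib
set_option autoImplicit false

namespace Pool.Agent.H15.SK

open Cardinal TopologicalSpace

universe w

/-- Boolean `m`-algebra: every subset of size `≤ m` has a join and a meet. -/
def IsMAlg (m : Cardinal.{0}) (B : Type) [BooleanAlgebra B] : Prop :=
  ∀ S : Set B, #S ≤ m → (∃ b, IsLUB S b) ∧ (∃ b, IsGLB S b)

/-- `m`-isomorphism into: an injective homomorphism preserving joins and meets of size `≤ m`. -/
def IsMIso (m : Cardinal.{0}) {A B : Type} [BooleanAlgebra A] [BooleanAlgebra B]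
    (h : BoundedLatticeHom A B) : Prop :=
  Function.Injective h ∧ ∀ S : Set A, #S ≤ m →
    (∀ a, IsLUB S a → IsLUB (h '' S) (h a)) ∧ (∀ a, IsGLB S a → IsGLB (h '' S) (h a))

/-- `G` `m`-generates `B`: the only `m`-subalgebra containing `G` is `B`. -/
def Gen (m : Cardinal.{0}) {B : Type} [BooleanAlgebra B] (G : Set B) : Prop :=
  ∀ C : Set B, G ⊆ C → (∀ b ∈ C, bᶜ ∈ C) →
    (∀ S : Set B, S ⊆ C → #S ≤ m → ∀ b, (IsLUB S b ∨ IsGLB S b) → b ∈ C) → C = Set.univ

/-- `B` is `m`-representable: `B ≅ F/Δ` with `F` an `m`-field of subsets of some `X` and `Δ` an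
`m`-ideal of `F`; the isomorphism is given by a homomorphism `φ` of `F` onto `B` with kernel `Δ`. -/
def Rep (m : Cardinal.{0}) (B : Type) [BooleanAlgebra B] : Prop :=
  ∃ (X : Type w) (F Δ : Set (Set X)) (φ : Set X → B),
    ∅ ∈ F ∧ (∀ A ∈ F, Aᶜ ∈ F) ∧
    (∀ (ι : Type) (f : ι → Set X), #ι ≤ m → (∀ j, f j ∈ F) → (⋃ j, f j) ∈ F) ∧
    Δ ⊆ F ∧ ∅ ∈ Δ ∧ (∀ A ∈ Δ, ∀ A' ∈ F, A' ⊆ A → A' ∈ Δ) ∧
    (∀ (ι : Type) (f : ι → Set X), #ι ≤ m → (∀ j, f j ∈ Δ) → (⋃ j, f j) ∈ Δ) ∧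
    (∀ b, ∃ A ∈ F, φ A = b) ∧ (∀ A ∈ F, ∀ A' ∈ F, φ (A ∪ A') = φ A ⊔ φ A') ∧
    (∀ A ∈ F, φ Aᶜ = (φ A)ᶜ) ∧ (∀ A ∈ F, (φ A = ⊥ ↔ A ∈ Δ))

/-- `(i, B)` is a minimal `(m,n)`-product of the family `A`. -/
structure MinProd (m n : Cardinal.{0}) {T : Type} (A : T → Type) [∀ t, BooleanAlgebra (A t)]
    (B : Type) [BooleanAlgebra B] (i : ∀ t, BoundedLatticeHom (A t) B) : Prop where
  alg : IsMAlg m B
  iso : ∀ t, IsMIso m (i t)
  ind : ∀ (T' : Set T) (a : ∀ t, A t), #T' ≤ n → (∀ t ∈ T', a t ≠ ⊥) →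
    ∀ c, IsGLB {b | ∃ t ∈ T', b = i t (a t)} c → c ≠ ⊥
  gen : Gen m {b | ∃ t x, b = i t x}
  dense : ∀ b : B, b ≠ ⊥ → ∃ (T' : Set T) (a : ∀ t, A t) (c : B), #T' ≤ n ∧
    IsGLB {b | ∃ t ∈ T', b = i t (a t)} c ∧ c ≠ ⊥ ∧ c ≤ b

theorem alg_bool (m : Cardinal.{0}) : IsMAlg m (Set Bool) :=
  fun S _ => ⟨⟨_, isLUB_sSup S⟩, ⟨_, isGLB_sInf S⟩⟩

theorem rep_bool (m : Cardinal.{0}) : Rep.{w} m (Set Bool) := by
  refine ⟨ULift.{w} Bool, Set.univ, {∅}, fun A => ULift.up ⁻¹' A, trivial, fun _ _ => trivial,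
    fun _ _ _ _ => trivial, fun _ _ => trivial, rfl, ?_, ?_, ?_, ?_, ?_, ?_⟩
  · intro A hA A' _ h
    rw [Set.mem_singleton_iff] at hA ⊢
    exact Set.subset_eq_empty h hA
  · intro ι f _ hf
    rw [Set.mem_singleton_iff, Set.iUnion_eq_empty]
    exact hf
  · intro b
    exact ⟨ULift.down ⁻¹' b, trivial, rfl⟩
  · intro A _ A' _
    rfl
  · intro A _
    rfl
  · intro A _
    constructor
    · intro h
      rw [Set.mem_singleton_iff, Set.eq_empty_iff_forall_notMem]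
      intro x hx
      have : x.down ∈ (ULift.up ⁻¹' A : Set Bool) := hx
      rw [show (ULift.up ⁻¹' A : Set Bool) = ⊥ from h] at this
      exact this
    · intro h
      rw [Set.mem_singleton_iff] at h
      subst h
      rfl

theorem not_rep {m n : Cardinal.{0}} (hn : ℵ₀ ≤ n) {T : Type} (hT : n < #T) (hm : 2 ^ #T ≤ m)
    (B : Type) [BooleanAlgebra B] (i : T → BoundedLatticeHom (Set Bool) B)
    (h : MinProd m n (fun _ : T => Set Bool) B i) : ¬ Rep.{w} m B := by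
  classical
  rintro ⟨X, F, Δ, φ, F0, Fc, Fu, ΔF, Δ0, Δd, Δu, hs, hu, hc, hk⟩
  have hTm : #T ≤ m := (cantor _).le.trans hm
  have hnm : n ≤ m := hT.le.trans hTm
  choose S hSF hS using hs
  have mono : ∀ A ∈ F, ∀ A' ∈ F, A ⊆ A' → φ A ≤ φ A' := by
    intro A hA A' hA' hh
    have := hu A hA A' hA'
    rw [Set.union_eq_self_of_subset_left hh] at this
    rw [this]; exact le_sup_left
  -- sets representing the generators
  let E : T → Bool → Set X := fun t v => if v then S (i t {true}) else (S (i t {true}))ᶜ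
  have EF : ∀ t v, E t v ∈ F := by
    intro t v
    cases v
    · exact Fc _ (hSF _)
    · exact hSF _
  have Eφ : ∀ t v, φ (E t v) = i t {v} := by
    intro t v
    cases v
    · show φ (S (i t {true}))ᶜ = _
      rw [hc _ (hSF _), hS, ← map_compl']
      congr 1
      ext b; cases b <;> simp
    · exact hS _
  let D : (T → Bool) → Set X := fun x => (⋃ t, (E t (x t))ᶜ)ᶜ
  have DF : ∀ x, D x ∈ F := fun x => Fc _ (Fu T _ hTm (fun t => Fc _ (EF t _)))
  have Dle : ∀ x t, φ (D x) ≤ i t {x t} := by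
    intro x t
    rw [← Eφ]
    refine mono _ (DF x) _ (EF t _) ?_
    intro y hy
    by_contra hh
    exact hy (Set.mem_iUnion.2 ⟨t, hh⟩)
  have D0 : ∀ x, φ (D x) = ⊥ := by
    intro x
    by_contra hne
    obtain ⟨T', a, c, hT', hc', hc0, hcb⟩ := h.dense _ hne
    obtain ⟨t0, ht0⟩ : ∃ t0, t0 ∉ T' := by
      by_contra hh
      push Not at hh
      have : T' = Set.univ := Set.eq_univ_of_forall hh
      rw [this, mk_univ] at hT'
      exact absurd hT' (not_le.2 hT)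
    let a' : T → Set Bool := Function.update a t0 {!x t0}
    have hcard : #(insert t0 T' : Set T) ≤ n := by
      refine mk_insert_le.trans ?_
      calc #T' + 1 ≤ n + 1 := add_le_add_left hT' 1
        _ = n := add_one_eq hn
    have ha' : ∀ t ∈ T', a' t = a t := by
      intro t ht
      have : t ≠ t0 := fun e => ht0 (e ▸ ht)
      simp [a', Function.update_of_ne this]
    have ha0 : a' t0 = {!x t0} := by simp [a']
    have hne' : ∀ t ∈ (insert t0 T' : Set T), a' t ≠ ⊥ := by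
      intro t ht
      rcases ht with rfl | ht
      · rw [ha0]; exact Set.singleton_ne_empty _
      · rw [ha' t ht]
        intro e
        apply hc0
        have := hc'.1 ⟨t, ht, rfl⟩
        rw [e, map_bot] at this
        exact le_bot_iff.1 this
    have hglb : IsGLB {b | ∃ t ∈ (insert t0 T' : Set T), b = i t (a' t)}
        (i t0 {!x t0} ⊓ c) := by
      have := hc'.insert (i t0 {!x t0})
      convert this using 1
      ext b
      simp only [Set.mem_ofPred_eq, Set.mem_insert_iff]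
      constructor
      · rintro ⟨t, rfl | ht, rfl⟩
        · left; rw [ha0]
        · right; exact ⟨t, ht, by rw [ha' t ht]⟩
      · rintro (rfl | ⟨t, ht, rfl⟩)
        · exact ⟨t0, Or.inl rfl, by rw [ha0]⟩
        · exact ⟨t, Or.inr ht, by rw [ha' t ht]⟩
    apply h.ind _ a' hcard hne' _ hglb
    rw [← le_bot_iff]
    calc i t0 {!x t0} ⊓ c ≤ i t0 {!x t0} ⊓ i t0 {x t0} :=
          inf_le_inf_left _ (hcb.trans (Dle x t0))
      _ = i t0 ({!x t0} ⊓ {x t0}) := (map_inf _ _ _).symm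
      _ = i t0 ⊥ := by
          congr 1
          ext b; cases b <;> cases x t0 <;> simp
      _ = ⊥ := map_bot _
      _ ≤ ⊥ := le_rfl
  have DΔ : ∀ x, D x ∈ Δ := fun x => (hk _ (DF x)).1 (D0 x)
  have hall : (⋃ x, D x) ∈ Δ := Δu (T → Bool) D (by simpa using hm) DΔ
  have hun : (⋃ x, D x) = (∅ : Set X)ᶜ := by
    rw [Set.compl_empty, Set.eq_univ_iff_forall]
    intro y
    refine Set.mem_iUnion.2 ⟨fun t => decide (y ∈ S (i t {true})), ?_⟩
    intro hy
    obtain ⟨t, ht⟩ := Set.mem_iUnion.1 hy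
    apply ht
    by_cases hh : y ∈ S (i t {true}) <;> simp [E, hh]
  rw [hun] at hall
  have h1 : φ (∅ : Set X)ᶜ = ⊥ := (hk _ (Fc _ F0)).2 hall
  rw [hc _ F0, (hk _ F0).2 Δ0, compl_bot] at h1
  obtain ⟨t⟩ : Nonempty T := by
    rw [← mk_ne_zero_iff]
    exact (lt_of_le_of_lt zero_le hT).ne'
  have h2 : i t ⊤ = i t ⊥ := by rw [map_top, map_bot, h1]
  exact absurd ((h.iso t).1 h2) top_ne_bot

/-- the space `T → Bool` with the topology of cylinders depending on at most `n` coordinates -/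
def Sp (n : Cardinal.{0}) (_ : ℵ₀ ≤ n) (T : Type) : Type := T → Bool

instance (n : Cardinal.{0}) (hn : ℵ₀ ≤ n) (T : Type) : TopologicalSpace (Sp n hn T) where
  IsOpen U := ∀ x ∈ U, ∃ s : Set T, #s ≤ n ∧ ∀ y : Sp n hn T, (∀ t ∈ s, y t = x t) → y ∈ U
  isOpen_univ := fun _ _ => ⟨∅, by simp, fun _ _ => trivial⟩
  isOpen_inter := by
    intro U V hU hV x hx
    obtain ⟨s, hs, h⟩ := hU x hx.1
    obtain ⟨s', hs', h'⟩ := hV x hx.2
    refine ⟨s ∪ s', ?_, fun y hy => ⟨h y fun t ht => hy t (Or.inl ht),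
      h' y fun t ht => hy t (Or.inr ht)⟩⟩
    calc #(s ∪ s' : Set T) ≤ #s + #s' := mk_union_le _ _
      _ ≤ n + n := add_le_add hs hs'
      _ = n := add_eq_self hn
  isOpen_sUnion := by
    intro S hS x hx
    obtain ⟨U, hU, hxU⟩ := hx
    obtain ⟨s, hs, h⟩ := hS U hU x hxU
    exact ⟨s, hs, fun y hy => ⟨U, hU, h y hy⟩⟩

section
variable {n : Cardinal.{0}} {hn : ℵ₀ ≤ n} {T : Type}

theorem open_iff (U : Set (Sp n hn T)) : IsOpen U ↔
    ∀ x ∈ U, ∃ s : Set T, #s ≤ n ∧ ∀ y : Sp n hn T, (∀ t ∈ s, y t = x t) → y ∈ U := Iff.rfl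

theorem reg_of_clopen (U : Opens (Sp n hn T)) (h : IsOpen ((U : Set (Sp n hn T))ᶜ)) :
    Heyting.IsRegular U := by
  have hc : IsCompl U ⟨_, h⟩ := by
    constructor
    · rw [disjoint_iff]
      ext x
      simp
    · rw [codisjoint_iff]
      ext x
      simp
  show Uᶜᶜ = U
  rw [hc.compl_eq, hc.symm.compl_eq]

/-- general cylinder -/
def cylS (hn : ℵ₀ ≤ n) (s : Set T) (a : T → Set Bool) : Set (Sp n hn T) :=
  {y | ∀ t ∈ s, y t ∈ a t}

theorem cyl_open (s : Set T) (hs : #s ≤ n) (a : T → Set Bool) : IsOpen (cylS hn s a) := by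
  intro x hx
  exact ⟨s, hs, fun y hy t ht => by rw [hy t ht]; exact hx t ht⟩

theorem cyl_closed (s : Set T) (a : T → Set Bool) : IsOpen (cylS hn s a)ᶜ := by
  intro x hx
  simp only [cylS, Set.mem_compl_iff, Set.mem_ofPred_eq] at hx
  push Not at hx
  obtain ⟨t, ht, hx⟩ := hx
  refine ⟨{t}, ?_, fun y hy hh => hx ?_⟩
  · rw [mk_singleton]; exact one_le_aleph0.trans hn
  · rw [← hy t rfl]; exact hh t ht

def cyl (hn : ℵ₀ ≤ n) (s : Set T) (hs : #s ≤ n) (a : T → Set Bool) :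
    Heyting.Regular (Opens (Sp n hn T)) :=
  ⟨⟨cylS hn s a, cyl_open s hs a⟩, reg_of_clopen _ (cyl_closed s a)⟩

theorem one_le' (hn : ℵ₀ ≤ n) (t : T) : #({t} : Set T) ≤ n := by
  rw [mk_singleton]; exact one_le_aleph0.trans hn

/-- underlying set -/
def und (U : Heyting.Regular (Opens (Sp n hn T))) : Set (Sp n hn T) :=
  ((U.val : Opens (Sp n hn T)) : Set (Sp n hn T))

theorem und_le {U V : Heyting.Regular (Opens (Sp n hn T))} : U ≤ V ↔ und U ⊆ und V := Iff.rfl

theorem und_inj {U V : Heyting.Regular (Opens (Sp n hn T))} (h : und U = und V) : U = V :=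
  le_antisymm (und_le.2 h.le) (und_le.2 h.ge)

theorem und_bot : und (⊥ : Heyting.Regular (Opens (Sp n hn T))) = ∅ := rfl

theorem mem_cyl {s : Set T} {hs : #s ≤ n} {a : T → Set Bool} {y : Sp n hn T} :
    y ∈ und (cyl hn s hs a) ↔ ∀ t ∈ s, y t ∈ a t := Iff.rfl

def emb0 (hn : ℵ₀ ≤ n) (t : T) (A : Set Bool) : Heyting.Regular (Opens (Sp n hn T)) :=
  cyl hn {t} (one_le' hn t) (fun _ => A)

theorem mem_emb0 {t : T} {A : Set Bool} {y : Sp n hn T} : y ∈ und (emb0 hn t A) ↔ y t ∈ A := by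
  simp [emb0, mem_cyl]

theorem emb0_lub (t : T) (S : Set (Set Bool)) (a : Set Bool) (h : IsLUB S a) :
    IsLUB (emb0 hn t '' S) (emb0 hn t a) := by
  have ha : a = ⋃₀ S := h.unique (isLUB_sSup S)
  constructor
  · rintro _ ⟨A, hA, rfl⟩
    rw [und_le]
    intro y hy
    rw [mem_emb0] at hy ⊢
    exact h.1 hA hy
  · intro U hU
    rw [und_le]
    intro y hy
    rw [mem_emb0, ha] at hy
    obtain ⟨A, hA, hy⟩ := hy
    exact und_le.1 (hU ⟨A, hA, rfl⟩) (mem_emb0.2 hy)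

theorem emb0_glb (t : T) (S : Set (Set Bool)) (a : Set Bool) (h : IsGLB S a) :
    IsGLB (emb0 hn t '' S) (emb0 hn t a) := by
  have ha : a = ⋂₀ S := h.unique (isGLB_sInf S)
  constructor
  · rintro _ ⟨A, hA, rfl⟩
    rw [und_le]
    intro y hy
    rw [mem_emb0] at hy ⊢
    exact h.1 hA hy
  · intro U hU
    rw [und_le]
    intro y hy
    rw [mem_emb0, ha]
    intro A hA
    exact mem_emb0.1 (und_le.1 (hU ⟨A, hA, rfl⟩) hy)

def emb (hn : ℵ₀ ≤ n) (t : T) :
    BoundedLatticeHom (Set Bool) (Heyting.Regular (Opens (Sp n hn T))) where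
  toFun := emb0 hn t
  map_sup' a b := by
    have := emb0_lub (hn := hn) t {a, b} (a ⊔ b) isLUB_pair
    rw [Set.image_pair] at this
    exact this.unique isLUB_pair
  map_inf' a b := by
    have := emb0_glb (hn := hn) t {a, b} (a ⊓ b) isGLB_pair
    rw [Set.image_pair] at this
    exact this.unique isGLB_pair
  map_top' := by
    have := emb0_glb (hn := hn) t ∅ ⊤ isGLB_empty
    rw [Set.image_empty] at this
    exact this.unique isGLB_empty
  map_bot' := by
    have := emb0_lub (hn := hn) t ∅ ⊥ isLUB_empty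
    rw [Set.image_empty] at this
    exact this.unique isLUB_empty

theorem emb_eq (t : T) (A : Set Bool) : emb hn t A = emb0 hn t A := rfl

theorem cyl_glb (s : Set T) (hs : #s ≤ n) (a : T → Set Bool) :
    IsGLB {b | ∃ t ∈ s, b = emb hn t (a t)} (cyl hn s hs a) := by
  constructor
  · rintro _ ⟨t, ht, rfl⟩
    rw [und_le]
    intro y hy
    exact mem_emb0.2 (hy t ht)
  · intro U hU
    rw [und_le]
    intro y hy t ht
    exact mem_emb0.1 (und_le.1 (hU ⟨t, ht, rfl⟩) hy)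

theorem exists_prod {m : Cardinal.{0}} (hT : n < #T) (hm : 2 ^ #T ≤ m) :
    MinProd m n (fun _ : T => Set Bool) (Heyting.Regular (Opens (Sp n hn T))) (emb hn) := by
  have hTm : #T ≤ m := (cantor _).le.trans hm
  have hnm : n ≤ m := hT.le.trans hTm
  refine ⟨?_, ?_, ?_, ?_, ?_⟩
  · intro S _
    exact ⟨⟨_, Heyting.Regular.gi.isLUB_of_u_image (isLUB_sSup _)⟩,
      ⟨_, Heyting.Regular.gi.isGLB_of_u_image (isGLB_sInf _)⟩⟩
  · intro t
    refine ⟨?_, fun S _ => ⟨emb0_lub t S, emb0_glb t S⟩⟩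
    intro A A' h
    ext v
    have h1 : ∀ C : Set Bool, v ∈ C ↔ ((fun _ => v : T → Bool) : Sp n hn T) ∈ und (emb hn t C) :=
      fun C => (mem_emb0 (hn := hn) (t := t) (A := C) (y := fun _ => v)).symm
    rw [h1, h1, h]
  · intro T' a hT' ha c hc e
    have h1 : c = cyl hn T' hT' a := hc.unique (cyl_glb T' hT' a)
    have h2 : ∀ t, ∃ v, t ∈ T' → v ∈ a t := by
      intro t
      by_cases ht : t ∈ T'
      · obtain ⟨v, hv⟩ := Set.nonempty_iff_ne_empty.2 (ha t ht)
        exact ⟨v, fun _ => hv⟩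
      · exact ⟨true, fun h => absurd h ht⟩
    choose x hx using h2
    have : (x : Sp n hn T) ∈ und c := by rw [h1]; exact hx
    rw [e, und_bot] at this
    exact this
  · intro C hG _ hC
    rw [Set.eq_univ_iff_forall]
    intro U
    have hcyl : ∀ (s : Set T) (hs : #s ≤ n) (a : T → Set Bool), cyl hn s hs a ∈ C := by
      intro s hs a
      refine hC _ ?_ ?_ _ (Or.inr (cyl_glb s hs a))
      · rintro _ ⟨t, _, rfl⟩
        exact hG ⟨t, _, rfl⟩
      · have : {b | ∃ t ∈ s, b = emb hn t (a t)} = (fun t => emb hn t (a t)) '' s := by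
          ext b; simp [eq_comm]
        rw [this]
        exact mk_image_le.trans (hs.trans hnm)
    have hU := (open_iff _).1 U.val.isOpen
    choose s hs hsub using hU
    let f : und U → Heyting.Regular (Opens (Sp n hn T)) :=
      fun x => cyl hn (s x.1 x.2) (hs x.1 x.2) (fun t => {x.1 t})
    refine hC (Set.range f) ?_ ?_ _ (Or.inl ⟨?_, ?_⟩)
    · rintro _ ⟨x, rfl⟩
      exact hcyl _ _ _
    · refine mk_range_le.trans ((mk_set_le _).trans ?_)
      show #(T → Bool) ≤ m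
      simpa using hm
    · rintro _ ⟨x, rfl⟩
      rw [und_le]
      intro y hy
      exact hsub x.1 x.2 y hy
    · intro V hV
      rw [und_le]
      intro y hy
      exact und_le.1 (hV ⟨⟨y, hy⟩, rfl⟩) (fun t _ => rfl)
  · intro U hU
    have : (und U).Nonempty := by
      rw [Set.nonempty_iff_ne_empty]
      intro e
      exact hU (und_inj (by rw [e, und_bot]))
    obtain ⟨x, hx⟩ := this
    obtain ⟨s, hs, hsub⟩ := (open_iff _).1 U.val.isOpen x hx
    refine ⟨s, fun t => {x t}, cyl hn s hs (fun t => {x t}), hs, cyl_glb _ _ _, ?_, ?_⟩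
    · intro e
      have : x ∈ und (cyl hn s hs (fun t => {x t})) := fun t _ => rfl
      rw [e, und_bot] at this
      exact this
    · rw [und_le]
      intro y hy
      exact hsub y hy

end

end Pool.Agent.H15.SK
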