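import Mathlib

set_option autoImplicit false

namespace Pool.Agent.H15.SP1

/-- `0 ⊕ (1 ∥ ((2 ∥ 3) ⊕ (4 ∥ 5) ⊕ (6 ∥ 7))) ⊕ 8` -/
def P : Type := Fin 9

instance : DecidableEq P := inferInstanceAs (DecidableEq (Fin 9))
instance : Fintype P := inferInstanceAs (Fintype (Fin 9))

def pt (i : Fin 9) : P := i
def num (x : P) : ℕ := Fin.val x

def ple (x y : P) : Bool :=
  num x == num y || num x == 0 || num y == 8 ||
    (num x != 1 && num y != 1 && decide (num x / 2 < num y / 2))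

instance : PartialOrder P where
  le x y := ple x y = true
  lt x y := ple x y = true ∧ ¬ ple y x = true
  lt_iff_le_not_ge _ _ := Iff.rfl
  le_refl := by decide +kernel
  le_trans := by decide +kernel
  le_antisymm := by decide +kernel

instance : DecidableRel (fun x y : P => x ≤ y) := fun x y =>
  inferInstanceAs (Decidable (ple x y = true))

instance : DecidableRel (fun x y : P => x < y) := fun x y =>
  inferInstanceAs (Decidable (ple x y = true ∧ ¬ ple y x = true))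

def covl : List (ℕ × ℕ) :=
  [(2, 4), (2, 5), (3, 4), (3, 5), (4, 6), (4, 7), (5, 6), (5, 7), (0, 1), (0, 2), (0, 3),
    (1, 8), (6, 8), (7, 8)]

def cov (x y : P) : Bool := covl.contains (num x, num y)

theorem cov_iff (x y : P) : x ⋖ y ↔ cov x y = true := by
  have : ∀ x y : P, (x < y ∧ ∀ z : P, x < z → ¬ z < y) ↔ cov x y = true := by decide +kernel
  exact this x y

def wl : List (P × P) :=
  [(pt 0, pt 1), (pt 0, pt 2), (pt 2, pt 5), (pt 3, pt 4), (pt 4, pt 6), (pt 6, pt 8),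
    (pt 1, pt 8)]

def wt (x y : P) : ℕ := if (x, y) ∈ wl then 1 else 0

theorem nfree : ¬ ∃ a b c d : P, a < b ∧ c < b ∧ c < d ∧ ¬ a ≤ c ∧ ¬ c ≤ a ∧
    ¬ a ≤ d ∧ ¬ d ≤ a ∧ ¬ b ≤ d ∧ ¬ d ≤ b := by decide +kernel

theorem bip : ∃ col : P → Bool, ∀ x y : P, x ⋖ y → col x ≠ col y := by
  refine ⟨fun x => num x = 0 ∨ num x = 4 ∨ num x = 5 ∨ num x = 8, ?_⟩
  simp only [cov_iff]
  decide +kernel

theorem nocut : ∀ x y : P, x ⋖ y →
    ∃ x' y' : P, x' ⋖ y' ∧ x' ⋖ y ∧ x ⋖ y' ∧ (x' ≠ x ∨ y' ≠ y) := by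
  simp only [cov_iff]
  decide +kernel

theorem ext_le (L : P → ℕ) (hi : Function.Injective L) (hL : ∀ x y, x < y → L x < L y)
    (S : Finset (P × P)) (hS : ∀ p ∈ S, L p.2 = L p.1 + 1) : ∑ p ∈ S, wt p.1 p.2 ≤ 3 := by
  have h1 : ∑ p ∈ S, wt p.1 p.2 ≤ ∑ p ∈ wl.toFinset, if L p.2 = L p.1 + 1 then 1 else 0 := by
    rw [← Finset.card_filter]
    simp only [wt]
    rw [← Finset.card_filter]
    apply Finset.card_le_card
    intro p hp
    rw [Finset.mem_filter] at hp ⊢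
    exact ⟨List.mem_toFinset.2 hp.2, hS p hp.1⟩
  rw [List.sum_toFinset _ (by decide)] at h1
  simp only [wl, List.map_cons, List.map_nil, List.sum_cons, List.sum_nil] at h1
  have a1 := hL (pt 0) (pt 1) (by decide)
  have a2 := hL (pt 0) (pt 2) (by decide)
  have a3 := hL (pt 0) (pt 3) (by decide)
  have a4 := hL (pt 2) (pt 4) (by decide)
  have a5 := hL (pt 2) (pt 5) (by decide)
  have a6 := hL (pt 3) (pt 4) (by decide)
  have a7 := hL (pt 3) (pt 5) (by decide)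
  have a8 := hL (pt 4) (pt 6) (by decide)
  have a9 := hL (pt 4) (pt 7) (by decide)
  have a10 := hL (pt 5) (pt 6) (by decide)
  have a11 := hL (pt 5) (pt 7) (by decide)
  have a12 := hL (pt 6) (pt 8) (by decide)
  have a13 := hL (pt 7) (pt 8) (by decide)
  have a14 := hL (pt 1) (pt 8) (by decide)
  have b1 : L (pt 1) ≠ L (pt 2) := fun h => absurd (hi h) (by decide)
  have b2 : L (pt 1) ≠ L (pt 6) := fun h => absurd (hi h) (by decide)
  have b3 : L (pt 2) ≠ L (pt 3) := fun h => absurd (hi h) (by decide)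
  have b4 : L (pt 4) ≠ L (pt 5) := fun h => absurd (hi h) (by decide)
  have b5 : L (pt 6) ≠ L (pt 7) := fun h => absurd (hi h) (by decide)
  split_ifs at h1 <;> omega

theorem cut_le : ∀ x y : P, cov x y = true →
    (wl.toFinset.filter fun p => cov p.1 p.2 = true ∧ cov p.1 y = true ∧ cov x p.2 = true).card
      ≤ 2 := by decide +kernel

theorem fan_le : ∀ v : P,
    (wl.toFinset.filter fun p => cov p.1 p.2 = true ∧ (p.1 = v ∨ p.2 = v)).card ≤ 2 := by
  decide +kernel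

open Classical in
theorem cover_ge (k : ℕ) (F : Fin k → Set (P × P))
    (hF : ∀ i, (∃ x y : P, x ⋖ y ∧ F i = {p : P × P | p.1 ⋖ p.2 ∧ p.1 ⋖ y ∧ x ⋖ p.2}) ∨
      (∃ v : P, F i = {p : P × P | p.1 ⋖ p.2 ∧ (p.1 = v ∨ p.2 = v)}))
    (hc : ∀ x y : P, x ⋖ y → wt x y ≤ 1 → wt x y = 1 → ∃ i, (x, y) ∈ F i) : 4 ≤ k := by
  have h1 : wl.toFinset ⊆ Finset.univ.biUnion fun i => wl.toFinset.filter fun p => p ∈ F i := by
    intro p hp
    have e : ∀ p ∈ wl.toFinset, cov p.1 p.2 = true ∧ wt p.1 p.2 = 1 := by decide +kernel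
    obtain ⟨i, hi⟩ := hc p.1 p.2 ((cov_iff _ _).2 (e p hp).1) (e p hp).2.le (e p hp).2
    exact Finset.mem_biUnion.2 ⟨i, Finset.mem_univ _, Finset.mem_filter.2 ⟨hp, hi⟩⟩
  have h2 : ∀ i, (wl.toFinset.filter fun p => p ∈ F i).card ≤ 2 := by
    intro i
    rcases hF i with ⟨x, y, hxy, e⟩ | ⟨v, e⟩
    · refine le_trans (Finset.card_le_card ?_) (cut_le x y ((cov_iff _ _).1 hxy))
      intro p hp
      rw [Finset.mem_filter] at hp ⊢
      rw [e] at hp
      exact ⟨hp.1, (cov_iff _ _).1 hp.2.1, (cov_iff _ _).1 hp.2.2.1, (cov_iff _ _).1 hp.2.2.2⟩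
    · refine le_trans (Finset.card_le_card ?_) (fan_le v)
      intro p hp
      rw [Finset.mem_filter] at hp ⊢
      rw [e] at hp
      exact ⟨hp.1, (cov_iff _ _).1 hp.2.1, hp.2.2⟩
  have h3 := (Finset.card_le_card h1).trans
    (Finset.card_biUnion_le_card_mul _ _ 2 (fun i _ => h2 i))
  have h4 : wl.toFinset.card = 7 := by decide +kernel
  rw [h4, Finset.card_univ, Fintype.card_fin] at h3
  omega

end Pool.Agent.H15.SP1
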