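import Mathlib

set_option autoImplicit false

namespace Pool.Agent.H15.SS

open Set

def SS (L : Type) [LinearOrder L] : Prop :=
  ∀ K : Set L, K.Nonempty → ∃ f : L → K, Monotone f ∧ Function.Surjective f

/-- the part above `x` maps onto itself with `x` added -/
def R {L : Type} [LinearOrder L] (x : L) : Prop :=
  ∃ f : L → L, MonotoneOn f (Ioi x) ∧ MapsTo f (Ioi x) (Ici x) ∧ SurjOn f (Ioi x) (Ici x)

variable {L : Type} [LinearOrder L]

theorem pred_ex (x y : L) (h : x < y) (hf : (Icc x y).Finite) : ∃ p, x ≤ p ∧ p ⋖ y := by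
  obtain ⟨p, hp, hm⟩ := (hf.subset Ico_subset_Icc_self).exists_maximal ⟨x, le_rfl, h⟩
  exact ⟨p, hp.1, hp.2, fun c h1 h2 => absurd (hm ⟨hp.1.trans h1.le, h2⟩ h1.le) (not_le.2 h1)⟩

theorem exists_pred (x : L) : ∃ p : L → L, ∀ y, x < y → (Icc x y).Finite → x ≤ p y ∧ p y ⋖ y := by
  classical
  refine ⟨fun y => if h : x < y ∧ (Icc x y).Finite then (pred_ex x y h.1 h.2).choose else y,
    fun y h1 h2 => ?_⟩
  have h : x < y ∧ (Icc x y).Finite := ⟨h1, h2⟩
  simp only [dif_pos h]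
  exact (pred_ex x y h.1 h.2).choose_spec

theorem cov_mono {a b c d : L} (h1 : a ⋖ b) (h2 : c ⋖ d) (h : b ≤ d) : a ≤ c := by
  by_contra k
  exact h2.2 (not_le.1 k) (h1.1.trans_le h)

theorem fin_cov {x w s : L} (hw : (Icc x w).Finite) (h : w ⋖ s) : (Icc x s).Finite :=
  (hw.insert s).subset fun z hz => by
    rcases hz.2.eq_or_lt with k | k
    · exact Or.inl k
    · exact Or.inr ⟨hz.1, not_lt.1 fun j => h.2 j k⟩

theorem R_of_all (x : L) (h : ∀ w, x ≤ w → (Icc x w).Finite → ∃ s, w ⋖ s) : R x := by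
  classical
  obtain ⟨p, hp⟩ := exists_pred x
  refine ⟨fun y => if (Icc x y).Finite then p y else y, fun y hy z hz hyz => ?_, fun y hy => ?_,
    fun w hw => ?_⟩
  · by_cases k : (Icc x z).Finite
    · have k' : (Icc x y).Finite := k.subset (Icc_subset_Icc_right hyz)
      simp only [k, k', if_true]
      exact cov_mono (hp y hy k').2 (hp z hz k).2 hyz
    · by_cases k' : (Icc x y).Finite
      · simp only [k, k', if_true, if_false]
        exact (hp y hy k').2.1.le.trans hyz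
      · simpa only [k, k', if_false] using hyz
  · by_cases k : (Icc x y).Finite
    · simp only [k, if_true]; exact (hp y hy k).1
    · simp only [k, if_false]; exact le_of_lt hy
  · by_cases k : (Icc x w).Finite
    · obtain ⟨s, hs⟩ := h w hw k
      have k1 : x < s := lt_of_le_of_lt hw hs.1
      have k2 := fin_cov k hs
      refine ⟨s, k1, ?_⟩
      simp only [k2, if_true]
      exact le_antisymm (cov_mono (hp s k1 k2).2 hs le_rfl) (cov_mono hs (hp s k1 k2).2 le_rfl)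
    · refine ⟨w, lt_of_le_of_ne hw ?_, by simp only [k, if_false]⟩
      rintro rfl
      exact k (by simp)

theorem R_down (x t : L) (hxt : x ≤ t) (hf : (Icc x t).Finite) (h : R t) : R x := by
  classical
  obtain ⟨p, hp⟩ := exists_pred x
  obtain ⟨g, g1, g2, g3⟩ := h
  have fi : ∀ y, y ≤ t → (Icc x y).Finite := fun y hy => hf.subset (Icc_subset_Icc_right hy)
  refine ⟨fun y => if y ≤ t then p y else g y, fun y hy z hz hyz => ?_, fun y hy => ?_,
    fun w hw => ?_⟩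
  · by_cases k : z ≤ t
    · simp only [k, hyz.trans k, if_true]
      exact cov_mono (hp y hy (fi y (hyz.trans k))).2 (hp z hz (fi z k)).2 hyz
    · by_cases k' : y ≤ t
      · simp only [k, k', if_true, if_false]
        exact (hp y hy (fi y k')).2.1.le.trans (k'.trans (g2 (not_le.1 k)))
      · simp only [k, k', if_false]
        exact g1 (not_le.1 k') (not_le.1 k) hyz
  · by_cases k : y ≤ t
    · simp only [k, if_true]; exact (hp y hy (fi y k)).1
    · simp only [k, if_false]; exact hxt.trans (g2 (not_le.1 k))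
  · by_cases k : t ≤ w
    · obtain ⟨y, hy, e⟩ := g3 k
      exact ⟨y, lt_of_le_of_lt hxt hy, by simp only [not_le.2 (show t < y from hy), if_false, e]⟩
    · obtain ⟨s, hs, hm⟩ := (hf.subset (show Ioc w t ⊆ Icc x t from
        fun z hz => ⟨le_trans hw hz.1.le, hz.2⟩)).exists_minimal ⟨t, not_le.1 k, le_rfl⟩
      have c : w ⋖ s :=
        ⟨hs.1, fun c h1 h2 => absurd (hm ⟨h1, h2.le.trans hs.2⟩ h2.le) (not_le.2 h2)⟩
      have k1 : x < s := lt_of_le_of_lt hw hs.1
      refine ⟨s, k1, ?_⟩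
      simp only [hs.2, if_true]
      exact le_antisymm (cov_mono (hp s k1 (fi s hs.2)).2 c le_rfl)
        (cov_mono c (hp s k1 (fi s hs.2)).2 le_rfl)

theorem R_of_map (b t : L) (hbt : b ≤ t) (hb : ∀ p, ¬ p ⋖ b) (g : L → L) (g1 : Monotone g)
    (g2 : ∀ y, g y < b ∨ t < g y) (g3 : ∀ k, k < b ∨ t < k → ∃ y, g y = k) (h : g t < b) :
    R t := by
  classical
  refine ⟨fun y => max t (g y), fun y _ z _ hyz => max_le_max le_rfl (g1 hyz),
    fun y _ => le_max_left _ _, fun w hw => ?_⟩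
  rcases (show t ≤ w from hw).eq_or_lt with rfl | k
  · obtain ⟨c, c1, c2⟩ := (not_covBy_iff h).1 (hb _)
    obtain ⟨y, rfl⟩ := g3 c (Or.inl c2)
    exact ⟨y, g1.reflect_lt c1, max_eq_left (c2.le.trans hbt)⟩
  · obtain ⟨y, rfl⟩ := g3 w (Or.inr k)
    exact ⟨y, g1.reflect_lt (h.trans_le (hbt.trans k.le)), max_eq_right k.le⟩

theorem onto_of_R (x : L) (h : R x) :
    ∃ f : {y // y ≠ x} → L, Monotone f ∧ Function.Surjective f := by
  classical
  obtain ⟨g, g1, g2, g3⟩ := h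
  refine ⟨fun y => if x < y.1 then g y.1 else y.1, fun y z hyz => ?_, fun w => ?_⟩
  · have hyz' : y.1 ≤ z.1 := hyz
    by_cases k : x < y.1
    · simp only [k, k.trans_le hyz', if_true]
      exact g1 k (k.trans_le hyz') hyz'
    · by_cases k' : x < z.1
      · simp only [k, k', if_true, if_false]
        exact (not_lt.1 k).trans (g2 k')
      · simpa only [k, k', if_false] using hyz'
  · by_cases k : x ≤ w
    · obtain ⟨y, hy, e⟩ := g3 k
      exact ⟨⟨y, ne_of_gt hy⟩, by simp only [show x < y from hy, if_true, e]⟩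
    · exact ⟨⟨w, (not_le.1 k).ne⟩, by simp only [not_lt.2 (not_le.1 k).le, if_false]⟩

theorem SS_finite (M : Type) [LinearOrder M] [Finite M] : SS M := by
  classical
  intro K hK
  obtain ⟨m, hm, hmin⟩ := (toFinite K).exists_minimal hK
  have ex : ∀ y : M, ∃ k ∈ K, (k ≤ y ∨ k = m) ∧ ∀ j ∈ K, j ≤ y → j ≤ k := by
    intro y
    by_cases h : (K ∩ Iic y).Nonempty
    · obtain ⟨k, hk, hmax⟩ := (toFinite (K ∩ Iic y)).exists_maximal h
      exact ⟨k, hk.1, Or.inl hk.2, fun j hj hjy => by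
        rcases le_total j k with l | l
        · exact l
        · exact hmax ⟨hj, hjy⟩ l⟩
    · exact ⟨m, hm, Or.inr rfl, fun j hj hjy => (h ⟨j, hj, hjy⟩).elim⟩
  choose f f1 f2 f3 using ex
  have mle : ∀ j ∈ K, m ≤ j := fun j hj => by
    rcases le_total m j with l | l
    · exact l
    · exact hmin hj l
  refine ⟨fun y => ⟨f y, f1 y⟩, fun y z hyz => ?_, fun k => ⟨k.1, Subtype.ext ?_⟩⟩
  · show f y ≤ f z
    rcases f2 y with l | l
    · exact f3 z _ (f1 y) (l.trans hyz)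
    · rw [l]; exact mle _ (f1 z)
  · refine le_antisymm ?_ (f3 k.1 k.1 k.2 le_rfl)
    rcases f2 k.1 with l | l
    · exact l
    · show f k.1 ≤ k.1
      rw [l]; exact mle _ k.2

theorem dich (h : SS L) (x : L) : Finite L ∨ R x ∨ R (OrderDual.toDual x) := by
  classical
  by_contra hn
  simp only [not_or] at hn
  obtain ⟨n1, n2, n3⟩ := hn
  have e1 : ∃ t, x ≤ t ∧ (Icc x t).Finite ∧ ∀ s, ¬ t ⋖ s := by
    by_contra k
    push Not at k
    exact n2 (R_of_all x k)
  have e2 : ∃ b, b ≤ x ∧ (Icc b x).Finite ∧ ∀ s, ¬ s ⋖ b := by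
    by_contra k
    push Not at k
    refine n3 (R_of_all (L := Lᵒᵈ) _ fun w hw hf => ?_)
    obtain ⟨s, hs⟩ := k (OrderDual.ofDual w) hw (hf.subset fun z hz => ⟨hz.2, hz.1⟩)
    exact ⟨OrderDual.toDual s, hs.toDual⟩
  obtain ⟨t, t1, t2, t3⟩ := e1
  obtain ⟨b, b1, b2, b3⟩ := e2
  have fin : (Icc b t).Finite := (b2.union t2).subset fun z hz => by
    rcases le_total z x with k | k
    · exact Or.inl ⟨hz.1, k⟩
    · exact Or.inr ⟨k, hz.2⟩
  have hne : {k | k < b ∨ t < k}.Nonempty := by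
    by_contra k
    apply n1
    rw [← finite_univ_iff]
    refine fin.subset fun z _ => ⟨not_lt.1 fun j => k ⟨z, Or.inl j⟩, not_lt.1 fun j => k ⟨z, Or.inr j⟩⟩
  obtain ⟨g, g1, g2⟩ := h _ hne
  have m1 : Monotone fun y => (g y).1 := fun y z hyz => g1 hyz
  have m3 : ∀ k, k < b ∨ t < k → ∃ y, (g y).1 = k := fun k hk => by
    obtain ⟨y, hy⟩ := g2 ⟨k, hk⟩
    exact ⟨y, congrArg Subtype.val hy⟩
  have hbt := b1.trans t1
  rcases (g t).2 with k1 | k1
  · exact n2 (R_down x t t1 t2 (R_of_map b t hbt b3 _ m1 (fun y => (g y).2) m3 k1))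
  rcases (g b).2 with k2 | k2
  · obtain ⟨m, hm, hmax⟩ := (fin.subset (show {y | y ∈ Icc b t ∧ (g y).1 < b} ⊆ Icc b t from
      fun z hz => hz.1)).exists_maximal ⟨b, ⟨le_rfl, hbt⟩, k2⟩
    obtain ⟨c, c1, c2⟩ := (not_covBy_iff hm.2).1 (b3 _)
    obtain ⟨y, rfl⟩ := m3 c (Or.inl c2)
    have j1 : m < y := m1.reflect_lt c1
    have j2 : y < t := m1.reflect_lt (c2.trans_le (hbt.trans k1.le))
    exact absurd (hmax ⟨⟨hm.1.1.trans j1.le, j2.le⟩, c2⟩ j1.le) (not_le.2 j1)
  · refine n3 (R_down (L := Lᵒᵈ) _ (OrderDual.toDual b) b1 (b2.subset fun z hz => ⟨hz.2, hz.1⟩)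
      (R_of_map (L := Lᵒᵈ) (OrderDual.toDual t) (OrderDual.toDual b) hbt
        (fun p hp => t3 (OrderDual.ofDual p) hp.ofDual) (fun y => OrderDual.toDual (g y).1)
        (fun y z hyz => m1 hyz) (fun y => (g y).2.symm) (fun k hk => m3 k hk.symm) k2))

theorem main (h : SS L) (x : L) : SS {y // y ≠ x} := by
  have key : (∃ f : {y // y ≠ x} → L, Monotone f ∧ Function.Surjective f) → SS {y // y ≠ x} := by
    rintro ⟨f, f1, f2⟩ K hK
    obtain ⟨g, g1, g2⟩ := h (Subtype.val '' K) (hK.image _)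
    have ex : ∀ y, ∃ k : K, k.1.1 = (g y).1 := fun y => by
      obtain ⟨k, hk, e⟩ := (g y).2
      exact ⟨⟨k, hk⟩, e⟩
    choose u hu using ex
    refine ⟨fun y => u (f y), fun y z hyz => ?_, fun k => ?_⟩
    · show (u (f y)).1.1 ≤ (u (f z)).1.1
      rw [hu, hu]
      exact g1 (f1 hyz)
    · obtain ⟨w, hw⟩ := g2 ⟨k.1.1, k.1, k.2, rfl⟩
      obtain ⟨y, rfl⟩ := f2 w
      exact ⟨y, Subtype.ext (Subtype.ext (by rw [hu, hw]))⟩
  rcases dich h x with k | k | k
  · exact SS_finite _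
  · exact key (onto_of_R x k)
  · obtain ⟨f, f1, f2⟩ := onto_of_R (L := Lᵒᵈ) _ k
    exact key ⟨fun y => OrderDual.ofDual (f ⟨OrderDual.toDual y.1, y.2⟩),
      fun y z hyz => f1 (show (⟨OrderDual.toDual z.1, z.2⟩ : {y : Lᵒᵈ // y ≠ OrderDual.toDual x}) ≤
        ⟨OrderDual.toDual y.1, y.2⟩ from hyz), fun w => by
      obtain ⟨y, hy⟩ := f2 (OrderDual.toDual w)
      exact ⟨⟨OrderDual.ofDual y.1, y.2⟩, congrArg OrderDual.ofDual hy⟩⟩

end Pool.Agent.H15.SS
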