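import Mathlib
import Pool.Agent.H15.RJ1

set_option autoImplicit false
open Filter Topology Finset

namespace Pool.Agent.H15.SW1
open Pool.Agent.H15.RJ1

theorem ee_cont : Continuous ee := by unfold ee; fun_prop

theorem norm_mul_ee_arg (z : ℂ) : ((‖z‖ : ℝ) : ℂ) * ee z.arg = z := by
  unfold ee
  rw [mul_comm Complex.I]
  exact Complex.norm_mul_exp_arg_mul_I z

theorem ee_pi : ee Real.pi = -1 := by
  unfold ee
  rw [mul_comm]; exact Complex.exp_pi_mul_I

theorem two_term (z : ℂ) (r ρ : ℝ) (hr : 0 ≤ r) (h1 : |‖z‖ - r| ≤ ρ) (h2 : ρ ≤ ‖z‖ + r) :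
    ∃ φ : ℝ, ‖z + r * ee φ‖ = ρ := by
  have hc : Continuous (fun φ : ℝ => ‖z + r * ee φ‖) :=
    (continuous_const.add (continuous_const.mul ee_cont)).norm
  have a1 : ‖z + r * ee z.arg‖ = ‖z‖ + r := by
    have : z + r * ee z.arg = ((‖z‖ + r : ℝ) : ℂ) * ee z.arg := by
      push_cast
      rw [add_mul, norm_mul_ee_arg]
    rw [this, norm_mul, norm_ee, mul_one, Complex.norm_real, Real.norm_eq_abs,
      abs_of_nonneg (by positivity)]
  have a2 : ‖z + r * ee (z.arg + Real.pi)‖ = |‖z‖ - r| := by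
    have : z + r * ee (z.arg + Real.pi) = ((‖z‖ - r : ℝ) : ℂ) * ee z.arg := by
      push_cast
      rw [sub_mul, norm_mul_ee_arg, ee_add, ee_pi]
      ring
    rw [this, norm_mul, norm_ee, mul_one, Complex.norm_real, Real.norm_eq_abs]
  have := intermediate_value_univ (z.arg + Real.pi) z.arg hc
  rw [a1, a2] at this
  exact this ⟨h1, h2⟩

theorem polygon (r : ℕ → ℝ) (hr : ∀ n, 0 ≤ r n) (s : Finset ℕ) : ∀ ρ : ℝ, 0 ≤ ρ →
    ρ ≤ ∑ n ∈ s, r n → (∀ j ∈ s, 2 * r j - ∑ n ∈ s, r n ≤ ρ) →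
    ∃ φ : ℕ → ℝ, ‖∑ n ∈ s, (r n : ℂ) * ee (φ n)‖ = ρ := by
  induction s using Finset.induction_on with
  | empty =>
    intro ρ h0 h1 _
    refine ⟨fun _ => 0, ?_⟩
    simp at h1 ⊢
    linarith
  | insert k s hk ih =>
    intro ρ h0 h1 h2
    rw [sum_insert hk] at h1 h2
    have hS : 0 ≤ ∑ n ∈ s, r n := sum_nonneg fun n _ => hr n
    have hrk := hr k
    have hk2 := h2 k (mem_insert_self _ _)
    obtain ⟨φ, hφ⟩ := ih (min (∑ n ∈ s, r n) (ρ + r k)) (le_min hS (by linarith)) (min_le_left _ _)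
      (fun j hj => le_min (by linarith [single_le_sum (fun n _ => hr n) hj])
        (by linarith [h2 j (mem_insert_of_mem hj)]))
    obtain ⟨ψ, hψ⟩ := two_term (∑ n ∈ s, (r n : ℂ) * ee (φ n)) (r k) ρ hrk
      (by
        rw [hφ, abs_le]
        constructor
        · rcases min_choice (∑ n ∈ s, r n) (ρ + r k) with h | h <;> rw [h] <;> linarith
        · linarith [min_le_right (∑ n ∈ s, r n) (ρ + r k)])
      (by
        rw [hφ]
        rcases min_choice (∑ n ∈ s, r n) (ρ + r k) with h | h <;> rw [h] <;> linarith)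
    refine ⟨Function.update φ k ψ, ?_⟩
    rw [sum_insert hk, Function.update_self, add_comm, ← hψ]
    congr 2
    refine sum_congr rfl fun n hn => ?_
    rw [Function.update_of_ne (by rintro rfl; exact hk hn)]

noncomputable def bb (n : ℕ) : ℝ := 2 ^ (n ^ 2)

theorem bb_pos (n : ℕ) : 0 < bb n := by unfold bb; positivity

theorem bb_succ (n : ℕ) : bb (n + 1) = bb n * (2 * 4 ^ n) := by
  unfold bb
  have : (n + 1) ^ 2 = n ^ 2 + (1 + 2 * n) := by ring
  rw [this, pow_add, pow_add, pow_mul]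
  norm_num

theorem bb_ge (n : ℕ) : 2 ^ n ≤ bb n := by
  unfold bb
  exact pow_le_pow_right₀ (by norm_num) (Nat.le_self_pow two_ne_zero n)

theorem hit (b T θ : ℝ) (hb : 0 < b) : ∃ t, T ≤ t ∧ t ≤ T + 8 / b ∧ ee (b * t) = ee θ := by
  have hp := Real.two_pi_pos
  have h := toIocMod_mem_Ioc hp (b * T) θ
  have h2 := toIocMod_add_toIocDiv_zsmul hp (b * T) θ
  set u := toIocMod hp (b * T) θ
  set k := toIocDiv hp (b * T) θ
  have hpi := Real.pi_lt_four
  refine ⟨u / b, ?_, ?_, ?_⟩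
  · rw [le_div_iff₀ hb]; linarith [h.1]
  · rw [div_le_iff₀ hb, add_mul, div_mul_cancel₀ _ hb.ne']; linarith [h.2]
  · rw [mul_div_cancel₀ _ hb.ne', ← h2, ee_add]
    have : ee (k • (2 * Real.pi)) = 1 := by
      unfold ee
      rw [Complex.exp_eq_one_iff]
      exact ⟨k, by simp; ring⟩
    rw [this, mul_one]

theorem nested (θ : ℕ → ℝ) (k : ℕ) : ∀ (N : ℕ) (T : ℝ), ∃ t, T ≤ t ∧ t ≤ T + 16 / bb N ∧
    ∀ n ∈ Ico N (N + k), ‖ee (bb n * t) - ee (θ n)‖ ≤ 8 / 2 ^ N := by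
  induction k with
  | zero =>
    intro N T
    have := bb_pos N
    exact ⟨T, le_rfl, by linarith [show 0 < 16 / bb N by positivity], by simp⟩
  | succ k ih =>
    intro N T
    have hb := bb_pos N
    obtain ⟨t1, a1, a2, a3⟩ := hit (bb N) T (θ N) hb
    obtain ⟨t, b1, b2, b3⟩ := ih (N + 1) t1
    have h4 : (1 : ℝ) ≤ 4 ^ N := one_le_pow₀ (by norm_num)
    have h5 : (2 : ℝ) ^ N ≤ 4 ^ N := pow_le_pow_left₀ (by norm_num) (by norm_num) N
    have e1 : 16 / bb (N + 1) = 8 / bb N / 4 ^ N := by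
      rw [bb_succ]; field_simp; norm_num
    have e2 : 8 / bb N / 4 ^ N ≤ 8 / bb N := div_le_self (by positivity) h4
    refine ⟨t, by linarith, ?_, ?_⟩
    · have : 16 / bb N = 8 / bb N + 8 / bb N := by ring
      linarith
    · intro n hn
      rw [mem_Ico] at hn
      rcases hn.1.eq_or_lt with h | h
      · subst h
        rw [← a3]
        refine (norm_ee_sub_ee_le _ _).trans ?_
        rw [← mul_sub, abs_of_nonneg (mul_nonneg hb.le (by linarith))]
        calc bb N * (t - t1) ≤ bb N * (8 / bb N / 4 ^ N) := by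
              apply mul_le_mul_of_nonneg_left _ hb.le; linarith
          _ = 8 / 4 ^ N := by field_simp
          _ ≤ 8 / 2 ^ N := div_le_div_of_nonneg_left (by norm_num) (by positivity) h5
      · refine (b3 n (mem_Ico.mpr ⟨h, by omega⟩)).trans ?_
        apply div_le_div_of_nonneg_left (by norm_num) (by positivity)
        exact pow_le_pow_right₀ (by norm_num) (Nat.le_succ N)

noncomputable def aa (n : ℕ) : ℝ := 1 / ((n : ℝ) + 1)

theorem aa_pos (n : ℕ) : 0 < aa n := by unfold aa; positivity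

theorem aa_le (n : ℕ) : aa n ≤ 1 := by
  unfold aa
  rw [div_le_one (by positivity)]
  linarith [Nat.cast_nonneg (α := ℝ) n]

/-- the multiplier -/
noncomputable def mm (n : ℕ) (t : ℝ) : ℂ := (Real.exp (-(aa n * t)) : ℝ) * ee (bb n * t)

theorem norm_mm (n : ℕ) (t : ℝ) : ‖mm n t‖ = Real.exp (-(aa n * t)) := by
  unfold mm
  rw [norm_mul, norm_ee, mul_one, Complex.norm_real, Real.norm_eq_abs, abs_of_pos (Real.exp_pos _)]

theorem norm_mm_le (n : ℕ) (t : ℝ) (ht : 0 ≤ t) : ‖mm n t‖ ≤ 1 := by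
  rw [norm_mm, Real.exp_le_one_iff]
  have := mul_nonneg (aa_pos n).le ht
  linarith

theorem early (n N : ℕ) (t : ℝ) (hn : n < N) (ht : (N : ℝ) ^ 2 ≤ t) :
    Real.exp (-(aa n * t)) ≤ 1 / 2 ^ N := by
  have h1 : (n : ℝ) + 1 ≤ N := by exact_mod_cast hn
  have h0 : (0 : ℝ) < (n : ℝ) + 1 := by positivity
  have h2 : (N : ℝ) ≤ aa n * t := by
    unfold aa
    rw [div_mul_eq_mul_div, le_div_iff₀ h0]
    nlinarith
  have h3 : (2 : ℝ) ^ N ≤ Real.exp N := by
    rw [← mul_one (N : ℝ), Real.exp_nat_mul]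
    apply pow_le_pow_left₀ (by norm_num)
    linarith [Real.add_one_le_exp (1 : ℝ)]
  rw [Real.exp_neg, ← one_div]
  apply one_div_le_one_div_of_le (by positivity)
  exact h3.trans (Real.exp_le_exp.mpr h2)

theorem exp_close (a T t : ℝ) (ha : 0 ≤ a) (ha1 : a ≤ 1) (hT : 0 ≤ T) (h : T ≤ t) :
    |Real.exp (-(a * t)) - Real.exp (-(a * T))| ≤ t - T := by
  have e : Real.exp (-(a * t)) = Real.exp (-(a * T)) * Real.exp (-(a * (t - T))) := by
    rw [← Real.exp_add]; congr 1; ring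
  have h1 : Real.exp (-(a * T)) ≤ 1 := by
    rw [Real.exp_le_one_iff]; nlinarith
  have h2 : Real.exp (-(a * (t - T))) ≤ 1 := by
    rw [Real.exp_le_one_iff]; nlinarith
  have h3 := Real.add_one_le_exp (-(a * (t - T)))
  have h4 := Real.exp_pos (-(a * T))
  rw [e, abs_le]
  constructor <;> nlinarith [mul_nonneg ha (sub_nonneg.mpr h)]

end Pool.Agent.H15.SW1
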