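import Mathlib
import Pool.Agent.H15.SW1

set_option autoImplicit false
open Filter Topology Finset

namespace Pool.Agent.H15.SW2
open Pool.Agent.H15.RJ1 Pool.Agent.H15.SW1

theorem split_bound {E : Type} [NormedAddCommGroup E] [CompleteSpace E] (w : ℕ → ℝ)
    (hw0 : ∀ n, 0 ≤ w n) (hw : Summable w) (g : ℕ → E) (N M : ℕ) (hNM : N ≤ M) (δ : ℝ) (hδ : 0 ≤ δ)
    (h1 : ∀ n, ‖g n‖ ≤ w n) (h2 : ∀ n < N, ‖g n‖ ≤ w n * δ)
    (h3 : ∑' n, w (n + M) ≤ δ) :
    ‖∑' n, g n - ∑ n ∈ Ico N M, g n‖ ≤ (∑' n, w n) * δ + δ := by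
  have hg : Summable g := Summable.of_norm_bounded hw h1
  have e := hg.sum_add_tsum_nat_add M
  rw [← sum_range_add_sum_Ico _ hNM] at e
  have e2 : ∑' n, g n - ∑ n ∈ Ico N M, g n = ∑ n ∈ range N, g n + ∑' n, g (n + M) := by
    rw [← e]; abel
  rw [e2]
  refine (norm_add_le _ _).trans (add_le_add ?_ ?_)
  · refine (norm_sum_le _ _).trans ?_
    refine (sum_le_sum fun n hn => h2 n (mem_range.mp hn)).trans ?_
    rw [← sum_mul]
    exact mul_le_mul_of_nonneg_right (hw.sum_le_tsum _ fun n _ => hw0 n) hδ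
  · refine le_trans ?_ h3
    exact tsum_of_norm_bounded ((summable_nat_add_iff M).mpr hw).hasSum fun n => h1 (n + M)

noncomputable def rr (c : ℕ → ℂ) (n : ℕ) (T : ℝ) : ℝ := ‖c n‖ * Real.exp (-(aa n * |T|))

theorem rr_nonneg (c : ℕ → ℂ) (n : ℕ) (T : ℝ) : 0 ≤ rr c n T := by unfold rr; positivity

theorem rr_le (c : ℕ → ℂ) (n : ℕ) (T : ℝ) : rr c n T ≤ ‖c n‖ := by
  unfold rr
  apply mul_le_of_le_one_right (norm_nonneg _)
  rw [Real.exp_le_one_iff]
  have := mul_nonneg (aa_pos n).le (abs_nonneg T)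
  linarith

theorem small (c : ℕ → ℂ) (hc : Summable fun n => ‖c n‖) (N : ℕ) (T : ℝ) (hT : (N : ℝ) ^ 2 ≤ T)
    (hd : ∀ n, N ≤ n → 2 * rr c n T ≤ ∑' m, rr c m T) :
    ∃ t, T ≤ t ∧ t ≤ T + 16 ∧ ‖∑' n, c n * mm n t‖ ≤ 30 * ((∑' n, ‖c n‖) + 1) / 2 ^ N := by
  set C := ∑' n, ‖c n‖ with hC
  have hC0 : 0 ≤ C := tsum_nonneg fun n => norm_nonneg _
  set δ : ℝ := 1 / 2 ^ N with hδ
  have hδ0 : 0 < δ := by positivity
  have hT0 : 0 ≤ T := le_trans (sq_nonneg _) hT
  obtain ⟨M, hM1, hM2⟩ := (((tendsto_sum_nat_add (fun n => ‖c n‖)).eventually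
    (ge_mem_nhds hδ0)).and (eventually_ge_atTop N)).exists
  have s1 := split_bound (fun n => ‖c n‖) (fun n => norm_nonneg _) hc (fun n => rr c n T) N M hM2
    δ hδ0.le (fun n => by rw [Real.norm_eq_abs, abs_of_nonneg (rr_nonneg c n T)]; exact rr_le c n T)
    (fun n hn => by
      rw [Real.norm_eq_abs, abs_of_nonneg (rr_nonneg c n T)]
      unfold rr
      rw [abs_of_nonneg hT0]
      exact mul_le_mul_of_nonneg_left (early n N T hn hT) (norm_nonneg _)) hM1
  rw [Real.norm_eq_abs, ← hC] at s1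
  have s1' := (abs_le.mp s1).2
  have hF0 : 0 ≤ ∑ n ∈ Ico N M, rr c n T := sum_nonneg fun n _ => rr_nonneg c n T
  obtain ⟨φ, hφ⟩ := polygon (fun n => rr c n T) (fun n => rr_nonneg c n T) (Ico N M)
    (min (C * δ + δ) (∑ n ∈ Ico N M, rr c n T)) (le_min (by positivity) hF0) (min_le_right _ _)
    (fun j hj => le_min (by linarith [hd j (mem_Ico.mp hj).1])
      (by linarith [single_le_sum (f := fun n => rr c n T) (fun n _ => rr_nonneg c n T) hj]))
  obtain ⟨k, rfl⟩ := Nat.exists_eq_add_of_le hM2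
  obtain ⟨t, t1, t2, t3⟩ := nested (fun n => φ n - (c n).arg) k N T
  have hb := bb_pos N
  have hb2 := bb_ge N
  have t4 : 16 / bb N ≤ 16 * δ := by
    rw [hδ, mul_one_div]
    exact div_le_div_of_nonneg_left (by norm_num) (by positivity) hb2
  have hδ1 : δ ≤ 1 := by
    rw [hδ, div_le_one (by positivity)]
    exact one_le_pow₀ (by norm_num)
  refine ⟨t, t1, by linarith, ?_⟩
  have s2 := split_bound (fun n => ‖c n‖) (fun n => norm_nonneg _) hc (fun n => c n * mm n t) N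
    (N + k) hM2 δ hδ0.le
    (fun n => by
      rw [norm_mul]
      exact mul_le_of_le_one_right (norm_nonneg _) (norm_mm_le n t (by linarith)))
    (fun n hn => by
      rw [norm_mul, norm_mm]
      exact mul_le_mul_of_nonneg_left (early n N t hn (by linarith)) (norm_nonneg _)) hM1
  rw [← hC] at s2
  have s3 : ‖∑ n ∈ Ico N (N + k), c n * mm n t - ∑ n ∈ Ico N (N + k), (rr c n T : ℂ) * ee (φ n)‖
      ≤ C * (24 * δ) := by
    rw [← sum_sub_distrib]
    refine (norm_sum_le _ _).trans ?_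
    have : ∀ n ∈ Ico N (N + k), ‖c n * mm n t - (rr c n T : ℂ) * ee (φ n)‖ ≤ ‖c n‖ * (24 * δ) := by
      intro n hn
      have e1 : (rr c n T : ℂ) * ee (φ n)
          = c n * ((Real.exp (-(aa n * T)) : ℝ) * ee (φ n - (c n).arg)) := by
        unfold rr
        rw [abs_of_nonneg hT0]
        have e2 : ee (φ n) = ee (c n).arg * ee (φ n - (c n).arg) := by
          rw [← ee_add]; congr 1; ring
        rw [e2]
        conv_rhs => rw [← norm_mul_ee_arg (c n)]
        rw [norm_mul_ee_arg (c n)]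
        have e3 := norm_mul_ee_arg (c n)
        push_cast
        linear_combination (Complex.exp (-((aa n : ℂ) * T)) * ee (φ n - (c n).arg)) * e3
      rw [e1, ← mul_sub, norm_mul]
      apply mul_le_mul_of_nonneg_left _ (norm_nonneg _)
      unfold mm
      have e4 : ((Real.exp (-(aa n * t)) : ℝ) : ℂ) * ee (bb n * t)
          - ((Real.exp (-(aa n * T)) : ℝ) : ℂ) * ee (φ n - (c n).arg)
          = ((Real.exp (-(aa n * t)) - Real.exp (-(aa n * T)) : ℝ) : ℂ) * ee (bb n * t)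
          + ((Real.exp (-(aa n * T)) : ℝ) : ℂ) * (ee (bb n * t) - ee (φ n - (c n).arg)) := by
        rw [Complex.ofReal_sub]; ring
      rw [e4]
      refine (norm_add_le _ _).trans ?_
      rw [norm_mul, norm_mul, norm_ee, mul_one, Complex.norm_real, Complex.norm_real,
        Real.norm_eq_abs, Real.norm_eq_abs, abs_of_pos (Real.exp_pos _)]
      have f1 := exp_close (aa n) T t (aa_pos n).le (aa_le n) hT0 t1
      have f2 := t3 n hn
      have f3 : Real.exp (-(aa n * T)) ≤ 1 := by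
        rw [Real.exp_le_one_iff]
        have := mul_nonneg (aa_pos n).le hT0
        linarith
      have f4 : (8 : ℝ) / 2 ^ N = 8 * δ := by rw [hδ]; ring
      have f5 := mul_le_mul f3 f2 (norm_nonneg _) zero_le_one
      linarith
    refine (sum_le_sum this).trans ?_
    rw [← sum_mul]
    exact mul_le_mul_of_nonneg_right (hc.sum_le_tsum _ fun n _ => norm_nonneg _) (by positivity)
  have s4 : ‖∑ n ∈ Ico N (N + k), (rr c n T : ℂ) * ee (φ n)‖ ≤ C * δ + δ := by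
    rw [hφ]; exact min_le_left _ _
  have e5 : ∑' n, c n * mm n t = (∑' n, c n * mm n t - ∑ n ∈ Ico N (N + k), c n * mm n t)
      + (∑ n ∈ Ico N (N + k), c n * mm n t - ∑ n ∈ Ico N (N + k), (rr c n T : ℂ) * ee (φ n))
      + ∑ n ∈ Ico N (N + k), (rr c n T : ℂ) * ee (φ n) := by ring
  rw [e5]
  refine ((norm_add_le _ _).trans (add_le_add (norm_add_le _ _) le_rfl)).trans ?_
  have e6 : 30 * (C + 1) / 2 ^ N = 30 * (C + 1) * δ := by rw [hδ]; ring
  rw [e6]
  nlinarith [mul_nonneg hC0 hδ0.le]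

theorem rr_cont (c : ℕ → ℂ) (n : ℕ) : Continuous (rr c n) := by
  unfold rr; fun_prop

theorem main (c : ℕ → ℂ) (hc : Summable fun n => ‖c n‖) :
    ∃ t : ℝ, 0 ≤ t ∧ ‖∑' n, c n * mm n t‖ < 1 / (1 + t) := by
  by_contra hcon
  push Not at hcon
  set K : ℝ := 30 * ((∑' n, ‖c n‖) + 1) with hK
  have hK0 : 0 < K := by
    have : 0 ≤ ∑' n, ‖c n‖ := tsum_nonneg fun n => norm_nonneg _
    positivity
  have hlim : Tendsto (fun N : ℕ => K * (21 * ((N : ℝ) ^ 2 / 2 ^ N))) atTop (𝓝 (K * (21 * 0))) :=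
    ((tendsto_pow_const_div_const_pow_of_one_lt 2 (by norm_num : (1 : ℝ) < 2)).const_mul
      21).const_mul K
  simp only [mul_zero] at hlim
  obtain ⟨N0, hN0⟩ := eventually_atTop.mp ((hlim.eventually (gt_mem_nhds zero_lt_one)).and
    (eventually_ge_atTop 1))
  have hS : Continuous (fun T => ∑' m, rr c m T) :=
    continuous_tsum (rr_cont c) hc fun n T => by
      rw [Real.norm_eq_abs, abs_of_nonneg (rr_nonneg c n T)]; exact rr_le c n T
  have hsum : ∀ T, Summable (fun m => rr c m T) := fun T =>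
    Summable.of_nonneg_of_le (fun n => rr_nonneg c n T) (fun n => rr_le c n T) hc
  set D : ℕ → Set ℝ := fun n => {T | ∑' m, rr c m T < 2 * rr c n T} with hD
  have hDo : ∀ n, IsOpen (D n) := fun n => isOpen_lt hS (continuous_const.mul (rr_cont c n))
  have hDd : ∀ n m T, T ∈ D n → T ∈ D m → n = m := by
    intro n m T h1 h2
    by_contra hne
    have := (hsum T).sum_le_tsum {n, m} fun k _ => rr_nonneg c k T
    rw [sum_pair hne] at this
    simp only [hD, Set.mem_ofPred_eq] at h1 h2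
    linarith
  have key : ∀ (N : ℕ) (T : ℝ), N0 ≤ N → (N : ℝ) ^ 2 ≤ T → T ≤ ((N : ℝ) + 1) ^ 2 →
      ∃ n, N ≤ n ∧ T ∈ D n := by
    intro N T hN h1 h2
    by_contra hno
    push Not at hno
    obtain ⟨t, t1, t2, t3⟩ := small c hc N T h1 fun n hn => not_lt.mp (hno n hn)
    have hT0 : 0 ≤ T := le_trans (sq_nonneg _) h1
    have h3 := (hcon t (by linarith)).trans t3
    obtain ⟨h4, h5⟩ := hN0 N hN
    have h6 : (1 : ℝ) ≤ N := by exact_mod_cast h5
    rw [← hK, div_le_div_iff₀ (by linarith) (by positivity), one_mul] at h3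
    have h7 : K * (21 * ((N : ℝ) ^ 2 / 2 ^ N)) = K * (21 * (N : ℝ) ^ 2) / 2 ^ N := by ring
    rw [h7, div_lt_one (by positivity)] at h4
    have h8 : 1 + t ≤ 21 * (N : ℝ) ^ 2 := by nlinarith
    have := mul_le_mul_of_nonneg_left h8 hK0.le
    linarith
  have key2 : ∀ T : ℝ, (N0 : ℝ) ^ 2 ≤ T → ∃ n, T ∈ D n := by
    intro T hT
    have hT0 : 0 ≤ T := le_trans (sq_nonneg _) hT
    have a1 : (⌊Real.sqrt T⌋₊ : ℝ) ≤ Real.sqrt T := Nat.floor_le (Real.sqrt_nonneg _)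
    have a2 : Real.sqrt T < ⌊Real.sqrt T⌋₊ + 1 := Nat.lt_floor_add_one _
    have a3 := Real.sq_sqrt hT0
    have a4 := Real.sqrt_nonneg T
    obtain ⟨n, _, hn⟩ := key ⌊Real.sqrt T⌋₊ T
      (Nat.le_floor (Real.le_sqrt_of_sq_le hT))
      (by rw [← a3]; exact pow_le_pow_left₀ (Nat.cast_nonneg _) (by simpa [a3] using a1) 2)
      (by nlinarith)
    exact ⟨n, hn⟩
  obtain ⟨n0, hn0⟩ := key2 _ le_rfl
  have hsub : Set.Ici ((N0 : ℝ) ^ 2) ⊆ D n0 := by
    refine isPreconnected_Ici.subset_left_of_subset_union (v := ⋃ m ∈ {m | m ≠ n0}, D m) (hDo n0)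
      (isOpen_biUnion fun m _ => hDo m) ?_ ?_ ⟨_, Set.self_mem_Ici, hn0⟩
    · rw [Set.disjoint_left]
      intro T h1 h2
      simp only [Set.mem_iUnion] at h2
      obtain ⟨m, hm, h3⟩ := h2
      exact hm (hDd m n0 T h3 h1)
    · intro T hT
      obtain ⟨n, hn⟩ := key2 T hT
      by_cases h : n = n0
      · left; rwa [← h]
      · right
        simp only [Set.mem_iUnion]
        exact ⟨n, h, hn⟩
  have hN1 : N0 ≤ N0 + n0 + 1 := by omega
  obtain ⟨n, hn1, hn2⟩ := key (N0 + n0 + 1) (((N0 + n0 + 1 : ℕ) : ℝ) ^ 2) hN1 le_rfl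
    (by nlinarith [Nat.cast_nonneg (α := ℝ) (N0 + n0 + 1)])
  have h9 : ((N0 + n0 + 1 : ℕ) : ℝ) ^ 2 ∈ D n0 := hsub (by
    show (N0 : ℝ) ^ 2 ≤ _
    exact pow_le_pow_left₀ (Nat.cast_nonneg _) (by exact_mod_cast hN1) 2)
  have := hDd _ _ _ hn2 h9
  omega

end Pool.Agent.H15.SW2
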