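import Mathlib
import Pool.Agent.H15.SW2

set_option autoImplicit false
open Filter Topology Finset NNReal

namespace Pool.Agent.H15.SW3
open Pool.Agent.H15.RJ1 Pool.Agent.H15.SW1 Pool.Agent.H15.SW2

abbrev HH : Type := lp (fun _ : ℕ => ℂ) 2

noncomputable def TT (t : ℝ≥0) : HH →L[ℂ] HH :=
  lp.mapCLM 2 (fun n => ContinuousLinearMap.mul ℂ ℂ (mm n t)) zero_le_one
    (fun n => (ContinuousLinearMap.opNorm_mul_apply_le ℂ ℂ _).trans (norm_mm_le n t t.2))

theorem TT_apply (t : ℝ≥0) (x : HH) (n : ℕ) : TT t x n = mm n t * x n := rfl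

theorem mm_zero (n : ℕ) : mm n 0 = 1 := by simp [mm, ee_zero]

theorem mm_add (n : ℕ) (s t : ℝ) : mm n (s + t) = mm n s * mm n t := by
  unfold mm
  rw [mul_add, mul_add, neg_add, Real.exp_add, ee_add]
  push_cast; ring

theorem mm_cont (n : ℕ) : Continuous (mm n) := by
  have := ee_cont
  unfold mm
  fun_prop

theorem TT_zero : TT 0 = 1 := by
  ext x n
  rw [TT_apply]
  simp [mm_zero]

theorem TT_add (s t : ℝ≥0) : TT (s + t) = TT s * TT t := by
  ext x n
  show TT (s + t) x n = TT s (TT t x) n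
  rw [TT_apply, TT_apply, TT_apply, NNReal.coe_add, mm_add, mul_assoc]

theorem hs (x : HH) : HasSum (fun n => ‖x n‖ ^ 2) (‖x‖ ^ 2) := by
  have := lp.hasSum_norm (p := 2) (by norm_num) x
  simpa using this

theorem TT_cont (x : HH) : Continuous (fun t : ℝ≥0 => TT t x) := by
  rw [continuous_iff_continuousAt]
  intro s
  rw [ContinuousAt, tendsto_iff_norm_sub_tendsto_zero]
  have h1 : Continuous (fun t : ℝ≥0 => ∑' n, ‖(mm n t - mm n s) * x n‖ ^ 2) := by
    refine continuous_tsum (u := fun n => 4 * ‖x n‖ ^ 2) (fun n => ?_)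
      ((hs x).summable.mul_left 4) fun n t => ?_
    · have := mm_cont n
      fun_prop
    · rw [Real.norm_eq_abs, abs_of_nonneg (by positivity), norm_mul, mul_pow]
      apply mul_le_mul_of_nonneg_right _ (by positivity)
      have a := norm_sub_le (mm n t) (mm n s)
      have b := norm_mm_le n t t.2
      have c := norm_mm_le n s s.2
      have d := norm_nonneg (mm n t - mm n s)
      nlinarith
  have h2 : ∀ t : ℝ≥0, ‖TT t x - TT s x‖ = Real.sqrt (∑' n, ‖(mm n t - mm n s) * x n‖ ^ 2) := by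
    intro t
    have := (hs (TT t x - TT s x)).tsum_eq
    simp only [lp.coeFn_sub, Pi.sub_apply, TT_apply, ← sub_mul] at this
    rw [this, Real.sqrt_sq (norm_nonneg _)]
  simp only [h2]
  have h3 := (Real.continuous_sqrt.comp h1).tendsto s
  simpa [Function.comp_def] using h3

theorem orbit (x : HH) (y : HH →L[ℂ] ℂ) : ∃ c : ℕ → ℂ, (Summable fun n => ‖c n‖) ∧
    ∀ t : ℝ≥0, y (TT t x) = ∑' n, c n * mm n t := by
  obtain ⟨z, rfl⟩ := (InnerProductSpace.toDual ℂ HH).surjective y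
  refine ⟨fun n => inner ℂ (z n) (x n), summable_norm_iff.mpr (lp.summable_inner z x), fun t => ?_⟩
  rw [InnerProductSpace.toDual_apply_apply, lp.inner_eq_tsum]
  congr 1
  ext n
  rw [TT_apply]
  simp
  ring

theorem weak (x : HH) (y : HH →L[ℂ] ℂ) : Tendsto (fun t : ℝ≥0 => y (TT t x)) atTop (𝓝 0) := by
  obtain ⟨c, hc, h⟩ := orbit x y
  simp only [h]
  have := tendsto_tsum_of_dominated_convergence (𝓕 := (atTop : Filter ℝ≥0))
    (f := fun (t : ℝ≥0) n => c n * mm n t) (g := fun _ => 0) hc ?_ ?_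
  · simpa using this
  · intro n
    rw [← mul_zero (c n)]
    apply Tendsto.const_mul
    rw [tendsto_zero_iff_norm_tendsto_zero]
    simp only [norm_mm]
    exact Real.tendsto_exp_neg_atTop_nhds_zero.comp
      ((NNReal.tendsto_coe_atTop.mpr tendsto_id).const_mul_atTop (aa_pos n))
  · refine Eventually.of_forall fun t n => ?_
    rw [norm_mul]
    exact mul_le_of_le_one_right (norm_nonneg _) (norm_mm_le n t t.2)

theorem norm_ge (t : ℝ≥0) (n : ℕ) : Real.exp (-(aa n * t)) ≤ ‖TT t‖ := by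
  have h1 := (TT t).le_opNorm (lp.single 2 n (1 : ℂ))
  rw [lp.norm_single (by norm_num), norm_one, mul_one] at h1
  have h2 := lp.norm_apply_le_norm (p := 2) (by norm_num) (TT t (lp.single 2 n (1 : ℂ))) n
  rw [TT_apply, lp.single_apply_self, mul_one, norm_mm] at h2
  exact h2.trans h1

theorem not_exp : ¬ ∃ M ω : ℝ, 0 < ω ∧ ∀ t : ℝ≥0, ‖TT t‖ ≤ M * Real.exp (-ω * (t : ℝ)) := by
  rintro ⟨M, ω, hω, h⟩
  obtain ⟨n, hn⟩ := exists_nat_one_div_lt (half_pos hω)
  have h1 : Tendsto (fun t : ℝ => Real.exp (ω / 2 * t)) atTop atTop :=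
    Real.tendsto_exp_atTop.comp (tendsto_id.const_mul_atTop (half_pos hω))
  obtain ⟨t, ht1, ht2⟩ := ((h1.eventually (eventually_gt_atTop M)).and (eventually_ge_atTop 0)).exists
  have h2 : Real.exp (-(aa n * t)) ≤ M * Real.exp (-ω * t) :=
    (norm_ge ⟨t, ht2⟩ n).trans (h ⟨t, ht2⟩)
  have h3 : Real.exp (ω / 2 * t) * Real.exp (-ω * t) ≤ Real.exp (-(aa n * t)) := by
    rw [← Real.exp_add, Real.exp_le_exp]
    unfold aa
    nlinarith
  have h4 := Real.exp_pos (-ω * t)
  nlinarith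

end Pool.Agent.H15.SW3
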