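import Mathlib

set_option autoImplicit false

namespace Pool.Agent.H15.TF

/-- going up by two along a walk of incomparable steps -/
theorem up_two {V : Type*} (le : V → V → Prop) (hrefl : ∀ a, le a a)
    (htr : ∀ a b c, le a b → le b c → le a c)
    (h3 : ∀ a b c, (le a b ∨ le b a) ∨ (le b c ∨ le c b) ∨ (le a c ∨ le c a))
    (n : ℕ) (v : ℕ → V) (hv : ∀ i < 2 * n, ¬ (le (v i) (v (i+1)) ∨ le (v (i+1)) (v i)))
    (hd : ∀ i, i + 3 ≤ 2 * n → le (v i) (v (i+3)) ∨ le (v (i+3)) (v i))
    (h0 : 2 ≤ 2 * n → le (v 0) (v 2)) : le (v 0) (v (2 * n)) := by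
  have step : ∀ i, i + 2 ≤ 2 * n → le (v i) (v (i+2)) := by
    intro i
    induction i with
    | zero => intro h; exact h0 h
    | succ i ih =>
      intro h
      have h1 := ih (by omega)
      have h2 : le (v i) (v (i+3)) := by
        rcases hd i (by omega) with h | h
        · exact h
        · exact absurd (Or.inr (htr _ _ _ h h1)) (hv (i+2) (by omega))
      rcases h3 (v (i+1)) (v (i+2)) (v (i+3)) with h | h | h | h
      · exact absurd h (hv (i+1) (by omega))
      · exact absurd h (hv (i+2) (by omega))
      · exact h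
      · exact absurd (Or.inl (htr _ _ _ h2 h)) (hv i (by omega))
  have : ∀ k, k ≤ n → le (v 0) (v (2 * k)) := by
    intro k
    induction k with
    | zero => intro _; exact hrefl _
    | succ k ih =>
      intro h
      exact htr _ _ _ (ih (by omega)) (step (2 * k) (by omega))
  exact this n le_rfl

theorem even_walk {V : Type*} (le : V → V → Prop) (hrefl : ∀ a, le a a)
    (htr : ∀ a b c, le a b → le b c → le a c)
    (h3 : ∀ a b c, (le a b ∨ le b a) ∨ (le b c ∨ le c b) ∨ (le a c ∨ le c a))
    (n : ℕ) : ∀ (v : ℕ → V), (∀ i < 2 * n, ¬ (le (v i) (v (i+1)) ∨ le (v (i+1)) (v i))) →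
      le (v 0) (v (2 * n)) ∨ le (v (2 * n)) (v 0) := by
  induction n with
  | zero => intro v _; exact Or.inl (hrefl _)
  | succ n ih =>
    intro v hv
    by_cases hd : ∀ i, i + 3 ≤ 2 * (n+1) → le (v i) (v (i+3)) ∨ le (v (i+3)) (v i)
    · rcases h3 (v 0) (v 1) (v 2) with h | h | h | h
      · exact absurd h (hv 0 (by omega))
      · exact absurd h (hv 1 (by omega))
      · exact Or.inl (up_two le hrefl htr h3 (n+1) v hv hd (fun _ => h))
      · refine Or.inr (up_two (fun a b => le b a) hrefl (fun a b c h1 h2 => htr _ _ _ h2 h1)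
          (fun a b c => ?_) (n+1) v (fun i hi h => hv i hi h.symm) (fun i hi => (hd i hi).symm)
          (fun _ => h))
        rcases h3 a b c with h | h | h
        · exact Or.inl h.symm
        · exact Or.inr (Or.inl h.symm)
        · exact Or.inr (Or.inr h.symm)
    · push Not at hd
      obtain ⟨i, hi, hn⟩ := hd
      have := ih (fun j => if j ≤ i then v j else v (j+2)) (by
        intro j hj
        by_cases h1 : j + 1 ≤ i
        · have h2 : j ≤ i := by omega
          simp only [h1, h2, if_true]
          exact hv j (by omega)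
        · by_cases h2 : j ≤ i
          · have : j = i := by omega
            subst this
            simp only [h1, le_refl, if_true, if_false]
            rintro (h | h)
            · exact hn.1 h
            · exact hn.2 h
          · simp only [h1, h2, if_false]
            exact hv (j+2) (by omega))
      have e1 : ¬ (2 * n ≤ i) := by omega
      simp only [Nat.zero_le, if_true, e1, if_false] at this
      have e2 : 2 * (n+1) = 2 * n + 2 := by ring
      rw [e2]; exact this

/-- Dilworth's theorem for width two, for preorders on arbitrary types. -/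
theorem two_chains {V : Type*} (le : V → V → Prop) (hrefl : ∀ a, le a a)
    (htr : ∀ a b c, le a b → le b c → le a c)
    (h3 : ∀ a b c, (le a b ∨ le b a) ∨ (le b c ∨ le c b) ∨ (le a c ∨ le c a)) :
    ∃ c : V → Fin 2, ∀ a b, c a = c b → le a b ∨ le b a := by
  let G : SimpleGraph V :=
    { Adj := fun a b => ¬ (le a b ∨ le b a)
      symm := ⟨fun a b h h' => h h'.symm⟩
      loopless := ⟨fun a h => h (Or.inl (hrefl a))⟩ }
  have hG : G.Colorable 2 := by
    rw [SimpleGraph.two_colorable_iff_forall_loop_even]
    intro u w
    by_contra ho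
    rw [Nat.not_even_iff_odd] at ho
    obtain ⟨n, hn⟩ := ho
    have h1 := even_walk le hrefl htr h3 n (fun i => w.getVert i)
      (fun i hi => w.adj_getVert_succ (i := i) (by omega))
    have h2 := w.adj_getVert_succ (i := 2 * n) (by omega)
    have h4 : w.getVert (2 * n + 1) = u := by rw [← hn]; exact w.getVert_length
    have h5 : w.getVert 0 = u := w.getVert_zero
    simp only [h5] at h1
    rw [h4] at h2
    exact h2 h1.symm
  obtain ⟨c⟩ := hG
  refine ⟨c, fun a b h => ?_⟩
  by_contra hn
  exact c.valid (show G.Adj a b from hn) h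

end Pool.Agent.H15.TF
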