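import Mathlib
import Pool.Agent.H15.TF1

set_option autoImplicit false

namespace Pool.Agent.H15.TF

open Relation

variable {Y : Type*}

def Lk (F : Set (Set Y)) (c a b : Y) : Prop := ∃ E ∈ F, a ∈ E ∧ b ∈ E ∧ c ∉ E

def Cn (F : Set (Set Y)) (c a b : Y) : Prop := ReflTransGen (Lk F c) a b

def ATF (F : Set (Set Y)) : Prop :=
  ∀ a b c, a ≠ b → b ≠ c → a ≠ c → ¬ (Cn F c a b ∧ Cn F a b c ∧ Cn F b c a)

theorem Cn.refl (F : Set (Set Y)) (c a : Y) : Cn F c a a := ReflTransGen.refl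

theorem Cn.edge {F : Set (Set Y)} {c a b : Y} {E : Set Y} (hE : E ∈ F) (ha : a ∈ E) (hb : b ∈ E)
    (hc : c ∉ E) : Cn F c a b := ReflTransGen.single ⟨E, hE, ha, hb, hc⟩

theorem Cn.trans {F : Set (Set Y)} {c a b d : Y} (h : Cn F c a b) (h' : Cn F c b d) :
    Cn F c a d := ReflTransGen.trans h h'

theorem Cn.symm {F : Set (Set Y)} {c a b : Y} (h : Cn F c a b) : Cn F c b a := by
  induction h with
  | refl => exact Cn.refl _ _ _
  | tail _ h ih =>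
    obtain ⟨E, hE, h1, h2, h3⟩ := h
    exact (Cn.edge hE h2 h1 h3).trans ih

theorem Cn.mono {F G : Set (Set Y)} (hFG : F ⊆ G) {c a b : Y} (h : Cn F c a b) : Cn G c a b := by
  induction h with
  | refl => exact Cn.refl _ _ _
  | tail _ h ih =>
    obtain ⟨E, hE, h1, h2, h3⟩ := h
    exact ih.trans (Cn.edge (hFG hE) h1 h2 h3)

theorem Cn.ne {F : Set (Set Y)} {c a b : Y} (h : Cn F c a b) (ha : a ≠ c) : b ≠ c := by
  induction h with
  | refl => exact ha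
  | tail _ h _ =>
    obtain ⟨E, _, _, h2, h3⟩ := h
    rintro rfl
    exact h3 h2

theorem Cn.split {F : Set (Set Y)} {b a c : Y} (h : Cn F b a c) (d : Y) :
    Cn F d a c ∨ Cn F b a d := by
  induction h with
  | refl => exact Or.inl (Cn.refl _ _ _)
  | tail h0 h ih =>
    obtain ⟨E, hE, h1, h2, h3⟩ := h
    rcases ih with ih | ih
    · by_cases hd : d ∈ E
      · exact Or.inr (Cn.trans h0 (Cn.edge hE h1 hd h3))
      · exact Or.inl (ih.trans (Cn.edge hE h1 h2 hd))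
    · exact Or.inr ih

theorem Cn.exit {F : Set (Set Y)} {b z u w : Y} {S : Set Y}
    (hS : ∀ x y, x ∈ S → Lk F b x y → y ∈ S) (h : Cn F z u w) (hw : w ∉ S) :
    u ∈ S → ∃ E ∈ F, b ∈ E ∧ z ∉ E ∧ ∃ s ∈ S, s ∈ E ∧ Cn F z u s := by
  unfold Cn at h
  induction h using ReflTransGen.head_induction_on with
  | refl => intro hu; exact absurd hu hw
  | head h _ ih =>
    intro hu
    obtain ⟨E, hE, h1, h2, h3⟩ := h
    by_cases hb : b ∈ E
    · exact ⟨E, hE, hb, h3, _, hu, h1, Cn.refl _ _ _⟩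
    · obtain ⟨E', hE', k1, k2, s, hs, k3, k4⟩ := ih (hS _ _ hu ⟨E, hE, h1, h2, hb⟩)
      exact ⟨E', hE', k1, k2, s, hs, k3, (Cn.edge hE h1 h2 h3).trans k4⟩

theorem Cn.toB {F : Set (Set Y)} {b z u w : Y} {S : Set Y}
    (hS : ∀ x y, x ∈ S → Lk F b x y → y ∈ S) (h : Cn F z u w) (hu : u ∈ S) (hw : w ∉ S) :
    Cn F z u b := by
  obtain ⟨E, hE, k1, k2, s, _, k3, k4⟩ := h.exit hS hw hu
  exact k4.trans (Cn.edge hE k3 k1 k2)

theorem Cn.insert_cases {F : Set (Set Y)} {S : Set Y} {z x y : Y} (h : Cn (insert S F) z x y) :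
    Cn F z x y ∨ (z ∉ S ∧ (∃ s ∈ S, Cn F z x s) ∧ ∃ s ∈ S, Cn F z y s) := by
  induction h with
  | refl => exact Or.inl (Cn.refl _ _ _)
  | tail _ h ih =>
    obtain ⟨E, hE, h1, h2, h3⟩ := h
    rcases hE with rfl | hE
    · rcases ih with ih | ⟨_, hs, _⟩
      · exact Or.inr ⟨h3, ⟨_, h1, ih⟩, ⟨_, h2, Cn.refl _ _ _⟩⟩
      · exact Or.inr ⟨h3, hs, ⟨_, h2, Cn.refl _ _ _⟩⟩
    · rcases ih with ih | ⟨hz, hs, s, hs', h4⟩
      · exact Or.inl (ih.trans (Cn.edge hE h1 h2 h3))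
      · exact Or.inr ⟨hz, hs, s, hs', (Cn.edge hE h2 h1 h3).trans h4⟩

theorem add_edge {F : Set (Set Y)} (hF : ATF F) (b : Y) (S : Set Y)
    (hS : ∀ x y, x ∈ S → Lk F b x y → y ∈ S)
    (h1 : ∀ u v, u ∈ S → v ∈ S → u ≠ v → ¬ (Cn F u v b ∧ Cn F v u b))
    (h2 : ∀ u v, u ∉ S → v ∉ S → u ≠ b → v ≠ b → u ≠ v → ¬ (Cn F u v b ∧ Cn F v u b)) :
    ATF (insert S F) := by
  have old : ∀ z x y, z ∈ S → Cn (insert S F) z x y → Cn F z x y := by
    intro z x y hz h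
    rcases h.insert_cases with h | h
    · exact h
    · exact absurd hz h.1
  have out : ∀ y z x, Cn F y z x → z ∉ S → x ∈ S → Cn F y z b := by
    intro y z x h hz hx
    exact h.trans (h.symm.toB hS hx hz)
  have out' : ∀ y z x, Cn (insert S F) y z x → z ∉ S → x ∈ S → Cn F y z b := by
    intro y z x h hz hx
    rcases h.insert_cases with h | ⟨_, ⟨s, hs, h⟩, _⟩
    · exact out _ _ _ h hz hx
    · exact out _ _ _ h hz hs
  have fin : ∀ y z, y ∉ S → z ∉ S → y ≠ z → Cn F z y b → Cn F y z b → False := by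
    intro y z hy hz hyz k1 k2
    by_cases hzb : z = b
    · subst hzb; exact k1.ne hyz rfl
    by_cases hyb : y = b
    · subst hyb; exact k2.ne hzb rfl
    exact h2 y z hy hz hyb hzb hyz ⟨k2, k1⟩
  have key : ∀ x y z, x ≠ y → y ≠ z → x ≠ z → Cn (insert S F) z x y → Cn (insert S F) x y z →
      Cn (insert S F) y z x → Cn F z x y := by
    intro x y z hxy hyz hxz k1 k2 k3
    rcases k1.insert_cases with h | ⟨hz, ⟨s, hs, hxs⟩, ⟨t, ht, hyt⟩⟩
    · exact h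
    by_cases hx : x ∈ S <;> by_cases hy : y ∈ S
    · exact absurd ⟨(old _ _ _ hx k2).toB hS hy hz, (old _ _ _ hy k3).symm.toB hS hx hz⟩
        (h1 x y hx hy hxy)
    · exact (fin y z hy hz hyz (out _ _ _ hyt hy ht) (out' _ _ _ k3 hz hx)).elim
    · exact (fin x z hx hz hxz (out _ _ _ hxs hx hs) (out' _ _ _ k2.symm hz hy)).elim
    · exact (out _ _ _ hxs hx hs).trans (out _ _ _ hyt hy ht).symm
  rintro a b c hab hbc hac ⟨k1, k2, k3⟩
  exact hF a b c hab hbc hac ⟨key _ _ _ hab hbc hac k1 k2 k3,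
    key _ _ _ hbc hac.symm hab.symm k2 k3 k1, key _ _ _ hac.symm hab hbc.symm k3 k1 k2⟩

/-- the preorder on classes -/
def Le (F : Set (Set Y)) (b u v : Y) : Prop :=
  Cn F b u v ∨ ∀ E ∈ F, b ∈ E → ∀ u', Cn F b u u' → u' ∈ E → ∀ v', Cn F b v v' → v' ∈ E

theorem Le.trans {F : Set (Set Y)} {b u v w : Y} (h : Le F b u v) (h' : Le F b v w) :
    Le F b u w := by
  rcases h with h | h <;> rcases h' with h' | h'
  · exact Or.inl (h.trans h')
  · exact Or.inr fun E hE hb u' hu hu' w' hw => h' E hE hb u' (h.symm.trans hu) hu' w' hw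
  · exact Or.inr fun E hE hb u' hu hu' w' hw => h E hE hb u' hu hu' w' (h'.trans hw)
  · exact Or.inr fun E hE hb u' hu hu' w' hw =>
      h' E hE hb v (Cn.refl _ _ _) (h E hE hb u' hu hu' v (Cn.refl _ _ _)) w' hw

theorem Le.no_conflict {F : Set (Set Y)} (hF : ATF F) {b u v : Y} (hu : u ≠ b) (hv : v ≠ b)
    (huv : u ≠ v) (h : Le F b u v) : ¬ (Cn F u v b ∧ Cn F v u b) := by
  rintro ⟨k1, k2⟩
  rcases h with h | h
  · exact hF u v b huv hv hu ⟨h, k1, k2.symm⟩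
  · obtain ⟨E, hE, j1, j2, s, hs, j3, _⟩ := k2.exit (b := b) (S := {w | Cn F b u w})
      (fun x y hx hxy => Cn.trans hx (ReflTransGen.single hxy))
      (fun hb => Cn.ne hb hu rfl) (Cn.refl _ _ _)
    exact j2 (h E hE j1 s hs j3 v (Cn.refl _ _ _))

theorem nested {F : Set (Set Y)} (hF : ATF F) {b u x y : Y} (hu : u ≠ b) {E E' : Set Y}
    (hE : E ∈ F) (hE' : E' ∈ F) (hb : b ∈ E) (hb' : b ∈ E') (hx : Cn F b u x) (hy : Cn F b u y)
    (hxE : x ∉ E) (hyE : y ∉ E') : ∃ w, Cn F b u w ∧ w ∉ E ∧ w ∉ E' := by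
  by_cases h1 : x ∈ E'
  · by_cases h2 : y ∈ E
    · exfalso
      refine hF x y b (fun h => hxE (h ▸ h2)) (hy.ne hu) (hx.ne hu)
        ⟨hx.symm.trans hy, Cn.edge hE h2 hb hxE, Cn.edge hE' hb' h1 hyE⟩
    · exact ⟨y, hy, h2, hyE⟩
  · exact ⟨x, hx, hxE, h1⟩

theorem reach {F : Set (Set Y)} {b u u' w x : Y} {E : Set Y} (hE : E ∈ F) (hb : b ∈ E)
    (hu' : u' ∈ E) (h1 : Cn F b u u') (hw : w ∉ E) (h2 : ¬ Cn F b u w) (hx : Cn F b u x) :
    Cn F w x b := by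
  rcases (hx.symm.trans h1).split w with h | h
  · exact h.trans (Cn.edge hE hu' hb hw)
  · exact absurd (hx.trans h) h2

theorem tri_free {F : Set (Set Y)} (hF : ATF F) {b u v w : Y} (hu : u ≠ b) (hv : v ≠ b)
    (hw : w ≠ b) : (Le F b u v ∨ Le F b v u) ∨ (Le F b v w ∨ Le F b w v) ∨
      (Le F b u w ∨ Le F b w u) := by
  by_contra hn
  simp only [Le, not_or, not_forall] at hn
  obtain ⟨⟨⟨nuv, Euv, hEuv, buv, auv, cuv, muv, duv, euv, fuv⟩,
      ⟨_, Evu, hEvu, bvu, avu, cvu, mvu, dvu, evu, fvu⟩⟩,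
    ⟨⟨nvw, Evw, hEvw, bvw, avw, cvw, mvw, dvw, evw, fvw⟩,
      ⟨_, Ewv, hEwv, bwv, awv, cwv, mwv, dwv, ewv, fwv⟩⟩,
    ⟨⟨nuw, Euw, hEuw, buw, auw, cuw, muw, duw, euw, fuw⟩,
      ⟨_, Ewu, hEwu, bwu, awu, cwu, mwu, dwu, ewu, fwu⟩⟩⟩ := hn
  obtain ⟨x, hx, x1, x2⟩ := nested hF hu hEvu hEwu bvu bwu evu ewu fvu fwu
  obtain ⟨y, hy, y1, y2⟩ := nested hF hv hEuv hEwv buv bwv euv ewv fuv fwv
  obtain ⟨z, hz, z1, z2⟩ := nested hF hw hEuw hEvw buw bvw euw evw fuw fvw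
  have nuy : ¬ Cn F b u y := fun h => nuv (h.trans hy.symm)
  have nuz : ¬ Cn F b u z := fun h => nuw (h.trans hz.symm)
  have nvx : ¬ Cn F b v x := fun h => nuv (hx.trans h.symm)
  have nvz : ¬ Cn F b v z := fun h => nvw (h.trans hz.symm)
  have nwx : ¬ Cn F b w x := fun h => nuw (hx.trans h.symm)
  have nwy : ¬ Cn F b w y := fun h => nvw (hy.trans h.symm)
  refine hF x y z (fun h => nuy (h ▸ hx)) (fun h => nvz (h ▸ hy)) (fun h => nuz (h ▸ hx))
    ⟨?_, ?_, ?_⟩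
  · exact (reach hEuw buw muw cuw z1 nuz hx).trans (reach hEvw bvw mvw cvw z2 nvz hy).symm
  · exact (reach hEvu bvu mvu cvu x1 nvx hy).trans (reach hEwu bwu mwu cwu x2 nwx hz).symm
  · exact (reach hEwv bwv mwv cwv y2 nwy hz).trans (reach hEuv buv muv cuv y1 nuy hx).symm

theorem two_classes {F : Set (Set Y)} (hM : Maximal ATF F) (b u v w : Y) (hu : u ≠ b)
    (hv : v ≠ b) (hw : w ≠ b) : Cn F b u v ∨ Cn F b v w ∨ Cn F b u w := by
  classical
  have hF : ATF F := hM.prop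
  obtain ⟨c, hc⟩ := two_chains (V := {u // u ≠ b}) (fun x y => Le F b x.1 y.1)
    (fun a => Or.inl (Cn.refl _ _ _)) (fun _ _ _ h h' => h.trans h')
    (fun x y z => tri_free hF x.2 y.2 z.2)
  have : Nonempty Y := ⟨b⟩
  let rep : Y → Y := fun x => Classical.epsilon (fun y => Cn F b x y)
  have hrep : ∀ x, Cn F b x (rep x) := fun x =>
    Classical.epsilon_spec (p := fun y => Cn F b x y) ⟨x, Cn.refl _ _ _⟩
  have hrep' : ∀ x y, Cn F b x y → rep x = rep y := by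
    intro x y h
    have : (fun z => Cn F b x z) = (fun z => Cn F b y z) := by
      funext z
      exact propext ⟨fun k => h.symm.trans k, fun k => h.trans k⟩
    simp only [rep, this]
  let c0 : Y → Fin 2 := fun x => if h : rep x ≠ b then c ⟨rep x, h⟩ else 0
  have hc0 : ∀ x y, x ≠ b → y ≠ b → c0 x = c0 y → x ≠ y → ¬ (Cn F x y b ∧ Cn F y x b) := by
    intro x y hx hy h hxy
    have hx' : rep x ≠ b := (hrep x).ne hx
    have hy' : rep y ≠ b := (hrep y).ne hy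
    simp only [c0, dif_pos hx', dif_pos hy'] at h
    rcases hc _ _ h with k | k
    · exact Le.no_conflict hF hx hy hxy
        (Le.trans (Or.inl (hrep x)) (Le.trans k (Or.inl (hrep y).symm)))
    · exact fun j => Le.no_conflict hF hy hx hxy.symm
        (Le.trans (Or.inl (hrep y)) (Le.trans k (Or.inl (hrep x).symm))) j.symm
  have mem : ∀ i : Fin 2, {x | x ≠ b ∧ c0 x = i} ∈ F := by
    intro i
    have := add_edge hF b {x | x ≠ b ∧ c0 x = i} (by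
        rintro x y ⟨hx, hi⟩ hxy
        have h1 : Cn F b x y := ReflTransGen.single hxy
        refine ⟨h1.ne hx, ?_⟩
        rw [← hi]
        simp only [c0, hrep' x y h1])
      (fun x y hx hy hxy => hc0 x y hx.1 hy.1 (hx.2.trans hy.2.symm) hxy)
      (fun x y hx hy hxb hyb hxy => hc0 x y hxb hyb (by
        have h1 : c0 x ≠ i := fun h => hx ⟨hxb, h⟩
        have h2 : c0 y ≠ i := fun h => hy ⟨hyb, h⟩
        omega) hxy)
    exact hM.le_of_ge this (Set.subset_insert _ _) (Set.mem_insert _ _)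
  have same : ∀ x y, x ≠ b → y ≠ b → c0 x = c0 y → Cn F b x y := fun x y hx hy h =>
    Cn.edge (mem (c0 y)) ⟨hx, h⟩ ⟨hy, rfl⟩ (fun k => k.1 rfl)
  have : c0 u = c0 v ∨ c0 v = c0 w ∨ c0 u = c0 w := by omega
  rcases this with h | h | h
  · exact Or.inl (same _ _ hu hv h)
  · exact Or.inr (Or.inl (same _ _ hv hw h))
  · exact Or.inr (Or.inr (same _ _ hu hw h))

theorem exists_maximal {F : Set (Set Y)} (hF : ATF F) : ∃ M, F ⊆ M ∧ Maximal ATF M := by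
  refine zorn_subset_nonempty {G | ATF G} ?_ F hF
  intro C hC hch hne
  refine ⟨⋃₀ C, ?_, fun s hs => Set.subset_sUnion_of_mem hs⟩
  have up : ∀ G ∈ C, ∀ G' ∈ C, ∃ H ∈ C, G ⊆ H ∧ G' ⊆ H := by
    intro G hG G' hG'
    rcases hch.total hG hG' with h | h
    · exact ⟨G', hG', h, subset_rfl⟩
    · exact ⟨G, hG, subset_rfl, h⟩
  have loc : ∀ c a b, Cn (⋃₀ C) c a b → ∃ G ∈ C, Cn G c a b := by
    intro c a b h
    induction h with
    | refl => obtain ⟨G, hG⟩ := hne; exact ⟨G, hG, Cn.refl _ _ _⟩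
    | tail _ h ih =>
      obtain ⟨E, ⟨G', hG', hE⟩, h1, h2, h3⟩ := h
      obtain ⟨G, hG, ih⟩ := ih
      obtain ⟨H, hH, k1, k2⟩ := up G hG G' hG'
      exact ⟨H, hH, (ih.mono k1).trans (Cn.edge (k2 hE) h1 h2 h3)⟩
  rintro a b c hab hbc hac ⟨k1, k2, k3⟩
  obtain ⟨G1, h1, k1⟩ := loc _ _ _ k1
  obtain ⟨G2, h2, k2⟩ := loc _ _ _ k2
  obtain ⟨G3, h3, k3⟩ := loc _ _ _ k3
  obtain ⟨H, hH, j1, j2⟩ := up G1 h1 G2 h2
  obtain ⟨K, hK, j3, j4⟩ := up H hH G3 h3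
  exact hC hK a b c hab hbc hac ⟨k1.mono (j1.trans j3), k2.mono (j2.trans j3), k3.mono j4⟩

end Pool.Agent.H15.TF
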