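import Mathlib
import Pool.Agent.H15.TF2

set_option autoImplicit false

namespace Pool.Agent.H15.TF

open Relation

variable {X : Type*}

/-- An asteroid-free relation admits a linear order making all rows convex. -/
theorem exists_order (R : X → X → Prop)
    (hR : ∀ a b c, ¬ (TransGen (fun u v => ∃ x, R x u ∧ R x v ∧ ¬ R x c) a b ∧
      TransGen (fun u v => ∃ x, R x u ∧ R x v ∧ ¬ R x a) b c ∧
      TransGen (fun u v => ∃ x, R x u ∧ R x v ∧ ¬ R x b) c a)) :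
    ∃ lt : X → X → Prop, (∀ a b, lt a b → ¬ lt b a) ∧ (∀ a b c, lt a b → lt b c → lt a c) ∧
      (∀ a b, a ≠ b → lt a b ∨ lt b a) ∧
      (∀ x a b c, lt a b → lt b c → R x a → R x c → R x b) := by
  let P : Bool → Set (X ⊕ Bool) := fun t => {u | u ≠ Sum.inr (!t)}
  let row : X → Set (X ⊕ Bool) := fun x => {u | ∃ y, u = Sum.inl y ∧ R x y}
  let F : Set (Set (X ⊕ Bool)) := {E | (∃ x, E = row x) ∨ ∃ t, E = P t}
  have down : ∀ c u v, Cn F (Sum.inl c) u v → u = v ∨ ∃ a b, u = Sum.inl a ∧ v = Sum.inl b ∧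
      TransGen (fun u v => ∃ x, R x u ∧ R x v ∧ ¬ R x c) a b := by
    intro c u v h
    induction h with
    | refl => exact Or.inl rfl
    | tail _ h ih =>
      obtain ⟨E, hE, h1, h2, h3⟩ := h
      rcases hE with ⟨x, rfl⟩ | ⟨t, rfl⟩
      · obtain ⟨y1, rfl, k1⟩ := h1
        obtain ⟨y2, rfl, k2⟩ := h2
        have k3 : ¬ R x c := fun h => h3 ⟨c, rfl, h⟩
        rcases ih with rfl | ⟨a, b, rfl, hb, ih⟩
        · exact Or.inr ⟨y1, y2, rfl, rfl, TransGen.single ⟨x, k1, k2, k3⟩⟩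
        · cases hb
          exact Or.inr ⟨a, y2, rfl, rfl, ih.tail ⟨x, k1, k2, k3⟩⟩
      · exact absurd (by simp [P]) h3
  have one : ∀ (c : X) a b, a ≠ b → b ≠ Sum.inl c → a ≠ Sum.inl c →
      ¬ (Cn F (Sum.inl c) a b ∧ Cn F a b (Sum.inl c) ∧ Cn F b (Sum.inl c) a) := by
    rintro c a b hab hbc hac ⟨k1, k2, k3⟩
    rcases down _ _ _ k1 with h | ⟨a', b', rfl, rfl, j1⟩
    · exact hab h
    rcases down _ _ _ k2 with h | ⟨b'', c'', e1, e2, j2⟩
    · exact hbc h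
    rcases down _ _ _ k3 with h | ⟨c''', a''', e3, e4, j3⟩
    · exact hac h.symm
    cases e1; cases e2; cases e3; cases e4
    exact hR _ _ _ ⟨j1, j2, j3⟩
  have hF : ATF F := by
    rintro a b c hab hbc hac ⟨k1, k2, k3⟩
    rcases c with c | c
    · exact one c a b hab hbc hac ⟨k1, k2, k3⟩
    rcases a with a | a
    · exact one a b _ hbc hac.symm hab.symm ⟨k2, k3, k1⟩
    rcases b with b | b
    · exact one b _ _ hac.symm hab hbc.symm ⟨k3, k1, k2⟩
    cases a <;> cases b <;> cases c <;> simp at hab hbc hac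
  obtain ⟨M, hFM, hM⟩ := exists_maximal hF
  have hA : ATF M := hM.prop
  have hP : ∀ t, P t ∈ M := fun t => hFM (Or.inr ⟨t, rfl⟩)
  have big : ∀ t u v, u ≠ Sum.inr t → v ≠ Sum.inr t → Cn M (Sum.inr t) u v := by
    intro t u v hu hv
    refine Cn.edge (hP (!t)) ?_ ?_ ?_ <;> simp [P, hu, hv]
  have asym : ∀ t (a b : X), a ≠ b → Cn M (Sum.inl b) (Sum.inl a) (Sum.inr t) →
      ¬ Cn M (Sum.inl a) (Sum.inl b) (Sum.inr t) := by
    intro t a b hab h1 h2
    exact hA (Sum.inl a) (Sum.inl b) (Sum.inr t) (by simpa using hab) (by simp) (by simp)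
      ⟨big _ _ _ (by simp) (by simp), h2, h1.symm⟩
  have side : ∀ a b : X, a ≠ b → Cn M (Sum.inl b) (Sum.inl a) (Sum.inr true) ∨
      Cn M (Sum.inl b) (Sum.inl a) (Sum.inr false) := by
    intro a b hab
    rcases two_classes hM (Sum.inl b) (Sum.inl a) (Sum.inr true) (Sum.inr false)
      (by simpa using hab) (by simp) (by simp) with h | h | h
    · exact Or.inl h
    · exact absurd ⟨h, big _ _ _ (by simp) (by simp), big _ _ _ (by simp) (by simp)⟩
        (hA (Sum.inr true) (Sum.inr false) (Sum.inl b) (by simp) (by simp) (by simp))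
    · exact Or.inr h
  refine ⟨fun a b => a ≠ b ∧ Cn M (Sum.inl b) (Sum.inl a) (Sum.inr true), ?_, ?_, ?_, ?_⟩
  · rintro a b ⟨hab, h1⟩ ⟨_, h2⟩
    exact asym _ a b hab h1 h2
  · rintro a b c ⟨hab, h1⟩ ⟨hbc, h2⟩
    have hac : a ≠ c := by
      rintro rfl
      exact asym _ _ _ hab h1 h2
    refine ⟨hac, ?_⟩
    rcases h1.split (Sum.inl c) with h | h
    · exact h
    · exact absurd (h.symm.trans h1) (asym _ b c hbc h2)
  · intro a b hab
    rcases side a b hab with h | h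
    · exact Or.inl ⟨hab, h⟩
    rcases side b a hab.symm with h' | h'
    · exact Or.inr ⟨hab.symm, h'⟩
    · exact absurd h' (asym _ a b hab h)
  · rintro x a b c ⟨hab, h1⟩ ⟨hbc, h2⟩ ha hc
    by_contra hb
    have : Cn M (Sum.inl b) (Sum.inl c) (Sum.inl a) :=
      Cn.edge (hFM (Or.inl ⟨x, rfl⟩)) ⟨c, rfl, hc⟩ ⟨a, rfl, ha⟩ (by
        rintro ⟨y, hy, k⟩
        cases hy
        exact hb k)
    exact asym _ b c hbc h2 (this.trans h1)

/-- A monotone real function with uniform jumps across countably many upper sets. -/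
theorem exists_jump (lt : X → X → Prop) (U : ℕ → Set X)
    (hU : ∀ n a b, lt a b → a ∈ U n → b ∈ U n) :
    ∃ g : X → ℝ, (∀ a, 0 ≤ g a ∧ g a ≤ 2) ∧
      ∀ n, ∃ ε > 0, ∀ a b, lt a b → a ∉ U n → b ∈ U n → g a + ε ≤ g b := by
  classical
  let t : X → ℕ → ℝ := fun a n => if a ∈ U n then (1/2 : ℝ) ^ n else 0
  have t0 : ∀ a n, 0 ≤ t a n := fun a n => by simp only [t]; split_ifs <;> positivity
  have t1 : ∀ a n, t a n ≤ (1/2 : ℝ) ^ n := fun a n => by
    simp only [t]; split_ifs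
    · exact le_rfl
    · positivity
  have ts : ∀ a, Summable (t a) := fun a =>
    Summable.of_nonneg_of_le (t0 a) (t1 a) summable_geometric_two
  refine ⟨fun a => ∑' n, t a n, fun a => ⟨tsum_nonneg (t0 a), ?_⟩, fun n => ⟨(1/2 : ℝ) ^ n,
    by positivity, fun a b hab ha hb => ?_⟩⟩
  · rw [← tsum_geometric_two]
    exact (ts a).tsum_le_tsum (t1 a) summable_geometric_two
  · have h1 : HasSum (fun k => t a k + if k = n then (1/2 : ℝ) ^ n else 0)
        (∑' k, t a k + (1/2 : ℝ) ^ n) := (ts a).hasSum.add (hasSum_ite_eq n _)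
    refine hasSum_le (fun k => ?_) h1 (ts b).hasSum
    by_cases hk : k = n
    · subst hk
      simp [t, ha, hb]
    · simp only [hk, if_false, add_zero, t]
      by_cases h : a ∈ U k
      · simp [h, hU k a b hab h]
      · simp only [h, if_false]
        exact t0 b k

theorem represent (R : X → X → Prop) (lt : X → X → Prop)
    (htr : ∀ a b c, lt a b → lt b c → lt a c) (has : ∀ a b, lt a b → ¬ lt b a)
    (htot : ∀ a b, a ≠ b → lt a b ∨ lt b a)
    (hconv : ∀ x a b c, lt a b → lt b c → R x a → R x c → R x b)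
    (D : Set X) (hD : D.Countable)
    (hb : ∀ x y, R x y → ∃ d₁ ∈ D, ∃ d₂ ∈ D, R d₁ y ∧ R d₂ y ∧ ∀ z, R d₁ z → R d₂ z → R x z) :
    ∃ f g h : X → ℝ, ∀ x y, R x y ↔ f x < g y ∧ g y < h x := by
  let A : X × X → Set X := fun d => {u | ∃ v, R d.1 v ∧ R d.2 v ∧ (v = u ∨ lt v u)}
  let B : X × X → Set X := fun d => {u | ∀ v, R d.1 v → R d.2 v → lt v u}
  have hc : (insert ∅ (A '' (D ×ˢ D) ∪ B '' (D ×ˢ D))).Countable :=
    (((hD.prod hD).image A).union ((hD.prod hD).image B)).insert _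
  obtain ⟨U, hU⟩ := hc.exists_eq_range ⟨∅, Set.mem_insert _ _⟩
  have hup : ∀ n a b, lt a b → a ∈ U n → b ∈ U n := by
    intro n a b hab ha
    have : U n ∈ insert ∅ (A '' (D ×ˢ D) ∪ B '' (D ×ˢ D)) := hU ▸ ⟨n, rfl⟩
    rcases this with h | ⟨d, _, h⟩ | ⟨d, _, h⟩
    · rw [h] at ha; exact ha.elim
    · rw [← h] at ha ⊢
      obtain ⟨v, h1, h2, h3 | h3⟩ := ha
      · exact ⟨v, h1, h2, Or.inr (h3 ▸ hab)⟩
      · exact ⟨v, h1, h2, Or.inr (htr _ _ _ h3 hab)⟩
    · rw [← h] at ha ⊢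
      exact fun v h1 h2 => htr _ _ _ (ha v h1 h2) hab
  obtain ⟨g, hg, hj⟩ := exists_jump lt U hup
  have irr : ∀ a, ¬ lt a a := fun a h => has a a h h
  let Lo : X → Set ℝ := fun x => insert (-1) (g '' {z | ∀ y, R x y → lt z y})
  let Hi : X → Set ℝ := fun x => insert 3 (g '' {z | ∀ y, R x y → lt y z})
  have bLo : ∀ x, BddAbove (Lo x) := fun x => ⟨2, by
    rintro _ (rfl | ⟨z, _, rfl⟩)
    · norm_num
    · exact (hg z).2⟩
  have bHi : ∀ x, BddBelow (Hi x) := fun x => ⟨0, by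
    rintro _ (rfl | ⟨z, _, rfl⟩)
    · norm_num
    · exact (hg z).1⟩
  refine ⟨fun x => sSup (Lo x), g, fun x => sInf (Hi x), fun x y => ⟨fun hxy => ?_, ?_⟩⟩
  · obtain ⟨d₁, h1, d₂, h2, k1, k2, k3⟩ := hb x y hxy
    constructor
    · have : A (d₁, d₂) ∈ Set.range U := hU ▸ Or.inr (Or.inl ⟨(d₁, d₂), ⟨h1, h2⟩, rfl⟩)
      obtain ⟨n, hn⟩ := this
      obtain ⟨ε, hε, hjump⟩ := hj n
      have : sSup (Lo x) ≤ max (-1) (g y - ε) := by
        refine csSup_le ⟨-1, Set.mem_insert _ _⟩ ?_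
        rintro _ (rfl | ⟨z, hz, rfl⟩)
        · exact le_max_left _ _
        · refine le_trans ?_ (le_max_right _ _)
          have := hjump z y (hz y hxy) (by
            rw [hn]
            rintro ⟨v, j1, j2, j3 | j3⟩
            · exact irr z (hz z (j3 ▸ k3 v j1 j2))
            · exact has _ _ j3 (hz v (k3 v j1 j2))) (by rw [hn]; exact ⟨y, k1, k2, Or.inl rfl⟩)
          linarith
      refine lt_of_le_of_lt this (max_lt ?_ ?_)
      · linarith [(hg y).1]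
      · linarith
    · have : B (d₁, d₂) ∈ Set.range U := hU ▸ Or.inr (Or.inr ⟨(d₁, d₂), ⟨h1, h2⟩, rfl⟩)
      obtain ⟨n, hn⟩ := this
      obtain ⟨ε, hε, hjump⟩ := hj n
      have : min 3 (g y + ε) ≤ sInf (Hi x) := by
        refine le_csInf ⟨3, Set.mem_insert _ _⟩ ?_
        rintro _ (rfl | ⟨z, hz, rfl⟩)
        · exact min_le_left _ _
        · refine le_trans (min_le_right _ _) ?_
          exact hjump y z (hz y hxy) (by
            rw [hn]
            exact fun j => irr y (j y k1 k2)) (by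
            rw [hn]
            exact fun v j1 j2 => hz v (k3 v j1 j2))
      refine lt_of_lt_of_le (lt_min ?_ ?_) this
      · linarith [(hg y).2]
      · linarith
  · rintro ⟨h1, h2⟩
    by_contra hn
    by_cases hlo : ∀ v, R x v → lt y v
    · exact absurd (le_csSup (bLo x) (Or.inr ⟨y, hlo, rfl⟩)) (not_le.2 h1)
    by_cases hhi : ∀ v, R x v → lt v y
    · exact absurd (csInf_le (bHi x) (Or.inr ⟨y, hhi, rfl⟩)) (not_le.2 h2)
    push Not at hlo hhi
    obtain ⟨a, ha, ha'⟩ := hlo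
    obtain ⟨c, hc', hc''⟩ := hhi
    have e1 : lt a y := (htot a y (fun h => hn (h ▸ ha))).resolve_right ha'
    have e2 : lt y c := (htot c y (fun h => hn (h ▸ hc'))).resolve_left hc''
    exact hn (hconv x a y c e1 e2 ha hc')

theorem pick {ι : Type} [Countable ι] (U : ι → Set X) :
    ∃ D : Set X, D.Countable ∧ ∀ i, (U i).Nonempty → ∃ d ∈ D, d ∈ U i := by
  classical
  refine ⟨Set.range (fun i : {i // (U i).Nonempty} => i.2.some), Set.countable_range _,
    fun i hi => ⟨hi.some, ⟨⟨i, hi⟩, rfl⟩, hi.some_mem⟩⟩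

theorem side_dense (f h : X → ℝ) : ∃ D : Set X, D.Countable ∧
    ∀ x t, f x < t → t < h x → ∃ d ∈ D, f x ≤ f d ∧ f d < t ∧ t < h d := by
  obtain ⟨D1, c1, p1⟩ := pick (ι := ℚ × ℚ) (fun i => {x | (i.1 : ℝ) < h x ∧ f x < i.2 ∧
    ∀ x', (i.1 : ℝ) < h x' → f x' < i.2 → f x' ≤ f x})
  obtain ⟨D2, c2, p2⟩ := pick (ι := ℚ × ℚ × ℚ) (fun i => {x | (i.1 : ℝ) < h x ∧
    (i.2.1 : ℝ) < f x ∧ f x < i.2.2})
  refine ⟨D1 ∪ D2, c1.union c2, fun x t h1 h2 => ?_⟩
  obtain ⟨q, hq1, hq2⟩ := exists_rat_btwn h2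
  obtain ⟨r, hr1, hr2⟩ := exists_rat_btwn h1
  by_cases hm : ∀ x', (q : ℝ) < h x' → f x' < r → f x' ≤ f x
  · obtain ⟨d, hd, k1, k2, k3⟩ := p1 (q, r) ⟨x, hq2, hr1, hm⟩
    exact ⟨d, Or.inl hd, k3 x hq2 hr1, k2.trans hr2, hq1.trans k1⟩
  · push Not at hm
    obtain ⟨x', j1, j2, j3⟩ := hm
    obtain ⟨s, hs1, hs2⟩ := exists_rat_btwn j3
    obtain ⟨d, hd, k1, k2, k3⟩ := p2 (q, s, r) ⟨x', j1, hs2, j2⟩
    exact ⟨d, Or.inr hd, (hs1.trans k2).le, k3.trans hr2, hq1.trans k1⟩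

theorem main (R : X → X → Prop) :
    (∃ f g h : X → ℝ, ∀ x y, R x y ↔ f x < g y ∧ g y < h x) ↔
    ((∀ a b c, ¬ (TransGen (fun u v => ∃ x, R x u ∧ R x v ∧ ¬ R x c) a b ∧
      TransGen (fun u v => ∃ x, R x u ∧ R x v ∧ ¬ R x a) b c ∧
      TransGen (fun u v => ∃ x, R x u ∧ R x v ∧ ¬ R x b) c a)) ∧
    ∃ D : Set X, D.Countable ∧ ∀ x y, R x y →
      ∃ d₁ ∈ D, ∃ d₂ ∈ D, R d₁ y ∧ R d₂ y ∧ ∀ z, R d₁ z → R d₂ z → R x z) := by
  constructor
  · rintro ⟨f, g, h, hR⟩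
    constructor
    · have lk : ∀ c u v, (∃ x, R x u ∧ R x v ∧ ¬ R x c) →
          (g u < g c ∧ g v < g c) ∨ (g c < g u ∧ g c < g v) := by
        rintro c u v ⟨x, h1, h2, h3⟩
        rw [hR] at h1 h2 h3
        by_cases k : f x < g c
        · have : h x ≤ g c := not_lt.1 fun j => h3 ⟨k, j⟩
          exact Or.inl ⟨by linarith [h1.2], by linarith [h2.2]⟩
        · exact Or.inr ⟨by linarith [h1.1], by linarith [h2.1]⟩
      have tg : ∀ c u v, TransGen (fun u v => ∃ x, R x u ∧ R x v ∧ ¬ R x c) u v →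
          (g u < g c ∧ g v < g c) ∨ (g c < g u ∧ g c < g v) := by
        intro c u v k
        induction k with
        | single k => exact lk _ _ _ k
        | tail _ k ih =>
          rcases ih with ih | ih <;> rcases lk _ _ _ k with j | j
          · exact Or.inl ⟨ih.1, j.2⟩
          · exfalso; linarith [ih.2, j.1]
          · exfalso; linarith [ih.2, j.1]
          · exact Or.inr ⟨ih.1, j.2⟩
      rintro a b c ⟨k1, k2, k3⟩
      rcases tg _ _ _ k1 with j1 | j1 <;> rcases tg _ _ _ k2 with j2 | j2 <;>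
        rcases tg _ _ _ k3 with j3 | j3 <;> linarith [j1.1, j1.2, j2.1, j2.2, j3.1, j3.2]
    · obtain ⟨D1, c1, p1⟩ := side_dense f h
      obtain ⟨D2, c2, p2⟩ := side_dense (fun x => - h x) (fun x => - f x)
      refine ⟨D1 ∪ D2, c1.union c2, fun x y hxy => ?_⟩
      rw [hR] at hxy
      obtain ⟨d₁, m1, k1, k2, k3⟩ := p1 x (g y) hxy.1 hxy.2
      obtain ⟨d₂, m2, j1, j2, j3⟩ := p2 x (- g y) (by linarith [hxy.2]) (by linarith [hxy.1])
      refine ⟨d₁, Or.inl m1, d₂, Or.inr m2, (hR _ _).2 ⟨k2, k3⟩,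
        (hR _ _).2 ⟨by linarith, by linarith⟩, fun z h1 h2 => ?_⟩
      rw [hR] at h1 h2 ⊢
      exact ⟨by linarith [h1.1], by linarith [h2.2]⟩
  · rintro ⟨hA, D, hD, hb⟩
    obtain ⟨lt, has, htr, htot, hconv⟩ := exists_order R hA
    exact represent R lt htr has htot hconv D hD hb

end Pool.Agent.H15.TF
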