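import Mathlib
set_option autoImplicit false

namespace Pool.Agent.H15.UF

theorem split (U : Ultrafilter ℕ) (S : ℕ → Set ℕ) (hS : ∀ i k, i < k → Disjoint (S i) (S k)) :
    ∃ e, (⋃ m, S (2 * m + e))ᶜ ∈ U := by
  by_cases h : (⋃ m, S (2 * m + 0)) ∈ U
  · refine ⟨1, Filter.mem_of_superset h ?_⟩
    intro x hx hx'
    obtain ⟨m, hm⟩ := Set.mem_iUnion.1 hx
    obtain ⟨n, hn⟩ := Set.mem_iUnion.1 hx'
    rcases lt_trichotomy (2 * m + 0) (2 * n + 1) with h | h | h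
    · exact Set.disjoint_left.1 (hS _ _ h) hm hn
    · omega
    · exact Set.disjoint_left.1 (hS _ _ h) hn hm
  · exact ⟨0, Ultrafilter.compl_mem_iff_notMem.2 h⟩

theorem main : ∀ U : Ultrafilter ℕ, (∀ n : ℕ, U ≠ pure n) →
      ∀ f : {s : Set ℕ // s ∈ U} → {s : Set ℕ // s ∈ U}, Monotone f →
        (¬ ∃ y : {s : Set ℕ // s ∈ U}, y ∈ Set.range f ∧
            ∀ c : {s : Set ℕ // s ∈ U},
              (c.1 ≠ Set.univ ∧ ∀ t : {s : Set ℕ // s ∈ U}, c.1 ⊆ t.1 → t.1 = c.1 ∨ t.1 = Set.univ) →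
              y ≤ f c) →
        ∃ g : ↥(Set.range f) → {s : Set ℕ // s ∈ U},
          ∃ h : {s : Set ℕ // s ∈ U} → ↥(Set.range f),
            Monotone g ∧ Monotone h ∧ ∀ x, g (h x) = x := by
  classical
  intro U hU f hf hlb
  have hco : ∀ n : ℕ, ({n}ᶜ : Set ℕ) ∈ U := by
    intro n
    rw [Ultrafilter.compl_mem_iff_notMem]
    intro h
    exact hU n (Ultrafilter.eq_of_le (Filter.le_pure_iff.2 h))
  let co : ℕ → {s : Set ℕ // s ∈ U} := fun n => ⟨{n}ᶜ, hco n⟩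
  have lco : ∀ (A : {s : Set ℕ // s ∈ U}) (n : ℕ), n ∉ A.1 → f A ≤ f (co n) := by
    intro A n hn
    refine hf (show A.1 ⊆ {n}ᶜ from ?_)
    rintro x hx rfl
    exact hn hx
  have F1 : ∀ A : {s : Set ℕ // s ∈ U}, {m | ¬ f A ≤ f (co m)} ∈ U := by
    intro A
    by_contra hh
    have hN : {m | f A ≤ f (co m)} ∈ U := by
      have := Ultrafilter.compl_mem_iff_notMem.2 hh
      refine Filter.mem_of_superset this fun m hm => ?_
      simpa using hm
    refine hlb ⟨f ⟨A.1 ∩ {m | f A ≤ f (co m)}, Filter.inter_mem A.2 hN⟩, ⟨_, rfl⟩, ?_⟩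
    rintro c ⟨h1, h2⟩
    obtain ⟨m, hm⟩ := (Set.ne_univ_iff_exists_notMem _).1 h1
    have hc : c = co m := by
      rcases h2 (co m) (by rintro x hx rfl; exact hm hx) with h | h
      · exact Subtype.ext h.symm
      · have : m ∈ (co m).1 := by rw [h]; trivial
        exact absurd rfl this
    rw [hc]
    by_cases hmN : f A ≤ f (co m)
    · exact le_trans (hf (show A.1 ∩ _ ⊆ A.1 from Set.inter_subset_left)) hmN
    · exact lco _ m fun h => hmN h.2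
  have F2 : ∀ B : {s : Set ℕ // s ∈ U}, ∃ B' : {s : Set ℕ // s ∈ U}, ∃ m, m ∈ B.1 ∧ B'.1 ⊆ B.1 ∧
      m ∉ B'.1 ∧ ∀ A : {s : Set ℕ // s ∈ U}, B.1 \ B'.1 ⊆ A.1 → ¬ f A ≤ f (co m) := by
    intro B
    by_contra hh
    have step : ∀ (m : ℕ) (W : {s : Set ℕ // s ∈ U}), ∃ C : {s : Set ℕ // s ∈ U},
        B.1 \ C.1 ⊆ W.1 ∧ (m ∈ B.1 → f C ≤ f (co m)) := by
      intro m W
      by_cases hm : m ∈ B.1
      · by_contra h2
        refine hh ⟨⟨W.1 ∩ B.1 ∩ {m}ᶜ, Filter.inter_mem (Filter.inter_mem W.2 B.2) (hco m)⟩, m, hm,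
          fun x hx => hx.1.2, fun hx => hx.2 rfl, fun A hA h3 => h2 ⟨A, ?_, fun _ => h3⟩⟩
        intro x hx
        by_contra h4
        exact hx.2 (hA ⟨hx.1, fun h5 => h4 h5.1.1⟩)
      · exact ⟨B, by simp, fun h => absurd h hm⟩
    choose C hC1 hC2 using step
    let W : ℕ → {s : Set ℕ // s ∈ U} := fun k => Nat.rec B (fun k w =>
      ⟨w.1 ∩ (C (k / 2) w).1, Filter.inter_mem w.2 (C (k / 2) w).2⟩) k
    have hW : ∀ k, (W (k + 1)).1 = (W k).1 ∩ (C (k / 2) (W k)).1 := fun k => rfl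
    have hWa : Antitone fun k => (W k).1 :=
      antitone_nat_of_succ_le fun k => by rw [hW]; exact Set.inter_subset_left
    obtain ⟨e, he⟩ : ∃ e, e < 2 ∧ (⋃ m, B.1 \ (C ((2 * m + e) / 2) (W (2 * m + e))).1)ᶜ ∈ U := by
      have hd : ∀ i k, i < k →
          Disjoint (B.1 \ (C (i / 2) (W i)).1) (B.1 \ (C (k / 2) (W k)).1) := by
        intro i k hik
        rw [Set.disjoint_left]
        intro x h1 h2
        have h3 : x ∈ (W (i + 1)).1 := hWa hik (hC1 _ _ h2)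
        rw [hW] at h3
        exact h1.2 h3.2
      by_cases h : (⋃ m, B.1 \ (C ((2 * m + 0) / 2) (W (2 * m + 0))).1) ∈ U
      · refine ⟨1, by omega, Filter.mem_of_superset h ?_⟩
        intro x hx hx'
        obtain ⟨m, hm⟩ := Set.mem_iUnion.1 hx
        obtain ⟨n, hn⟩ := Set.mem_iUnion.1 hx'
        rcases lt_trichotomy (2 * m + 0) (2 * n + 1) with h | h | h
        · exact Set.disjoint_left.1 (hd _ _ h) hm hn
        · omega
        · exact Set.disjoint_left.1 (hd _ _ h) hn hm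
      · exact ⟨0, by omega, Ultrafilter.compl_mem_iff_notMem.2 h⟩
    let A : {s : Set ℕ // s ∈ U} := ⟨B.1 ∩ _, Filter.inter_mem B.2 he.2⟩
    obtain ⟨m, hm1, hm2⟩ := Ultrafilter.nonempty_of_mem (Filter.inter_mem B.2 (F1 A))
    apply hm2
    have h1 := hC2 ((2 * m + e) / 2) (W (2 * m + e))
    have h2 : (2 * m + e) / 2 = m := by have := he.1; omega
    refine le_trans (hf (show A.1 ⊆ (C ((2 * m + e) / 2) (W (2 * m + e))).1 from ?_)) ?_
    · intro x hx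
      by_contra h3
      exact hx.2 (Set.mem_iUnion.2 ⟨m, hx.1, h3⟩)
    · rw [h2] at h1 ⊢
      exact h1 hm1
  choose nx mm h1 h2 h3 h4 using F2
  let B : ℕ → {s : Set ℕ // s ∈ U} := fun k => Nat.rec ⟨Set.univ, Filter.univ_mem⟩
    (fun _ w => nx w) k
  have hB : ∀ k, B (k + 1) = nx (B k) := fun k => rfl
  have hBa : Antitone fun k => (B k).1 :=
    antitone_nat_of_succ_le fun k => by rw [hB]; exact h2 _
  let L : ℕ → Set ℕ := fun k => (B k).1 \ (nx (B k)).1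
  have hd : ∀ i k, i < k → Disjoint (L i) (L k) := by
    intro i k hik
    rw [Set.disjoint_left]
    intro x h5 h6
    exact h5.2 (hBa hik h6.1)
  obtain ⟨e, he⟩ := split U L hd
  set A0 : Set ℕ := (⋃ m, L (2 * m + e))ᶜ with hA0
  let κ : {s : Set ℕ // s ∈ U} → {s : Set ℕ // s ∈ U} := fun A =>
    ⟨(A.1 ∩ A0) ∪ {x | ∃ n ∈ A.1, x ∈ L (2 * n + e)},
      Filter.mem_of_superset (Filter.inter_mem A.2 he) Set.subset_union_left⟩
  have hκ : Monotone κ := by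
    intro A A' hA x hx
    rcases hx with hx | ⟨n, hn, hx⟩
    · exact Or.inl ⟨hA hx.1, hx.2⟩
    · exact Or.inr ⟨n, hA hn, hx⟩
  have emb : ∀ A A', f (κ A) ≤ f (κ A') → A.1 ⊆ A'.1 := by
    intro A A' h n hn
    by_contra hn'
    have hm : mm (B (2 * n + e)) ∈ L (2 * n + e) := ⟨h1 _, h3 _⟩
    refine h4 (B (2 * n + e)) (κ A) (fun x hx => Or.inr ⟨n, hn, hx⟩) (h.trans (lco _ _ ?_))
    rintro (hx | ⟨j, hj, hx⟩)
    · exact hx.2 (Set.mem_iUnion.2 ⟨n, hm⟩)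
    · rcases lt_trichotomy j n with h | h | h
      · exact Set.disjoint_left.1 (hd _ _ (by omega)) hx hm
      · exact hn' (h ▸ hj)
      · exact Set.disjoint_left.1 (hd _ _ (by omega)) hm hx
  refine ⟨fun q => ⟨{n | ∀ A, q.1 ≤ f (κ A) → n ∈ A.1}, ?_⟩, fun A => ⟨f (κ A), _, rfl⟩,
    ?_, ?_, ?_⟩
  · obtain ⟨q, Y, rfl⟩ := q
    refine Filter.mem_of_superset (Filter.inter_mem (F1 Y) he) ?_
    intro n hn A hA
    by_contra hnA
    refine hn.1 (le_trans hA (lco _ _ ?_))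
    rintro (hx | ⟨j, _, hx⟩)
    · exact hnA hx.1
    · exact hn.2 (Set.mem_iUnion.2 ⟨j, hx⟩)
  · intro q q' hq n hn A hA
    exact hn A (le_trans hq hA)
  · intro A A' hA
    exact hf (hκ hA)
  · intro A
    apply Subtype.ext
    ext n
    exact ⟨fun h => h A le_rfl, fun h A' hA' => emb A A' hA' h⟩

end Pool.Agent.H15.UF
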