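import Mathlib
set_option autoImplicit false

namespace Pool.Agent.H15.UG

open MeasureTheory Module

/-- the σ-algebra generated by the additive subgroups of `ℝ` -/
@[reducible] def M : MeasurableSpace ℝ :=
  MeasurableSpace.generateFrom {S : Set ℝ | ∃ G : AddSubgroup ℝ, (G : Set ℝ) = S}

theorem grp (G : AddSubgroup ℝ) : MeasurableSet[M] (G : Set ℝ) :=
  MeasurableSpace.measurableSet_generateFrom ⟨G, rfl⟩

theorem fwd (h : ∀ Z : Set ℝ, (∀ z ∈ Z, -z ∈ Z) → MeasurableSet[M] Z) :
    (⊤ : MeasurableSpace ℝ).prod (⊤ : MeasurableSpace ℝ) = ⊤ := by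
  classical
  let b := Basis.ofVectorSpace ℚ ℝ
  obtain ⟨e⟩ : Nonempty (ℝ ⊕ ℝ ↪ Basis.ofVectorSpaceIndex ℚ ℝ) := by
    rw [← Cardinal.le_def, b.mk_eq_rank'', Real.rank_rat_real]
    simp [Cardinal.mk_real]
  let F : ℝ × ℝ → ℝ := fun p => b (e (Sum.inl p.1)) + b (e (Sum.inr p.2))
  have hF : @Measurable _ _ ((⊤ : MeasurableSpace ℝ).prod (⊤ : MeasurableSpace ℝ)) M F := by
    refine @measurable_generateFrom _ _ ((⊤ : MeasurableSpace ℝ).prod ⊤) _ _ ?_
    rintro _ ⟨G, rfl⟩
    let φ : ℝ → ℝ := fun a => Quotient.out (QuotientAddGroup.mk (s := G) (b (e (Sum.inl a))))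
    let ψ : ℝ → ℝ := fun a => Quotient.out (QuotientAddGroup.mk (s := G) (-b (e (Sum.inr a))))
    have h1 : F ⁻¹' (G : Set ℝ) = {p | ψ p.2 = φ p.1} := by
      ext p
      simp only [Set.mem_preimage, SetLike.mem_coe, Set.mem_ofPred_eq, φ, ψ, F,
        Quotient.out_inj]
      rw [QuotientAddGroup.eq, neg_neg, add_comm]
    rw [h1]
    refine @measurableSet_eq_fun _ _ ((⊤ : MeasurableSpace ℝ).prod ⊤) _ _ _ _ ?_ ?_
    · exact @Measurable.comp _ _ _ ((⊤ : MeasurableSpace ℝ).prod ⊤) ⊤ _ ψ Prod.snd
        measurable_from_top (@measurable_snd ℝ ℝ ⊤ ⊤)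
    · exact @Measurable.comp _ _ _ ((⊤ : MeasurableSpace ℝ).prod ⊤) ⊤ _ φ Prod.fst
        measurable_from_top (@measurable_fst ℝ ℝ ⊤ ⊤)
  have hr : ∀ p i, b.repr (F p) (e i) =
      (if Sum.inl p.1 = i then 1 else 0) + (if Sum.inr p.2 = i then 1 else 0) := by
    intro p i
    simp [F, Finsupp.single_apply]
  refine le_antisymm le_top fun E _ => ?_
  have h2 := hF (h (F '' E ∪ (fun x => -x) '' (F '' E)) (by
    rintro z (hz | ⟨w, hw, rfl⟩)
    · exact Or.inr ⟨z, hz, rfl⟩
    · exact Or.inl (by simpa using hw)))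
  convert h2 using 1
  ext p
  constructor
  · intro hp; exact Or.inl ⟨p, hp, rfl⟩
  · rintro (⟨q, hq, e1⟩ | ⟨_, ⟨q, hq, rfl⟩, e1⟩)
    · have k1 := hr q (Sum.inl p.1)
      have k2 := hr q (Sum.inr p.2)
      rw [e1, hr] at k1 k2
      have a1 : q.1 = p.1 := by
        by_contra hh
        simp [hh] at k1
      have a2 : q.2 = p.2 := by
        by_contra hh
        simp [hh] at k2
      rwa [← Prod.ext a1 a2]
    · have k1 := hr p (Sum.inl p.1)
      rw [← e1, map_neg, Finsupp.neg_apply, hr] at k1
      by_cases hh : q.1 = p.1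
      · simp [hh] at k1
        norm_num at k1
      · simp [hh] at k1

section back
variable {ι : Type} (b : Basis ι ℚ ℝ)

theorem supp_meas (C : Set ι) : MeasurableSet[M] {x | ∀ i ∈ (b.repr x).support, i ∈ C} := by
  let G : AddSubgroup ℝ :=
    { carrier := {x | ∀ i, i ∉ C → b.repr x i = 0}
      zero_mem' := by simp
      add_mem' := fun {x y} hx hy i hi => by simp [hx i hi, hy i hi]
      neg_mem' := fun {x} hx i hi => by simp [hx i hi] }
  convert grp G using 1
  ext x
  simp only [Finsupp.mem_support_iff, Set.mem_ofPred_eq, SetLike.mem_coe]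
  exact ⟨fun h i hi => by_contra fun hh => hi (h i hh), fun h i hi => by_contra fun hh =>
    hi (h i hh)⟩

theorem pm_meas {Q : Type} [AddCommGroup Q] [Module ℚ Q] (l : ℝ →+ Q) (q : Q) :
    MeasurableSet[M] {x | l x = q ∨ l x = -q} := by
  by_cases hq : q = 0
  · convert grp l.ker using 1
    ext x; simp [hq]
  have h1 : {x | l x = q ∨ l x = -q} = ((AddSubgroup.zmultiples q).comap l : Set ℝ) \
      ⋃ k : ℕ, ((AddSubgroup.zmultiples ((k + 2 : ℤ) • q)).comap l : Set ℝ) := by
    have inj : ∀ a c : ℤ, a • q = c • q → a = c := by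
      intro a c h
      have : ((a - c : ℤ) : ℚ) • q = 0 := by
        rw [Int.cast_smul_eq_zsmul, sub_smul, h, sub_self]
      rcases smul_eq_zero.1 this with h | h
      · have : a - c = 0 := by exact_mod_cast h
        omega
      · exact absurd h hq
    ext x
    simp only [Set.mem_ofPred_eq, Set.mem_sdiff, SetLike.mem_coe, AddSubgroup.mem_comap,
      AddSubgroup.mem_zmultiples_iff, Set.mem_iUnion, not_exists]
    constructor
    · rintro (h | h)
      · refine ⟨⟨1, by simp [h]⟩, fun k a ha => ?_⟩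
        rw [h, smul_smul] at ha
        have := inj _ 1 (by simpa using ha)
        have := Int.eq_one_or_neg_one_of_mul_eq_one' this
        omega
      · refine ⟨⟨-1, by simp [h]⟩, fun k a ha => ?_⟩
        rw [h, smul_smul] at ha
        have := inj _ (-1) (by simpa using ha)
        have := Int.eq_one_or_neg_one_of_mul_eq_neg_one' this
        omega
    · rintro ⟨⟨a, ha⟩, h2⟩
      by_cases a1 : a = 1
      · left; rw [← ha, a1, one_smul]
      by_cases a2 : a = -1
      · right; rw [← ha, a2, neg_smul, one_smul]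
      exfalso
      by_cases a0 : a = 0
      · exact h2 0 0 (by rw [← ha, a0]; simp)
      rcases le_total 0 a with h | h
      · refine h2 (a - 2).toNat 1 ?_
        rw [← ha, one_smul]
        congr 1
        omega
      · refine h2 (-a - 2).toNat (-1) ?_
        rw [← ha, smul_smul]
        congr 1
        omega
  rw [h1]
  exact (grp _).diff (MeasurableSet.iUnion fun k => grp _)

theorem pair (hR : (⊤ : MeasurableSpace ℝ).prod (⊤ : MeasurableSpace ℝ) = ⊤) {X : Type}
    (j : X → ℝ) (hj : Function.Injective j) (D : Set ℝ) (hD : MeasurableSet[M] D) (f g : ℝ → X)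
    (hf : ∀ S, MeasurableSet[M] (D ∩ f ⁻¹' S)) (hg : ∀ S, MeasurableSet[M] (D ∩ g ⁻¹' S))
    (E : Set (X × X)) : MeasurableSet[M] (D ∩ {x | (f x, g x) ∈ E}) := by
  classical
  have tot : ∀ f : ℝ → X, (∀ S, MeasurableSet[M] (D ∩ f ⁻¹' S)) →
      @Measurable _ _ M ⊤ (fun x => if x ∈ D then j (f x) else 0) := by
    intro f hf S _
    have : (fun x => if x ∈ D then j (f x) else 0) ⁻¹' S =
        (D ∩ f ⁻¹' (j ⁻¹' S)) ∪ (Dᶜ ∩ {_x | (0 : ℝ) ∈ S}) := by
      ext x
      by_cases hx : x ∈ D <;> simp [hx]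
    rw [this]
    exact (hf _).union (hD.compl.inter (MeasurableSet.const _))
  have h1 : @Measurable _ _ M ((⊤ : MeasurableSpace ℝ).prod (⊤ : MeasurableSpace ℝ))
      (fun x => ((if x ∈ D then j (f x) else 0), (if x ∈ D then j (g x) else 0))) :=
    @Measurable.prodMk _ M _ _ ⊤ ⊤ _ _ (tot f hf) (tot g hg)
  rw [hR] at h1
  have h2 := hD.inter (h1 (show MeasurableSet[⊤] (Prod.map j j '' E) from trivial))
  convert h2 using 1
  ext x
  simp only [Set.mem_inter_iff, Set.mem_ofPred_eq, Set.mem_preimage]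
  refine and_congr_right fun hx => ?_
  simp only [hx, if_true]
  exact ((hj.prodMap hj).mem_set_image (a := (f x, g x))).symm

theorem inj_meas (c : ι → ℤ) : MeasurableSet[M] {x | Set.InjOn c (b.repr x).support} := by
  have : {x | Set.InjOn c (b.repr x).support} = ⋂ m : ℤ, ⋂ r : ℚ,
      ({x | ∀ i ∈ (b.repr x).support, i ∈ {i | ¬ (c i = m ∧ b i < r)}} ∪
       {x | ∀ i ∈ (b.repr x).support, i ∈ {i | ¬ (c i = m ∧ (r : ℝ) ≤ b i)}}) := by
    ext x
    simp only [Set.mem_iInter, Set.mem_union, Set.mem_ofPred_eq]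
    constructor
    · intro h m r
      by_contra hh
      push Not at hh
      obtain ⟨⟨i, hi, h1, h2⟩, ⟨j, hj, h3, h4⟩⟩ := hh
      have := h hi hj (h1.trans h3.symm)
      subst this
      linarith
    · intro h i hi j hj e
      by_contra hne
      have hb : b i ≠ b j := fun k => hne (b.injective k)
      rcases lt_or_gt_of_ne hb with hlt | hlt
      · obtain ⟨r, h1, h2⟩ := exists_rat_btwn hlt
        rcases h (c i) r with k | k
        · exact k i hi ⟨rfl, h1⟩
        · exact k j hj ⟨e.symm, h2.le⟩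
      · obtain ⟨r, h1, h2⟩ := exists_rat_btwn hlt
        rcases h (c i) r with k | k
        · exact k j hj ⟨e.symm, h1⟩
        · exact k i hi ⟨rfl, h2.le⟩
  rw [this]
  exact MeasurableSet.iInter fun m => MeasurableSet.iInter fun r =>
    (supp_meas b _).union (supp_meas b _)

open Classical in
theorem filt_meas (hR : (⊤ : MeasurableSpace ℝ).prod (⊤ : MeasurableSpace ℝ) = ⊤) (c : ι → ℤ)
    (F : Finset ℤ) : ∀ S : Set (Finset ι), MeasurableSet[M] ({x | Set.InjOn c (b.repr x).support} ∩
      (fun x => (b.repr x).support.filter (fun i => c i ∈ F)) ⁻¹' S) := by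
  have hj : Function.Injective (fun s : Finset ι => ∑ i ∈ s, b i) := by
    intro s t h
    ext i
    have := congrArg (fun y => b.repr y i) h
    simp only [map_sum, Basis.repr_self, Finsupp.finsetSum_apply, Finsupp.single_apply,
      Finset.sum_ite_eq'] at this
    by_cases h1 : i ∈ s <;> by_cases h2 : i ∈ t <;> simp_all
  induction F using Finset.induction_on with
  | empty =>
    intro S
    have : (fun x => (b.repr x).support.filter (fun i => c i ∈ (∅ : Finset ℤ))) ⁻¹' S =
        {_x : ℝ | ∅ ∈ S} := by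
      ext x; simp
    rw [this]
    exact (inj_meas b c).inter (MeasurableSet.const _)
  | insert m F _ ih =>
    intro S
    have h1 : ∀ S : Set (Finset ι), MeasurableSet[M] ({x | Set.InjOn c (b.repr x).support} ∩
        (fun x => (b.repr x).support.filter (fun i => c i = m)) ⁻¹' S) := by
      intro S
      have : ({x | Set.InjOn c (b.repr x).support} ∩
          (fun x => (b.repr x).support.filter (fun i => c i = m)) ⁻¹' S) =
          {x | Set.InjOn c (b.repr x).support} ∩
          (({x | ∀ i ∈ (b.repr x).support, i ∈ {i | c i ≠ m}} ∩ {_x | ∅ ∈ S}) ∪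
          ({x | ∀ i ∈ (b.repr x).support, i ∈ {i | c i ≠ m}}ᶜ ∩
            {x | ∀ i ∈ (b.repr x).support, i ∈ {i | c i = m → {i} ∈ S}})) := by
        ext x
        simp only [Set.mem_inter_iff, Set.mem_ofPred_eq, Set.mem_preimage, Set.mem_union,
          Set.mem_compl_iff]
        refine and_congr_right fun hx => ?_
        by_cases he : ∀ i ∈ (b.repr x).support, c i ≠ m
        · rw [Finset.filter_eq_empty_iff.2 he]
          exact ⟨fun h => Or.inl ⟨he, h⟩, fun h => h.elim (fun h => h.2) (fun h => absurd he h.1)⟩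
        · have he' := he
          push Not at he'
          obtain ⟨i, hi, hm⟩ := he'
          have e : (b.repr x).support.filter (fun i => c i = m) = {i} := by
            ext k
            rw [Finset.mem_filter, Finset.mem_singleton]
            exact ⟨fun h => hx h.1 hi (h.2.trans hm.symm), fun h => h ▸ ⟨hi, hm⟩⟩
          rw [e]
          constructor
          · intro h
            refine Or.inr ⟨he, fun k hk hkm => ?_⟩
            rw [hx hk hi (hkm.trans hm.symm)]; exact h
          · rintro (h | h)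
            · exact absurd h.1 he
            · exact h.2 i hi hm
      rw [this]
      exact (inj_meas b c).inter (((supp_meas b _).inter (MeasurableSet.const _)).union
        ((supp_meas b _).compl.inter (supp_meas b _)))
    have h2 := pair hR _ hj _ (inj_meas b c) _ _ h1 ih {p | p.1 ∪ p.2 ∈ S}
    convert h2 using 2
    ext x
    simp only [Set.mem_preimage, Set.mem_ofPred_eq, Finset.mem_insert, Finset.filter_or]

end back

theorem bwd (hR : (⊤ : MeasurableSpace ℝ).prod (⊤ : MeasurableSpace ℝ) = ⊤) (Z : Set ℝ)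
    (hZ : ∀ z ∈ Z, -z ∈ Z) : MeasurableSet[M] Z := by
  classical
  let b := Basis.ofVectorSpace ℚ ℝ
  let c : ℕ → Basis.ofVectorSpaceIndex ℚ ℝ → ℤ := fun k i => ⌊(k : ℝ) * b i⌋
  let l : ℕ → ℝ →+ (ℤ →₀ ℚ) := fun k =>
    (Finsupp.mapDomain.addMonoidHom (c k)).comp b.repr.toAddEquiv.toAddMonoidHom
  have hl : ∀ k x, l k x = Finsupp.mapDomain (c k) (b.repr x) := fun _ _ => rfl
  let D : ℕ → (ℤ →₀ ℚ) → Set ℝ := fun k q =>
    {x | Set.InjOn (c k) (b.repr x).support} ∩ {x | l k x = q ∨ l k x = -q}
  have hcov : ∀ x, ∃ k, Set.InjOn (c k) (b.repr x).support := by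
    intro x
    have h1 : ∀ i j, i ≠ j → ∀ᶠ k : ℕ in Filter.atTop, c k i ≠ c k j := by
      intro i j hij
      have hpos : 0 < |b i - b j| := abs_pos.2 (sub_ne_zero.2 fun h => hij (b.injective h))
      obtain ⟨N, hN⟩ := exists_nat_gt (1 / |b i - b j|)
      filter_upwards [Filter.eventually_ge_atTop N] with k hk e
      have h2 := Int.abs_sub_lt_one_of_floor_eq_floor e
      rw [← mul_sub, abs_mul, Nat.abs_cast] at h2
      have h3 : (N : ℝ) ≤ k := by exact_mod_cast hk
      rw [div_lt_iff₀ hpos] at hN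
      nlinarith
    have h2 : ∀ᶠ k : ℕ in Filter.atTop, ∀ i ∈ (b.repr x).support, ∀ j ∈ (b.repr x).support,
        c k i = c k j → i = j := by
      rw [Filter.eventually_all_finset]
      intro i _
      rw [Filter.eventually_all_finset]
      intro j _
      by_cases hij : i = j
      · exact Filter.Eventually.of_forall fun _ _ => hij
      · filter_upwards [h1 i j hij] with k hk e using absurd e hk
    obtain ⟨k, hk⟩ := h2.exists
    exact ⟨k, fun i hi j hj e => hk i hi j hj e⟩
  have hfil : ∀ k q x, x ∈ D k q →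
      (b.repr x).support.filter (fun i => c k i ∈ q.support) = (b.repr x).support := by
    intro k q x hx
    refine Finset.filter_true_of_mem fun i hi => ?_
    have h1 : (l k x).support = q.support := by
      rcases hx.2 with h | h <;> rw [h]
      exact Finsupp.support_neg q
    rw [← h1, hl, Finsupp.mapDomain_support_of_injOn _ hx.1]
    exact Finset.mem_image_of_mem _ hi
  have hZ' : Z = ⋃ k, ⋃ q, ({x | l k x = q ∨ l k x = -q} ∩
      ({x | Set.InjOn (c k) (b.repr x).support} ∩
      (fun x => (b.repr x).support.filter (fun i => c k i ∈ q.support)) ⁻¹'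
        ((fun x => (b.repr x).support) '' (Z ∩ D k q)))) := by
    ext x
    simp only [Set.mem_iUnion]
    constructor
    · intro hx
      obtain ⟨k, hk⟩ := hcov x
      have hD : x ∈ D k (l k x) := ⟨hk, Or.inl rfl⟩
      exact ⟨k, l k x, Or.inl rfl, hk, x, ⟨hx, hD⟩, (hfil k _ x hD).symm⟩
    · rintro ⟨k, q, h1, h2, y, ⟨hy, hyD⟩, e⟩
      have e' : (b.repr y).support = (b.repr x).support := e.trans (hfil k q x ⟨h2, h1⟩)
      have inj : ∀ w : ℝ, (b.repr w).support = (b.repr x).support → l k w = l k x → w = x := by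
        intro w hw h
        apply b.repr.injective
        exact Finsupp.mapDomain_injOn _ h2 (by simp [hw]) (by simp) h
      have : l k y = l k x ∨ l k (-y) = l k x := by
        rw [map_neg]
        rcases h1 with h1 | h1 <;> rcases hyD.2 with h3 | h3 <;> simp [h1, h3]
      rcases this with h | h
      · rw [← inj y e' h]; exact hy
      · rw [← inj (-y) (by rw [map_neg, Finsupp.support_neg, e']) h]; exact hZ y hy
  rw [hZ']
  exact MeasurableSet.iUnion fun k => MeasurableSet.iUnion fun q =>
    (pm_meas _ _).inter (filt_meas b hR (c k) q.support _)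

end Pool.Agent.H15.UG
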