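import Mathlib
import Pool.Agent.H15.UG1

set_option autoImplicit false

namespace Pool.Agent.H15.UG

open MeasureTheory

theorem graph_meas (g : ℝ → ℝ) (A : Set ℝ) :
    MeasurableSet[(⊤ : MeasurableSpace ℝ).prod (⊤ : MeasurableSpace ℝ)]
      {p : ℝ × ℝ | p.2 = g p.1 ∧ p.1 ∈ A} := by
  have h1 : @Measurable (ℝ × ℝ) ℝ ((⊤ : MeasurableSpace ℝ).prod ⊤) _ (fun p => p.2) :=
    @Measurable.comp _ _ _ ((⊤ : MeasurableSpace ℝ).prod ⊤) ⊤ _ id Prod.snd measurable_from_top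
      (@measurable_snd ℝ ℝ ⊤ ⊤)
  have h2 : @Measurable (ℝ × ℝ) ℝ ((⊤ : MeasurableSpace ℝ).prod ⊤) _ (fun p => g p.1) :=
    @Measurable.comp _ _ _ ((⊤ : MeasurableSpace ℝ).prod ⊤) ⊤ _ g Prod.fst measurable_from_top
      (@measurable_fst ℝ ℝ ⊤ ⊤)
  have h3 : MeasurableSet[(⊤ : MeasurableSpace ℝ).prod (⊤ : MeasurableSpace ℝ)]
      (Prod.fst ⁻¹' A : Set (ℝ × ℝ)) :=
    (@measurable_fst ℝ ℝ ⊤ ⊤) (MeasurableSpace.measurableSet_top)
  exact (@measurableSet_eq_fun (ℝ × ℝ) ℝ ((⊤ : MeasurableSpace ℝ).prod ⊤) _ _ _ _ h1 h2).inter h3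

theorem graph_meas' (g : ℝ → ℝ) (A : Set ℝ) :
    MeasurableSet[(⊤ : MeasurableSpace ℝ).prod (⊤ : MeasurableSpace ℝ)]
      {p : ℝ × ℝ | p.1 = g p.2 ∧ p.2 ∈ A} :=
  (@measurable_swap ℝ ℝ ⊤ ⊤) (graph_meas g A)

theorem of_CH (h : Cardinal.continuum.{0} = Cardinal.aleph 1) :
    (⊤ : MeasurableSpace ℝ).prod (⊤ : MeasurableSpace ℝ) = ⊤ := by
  classical
  obtain ⟨r, wo, hr⟩ := Cardinal.exists_ord_eq ℝ
  have hc : ∀ x, (insert x {y | r y x}).Countable := by
    intro x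
    refine Set.Countable.insert _ ?_
    rw [Cardinal.countable_iff_lt_aleph_one, ← h, ← Cardinal.mk_real]
    have := Cardinal.card_typein_lt x hr
    rwa [Ordinal.card_typein] at this
  have hf : ∀ x, ∃ f : ℕ → ℝ, insert x {y | r y x} = Set.range f :=
    fun x => (hc x).exists_eq_range (Set.insert_nonempty _ _)
  choose f hf using hf
  refine top_unique fun E _ => ?_
  have hE : E = ⋃ n : ℕ, ({p : ℝ × ℝ | p.2 = f p.1 n ∧ p.1 ∈ {x | (x, f x n) ∈ E}} ∪
      {p : ℝ × ℝ | p.1 = f p.2 n ∧ p.2 ∈ {x | (f x n, x) ∈ E}}) := by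
    ext ⟨x, y⟩
    simp only [Set.mem_iUnion, Set.mem_union, Set.mem_setOf_eq]
    constructor
    · intro hxy
      have : y ∈ insert x {z | r z x} ∨ x ∈ insert y {z | r z y} := by
        rcases trichotomous_of r x y with h | h | h
        · exact Or.inr (Or.inr h)
        · exact Or.inl (Or.inl h.symm)
        · exact Or.inl (Or.inr h)
      rcases this with h | h
      · rw [hf] at h
        obtain ⟨n, hn⟩ := h
        exact ⟨n, Or.inl ⟨hn.symm, by rw [hn]; exact hxy⟩⟩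
      · rw [hf] at h
        obtain ⟨n, hn⟩ := h
        exact ⟨n, Or.inr ⟨hn.symm, by rw [hn]; exact hxy⟩⟩
    · rintro ⟨n, ⟨h1, h2⟩ | ⟨h1, h2⟩⟩
      · rw [h1]; exact h2
      · rw [h1]; exact h2
  rw [hE]
  exact MeasurableSet.iUnion fun n =>
    (graph_meas (fun x => f x n) _).union (graph_meas' (fun x => f x n) _)

theorem not_of_measure (μ : @Measure ℝ ⊤) (hμ : μ Set.univ = 1) (h0 : ∀ x : ℝ, μ {x} = 0) :
    (⊤ : MeasurableSpace ℝ).prod (⊤ : MeasurableSpace ℝ) ≠ ⊤ := by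
  classical
  intro hR
  letI : MeasurableSpace ℝ := ⊤
  haveI : IsProbabilityMeasure μ := ⟨hμ⟩
  -- a set of least cardinality with positive measure
  have hne : (Cardinal.mk '' ((↑) '' {A : Set ℝ | μ A ≠ 0} : Set Type)).Nonempty :=
    ⟨_, _, ⟨Set.univ, by simp [hμ], rfl⟩, rfl⟩
  obtain ⟨A, hA, hmin⟩ : ∃ A : Set ℝ, μ A ≠ 0 ∧
      ∀ B : Set ℝ, Cardinal.mk B < Cardinal.mk A → μ B = 0 := by
    obtain ⟨_, ⟨A, hA, rfl⟩, e⟩ := csInf_mem hne
    refine ⟨A, hA, fun B hB => ?_⟩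
    by_contra hB0
    have := csInf_le' (s := Cardinal.mk '' ((↑) '' {A : Set ℝ | μ A ≠ 0} : Set Type))
      ⟨_, ⟨B, hB0, rfl⟩, rfl⟩
    rw [← e] at this
    exact absurd hB (not_lt.2 this)
  obtain ⟨r, wo, hr⟩ := Cardinal.exists_ord_eq A
  have hseg : ∀ y : A, μ (Subtype.val '' {x : A | r x y}) = 0 := by
    intro y
    apply hmin
    rw [Cardinal.mk_image_eq Subtype.val_injective]
    have := Cardinal.card_typein_lt y hr
    rwa [Ordinal.card_typein] at this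
  let W : Set (ℝ × ℝ) := {p | ∃ (h1 : p.1 ∈ A) (h2 : p.2 ∈ A), r ⟨p.1, h1⟩ ⟨p.2, h2⟩}
  have hall : ∀ E : Set (ℝ × ℝ), MeasurableSet E := by
    intro E
    have : MeasurableSet[(⊤ : MeasurableSpace ℝ).prod (⊤ : MeasurableSpace ℝ)] E := by
      rw [hR]; exact MeasurableSpace.measurableSet_top
    exact this
  have hW : (μ.prod μ) W = 0 := by
    rw [Measure.prod_apply_symm (hall W)]
    have : ∀ y, μ ((fun x => (x, y)) ⁻¹' W) = 0 := by
      intro y
      by_cases hy : y ∈ A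
      · refine measure_mono_null ?_ (hseg ⟨y, hy⟩)
        rintro x ⟨h1, h2, h⟩
        exact ⟨⟨x, h1⟩, h, rfl⟩
      · have : (fun x => (x, y)) ⁻¹' W = ∅ := by
          ext x
          simp only [Set.mem_preimage, Set.mem_empty_iff_false, iff_false]
          rintro ⟨_, h2, _⟩
          exact hy h2
        rw [this, measure_empty]
    simp [this]
  have hW' : (μ.prod μ) (Prod.swap ⁻¹' W) = 0 := by
    rw [Measure.prod_apply (hall _)]
    have : ∀ y, μ (Prod.mk y ⁻¹' (Prod.swap ⁻¹' W)) = 0 := by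
      intro y
      by_cases hy : y ∈ A
      · refine measure_mono_null ?_ (hseg ⟨y, hy⟩)
        rintro x ⟨h1, h2, h⟩
        exact ⟨⟨x, h1⟩, h, rfl⟩
      · have : Prod.mk y ⁻¹' (Prod.swap ⁻¹' W) = ∅ := by
          ext x
          simp only [Set.mem_preimage, Set.mem_empty_iff_false, iff_false]
          rintro ⟨_, h2, _⟩
          exact hy h2
        rw [this, measure_empty]
    simp [this]
  have hD : (μ.prod μ) {p : ℝ × ℝ | p.1 = p.2} = 0 := by
    rw [Measure.prod_apply (hall _)]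
    have : ∀ y, μ (Prod.mk y ⁻¹' {p : ℝ × ℝ | p.1 = p.2}) = 0 := by
      intro y
      refine measure_mono_null ?_ (h0 y)
      intro x hx
      exact (hx : y = x).symm
    simp only [this, lintegral_zero]
  have hAA : (μ.prod μ) (A ×ˢ A) = 0 := by
    refine measure_mono_null ?_ (measure_union_null (measure_union_null hW hW') hD)
    rintro ⟨x, y⟩ ⟨hx, hy⟩
    rcases trichotomous_of r ⟨x, hx⟩ ⟨y, hy⟩ with h | h | h
    · exact Or.inl (Or.inl ⟨hx, hy, h⟩)
    · exact Or.inr (congrArg Subtype.val h)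
    · exact Or.inl (Or.inr ⟨hy, hx, h⟩)
  rw [Measure.prod_prod, mul_self_eq_zero] at hAA
  exact hA hAA

end Pool.Agent.H15.UG
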