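import Mathlib
set_option autoImplicit false

namespace Pool.Agent.H15.UR

open Relation

universe u

/-- The distance `d` on `V` is generated by the labeled tree `G(l)`. -/
def GenBy {V : Type u} (d : V → V → ℝ) (G : SimpleGraph V) (l : V → ℝ) : Prop :=
  G.IsTree ∧ (∀ v, 0 ≤ l v) ∧
    ∀ u v, u ≠ v → ∀ p : G.Walk u v, p.IsPath → IsGreatest (l '' {w | w ∈ p.support}) (d u v)

/-- `G` is a ray `x₀ x₁ x₂ …`. -/
def IsRay {V : Type u} (G : SimpleGraph V) : Prop :=
  ∃ e : ℕ ≃ V, ∀ i j, G.Adj (e i) (e j) ↔ (i + 1 = j ∨ j + 1 = i)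

/-- `G` has no ray as a subgraph. -/
def Rayless {V : Type u} (G : SimpleGraph V) : Prop :=
  ¬ ∃ f : ℕ → V, Function.Injective f ∧ ∀ n, G.Adj (f n) (f (n + 1))

/-- exactly one vertex has degree greater than two -/
def Starlike {V : Type u} (G : SimpleGraph V) : Prop :=
  ∃! c, 2 < (G.neighborSet c).encard

section
variable {V : Type u}

def E (G : SimpleGraph V) (l : V → ℝ) (r : ℝ) (a b : V) : Prop := G.Adj a b ∧ l a ≤ r ∧ l b ≤ r

theorem E.symm {G : SimpleGraph V} {l : V → ℝ} {r : ℝ} {a b : V} (h : E G l r a b) :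
    E G l r b a := ⟨h.1.symm, h.2.2, h.2.1⟩

theorem rtg_symm {G : SimpleGraph V} {l : V → ℝ} {r : ℝ} {a b : V}
    (h : ReflTransGen (E G l r) a b) : ReflTransGen (E G l r) b a := by
  induction h with
  | refl => exact ReflTransGen.refl
  | tail _ h2 ih => exact ReflTransGen.head h2.symm ih

def Gen' (d : V → V → ℝ) (G : SimpleGraph V) (l : V → ℝ) : Prop :=
  ∀ u v, u ≠ v → ∀ r, d u v ≤ r ↔ ReflTransGen (E G l r) u v

theorem rtg_of_walk {G : SimpleGraph V} {l : V → ℝ} {r : ℝ} {u v : V} (p : G.Walk u v)
    (h : ∀ w ∈ p.support, l w ≤ r) : ReflTransGen (E G l r) u v := by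
  induction p with
  | nil => exact ReflTransGen.refl
  | cons hadj q ih =>
    refine ReflTransGen.head ⟨hadj, h _ (by simp), h _ (by simp)⟩ (ih fun w hw => h w ?_)
    simp [hw]

theorem walk_of_rtg {G : SimpleGraph V} {l : V → ℝ} {r : ℝ} {u v : V}
    (h : ReflTransGen (E G l r) u v) :
    u = v ∨ ∃ p : G.Walk u v, ∀ w ∈ p.support, l w ≤ r := by
  induction h using ReflTransGen.head_induction_on with
  | refl => exact Or.inl rfl
  | head h1 _ ih =>
    right
    rcases ih with rfl | ⟨p, hp⟩
    · refine ⟨SimpleGraph.Walk.cons h1.1 SimpleGraph.Walk.nil, ?_⟩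
      intro w hw
      simp only [SimpleGraph.Walk.support_cons, SimpleGraph.Walk.support_nil, List.mem_cons,
        List.not_mem_nil, or_false] at hw
      rcases hw with rfl | rfl
      · exact h1.2.1
      · exact h1.2.2
    · refine ⟨SimpleGraph.Walk.cons h1.1 p, ?_⟩
      intro w hw
      simp only [SimpleGraph.Walk.support_cons, List.mem_cons] at hw
      rcases hw with rfl | hw
      · exact h1.2.1
      · exact hp w hw

theorem path_sub {G : SimpleGraph V} (hT : G.IsTree) {u v : V} (p q : G.Walk u v)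
    (hp : p.IsPath) : ∀ w ∈ p.support, w ∈ q.support := by
  classical
  have : p = q.bypass := (hT.existsUnique_path u v).unique hp q.bypass_isPath
  intro w hw
  rw [this] at hw
  exact q.support_bypass_subset_support hw

theorem genBy_iff {d : V → V → ℝ} {G : SimpleGraph V} {l : V → ℝ} :
    GenBy d G l ↔ G.IsTree ∧ (∀ v, 0 ≤ l v) ∧ Gen' d G l := by
  classical
  refine and_congr_right fun hT => and_congr_right fun _ => ⟨?_, ?_⟩
  · intro h u v huv r
    obtain ⟨p, hp, -⟩ := hT.existsUnique_path u v
    have hg := h u v huv p hp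
    constructor
    · intro hr
      exact rtg_of_walk p fun w hw => (hg.2 ⟨w, hw, rfl⟩).trans hr
    · intro hr
      rcases walk_of_rtg hr with e | ⟨q, hq⟩
      · exact absurd e huv
      · obtain ⟨w, hw, e⟩ := hg.1
        rw [← e]
        exact hq w (path_sub hT p q hp w hw)
  · intro h u v huv p hp
    have hub : ∀ w ∈ p.support, l w ≤ d u v := by
      rcases walk_of_rtg ((h u v huv _).1 le_rfl) with e | ⟨q, hq⟩
      · exact absurd e huv
      · exact fun w hw => hq w (path_sub hT p q hp w hw)
    obtain ⟨w, hw, hmax⟩ := p.support.toFinset.exists_max_image l ⟨u, by simp⟩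
    have hw' : w ∈ p.support := by simpa using hw
    have : d u v ≤ l w := (h u v huv _).2 (rtg_of_walk p fun x hx => hmax x (by simpa using hx))
    refine ⟨⟨w, hw', le_antisymm (hub w hw') this⟩, ?_⟩
    rintro _ ⟨x, hx, rfl⟩
    exact hub x hx

/-- parent structure -/
structure PS (G : SimpleGraph V) (c : V) (par : V → V) (pos : V → ℕ) : Prop where
  pc : par c = c
  step : ∀ w, w ≠ c → pos (par w) < pos w
  adj : ∀ u v, G.Adj u v ↔ (u ≠ c ∧ par u = v) ∨ (v ≠ c ∧ par v = u)

def Desc (par : V → V) (w u : V) : Prop := ∃ k, par^[k] u = w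

variable {G : SimpleGraph V} {c : V} {par : V → V} {pos : V → ℕ}

theorem PS.le (h : PS G c par pos) (w : V) : pos (par w) ≤ pos w := by
  by_cases e : w = c
  · rw [e, h.pc]
  · exact (h.step w e).le

theorem PS.iter_le (h : PS G c par pos) (k : ℕ) (w : V) : pos (par^[k] w) ≤ pos w := by
  induction k with
  | zero => exact le_rfl
  | succ k ih => rw [Function.iterate_succ_apply']; exact (h.le _).trans ih

theorem PS.desc_le (h : PS G c par pos) {w u : V} (hd : Desc par w u) : pos w ≤ pos u := by
  obtain ⟨k, rfl⟩ := hd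
  exact h.iter_le k u

theorem PS.sep (h : PS G c par pos) {R : V → V → Prop} (hR : ∀ a b, R a b → G.Adj a b)
    {w u v : V} (hu : Desc par w u) (hv : ¬ Desc par w v) (hr : ReflTransGen R u v) :
    R w (par w) := by
  induction hr using ReflTransGen.head_induction_on with
  | refl => exact absurd hu hv
  | @head a b h1 _ ih =>
    by_cases hb : Desc par w b
    · exact ih hb
    · obtain ⟨k, hk⟩ := hu
      rcases (h.adj a b).1 (hR _ _ h1) with ⟨_, e⟩ | ⟨_, e⟩
      · cases k with
        | zero =>
          have : a = w := hk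
          subst this
          rw [e]; exact h1
        | succ k =>
          exact absurd ⟨k, by rw [← e]; exact hk⟩ hb
      · exact absurd ⟨k + 1, by rw [Function.iterate_succ_apply, e]; exact hk⟩ hb

theorem PS.adj_par (h : PS G c par pos) {w : V} (hw : w ≠ c) : G.Adj w (par w) :=
  (h.adj _ _).2 (Or.inl ⟨hw, rfl⟩)

theorem PS.not_desc_par (h : PS G c par pos) {w : V} (hw : w ≠ c) : ¬ Desc par w (par w) :=
  fun hd => absurd (h.desc_le hd) (not_le.2 (h.step w hw))

theorem PS.not_desc_root (h : PS G c par pos) {w : V} (hw : w ≠ c) : ¬ Desc par w c := by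
  rintro ⟨k, hk⟩
  rw [Function.iterate_fixed h.pc] at hk
  exact hw hk.symm

theorem PS.isTree (h : PS G c par pos) : G.IsTree := by
  have hr : ∀ n w, pos w = n → G.Reachable w c := by
    intro n
    induction n using Nat.strong_induction_on with
    | _ n ih =>
      intro w hw
      by_cases e : w = c
      · rw [e]
      · exact (h.adj_par e).reachable.trans (ih _ (hw ▸ h.step w e) _ rfl)
  have hb : ∀ w, w ≠ c → G.IsBridge s(w, par w) := by
    intro w hw
    rw [SimpleGraph.isBridge_iff, SimpleGraph.reachable_iff_reflTransGen]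
    intro hh
    have := h.sep (R := (G.deleteEdges {s(w, par w)}).Adj)
      (fun a b hab => (SimpleGraph.deleteEdges_adj.1 hab).1) ⟨0, rfl⟩ (h.not_desc_par hw) hh
    simp at this
  have : Nonempty V := ⟨c⟩
  refine ⟨⟨fun u v => (hr _ u rfl).trans (hr _ v rfl).symm⟩, ?_⟩
  rw [SimpleGraph.isAcyclic_iff_forall_adj_isBridge]
  intro u v huv
  rcases (h.adj u v).1 huv with ⟨hu, rfl⟩ | ⟨hv, rfl⟩
  · exact hb u hu
  · rw [Sym2.eq_swap]; exact hb v hv

theorem exists_ps (hT : G.IsTree) (c : V) : ∃ (par : V → V) (pos : V → ℕ), PS G c par pos ∧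
    (∀ w, w ≠ c → pos (par w) + 1 = pos w) ∧ pos c = 0 := by
  classical
  choose P hP hU using fun w => hT.existsUnique_path w c
  have hc : P c = SimpleGraph.Walk.nil := (hU c _ SimpleGraph.Walk.IsPath.nil).symm
  have hnil : ∀ w, w ≠ c → ¬ (P w).Nil := fun w hw => SimpleGraph.Walk.not_nil_of_ne hw
  have hs : ∀ w, w ≠ c → (P (P w).snd).length + 1 = (P w).length := by
    intro w hw
    have := hU _ (P w).tail (hP w).tail
    rw [← this]
    exact SimpleGraph.Walk.length_tail_add_one (hnil w hw)
  refine ⟨fun w => (P w).snd, fun w => (P w).length, ⟨?_, ?_, ?_⟩, hs, ?_⟩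
  · show (P c).snd = c
    rw [hc]; rfl
  · intro w hw
    have := hs w hw
    show (P (P w).snd).length < (P w).length
    omega
  · intro u v
    constructor
    · intro huv
      by_cases hv : v ∈ (P u).support
      · left
        refine ⟨?_, (hT.isAcyclic.eq_snd_of_adj_start (hP u) huv hv).symm⟩
        rintro rfl
        rw [hc] at hv
        simp only [SimpleGraph.Walk.support_nil, List.mem_singleton] at hv
        exact huv.ne hv.symm
      · right
        refine ⟨?_, ?_⟩
        · rintro rfl
          exact hv (P u).end_mem_support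
        · have := hU v (SimpleGraph.Walk.cons huv.symm (P u)) ((hP u).cons hv)
          show (P v).snd = u
          rw [← this]; simp
    · rintro (⟨hu, rfl⟩ | ⟨hv, rfl⟩)
      · exact SimpleGraph.Walk.adj_snd (hnil u hu)
      · exact (SimpleGraph.Walk.adj_snd (hnil v hv)).symm
  · show (P c).length = 0
    rw [hc]; rfl

theorem ray_tree {e : ℕ ≃ V} (he : ∀ i j, G.Adj (e i) (e j) ↔ (i + 1 = j ∨ j + 1 = i)) :
    G.IsTree := by
  refine PS.isTree (c := e 0) (par := fun w => e (e.symm w - 1)) (pos := fun w => e.symm w)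
    ⟨by simp, ?_, ?_⟩
  · intro w hw
    obtain ⟨i, rfl⟩ := e.surjective w
    have : i ≠ 0 := fun h => hw (by rw [h])
    simp only [Equiv.symm_apply_apply]
    omega
  · intro u v
    obtain ⟨i, rfl⟩ := e.surjective u
    obtain ⟨j, rfl⟩ := e.surjective v
    rw [he]
    simp only [Equiv.symm_apply_apply, ne_eq, EmbeddingLike.apply_eq_iff_eq]
    omega

theorem ray_rtg {e : ℕ ≃ V} (he : ∀ i j, G.Adj (e i) (e j) ↔ (i + 1 = j ∨ j + 1 = i))
    (l : V → ℝ) (r : ℝ) {i j : ℕ} (hij : i < j) :
    ReflTransGen (E G l r) (e i) (e j) ↔ ∀ k, i ≤ k → k ≤ j → l (e k) ≤ r := by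
  constructor
  · intro h
    have key : ∀ v, ReflTransGen (E G l r) (e i) v →
        v = e i ∨ ∀ k, i ≤ k → (k ≤ e.symm v ∨ k = i) → l (e k) ≤ r := by
      intro v hv
      induction hv with
      | refl => exact Or.inl rfl
      | @tail a b _ h2 ih =>
        right
        obtain ⟨s, rfl⟩ := e.surjective a
        obtain ⟨t, rfl⟩ := e.surjective b
        have hst := (he s t).1 h2.1
        simp only [Equiv.symm_apply_apply] at ih ⊢
        intro k hk hk'
        by_cases e1 : k = t
        · rw [e1]; exact h2.2.2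
        by_cases e2 : k = s
        · rw [e2]; exact h2.2.1
        rcases ih with ih | ih
        · have := e.injective ih
          omega
        · exact ih k hk (by omega)
    rcases key _ h with h' | h'
    · have := e.injective h'
      omega
    · intro k h1 h2
      exact h' k h1 (Or.inl (by simpa using h2))
  · intro h
    have key : ∀ t, i ≤ t → t ≤ j → ReflTransGen (E G l r) (e i) (e t) := by
      intro t ht
      induction t, ht using Nat.le_induction with
      | base => exact fun _ => ReflTransGen.refl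
      | succ t ht ih =>
        intro h2
        exact (ih (by omega)).tail ⟨(he _ _).2 (Or.inl rfl), h t ht (by omega),
          h (t + 1) (by omega) h2⟩
    exact key j hij.le le_rfl

end

end Pool.Agent.H15.UR
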