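import Mathlib
import Pool.Agent.H15.UR1
set_option autoImplicit false

namespace Pool.Agent.H15.UR

open Relation Filter Topology

universe u

theorem dist_of_rtg {X : Type u} [MetricSpace X] [IsUltrametricDist X] {R : X → X → Prop} {r : ℝ}
    (hR : ∀ a b, R a b → dist a b ≤ r) {u v : X} (h : ReflTransGen R u v) :
    u = v ∨ dist u v ≤ r := by
  induction h with
  | refl => exact Or.inl rfl
  | tail _ h2 ih =>
    right
    rcases ih with rfl | ih
    · exact hR _ _ h2
    · exact (IsUltrametricDist.dist_triangle_max _ _ _).trans (max_le ih (hR _ _ h2))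

theorem forward_core {X : Type u} [MetricSpace X] [IsUltrametricDist X] (x : ℕ → X)
    (hx : Function.Injective x) (a : ℕ → ℝ) (ha : ∀ k, 0 ≤ a k)
    (hd : ∀ i j, i < j → ∀ r, dist (x i) (x j) ≤ r ↔ ∀ k, i ≤ k → k ≤ j → a k ≤ r)
    (hne : Set.range x ≠ Set.univ) (htb : TotallyBounded (Set.range x)) [CompleteSpace X]
    (hden : Dense (Set.range x)) :
    CompactSpace X ∧ ∃ (T : SimpleGraph X) (l : X → ℝ), Starlike T ∧ Rayless T ∧
      GenBy dist T l := by
  classical
  have hfin : ∀ ε, 0 < ε → {k | ε < a k}.Finite := by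
    intro ε hε
    by_contra hinf
    obtain ⟨t, ht, hcov⟩ := Metric.totallyBounded_iff.1 htb ε hε
    have : ∀ k, ∃ y ∈ t, dist (x k) y < ε := by
      intro k
      have := hcov ⟨k, rfl⟩
      simpa using this
    choose f hf hf' using this
    obtain ⟨i, hi, j, hj, hij, e⟩ := Set.Infinite.exists_lt_map_eq_of_mapsTo (f := f) (t := t)
      hinf (fun k _ => hf k) ht
    have h1 : dist (x i) (x j) ≤ ε := by
      refine (IsUltrametricDist.dist_triangle_max _ (f i) _).trans (max_le (hf' i).le ?_)
      rw [e, dist_comm]; exact (hf' j).le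
    exact absurd ((hd i j hij ε).1 h1 i le_rfl hij.le) (not_le.2 hi)
  have hev : ∀ ε, 0 < ε → ∃ N, ∀ k, N ≤ k → a k ≤ ε := by
    intro ε hε
    obtain ⟨N, hN⟩ := (hfin ε hε).bddAbove
    refine ⟨N + 1, fun k hk => ?_⟩
    by_contra hh
    have := hN (show k ∈ {k | ε < a k} from not_le.1 hh)
    omega
  have hcau : CauchySeq x := by
    rw [Metric.cauchySeq_iff']
    intro ε hε
    obtain ⟨N, hN⟩ := hev (ε / 2) (by linarith)
    refine ⟨N, fun n hn => ?_⟩
    rcases hn.eq_or_lt with e | hlt
    · rw [← e]; simpa using hε
    · rw [dist_comm]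
      have := (hd N n hlt (ε / 2)).2 fun k hk _ => hN k hk
      linarith
  obtain ⟨c, hc⟩ := cauchySeq_tendsto_of_complete hcau
  have hcomp := hc.isCompact_insert_range
  have huniv : insert c (Set.range x) = Set.univ := by
    rw [← hcomp.isClosed.closure_eq]
    exact (hden.mono (Set.subset_insert _ _)).closure_eq
  have hcx : ∀ k, x k ≠ c := by
    intro k e
    apply hne
    rw [← huniv, Set.insert_eq_of_mem (show c ∈ Set.range x from ⟨k, e⟩)]
  have hcases : ∀ w, w = c ∨ ∃ k, w = x k := by
    intro w
    have : w ∈ insert c (Set.range x) := by rw [huniv]; trivial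
    rcases this with h | ⟨k, h⟩
    · exact Or.inl h
    · exact Or.inr ⟨k, h.symm⟩
  refine ⟨⟨by rw [← huniv]; exact hcomp⟩, ?_⟩
  have hdc : ∀ i r, dist (x i) c ≤ r ↔ ∀ k, i ≤ k → a k ≤ r := by
    intro i r
    constructor
    · intro h k hk
      have hr : 0 < r := lt_of_lt_of_le (dist_pos.2 (hcx i)) h
      obtain ⟨N, hN⟩ := Metric.tendsto_atTop.1 hc r hr
      have h1 : dist (x i) (x (N + k + 1)) ≤ r := by
        refine (IsUltrametricDist.dist_triangle_max _ c _).trans (max_le h ?_)
        rw [dist_comm]; exact (hN _ (by omega)).le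
      exact (hd i (N + k + 1) (by omega) r).1 h1 k hk (by omega)
    · intro h
      have ht : Tendsto (fun j => dist (x i) (x j)) atTop (𝓝 (dist (x i) c)) :=
        tendsto_const_nhds.dist hc
      refine le_of_tendsto ht ?_
      filter_upwards [eventually_gt_atTop i] with j hj
      exact (hd i j hj r).2 fun k hk _ => h k hk
  -- records
  let P : ℕ → Prop := fun k => ∀ j, k ≤ j → a j ≤ a k
  have hrec : ∀ i, ∃ n, P (i + n) := by
    intro i
    by_cases h0 : P i
    · exact ⟨0, h0⟩
    · simp only [P, not_forall, not_le] at h0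
      obtain ⟨j, hj, hlt⟩ := h0
      have hpos : 0 < a j / 2 := by linarith [ha i]
      have hF2 : ({k | a j / 2 < a k} ∩ {k | i ≤ k}).Finite := (hfin _ hpos).inter_of_left _
      obtain ⟨m, hm, hmax⟩ := Set.exists_max_image _ a hF2 ⟨j, by
        constructor
        · show a j / 2 < a j
          linarith
        · exact hj⟩
      refine ⟨m - i, ?_⟩
      have e : i + (m - i) = m := by have : i ≤ m := hm.2; omega
      rw [e]
      intro t ht
      by_cases hh : a j / 2 < a t
      · exact hmax t ⟨hh, le_trans hm.2 ht⟩
      · have : a j / 2 < a m := hm.1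
        linarith [not_lt.1 hh]
  let idx : X → ℕ := Function.invFun x
  have hidx : ∀ k, idx (x k) = k := Function.leftInverse_invFun hx
  let par : X → X := fun w => if w = c then c else if P (idx w) then c else x (idx w + 1)
  have par1 : ∀ k, P k → par (x k) = c := fun k h => by simp [par, hidx, h]
  have par2 : ∀ k, ¬ P k → par (x k) = x (k + 1) := fun k h => by simp [par, hidx, h, hcx]
  have parc : par c = c := by simp [par]
  let pos : X → ℕ := fun w => if w = c then 0 else Nat.find (hrec (idx w)) + 1
  have hstep : ∀ w, w ≠ c → pos (par w) < pos w := by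
    intro w hw
    rcases hcases w with e | ⟨k, rfl⟩
    · exact absurd e hw
    · by_cases hP : P k
      · rw [par1 k hP]; simp [pos, hcx]
      · rw [par2 k hP]
        simp only [pos, hcx, if_false, hidx]
        have h1 := Nat.find_spec (hrec k)
        have h2 : Nat.find (hrec k) ≠ 0 := by
          intro e; rw [e] at h1; exact hP h1
        have h3 : Nat.find (hrec (k + 1)) ≤ Nat.find (hrec k) - 1 := by
          apply Nat.find_le
          have : k + 1 + (Nat.find (hrec k) - 1) = k + Nat.find (hrec k) := by omega
          rw [this]; exact h1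
        omega
  let T : SimpleGraph X :=
    { Adj := fun u v => (u ≠ c ∧ par u = v) ∨ (v ≠ c ∧ par v = u)
      symm := ⟨fun _ _ h => h.symm⟩
      loopless := ⟨fun u h => by
        rcases h with ⟨h, e⟩ | ⟨h, e⟩ <;>
        · have := hstep u h
          rw [e] at this
          exact lt_irrefl _ this⟩ }
  have hps : PS T c par pos := ⟨parc, hstep, fun _ _ => Iff.rfl⟩
  let l : X → ℝ := fun w => if w = c then 0 else a (idx w)
  have lc : l c = 0 := by simp [l]
  have lx : ∀ k, l (x k) = a k := fun k => by simp [l, hcx, hidx]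
  have adjx : ∀ i j, T.Adj (x i) (x j) → (j = i + 1 ∧ ¬ P i) ∨ (i = j + 1 ∧ ¬ P j) := by
    intro i j h
    have aux : ∀ i j, par (x i) = x j → (j = i + 1 ∧ ¬ P i) := by
      intro i j h
      by_cases hP : P i
      · rw [par1 i hP] at h; exact absurd h.symm (hcx j)
      · rw [par2 i hP] at h; exact ⟨(hx h).symm, hP⟩
    rcases h with ⟨_, h⟩ | ⟨_, h⟩
    · exact Or.inl (aux _ _ h)
    · exact Or.inr (aux _ _ h)
  refine ⟨T, l, ⟨c, ?_, ?_⟩, ?_, genBy_iff.2 ⟨hps.isTree, ?_, ?_⟩⟩
  · have hinf : (T.neighborSet c).Infinite := by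
      have h1 : {k | P k}.Infinite := by
        apply Set.infinite_of_not_bddAbove
        rintro ⟨N, hN⟩
        obtain ⟨n, hn⟩ := hrec (N + 1)
        have := hN (show N + 1 + n ∈ {k | P k} from hn)
        omega
      refine (h1.image hx.injOn).mono ?_
      rintro _ ⟨k, hk, rfl⟩
      exact Or.inr ⟨hcx k, par1 k hk⟩
    show 2 < (T.neighborSet c).encard
    rw [hinf.encard_eq]
    exact ENat.natCast_lt_top 2
  · intro w hw
    rcases hcases w with e | ⟨k, rfl⟩
    · exact e
    · exfalso
      have hsub : T.neighborSet (x k) ⊆ {par (x k), x (k - 1)} := by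
        intro v hv
        rcases hv with ⟨_, h⟩ | ⟨hv, h⟩
        · exact Or.inl h.symm
        · right
          rcases hcases v with e | ⟨j, rfl⟩
          · exact absurd e hv
          · by_cases hP : P j
            · rw [par1 j hP] at h; exact absurd h.symm (hcx k)
            · rw [par2 j hP] at h
              have := hx h
              show x j = x (k - 1)
              congr 1; omega
      have h2 : (T.neighborSet (x k)).encard ≤ 2 :=
        (Set.encard_le_encard hsub).trans (by
          refine (Set.encard_insert_le _ _).trans ?_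
          rw [Set.encard_singleton]; rfl)
      exact absurd hw (not_lt.2 h2)
  · rintro ⟨f, hf, hadj⟩
    obtain ⟨N, hN⟩ : ∃ N, ∀ n, N ≤ n → f n ≠ c := by
      by_cases h : ∃ m, f m = c
      · obtain ⟨m, hm⟩ := h
        refine ⟨m + 1, fun n hn e => ?_⟩
        have := hf (e.trans hm.symm)
        omega
      · exact ⟨0, fun n _ e => h ⟨n, e⟩⟩
    have hfx : ∀ n, N ≤ n → f n = x (idx (f n)) := by
      intro n hn
      rcases hcases (f n) with e | ⟨k, e⟩
      · exact absurd e (hN n hn)
      · rw [e, hidx]
    obtain ⟨m, hm⟩ := hrec (idx (f N))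
    have hb : ∀ n, N ≤ n → idx (f n) ≤ idx (f N) + m := by
      intro n hn
      induction n, hn using Nat.le_induction with
      | base => omega
      | succ n hn ih =>
        have h1 := hadj n
        rw [hfx n hn, hfx (n + 1) (by omega)] at h1
        rcases adjx _ _ h1 with ⟨h2, h3⟩ | ⟨h2, _⟩
        · have : idx (f n) ≠ idx (f N) + m := fun e => h3 (e ▸ hm)
          omega
        · omega
    obtain ⟨i, hi, j, hj, hij, e⟩ := Set.Infinite.exists_lt_map_eq_of_mapsTo
      (f := fun n => idx (f n)) (t := Set.Iic (idx (f N) + m)) (Set.Ici_infinite N)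
      (fun n hn => hb n hn) (Set.finite_Iic _)
    have : f i = f j := by rw [hfx i hi, hfx j hj]; exact congrArg x e
    have := hf this
    omega
  · intro w
    rcases hcases w with rfl | ⟨k, rfl⟩
    · rw [lc]
    · rw [lx]; exact ha k
  · have toc : ∀ r n i, P (i + n) → (∀ k, i ≤ k → a k ≤ r) → ReflTransGen (E T l r) (x i) c := by
      intro r n
      induction n with
      | zero =>
        intro i hP h
        exact ReflTransGen.single ⟨Or.inl ⟨hcx i, par1 i hP⟩, by rw [lx]; exact h i le_rfl,
          by rw [lc]; exact (ha i).trans (h i le_rfl)⟩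
      | succ n ih =>
        intro i hP h
        by_cases hPi : P i
        · exact ReflTransGen.single ⟨Or.inl ⟨hcx i, par1 i hPi⟩, by rw [lx]; exact h i le_rfl,
            by rw [lc]; exact (ha i).trans (h i le_rfl)⟩
        · refine ReflTransGen.head (b := x (i + 1)) ⟨Or.inl ⟨hcx i, par2 i hPi⟩,
            by rw [lx]; exact h i le_rfl, by rw [lx]; exact h _ (by omega)⟩ ?_
          refine ih (i + 1) ?_ fun k hk => h k (by omega)
          have : i + 1 + n = i + (n + 1) := by omega
          rw [this]; exact hP
    have toc' : ∀ r i, (∀ k, i ≤ k → a k ≤ r) → ReflTransGen (E T l r) (x i) c := by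
      intro r i h
      obtain ⟨n, hn⟩ := hrec i
      exact toc r n i hn h
    have xx : ∀ r i j, i < j → dist (x i) (x j) ≤ r → ReflTransGen (E T l r) (x i) (x j) := by
      intro r i j hij h
      have h1 := (hd i j hij r).1 h
      by_cases hP : ∃ k, i ≤ k ∧ k < j ∧ P k
      · obtain ⟨k, hk1, hk2, hk⟩ := hP
        have h2 : ∀ t, i ≤ t → a t ≤ r := by
          intro t ht
          by_cases htj : t ≤ j
          · exact h1 t ht htj
          · exact (hk t (by omega)).trans (h1 k hk1 hk2.le)
        exact (toc' r i h2).trans (rtg_symm (toc' r j fun t ht => h2 t (by omega)))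
      · have key : ∀ t, i ≤ t → t ≤ j → ReflTransGen (E T l r) (x i) (x t) := by
          intro t ht
          induction t, ht using Nat.le_induction with
          | base => exact fun _ => ReflTransGen.refl
          | succ t ht ih =>
            intro h2
            refine (ih (by omega)).tail ⟨Or.inl ⟨hcx t, par2 t fun hh => hP ⟨t, ht, h2, hh⟩⟩,
              by rw [lx]; exact h1 t ht (by omega), by rw [lx]; exact h1 _ (by omega) h2⟩
        exact key j hij.le le_rfl
    intro u v huv r
    constructor
    · intro h
      rcases hcases u with rfl | ⟨i, rfl⟩ <;> rcases hcases v with e | ⟨j, rfl⟩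
      · exact absurd e.symm huv
      · rw [dist_comm] at h
        exact rtg_symm (toc' r j ((hdc j r).1 h))
      · subst e
        exact toc' r i ((hdc i r).1 h)
      · rcases lt_trichotomy i j with hij | hij | hij
        · exact xx r i j hij h
        · exact absurd (congrArg x hij) huv
        · rw [dist_comm] at h
          exact rtg_symm (xx r j i hij h)
    · intro h
      have aux : ∀ p q, p ≠ c → par p = q → l p ≤ r → l q ≤ r → dist p q ≤ r := by
        intro p q hp e h1 h2
        rcases hcases p with e' | ⟨k, rfl⟩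
        · exact absurd e' hp
        · rw [lx] at h1
          by_cases hP : P k
          · rw [par1 k hP] at e
            subst e
            exact (hdc k r).2 fun t ht => (hP t ht).trans h1
          · rw [par2 k hP] at e
            subst e
            rw [lx] at h2
            refine (hd k (k + 1) (by omega) r).2 fun t h3 h4 => ?_
            rcases (show t = k ∨ t = k + 1 by omega) with rfl | rfl
            · exact h1
            · exact h2
      refine (dist_of_rtg ?_ h).resolve_left huv
      rintro p q ⟨⟨hp, e⟩ | ⟨hq, e⟩, h1, h2⟩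
      · exact aux p q hp e h1 h2
      · rw [dist_comm]; exact aux q p hq e h2 h1

theorem forward {X : Type u} [MetricSpace X] [IsUltrametricDist X] (X0 : Set X)
    (hne : X0 ≠ Set.univ) (htb : TotallyBounded X0) [CompleteSpace X] (hden : Dense X0)
    (R : SimpleGraph X0) (l : X0 → ℝ) (hR : IsRay R)
    (hG : GenBy (fun a b : X0 => dist (a : X) b) R l) :
    CompactSpace X ∧ ∃ (T : SimpleGraph X) (l : X → ℝ), Starlike T ∧ Rayless T ∧
      GenBy dist T l := by
  obtain ⟨e, he⟩ := hR
  obtain ⟨-, h0, hg⟩ := genBy_iff.1 hG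
  have hr : Set.range (fun k => (e k : X)) = X0 := by
    ext w
    constructor
    · rintro ⟨k, rfl⟩; exact (e k).2
    · intro hw; exact ⟨e.symm ⟨w, hw⟩, by simp⟩
  refine forward_core (fun k => (e k : X)) (Subtype.val_injective.comp e.injective)
    (fun k => l (e k)) (fun k => h0 _) ?_ (by rw [hr]; exact hne) (by rw [hr]; exact htb)
    (by rw [hr]; exact hden)
  intro i j hij r
  rw [← ray_rtg he l r hij]
  exact hg (e i) (e j) (fun h => hij.ne (e.injective h)) r

end Pool.Agent.H15.UR
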