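import Mathlib
import Pool.Agent.H15.UR2
set_option autoImplicit false

namespace Pool.Agent.H15.UR

open Relation Filter Topology

universe u

theorem enum {α β : Type*} [Infinite α] [LinearOrder β] (key : α → β)
    (hi : Function.Injective key) (hf : ∀ a, {b | key b < key a}.Finite) :
    ∃ e : ℕ ≃ α, StrictMono (fun k => key (e k)) := by
  classical
  let _ : LinearOrder α := LinearOrder.lift' key hi
  have hN : StrictMono (fun a : α => {b | key b < key a}.ncard) := by
    intro a b hab
    refine Set.ncard_lt_ncard ⟨fun x hx => lt_trans hx hab, fun h => ?_⟩ (hf b)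
    exact lt_irrefl _ (h (show a ∈ {x | key x < key b} from hab))
  have : Infinite (Set.range (fun a : α => {b | key b < key a}.ncard)) :=
    (Set.infinite_range_of_injective hN.injective).to_subtype
  let e := (Nat.Subtype.orderIsoOfNat (Set.range (fun a : α => {b | key b < key a}.ncard))).trans
    (StrictMono.orderIso _ hN).symm
  exact ⟨e.toEquiv, fun i j hij => e.strictMono hij⟩

theorem backward {X : Type u} [MetricSpace X] [IsUltrametricDist X] [Infinite X] [CompactSpace X]
    (T : SimpleGraph X) (l : X → ℝ) (hS : Starlike T) (hG : GenBy dist T l) :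
    ∃ X0 : Set X, X0 ≠ Set.univ ∧ TotallyBounded X0 ∧ Dense X0 ∧
      ∃ (R : SimpleGraph X0) (l : X0 → ℝ), IsRay R ∧
        GenBy (fun a b : X0 => dist (a : X) b) R l := by
  classical
  obtain ⟨c, -, hc⟩ := hS
  obtain ⟨hT, l0, hg⟩ := genBy_iff.1 hG
  obtain ⟨par, pos, hps, hst, p0⟩ := exists_ps hT c
  have hdeg : ∀ w, w ≠ c → (T.neighborSet w).encard ≤ 2 :=
    fun w hw => not_lt.1 fun h => hw (hc w h)
  have edge : ∀ r a b, E T l r a b → dist a b ≤ r :=
    fun r a b h => (hg a b h.1.ne r).2 (ReflTransGen.single h)
  have first : ∀ u v, u ≠ v → ∃ b, E T l (dist u v) u b := by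
    intro u v huv
    rcases ((hg u v huv _).1 le_rfl).cases_head with e | ⟨b, hb, _⟩
    · exact absurd e huv
    · exact ⟨b, hb⟩
  have lle : ∀ u v, u ≠ v → l u ≤ dist u v := by
    intro u v huv
    obtain ⟨b, hb⟩ := first u v huv
    exact hb.2.1
  have iso : ∀ w, w ≠ c → {w} ∈ 𝓝 w := by
    intro w hw
    have hN : (T.neighborSet w).Finite :=
      Set.finite_of_encard_le_coe (k := 2) (hdeg w hw)
    obtain ⟨ε, hε, hb⟩ := Metric.mem_nhds_iff.1
      (hN.isClosed.isOpen_compl.mem_nhds (show w ∈ (T.neighborSet w)ᶜ by simp))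
    refine Metric.mem_nhds_iff.2 ⟨ε, hε, fun v hv => ?_⟩
    by_contra hne
    have hne' : w ≠ v := fun e => hne e.symm
    obtain ⟨b, hb'⟩ := first w v hne'
    refine hb (show b ∈ Metric.ball w ε from ?_) hb'.1
    rw [Metric.mem_ball, dist_comm] at hv ⊢
    exact (edge _ _ _ hb').trans_lt hv
  have fin : ∀ ε, 0 < ε → {w | ε ≤ dist w c}.Finite := by
    intro ε hε
    have hcl : IsClosed {w | ε ≤ dist w c} :=
      isClosed_le continuous_const (continuous_id.dist continuous_const)
    obtain ⟨t, -, ht⟩ := hcl.isCompact.elim_nhds_subcover (fun x => {x}) (fun x hx => iso x (by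
      rintro rfl
      simp only [Set.mem_ofPred_eq, dist_self] at hx
      linarith))
    refine t.finite_toSet.subset fun x hx => ?_
    simpa using ht hx
  have acc : ∀ ε, 0 < ε → ∃ w, w ≠ c ∧ dist w c < ε := by
    intro ε hε
    by_contra hh
    push Not at hh
    refine Set.infinite_univ (((fin ε hε).insert c).subset fun w _ => ?_)
    by_cases e : w = c
    · exact Or.inl e
    · exact Or.inr (hh w e)
  have lc : l c = 0 := by
    refine le_antisymm (le_of_forall_pos_le_add fun ε hε => ?_) (l0 c)
    obtain ⟨w, hw, h⟩ := acc ε hε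
    have := lle c w hw.symm
    rw [dist_comm] at this
    linarith
  have lh : ∀ w, l w ≤ dist w c := by
    intro w
    by_cases e : w = c
    · rw [e, lc, dist_self]
    · exact lle w c e
  have hpar : ∀ w, dist (par w) c ≤ dist w c := by
    intro w
    by_cases e : w = c
    · rw [e, hps.pc]
    · have h1 := hps.sep (R := E T l (dist w c)) (fun a b h => h.1) ⟨0, rfl⟩ (hps.not_desc_root e)
        ((hg w c e _).1 le_rfl)
      refine (IsUltrametricDist.dist_triangle_max _ w _).trans (max_le ?_ le_rfl)
      exact edge _ _ _ h1.symm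
  have hdesc : ∀ w u, Desc par w u → dist w c ≤ dist u c := by
    rintro w u ⟨k, rfl⟩
    induction k with
    | zero => exact le_rfl
    | succ k ih => rw [Function.iterate_succ_apply']; exact (hpar _).trans ih
  have inner : ∀ n u, pos u = n → u ≠ c →
      ∃ w, w ≠ c ∧ Desc par w u ∧ l w = dist u c ∧ dist w c = dist u c := by
    intro n
    induction n using Nat.strong_induction_on with
    | _ n ih =>
      intro u hn hu
      rcases (lh u).eq_or_lt with e | hlt
      · exact ⟨u, hu, ⟨0, rfl⟩, e, rfl⟩
      · have h1 : dist u (par u) ≤ max (l u) (dist (par u) c) :=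
          edge _ _ _ ⟨hps.adj_par hu, le_max_left _ _, (lh _).trans (le_max_right _ _)⟩
        have h2 : dist u c ≤ max (l u) (dist (par u) c) :=
          (IsUltrametricDist.dist_triangle_max _ (par u) _).trans (max_le h1 (le_max_right _ _))
        have h3 : dist u c ≤ dist (par u) c := (le_max_iff.1 h2).resolve_left (not_le.2 hlt)
        have h4 : dist (par u) c = dist u c := le_antisymm (hpar u) h3
        have h5 : par u ≠ c := by
          intro e
          rw [e, dist_self] at h3
          exact absurd (dist_pos.2 hu) (not_lt.2 h3)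
        obtain ⟨w, hw, ⟨k, hk⟩, h6, h7⟩ := ih _ (hn ▸ hps.step u hu) _ rfl h5
        exact ⟨w, hw, ⟨k + 1, hk⟩, h6.trans h4, h7.trans h4⟩
  have pne : ∀ w, w ≠ c ↔ pos w ≠ 0 := by
    intro w
    constructor
    · intro hw; have := hst w hw; omega
    · rintro h rfl; exact h p0
  have piter : ∀ k u, k ≤ pos u → pos (par^[k] u) = pos u - k := by
    intro k
    induction k with
    | zero => intro u _; rfl
    | succ k ih =>
      intro u hk
      have := hst u ((pne u).2 (by omega))
      rw [Function.iterate_succ_apply, ih _ (by omega)]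
      omega
  let leg : X → X := fun w => par^[pos w - 1] w
  have legp : ∀ w, par w ≠ c → leg (par w) = leg w := by
    intro w hw
    have hw' : w ≠ c := by rintro rfl; exact hw hps.pc
    have h1 := hst w hw'
    have h2 := (pne _).1 hw
    show par^[pos (par w) - 1] (par w) = par^[pos w - 1] w
    rw [show pos w - 1 = (pos (par w) - 1) + 1 by omega]
    rfl
  have legd : ∀ w u, w ≠ c → Desc par w u → leg u = leg w := by
    rintro w u hw ⟨k, hk⟩
    induction k generalizing u with
    | zero => exact congrArg leg hk
    | succ k ih =>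
      rw [Function.iterate_succ_apply] at hk
      have : par u ≠ c := fun e => hps.not_desc_root hw ⟨k, by rw [← e]; exact hk⟩
      rw [← legp u this]
      exact ih _ hk
  have child : ∀ u v, u ≠ c → v ≠ c → par u ≠ c → par u = par v → u = v := by
    intro u v hu hv hp e
    by_contra hne
    have h1 := hps.step u hu
    have h2 := hps.step v hv
    have h3 := hps.step _ hp
    have hsub : ({par (par u), u, v} : Set X) ⊆ T.neighborSet (par u) := by
      rintro x (rfl | rfl | rfl)
      · exact hps.adj_par hp
      · exact (hps.adj_par hu).symm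
      · rw [e]; exact (hps.adj_par hv).symm
    have h4 : ({par (par u), u, v} : Set X).encard = 3 := by
      rw [Set.encard_eq_three]
      refine ⟨_, _, _, ?_, ?_, hne, rfl⟩
      · intro e'; rw [e'] at h3; omega
      · intro e'; rw [e', e] at h3; omega
    have := (Set.encard_le_encard hsub).trans (hdeg _ hp)
    rw [h4] at this
    exact absurd this (by decide)
  have inj : ∀ n u v, u ≠ c → v ≠ c → pos u = n → pos v = n → leg u = leg v → u = v := by
    intro n
    induction n with
    | zero => intro u v hu _ h _ _; exact absurd h ((pne u).1 hu)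
    | succ n ih =>
      intro u v hu hv h1 h2 hl
      have h3 := hst u hu
      have h4 := hst v hv
      rcases Nat.eq_zero_or_pos n with rfl | hn
      · simpa [leg, h1, h2] using hl
      · have h5 : par u ≠ c := (pne _).2 (by omega)
        have h6 : par v ≠ c := (pne _).2 (by omega)
        exact child u v hu hv h5 (ih _ _ h5 h6 (by omega) (by omega)
          (by rw [legp u h5, legp v h6, hl]))
  have cmp : ∀ u v, v ≠ c → leg u = leg v → pos v ≤ pos u → par^[pos u - pos v] u = v := by
    intro u v hv hl hp
    have h0 := (pne v).1 hv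
    have h1 := piter (pos u - pos v) u (by omega)
    have h2 : par^[pos u - pos v] u ≠ c := (pne _).2 (by omega)
    refine inj (pos v) _ _ h2 hv (by omega) rfl ?_
    rw [← hl, legd _ u h2 ⟨_, rfl⟩]
  let key : X → ℝᵒᵈ ×ₗ (Cardinal.{u} ×ₗ ℕᵒᵈ) := fun w =>
    toLex (OrderDual.toDual (dist w c),
      toLex (embeddingToCardinal (leg w), OrderDual.toDual (pos w)))
  have klt : ∀ u v, key u < key v ↔ dist v c < dist u c ∨ dist u c = dist v c ∧
      (embeddingToCardinal (leg u) < embeddingToCardinal (leg v) ∨
        leg u = leg v ∧ pos v < pos u) := by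
    intro u v
    simp [key, Prod.Lex.toLex_lt_toLex]
  have kle : ∀ u v, key u ≤ key v ↔ dist v c < dist u c ∨ dist u c = dist v c ∧
      (embeddingToCardinal (leg u) < embeddingToCardinal (leg v) ∨
        leg u = leg v ∧ pos v ≤ pos u) := by
    intro u v
    simp [key, Prod.Lex.toLex_le_toLex]
  have main : ∀ u v, u ≠ c → v ≠ c → key u < key v → ∀ r,
      dist u v ≤ r ↔ ∀ w, w ≠ c → key u ≤ key w → key w ≤ key v → l w ≤ r := by
    intro u v hu hv hk r
    have huv : u ≠ v := by rintro rfl; exact lt_irrefl _ hk
    by_cases hA : dist u c = dist v c ∧ leg u = leg v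
    · obtain ⟨hh, hl⟩ := hA
      have hp : pos v < pos u := by
        rcases (klt u v).1 hk with h | ⟨_, h | h⟩
        · rw [hh] at h; exact absurd h (lt_irrefl _)
        · rw [hl] at h; exact absurd h (lt_irrefl _)
        · exact h.2
      have hv' := cmp u v hv hl hp.le
      constructor
      · intro h w hw h1 h2
        have h3 : leg u = leg w ∧ pos w ≤ pos u ∧ pos v ≤ pos w := by
          rw [kle] at h1 h2
          rw [← hh, ← hl] at h2
          rcases h1 with h1 | ⟨e1, h1 | h1⟩ <;> rcases h2 with h2 | ⟨e2, h2 | h2⟩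
          · exact absurd h1 (not_lt.2 h2.le)
          · exact absurd h1 (not_lt.2 e2.ge)
          · exact absurd h1 (not_lt.2 e2.ge)
          · exact absurd h2 (not_lt.2 e1.ge)
          · exact absurd h1 (not_lt.2 h2.le)
          · rw [h2.1] at h1; exact absurd h1 (lt_irrefl _)
          · exact absurd h2 (not_lt.2 e1.ge)
          · rw [h1.1] at h2; exact absurd h2 (lt_irrefl _)
          · exact ⟨h1.1, h1.2, h2.2⟩
        have hw' := cmp u w hw h3.1 h3.2.1
        rcases h3.2.2.eq_or_lt with e | hlt
        · have : w = v := by rw [← hw', ← hv', e]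
          rw [this]
          refine (lle v u huv.symm).trans ?_
          rw [dist_comm]; exact h
        · exact (hps.sep (R := E T l r) (fun a b h => h.1) ⟨_, hw'⟩
            (fun hd => absurd (hps.desc_le hd) (not_le.2 hlt)) ((hg u v huv r).1 h)).2.1
      · intro h
        have h0 := (pne v).1 hv
        have hne : ∀ j, j ≤ pos u - pos v → par^[j] u ≠ c := by
          intro j hj
          have := piter j u (by omega)
          exact (pne _).2 (by omega)
        have hl' : ∀ j, j ≤ pos u - pos v → l (par^[j] u) ≤ r := by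
          intro j hj
          have h1 := piter j u (by omega)
          have h2 := legd _ u (hne j hj) ⟨j, rfl⟩
          have h3 := hdesc _ u ⟨j, rfl⟩
          have h4 := hdesc v (par^[j] u) ⟨pos u - pos v - j, by
            rw [← Function.iterate_add_apply, show pos u - pos v - j + j = pos u - pos v by omega]
            exact hv'⟩
          refine h _ (hne j hj) ((kle _ _).2 (Or.inr ⟨by linarith, Or.inr ⟨h2, by omega⟩⟩))
            ((kle _ _).2 (Or.inr ⟨by linarith, Or.inr ⟨h2.symm.trans hl, by omega⟩⟩))
        have hch : ∀ j, j ≤ pos u - pos v → ReflTransGen (E T l r) u (par^[j] u) := by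
          intro j
          induction j with
          | zero => exact fun _ => ReflTransGen.refl
          | succ j ih =>
            intro hj
            refine (ih (by omega)).tail ⟨?_, hl' j (by omega), hl' _ hj⟩
            rw [Function.iterate_succ_apply']
            exact hps.adj_par (hne j (by omega))
        refine (hg u v huv r).2 ?_
        have := hch _ le_rfl
        rwa [hv'] at this
    · obtain ⟨w0, hw0, hd0, hl0, hh0⟩ := inner _ u rfl hu
      have hleg := legd _ _ hw0 hd0
      have hvu : dist v c ≤ dist u c := by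
        rcases (klt u v).1 hk with h | h
        · exact h.le
        · exact h.1.ge
      have hnd : ¬ Desc par w0 v := by
        intro hd
        refine hA ⟨le_antisymm ?_ hvu, hleg.trans (legd _ _ hw0 hd).symm⟩
        rw [← hh0]; exact hdesc _ _ hd
      have hduv : dist u v = dist u c := by
        refine le_antisymm ((IsUltrametricDist.dist_triangle_max _ c _).trans
          (max_le le_rfl (by rw [dist_comm]; exact hvu))) ?_
        rw [← hl0]
        exact (hps.sep (R := E T l (dist u v)) (fun a b h => h.1) hd0 hnd
          ((hg u v huv _).1 le_rfl)).2.1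
      rw [hduv]
      constructor
      · intro h w _ h1 _
        refine (lh w).trans (le_trans ?_ h)
        rcases (kle u w).1 h1 with h | h
        · exact h.le
        · exact h.1.ge
      · intro h
        rw [← hl0]
        refine h w0 hw0 ((kle _ _).2 (Or.inr ⟨hh0.symm, Or.inr ⟨hleg, hps.desc_le hd0⟩⟩)) ?_
        rw [kle, hh0, ← hleg]
        rcases (klt u v).1 hk with h | ⟨h1, h2 | h2⟩
        · exact Or.inl h
        · exact Or.inr ⟨h1, Or.inl h2⟩
        · exact absurd ⟨h1, h2.1⟩ hA
  have : Infinite ({c}ᶜ : Set X) := (Set.finite_singleton c).infinite_compl.to_subtype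
  obtain ⟨e, he⟩ := enum (fun a : ({c}ᶜ : Set X) => key a) (by
      intro a b hab
      have h1 := (kle a b).1 hab.le
      have h2 := (kle b a).1 hab.ge
      apply Subtype.ext
      rcases h1 with h1 | ⟨e1, h1 | h1⟩ <;> rcases h2 with h2 | ⟨e2, h2 | h2⟩
      · exact absurd h1 (not_lt.2 h2.le)
      · exact absurd h1 (not_lt.2 e2.ge)
      · exact absurd h1 (not_lt.2 e2.ge)
      · exact absurd h2 (not_lt.2 e1.ge)
      · exact absurd h1 (not_lt.2 h2.le)
      · rw [h2.1] at h1; exact absurd h1 (lt_irrefl _)
      · exact absurd h2 (not_lt.2 e1.ge)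
      · rw [h1.1] at h2; exact absurd h2 (lt_irrefl _)
      · exact inj _ _ _ a.2 b.2 rfl (le_antisymm h1.2 h2.2) h1.1) (by
      intro a
      refine ((fin _ (dist_pos.2 a.2)).preimage Subtype.val_injective.injOn).subset ?_
      intro b hb
      rcases (klt _ _).1 hb with h | h
      · exact h.le
      · exact h.1.ge)
  let R : SimpleGraph ({c}ᶜ : Set X) :=
    { Adj := fun a b => e.symm a + 1 = e.symm b ∨ e.symm b + 1 = e.symm a
      symm := ⟨fun _ _ h => h.symm⟩
      loopless := ⟨fun a h => by omega⟩ }
  have hR : ∀ i j, R.Adj (e i) (e j) ↔ (i + 1 = j ∨ j + 1 = i) := by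
    intro i j
    simp [R]
  refine ⟨{c}ᶜ, ?_, isCompact_univ.totallyBounded.subset (Set.subset_univ _), ?_, R,
    fun a => l a, ⟨e, hR⟩, genBy_iff.2 ⟨ray_tree hR, fun a => l0 a, ?_⟩⟩
  · intro h
    have : c ∈ ({c}ᶜ : Set X) := by rw [h]; trivial
    exact this rfl
  · intro x
    by_cases hx : x = c
    · rw [hx, Metric.mem_closure_iff]
      intro ε hε
      obtain ⟨w, hw, h⟩ := acc ε hε
      exact ⟨w, hw, by rw [dist_comm]; exact h⟩
    · exact subset_closure hx
  · have aux : ∀ i j, i < j → ∀ r, dist (e i : X) (e j) ≤ r ↔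
        ReflTransGen (E R (fun a => l a) r) (e i) (e j) := by
      intro i j hij r
      rw [ray_rtg hR _ r hij, main _ _ (e i).2 (e j).2 (he hij)]
      constructor
      · intro h k h1 h2
        exact h _ (e k).2 (he.monotone h1) (he.monotone h2)
      · intro h w hw h1 h2
        obtain ⟨k, hk⟩ := e.surjective ⟨w, hw⟩
        have hk' : w = (e k : X) := by rw [hk]
        rw [hk'] at h1 h2 ⊢
        exact h k (he.le_iff_le.1 h1) (he.le_iff_le.1 h2)
    intro a b hab r
    obtain ⟨i, rfl⟩ := e.surjective a
    obtain ⟨j, rfl⟩ := e.surjective b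
    rcases lt_trichotomy i j with hij | hij | hij
    · exact aux i j hij r
    · exact absurd (congrArg e hij) hab
    · show dist (e i : X) (e j) ≤ r ↔ _
      rw [dist_comm, aux j i hij r]
      exact ⟨rtg_symm, rtg_symm⟩

end Pool.Agent.H15.UR
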