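import Mathlib

set_option autoImplicit false

namespace Pool.Agent.H15.WC

open Set

variable {X : Type*} [TopologicalSpace X]

def Dec (r : X → X → Prop) (D : Set X) : Prop := ∀ z x, r z x → x ∈ D → z ∈ D
def Inc (r : X → X → Prop) (D : Set X) : Prop := ∀ z x, r x z → x ∈ D → z ∈ D

def Nrm (r : X → X → Prop) : Prop :=
  ∀ A B : Set X, IsClosed A → Dec r A → IsClosed B → Inc r B → Disjoint A B →
    ∃ U V : Set X, IsOpen U ∧ Dec r U ∧ IsOpen V ∧ Inc r V ∧ A ⊆ U ∧ B ⊆ V ∧ Disjoint U V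

/-- Nachbin's separation lemma -/
theorem nachbin (r : X → X → Prop) (hn : Nrm r) (A B : Set X) (hA : IsClosed A) (dA : Dec r A)
    (hB : IsClosed B) (iB : Inc r B) (hAB : Disjoint A B) :
    ∃ f : X → ℝ, Continuous f ∧ (∀ x y, r x y → f x ≤ f y) ∧ (∀ x ∈ A, f x = 0) ∧
      (∀ x ∈ B, f x = 1) ∧ ∀ x, f x ∈ Icc (0:ℝ) 1 := by
  let P : Set X → Set X → Prop := fun c u =>
    Dec r u ∧ ∃ c', IsClosed c' ∧ Dec r c' ∧ c ⊆ c' ∧ c' ⊆ u
  let c : Urysohns.CU P :=
    { C := A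
      U := Bᶜ
      P_C_U := ⟨fun z x h hx hz => hx (iB _ _ h hz), A, hA, dA, subset_rfl,
        hAB.subset_compl_right⟩
      closed_C := hA
      open_U := hB.isOpen_compl
      subset := hAB.subset_compl_right
      hP := by
        rintro c u _ ⟨du, c', hc', dc', h1, h2⟩ hu _
        obtain ⟨U, V, oU, dU, oV, iV, k1, k2, k3⟩ := hn c' uᶜ hc' dc' hu.isClosed_compl
          (fun z x h hx hz => hx (du _ _ h hz)) (disjoint_compl_right.mono_left h2)
        have k4 : closure U ⊆ Vᶜ := closure_minimal k3.subset_compl_right oV.isClosed_compl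
        have k5 : Vᶜ ⊆ u := compl_subset_comm.1 k2
        exact ⟨U, oU, h1.trans k1, k4.trans k5, ⟨dU, c', hc', dc', h1, k1⟩,
          ⟨du, Vᶜ, oV.isClosed_compl, fun z x h hx hz => hx (iV _ _ h hz), k4, k5⟩⟩ }
  have mono : ∀ n (c : Urysohns.CU P) x y, r x y → c.approx n x ≤ c.approx n y := by
    intro n
    induction n with
    | zero =>
      intro c x y h
      by_cases hy : y ∈ c.U
      · have hx : x ∈ c.U := c.P_C_U.1 _ _ h hy
        simp [Urysohns.CU.approx, hx, hy]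
      · rw [c.approx_of_notMem_U 0 hy]; exact c.approx_le_one _ _
    | succ n ih =>
      intro c x y h
      exact midpoint_le_midpoint (ih _ _ _ h) (ih _ _ _ h)
  refine ⟨c.lim, c.continuous_lim, fun x y h => ?_, fun x hx => c.lim_of_mem_C x hx,
    fun x hx => c.lim_of_notMem_U x (fun k => k hx), c.lim_mem_Icc⟩
  exact le_of_tendsto_of_tendsto' (c.tendsto_approx_atTop x) (c.tendsto_approx_atTop y)
    (fun n => mono n c x y h)

def Pre (r : X → X → Prop) : Prop :=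
  (∀ x, r x x) ∧ (∀ x y z, r x y → r y z → r x z) ∧ IsClosed {p : X × X | r p.1 p.2}

def WkC (r : X → X → Prop) : Prop :=
  ∀ x y, r x y → ¬ r y x → ∃ f : X → ℝ, Continuous f ∧ (∀ a b, r a b → f a ≤ f b) ∧ f x < f y

def CMU (r : X → X → Prop) : Prop :=
  ∃ F : Set (X → ℝ), (∀ f ∈ F, Continuous f ∧ ∀ a b, r a b → f a ≤ f b) ∧
    ∀ x y, r x y ↔ ∀ f ∈ F, f x ≤ f y

theorem nrm_of_wc (h : ∀ r : X → X → Prop, Pre r → WkC r) (r : X → X → Prop) (hr : Pre r) :
    Nrm r := by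
  intro A B hA dA hB iB hAB
  rcases A.eq_empty_or_nonempty with rfl | ⟨a, ha⟩
  · exact ⟨∅, univ, isOpen_empty, fun _ _ _ h => h, isOpen_univ, fun _ _ _ _ => trivial,
      subset_rfl, subset_univ _, by simp⟩
  rcases B.eq_empty_or_nonempty with rfl | ⟨b, hb⟩
  · exact ⟨univ, ∅, isOpen_univ, fun _ _ _ _ => trivial, isOpen_empty, fun _ _ _ h => h,
      subset_univ _, subset_rfl, by simp⟩
  have dj : ∀ x, x ∈ A → x ∈ B → False := fun x h1 h2 => disjoint_left.1 hAB h1 h2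
  obtain ⟨f, hf, hm, hlt⟩ := h (fun x y => r x y ∨ x ∈ A ∨ y ∈ B) ⟨fun x => Or.inl (hr.1 x), by
      rintro x y z (h1 | h1 | h1) (h2 | h2 | h2)
      · exact Or.inl (hr.2.1 _ _ _ h1 h2)
      · exact Or.inr (Or.inl (dA _ _ h1 h2))
      · exact Or.inr (Or.inr h2)
      · exact Or.inr (Or.inl h1)
      · exact Or.inr (Or.inl h1)
      · exact Or.inr (Or.inl h1)
      · exact Or.inr (Or.inr (iB _ _ h2 h1))
      · exact (dj _ h2 h1).elim
      · exact Or.inr (Or.inr h2),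
    hr.2.2.union ((hA.preimage continuous_fst).union (hB.preimage continuous_snd))⟩ a b
    (Or.inr (Or.inl ha)) (by
      rintro (k | k | k)
      · exact dj _ ha (iB _ _ k hb)
      · exact dj _ k hb
      · exact dj _ ha k)
  refine ⟨{x | f x < (f a + f b) / 2}, {x | (f a + f b) / 2 < f x},
    isOpen_lt hf continuous_const, fun z x k hx => lt_of_le_of_lt (hm _ _ (Or.inl k)) hx,
    isOpen_lt continuous_const hf, fun z x k hx => lt_of_lt_of_le hx (hm _ _ (Or.inl k)),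
    fun x hx => ?_, fun x hx => ?_, disjoint_left.2 fun x (h1 : f x < _) (h2 : _ < f x) => lt_asymm h1 h2⟩
  · have := hm x a (Or.inr (Or.inl hx))
    show f x < _
    linarith
  · have := hm b x (Or.inr (Or.inr hx))
    show _ < f x
    linarith

theorem sep_of_nrm (r : X → X → Prop) (hr : Pre r) (hn : Nrm r) (x y : X) (h : ¬ r y x) :
    ∃ f : X → ℝ, Continuous f ∧ (∀ a b, r a b → f a ≤ f b) ∧ f x = 0 ∧ f y = 1 ∧
      ∀ x, f x ∈ Icc (0:ℝ) 1 := by
  obtain ⟨f, hf, hm, h0, h1, h2⟩ := nachbin r hn {z | r z x} {z | r y z}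
    (hr.2.2.preimage (f := fun z => (z, x)) (by fun_prop))
    (fun z w k hw => hr.2.1 _ _ _ k hw)
    (hr.2.2.preimage (f := fun z => (y, z)) (by fun_prop))
    (fun z w k hw => hr.2.1 _ _ _ hw k)
    (disjoint_left.2 fun z k1 k2 => h (hr.2.1 _ _ _ k2 k1))
  exact ⟨f, hf, hm, h0 x (hr.1 x), h1 y (hr.1 y), h2⟩

theorem cmu_of_nrm (r : X → X → Prop) (hr : Pre r) (hn : Nrm r) : CMU r := by
  refine ⟨{f | Continuous f ∧ ∀ a b, r a b → f a ≤ f b}, fun f hf => hf,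
    fun x y => ⟨fun h f hf => hf.2 _ _ h, fun h => ?_⟩⟩
  by_contra hn'
  obtain ⟨f, hf, hm, h0, h1, _⟩ := sep_of_nrm r hr hn y x hn'
  have := h f ⟨hf, hm⟩
  linarith

theorem wc_of_cmu (r : X → X → Prop) (h : CMU r) : WkC r := by
  obtain ⟨F, h1, h2⟩ := h
  intro x y _ hn
  rw [h2] at hn
  push Not at hn
  obtain ⟨f, hf, hlt⟩ := hn
  exact ⟨f, (h1 f hf).1, (h1 f hf).2, hlt⟩

theorem wc_iff_nrm : (∀ r : X → X → Prop, Pre r → WkC r) ↔ (∀ r : X → X → Prop, Pre r → Nrm r) :=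
  ⟨nrm_of_wc, fun h r hr => wc_of_cmu r (cmu_of_nrm r hr (h r hr))⟩

theorem wc_iff_cmu : (∀ r : X → X → Prop, Pre r → WkC r) ↔ (∀ r : X → X → Prop, Pre r → CMU r) :=
  ⟨fun h r hr => cmu_of_nrm r hr (nrm_of_wc h r hr), fun h r hr => wc_of_cmu r (h r hr)⟩

end Pool.Agent.H15.WC
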