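import Mathlib
import Pool.Agent.H15.WC1

set_option autoImplicit false

namespace Pool.Agent.H15.WC

open Set Filter Topology

section
variable {X : Type*} [TopologicalSpace X]

theorem closed_down {r : X → X → Prop} (hr : Pre r) {N : Set X} (hN : IsCompact N) :
    IsClosed {z | ∃ n ∈ N, r z n} := by
  have : CompactSpace N := isCompact_iff_compactSpace.1 hN
  have h1 : IsClosed {p : X × N | r p.1 p.2.1} :=
    hr.2.2.preimage (f := fun p : X × N => (p.1, p.2.1)) (by fun_prop)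
  have h2 := isClosedMap_fst_of_compactSpace _ h1
  convert h2 using 1
  ext z
  simp

theorem Pre.flip {r : X → X → Prop} (hr : Pre r) : Pre (fun a b => r b a) :=
  ⟨hr.1, fun _ _ _ h1 h2 => hr.2.1 _ _ _ h2 h1, hr.2.2.preimage continuous_swap⟩

theorem grow [LocallyCompactSpace X] {r : X → X → Prop} (hr : Pre r) {K A B : Set X}
    (hK : IsCompact K) (hA : IsClosed A) (dA : Dec r A) (hB : IsClosed B) (iB : Inc r B)
    (hAB : Disjoint A B) :
    ∃ A', IsClosed A' ∧ Dec r A' ∧ Disjoint A' B ∧ A ⊆ A' ∧ K ∩ A ⊆ interior A' := by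
  obtain ⟨N, hN, h1, h2⟩ := exists_compact_between (hK.inter_right hA) hB.isOpen_compl
    (fun x hx => hAB.subset_compl_right hx.2)
  refine ⟨A ∪ {z | ∃ n ∈ N, r z n}, hA.union (closed_down hr hN), ?_, ?_, subset_union_left, ?_⟩
  · rintro z x h (hx | ⟨n, hn, hx⟩)
    · exact Or.inl (dA _ _ h hx)
    · exact Or.inr ⟨n, hn, hr.2.1 _ _ _ h hx⟩
  · refine disjoint_left.2 ?_
    rintro z (hz | ⟨n, hn, hz⟩) hb
    · exact disjoint_left.1 hAB hz hb
    · exact h2 hn (iB _ _ hz hb)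
  · exact h1.trans (interior_mono fun n hn => Or.inr ⟨n, hn, hr.1 n⟩)

/-- locally compact spaces whose non-isolated points are covered by countably many compacta -/
theorem nrm_of_sigma [LocallyCompactSpace X] (K : ℕ → Set X) (hK : ∀ n, IsCompact (K n))
    (hmono : Monotone K) (hcov : ∀ x, IsOpen ({x} : Set X) ∨ ∃ n, x ∈ K n)
    (r : X → X → Prop) (hr : Pre r) : Nrm r := by
  intro A B hA dA hB iB hAB
  let G : Set X × Set X → Prop := fun p =>
    IsClosed p.1 ∧ Dec r p.1 ∧ IsClosed p.2 ∧ Inc r p.2 ∧ Disjoint p.1 p.2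
  have step : ∀ (n : ℕ) (p : {p // G p}), ∃ q : {p // G p}, p.1.1 ⊆ q.1.1 ∧ p.1.2 ⊆ q.1.2 ∧
      K n ∩ p.1.1 ⊆ interior q.1.1 ∧ K n ∩ p.1.2 ⊆ interior q.1.2 := by
    rintro n ⟨⟨C, D⟩, h1, h2, h3, h4, h5⟩
    obtain ⟨C', k1, k2, k3, k4, k5⟩ := grow hr (hK n) h1 h2 h3 h4 h5
    obtain ⟨D', j1, j2, j3, j4, j5⟩ := grow hr.flip (hK n) h3 h4 k1 k2 k3.symm
    exact ⟨⟨(C', D'), k1, k2, j1, j2, j3.symm⟩, k4, j4, k5, j5⟩
  choose nx hnx using step
  let s : ℕ → {p // G p} := fun n => Nat.rec ⟨(A, B), hA, dA, hB, iB, hAB⟩ nx n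
  have hs : ∀ n, s (n+1) = nx n (s n) := fun n => rfl
  have m1 : Monotone fun n => (s n).1.1 := monotone_nat_of_le_succ fun n => (hnx n (s n)).1
  have m2 : Monotone fun n => (s n).1.2 := monotone_nat_of_le_succ fun n => (hnx n (s n)).2.1
  have op : ∀ T : ℕ → Set X, Monotone T → (∀ n, K n ∩ T n ⊆ interior (T (n+1))) →
      IsOpen (⋃ n, T n) := by
    intro T hT h
    rw [isOpen_iff_mem_nhds]
    intro x hx
    rcases hcov x with k | ⟨m, hm⟩
    · exact mem_of_superset (k.mem_nhds rfl) (singleton_subset_iff.2 hx)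
    · obtain ⟨n, hn⟩ := mem_iUnion.1 hx
      have := h (max m n) ⟨hmono (le_max_left _ _) hm, hT (le_max_right _ _) hn⟩
      exact mem_of_superset (mem_interior_iff_mem_nhds.1 this) (subset_iUnion T _)
  refine ⟨⋃ n, (s n).1.1, ⋃ n, (s n).1.2, op _ m1 (fun n => (hnx n (s n)).2.2.1), ?_,
    op _ m2 (fun n => (hnx n (s n)).2.2.2), ?_, subset_iUnion (fun n => (s n).1.1) 0,
    subset_iUnion (fun n => (s n).1.2) 0, ?_⟩
  · intro z x h hx
    obtain ⟨n, hn⟩ := mem_iUnion.1 hx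
    exact mem_iUnion.2 ⟨n, (s n).2.2.1 _ _ h hn⟩
  · intro z x h hx
    obtain ⟨n, hn⟩ := mem_iUnion.1 hx
    exact mem_iUnion.2 ⟨n, (s n).2.2.2.2.1 _ _ h hn⟩
  · refine disjoint_left.2 fun z h1 h2 => ?_
    obtain ⟨n, hn⟩ := mem_iUnion.1 h1
    obtain ⟨m, hm⟩ := mem_iUnion.1 h2
    exact disjoint_left.1 (s (max n m)).2.2.2.2.2 (m1 (le_max_left _ _) hn)
      (m2 (le_max_right _ _) hm)
end

variable {X : Type*} [MetricSpace X]

/-- metric spaces with compact set of non-isolated points -/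
theorem wc_of_compact (K0 : Set X) (hK0 : IsCompact K0)
    (hcov : ∀ x, IsOpen ({x} : Set X) ∨ x ∈ K0) (r : X → X → Prop) (hr : Pre r) : WkC r := by
  intro x0 y0 _ hyx
  let K : Set X := insert x0 (insert y0 K0)
  have hK : IsCompact K := (hK0.insert _).insert _
  have : CompactSpace K := isCompact_iff_compactSpace.1 hK
  have hx0 : x0 ∈ K := Or.inl rfl
  have hy0 : y0 ∈ K := Or.inr (Or.inl rfl)
  let r' : K → K → Prop := fun a b => r a.1 b.1
  have hr' : Pre r' := ⟨fun a => hr.1 _, fun a b c => hr.2.1 _ _ _,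
    hr.2.2.preimage (f := fun p : K × K => (p.1.1, p.2.1)) (by fun_prop)⟩
  obtain ⟨f0, c0, m0, e0, e1, b0⟩ := sep_of_nrm r' hr'
    (nrm_of_sigma (fun _ => univ) (fun _ => isCompact_univ) (fun _ _ _ => le_rfl)
      (fun x => Or.inr ⟨0, trivial⟩) r' hr') ⟨x0, hx0⟩ ⟨y0, hy0⟩ hyx
  obtain ⟨t, ht, hte⟩ := ContinuousMap.exists_restrict_eq_forall_mem_of_closed
    (⟨f0, c0⟩ : C(K, ℝ)) (t := Icc (0:ℝ) 1) b0 ⟨0, by simp⟩ hK.isClosed
  have tK : ∀ a (ha : a ∈ K), t a = f0 ⟨a, ha⟩ := fun a ha => by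
    have := congrArg (fun g : C(K, ℝ) => g ⟨a, ha⟩) hte
    simpa using this
  let d : X → ℝ := fun v => Metric.infDist v K
  have key : ∀ ε > 0, ∃ δ > 0, ∀ a b, r a b → d a ≤ δ → d b ≤ δ → t a - t b ≤ ε := by
    intro ε hε
    have hcl : IsClosed {p : X × X | r p.1 p.2 ∧ ε ≤ t p.1 - t p.2} :=
      hr.2.2.inter (isClosed_le (f := fun _ : X × X => ε) (g := fun p : X × X => t p.1 - t p.2)
        continuous_const (by fun_prop))
    obtain ⟨u, v, ou, ov, h1, h2, h3⟩ := generalized_tube_lemma hK hK hcl.isOpen_compl (by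
      rintro ⟨a, b⟩ ⟨ha, hb⟩ ⟨k1, k2⟩
      have := m0 ⟨a, ha⟩ ⟨b, hb⟩ k1
      simp only at k2
      rw [tK a ha, tK b hb] at k2
      linarith)
    obtain ⟨δ, hδ, h4⟩ := hK.exists_thickening_subset_open (ou.inter ov) (subset_inter h1 h2)
    refine ⟨δ / 2, by positivity, fun a b hab ha hb => ?_⟩
    have ma : a ∈ Metric.thickening δ K :=
      (Metric.mem_thickening_iff_infDist_lt ⟨x0, hx0⟩).2 (by simp only [d] at ha; linarith)
    have mb : b ∈ Metric.thickening δ K :=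
      (Metric.mem_thickening_iff_infDist_lt ⟨x0, hx0⟩).2 (by simp only [d] at hb; linarith)
    by_contra hn
    exact h3 (show (a, b) ∈ u ×ˢ v from ⟨(h4 ma).1, (h4 mb).2⟩) ⟨hab, (not_le.1 hn).le⟩
  let S : X → Set ℝ := fun v => {s | ∃ a b, r a b ∧ d a ≤ d v ∧ d b ≤ d v ∧ s = t a - t b}
  let φ : X → ℝ := fun v => sSup (S v)
  have bS : ∀ v, BddAbove (S v) := fun v => ⟨1, by
    rintro _ ⟨a, b, _, _, _, rfl⟩
    linarith [(ht a).2, (ht b).1]⟩
  have S0 : ∀ v, (0:ℝ) ∈ S v := fun v => ⟨v, v, hr.1 v, le_rfl, le_rfl, by simp⟩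
  have φ0 : ∀ v, 0 ≤ φ v := fun v => le_csSup (bS v) (S0 v)
  have φs : ∀ ε > 0, ∃ δ > 0, ∀ v, d v ≤ δ → φ v ≤ ε := by
    intro ε hε
    obtain ⟨δ, hδ, h⟩ := key ε hε
    refine ⟨δ, hδ, fun v hv => csSup_le ⟨0, S0 v⟩ ?_⟩
    rintro _ ⟨a, b, h1, h2, h3, rfl⟩
    exact h a b h1 (h2.trans hv) (h3.trans hv)
  have φK : ∀ v ∈ K, φ v = 0 := by
    intro v hv
    refine le_antisymm (le_of_forall_pos_le_add fun ε hε => ?_) (φ0 v)
    obtain ⟨δ, hδ, h⟩ := φs ε hε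
    have : d v = 0 := Metric.infDist_zero_of_mem hv
    simpa using h v (by rw [this]; exact hδ.le)
  let T : X → Set ℝ := fun z => {s | ∃ v, r v z ∧ s = t v - φ v}
  have ub : ∀ z, ∀ s ∈ T z, s ≤ t z + φ z := by
    rintro z _ ⟨v, hv, rfl⟩
    rcases le_total (d v) (d z) with h | h
    · have : t v - t z ≤ φ z := le_csSup (bS z) ⟨v, z, hv, h, le_rfl, rfl⟩
      linarith [φ0 v]
    · have : t v - t z ≤ φ v := le_csSup (bS v) ⟨v, z, hv, le_rfl, h, rfl⟩
      linarith [φ0 z]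
  have T0 : ∀ z, t z - φ z ∈ T z := fun z => ⟨z, hr.1 z, rfl⟩
  let β : X → ℝ := fun z => sSup (T z)
  have β1 : ∀ z, t z - φ z ≤ β z := fun z => le_csSup ⟨_, ub z⟩ (T0 z)
  have β2 : ∀ z, β z ≤ t z + φ z := fun z => csSup_le ⟨_, T0 z⟩ (ub z)
  have βK : ∀ z ∈ K, β z = t z := fun z hz => by
    have h1 := β1 z
    have h2 := β2 z
    rw [φK z hz] at h1 h2
    linarith
  refine ⟨β, continuous_iff_continuousAt.2 fun x => ?_, fun a b hab => ?_, ?_⟩
  · rcases hcov x with h | h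
    · rw [isOpen_singleton_iff_nhds_eq_pure] at h
      unfold ContinuousAt
      rw [h]
      exact tendsto_pure_nhds _ _
    · have hx : x ∈ K := Or.inr (Or.inr h)
      rw [Metric.continuousAt_iff]
      intro ε hε
      obtain ⟨δ, hδ, h1⟩ := φs (ε / 2) (by positivity)
      obtain ⟨δ', hδ', h2⟩ := Metric.continuousAt_iff.1 (t.continuous.continuousAt (x := x))
        (ε / 2) (by positivity)
      refine ⟨min δ δ', lt_min hδ hδ', fun z hz => ?_⟩
      have k1 := h1 z ((Metric.infDist_le_dist_of_mem hx).trans (hz.le.trans (min_le_left _ _)))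
      have k2 := h2 (hz.trans_le (min_le_right _ _))
      rw [Real.dist_eq, abs_lt] at k2 ⊢
      rw [βK x hx]
      constructor <;> linarith [β1 z, β2 z, k2.1, k2.2]
  · exact csSup_le_csSup ⟨_, ub b⟩ ⟨_, T0 a⟩ (by
      rintro _ ⟨v, hv, rfl⟩
      exact ⟨v, hr.2.1 _ _ _ hv hab, rfl⟩)
  · rw [βK x0 hx0, βK y0 hy0, tK x0 hx0, tK y0 hy0, e0, e1]
    norm_num

end Pool.Agent.H15.WC
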