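import Mathlib
import Pool.Agent.H15.WC2

set_option autoImplicit false

namespace Pool.Agent.H15.WC

open Set Filter Topology

variable {X : Type} [MetricSpace X]

theorem pre_of_closed (E : Set (X × X)) (hE : IsClosed E)
    (hc : ∀ a b c, (a, b) ∈ E → (b, c) ∈ E → False) : Pre (fun a b => a = b ∨ (a, b) ∈ E) := by
  refine ⟨fun _ => Or.inl rfl, ?_, isClosed_diagonal.union hE⟩
  rintro a b c (rfl | h1) (rfl | h2)
  · exact Or.inl rfl
  · exact Or.inr h2
  · exact Or.inr h1
  · exact (hc _ _ _ h1 h2).elim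

theorem near (p : X) (hp : ¬ IsOpen ({p} : Set X)) (W : Set X) (hW : W ∈ 𝓝 p) :
    ∃ q ∈ W, q ≠ p := by
  by_contra hn
  push Not at hn
  apply hp
  rw [isOpen_iff_mem_nhds]
  rintro _ rfl
  exact mem_of_superset hW hn

theorem closed_of_lf {ι Y : Type} [TopologicalSpace Y] [T1Space Y] (s : ι → Y)
    (h : ∀ y, ∃ U ∈ 𝓝 y, {i | s i ∈ U}.Finite) (J : Set ι) : IsClosed (s '' J) := by
  have lf : LocallyFinite (fun i : J => ({s i.1} : Set Y)) := by
    intro y
    obtain ⟨U, hU, hf⟩ := h y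
    refine ⟨U, hU, (hf.preimage Subtype.val_injective.injOn).subset ?_⟩
    rintro i ⟨z, rfl, hz⟩
    exact hz
  have := lf.isClosed_iUnion (fun _ => isClosed_singleton)
  convert this using 1
  ext y
  simp [eq_comm]

theorem seq_of_noncompact (S : Set X) (hS : IsClosed S) (hn : ¬ IsCompact S) :
    ∃ s : ℕ → X, (∀ n, s n ∈ S) ∧ ∀ y, ∃ U ∈ 𝓝 y, {i | s i ∈ U}.Finite := by
  rw [isCompact_iff_isSeqCompact] at hn
  unfold IsSeqCompact at hn
  push Not at hn
  obtain ⟨s, h1, h2⟩ := hn
  refine ⟨s, h1, fun y => ?_⟩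
  by_contra hc
  push Not at hc
  have : MapClusterPt y atTop s := by
    rw [mapClusterPt_iff_frequently]
    intro U hU
    rw [← Nat.cofinite_eq_atTop, frequently_cofinite_iff_infinite]
    exact hc U hU
  obtain ⟨ψ, hψ, ht⟩ := this.tendsto_subseq
  exact h2 y (hS.mem_of_tendsto ht (Eventually.of_forall fun n => h1 _)) ψ hψ ht

theorem closed_N : IsClosed {x : X | ¬ IsOpen ({x} : Set X)} := by
  rw [← isOpen_compl_iff, isOpen_iff_mem_nhds]
  intro x hx
  simp only [mem_compl_iff, mem_ofPred_eq, not_not] at hx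
  exact mem_of_superset (hx.mem_nhds rfl) (by rintro _ rfl; simpa using hx)

theorem lc_of_nrm (h : ∀ r : X → X → Prop, Pre r → Nrm r)
    (hn : ¬ IsCompact {x : X | ¬ IsOpen ({x} : Set X)}) : LocallyCompactSpace X := by
  have : WeaklyLocallyCompactSpace X := by
    refine ⟨fun p => ?_⟩
    by_contra hp
    push Not at hp
    obtain ⟨q0, hq0, lf0⟩ := seq_of_noncompact _ closed_N hn
    obtain ⟨U0, hU0, f0⟩ := lf0 p
    obtain ⟨ρ, hρ, hb⟩ := Metric.mem_nhds_iff.1 hU0
    obtain ⟨M, hM⟩ := f0.bddAbove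
    let q : ℕ → X := fun n => q0 (n + M + 1)
    have hq : ∀ n, ¬ IsOpen ({q n} : Set X) := fun n => hq0 _
    have qfar : ∀ n, ρ ≤ dist (q n) p := fun n => by
      by_contra k
      have := hM (show n + M + 1 ∈ {i | q0 i ∈ U0} from hb (not_le.1 k))
      omega
    have lf : ∀ y, ∃ U ∈ 𝓝 y, {i | q i ∈ U}.Finite := fun y => by
      obtain ⟨U, hU, f⟩ := lf0 y
      exact ⟨U, hU, f.preimage (f := fun n => n + M + 1) (fun a _ b _ k => by simpa using k)⟩
    have hy : ∀ n : ℕ, ∃ s : ℕ → X, (∀ m, s m ∈ Metric.closedBall p (ρ / 3 / (n + 1))) ∧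
        ∀ y, ∃ U ∈ 𝓝 y, {i | s i ∈ U}.Finite := fun n =>
      seq_of_noncompact _ Metric.isClosed_closedBall
        (fun k => hp _ k (Metric.closedBall_mem_nhds p (by positivity)))
    choose y hy1 hy2 using hy
    have hz : ∀ n m : ℕ, ∃ z, dist z (q n) < ρ / 3 / (n + m + 1) ∧ z ∉ range q := by
      intro n m
      have c1 := closed_of_lf q lf {k | q k ≠ q n}
      obtain ⟨z, ⟨k1, k2⟩, k3⟩ := near (q n) (hq n)
        (Metric.ball (q n) (ρ / 3 / (n + m + 1)) ∩ (q '' {k | q k ≠ q n})ᶜ)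
        (inter_mem (Metric.ball_mem_nhds _ (by positivity)) (c1.isOpen_compl.mem_nhds (by
          rintro ⟨k, hk, e⟩
          exact hk e)))
      refine ⟨z, k1, ?_⟩
      rintro ⟨k, rfl⟩
      exact k2 ⟨k, k3, rfl⟩
    choose z hz1 hz2 using hz
    have small : ∀ a : ℝ, 0 ≤ a → ρ / 3 / (a + 1) ≤ ρ / 3 := fun a ha =>
      div_le_self (by positivity) (by linarith)
    have tend : ∀ δ > 0, ∃ N : ℕ, ∀ a : ℝ, N ≤ a → ρ / 3 / (a + 1) < δ := by
      intro δ hδ
      obtain ⟨N, hN⟩ := exists_nat_gt (ρ / 3 / δ)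
      refine ⟨N, fun a ha => ?_⟩
      have h0 : (0:ℝ) ≤ N := Nat.cast_nonneg N
      rw [div_lt_iff₀ hδ] at hN
      rw [div_lt_iff₀ (by linarith)]
      nlinarith
    have ynear : ∀ n m, dist (y n m) p ≤ ρ / 3 := fun n m =>
      (hy1 n m).trans (small _ (Nat.cast_nonneg n))
    have zfar : ∀ n m, ρ / 3 < dist (z n m) p := fun n m => by
      have k1 := (hz1 n m).trans_le (small (n + m) (by positivity))
      have k2 := dist_triangle_left (q n) p (z n m)
      linarith [qfar n]
    let s : ℕ × ℕ → X × X := fun k => (z k.1 k.2, y k.1 k.2)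
    have cE : IsClosed (s '' univ) := by
      refine closed_of_lf s ?_ univ
      rintro ⟨u, v⟩
      obtain ⟨U, hU, fU⟩ := lf u
      obtain ⟨δ, hδ, hδ'⟩ := Metric.mem_nhds_iff.1 hU
      obtain ⟨N0, hN0⟩ := fU.bddAbove
      obtain ⟨N1, hN1⟩ := tend (δ / 2) (by positivity)
      choose V hV fV using fun n => hy2 n v
      refine ⟨Metric.ball u (δ / 2) ×ˢ (⋂ n ∈ Iic (N0 + N1), V n),
        prod_mem_nhds (Metric.ball_mem_nhds _ (by positivity))
          ((biInter_mem (finite_Iic _)).2 fun n _ => hV n), ?_⟩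
      refine ((finite_Iic (N0 + N1)).biUnion
        (fun n _ => (fV n).image (fun m => (n, m)))).subset ?_
      rintro ⟨n, m⟩ ⟨k1, k2⟩
      have hn : n ≤ N0 + N1 := by
        by_contra k
        have j1 := (hz1 n m).trans (hN1 (n + m) (by
          have : N1 ≤ n + m := by omega
          exact_mod_cast this))
        have j2 : q n ∈ U := hδ' (by
          have j3 : dist (z n m) u < δ / 2 := k1
          have := dist_triangle_left (q n) u (z n m)
          show dist (q n) u < δ
          linarith)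
        have := hN0 j2
        omega
      exact mem_biUnion hn ⟨m, mem_iInter₂.1 k2 n hn, rfl⟩
    have pre := pre_of_closed (s '' univ) cE (by
      rintro a b c ⟨k, _, e1⟩ ⟨l, _, e2⟩
      have j1 : y k.1 k.2 = b := congrArg Prod.snd e1
      have j2 : z l.1 l.2 = b := congrArg Prod.fst e2
      have := ynear k.1 k.2
      have := zfar l.1 l.2
      rw [j1] at *
      rw [j2] at *
      linarith)
    -- the closed decreasing set generated by p
    let A : Set X := insert p {a | (a, p) ∈ s '' univ}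
    obtain ⟨U, V, oU, dU, oV, iV, h1, h2, h3⟩ := h _ pre A (q '' univ)
      (isClosed_singleton.union (cE.preimage (f := fun a => (a, p)) (by fun_prop)))
      (by
        rintro a b (rfl | k) hb
        · exact hb
        · rcases hb with rfl | ⟨l, _, e⟩
          · exact Or.inr k
          · obtain ⟨k', _, e'⟩ := k
            have j1 : y k'.1 k'.2 = b := congrArg Prod.snd e'
            have j2 : z l.1 l.2 = b := congrArg Prod.fst e
            have := ynear k'.1 k'.2
            have := zfar l.1 l.2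
            rw [j1] at *
            rw [j2] at *
            linarith)
      (closed_of_lf q lf univ)
      (by
        rintro a b (rfl | ⟨k, _, e⟩) hb
        · exact hb
        · obtain ⟨l, _, rfl⟩ := hb
          exact absurd ⟨l, (congrArg Prod.fst e).symm⟩ (hz2 k.1 k.2))
      (disjoint_left.2 (by
        rintro a (rfl | ⟨k, _, e⟩) ⟨l, _, e'⟩
        · have := qfar l
          rw [e', dist_self] at this
          linarith
        · exact hz2 k.1 k.2 ⟨l, e'.trans (congrArg Prod.fst e).symm⟩))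
    obtain ⟨δ, hδ, hδ'⟩ := Metric.isOpen_iff.1 oU p (h1 (Or.inl rfl))
    obtain ⟨n, hn'⟩ := tend δ hδ
    obtain ⟨η, hη, hη'⟩ := Metric.isOpen_iff.1 oV (q n) (h2 ⟨n, trivial, rfl⟩)
    obtain ⟨m, hm⟩ := tend η hη
    have k1 : z n m ∈ V := hη' ((hz1 n m).trans (hm (n + m) (by
      have : (0:ℝ) ≤ n := Nat.cast_nonneg n
      linarith)))
    have k2 : y n m ∈ V := iV _ _ (Or.inr ⟨(n, m), trivial, rfl⟩) k1
    have k3 : y n m ∈ U := hδ' (lt_of_le_of_lt (hy1 n m) (hn' n le_rfl))
    exact disjoint_left.1 h3 k3 k2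
  infer_instance

theorem big_sep (N : Set X) (hN : ¬ TopologicalSpace.IsSeparable N) :
    ∃ ε > 0, ∃ Z ⊆ N, ¬ Z.Countable ∧ Z.Pairwise fun a b => ε ≤ dist a b := by
  by_contra hc
  push Not at hc
  apply hN
  have : ∀ n : ℕ, ∃ Z : Set X, Z.Countable ∧ ∀ x ∈ N, ∃ z ∈ Z, dist x z < 1 / ((n:ℝ) + 1) := by
    intro n
    obtain ⟨Z, hZ⟩ := zorn_subset
      {Z : Set X | Z ⊆ N ∧ Z.Pairwise fun a b => 1 / ((n:ℝ) + 1) ≤ dist a b} (by
        intro c hc1 hc2
        refine ⟨⋃₀ c, ⟨sUnion_subset fun s hs => (hc1 hs).1, ?_⟩,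
          fun s hs => subset_sUnion_of_mem hs⟩
        rintro a ⟨s, hs, ha⟩ b ⟨t, ht, hb⟩ hab
        rcases hc2.total hs ht with k | k
        · exact (hc1 ht).2 (k ha) hb hab
        · exact (hc1 hs).2 ha (k hb) hab)
    refine ⟨Z, by_contra fun k => hc _ (by positivity) Z hZ.prop.1 k hZ.prop.2, fun x hx => ?_⟩
    by_contra k
    push Not at k
    have : insert x Z ⊆ Z := hZ.le_of_ge ⟨insert_subset hx hZ.prop.1,
      hZ.prop.2.insert fun b hb _ => ⟨k b hb, by rw [dist_comm]; exact k b hb⟩⟩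
      (subset_insert _ _)
    have := k x (this (mem_insert _ _))
    rw [dist_self] at this
    exact absurd this (not_le.2 (by positivity))
  choose Z h1 h2 using this
  refine ⟨⋃ n, Z n, countable_iUnion h1, fun x hx => Metric.mem_closure_iff.2 fun ε hε => ?_⟩
  obtain ⟨n, hn⟩ := exists_nat_one_div_lt hε
  obtain ⟨z, k1, k2⟩ := h2 n x hx
  exact ⟨z, mem_iUnion.2 ⟨n, k1⟩, k2.trans hn⟩

theorem sep_of_nrm' (h : ∀ r : X → X → Prop, Pre r → Nrm r) :
    TopologicalSpace.IsSeparable {x : X | ¬ IsOpen ({x} : Set X)} := by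
  by_contra hn
  obtain ⟨ε, hε, Z, hZ, unc, sp⟩ := big_sep _ hn
  let I : Type := (Cardinal.aleph 1).out
  have cI : Cardinal.mk I = Cardinal.aleph 1 := Cardinal.mk_out _
  have uI : Uncountable I := by
    rw [← Cardinal.aleph0_lt_mk_iff, cI]
    exact Cardinal.aleph0_lt_aleph_one
  obtain ⟨e⟩ : Nonempty (I × Bool ↪ Z) := by
    rw [← Cardinal.le_def]
    have : Cardinal.aleph 1 ≤ Cardinal.mk Z := by
      rw [← Cardinal.succ_aleph0, Order.succ_le_iff, ← not_le, Cardinal.le_aleph0_iff_set_countable]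
      exact unc
    refine le_trans (le_of_eq ?_) this
    simp only [Cardinal.mk_prod, Cardinal.lift_id, cI, Cardinal.mk_bool]
    exact Cardinal.mul_eq_left (Cardinal.aleph0_le_aleph 1)
      ((Cardinal.ofNat_le_aleph0).trans (Cardinal.aleph0_le_aleph 1)) (by simp)
  obtain ⟨g⟩ : Nonempty (I ↪ (ℕ → Bool)) := by
    rw [← Cardinal.le_def, cI]
    simpa using Cardinal.aleph_one_le_continuum
  let p : I × Bool → X := fun k => (e k).1
  have psep : ∀ k l, k ≠ l → ε ≤ dist (p k) (p l) := fun k l hkl =>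
    sp (e k).2 (e l).2 (fun j => hkl (e.injective (Subtype.ext j)))
  have hx : ∀ (k : I × Bool) (n : ℕ), ∃ x, dist x (p k) < ε / 3 / (n + 1) ∧ x ≠ p k := by
    intro k n
    obtain ⟨x, k1, k2⟩ := near (p k) (hZ (e k).2) (Metric.ball (p k) (ε / 3 / (n + 1)))
      (Metric.ball_mem_nhds _ (by positivity))
    exact ⟨x, k1, k2⟩
  choose x hx1 hx2 using hx
  have xs : ∀ k n, dist (x k n) (p k) < ε / 3 := fun k n =>
    (hx1 k n).trans_le (div_le_self (by positivity) (by linarith [Nat.cast_nonneg (α := ℝ) n]))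
  have xx : ∀ k l n m, k ≠ l → ε / 3 ≤ dist (x k n) (x l m) := fun k l n m hkl => by
    have := dist_triangle4_left (p k) (p l) (x k n) (x l m)
    have k3 := dist_triangle4 (p k) (x k n) (x l m) (p l)
    rw [dist_comm (p k) (x k n)] at k3
    linarith [psep k l hkl, xs k n, xs l m]
  have xp : ∀ k l n, x k n ≠ p l := fun k l n e' => by
    by_cases hkl : k = l
    · exact hx2 k n (hkl ▸ e')
    · have := xs k n
      rw [e', dist_comm] at this
      linarith [psep k l hkl]
  let E : Set (X × X) := {w | ∃ i j n, (∀ m < n, g i m = g j m) ∧ g i n = true ∧ g j n = false ∧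
    w = (x (i, true) n, x (j, false) n)}
  have cE : IsClosed E := by
    refine Metric.isClosed_of_pairwise_le_dist (ε := ε / 3) (by positivity) ?_
    rintro _ ⟨i, j, n, a1, a2, a3, rfl⟩ _ ⟨i', j', n', b1, b2, b3, rfl⟩ hne
    rw [Prod.dist_eq]
    by_cases hi : i = i'
    · by_cases hj : j = j'
      · subst hi hj
        exfalso
        rcases lt_trichotomy n n' with k | k | k
        · have := b1 n k
          rw [a2, a3] at this
          exact absurd this (by simp)
        · exact hne (by rw [k])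
        · have := a1 n' k
          rw [b2, b3] at this
          exact absurd this (by simp)
      · exact le_max_of_le_right (xx _ _ _ _ (by simp [hj]))
    · exact le_max_of_le_left (xx _ _ _ _ (by simp [hi]))
  have pre := pre_of_closed E cE (by
    rintro a b c ⟨i, j, n, _, _, _, e1⟩ ⟨i', j', n', _, _, _, e2⟩
    have j1 : b = x (j, false) n := congrArg Prod.snd e1
    have j2 : b = x (i', true) n' := congrArg Prod.fst e2
    have := xx (j, false) (i', true) n n' (by simp)
    rw [← j1, ← j2, dist_self] at this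
    linarith)
  have cl : ∀ t : Bool, IsClosed (range fun i => p (i, t)) := fun t =>
    Metric.isClosed_of_pairwise_le_dist hε (by
      rintro _ ⟨i, rfl⟩ _ ⟨j, rfl⟩ hne
      exact psep _ _ (fun k => hne (congrArg p k)))
  obtain ⟨U, V, oU, dU, oV, iV, h1, h2, h3⟩ := h _ pre (range fun i => p (i, false))
    (range fun i => p (i, true)) (cl false) (by
      rintro a b (rfl | ⟨i, j, n, _, _, _, e1⟩) hb
      · exact hb
      · obtain ⟨l, rfl⟩ := hb
        exact absurd (congrArg Prod.snd e1).symm (xp _ _ _)) (cl true) (by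
      rintro a b (rfl | ⟨i, j, n, _, _, _, e1⟩) hb
      · exact hb
      · obtain ⟨l, rfl⟩ := hb
        exact absurd (congrArg Prod.fst e1).symm (xp _ _ _)) (disjoint_left.2 (by
      rintro _ ⟨i, rfl⟩ ⟨j, e1⟩
      have := psep (j, true) (i, false) (by simp)
      simp only at e1
      rw [e1, dist_self] at this
      linarith))
  have ev : ∀ k (W : Set X), IsOpen W → p k ∈ W → ∃ N : ℕ, ∀ n ≥ N, x k n ∈ W := by
    intro k W oW hW
    obtain ⟨δ, hδ, hδ'⟩ := Metric.isOpen_iff.1 oW _ hW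
    obtain ⟨N, hN⟩ := exists_nat_gt (ε / 3 / δ)
    refine ⟨N, fun n hn => hδ' ((hx1 k n).trans ?_)⟩
    have h0 : (N:ℝ) ≤ n := by exact_mod_cast hn
    have h00 : (0:ℝ) ≤ N := Nat.cast_nonneg N
    rw [div_lt_iff₀ hδ] at hN
    rw [div_lt_iff₀ (by linarith)]
    nlinarith
  have : ∀ i, ∃ N : ℕ, ∀ n ≥ N, x (i, true) n ∈ V ∧ x (i, false) n ∈ U := fun i => by
    obtain ⟨N1, k1⟩ := ev (i, true) V oV (h2 ⟨i, rfl⟩)
    obtain ⟨N2, k2⟩ := ev (i, false) U oU (h1 ⟨i, rfl⟩)
    exact ⟨N1 + N2, fun n hn => ⟨k1 n (by omega), k2 n (by omega)⟩⟩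
  choose N hN using this
  let code : I → List Bool := fun i => List.ofFn (fun m : Fin (N i) => g i m)
  have : ¬ Function.Injective code := fun k => by
    have := k.countable
    exact not_countable (α := I) this
  unfold Function.Injective at this
  push Not at this
  obtain ⟨i, j, hc, hij⟩ := this
  have hNN : N i = N j := by simpa [code] using congrArg List.length hc
  have agree : ∀ m < N i, g i m = g j m := by
    intro m hm
    have := congrArg (fun l => l[m]?) hc
    simpa [code, hm, hNN ▸ hm] using this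
  have ex : ∃ n, g i n ≠ g j n := by
    by_contra k
    push Not at k
    exact hij (g.injective (funext k))
  classical
  let n := Nat.find ex
  have n1 : g i n ≠ g j n := Nat.find_spec ex
  have n2 : ∀ m < n, g i m = g j m := fun m hm => not_not.1 (Nat.find_min ex hm)
  have n3 : N i ≤ n := by
    by_contra k
    exact n1 (agree n (not_le.1 k))
  cases a : g i n <;> cases b : g j n
  · exact n1 (a.trans b.symm)
  · exact disjoint_left.1 h3 (hN i n n3).2 (iV _ _ (Or.inr ⟨j, i, n, fun m hm => (n2 m hm).symm,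
      b, a, rfl⟩) (hN j n (hNN ▸ n3)).1)
  · exact disjoint_left.1 h3 (hN j n (hNN ▸ n3)).2 (iV _ _ (Or.inr ⟨i, j, n, n2, a, b, rfl⟩)
      (hN i n n3).1)
  · exact n1 (a.trans b.symm)

theorem metric_main : (∀ r : X → X → Prop, Pre r → WkC r) ↔
    (IsCompact {x : X | ¬ IsOpen ({x} : Set X)} ∨
      (LocallyCompactSpace X ∧ TopologicalSpace.IsSeparable {x : X | ¬ IsOpen ({x} : Set X)})) := by
  constructor
  · intro h
    rw [wc_iff_nrm] at h
    by_cases hc : IsCompact {x : X | ¬ IsOpen ({x} : Set X)}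
    · exact Or.inl hc
    · exact Or.inr ⟨lc_of_nrm h hc, sep_of_nrm' h⟩
  · rintro (h | ⟨h1, h2⟩)
    · exact wc_of_compact _ h (fun x => em _)
    · rw [wc_iff_nrm]
      have := h2.secondCountableTopology
      have : LocallyCompactSpace {x : X | ¬ IsOpen ({x} : Set X)} := closed_N.locallyCompactSpace
      have h3 : IsSigmaCompact {x : X | ¬ IsOpen ({x} : Set X)} :=
        isSigmaCompact_iff_sigmaCompactSpace.2 inferInstance
      obtain ⟨K, k1, k2⟩ := h3
      refine nrm_of_sigma (accumulate K) (isCompact_accumulate k1) monotone_accumulate fun x => ?_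
      by_cases hx : IsOpen ({x} : Set X)
      · exact Or.inl hx
      · have : x ∈ ⋃ n, K n := k2 ▸ hx
        obtain ⟨n, hn⟩ := mem_iUnion.1 this
        exact Or.inr ⟨n, subset_accumulate hn⟩

end Pool.Agent.H15.WC
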