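import Mathlib
set_option autoImplicit false

namespace Pool.Agent.H15.WE

open Cardinal Order

universe u

/-- Boolean `m`-algebra: every subset of size `≤ m` has a join and a meet. -/
def IsMAlg (m : Cardinal.{u}) (B : Type u) [BooleanAlgebra B] : Prop :=
  ∀ S : Set B, #S ≤ m → (∃ b, IsLUB S b) ∧ (∃ b, IsGLB S b)

/-- `m`-homomorphism: preserves joins and meets of at most `m` elements. -/
def IsMHom (m : Cardinal.{u}) {A B : Type u} [BooleanAlgebra A] [BooleanAlgebra B]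
    (h : BoundedLatticeHom A B) : Prop :=
  ∀ S : Set A, #S ≤ m →
    (∀ a, IsLUB S a → IsLUB (h '' S) (h a)) ∧ (∀ a, IsGLB S a → IsGLB (h '' S) (h a))

/-- `G` `m`-generates `B`. -/
def Gen (m : Cardinal.{u}) {B : Type u} [BooleanAlgebra B] (G : Set B) : Prop :=
  ∀ C : Set B, G ⊆ C → (∀ b ∈ C, bᶜ ∈ C) →
    (∀ S : Set B, S ⊆ C → #S ≤ m → ∀ b, (IsLUB S b ∨ IsGLB S b) → b ∈ C) → C = Set.univ

/-- the weak `m`-extension property -/
def WeakExt (m : Cardinal.{u}) (A' : Type u) [BooleanAlgebra A'] : Prop :=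
  ∀ (A : Type u) [BooleanAlgebra A], IsMAlg m A → ∀ A0 : BooleanSubalgebra A,
    Gen m (A0 : Set A) → ∀ f : BoundedLatticeHom A0 A',
      (∀ (T : Type u) (a : T → A0), #T ≤ m → IsGLB (Set.range fun t => (a t : A)) ⊥ →
        IsGLB (Set.range fun t => f (a t)) ⊥) →
      ∃ h : BoundedLatticeHom A A', IsMHom m h ∧ ∀ a : A0, h a = f a

/-- weak `m`-distributivity -/
def WeakDist (m : Cardinal.{u}) (A' : Type u) [BooleanAlgebra A'] : Prop :=
  ∀ (T S : Type u), #T ≤ m → #S ≤ m → ∀ a : T → S → A', (∀ t, IsLUB (Set.range (a t)) ⊤) →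
    IsLUB {x | ∃ Φ : T → Finset S, (∀ t, (Φ t).Nonempty) ∧
      IsGLB (Set.range fun t => (Φ t).sup (a t)) x} ⊤

inductive MG (m : Cardinal.{u}) {X : Type u} (G : Set (Set X)) : Set X → Prop
  | base (s : Set X) : s ∈ G → MG m G s
  | compl (s : Set X) : MG m G s → MG m G sᶜ
  | union (S : Set (Set X)) : #S ≤ m → (∀ s ∈ S, MG m G s) → MG m G (⋃₀ S)

theorem fin_le {m : Cardinal.{u}} (hm : ℵ₀ ≤ m) {α : Type u} {S : Set α} (h : S.Finite) :
    #S ≤ m := (lt_aleph0_iff_set_finite.2 h).le.trans hm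

theorem MG.sup {m : Cardinal.{u}} (hm : ℵ₀ ≤ m) {X : Type u} {G : Set (Set X)} {a b : Set X}
    (ha : MG m G a) (hb : MG m G b) : MG m G (a ∪ b) := by
  have := MG.union (m := m) (G := G) {a, b} (fin_le hm (Set.toFinite _)) (by
    rintro s (rfl | rfl) <;> assumption)
  rwa [Set.sUnion_pair] at this

def field {m : Cardinal.{u}} (hm : ℵ₀ ≤ m) {X : Type u} (G : Set (Set X)) :
    BooleanSubalgebra (Set X) where
  carrier := {s | MG m G s}
  supClosed' := fun _ ha _ hb => MG.sup hm ha hb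
  infClosed' := fun a ha b hb => by
    have := MG.compl _ (MG.sup hm (MG.compl _ ha) (MG.compl _ hb))
    rw [Set.compl_union, compl_compl, compl_compl] at this
    exact this
  compl_mem' := fun h => MG.compl _ h
  bot_mem' := by
    have := MG.union (m := m) (G := G) ∅ (by simp) (by simp)
    rw [Set.sUnion_empty] at this
    exact this

section
variable {m : Cardinal.{u}} (hm : ℵ₀ ≤ m) {X : Type u} (G : Set (Set X))

theorem lub_of (S : Set (field hm G)) (b : field hm G) (h : (b : Set X) = ⋃₀ (Subtype.val '' S)) :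
    IsLUB S b := by
  constructor
  · intro s hs
    show (s : Set X) ⊆ b
    rw [h]
    exact Set.subset_sUnion_of_mem ⟨s, hs, rfl⟩
  · intro c hc
    show (b : Set X) ⊆ c
    rw [h]
    apply Set.sUnion_subset
    rintro _ ⟨s, hs, rfl⟩
    exact hc hs

theorem glb_of (S : Set (field hm G)) (b : field hm G) (h : (b : Set X) = ⋂₀ (Subtype.val '' S)) :
    IsGLB S b := by
  constructor
  · intro s hs
    show (b : Set X) ⊆ s
    rw [h]
    exact Set.sInter_subset_of_mem ⟨s, hs, rfl⟩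
  · intro c hc
    show (c : Set X) ⊆ b
    rw [h]
    apply Set.subset_sInter
    rintro _ ⟨s, hs, rfl⟩
    exact hc hs

theorem union_mem (S : Set (field hm G)) (hS : #S ≤ m) : ⋃₀ (Subtype.val '' S) ∈ field hm G :=
  MG.union _ (mk_image_le.trans hS) (by rintro _ ⟨s, _, rfl⟩; exact s.2)

theorem alg : IsMAlg m (field hm G) := by
  intro S hS
  refine ⟨⟨⟨_, union_mem hm G S hS⟩, lub_of hm G S _ rfl⟩, ?_⟩
  refine ⟨(⟨_, union_mem hm G (compl '' S) (mk_image_le.trans hS)⟩ : field hm G)ᶜ,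
    glb_of hm G S _ ?_⟩
  ext x
  constructor
  · rintro h _ ⟨s, hs, rfl⟩
    by_contra hh
    exact h ⟨_, ⟨_, ⟨s, hs, rfl⟩, rfl⟩, hh⟩
  · rintro h ⟨_, ⟨_, ⟨s, hs, rfl⟩, rfl⟩, hh⟩
    exact hh (h _ ⟨s, hs, rfl⟩)

theorem gen (H : Set (field hm G)) (hH : ∀ s : field hm G, (s : Set X) ∈ G → s ∈ H) :
    Gen m H := by
  intro C hC hc hu
  rw [Set.eq_univ_iff_forall]
  rintro ⟨s, hs⟩
  have hs' : MG m G s := hs
  induction hs' with
  | base s h => exact hC (hH _ h)
  | compl s h ih => exact hc ⟨s, h⟩ (ih h)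
  | union S h1 h2 ih =>
    refine hu {x | (x : Set X) ∈ S} (fun x hx => ih x.1 hx x.2) ?_ _
      (Or.inl (lub_of hm G _ _ ?_))
    · exact (mk_preimage_of_injective _ _ Subtype.val_injective).trans h1
    · show ⋃₀ S = _
      congr 1
      ext y
      constructor
      · intro hy; exact ⟨⟨y, h2 y hy⟩, hy, rfl⟩
      · rintro ⟨x, hx, rfl⟩; exact hx

end

theorem sep {A : Type u} [BooleanAlgebra A] {S : Type u} (a : S → A) (c : A)
    (h : ∀ Φ : Finset S, ¬ c ≤ Φ.sup a) :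
    ∃ P : Ideal A, P.IsPrime ∧ c ∉ P ∧ ∀ s, a s ∈ P := by
  classical
  let I : Ideal A :=
    { carrier := {x | ∃ Φ : Finset S, x ≤ Φ.sup a}
      lower' := fun x y hxy ⟨Φ, hΦ⟩ => ⟨Φ, le_trans hxy hΦ⟩
      nonempty' := ⟨⊥, ∅, bot_le⟩
      directed' := by
        rintro x ⟨Φ, hx⟩ y ⟨Ψ, hy⟩
        exact ⟨x ⊔ y, ⟨Φ ∪ Ψ, by rw [Finset.sup_union]; exact sup_le_sup hx hy⟩,
          le_sup_left, le_sup_right⟩ }
  obtain ⟨P, hP, hIP, hd⟩ := DistribLattice.prime_ideal_of_disjoint_filter_ideal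
    (F := PFilter.principal c) (I := I) (by
      rw [Set.disjoint_left]
      rintro x hx ⟨Φ, hΦ⟩
      exact h Φ (le_trans (PFilter.mem_principal.1 hx) hΦ))
  refine ⟨P, hP, fun hc => Set.disjoint_left.1 hd (PFilter.mem_principal.2 le_rfl) hc,
    fun s => hIP (show a s ∈ I from ⟨{s}, by simp⟩)⟩

theorem main {m : Cardinal.{u}} (hm : ℵ₀ ≤ m) (A' : Type u) [BooleanAlgebra A']
    (hA : IsMAlg m A') (hE : WeakExt m A') : WeakDist m A' := by
  classical
  intro T S hT hS a ha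
  refine ⟨fun _ _ => le_top, fun u hu => ?_⟩
  rw [top_le_iff, ← compl_eq_bot]
  set b := uᶜ with hb
  by_contra hb0
  let X : Type u := {P : Ideal A' // P.IsPrime ∧ (b ∈ P ∨ ∃ t, ∀ s, a t s ∈ P)}
  let e0 : A' → Set X := fun x => {P | x ∉ P.1}
  have ker : ∀ c, e0 c = ∅ → c = ⊥ := by
    intro c hc
    have hno : ∀ P : Ideal A', P.IsPrime → c ∉ P → ¬ (b ∈ P ∨ ∃ t, ∀ s, a t s ∈ P) := by
      intro P hP h1 h2
      have : (⟨P, hP, h2⟩ : X) ∈ e0 c := h1
      rw [hc] at this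
      exact this
    have h1 : c ≤ b := by
      by_contra hh
      obtain ⟨P, hP, h2, h3⟩ := sep (fun _ : PUnit.{u + 1} => b) c (fun Φ h => hh
        (h.trans (Finset.sup_le fun _ _ => le_rfl)))
      exact hno P hP h2 (Or.inl (h3 PUnit.unit))
    have h2 : ∀ t, ∃ Φ : Finset S, Φ.Nonempty ∧ c ≤ Φ.sup (a t) := by
      intro t
      obtain ⟨s0⟩ : Nonempty S := by
        by_contra hh
        have : IsEmpty S := not_nonempty_iff.1 hh
        have h3 : (⊤ : A') ≤ ⊥ := (ha t).2 (by rintro _ ⟨s, rfl⟩; exact isEmptyElim s)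
        exact hb0 (le_bot_iff.1 (le_top.trans h3))
      by_contra hh
      obtain ⟨P, hP, h2, h3⟩ := sep (a t) c (fun Φ h => hh ⟨insert s0 Φ, by simp,
        h.trans (Finset.sup_mono (Finset.subset_insert _ _))⟩)
      exact hno P hP h2 (Or.inr ⟨t, h3⟩)
    choose Φ hΦ hc' using h2
    obtain ⟨x, hx⟩ := (hA (Set.range fun t => (Φ t).sup (a t)) (mk_range_le.trans hT)).2
    have h3 : c ≤ x := hx.2 (by rintro _ ⟨t, rfl⟩; exact hc' t)
    have h4 : x ≤ u := hu ⟨Φ, hΦ, hx⟩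
    rw [← le_bot_iff, ← inf_compl_self u]
    exact le_inf (h3.trans h4) h1
  let e : BoundedLatticeHom A' (field hm (Set.range e0)) :=
    { toFun := fun x => ⟨e0 x, MG.base _ ⟨x, rfl⟩⟩
      map_sup' := fun x y => Subtype.ext (by
        ext P
        show x ⊔ y ∉ P.1 ↔ x ∉ P.1 ∨ y ∉ P.1
        rw [Ideal.sup_mem_iff]; tauto)
      map_inf' := fun x y => Subtype.ext (by
        ext P
        show x ⊓ y ∉ P.1 ↔ x ∉ P.1 ∧ y ∉ P.1
        constructor
        · intro h
          exact ⟨fun hx => h (P.1.lower inf_le_left hx), fun hy => h (P.1.lower inf_le_right hy)⟩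
        · intro h hh
          rcases P.2.1.mem_or_mem hh with h' | h'
          · exact h.1 h'
          · exact h.2 h')
      map_top' := Subtype.ext (by
        ext P
        show ⊤ ∉ P.1 ↔ True
        have := P.2.1.toIsProper
        simp [Ideal.IsProper.top_notMem this])
      map_bot' := Subtype.ext (by
        ext P
        show ⊥ ∉ P.1 ↔ False
        simp) }
  have ek : ∀ c, e c = ⊥ → c = ⊥ := fun c h => ker c (congrArg Subtype.val h)
  have einj : Function.Injective e := by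
    intro x y h
    have h1 : x \ y = ⊥ := ek _ (by rw [map_sdiff', h, sdiff_self])
    have h2 : y \ x = ⊥ := ek _ (by rw [map_sdiff', h, sdiff_self])
    exact le_antisymm (sdiff_eq_bot_iff.1 h1) (sdiff_eq_bot_iff.1 h2)
  let A0 : BooleanSubalgebra (field hm (Set.range e0)) := (⊤ : BooleanSubalgebra A').map e
  have hex : ∀ x : A0, ∃ y, e y = x := fun x => by
    obtain ⟨y, _, hy⟩ := x.2
    exact ⟨y, hy⟩
  choose g hg using hex
  let f : BoundedLatticeHom A0 A' :=
    { toFun := g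
      map_sup' := fun x y => einj (by rw [map_sup, hg, hg, hg]; rfl)
      map_inf' := fun x y => einj (by rw [map_inf, hg, hg, hg]; rfl)
      map_top' := einj (by rw [map_top, hg]; rfl)
      map_bot' := einj (by rw [map_bot, hg]; rfl) }
  obtain ⟨h, hh, hf⟩ := hE _ (alg hm _) A0
    (gen hm _ _ (by
      rintro s ⟨y, hy⟩
      exact ⟨y, trivial, Subtype.ext hy⟩)) f (by
      intro ι x _ hx
      refine ⟨fun _ _ => bot_le, fun c hc => le_of_eq (ek c (le_bot_iff.1 (hx.2 ?_)))⟩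
      rintro _ ⟨t, rfl⟩
      show e c ≤ (x t : field hm (Set.range e0))
      rw [← hg]
      exact OrderHomClass.mono e (hc ⟨t, rfl⟩))
  have he : ∀ y, h (e y) = y := by
    intro y
    have := hf ⟨e y, y, trivial, rfl⟩
    rw [this]
    exact einj (hg _)
  let U : T → field hm (Set.range e0) := fun t =>
    ⟨_, union_mem hm _ (Set.range fun s => e (a t s)) (mk_range_le.trans hS)⟩
  have hU : ∀ t, h (U t) = ⊤ := by
    intro t
    have h1 := (hh _ (mk_range_le.trans hS)).1 _ (lub_of hm _ (Set.range fun s => e (a t s))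
      (U t) rfl)
    rw [← Set.range_comp] at h1
    have h2 : (h ∘ fun s => e (a t s)) = a t := funext fun s => he _
    rw [h2] at h1
    exact h1.unique (ha t)
  have hglb : IsGLB (insert (e b) (Set.range U)) ⊥ := by
    refine ⟨fun _ _ => bot_le, fun c hc P hP => ?_⟩
    have h1 : P ∈ e0 b := hc (Set.mem_insert _ _) hP
    rcases P.2.2 with h2 | ⟨t, h2⟩
    · exact h1 h2
    · obtain ⟨_, ⟨_, ⟨s, rfl⟩, rfl⟩, h3⟩ := hc (Set.mem_insert_of_mem _ ⟨t, rfl⟩) hP
      exact h3 (h2 s)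
  have hcard : #(insert (e b) (Set.range U) : Set _) ≤ m :=
    mk_insert_le.trans ((add_le_add_left (mk_range_le.trans hT) 1).trans (add_one_eq hm).le)
  have h1 := (hh _ hcard).2 _ hglb
  rw [map_bot] at h1
  refine hb0 (le_bot_iff.1 (h1.2 ?_))
  rintro _ ⟨x, rfl | ⟨t, rfl⟩, rfl⟩
  · rw [he]
  · rw [hU]; exact le_top

end Pool.Agent.H15.WE
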