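import Mathlib

set_option autoImplicit false
open Filter Topology MeasureTheory Set
open scoped ENNReal

namespace Pool.Agent.H15.WF1

noncomputable def ind (q : ℝ × ℝ) (z : ℂ) : ℝ≥0∞ :=
  {x : (ℝ × ℝ) × ℂ | |x.2.re - x.1.2| < x.1.1 / 2}.indicator 1 (q, z)

theorem meas_set : MeasurableSet {x : (ℝ × ℝ) × ℂ | |x.2.re - x.1.2| < x.1.1 / 2} :=
  (isOpen_lt (by fun_prop) (by fun_prop)).measurableSet

theorem ind_meas : Measurable (fun x : (ℝ × ℝ) × ℂ => ind x.1 x.2) :=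
  measurable_one.indicator meas_set

theorem ind_le (q : ℝ × ℝ) (z : ℂ) : ind q z ≤ 1 := by
  unfold ind
  exact indicator_le_self' (fun _ _ => zero_le_one) _

noncomputable def wt (q : ℝ × ℝ) : ℝ≥0∞ := ENNReal.ofReal ((q.1 ^ 2)⁻¹)

theorem wt_meas : Measurable wt := by unfold wt; fun_prop

noncomputable def mm (R : ℝ) : Measure (ℝ × ℝ) := (volume.restrict (Ioc 0 R)).prod volume

instance (R : ℝ) : SFinite (mm R) := by unfold mm; infer_instance

noncomputable def Phi (R : ℝ) (p : ℂ × ℂ) : ℝ≥0∞ :=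
  ∫⁻ q, wt q * (ind q p.1 * ind q p.2) ∂(mm R)

theorem meas3 : Measurable (fun x : (ℂ × ℂ) × (ℝ × ℝ) => wt x.2 * (ind x.2 x.1.1 * ind x.2 x.1.2)) := by
  refine (wt_meas.comp measurable_snd).mul (Measurable.mul ?_ ?_)
  · exact ind_meas.comp (measurable_snd.prodMk (measurable_fst.comp measurable_fst))
  · exact ind_meas.comp (measurable_snd.prodMk (measurable_snd.comp measurable_fst))

theorem J_eq (R : ℝ) (α β : Measure ℂ) [IsProbabilityMeasure α] [IsProbabilityMeasure β] :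
    ∫⁻ p, Phi R p ∂(α.prod β)
      = ∫⁻ q, wt q * ((∫⁻ z, ind q z ∂α) * ∫⁻ z, ind q z ∂β) ∂(mm R) := by
  unfold Phi
  rw [lintegral_lintegral_swap meas3.aemeasurable]
  congr 1
  ext q
  have h : Measurable (ind q) := ind_meas.comp (measurable_const.prodMk measurable_id)
  have h' : Measurable (fun x : ℂ × ℂ => ind q x.1 * ind q x.2) :=
    (h.comp measurable_fst).mul (h.comp measurable_snd)
  rw [lintegral_const_mul _ h', lintegral_prod_mul h.aemeasurable h.aemeasurable]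

theorem J_ineq (R : ℝ) (α β : Measure ℂ) [IsProbabilityMeasure α] [IsProbabilityMeasure β] :
    2 * ∫⁻ p, Phi R p ∂(α.prod β) ≤ ∫⁻ p, Phi R p ∂(α.prod α) + ∫⁻ p, Phi R p ∂(β.prod β) := by
  rw [J_eq, J_eq, J_eq]
  have hm : ∀ γ : Measure ℂ, [SFinite γ] → Measurable (fun q => ∫⁻ z, ind q z ∂γ) :=
    fun γ _ => ind_meas.lintegral_prod_right'
  have m1 : Measurable (fun q => wt q * ((∫⁻ z, ind q z ∂α) * ∫⁻ z, ind q z ∂α)) :=
    wt_meas.mul ((hm α).mul (hm α))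
  have m2 : Measurable (fun q => wt q * ((∫⁻ z, ind q z ∂α) * ∫⁻ z, ind q z ∂β)) :=
    wt_meas.mul ((hm α).mul (hm β))
  rw [← lintegral_add_left m1, ← lintegral_const_mul _ m2]
  refine lintegral_mono fun q => ?_
  have hf : ∀ γ : Measure ℂ, [IsProbabilityMeasure γ] → (∫⁻ z, ind q z ∂γ) ≠ ⊤ := by
    intro γ _
    refine ne_top_of_le_ne_top ENNReal.one_ne_top ?_
    calc ∫⁻ z, ind q z ∂γ ≤ ∫⁻ _, 1 ∂γ := lintegral_mono fun z => ind_le q z
      _ = 1 := by simp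
  have ha := hf α
  have hb := hf β
  generalize (∫⁻ z, ind q z ∂α) = a at ha ⊢
  generalize (∫⁻ z, ind q z ∂β) = b at hb ⊢
  lift a to NNReal using ha
  lift b to NNReal using hb
  rw [← mul_add, mul_left_comm]
  gcongr
  have := two_mul_le_add_sq a b
  rw [sq, sq, mul_assoc] at this
  have h2 := ENNReal.coe_le_coe.mpr this
  push_cast at h2
  exact h2

theorem Phi_eq (R : ℝ) (p : ℂ × ℂ) (r : ℝ) (hr : |p.1.re - p.2.re| = r) (h0 : 0 < r) (h1 : r ≤ R) :
    Phi R p = ENNReal.ofReal (Real.log R - 1 - Real.log r + r / R) := by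
  unfold Phi mm
  have m1 : Measurable (fun q : ℝ × ℝ => wt q * (ind q p.1 * ind q p.2)) :=
    meas3.comp (measurable_const.prodMk measurable_id)
  rw [lintegral_prod _ m1.aemeasurable]
  have h2 : ∀ t : ℝ, ∫⁻ s, wt (t, s) * (ind (t, s) p.1 * ind (t, s) p.2)
      = ENNReal.ofReal ((t ^ 2)⁻¹ * (t - r)) := by
    intro t
    have e : ∀ s : ℝ, wt (t, s) * (ind (t, s) p.1 * ind (t, s) p.2)
        = (Ioo (max p.1.re p.2.re - t / 2) (min p.1.re p.2.re + t / 2)).indicator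
          (fun _ => ENNReal.ofReal ((t ^ 2)⁻¹)) s := by
      intro s
      unfold wt ind
      by_cases hs : s ∈ Ioo (max p.1.re p.2.re - t / 2) (min p.1.re p.2.re + t / 2)
      · rw [indicator_of_mem hs, indicator_of_mem, indicator_of_mem]
        · simp
        · simp only [mem_ofPred_eq, abs_lt]
          constructor <;> linarith [hs.1, hs.2, le_max_right p.1.re p.2.re, min_le_right p.1.re p.2.re]
        · simp only [mem_ofPred_eq, abs_lt]
          constructor <;> linarith [hs.1, hs.2, le_max_left p.1.re p.2.re, min_le_left p.1.re p.2.re]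
      · rw [indicator_of_notMem hs]
        by_cases h1 : |p.1.re - s| < t / 2
        · by_cases h2 : |p.2.re - s| < t / 2
          · exfalso
            apply hs
            rw [abs_lt] at h1 h2
            constructor
            · rw [sub_lt_iff_lt_add, max_lt_iff]; constructor <;> linarith [h1.2, h2.2]
            · rw [← sub_lt_iff_lt_add, lt_min_iff]; constructor <;> linarith [h1.1, h2.1]
          · rw [indicator_of_notMem (a := ((t, s), p.2)) h2]; simp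
        · rw [indicator_of_notMem (a := ((t, s), p.1)) h1]; simp
    simp only [e]
    rw [lintegral_indicator measurableSet_Ioo, setLIntegral_const, Real.volume_Ioo,
      ← ENNReal.ofReal_mul (by positivity)]
    congr 2
    rw [← hr, ← max_sub_min_eq_abs']
    ring
  simp only [h2]
  have h3 : Ioc (0 : ℝ) R = Ioc 0 r ∪ Ioc r R := (Ioc_union_Ioc_eq_Ioc h0.le h1).symm
  rw [h3, lintegral_union measurableSet_Ioc (Ioc_disjoint_Ioc_of_le le_rfl)]
  have h4 : ∫⁻ t in Ioc 0 r, ENNReal.ofReal ((t ^ 2)⁻¹ * (t - r)) = 0 := by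
    rw [setLIntegral_congr_fun measurableSet_Ioc (g := fun _ => 0)]
    · simp
    · intro t ht
      exact ENNReal.ofReal_eq_zero.mpr
        (mul_nonpos_of_nonneg_of_nonpos (by positivity) (by linarith [ht.2]))
  have hc : ContinuousOn (fun t : ℝ => (t ^ 2)⁻¹ * (t - r)) (uIcc r R) := by
    rw [uIcc_of_le h1]
    refine ContinuousOn.mul (ContinuousOn.inv₀ (by fun_prop) fun t ht => ?_) (by fun_prop)
    have : 0 < t := lt_of_lt_of_le h0 ht.1
    positivity
  have hi : IntervalIntegrable (fun t : ℝ => (t ^ 2)⁻¹ * (t - r)) volume r R :=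
    hc.intervalIntegrable
  rw [h4, zero_add, ← ofReal_integral_eq_lintegral_ofReal hi.1, ← intervalIntegral.integral_of_le h1]
  · congr 1
    have hd : ∀ t ∈ uIcc r R, HasDerivAt (fun t : ℝ => Real.log t + r / t) ((t ^ 2)⁻¹ * (t - r)) t := by
      intro t ht
      rw [uIcc_of_le h1] at ht
      have ht0 : t ≠ 0 := by linarith [ht.1] |> fun (h : 0 < t) => h.ne'
      have := (Real.hasDerivAt_log ht0).add ((hasDerivAt_inv ht0).const_mul r)
      refine HasDerivAt.congr_deriv this ?_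
      field_simp
      ring
    rw [intervalIntegral.integral_eq_sub_of_hasDerivAt hd hi, div_self h0.ne']
    ring
  · rw [EventuallyLE, ae_restrict_iff' measurableSet_Ioc]
    refine Eventually.of_forall fun t ht => ?_
    exact mul_nonneg (by positivity) (by linarith [ht.1])

theorem G_nonneg (R r : ℝ) (h0 : 0 < r) (hR : 0 < R) : 0 ≤ Real.log R - 1 - Real.log r + r / R := by
  have := Real.log_le_sub_one_of_pos (div_pos h0 hR)
  rw [Real.log_div h0.ne' hR.ne'] at this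
  linarith

theorem J_real (D R : ℝ) (hD : 0 < D) (hR : D ≤ R) (α β : Measure ℂ) [IsProbabilityMeasure α]
    [IsProbabilityMeasure β]
    (hae : ∀ᵐ p ∂(α.prod β), |p.1.re - p.2.re| = ‖p.1 - p.2‖ ∧ 0 < ‖p.1 - p.2‖ ∧ ‖p.1 - p.2‖ ≤ D)
    (hi : Integrable (fun p : ℂ × ℂ => Real.log ‖p.1 - p.2‖) (α.prod β)) :
    ∃ a : ℝ, 0 ≤ a ∧ a ≤ D / R ∧
      0 ≤ Real.log R - 1 - ∫ p, Real.log ‖p.1 - p.2‖ ∂(α.prod β) + a ∧
      ∫⁻ p, Phi R p ∂(α.prod β)
      = ENNReal.ofReal (Real.log R - 1 - ∫ p, Real.log ‖p.1 - p.2‖ ∂(α.prod β) + a) := by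
  have hR0 : 0 < R := by linarith
  have hb : ∀ᵐ p ∂(α.prod β), ‖‖p.1 - p.2‖ / R‖ ≤ D / R := by
    filter_upwards [hae] with p hp
    rw [Real.norm_eq_abs, abs_of_nonneg (by positivity)]
    exact div_le_div_of_nonneg_right hp.2.2 hR0.le
  have hi2 : Integrable (fun p : ℂ × ℂ => ‖p.1 - p.2‖ / R) (α.prod β) :=
    Integrable.mono' (integrable_const (D / R))
      (by fun_prop : Continuous fun p : ℂ × ℂ => ‖p.1 - p.2‖ / R).aestronglyMeasurable hb
  have hi3 : Integrable (fun p : ℂ × ℂ => Real.log R - 1 - Real.log ‖p.1 - p.2‖ + ‖p.1 - p.2‖ / R)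
      (α.prod β) := ((integrable_const _).sub hi).add hi2
  have hn : 0 ≤ᵐ[α.prod β]
      fun p : ℂ × ℂ => Real.log R - 1 - Real.log ‖p.1 - p.2‖ + ‖p.1 - p.2‖ / R := by
    filter_upwards [hae] with p hp
    exact G_nonneg R _ hp.2.1 hR0
  have he : ∫ p : ℂ × ℂ, (Real.log R - 1 - Real.log ‖p.1 - p.2‖ + ‖p.1 - p.2‖ / R) ∂(α.prod β)
      = Real.log R - 1 - ∫ p, Real.log ‖p.1 - p.2‖ ∂(α.prod β)
        + ∫ p : ℂ × ℂ, ‖p.1 - p.2‖ / R ∂(α.prod β) := by
    have hi4 : Integrable (fun p : ℂ × ℂ => Real.log R - 1 - Real.log ‖p.1 - p.2‖) (α.prod β) :=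
      (integrable_const _).sub hi
    rw [integral_add hi4 hi2, integral_sub (integrable_const _) hi]
    simp
  refine ⟨∫ p : ℂ × ℂ, ‖p.1 - p.2‖ / R ∂(α.prod β), integral_nonneg fun p => by positivity, ?_, ?_, ?_⟩
  · have := norm_integral_le_of_norm_le_const hb
    simp only [probReal_univ, mul_one] at this
    exact (le_abs_self _).trans this
  · rw [← he]; exact integral_nonneg_of_ae hn
  · rw [← he, ofReal_integral_eq_lintegral_ofReal hi3 hn]
    refine lintegral_congr_ae ?_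
    filter_upwards [hae] with p hp
    exact Phi_eq R p _ hp.1 hp.2.1 (hp.2.2.trans hR)

theorem negdef (D : ℝ) (hD : 0 < D) (α β : Measure ℂ) [IsProbabilityMeasure α]
    [IsProbabilityMeasure β]
    (h1 : ∀ᵐ p ∂(α.prod α), |p.1.re - p.2.re| = ‖p.1 - p.2‖ ∧ 0 < ‖p.1 - p.2‖ ∧ ‖p.1 - p.2‖ ≤ D)
    (h2 : ∀ᵐ p ∂(β.prod β), |p.1.re - p.2.re| = ‖p.1 - p.2‖ ∧ 0 < ‖p.1 - p.2‖ ∧ ‖p.1 - p.2‖ ≤ D)
    (h3 : ∀ᵐ p ∂(α.prod β), |p.1.re - p.2.re| = ‖p.1 - p.2‖ ∧ 0 < ‖p.1 - p.2‖ ∧ ‖p.1 - p.2‖ ≤ D)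
    (i1 : Integrable (fun p : ℂ × ℂ => Real.log ‖p.1 - p.2‖) (α.prod α))
    (i2 : Integrable (fun p : ℂ × ℂ => Real.log ‖p.1 - p.2‖) (β.prod β))
    (i3 : Integrable (fun p : ℂ × ℂ => Real.log ‖p.1 - p.2‖) (α.prod β)) :
    ∫ p, Real.log ‖p.1 - p.2‖ ∂(α.prod α) + ∫ p, Real.log ‖p.1 - p.2‖ ∂(β.prod β)
      ≤ 2 * ∫ p, Real.log ‖p.1 - p.2‖ ∂(α.prod β) := by
  refine le_of_forall_pos_le_add fun ε hε => ?_
  set R := max D (2 * D / ε) with hR
  have hR1 : D ≤ R := le_max_left _ _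
  have hR2 : 2 * D / ε ≤ R := le_max_right _ _
  have hR0 : 0 < R := by linarith
  obtain ⟨a1, -, b1, c1, d1⟩ := J_real D R hD hR1 α α h1 i1
  obtain ⟨a2, -, b2, c2, d2⟩ := J_real D R hD hR1 β β h2 i2
  obtain ⟨a3, b3, -, c3, d3⟩ := J_real D R hD hR1 α β h3 i3
  have h := J_ineq R α β
  rw [d1, d2, d3, ← ENNReal.ofReal_add c1 c2, ← ENNReal.ofReal_ofNat 2,
    ← ENNReal.ofReal_mul (by norm_num), ENNReal.ofReal_le_ofReal_iff (by linarith)] at h
  have h4 : D / R ≤ ε / 2 := by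
    rw [div_le_iff₀ hR0]
    rw [div_le_iff₀ hε] at hR2
    linarith
  linarith

end Pool.Agent.H15.WF1
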