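import Mathlib

set_option autoImplicit false
open Filter Topology Finset

namespace Pool.Agent.H15.WF2

noncomputable def sg (b : Bool) : ℝ := if b then 1 else -1

theorem abs_sg (b : Bool) : |sg b| = 1 := by cases b <;> simp [sg]

theorem sg_sq (b : Bool) : sg b ^ 2 = 1 := by cases b <;> simp [sg]

noncomputable def cc (k : ℕ) : ℝ := 14 * 4 ^ k

noncomputable def yy : ℕ → ℕ → (ℕ → Bool) → ℝ
  | 0, _, _ => 0
  | n + 1, k, σ => sg (σ k) * Real.sqrt (cc k + yy n (k + 1) σ)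

theorem four_pow (k : ℕ) : (4 : ℝ) ^ k = (2 ^ k) ^ 2 := by
  rw [← pow_mul, mul_comm, pow_mul]; norm_num

theorem one_le_two_pow (k : ℕ) : (1 : ℝ) ≤ 2 ^ k := one_le_pow₀ (by norm_num)

theorem sqrt_bd (k : ℕ) (a : ℝ) (ha : |a| ≤ 5 * 2 ^ (k + 1)) :
    2 * 2 ^ k ≤ Real.sqrt (cc k + a) ∧ Real.sqrt (cc k + a) ≤ 5 * 2 ^ k ∧ 0 ≤ cc k + a := by
  have h1 := one_le_two_pow k
  rw [abs_le, pow_succ] at ha
  unfold cc
  rw [four_pow]
  refine ⟨Real.le_sqrt_of_sq_le (by nlinarith [ha.1]),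
    Real.sqrt_le_iff.mpr ⟨by positivity, by nlinarith [ha.2]⟩, by nlinarith [ha.1]⟩

theorem yy_bd (σ : ℕ → Bool) (n : ℕ) : ∀ k, |yy n k σ| ≤ 5 * 2 ^ k := by
  induction n with
  | zero => intro k; simp [yy]
  | succ n ih =>
    intro k
    rw [yy, abs_mul, abs_sg, one_mul, abs_of_nonneg (Real.sqrt_nonneg _)]
    exact (sqrt_bd k _ (ih (k + 1))).2.1

theorem sqrt_diff (k : ℕ) (a b : ℝ) (ha : |a| ≤ 5 * 2 ^ (k + 1)) (hb : |b| ≤ 5 * 2 ^ (k + 1)) :
    |Real.sqrt (cc k + a) - Real.sqrt (cc k + b)| ≤ |a - b| / 4 := by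
  obtain ⟨a1, -, a3⟩ := sqrt_bd k a ha
  obtain ⟨b1, -, b3⟩ := sqrt_bd k b hb
  have h1 := one_le_two_pow k
  have e : a - b = (Real.sqrt (cc k + a) - Real.sqrt (cc k + b))
      * (Real.sqrt (cc k + a) + Real.sqrt (cc k + b)) := by
    have := Real.sq_sqrt a3
    have := Real.sq_sqrt b3
    nlinarith
  rw [e, abs_mul, abs_of_nonneg (a := Real.sqrt (cc k + a) + Real.sqrt (cc k + b)) (by positivity),
    le_div_iff₀ (by norm_num)]
  exact mul_le_mul_of_nonneg_left (by linarith) (abs_nonneg _)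

theorem yy_diff (σ : ℕ → Bool) (n : ℕ) :
    ∀ k, |yy (n + 1) k σ - yy n k σ| ≤ 5 * 2 ^ k * (1 / 2) ^ n := by
  induction n with
  | zero => intro k; simpa [yy] using yy_bd σ 1 k
  | succ n ih =>
    intro k
    show |sg (σ k) * Real.sqrt (cc k + yy (n + 1) (k + 1) σ)
      - sg (σ k) * Real.sqrt (cc k + yy n (k + 1) σ)| ≤ _
    rw [← mul_sub, abs_mul, abs_sg, one_mul]
    refine (sqrt_diff k _ _ (yy_bd σ _ _) (yy_bd σ _ _)).trans ?_
    have := ih (k + 1)
    rw [pow_succ] at this ⊢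
    linarith

theorem yy_cont (n : ℕ) : ∀ k, Continuous (yy n k) := by
  induction n with
  | zero => intro k; exact continuous_const
  | succ n ih =>
    intro k
    have h : Continuous (fun σ : ℕ → Bool => sg (σ k)) :=
      (continuous_of_discreteTopology (f := sg)).comp (continuous_apply k)
    exact h.mul (continuous_const.add (ih (k + 1))).sqrt

theorem yy_congr (σ τ : ℕ → Bool) (n : ℕ) : ∀ k, (∀ j, k ≤ j → σ j = τ j) → yy n k σ = yy n k τ := by
  induction n with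
  | zero => intro k _; rfl
  | succ n ih =>
    intro k h
    rw [yy, yy, h k le_rfl, ih (k + 1) fun j hj => h j (by omega)]

noncomputable def xx (k : ℕ) (σ : ℕ → Bool) : ℝ := ∑' n, (yy (n + 1) k σ - yy n k σ)

theorem geo (k : ℕ) : Summable fun n : ℕ => 5 * 2 ^ k * (1 / 2 : ℝ) ^ n :=
  summable_geometric_two.mul_left _

theorem xx_cont (k : ℕ) : Continuous (xx k) :=
  continuous_tsum (fun n => (yy_cont (n + 1) k).sub (yy_cont n k)) (geo k)
    fun n σ => yy_diff σ n k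

theorem xx_congr (σ τ : ℕ → Bool) (k : ℕ) (h : ∀ j, k ≤ j → σ j = τ j) : xx k σ = xx k τ := by
  unfold xx
  simp only [yy_congr σ τ _ k h]

theorem xx_tendsto (k : ℕ) (σ : ℕ → Bool) : Tendsto (fun n => yy n k σ) atTop (𝓝 (xx k σ)) := by
  have h : Summable fun n => yy (n + 1) k σ - yy n k σ :=
    Summable.of_norm_bounded (geo k) fun n => yy_diff σ n k
  refine h.hasSum.tendsto_sum_nat.congr fun n => ?_
  rw [sum_range_sub (fun n => yy n k σ)]
  simp [yy]

theorem xx_le (k : ℕ) (σ : ℕ → Bool) : |xx k σ| ≤ 5 * 2 ^ k :=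
  le_of_tendsto' (xx_tendsto k σ).abs fun n => yy_bd σ n k

theorem xx_rec (k : ℕ) (σ : ℕ → Bool) :
    xx k σ = sg (σ k) * Real.sqrt (cc k + xx (k + 1) σ) := by
  have h1 := (xx_tendsto k σ).comp (tendsto_add_atTop_nat 1)
  have h2 := (((xx_tendsto (k + 1) σ).const_add (cc k)).sqrt).const_mul (sg (σ k))
  exact tendsto_nhds_unique h1 h2

theorem xx_sq (k : ℕ) (σ : ℕ → Bool) : xx k σ ^ 2 = cc k + xx (k + 1) σ := by
  rw [xx_rec k σ, mul_pow, sg_sq, one_mul, Real.sq_sqrt (sqrt_bd k _ (xx_le (k + 1) σ)).2.2]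

theorem xx_pos (k : ℕ) (σ : ℕ → Bool) (h : σ k = true) : 2 ≤ xx k σ := by
  have := (sqrt_bd k _ (xx_le (k + 1) σ)).1
  have h1 := one_le_two_pow k
  rw [xx_rec, h]; simp only [sg, if_true]; linarith

theorem xx_neg (k : ℕ) (σ : ℕ → Bool) (h : σ k = false) : xx k σ ≤ -2 := by
  have := (sqrt_bd k _ (xx_le (k + 1) σ)).1
  have h1 := one_le_two_pow k
  rw [xx_rec, h]; simp only [sg, Bool.false_eq_true, if_false]; linarith

theorem xx_sign (k : ℕ) (σ : ℕ → Bool) : decide (0 < xx k σ) = σ k := by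
  cases h : σ k
  · have := xx_neg k σ h
    simp; linarith
  · have := xx_pos k σ h
    simp; linarith

theorem xx_flip (k : ℕ) (σ τ : ℕ → Bool) (h1 : τ k = !σ k) (h2 : ∀ j, k + 1 ≤ j → σ j = τ j) :
    xx k τ = -xx k σ := by
  rw [xx_rec k τ, xx_rec k σ, xx_congr σ τ (k + 1) h2, h1]
  cases σ k <;> simp [sg]

theorem sep (k : ℕ) (σ η : ℕ → Bool) (h : σ k ≠ η k) : 1 ≤ |xx k σ - xx k η| := by
  cases h1 : σ k <;> cases h2 : η k
  · exact absurd (h1.trans h2.symm) h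
  · have := xx_neg k σ h1
    have := xx_pos k η h2
    rw [abs_sub_comm]; exact le_trans (by linarith) (le_abs_self _)
  · have := xx_pos k σ h1
    have := xx_neg k η h2
    exact le_trans (by linarith) (le_abs_self _)
  · exact absurd (h1.trans h2.symm) h

theorem fact (k : ℕ) (σ η : ℕ → Bool) :
    xx (k + 1) σ - xx (k + 1) η = (xx k σ - xx k η) * (xx k σ + xx k η) := by
  have := xx_sq k σ
  have := xx_sq k η
  linarith

theorem log_le (k : ℕ) (r : ℝ) (h : |r| ≤ 10 * 2 ^ k) : Real.log |r| ≤ k + 4 := by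
  rcases (abs_nonneg r).eq_or_lt with h0 | h0
  · rw [← h0, Real.log_zero]; positivity
  · rw [Real.log_le_iff_le_exp h0]
    refine h.trans ?_
    have h1 : (2 : ℝ) ≤ Real.exp 1 := by linarith [Real.add_one_le_exp (1 : ℝ)]
    have h2 : (2 : ℝ) ^ (k + 4) ≤ Real.exp 1 ^ (k + 4) := pow_le_pow_left₀ (by norm_num) h1 _
    rw [← Real.exp_nat_mul] at h2
    push_cast at h2
    rw [mul_one, pow_add] at h2
    have := one_le_two_pow k
    linarith

theorem log_sub_le (k : ℕ) (σ η : ℕ → Bool) : Real.log |xx k σ - xx k η| ≤ k + 4 :=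
  log_le k _ ((abs_sub _ _).trans (by linarith [xx_le k σ, xx_le k η]))

theorem log_add_le (k : ℕ) (σ η : ℕ → Bool) : Real.log |xx k σ + xx k η| ≤ k + 4 :=
  log_le k _ ((abs_add_le _ _).trans (by linarith [xx_le k σ, xx_le k η]))

noncomputable def AA (k m : ℕ) (σ η : ℕ → Bool) : ℝ :=
  ∏ j ∈ Ico k (k + m), if σ j = η j then 1 else 0

theorem AA_nonneg (k m : ℕ) (σ η : ℕ → Bool) : 0 ≤ AA k m σ η :=
  prod_nonneg fun _ _ => by split_ifs <;> norm_num

theorem AA_succ (k m : ℕ) (σ η : ℕ → Bool) (h : σ k = η k) :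
    AA k (m + 1) σ η = AA (k + 1) m σ η := by
  unfold AA
  rw [prod_eq_prod_Ico_succ_bot (by omega), if_pos h, one_mul]
  congr 2; ring

theorem low (σ η : ℕ → Bool) (d : ℕ) : ∀ k, σ (k + d) ≠ η (k + d) → xx k σ - xx k η ≠ 0 ∧
    -Real.log |xx k σ - xx k η| ≤ ∑ i ∈ range d, AA k (i + 1) σ η * ((k : ℝ) + i + 4) := by
  have base : ∀ k d, σ k ≠ η k → xx k σ - xx k η ≠ 0 ∧
      -Real.log |xx k σ - xx k η| ≤ ∑ i ∈ range d, AA k (i + 1) σ η * ((k : ℝ) + i + 4) := by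
    intro k d h
    have h1 := sep k σ η h
    refine ⟨fun h0 => by rw [h0] at h1; norm_num at h1, ?_⟩
    have h2 := Real.log_nonneg h1
    have h3 : 0 ≤ ∑ i ∈ range d, AA k (i + 1) σ η * ((k : ℝ) + i + 4) :=
      sum_nonneg fun i _ => mul_nonneg (AA_nonneg _ _ _ _) (by positivity)
    linarith
  induction d with
  | zero => intro k h; exact base k 0 h
  | succ d ih =>
    intro k h
    by_cases hk : σ k = η k
    · obtain ⟨a1, a2⟩ := ih (k + 1) (by rwa [add_right_comm, add_assoc])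
      rw [fact] at a1 a2
      have b1 := left_ne_zero_of_mul a1
      have b2 := right_ne_zero_of_mul a1
      refine ⟨b1, ?_⟩
      rw [abs_mul, Real.log_mul (abs_ne_zero.mpr b1) (abs_ne_zero.mpr b2)] at a2
      rw [sum_range_succ']
      simp only [AA_succ _ _ _ _ hk]
      have b3 := log_add_le k σ η
      have b4 : AA (k + 1) 0 σ η = 1 := by simp [AA]
      have b5 : ∑ i ∈ range d, AA (k + 1) (i + 1) σ η * (((k + 1 : ℕ) : ℝ) + i + 4)
          = ∑ i ∈ range d, AA (k + 1) (i + 1) σ η * ((k : ℝ) + ((i + 1 : ℕ) : ℝ) + 4) := by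
        refine sum_congr rfl fun i _ => ?_
        push_cast; ring
      rw [b4, ← b5]
      push_cast at a2 ⊢
      linarith
    · exact base k _ hk

theorem eq_of_xx (k : ℕ) (σ η : ℕ → Bool) (h : xx k σ = xx k η) (j : ℕ) (hj : k ≤ j) :
    σ j = η j := by
  by_contra hne
  obtain ⟨d, rfl⟩ := Nat.exists_eq_add_of_le hj
  exact (low σ η d k hne).1 (sub_eq_zero.mpr h)

theorem low2 (σ η : ℕ → Bool) (k : ℕ) : ENNReal.ofReal (-Real.log |xx k σ - xx k η|)
    ≤ ∑' i, ENNReal.ofReal (AA k (i + 1) σ η) * ENNReal.ofReal ((k : ℝ) + i + 4) := by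
  by_cases h : ∀ j, k ≤ j → σ j = η j
  · rw [xx_congr σ η k h]; simp
  · push Not at h
    obtain ⟨j, hj, hne⟩ := h
    obtain ⟨d, rfl⟩ := Nat.exists_eq_add_of_le hj
    refine (ENNReal.ofReal_le_ofReal (low σ η d k hne).2).trans ?_
    rw [ENNReal.ofReal_sum_of_nonneg fun i _ => mul_nonneg (AA_nonneg _ _ _ _) (by positivity)]
    refine le_trans (le_of_eq ?_) (ENNReal.sum_le_tsum (range d))
    exact sum_congr rfl fun i _ => ENNReal.ofReal_mul (AA_nonneg _ _ _ _)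

end Pool.Agent.H15.WF2
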