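import Mathlib
import Pool.Agent.H15.WF2

set_option autoImplicit false
open Filter Topology Finset MeasureTheory
open scoped ENNReal

namespace Pool.Agent.H15.WF3
open Pool.Agent.H15.WF2

abbrev OO : Type := ℕ → ZMod 4

noncomputable def hm : Measure OO := Measure.addHaarMeasure ⊤

instance : IsProbabilityMeasure hm := ⟨by
  have := Measure.addHaarMeasure_self (G := OO) (K₀ := ⊤)
  simpa [hm] using this⟩

instance : hm.IsAddLeftInvariant := by unfold hm; infer_instance

instance : hm.IsOpenPosMeasure := by unfold hm; infer_instance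

theorem lavg (F : OO → ℝ≥0∞) (hF : Measurable F) (k : ℕ) :
    4 * ∫⁻ ω, F ω ∂hm = ∫⁻ ω, ∑ s : ZMod 4, F (Pi.single k s + ω) ∂hm := by
  have h := lintegral_finsetSum (μ := hm) (f := fun (s : ZMod 4) (ω : OO) => F (Pi.single k s + ω))
    univ fun s _ => hF.comp (measurable_const_add _)
  rw [h]
  simp only [lintegral_add_left_eq_self]
  simp

theorem lprod (φ : ℕ → ZMod 4 → ℝ≥0∞) (I : Finset ℕ) :
    ∫⁻ ω, ∏ i ∈ I, φ i (ω i) ∂hm = ∏ i ∈ I, ((∑ s, φ i s) / 4) := by
  have hmeas : ∀ J : Finset ℕ, Measurable (fun ω : OO => ∏ i ∈ J, φ i (ω i)) := fun J =>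
    Finset.measurable_prod _ fun i _ => (measurable_of_finite (φ i)).comp (measurable_pi_apply i)
  induction I using Finset.induction_on with
  | empty => simp
  | insert k I hk ih =>
    have h := lavg _ (hmeas (insert k I)) k
    have e : ∀ ω : OO, ∑ s : ZMod 4, ∏ i ∈ insert k I, φ i ((Pi.single k s + ω : OO) i)
        = (∑ s, φ k s) * ∏ i ∈ I, φ i (ω i) := by
      intro ω
      rw [← Equiv.sum_comp (Equiv.addRight (ω k)) (φ k), sum_mul]
      refine sum_congr rfl fun s _ => ?_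
      rw [prod_insert hk]
      congr 1
      · simp
      · refine prod_congr rfl fun i hi => ?_
        have : i ≠ k := by rintro rfl; exact hk hi
        simp [Pi.single_eq_of_ne this]
    simp only [e] at h
    rw [lintegral_const_mul _ (hmeas I), ih] at h
    rw [prod_insert hk, ENNReal.div_eq_inv_mul, mul_assoc, ← h, ← mul_assoc,
      ENNReal.inv_mul_cancel (by norm_num) (by norm_num), one_mul]

def s2 (d : ZMod 4) : Bool := decide (d.val < 2)
def s1 (d : ZMod 4) : Bool := decide (d = 0)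

def lift (s : ZMod 4 → Bool) (ω : OO) : ℕ → Bool := fun j => s (ω j)

theorem lift_cont (s : ZMod 4 → Bool) : Continuous (lift s) :=
  continuous_pi fun j => (continuous_of_discreteTopology (f := s)).comp (continuous_apply j)

theorem sum4 (f : ZMod 4 → ℝ≥0∞) : ∑ s, f s = f 0 + f 1 + f 2 + f 3 := Fin.sum_univ_four f

theorem cnt2 (b : Bool) : (∑ d : ZMod 4, (if s2 d = b then (1 : ℝ≥0∞) else 0)) / 4 = 2⁻¹ := by
  have h0 : s2 0 = true := by decide
  have h1 : s2 1 = true := by decide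
  have h2 : s2 2 = false := by decide
  have h3 : s2 3 = false := by decide
  have e : (2 : ℝ≥0∞) / 4 = 2⁻¹ := by
    rw [show (4 : ℝ≥0∞) = 2 * 2 by norm_num, ENNReal.div_eq_inv_mul,
      ENNReal.mul_inv (by norm_num) (by norm_num), mul_assoc,
      ENNReal.inv_mul_cancel (by norm_num) (by norm_num), mul_one]
  rw [sum4, h0, h1, h2, h3, ← e]
  cases b <;> simp <;> norm_num

theorem cnt1 (b : Bool) : (∑ d : ZMod 4, (if s1 d = b then (1 : ℝ≥0∞) else 0)) / 4 ≤ 3 / 4 := by
  have h0 : s1 0 = true := by decide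
  have h1 : s1 1 = false := by decide
  have h2 : s1 2 = false := by decide
  have h3 : s1 3 = false := by decide
  rw [sum4, h0, h1, h2, h3]
  apply ENNReal.div_le_div_right
  cases b <;> simp <;> norm_num

theorem cnt2' (b : Bool) : (∑ d : ZMod 4, (if s2 d = b then (1 : ℝ≥0∞) else 0)) / 4 ≤ 3 / 4 := by
  have h0 : s2 0 = true := by decide
  have h1 : s2 1 = true := by decide
  have h2 : s2 2 = false := by decide
  have h3 : s2 3 = false := by decide
  rw [sum4, h0, h1, h2, h3]
  apply ENNReal.div_le_div_right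
  cases b <;> simp <;> norm_num

theorem null_eq (s : ZMod 4 → Bool)
    (hs : ∀ b, (∑ d : ZMod 4, (if s d = b then (1 : ℝ≥0∞) else 0)) / 4 ≤ 3 / 4)
    (k : ℕ) (η : ℕ → Bool) : hm {ω | xx k (lift s ω) = xx k η} = 0 := by
  have hS : MeasurableSet {ω | xx k (lift s ω) = xx k η} :=
    (isClosed_eq ((xx_cont k).comp (lift_cont s)) continuous_const).measurableSet
  have h1 : ∀ m : ℕ, hm {ω | xx k (lift s ω) = xx k η} ≤ (3 / 4) ^ m := by
    intro m
    rw [← lintegral_indicator_one hS]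
    calc _ ≤ ∫⁻ ω, ∏ i ∈ Ico k (k + m), (if s (ω i) = η i then (1 : ℝ≥0∞) else 0) ∂hm := by
          refine lintegral_mono fun ω => ?_
          by_cases h : ω ∈ {ω | xx k (lift s ω) = xx k η}
          · rw [Set.indicator_of_mem h, prod_eq_one]
            · rfl
            · intro i hi
              exact if_pos (eq_of_xx k _ _ h i (mem_Ico.mp hi).1)
          · rw [Set.indicator_of_notMem h]; exact zero_le
      _ = _ := lprod (fun i d => if s d = η i then (1 : ℝ≥0∞) else 0) _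
      _ ≤ ∏ _i ∈ Ico k (k + m), (3 / 4 : ℝ≥0∞) := prod_le_prod' fun i _ => hs (η i)
      _ = _ := by simp
  have h2 : Tendsto (fun m : ℕ => (3 / 4 : ℝ≥0∞) ^ m) atTop (𝓝 0) :=
    ENNReal.tendsto_pow_atTop_nhds_zero_of_lt_one
      (ENNReal.div_lt_of_lt_mul (by norm_num))
  exact le_antisymm (ge_of_tendsto' h2 h1) zero_le

theorem int_AA (k m : ℕ) (η : ℕ → Bool) :
    ∫⁻ ω, ENNReal.ofReal (AA k m (lift s2 ω) η) ∂hm = 2⁻¹ ^ m := by
  have e : ∀ ω : OO, ENNReal.ofReal (AA k m (lift s2 ω) η)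
      = ∏ i ∈ Ico k (k + m), (if s2 (ω i) = η i then (1 : ℝ≥0∞) else 0) := by
    intro ω
    unfold AA
    rw [ENNReal.ofReal_prod_of_nonneg fun _ _ => by split_ifs <;> norm_num]
    refine prod_congr rfl fun i _ => ?_
    unfold lift
    split_ifs <;> simp
  simp only [e]
  rw [lprod (fun i d => if s2 d = η i then (1 : ℝ≥0∞) else 0)]
  simp only [cnt2]
  simp

theorem AA_meas (k m : ℕ) (η : ℕ → Bool) : Measurable fun ω : OO => AA k m (lift s2 ω) η := by
  unfold AA lift
  exact Finset.measurable_prod _ fun i _ =>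
    (measurable_of_finite (fun d : ZMod 4 => if s2 d = η i then (1 : ℝ) else 0)).comp
      (measurable_pi_apply i)

theorem log_bound (k : ℕ) (η : ℕ → Bool) :
    ∫⁻ ω, ‖Real.log |xx k (lift s2 ω) - xx k η|‖ₑ ∂hm ≤ ENNReal.ofReal (5 * ((k : ℝ) + 4)) := by
  have h1 : ∀ ω : OO, ‖Real.log |xx k (lift s2 ω) - xx k η|‖ₑ ≤ ENNReal.ofReal ((k : ℝ) + 4)
      + ∑' i, ENNReal.ofReal (AA k (i + 1) (lift s2 ω) η) * ENNReal.ofReal ((k : ℝ) + i + 4) := by
    intro ω
    rw [Real.enorm_eq_ofReal_abs]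
    rcases le_total 0 (Real.log |xx k (lift s2 ω) - xx k η|) with h | h
    · rw [abs_of_nonneg h]
      exact (ENNReal.ofReal_le_ofReal (log_sub_le _ _ _)).trans le_self_add
    · rw [abs_of_nonpos h]
      exact (low2 _ _ _).trans le_add_self
  refine (lintegral_mono h1).trans ?_
  rw [lintegral_add_left measurable_const, lintegral_const, measure_univ, mul_one,
    lintegral_tsum fun i => ((AA_meas k (i + 1) η).ennreal_ofReal.mul_const _).aemeasurable]
  have h2 : ∀ i : ℕ, ∫⁻ ω, ENNReal.ofReal (AA k (i + 1) (lift s2 ω) η)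
      * ENNReal.ofReal ((k : ℝ) + i + 4) ∂hm ≤ ENNReal.ofReal (((k : ℝ) + 4) * (3 / 4) ^ i) := by
    intro i
    rw [lintegral_mul_const _ (AA_meas k (i + 1) η).ennreal_ofReal, int_AA]
    have e : (2⁻¹ : ℝ≥0∞) = ENNReal.ofReal (1 / 2) := by
      rw [ENNReal.ofReal_div_of_pos (by norm_num)]; simp
    rw [e, ← ENNReal.ofReal_pow (by norm_num), ← ENNReal.ofReal_mul (by positivity)]
    apply ENNReal.ofReal_le_ofReal
    have a1 := one_add_mul_le_pow (a := (1 / 2 : ℝ)) (by norm_num) i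
    have a2 : (3 / 4 : ℝ) ^ i = (1 / 2) ^ i * (1 + 1 / 2) ^ i := by rw [← mul_pow]; norm_num
    have a3 : (0 : ℝ) < (1 / 2) ^ i := by positivity
    have a4 : (0 : ℝ) ≤ k := Nat.cast_nonneg _
    have a5 : (0 : ℝ) ≤ i := Nat.cast_nonneg _
    rw [a2, pow_succ]
    have a6 : (k : ℝ) + i + 4 ≤ (k + 4) * (2 * (1 + 1 / 2) ^ i) := by nlinarith
    nlinarith
  have h3 : HasSum (fun i : ℕ => ((k : ℝ) + 4) * (3 / 4) ^ i) (((k : ℝ) + 4) * 4) := by
    have := (hasSum_geometric_of_lt_one (r := (3 / 4 : ℝ)) (by norm_num) (by norm_num)).mul_left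
      ((k : ℝ) + 4)
    rwa [show ((1 : ℝ) - 3 / 4)⁻¹ = 4 by norm_num] at this
  refine (add_le_add le_rfl (ENNReal.tsum_le_tsum h2)).trans ?_
  rw [← ENNReal.ofReal_tsum_of_nonneg (fun i => by positivity) h3.summable, h3.tsum_eq,
    ← ENNReal.ofReal_add (by positivity) (by positivity)]
  exact ENNReal.ofReal_le_ofReal (by linarith)

theorem log_int (k : ℕ) (η : ℕ → Bool) :
    Integrable (fun ω => Real.log |xx k (lift s2 ω) - xx k η|) hm := by
  refine ⟨?_, lt_of_le_of_lt (log_bound k η) ENNReal.ofReal_lt_top⟩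
  exact (Real.measurable_log.comp
    (((xx_cont k).comp (lift_cont s2)).sub continuous_const).abs.measurable).aestronglyMeasurable

noncomputable def uu (k : ℕ) (η : ℕ → Bool) : ℝ := ∫ ω, Real.log |xx k (lift s2 ω) - xx k η| ∂hm

theorem uu_le (k : ℕ) (η : ℕ → Bool) : |uu k η| ≤ 5 * ((k : ℝ) + 4) := by
  have h := (enorm_integral_le_lintegral_enorm _).trans (log_bound k η)
  rw [Real.enorm_eq_ofReal_abs, ENNReal.ofReal_le_ofReal_iff (by positivity)] at h
  exact h

theorem flip2 (k : ℕ) (ω : OO) : xx k (lift s2 (Pi.single k 2 + ω)) = -xx k (lift s2 ω) := by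
  apply xx_flip
  · have : ∀ d : ZMod 4, s2 (2 + d) = !s2 d := by decide
    simp [lift, this]
  · intro j hj
    have : j ≠ k := by omega
    simp [lift, Pi.single_eq_of_ne this]

theorem uu_succ (k : ℕ) (η : ℕ → Bool) : uu (k + 1) η = 2 * uu k η := by
  have e : (fun ω => Real.log |xx k (lift s2 ω) + xx k η|)
      = fun ω => (fun ω => Real.log |xx k (lift s2 ω) - xx k η|) (Pi.single k 2 + ω) := by
    ext ω
    simp only [flip2]
    rw [← abs_neg]; congr 2; ring
  have i2 : Integrable (fun ω => Real.log |xx k (lift s2 ω) + xx k η|) hm := by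
    rw [e]; exact (log_int k η).comp_add_left _
  have h2 : ∫ ω, Real.log |xx k (lift s2 ω) + xx k η| ∂hm = uu k η := by
    rw [e]
    exact integral_add_left_eq_self (fun ω => Real.log |xx k (lift s2 ω) - xx k η|) _
  rw [two_mul]
  nth_rewrite 2 [← h2]
  unfold uu
  rw [← integral_add (log_int k η) i2]
  refine integral_congr_ae ?_
  have hn := measure_eq_zero_iff_ae_notMem.mp (null_eq s2 cnt2' (k + 1) η)
  filter_upwards [hn] with ω hω
  have a1 : xx (k + 1) (lift s2 ω) - xx (k + 1) η ≠ 0 := sub_ne_zero.mpr hω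
  rw [fact] at a1 ⊢
  rw [abs_mul, Real.log_mul (abs_ne_zero.mpr (left_ne_zero_of_mul a1))
    (abs_ne_zero.mpr (right_ne_zero_of_mul a1))]

theorem uu_zero (η : ℕ → Bool) : uu 0 η = 0 := by
  have h : ∀ k, uu k η = 2 ^ k * uu 0 η := by
    intro k
    induction k with
    | zero => simp
    | succ k ih => rw [uu_succ, ih]; ring
  have h1 : ∀ k : ℕ, |uu 0 η| ≤ 5 * ((k : ℝ) ^ 1 / 2 ^ k) + 20 * ((k : ℝ) ^ 0 / 2 ^ k) := by
    intro k
    have := uu_le k η
    rw [h k, abs_mul, abs_of_pos (by positivity), mul_comm, ← le_div_iff₀ (by positivity)] at this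
    refine this.trans (le_of_eq ?_)
    ring
  have h2 := ((tendsto_pow_const_div_const_pow_of_one_lt 1 (by norm_num : (1 : ℝ) < 2)).const_mul
    5).add ((tendsto_pow_const_div_const_pow_of_one_lt 0 (by norm_num : (1 : ℝ) < 2)).const_mul 20)
  simp only [mul_zero, add_zero] at h2
  exact abs_nonpos_iff.mp (ge_of_tendsto' h2 h1)

end Pool.Agent.H15.WF3
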