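import Mathlib
import Pool.Agent.H15.WF3

set_option autoImplicit false
open Filter Topology Finset MeasureTheory Polynomial
open scoped ENNReal

namespace Pool.Agent.H15.WF4
open Pool.Agent.H15.WF2 Pool.Agent.H15.WF3

theorem mkpoly (a : ℕ → ℂ) (q : ℕ) (c : ℂ) : ∃ A : ℂ[X],
    (∀ w, A.eval w = ∑ i ∈ range (q + 1), a i * (w + c) ^ i) ∧
    (a q = 1 → A.Monic ∧ A.natDegree = q) := by
  set A0 : ℂ[X] := ∑ i ∈ range (q + 1), monomial i (a i) with hA0
  refine ⟨A0.comp (X + C c), fun w => ?_, fun h => ?_⟩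
  · simp [hA0, eval_finsetSum]
  · have h1 : A0.natDegree ≤ q := by
      refine natDegree_sum_le_of_forall_le _ _ fun i hi => ?_
      exact (natDegree_monomial_le _).trans (Nat.lt_succ_iff.mp (mem_range.mp hi))
    have h2 : A0.coeff q = 1 := by
      simp [hA0, coeff_monomial, h]
    have h3 : A0.Monic := monic_of_natDegree_le_of_coeff_eq_one q h1 h2
    have h4 : A0.natDegree = q := natDegree_eq_of_le_of_coeff_ne_zero h1 (by rw [h2]; exact one_ne_zero)
    refine ⟨h3.comp_X_add_C c, ?_⟩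
    rw [natDegree_comp, natDegree_X_add_C, mul_one, h4]

theorem sum_two (f : ℕ → ℂ) (m : ℕ) :
    ∑ j ∈ range (2 * m), f j = ∑ i ∈ range m, (f (2 * i) + f (2 * i + 1)) := by
  induction m with
  | zero => simp
  | succ m ih => rw [mul_add, mul_one, sum_range_succ, sum_range_succ, ih, sum_range_succ]; ring

theorem split (P : ℂ[X]) (hP : P.Monic) (q : ℕ) (hq : P.natDegree < 2 * (q + 1)) (c : ℂ) :
    ∃ A B : ℂ[X], (∀ z w, z ^ 2 = w + c → P.eval z = A.eval w + z * B.eval w) ∧
      (P.natDegree = 2 * q → A.Monic ∧ A.natDegree = q) ∧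
      (P.natDegree = 2 * q + 1 → B.Monic ∧ B.natDegree = q) := by
  obtain ⟨A, a1, a2⟩ := mkpoly (fun i => P.coeff (2 * i)) q c
  obtain ⟨B, b1, b2⟩ := mkpoly (fun i => P.coeff (2 * i + 1)) q c
  refine ⟨A, B, fun z w h => ?_, fun h => a2 ?_, fun h => b2 ?_⟩
  · rw [eval_eq_sum_range' hq, sum_two, a1, b1, ← h, mul_sum, ← sum_add_distrib]
    refine sum_congr rfl fun i _ => ?_
    ring
  · rw [← h]; exact hP.coeff_natDegree
  · rw [← h]; exact hP.coeff_natDegree

noncomputable def FF (k : ℕ) (P : ℂ[X]) (ω : OO) : ℝ := ‖P.eval ((xx k (lift s1 ω) : ℝ) : ℂ)‖ ^ 2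

theorem FF_cont (k : ℕ) (P : ℂ[X]) : Continuous (FF k P) :=
  (P.continuous.comp (Complex.continuous_ofReal.comp ((xx_cont k).comp (lift_cont s1)))).norm.pow 2

noncomputable def WW (k : ℕ) (P : ℂ[X]) : ℝ≥0∞ := ∫⁻ ω, ENNReal.ofReal (FF k P ω) ∂hm

theorem step (k : ℕ) (P A B : ℂ[X])
    (h : ∀ z w, z ^ 2 = w + (cc k : ℂ) → P.eval z = A.eval w + z * B.eval w) :
    2 * WW (k + 1) A + 2 * (4 * 4 ^ k) * WW (k + 1) B ≤ 4 * WW k P := by
  unfold WW
  rw [lavg _ (FF_cont k P).measurable.ennreal_ofReal k,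
    ← lintegral_const_mul _ (FF_cont _ A).measurable.ennreal_ofReal,
    ← lintegral_const_mul _ (FF_cont _ B).measurable.ennreal_ofReal,
    ← lintegral_add_left ((FF_cont _ A).measurable.ennreal_ofReal.const_mul _)]
  refine lintegral_mono fun ω => ?_
  set w : ℝ := xx (k + 1) (lift s1 ω) with hw
  set r : ℝ := Real.sqrt (cc k + w) with hr
  obtain ⟨r1, -, r3⟩ := sqrt_bd k w (xx_le (k + 1) _)
  have r2 : r ^ 2 = cc k + w := Real.sq_sqrt r3
  have hx : ∀ s : ZMod 4, xx k (lift s1 (Pi.single k s + ω)) = sg (s1 (s + ω k)) * r := by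
    intro s
    have hc := xx_congr (lift s1 ((Pi.single k s : OO) + ω)) (lift s1 ω) (k + 1) (by
      intro j hj
      have : j ≠ k := by omega
      simp [lift, Pi.single_eq_of_ne this])
    rw [xx_rec, hc]
    simp [lift, hr, hw]
  have hF : ∀ s : ZMod 4, FF k P (Pi.single k s + ω)
      = ‖A.eval (w : ℂ) + ((sg (s1 (s + ω k)) * r : ℝ) : ℂ) * B.eval (w : ℂ)‖ ^ 2 := by
    intro s
    unfold FF
    rw [hx, h _ (w : ℂ)]
    rw [← Complex.ofReal_pow, mul_pow, sg_sq, one_mul, r2]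
    push_cast; ring
  simp only [hF]
  have e0 := (Equiv.sum_comp (Equiv.addRight (ω k)) (fun d : ZMod 4 => ENNReal.ofReal
    (‖A.eval (w : ℂ) + ((sg (s1 d) * r : ℝ) : ℂ) * B.eval (w : ℂ)‖ ^ 2))).trans (sum4 _)
  simp only [Equiv.coe_addRight] at e0
  rw [e0]
  have h0 : s1 0 = true := by decide
  have h1 : s1 1 = false := by decide
  rw [h0, h1]
  refine le_trans ?_ (le_self_add.trans le_self_add)
  rw [← ENNReal.ofReal_add (by positivity) (by positivity)]
  unfold FF
  rw [← hw]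
  have e1 : (2 : ℝ≥0∞) * (4 * 4 ^ k) = ENNReal.ofReal (2 * (4 * 4 ^ k)) := by
    rw [ENNReal.ofReal_mul (by norm_num), ENNReal.ofReal_mul (by norm_num),
      ENNReal.ofReal_pow (by norm_num)]
    simp
  rw [e1, ← ENNReal.ofReal_ofNat 2, ← ENNReal.ofReal_mul (by norm_num),
    ← ENNReal.ofReal_mul (by positivity), ← ENNReal.ofReal_add (by positivity) (by positivity)]
  apply ENNReal.ofReal_le_ofReal
  have par := parallelogram_law_with_norm ℂ (A.eval (w : ℂ)) ((r : ℂ) * B.eval (w : ℂ))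
  simp only [sg, if_true, Bool.false_eq_true, if_false, one_mul, neg_mul, Complex.ofReal_neg,
    ← sub_eq_add_neg]
  rw [norm_mul, Complex.norm_real, Real.norm_eq_abs, mul_pow, sq_abs] at par
  have r4 : 4 * 4 ^ k ≤ r ^ 2 := by
    rw [four_pow]
    have := pow_le_pow_left₀ (by positivity) r1 2
    linarith
  nlinarith [mul_le_mul_of_nonneg_right r4 (sq_nonneg ‖B.eval (w : ℂ)‖)]

theorem WW_ge (n : ℕ) : ∀ (k : ℕ) (P : ℂ[X]), P.Monic → P.natDegree = n →
    1 ≤ WW k P ∧ (1 ≤ n → 2 ^ k ≤ WW k P) := by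
  induction n using Nat.strong_induction_on with
  | _ n ih =>
    intro k P hP hn
    rcases Nat.eq_zero_or_pos n with h0 | h0
    · subst h0
      rw [hP.natDegree_eq_zero] at hn
      subst hn
      simp [WW, FF]
    · have key : 2 ^ k ≤ WW k P := by
        obtain ⟨A, B, h1, h2, h3⟩ := split P hP (n / 2) (by omega) (cc k)
        have hs := step k P A B h1
        rw [← ENNReal.mul_le_mul_iff_right (a := 4) (by norm_num) (by norm_num)]
        refine le_trans ?_ hs
        rcases Nat.mod_two_eq_zero_or_one n with he | he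
        · obtain ⟨a1, a2⟩ := h2 (by omega)
          have := (ih (n / 2) (by omega) (k + 1) A a1 a2).2 (by omega)
          refine le_trans ?_ le_self_add
          calc (4 : ℝ≥0∞) * 2 ^ k = 2 * 2 ^ (k + 1) := by ring
            _ ≤ _ := by gcongr
        · obtain ⟨a1, a2⟩ := h3 (by omega)
          have := (ih (n / 2) (by omega) (k + 1) B a1 a2).1
          refine le_trans ?_ le_add_self
          calc (4 : ℝ≥0∞) * 2 ^ k = 1 * (4 * 2 ^ k) * 1 := by ring
            _ ≤ _ := by gcongr <;> norm_num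
      exact ⟨(one_le_pow₀ (by norm_num)).trans key, fun _ => key⟩

theorem widom (P : ℂ[X]) (hP : P.Monic) : 1 ≤ ∫ ω, FF 0 P ω ∂hm := by
  have h := (WW_ge _ 0 P hP rfl).1
  unfold WW at h
  rw [← ofReal_integral_eq_lintegral_ofReal ((FF_cont 0 P).integrable_of_hasCompactSupport
    (HasCompactSupport.of_compactSpace _)) (Eventually.of_forall fun ω => by unfold FF; positivity)] at h
  exact ENNReal.one_le_ofReal.mp h

end Pool.Agent.H15.WF4
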