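import Mathlib
import Pool.Agent.H15.WF1
import Pool.Agent.H15.WF4

set_option autoImplicit false
open Filter Topology Finset MeasureTheory Polynomial
open scoped ENNReal

namespace Pool.Agent.H15.WF5
open Pool.Agent.H15.WF2 Pool.Agent.H15.WF3 Pool.Agent.H15.WF4

noncomputable def pp (σ : ℕ → Bool) : ℂ := ((xx 0 σ : ℝ) : ℂ)

theorem pp_cont : Continuous pp := Complex.continuous_ofReal.comp (xx_cont 0)

def KK : Set ℂ := Set.range pp

theorem KK_compact : IsCompact KK := isCompact_range pp_cont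

theorem KK_meas : MeasurableSet KK := KK_compact.isClosed.measurableSet

theorem pl_cont (s : ZMod 4 → Bool) : Continuous fun ω : OO => pp (lift s ω) :=
  pp_cont.comp (lift_cont s)

noncomputable def mes (s : ZMod 4 → Bool) : Measure ℂ := hm.map fun ω : OO => pp (lift s ω)

instance (s : ZMod 4 → Bool) : IsProbabilityMeasure (mes s) :=
  Measure.isProbabilityMeasure_map (pl_cont s).measurable.aemeasurable

theorem mes_compl (s : ZMod 4 → Bool) : mes s KKᶜ = 0 := by
  unfold mes
  rw [Measure.map_apply (pl_cont s).measurable KK_meas.compl]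
  have : (fun ω : OO => pp (lift s ω)) ⁻¹' KKᶜ = ∅ := by
    ext ω; simp [KK]
  rw [this, measure_empty]

theorem mes_noAtoms (s : ZMod 4 → Bool)
    (hs : ∀ b, (∑ d : ZMod 4, (if s d = b then (1 : ℝ≥0∞) else 0)) / 4 ≤ 3 / 4) :
    NullSingletonClass (mes s) := by
  constructor
  intro z
  by_cases hz : z ∈ KK
  · obtain ⟨η, rfl⟩ := hz
    unfold mes
    rw [Measure.map_apply (pl_cont s).measurable (measurableSet_singleton _), ← null_eq s hs 0 η]
    congr 1
    ext ω
    simp [pp]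
  · exact measure_mono_null (Set.singleton_subset_iff.mpr hz) (mes_compl s)

theorem mes_supp (U : Set ℂ) (hU : IsOpen U) (h : (U ∩ KK).Nonempty) : 0 < mes s1 U := by
  obtain ⟨z, hz, η, rfl⟩ := h
  unfold mes
  rw [Measure.map_apply (pl_cont s1).measurable hU.measurableSet]
  refine (hU.preimage (pl_cont s1)).measure_pos hm ⟨fun j => if η j then 0 else 1, ?_⟩
  have : lift s1 (fun j => if η j then 0 else 1) = η := by
    ext j
    show s1 (if η j = true then 0 else 1) = η j
    cases η j <;> decide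
  show pp _ ∈ U
  rwa [this]

theorem norm_pp (σ η : ℕ → Bool) : ‖pp η - pp σ‖ = |xx 0 σ - xx 0 η| := by
  unfold pp
  rw [← Complex.ofReal_sub, Complex.norm_real, Real.norm_eq_abs, abs_sub_comm]

theorem log_meas : Measurable fun p : ℂ × ℂ => Real.log ‖p.1 - p.2‖ :=
  Real.measurable_log.comp (by fun_prop : Continuous fun p : ℂ × ℂ => ‖p.1 - p.2‖).measurable

theorem cross (ρ : Measure ℂ) [IsProbabilityMeasure ρ] (hρ : ρ KKᶜ = 0) :
    Integrable (fun p : ℂ × ℂ => Real.log ‖p.1 - p.2‖) (ρ.prod (mes s2)) ∧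
    ∫ p, Real.log ‖p.1 - p.2‖ ∂(ρ.prod (mes s2)) = 0 := by
  have hae : ∀ᵐ y ∂ρ, y ∈ KK := hρ
  have hi : Integrable (fun p : ℂ × ℂ => Real.log ‖p.1 - p.2‖) (ρ.prod (mes s2)) := by
    refine ⟨log_meas.aestronglyMeasurable, ?_⟩
    unfold HasFiniteIntegral
    rw [lintegral_prod _ log_meas.enorm.aemeasurable]
    have : ∀ᵐ y ∂ρ, ∫⁻ z, ‖Real.log ‖y - z‖‖ₑ ∂(mes s2) ≤ ENNReal.ofReal (5 * (((0 : ℕ) : ℝ) + 4)) := by
      filter_upwards [hae] with y hy
      obtain ⟨η, rfl⟩ := hy
      unfold mes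
      have m1 : Measurable fun z : ℂ => ‖Real.log ‖pp η - z‖‖ₑ :=
        (log_meas.comp (measurable_const.prodMk measurable_id)).enorm
      rw [lintegral_map m1 (pl_cont s2).measurable]
      simp only [norm_pp]
      exact log_bound 0 η
    refine lt_of_le_of_lt (lintegral_mono_ae this) ?_
    rw [lintegral_const, measure_univ, mul_one]
    exact ENNReal.ofReal_lt_top
  refine ⟨hi, ?_⟩
  rw [integral_prod _ hi]
  refine integral_eq_zero_of_ae ?_
  filter_upwards [hae] with y hy
  obtain ⟨η, rfl⟩ := hy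
  unfold mes
  have m1 : Measurable fun z : ℂ => Real.log ‖pp η - z‖ :=
    log_meas.comp (measurable_const.prodMk measurable_id)
  show ∫ z, Real.log ‖pp η - z‖ ∂_ = 0
  rw [integral_map (pl_cont s2).measurable.aemeasurable m1.aestronglyMeasurable]
  simp only [norm_pp]
  exact uu_zero η

theorem good (α β : Measure ℂ) [IsProbabilityMeasure α] [IsProbabilityMeasure β] [NullSingletonClass β]
    (hα : α KKᶜ = 0) (hβ : β KKᶜ = 0) :
    ∀ᵐ p ∂(α.prod β), |p.1.re - p.2.re| = ‖p.1 - p.2‖ ∧ 0 < ‖p.1 - p.2‖ ∧ ‖p.1 - p.2‖ ≤ 10 := by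
  have h : ∀ᵐ p ∂(α.prod β), p.1 ∈ KK ∧ p.2 ∈ KK ∧ p.1 ≠ p.2 := by
    rw [Measure.ae_prod_iff_ae_ae]
    · have h1 : ∀ᵐ y ∂α, y ∈ KK := hα
      have h2 : ∀ᵐ y ∂β, y ∈ KK := hβ
      filter_upwards [h1] with y hy
      filter_upwards [h2, Measure.ae_ne β y] with z hz hne
      exact ⟨hy, hz, hne.symm⟩
    · exact (measurable_fst KK_meas).inter ((measurable_snd KK_meas).inter
        (isOpen_ne_fun continuous_fst continuous_snd).measurableSet)
  filter_upwards [h] with p hp
  obtain ⟨⟨η, h1⟩, ⟨σ, h2⟩, h3⟩ := hp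
  refine ⟨?_, norm_pos_iff.mpr (sub_ne_zero.mpr h3), ?_⟩
  · rw [← h1, ← h2, norm_pp, abs_sub_comm]; simp [pp]
  · rw [← h1, ← h2, norm_pp]
    have a := xx_le 0 σ
    have b := xx_le 0 η
    have c := abs_sub (xx 0 σ) (xx 0 η)
    norm_num at a b
    linarith

theorem maxi (ρ : Measure ℂ) [IsProbabilityMeasure ρ] (hρ : ρ KKᶜ = 0) [NullSingletonClass ρ]
    (hi : Integrable (fun p : ℂ × ℂ => Real.log ‖p.1 - p.2‖) (ρ.prod ρ)) :
    ∫ p, Real.log ‖p.1 - p.2‖ ∂(ρ.prod ρ) ≤ 0 := by
  have := mes_noAtoms s2 cnt2'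
  have h := WF1.negdef 10 (by norm_num) ρ (mes s2) (good _ _ hρ hρ)
    (good _ _ (mes_compl _) (mes_compl _)) (good _ _ hρ (mes_compl _)) hi
    (cross _ (mes_compl _)).1 (cross _ hρ).1
  rw [(cross _ (mes_compl _)).2, (cross _ hρ).2] at h
  linarith

theorem ae_sum (φ : ZMod 4 → ℝ≥0∞) (h : (∑ s, φ s) / 4 < 1) :
    ∀ᵐ ω ∂hm, ∑' n, ∏ i ∈ range n, φ (ω i) < ⊤ := by
  have hmeas : ∀ n, Measurable (fun ω : OO => ∏ i ∈ range n, φ (ω i)) := fun n =>
    Finset.measurable_prod _ fun i _ => (measurable_of_finite φ).comp (measurable_pi_apply i)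
  refine ae_lt_top (Measurable.tsum hmeas) ?_
  rw [lintegral_tsum fun n => (hmeas n).aemeasurable]
  simp only [lprod (fun _ => φ), prod_const, card_range]
  rw [ENNReal.tsum_geometric, ENNReal.inv_ne_top]
  exact (tsub_pos_of_lt h).ne'

noncomputable def orb : ℕ → ℂ → ℝ
  | 0, z => z.re
  | k + 1, z => orb k z ^ 2 - cc k

theorem orb_cont (k : ℕ) : Continuous (orb k) := by
  induction k with
  | zero => exact Complex.continuous_re
  | succ k ih => exact (ih.pow 2).sub continuous_const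

theorem orb_pp (σ : ℕ → Bool) (k : ℕ) : orb k (pp σ) = xx k σ := by
  induction k with
  | zero => simp [orb, pp]
  | succ k ih => rw [orb, ih, xx_sq]; ring

noncomputable def g1 (b : Bool) : ℝ≥0∞ := ENNReal.ofReal (if b then 2 / 3 else 5 / 4)
noncomputable def g2 (b : Bool) : ℝ≥0∞ := ENNReal.ofReal (if b then 3 / 2 else 4 / 5)

theorem g12 (b : Bool) : g1 b * g2 b = 1 := by
  unfold g1 g2
  cases b <;> rw [← ENNReal.ofReal_mul (by norm_num)] <;> norm_num

theorem four_lt (a b c d : ℝ) (ha : 0 ≤ a) (hb : 0 ≤ b) (hc : 0 ≤ c) (hd : 0 ≤ d)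
    (h : a + b + c + d < 4) :
    (ENNReal.ofReal a + ENNReal.ofReal b + ENNReal.ofReal c + ENNReal.ofReal d) / 4 < 1 := by
  rw [← ENNReal.ofReal_add ha hb, ← ENNReal.ofReal_add (by positivity) hc,
    ← ENNReal.ofReal_add (by positivity) hd]
  apply ENNReal.div_lt_of_lt_mul
  rw [one_mul, ← ENNReal.ofReal_ofNat 4, ENNReal.ofReal_lt_ofReal_iff (by norm_num)]
  exact h

noncomputable def GG (z : ℂ) : ℝ≥0∞ := ∑' n, ∏ i ∈ range n, g1 (decide (0 < orb i z))

theorem GG_meas : Measurable GG := by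
  refine Measurable.tsum fun n => Finset.measurable_prod _ fun i _ => ?_
  have : (fun z => g1 (decide (0 < orb i z))) = fun z => if 0 < orb i z then g1 true else g1 false := by
    ext z; split_ifs with h <;> simp [h]
  rw [this]
  exact Measurable.ite (isOpen_lt continuous_const (orb_cont i)).measurableSet measurable_const
    measurable_const

theorem GG_pp (σ : ℕ → Bool) : GG (pp σ) = ∑' n, ∏ i ∈ range n, g1 (σ i) := by
  unfold GG
  simp only [orb_pp, xx_sign]

theorem sing : (mes s1).MutuallySingular (mes s2) := by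
  have hS : MeasurableSet {z | GG z < ⊤} := measurableSet_lt GG_meas measurable_const
  refine ⟨{z | GG z < ⊤}, hS, ?_, ?_⟩
  · unfold mes
    rw [Measure.map_apply (pl_cont s1).measurable hS, measure_eq_zero_iff_ae_notMem]
    have h := ae_sum (fun d => g2 (s1 d)) (by
      have h0 : s1 0 = true := by decide
      have h1 : s1 1 = false := by decide
      have h2 : s1 2 = false := by decide
      have h3 : s1 3 = false := by decide
      rw [sum4, h0, h1, h2, h3]
      apply four_lt <;> norm_num)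
    filter_upwards [h] with ω hω hmem
    have h2 : GG (pp (lift s1 ω)) < ⊤ := hmem
    rw [GG_pp] at h2
    have t1 := ENNReal.tendsto_atTop_zero_of_tsum_ne_top hω.ne
    have t2 := ENNReal.tendsto_atTop_zero_of_tsum_ne_top h2.ne
    obtain ⟨n, a1, a2⟩ := ((t1.eventually (gt_mem_nhds zero_lt_one)).and
      (t2.eventually (gt_mem_nhds zero_lt_one))).exists
    have a3 : (∏ i ∈ range n, g1 (lift s1 ω i)) * ∏ i ∈ range n, g2 (s1 (ω i)) = 1 := by
      rw [← prod_mul_distrib]
      exact prod_eq_one fun i _ => g12 _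
    have a4 := ENNReal.mul_lt_mul a2 a1
    rw [a3, mul_one] at a4
    exact lt_irrefl _ a4
  · unfold mes
    rw [Measure.map_apply (pl_cont s2).measurable hS.compl, measure_eq_zero_iff_ae_notMem]
    have h := ae_sum (fun d => g1 (s2 d)) (by
      have h0 : s2 0 = true := by decide
      have h1 : s2 1 = true := by decide
      have h2 : s2 2 = false := by decide
      have h3 : s2 3 = false := by decide
      rw [sum4, h0, h1, h2, h3]
      apply four_lt <;> norm_num)
    filter_upwards [h] with ω hω hmem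
    apply hmem
    show GG (pp (lift s2 ω)) < ⊤
    rw [GG_pp]
    exact hω

theorem wid (P : ℂ[X]) (hP : P.Monic) : 1 ≤ Real.sqrt (∫ z, ‖P.eval z‖ ^ 2 ∂(mes s1)) := by
  rw [Real.one_le_sqrt]
  unfold mes
  have hc : Continuous fun z : ℂ => ‖P.eval z‖ ^ 2 := P.continuous.norm.pow 2
  rw [integral_map (pl_cont s1).measurable.aemeasurable hc.aestronglyMeasurable]
  exact widom P hP

end Pool.Agent.H15.WF5
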