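import Mathlib

set_option autoImplicit false

namespace Pool.Agent.H15.WI

open MeasureTheory Filter Topology Set

/-- The Fejer kernel. -/
noncomputable def h (w : ℝ) : ℝ := ∫ t in (0 : ℝ)..1, (1 - t) * Real.cos (t * w)

lemma h_eq {w : ℝ} (hw : w ≠ 0) : h w = (1 - Real.cos w) / w ^ 2 := by
  have key : ∀ t ∈ uIcc (0 : ℝ) 1, HasDerivAt
      (fun t : ℝ => (1 - t) * Real.sin (t * w) / w - Real.cos (t * w) / w ^ 2)
      ((1 - t) * Real.cos (t * w)) t := by
    intro t _
    have h1 : HasDerivAt (fun t : ℝ => t * w) w t := by simpa using (hasDerivAt_id t).mul_const w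
    have h2 := ((((hasDerivAt_id t).const_sub 1).mul h1.sin).div_const w).sub
      (h1.cos.div_const (w ^ 2))
    refine h2.congr_deriv ?_
    simp only [id]
    field_simp
    ring
  unfold h
  rw [intervalIntegral.integral_eq_sub_of_hasDerivAt key
    (Continuous.intervalIntegrable (by fun_prop) _ _)]
  simp only [sub_self, zero_mul, one_mul, zero_div, Real.sin_zero, mul_zero, Real.cos_zero]
  ring

lemma h_zero : h 0 = 1 / 2 := by
  unfold h
  simp only [mul_zero, Real.cos_zero, mul_one]
  rw [intervalIntegral.integral_sub (by simp) (by simp)]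
  simp
  norm_num

lemma h_nonneg (w : ℝ) : 0 ≤ h w := by
  rcases eq_or_ne w 0 with rfl | hw
  · rw [h_zero]; norm_num
  · rw [h_eq hw]
    have := Real.cos_le_one w
    positivity

lemma h_le_one (w : ℝ) : h w ≤ 1 := by
  have : ‖h w‖ ≤ 1 * |(1 : ℝ) - 0| := by
    refine intervalIntegral.norm_integral_le_of_norm_le_const fun t ht => ?_
    rw [uIoc_of_le (by norm_num)] at ht
    rw [norm_mul, Real.norm_eq_abs, Real.norm_eq_abs, abs_of_nonneg (by linarith [ht.2])]
    have := Real.abs_cos_le_one (t * w)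
    have h0 := abs_nonneg (Real.cos (t * w))
    nlinarith [ht.1, ht.2]
  simp only [sub_zero, abs_one, mul_one, Real.norm_eq_abs] at this
  exact (le_abs_self _).trans this

lemma h_le_sq {w : ℝ} (hw : w ≠ 0) : h w ≤ 2 / w ^ 2 := by
  rw [h_eq hw]
  have := Real.neg_one_le_cos w
  gcongr
  linarith

lemma h_le (w : ℝ) : h w ≤ 4 * (1 + w ^ 2)⁻¹ := by
  have hp : 0 < 1 + w ^ 2 := by positivity
  rcases le_or_gt (w ^ 2) 1 with h1 | h1
  · refine (h_le_one w).trans ?_
    rw [← div_eq_mul_inv, le_div_iff₀ hp]; linarith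
  · have hw : w ≠ 0 := by rintro rfl; norm_num at h1
    refine (h_le_sq hw).trans ?_
    rw [← div_eq_mul_inv, div_le_div_iff₀ (by positivity) hp]; linarith

lemma h_cont : Continuous h := by
  unfold h
  exact intervalIntegral.continuous_parametric_intervalIntegral_of_continuous'
    (f := fun w t => (1 - t) * Real.cos (t * w)) (by fun_prop) 0 1

lemma h_int : Integrable h := by
  refine (integrable_inv_one_add_sq.const_mul 4).mono' h_cont.aestronglyMeasurable ?_
  exact Eventually.of_forall fun w => by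
    rw [Real.norm_eq_abs, abs_of_nonneg (h_nonneg w)]; exact h_le w

/-- The total mass of the kernel. -/
noncomputable def I : ℝ := ∫ w, h w

lemma I_pos : 0 < I :=
  integral_pos_of_integrable_nonneg_nonzero (x := 0) h_cont h_int h_nonneg
    (by rw [h_zero]; norm_num)

lemma hl_int {l : ℝ} (hl : 0 < l) : Integrable fun v => h (l * v) := h_int.comp_mul_left' hl.ne'

lemma hl_integral {l : ℝ} (hl : 0 < l) : ∫ v, h (l * v) = I / l := by
  rw [Measure.integral_comp_mul_left h l, abs_of_pos (inv_pos.2 hl), smul_eq_mul, I]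
  ring

lemma re_term (a : ℕ → ℝ) (σ τ y : ℝ) (hσ : 0 < σ) (n : ℕ) :
    (Complex.exp (τ * y * Complex.I) *
      LSeries.term (fun n => (a n : ℂ)) (σ + τ * Complex.I) n).re =
      a n / (n : ℝ) ^ σ * Real.cos (τ * (Real.log n - y)) := by
  rcases eq_or_ne n 0 with rfl | hn
  · simp [Real.zero_rpow hσ.ne']
  · have hn' : (0 : ℝ) < n := by positivity
    rw [LSeries.term_of_ne_zero hn, Complex.cpow_def_of_ne_zero (by exact_mod_cast hn),
      ← Complex.natCast_log, Real.rpow_def_of_pos hn']
    have : Complex.exp (τ * y * Complex.I) *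
        ((a n : ℂ) / Complex.exp ((Real.log n : ℂ) * (σ + τ * Complex.I))) =
        ((a n / Real.exp (Real.log n * σ) : ℝ) : ℂ) *
          Complex.exp (((-(τ * (Real.log n - y)) : ℝ) : ℂ) * Complex.I) := by
      generalize Real.log n = L
      push_cast
      have e : -(↑τ * ((L : ℂ) - ↑y)) * Complex.I =
          τ * y * Complex.I + -((L : ℂ) * (τ * Complex.I)) := by ring
      rw [mul_add, Complex.exp_add, e, Complex.exp_add, Complex.exp_neg]
      ring
    rw [this, Complex.re_ofReal_mul, Complex.exp_ofReal_mul_I_re, Real.cos_neg]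

lemma summable_real (a : ℕ → ℝ) (σ : ℝ) (hσ : 0 < σ)
    (hs : LSeriesSummable (fun n => (a n : ℂ)) σ) : Summable fun n => a n / (n : ℝ) ^ σ := by
  have := (Complex.reCLM.summable hs)
  refine this.congr fun n => ?_
  have h1 := re_term a σ 0 0 hσ n
  simpa using h1

lemma first_fourier (a : ℕ → ℝ) (ha : ∀ n, 0 ≤ a n) (σ l y : ℝ) (hσ : 0 < σ)
    (hs : ∀ τ : ℝ, LSeriesSummable (fun n => (a n : ℂ)) (σ + τ * Complex.I)) :
    HasSum (fun n : ℕ => a n / (n : ℝ) ^ σ * h (l * (Real.log n - y)))
      (∫ t in (0 : ℝ)..1, (1 - t) * (Complex.exp ((t * l : ℝ) * y * Complex.I) *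
        LSeries (fun n => (a n : ℂ)) (σ + (t * l : ℝ) * Complex.I)).re) := by
  have hsum := summable_real a σ hσ (by simpa using hs 0)
  have hb : ∀ n : ℕ, 0 ≤ a n / (n : ℝ) ^ σ := fun n => div_nonneg (ha n) (by positivity)
  have key := hasSum_integral_of_summable_integral_norm (μ := volume.restrict (Ioc (0 : ℝ) 1))
    (F := fun (n : ℕ) (t : ℝ) => (1 - t) * (a n / (n : ℝ) ^ σ *
      Real.cos (t * l * (Real.log n - y))))
    (fun n => (Continuous.integrableOn_Ioc (by fun_prop))) (by
      refine Summable.of_nonneg_of_le (fun n => integral_nonneg fun t => norm_nonneg _)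
        (fun n => ?_) hsum
      have : ∫ t in Ioc (0 : ℝ) 1, ‖(1 - t) * (a n / (n : ℝ) ^ σ *
          Real.cos (t * l * (Real.log n - y)))‖ ≤ ∫ t in Ioc (0 : ℝ) 1, a n / (n : ℝ) ^ σ := by
        refine setIntegral_mono_on (Continuous.integrableOn_Ioc (by fun_prop))
          (Continuous.integrableOn_Ioc (by fun_prop)) measurableSet_Ioc fun t ht => ?_
        rw [norm_mul, norm_mul, Real.norm_eq_abs, Real.norm_eq_abs, Real.norm_eq_abs,
          abs_of_nonneg (by linarith [ht.2]), abs_of_nonneg (hb n)]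
        have h1 := Real.abs_cos_le_one (t * l * (Real.log n - y))
        have h0 := abs_nonneg (Real.cos (t * l * (Real.log n - y)))
        have h2 : a n / (n : ℝ) ^ σ * |Real.cos (t * l * (Real.log n - y))| ≤
            a n / (n : ℝ) ^ σ := mul_le_of_le_one_right (hb n) h1
        have h3 : 0 ≤ a n / (n : ℝ) ^ σ * |Real.cos (t * l * (Real.log n - y))| :=
          mul_nonneg (hb n) h0
        nlinarith [ht.1, ht.2]
      simpa using this)
  rw [intervalIntegral.integral_of_le zero_le_one]
  have e1 : (fun n : ℕ => a n / (n : ℝ) ^ σ * h (l * (Real.log n - y))) = fun n : ℕ =>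
      ∫ t in Ioc (0 : ℝ) 1, (1 - t) * (a n / (n : ℝ) ^ σ *
        Real.cos (t * l * (Real.log n - y))) := by
    ext n
    unfold h
    rw [← intervalIntegral.integral_of_le zero_le_one, ← intervalIntegral.integral_const_mul]
    refine intervalIntegral.integral_congr fun t _ => ?_
    simp only [mul_assoc]
    ring
  have e2 : (fun t : ℝ => (1 - t) * (Complex.exp ((t * l : ℝ) * y * Complex.I) *
        LSeries (fun n => (a n : ℂ)) (σ + (t * l : ℝ) * Complex.I)).re) = fun t : ℝ =>
      ∑' n : ℕ, (1 - t) * (a n / (n : ℝ) ^ σ * Real.cos (t * l * (Real.log n - y))) := by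
    ext t
    rw [tsum_mul_left]
    congr 1
    have h1 := ((hs (t * l)).hasSum.mul_left (Complex.exp ((t * l : ℝ) * y * Complex.I)))
    have h2 := Complex.reCLM.hasSum h1
    simp only [Complex.reCLM_apply, re_term a σ (t * l) y hσ] at h2
    exact h2.tsum_eq.symm
  rw [e1, e2]
  exact key

lemma re_pole (e τ y : ℝ) (he : 0 < e) :
    (Complex.exp (τ * y * Complex.I) * ((e : ℂ) + τ * Complex.I)⁻¹).re =
      ∫ u in Ioi (0 : ℝ), Real.exp (-e * u) * Real.cos (τ * (u - y)) := by
  have ha : (-((e : ℂ) + τ * Complex.I)).re < 0 := by simpa using he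
  have h1 := integral_exp_mul_complex_Ioi ha 0
  have h2 := integrableOn_exp_mul_complex_Ioi ha 0
  have h3 : ((e : ℂ) + τ * Complex.I)⁻¹ =
      ∫ x : ℝ in Ioi 0, Complex.exp (-((e : ℂ) + τ * Complex.I) * x) := by
    rw [h1]; simp only [Complex.ofReal_zero, mul_zero, Complex.exp_zero, neg_div_neg_eq, one_div]
  rw [h3, ← integral_const_mul]
  have h4 := Complex.reCLM.integral_comp_comm
    (h2.const_mul (Complex.exp (τ * y * Complex.I)))
  simp only [Complex.reCLM_apply] at h4
  rw [← h4]
  refine setIntegral_congr_fun measurableSet_Ioi fun u _ => ?_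
  have : Complex.exp (τ * y * Complex.I) * Complex.exp (-((e : ℂ) + τ * Complex.I) * u) =
      ((Real.exp (-e * u) : ℝ) : ℂ) * Complex.exp (((-(τ * (u - y)) : ℝ) : ℂ) * Complex.I) := by
    push_cast
    rw [← Complex.exp_add, ← Complex.exp_add]
    congr 1; ring
  rw [this, Complex.re_ofReal_mul, Complex.exp_ofReal_mul_I_re, Real.cos_neg]

lemma second_fourier (e l y : ℝ) (he : 0 < e) :
    (∫ t in (0 : ℝ)..1, (1 - t) * (Complex.exp ((t * l : ℝ) * y * Complex.I) *
      ((e : ℂ) + (t * l : ℝ) * Complex.I)⁻¹).re) =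
      ∫ u in Ioi (0 : ℝ), Real.exp (-e * u) * h (l * (u - y)) := by
  simp only [re_pole e _ y he]
  rw [intervalIntegral.integral_of_le zero_le_one]
  simp only [← integral_const_mul]
  rw [integral_integral_swap]
  · refine setIntegral_congr_fun measurableSet_Ioi fun u _ => ?_
    unfold h
    rw [← intervalIntegral.integral_of_le zero_le_one, ← intervalIntegral.integral_const_mul]
    refine intervalIntegral.integral_congr fun t _ => ?_
    simp only [mul_assoc]
    ring
  · have hb : Integrable (fun z : ℝ × ℝ => (1 : ℝ) * Real.exp (-e * z.2))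
        ((volume.restrict (Ioc (0 : ℝ) 1)).prod (volume.restrict (Ioi (0 : ℝ)))) :=
      Integrable.mul_prod (f := fun _ : ℝ => (1 : ℝ)) (g := fun u : ℝ => Real.exp (-e * u))
        (integrable_const _) (exp_neg_integrableOn_Ioi 0 he)
    refine hb.mono' (Continuous.aestronglyMeasurable (by fun_prop)) ?_
    rw [Measure.prod_restrict]
    refine (ae_restrict_iff' (measurableSet_Ioc.prod measurableSet_Ioi)).2
      (Eventually.of_forall fun z hz => ?_)
    have ht := hz.1
    simp only [Function.uncurry]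
    rw [norm_mul, norm_mul, Real.norm_eq_abs, Real.norm_eq_abs, Real.norm_eq_abs,
      abs_of_nonneg (by linarith [ht.2]), abs_of_pos (Real.exp_pos _)]
    have h1 := Real.abs_cos_le_one (z.1 * l * (z.2 - y))
    have h0 := abs_nonneg (Real.cos (z.1 * l * (z.2 - y)))
    have h2 : Real.exp (-e * z.2) * |Real.cos (z.1 * l * (z.2 - y))| ≤ Real.exp (-e * z.2) :=
      mul_le_of_le_one_right (Real.exp_pos _).le h1
    have h3 : 0 ≤ Real.exp (-e * z.2) * |Real.cos (z.1 * l * (z.2 - y))| :=
      mul_nonneg (Real.exp_pos _).le h0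
    nlinarith [ht.1, ht.2]

/-- pole term at the boundary -/
noncomputable def P0 (l y : ℝ) : ℝ := ∫ u in Ioi (0 : ℝ), h (l * (u - y))

lemma pole_lim (l y : ℝ) (hl : 0 < l) :
    Tendsto (fun e : ℝ => ∫ u in Ioi (0 : ℝ), Real.exp (-e * u) * h (l * (u - y))) (𝓝[>] 0)
      (𝓝 (P0 l y)) := by
  have hi : Integrable fun u => h (l * (u - y)) := (hl_int hl).comp_sub_right y
  refine tendsto_integral_filter_of_dominated_convergence (fun u => h (l * (u - y))) ?_ ?_
    hi.integrableOn ?_
  · exact Eventually.of_forall fun e =>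
      Continuous.aestronglyMeasurable (by have := h_cont; fun_prop)
  · filter_upwards [self_mem_nhdsWithin] with e he
    refine (ae_restrict_iff' measurableSet_Ioi).2 (Eventually.of_forall fun u hu => ?_)
    rw [norm_mul, Real.norm_eq_abs, Real.norm_eq_abs, abs_of_pos (Real.exp_pos _),
      abs_of_nonneg (h_nonneg _)]
    refine mul_le_of_le_one_left (h_nonneg _) ?_
    rw [Real.exp_le_one_iff]
    have h1 : (0 : ℝ) < e := he
    have h2 : (0 : ℝ) < u := hu
    nlinarith
  · refine Eventually.of_forall fun u => ?_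
    have : Continuous fun e : ℝ => Real.exp (-e * u) * h (l * (u - y)) := by fun_prop
    have h2 := (this.tendsto 0).mono_left (nhdsWithin_le_nhds (s := Ioi (0 : ℝ)))
    simpa using h2

lemma P0_lim (l : ℝ) (hl : 0 < l) : Tendsto (P0 l) atTop (𝓝 (I / l)) := by
  have h1 := tendsto_setIntegral_of_monotone (μ := volume) (f := fun v => h (l * v))
    (s := fun y : ℝ => Ioi (-y)) (fun _ => measurableSet_Ioi)
    (fun y z hyz => Ioi_subset_Ioi (by linarith)) (hl_int hl).integrableOn
  have h2 : (⋃ y : ℝ, Ioi (-y)) = univ := by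
    ext v; simp only [mem_iUnion, mem_Ioi, mem_univ, iff_true]; exact ⟨-v + 1, by linarith⟩
  rw [h2, Measure.restrict_univ, hl_integral hl] at h1
  refine h1.congr fun y => ?_
  unfold P0
  rw [← integral_indicator measurableSet_Ioi, ← integral_indicator measurableSet_Ioi,
    ← integral_sub_right_eq_self _ y]
  refine integral_congr_ae (Eventually.of_forall fun u => ?_)
  simp only [indicator, mem_Ioi]
  have : -y < u - y ↔ 0 < u := by constructor <;> intro <;> linarith
  simp only [this]

/-- regular term at the boundary -/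
noncomputable def R (G : ℂ → ℂ) (l y e : ℝ) : ℝ :=
  ∫ t in (0 : ℝ)..1, (1 - t) * (Complex.exp ((t * l : ℝ) * y * Complex.I) *
    G (((1 + |e| : ℝ) : ℂ) + (t * l : ℝ) * Complex.I)).re

lemma G_cont (G : ℂ → ℂ) (hG : ContinuousOn G {s | 1 ≤ s.re}) (l : ℝ) :
    Continuous fun z : ℝ × ℝ => G (((1 + |z.1| : ℝ) : ℂ) + (z.2 * l : ℝ) * Complex.I) := by
  refine hG.comp_continuous (by fun_prop) fun z => ?_
  simp

lemma R_cont (G : ℂ → ℂ) (hG : ContinuousOn G {s | 1 ≤ s.re}) (l y : ℝ) :
    Continuous (R G l y) := by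
  unfold R
  refine intervalIntegral.continuous_parametric_intervalIntegral_of_continuous' ?_ 0 1
  have h1 : Continuous fun z : ℝ × ℝ => Complex.exp ((z.2 * l : ℝ) * y * Complex.I) := by fun_prop
  have h2 : Continuous fun z : ℝ × ℝ => 1 - z.2 := by fun_prop
  exact h2.mul (Complex.continuous_re.comp (h1.mul (G_cont G hG l)))

lemma R_lim (G : ℂ → ℂ) (hG : ContinuousOn G {s | 1 ≤ s.re}) (l : ℝ) (hl : 0 < l) :
    Tendsto (fun y => R G l y 0) atTop (𝓝 0) := by
  have hc : Continuous fun t : ℝ => G (((1 + |(0 : ℝ)| : ℝ) : ℂ) + (t * l : ℝ) * Complex.I) :=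
    (G_cont G hG l).comp (Continuous.prodMk_right (0 : ℝ))
  obtain ⟨f, hf⟩ : ∃ f : ℝ → ℂ, f = fun t : ℝ => ((1 - t : ℝ) : ℂ) *
      G (((1 + |(0 : ℝ)| : ℝ) : ℂ) + (t * l : ℝ) * Complex.I) := ⟨_, rfl⟩
  have hfc : Continuous f := by rw [hf]; exact Continuous.mul (by fun_prop) hc
  have h1 := Real.tendsto_integral_exp_smul_cocompact (indicator (Ioc (0 : ℝ) 1) f)
  have h2 : Tendsto (fun y : ℝ => -(l / (2 * Real.pi)) * y) atTop (cocompact ℝ) := by
    refine Tendsto.mono_right ?_ atBot_le_cocompact
    exact tendsto_id.const_mul_atTop_of_neg (by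
      have := Real.pi_pos
      have : 0 < l / (2 * Real.pi) := by positivity
      linarith)
  have h3 := (Complex.continuous_re.tendsto 0).comp (h1.comp h2)
  refine h3.congr fun y => ?_
  simp only [Function.comp]
  have h4 : ∀ v : ℝ, (Real.fourierChar (-(v * (-(l / (2 * Real.pi)) * y)))) •
      indicator (Ioc (0 : ℝ) 1) f v = indicator (Ioc (0 : ℝ) 1)
        (fun v => Complex.exp ((v * l : ℝ) * y * Complex.I) * f v) v := by
    intro v
    by_cases hv : v ∈ Ioc (0 : ℝ) 1
    · rw [indicator_of_mem hv, indicator_of_mem hv, Circle.smul_def, Real.fourierChar_apply,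
        smul_eq_mul]
      congr 2
      have := Real.pi_pos
      have e : 2 * Real.pi * -(v * (-(l / (2 * Real.pi)) * y)) = v * l * y := by
        field_simp
      rw [e]; push_cast; ring
    · rw [indicator_of_notMem hv, indicator_of_notMem hv, smul_zero]
  simp only [h4]
  rw [integral_indicator measurableSet_Ioc]
  have h5 := Complex.reCLM.integral_comp_comm (μ := volume.restrict (Ioc (0 : ℝ) 1))
    (φ := fun v : ℝ => Complex.exp ((v * l : ℝ) * y * Complex.I) * f v)
    (Continuous.integrableOn_Ioc (by fun_prop))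
  simp only [Complex.reCLM_apply] at h5
  rw [← h5]
  unfold R
  rw [intervalIntegral.integral_of_le zero_le_one]
  refine setIntegral_congr_fun measurableSet_Ioc fun v _ => ?_
  simp only [hf]
  rw [mul_left_comm, Complex.re_ofReal_mul]

end Pool.Agent.H15.WI
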