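import Pool.Agent.H15.WI1

set_option autoImplicit false

namespace Pool.Agent.H15.WI

open MeasureTheory Filter Topology Set

/-- Hypotheses of the Tauberian theorem. -/
structure Hyp (a : ℕ → ℝ) (C A : ℝ) (G : ℂ → ℂ) : Prop where
  nonneg : ∀ n, 0 ≤ a n
  cheb : ∀ x : ℝ, 0 ≤ x → ∑ n ∈ Finset.Ioc 0 ⌊x⌋₊, a n ≤ C * x
  A_nonneg : 0 ≤ A
  cont : ContinuousOn G {s | 1 ≤ s.re}
  summ : ∀ s : ℂ, 1 < s.re → LSeriesSummable (fun n => (a n : ℂ)) s
  eq : ∀ s : ℂ, 1 < s.re → LSeries (fun n => (a n : ℂ)) s = A / (s - 1) + G s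

variable {a : ℕ → ℝ} {C A : ℝ} {G : ℂ → ℂ}

lemma S_hasSum (H : Hyp a C A G) (e l y : ℝ) (he : 0 < e) :
    HasSum (fun n : ℕ => a n / (n : ℝ) ^ (1 + e) * h (l * (Real.log n - y)))
      (A * (∫ u in Ioi (0 : ℝ), Real.exp (-e * u) * h (l * (u - y))) + R G l y e) := by
  have h1 := first_fourier a H.nonneg (1 + e) l y (by linarith)
    (fun τ => H.summ _ (by simp; linarith))
  rw [← second_fourier e l y he, ← intervalIntegral.integral_const_mul]
  unfold R
  have c0 : Continuous fun t : ℝ => Complex.exp ((t * l : ℝ) * y * Complex.I) := by fun_prop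
  have c1 : Continuous fun t : ℝ => ((e : ℂ) + (t * l : ℝ) * Complex.I)⁻¹ := by
    refine Continuous.inv₀ (by fun_prop) fun t ht => ?_
    have := congrArg Complex.re ht
    simp at this
    linarith
  have c2 : Continuous fun t : ℝ => G (((1 + |e| : ℝ) : ℂ) + (t * l : ℝ) * Complex.I) :=
    (G_cont G H.cont l).comp (Continuous.prodMk_right e)
  have c3 : Continuous fun t : ℝ => 1 - t := by fun_prop
  have d1 : Continuous fun t : ℝ => A * ((1 - t) * (Complex.exp ((t * l : ℝ) * y * Complex.I) *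
      ((e : ℂ) + (t * l : ℝ) * Complex.I)⁻¹).re) :=
    continuous_const.mul (c3.mul (Complex.continuous_re.comp (c0.mul c1)))
  have d2 : Continuous fun t : ℝ => (1 - t) * (Complex.exp ((t * l : ℝ) * y * Complex.I) *
      G (((1 + |e| : ℝ) : ℂ) + (t * l : ℝ) * Complex.I)).re :=
    c3.mul (Complex.continuous_re.comp (c0.mul c2))
  rw [← intervalIntegral.integral_add (d1.intervalIntegrable _ _) (d2.intervalIntegrable _ _)]
  convert h1 using 1
  refine intervalIntegral.integral_congr fun t _ => ?_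
  rw [H.eq _ (by simp; linarith), abs_of_pos he]
  have e1 : (((1 + e : ℝ) : ℂ) + (t * l : ℝ) * Complex.I - 1) = (e : ℂ) + (t * l : ℝ) * Complex.I := by
    push_cast; ring
  rw [e1, mul_add, Complex.add_re, div_eq_mul_inv, mul_left_comm _ (A : ℂ), Complex.re_ofReal_mul]
  ring

/-- The limiting value of the smoothed sums. -/
noncomputable def E (A : ℝ) (G : ℂ → ℂ) (l y : ℝ) : ℝ := A * P0 l y + R G l y 0

lemma S_lim (H : Hyp a C A G) (l y : ℝ) (hl : 0 < l) :
    Tendsto (fun e : ℝ =>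
      A * (∫ u in Ioi (0 : ℝ), Real.exp (-e * u) * h (l * (u - y))) + R G l y e) (𝓝[>] 0)
      (𝓝 (E A G l y)) :=
  ((pole_lim l y hl).const_mul A).add
    (((R_cont G H.cont l y).tendsto 0).mono_left nhdsWithin_le_nhds)

lemma E_lim (H : Hyp a C A G) (l : ℝ) (hl : 0 < l) :
    Tendsto (E A G l) atTop (𝓝 (A * (I / l))) := by
  have := ((P0_lim l hl).const_mul A).add (R_lim G H.cont l hl)
  rw [add_zero] at this
  exact this

lemma summable_int : Summable fun j : ℤ => (1 + (j : ℝ) ^ 2)⁻¹ := by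
  refine Summable.of_norm_bounded_eventually (g := fun j : ℤ => 1 / (j : ℝ) ^ 2)
    (Real.summable_one_div_int_pow.2 (by norm_num)) ?_
  filter_upwards [eventually_cofinite_ne (0 : ℤ)] with j hj
  have : (0 : ℝ) < (j : ℝ) ^ 2 := by positivity
  rw [Real.norm_eq_abs, abs_of_pos (by positivity), one_div]
  exact inv_anti₀ this (by linarith)

lemma cheb_tail (H : Hyp a C A G) : ∃ K : ℝ, 0 ≤ K ∧ ∀ (y : ℝ) (s : Finset ℕ),
    ∑ n ∈ s, a n / n * (1 + (Real.log n - y) ^ 2)⁻¹ ≤ K := by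
  classical
  have hC : 0 ≤ C := by
    have h1 := H.cheb 1 zero_le_one
    have h2 : 0 ≤ ∑ n ∈ Finset.Ioc 0 ⌊(1 : ℝ)⌋₊, a n := Finset.sum_nonneg fun n _ => H.nonneg n
    linarith
  refine ⟨3 * (C * Real.exp 1) * ∑' j : ℤ, (1 + (j : ℝ) ^ 2)⁻¹, ?_, fun y s => ?_⟩
  · have : 0 ≤ ∑' j : ℤ, (1 + (j : ℝ) ^ 2)⁻¹ := tsum_nonneg fun j => by positivity
    positivity
  rw [← Finset.sum_fiberwise_of_maps_to (s := s) (t := s.image fun n : ℕ => ⌊Real.log n - y⌋)
    (g := fun n : ℕ => ⌊Real.log n - y⌋) (fun n hn => Finset.mem_image_of_mem _ hn)]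
  refine le_trans (Finset.sum_le_sum (g := fun j : ℤ => 3 * (C * Real.exp 1) * (1 + (j : ℝ) ^ 2)⁻¹)
    fun j _ => ?_) ?_
  · have h1 : ∀ n ∈ s.filter (fun n : ℕ => ⌊Real.log n - y⌋ = j),
        a n / n * (1 + (Real.log n - y) ^ 2)⁻¹ ≤
        (if n ∈ Finset.Ioc 0 ⌊Real.exp (y + j + 1)⌋₊ then a n else 0) *
          (Real.exp (-(y + j)) * (3 * (1 + (j : ℝ) ^ 2)⁻¹)) := by
      intro n hn
      have hj := (Finset.mem_filter.1 hn).2
      rcases Nat.eq_zero_or_pos n with rfl | hn0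
      · simp
      have hn' : (0 : ℝ) < n := by exact_mod_cast hn0
      have l1 : (j : ℝ) ≤ Real.log n - y := by rw [← hj]; exact Int.floor_le _
      have l2 : Real.log n - y < j + 1 := by rw [← hj]; exact Int.lt_floor_add_one _
      have m1 : n ∈ Finset.Ioc 0 ⌊Real.exp (y + j + 1)⌋₊ := by
        rw [Finset.mem_Ioc]
        refine ⟨hn0, Nat.le_floor ?_⟩
        rw [← Real.exp_log hn']
        exact Real.exp_le_exp.2 (by linarith)
      rw [if_pos m1, div_eq_mul_inv, mul_assoc]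
      refine mul_le_mul_of_nonneg_left ?_ (H.nonneg n)
      refine mul_le_mul ?_ ?_ (by positivity) (by positivity)
      · rw [← Real.exp_log hn', ← Real.exp_neg]
        exact Real.exp_le_exp.2 (by linarith)
      · rw [← div_eq_mul_inv, inv_eq_one_div, div_le_div_iff₀ (by positivity) (by positivity)]
        obtain ⟨f, hf⟩ : ∃ f, f = Real.log n - y - j := ⟨_, rfl⟩
        have e : Real.log n - y = j + f := by linarith
        rw [e]
        have f0 : 0 ≤ f := by linarith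
        have f1 : f < 1 := by linarith
        nlinarith [sq_nonneg ((j : ℝ) + 2 * f)]
    refine (Finset.sum_le_sum h1).trans ?_
    rw [← Finset.sum_mul]
    have h2 : ∑ n ∈ s.filter (fun n : ℕ => ⌊Real.log n - y⌋ = j),
        (if n ∈ Finset.Ioc 0 ⌊Real.exp (y + j + 1)⌋₊ then a n else 0) ≤
        C * Real.exp (y + j + 1) := by
      refine le_trans ?_ (H.cheb _ (Real.exp_pos _).le)
      rw [← Finset.sum_filter]
      exact Finset.sum_le_sum_of_subset_of_nonneg (fun n hn => (Finset.mem_filter.1 hn).2)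
        fun n _ _ => H.nonneg n
    refine (mul_le_mul_of_nonneg_right h2 (by positivity)).trans (le_of_eq ?_)
    have e : Real.exp (y + j + 1) * Real.exp (-(y + j)) = Real.exp 1 := by
      rw [← Real.exp_add]; congr 1; ring
    rw [← e]; ring
  · rw [← Finset.mul_sum]
    exact mul_le_mul_of_nonneg_left
      (summable_int.sum_le_tsum _ fun j _ => by positivity) (by positivity)

lemma h_tail {l η u : ℝ} (hl : 0 < l) (hη : 0 < η) (hu : η ≤ |u|) :
    h (l * u) ≤ 2 * (1 + 1 / η ^ 2) / l ^ 2 * (1 + u ^ 2)⁻¹ := by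
  have hu0 : u ≠ 0 := by rintro rfl; simp at hu; linarith
  have hu2 : η ^ 2 ≤ u ^ 2 := by rw [← sq_abs u]; gcongr
  refine (h_le_sq (mul_ne_zero hl.ne' hu0)).trans ?_
  have h1 : 1 ≤ u ^ 2 / η ^ 2 := by rw [le_div_iff₀ (by positivity)]; linarith
  rw [← div_eq_mul_inv, div_le_div_iff₀ (by positivity) (by positivity)]
  have e : 2 * (1 + 1 / η ^ 2) / l ^ 2 * (l * u) ^ 2 = 2 * (u ^ 2 + u ^ 2 / η ^ 2) := by
    field_simp
  rw [e]; linarith

lemma rpow_le (n : ℕ) {e : ℝ} (he : 0 < e) (x : ℝ) (hx : 0 ≤ x) : x / (n : ℝ) ^ (1 + e) ≤ x / n := by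
  rcases Nat.eq_zero_or_pos n with rfl | hn
  · simp [Real.zero_rpow (by linarith : (1 + e) ≠ 0)]
  · have hn' : (1 : ℝ) ≤ n := by exact_mod_cast hn
    refine div_le_div_of_nonneg_left hx (by linarith) ?_
    calc (n : ℝ) = (n : ℝ) ^ (1 : ℝ) := (Real.rpow_one _).symm
      _ ≤ _ := Real.rpow_le_rpow_of_exponent_le hn' (by linarith)

lemma window_lower (H : Hyp a C A G) {K : ℝ} (hK : ∀ (y : ℝ) (s : Finset ℕ),
    ∑ n ∈ s, a n / n * (1 + (Real.log n - y) ^ 2)⁻¹ ≤ K) {l η : ℝ} (hl : 0 < l) (hη : 0 < η)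
    (y : ℝ) (W : Finset ℕ) (hW : ∀ n : ℕ, 0 < n → n ∉ W → η ≤ |Real.log n - y|) :
    E A G l y ≤ ∑ n ∈ W, a n / n * h (l * (Real.log n - y)) + 2 * (1 + 1 / η ^ 2) / l ^ 2 * K := by
  classical
  refine le_of_tendsto (S_lim H l y hl) ?_
  filter_upwards [self_mem_nhdsWithin] with e he
  refine hasSum_le_of_sum_le (S_hasSum H e l y he) fun s => ?_
  have h1 : ∑ n ∈ s, a n / (n : ℝ) ^ (1 + e) * h (l * (Real.log n - y)) ≤
      ∑ n ∈ s, a n / n * h (l * (Real.log n - y)) :=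
    Finset.sum_le_sum fun n _ =>
      mul_le_mul_of_nonneg_right (rpow_le n he _ (H.nonneg n)) (h_nonneg _)
  refine h1.trans ?_
  rw [← Finset.sum_filter_add_sum_filter_not s (fun n => n ∈ W)]
  refine add_le_add ?_ ?_
  · exact Finset.sum_le_sum_of_subset_of_nonneg (fun n hn => (Finset.mem_filter.1 hn).2)
      fun n _ _ => mul_nonneg (div_nonneg (H.nonneg n) (Nat.cast_nonneg n)) (h_nonneg _)
  · refine le_trans ?_ (mul_le_mul_of_nonneg_left (hK y (s.filter fun n => n ∉ W)) (by positivity))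
    rw [Finset.mul_sum]
    refine Finset.sum_le_sum fun n hn => ?_
    rcases Nat.eq_zero_or_pos n with rfl | hn0
    · simp
    rw [mul_left_comm]
    exact mul_le_mul_of_nonneg_left (h_tail hl hη (hW n hn0 (Finset.mem_filter.1 hn).2))
      (div_nonneg (H.nonneg n) (Nat.cast_nonneg n))

lemma window_upper (H : Hyp a C A G) {l : ℝ} (hl : 0 < l) (y : ℝ) (W : Finset ℕ)
    (hW : ∀ n ∈ W, 0 < n) :
    ∑ n ∈ W, a n / n * h (l * (Real.log n - y)) ≤ E A G l y := by
  have h1 : Tendsto (fun e : ℝ => ∑ n ∈ W, a n / (n : ℝ) ^ (1 + e) * h (l * (Real.log n - y)))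
      (𝓝[>] 0) (𝓝 (∑ n ∈ W, a n / n * h (l * (Real.log n - y)))) := by
    refine Tendsto.mono_left ?_ nhdsWithin_le_nhds
    refine tendsto_finsetSum _ fun n hn => Tendsto.mul_const _ ?_
    have hn' : (0 : ℝ) < n := by exact_mod_cast hW n hn
    have c : Continuous fun e : ℝ => a n / (n : ℝ) ^ (1 + e) := by
      refine continuous_const.div (Continuous.rpow continuous_const (by fun_prop)
        fun _ => Or.inl hn'.ne') fun e => (Real.rpow_pos_of_pos hn' _).ne'
    simpa using c.tendsto 0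
  refine le_of_tendsto_of_tendsto h1 (S_lim H l y hl) ?_
  filter_upwards [self_mem_nhdsWithin] with e he
  exact sum_le_hasSum W (fun n _ => mul_nonneg (div_nonneg (H.nonneg n) (by positivity))
    (h_nonneg _)) (S_hasSum H e l y he)

lemma hw_int {l : ℝ} (hl : 0 < l) (w : ℝ) : Integrable fun v => h (l * (w - v)) :=
  (hl_int hl).comp_sub_left w

lemma hw_integral {l : ℝ} (hl : 0 < l) (w : ℝ) : ∫ v, h (l * (w - v)) = I / l := by
  rw [integral_sub_left_eq_self (fun v => h (l * v)) volume w, hl_integral hl]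

lemma avg_le {l L : ℝ} (hl : 0 < l) (hL : 0 ≤ L) (w : ℝ) :
    ∫ v in (0 : ℝ)..L, h (l * (w - v)) ≤ I / l := by
  rw [intervalIntegral.integral_of_le hL, ← hw_integral hl w]
  exact setIntegral_le_integral (hw_int hl w) (Eventually.of_forall fun v => h_nonneg _)

lemma avg_ge {l L η w : ℝ} (hl : 0 < l) (hη : 0 < η) (h1 : η ≤ w) (h2 : w ≤ L - η) :
    I / l - 2 * (1 + 1 / η ^ 2) / l ^ 2 * Real.pi ≤ ∫ v in (0 : ℝ)..L, h (l * (w - v)) := by
  rw [intervalIntegral.integral_of_le (by linarith), ← hw_integral hl w,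
    ← integral_add_compl (s := Ioc 0 L) measurableSet_Ioc (hw_int hl w)]
  have i1 : Integrable fun v : ℝ => 2 * (1 + 1 / η ^ 2) / l ^ 2 * (1 + (w - v) ^ 2)⁻¹ :=
    (integrable_inv_one_add_sq.comp_sub_left w).const_mul _
  have h3 : ∫ v in (Ioc 0 L)ᶜ, h (l * (w - v)) ≤
      ∫ v in (Ioc 0 L)ᶜ, 2 * (1 + 1 / η ^ 2) / l ^ 2 * (1 + (w - v) ^ 2)⁻¹ := by
    refine setIntegral_mono_on (hw_int hl w).integrableOn i1.integrableOn
      measurableSet_Ioc.compl fun v hv => h_tail hl hη ?_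
    simp only [mem_compl_iff, mem_Ioc, not_and_or, not_lt, not_le] at hv
    rcases hv with hv | hv
    · exact le_trans (by linarith) (le_abs_self _)
    · exact le_trans (by linarith) (neg_le_abs _)
  have h4 : ∫ v in (Ioc 0 L)ᶜ, 2 * (1 + 1 / η ^ 2) / l ^ 2 * (1 + (w - v) ^ 2)⁻¹ ≤
      ∫ v, 2 * (1 + 1 / η ^ 2) / l ^ 2 * (1 + (w - v) ^ 2)⁻¹ :=
    setIntegral_le_integral i1 (Eventually.of_forall fun v => by positivity)
  have h5 : ∫ v, 2 * (1 + 1 / η ^ 2) / l ^ 2 * (1 + (w - v) ^ 2)⁻¹ =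
      2 * (1 + 1 / η ^ 2) / l ^ 2 * Real.pi := by
    rw [integral_const_mul, integral_sub_left_eq_self (fun v : ℝ => (1 + v ^ 2)⁻¹) volume w,
      integral_univ_inv_one_add_sq]
  linarith

/-- logarithmic mass of a window -/
noncomputable def m (a : ℕ → ℝ) (ρ x : ℝ) : ℝ := ∑ n ∈ Finset.Ioc ⌊x⌋₊ ⌊ρ * x⌋₊, a n / n

lemma E_near (H : Hyp a C A G) {l δ : ℝ} (hl : 0 < l) (hδ : 0 < δ) (c : ℝ) :
    ∀ᶠ x : ℝ in atTop, ∀ v, 0 ≤ v → |E A G l (Real.log x + c + v) - A * (I / l)| ≤ δ := by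
  obtain ⟨Y, hY⟩ := Metric.tendsto_atTop.1 (E_lim H l hl) δ hδ
  filter_upwards [Real.tendsto_log_atTop.eventually_ge_atTop (Y - c)] with x hx v hv
  exact (hY _ (by linarith)).le

lemma sum_int (a : ℕ → ℝ) (W : Finset ℕ) (l y L : ℝ) :
    ∫ v in (0 : ℝ)..L, ∑ n ∈ W, a n / n * h (l * (Real.log n - (y + v))) =
      ∑ n ∈ W, a n / n * ∫ v in (0 : ℝ)..L, h (l * (Real.log n - y - v)) := by
  rw [intervalIntegral.integral_finsetSum fun n _ =>
    Continuous.intervalIntegrable (by have := h_cont; fun_prop) _ _]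
  refine Finset.sum_congr rfl fun n _ => ?_
  rw [intervalIntegral.integral_const_mul]
  simp only [sub_sub]

lemma m_lower (H : Hyp a C A G) {K : ℝ} (hK : ∀ (y : ℝ) (s : Finset ℕ),
    ∑ n ∈ s, a n / n * (1 + (Real.log n - y) ^ 2)⁻¹ ≤ K) {ρ l η δ : ℝ} (hρ : 1 < ρ) (hl : 0 < l)
    (hη : 0 < η) (hη2 : 2 * η ≤ Real.log ρ) (hδ : 0 < δ) :
    ∀ᶠ x : ℝ in atTop, (Real.log ρ - 2 * η) * (A * (I / l) - δ - 2 * (1 + 1 / η ^ 2) / l ^ 2 * K)
      ≤ m a ρ x * (I / l) := by
  filter_upwards [E_near H hl hδ η, eventually_gt_atTop 0] with x hx hx0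
  have h1 : ∫ v in (0 : ℝ)..(Real.log ρ - 2 * η),
      (A * (I / l) - δ - 2 * (1 + 1 / η ^ 2) / l ^ 2 * K) ≤
      ∫ v in (0 : ℝ)..(Real.log ρ - 2 * η), ∑ n ∈ Finset.Ioc ⌊x⌋₊ ⌊ρ * x⌋₊,
        a n / n * h (l * (Real.log n - (Real.log x + η + v))) := by
    refine intervalIntegral.integral_mono_on (by linarith) (by simp)
      (Continuous.intervalIntegrable (by have := h_cont; fun_prop) _ _) fun v hv => ?_
    have h2 := window_lower H hK hl hη (Real.log x + η + v) (Finset.Ioc ⌊x⌋₊ ⌊ρ * x⌋₊) (by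
      intro n hn hnW
      have hn' : (0 : ℝ) < n := by exact_mod_cast hn
      simp only [Finset.mem_Ioc, not_and_or, not_lt, not_le] at hnW
      rcases hnW with h3 | h3
      · have h4 : (n : ℝ) ≤ x := (Nat.le_floor_iff hx0.le).1 h3
        have h5 := Real.log_le_log hn' h4
        exact le_trans (by linarith [hv.1]) (neg_le_abs _)
      · have h4 : ρ * x < n := (Nat.floor_lt (by positivity)).1 h3
        have h5 := Real.log_lt_log (by positivity) h4
        rw [Real.log_mul (by positivity) hx0.ne'] at h5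
        exact le_trans (by linarith [hv.2]) (le_abs_self _))
    have h3 := (abs_le.1 (hx v hv.1)).1
    linarith
  rw [sum_int, intervalIntegral.integral_const, smul_eq_mul, sub_zero] at h1
  refine h1.trans ?_
  unfold m
  rw [Finset.sum_mul]
  exact Finset.sum_le_sum fun n _ => mul_le_mul_of_nonneg_left (avg_le hl (by linarith) _)
    (div_nonneg (H.nonneg n) (Nat.cast_nonneg n))

lemma m_upper (H : Hyp a C A G) {ρ l η δ : ℝ} (hρ : 1 < ρ) (hl : 0 < l)
    (hη : 0 < η) (hδ : 0 < δ) :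
    ∀ᶠ x : ℝ in atTop, m a ρ x * (I / l - 2 * (1 + 1 / η ^ 2) / l ^ 2 * Real.pi) ≤
      (Real.log ρ + 2 * η) * (A * (I / l) + δ) := by
  have hL := Real.log_pos hρ
  filter_upwards [E_near H hl hδ (-η), eventually_gt_atTop 0] with x hx hx0
  have h1 : ∫ v in (0 : ℝ)..(Real.log ρ + 2 * η), ∑ n ∈ Finset.Ioc ⌊x⌋₊ ⌊ρ * x⌋₊,
        a n / n * h (l * (Real.log n - (Real.log x + -η + v))) ≤
      ∫ v in (0 : ℝ)..(Real.log ρ + 2 * η), (A * (I / l) + δ) := by
    refine intervalIntegral.integral_mono_on (by linarith)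
      (Continuous.intervalIntegrable (by have := h_cont; fun_prop) _ _) (by simp) fun v hv => ?_
    have h2 := window_upper H hl (Real.log x + -η + v) (Finset.Ioc ⌊x⌋₊ ⌊ρ * x⌋₊)
      (fun n hn => lt_of_le_of_lt (Nat.zero_le _) (Finset.mem_Ioc.1 hn).1)
    have h3 := (abs_le.1 (hx v hv.1)).2
    linarith
  rw [sum_int, intervalIntegral.integral_const, smul_eq_mul, sub_zero] at h1
  refine le_trans ?_ h1
  unfold m
  rw [Finset.sum_mul]
  refine Finset.sum_le_sum fun n hn => mul_le_mul_of_nonneg_left (avg_ge hl hη ?_ ?_)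
    (div_nonneg (H.nonneg n) (Nat.cast_nonneg n))
  · have h4 : x < n := (Nat.floor_lt hx0.le).1 (Finset.mem_Ioc.1 hn).1
    have h5 := Real.log_lt_log hx0 h4
    linarith
  · have h4 : (n : ℝ) ≤ ρ * x := (Nat.le_floor_iff (by positivity)).1 (Finset.mem_Ioc.1 hn).2
    have hn' : (0 : ℝ) < n := hx0.trans ((Nat.floor_lt hx0.le).1 (Finset.mem_Ioc.1 hn).1)
    have h5 := Real.log_le_log hn' h4
    rw [Real.log_mul (by positivity) hx0.ne'] at h5
    linarith

/-- Tauberian theorem for windows `(x, ρ x]`. -/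
theorem window (H : Hyp a C A G) {ρ : ℝ} (hρ : 1 < ρ) :
    Tendsto (m a ρ) atTop (𝓝 (A * Real.log ρ)) := by
  obtain ⟨K, hK0, hK⟩ := cheb_tail H
  have hL := Real.log_pos hρ
  have hA := H.A_nonneg
  have hI := I_pos
  obtain ⟨L, hLe⟩ : ∃ L, L = Real.log ρ := ⟨_, rfl⟩
  refine tendsto_order.2 ⟨fun c hc => ?_, fun c hc => ?_⟩
  · obtain ⟨g, hg⟩ : ∃ g, g = A * Real.log ρ - c := ⟨_, rfl⟩
    have hg0 : 0 < g := by linarith
    obtain ⟨η, hη, hη1, hη2⟩ : ∃ η : ℝ, 0 < η ∧ 2 * η ≤ Real.log ρ ∧ 2 * η * A ≤ g / 4 := by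
      refine ⟨min (Real.log ρ / 2) (g / (8 * (A + 1))), by positivity, ?_, ?_⟩
      · have := min_le_left (Real.log ρ / 2) (g / (8 * (A + 1))); linarith
      · have h1 := min_le_right (Real.log ρ / 2) (g / (8 * (A + 1)))
        have h2 : g / (8 * (A + 1)) * (8 * (A + 1)) = g := by field_simp
        have h3 : 0 < g / (8 * (A + 1)) := by positivity
        nlinarith
    obtain ⟨B, hB⟩ : ∃ B, B = 2 * (1 + 1 / η ^ 2) * K := ⟨_, rfl⟩
    have hB0 : 0 ≤ B := by rw [hB]; positivity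
    obtain ⟨l, hl⟩ : ∃ l, l = 4 * Real.log ρ * (B + 1) / (g * I) := ⟨_, rfl⟩
    have hl0 : 0 < l := by rw [hl]; positivity
    filter_upwards [m_lower H hK hρ hl0 hη hη1 (δ := g * (I / l) / (4 * Real.log ρ))
      (by positivity)] with x hx
    have e1 : 2 * (1 + 1 / η ^ 2) / l ^ 2 * K = (B / (l * I)) * (I / l) := by
      rw [hB]; field_simp
    have e2 : (Real.log ρ - 2 * η) * (A * (I / l) - g * (I / l) / (4 * Real.log ρ) -
        (B / (l * I)) * (I / l)) =
        (Real.log ρ - 2 * η) * (A - g / (4 * Real.log ρ) - B / (l * I)) * (I / l) := by ring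
    rw [e1, e2] at hx
    have h1 := le_of_mul_le_mul_right hx (by positivity)
    have e3 : B / (l * I) ≤ g / (4 * Real.log ρ) := by
      rw [div_le_div_iff₀ (by positivity) (by positivity), hl]
      field_simp
      linarith
    obtain ⟨t, ht⟩ : ∃ t, t = g / (4 * Real.log ρ) := ⟨_, rfl⟩
    have ht1 : t * Real.log ρ = g / 4 := by rw [ht]; field_simp
    have ht0 : 0 < t := by rw [ht]; positivity
    rw [← ht] at h1 e3
    have h2 : (Real.log ρ - 2 * η) * (A - t - t) ≤ (Real.log ρ - 2 * η) * (A - t - B / (l * I)) :=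
      mul_le_mul_of_nonneg_left (by linarith) (by linarith)
    nlinarith [mul_pos hη ht0]
  · obtain ⟨g, hg⟩ : ∃ g, g = c - A * Real.log ρ := ⟨_, rfl⟩
    have hg0 : 0 < g := by linarith
    have hc0 : g ≤ c := by nlinarith
    obtain ⟨η, hη, hη1, hη2⟩ : ∃ η : ℝ, 0 < η ∧ η ≤ 1 ∧ 2 * η * A ≤ g / 4 := by
      refine ⟨min 1 (g / (8 * (A + 1))), by positivity, min_le_left _ _, ?_⟩
      have h1 := min_le_right 1 (g / (8 * (A + 1)))
      have h2 : g / (8 * (A + 1)) * (8 * (A + 1)) = g := by field_simp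
      have h3 : 0 < g / (8 * (A + 1)) := by positivity
      nlinarith
    obtain ⟨B, hB⟩ : ∃ B, B = 2 * (1 + 1 / η ^ 2) * Real.pi := ⟨_, rfl⟩
    have hB0 : 0 < B := by rw [hB]; have := Real.pi_pos; positivity
    have hc1 : 0 < c := by linarith
    obtain ⟨l, hl⟩ : ∃ l, l = 4 * c * B / (g * I) := ⟨_, rfl⟩
    have hl0 : 0 < l := by rw [hl]; positivity
    filter_upwards [m_upper H hρ hl0 hη (δ := g * (I / l) / (4 * (Real.log ρ + 2)))
      (by positivity)] with x hx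
    have e1 : 2 * (1 + 1 / η ^ 2) / l ^ 2 * Real.pi = (g / (4 * c)) * (I / l) := by
      have : 2 * (1 + 1 / η ^ 2) / l ^ 2 * Real.pi = B / l / l := by rw [hB]; field_simp
      rw [this, mul_div_assoc']
      congr 1
      rw [hl]; field_simp
    have e2 : (Real.log ρ + 2 * η) * (A * (I / l) + g * (I / l) / (4 * (Real.log ρ + 2))) =
        (Real.log ρ + 2 * η) * (A + g / (4 * (Real.log ρ + 2))) * (I / l) := by ring
    have e3 : m a ρ x * (I / l - g / (4 * c) * (I / l)) = m a ρ x * (1 - g / (4 * c)) * (I / l) := by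
      ring
    rw [e1, e2, e3] at hx
    have h1 := le_of_mul_le_mul_right hx (by positivity)
    obtain ⟨t, ht⟩ : ∃ t, t = g / (4 * (Real.log ρ + 2)) := ⟨_, rfl⟩
    have ht1 : t * (Real.log ρ + 2) = g / 4 := by rw [ht]; field_simp
    have ht0 : 0 < t := by rw [ht]; positivity
    obtain ⟨κ, hκ⟩ : ∃ κ, κ = g / (4 * c) := ⟨_, rfl⟩
    have hκ1 : κ * c = g / 4 := by rw [hκ]; field_simp
    have hκ2 : κ ≤ 1 / 4 := by rw [hκ, div_le_iff₀ (by positivity)]; linarith
    rw [← ht, ← hκ] at h1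
    by_contra hcon
    push Not at hcon
    have h2 : c * (1 - κ) ≤ m a ρ x * (1 - κ) := mul_le_mul_of_nonneg_right hcon (by linarith)
    nlinarith

end Pool.Agent.H15.WI
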