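import Pool.Agent.H15.WI2

set_option autoImplicit false

namespace Pool.Agent.H15.WI

open Filter Topology

lemma iter_bound (u : ℝ → ℝ) (ρ β D : ℝ) (hρ : 1 < ρ) (h0 : ∀ᶠ x in atTop, u x ≤ β + D)
    (h1 : ∀ᶠ x in atTop, ρ * u (ρ * x) ≤ u x + β * (ρ - 1)) (ε : ℝ) (hε : 0 < ε) :
    ∀ᶠ x in atTop, u x ≤ β + ε := by
  have key : ∀ k : ℕ, ∀ᶠ x in atTop, u x ≤ β + D * ρ⁻¹ ^ k := by
    intro k
    induction k with
    | zero => simpa using h0
    | succ k ih =>
      have h2 : ∀ᶠ x in atTop, u (ρ * x) ≤ β + D * ρ⁻¹ ^ (k + 1) := by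
        filter_upwards [ih, h1] with x hx hx1
        have e : ρ * (β + D * ρ⁻¹ ^ (k + 1)) = ρ * β + D * ρ⁻¹ ^ k := by
          rw [pow_succ]; field_simp
        exact le_of_mul_le_mul_left (by rw [e]; linarith) (by linarith : 0 < ρ)
      have h3 : Tendsto (fun x : ℝ => x / ρ) atTop atTop :=
        tendsto_id.atTop_div_const (by linarith)
      filter_upwards [h3.eventually h2] with x hx
      rwa [mul_div_cancel₀ _ (by linarith : ρ ≠ 0)] at hx
  have h4 : Tendsto (fun k : ℕ => D * ρ⁻¹ ^ k) atTop (𝓝 (D * 0)) :=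
    (tendsto_pow_atTop_nhds_zero_of_lt_one (by positivity) (inv_lt_one_of_one_lt₀ hρ)).const_mul D
  rw [mul_zero] at h4
  obtain ⟨k, hk⟩ := (h4.eventually (gt_mem_nhds hε)).exists
  filter_upwards [key k] with x hx
  linarith

variable {a : ℕ → ℝ} {C A : ℝ} {G : ℂ → ℂ}

lemma diff_bounds (H : Hyp a C A G) {ρ x : ℝ} (hρ : 1 < ρ) (hx : 0 < x) :
    x * m a ρ x ≤ ∑ n ∈ Finset.Ioc 0 ⌊ρ * x⌋₊, a n - ∑ n ∈ Finset.Ioc 0 ⌊x⌋₊, a n ∧
    ∑ n ∈ Finset.Ioc 0 ⌊ρ * x⌋₊, a n - ∑ n ∈ Finset.Ioc 0 ⌊x⌋₊, a n ≤ ρ * x * m a ρ x := by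
  have h1 : ⌊x⌋₊ ≤ ⌊ρ * x⌋₊ := Nat.floor_le_floor (by nlinarith)
  rw [← Finset.sum_Ioc_consecutive _ (Nat.zero_le _) h1, add_sub_cancel_left]
  unfold m
  rw [Finset.mul_sum, Finset.mul_sum]
  constructor
  · refine Finset.sum_le_sum fun n hn => ?_
    have h4 : x < n := (Nat.floor_lt hx.le).1 (Finset.mem_Ioc.1 hn).1
    rw [mul_div_assoc', div_le_iff₀ (by linarith)]
    nlinarith [H.nonneg n]
  · refine Finset.sum_le_sum fun n hn => ?_
    have h4 : x < n := (Nat.floor_lt hx.le).1 (Finset.mem_Ioc.1 hn).1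
    have h5 : (n : ℝ) ≤ ρ * x := (Nat.le_floor_iff (by positivity)).1 (Finset.mem_Ioc.1 hn).2
    rw [mul_div_assoc', le_div_iff₀ (by linarith)]
    nlinarith [H.nonneg n]

/-- The Wiener-Ikehara theorem (with a Chebyshev bound as hypothesis). -/
theorem wiener_ikehara (H : Hyp a C A G) :
    Tendsto (fun x : ℝ => (∑ n ∈ Finset.Ioc 0 ⌊x⌋₊, a n) / x) atTop (𝓝 A) := by
  have hA := H.A_nonneg
  refine tendsto_order.2 ⟨fun c hc => ?_, fun c hc => ?_⟩
  · obtain ⟨g, hg⟩ : ∃ g, g = A - c := ⟨_, rfl⟩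
    have hg0 : 0 < g := by linarith
    obtain ⟨ρ, hρe⟩ : ∃ ρ, ρ = 1 + g / (4 * (A + 1)) := ⟨_, rfl⟩
    have hρ0 : 0 < g / (4 * (A + 1)) := by positivity
    have hρ : 1 < ρ := by linarith
    have hρ1 : (ρ - 1) * (A + 1) = g / 4 := by rw [hρe]; field_simp; ring
    have hlog : 1 - ρ⁻¹ ≤ Real.log ρ := Real.one_sub_inv_le_log_of_pos (by linarith)
    have hlog2 : (ρ - 1) * (2 - ρ) ≤ Real.log ρ := by
      refine le_trans ?_ hlog
      have : ρ⁻¹ * ρ = 1 := inv_mul_cancel₀ (by linarith)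
      have h2 : 0 < ρ⁻¹ := by positivity
      nlinarith [mul_nonneg h2.le (mul_nonneg (sq_nonneg (ρ - 1)) (by linarith : 0 ≤ ρ - 1))]
    have h1 := (window H hρ).eventually
      (lt_mem_nhds (show A * Real.log ρ - g / 4 * (ρ - 1) < A * Real.log ρ by nlinarith))
    have h2 := iter_bound (fun x => -((∑ n ∈ Finset.Ioc 0 ⌊x⌋₊, a n) / x)) ρ (-(A - g / 2))
      (A - g / 2) hρ (by
        filter_upwards [eventually_gt_atTop 0] with x hx
        have : 0 ≤ (∑ n ∈ Finset.Ioc 0 ⌊x⌋₊, a n) / x :=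
          div_nonneg (Finset.sum_nonneg fun n _ => H.nonneg n) hx.le
        linarith) (by
        filter_upwards [h1, eventually_gt_atTop 0] with x hx hx0
        have h3 := (diff_bounds H hρ hx0).1
        have e : ρ * -((∑ n ∈ Finset.Ioc 0 ⌊ρ * x⌋₊, a n) / (ρ * x)) =
            -((∑ n ∈ Finset.Ioc 0 ⌊ρ * x⌋₊, a n) / x) := by field_simp
        rw [e]
        have h4 : m a ρ x ≤ (∑ n ∈ Finset.Ioc 0 ⌊ρ * x⌋₊, a n) / x -
            (∑ n ∈ Finset.Ioc 0 ⌊x⌋₊, a n) / x := by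
          rw [← sub_div, le_div_iff₀ hx0]; linarith
        have h5 : A * ((ρ - 1) * (2 - ρ)) ≤ A * Real.log ρ := mul_le_mul_of_nonneg_left hlog2 hA
        have h6 : (ρ - 1) * ((ρ - 1) * A) ≤ (ρ - 1) * (g / 4) :=
          mul_le_mul_of_nonneg_left (by nlinarith) (by linarith)
        nlinarith) (g / 4) (by positivity)
    filter_upwards [h2] with x hx
    linarith
  · obtain ⟨g, hg⟩ : ∃ g, g = c - A := ⟨_, rfl⟩
    have hg0 : 0 < g := by linarith
    obtain ⟨ρ, hρe⟩ : ∃ ρ, ρ = 1 + min 1 (g / (8 * (A + 1))) := ⟨_, rfl⟩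
    have hρ0 : 0 < min 1 (g / (8 * (A + 1))) := by positivity
    have hρ : 1 < ρ := by linarith
    have hρ2 : ρ ≤ 2 := by have := min_le_left 1 (g / (8 * (A + 1))); linarith
    have hρ1 : (ρ - 1) * A ≤ g / 8 := by
      have h1 := min_le_right 1 (g / (8 * (A + 1)))
      have h2 : g / (8 * (A + 1)) * (8 * (A + 1)) = g := by field_simp
      have h3 : 0 < g / (8 * (A + 1)) := by positivity
      nlinarith
    have hlog : Real.log ρ ≤ ρ - 1 := Real.log_le_sub_one_of_pos (by linarith)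
    have h1 := (window H hρ).eventually
      (gt_mem_nhds (show A * Real.log ρ < A * Real.log ρ + g / 8 * (ρ - 1) by nlinarith))
    have h2 := iter_bound (fun x => ((∑ n ∈ Finset.Ioc 0 ⌊x⌋₊, a n) / x)) ρ (A + g / 2)
      (C - (A + g / 2)) hρ (by
        filter_upwards [eventually_gt_atTop 0] with x hx
        have : (∑ n ∈ Finset.Ioc 0 ⌊x⌋₊, a n) / x ≤ C := by
          rw [div_le_iff₀ hx]; exact H.cheb x hx.le
        linarith) (by
        filter_upwards [h1, eventually_gt_atTop 0] with x hx hx0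
        have h3 := (diff_bounds H hρ hx0).2
        have e : ρ * ((∑ n ∈ Finset.Ioc 0 ⌊ρ * x⌋₊, a n) / (ρ * x)) =
            ((∑ n ∈ Finset.Ioc 0 ⌊ρ * x⌋₊, a n) / x) := by field_simp
        rw [e]
        have h4 : (∑ n ∈ Finset.Ioc 0 ⌊ρ * x⌋₊, a n) / x -
            (∑ n ∈ Finset.Ioc 0 ⌊x⌋₊, a n) / x ≤ ρ * m a ρ x := by
          rw [← sub_div, div_le_iff₀ hx0]; linarith
        have h5 : A * Real.log ρ ≤ A * (ρ - 1) := mul_le_mul_of_nonneg_left hlog hA
        have h6 : ρ * m a ρ x ≤ ρ * ((A + g / 8) * (ρ - 1)) :=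
          mul_le_mul_of_nonneg_left (by nlinarith) (by linarith)
        have h7 : ρ * (A + g / 8) ≤ A + g / 2 := by nlinarith
        have h8 : ρ * (A + g / 8) * (ρ - 1) ≤ (A + g / 2) * (ρ - 1) :=
          mul_le_mul_of_nonneg_right h7 (by linarith)
        nlinarith) (g / 4) (by positivity)
    filter_upwards [h2] with x hx
    linarith

open ArithmeticFunction ArithmeticFunction.vonMangoldt in
lemma hyp_ap {q : ℕ} [NeZero q] {b : ZMod q} (hb : IsUnit b) :
    Hyp (residueClass b) (Real.log 4 + 4) ((q.totient : ℝ)⁻¹) (LFunctionResidueClassAux b) where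
  nonneg := residueClass_nonneg b
  cheb := fun x hx => by
    refine le_trans ?_ (Chebyshev.psi_le_const_mul_self hx)
    exact Finset.sum_le_sum fun n _ => residueClass_le b n
  A_nonneg := by positivity
  cont := continuousOn_LFunctionResidueClassAux b
  summ := fun s hs => LSeriesSummable_of_abscissaOfAbsConv_lt_re
    ((abscissaOfAbsConv_residueClass_le_one b).trans_lt (by exact_mod_cast hs))
  eq := fun s hs => by
    rw [eqOn_LFunctionResidueClassAux hb hs]
    push_cast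
    ring

/-- Chebyshev's function for a residue class. -/
noncomputable def thetaAP (q : ℕ) (b : ZMod q) (x : ℝ) : ℝ :=
  ∑ p ∈ (Finset.Ioc 0 ⌊x⌋₊).filter (fun p : ℕ => p.Prime ∧ (p : ZMod q) = b), Real.log p

open ArithmeticFunction ArithmeticFunction.vonMangoldt in
/-- The prime number theorem in arithmetic progressions. -/
theorem pnt_ap {q : ℕ} [NeZero q] {b : ZMod q} (hb : IsUnit b) :
    Tendsto (fun x : ℝ => thetaAP q b x / x) atTop (𝓝 ((q.totient : ℝ)⁻¹)) := by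
  have h1 := wiener_ikehara (hyp_ap hb)
  obtain ⟨K, hK⟩ := Chebyshev.psi_sub_theta_le_mul_sqrt
  have h2 : Tendsto (fun x : ℝ => K * (√x)⁻¹) atTop (𝓝 (K * 0)) :=
    (tendsto_inv_atTop_zero.comp Real.tendsto_sqrt_atTop).const_mul K
  have h3 := h1.sub h2
  rw [mul_zero, sub_zero] at h3
  have key : ∀ x : ℝ, ∑ n ∈ Finset.Ioc 0 ⌊x⌋₊, residueClass b n = thetaAP q b x +
      ∑ n ∈ (Finset.Ioc 0 ⌊x⌋₊).filter (fun n => ¬ n.Prime), residueClass b n := by
    intro x
    rw [← Finset.sum_filter_add_sum_filter_not _ Nat.Prime]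
    congr 1
    unfold thetaAP
    rw [← Finset.filter_filter, Finset.sum_filter (p := fun p : ℕ => (p : ZMod q) = b)]
    refine Finset.sum_congr rfl fun p hp => ?_
    have hp' := (Finset.mem_filter.1 hp).2
    simp only [residueClass, Set.indicator, Set.mem_ofPred_eq, vonMangoldt_apply_prime hp']
  refine tendsto_of_tendsto_of_tendsto_of_le_of_le' h3 h1 ?_ ?_
  · filter_upwards [eventually_gt_atTop 0] with x hx
    have h4 : ∑ n ∈ (Finset.Ioc 0 ⌊x⌋₊).filter (fun n => ¬ n.Prime), residueClass b n ≤ K * √x := by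
      refine le_trans ?_ (hK x)
      rw [Chebyshev.psi_sub_theta_eq_sum_not_prime]
      exact Finset.sum_le_sum fun n _ => residueClass_le b n
    have h5 : K * (√x)⁻¹ = K * √x / x := by
      have := Real.sqrt_pos.2 hx
      have h6 := Real.mul_self_sqrt hx.le
      field_simp
      rw [sq, h6]
    rw [key, h5, ← sub_div]
    exact div_le_div_of_nonneg_right (by linarith) hx.le
  · filter_upwards [eventually_gt_atTop 0] with x hx
    rw [key]
    have : 0 ≤ ∑ n ∈ (Finset.Ioc 0 ⌊x⌋₊).filter (fun n => ¬ n.Prime), residueClass b n :=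
      Finset.sum_nonneg fun n _ => residueClass_nonneg b n
    exact div_le_div_of_nonneg_right (by linarith) hx.le

/-- Many primes of a residue class in `(y, 2y]`. -/
theorem many_primes {q : ℕ} [NeZero q] {b : ZMod q} (hb : IsUnit b) :
    ∀ᶠ y : ℕ in atTop, (y : ℝ) / (2 * q.totient) ≤
      (((Finset.Ioc y (2 * y)).filter (fun p : ℕ => p.Prime ∧ (p : ZMod q) = b)).card : ℝ) *
        Real.log (2 * y) := by
  have hφ : (0 : ℝ) < q.totient := by exact_mod_cast Nat.totient_pos.2 (NeZero.pos q)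
  obtain ⟨A, hA⟩ : ∃ A : ℝ, A = (q.totient : ℝ)⁻¹ := ⟨_, rfl⟩
  have hA0 : 0 < A := by rw [hA]; positivity
  have h1 := pnt_ap hb
  rw [← hA] at h1
  have h2 := (h1.comp tendsto_natCast_atTop_atTop).eventually
    (gt_mem_nhds (show A < 7 / 6 * A by linarith))
  have h3 := (h1.comp ((tendsto_natCast_atTop_atTop (R := ℝ)).const_mul_atTop two_pos)).eventually
    (lt_mem_nhds (show 5 / 6 * A < A by linarith))
  filter_upwards [h2, h3, eventually_gt_atTop 0] with y hy2 hy3 hy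
  have hy' : (0 : ℝ) < y := by exact_mod_cast hy
  simp only [Function.comp] at hy2 hy3
  rw [div_lt_iff₀ hy'] at hy2
  rw [lt_div_iff₀ (by positivity)] at hy3
  have e1 : ⌊(2 : ℝ) * y⌋₊ = 2 * y := by
    rw [show (2 : ℝ) * y = ((2 * y : ℕ) : ℝ) by push_cast; ring, Nat.floor_natCast]
  have h4 : thetaAP q b (2 * y) = thetaAP q b y + ∑ p ∈ (Finset.Ioc y (2 * y)).filter
      (fun p : ℕ => p.Prime ∧ (p : ZMod q) = b), Real.log p := by
    unfold thetaAP
    rw [e1, Nat.floor_natCast, Finset.sum_filter, Finset.sum_filter, Finset.sum_filter,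
      Finset.sum_Ioc_consecutive _ (Nat.zero_le _) (by omega)]
  have h5 : ∑ p ∈ (Finset.Ioc y (2 * y)).filter
      (fun p : ℕ => p.Prime ∧ (p : ZMod q) = b), Real.log p ≤
      (((Finset.Ioc y (2 * y)).filter (fun p : ℕ => p.Prime ∧ (p : ZMod q) = b)).card : ℝ) *
        Real.log (2 * y) := by
    rw [← nsmul_eq_mul]
    refine Finset.sum_le_card_nsmul _ _ _ fun p hp => ?_
    have h6 := Finset.mem_Ioc.1 (Finset.mem_filter.1 hp).1
    have h7 : (0 : ℝ) < p := by exact_mod_cast (by omega : 0 < p)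
    exact Real.log_le_log h7 (by exact_mod_cast h6.2)
  have e2 : (y : ℝ) / (2 * q.totient) = A * y / 2 := by rw [hA]; field_simp
  rw [e2]
  nlinarith

end Pool.Agent.H15.WI
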