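import Pool.Agent.H15.PV

set_option autoImplicit false
open Finset

namespace Pool.Agent.H15.WM

/-- additive character -/
noncomputable def ee (x : ℝ) : ℂ := Complex.exp (2 * (Real.pi : ℂ) * Complex.I * (x : ℂ))

lemma ee_add (x y : ℝ) : ee (x + y) = ee x * ee y := by
  unfold ee
  rw [← Complex.exp_add]; congr 1; push_cast; ring

lemma ee_eq (x : ℝ) : ee x = Complex.exp (Complex.I * ((2 * Real.pi * x : ℝ) : ℂ)) := by
  unfold ee
  congr 1; push_cast; ring

lemma norm_ee (x : ℝ) : ‖ee x‖ = 1 := by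
  rw [ee_eq, mul_comm, Complex.norm_exp_ofReal_mul_I]

lemma ee_sub_one (x : ℝ) : ‖ee x - 1‖ ≤ 7 * |x| := by
  rw [ee_eq]
  refine (Real.norm_exp_I_mul_ofReal_sub_one_le).trans ?_
  rw [Real.norm_eq_abs, abs_mul, abs_of_pos (by positivity)]
  have := Real.pi_lt_d2
  exact mul_le_mul_of_nonneg_right (by linarith) (abs_nonneg _)

lemma ee_lip (x y : ℝ) : ‖ee (x + y) - ee x‖ ≤ 7 * |y| := by
  rw [ee_add, ← mul_sub_one, norm_mul, norm_ee, one_mul]
  exact ee_sub_one y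

lemma ee_nat (n : ℕ) : ee (n : ℝ) = 1 := by
  unfold ee
  have := Complex.exp_nat_mul_two_pi_mul_I n
  rw [← this]; congr 1; push_cast; ring

lemma ee_pow (q n : ℕ) :
    ee ((n : ℝ) / q) = Complex.exp (2 * (Real.pi : ℂ) * Complex.I / q) ^ n := by
  unfold ee
  rw [← Complex.exp_nat_mul]; congr 1; push_cast; ring

lemma block (w v : ℕ → ℂ) (q X : ℕ) (hq : 0 < q) (hX : 0 < X) (hw : ∀ n, ‖w n‖ ≤ 1)
    (hper : ∀ n, w (n + q) = w n) (hv : ∀ n, ‖v n‖ ≤ 1) (hv1 : ∀ n, n ≤ X → ‖v n - 1‖ ≤ 1 / 2)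
    (hv2 : ∀ n r, n + r ≤ X → r ≤ q → ‖v (n + r) - v n‖ ≤ (q : ℝ) / X) :
    ((X / q : ℕ) : ℝ) * ‖∑ r ∈ range q, w r‖ / 2 - 2 * q ≤ ‖∑ n ∈ range X, w n * v n‖ := by
  obtain ⟨S, hS⟩ : ∃ S, S = ∑ r ∈ range q, w r := ⟨_, rfl⟩
  have hp : ∀ J r, w (J * q + r) = w r := by
    intro J r
    induction J with
    | zero => simp
    | succ J ih => rw [show (J + 1) * q + r = J * q + r + q by ring, hper, ih]
  have key : ∀ J : ℕ, J * q ≤ X →
      ‖∑ n ∈ range (J * q), w n * v n - J * S‖ ≤ J * (‖S‖ / 2 + q * (q / X)) := by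
    intro J
    induction J with
    | zero => simp
    | succ J ih =>
      intro hJ
      rw [show (J + 1) * q = J * q + q by ring] at hJ ⊢
      have h1 := ih (by omega)
      rw [Finset.sum_range_add]
      have h2 : ∑ r ∈ range q, w (J * q + r) * v (J * q + r) - S =
          ∑ r ∈ range q, w r * (v (J * q + r) - v (J * q)) + (v (J * q) - 1) * S := by
        rw [hS, Finset.mul_sum, ← Finset.sum_add_distrib, ← Finset.sum_sub_distrib]
        apply Finset.sum_congr rfl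
        intro r _
        rw [hp]; ring
      have h3 : ‖∑ r ∈ range q, w r * (v (J * q + r) - v (J * q))‖ ≤
          ∑ _r ∈ range q, (q : ℝ) / X := by
        apply norm_sum_le_of_le
        intro r hr
        rw [mem_range] at hr
        rw [norm_mul]
        have := hv2 (J * q) r (by omega) (by omega)
        calc _ ≤ 1 * ((q : ℝ) / X) := mul_le_mul (hw r) this (norm_nonneg _) (by norm_num)
          _ = _ := one_mul _
      rw [Finset.sum_const, card_range, nsmul_eq_mul] at h3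
      have h4 : ‖(v (J * q) - 1) * S‖ ≤ ‖S‖ / 2 := by
        rw [norm_mul]
        have := hv1 (J * q) (by omega)
        have := norm_nonneg S
        nlinarith
      have h5 : ∑ n ∈ range (J * q), w n * v n + ∑ r ∈ range q, w (J * q + r) * v (J * q + r) -
          ((J + 1 : ℕ) : ℂ) * S = (∑ n ∈ range (J * q), w n * v n - J * S) +
          (∑ r ∈ range q, w (J * q + r) * v (J * q + r) - S) := by
        push_cast; ring
      rw [h5, h2]
      refine (norm_add_le _ _).trans ?_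
      have h6 := norm_add_le (∑ r ∈ range q, w r * (v (J * q + r) - v (J * q)))
        ((v (J * q) - 1) * S)
      push_cast
      linarith
  obtain ⟨J, hJ⟩ : ∃ J, J = X / q := ⟨_, rfl⟩
  have hJ1 : J * q ≤ X := hJ ▸ Nat.div_mul_le_self X q
  have hJ2 : X < J * q + q := by
    have := Nat.lt_div_mul_add (a := X) hq
    rwa [← hJ] at this
  rw [← hJ, ← hS]
  have h1 := key J hJ1
  obtain ⟨d, hd⟩ := Nat.exists_eq_add_of_le hJ1
  have h2 : ‖∑ r ∈ range d, w (J * q + r) * v (J * q + r)‖ ≤ ∑ _r ∈ range d, (1 : ℝ) := by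
    apply norm_sum_le_of_le
    intro r _
    rw [norm_mul]
    calc _ ≤ 1 * (1 : ℝ) := mul_le_mul (hw _) (hv _) (norm_nonneg _) (by norm_num)
      _ = _ := one_mul _
  rw [Finset.sum_const, card_range, nsmul_eq_mul, mul_one] at h2
  have h3 : (d : ℝ) ≤ q := by exact_mod_cast (by omega : d ≤ q)
  have h4 : ∑ n ∈ range X, w n * v n = ∑ n ∈ range (J * q), w n * v n +
      ∑ r ∈ range d, w (J * q + r) * v (J * q + r) := by
    conv_lhs => rw [hd]
    rw [Finset.sum_range_add]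
  have h5 : (J : ℂ) * S = ∑ n ∈ range X, w n * v n -
      (∑ n ∈ range (J * q), w n * v n - J * S) -
      ∑ r ∈ range d, w (J * q + r) * v (J * q + r) := by
    rw [h4]; ring
  have h6 : ‖(J : ℂ) * S‖ = J * ‖S‖ := by rw [norm_mul, Complex.norm_natCast]
  have h7 := norm_sub_le (∑ n ∈ range X, w n * v n -
      (∑ n ∈ range (J * q), w n * v n - J * S)) (∑ r ∈ range d, w (J * q + r) * v (J * q + r))
  have h8 := norm_sub_le (∑ n ∈ range X, w n * v n) (∑ n ∈ range (J * q), w n * v n - J * S)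
  rw [← h5, h6] at h7
  have h9 : (J : ℝ) * (q * (q / X)) ≤ q := by
    have a1 : (J : ℝ) * q ≤ X := by exact_mod_cast hJ1
    have a2 : (0 : ℝ) < X := by exact_mod_cast hX
    have a3 : (0 : ℝ) ≤ q := Nat.cast_nonneg _
    rw [← mul_assoc, mul_div_assoc', div_le_iff₀ a2]
    nlinarith
  nlinarith

/-- complete sum -/
noncomputable def cs (q a b : ℕ) : ℂ :=
  ∑ r ∈ range q, ee (((b * (r + 1) + a * (r + 1) ^ 2 : ℕ) : ℝ) / q)

lemma cs_four (q a : ℕ) (hq : 0 < q) : (q : ℝ) ^ 3 ≤ ∑ b ∈ range q, ‖cs q a b‖ ^ 4 := by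
  have h1 := PV.parseval q hq _ (Complex.isPrimitiveRoot_exp q hq.ne') (range q) (fun r => r + 1)
    (fun r => ee (((a * (r + 1) ^ 2 : ℕ) : ℝ) / q)) (by
      intro i hi j hj h
      rw [mem_range] at hi hj
      have h2 : i % q = j % q := Nat.ModEq.add_right_cancel' 1 h
      rwa [Nat.mod_eq_of_lt hi, Nat.mod_eq_of_lt hj] at h2)
  have h2 : ∀ b, ∑ r ∈ range q, ee (((a * (r + 1) ^ 2 : ℕ) : ℝ) / q) *
      Complex.exp (2 * (Real.pi : ℂ) * Complex.I / q) ^ (b * (r + 1)) = cs q a b := by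
    intro b
    apply Finset.sum_congr rfl
    intro r _
    rw [← ee_pow, ← ee_add]; congr 1; push_cast; ring
  simp only [h2, norm_ee] at h1
  simp only [one_pow, Finset.sum_const, card_range, nsmul_eq_mul, mul_one] at h1
  have h3 := sq_sum_le_card_mul_sum_sq (s := range q) (f := fun b => ‖cs q a b‖ ^ 2)
  rw [h1, card_range] at h3
  have h4 : (0 : ℝ) < q := by exact_mod_cast hq
  simp only [← pow_mul] at h3
  apply le_of_mul_le_mul_left _ h4
  calc (q : ℝ) * q ^ 3 = (q * q) ^ 2 := by ring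
    _ ≤ _ := h3

/-- the quadratic Weyl sum -/
noncomputable def ws (X : ℕ) (y z : ℝ) : ℂ :=
  ∑ n ∈ range X, ee (y * ((n : ℝ) + 1) + z * ((n : ℝ) + 1) ^ 2)

lemma ws_lower (X q a b : ℕ) (hq : 0 < q) (hX : 0 < X) (y z : ℝ)
    (hy1 : (b : ℝ) / q ≤ y) (hy2 : y < (b : ℝ) / q + 1 / (100 * X))
    (hz1 : (a : ℝ) / q ≤ z) (hz2 : z < (a : ℝ) / q + 1 / (100 * X ^ 2)) :
    ((X / q : ℕ) : ℝ) ^ 4 * ‖cs q a b‖ ^ 4 / 128 - 16 * (q : ℝ) ^ 4 ≤ ‖ws X y z‖ ^ 4 := by
  have hX' : (1 : ℝ) ≤ X := by exact_mod_cast hX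
  have hq' : (0 : ℝ) < q := by exact_mod_cast hq
  obtain ⟨u, hu⟩ : ∃ u, u = y - (b : ℝ) / q := ⟨_, rfl⟩
  obtain ⟨v, hv⟩ : ∃ v, v = z - (a : ℝ) / q := ⟨_, rfl⟩
  have u0 : 0 ≤ u := by linarith
  have v0 : 0 ≤ v := by linarith
  have u1 : u * X ≤ 1 / 100 := by
    have : u ≤ 1 / (100 * X) := by linarith
    rw [le_div_iff₀ (by positivity)] at this
    linarith
  have v1 : v * X ^ 2 ≤ 1 / 100 := by
    have : v ≤ 1 / (100 * X ^ 2) := by linarith
    rw [le_div_iff₀ (by positivity)] at this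
    linarith
  have h1 := block (fun r => ee (((b * (r + 1) + a * (r + 1) ^ 2 : ℕ) : ℝ) / q))
    (fun n => ee (u * ((n : ℝ) + 1) + v * ((n : ℝ) + 1) ^ 2)) q X hq hX
    (fun n => (norm_ee _).le)
    (by
      intro n
      have : ((b * (n + q + 1) + a * (n + q + 1) ^ 2 : ℕ) : ℝ) / q =
          ((b * (n + 1) + a * (n + 1) ^ 2 : ℕ) : ℝ) / q + ((b + a * (2 * (n + 1) + q) : ℕ) : ℝ) := by
        push_cast; field_simp; ring
      simp only [this]
      rw [ee_add, ee_nat, mul_one])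
    (fun n => (norm_ee _).le)
    (by
      intro n hn
      have hn' : (n : ℝ) ≤ X := by exact_mod_cast hn
      have n0 : (0 : ℝ) ≤ n := Nat.cast_nonneg _
      refine (ee_sub_one _).trans ?_
      rw [abs_of_nonneg (by positivity)]
      have a1 : u * ((n : ℝ) + 1) ≤ u * (2 * X) := mul_le_mul_of_nonneg_left (by linarith) u0
      have a2 : v * ((n : ℝ) + 1) ^ 2 ≤ v * (2 * X) ^ 2 :=
        mul_le_mul_of_nonneg_left (pow_le_pow_left₀ (by linarith) (by linarith) 2) v0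
      nlinarith)
    (by
      intro n r hn hr
      have hn' : (n : ℝ) + r ≤ X := by exact_mod_cast hn
      have hr' : (r : ℝ) ≤ q := by exact_mod_cast hr
      have n0 : (0 : ℝ) ≤ n := Nat.cast_nonneg _
      have r0 : (0 : ℝ) ≤ r := Nat.cast_nonneg _
      have e1 : u * (((n + r : ℕ) : ℝ) + 1) + v * (((n + r : ℕ) : ℝ) + 1) ^ 2 =
          (u * ((n : ℝ) + 1) + v * ((n : ℝ) + 1) ^ 2) + r * (u + v * (2 * n + r + 2)) := by
        push_cast; ring
      simp only [e1]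
      refine (ee_lip _ _).trans ?_
      rw [abs_of_nonneg (by positivity), le_div_iff₀ (by linarith)]
      have a1 : v * (2 * n + r + 2) ≤ v * (4 * X) := mul_le_mul_of_nonneg_left (by linarith) v0
      have a2 : (u + v * (2 * n + r + 2)) * X ≤ 1 / 7 := by nlinarith
      have a3 : 0 ≤ (u + v * (2 * n + r + 2)) * X := by positivity
      nlinarith)
  have h2 : ∑ n ∈ range X, ee (((b * (n + 1) + a * (n + 1) ^ 2 : ℕ) : ℝ) / q) *
      ee (u * ((n : ℝ) + 1) + v * ((n : ℝ) + 1) ^ 2) = ws X y z := by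
    apply Finset.sum_congr rfl
    intro n _
    rw [← ee_add, hu, hv]; congr 1; push_cast; ring
  rw [h2] at h1
  change ((X / q : ℕ) : ℝ) * ‖cs q a b‖ / 2 - 2 * q ≤ _ at h1
  obtain ⟨A, hA⟩ : ∃ A, A = ((X / q : ℕ) : ℝ) * ‖cs q a b‖ / 2 := ⟨_, rfl⟩
  have A0 : 0 ≤ A := by rw [hA]; positivity
  have h3 : ((X / q : ℕ) : ℝ) ^ 4 * ‖cs q a b‖ ^ 4 / 128 = A ^ 4 / 8 := by rw [hA]; ring
  rw [h3]
  rw [← hA] at h1
  have h4 : A ^ 4 ≤ (‖ws X y z‖ + 2 * q) ^ 4 := pow_le_pow_left₀ A0 (by linarith) 4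
  have h5 := add_pow_le (norm_nonneg (ws X y z)) (show (0 : ℝ) ≤ 2 * q by positivity) 4
  norm_num at h5
  nlinarith

lemma totient_sum (N : ℕ) : N ^ 2 ≤ 12 * ∑ d ∈ Ioc 0 N, Nat.totient d := by
  have h1 : ∑ n ∈ Ioc 0 N, n = ∑ d ∈ Ioc 0 N, Nat.totient d * (N / d) := by
    have a1 : ∀ n ∈ Ioc 0 N, n = ∑ d ∈ Ioc 0 N, if d ∣ n then Nat.totient d else 0 := by
      intro n hn
      rw [mem_Ioc] at hn
      rw [← Finset.sum_filter]
      conv_lhs => rw [← Nat.sum_totient n]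
      apply Finset.sum_congr _ (fun _ _ => rfl)
      ext d
      simp only [Nat.mem_divisors, mem_filter, mem_Ioc]
      constructor
      · rintro ⟨h, _⟩
        exact ⟨⟨Nat.pos_of_dvd_of_pos h hn.1, (Nat.le_of_dvd hn.1 h).trans hn.2⟩, h⟩
      · rintro ⟨_, h⟩
        exact ⟨h, by omega⟩
    rw [Finset.sum_congr rfl a1, Finset.sum_comm]
    apply Finset.sum_congr rfl
    intro d _
    rw [← Finset.sum_filter, Finset.sum_const, Nat.Ioc_filter_dvd_card_eq_div, smul_eq_mul, mul_comm]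
  have h2 : ∀ M, 2 * ∑ n ∈ Ioc 0 M, n = M * (M + 1) := by
    intro M
    induction M with
    | zero => simp
    | succ M ih => rw [Finset.sum_Ioc_succ_top (by omega), mul_add, ih]; ring
  have h3 : ∑ d ∈ Ioc 0 N, Nat.totient d * (N / d) ≤
      ∑ d ∈ Ioc 0 N, ((if d ∈ Ioc 0 (N / 4) then N else 0) + 3 * Nat.totient d) := by
    apply Finset.sum_le_sum
    intro d hd
    rw [mem_Ioc] at hd
    split_ifs with h
    · have a1 := Nat.totient_le d
      have a2 := Nat.mul_div_le N d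
      have a3 := Nat.mul_le_mul_right (N / d) a1
      omega
    · rw [mem_Ioc] at h
      have a1 : N / d < 4 := (Nat.div_lt_iff_lt_mul hd.1).2 (by omega)
      have a3 := Nat.mul_le_mul_left (Nat.totient d) (show N / d ≤ 3 by omega)
      omega
  rw [Finset.sum_add_distrib, ← Finset.mul_sum, Finset.sum_ite_mem, Finset.sum_const,
    smul_eq_mul] at h3
  have h4 : (Ioc 0 N ∩ Ioc 0 (N / 4)).card ≤ N / 4 :=
    (card_le_card inter_subset_right).trans (by simp)
  have h5 := Nat.mul_le_mul_right N h4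
  have h6 := h2 N
  have h7 : 4 * (N / 4) ≤ N := Nat.mul_div_le N 4
  have h8 := Nat.mul_le_mul_right N h7
  nlinarith

end Pool.Agent.H15.WM
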