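import Pool.Agent.H15.WM1

set_option autoImplicit false
open Finset MeasureTheory

namespace Pool.Agent.H15.WM

/-- rectangle -/
def rect (y z dy dz : ℝ) : Set (Fin 2 → ℝ) :=
  Set.pi Set.univ (fun j => Set.Ico (![y, z] j) (![y + dy, z + dz] j))

lemma mem_rect (y z dy dz : ℝ) (α : Fin 2 → ℝ) :
    α ∈ rect y z dy dz ↔ (y ≤ α 0 ∧ α 0 < y + dy) ∧ (z ≤ α 1 ∧ α 1 < z + dz) := by
  simp [rect, Set.mem_pi, Fin.forall_fin_two]

lemma meas_rect (y z dy dz : ℝ) : MeasurableSet (rect y z dy dz) :=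
  MeasurableSet.univ_pi (fun _ => measurableSet_Ico)

lemma vol_rect (y z dy dz : ℝ) (h1 : 0 ≤ dy) :
    volume (rect y z dy dz) = ENNReal.ofReal (dy * dz) := by
  unfold rect
  rw [Real.volume_pi_Ico, Fin.prod_univ_two, ENNReal.ofReal_mul h1]
  simp

lemma sep (u v δ y : ℝ) (h : u + δ ≤ v) (h2 : y < u + δ) (h3 : v ≤ y) : False := by linarith

lemma frac_lt (a q a' q' : ℕ) (δ : ℝ) (hq : 0 < q) (hq' : 0 < q') (hδ : δ * q * q' ≤ 1)
    (h : a * q' < a' * q) : (a : ℝ) / q + δ ≤ (a' : ℝ) / q' := by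
  have h1 : (0 : ℝ) < q := by exact_mod_cast hq
  have h2 : (0 : ℝ) < q' := by exact_mod_cast hq'
  have h3 : (a : ℝ) * q' + 1 ≤ a' * q := by exact_mod_cast h
  rw [div_add' _ _ _ h1.ne', div_le_div_iff₀ h1 h2]
  nlinarith

lemma frac_lt' (b b' q : ℕ) (δ : ℝ) (hq : 0 < q) (hδ : δ * q ≤ 1)
    (h : b < b') : (b : ℝ) / q + δ ≤ (b' : ℝ) / q := by
  have h1 : (0 : ℝ) < q := by exact_mod_cast hq
  have h3 : (b : ℝ) + 1 ≤ b' := by exact_mod_cast h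
  rw [div_add' _ _ _ h1.ne', div_le_div_iff_of_pos_right h1]
  linarith

/-- index set of rational points -/
def idx (Q : ℕ) : Finset (Σ _ : ℕ, Σ _ : ℕ, ℕ) :=
  (Ioc 0 Q).sigma (fun q => ((range q).filter (fun a => q.Coprime a)).sigma (fun _ => range q))

lemma mem_idx (Q : ℕ) (p : Σ _ : ℕ, Σ _ : ℕ, ℕ) :
    p ∈ idx Q ↔ (0 < p.1 ∧ p.1 ≤ Q) ∧ (p.2.1 < p.1 ∧ p.1.Coprime p.2.1) ∧ p.2.2 < p.1 := by
  simp [idx]

/-- major arc box -/
def box (X : ℕ) (p : Σ _ : ℕ, Σ _ : ℕ, ℕ) : Set (Fin 2 → ℝ) :=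
  rect ((p.2.2 : ℝ) / p.1) ((p.2.1 : ℝ) / p.1) (1 / (100 * X)) (1 / (100 * X ^ 2))

lemma box_disj (X Q : ℕ) (hX : 0 < X) (hQ : Q ≤ X) :
    Set.Pairwise (↑(idx Q)) (Function.onFun Disjoint (box X)) := by
  rintro ⟨q, a, b⟩ hp ⟨q', a', b'⟩ hp' hne
  rw [Finset.mem_coe, mem_idx] at hp hp'
  simp only at hp hp'
  obtain ⟨⟨h1, h2⟩, ⟨h3, h4⟩, h5⟩ := hp
  obtain ⟨⟨h1', h2'⟩, ⟨h3', h4'⟩, h5'⟩ := hp'
  rw [Function.onFun, Set.disjoint_left]
  intro α m1 m2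
  unfold box at m1 m2
  rw [mem_rect] at m1 m2
  simp only at m1 m2
  have hX' : (1 : ℝ) ≤ X := by exact_mod_cast hX
  have c1 : (q : ℝ) ≤ X := by exact_mod_cast (h2.trans hQ)
  have c2 : (q' : ℝ) ≤ X := by exact_mod_cast (h2'.trans hQ)
  have c3 : (0 : ℝ) ≤ q := Nat.cast_nonneg _
  have c4 : (0 : ℝ) ≤ q' := Nat.cast_nonneg _
  have d1 : 1 / (100 * (X : ℝ) ^ 2) * q * q' ≤ 1 := by
    rw [mul_assoc, one_div, inv_mul_le_iff₀ (by positivity)]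
    nlinarith
  have d2 : 1 / (100 * (X : ℝ)) * q ≤ 1 := by
    rw [one_div, inv_mul_le_iff₀ (by positivity)]
    nlinarith
  have e1 : a * q' = a' * q := by
    rcases lt_trichotomy (a * q') (a' * q) with h | h | h
    · exact (sep _ _ _ _ (frac_lt a q a' q' _ h1 h1' d1 h) m1.2.2 m2.2.1).elim
    · exact h
    · exact (sep _ _ _ _ (frac_lt a' q' a q _ h1' h1 (by linarith) h) m2.2.2 m1.2.1).elim
  have e2 : q = q' := by
    apply Nat.dvd_antisymm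
    · apply h4.dvd_of_dvd_mul_left
      rw [e1]; exact Dvd.intro_left _ rfl
    · apply h4'.dvd_of_dvd_mul_left
      rw [← e1]; exact Dvd.intro_left _ rfl
  subst e2
  have e3 : a = a' := Nat.eq_of_mul_eq_mul_right h1 e1
  subst e3
  rcases lt_trichotomy b b' with h | h | h
  · exact sep _ _ _ _ (frac_lt' b b' q _ h1 d2 h) m1.1.2 m2.1.1
  · exact hne (by rw [h])
  · exact sep _ _ _ _ (frac_lt' b' b q _ h1 d2 h) m2.1.2 m1.1.1

lemma box_sub (X Q : ℕ) (hX : 0 < X) (hQ : Q ≤ X) (p : Σ _ : ℕ, Σ _ : ℕ, ℕ) (hp : p ∈ idx Q) :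
    box X p ⊆ rect 0 0 1 1 := by
  obtain ⟨q, a, b⟩ := p
  rw [mem_idx] at hp
  simp only at hp
  obtain ⟨⟨h1, h2⟩, ⟨h3, h4⟩, h5⟩ := hp
  intro α m1
  unfold box at m1
  rw [mem_rect] at m1 ⊢
  simp only at m1
  have hX' : (1 : ℝ) ≤ X := by exact_mod_cast hX
  have c1 : (q : ℝ) ≤ X := by exact_mod_cast (h2.trans hQ)
  have c3 : (0 : ℝ) < q := by exact_mod_cast h1
  have d1 : 1 / (100 * (X : ℝ) ^ 2) * q ≤ 1 := by
    rw [one_div, inv_mul_le_iff₀ (by positivity)]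
    nlinarith
  have d2 : 1 / (100 * (X : ℝ)) * q ≤ 1 := by
    rw [one_div, inv_mul_le_iff₀ (by positivity)]
    nlinarith
  have e1 := frac_lt' a q q _ h1 d1 h3
  have e2 := frac_lt' b q q _ h1 d2 h5
  rw [div_self c3.ne'] at e1 e2
  have e3 : (0 : ℝ) ≤ (a : ℝ) / q := by positivity
  have e4 : (0 : ℝ) ≤ (b : ℝ) / q := by positivity
  refine ⟨⟨by linarith, by linarith⟩, by linarith, by linarith⟩

/-- the integrand -/
noncomputable def FF (X : ℕ) (α : Fin 2 → ℝ) : ℝ := ‖ws X (α 0) (α 1)‖ ^ 4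

lemma FF_cont (X : ℕ) : Continuous (FF X) := by
  unfold FF ws ee
  fun_prop

lemma FF_int (X : ℕ) : IntegrableOn (FF X) (rect 0 0 1 1) := by
  have h1 : IntegrableOn (FF X) (Set.Icc (0 : Fin 2 → ℝ) 1) :=
    (FF_cont X).continuousOn.integrableOn_compact isCompact_Icc
  refine h1.mono_set ?_
  intro α h
  rw [mem_rect] at h
  constructor
  · intro j; fin_cases j
    · exact h.1.1
    · exact h.2.1
  · intro j; fin_cases j
    · simpa using h.1.2.le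
    · simpa using h.2.2.le

lemma int_lower (X Q : ℕ) (hX : 0 < X) (hQ : Q ≤ X) :
    (∑ d ∈ Ioc 0 Q, Nat.totient d : ℕ) * ((X : ℝ) ^ 4 / (2048 * Q) - 16 * (Q : ℝ) ^ 5) *
      (1 / (100 * X) * (1 / (100 * X ^ 2))) ≤ ∫ α in ⋃ p ∈ idx Q, box X p, FF X α := by
  have hX' : (1 : ℝ) ≤ X := by exact_mod_cast hX
  rw [integral_biUnion_finset (s := box X) _ (fun p _ => meas_rect _ _ _ _) (box_disj X Q hX hQ)
    (fun p hp => (FF_int X).mono_set (box_sub X Q hX hQ p hp))]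
  obtain ⟨V, hV⟩ : ∃ V : ℝ, V = 1 / (100 * X) * (1 / (100 * X ^ 2)) := ⟨_, rfl⟩
  have V0 : 0 ≤ V := by rw [hV]; positivity
  rw [← hV]
  have h1 : ∀ p ∈ idx Q, (((X / p.1 : ℕ) : ℝ) ^ 4 * ‖cs p.1 p.2.1 p.2.2‖ ^ 4 / 128 -
      16 * (p.1 : ℝ) ^ 4) * V ≤ ∫ α in box X p, FF X α := by
    intro p hp
    have a1 : volume (box X p) = ENNReal.ofReal V := by
      rw [hV]; exact vol_rect _ _ _ _ (by positivity)
    have a2 := setIntegral_ge_of_const_le_real (μ := volume) (s := box X p) (f := FF X)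
      (c := ((X / p.1 : ℕ) : ℝ) ^ 4 * ‖cs p.1 p.2.1 p.2.2‖ ^ 4 / 128 - 16 * (p.1 : ℝ) ^ 4)
      (meas_rect _ _ _ _) (by rw [a1]; exact ENNReal.ofReal_ne_top)
      (by
        intro α m
        unfold box at m
        rw [mem_rect] at m
        exact ws_lower X p.1 p.2.1 p.2.2 ((mem_idx Q p).1 hp).1.1 hX _ _ m.1.1 m.1.2 m.2.1 m.2.2)
      ((FF_int X).mono_set (box_sub X Q hX hQ p hp))
    rwa [Measure.real, a1, ENNReal.toReal_ofReal V0] at a2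
  refine le_trans ?_ (Finset.sum_le_sum h1)
  rw [← Finset.sum_mul]
  apply mul_le_mul_of_nonneg_right _ V0
  unfold idx
  rw [Finset.sum_sigma, Nat.cast_sum, Finset.sum_mul]
  apply Finset.sum_le_sum
  intro q hq
  rw [mem_Ioc] at hq
  rw [Finset.sum_sigma, Nat.totient_eq_card_coprime, ← nsmul_eq_mul, ← Finset.sum_const]
  apply Finset.sum_le_sum
  intro a _
  simp only
  rw [Finset.sum_sub_distrib, ← Finset.sum_div, ← Finset.mul_sum, Finset.sum_const, card_range,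
    nsmul_eq_mul]
  have q0 : (0 : ℝ) < q := by exact_mod_cast hq.1
  have q1 : (q : ℝ) ≤ Q := by exact_mod_cast hq.2
  have b1 := cs_four q a hq.1
  obtain ⟨J, hJ⟩ : ∃ J, J = X / q := ⟨_, rfl⟩
  rw [← hJ]
  have b2 : X ≤ 2 * (J * q) := by
    have c1 := Nat.lt_div_mul_add (a := X) hq.1
    have c2 : 1 ≤ X / q := (Nat.le_div_iff_mul_le hq.1).2 (by omega)
    rw [← hJ] at c1 c2
    have := Nat.mul_le_mul_right q c2
    omega
  have b3 : (X : ℝ) ≤ 2 * (J * q) := by exact_mod_cast b2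
  have b4 : (X : ℝ) ^ 4 ≤ (2 * (J * q)) ^ 4 := pow_le_pow_left₀ (by linarith) b3 4
  have b5 : (q : ℝ) ^ 5 ≤ (Q : ℝ) ^ 5 := pow_le_pow_left₀ q0.le q1 5
  have b6 : (J : ℝ) ^ 4 * (q : ℝ) ^ 3 ≤ (J : ℝ) ^ 4 * ∑ b ∈ range q, ‖cs q a b‖ ^ 4 :=
    mul_le_mul_of_nonneg_left b1 (by positivity)
  have b7 : (X : ℝ) ^ 4 / (2048 * Q) ≤ (J : ℝ) ^ 4 * (q : ℝ) ^ 3 / 128 := by
    rw [div_le_div_iff₀ (by linarith) (by norm_num)]
    have : (J : ℝ) ^ 4 * (q : ℝ) ^ 3 * q ≤ (J : ℝ) ^ 4 * (q : ℝ) ^ 3 * Q :=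
      mul_le_mul_of_nonneg_left q1 (by positivity)
    nlinarith
  nlinarith

lemma card_idx (Q : ℕ) : (idx Q).card ≤ Q ^ 3 := by
  unfold idx
  rw [card_sigma]
  calc _ ≤ ∑ _q ∈ Ioc 0 Q, Q * Q := by
        apply Finset.sum_le_sum
        intro q hq
        rw [mem_Ioc] at hq
        rw [card_sigma, Finset.sum_const, card_range, smul_eq_mul]
        exact Nat.mul_le_mul ((card_filter_le _ _).trans (by simpa using hq.2)) hq.2
    _ = Q ^ 3 := by simp; ring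

theorem counter (C : ℝ) : ∃ (t : ℕ) (B : Set (Fin 2 → ℝ)), 1 ≤ t ∧ MeasurableSet B ∧
    B ⊆ rect 0 0 1 1 ∧ 1 / (t : ℝ) ^ 10 ≤ (volume B).toReal ∧
    C * t * (((t : ℝ) ^ 20) ^ 2 * (volume B).toReal + (t : ℝ) ^ 20) < ∫ α in B, FF (t ^ 20) α := by
  obtain ⟨t, ht⟩ := exists_nat_gt (|C| * 10 ^ 10 + 4)
  have C0 := abs_nonneg C
  have t4 : (4 : ℝ) ≤ t := by nlinarith
  have t1 : 1 ≤ t := by exact_mod_cast (show (1 : ℝ) ≤ t by linarith)
  have hX : 0 < t ^ 20 := by positivity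
  have hQ : t ^ 12 ≤ t ^ 20 := Nat.pow_le_pow_right t1 (by norm_num)
  obtain ⟨B1, hB1⟩ : ∃ B1, B1 = ⋃ p ∈ idx (t ^ 12), box (t ^ 20) p := ⟨_, rfl⟩
  obtain ⟨B2, hB2⟩ : ∃ B2, B2 = rect 0 0 1 (1 / (t : ℝ) ^ 10) := ⟨_, rfl⟩
  have tp : (0 : ℝ) < t := by linarith
  have t10 : (1 : ℝ) ≤ (t : ℝ) ^ 10 := one_le_pow₀ (by linarith)
  have m1 : MeasurableSet B1 := by
    rw [hB1]; exact Finset.measurableSet_biUnion _ (fun p _ => meas_rect _ _ _ _)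
  have m2 : MeasurableSet B2 := by rw [hB2]; exact meas_rect _ _ _ _
  have s1 : B1 ⊆ rect 0 0 1 1 := by
    rw [hB1]; exact Set.iUnion₂_subset (fun p hp => box_sub _ _ hX hQ p hp)
  have s2 : B2 ⊆ rect 0 0 1 1 := by
    rw [hB2]
    intro α h
    rw [mem_rect] at h ⊢
    have : 1 / (t : ℝ) ^ 10 ≤ 1 := by rw [div_le_one (by positivity)]; exact t10
    exact ⟨h.1, h.2.1, by linarith [h.2.2]⟩
  have v2 : volume B2 = ENNReal.ofReal (1 / (t : ℝ) ^ 10) := by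
    rw [hB2, vol_rect _ _ _ _ (by norm_num), one_mul]
  have v1 : volume B1 ≤ ENNReal.ofReal (1 / (t : ℝ) ^ 10) := by
    rw [hB1]
    refine (measure_biUnion_finset_le _ _).trans ?_
    have a1 : ∀ p ∈ idx (t ^ 12), volume (box (t ^ 20) p) = ENNReal.ofReal
        (1 / (100 * ((t ^ 20 : ℕ) : ℝ)) * (1 / (100 * ((t ^ 20 : ℕ) : ℝ) ^ 2))) :=
      fun p _ => vol_rect _ _ _ _ (by positivity)
    rw [Finset.sum_congr rfl a1, Finset.sum_const, nsmul_eq_mul, ← ENNReal.ofReal_natCast,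
      ← ENNReal.ofReal_mul (Nat.cast_nonneg _)]
    apply ENNReal.ofReal_le_ofReal
    have a2 : ((idx (t ^ 12)).card : ℝ) ≤ ((t : ℝ) ^ 12) ^ 3 := by exact_mod_cast card_idx (t ^ 12)
    have a3 : (1 : ℝ) ≤ (t : ℝ) ^ 14 := one_le_pow₀ (by linarith)
    refine (mul_le_mul_of_nonneg_right a2 (by positivity)).trans ?_
    push_cast
    field_simp
    linarith
  have v3 : volume (B1 ∪ B2) ≤ ENNReal.ofReal (2 / (t : ℝ) ^ 10) := by
    refine (measure_union_le _ _).trans ?_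
    rw [show 2 / (t : ℝ) ^ 10 = 1 / (t : ℝ) ^ 10 + 1 / (t : ℝ) ^ 10 by ring,
      ENNReal.ofReal_add (by positivity) (by positivity), v2]
    gcongr
  have v4 : (volume (B1 ∪ B2)).toReal ≤ 2 / (t : ℝ) ^ 10 :=
    ENNReal.toReal_le_of_le_ofReal (by positivity) v3
  refine ⟨t, B1 ∪ B2, t1, m1.union m2, Set.union_subset s1 s2, ?_, ?_⟩
  · rw [← ENNReal.ofReal_le_iff_le_toReal (ne_top_of_le_ne_top ENNReal.ofReal_ne_top v3), ← v2]
    exact measure_mono Set.subset_union_right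
  · have i1 : ∫ α in B1, FF (t ^ 20) α ≤ ∫ α in B1 ∪ B2, FF (t ^ 20) α :=
      setIntegral_mono_set ((FF_int _).mono_set (Set.union_subset s1 s2))
        (Filter.Eventually.of_forall (fun α => by unfold FF; positivity))
        (Filter.Eventually.of_forall Set.subset_union_left)
    have i2 := int_lower (t ^ 20) (t ^ 12) hX hQ
    rw [← hB1] at i2
    refine lt_of_lt_of_le ?_ (i2.trans i1)
    have a1 : (((t : ℝ) ^ 12) ^ 2) ≤ 12 * ((∑ d ∈ Ioc 0 (t ^ 12), Nat.totient d : ℕ) : ℝ) := by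
      exact_mod_cast totient_sum (t ^ 12)
    obtain ⟨T, hT⟩ : ∃ T : ℝ, T = ((∑ d ∈ Ioc 0 (t ^ 12), Nat.totient d : ℕ) : ℝ) := ⟨_, rfl⟩
    rw [← hT] at a1 ⊢
    have a2 : (4 : ℝ) ^ 8 ≤ (t : ℝ) ^ 8 := pow_le_pow_left₀ (by norm_num) t4 8
    have a3 : ((((t ^ 20 : ℕ) : ℝ)) ^ 4 / (2048 * ((t ^ 12 : ℕ) : ℝ)) -
        16 * ((t ^ 12 : ℕ) : ℝ) ^ 5) *
        (1 / (100 * ((t ^ 20 : ℕ) : ℝ)) * (1 / (100 * ((t ^ 20 : ℕ) : ℝ) ^ 2))) =
        ((t : ℝ) ^ 8 / 2048 - 16) / 10000 := by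
      push_cast; field_simp; ring
    rw [mul_assoc T, a3]
    have a4 : (t : ℝ) ^ 8 / 40960000 ≤ ((t : ℝ) ^ 8 / 2048 - 16) / 10000 := by
      norm_num at a2; linarith
    have a5 : ((t : ℝ) ^ 12) ^ 2 / 12 * ((t : ℝ) ^ 8 / 40960000) ≤
        T * (((t : ℝ) ^ 8 / 2048 - 16) / 10000) :=
      mul_le_mul (by linarith) a4 (by positivity) (by nlinarith [sq_nonneg ((t : ℝ) ^ 12)])
    refine lt_of_lt_of_le ?_ a5
    have b1 : ((t : ℝ) ^ 20) ^ 2 * (volume (B1 ∪ B2)).toReal ≤ 2 * (t : ℝ) ^ 30 := by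
      refine (mul_le_mul_of_nonneg_left v4 (by positivity)).trans (le_of_eq ?_)
      field_simp
    have b2 : (t : ℝ) ^ 20 ≤ (t : ℝ) ^ 30 := pow_le_pow_right₀ (by linarith) (by norm_num)
    have b3 : 0 ≤ ((t : ℝ) ^ 20) ^ 2 * (volume (B1 ∪ B2)).toReal + (t : ℝ) ^ 20 := by positivity
    have b4 : C * t * (((t : ℝ) ^ 20) ^ 2 * (volume (B1 ∪ B2)).toReal + (t : ℝ) ^ 20) ≤
        |C| * t * (3 * (t : ℝ) ^ 30) :=
      mul_le_mul (mul_le_mul_of_nonneg_right (le_abs_self C) tp.le) (by linarith) b3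
        (by positivity)
    refine lt_of_le_of_lt b4 ?_
    have b5 : (0 : ℝ) < (t : ℝ) ^ 31 := by positivity
    have b6 : |C| * t * (3 * (t : ℝ) ^ 30) = (t : ℝ) ^ 31 * (3 * |C|) := by ring
    have b7 : ((t : ℝ) ^ 12) ^ 2 / 12 * ((t : ℝ) ^ 8 / 40960000) =
        (t : ℝ) ^ 31 * (t / 491520000) := by ring
    rw [b6, b7]
    apply mul_lt_mul_of_pos_left _ b5
    norm_num at ht
    linarith

end Pool.Agent.H15.WM
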