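import Mathlib

/-! Truncated cosine transforms of the Xi kernel: definitions and approximation of the kernel. -/

namespace Pool.Agent.H15.XI

open Real Set Finset MeasureTheory

/-- the `n`-th term of the kernel -/
noncomputable def tm (n t : ℝ) : ℝ :=
  (2 * n ^ 4 * π ^ 2 * exp (9 * t) - 3 * n ^ 2 * π * exp (5 * t)) * exp (-n ^ 2 * π * exp (4 * t))

/-- the kernel `Φ` -/
noncomputable def Phi (t : ℝ) : ℝ := ∑' n : ℕ, tm (n + 1) t

/-- the truncated cosine transform -/
noncomputable def F (a : ℝ) (z : ℂ) : ℂ := ∫ t in (0:ℝ)..a, (Phi t : ℂ) * Complex.cos (z * t)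

theorem tm_nn {n t : ℝ} (hn : 1 ≤ n) (ht : 0 ≤ t) : 0 ≤ tm n t := by
  refine mul_nonneg ?_ (exp_pos _).le
  have h1 : exp (5 * t) ≤ exp (9 * t) := exp_le_exp.2 (by linarith)
  have h2 : 1 ≤ n ^ 2 := one_le_pow₀ hn
  have h3 : 3 ≤ 2 * n ^ 2 * π := by nlinarith [pi_gt_three]
  have : 3 * n ^ 2 * π * exp (5 * t) ≤ (2 * n ^ 2 * π) * n ^ 2 * π * exp (9 * t) := by
    have := pi_pos; gcongr
  linarith

theorem e4pi : exp (-4 * π) ≤ 1 / 286000 := by
  have h1 := pow_le_pow_left₀ (by norm_num) exp_one_gt_d9.le 12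
  have h2 := sum_le_exp_of_nonneg (x := 0.566) (by norm_num) 5
  have h3 : exp 1 ^ 12 * exp 0.566 ≤ exp (4 * π) := by
    rw [← exp_nat_mul, ← exp_add]; exact exp_le_exp.2 (by norm_num; linarith [pi_gt_d4])
  have h4 := mul_le_mul h1 h2 (by positivity) (by positivity)
  rw [neg_mul, exp_neg, one_div]
  refine inv_anti₀ (by norm_num) (le_trans ?_ (h4.trans h3))
  norm_num [sum_range_succ, Nat.factorial]

theorem tm_le (k : ℕ) {t : ℝ} (ht : 0 ≤ t) :
    tm (k + 2) t ≤ 0.0011044 * exp (-41 * t) * (1 / 1000) ^ k := by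
  have k0 : (0:ℝ) ≤ k := k.cast_nonneg
  have p3 := pi_gt_d4
  have h1 : ((k:ℝ) + 2) ^ 4 ≤ 16 * 16 ^ k := by
    have : (k:ℝ) + 2 ≤ 2 * 2 ^ k := by
      have := one_add_mul_le_pow (show (-2:ℝ) ≤ 1 by norm_num) k
      norm_num at this; linarith
    calc _ ≤ (2 * 2 ^ k : ℝ) ^ 4 := by gcongr
      _ = _ := by rw [mul_pow, ← pow_mul, mul_comm k, pow_mul]; norm_num
  have h2 : exp (-12) ≤ 1 / 16000 := by
    have := pow_le_pow_left₀ (by norm_num) exp_one_gt_d9.le 12
    rw [← exp_nat_mul] at this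
    rw [exp_neg, one_div]
    exact inv_anti₀ (by norm_num) (le_trans (by norm_num) (this.trans_eq (by norm_num)))
  have h3 : exp (-((k:ℝ) + 2) ^ 2 * π * exp (4 * t)) ≤
      exp (-4 * π) * exp (-12) ^ k * exp (-50 * t) := by
    rw [← exp_nat_mul, ← exp_add, ← exp_add, exp_le_exp]
    have a := add_one_le_exp (4 * t)
    have b : 4 * π + 12 * k ≤ ((k:ℝ) + 2) ^ 2 * π := by nlinarith [sq_nonneg (k:ℝ)]
    have c := mul_le_mul b a (by positivity) (by positivity)
    nlinarith [mul_nonneg k0 ht]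
  have h4 : π ^ 2 ≤ 9.8697 := by nlinarith [pi_lt_d4]
  have e : exp (-41 * t) = exp (9 * t) * exp (-50 * t) := by rw [← exp_add]; ring_nf
  calc tm (k + 2) t ≤ 2 * ((k:ℝ) + 2) ^ 4 * π ^ 2 * exp (9 * t) *
        exp (-((k:ℝ) + 2) ^ 2 * π * exp (4 * t)) := by
        unfold tm; gcongr; exact sub_le_self _ (by positivity)
    _ ≤ 2 * (16 * 16 ^ k) * 9.8697 * exp (9 * t) *
        (1 / 286000 * (1 / 16000) ^ k * exp (-50 * t)) := by
        gcongr
        refine h3.trans ?_
        gcongr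
        exact e4pi
    _ = 32 * 9.8697 / 286000 * exp (-41 * t) * (16 * (1 / 16000)) ^ k := by rw [e, mul_pow]; ring
    _ ≤ _ := by
        rw [show (16 * (1 / 16000) : ℝ) = 1 / 1000 by norm_num]
        gcongr; norm_num

theorem tail {t : ℝ} (ht : 0 ≤ t) : |Phi t - tm 1 t| ≤ 0.001106 * exp (-41 * t) := by
  have g := (hasSum_geometric_of_lt_one (r := (1 / 1000 : ℝ)) (by norm_num) (by norm_num)).mul_left
    (0.0011044 * exp (-41 * t))
  have b : ∀ k : ℕ, ‖tm ((k + 1 : ℕ) + 1) t‖ ≤ 0.0011044 * exp (-41 * t) * (1 / 1000) ^ k := by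
    intro k
    rw [Real.norm_of_nonneg (tm_nn (le_add_of_nonneg_left (Nat.cast_nonneg _)) ht)]
    convert tm_le k ht using 2
    push_cast; ring
  have s : Summable fun n : ℕ => tm (n + 1) t :=
    (summable_nat_add_iff 1).1 (g.summable.of_norm_bounded b)
  rw [Phi, s.tsum_eq_zero_add]
  simp only [Nat.cast_zero, zero_add, add_sub_cancel_left]
  refine (tsum_of_norm_bounded g b).trans ?_
  nlinarith [exp_pos (-41 * t)]

theorem m_Phi : Measurable Phi := Measurable.tsum fun n => by unfold tm; fun_prop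

def P0 : ℚ := 31415926536 / 10000000000

noncomputable def pp (t : ℝ) : ℝ := (2 * P0 ^ 2 * exp (9 * t) - 3 * P0 * exp (5 * t)) *
  ∑ k ∈ range 40, (-(P0 * exp (4 * t))) ^ k / k.factorial

noncomputable def aa : ℝ := log (62 / 47)

theorem exp_aa : exp aa = 62 / 47 := exp_log (by norm_num)

theorem aa_bd : 0.276985 ≤ aa ∧ aa ≤ 0.276989 := by
  have h := abs_log_sub_add_sum_range_le (x := 15 / 62) (by rw [abs_of_pos] <;> norm_num) 9
  rw [show (1 - 15 / 62 : ℝ) = (62 / 47)⁻¹ by norm_num, log_inv, abs_of_pos (a := 15 / 62)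
    (by norm_num), abs_le] at h
  norm_num [sum_range_succ] at h
  unfold aa
  constructor <;> linarith [h.1, h.2]

theorem pp_err {t : ℝ} (h1 : t ≤ aa) : |tm 1 t - pp t| ≤ 0.000002 := by
  have he : ∀ n : ℕ, exp (n * t) ≤ (62 / 47) ^ n := fun n => by
    rw [exp_nat_mul, ← exp_aa]; gcongr
  have e4 : exp (4 * t) ≤ 3.0282 := (he 4).trans (by norm_num)
  have e5 : exp (5 * t) ≤ 4 := (he 5).trans (by norm_num)
  have e9 : exp (9 * t) ≤ 12.1 := (he 9).trans (by norm_num)
  have p4 := exp_pos (4 * t)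
  have p5 := exp_pos (5 * t)
  have p9 := exp_pos (9 * t)
  have hP : (P0:ℝ) = 3.1415926536 := by norm_num [P0]
  have d : |π - P0| ≤ 1e-10 := by
    rw [hP, abs_le]; constructor <;> linarith [pi_gt_d20, pi_lt_d20]
  have d' := abs_le.1 d
  set S := ∑ k ∈ range 40, (-(P0 * exp (4 * t))) ^ k / (k.factorial : ℝ) with hS
  have a1 : |exp (-(P0 * exp (4 * t))) - S| ≤ 4e-9 := by
    have n : ‖((-(P0 * exp (4 * t)) : ℝ) : ℂ)‖ ≤ 9.52 := by
      rw [Complex.norm_real, Real.norm_eq_abs, abs_neg, abs_of_pos (by rw [hP]; positivity), hP]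
      linarith
    have h := Complex.exp_bound' (x := ((-(P0 * exp (4 * t)) : ℝ) : ℂ)) (n := 40)
      (by rw [div_le_iff₀ (by positivity)]; norm_num at n ⊢; linarith)
    have e : ((exp (-(P0 * exp (4 * t))) - S : ℝ) : ℂ) = Complex.exp ((-(P0 * exp (4 * t)) : ℝ) : ℂ) -
        ∑ m ∈ range 40, ((-(P0 * exp (4 * t)) : ℝ) : ℂ) ^ m / m.factorial := by
      rw [hS]; push_cast; rfl
    rw [← e, Complex.norm_real] at h
    refine h.trans (le_trans (b := (9.52:ℝ) ^ 40 / (Nat.factorial 40 : ℕ) * 2) (by gcongr) ?_)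
    norm_num [Nat.factorial]
  have x1 : exp (-(π * exp (4 * t))) ≤ 1 := exp_le_one_iff.2 (by have := pi_pos; simp; positivity)
  have x0 := exp_pos (-(π * exp (4 * t)))
  have a2 : |exp (-(π * exp (4 * t))) - exp (-(P0 * exp (4 * t)))| ≤ 1e-9 := by
    have b : |(π - P0) * exp (4 * t)| ≤ 4e-10 := by
      rw [abs_mul, abs_of_pos p4]; nlinarith [abs_nonneg (π - P0)]
    have c := abs_exp_sub_one_le (b.trans (by norm_num))
    have e : exp (-(π * exp (4 * t))) - exp (-(P0 * exp (4 * t))) =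
        -(exp (-(π * exp (4 * t))) * (exp ((π - P0) * exp (4 * t)) - 1)) := by
      rw [mul_sub, ← exp_add]; ring_nf
    rw [e, abs_neg, abs_mul, abs_of_pos x0]
    nlinarith [abs_nonneg (exp ((π - P0) * exp (4 * t)) - 1)]
  have a3 : |exp (-(π * exp (4 * t))) - S| ≤ 5e-9 := by
    have := abs_sub_le (exp (-(π * exp (4 * t)))) (exp (-(P0 * exp (4 * t)))) S
    linarith
  have a4 : |2 * P0 ^ 2 * exp (9 * t) - 3 * P0 * exp (5 * t)| ≤ 240 := by
    rw [hP, abs_le]; constructor <;> linarith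
  have a5 : |(π - P0) * (2 * (π + P0) * exp (9 * t) - 3 * exp (5 * t))| ≤ 1e-10 * 200 := by
    rw [abs_mul]
    refine mul_le_mul d ?_ (abs_nonneg _) (by norm_num)
    rw [hP] at d' ⊢
    rw [abs_le]; constructor <;> nlinarith
  have e : tm 1 t - pp t = (π - P0) * (2 * (π + P0) * exp (9 * t) - 3 * exp (5 * t)) *
      exp (-(π * exp (4 * t))) + (2 * P0 ^ 2 * exp (9 * t) - 3 * P0 * exp (5 * t)) *
      (exp (-(π * exp (4 * t))) - S) := by
    rw [tm, pp, ← hS, show -(1:ℝ) ^ 2 * π * exp (4 * t) = -(π * exp (4 * t)) by ring]; ring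
  rw [e]
  refine (abs_add_le _ _).trans ?_
  rw [abs_mul _ (exp _), abs_mul _ (_ - S), abs_of_pos x0]
  have := mul_le_mul a4 a3 (abs_nonneg _) (by norm_num)
  have := mul_le_mul a5 x1 x0.le (by norm_num)
  linarith

theorem c_pp : Continuous pp := by unfold pp; fun_prop

theorem norm_cos (w : ℂ) : ‖Complex.cos w‖ ≤ cosh w.im := by
  rw [Complex.cos, norm_div, cosh_eq]
  refine div_le_div₀ (by positivity) ((norm_add_le _ _).trans ?_) two_pos (by simp)
  simp [Complex.norm_exp, add_comm]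

theorem norm_sin (w : ℂ) : ‖Complex.sin w‖ ≤ cosh w.im := by
  rw [← Complex.cos_pi_div_two_sub]
  refine (norm_cos _).trans_eq ?_
  simp

theorem Phi_bd {t : ℝ} (h0 : 0 ≤ t) (h1 : t ≤ aa) :
    |Phi t - pp t| ≤ 0.001106 * exp (-41 * t) + 0.000002 := by
  linarith [abs_sub_le (Phi t) (tm 1 t) (pp t), tail h0, pp_err h1]

theorem aa_nn : 0 ≤ aa := by linarith [aa_bd.1]

theorem i_Phi : IntervalIntegrable (fun t => (Phi t : ℂ)) volume 0 aa := by
  have : IntervalIntegrable (fun t => Phi t - pp t) volume 0 aa := by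
    refine IntervalIntegrable.mono_fun' (g := fun t => 0.001106 * exp (-41 * t) + 0.000002)
      (Continuous.intervalIntegrable (by fun_prop) _ _)
      (m_Phi.sub c_pp.measurable).aestronglyMeasurable ?_
    rw [uIoc_of_le aa_nn]
    filter_upwards [ae_restrict_mem measurableSet_Ioc] with t ht using Phi_bd ht.1.le ht.2
  have h := this.add (c_pp.intervalIntegrable 0 aa)
  simp only [sub_add_cancel] at h
  exact ⟨h.1.ofReal, h.2.ofReal⟩

theorem F_diff : Differentiable ℂ (F aa) := by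
  intro z
  refine (intervalIntegral.hasDerivAt_integral_of_dominated_loc_of_deriv_le
    (F := fun z (t : ℝ) => (Phi t : ℂ) * Complex.cos (z * t))
    (F' := fun z (t : ℝ) => (Phi t : ℂ) * (-Complex.sin (z * t) * t))
    (bound := fun t => ‖(Phi t : ℂ)‖ * (cosh ((‖z‖ + 1) * t) * |t|)) (Metric.ball_mem_nhds z one_pos)
    (.of_forall fun x => ?_) (i_Phi.mul_continuousOn (by fun_prop)) ?_
    (.of_forall fun t _ x hx => ?_) (i_Phi.norm.mul_continuousOn (by fun_prop))
    (.of_forall fun t _ x _ => ?_)).2.differentiableAt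
  · have := m_Phi; exact Measurable.aestronglyMeasurable (by fun_prop)
  · have := m_Phi; exact Measurable.aestronglyMeasurable (by fun_prop)
  · rw [norm_mul, norm_mul, norm_neg, Complex.norm_real t, Real.norm_eq_abs]
    gcongr
    refine (norm_sin _).trans (cosh_le_cosh.2 ?_)
    have := norm_sub_norm_le x z
    have := mem_ball_iff_norm.1 hx
    simp only [Complex.mul_im, Complex.ofReal_re, Complex.ofReal_im, mul_zero, zero_add, abs_mul]
    exact mul_le_mul_of_nonneg_right ((Complex.abs_im_le_norm x).trans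
      (le_trans (by linarith) (le_abs_self (‖z‖ + 1)))) (abs_nonneg t)
  · simpa using ((hasDerivAt_mul_const (t:ℂ)).ccos).const_mul (Phi t : ℂ)

end Pool.Agent.H15.XI
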