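import Pool.Agent.H15.XI1

/-! Closed forms and certified values of the exponential moments of the approximate kernel. -/

namespace Pool.Agent.H15.XI

open Set Finset MeasureTheory Complex

noncomputable def K (γ : ℂ) : ℂ := ∫ t in (0:ℝ)..aa, (pp t : ℂ) * exp (γ * t)

noncomputable def Tc (ρ γ : ℂ) : ℂ := ∑ k ∈ range 40, (-P0) ^ k / k.factorial *
  (2 * P0 ^ 2 * ρ ^ (4 * k + 9) / (4 * k + 9 + γ) - 3 * P0 * ρ ^ (4 * k + 5) / (4 * k + 5 + γ))

theorem cexp_aa : exp aa = 62 / 47 := by rw [← ofReal_exp, exp_aa]; push_cast; rfl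

theorem K_eq {γ : ℂ} (h9 : ∀ k : ℕ, 4 * k + 9 + γ ≠ 0) (h5 : ∀ k : ℕ, 4 * k + 5 + γ ≠ 0) :
    K γ = exp (γ * aa) * Tc (62 / 47) γ - Tc 1 γ := by
  have e : ∀ t : ℝ, (pp t : ℂ) * exp (γ * t) = ∑ k ∈ range 40, (-P0) ^ k / k.factorial *
      (2 * P0 ^ 2 * exp ((4 * k + 9 + γ) * t) - 3 * P0 * exp ((4 * k + 5 + γ) * t)) := by
    intro t
    rw [pp]
    push_cast
    rw [mul_sum, sum_mul]
    refine sum_congr rfl fun k _ => ?_
    rw [show (4 * k + 9 + γ) * t = k * (4 * t) + 9 * t + γ * t by ring,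
      show (4 * k + 5 + γ) * t = k * (4 * t) + 5 * t + γ * t by ring, exp_add, exp_add, exp_add,
      exp_add, exp_nat_mul, ← neg_mul, mul_pow]
    ring
  have x : ∀ n : ℕ, exp ((n + γ) * aa) = (62 / 47) ^ n * exp (γ * aa) := fun n => by
    rw [add_mul, exp_add, exp_nat_mul, cexp_aa]
  simp only [K, e]
  rw [intervalIntegral.integral_finsetSum fun k _ => Continuous.intervalIntegrable (by fun_prop) _ _,
    Tc, Tc, mul_sum, ← sum_sub_distrib]
  refine sum_congr rfl fun k _ => ?_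
  have x9 := x (4 * k + 9)
  have x5 := x (4 * k + 5)
  push_cast at x9 x5
  rw [intervalIntegral.integral_const_mul, intervalIntegral.integral_sub
    (Continuous.intervalIntegrable (by fun_prop) _ _)
    (Continuous.intervalIntegrable (by fun_prop) _ _), intervalIntegral.integral_const_mul,
    intervalIntegral.integral_const_mul, integral_exp_mul_complex (h9 k),
    integral_exp_mul_complex (h5 k), x9, x5]
  simp only [ofReal_zero, mul_zero, exp_zero, one_pow]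
  ring

noncomputable def C (q : ℚ × ℚ) : ℂ := q.1 + q.2 * I

def Tq (ρ u v : ℚ) : ℚ × ℚ :=
  (∑ k ∈ range 40, (-P0) ^ k / k.factorial *
    (2 * P0 ^ 2 * ρ ^ (4 * k + 9) * ((4 * k + 9 + u) / ((4 * k + 9 + u) ^ 2 + v ^ 2)) -
      3 * P0 * ρ ^ (4 * k + 5) * ((4 * k + 5 + u) / ((4 * k + 5 + u) ^ 2 + v ^ 2))),
  ∑ k ∈ range 40, (-P0) ^ k / k.factorial *
    (2 * P0 ^ 2 * ρ ^ (4 * k + 9) * (-v / ((4 * k + 9 + u) ^ 2 + v ^ 2)) -
      3 * P0 * ρ ^ (4 * k + 5) * (-v / ((4 * k + 5 + u) ^ 2 + v ^ 2))))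

theorem inv_eq (m v : ℝ) : ((m:ℂ) + v * I)⁻¹ = m / (m ^ 2 + v ^ 2) + -v / (m ^ 2 + v ^ 2) * I := by
  rw [inv_def, normSq_add_mul_I]
  simp
  ring

theorem Tc_eq (ρ u v : ℚ) : Tc ρ (u + v * I) = C (Tq ρ u v) := by
  simp only [Tc, C, Tq]
  push_cast
  rw [sum_mul, ← sum_add_distrib]
  refine sum_congr rfl fun k _ => ?_
  have h9 := inv_eq (4 * k + 9 + u) v
  have h5 := inv_eq (4 * k + 5 + u) v
  push_cast at h9 h5
  rw [div_eq_mul_inv _ (_ + (_ + _)), div_eq_mul_inv _ (_ + (_ + _)), ← add_assoc, ← add_assoc,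
    h9, h5]
  ring

def nsq (q : ℚ × ℚ) : ℚ := q.1 ^ 2 + q.2 ^ 2

theorem C_le {q : ℚ × ℚ} {b : ℚ} (hb : 0 ≤ b) (h : nsq q ≤ b ^ 2) : ‖C q‖ ≤ b := by
  refine le_of_sq_le_sq ?_ (by exact_mod_cast hb)
  have := normSq_add_mul_I q.1 q.2
  rw [← normSq_eq_norm_sq, C]
  push_cast at this
  rw [this]
  exact_mod_cast h

def chk (u : ℤ) (v : ℚ) (w κ : ℚ × ℚ) (b : ℚ) : Prop :=
  nsq ((62 / 47) ^ u * (Tq (62 / 47) u v).1, (62 / 47) ^ u * (Tq (62 / 47) u v).2) ≤ b ^ 2 ∧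
  nsq ((62 / 47) ^ u * (w.1 * (Tq (62 / 47) u v).1 - w.2 * (Tq (62 / 47) u v).2) - (Tq 1 u v).1 - κ.1,
    (62 / 47) ^ u * (w.1 * (Tq (62 / 47) u v).2 + w.2 * (Tq (62 / 47) u v).1) - (Tq 1 u v).2 - κ.2)
    ≤ (1 / 10 ^ 8) ^ 2

instance (u : ℤ) (v : ℚ) (w κ : ℚ × ℚ) (b : ℚ) : Decidable (chk u v w κ b) := by
  unfold chk; infer_instance

theorem K_val {u : ℤ} {v : ℚ} {w κ : ℚ × ℚ} {b : ℚ} {η : ℝ} (hu : v ≠ 0 ∨ Even u) (hb : 0 ≤ b)
    (h : chk u v w κ b) (hw : ‖exp (v * aa * I) - C w‖ ≤ η) :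
    ‖K (u + v * I) - C κ‖ ≤ η * b + 1 / 10 ^ 8 := by
  have nz : ∀ m : ℤ, Odd m → (m:ℂ) + (u + v * I) ≠ 0 := by
    intro m hm e
    have e1 := congrArg re e
    have e2 := congrArg im e
    simp at e1 e2
    rcases hu with hu | hu
    · exact hu e2
    · have : m + u = 0 := by exact_mod_cast e1
      obtain ⟨a, rfl⟩ := hm
      obtain ⟨c, rfl⟩ := hu
      omega
  have t1 := Tc_eq (62 / 47) u v
  have t2 := Tc_eq 1 u v
  push_cast at t1 t2
  have b1 := C_le hb h.1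
  have b2 := C_le (by norm_num) h.2
  rw [K_eq (fun k => by simpa using nz (4 * k + 9) ⟨2 * k + 4, by ring⟩)
    (fun k => by simpa using nz (4 * k + 5) ⟨2 * k + 2, by ring⟩), t1, t2,
    show ((u:ℂ) + v * I) * aa = u * aa + v * aa * I by ring, exp_add, exp_int_mul, cexp_aa]
  generalize Tq (62 / 47) u v = T1 at *
  generalize Tq 1 u v = T2 at *
  have e : (62 / 47) ^ u * exp (v * aa * I) * C T1 - C T2 - C κ = (exp (v * aa * I) - C w) *
      C ((62 / 47) ^ u * T1.1, (62 / 47) ^ u * T1.2) +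
      C ((62 / 47) ^ u * (w.1 * T1.1 - w.2 * T1.2) - T2.1 - κ.1,
        (62 / 47) ^ u * (w.1 * T1.2 + w.2 * T1.1) - T2.2 - κ.2) := by
    simp only [C]
    push_cast
    linear_combination ((62 / 47 : ℂ) ^ u * w.2 * T1.2) * I_mul_I
  rw [e]
  refine (norm_add_le _ _).trans (add_le_add ?_ (by simpa using b2))
  rw [norm_mul]
  exact mul_le_mul hw b1 (norm_nonneg _) ((norm_nonneg _).trans hw)

theorem om1 : ‖exp ((109 / 4 : ℚ) * aa * I) - C (0.30133, 0.95352)‖ ≤ 1 / 10 ^ 4 * 2 := by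
  have a := aa_bd
  set s : ℝ := 109 / 4 * aa - 5 * Real.pi / 2 + 0.30609 with hs
  have s1 : |s| ≤ 0.00008 := by
    rw [abs_le]; constructor <;> linarith [Real.pi_gt_d6, Real.pi_lt_d6]
  have e : exp ((109 / 4 : ℚ) * aa * I) = I * exp (-0.30609 * I) * exp (I * s) := by
    have : exp (2 * Real.pi * I + Real.pi / 2 * I) = I := by
      rw [exp_add, exp_two_pi_mul_I, exp_pi_div_two_mul_I, one_mul]
    conv_rhs => rw [← this, ← exp_add]
    rw [this, ← exp_add, hs]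
    congr 1
    push_cast
    ring
  have n1 : ‖(-0.30609 * I : ℂ)‖ = 0.30609 := by simp; norm_num
  have h1 := exp_bound (x := -0.30609 * I) (by rw [n1]; norm_num) (n := 5) (by norm_num)
  have h2 := Real.norm_exp_I_mul_ofReal_sub_one_le (x := s)
  have n2 : ‖exp (-0.30609 * I)‖ = 1 := by rw [norm_exp]; simp
  set S := ∑ m ∈ range 5, (-0.30609 * I : ℂ) ^ m / m.factorial with hS
  have h3 : I * S - C (0.30133, 0.95352) = C (0.30609 - 0.30609 ^ 3 / 6 - 0.30133,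
      1 - 0.30609 ^ 2 / 2 + 0.30609 ^ 4 / 24 - 0.95352) := by
    simp only [hS, sum_range_succ, C, Nat.factorial]
    apply Complex.ext <;> simp [pow_succ] <;> norm_num
  have h4 := C_le (q := (0.30609 - 0.30609 ^ 3 / 6 - 0.30133,
      1 - 0.30609 ^ 2 / 2 + 0.30609 ^ 4 / 24 - 0.95352)) (b := 0.00003) (by norm_num)
    (by norm_num [nsq])
  have e2 : I * exp (-0.30609 * I) * exp (I * s) - C (0.30133, 0.95352) =
      I * exp (-0.30609 * I) * (exp (I * s) - 1) + I * (exp (-0.30609 * I) - S) +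
        (I * S - C (0.30133, 0.95352)) := by ring
  rw [e, e2, h3]
  refine (norm_add₃_le).trans ?_
  rw [norm_mul, norm_mul, norm_mul, norm_I, n2]
  rw [n1] at h1
  rw [Real.norm_eq_abs] at h2
  norm_num [Nat.factorial] at h1 h4 ⊢
  linarith

theorem om2 : ‖exp ((-109 / 4 : ℚ) * aa * I) - C (0.30133, -0.95352)‖ ≤ 1 / 10 ^ 4 * 2 := by
  have : ∀ v a b : ℚ, ‖exp ((-v : ℚ) * aa * I) - C (a, -b)‖ = ‖exp (v * aa * I) - C (a, b)‖ := by
    intro v a b
    rw [← norm_conj]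
    simp [← exp_conj, C]
  rw [neg_div, this]
  exact om1

theorem om0 : ‖exp ((0 : ℚ) * aa * I) - C (1, 0)‖ ≤ 0 := by simp [C]

theorem k1 : chk (-4) (109 / 4) (0.30133, 0.95352) (0.00367427, 0.01779925) 0.001 := by
  decide +kernel
theorem k2 : chk (-3) (109 / 4) (0.30133, 0.95352) (0.00291633, 0.01817121) 0.001 := by
  decide +kernel
theorem k3 : chk (-2) (109 / 4) (0.30133, 0.95352) (0.00208827, 0.01847626) 0.001 := by
  decide +kernel
theorem k4 : chk 2 (-109 / 4) (0.30133, -0.95352) (-0.00183919, -0.01858017) 0.001 := by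
  decide +kernel
theorem k5 : chk 3 (-109 / 4) (0.30133, -0.95352) (-0.00291418, -0.01817564) 0.001 := by
  decide +kernel
theorem k6 : chk 4 (-109 / 4) (0.30133, -0.95352) (-0.00397718, -0.01751839) 0.001 := by
  decide +kernel
theorem r1 : chk 6 0 (1, 0) (0.110483573, 0) 20 := by decide +kernel
theorem r2 : chk (-6) 0 (1, 0) (0.039354335, 0) 20 := by decide +kernel
theorem r3 : chk 4 0 (1, 0) (0.089433754, 0) 20 := by decide +kernel
theorem r4 : chk (-4) 0 (1, 0) (0.045133110, 0) 20 := by decide +kernel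
theorem r5 : chk 2 0 (1, 0) (0.073664920, 0) 20 := by decide +kernel
theorem r6 : chk (-2) 0 (1, 0) (0.052399541, 0) 20 := by decide +kernel

end Pool.Agent.H15.XI
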