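import Pool.Agent.H15.XI2

/-! A non-real zero of a truncated cosine transform of the Xi kernel. -/

namespace Pool.Agent.H15.XI

open Set Finset MeasureTheory Complex

noncomputable def G (z : ℂ) : ℂ := ∫ t in (0:ℝ)..aa, (pp t : ℂ) * cos (z * t)

theorem FG {z : ℂ} (hz : |z.im| ≤ 4) : ‖F aa z - G z‖ ≤ 0.0000285 := by
  have := c_pp
  have a := aa_bd
  rw [F, G, ← intervalIntegral.integral_sub (i_Phi.mul_continuousOn (by fun_prop))
    (Continuous.intervalIntegrable (by fun_prop) _ _)]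
  refine (intervalIntegral.norm_integral_le_of_norm_le aa_nn
    (g := fun t => 0.000553 * (Real.exp (-37 * t) + Real.exp (-45 * t)) + 0.000004)
    (.of_forall fun t ht => ?_) (Continuous.intervalIntegrable (by fun_prop) _ _)).trans ?_
  · have c : ‖cos (z * t)‖ ≤ Real.cosh (4 * t) := (norm_cos _).trans (Real.cosh_le_cosh.2 (by
      simp only [mul_im, ofReal_re, ofReal_im, mul_zero, zero_add, abs_mul]
      exact mul_le_mul_of_nonneg_right (hz.trans (le_abs_self 4)) (abs_nonneg t)))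
    have e4 : Real.exp (4 * t) ≤ 3.0282 := by
      have : Real.exp ((4:ℕ) * t) ≤ (62 / 47) ^ 4 := by
        rw [Real.exp_nat_mul, ← exp_aa]; gcongr; exact ht.2
      exact this.trans (by norm_num)
    rw [← sub_mul, norm_mul, ← ofReal_sub, norm_real]
    refine (mul_le_mul (Phi_bd ht.1.le ht.2) c (norm_nonneg _) (by positivity)).trans ?_
    rw [Real.cosh_eq, show -37 * t = -41 * t + 4 * t by ring,
      show -45 * t = -41 * t + -(4 * t) by ring, Real.exp_add, Real.exp_add]
    have m : Real.exp (4 * t) * Real.exp (-(4 * t)) = 1 := by rw [← Real.exp_add]; simp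
    have p := Real.exp_pos (-(4 * t))
    have q := Real.one_le_exp (show 0 ≤ 4 * t by linarith [ht.1])
    have : Real.exp (4 * t) + Real.exp (-(4 * t)) ≤ 4 := by nlinarith
    nlinarith
  · have d : ∀ c : ℝ, c ≠ 0 → ∀ t, HasDerivAt (fun t => Real.exp (c * t) / c) (Real.exp (c * t)) t :=
      fun c hc t => (((hasDerivAt_id t).const_mul c).exp.div_const c).congr_deriv (by
        simp [hc])
    rw [intervalIntegral.integral_eq_sub_of_hasDerivAt (fun t _ =>
      (((d (-37) (by norm_num) t).add (d (-45) (by norm_num) t)).const_mul 0.000553).add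
        ((hasDerivAt_id t).const_mul 0.000004) |>.congr_deriv (by simp))
      (Continuous.intervalIntegrable (by fun_prop) _ _)]
    simp only [Pi.add_apply, mul_zero, Real.exp_zero, id]
    linarith [Real.exp_pos (-37 * aa), Real.exp_pos (-45 * aa)]

noncomputable def er (ζ t : ℂ) : ℂ :=
  exp (ζ * t) - (1 + ζ * ((exp t - exp (-t)) / 2) + ζ ^ 2 * ((exp t + exp (-t)) / 2 - 1))

theorem er_le {ζ : ℂ} (hζ : ‖ζ‖ = 1) {t : ℝ} (h0 : 0 ≤ t) (h1 : t ≤ aa) :
    ‖er ζ t‖ ≤ 0.377 * t ^ 3 := by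
  have a := aa_bd
  have b : ∀ x : ℂ, ‖x‖ = t → ‖exp x - (1 + x + x ^ 2 / 2 + x ^ 3 / 6)‖ ≤ t ^ 4 * (5 / 96) := by
    intro x hx
    have := exp_bound (x := x) (by linarith) (n := 4) (by norm_num)
    norm_num [sum_range_succ, Nat.factorial, hx] at this ⊢
    exact this
  have n : ‖(t:ℂ)‖ = t := by rw [norm_real, Real.norm_of_nonneg h0]
  have b1 := b (ζ * t) (by rw [norm_mul, hζ, n, one_mul])
  have b2 := b t n
  have b3 := b (-t) (by rw [norm_neg, n])
  set E1 := exp (ζ * t) - (1 + ζ * t + (ζ * t) ^ 2 / 2 + (ζ * t) ^ 3 / 6) with h1'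
  set E2 := exp t - (1 + t + (t:ℂ) ^ 2 / 2 + t ^ 3 / 6) with h2'
  set E3 := exp (-t) - (1 + -t + (-t:ℂ) ^ 2 / 2 + (-t) ^ 3 / 6) with h3'
  have e : er ζ t = (ζ ^ 3 - ζ) * (t ^ 3 / 6) + E1 + -(ζ * ((E2 - E3) / 2) +
      ζ ^ 2 * ((E2 + E3) / 2)) := by rw [er, h1', h2', h3']; ring
  have c1 : ‖(ζ ^ 3 - ζ) * (t ^ 3 / 6)‖ ≤ 2 * (t ^ 3 / 6) := by
    rw [norm_mul, norm_div, norm_pow, n]
    refine mul_le_mul ((norm_sub_le _ _).trans (by rw [norm_pow, hζ]; norm_num)) (by simp)
      (by positivity) (by norm_num)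
  have c2 := norm_add_le (ζ * ((E2 - E3) / 2)) (ζ ^ 2 * ((E2 + E3) / 2))
  rw [norm_mul, norm_mul, norm_pow, hζ, norm_div, norm_div] at c2
  have c3 := norm_sub_le E2 E3
  have c4 := norm_add_le E2 E3
  rw [e]
  refine norm_add₃_le.trans ?_
  rw [norm_neg]
  norm_num at c2
  have : t ^ 4 ≤ 0.276989 * t ^ 3 := by
    rw [pow_succ']; exact mul_le_mul_of_nonneg_right (h1.trans a.2) (pow_nonneg h0 3)
  linarith [pow_nonneg h0 3]

theorem lin6 (a b c d e f α β γ δ ε φ : ℂ) : ∫ t in (0:ℝ)..aa, (pp t : ℂ) * (a * exp (α * t) +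
    b * exp (β * t) + c * exp (γ * t) + d * exp (δ * t) + e * exp (ε * t) + f * exp (φ * t)) =
    a * K α + b * K β + c * K γ + d * K δ + e * K ε + f * K φ := by
  have := c_pp
  simp only [K, ← intervalIntegral.integral_const_mul]
  iterate 5 rw [← intervalIntegral.integral_add (Continuous.intervalIntegrable (by fun_prop) _ _)
    (Continuous.intervalIntegrable (by fun_prop) _ _)]
  congr 1
  ext t
  ring

noncomputable def H (t : ℝ) : ℝ := (Real.exp (6 * t) - Real.exp (-6 * t) -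
  3 * (Real.exp (4 * t) - Real.exp (-4 * t)) + 3 * (Real.exp (2 * t) - Real.exp (-2 * t))) / 16

theorem H_eq (t : ℝ) : H t = Real.sinh t ^ 3 * Real.cosh (3 * t) := by
  have e : ∀ n : ℕ, Real.exp (n * t) = Real.exp t ^ n ∧ Real.exp (-n * t) = (Real.exp t)⁻¹ ^ n :=
    fun n => ⟨Real.exp_nat_mul t n, by rw [← Real.exp_neg, ← Real.exp_nat_mul]; ring_nf⟩
  have e2 := e 2
  have e3 := e 3
  have e4 := e 4
  have e6 := e 6
  push_cast at e2 e3 e4 e6
  rw [H, Real.sinh_eq, Real.cosh_eq, ← neg_mul, e2.1, e2.2, e3.1, e3.2, e4.1, e4.2, e6.1, e6.2,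
    Real.exp_neg]
  have := Real.exp_pos t
  field_simp
  ring

theorem kv {u : ℤ} {κ : ℚ} (hu : Even u) (h : chk u 0 (1, 0) (κ, 0) 20) :
    |(K u).re - κ| ≤ 1 / 10 ^ 8 := by
  have := (abs_re_le_norm _).trans (K_val (Or.inr hu) (by norm_num) h om0)
  simpa [C] using this

theorem pH : ∫ t in (0:ℝ)..aa, pp t * H t ≤ 0.00012648 := by
  have e := lin6 (1 / 16) (-1 / 16) (-3 / 16) (3 / 16) (3 / 16) (-3 / 16) 6 (-6) 4 (-4) 2 (-2)
  have e2 : ((∫ t in (0:ℝ)..aa, pp t * H t : ℝ) : ℂ) = _ := (intervalIntegral.integral_ofReal).symm.trans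
    ((intervalIntegral.integral_congr fun t _ => by simp only [H]; push_cast; ring).trans e)
  have e3 := congrArg re e2
  have a1 := abs_le.1 (kv (by decide) r1)
  have a2 := abs_le.1 (kv (by decide) r2)
  have a3 := abs_le.1 (kv (by decide) r3)
  have a4 := abs_le.1 (kv (by decide) r4)
  have a5 := abs_le.1 (kv (by decide) r5)
  have a6 := abs_le.1 (kv (by decide) r6)
  norm_num at a1 a2 a3 a4 a5 a6 e3 ⊢
  linarith [a1.2, a2.1, a3.1, a4.2, a5.2, a6.1]

noncomputable def g1 : ℂ := -3 + 109 / 4 * I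
noncomputable def z0 : ℂ := 109 / 4 + 3 * I

theorem expand {w : ℂ} (hw : ‖w‖ = 1) : ‖G (z0 + w) -
    ((1 - (I * w) ^ 2) / 2 * K g1 + (I * w + (I * w) ^ 2) / 4 * K (g1 + 1) +
      (-(I * w) + (I * w) ^ 2) / 4 * K (g1 - 1) + (1 - (I * w) ^ 2) / 2 * K (-g1) +
      (-(I * w) + (I * w) ^ 2) / 4 * K (-g1 + 1) + (I * w + (I * w) ^ 2) / 4 * K (-g1 - 1))‖
      ≤ 0.0000478 := by
  have := c_pp
  have a := aa_bd
  have hζ : ‖I * w‖ = 1 := by rw [norm_mul, norm_I, hw, one_mul]
  have cH : Continuous H := by unfold H; fun_prop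
  rw [← lin6, G, ← intervalIntegral.integral_sub (Continuous.intervalIntegrable (by fun_prop) _ _)
    (Continuous.intervalIntegrable (by fun_prop) _ _)]
  refine (intervalIntegral.norm_integral_le_of_norm_le aa_nn
    (g := fun t => 0.377 * (pp t * H t) + 0.0000002)
    (.of_forall fun t ht => ?_) (Continuous.intervalIntegrable (by fun_prop) _ _)).trans ?_
  · have e : cos ((z0 + w) * t) - ((1 - (I * w) ^ 2) / 2 * exp (g1 * t) +
        (I * w + (I * w) ^ 2) / 4 * exp ((g1 + 1) * t) + (-(I * w) + (I * w) ^ 2) / 4 *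
        exp ((g1 - 1) * t) + (1 - (I * w) ^ 2) / 2 * exp (-g1 * t) +
        (-(I * w) + (I * w) ^ 2) / 4 * exp ((-g1 + 1) * t) + (I * w + (I * w) ^ 2) / 4 *
        exp ((-g1 - 1) * t)) =
        (exp (g1 * t) * er (I * w) t + exp (-g1 * t) * er (-(I * w)) t) / 2 := by
      have i : (z0 + w) * t * I = g1 * t + I * w * t := by
        rw [z0, g1]; linear_combination (3 * t : ℂ) * I_mul_I
      rw [cos, neg_mul, i, show -(g1 * t + I * w * t) = -g1 * t + -(I * w) * t by ring,
        show (g1 + 1) * t = g1 * t + t by ring, show (g1 - 1) * t = g1 * t + -t by ring,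
        show (-g1 + 1) * t = -g1 * t + t by ring, show (-g1 - 1) * t = -g1 * t + -t by ring]
      simp only [exp_add, er]
      ring
    have e1 := er_le hζ ht.1.le ht.2
    have e2 := er_le (ζ := -(I * w)) (by rw [norm_neg, hζ]) ht.1.le ht.2
    have t0 := ht.1
    have c : ‖(exp (g1 * t) * er (I * w) t + exp (-g1 * t) * er (-(I * w)) t) / 2‖ ≤
        0.377 * H t := by
      rw [norm_div, H_eq]
      have := norm_add_le (exp (g1 * t) * er (I * w) t) (exp (-g1 * t) * er (-(I * w)) t)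
      rw [norm_mul, norm_mul, norm_exp, norm_exp, show (g1 * t).re = -(3 * t) by simp [g1],
        show (-g1 * t).re = 3 * t by simp [g1]] at this
      have s := pow_le_pow_left₀ t0.le (Real.self_le_sinh_iff.2 t0.le) 3
      have p1 := Real.exp_pos (3 * t)
      have p2 := Real.exp_pos (-(3 * t))
      rw [Real.cosh_eq, show ‖(2:ℂ)‖ = 2 by simp]
      linarith [mul_le_mul_of_nonneg_left e1 p2.le, mul_le_mul_of_nonneg_left e2 p1.le,
        mul_le_mul_of_nonneg_left s (add_pos p1 p2).le]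
    have pe := abs_le.1 (pp_err ht.2)
    have p0 := tm_nn le_rfl t0.le
    have H0 : 0 ≤ H t := by
      rw [H_eq]; have := Real.sinh_nonneg_iff.2 t0.le; positivity
    have H1 : H t ≤ 0.1 := by
      have x1 : Real.exp t ≤ 62 / 47 := exp_aa ▸ Real.exp_le_exp.2 ht.2
      have x2 := Real.add_one_le_exp (-t)
      have x3 : Real.exp ((3:ℕ) * t) ≤ (62 / 47) ^ 3 := by rw [Real.exp_nat_mul]; gcongr
      have x4 := Real.exp_le_one_iff.2 (show -(3 * t) ≤ 0 by linarith)
      have s1 : Real.sinh t ≤ 0.3 := by rw [Real.sinh_eq]; linarith [ht.2]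
      have s2 : Real.cosh (3 * t) ≤ 2 := by rw [Real.cosh_eq]; norm_num at x3; linarith
      have := Real.sinh_nonneg_iff.2 t0.le
      rw [H_eq]
      calc _ ≤ (0.3:ℝ) ^ 3 * 2 := by gcongr
        _ ≤ _ := by norm_num
    have pa : |pp t| ≤ pp t + 0.000004 := by rw [abs_le]; constructor <;> linarith
    rw [← mul_sub, e, norm_mul, norm_real]
    refine (mul_le_mul pa c (norm_nonneg _) ((abs_nonneg _).trans pa)).trans ?_
    nlinarith
  · rw [intervalIntegral.integral_add (Continuous.intervalIntegrable (by fun_prop) _ _)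
      (Continuous.intervalIntegrable (by fun_prop) _ _), intervalIntegral.integral_const_mul,
      intervalIntegral.integral_const, smul_eq_mul]
    linarith [pH]

theorem kc {u : ℤ} {v : ℚ} {w κ : ℚ × ℚ} (hv : v ≠ 0) (h : chk u v w κ 0.001)
    (hw : ‖exp (v * aa * I) - C w‖ ≤ 1 / 10 ^ 4 * 2) {γ : ℂ} (e : γ = u + v * I) :
    ∃ d : ℂ, ‖d‖ ≤ 0.00000021 ∧ K γ = C κ + d :=
  ⟨K γ - C κ, e ▸ (K_val (Or.inl hv) (by norm_num) h hw).trans (by norm_num), by ring⟩

theorem vals : ‖G z0‖ ≤ 0.000003 ∧ ∀ w : ℂ, ‖w‖ = 1 → 0.000066 ≤ ‖G (z0 + w)‖ := by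
  obtain ⟨d1, b1, e1⟩ := kc (by norm_num) k1 om1 (γ := g1 - 1) (by simp [g1]; ring)
  obtain ⟨d2, b2, e2⟩ := kc (by norm_num) k2 om1 (γ := g1) (by simp [g1])
  obtain ⟨d3, b3, e3⟩ := kc (by norm_num) k3 om1 (γ := g1 + 1) (by simp [g1]; ring)
  obtain ⟨d4, b4, e4⟩ := kc (by norm_num) k4 om2 (γ := -g1 - 1) (by simp [g1]; ring)
  obtain ⟨d5, b5, e5⟩ := kc (by norm_num) k5 om2 (γ := -g1) (by simp [g1]; ring)
  obtain ⟨d6, b6, e6⟩ := kc (by norm_num) k6 om2 (γ := -g1 + 1) (by simp [g1]; ring)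
  have n0 := C_le (q := (0.000001075, -0.000002215)) (b := 0.0000025) (by norm_num)
    (by norm_num [nsq])
  have n2 := C_le (q := (-0.0000145325, 0.0000464525)) (b := 0.0000487) (by norm_num)
    (by norm_num [nsq])
  have n1 : 0.000168 ≤ ‖C (0.0001379975, -0.0000961925)‖ := by
    refine le_of_sq_le_sq ?_ (norm_nonneg _)
    rw [← normSq_eq_norm_sq, normSq_apply]
    norm_num [C]
  push_cast at n0 n2
  constructor
  · have e := lin6 (1 / 2) (1 / 2) 0 0 0 0 g1 (-g1) 0 0 0 0
    have e' : G z0 = C (0.000001075, -0.000002215) + (d2 + d5) / 2 := by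
      refine ((intervalIntegral.integral_congr fun t _ => ?_).trans e).trans ?_
      · have i : z0 * t * I = g1 * t := by rw [z0, g1]; linear_combination (3 * t : ℂ) * I_mul_I
        simp only [cos, neg_mul, i]
        ring
      · rw [e2, e5]; simp only [C]; push_cast; ring
    rw [e']
    refine (norm_add_le _ _).trans ?_
    rw [norm_div]
    norm_num
    linarith [norm_add_le d2 d5]
  · intro w hw
    have h := expand hw
    have hζ : ‖I * w‖ = 1 := by rw [norm_mul, norm_I, hw, one_mul]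
    rw [e1, e2, e3, e4, e5, e6] at h
    generalize I * w = ζ at h hζ
    set D := (1 - ζ ^ 2) / 2 * (d2 + d5) + (ζ + ζ ^ 2) / 4 * (d3 + d4) +
      (-ζ + ζ ^ 2) / 4 * (d1 + d6) with hD
    have z2 : ‖ζ ^ 2‖ = 1 := by rw [norm_pow, hζ, one_pow]
    have nD : ‖D‖ ≤ 0.000001 := by
      refine norm_add₃_le.trans ?_
      simp only [norm_mul, norm_div]
      have c1 := norm_sub_le 1 (ζ ^ 2)
      have c2 := norm_add_le ζ (ζ ^ 2)
      have c3 := norm_add_le (-ζ) (ζ ^ 2)
      rw [norm_neg] at c3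
      rw [norm_one] at c1
      have := mul_le_mul (c1.trans_eq (by rw [z2])) ((norm_add_le d2 d5).trans (add_le_add b2 b5))
        (norm_nonneg _) (by norm_num)
      have := mul_le_mul (c2.trans_eq (by rw [z2, hζ])) ((norm_add_le d3 d4).trans
        (add_le_add b3 b4)) (norm_nonneg _) (by norm_num)
      have := mul_le_mul (c3.trans_eq (by rw [z2, hζ])) ((norm_add_le d1 d6).trans
        (add_le_add b1 b6)) (norm_nonneg _) (by norm_num)
      norm_num at *
      linarith
    have e : (1 - ζ ^ 2) / 2 * (C (0.00291633, 0.01817121) + d2) +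
        (ζ + ζ ^ 2) / 4 * (C (0.00208827, 0.01847626) + d3) +
        (-ζ + ζ ^ 2) / 4 * (C (0.00367427, 0.01779925) + d1) +
        (1 - ζ ^ 2) / 2 * (C (-0.00291418, -0.01817564) + d5) +
        (-ζ + ζ ^ 2) / 4 * (C (-0.00397718, -0.01751839) + d6) +
        (ζ + ζ ^ 2) / 4 * (C (-0.00183919, -0.01858017) + d4) =
        ζ * C (0.0001379975, -0.0000961925) + (C (0.000001075, -0.000002215) +
        ζ ^ 2 * C (-0.0000145325, 0.0000464525) + D) := by
      rw [hD]; simp only [C]; push_cast; ring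
    rw [e] at h
    set R := G (z0 + w) - (ζ * C (0.0001379975, -0.0000961925) + (C (0.000001075, -0.000002215) +
        ζ ^ 2 * C (-0.0000145325, 0.0000464525) + D)) with hR
    have f2 : ζ * C (0.0001379975, -0.0000961925) = G (z0 + w) - R - (C (0.000001075, -0.000002215) +
        ζ ^ 2 * C (-0.0000145325, 0.0000464525) + D) := by rw [hR]; ring
    have c1 := congrArg norm f2
    rw [norm_mul, hζ, one_mul] at c1
    have c2 := norm_sub_le (G (z0 + w) - R) (C (0.000001075, -0.000002215) +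
        ζ ^ 2 * C (-0.0000145325, 0.0000464525) + D)
    have c3 := norm_sub_le (G (z0 + w)) R
    have c4 := norm_add₃_le (a := C (0.000001075, -0.000002215))
      (b := ζ ^ 2 * C (-0.0000145325, 0.0000464525)) (c := D)
    rw [norm_mul, z2, one_mul] at c4
    linarith

theorem main : ∃ a : ℝ, 0.11 < a ∧ ∃ z : ℂ, F a z = 0 ∧ 2 ≤ z.im := by
  have him : ∀ z ∈ Metric.closedBall z0 1, 2 ≤ z.im ∧ |z.im| ≤ 4 := fun z hz => by
    have := abs_le.1 ((abs_im_le_norm _).trans (mem_closedBall_iff_norm.1 hz))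
    simp [z0] at this
    exact ⟨by linarith, abs_le.2 ⟨by linarith, by linarith⟩⟩
  refine ⟨aa, by linarith [aa_bd.1], ?_⟩
  by_contra hn
  push Not at hn
  have nz : ∀ z ∈ Metric.closedBall z0 1, F aa z ≠ 0 := fun z hz e =>
    absurd (him z hz).1 (not_le.2 (hn z e))
  have m0 := Metric.mem_closedBall_self (x := z0) zero_le_one
  have cl := closure_ball z0 one_ne_zero
  have h := norm_le_of_forall_mem_frontier_norm_le (f := fun z => (F aa z)⁻¹)
    (Metric.isBounded_ball (x := z0) (r := 1)) (DifferentiableOn.diffContOnCl (by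
      rw [cl]; exact F_diff.differentiableOn.inv nz)) (C := 0.0000375⁻¹) (fun z hz => by
      rw [frontier_ball z0 one_ne_zero] at hz
      have a := vals.2 (z - z0) (mem_sphere_iff_norm.1 hz)
      have b := FG (him z (Metric.sphere_subset_closedBall hz)).2
      rw [add_sub_cancel] at a
      have c := norm_sub_norm_le (G z) (F aa z)
      rw [norm_sub_rev] at c
      rw [norm_inv]
      exact inv_anti₀ (by norm_num) (by linarith)) (cl ▸ m0)
  rw [norm_inv, inv_le_inv₀ (norm_pos_iff.2 (nz _ m0)) (by norm_num)] at h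
  linarith [norm_sub_norm_le (F aa z0) (G z0), FG (him _ m0).2, vals.1]

end Pool.Agent.H15.XI
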